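import Pool.Agent.Work.MP_b30479_gt.G2.CN.Sem

/-!
# Runs for several cells and covering runs

`rowS l go n code st`: a run which starts with the stack `st`; `rowS_sound`.
`cov l n code C L`: a run for the cell `C` in which the digit `12` means: the current cell is a part of
one of the cells of `L`; `cov_sound`: a point of `C` with the groups `l` lies in a cell of `L`.
-/

namespace Pool.Agent.Work.MP_b30479_gt.G2.CN

open Complex

noncomputable section

/-- all cells are in range -/
def allIn (st : List Cell) : Bool :=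
  @List.rec Cell (fun _ => Bool) true (fun C _ ih => cB (inC C) ih false) st

lemma allIn_spec : ∀ {st : List Cell}, allIn st = true → ∀ C ∈ st, C.In
  | [], _, _, hC => absurd hC (by simp)
  | A :: st, h, C, hC => by
    have h1 : cB (inC A) (allIn st) false = true := h
    obtain ⟨h2, h3⟩ := cB_and h1
    rcases List.mem_cons.1 hC with rfl | h4
    · exact inC_spec h2
    · exact allIn_spec h3 C h4

/-- a run of the checker for a list of cells: groups `l`, goals `go` -/
def rowS (l : List Grp) (go : List Grp) (n code : ℕ) (st : List Cell) : Bool :=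
  cB (allIn st) (cB (allG (csOf l)) (cB (allG (csOf go))
    (run (ofL 6 (nat_lit 13) (csOf l)) (csOf go) n code st) false) false) false

/-- **Soundness of a run for a list of cells.** -/
theorem rowS_sound {l : List Grp} {go : List Grp} {n code : ℕ} {st : List Cell}
    (h : rowS l go n code st = true) {C : Cell} (hC : C ∈ st) {u w : ℂ} (hm : C.Mem u w)
    (hl : ∀ g ∈ l, g.Ok u w) {g : Grp} (hg : g ∈ go) {c : ℂ} (hc : c * g.M.val u w = g.N.val u w) :
    ∀ Q ∈ g.H, ¬ Q.Sat c := by
  intro Q hQ hS
  have h1 := cB_and h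
  have h2 := cB_and h1.2
  have h3 := cB_and h2.2
  have h4 := run_spec (ofL_all 6 _ _ fun c hc => ⟨allG_spec h2.1 c hc, csOf_holds hl c hc⟩)
    (allG_spec h3.1) n code st h3.2 C hC (allIn_spec h1.1 C hC) hm
    (mkCon Q g.N g.M g.hd) (List.mem_flatMap.2 ⟨g, hg, List.mem_map.2 ⟨Q, hQ, rfl⟩⟩)
  exact h4 (mkCon_holds hc hS)

/-! ### covering runs -/

/-- the interval `[a, b]` is a part of `[c, d]` -/
def inJ (a b c d : ℕ) : Bool := cB (Nat.ble c a) (Nat.ble b d) false

lemma inJ_spec {a b c d : ℕ} (h : inJ a b c d = true) {t : ℝ} (ht : InI a b t) : InI c d t := by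
  have h1 : c ≤ a := Nat.le_of_ble_eq_true (cB_and h).1
  have h2 : b ≤ d := Nat.le_of_ble_eq_true (cB_and h).2
  have h1' : (c : ℝ) ≤ a := by exact_mod_cast h1
  have h2' : (b : ℝ) ≤ d := by exact_mod_cast h2
  exact ⟨h1'.trans ht.1, ht.2.trans h2'⟩

/-- the cell `A` is a part of `B` -/
def subC (A B : Cell) : Bool :=
  @Cell.rec (fun _ => Bool) (fun xl xh yl yh ul uh vl vh => @Cell.rec (fun _ => Bool)
    (fun xl' xh' yl' yh' ul' uh' vl' vh' => cB (inJ xl xh xl' xh') (cB (inJ yl yh yl' yh')
      (cB (inJ ul uh ul' uh') (inJ vl vh vl' vh') false) false) false) B) A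

lemma subC_spec {A B : Cell} (h : subC A B = true) {u w : ℂ} (hm : A.Mem u w) : B.Mem u w := by
  obtain ⟨xl, xh, yl, yh, ul, uh, vl, vh⟩ := A
  obtain ⟨xl', xh', yl', yh', ul', uh', vl', vh'⟩ := B
  have h1 := cB_and h
  have h2 := cB_and h1.2
  have h3 := cB_and h2.2
  exact ⟨inJ_spec h1.1 hm.1, inJ_spec h2.1 hm.2.1, inJ_spec h3.1 hm.2.2.1, inJ_spec h3.2 hm.2.2.2⟩

/-- the cell `A` is a part of one of the cells of `L` -/
def anyIn (L : List Cell) (A : Cell) : Bool :=
  @List.rec Cell (fun _ => Bool) false (fun B _ ih => cB (subC A B) true ih) L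

lemma anyIn_spec : ∀ {L : List Cell} {A : Cell}, anyIn L A = true → ∀ {u w : ℂ}, A.Mem u w →
    ∃ B ∈ L, B.Mem u w
  | [], _, h, _, _, _ => by
    have : (false : Bool) = true := h
    simp at this
  | B :: L, A, h, u, w, hm => by
    have h1 : cB (subC A B) true (anyIn L A) = true := h
    rcases cB_cases h1 with ⟨h2, _⟩ | ⟨_, h2⟩
    · exact ⟨B, List.mem_cons_self, subC_spec h2 hm⟩
    · obtain ⟨B', h3, h4⟩ := anyIn_spec h2 hm
      exact ⟨B', List.mem_cons_of_mem _ h3, h4⟩

/-- one step: token `t`, first cell `C`; `P` is the test of the digit `12` -/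
def stepP (cs : CT) (P : Cell → Bool) (t : ℕ) (st' : List Cell) (C : Cell) (k : List Cell → Bool) :
    Bool :=
  cB (Nat.ble t (nat_lit 11)) (cut t C fun A B => k (A :: B :: st'))
    (cB (cB (Nat.beq t (nat_lit 12)) (P C) (cs.get t (envOf C))) (k st') false)

/-- at most `n` steps with the digits of `code`, then `k` -/
def innerP (cs : CT) (P : Cell → Bool) (n : ℕ) : ℕ → List Cell → (List Cell → Bool) → Bool :=
  @Nat.rec (fun _ => ℕ → List Cell → (List Cell → Bool) → Bool) (fun _ st k => k st)
    (fun _ ih code st k => @List.rec Cell (fun _ => Bool) true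
      (fun C st' _ => stepP cs P (Nat.mod code (nat_lit 64)) st' C
        fun s => ih (Nat.div code (nat_lit 64)) s k) st) n

/-- the checker; `64` digits at a time -/
def runP (cs : CT) (P : Cell → Bool) (n : ℕ) : ℕ → List Cell → Bool :=
  @Nat.rec (fun _ => ℕ → List Cell → Bool)
    (fun _ st => @List.rec Cell (fun _ => Bool) true (fun _ _ _ => false) st)
    (fun _ ih code st => innerP cs P (nat_lit 64) (Nat.mod code (nat_lit 39402006196394479212279040100143613805079739270465446667948293404245721771497210611414266254884915640806627990306816)) st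
      (ih (Nat.div code (nat_lit 39402006196394479212279040100143613805079739270465446667948293404245721771497210611414266254884915640806627990306816)))) n

/-- the claim for the cells of a stack -/
def StOkP (Z : Prop) (u w : ℂ) (st : List Cell) : Prop := ∀ C ∈ st, C.In → C.Mem u w → Z

lemma StOkP_nil (Z : Prop) (u w : ℂ) : StOkP Z u w [] := fun C hC => absurd hC (by simp)

lemma stepP_spec {cs : CT} {P : Cell → Bool} {Z : Prop} {u w : ℂ} (hc : cs.All u w)
    (hP : ∀ C : Cell, C.In → C.Mem u w → P C = true → Z)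
    {t : ℕ} {st' : List Cell} {C : Cell} {k : List Cell → Bool} (h : stepP cs P t st' C k = true)
    (hk : ∀ s, k s = true → StOkP Z u w s) : StOkP Z u w (C :: st') := by
  intro C' hC' hI hm
  rcases cB_cases h with ⟨c1, h⟩ | ⟨_, h⟩
  · have c1' : t ≤ 11 := Nat.le_of_ble_eq_true c1
    rcases List.mem_cons.1 hC' with rfl | h2
    · obtain ⟨A, B, h3, hA, hB, h4⟩ := cut_spec hI hm c1' h
      have h5 := hk _ h3
      rcases h4 with h4 | h4
      · exact h5 A (by simp) hA h4
      · exact h5 B (by simp) hB h4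
    · have hcut : ∃ A B, k (A :: B :: st') = true := by
        obtain ⟨xl, xh, yl, yh, ul, uh, vl, vh⟩ := C
        rcases cB_cases h with ⟨_, h⟩ | ⟨_, h⟩
        · rcases cB_cases h with ⟨_, h⟩ | ⟨_, h⟩
          · exact ⟨_, _, h⟩
          · exact ⟨_, _, h⟩
        · rcases cB_cases h with ⟨_, h⟩ | ⟨_, h⟩
          · exact ⟨_, _, h⟩
          · exact ⟨_, _, h⟩
      obtain ⟨A, B, h3⟩ := hcut
      exact hk _ h3 C' (by simp [h2]) hI hm
  · obtain ⟨h3, h4⟩ := cB_and h
    rcases List.mem_cons.1 hC' with rfl | h2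
    · rcases cB_cases h3 with ⟨_, h5⟩ | ⟨_, h5⟩
      · exact hP _ hI hm h5
      · exact absurd h5 (CT.get_holds hI hm cs hc _)
    · exact hk _ h4 C' h2 hI hm

lemma innerP_spec {cs : CT} {P : Cell → Bool} {Z : Prop} {u w : ℂ} (hc : cs.All u w)
    (hP : ∀ C : Cell, C.In → C.Mem u w → P C = true → Z) :
    ∀ (n code : ℕ) (st : List Cell) (k : List Cell → Bool), innerP cs P n code st k = true →
    (∀ s, k s = true → StOkP Z u w s) → StOkP Z u w st
  | 0, _, st, _, h, hk => hk st h
  | _ + 1, _, [], _, _, _ => StOkP_nil _ _ _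
  | n + 1, code, C :: st', k, h, hk => by
    have h1 : stepP cs P (Nat.mod code (nat_lit 64)) st' C
        (fun s => innerP cs P n (Nat.div code (nat_lit 64)) s k) = true := h
    exact stepP_spec hc hP h1 fun s hs => innerP_spec hc hP n _ s k hs hk

theorem runP_spec {cs : CT} {P : Cell → Bool} {Z : Prop} {u w : ℂ} (hc : cs.All u w)
    (hP : ∀ C : Cell, C.In → C.Mem u w → P C = true → Z) :
    ∀ (n code : ℕ) (st : List Cell), runP cs P n code st = true → StOkP Z u w st
  | 0, _, [], _ => StOkP_nil _ _ _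
  | 0, _, _ :: _, h => by
    have : (false : Bool) = true := h
    simp at this
  | n + 1, code, st, h => by
    have h1 : innerP cs P (nat_lit 64) (Nat.mod code (nat_lit 39402006196394479212279040100143613805079739270465446667948293404245721771497210611414266254884915640806627990306816)) st
      (runP cs P n (Nat.div code (nat_lit 39402006196394479212279040100143613805079739270465446667948293404245721771497210611414266254884915640806627990306816))) = true := h
    exact innerP_spec hc hP _ _ st _ h1 fun s hs => runP_spec hc hP n _ s hs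

/-- a covering run: groups `l`, cell `C`, cells `L` -/
def cov (l : List Grp) (n code : ℕ) (C : Cell) (L : List Cell) : Bool :=
  cB (inC C) (cB (allG (csOf l)) (runP (ofL 6 (nat_lit 13) (csOf l)) (anyIn L) n code [C]) false) false

/-- **Soundness of a covering run.** -/
theorem cov_sound {l : List Grp} {n code : ℕ} {C : Cell} {L : List Cell}
    (h : cov l n code C L = true) {u w : ℂ} (hm : C.Mem u w) (hl : ∀ g ∈ l, g.Ok u w) :
    ∃ B ∈ L, B.Mem u w := by
  have h1 := cB_and h
  have h2 := cB_and h1.2
  exact runP_spec (P := anyIn L) (Z := ∃ B ∈ L, B.Mem u w)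
    (ofL_all 6 _ _ fun c hc => ⟨allG_spec h2.1 c hc, csOf_holds hl c hc⟩)
    (fun A _ hA hB => anyIn_spec hB hA) n code [C] h2.2 C List.mem_cons_self (inC_spec h1.1) hm

/-- A covering run and a run for the cells of the covering. -/
theorem cov_rowS {l : List Grp} {n code n' code' : ℕ} {C : Cell} {L : List Cell} {l' go : List Grp}
    (h : cov l n code C L = true) (h' : rowS l' go n' code' L = true) {u w : ℂ} (hm : C.Mem u w)
    (hl : ∀ g ∈ l, g.Ok u w) (hl' : ∀ g ∈ l', g.Ok u w) {g : Grp} (hg : g ∈ go) {c : ℂ}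
    (hc : c * g.M.val u w = g.N.val u w) : ∀ Q ∈ g.H, ¬ Q.Sat c := by
  obtain ⟨B, hB, hBm⟩ := cov_sound h hm hl
  exact rowS_sound h' hB hBm hl' hg hc

end

end Pool.Agent.Work.MP_b30479_gt.G2.CN
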