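import Mathlib
import Pool.Agent.Work.MP_b30479_gt.G2.CN.GI

/-!
# First order forms in two complex variables with exact Gaussian coefficients

`⟨c, p, r, m, l, e⟩`: the value is `C + P δ + R ε` up to `e`, where `C, P, R` are Gaussian integers
with the encodings `c, p, r`; `m` bounds `‖C‖` and `l` bounds `‖P‖ ρ + ‖R‖ σ`. The numbers `b` are
bounds of `‖C‖`, `‖P‖`, `‖R‖` for all cells (they are not computed with the forms).
-/

namespace Pool.Agent.Work.MP_b30479_gt.G2.CN

open Complex

noncomputable section

/-- the complex number of a Gaussian integer -/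
abbrev tc : GaussianInt →+* ℂ := GaussianInt.toComplex

lemma tc_re (z : GaussianInt) : (tc z).re = z.re := (GaussianInt.intCast_re z).symm
lemma tc_im (z : GaussianInt) : (tc z).im = z.im := (GaussianInt.intCast_im z).symm
lemma tc_star (z : GaussianInt) : tc (star z) = (starRingEnd ℂ) (tc z) := GaussianInt.toComplex_star z

/-- case distinction for numbers -/
def cN (c : Bool) (a b : ℕ) : ℕ := @Bool.rec (fun _ => ℕ) b a c
/-- case distinction for truth values -/
def cB (c a b : Bool) : Bool := @Bool.rec (fun _ => Bool) b a c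

lemma cB_and {c a : Bool} (h : cB c a false = true) : c = true ∧ a = true := by
  cases c
  · exact absurd h (by simp [cB])
  · exact ⟨rfl, h⟩

/-- distance of natural numbers -/
def ad (P Q : ℕ) : ℕ := Nat.add (Nat.sub P Q) (Nat.sub Q P)

lemma ad_cast (P Q : ℕ) : (ad P Q : ℝ) = |(P : ℝ) - Q| := by
  change (((P - Q) + (Q - P) : ℕ) : ℝ) = _
  rw [Nat.cast_add]
  rcases le_total P Q with h | h
  · have h' : (P : ℝ) ≤ Q := by exact_mod_cast h
    rw [Nat.sub_eq_zero_of_le h, Nat.cast_sub h, abs_of_nonpos (by linarith only [h'])]; simp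
  · have h' : (Q : ℝ) ≤ P := by exact_mod_cast h
    rw [Nat.sub_eq_zero_of_le h, Nat.cast_sub h, abs_of_nonneg (by linarith only [h'])]; simp

/-- one step of the square root algorithm -/
def nw (s t : ℕ) : ℕ := Nat.succ (Nat.div (Nat.add t (Nat.div s t)) (nat_lit 2))
/-- two steps -/
def nw2 (s t : ℕ) : ℕ := nw s (nw s t)
/-- bound for the absolute value -/
def bd (x y : ℕ) : ℕ := nw2 (Nat.add (Nat.mul x x) (Nat.mul y y)) (Nat.add x y)

lemma nw_def (s t : ℕ) : nw s t = (t + s / t) / 2 + 1 := rfl

lemma one_le_nw (s t : ℕ) : 1 ≤ nw s t := by rw [nw_def]; exact Nat.le_add_left 1 _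

lemma le_nw (s : ℕ) {t : ℕ} (ht : 0 < t) : √(s : ℝ) ≤ (nw s t : ℝ) := by
  have h1 : s < t * (s / t + 1) := Nat.lt_mul_div_succ s ht
  have h2 : t + s / t + 1 ≤ 2 * nw s t := by rw [nw_def]; omega
  have h3 : s ≤ t * (s / t + 1) := h1.le
  have h4 : (s : ℝ) ≤ t * (((s / t : ℕ) : ℝ) + 1) := by exact_mod_cast h3
  have h5 : (t : ℝ) + ((s / t : ℕ) : ℝ) + 1 ≤ 2 * (nw s t : ℝ) := by exact_mod_cast h2
  have ht' : (0 : ℝ) < t := by exact_mod_cast ht
  have h6 : √(s : ℝ) * √(s : ℝ) = s := Real.mul_self_sqrt (Nat.cast_nonneg _)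
  have h7 : 2 * t * √(s : ℝ) ≤ t * (2 * (nw s t : ℝ)) := by
    nlinarith only [h4, h6, h5, sq_nonneg ((t : ℝ) - √(s : ℝ))]
  have h8 : t * √(s : ℝ) ≤ t * (nw s t : ℝ) := by linarith only [h7]
  exact le_of_mul_le_mul_left h8 ht'

lemma le_bd (x y : ℕ) {z : ℂ} (hx : |z.re| ≤ x) (hy : |z.im| ≤ y) : ‖z‖ ≤ (bd x y : ℝ) := by
  have h0 : ‖z‖ ≤ √((x : ℝ) ^ 2 + (y : ℝ) ^ 2) := by
    rw [Complex.norm_eq_sqrt_sq_add_sq]
    apply Real.sqrt_le_sqrt
    have := sq_le_sq' (by linarith only [abs_nonneg z.re]) hx
    have := sq_le_sq' (by linarith only [abs_nonneg z.im]) hy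
    rw [sq_abs] at *
    linarith
  refine h0.trans ?_
  have h1 := le_nw (x * x + y * y) (one_le_nw (x * x + y * y) (x + y))
  push_cast at h1
  rw [pow_two, pow_two]
  exact h1

/-- the range needed for decoding -/
structure Rg (z : GaussianInt) : Prop where
  h1 : -(HH : ℤ) ≤ z.re
  h2 : z.re < HH
  h3 : -(HH : ℤ) ≤ z.im
  h4 : z.im < HH

lemma Rg_of {z : GaussianInt} (h : ‖tc z‖ < HH) : Rg z := by
  have h1 := (Complex.abs_re_le_norm (tc z)).trans_lt h
  have h2 := (Complex.abs_im_le_norm (tc z)).trans_lt h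
  rw [tc_re, abs_lt] at h1
  rw [tc_im, abs_lt] at h2
  have a1 : (-(HH : ℤ) : ℤ) < z.re := by
    have := h1.1
    exact_mod_cast this
  have a2 : z.re < (HH : ℤ) := by exact_mod_cast h1.2
  have a3 : (-(HH : ℤ) : ℤ) < z.im := by
    have := h2.1
    exact_mod_cast this
  have a4 : z.im < (HH : ℤ) := by exact_mod_cast h2.2
  exact ⟨a1.le, a2, a3.le, a4⟩

lemma dec_re {n : ℕ} {z : GaussianInt} (h : Rep n z) (g : Rg z) : (dre n : ℝ) = (tc z).re + HH := by
  have := (decode h g.h1 g.h2 g.h3 g.h4).1
  rw [tc_re]
  exact_mod_cast this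

lemma dec_im {n : ℕ} {z : GaussianInt} (h : Rep n z) (g : Rg z) : (dim n : ℝ) = (tc z).im + HH := by
  have := (decode h g.h1 g.h2 g.h3 g.h4).2
  rw [tc_im]
  exact_mod_cast this

lemma Rep.cj {n : ℕ} {z : GaussianInt} (h : Rep n z) (g : Rg z) : Rep (CN.cj n) (star z) :=
  (Rep_cj h g.h1 g.h2 g.h3 g.h4).1

lemma Rep.nj {n : ℕ} {z : GaussianInt} (h : Rep n z) (g : Rg z) : Rep (CN.nj n) (-star z) :=
  (Rep_cj h g.h1 g.h2 g.h3 g.h4).2

/-- bound of the absolute value of a decoded number -/
def nrd (d : ℕ) : ℕ := bd (ad (Nat.mod d (nat_lit 13407807929942597099574024998205846127479365820592393377723561443721764030073546976801874298166903427690031858186486050853753882811946569946433649006084096)) (nat_lit 6703903964971298549787012499102923063739682910296196688861780721860882015036773488400937149083451713845015929093243025426876941405973284973216824503042048)) (ad (Nat.div d (nat_lit 13407807929942597099574024998205846127479365820592393377723561443721764030073546976801874298166903427690031858186486050853753882811946569946433649006084096))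 (nat_lit 6703903964971298549787012499102923063739682910296196688861780721860882015036773488400937149083451713845015929093243025426876941405973284973216824503042048))
/-- bound of the absolute value, by decoding -/
def nrmE (n : ℕ) : ℕ := nrd (dc n)

lemma nrmE_def (n : ℕ) : nrmE n = bd (ad (dre n) HH) (ad (dim n) HH) := rfl

lemma le_nrmE {n : ℕ} {z : GaussianInt} (h : Rep n z) (g : Rg z) : ‖tc z‖ ≤ (nrmE n : ℝ) := by
  rw [nrmE_def]
  apply le_bd
  · rw [ad_cast, dec_re h g]
    simp
  · rw [ad_cast, dec_im h g]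
    simp

/-! ### encodings with bounds -/

/-- `n` represents `z` and `b` bounds its absolute value -/
structure RB (n : ℕ) (z : GaussianInt) (b : ℕ) : Prop where
  rep : Rep n z
  le : ‖tc z‖ ≤ b

namespace RB

variable {n m b b' : ℕ} {z w : GaussianInt}

lemma add (h : RB n z b) (h' : RB m w b') : RB (Nat.add n m) (z + w) (Nat.add b b') := by
  refine ⟨h.rep.add h'.rep, ?_⟩
  change _ ≤ ((b + b' : ℕ) : ℝ)
  rw [map_add]
  push_cast
  exact (norm_add_le _ _).trans (add_le_add h.le h'.le)

lemma mul (h : RB n z b) (h' : RB m w b') : RB (Nat.mul n m) (z * w) (Nat.mul b b') := by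
  refine ⟨h.rep.mul h'.rep, ?_⟩
  change _ ≤ ((b * b' : ℕ) : ℝ)
  rw [map_mul, norm_mul]
  push_cast
  exact mul_le_mul h.le h'.le (norm_nonneg _) (Nat.cast_nonneg _)

lemma pow (h : RB n z b) (k : ℕ) : RB (Nat.pow n k) (z ^ k) (Nat.pow b k) := by
  refine ⟨h.rep.pow k, ?_⟩
  change _ ≤ ((b ^ k : ℕ) : ℝ)
  rw [map_pow, norm_pow]
  push_cast
  exact pow_le_pow_left₀ (norm_nonneg _) h.le k

lemma mod (h : RB n z b) : RB (Nat.mod n (nat_lit 179769313486231590772930519078902473361797697894230657273430081157732675805500963132708477322407536021120113879871393357658789768814416622492847430639474124377767893424865485276302219601246094119453082952085005768838150682342462881473913110540827237163350510684586298239947245938479716304835356329624224137217)) z b := ⟨h.rep.mod, h.le⟩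

lemma m1 : RB (nat_lit 179769313486231590772930519078902473361797697894230657273430081157732675805500963132708477322407536021120113879871393357658789768814416622492847430639474124377767893424865485276302219601246094119453082952085005768838150682342462881473913110540827237163350510684586298239947245938479716304835356329624224137216) (-1) (nat_lit 1) := by
  refine ⟨Rep_M1, ?_⟩
  rw [map_neg, map_one, norm_neg, norm_one]
  exact_mod_cast le_rfl

lemma nat (n : ℕ) : RB n (n : GaussianInt) n := by
  refine ⟨Rep_nat n, ?_⟩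
  have en : tc (n : GaussianInt) = (n : ℂ) := map_natCast tc n
  rw [en]
  simp

lemma mono (h : RB n z b) (hb : b ≤ b') : RB n z b' :=
  ⟨h.rep, h.le.trans (by exact_mod_cast hb)⟩

lemma rg (h : RB n z b) (hb : b < HH) : Rg z :=
  Rg_of (h.le.trans_lt (by exact_mod_cast hb))

lemma nrm (h : RB n z b) (hb : b < HH) : ‖tc z‖ ≤ (nrmE n : ℝ) := le_nrmE h.rep (h.rg hb)

lemma cj (h : RB n z b) (hb : b < HH) : RB (CN.cj n) (star z) b :=
  ⟨h.rep.cj (h.rg hb), by rw [tc_star, Complex.norm_conj]; exact h.le⟩

lemma nj (h : RB n z b) (hb : b < HH) : RB (CN.nj n) (-star z) b :=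
  ⟨h.rep.nj (h.rg hb), by rw [map_neg, norm_neg, tc_star, Complex.norm_conj]; exact h.le⟩

lemma zero (b : ℕ) : RB (nat_lit 0) 0 b := by
  refine ⟨Rep_zero, ?_⟩
  rw [map_zero, norm_zero]
  exact Nat.cast_nonneg _

lemma one {b : ℕ} (hb : 1 ≤ b) : RB (nat_lit 1) 1 b := by
  refine ⟨Rep_one, ?_⟩
  rw [map_one, norm_one]
  exact_mod_cast hb

end RB

/-! ### the environment -/

/-- the scale -/
def D : ℝ := 16384

lemma D_pos : 0 < D := by unfold D; norm_num

/-- bound of all centres -/
def WW : ℕ := nat_lit 262144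

/-- encoded centres, bounds of their absolute values, half widths, bounds of the offsets -/
structure Env where
  x : ℕ
  y : ℕ
  mx : ℕ
  my : ℕ
  a : ℕ
  b : ℕ
  c : ℕ
  d : ℕ
  ρ : ℕ
  σ : ℕ

structure Env.Ok (E : Env) (X Y : GaussianInt) : Prop where
  x : RB E.x X (nat_lit 262144)
  y : RB E.y Y (nat_lit 262144)
  mx : ‖tc X‖ ≤ E.mx
  my : ‖tc Y‖ ≤ E.my

structure Off (E : Env) (δ ε : ℂ) : Prop where
  a : |δ.re| ≤ E.a
  b : |δ.im| ≤ E.b
  c : |ε.re| ≤ E.c
  d : |ε.im| ≤ E.d
  ρ : ‖δ‖ ≤ E.ρ
  σ : ‖ε‖ ≤ E.σ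

/-! ### forms -/

structure G where
  c : ℕ
  p : ℕ
  r : ℕ
  m : ℕ
  l : ℕ
  e : ℕ

/-- the form `A` with the bound `b` describes `x` -/
def Enc (E : Env) (δ ε : ℂ) (b : ℕ) (A : G) (x : ℂ) : Prop :=
  ∃ C P R : GaussianInt, RB A.c C b ∧ RB A.p P b ∧ RB A.r R b ∧ ‖tc C‖ ≤ A.m ∧
    ‖tc P‖ * E.ρ + ‖tc R‖ * E.σ ≤ A.l ∧ ‖x - (tc C + tc P * δ + tc R * ε)‖ ≤ A.e

variable {E : Env} {δ ε x y : ℂ} {A B : G} {b b' : ℕ}

lemma lin_le (h : Off E δ ε) {P R : ℂ} {l : ℝ} (hl : ‖P‖ * E.ρ + ‖R‖ * E.σ ≤ l) :
    ‖P * δ + R * ε‖ ≤ l := by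
  refine (norm_add_le _ _).trans ?_
  rw [norm_mul, norm_mul]
  have h1 := mul_le_mul_of_nonneg_left h.ρ (norm_nonneg P)
  have h2 := mul_le_mul_of_nonneg_left h.σ (norm_nonneg R)
  linarith only [hl, h1, h2]

namespace G

def add (A B : G) : G := @G.rec (fun _ => G) (fun c p r m l e => @G.rec (fun _ => G) (fun c' p' r' m' l' e' =>
  ⟨Nat.add c c', Nat.add p p', Nat.add r r', Nat.add m m', Nat.add l l', Nat.add e e'⟩) B) A

def sub (A B : G) : G := @G.rec (fun _ => G) (fun c p r m l e => @G.rec (fun _ => G) (fun c' p' r' m' l' e' =>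
  ⟨Nat.add c (Nat.mul (nat_lit 179769313486231590772930519078902473361797697894230657273430081157732675805500963132708477322407536021120113879871393357658789768814416622492847430639474124377767893424865485276302219601246094119453082952085005768838150682342462881473913110540827237163350510684586298239947245938479716304835356329624224137216) c'), Nat.add p (Nat.mul (nat_lit 179769313486231590772930519078902473361797697894230657273430081157732675805500963132708477322407536021120113879871393357658789768814416622492847430639474124377767893424865485276302219601246094119453082952085005768838150682342462881473913110540827237163350510684586298239947245938479716304835356329624224137216) p'),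
    Nat.add r (Nat.mul (nat_lit 179769313486231590772930519078902473361797697894230657273430081157732675805500963132708477322407536021120113879871393357658789768814416622492847430639474124377767893424865485276302219601246094119453082952085005768838150682342462881473913110540827237163350510684586298239947245938479716304835356329624224137216) r'), Nat.add m m', Nat.add l l', Nat.add e e'⟩) B) A

def mul (A B : G) : G := @G.rec (fun _ => G) (fun c p r m l e => @G.rec (fun _ => G) (fun c' p' r' m' l' e' =>
  ⟨Nat.mod (Nat.mul c c') (nat_lit 179769313486231590772930519078902473361797697894230657273430081157732675805500963132708477322407536021120113879871393357658789768814416622492847430639474124377767893424865485276302219601246094119453082952085005768838150682342462881473913110540827237163350510684586298239947245938479716304835356329624224137217), Nat.mod (Nat.add (Nat.mul c p') (Nat.mul c' p)) (nat_lit 179769313486231590772930519078902473361797697894230657273430081157732675805500963132708477322407536021120113879871393357658789768814416622492847430639474124377767893424865485276302219601246094119453082952085005768838150682342462881473913110540827237163350510684586298239947245938479716304835356329624224137217),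
    Nat.mod (Nat.add (Nat.mul c r') (Nat.mul c' r)) (nat_lit 179769313486231590772930519078902473361797697894230657273430081157732675805500963132708477322407536021120113879871393357658789768814416622492847430639474124377767893424865485276302219601246094119453082952085005768838150682342462881473913110540827237163350510684586298239947245938479716304835356329624224137217), Nat.mul m m',
    Nat.add (Nat.mul m l') (Nat.mul m' l),
    Nat.add (Nat.add (Nat.mul m e') (Nat.mul m' e)) (Nat.mul (Nat.add l e) (Nat.add l' e'))⟩) B) A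

def sq (A : G) : G := @G.rec (fun _ => G) (fun c p r m l e =>
  ⟨Nat.mod (Nat.mul c c) (nat_lit 179769313486231590772930519078902473361797697894230657273430081157732675805500963132708477322407536021120113879871393357658789768814416622492847430639474124377767893424865485276302219601246094119453082952085005768838150682342462881473913110540827237163350510684586298239947245938479716304835356329624224137217), Nat.mod (Nat.mul (nat_lit 2) (Nat.mul c p)) (nat_lit 179769313486231590772930519078902473361797697894230657273430081157732675805500963132708477322407536021120113879871393357658789768814416622492847430639474124377767893424865485276302219601246094119453082952085005768838150682342462881473913110540827237163350510684586298239947245938479716304835356329624224137217),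
    Nat.mod (Nat.mul (nat_lit 2) (Nat.mul c r)) (nat_lit 179769313486231590772930519078902473361797697894230657273430081157732675805500963132708477322407536021120113879871393357658789768814416622492847430639474124377767893424865485276302219601246094119453082952085005768838150682342462881473913110540827237163350510684586298239947245938479716304835356329624224137217), Nat.mul m m, Nat.mul (nat_lit 2) (Nat.mul m l),
    Nat.add (Nat.mul (nat_lit 2) (Nat.mul m e)) (Nat.mul (Nat.add l e) (Nat.add l e))⟩) A

/-- multiplication by the Gaussian integer with encoding `g` and bound `n` -/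
def gm (g n : ℕ) (A : G) : G := @G.rec (fun _ => G) (fun c p r m l e =>
  ⟨Nat.mod (Nat.mul g c) (nat_lit 179769313486231590772930519078902473361797697894230657273430081157732675805500963132708477322407536021120113879871393357658789768814416622492847430639474124377767893424865485276302219601246094119453082952085005768838150682342462881473913110540827237163350510684586298239947245938479716304835356329624224137217), Nat.mod (Nat.mul g p) (nat_lit 179769313486231590772930519078902473361797697894230657273430081157732675805500963132708477322407536021120113879871393357658789768814416622492847430639474124377767893424865485276302219601246094119453082952085005768838150682342462881473913110540827237163350510684586298239947245938479716304835356329624224137217),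
    Nat.mod (Nat.mul g r) (nat_lit 179769313486231590772930519078902473361797697894230657273430081157732675805500963132708477322407536021120113879871393357658789768814416622492847430639474124377767893424865485276302219601246094119453082952085005768838150682342462881473913110540827237163350510684586298239947245938479716304835356329624224137217), Nat.mul n m, Nat.mul n l, Nat.mul n e⟩) A

/-- multiplication by a natural number -/
def nm (n : ℕ) (A : G) : G := @G.rec (fun _ => G) (fun c p r m l e =>
  ⟨Nat.mul n c, Nat.mul n p, Nat.mul n r, Nat.mul n m, Nat.mul n l, Nat.mul n e⟩) A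

/-- new bound for the value -/
def nc (A : G) : G := @G.rec (fun _ => G) (fun c p r _ l e => ⟨c, p, r, nrmE c, l, e⟩) A

/-- new bounds for the value and the linear part -/
def nl (ρ σ : ℕ) (A : G) : G := @G.rec (fun _ => G) (fun c p r _ _ e =>
  ⟨c, p, r, nrmE c, Nat.add (Nat.mul (nrmE p) ρ) (Nat.mul (nrmE r) σ), e⟩) A

end G

lemma Enc.add (h : Enc E δ ε b A x) (h' : Enc E δ ε b' B y) :
    Enc E δ ε (Nat.add b b') (A.add B) (x + y) := by
  obtain ⟨C, P, R, h1, h2, h3, h4, h5, h6⟩ := h
  obtain ⟨C', P', R', g1, g2, g3, g4, g5, g6⟩ := h'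
  obtain ⟨c, p, r, m, l, e⟩ := A
  obtain ⟨c', p', r', m', l', e'⟩ := B
  refine ⟨C + C', P + P', R + R', h1.add g1, h2.add g2, h3.add g3, ?_, ?_, ?_⟩
  · change _ ≤ ((m + m' : ℕ) : ℝ)
    rw [map_add]
    push_cast
    exact (norm_add_le _ _).trans (add_le_add h4 g4)
  · change _ ≤ ((l + l' : ℕ) : ℝ)
    rw [map_add, map_add]
    push_cast
    dsimp only at h5 g5
    have a1 := mul_le_mul_of_nonneg_right (norm_add_le (tc P) (tc P')) (Nat.cast_nonneg (α := ℝ) E.ρ)
    have a2 := mul_le_mul_of_nonneg_right (norm_add_le (tc R) (tc R')) (Nat.cast_nonneg (α := ℝ) E.σ)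
    linarith only [h5, g5, a1, a2]
  · change _ ≤ ((e + e' : ℕ) : ℝ)
    rw [map_add, map_add, map_add]
    push_cast
    have e : x + y - (tc C + tc C' + (tc P + tc P') * δ + (tc R + tc R') * ε) =
        (x - (tc C + tc P * δ + tc R * ε)) + (y - (tc C' + tc P' * δ + tc R' * ε)) := by ring
    rw [e]
    exact (norm_add_le _ _).trans (add_le_add h6 g6)

lemma one_mul_le {b : ℕ} : Nat.mul 1 b ≤ b := by
  change 1 * b ≤ b
  omega

lemma Enc.neg {c p r m l e : ℕ} (h : Enc E δ ε b ⟨c, p, r, m, l, e⟩ x) :
    Enc E δ ε b ⟨Nat.mul (nat_lit 179769313486231590772930519078902473361797697894230657273430081157732675805500963132708477322407536021120113879871393357658789768814416622492847430639474124377767893424865485276302219601246094119453082952085005768838150682342462881473913110540827237163350510684586298239947245938479716304835356329624224137216) c, Nat.mul (nat_lit 179769313486231590772930519078902473361797697894230657273430081157732675805500963132708477322407536021120113879871393357658789768814416622492847430639474124377767893424865485276302219601246094119453082952085005768838150682342462881473913110540827237163350510684586298239947245938479716304835356329624224137216)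 p, Nat.mul (nat_lit 179769313486231590772930519078902473361797697894230657273430081157732675805500963132708477322407536021120113879871393357658789768814416622492847430639474124377767893424865485276302219601246094119453082952085005768838150682342462881473913110540827237163350510684586298239947245938479716304835356329624224137216) r, m, l, e⟩ (-x) := by
  obtain ⟨C, P, R, h1, h2, h3, h4, h5, h6⟩ := h
  refine ⟨-1 * C, -1 * P, -1 * R, (RB.m1.mul h1).mono one_mul_le, (RB.m1.mul h2).mono one_mul_le,
    (RB.m1.mul h3).mono one_mul_le, ?_, ?_, ?_⟩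
  · rw [map_mul, map_neg, map_one, neg_one_mul, norm_neg]
    exact h4
  · rw [map_mul, map_mul, map_neg, map_one, neg_one_mul, neg_one_mul, norm_neg, norm_neg]
    exact h5
  · rw [map_mul, map_mul, map_mul, map_neg, map_one, ← norm_neg]
    have e : -(-x - (-1 * tc C + -1 * tc P * δ + -1 * tc R * ε)) =
        x - (tc C + tc P * δ + tc R * ε) := by ring
    rw [e]
    exact h6

lemma Enc.sub (h : Enc E δ ε b A x) (h' : Enc E δ ε b' B y) :
    Enc E δ ε (Nat.add b b') (A.sub B) (x - y) := by
  obtain ⟨c', p', r', m', l', e'⟩ := B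
  rw [sub_eq_add_neg]
  exact h.add h'.neg

lemma dbl_le {b b' : ℕ} : Nat.mul b b' ≤ Nat.mul 2 (Nat.mul b b') := by
  change b * b' ≤ 2 * (b * b')
  omega

lemma dbl_le' {b b' : ℕ} : Nat.add (Nat.mul b b') (Nat.mul b' b) ≤ Nat.mul 2 (Nat.mul b b') := by
  change b * b' + b' * b ≤ 2 * (b * b')
  rw [mul_comm b' b]
  omega

lemma Enc.mul (ho : Off E δ ε) (h : Enc E δ ε b A x) (h' : Enc E δ ε b' B y) :
    Enc E δ ε (Nat.mul 2 (Nat.mul b b')) (A.mul B) (x * y) := by
  obtain ⟨C, P, R, h1, h2, h3, h4, h5, h6⟩ := h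
  obtain ⟨C', P', R', g1, g2, g3, g4, g5, g6⟩ := h'
  obtain ⟨c, p, r, m, l, e⟩ := A
  obtain ⟨c', p', r', m', l', e'⟩ := B
  dsimp only at h4 h5 h6 g4 g5 g6
  refine ⟨C * C', C * P' + C' * P, C * R' + C' * R, (h1.mul g1).mod.mono dbl_le,
    ((h1.mul g2).add (g1.mul h2)).mod.mono dbl_le', ((h1.mul g3).add (g1.mul h3)).mod.mono dbl_le', ?_, ?_, ?_⟩
  · change _ ≤ ((m * m' : ℕ) : ℝ)
    rw [map_mul, norm_mul]
    push_cast
    exact mul_le_mul h4 g4 (norm_nonneg _) (Nat.cast_nonneg _)
  · change _ ≤ ((m * l' + m' * l : ℕ) : ℝ)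
    rw [map_add, map_add, map_mul, map_mul, map_mul, map_mul]
    push_cast
    have r0 : (0 : ℝ) ≤ E.ρ := Nat.cast_nonneg _
    have s0 : (0 : ℝ) ≤ E.σ := Nat.cast_nonneg _
    have a1 := mul_le_mul_of_nonneg_right (norm_add_le (tc C * tc P') (tc C' * tc P)) r0
    have a2 := mul_le_mul_of_nonneg_right (norm_add_le (tc C * tc R') (tc C' * tc R)) s0
    rw [norm_mul, norm_mul] at a1 a2
    have a3 := mul_le_mul h4 g5 (by positivity) (Nat.cast_nonneg _)
    have a4 := mul_le_mul g4 h5 (by positivity) (Nat.cast_nonneg _)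
    linarith only [a1, a2, a3, a4]
  · change _ ≤ ((m * e' + m' * e + (l + e) * (l' + e') : ℕ) : ℝ)
    have l1 := lin_le ho h5
    have l2 := lin_le ho g5
    set s := x - (tc C + tc P * δ + tc R * ε) with hs
    set s' := y - (tc C' + tc P' * δ + tc R' * ε) with hs'
    set L := tc P * δ + tc R * ε with hL
    set L' := tc P' * δ + tc R' * ε with hL'
    rw [map_add, map_add, map_mul, map_mul, map_mul, map_mul, map_mul]
    have e0 : x * y - (tc C * tc C' + (tc C * tc P' + tc C' * tc P) * δ +
        (tc C * tc R' + tc C' * tc R) * ε) =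
        tc C * s' + tc C' * s + (L + s) * (L' + s') := by
      have ex : x = tc C + L + s := by rw [hs, hL]; ring
      have ey : y = tc C' + L' + s' := by rw [hs', hL']; ring
      rw [ex, ey, hL, hL']
      ring
    rw [e0]
    push_cast
    have b1 : ‖tc C * s'‖ ≤ (m : ℝ) * e' := by
      rw [norm_mul]; exact mul_le_mul h4 g6 (norm_nonneg _) (Nat.cast_nonneg _)
    have b2 : ‖tc C' * s‖ ≤ (m' : ℝ) * e := by
      rw [norm_mul]; exact mul_le_mul g4 h6 (norm_nonneg _) (Nat.cast_nonneg _)
    have b3 : ‖(L + s) * (L' + s')‖ ≤ ((l : ℝ) + e) * (l' + e') := by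
      rw [norm_mul]
      exact mul_le_mul ((norm_add_le _ _).trans (add_le_add l1 h6))
        ((norm_add_le _ _).trans (add_le_add l2 g6)) (norm_nonneg _) (by positivity)
    exact (norm_add₃_le).trans (by linarith only [b1, b2, b3])

lemma Rep_two : Rep (nat_lit 2) (2 : GaussianInt) := by
  have := Rep_nat 2
  simpa using this

lemma RB_two : RB (nat_lit 2) (2 : GaussianInt) 2 := by
  refine ⟨Rep_two, ?_⟩
  rw [map_ofNat]
  simp

lemma Enc.sq (ho : Off E δ ε) (h : Enc E δ ε b A x) :
    Enc E δ ε (Nat.mul 2 (Nat.mul b b)) A.sq (x ^ 2) := by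
  obtain ⟨C, P, R, h1, h2, h3, h4, h5, h6⟩ := h
  obtain ⟨c, p, r, m, l, e⟩ := A
  dsimp only at h4 h5 h6
  refine ⟨C * C, 2 * (C * P), 2 * (C * R), (h1.mul h1).mod.mono dbl_le, (RB_two.mul (h1.mul h2)).mod,
    (RB_two.mul (h1.mul h3)).mod, ?_, ?_, ?_⟩
  · change _ ≤ ((m * m : ℕ) : ℝ)
    rw [map_mul, norm_mul]
    push_cast
    exact mul_le_mul h4 h4 (norm_nonneg _) (Nat.cast_nonneg _)
  · change _ ≤ ((2 * (m * l) : ℕ) : ℝ)
    rw [map_mul, map_mul, map_mul, map_mul, norm_mul, norm_mul, norm_mul, norm_mul]
    have e2 : ‖tc (2 : GaussianInt)‖ = 2 := by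
      rw [map_ofNat]; simp
    rw [e2]
    push_cast
    have a3 := mul_le_mul h4 h5 (by positivity) (Nat.cast_nonneg _)
    linarith only [a3]
  · change _ ≤ ((2 * (m * e) + (l + e) * (l + e) : ℕ) : ℝ)
    have l1 := lin_le ho h5
    set s := x - (tc C + tc P * δ + tc R * ε) with hs
    set L := tc P * δ + tc R * ε with hL
    rw [map_mul, map_mul, map_mul, map_mul, map_mul, map_ofNat]
    have e0 : x ^ 2 - (tc C * tc C + 2 * (tc C * tc P) * δ + 2 * (tc C * tc R) * ε) =
        2 * (tc C * s) + (L + s) * (L + s) := by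
      have ex : x = tc C + L + s := by rw [hs, hL]; ring
      rw [ex, hL]
      ring
    rw [e0]
    push_cast
    have b1 : ‖tc C * s‖ ≤ (m : ℝ) * e := by
      rw [norm_mul]; exact mul_le_mul h4 h6 (norm_nonneg _) (Nat.cast_nonneg _)
    have b1' : ‖2 * (tc C * s)‖ ≤ 2 * ((m : ℝ) * e) := by
      rw [norm_mul (2 : ℂ), Complex.norm_ofNat]
      linarith only [b1]
    have b3 : ‖(L + s) * (L + s)‖ ≤ ((l : ℝ) + e) * (l + e) := by
      rw [norm_mul]
      exact mul_le_mul ((norm_add_le _ _).trans (add_le_add l1 h6))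
        ((norm_add_le _ _).trans (add_le_add l1 h6)) (norm_nonneg _) (by positivity)
    exact (norm_add_le _ _).trans (by linarith only [b1', b3])

lemma Enc.gm {g n : ℕ} {z : GaussianInt} (hg : RB g z n) (h : Enc E δ ε b A x) :
    Enc E δ ε (Nat.mul n b) (A.gm g n) (tc z * x) := by
  obtain ⟨C, P, R, h1, h2, h3, h4, h5, h6⟩ := h
  obtain ⟨c, p, r, m, l, e⟩ := A
  dsimp only at h4 h5 h6
  refine ⟨z * C, z * P, z * R, (hg.mul h1).mod, (hg.mul h2).mod, (hg.mul h3).mod, ?_, ?_, ?_⟩
  · change _ ≤ ((n * m : ℕ) : ℝ)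
    rw [map_mul, norm_mul]
    push_cast
    exact mul_le_mul hg.le h4 (norm_nonneg _) (Nat.cast_nonneg _)
  · change _ ≤ ((n * l : ℕ) : ℝ)
    rw [map_mul, map_mul, norm_mul, norm_mul]
    push_cast
    have r0 : (0 : ℝ) ≤ E.ρ := Nat.cast_nonneg _
    have s0 : (0 : ℝ) ≤ E.σ := Nat.cast_nonneg _
    have := mul_le_mul hg.le h5 (by positivity) (Nat.cast_nonneg _)
    linarith only [this]
  · change _ ≤ ((n * e : ℕ) : ℝ)
    rw [map_mul, map_mul, map_mul]
    have e0 : tc z * x - (tc z * tc C + tc z * tc P * δ + tc z * tc R * ε) =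
        tc z * (x - (tc C + tc P * δ + tc R * ε)) := by ring
    rw [e0, norm_mul]
    push_cast
    exact mul_le_mul hg.le h6 (norm_nonneg _) (Nat.cast_nonneg _)

lemma Enc.nm (n : ℕ) (h : Enc E δ ε b A x) : Enc E δ ε (Nat.mul n b) (A.nm n) (n * x) := by
  obtain ⟨C, P, R, h1, h2, h3, h4, h5, h6⟩ := h
  obtain ⟨c, p, r, m, l, e⟩ := A
  dsimp only at h4 h5 h6
  have hg := RB.nat n
  have en : tc (n : GaussianInt) = (n : ℂ) := map_natCast tc n
  have hn : ‖tc (n : GaussianInt)‖ = n := by
    rw [en]
    simp
  refine ⟨n * C, n * P, n * R, hg.mul h1, hg.mul h2, hg.mul h3, ?_, ?_, ?_⟩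
  · change _ ≤ ((n * m : ℕ) : ℝ)
    rw [map_mul, norm_mul, hn]
    push_cast
    exact mul_le_mul_of_nonneg_left h4 (Nat.cast_nonneg _)
  · change _ ≤ ((n * l : ℕ) : ℝ)
    rw [map_mul, map_mul, norm_mul, norm_mul, hn]
    push_cast
    have := mul_le_mul_of_nonneg_left h5 (Nat.cast_nonneg (α := ℝ) n)
    linarith only [this]
  · change _ ≤ ((n * e : ℕ) : ℝ)
    rw [map_mul, map_mul, map_mul, en]
    have e0 : (n : ℂ) * x - ((n : ℂ) * tc C + n * tc P * δ + n * tc R * ε) =
        n * (x - (tc C + tc P * δ + tc R * ε)) := by ring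
    rw [e0, norm_mul, Complex.norm_natCast]
    push_cast
    exact mul_le_mul_of_nonneg_left h6 (Nat.cast_nonneg _)

lemma Enc.nc (hb : b < HH) (h : Enc E δ ε b A x) : Enc E δ ε b A.nc x := by
  obtain ⟨C, P, R, h1, h2, h3, h4, h5, h6⟩ := h
  obtain ⟨c, p, r, m, l, e⟩ := A
  exact ⟨C, P, R, h1, h2, h3, h1.nrm hb, h5, h6⟩

/-- the general way to a form -/
lemma Enc.mk {C P R : GaussianInt} {c p r e : ℕ} {t : ℂ} (hb : b < HH) (hc : RB c C b) (hp : RB p P b)
    (hr : RB r R b) (hx : x = tc C + tc P * δ + tc R * ε + t) (ht : ‖t‖ ≤ e) :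
    Enc E δ ε b ⟨c, p, r, nrmE c, Nat.add (Nat.mul (nrmE p) E.ρ) (Nat.mul (nrmE r) E.σ), e⟩ x := by
  refine ⟨C, P, R, hc, hp, hr, hc.nrm hb, ?_, ?_⟩
  · change _ ≤ ((nrmE p * E.ρ + nrmE r * E.σ : ℕ) : ℝ)
    push_cast
    have d1 := mul_le_mul_of_nonneg_right (hp.nrm hb) (Nat.cast_nonneg (α := ℝ) E.ρ)
    have d2 := mul_le_mul_of_nonneg_right (hr.nrm hb) (Nat.cast_nonneg (α := ℝ) E.σ)
    linarith only [d1, d2]
  · have e0 : x - (tc C + tc P * δ + tc R * ε) = t := by rw [hx]; ring
    rw [e0]
    exact ht

lemma Enc.nl (hb : b < HH) (h : Enc E δ ε b A x) : Enc E δ ε b (A.nl E.ρ E.σ) x := by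
  obtain ⟨C, P, R, h1, h2, h3, h4, h5, h6⟩ := h
  obtain ⟨c, p, r, m, l, e⟩ := A
  exact Enc.mk hb h1 h2 h3 (t := x - (tc C + tc P * δ + tc R * ε)) (by ring) h6

end

end Pool.Agent.Work.MP_b30479_gt.G2.CN
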