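import Mathlib
import Pool.Agent.Work.MP_b30479_gt.G2.CN.GJ

/-!
# Linear forms on a cell

* `LF`: a form `Im F + Im (V δ) + Im (W ε) + e` in the offsets `δ`, `ε`; `LOk`: a real number is at
  most the value of the form; `tst4`: the form is negative on the cell;
* `lqI`, `lqM`, `lqG`, `lqB`, `lqA`: forms for `Im (z N conj M) - γ ‖N‖² - μ ‖M‖²`;
* `ll`, `ld`: forms for `Im (z A) - m ‖A‖² + k`.
-/

namespace Pool.Agent.Work.MP_b30479_gt.G2.CN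

open Complex

noncomputable section

variable {E : Env} {δ ε x y : ℂ} {N M : G} {bN bM : ℕ}

/-! ### forms and their test -/

/-- a form: `F`, `V`, `W` are encoded complex numbers -/
structure LF where
  F : ℕ
  V : ℕ
  W : ℕ
  e : ℕ

/-- `x` is at most the value of the form -/
def LOk (δ ε : ℂ) (b : ℕ) (L : LF) (x : ℝ) : Prop :=
  ∃ z0 z1 z2 : GaussianInt, RB L.F z0 b ∧ RB L.V z1 b ∧ RB L.W z2 b ∧
    x ≤ (tc z0).im + (tc z1 * δ).im + (tc z2 * ε).im + L.e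

/-- the last part of the test: `f`, `v`, `w` decoded values -/
def tst3 (a b c d e f v w : ℕ) : Bool :=
  Nat.ble (Nat.succ (Nat.add (Nat.add (Nat.add (Nat.add (Nat.add (Nat.div f (nat_lit 13407807929942597099574024998205846127479365820592393377723561443721764030073546976801874298166903427690031858186486050853753882811946569946433649006084096))
    (Nat.mul (ad (Nat.div v (nat_lit 13407807929942597099574024998205846127479365820592393377723561443721764030073546976801874298166903427690031858186486050853753882811946569946433649006084096)) (nat_lit 6703903964971298549787012499102923063739682910296196688861780721860882015036773488400937149083451713845015929093243025426876941405973284973216824503042048)) a))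
    (Nat.mul (ad (Nat.mod v (nat_lit 13407807929942597099574024998205846127479365820592393377723561443721764030073546976801874298166903427690031858186486050853753882811946569946433649006084096)) (nat_lit 6703903964971298549787012499102923063739682910296196688861780721860882015036773488400937149083451713845015929093243025426876941405973284973216824503042048)) b))
    (Nat.mul (ad (Nat.div w (nat_lit 13407807929942597099574024998205846127479365820592393377723561443721764030073546976801874298166903427690031858186486050853753882811946569946433649006084096)) (nat_lit 6703903964971298549787012499102923063739682910296196688861780721860882015036773488400937149083451713845015929093243025426876941405973284973216824503042048)) c))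
    (Nat.mul (ad (Nat.mod w (nat_lit 13407807929942597099574024998205846127479365820592393377723561443721764030073546976801874298166903427690031858186486050853753882811946569946433649006084096)) (nat_lit 6703903964971298549787012499102923063739682910296196688861780721860882015036773488400937149083451713845015929093243025426876941405973284973216824503042048)) d)) e)) (nat_lit 6703903964971298549787012499102923063739682910296196688861780721860882015036773488400937149083451713845015929093243025426876941405973284973216824503042048)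

/-- the form is negative on the cell with the half widths `a, b, c, d` -/
def tst4 (a b c d F V W e : ℕ) : Bool := tst3 a b c d e (dc F) (dc V) (dc W)

/-- the form is negative on the cell -/
def tst (L : LF) (a b c d : ℕ) : Bool := @LF.rec (fun _ => Bool) (fun F V W e => tst4 a b c d F V W e) L

lemma im_lin {v : ℂ} {a b : ℝ} (ha : |δ.re| ≤ a) (hb : |δ.im| ≤ b) :
    (v * δ).im ≤ |v.im| * a + |v.re| * b := by
  rw [Complex.mul_im]
  have h1 : v.re * δ.im ≤ |v.re| * b := by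
    refine (le_abs_self _).trans ?_
    rw [abs_mul]
    exact mul_le_mul_of_nonneg_left hb (abs_nonneg _)
  have h2 : v.im * δ.re ≤ |v.im| * a := by
    refine (le_abs_self _).trans ?_
    rw [abs_mul]
    exact mul_le_mul_of_nonneg_left ha (abs_nonneg _)
  linarith only [h1, h2]

theorem tst4_spec {b F V W e : ℕ} {x : ℝ} (ho : Off E δ ε) (h : LOk δ ε b ⟨F, V, W, e⟩ x) (hb : b < HH)
    (ht : tst4 E.a E.b E.c E.d F V W e = true) : x < 0 := by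
  obtain ⟨z0, z1, z2, h0, h1, h2, h3⟩ := h
  dsimp only at h0 h1 h2 h3
  have v0 := dec_im h0.rep (h0.rg hb)
  have v1 := dec_im h1.rep (h1.rg hb)
  have v1' := dec_re h1.rep (h1.rg hb)
  have v2 := dec_im h2.rep (h2.rg hb)
  have v2' := dec_re h2.rep (h2.rg hb)
  have hh : dim F + ad (dim V) HH * E.a + ad (dre V) HH * E.b + ad (dim W) HH * E.c +
      ad (dre W) HH * E.d + e + 1 ≤ HH := Nat.le_of_ble_eq_true ht
  have hh2 : ((dim F + ad (dim V) HH * E.a + ad (dre V) HH * E.b + ad (dim W) HH * E.c +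
      ad (dre W) HH * E.d + e + 1 : ℕ) : ℝ) ≤ HH := by exact_mod_cast hh
  push_cast [ad_cast] at hh2
  rw [v0, v1, v1', v2, v2'] at hh2
  simp only [add_sub_cancel_right] at hh2
  have b3 := im_lin (v := tc z1) ho.a ho.b
  have b4 := im_lin (v := tc z2) ho.c ho.d
  linarith only [h3, hh2, b3, b4]

theorem tst_spec {b : ℕ} {L : LF} {x : ℝ} (ho : Off E δ ε) (h : LOk δ ε b L x) (hb : b < HH)
    (ht : tst L E.a E.b E.c E.d = true) : x < 0 := by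
  obtain ⟨F, V, W, e⟩ := L
  exact tst4_spec ho h hb ht

lemma LOk.mono {b b' : ℕ} {L : LF} {x x' : ℝ} (h : LOk δ ε b L x) (hb : b ≤ b') (hx : x' ≤ x) :
    LOk δ ε b' L x' := by
  obtain ⟨z0, z1, z2, h0, h1, h2, h3⟩ := h
  exact ⟨z0, z1, z2, h0.mono hb, h1.mono hb, h2.mono hb, hx.trans h3⟩

lemma LOk.zero : LOk δ ε 0 ⟨nat_lit 0, nat_lit 0, nat_lit 0, nat_lit 0⟩ 0 := by
  refine ⟨0, 0, 0, RB.zero 0, RB.zero 0, RB.zero 0, ?_⟩
  simp

/-- sum of forms -/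
lemma LOk.add {b b' m : ℕ} {F V W e F' V' W' e' : ℕ} {x x' : ℝ} (h : LOk δ ε b ⟨F, V, W, e⟩ x)
    (h' : LOk δ ε b' ⟨F', V', W', e'⟩ x') : LOk δ ε (Nat.add b (Nat.mul m b'))
      ⟨Nat.add F (Nat.mul m F'), Nat.add V (Nat.mul m V'), Nat.add W (Nat.mul m W'), Nat.add e (Nat.mul m e')⟩
      (x + m * x') := by
  obtain ⟨z0, z1, z2, h0, h1, h2, h3⟩ := h
  obtain ⟨w0, w1, w2, k0, k1, k2, k3⟩ := h'
  dsimp only at h0 h1 h2 h3 k0 k1 k2 k3
  have hm := RB.nat m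
  refine ⟨_, _, _, h0.add (hm.mul k0), h1.add (hm.mul k1), h2.add (hm.mul k2), ?_⟩
  have n0 : (0 : ℝ) ≤ m := Nat.cast_nonneg _
  have k4 := mul_le_mul_of_nonneg_left k3 n0
  have e0 : (tc (z0 + (m : GaussianInt) * w0)).im = (tc z0).im + m * (tc w0).im := by
    rw [map_add, map_mul, map_natCast, Complex.add_im, ← Complex.ofReal_natCast, Complex.im_ofReal_mul]
  have e1 : (tc (z1 + (m : GaussianInt) * w1) * δ).im = (tc z1 * δ).im + m * (tc w1 * δ).im := by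
    rw [map_add, map_mul, map_natCast, add_mul, mul_assoc, Complex.add_im, ← Complex.ofReal_natCast,
      Complex.im_ofReal_mul]
  have e2 : (tc (z2 + (m : GaussianInt) * w2) * ε).im = (tc z2 * ε).im + m * (tc w2 * ε).im := by
    rw [map_add, map_mul, map_natCast, add_mul, mul_assoc, Complex.add_im, ← Complex.ofReal_natCast,
      Complex.im_ofReal_mul]
  have e3 : (((Nat.add e (Nat.mul m e') : ℕ)) : ℝ) = e + m * e' := by
    change ((e + m * e' : ℕ) : ℝ) = _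
    push_cast
    rfl
  rw [e0, e1, e2]
  dsimp only
  rw [e3]
  linarith only [h3, k4]

/-! ### quotients -/

/-- the error of the product -/
def qe (n Nm Ne Mm Me i j : ℕ) : ℕ :=
  Nat.mul n (Nat.add (Nat.add (Nat.mul i j) (Nat.mul Mm Ne)) (Nat.mul Nm Me))

/-- the error of a square; `g2 = 2 γ`, `gm` the negative part of `γ` -/
def qs (g2 gm Nm Ne i : ℕ) : ℕ := Nat.add (Nat.mul g2 (Nat.mul Nm Ne)) (Nat.mul gm (Nat.mul i i))

def lqI2 (n Nc Np Nr Nm Nl Ne Mp Mr Mm Ml Me u v : ℕ) : LF :=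
  ⟨Nat.mul u Nc, Nat.add (Nat.mul u Np) (Nat.mul v Mp), Nat.add (Nat.mul u Nr) (Nat.mul v Mr),
    qe n Nm Ne Mm Me (Nat.add Nl Ne) (Nat.add Ml Me)⟩

/-- `Im (z N conj M)`; `g` encodes `z`, `h` encodes `- conj z`, `n` bounds `|z|` -/
def lqI (g h n : ℕ) (N M : G) : LF :=
  @G.rec (fun _ => LF) (fun Nc Np Nr Nm Nl Ne => @G.rec (fun _ => LF) (fun Mc Mp Mr Mm Ml Me =>
    lqI2 n Nc Np Nr Nm Nl Ne Mp Mr Mm Ml Me (Nat.mul g (cj Mc)) (Nat.mul h (cj Nc))) M) N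

def lqM3 (n m2 mm Nc Np Nr Nm Ne Mc Mp Mr Mm Me i j u t q : ℕ) : LF :=
  ⟨Nat.add (Nat.mul u Nc) (Nat.mul t Mc), Nat.add (Nat.mul u Np) (Nat.mul q Mp),
    Nat.add (Nat.mul u Nr) (Nat.mul q Mr), Nat.add (qe n Nm Ne Mm Me i j) (qs m2 mm Mm Me j)⟩

def lqM2 (n m2 mm Nc Np Nr Nm Ne Mc Mp Mr Mm Me i j u v t : ℕ) : LF :=
  lqM3 n m2 mm Nc Np Nr Nm Ne Mc Mp Mr Mm Me i j u t (Nat.add v (Nat.mul (nat_lit 2) t))

/-- `Im (z N conj M) - μ ‖M‖²`; `b` encodes `- μ i`, `m2 = 2 |μ|`, `mm` the negative part of `μ` -/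
def lqM (g h n b m2 mm : ℕ) (N M : G) : LF :=
  @G.rec (fun _ => LF) (fun Nc Np Nr Nm Nl Ne => @G.rec (fun _ => LF) (fun Mc Mp Mr Mm Ml Me =>
    lqM2 n m2 mm Nc Np Nr Nm Ne Mc Mp Mr Mm Me (Nat.add Nl Ne) (Nat.add Ml Me) (Nat.mul g (cj Mc))
      (Nat.mul h (cj Nc)) (Nat.mul b (cj Mc))) M) N

def lqG3 (n g2 gm Nc Np Nr Nm Ne Mp Mr Mm Me i j u v s p : ℕ) : LF :=
  ⟨Nat.mul (Nat.add u s) Nc, Nat.add (Nat.mul p Np) (Nat.mul v Mp),
    Nat.add (Nat.mul p Nr) (Nat.mul v Mr), Nat.add (qe n Nm Ne Mm Me i j) (qs g2 gm Nm Ne i)⟩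

def lqG2 (n g2 gm Nc Np Nr Nm Ne Mp Mr Mm Me i j u v s : ℕ) : LF :=
  lqG3 n g2 gm Nc Np Nr Nm Ne Mp Mr Mm Me i j u v s (Nat.add u (Nat.mul (nat_lit 2) s))

/-- `Im (z N conj M) - γ ‖N‖²`; `a` encodes `- γ i`, `g2 = 2 |γ|`, `gm` the negative part of `γ` -/
def lqG (g h n a g2 gm : ℕ) (N M : G) : LF :=
  @G.rec (fun _ => LF) (fun Nc Np Nr Nm Nl Ne => @G.rec (fun _ => LF) (fun Mc Mp Mr Mm Ml Me =>
    lqG2 n g2 gm Nc Np Nr Nm Ne Mp Mr Mm Me (Nat.add Nl Ne) (Nat.add Ml Me) (Nat.mul g (cj Mc))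
      (Nat.mul h (cj Nc)) (Nat.mul a (cj Nc))) M) N

def lqB3 (g2 gm m2 mm Nc Np Nr Nm Nl Ne Mc Mp Mr Mm Ml Me s t p q : ℕ) : LF :=
  ⟨Nat.add (Nat.mul s Nc) (Nat.mul t Mc), Nat.add (Nat.mul p Np) (Nat.mul q Mp),
    Nat.add (Nat.mul p Nr) (Nat.mul q Mr),
    Nat.add (qs g2 gm Nm Ne (Nat.add Nl Ne)) (qs m2 mm Mm Me (Nat.add Ml Me))⟩

def lqB2 (g2 gm m2 mm Nc Np Nr Nm Nl Ne Mc Mp Mr Mm Ml Me s t : ℕ) : LF :=
  lqB3 g2 gm m2 mm Nc Np Nr Nm Nl Ne Mc Mp Mr Mm Ml Me s t (Nat.mul (nat_lit 2) s) (Nat.mul (nat_lit 2) t)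

/-- `- γ ‖N‖² - μ ‖M‖²` -/
def lqB (a g2 gm b m2 mm : ℕ) (N M : G) : LF :=
  @G.rec (fun _ => LF) (fun Nc Np Nr Nm Nl Ne => @G.rec (fun _ => LF) (fun Mc Mp Mr Mm Ml Me =>
    lqB2 g2 gm m2 mm Nc Np Nr Nm Nl Ne Mc Mp Mr Mm Ml Me (Nat.mul a (cj Nc)) (Nat.mul b (cj Mc))) M) N

def lqA4 (n g2 gm m2 mm Nc Np Nr Nm Ne Mc Mp Mr Mm Me i j u s t p q : ℕ) : LF :=
  ⟨Nat.add (Nat.mul (Nat.add u s) Nc) (Nat.mul t Mc), Nat.add (Nat.mul p Np) (Nat.mul q Mp),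
    Nat.add (Nat.mul p Nr) (Nat.mul q Mr),
    Nat.add (qe n Nm Ne Mm Me i j) (Nat.add (qs g2 gm Nm Ne i) (qs m2 mm Mm Me j))⟩

def lqA3 (n g2 gm m2 mm Nc Np Nr Nm Ne Mc Mp Mr Mm Me i j u v s t : ℕ) : LF :=
  lqA4 n g2 gm m2 mm Nc Np Nr Nm Ne Mc Mp Mr Mm Me i j u s t (Nat.add u (Nat.mul (nat_lit 2) s))
    (Nat.add v (Nat.mul (nat_lit 2) t))

/-- `Im (z N conj M) - γ ‖N‖² - μ ‖M‖²` -/
def lqA (g h n a g2 gm b m2 mm : ℕ) (N M : G) : LF :=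
  @G.rec (fun _ => LF) (fun Nc Np Nr Nm Nl Ne => @G.rec (fun _ => LF) (fun Mc Mp Mr Mm Ml Me =>
    lqA3 n g2 gm m2 mm Nc Np Nr Nm Ne Mc Mp Mr Mm Me (Nat.add Nl Ne) (Nat.add Ml Me) (Nat.mul g (cj Mc))
      (Nat.mul h (cj Nc)) (Nat.mul a (cj Nc)) (Nat.mul b (cj Mc))) M) N

/-- the bound of the coefficients -/
def lqb (n g2 m2 bN bM : ℕ) : ℕ :=
  Nat.add (Nat.mul (Nat.add (Nat.mul n bM) (Nat.mul g2 bN)) bN) (Nat.mul (Nat.add (Nat.mul n bN) (Nat.mul m2 bM)) bM)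

lemma quad_id (z C l C' l' : ℂ) (γ μ : ℝ) :
    (z * ((C + l) * (starRingEnd ℂ) (C' + l'))).im - γ * ‖C + l‖ ^ 2 - μ * ‖C' + l'‖ ^ 2 =
      ((z * (starRingEnd ℂ) C' + ((-γ : ℝ) : ℂ) * I * (starRingEnd ℂ) C) * C +
        ((-μ : ℝ) : ℂ) * I * (starRingEnd ℂ) C' * C').im +
      ((z * (starRingEnd ℂ) C' + 2 * (((-γ : ℝ) : ℂ) * I * (starRingEnd ℂ) C)) * l).im +
      ((-(starRingEnd ℂ) z * (starRingEnd ℂ) C + 2 * (((-μ : ℝ) : ℂ) * I * (starRingEnd ℂ) C')) * l').im +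
      ((z * (l * (starRingEnd ℂ) l')).im - γ * ‖l‖ ^ 2 - μ * ‖l'‖ ^ 2) := by
  simp only [← Complex.normSq_eq_norm_sq, Complex.normSq_apply, map_add, Complex.mul_im, Complex.mul_re,
    Complex.add_re, Complex.add_im, Complex.conj_re, Complex.conj_im, Complex.neg_re, Complex.neg_im,
    Complex.ofReal_re, Complex.ofReal_im, Complex.I_re, Complex.I_im, Complex.re_ofNat, Complex.im_ofNat]
  ring

theorem lqA_spec {z ζ η : GaussianInt} {g h n a γp γm b μp μm : ℕ} (ho : Off E δ ε) (hg : RB g z n)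
    (hh : RB h (-star z) n) (ha : RB a ζ (γp + γm)) (hζ : tc ζ = ((-((γp : ℝ) - γm) : ℝ) : ℂ) * I)
    (hb : RB b η (μp + μm)) (hη : tc η = ((-((μp : ℝ) - μm) : ℝ) : ℂ) * I)
    (hN : Enc E δ ε bN N x) (hM : Enc E δ ε bM M y) (kN : bN < HH) (kM : bM < HH) :
    LOk δ ε (lqb n (2 * (γp + γm)) (2 * (μp + μm)) bN bM)
      (lqA g h n a (2 * (γp + γm)) γm b (2 * (μp + μm)) μm N M)
      ((tc z * (x * (starRingEnd ℂ) y)).im - ((γp : ℝ) - γm) * ‖x‖ ^ 2 - ((μp : ℝ) - μm) * ‖y‖ ^ 2) := by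
  obtain ⟨C, P, R, h1, h2, h3, h4, h5, h6⟩ := hN
  obtain ⟨C', P', R', k1, k2, k3, k4, k5, k6⟩ := hM
  obtain ⟨Nc, Np, Nr, Nm, Nl, Ne⟩ := N
  obtain ⟨Mc, Mp, Mr, Mm, Ml, Me⟩ := M
  dsimp only at h1 h2 h3 h4 h5 h6 k1 k2 k3 k4 k5 k6
  have cA := h1.cj kN
  have cB := k1.cj kM
  have ru := hg.mul cB
  have rv := hh.mul cA
  have rs := ha.mul cA
  have rt := hb.mul cB
  have rp := ru.add (RB_two.mul rs)
  have rq := rv.add (RB_two.mul rt)
  have rF := ((ru.add rs).mul h1).add (rt.mul k1)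
  have rV := (rp.mul h2).add (rq.mul k2)
  have rW := (rp.mul h3).add (rq.mul k3)
  have B1 : Nat.add (Nat.mul (Nat.add (Nat.mul n bM) (Nat.mul 2 (Nat.mul (γp + γm) bN))) bN)
      (Nat.mul (Nat.add (Nat.mul n bN) (Nat.mul 2 (Nat.mul (μp + μm) bM))) bM) ≤
      lqb n (2 * (γp + γm)) (2 * (μp + μm)) bN bM := by
    change (n * bM + 2 * ((γp + γm) * bN)) * bN + (n * bN + 2 * ((μp + μm) * bM)) * bM ≤
      (n * bM + 2 * (γp + γm) * bN) * bN + (n * bN + 2 * (μp + μm) * bM) * bM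
    exact le_of_eq (by ring)
  have B0 : Nat.add (Nat.mul (Nat.add (Nat.mul n bM) (Nat.mul (γp + γm) bN)) bN)
      (Nat.mul (Nat.mul (μp + μm) bM) bM) ≤ lqb n (2 * (γp + γm)) (2 * (μp + μm)) bN bM := by
    change (n * bM + (γp + γm) * bN) * bN + ((μp + μm) * bM) * bM ≤
      (n * bM + 2 * (γp + γm) * bN) * bN + (n * bN + 2 * (μp + μm) * bM) * bM
    refine Nat.add_le_add (Nat.mul_le_mul ?_ le_rfl) (Nat.mul_le_mul ?_ le_rfl)
    · exact Nat.add_le_add le_rfl (Nat.mul_le_mul (by omega) le_rfl)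
    · exact (Nat.mul_le_mul (by omega) le_rfl).trans (Nat.le_add_left _ _)
  refine ⟨_, _, _, rF.mono B0, rV.mono B1, rW.mono B1, ?_⟩
  have l1 := lin_le ho h5
  have l2 := lin_le ho k5
  set s := x - (tc C + tc P * δ + tc R * ε) with hs
  set s' := y - (tc C' + tc P' * δ + tc R' * ε) with hs'
  set L := tc P * δ + tc R * ε with hL
  set L' := tc P' * δ + tc R' * ε with hL'
  have ex : x = tc C + (L + s) := by rw [hs, hL]; ring
  have ey : y = tc C' + (L' + s') := by rw [hs', hL']; ring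
  have key := quad_id (tc z) (tc C) (L + s) (tc C') (L' + s') ((γp : ℝ) - γm) ((μp : ℝ) - μm)
  rw [← ex, ← ey] at key
  rw [key]
  set Λ := tc z * (starRingEnd ℂ) (tc C') + 2 * (((-((γp : ℝ) - γm) : ℝ) : ℂ) * I * (starRingEnd ℂ) (tc C)) with hΛ
  set Λ' := -(starRingEnd ℂ) (tc z) * (starRingEnd ℂ) (tc C) +
    2 * (((-((μp : ℝ) - μm) : ℝ) : ℂ) * I * (starRingEnd ℂ) (tc C')) with hΛ'
  have n0 : (0 : ℝ) ≤ n := Nat.cast_nonneg _
  have nz : ‖tc z‖ ≤ (n : ℝ) := hg.le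
  have nζ : ‖((-((γp : ℝ) - γm) : ℝ) : ℂ) * I‖ ≤ (γp : ℝ) + γm := by
    have := ha.le
    rw [hζ] at this
    push_cast at this ⊢
    exact this
  have nη : ‖((-((μp : ℝ) - μm) : ℝ) : ℂ) * I‖ ≤ (μp : ℝ) + μm := by
    have := hb.le
    rw [hη] at this
    push_cast at this ⊢
    exact this
  have nΛ : ‖Λ‖ ≤ (n : ℝ) * Mm + 2 * (γp + γm) * Nm := by
    rw [hΛ]
    refine (norm_add_le _ _).trans (add_le_add ?_ ?_)
    · rw [norm_mul, Complex.norm_conj]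
      exact mul_le_mul nz k4 (norm_nonneg _) n0
    · rw [norm_mul, norm_mul, Complex.norm_conj, Complex.norm_ofNat, mul_assoc]
      exact mul_le_mul_of_nonneg_left (mul_le_mul nζ h4 (norm_nonneg _) (by positivity)) (by norm_num)
  have nΛ' : ‖Λ'‖ ≤ (n : ℝ) * Nm + 2 * (μp + μm) * Mm := by
    rw [hΛ']
    refine (norm_add_le _ _).trans (add_le_add ?_ ?_)
    · rw [norm_mul, norm_neg, Complex.norm_conj, Complex.norm_conj]
      exact mul_le_mul nz h4 (norm_nonneg _) n0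
    · rw [norm_mul, norm_mul, Complex.norm_conj, Complex.norm_ofNat, mul_assoc]
      exact mul_le_mul_of_nonneg_left (mul_le_mul nη k4 (norm_nonneg _) (by positivity)) (by norm_num)
  have c1 : (Λ * s).im ≤ ((n : ℝ) * Mm + 2 * (γp + γm) * Nm) * Ne := by
    refine (le_abs_self _).trans ((Complex.abs_im_le_norm _).trans ?_)
    rw [norm_mul]
    exact mul_le_mul nΛ h6 (norm_nonneg _) ((norm_nonneg _).trans nΛ)
  have c2 : (Λ' * s').im ≤ ((n : ℝ) * Nm + 2 * (μp + μm) * Mm) * Me := by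
    refine (le_abs_self _).trans ((Complex.abs_im_le_norm _).trans ?_)
    rw [norm_mul]
    exact mul_le_mul nΛ' k6 (norm_nonneg _) ((norm_nonneg _).trans nΛ')
  have i1 : ‖L + s‖ ≤ (Nl : ℝ) + Ne := (norm_add_le _ _).trans (add_le_add l1 h6)
  have i2 : ‖L' + s'‖ ≤ (Ml : ℝ) + Me := (norm_add_le _ _).trans (add_le_add l2 k6)
  have i1' : ‖L + s‖ ^ 2 ≤ ((Nl : ℝ) + Ne) ^ 2 := pow_le_pow_left₀ (norm_nonneg _) i1 2
  have i2' : ‖L' + s'‖ ^ 2 ≤ ((Ml : ℝ) + Me) ^ 2 := pow_le_pow_left₀ (norm_nonneg _) i2 2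
  have c3 : (tc z * ((L + s) * (starRingEnd ℂ) (L' + s'))).im ≤ (n : ℝ) * (((Nl : ℝ) + Ne) * (Ml + Me)) := by
    refine (le_abs_self _).trans ((Complex.abs_im_le_norm _).trans ?_)
    rw [norm_mul, norm_mul, Complex.norm_conj]
    exact mul_le_mul nz (mul_le_mul i1 i2 (norm_nonneg _) ((norm_nonneg _).trans i1)) (by positivity) n0
  have c4 : -(((γp : ℝ) - γm) * ‖L + s‖ ^ 2) ≤ γm * ((Nl : ℝ) + Ne) ^ 2 := by
    have t1 : (0 : ℝ) ≤ γp * ‖L + s‖ ^ 2 := mul_nonneg (Nat.cast_nonneg _) (sq_nonneg _)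
    have t2 := mul_le_mul_of_nonneg_left i1' (Nat.cast_nonneg (α := ℝ) γm)
    rw [sub_mul]
    linarith only [t1, t2]
  have c5 : -(((μp : ℝ) - μm) * ‖L' + s'‖ ^ 2) ≤ μm * ((Ml : ℝ) + Me) ^ 2 := by
    have t1 : (0 : ℝ) ≤ μp * ‖L' + s'‖ ^ 2 := mul_nonneg (Nat.cast_nonneg _) (sq_nonneg _)
    have t2 := mul_le_mul_of_nonneg_left i2' (Nat.cast_nonneg (α := ℝ) μm)
    rw [sub_mul]
    linarith only [t1, t2]
  have d1 : (Λ * (L + s)).im = ((Λ * tc P) * δ).im + ((Λ * tc R) * ε).im + (Λ * s).im := by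
    rw [← Complex.add_im, ← Complex.add_im, hL]
    congr 1
    ring
  have d2 : (Λ' * (L' + s')).im = ((Λ' * tc P') * δ).im + ((Λ' * tc R') * ε).im + (Λ' * s').im := by
    rw [← Complex.add_im, ← Complex.add_im, hL']
    congr 1
    ring
  have f0 : tc ((z * star C' + ζ * star C) * C + η * star C' * C') =
      (tc z * (starRingEnd ℂ) (tc C') + ((-((γp : ℝ) - γm) : ℝ) : ℂ) * I * (starRingEnd ℂ) (tc C)) * tc C +
        ((-((μp : ℝ) - μm) : ℝ) : ℂ) * I * (starRingEnd ℂ) (tc C') * tc C' := by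
    simp only [map_add, map_mul, tc_star, hζ, hη]
  have f1 : tc ((z * star C' + 2 * (ζ * star C)) * P + (-star z * star C + 2 * (η * star C')) * P') =
      Λ * tc P + Λ' * tc P' := by
    simp only [map_add, map_mul, map_neg, map_ofNat, tc_star, hζ, hη, hΛ, hΛ']
  have f2 : tc ((z * star C' + 2 * (ζ * star C)) * R + (-star z * star C + 2 * (η * star C')) * R') =
      Λ * tc R + Λ' * tc R' := by
    simp only [map_add, map_mul, map_neg, map_ofNat, tc_star, hζ, hη, hΛ, hΛ']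
  have g1 : ((Λ * tc P + Λ' * tc P') * δ).im = (Λ * tc P * δ).im + (Λ' * tc P' * δ).im := by
    rw [add_mul, Complex.add_im]
  have g2 : ((Λ * tc R + Λ' * tc R') * ε).im = (Λ * tc R * ε).im + (Λ' * tc R' * ε).im := by
    rw [add_mul, Complex.add_im]
  rw [f0, f1, f2, g1, g2, d1, d2]
  have he : (((lqA g h n a (2 * (γp + γm)) γm b (2 * (μp + μm)) μm ⟨Nc, Np, Nr, Nm, Nl, Ne⟩
      ⟨Mc, Mp, Mr, Mm, Ml, Me⟩).e : ℕ) : ℝ) = (n : ℝ) * ((((Nl : ℝ) + Ne) * (Ml + Me)) + Mm * Ne + Nm * Me) +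
      ((2 * (γp + γm) * (Nm * Ne) + γm * ((Nl + Ne) * (Nl + Ne))) +
        (2 * (μp + μm) * (Mm * Me) + μm * ((Ml + Me) * (Ml + Me)))) := by
    change ((n * ((Nl + Ne) * (Ml + Me) + Mm * Ne + Nm * Me) +
      ((2 * (γp + γm) * (Nm * Ne) + γm * ((Nl + Ne) * (Nl + Ne))) +
        (2 * (μp + μm) * (Mm * Me) + μm * ((Ml + Me) * (Ml + Me)))) : ℕ) : ℝ) = _
    push_cast
    ring
  rw [he]
  clear_value L L' s s' Λ Λ'
  linarith only [c1, c2, c3, c4, c5, c1, c2, c3, c4, c5]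

/-! #### special cases -/

lemma lqA3_I (n Nc Np Nr Nm Nl Ne Mc Mp Mr Mm Ml Me u v A B : ℕ) :
    lqA3 n (2 * (0 + 0)) 0 (2 * (0 + 0)) 0 Nc Np Nr Nm Ne Mc Mp Mr Mm Me (Nat.add Nl Ne) (Nat.add Ml Me) u v
      (Nat.mul (nat_lit 0) A) (Nat.mul (nat_lit 0) B) = lqI2 n Nc Np Nr Nm Nl Ne Mp Mr Mm Ml Me u v := by
  change LF.mk ((u + 0 * A) * Nc + 0 * B * Mc) ((u + 2 * (0 * A)) * Np + (v + 2 * (0 * B)) * Mp)
      ((u + 2 * (0 * A)) * Nr + (v + 2 * (0 * B)) * Mr)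
      (n * ((Nl + Ne) * (Ml + Me) + Mm * Ne + Nm * Me) + ((0 * (Nm * Ne) + 0 * ((Nl + Ne) * (Nl + Ne))) +
        (0 * (Mm * Me) + 0 * ((Ml + Me) * (Ml + Me))))) =
    LF.mk (u * Nc) (u * Np + v * Mp) (u * Nr + v * Mr) (n * ((Nl + Ne) * (Ml + Me) + Mm * Ne + Nm * Me))
  simp only [Nat.zero_mul, Nat.mul_zero, Nat.add_zero]

lemma lqA3_M (n m2 mm Nc Np Nr Nm Ne Mc Mp Mr Mm Me i j u v t A : ℕ) :
    lqA3 n (2 * (0 + 0)) 0 m2 mm Nc Np Nr Nm Ne Mc Mp Mr Mm Me i j u v (Nat.mul (nat_lit 0) A) t =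
      lqM2 n m2 mm Nc Np Nr Nm Ne Mc Mp Mr Mm Me i j u v t := by
  change LF.mk ((u + 0 * A) * Nc + t * Mc) ((u + 2 * (0 * A)) * Np + (v + 2 * t) * Mp)
      ((u + 2 * (0 * A)) * Nr + (v + 2 * t) * Mr)
      (n * (i * j + Mm * Ne + Nm * Me) + ((0 * (Nm * Ne) + 0 * (i * i)) + (m2 * (Mm * Me) + mm * (j * j)))) =
    LF.mk (u * Nc + t * Mc) (u * Np + (v + 2 * t) * Mp) (u * Nr + (v + 2 * t) * Mr)
      (n * (i * j + Mm * Ne + Nm * Me) + (m2 * (Mm * Me) + mm * (j * j)))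
  simp only [Nat.zero_mul, Nat.mul_zero, Nat.add_zero, Nat.zero_add]

lemma lqA3_G (n g2 gm Nc Np Nr Nm Ne Mc Mp Mr Mm Me i j u v s B : ℕ) :
    lqA3 n g2 gm (2 * (0 + 0)) 0 Nc Np Nr Nm Ne Mc Mp Mr Mm Me i j u v s (Nat.mul (nat_lit 0) B) =
      lqG2 n g2 gm Nc Np Nr Nm Ne Mp Mr Mm Me i j u v s := by
  change LF.mk ((u + s) * Nc + 0 * B * Mc) ((u + 2 * s) * Np + (v + 2 * (0 * B)) * Mp)
      ((u + 2 * s) * Nr + (v + 2 * (0 * B)) * Mr)
      (n * (i * j + Mm * Ne + Nm * Me) + ((g2 * (Nm * Ne) + gm * (i * i)) + (0 * (Mm * Me) + 0 * (j * j)))) =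
    LF.mk ((u + s) * Nc) ((u + 2 * s) * Np + v * Mp) ((u + 2 * s) * Nr + v * Mr)
      (n * (i * j + Mm * Ne + Nm * Me) + (g2 * (Nm * Ne) + gm * (i * i)))
  simp only [Nat.zero_mul, Nat.mul_zero, Nat.add_zero]

lemma lqA3_B (g2 gm m2 mm Nc Np Nr Nm Nl Ne Mc Mp Mr Mm Ml Me s t A B : ℕ) :
    lqA3 (nat_lit 0) g2 gm m2 mm Nc Np Nr Nm Ne Mc Mp Mr Mm Me (Nat.add Nl Ne) (Nat.add Ml Me)
      (Nat.mul (nat_lit 0) B) (Nat.mul (nat_lit 0) A) s t =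
      lqB2 g2 gm m2 mm Nc Np Nr Nm Nl Ne Mc Mp Mr Mm Ml Me s t := by
  change LF.mk ((0 * B + s) * Nc + t * Mc) ((0 * B + 2 * s) * Np + (0 * A + 2 * t) * Mp)
      ((0 * B + 2 * s) * Nr + (0 * A + 2 * t) * Mr)
      (0 * ((Nl + Ne) * (Ml + Me) + Mm * Ne + Nm * Me) +
        ((g2 * (Nm * Ne) + gm * ((Nl + Ne) * (Nl + Ne))) + (m2 * (Mm * Me) + mm * ((Ml + Me) * (Ml + Me))))) =
    LF.mk (s * Nc + t * Mc) (2 * s * Np + 2 * t * Mp) (2 * s * Nr + 2 * t * Mr)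
      ((g2 * (Nm * Ne) + gm * ((Nl + Ne) * (Nl + Ne))) + (m2 * (Mm * Me) + mm * ((Ml + Me) * (Ml + Me))))
  simp only [Nat.zero_mul, Nat.zero_add]

theorem lqI_spec {z : GaussianInt} {g h n : ℕ} (ho : Off E δ ε) (hg : RB g z n) (hh : RB h (-star z) n)
    (hN : Enc E δ ε bN N x) (hM : Enc E δ ε bM M y) (kN : bN < HH) (kM : bM < HH) :
    LOk δ ε (lqb n (nat_lit 0) (nat_lit 0) bN bM) (lqI g h n N M) ((tc z * (x * (starRingEnd ℂ) y)).im) := by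
  have h0 := lqA_spec (γp := 0) (γm := 0) (μp := 0) (μm := 0) ho hg hh (RB.zero _) (by simp)
    (RB.zero _) (by simp) hN hM kN kM
  obtain ⟨Nc, Np, Nr, Nm, Nl, Ne⟩ := N
  obtain ⟨Mc, Mp, Mr, Mm, Ml, Me⟩ := M
  have e : lqA g h n (nat_lit 0) (2 * (0 + 0)) 0 (nat_lit 0) (2 * (0 + 0)) 0 ⟨Nc, Np, Nr, Nm, Nl, Ne⟩
      ⟨Mc, Mp, Mr, Mm, Ml, Me⟩ = lqI g h n ⟨Nc, Np, Nr, Nm, Nl, Ne⟩ ⟨Mc, Mp, Mr, Mm, Ml, Me⟩ :=
    lqA3_I n Nc Np Nr Nm Nl Ne Mc Mp Mr Mm Ml Me _ _ _ _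
  rw [e] at h0
  refine h0.mono (le_of_eq rfl) ?_
  push_cast
  simp

theorem lqM_spec {z η : GaussianInt} {g h n b μp μm : ℕ} (ho : Off E δ ε) (hg : RB g z n)
    (hh : RB h (-star z) n) (hb : RB b η (μp + μm)) (hη : tc η = ((-((μp : ℝ) - μm) : ℝ) : ℂ) * I)
    (hN : Enc E δ ε bN N x) (hM : Enc E δ ε bM M y) (kN : bN < HH) (kM : bM < HH) :
    LOk δ ε (lqb n (nat_lit 0) (2 * (μp + μm)) bN bM) (lqM g h n b (2 * (μp + μm)) μm N M)
      ((tc z * (x * (starRingEnd ℂ) y)).im - ((μp : ℝ) - μm) * ‖y‖ ^ 2) := by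
  have h0 := lqA_spec (γp := 0) (γm := 0) ho hg hh (RB.zero _) (by simp) hb hη hN hM kN kM
  obtain ⟨Nc, Np, Nr, Nm, Nl, Ne⟩ := N
  obtain ⟨Mc, Mp, Mr, Mm, Ml, Me⟩ := M
  have e : lqA g h n (nat_lit 0) (2 * (0 + 0)) 0 b (2 * (μp + μm)) μm ⟨Nc, Np, Nr, Nm, Nl, Ne⟩
      ⟨Mc, Mp, Mr, Mm, Ml, Me⟩ = lqM g h n b (2 * (μp + μm)) μm ⟨Nc, Np, Nr, Nm, Nl, Ne⟩
        ⟨Mc, Mp, Mr, Mm, Ml, Me⟩ :=
    lqA3_M n _ _ Nc Np Nr Nm Ne Mc Mp Mr Mm Me _ _ _ _ _ _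
  rw [e] at h0
  refine h0.mono (le_of_eq rfl) ?_
  push_cast
  simp

theorem lqG_spec {z ζ : GaussianInt} {g h n a γp γm : ℕ} (ho : Off E δ ε) (hg : RB g z n)
    (hh : RB h (-star z) n) (ha : RB a ζ (γp + γm)) (hζ : tc ζ = ((-((γp : ℝ) - γm) : ℝ) : ℂ) * I)
    (hN : Enc E δ ε bN N x) (hM : Enc E δ ε bM M y) (kN : bN < HH) (kM : bM < HH) :
    LOk δ ε (lqb n (2 * (γp + γm)) (nat_lit 0) bN bM) (lqG g h n a (2 * (γp + γm)) γm N M)
      ((tc z * (x * (starRingEnd ℂ) y)).im - ((γp : ℝ) - γm) * ‖x‖ ^ 2) := by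
  have h0 := lqA_spec (μp := 0) (μm := 0) ho hg hh ha hζ (RB.zero _) (by simp) hN hM kN kM
  obtain ⟨Nc, Np, Nr, Nm, Nl, Ne⟩ := N
  obtain ⟨Mc, Mp, Mr, Mm, Ml, Me⟩ := M
  have e : lqA g h n a (2 * (γp + γm)) γm (nat_lit 0) (2 * (0 + 0)) 0 ⟨Nc, Np, Nr, Nm, Nl, Ne⟩
      ⟨Mc, Mp, Mr, Mm, Ml, Me⟩ = lqG g h n a (2 * (γp + γm)) γm ⟨Nc, Np, Nr, Nm, Nl, Ne⟩
        ⟨Mc, Mp, Mr, Mm, Ml, Me⟩ :=
    lqA3_G n _ _ Nc Np Nr Nm Ne Mc Mp Mr Mm Me _ _ _ _ _ _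
  rw [e] at h0
  refine h0.mono (le_of_eq rfl) ?_
  push_cast
  simp

theorem lqB_spec {ζ η : GaussianInt} {a γp γm b μp μm : ℕ} (ho : Off E δ ε)
    (ha : RB a ζ (γp + γm)) (hζ : tc ζ = ((-((γp : ℝ) - γm) : ℝ) : ℂ) * I)
    (hb : RB b η (μp + μm)) (hη : tc η = ((-((μp : ℝ) - μm) : ℝ) : ℂ) * I)
    (hN : Enc E δ ε bN N x) (hM : Enc E δ ε bM M y) (kN : bN < HH) (kM : bM < HH) :
    LOk δ ε (lqb (nat_lit 0) (2 * (γp + γm)) (2 * (μp + μm)) bN bM)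
      (lqB a (2 * (γp + γm)) γm b (2 * (μp + μm)) μm N M)
      (-(((γp : ℝ) - γm) * ‖x‖ ^ 2) - ((μp : ℝ) - μm) * ‖y‖ ^ 2) := by
  have h0 := lqA_spec (z := 0) (g := nat_lit 0) (h := nat_lit 0) (n := nat_lit 0) ho (RB.zero _)
    (by rw [star_zero, neg_zero]; exact RB.zero _) ha hζ hb hη hN hM kN kM
  obtain ⟨Nc, Np, Nr, Nm, Nl, Ne⟩ := N
  obtain ⟨Mc, Mp, Mr, Mm, Ml, Me⟩ := M
  have e : lqA (nat_lit 0) (nat_lit 0) (nat_lit 0) a (2 * (γp + γm)) γm b (2 * (μp + μm)) μm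
      ⟨Nc, Np, Nr, Nm, Nl, Ne⟩ ⟨Mc, Mp, Mr, Mm, Ml, Me⟩ = lqB a (2 * (γp + γm)) γm b (2 * (μp + μm)) μm
        ⟨Nc, Np, Nr, Nm, Nl, Ne⟩ ⟨Mc, Mp, Mr, Mm, Ml, Me⟩ :=
    lqA3_B _ _ _ _ Nc Np Nr Nm Nl Ne Mc Mp Mr Mm Ml Me _ _ _ _
  rw [e] at h0
  refine h0.mono (le_of_eq rfl) ?_
  rw [map_zero, zero_mul, Complex.zero_im]
  linarith only []

/-! ### linear and quadratic conditions for one expression -/

variable {A : G} {b : ℕ}

/-- `Im (z A) + Im ζ`; `g` encodes `z`, `n` bounds `|z|`, `k` encodes `ζ` -/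
def ll (g n k : ℕ) (A : G) : LF :=
  @G.rec (fun _ => LF) (fun Ac Ap Ar _ _ Ae =>
    ⟨Nat.add (Nat.mul g Ac) k, Nat.mul g Ap, Nat.mul g Ar, Nat.mul n Ae⟩) A

def ld2 (n m2 k Ac Ap Ar Al Ae L0 L : ℕ) : LF :=
  ⟨Nat.add (Nat.mul L0 Ac) k, Nat.mul L Ap, Nat.mul L Ar,
    Nat.add (Nat.mul n Ae) (Nat.mul m2 (Nat.mul (Nat.add Al Ae) (Nat.add Al Ae)))⟩

def ld1 (g n m2 k Ac Ap Ar Al Ae B : ℕ) : LF :=
  ld2 n m2 k Ac Ap Ar Al Ae (Nat.add g B) (Nat.add (Nat.add g B) B)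

/-- `Im (z A) - (m1 - m2) ‖A‖² + Im ζ` (`nm = m2 + m1`) -/
def ld (g n m nm m2 k : ℕ) (A : G) : LF :=
  @G.rec (fun _ => LF) (fun Ac Ap Ar Am Al Ae =>
    ld1 g (Nat.add n (Nat.mul (nat_lit 2) (Nat.mul nm Am))) m2 k Ac Ap Ar Al Ae (Nat.mul m (cj Ac))) A

/-- the bound of the coefficients -/
def ldb (n nm nk b : ℕ) : ℕ := Nat.add (Nat.mul (Nat.add n (Nat.mul (nat_lit 2) (Nat.mul nm b))) b) nk

theorem ll_spec {z ζ : GaussianInt} {g n k nk : ℕ} (hg : RB g z n) (hk : RB k ζ nk)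
    (hA : Enc E δ ε b A x) : LOk δ ε (Nat.add (Nat.mul n b) nk) (ll g n k A) ((tc z * x).im + (tc ζ).im) := by
  obtain ⟨C, P, R, h1, h2, h3, h4, h5, h6⟩ := hA
  obtain ⟨Ac, Ap, Ar, Am, Al, Ae⟩ := A
  dsimp only at h1 h2 h3 h4 h5 h6
  refine ⟨_, _, _, (hg.mul h1).add hk, (hg.mul h2).mono (Nat.le_add_right _ _),
    (hg.mul h3).mono (Nat.le_add_right _ _), ?_⟩
  set s := x - (tc C + tc P * δ + tc R * ε) with hs
  have e : (tc z * x).im + (tc ζ).im = (tc (z * C + ζ)).im + (tc (z * P) * δ).im + (tc (z * R) * ε).im +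
      (tc z * s).im := by
    rw [← Complex.add_im, ← Complex.add_im, ← Complex.add_im, ← Complex.add_im, hs]
    congr 1
    simp only [map_add, map_mul]
    ring
  have b1 : ‖tc z * s‖ ≤ (n : ℝ) * Ae := by
    rw [norm_mul]
    exact mul_le_mul hg.le h6 (norm_nonneg _) (Nat.cast_nonneg _)
  have b2 := (abs_le.1 ((Complex.abs_im_le_norm _).trans b1)).2
  have he : (((ll g n k ⟨Ac, Ap, Ar, Am, Al, Ae⟩).e : ℕ) : ℝ) = (n : ℝ) * Ae := by
    change ((n * Ae : ℕ) : ℝ) = _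
    push_cast
    rfl
  rw [he, e]
  linarith only [b2]

theorem ld_spec {z ζ μ : GaussianInt} {g n m nm k nk m1 m2 : ℕ} (ho : Off E δ ε) (hg : RB g z n)
    (hm : RB m μ nm) (hμ : tc μ = (((m2 : ℝ) - m1 : ℝ) : ℂ) * I) (hk : RB k ζ nk)
    (hA : Enc E δ ε b A x) (hb1 : b < HH) :
    LOk δ ε (ldb n nm nk b) (ld g n m nm m2 k A)
      ((tc z * x).im - ((m1 : ℝ) - m2) * ‖x‖ ^ 2 + (tc ζ).im) := by
  obtain ⟨C, P, R, h1, h2, h3, h4, h5, h6⟩ := hA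
  obtain ⟨Ac, Ap, Ar, Am, Al, Ae⟩ := A
  dsimp only at h1 h2 h3 h4 h5 h6
  have cB := h1.cj hb1
  have rB := hm.mul cB
  have rL0 := hg.add rB
  have rL := rL0.add rB
  have rf := (rL0.mul h1).add hk
  have rv := rL.mul h2
  have rw' := rL.mul h3
  have B0 : Nat.add (Nat.mul (Nat.add n (Nat.mul nm b)) b) nk ≤ ldb n nm nk b := by
    change (n + nm * b) * b + nk ≤ (n + 2 * (nm * b)) * b + nk
    exact Nat.add_le_add (Nat.mul_le_mul (by omega) le_rfl) le_rfl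
  have B1 : Nat.mul (Nat.add (Nat.add n (Nat.mul nm b)) (Nat.mul nm b)) b ≤ ldb n nm nk b := by
    change (n + nm * b + nm * b) * b ≤ (n + 2 * (nm * b)) * b + nk
    have : (n + nm * b + nm * b) * b = (n + 2 * (nm * b)) * b := by ring
    omega
  refine ⟨_, _, _, rf.mono B0, rv.mono B1, rw'.mono B1, ?_⟩
  have l1 := lin_le ho h5
  set s := x - (tc C + tc P * δ + tc R * ε) with hs
  set L := tc P * δ + tc R * ε with hL
  set Λ := tc z + 2 * (tc μ * (starRingEnd ℂ) (tc C)) with hΛ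
  have ex : x = tc C + (L + s) := by rw [hs, hL]; ring
  have key : (tc z * x).im - ((m1 : ℝ) - m2) * ‖x‖ ^ 2 + (tc ζ).im =
      (tc ((z + μ * star C) * C + ζ)).im + (Λ * (L + s)).im - ((m1 : ℝ) - m2) * ‖L + s‖ ^ 2 := by
    have f1 : (tc ((z + μ * star C) * C + ζ)).im = (tc z * tc C).im + ((m2 : ℝ) - m1) * ‖tc C‖ ^ 2 +
        (tc ζ).im := by
      simp only [map_add, map_mul, tc_star]
      rw [add_mul, Complex.add_im, Complex.add_im, hμ]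
      have : (((m2 : ℝ) - m1 : ℝ) : ℂ) * I * (starRingEnd ℂ) (tc C) * tc C =
          ((((m2 : ℝ) - m1) * Complex.normSq (tc C) : ℝ) : ℂ) * I := by
        rw [mul_assoc, ← Complex.normSq_eq_conj_mul_self]
        push_cast
        ring
      rw [this, Complex.im_ofReal_mul, Complex.I_im, mul_one, Complex.normSq_eq_norm_sq]
    have f2 : (Λ * (L + s)).im = (tc z * (L + s)).im +
        2 * ((m2 : ℝ) - m1) * ((starRingEnd ℂ) (tc C) * (L + s)).re := by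
      rw [hΛ, add_mul, Complex.add_im, hμ]
      have : 2 * ((((m2 : ℝ) - m1 : ℝ) : ℂ) * I * (starRingEnd ℂ) (tc C)) * (L + s) =
          ((2 * ((m2 : ℝ) - m1) : ℝ) : ℂ) * (I * ((starRingEnd ℂ) (tc C) * (L + s))) := by
        push_cast
        ring
      rw [this, Complex.im_ofReal_mul, Complex.I_mul_im]
    have f3 : ‖x‖ ^ 2 = ‖tc C‖ ^ 2 + 2 * ((starRingEnd ℂ) (tc C) * (L + s)).re + ‖L + s‖ ^ 2 := by
      rw [ex, ← Complex.normSq_eq_norm_sq, ← Complex.normSq_eq_norm_sq, ← Complex.normSq_eq_norm_sq]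
      simp only [Complex.normSq_apply, Complex.add_re, Complex.add_im, Complex.mul_re, Complex.conj_re,
        Complex.conj_im]
      ring
    rw [f1, f2, f3]
    nth_rw 1 [ex]
    rw [mul_add, Complex.add_im]
    ring
  have hΛn : ‖Λ‖ ≤ (n : ℝ) + 2 * (nm * Am) := by
    rw [hΛ]
    refine (norm_add_le _ _).trans (add_le_add hg.le ?_)
    rw [norm_mul, norm_mul, Complex.norm_conj, Complex.norm_ofNat]
    have := mul_le_mul hm.le h4 (norm_nonneg _) (Nat.cast_nonneg _)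
    linarith only [this]
  have b1 : ‖Λ * s‖ ≤ ((n : ℝ) + 2 * (nm * Am)) * Ae := by
    rw [norm_mul]
    exact mul_le_mul hΛn h6 (norm_nonneg _) ((norm_nonneg _).trans hΛn)
  have b2 := (abs_le.1 ((Complex.abs_im_le_norm _).trans b1)).2
  have hLs : ‖L + s‖ ≤ (Al : ℝ) + Ae := (norm_add_le _ _).trans (add_le_add l1 h6)
  have hL2 : ‖L + s‖ ^ 2 ≤ ((Al : ℝ) + Ae) ^ 2 := pow_le_pow_left₀ (norm_nonneg _) hLs 2
  have b5 : -(((m1 : ℝ) - m2) * ‖L + s‖ ^ 2) ≤ m2 * (((Al : ℝ) + Ae) * (Al + Ae)) := by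
    have t1 : (0 : ℝ) ≤ m1 * ‖L + s‖ ^ 2 := mul_nonneg (Nat.cast_nonneg _) (sq_nonneg _)
    have t2 : (m2 : ℝ) * ‖L + s‖ ^ 2 ≤ m2 * ((Al : ℝ) + Ae) ^ 2 :=
      mul_le_mul_of_nonneg_left hL2 (Nat.cast_nonneg _)
    have t3 : (m2 : ℝ) * (((Al : ℝ) + Ae) * (Al + Ae)) = m2 * ((Al : ℝ) + Ae) ^ 2 := by
      rw [pow_two]
    rw [t3, sub_mul]
    linarith only [t1, t2]
  have e5 : (Λ * (L + s)).im = (tc ((z + μ * star C + μ * star C) * P) * δ).im +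
      (tc ((z + μ * star C + μ * star C) * R) * ε).im + (Λ * s).im := by
    rw [← Complex.add_im, ← Complex.add_im, hΛ, hL]
    congr 1
    simp only [map_add, map_mul, tc_star]
    ring
  have he : (((ld g n m nm m2 k ⟨Ac, Ap, Ar, Am, Al, Ae⟩).e : ℕ) : ℝ) =
      ((n : ℝ) + 2 * (nm * Am)) * Ae + m2 * (((Al : ℝ) + Ae) * (Al + Ae)) := by
    change (((n + 2 * (nm * Am)) * Ae + m2 * ((Al + Ae) * (Al + Ae)) : ℕ) : ℝ) = _
    push_cast
    rfl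
  rw [he, key, e5]
  linarith only [b2, b5]

end

end Pool.Agent.Work.MP_b30479_gt.G2.CN
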