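import Mathlib
import Pool.Agent.Work.MP_b30479_gt.G2.CN.GK

/-!
# Expressions, constraints, cells, certificates

* `Ev`: expressions in two complex variables (value, evaluation, soundness);
* `Con`: constraints `0 ≤ Im (w N conj M)` and `b ‖M‖² ≤ a ‖N‖²` with a test for their failure on a
  cell;
* `run cs gs n code st`: a certificate `code` (base 64, least significant digit first): `0..11` cut the
  first cell (direction `t / 3`, position `(t % 3 + 1) / 4`), `12`: all constraints of `gs` fail on it,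
  `13 + k`: the constraint `k` of `cs` fails on it.
-/

namespace Pool.Agent.Work.MP_b30479_gt.G2.CN

open Complex

noncomputable section

/-! ### expressions -/

/-- the meaning of the kinds of expressions: `1`: the value is `1`, `2`: `u + i`, `3`: `u - i`,
`4`: `1 + i w`, `5`: `1 - i w` -/
structure Kd (k : ℕ) (val : ℂ → ℂ → ℂ) : Prop where
  k1 : k = 1 → ∀ u w, val u w = 1
  k2 : k = 2 → ∀ u w, val u w = u + I
  k3 : k = 3 → ∀ u w, val u w = u - I
  k4 : k = 4 → ∀ u w, val u w = 1 + I * w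
  k5 : k = 5 → ∀ u w, val u w = 1 - I * w

lemma Kd0 (val : ℂ → ℂ → ℂ) : Kd 0 val :=
  ⟨fun h => absurd h (by decide), fun h => absurd h (by decide), fun h => absurd h (by decide),
    fun h => absurd h (by decide), fun h => absurd h (by decide)⟩

lemma Kd1 {val : ℂ → ℂ → ℂ} (h : ∀ u w, val u w = 1) : Kd 1 val :=
  ⟨fun _ => h, fun h => absurd h (by decide), fun h => absurd h (by decide),
    fun h => absurd h (by decide), fun h => absurd h (by decide)⟩

lemma Kd2 {val : ℂ → ℂ → ℂ} (h : ∀ u w, val u w = u + I) : Kd 2 val :=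
  ⟨fun h => absurd h (by decide), fun _ => h, fun h => absurd h (by decide),
    fun h => absurd h (by decide), fun h => absurd h (by decide)⟩

lemma Kd3 {val : ℂ → ℂ → ℂ} (h : ∀ u w, val u w = u - I) : Kd 3 val :=
  ⟨fun h => absurd h (by decide), fun h => absurd h (by decide), fun _ => h,
    fun h => absurd h (by decide), fun h => absurd h (by decide)⟩

lemma Kd4 {val : ℂ → ℂ → ℂ} (h : ∀ u w, val u w = 1 + I * w) : Kd 4 val :=
  ⟨fun h => absurd h (by decide), fun h => absurd h (by decide), fun h => absurd h (by decide),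
    fun _ => h, fun h => absurd h (by decide)⟩

lemma Kd5 {val : ℂ → ℂ → ℂ} (h : ∀ u w, val u w = 1 - I * w) : Kd 5 val :=
  ⟨fun h => absurd h (by decide), fun h => absurd h (by decide), fun h => absurd h (by decide),
    fun h => absurd h (by decide), fun _ => h⟩

/-- An expression of degree `s + d` in the two variables: `f` evaluates `D ^ d * val`, the factor
`D ^ s` is left out. All numbers are in the range of the decoding if `g` is true. -/
structure Ev where
  s : ℕ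
  d : ℕ
  b : ℕ
  g : Bool
  ty : ℕ
  f : Env → G
  val : ℂ → ℂ → ℂ
  kd : Kd ty val
  ok : g = true → ∀ (E : Env) (X Y : GaussianInt) (δ ε u w : ℂ), E.Ok X Y → Off E δ ε →
    D * u = tc X + δ → D * w = tc Y + ε → Enc E δ ε b (f E) ((D : ℂ) ^ d * val u w)

/-- the degree -/
def Ev.deg (A : Ev) : ℕ := Nat.add A.s A.d

/-- the Gaussian integer `(a - b) + (c - d) i` -/
def gi (a b c d : ℕ) : GaussianInt := ⟨(a : ℤ) - b, (c : ℤ) - d⟩

/-- its complex number -/
def gz (a b c d : ℕ) : ℂ := ⟨(a : ℝ) - b, (c : ℝ) - d⟩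

lemma tc_gi (a b c d : ℕ) : tc (gi a b c d) = gz a b c d := by
  apply Complex.ext
  · rw [tc_re]; simp [gi, gz]
  · rw [tc_im]; simp [gi, gz]

/-- its encoding -/
def ge (a b c d : ℕ) : ℕ := Nat.mod (Nat.add (Nat.add (Nat.add a (Nat.mul (nat_lit 179769313486231590772930519078902473361797697894230657273430081157732675805500963132708477322407536021120113879871393357658789768814416622492847430639474124377767893424865485276302219601246094119453082952085005768838150682342462881473913110540827237163350510684586298239947245938479716304835356329624224137216) b))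
  (Nat.mul (nat_lit 13407807929942597099574024998205846127479365820592393377723561443721764030073546976801874298166903427690031858186486050853753882811946569946433649006084096) c)) (Nat.mul (nat_lit 179769313486231590772930519078902473361797697894230657273430081157732675805500963132708477322407536021120113879871393357658789768814416622492847430639474124377767893424865485276302219601246094119453082952085005768838150682342462881473913110540827237163350510684586298239947245938479716304835356329624224137216) (Nat.mul (nat_lit 13407807929942597099574024998205846127479365820592393377723561443721764030073546976801874298166903427690031858186486050853753882811946569946433649006084096) d))) (nat_lit 179769313486231590772930519078902473361797697894230657273430081157732675805500963132708477322407536021120113879871393357658789768814416622492847430639474124377767893424865485276302219601246094119453082952085005768838150682342462881473913110540827237163350510684586298239947245938479716304835356329624224137217)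

lemma Rep_XX : Rep (nat_lit 13407807929942597099574024998205846127479365820592393377723561443721764030073546976801874298166903427690031858186486050853753882811946569946433649006084096) ⟨0, 1⟩ := by
  change Rep XX ⟨0, 1⟩
  unfold Rep
  rw [phi_apply]
  simp

lemma Rep_ge (a b c d : ℕ) : Rep (ge a b c d) (gi a b c d) := by
  have h := (((Rep_nat a).add (Rep_M1.mul (Rep_nat b))).add (Rep_XX.mul (Rep_nat c))).add
    (Rep_M1.mul (Rep_XX.mul (Rep_nat d)))
  have e : (a : GaussianInt) + -1 * (b : GaussianInt) + ⟨0, 1⟩ * (c : GaussianInt) +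
      -1 * (⟨0, 1⟩ * (d : GaussianInt)) = gi a b c d := by
    apply Zsqrtd.ext
    · simp [gi]; ring
    · simp [gi]; ring
  rw [e] at h
  exact h.mod

/-- the bound of its absolute value -/
def gn (a b c d : ℕ) : ℕ := cN (Nat.beq (Nat.add a b) (nat_lit 0)) (Nat.add c d)
  (cN (Nat.beq (Nat.add c d) (nat_lit 0)) (Nat.add a b) (bd (Nat.add a b) (Nat.add c d)))

lemma le_gn (a b c d : ℕ) : ‖tc (gi a b c d)‖ ≤ (gn a b c d : ℝ) := by
  rw [tc_gi]
  have ha : (0 : ℝ) ≤ a := Nat.cast_nonneg _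
  have hb : (0 : ℝ) ≤ b := Nat.cast_nonneg _
  have hc : (0 : ℝ) ≤ c := Nat.cast_nonneg _
  have hd : (0 : ℝ) ≤ d := Nat.cast_nonneg _
  have h1 : |(a : ℝ) - b| ≤ ((Nat.add a b : ℕ) : ℝ) := by
    change |(a : ℝ) - b| ≤ ((a + b : ℕ) : ℝ)
    push_cast
    rw [abs_le]; constructor <;> linarith only []
  have h2 : |(c : ℝ) - d| ≤ ((Nat.add c d : ℕ) : ℝ) := by
    change |(c : ℝ) - d| ≤ ((c + d : ℕ) : ℝ)
    push_cast
    rw [abs_le]; constructor <;> linarith only []
  have h3 : ‖gz a b c d‖ ≤ ((Nat.add a b : ℕ) : ℝ) + ((Nat.add c d : ℕ) : ℝ) :=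
    (Complex.norm_le_abs_re_add_abs_im _).trans (add_le_add h1 h2)
  unfold gn
  rcases e1 : Nat.beq (Nat.add a b) (nat_lit 0) with _ | _
  · rcases e2 : Nat.beq (Nat.add c d) (nat_lit 0) with _ | _
    · exact le_bd _ _ h1 h2
    · have e3 : Nat.add c d = 0 := Nat.eq_of_beq_eq_true e2
      rw [e3, Nat.cast_zero, add_zero] at h3
      exact h3
  · have e3 : Nat.add a b = 0 := Nat.eq_of_beq_eq_true e1
    rw [e3, Nat.cast_zero, zero_add] at h3
    exact h3

lemma RB_ge (a b c d : ℕ) : RB (ge a b c d) (gi a b c d) (gn a b c d) := ⟨Rep_ge a b c d, le_gn a b c d⟩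

lemma pow_D (j : ℕ) : ((Nat.pow (nat_lit 16384) j : ℕ) : ℂ) = (D : ℂ) ^ j := by
  change ((16384 ^ j : ℕ) : ℂ) = _
  unfold D
  push_cast
  rfl

lemma pow_DR (j : ℕ) : ((Nat.pow (nat_lit 16384) j : ℕ) : ℝ) = D ^ j := by
  change ((16384 ^ j : ℕ) : ℝ) = _
  unfold D
  push_cast
  rfl

namespace Ev

/-- the first variable -/
def R : Ev where
  s := 0
  d := 1
  b := nat_lit 262144
  g := true
  ty := 0
  f := fun E => ⟨E.x, nat_lit 1, nat_lit 0, E.mx, E.ρ, nat_lit 0⟩
  val := fun u _ => u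
  kd := Kd0 _
  ok := fun _ E X Y δ ε u w hE _ hu _ => by
    refine ⟨X, 1, 0, hE.x, RB.one (by decide), RB.zero _, hE.mx, ?_, ?_⟩
    · rw [map_one, map_zero]
      simp
    · rw [pow_one, hu, map_one, map_zero]
      simp

/-- the second variable -/
def q : Ev where
  s := 0
  d := 1
  b := nat_lit 262144
  g := true
  ty := 0
  f := fun E => ⟨E.y, nat_lit 0, nat_lit 1, E.my, E.σ, nat_lit 0⟩
  val := fun _ w => w
  kd := Kd0 _
  ok := fun _ E X Y δ ε u w hE _ _ hw => by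
    refine ⟨Y, 0, 1, hE.y, RB.zero _, RB.one (by decide), hE.my, ?_, ?_⟩
    · rw [map_one, map_zero]
      simp
    · rw [pow_one, hw, map_one, map_zero]
      simp

/-- constants -/
def k (a b c d : ℕ) : Ev where
  s := 0
  d := 0
  b := gn a b c d
  g := true
  ty := 0
  f := fun _ => ⟨ge a b c d, nat_lit 0, nat_lit 0, gn a b c d, nat_lit 0, nat_lit 0⟩
  val := fun _ _ => gz a b c d
  kd := Kd0 _
  ok := fun _ E X Y δ ε u w _ _ _ _ => by
    refine ⟨gi a b c d, 0, 0, RB_ge a b c d, RB.zero _, RB.zero _, le_gn a b c d, ?_, ?_⟩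
    · rw [map_zero]
      simp
    · rw [pow_zero, tc_gi, map_zero]
      simp

/-- multiplication by a power of the scale (the value does not change) -/
def sc (j : ℕ) (A : Ev) : Ev where
  s := Nat.add j A.s
  d := A.d
  b := A.b
  g := A.g
  ty := A.ty
  f := A.f
  val := A.val
  kd := A.kd
  ok := A.ok

/-- evaluation with the factor `D ^ s` -/
def fl (A : Ev) : Env → G :=
  @Nat.rec (fun _ => Env → G) A.f (fun _ _ E => (A.f E).nm (Nat.pow (nat_lit 16384) A.s)) A.s

lemma fl_ok (A : Ev) (hg : A.g = true) (E : Env) (X Y : GaussianInt) (δ ε u w : ℂ) (hE : E.Ok X Y)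
    (ho : Off E δ ε) (hu : D * u = tc X + δ) (hw : D * w = tc Y + ε) :
    Enc E δ ε (Nat.mul (Nat.pow (nat_lit 16384) A.s) A.b) (A.fl E) ((D : ℂ) ^ A.deg * A.val u w) := by
  have h := A.ok hg E X Y δ ε u w hE ho hu hw
  have h2 := h.nm (Nat.pow (nat_lit 16384) A.s)
  rw [pow_D, ← mul_assoc, ← pow_add] at h2
  unfold fl
  rcases hs : A.s with _ | n
  · have e1 : A.deg = A.d := by
      unfold deg
      rw [hs]
      exact Nat.zero_add _
    have e2 : Nat.mul (Nat.pow (nat_lit 16384) 0) A.b = A.b := Nat.one_mul _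
    rw [e1, e2]
    exact h
  · rw [hs] at h2
    have e1 : A.deg = n + 1 + A.d := by
      unfold deg
      rw [hs]
      rfl
    rw [e1]
    exact h2

def add (A B : Ev) (hd : A.deg = B.deg) : Ev where
  s := 0
  d := A.deg
  b := Nat.add (Nat.mul (Nat.pow (nat_lit 16384) A.s) A.b) (Nat.mul (Nat.pow (nat_lit 16384) B.s) B.b)
  g := cB A.g B.g false
  ty := 0
  f := fun E => (A.fl E).add (B.fl E)
  val := fun u w => A.val u w + B.val u w
  kd := Kd0 _
  ok := fun hg E X Y δ ε u w hE ho hu hw => by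
    have h := (A.fl_ok (cB_and hg).1 E X Y δ ε u w hE ho hu hw).add (B.fl_ok (cB_and hg).2 E X Y δ ε u w hE ho hu hw)
    rw [← hd, ← mul_add] at h
    exact h

def sub (A B : Ev) (hd : A.deg = B.deg) : Ev where
  s := 0
  d := A.deg
  b := Nat.add (Nat.mul (Nat.pow (nat_lit 16384) A.s) A.b) (Nat.mul (Nat.pow (nat_lit 16384) B.s) B.b)
  g := cB A.g B.g false
  ty := 0
  f := fun E => (A.fl E).sub (B.fl E)
  val := fun u w => A.val u w - B.val u w
  kd := Kd0 _
  ok := fun hg E X Y δ ε u w hE ho hu hw => by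
    have h := (A.fl_ok (cB_and hg).1 E X Y δ ε u w hE ho hu hw).sub (B.fl_ok (cB_and hg).2 E X Y δ ε u w hE ho hu hw)
    rw [← hd, ← mul_sub] at h
    exact h

def mul (A B : Ev) : Ev where
  s := Nat.add A.s B.s
  d := Nat.add A.d B.d
  b := Nat.mul (nat_lit 2) (Nat.mul A.b B.b)
  g := cB A.g B.g false
  ty := 0
  f := fun E => (A.f E).mul (B.f E)
  val := fun u w => A.val u w * B.val u w
  kd := Kd0 _
  ok := fun hg E X Y δ ε u w hE ho hu hw => by
    have h := (A.ok (cB_and hg).1 E X Y δ ε u w hE ho hu hw).mul ho (B.ok (cB_and hg).2 E X Y δ ε u w hE ho hu hw)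
    have e : (D : ℂ) ^ A.d * A.val u w * ((D : ℂ) ^ B.d * B.val u w) =
        (D : ℂ) ^ (A.d + B.d) * (A.val u w * B.val u w) := by
      rw [pow_add]; ring
    rw [e] at h
    exact h

def sq (A : Ev) : Ev where
  s := Nat.mul 2 A.s
  d := Nat.mul 2 A.d
  b := Nat.mul (nat_lit 2) (Nat.mul A.b A.b)
  g := A.g
  ty := 0
  f := fun E => (A.f E).sq
  val := fun u w => A.val u w ^ 2
  kd := Kd0 _
  ok := fun hg E X Y δ ε u w hE ho hu hw => by
    have h := (A.ok hg E X Y δ ε u w hE ho hu hw).sq ho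
    rw [mul_pow, ← pow_mul, mul_comm A.d 2] at h
    exact h

/-- multiplication by the Gaussian integer `(a - b) + (c - d) i` -/
def gm (a b c d : ℕ) (A : Ev) : Ev where
  s := 0
  d := A.deg
  b := Nat.mul (Nat.mul (Nat.pow (nat_lit 16384) A.s) (gn a b c d)) A.b
  g := A.g
  ty := 0
  f := fun E => (A.f E).gm (Nat.mul (Nat.pow (nat_lit 16384) A.s) (ge a b c d))
    (Nat.mul (Nat.pow (nat_lit 16384) A.s) (gn a b c d))
  val := fun u w => gz a b c d * A.val u w
  kd := Kd0 _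
  ok := fun hg E X Y δ ε u w hE ho hu hw => by
    have h := (A.ok hg E X Y δ ε u w hE ho hu hw).gm ((RB.nat (Nat.pow (nat_lit 16384) A.s)).mul (RB_ge a b c d))
    rw [map_mul, map_natCast, pow_D, tc_gi] at h
    have e : (D : ℂ) ^ A.s * gz a b c d * ((D : ℂ) ^ A.d * A.val u w) =
        (D : ℂ) ^ A.deg * (gz a b c d * A.val u w) := by
      change _ = (D : ℂ) ^ (A.s + A.d) * _
      rw [pow_add]
      ring
    rw [e] at h
    exact h

/-- multiplication by a natural number -/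
def nm (n : ℕ) (A : Ev) : Ev where
  s := A.s
  d := A.d
  b := Nat.mul n A.b
  g := A.g
  ty := 0
  f := fun E => (A.f E).nm n
  val := fun u w => n * A.val u w
  kd := Kd0 _
  ok := fun hg E X Y δ ε u w hE ho hu hw => by
    have h := (A.ok hg E X Y δ ε u w hE ho hu hw).nm n
    have e : (n : ℂ) * ((D : ℂ) ^ A.d * A.val u w) = (D : ℂ) ^ A.d * (n * A.val u w) := by
      ring
    rw [e] at h
    exact h

/-- the range condition of the decoding -/
def rgB (b : ℕ) : Bool := Nat.ble (Nat.succ b) (nat_lit 6703903964971298549787012499102923063739682910296196688861780721860882015036773488400937149083451713845015929093243025426876941405973284973216824503042048)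

lemma rgB_lt {b : ℕ} (h : rgB b = true) : b < HH := Nat.le_of_ble_eq_true h

/-- new bound for the value -/
def nc (A : Ev) : Ev where
  s := A.s
  d := A.d
  b := A.b
  g := cB A.g (rgB A.b) false
  ty := A.ty
  f := fun E => (A.f E).nc
  val := A.val
  kd := A.kd
  ok := fun hg E X Y δ ε u w hE ho hu hw =>
    (A.ok (cB_and hg).1 E X Y δ ε u w hE ho hu hw).nc (rgB_lt (cB_and hg).2)

/-- new bounds for the value and the linear part -/
def nl (A : Ev) : Ev where
  s := A.s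
  d := A.d
  b := A.b
  g := cB A.g (rgB A.b) false
  ty := A.ty
  f := fun E => (A.f E).nl E.ρ E.σ
  val := A.val
  kd := A.kd
  ok := fun hg E X Y δ ε u w hE ho hu hw =>
    (A.ok (cB_and hg).1 E X Y δ ε u w hE ho hu hw).nl (rgB_lt (cB_and hg).2)

end Ev

/-! ### constraints -/

/-- a constraint: if it holds, a number which is at most the value of the form `lf` is nonnegative
(valid if `g` is true); `b` bounds the coefficients of the form -/
structure Con where
  g : Bool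
  b : ℕ
  lf : Env → LF
  Holds : ℂ → ℂ → Prop
  ok : g = true → b < HH ∧ ∀ (E : Env) (X Y : GaussianInt) (δ ε u w : ℂ), E.Ok X Y → Off E δ ε →
    D * u = tc X + δ → D * w = tc Y + ε → ∃ x : ℝ, LOk δ ε b (lf E) x ∧ (Holds u w → 0 ≤ x)

/-- the test of a failure -/
def Con.fails (c : Con) (E : Env) : Bool := tst (c.lf E) E.a E.b E.c E.d

/-- the encoding of `(a - b) i` -/
lemma RB_k (a b : ℕ) : RB (ge 0 0 a b) (gi 0 0 a b) (Nat.add a b) := by
  refine ⟨Rep_ge 0 0 a b, ?_⟩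
  rw [tc_gi]
  unfold gz
  change _ ≤ ((a + b : ℕ) : ℝ)
  refine (Complex.norm_le_abs_re_add_abs_im _).trans ?_
  simp only
  push_cast
  have ha : (0 : ℝ) ≤ a := Nat.cast_nonneg _
  have hb : (0 : ℝ) ≤ b := Nat.cast_nonneg _
  rw [sub_self, abs_zero, zero_add, abs_le]
  constructor <;> linarith only []

lemma gn_comm (a b c d : ℕ) : gn b a c d = gn a b c d := by
  unfold gn
  have e : Nat.add b a = Nat.add a b := Nat.add_comm b a
  rw [e]

/-- minus the conjugate -/
lemma RB_gh (a b c d : ℕ) : RB (ge b a c d) (-star (gi a b c d)) (gn a b c d) := by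
  have h := RB_ge b a c d
  rw [gn_comm a b c d] at h
  have e : gi b a c d = -star (gi a b c d) := by
    apply Zsqrtd.ext
    · simp [gi]
    · simp [gi]
  rw [e] at h
  exact h

lemma tc_k (a b : ℕ) : tc (gi 0 0 a b) = ((((a : ℝ) - b) : ℝ) : ℂ) * I := by
  rw [tc_gi]
  unfold gz
  apply Complex.ext <;> simp

/-- common factor -/
lemma scale_id {a b c d : ℕ} (N M z : ℂ) (γ μ : ℝ) (h : a + b = c + d) :
    ((((D ^ a * D ^ c : ℝ) : ℂ) * z) * (((D : ℂ) ^ b * N) * (starRingEnd ℂ) ((D : ℂ) ^ d * M))).im -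
      D ^ a * D ^ a * γ * ‖(D : ℂ) ^ b * N‖ ^ 2 - D ^ c * D ^ c * μ * ‖(D : ℂ) ^ d * M‖ ^ 2 =
      (D ^ (a + b)) ^ 2 * ((z * (N * (starRingEnd ℂ) M)).im - γ * ‖N‖ ^ 2 - μ * ‖M‖ ^ 2) := by
  have e1 : (((D ^ a * D ^ c : ℝ) : ℂ) * z) * (((D : ℂ) ^ b * N) * (starRingEnd ℂ) ((D : ℂ) ^ d * M)) =
      (((D ^ (a + b)) ^ 2 : ℝ) : ℂ) * (z * (N * (starRingEnd ℂ) M)) := by
    have e : (D ^ (a + b)) ^ 2 = D ^ a * D ^ c * (D ^ b * D ^ d) := by
      rw [pow_two]
      nth_rw 2 [h]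
      rw [pow_add, pow_add]
      ring
    rw [e, map_mul, map_pow, Complex.conj_ofReal]
    push_cast
    ring
  rw [e1, Complex.im_ofReal_mul, norm_mul, norm_mul, norm_pow, norm_pow, Complex.norm_real,
    Real.norm_of_nonneg D_pos.le]
  have e2 : D ^ c * D ^ c * μ * (D ^ d * ‖M‖) ^ 2 = (D ^ (c + d)) ^ 2 * (μ * ‖M‖ ^ 2) := by
    rw [pow_add]
    ring
  have e3 : D ^ a * D ^ a * γ * (D ^ b * ‖N‖) ^ 2 = (D ^ (a + b)) ^ 2 * (γ * ‖N‖ ^ 2) := by
    rw [pow_add]
    ring
  rw [e2, e3, ← h]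
  ring

/-- `D ^ s D ^ t n` -/
def pD (n s t : ℕ) : ℕ := Nat.mul (Nat.mul (Nat.pow (nat_lit 16384) s) (Nat.pow (nat_lit 16384) t)) n

lemma pD_cast (n s t : ℕ) : (pD n s t : ℝ) = D ^ s * D ^ t * n := by
  change ((Nat.pow (nat_lit 16384) s * Nat.pow (nat_lit 16384) t * n : ℕ) : ℝ) = _
  push_cast
  rw [pow_DR, pow_DR]

lemma RB_pD {n b : ℕ} {z : GaussianInt} (h : RB n z b) (s t : ℕ) :
    RB (pD n s t) (((Nat.pow (nat_lit 16384) s : ℕ) : GaussianInt) * ((Nat.pow (nat_lit 16384) t : ℕ) : GaussianInt) * z)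
      (pD b s t) :=
  ((RB.nat (Nat.pow (nat_lit 16384) s)).mul (RB.nat (Nat.pow (nat_lit 16384) t))).mul h

lemma tc_pD (z : GaussianInt) (s t : ℕ) :
    tc (((Nat.pow (nat_lit 16384) s : ℕ) : GaussianInt) * ((Nat.pow (nat_lit 16384) t : ℕ) : GaussianInt) * z) =
      ((D ^ s * D ^ t : ℝ) : ℂ) * tc z := by
  rw [map_mul, map_mul, map_natCast, map_natCast, pow_D, pow_D]
  push_cast
  rfl

lemma RB_pDh (a b c d s t : ℕ) : RB (pD (ge b a c d) s t)
    (-star (((Nat.pow (nat_lit 16384) s : ℕ) : GaussianInt) * ((Nat.pow (nat_lit 16384) t : ℕ) : GaussianInt) *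
      gi a b c d)) (pD (gn a b c d) s t) := by
  have h := RB_pD (RB_gh a b c d) s t
  have e : ((Nat.pow (nat_lit 16384) s : ℕ) : GaussianInt) * ((Nat.pow (nat_lit 16384) t : ℕ) : GaussianInt) *
      -star (gi a b c d) = -star (((Nat.pow (nat_lit 16384) s : ℕ) : GaussianInt) *
        ((Nat.pow (nat_lit 16384) t : ℕ) : GaussianInt) * gi a b c d) := by
    rw [star_mul', star_mul', star_natCast, star_natCast, mul_neg]
  rw [e] at h
  exact h

lemma RB_pk (g1 g2 s : ℕ) : RB (pD (ge 0 0 g2 g1) s s)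
    (((Nat.pow (nat_lit 16384) s : ℕ) : GaussianInt) * ((Nat.pow (nat_lit 16384) s : ℕ) : GaussianInt) *
      gi 0 0 g2 g1) (pD g1 s s + pD g2 s s) := by
  refine (RB_pD (RB_k g2 g1) s s).mono ?_
  change Nat.pow 16384 s * Nat.pow 16384 s * (g2 + g1) ≤
    Nat.pow 16384 s * Nat.pow 16384 s * g1 + Nat.pow 16384 s * Nat.pow 16384 s * g2
  rw [Nat.mul_add, Nat.add_comm]

lemma tc_pk (g1 g2 s : ℕ) :
    tc (((Nat.pow (nat_lit 16384) s : ℕ) : GaussianInt) * ((Nat.pow (nat_lit 16384) s : ℕ) : GaussianInt) *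
      gi 0 0 g2 g1) = ((-((pD g1 s s : ℝ) - pD g2 s s) : ℝ) : ℂ) * I := by
  rw [tc_pD, tc_k, pD_cast, pD_cast]
  push_cast
  ring

namespace Con

open Ev

/-- the range condition for `N`, `M` and the bound of the coefficients -/
def qg (N M : Ev) (b : ℕ) : Bool :=
  cB N.g (cB M.g (cB (rgB N.b) (cB (rgB M.b) (rgB b) false) false) false) false

lemma qg_spec {N M : Ev} {b : ℕ} (h : qg N M b = true) :
    N.g = true ∧ M.g = true ∧ N.b < HH ∧ M.b < HH ∧ b < HH :=
  ⟨(cB_and h).1, (cB_and (cB_and h).2).1, rgB_lt (cB_and (cB_and (cB_and h).2).2).1,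
    rgB_lt (cB_and (cB_and (cB_and (cB_and h).2).2).2).1, rgB_lt (cB_and (cB_and (cB_and (cB_and h).2).2).2).2⟩

/-- `0 ≤ Im (g N conj M)` with `g = (a - b) + (c - d) i` -/
def qI (a b c d : ℕ) (N M : Ev) : Con where
  g := qg N M (lqb (gn a b c d) (nat_lit 0) (nat_lit 0) N.b M.b)
  b := lqb (gn a b c d) (nat_lit 0) (nat_lit 0) N.b M.b
  lf := fun E => lqI (ge a b c d) (ge b a c d) (gn a b c d) (N.f E) (M.f E)
  Holds := fun u w => 0 ≤ (gz a b c d * (N.val u w * (starRingEnd ℂ) (M.val u w))).im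
  ok := fun hg => by
    obtain ⟨g1, g2, g3, g4, g5⟩ := qg_spec hg
    refine ⟨g5, fun E X Y δ ε u w hE ho hu hw => ?_⟩
    refine ⟨_, lqI_spec ho (RB_ge a b c d) (RB_gh a b c d) (N.ok g1 E X Y δ ε u w hE ho hu hw)
      (M.ok g2 E X Y δ ε u w hE ho hu hw) g3 g4, fun hH => ?_⟩
    have e : tc (gi a b c d) * ((D : ℂ) ^ N.d * N.val u w *
        (starRingEnd ℂ) ((D : ℂ) ^ M.d * M.val u w)) = ((D ^ (N.d + M.d) : ℝ) : ℂ) *
        (gz a b c d * (N.val u w * (starRingEnd ℂ) (M.val u w))) := by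
      rw [tc_gi, map_mul, map_pow, Complex.conj_ofReal]
      push_cast
      rw [pow_add]
      ring
    rw [e, Complex.im_ofReal_mul]
    exact mul_nonneg (pow_nonneg D_pos.le (N.d + M.d)) hH

/-- `0 ≤ Im (g N conj M) - μ ‖M‖²` with `μ = m1 - m2` -/
def qM (a b c d m1 m2 : ℕ) (N M : Ev) (hd : N.deg = M.deg) : Con where
  g := qg N M (lqb (pD (gn a b c d) N.s M.s) (nat_lit 0)
    (Nat.mul (nat_lit 2) (Nat.add (pD m1 M.s M.s) (pD m2 M.s M.s))) N.b M.b)
  b := lqb (pD (gn a b c d) N.s M.s) (nat_lit 0)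
    (Nat.mul (nat_lit 2) (Nat.add (pD m1 M.s M.s) (pD m2 M.s M.s))) N.b M.b
  lf := fun E => lqM (pD (ge a b c d) N.s M.s) (pD (ge b a c d) N.s M.s) (pD (gn a b c d) N.s M.s)
    (pD (ge 0 0 m2 m1) M.s M.s) (Nat.mul (nat_lit 2) (Nat.add (pD m1 M.s M.s) (pD m2 M.s M.s))) (pD m2 M.s M.s)
    (N.f E) (M.f E)
  Holds := fun u w => 0 ≤ (gz a b c d * (N.val u w * (starRingEnd ℂ) (M.val u w))).im - ((m1 : ℝ) - m2) * ‖M.val u w‖ ^ 2
  ok := fun hg => by
    obtain ⟨k1, k2, k3, k4, k5⟩ := qg_spec hg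
    refine ⟨k5, fun E X Y δ ε u w hE ho hu hw => ?_⟩
    refine ⟨_, lqM_spec ho (RB_pD (RB_ge a b c d) N.s M.s) (RB_pDh a b c d N.s M.s)
      (RB_pk m1 m2 M.s) (tc_pk m1 m2 M.s)
      (N.ok k1 E X Y δ ε u w hE ho hu hw) (M.ok k2 E X Y δ ε u w hE ho hu hw) k3 k4, fun hH => ?_⟩
    have e := scale_id (N.val u w) (M.val u w) (gz a b c d) (0 : ℝ) ((m1 : ℝ) - m2) hd
    rw [mul_zero, zero_mul, zero_mul, sub_zero, sub_zero] at e
    rw [tc_pD, tc_gi, pD_cast, pD_cast, ← mul_sub]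
    refine le_of_le_of_eq (mul_nonneg (sq_nonneg (D ^ (N.s + N.d))) hH) (Eq.trans ?_ e.symm)
    ring

/-- `0 ≤ Im (g N conj M) - γ ‖N‖²` with `γ = g1 - g2` -/
def qG (a b c d g1 g2 : ℕ) (N M : Ev) (hd : N.deg = M.deg) : Con where
  g := qg N M (lqb (pD (gn a b c d) N.s M.s) (Nat.mul (nat_lit 2) (Nat.add (pD g1 N.s N.s) (pD g2 N.s N.s)))
    (nat_lit 0) N.b M.b)
  b := lqb (pD (gn a b c d) N.s M.s) (Nat.mul (nat_lit 2) (Nat.add (pD g1 N.s N.s) (pD g2 N.s N.s)))
    (nat_lit 0) N.b M.b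
  lf := fun E => lqG (pD (ge a b c d) N.s M.s) (pD (ge b a c d) N.s M.s) (pD (gn a b c d) N.s M.s)
    (pD (ge 0 0 g2 g1) N.s N.s) (Nat.mul (nat_lit 2) (Nat.add (pD g1 N.s N.s) (pD g2 N.s N.s))) (pD g2 N.s N.s)
    (N.f E) (M.f E)
  Holds := fun u w => 0 ≤ (gz a b c d * (N.val u w * (starRingEnd ℂ) (M.val u w))).im -
    ((g1 : ℝ) - g2) * ‖N.val u w‖ ^ 2
  ok := fun hg => by
    obtain ⟨k1, k2, k3, k4, k5⟩ := qg_spec hg
    refine ⟨k5, fun E X Y δ ε u w hE ho hu hw => ?_⟩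
    refine ⟨_, lqG_spec ho (RB_pD (RB_ge a b c d) N.s M.s) (RB_pDh a b c d N.s M.s)
      (RB_pk g1 g2 N.s) (tc_pk g1 g2 N.s)
      (N.ok k1 E X Y δ ε u w hE ho hu hw) (M.ok k2 E X Y δ ε u w hE ho hu hw) k3 k4, fun hH => ?_⟩
    have e := scale_id (N.val u w) (M.val u w) (gz a b c d) ((g1 : ℝ) - g2) (0 : ℝ) hd
    rw [mul_zero, zero_mul, zero_mul, sub_zero, sub_zero] at e
    rw [tc_pD, tc_gi, pD_cast, pD_cast, ← mul_sub]
    refine le_of_le_of_eq (mul_nonneg (sq_nonneg (D ^ (N.s + N.d))) hH) (Eq.trans ?_ e.symm)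
    ring

/-- `0 ≤ - γ ‖N‖² - μ ‖M‖²` -/
def qB (g1 g2 m1 m2 : ℕ) (N M : Ev) (hd : N.deg = M.deg) : Con where
  g := qg N M (lqb (nat_lit 0) (Nat.mul (nat_lit 2) (Nat.add (pD g1 N.s N.s) (pD g2 N.s N.s)))
    (Nat.mul (nat_lit 2) (Nat.add (pD m1 M.s M.s) (pD m2 M.s M.s))) N.b M.b)
  b := lqb (nat_lit 0) (Nat.mul (nat_lit 2) (Nat.add (pD g1 N.s N.s) (pD g2 N.s N.s)))
    (Nat.mul (nat_lit 2) (Nat.add (pD m1 M.s M.s) (pD m2 M.s M.s))) N.b M.b
  lf := fun E => lqB (pD (ge 0 0 g2 g1) N.s N.s) (Nat.mul (nat_lit 2) (Nat.add (pD g1 N.s N.s) (pD g2 N.s N.s))) (pD g2 N.s N.s)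
    (pD (ge 0 0 m2 m1) M.s M.s) (Nat.mul (nat_lit 2) (Nat.add (pD m1 M.s M.s) (pD m2 M.s M.s))) (pD m2 M.s M.s)
    (N.f E) (M.f E)
  Holds := fun u w => 0 ≤ -(((g1 : ℝ) - g2) * ‖N.val u w‖ ^ 2) - ((m1 : ℝ) - m2) * ‖M.val u w‖ ^ 2
  ok := fun hg => by
    obtain ⟨k1, k2, k3, k4, k5⟩ := qg_spec hg
    refine ⟨k5, fun E X Y δ ε u w hE ho hu hw => ?_⟩
    refine ⟨_, lqB_spec ho (RB_pk g1 g2 N.s) (tc_pk g1 g2 N.s) (RB_pk m1 m2 M.s) (tc_pk m1 m2 M.s)
      (N.ok k1 E X Y δ ε u w hE ho hu hw) (M.ok k2 E X Y δ ε u w hE ho hu hw) k3 k4, fun hH => ?_⟩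
    have e := scale_id (N.val u w) (M.val u w) (0 : ℂ) ((g1 : ℝ) - g2) ((m1 : ℝ) - m2) hd
    rw [mul_zero, zero_mul, zero_mul, Complex.zero_im, zero_sub, zero_sub] at e
    rw [pD_cast, pD_cast, pD_cast, pD_cast, ← mul_sub, ← mul_sub]
    refine le_of_le_of_eq (mul_nonneg (sq_nonneg (D ^ (N.s + N.d))) hH) (Eq.trans ?_ e.symm)
    ring

/-- `0 ≤ Im (g N conj M) - γ ‖N‖² - μ ‖M‖²` with `γ = g1 - g2`, `μ = m1 - m2` -/
def qA (a b c d g1 g2 m1 m2 : ℕ) (N M : Ev) (hd : N.deg = M.deg) : Con where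
  g := qg N M (lqb (pD (gn a b c d) N.s M.s) (Nat.mul (nat_lit 2) (Nat.add (pD g1 N.s N.s) (pD g2 N.s N.s)))
    (Nat.mul (nat_lit 2) (Nat.add (pD m1 M.s M.s) (pD m2 M.s M.s))) N.b M.b)
  b := lqb (pD (gn a b c d) N.s M.s) (Nat.mul (nat_lit 2) (Nat.add (pD g1 N.s N.s) (pD g2 N.s N.s)))
    (Nat.mul (nat_lit 2) (Nat.add (pD m1 M.s M.s) (pD m2 M.s M.s))) N.b M.b
  lf := fun E => lqA (pD (ge a b c d) N.s M.s) (pD (ge b a c d) N.s M.s) (pD (gn a b c d) N.s M.s)
    (pD (ge 0 0 g2 g1) N.s N.s) (Nat.mul (nat_lit 2) (Nat.add (pD g1 N.s N.s) (pD g2 N.s N.s))) (pD g2 N.s N.s)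
    (pD (ge 0 0 m2 m1) M.s M.s) (Nat.mul (nat_lit 2) (Nat.add (pD m1 M.s M.s) (pD m2 M.s M.s))) (pD m2 M.s M.s)
    (N.f E) (M.f E)
  Holds := fun u w => 0 ≤ (gz a b c d * (N.val u w * (starRingEnd ℂ) (M.val u w))).im -
    ((g1 : ℝ) - g2) * ‖N.val u w‖ ^ 2 - ((m1 : ℝ) - m2) * ‖M.val u w‖ ^ 2
  ok := fun hg => by
    obtain ⟨k1, k2, k3, k4, k5⟩ := qg_spec hg
    refine ⟨k5, fun E X Y δ ε u w hE ho hu hw => ?_⟩
    refine ⟨_, lqA_spec ho (RB_pD (RB_ge a b c d) N.s M.s) (RB_pDh a b c d N.s M.s)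
      (RB_pk g1 g2 N.s) (tc_pk g1 g2 N.s) (RB_pk m1 m2 M.s) (tc_pk m1 m2 M.s)
      (N.ok k1 E X Y δ ε u w hE ho hu hw) (M.ok k2 E X Y δ ε u w hE ho hu hw) k3 k4, fun hH => ?_⟩
    have e := scale_id (N.val u w) (M.val u w) (gz a b c d) ((g1 : ℝ) - g2) ((m1 : ℝ) - m2) hd
    rw [tc_pD, tc_gi, pD_cast, pD_cast, pD_cast, pD_cast, ← mul_sub, ← mul_sub]
    refine le_of_le_of_eq (mul_nonneg (sq_nonneg (D ^ (N.s + N.d))) hH) (Eq.trans ?_ e.symm)
    ring

/-- `0 ≤ Im (g A) + k` with `g = (a - b) + (c - d) i`, `k = k1 - k2` -/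
def ql (a b c d k1 k2 : ℕ) (A : Ev) : Con where
  g := cB A.g (rgB (Nat.add (Nat.mul (gn a b c d) A.b) (Nat.mul (Nat.pow (nat_lit 16384) A.d) (Nat.add k1 k2)))) false
  b := Nat.add (Nat.mul (gn a b c d) A.b) (Nat.mul (Nat.pow (nat_lit 16384) A.d) (Nat.add k1 k2))
  lf := fun E => ll (ge a b c d) (gn a b c d) (Nat.mul (Nat.pow (nat_lit 16384) A.d) (ge 0 0 k1 k2)) (A.f E)
  Holds := fun u w => 0 ≤ (gz a b c d * A.val u w).im + ((k1 : ℝ) - k2)
  ok := fun hg => by
    refine ⟨rgB_lt (cB_and hg).2, fun E X Y δ ε u w hE ho hu hw => ?_⟩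
    have hk : RB (Nat.mul (Nat.pow (nat_lit 16384) A.d) (ge 0 0 k1 k2))
        (((Nat.pow (nat_lit 16384) A.d : ℕ) : GaussianInt) * gi 0 0 k1 k2)
        (Nat.mul (Nat.pow (nat_lit 16384) A.d) (Nat.add k1 k2)) :=
      (RB.nat (Nat.pow (nat_lit 16384) A.d)).mul (RB_k k1 k2)
    refine ⟨_, ll_spec (RB_ge a b c d) hk (A.ok (cB_and hg).1 E X Y δ ε u w hE ho hu hw), fun hH => ?_⟩
    rw [map_mul, map_natCast, pow_D, tc_gi, tc_gi]
    have e : (gz a b c d * ((D : ℂ) ^ A.d * A.val u w)).im + ((D : ℂ) ^ A.d * gz 0 0 k1 k2).im =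
        D ^ A.d * ((gz a b c d * A.val u w).im + ((k1 : ℝ) - k2)) := by
      have e1 : gz a b c d * ((D : ℂ) ^ A.d * A.val u w) = ((D ^ A.d : ℝ) : ℂ) * (gz a b c d * A.val u w) := by
        push_cast
        ring
      have e2 : (D : ℂ) ^ A.d * gz 0 0 k1 k2 = ((D ^ A.d : ℝ) : ℂ) * gz 0 0 k1 k2 := by
        push_cast
        rfl
      have e3 : (gz 0 0 k1 k2).im = (k1 : ℝ) - k2 := rfl
      rw [e1, e2, Complex.im_ofReal_mul, Complex.im_ofReal_mul, e3]
      ring
    rw [e]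
    exact mul_nonneg (pow_nonneg D_pos.le A.d) hH

/-- `0 ≤ Im (g A) - m ‖A‖² + k` with `g = (a - b) + (c - d) i`, `m = m1 - m2`, `k = k1 - k2` -/
def qd (a b c d m1 m2 k1 k2 : ℕ) (A : Ev) : Con where
  g := cB A.g (cB (rgB A.b) (rgB (ldb (Nat.mul (Nat.pow (nat_lit 16384) A.d) (gn a b c d)) (Nat.add m2 m1)
    (Nat.mul (Nat.mul (Nat.pow (nat_lit 16384) A.d) (Nat.pow (nat_lit 16384) A.d)) (Nat.add k1 k2)) A.b)) false) false
  b := ldb (Nat.mul (Nat.pow (nat_lit 16384) A.d) (gn a b c d)) (Nat.add m2 m1)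
    (Nat.mul (Nat.mul (Nat.pow (nat_lit 16384) A.d) (Nat.pow (nat_lit 16384) A.d)) (Nat.add k1 k2)) A.b
  lf := fun E => ld (Nat.mul (Nat.pow (nat_lit 16384) A.d) (ge a b c d))
    (Nat.mul (Nat.pow (nat_lit 16384) A.d) (gn a b c d)) (ge 0 0 m2 m1) (Nat.add m2 m1) m2
    (Nat.mul (Nat.mul (Nat.pow (nat_lit 16384) A.d) (Nat.pow (nat_lit 16384) A.d)) (ge 0 0 k1 k2)) (A.f E)
  Holds := fun u w => 0 ≤ (gz a b c d * A.val u w).im - ((m1 : ℝ) - m2) * ‖A.val u w‖ ^ 2 + ((k1 : ℝ) - k2)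
  ok := fun hg => by
    obtain ⟨g1, g2⟩ := cB_and hg
    obtain ⟨g3, g4⟩ := cB_and g2
    refine ⟨rgB_lt g4, fun E X Y δ ε u w hE ho hu hw => ?_⟩
    have hk : RB (Nat.mul (Nat.mul (Nat.pow (nat_lit 16384) A.d) (Nat.pow (nat_lit 16384) A.d)) (ge 0 0 k1 k2))
        (((Nat.pow (nat_lit 16384) A.d : ℕ) : GaussianInt) * ((Nat.pow (nat_lit 16384) A.d : ℕ) : GaussianInt) *
          gi 0 0 k1 k2)
        (Nat.mul (Nat.mul (Nat.pow (nat_lit 16384) A.d) (Nat.pow (nat_lit 16384) A.d)) (Nat.add k1 k2)) :=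
      ((RB.nat (Nat.pow (nat_lit 16384) A.d)).mul (RB.nat (Nat.pow (nat_lit 16384) A.d))).mul (RB_k k1 k2)
    have hG : RB (Nat.mul (Nat.pow (nat_lit 16384) A.d) (ge a b c d))
        (((Nat.pow (nat_lit 16384) A.d : ℕ) : GaussianInt) * gi a b c d)
        (Nat.mul (Nat.pow (nat_lit 16384) A.d) (gn a b c d)) :=
      (RB.nat (Nat.pow (nat_lit 16384) A.d)).mul (RB_ge a b c d)
    refine ⟨_, ld_spec (m1 := m1) (m2 := m2) ho hG (RB_k m2 m1) (tc_k m2 m1) hk
      (A.ok g1 E X Y δ ε u w hE ho hu hw) (rgB_lt g3), fun hH => ?_⟩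
    rw [map_mul, map_mul, map_mul, map_natCast, pow_D, tc_gi, tc_gi, norm_mul, norm_pow, Complex.norm_real,
      Real.norm_of_nonneg D_pos.le]
    have e1 : (D : ℂ) ^ A.d * gz a b c d * ((D : ℂ) ^ A.d * A.val u w) =
        ((D ^ A.d * D ^ A.d : ℝ) : ℂ) * (gz a b c d * A.val u w) := by
      push_cast
      ring
    have e2 : (D : ℂ) ^ A.d * (D : ℂ) ^ A.d * gz 0 0 k1 k2 = ((D ^ A.d * D ^ A.d : ℝ) : ℂ) * gz 0 0 k1 k2 := by
      push_cast
      ring
    have e3 : (gz 0 0 k1 k2).im = (k1 : ℝ) - k2 := rfl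
    rw [e1, e2, Complex.im_ofReal_mul, Complex.im_ofReal_mul, e3]
    refine le_of_le_of_eq (mul_nonneg (mul_nonneg (pow_nonneg D_pos.le A.d) (pow_nonneg D_pos.le A.d)) hH) ?_
    ring

end Con

/-! ### cells -/

/-- intervals for `D u + 2 ^ 20 (1 + i)` and `D w + 2 ^ 20 (1 + i)` -/
structure Cell where
  xl : ℕ
  xh : ℕ
  yl : ℕ
  yh : ℕ
  ul : ℕ
  uh : ℕ
  vl : ℕ
  vh : ℕ

/-- membership in an interval -/
def InI (l h : ℕ) (t : ℝ) : Prop := (l : ℝ) ≤ D * t + 1048576 ∧ D * t + 1048576 ≤ h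

def Cell.Mem (C : Cell) (u w : ℂ) : Prop :=
  InI C.xl C.xh u.re ∧ InI C.yl C.yh u.im ∧ InI C.ul C.uh w.re ∧ InI C.vl C.vh w.im

/-- the range of the cells -/
def InR (n : ℕ) : Prop := 917504 ≤ n ∧ n ≤ 1179648

structure Cell.In (C : Cell) : Prop where
  xl : InR C.xl
  xh : InR C.xh
  yl : InR C.yl
  yh : InR C.yh
  ul : InR C.ul
  uh : InR C.uh
  vl : InR C.vl
  vh : InR C.vh

/-- middle -/
def mid (l h : ℕ) : ℕ := Nat.div (Nat.add l h) (nat_lit 2)

lemma InR.mid {l h : ℕ} (hl : InR l) (hh : InR h) : InR (mid l h) := by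
  unfold InR at *
  change 917504 ≤ (l + h) / 2 ∧ (l + h) / 2 ≤ 1179648
  omega

/-- encoding of `(s - 2 ^ 20) + (t - 2 ^ 20) i` -/
def eo (s t : ℕ) : ℕ := Nat.add (Nat.add s (Nat.mul t (nat_lit 13407807929942597099574024998205846127479365820592393377723561443721764030073546976801874298166903427690031858186486050853753882811946569946433649006084096))) (nat_lit 179769313486231590772930519078902473361797697894230657273430081157732675805500963132708477322407536021120113879871393357658789768814416622492847430625415018769820404728582552439783526292278290624759593473645144604426158242744063286726910966466168308569847664954833500979921414515060029776683746389420586041345)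

lemma Rep_eo (s t : ℕ) : Rep (eo s t) ⟨(s : ℤ) - 1048576, (t : ℤ) - 1048576⟩ := by
  have h0 : Rep (nat_lit 179769313486231590772930519078902473361797697894230657273430081157732675805500963132708477322407536021120113879871393357658789768814416622492847430625415018769820404728582552439783526292278290624759593473645144604426158242744063286726910966466168308569847664954833500979921414515060029776683746389420586041345) ⟨-1048576, -1048576⟩ := by
    have h1 : ((((nat_lit 179769313486231590772930519078902473361797697894230657273430081157732675805500963132708477322407536021120113879871393357658789768814416622492847430625415018769820404728582552439783526292278290624759593473645144604426158242744063286726910966466168308569847664954833500979921414515060029776683746389420586041345) + (1048576 + 1048576 * XX) : ℕ)) : ZMod MM) = 0 := by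
      have : (nat_lit 179769313486231590772930519078902473361797697894230657273430081157732675805500963132708477322407536021120113879871393357658789768814416622492847430625415018769820404728582552439783526292278290624759593473645144604426158242744063286726910966466168308569847664954833500979921414515060029776683746389420586041345) + (1048576 + 1048576 * XX) = MM := by decide +kernel
      rw [this]
      exact ZMod.natCast_self MM
    unfold Rep
    rw [phi_apply]
    push_cast at h1 ⊢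
    linear_combination h1
  have h := ((Rep_nat s).add ((Rep_nat t).mul Rep_XX)).add h0
  have e : (s : GaussianInt) + (t : GaussianInt) * ⟨0, 1⟩ + ⟨-1048576, -1048576⟩ =
      ⟨(s : ℤ) - 1048576, (t : ℤ) - 1048576⟩ := by
    apply Zsqrtd.ext
    · simp
      ring
    · simp
      ring
  rw [e] at h
  exact h

/-- the environment with the middles `m` and the half widths `a, b, c, d` -/
def env3 (m1 m2 m3 m4 a b c d : ℕ) : Env :=
  ⟨eo m1 m2, eo m3 m4, bd (ad m1 (nat_lit 1048576)) (ad m2 (nat_lit 1048576)),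
    bd (ad m3 (nat_lit 1048576)) (ad m4 (nat_lit 1048576)), a, b, c, d, bd a b, bd c d⟩

def env2 (m1 m2 m3 m4 h1 h2 h3 h4 : ℕ) : Env :=
  env3 m1 m2 m3 m4 (Nat.sub h1 m1) (Nat.sub h2 m2) (Nat.sub h3 m3) (Nat.sub h4 m4)

/-- the environment of a cell -/
def envOf (C : Cell) : Env := @Cell.rec (fun _ => Env) (fun xl xh yl yh ul uh vl vh =>
  env2 (mid xl xh) (mid yl yh) (mid ul uh) (mid vl vh) xh yh uh vh) C

lemma InI.mid {l h : ℕ} {t : ℝ} (H : InI l h t) :
    |D * t - ((CN.mid l h : ℝ) - 1048576)| ≤ ((h - CN.mid l h : ℕ) : ℝ) := by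
  obtain ⟨h1, h2⟩ := H
  have h3 : l ≤ h := by
    have : (l : ℝ) ≤ h := h1.trans h2
    exact_mod_cast this
  have h4 : CN.mid l h ≤ h := by
    change (l + h) / 2 ≤ h
    omega
  have h5 : CN.mid l h ≤ l + (h - CN.mid l h) := by
    change (l + h) / 2 ≤ l + (h - (l + h) / 2)
    omega
  have h6 : (CN.mid l h : ℝ) ≤ l + ((h - CN.mid l h : ℕ) : ℝ) := by exact_mod_cast h5
  rw [Nat.cast_sub h4] at h6 ⊢
  rw [abs_le]
  constructor <;> linarith only [h1, h6, h2]

lemma norm_eo {s t : ℕ} (hs : InR s) (ht : InR t) :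
    ‖tc ⟨(s : ℤ) - 1048576, (t : ℤ) - 1048576⟩‖ ≤ ((nat_lit 262144 : ℕ) : ℝ) := by
  refine (Complex.norm_le_abs_re_add_abs_im _).trans ?_
  rw [tc_re, tc_im]
  push_cast
  obtain ⟨a1, a2⟩ := hs
  obtain ⟨b1, b2⟩ := ht
  have a1' : (917504 : ℝ) ≤ s := by exact_mod_cast a1
  have a2' : (s : ℝ) ≤ 1179648 := by exact_mod_cast a2
  have b1' : (917504 : ℝ) ≤ t := by exact_mod_cast b1
  have b2' : (t : ℝ) ≤ 1179648 := by exact_mod_cast b2
  have c1 : |(s : ℝ) - 1048576| ≤ 131072 := by rw [abs_le]; constructor <;> linarith only [a1', a2']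
  have c2 : |(t : ℝ) - 1048576| ≤ 131072 := by rw [abs_le]; constructor <;> linarith only [b1', b2']
  have c3 : (((262144 : ℕ)) : ℝ) = 262144 := by norm_num
  change _ ≤ (((262144 : ℕ)) : ℝ)
  rw [c3]
  linarith only [c1, c2]

theorem envOf_ok (C : Cell) (hC : C.In) :
    (envOf C).Ok ⟨((mid C.xl C.xh : ℕ) : ℤ) - 1048576, ((mid C.yl C.yh : ℕ) : ℤ) - 1048576⟩
      ⟨((mid C.ul C.uh : ℕ) : ℤ) - 1048576, ((mid C.vl C.vh : ℕ) : ℤ) - 1048576⟩ := by
  refine ⟨⟨Rep_eo _ _, norm_eo (hC.xl.mid hC.xh) (hC.yl.mid hC.yh)⟩,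
    ⟨Rep_eo _ _, norm_eo (hC.ul.mid hC.uh) (hC.vl.mid hC.vh)⟩, ?_, ?_⟩
  · apply le_bd
    · rw [tc_re, ad_cast]
      push_cast
      exact le_rfl
    · rw [tc_im, ad_cast]
      push_cast
      exact le_rfl
  · apply le_bd
    · rw [tc_re, ad_cast]
      push_cast
      exact le_rfl
    · rw [tc_im, ad_cast]
      push_cast
      exact le_rfl

theorem Con.fails_cell {C : Cell} {u w : ℂ} (hC : C.In) (h : C.Mem u w) {c : Con} (hg : c.g = true)
    (hf : c.fails (envOf C) = true) : ¬ c.Holds u w := by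
  obtain ⟨h1, h2, h3, h4⟩ := h
  have k1 := h1.mid
  have k2 := h2.mid
  have k3 := h3.mid
  have k4 := h4.mid
  set X : GaussianInt := ⟨((mid C.xl C.xh : ℕ) : ℤ) - 1048576, ((mid C.yl C.yh : ℕ) : ℤ) - 1048576⟩
    with hX
  set Y : GaussianInt := ⟨((mid C.ul C.uh : ℕ) : ℤ) - 1048576, ((mid C.vl C.vh : ℕ) : ℤ) - 1048576⟩
    with hY
  have eX1 : (tc X).re = (mid C.xl C.xh : ℝ) - 1048576 := by
    rw [tc_re, hX]
    push_cast
    rfl
  have eX2 : (tc X).im = (mid C.yl C.yh : ℝ) - 1048576 := by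
    rw [tc_im, hX]
    push_cast
    rfl
  have eY1 : (tc Y).re = (mid C.ul C.uh : ℝ) - 1048576 := by
    rw [tc_re, hY]
    push_cast
    rfl
  have eY2 : (tc Y).im = (mid C.vl C.vh : ℝ) - 1048576 := by
    rw [tc_im, hY]
    push_cast
    rfl
  rw [← eX1] at k1
  rw [← eX2] at k2
  rw [← eY1] at k3
  rw [← eY2] at k4
  have d1 : |((D : ℂ) * u - tc X).re| ≤ ((C.xh - mid C.xl C.xh : ℕ) : ℝ) := by
    rw [Complex.sub_re, Complex.re_ofReal_mul]; exact k1
  have d2 : |((D : ℂ) * u - tc X).im| ≤ ((C.yh - mid C.yl C.yh : ℕ) : ℝ) := by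
    rw [Complex.sub_im, Complex.im_ofReal_mul]; exact k2
  have d3 : |((D : ℂ) * w - tc Y).re| ≤ ((C.uh - mid C.ul C.uh : ℕ) : ℝ) := by
    rw [Complex.sub_re, Complex.re_ofReal_mul]; exact k3
  have d4 : |((D : ℂ) * w - tc Y).im| ≤ ((C.vh - mid C.vl C.vh : ℕ) : ℝ) := by
    rw [Complex.sub_im, Complex.im_ofReal_mul]; exact k4
  have ho : Off (envOf C) (D * u - tc X) (D * w - tc Y) := ⟨d1, d2, d3, d4, le_bd _ _ d1 d2, le_bd _ _ d3 d4⟩
  obtain ⟨x, hx, hH⟩ := (c.ok hg).2 (envOf C) X Y (D * u - tc X) (D * w - tc Y) u w (envOf_ok C hC) ho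
    (by ring) (by ring)
  exact fun h => absurd (hH h) (not_le.2 (tst_spec ho hx (c.ok hg).1 hf))

/-- cut point -/
def cutp (k l h : ℕ) : ℕ :=
  Nat.div (Nat.add (Nat.mul (Nat.sub (nat_lit 4) k) l) (Nat.mul k h)) (nat_lit 4)

lemma InR.cutp {k l h : ℕ} (hk : k ≤ 4) (hl : InR l) (hh : InR h) : InR (cutp k l h) := by
  unfold InR at *
  change 917504 ≤ ((4 - k) * l + k * h) / 4 ∧ ((4 - k) * l + k * h) / 4 ≤ 1179648
  interval_cases k <;> omega

def cutX (k : ℕ) (C : Cell) (f : Cell → Cell → Bool) : Bool :=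
  @Cell.rec (fun _ => Bool) (fun xl xh yl yh ul uh vl vh =>
    f ⟨xl, (cutp k xl xh), yl, yh, ul, uh, vl, vh⟩ ⟨(cutp k xl xh), xh, yl, yh, ul, uh, vl, vh⟩) C
def cutY (k : ℕ) (C : Cell) (f : Cell → Cell → Bool) : Bool :=
  @Cell.rec (fun _ => Bool) (fun xl xh yl yh ul uh vl vh =>
    f ⟨xl, xh, yl, (cutp k yl yh), ul, uh, vl, vh⟩ ⟨xl, xh, (cutp k yl yh), yh, ul, uh, vl, vh⟩) C
def cutU (k : ℕ) (C : Cell) (f : Cell → Cell → Bool) : Bool :=
  @Cell.rec (fun _ => Bool) (fun xl xh yl yh ul uh vl vh =>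
    f ⟨xl, xh, yl, yh, ul, (cutp k ul uh), vl, vh⟩ ⟨xl, xh, yl, yh, (cutp k ul uh), uh, vl, vh⟩) C
def cutV (k : ℕ) (C : Cell) (f : Cell → Cell → Bool) : Bool :=
  @Cell.rec (fun _ => Bool) (fun xl xh yl yh ul uh vl vh =>
    f ⟨xl, xh, yl, yh, ul, uh, vl, (cutp k vl vh)⟩ ⟨xl, xh, yl, yh, ul, uh, (cutp k vl vh), vh⟩) C

/-- the two parts of a cell are passed to `f` -/
def cut (t : ℕ) (C : Cell) (f : Cell → Cell → Bool) : Bool :=
  cB (Nat.ble t (nat_lit 5))
    (cB (Nat.ble t (nat_lit 2)) (cutX (Nat.succ t) C f) (cutY (Nat.sub t (nat_lit 2)) C f))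
    (cB (Nat.ble t (nat_lit 8)) (cutU (Nat.sub t (nat_lit 5)) C f) (cutV (Nat.sub t (nat_lit 8)) C f))

lemma InI.cut {l h : ℕ} {t : ℝ} (m : ℕ) (H : InI l h t) : InI l m t ∨ InI m h t := by
  rcases le_total (D * t + 1048576) m with h1 | h1
  · exact Or.inl ⟨H.1, h1⟩
  · exact Or.inr ⟨h1, H.2⟩

/-- one of two cells contains the point -/
def Cov (u w : ℂ) (A B : Cell) : Prop := A.In ∧ B.In ∧ (A.Mem u w ∨ B.Mem u w)

lemma cB_cases {c a b : Bool} (h : cB c a b = true) : (c = true ∧ a = true) ∨ (c = false ∧ b = true) := by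
  cases c
  · exact Or.inr ⟨rfl, h⟩
  · exact Or.inl ⟨rfl, h⟩

theorem cut_spec {C : Cell} {u w : ℂ} (hC : C.In) (h : C.Mem u w) {t : ℕ} (ht : t ≤ 11)
    {f : Cell → Cell → Bool} (hf : cut t C f = true) : ∃ A B, f A B = true ∧ Cov u w A B := by
  obtain ⟨xl, xh, yl, yh, ul, uh, vl, vh⟩ := C
  obtain ⟨h1, h2, h3, h4⟩ := h
  obtain ⟨g1, g2, g3, g4, g5, g6, g7, g8⟩ := hC
  dsimp only at h1 h2 h3 h4 g1 g2 g3 g4 g5 g6 g7 g8
  rcases cB_cases hf with ⟨c1, hf⟩ | ⟨c1, hf⟩
  · have c1' : t ≤ 5 := Nat.le_of_ble_eq_true c1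
    rcases cB_cases hf with ⟨c2, hf⟩ | ⟨c2, hf⟩
    · have c2' : t ≤ 2 := Nat.le_of_ble_eq_true c2
      have g := g1.cutp (k := Nat.succ t) (by omega) g2
      refine ⟨_, _, hf, ⟨g1, g, g3, g4, g5, g6, g7, g8⟩, ⟨g, g2, g3, g4, g5, g6, g7, g8⟩, ?_⟩
      rcases h1.cut (cutp (Nat.succ t) xl xh) with h | h
      · exact Or.inl ⟨h, h2, h3, h4⟩
      · exact Or.inr ⟨h, h2, h3, h4⟩
    · have g := g3.cutp (k := Nat.sub t (nat_lit 2)) (by change t - 2 ≤ 4; omega) g4
      refine ⟨_, _, hf, ⟨g1, g2, g3, g, g5, g6, g7, g8⟩, ⟨g1, g2, g, g4, g5, g6, g7, g8⟩, ?_⟩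
      rcases h2.cut (cutp (Nat.sub t (nat_lit 2)) yl yh) with h | h
      · exact Or.inl ⟨h1, h, h3, h4⟩
      · exact Or.inr ⟨h1, h, h3, h4⟩
  · rcases cB_cases hf with ⟨c2, hf⟩ | ⟨c2, hf⟩
    · have c2' : t ≤ 8 := Nat.le_of_ble_eq_true c2
      have g := g5.cutp (k := Nat.sub t (nat_lit 5)) (by change t - 5 ≤ 4; omega) g6
      refine ⟨_, _, hf, ⟨g1, g2, g3, g4, g5, g, g7, g8⟩, ⟨g1, g2, g3, g4, g, g6, g7, g8⟩, ?_⟩
      rcases h3.cut (cutp (Nat.sub t (nat_lit 5)) ul uh) with h | h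
      · exact Or.inl ⟨h1, h2, h, h4⟩
      · exact Or.inr ⟨h1, h2, h, h4⟩
    · have g := g7.cutp (k := Nat.sub t (nat_lit 8)) (by change t - 8 ≤ 4; omega) g8
      refine ⟨_, _, hf, ⟨g1, g2, g3, g4, g5, g6, g7, g⟩, ⟨g1, g2, g3, g4, g5, g6, g, g8⟩, ?_⟩
      rcases h4.cut (cutp (Nat.sub t (nat_lit 8)) vl vh) with h | h
      · exact Or.inl ⟨h1, h2, h3, h⟩
      · exact Or.inr ⟨h1, h2, h3, h⟩

/-! ### the checker -/

/-- binary trees of constraints; `n i a b`: the constraints of `b` have the numbers `≥ i` -/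
inductive CT where
  | l : Con → CT
  | n : ℕ → CT → CT → CT

/-- the test of the constraint `k` -/
def CT.get (t : CT) : ℕ → Env → Bool :=
  @CT.rec (fun _ => ℕ → Env → Bool) (fun c _ E => c.fails E)
    (fun i _ _ a b k E => cB (Nat.ble i k) (b k E) (a k E)) t

/-- all constraints are valid and hold -/
def CT.All (u w : ℂ) : CT → Prop
  | .l c => c.g = true ∧ c.Holds u w
  | .n _ a b => a.All u w ∧ b.All u w

lemma CT.get_holds {C : Cell} {u w : ℂ} (hC : C.In) (hm : C.Mem u w) : ∀ (t : CT), t.All u w → ∀ k,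
    ¬ t.get k (envOf C) = true
  | .l _, h, _ => fun hf => Con.fails_cell hC hm h.1 hf h.2
  | .n i a b, h, k => by
    intro hf
    have h1 : cB (Nat.ble i k) (b.get k (envOf C)) (a.get k (envOf C)) = true := hf
    rcases cB_cases h1 with ⟨_, h2⟩ | ⟨_, h2⟩
    · exact CT.get_holds hC hm b h.2 _ h2
    · exact CT.get_holds hC hm a h.1 _ h2

/-- all constraints of the list fail -/
def allF (gs : List Con) (E : Env) : Bool :=
  @List.rec Con (fun _ => Bool) true (fun c _ ih => cB (c.fails E) ih false) gs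

/-- all constraints of the list are valid -/
def allG (gs : List Con) : Bool :=
  @List.rec Con (fun _ => Bool) true (fun c _ ih => cB c.g ih false) gs

lemma allG_spec : ∀ {gs : List Con}, allG gs = true → ∀ g ∈ gs, g.g = true
  | [], _, _, hg => absurd hg (by simp)
  | c :: gs, hf, g, hg => by
    have h1 : cB c.g (allG gs) false = true := hf
    obtain ⟨h2, h3⟩ := cB_and h1
    rcases List.mem_cons.1 hg with rfl | h4
    · exact h2
    · exact allG_spec h3 g h4

lemma allF_spec {C : Cell} {u w : ℂ} (hC : C.In) (h : C.Mem u w) : ∀ {gs : List Con},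
    (∀ g ∈ gs, g.g = true) → allF gs (envOf C) = true → ∀ g ∈ gs, ¬ g.Holds u w
  | [], _, _, _, hg => absurd hg (by simp)
  | c :: gs, hG, hf, g, hg => by
    have h1 : cB (c.fails (envOf C)) (allF gs (envOf C)) false = true := hf
    obtain ⟨h2, h3⟩ := cB_and h1
    rcases List.mem_cons.1 hg with rfl | h4
    · exact Con.fails_cell hC h (hG _ List.mem_cons_self) h2
    · exact allF_spec hC h (fun g hg => hG g (List.mem_cons_of_mem _ hg)) h3 g h4

/-- one step: token `t`, first cell `C` -/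
def step (cs : CT) (gs : List Con) (t : ℕ) (st' : List Cell) (C : Cell) (k : List Cell → Bool) : Bool :=
  cB (Nat.ble t (nat_lit 11)) (cut t C fun A B => k (A :: B :: st'))
    (cB (cB (Nat.beq t (nat_lit 12)) (allF gs (envOf C)) (cs.get t (envOf C))) (k st') false)

/-- at most `n` steps with the digits of `code`, then `k` -/
def inner (cs : CT) (gs : List Con) (n : ℕ) : ℕ → List Cell → (List Cell → Bool) → Bool :=
  @Nat.rec (fun _ => ℕ → List Cell → (List Cell → Bool) → Bool) (fun _ st k => k st)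
    (fun _ ih code st k => @List.rec Cell (fun _ => Bool) true
      (fun C st' _ => step cs gs (Nat.mod code (nat_lit 64)) st' C
        fun s => ih (Nat.div code (nat_lit 64)) s k) st) n

/-- the checker; `64` digits at a time -/
def run (cs : CT) (gs : List Con) (n : ℕ) : ℕ → List Cell → Bool :=
  @Nat.rec (fun _ => ℕ → List Cell → Bool)
    (fun _ st => @List.rec Cell (fun _ => Bool) true (fun _ _ _ => false) st)
    (fun _ ih code st => inner cs gs (nat_lit 64) (Nat.mod code (nat_lit 39402006196394479212279040100143613805079739270465446667948293404245721771497210611414266254884915640806627990306816)) st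
      (ih (Nat.div code (nat_lit 39402006196394479212279040100143613805079739270465446667948293404245721771497210611414266254884915640806627990306816)))) n

/-- the claim for the cells of a stack -/
def StOk (gs : List Con) (u w : ℂ) (st : List Cell) : Prop :=
  ∀ C ∈ st, C.In → C.Mem u w → ∀ g ∈ gs, ¬ g.Holds u w

lemma StOk_nil (gs : List Con) (u w : ℂ) : StOk gs u w [] := fun C hC => absurd hC (by simp)

lemma step_spec {cs : CT} {gs : List Con} {u w : ℂ} (hc : cs.All u w) (hG : ∀ g ∈ gs, g.g = true)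
    {t : ℕ} {st' : List Cell} {C : Cell} {k : List Cell → Bool} (h : step cs gs t st' C k = true)
    (hk : ∀ s, k s = true → StOk gs u w s) : StOk gs u w (C :: st') := by
  intro C' hC' hI hm g hg
  rcases cB_cases h with ⟨c1, h⟩ | ⟨_, h⟩
  · have c1' : t ≤ 11 := Nat.le_of_ble_eq_true c1
    rcases List.mem_cons.1 hC' with rfl | h2
    · obtain ⟨A, B, h3, hA, hB, h4⟩ := cut_spec hI hm c1' h
      have h5 := hk _ h3
      rcases h4 with h4 | h4
      · exact h5 A (by simp) hA h4 g hg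
      · exact h5 B (by simp) hB h4 g hg
    · have hcut : ∃ A B, k (A :: B :: st') = true := by
        obtain ⟨xl, xh, yl, yh, ul, uh, vl, vh⟩ := C
        rcases cB_cases h with ⟨_, h⟩ | ⟨_, h⟩
        · rcases cB_cases h with ⟨_, h⟩ | ⟨_, h⟩
          · exact ⟨_, _, h⟩
          · exact ⟨_, _, h⟩
        · rcases cB_cases h with ⟨_, h⟩ | ⟨_, h⟩
          · exact ⟨_, _, h⟩
          · exact ⟨_, _, h⟩
      obtain ⟨A, B, h3⟩ := hcut
      exact hk _ h3 C' (by simp [h2]) hI hm g hg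
  · obtain ⟨h3, h4⟩ := cB_and h
    rcases List.mem_cons.1 hC' with rfl | h2
    · rcases cB_cases h3 with ⟨_, h5⟩ | ⟨_, h5⟩
      · exact allF_spec hI hm hG h5 g hg
      · exact absurd h5 (CT.get_holds hI hm cs hc _)
    · exact hk _ h4 C' h2 hI hm g hg

lemma inner_spec {cs : CT} {gs : List Con} {u w : ℂ} (hc : cs.All u w) (hG : ∀ g ∈ gs, g.g = true) :
    ∀ (n code : ℕ) (st : List Cell) (k : List Cell → Bool), inner cs gs n code st k = true →
    (∀ s, k s = true → StOk gs u w s) → StOk gs u w st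
  | 0, _, st, _, h, hk => hk st h
  | _ + 1, _, [], _, _, _ => StOk_nil _ _ _
  | n + 1, code, C :: st', k, h, hk => by
    have h1 : step cs gs (Nat.mod code (nat_lit 64)) st' C
        (fun s => inner cs gs n (Nat.div code (nat_lit 64)) s k) = true := h
    exact step_spec hc hG h1 fun s hs => inner_spec hc hG n _ s k hs hk

theorem run_spec {cs : CT} {gs : List Con} {u w : ℂ} (hc : cs.All u w) (hG : ∀ g ∈ gs, g.g = true) :
    ∀ (n code : ℕ) (st : List Cell), run cs gs n code st = true → StOk gs u w st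
  | 0, _, [], _ => StOk_nil _ _ _
  | 0, _, _ :: _, h => by
    have : (false : Bool) = true := h
    simp at this
  | n + 1, code, st, h => by
    have h1 : inner cs gs (nat_lit 64) (Nat.mod code (nat_lit 39402006196394479212279040100143613805079739270465446667948293404245721771497210611414266254884915640806627990306816)) st
      (run cs gs n (Nat.div code (nat_lit 39402006196394479212279040100143613805079739270465446667948293404245721771497210611414266254884915640806627990306816))) = true := h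
    exact inner_spec hc hG _ _ st _ h1 fun s hs => run_spec hc hG n _ s hs

end

end Pool.Agent.Work.MP_b30479_gt.G2.CN
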