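import Mathlib
import Pool.Agent.Work.MP_b30479_gt.G2.CN.GR

/-!
# The second checker

Certificates: chunks of 512 bits; the first 7 bits of a chunk are the number of steps, then follow the
tokens (7 bits, least significant first):

* `0..27`: cut the first cell (direction `t / 7`, position `(t % 7 + 1) / 8`);
* `28`, `j` (7 bits): the goal `j` fails, it is removed from the open goals of the cell;
* `29`, `j`, `m` (16 bits), `n` (3 bits), `n` pairs: the same with a combination;
* `30`, `n` (3 bits), `n` pairs (`k`: 7 bits, `m`: 16 bits): a combination of constraints fails;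
* `31`, `a` (7 bits): both constraints of the pair `a` become open goals, a pair is not needed any more;
* `32 + k`: the constraint `k` fails.

A factor `m` is `s 2 ^ t` with `s` (7 bits), `t` (9 bits). The open goals of a cell are the bits of a
number: bit `0`: a pair is needed; bit `j + 1`: the goal `j`; the goals `31 + 2 a`, `32 + 2 a` are the
constraints of the pair `a`. A run can be cut into parts between the chunks (`partC`, `partC_cat`).
-/

namespace Pool.Agent.Work.MP_b30479_gt.G2.CN

open Complex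

noncomputable section

/-! ### cuts -/

/-- cut point -/
def cutq (k l h : ℕ) : ℕ :=
  Nat.div (Nat.add (Nat.mul (Nat.sub (nat_lit 8) k) l) (Nat.mul k h)) (nat_lit 8)

lemma InR.cutq {k l h : ℕ} (hk : k ≤ 8) (hl : InR l) (hh : InR h) : InR (cutq k l h) := by
  unfold InR at *
  change 917504 ≤ ((8 - k) * l + k * h) / 8 ∧ ((8 - k) * l + k * h) / 8 ≤ 1179648
  interval_cases k <;> omega

def cqX (k : ℕ) (C : Cell) (f : Cell → Cell → Bool) : Bool :=
  @Cell.rec (fun _ => Bool) (fun xl xh yl yh ul uh vl vh =>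
    f ⟨xl, (cutq k xl xh), yl, yh, ul, uh, vl, vh⟩ ⟨(cutq k xl xh), xh, yl, yh, ul, uh, vl, vh⟩) C
def cqY (k : ℕ) (C : Cell) (f : Cell → Cell → Bool) : Bool :=
  @Cell.rec (fun _ => Bool) (fun xl xh yl yh ul uh vl vh =>
    f ⟨xl, xh, yl, (cutq k yl yh), ul, uh, vl, vh⟩ ⟨xl, xh, (cutq k yl yh), yh, ul, uh, vl, vh⟩) C
def cqU (k : ℕ) (C : Cell) (f : Cell → Cell → Bool) : Bool :=
  @Cell.rec (fun _ => Bool) (fun xl xh yl yh ul uh vl vh =>
    f ⟨xl, xh, yl, yh, ul, (cutq k ul uh), vl, vh⟩ ⟨xl, xh, yl, yh, (cutq k ul uh), uh, vl, vh⟩) C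
def cqV (k : ℕ) (C : Cell) (f : Cell → Cell → Bool) : Bool :=
  @Cell.rec (fun _ => Bool) (fun xl xh yl yh ul uh vl vh =>
    f ⟨xl, xh, yl, yh, ul, uh, vl, (cutq k vl vh)⟩ ⟨xl, xh, yl, yh, ul, uh, (cutq k vl vh), vh⟩) C

/-- the two parts of a cell are passed to `f` -/
def cutc (t : ℕ) (C : Cell) (f : Cell → Cell → Bool) : Bool :=
  cB (Nat.ble t (nat_lit 13))
    (cB (Nat.ble t (nat_lit 6)) (cqX (Nat.succ t) C f) (cqY (Nat.sub t (nat_lit 6)) C f))
    (cB (Nat.ble t (nat_lit 20)) (cqU (Nat.sub t (nat_lit 13)) C f) (cqV (Nat.sub t (nat_lit 20)) C f))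

theorem cutc_spec {C : Cell} {t : ℕ} (ht : t ≤ 27) {f : Cell → Cell → Bool} (hf : cutc t C f = true) :
    ∃ A B, f A B = true ∧ (C.In → ∀ {u w : ℂ}, C.Mem u w → Cov u w A B) := by
  obtain ⟨xl, xh, yl, yh, ul, uh, vl, vh⟩ := C
  rcases cB_cases hf with ⟨c1, hf⟩ | ⟨c1, hf⟩
  · have c1' : t ≤ 13 := Nat.le_of_ble_eq_true c1
    rcases cB_cases hf with ⟨c2, hf⟩ | ⟨c2, hf⟩
    · have c2' : t ≤ 6 := Nat.le_of_ble_eq_true c2
      refine ⟨_, _, hf, fun ⟨g1, g2, g3, g4, g5, g6, g7, g8⟩ {u w} ⟨h1, h2, h3, h4⟩ => ?_⟩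
      dsimp only at h1 h2 h3 h4 g1 g2 g3 g4 g5 g6 g7 g8
      have g := g1.cutq (k := Nat.succ t) (by omega) g2
      refine ⟨⟨g1, g, g3, g4, g5, g6, g7, g8⟩, ⟨g, g2, g3, g4, g5, g6, g7, g8⟩, ?_⟩
      rcases h1.cut (CN.cutq (Nat.succ t) xl xh) with h | h
      · exact Or.inl ⟨h, h2, h3, h4⟩
      · exact Or.inr ⟨h, h2, h3, h4⟩
    · refine ⟨_, _, hf, fun ⟨g1, g2, g3, g4, g5, g6, g7, g8⟩ {u w} ⟨h1, h2, h3, h4⟩ => ?_⟩
      dsimp only at h1 h2 h3 h4 g1 g2 g3 g4 g5 g6 g7 g8
      have g := g3.cutq (k := Nat.sub t (nat_lit 6)) (by change t - 6 ≤ 8; omega) g4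
      refine ⟨⟨g1, g2, g3, g, g5, g6, g7, g8⟩, ⟨g1, g2, g, g4, g5, g6, g7, g8⟩, ?_⟩
      rcases h2.cut (CN.cutq (Nat.sub t (nat_lit 6)) yl yh) with h | h
      · exact Or.inl ⟨h1, h, h3, h4⟩
      · exact Or.inr ⟨h1, h, h3, h4⟩
  · rcases cB_cases hf with ⟨c2, hf⟩ | ⟨c2, hf⟩
    · have c2' : t ≤ 20 := Nat.le_of_ble_eq_true c2
      refine ⟨_, _, hf, fun ⟨g1, g2, g3, g4, g5, g6, g7, g8⟩ {u w} ⟨h1, h2, h3, h4⟩ => ?_⟩
      dsimp only at h1 h2 h3 h4 g1 g2 g3 g4 g5 g6 g7 g8
      have g := g5.cutq (k := Nat.sub t (nat_lit 13)) (by change t - 13 ≤ 8; omega) g6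
      refine ⟨⟨g1, g2, g3, g4, g5, g, g7, g8⟩, ⟨g1, g2, g3, g4, g, g6, g7, g8⟩, ?_⟩
      rcases h3.cut (CN.cutq (Nat.sub t (nat_lit 13)) ul uh) with h | h
      · exact Or.inl ⟨h1, h2, h, h4⟩
      · exact Or.inr ⟨h1, h2, h, h4⟩
    · refine ⟨_, _, hf, fun ⟨g1, g2, g3, g4, g5, g6, g7, g8⟩ {u w} ⟨h1, h2, h3, h4⟩ => ?_⟩
      dsimp only at h1 h2 h3 h4 g1 g2 g3 g4 g5 g6 g7 g8
      have g := g7.cutq (k := Nat.sub t (nat_lit 20)) (by change t - 20 ≤ 8; omega) g8
      refine ⟨⟨g1, g2, g3, g4, g5, g6, g7, g⟩, ⟨g1, g2, g3, g4, g5, g6, g, g8⟩, ?_⟩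
      rcases h4.cut (CN.cutq (Nat.sub t (nat_lit 20)) vl vh) with h | h
      · exact Or.inl ⟨h1, h2, h3, h⟩
      · exact Or.inr ⟨h1, h2, h3, h⟩

/-! ### combinations -/

/-- the constraint `k` -/
def CT.getC (t : CT) : ℕ → Con :=
  @CT.rec (fun _ => ℕ → Con) (fun c _ => c)
    (fun i _ _ a b k => @Bool.rec (fun _ => Con) (a k) (b k) (Nat.ble i k)) t

lemma CT.getC_all {u w : ℂ} : ∀ (t : CT), t.All u w → ∀ k, (t.getC k).g = true ∧ (t.getC k).Holds u w
  | .l _, h, _ => h
  | .n i a b, h, k => by
    change (@Bool.rec (fun _ => Con) (a.getC k) (b.getC k) (Nat.ble i k)).g = true ∧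
      (@Bool.rec (fun _ => Con) (a.getC k) (b.getC k) (Nat.ble i k)).Holds u w
    cases Nat.ble i k
    · exact CT.getC_all a h.1 k
    · exact CT.getC_all b h.2 k

/-- `f` at the value of `e` -/
def stc (e : ℕ) (f : ℕ → Bool) : Bool := @Nat.rec (fun _ => Bool) (f (nat_lit 0)) (fun n _ => f (Nat.succ n)) e

lemma stc_eq (e : ℕ) (f : ℕ → Bool) : stc e f = f e := by
  cases e <;> rfl

/-- the factor -/
def fac (c : ℕ) : ℕ := Nat.shiftLeft (Nat.mod c (nat_lit 128)) (Nat.mod (Nat.div c (nat_lit 128)) (nat_lit 512))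

/-- add `m` times the form of a constraint -/
def addC (c : Con) (E : Env) (m F V W e b : ℕ) (k : ℕ → ℕ → ℕ → ℕ → ℕ → Bool) : Bool :=
  @LF.rec (fun _ => Bool) (fun F' V' W' e' => k (Nat.add F (Nat.mul m F')) (Nat.add V (Nat.mul m V'))
    (Nat.add W (Nat.mul m W')) (Nat.add e (Nat.mul m e')) (Nat.add b (Nat.mul m c.b))) (c.lf E)

/-- the final test -/
def tstb (E : Env) (F V W e b : ℕ) : Bool := cB (Ev.rgB b) (tst4 E.a E.b E.c E.d F V W e) false

/-- combination of `n` constraints -/
def comb (cs : CT) (E : Env) (n : ℕ) : ℕ → ℕ → ℕ → ℕ → ℕ → ℕ → (ℕ → Bool) → Bool :=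
  @Nat.rec (fun _ => ℕ → ℕ → ℕ → ℕ → ℕ → ℕ → (ℕ → Bool) → Bool)
    (fun code F V W e b k => cB (tstb E F V W e b) (k code) false)
    (fun _ ih code F V W e b k => stc (Nat.mod code (nat_lit 128)) fun i =>
      addC (cs.getC i) E (fac (Nat.div code (nat_lit 128))) F V W e b
        (fun F' V' W' e' b' => ih (Nat.div code (nat_lit 8388608)) F' V' W' e' b' k)) n

/-- the claim for a form -/
def Acc (δ ε : ℂ) (F V W e b : ℕ) (P : Prop) : Prop := ∃ x : ℝ, LOk δ ε b ⟨F, V, W, e⟩ x ∧ (P → 0 ≤ x)

section
variable {C : Cell} {u w : ℂ} (hC : C.In) (hm : C.Mem u w)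
include hC hm

lemma cell_pt : ∃ (X Y : GaussianInt) (δ ε : ℂ), (envOf C).Ok X Y ∧ Off (envOf C) δ ε ∧
    D * u = tc X + δ ∧ D * w = tc Y + ε := by
  obtain ⟨h1, h2, h3, h4⟩ := hm
  have k1 := h1.mid
  have k2 := h2.mid
  have k3 := h3.mid
  have k4 := h4.mid
  set X : GaussianInt := ⟨((mid C.xl C.xh : ℕ) : ℤ) - 1048576, ((mid C.yl C.yh : ℕ) : ℤ) - 1048576⟩
    with hX
  set Y : GaussianInt := ⟨((mid C.ul C.uh : ℕ) : ℤ) - 1048576, ((mid C.vl C.vh : ℕ) : ℤ) - 1048576⟩
    with hY
  have eX1 : (tc X).re = (mid C.xl C.xh : ℝ) - 1048576 := by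
    rw [tc_re, hX]
    push_cast
    rfl
  have eX2 : (tc X).im = (mid C.yl C.yh : ℝ) - 1048576 := by
    rw [tc_im, hX]
    push_cast
    rfl
  have eY1 : (tc Y).re = (mid C.ul C.uh : ℝ) - 1048576 := by
    rw [tc_re, hY]
    push_cast
    rfl
  have eY2 : (tc Y).im = (mid C.vl C.vh : ℝ) - 1048576 := by
    rw [tc_im, hY]
    push_cast
    rfl
  rw [← eX1] at k1
  rw [← eX2] at k2
  rw [← eY1] at k3
  rw [← eY2] at k4
  have d1 : |((D : ℂ) * u - tc X).re| ≤ ((C.xh - mid C.xl C.xh : ℕ) : ℝ) := by
    rw [Complex.sub_re, Complex.re_ofReal_mul]; exact k1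
  have d2 : |((D : ℂ) * u - tc X).im| ≤ ((C.yh - mid C.yl C.yh : ℕ) : ℝ) := by
    rw [Complex.sub_im, Complex.im_ofReal_mul]; exact k2
  have d3 : |((D : ℂ) * w - tc Y).re| ≤ ((C.uh - mid C.ul C.uh : ℕ) : ℝ) := by
    rw [Complex.sub_re, Complex.re_ofReal_mul]; exact k3
  have d4 : |((D : ℂ) * w - tc Y).im| ≤ ((C.vh - mid C.vl C.vh : ℕ) : ℝ) := by
    rw [Complex.sub_im, Complex.im_ofReal_mul]; exact k4
  exact ⟨X, Y, D * u - tc X, D * w - tc Y, envOf_ok C hC,
    ⟨d1, d2, d3, d4, le_bd _ _ d1 d2, le_bd _ _ d3 d4⟩, by ring, by ring⟩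

end

lemma comb_succ {cs : CT} {E : Env} (n code F V W e b : ℕ) (k : ℕ → Bool) :
    comb cs E (n + 1) code F V W e b k = addC (cs.getC (Nat.mod code (nat_lit 128))) E
      (fac (Nat.div code (nat_lit 128))) F V W e b
      (fun F' V' W' e' b' => comb cs E n (Nat.div code (nat_lit 8388608)) F' V' W' e' b' k) := by
  have h := stc_eq (Nat.mod code (nat_lit 128)) (fun i => addC (cs.getC i) E
      (fac (Nat.div code (nat_lit 128))) F V W e b
      (fun F' V' W' e' b' => comb cs E n (Nat.div code (nat_lit 8388608)) F' V' W' e' b' k))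
  exact h

lemma addC_spec {c : Con} (hg : c.g = true) {E : Env} {X Y : GaussianInt} {δ ε u w : ℂ} (hE : E.Ok X Y)
    (ho : Off E δ ε) (hu : D * u = tc X + δ) (hw : D * w = tc Y + ε) {m F V W e b : ℕ} {P : Prop}
    (h : Acc δ ε F V W e b P) {k : ℕ → ℕ → ℕ → ℕ → ℕ → Bool} (hf : addC c E m F V W e b k = true) :
    ∃ F' V' W' e' b', k F' V' W' e' b' = true ∧ Acc δ ε F' V' W' e' b' (P ∧ c.Holds u w) := by
  obtain ⟨x, hx, hp⟩ := h
  obtain ⟨y, hy, hq⟩ := (c.ok hg).2 E X Y δ ε u w hE ho hu hw
  unfold addC at hf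
  generalize c.lf E = L at hy hf
  obtain ⟨F', V', W', e'⟩ := L
  exact ⟨_, _, _, _, _, hf, _, hx.add (m := m) hy, fun hh =>
    add_nonneg (hp hh.1) (mul_nonneg (Nat.cast_nonneg _) (hq hh.2))⟩

lemma comb_spec {cs : CT} {u w : ℂ} (hcs : cs.All u w) {E : Env} {X Y : GaussianInt} {δ ε : ℂ}
    (hE : E.Ok X Y) (ho : Off E δ ε) (hu : D * u = tc X + δ) (hw : D * w = tc Y + ε) :
    ∀ (n code F V W e b : ℕ) (k : ℕ → Bool) (P : Prop), Acc δ ε F V W e b P →
      comb cs E n code F V W e b k = true → ¬ P ∧ ∃ c, k c = true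
  | 0, code, F, V, W, e, b, k, P, h, hf => by
    have h1 : cB (tstb E F V W e b) (k code) false = true := hf
    obtain ⟨h2, h3⟩ := cB_and h1
    obtain ⟨h4, h5⟩ := cB_and h2
    obtain ⟨x, hx, hp⟩ := h
    exact ⟨fun hP => absurd (hp hP) (not_le.2 (tst4_spec ho hx (Ev.rgB_lt h4) h5)), code, h3⟩
  | n + 1, code, F, V, W, e, b, k, P, h, hf => by
    have h1 : addC (cs.getC (Nat.mod code (nat_lit 128))) E (fac (Nat.div code (nat_lit 128)))
      F V W e b (fun F' V' W' e' b' => comb cs E n (Nat.div code (nat_lit 8388608)) F' V' W' e' b' k) = true :=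
      (comb_succ _ _ _ _ _ _ _ _).symm.trans hf
    have hc := CT.getC_all cs hcs (Nat.mod code (nat_lit 128))
    obtain ⟨F', V', W', e', b', h2, h3⟩ := addC_spec hc.1 hE ho hu hw h h1
    obtain ⟨h4, h5⟩ := comb_spec hcs hE ho hu hw n _ _ _ _ _ _ _ _ h3 h2
    exact ⟨fun hP => h4 ⟨hP, hc.2⟩, h5⟩

lemma Acc.zero {δ ε : ℂ} : Acc δ ε (nat_lit 0) (nat_lit 0) (nat_lit 0) (nat_lit 0) (nat_lit 0) True :=
  ⟨0, LOk.zero, fun _ => le_rfl⟩

lemma addC_det (c : Con) (E : Env) (m F V W e b : ℕ) :
    ∃ F' V' W' e' b', ∀ K, addC c E m F V W e b K = K F' V' W' e' b' := by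
  unfold addC
  generalize c.lf E = L
  obtain ⟨F', V', W', e'⟩ := L
  exact ⟨_, _, _, _, _, fun _ => rfl⟩

/-- a combination passes to the next step -/
lemma comb_det {cs : CT} {E : Env} : ∀ (n code F V W e b : ℕ) (k : ℕ → Bool),
    comb cs E n code F V W e b k = true → ∃ c, k c = true ∧ ∀ K, comb cs E n code F V W e b K = K c
  | 0, code, F, V, W, e, b, k, hf => by
    have h1 : cB (tstb E F V W e b) (k code) false = true := hf
    obtain ⟨h2, h3⟩ := cB_and h1
    refine ⟨code, h3, fun K => ?_⟩
    change cB (tstb E F V W e b) (K code) false = K code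
    rw [h2]
    rfl
  | n + 1, code, F, V, W, e, b, k, hf => by
    obtain ⟨F', V', W', e', b', h⟩ := addC_det (cs.getC (Nat.mod code (nat_lit 128))) E
      (fac (Nat.div code (nat_lit 128))) F V W e b
    have key : ∀ K, comb cs E (n + 1) code F V W e b K =
        comb cs E n (Nat.div code (nat_lit 8388608)) F' V' W' e' b' K := fun K =>
      (comb_succ _ _ _ _ _ _ _ _).trans (h _)
    rw [key] at hf
    obtain ⟨c, h1, h2⟩ := comb_det n _ _ _ _ _ _ _ hf
    exact ⟨c, h1, fun K => (key K).trans (h2 K)⟩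

/-! ### the stack -/

/-- a stack of cells with the numbers of the open goals -/
inductive Stk where
  | nil : Stk
  | cons : Cell → ℕ → Stk → Stk

/-- no condition -/
def Con.tv : Con where
  g := true
  b := nat_lit 0
  lf := fun _ => ⟨nat_lit 0, nat_lit 0, nat_lit 0, nat_lit 0⟩
  Holds := fun _ _ => True
  ok := fun _ => ⟨HH_pos, fun _ _ _ _ _ _ _ _ _ _ _ => ⟨0, LOk.zero, fun _ => le_rfl⟩⟩

/-- the constraint `j` of a list -/
def getL (gs : List Con) : ℕ → Con :=
  @List.rec Con (fun _ => ℕ → Con) (fun _ => Con.tv)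
    (fun g _ ih j => @Nat.rec (fun _ => Con) g (fun i _ => ih i) j) gs

lemma getL_g : ∀ {gs : List Con} (_ : ∀ g ∈ gs, g.g = true) (j : ℕ), (getL gs j).g = true
  | [], _, _ => rfl
  | _ :: _, h, 0 => h _ List.mem_cons_self
  | _ :: gs, h, j + 1 => getL_g (gs := gs) (fun g hg => h g (List.mem_cons_of_mem _ hg)) j

lemma getL_mem : ∀ {gs : List Con} {g : Con}, g ∈ gs → ∃ j, j < gs.length ∧ getL gs j = g
  | [], _, h => absurd h (by simp)
  | g' :: gs, g, h => by
    rcases List.mem_cons.1 h with rfl | h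
    · exact ⟨0, by simp, rfl⟩
    · obtain ⟨j, h1, h2⟩ := getL_mem h
      exact ⟨j + 1, by simpa using h1, h2⟩

/-- the constraint `j` of a list of pairs -/
def getP (al : List (Con × Con)) : ℕ → Con :=
  @List.rec (Con × Con) (fun _ => ℕ → Con) (fun _ => Con.tv)
    (fun p _ ih j => @Nat.rec (fun _ => Con) p.1 (fun i _ => @Nat.rec (fun _ => Con) p.2 (fun i' _ => ih i') i) j) al

lemma getP_g : ∀ {al : List (Con × Con)} (_ : ∀ p ∈ al, p.1.g = true ∧ p.2.g = true) (j : ℕ),
    (getP al j).g = true
  | [], _, _ => rfl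
  | _ :: _, h, 0 => (h _ List.mem_cons_self).1
  | _ :: _, h, 1 => (h _ List.mem_cons_self).2
  | _ :: al, h, j + 2 => getP_g (al := al) (fun g hg => h g (List.mem_cons_of_mem _ hg)) j

lemma getP_mem {u w : ℂ} : ∀ {al : List (Con × Con)} {a : ℕ}, ¬ (getP al (2 * a)).Holds u w →
    ∃ p ∈ al, getP al (2 * a) = p.1 ∧ getP al (2 * a + 1) = p.2
  | [], _, h => absurd trivial h
  | p :: _, 0, _ => ⟨p, List.mem_cons_self, rfl, rfl⟩
  | p :: al, a + 1, h => by
    obtain ⟨p', h1, h2, h3⟩ := getP_mem (al := al) (a := a) h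
    exact ⟨p', List.mem_cons_of_mem _ h1, h2, h3⟩

/-- the goal `j` -/
def getG (gs : List Con) (al : List (Con × Con)) (j : ℕ) : Con :=
  @Bool.rec (fun _ => Con) (getL gs j) (getP al (Nat.sub j (nat_lit 31))) (Nat.ble (nat_lit 31) j)

lemma getG_g {gs : List Con} {al : List (Con × Con)} (h1 : ∀ g ∈ gs, g.g = true)
    (h2 : ∀ p ∈ al, p.1.g = true ∧ p.2.g = true) (j : ℕ) : (getG gs al j).g = true := by
  unfold getG
  cases Nat.ble (nat_lit 31) j
  · exact getL_g h1 _
  · exact getP_g h2 _

/-- the open goals at the start -/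
def mk0 (gs : List Con) : ℕ :=
  @List.rec Con (fun _ => ℕ) (nat_lit 0) (fun _ _ ih => Nat.add (Nat.mul (nat_lit 2) ih) (nat_lit 2)) gs

lemma mk0_even : ∀ gs : List Con, mk0 gs % 2 = 0
  | [] => rfl
  | _ :: gs => by
    change (2 * mk0 gs + 2) % 2 = 0
    omega

lemma mk0_bit : ∀ (gs : List Con) (j : ℕ), j < gs.length → (mk0 gs).testBit (j + 1) = true
  | [], _, h => absurd h (by simp)
  | g :: gs, 0, _ => by
    have h := mk0_even gs
    change (2 * mk0 gs + 2).testBit 1 = true
    rw [Nat.testBit_succ, Nat.testBit_zero]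
    have : (2 * mk0 gs + 2) / 2 = mk0 gs + 1 := by omega
    rw [this]
    simp
    omega
  | g :: gs, j + 1, h => by
    have h1 := mk0_bit gs j (by simpa using h)
    have h2 := mk0_even gs
    change (2 * mk0 gs + 2).testBit (j + 1 + 1) = true
    rw [Nat.testBit_succ] at h1 ⊢
    rw [Nat.testBit_succ]
    have e : (2 * mk0 gs + 2) / 2 / 2 = mk0 gs / 2 := by omega
    rw [e]
    exact h1

lemma getG_pair (gs : List Con) (al : List (Con × Con)) (i : ℕ) : getG gs al (31 + i) = getP al i := by
  have h : Nat.ble (nat_lit 31) (31 + i) = true := Nat.ble_eq_true_of_le (Nat.le_add_right 31 i)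
  unfold getG
  rw [h]
  change getP al (31 + i - 31) = getP al i
  rw [Nat.add_sub_cancel_left]

lemma getG_goal {gs : List Con} (al : List (Con × Con)) {g : Con} (hg : g ∈ gs)
    (hm : Nat.ble (mk0 gs) (nat_lit 4294967295) = true) :
    ∃ j, (mk0 gs).testBit (j + 1) = true ∧ getG gs al j = g := by
  obtain ⟨j, h1, h2⟩ := getL_mem hg
  have h3 := mk0_bit gs j h1
  have h4 := Nat.ge_two_pow_of_testBit h3
  have h5 : mk0 gs ≤ 4294967295 := Nat.le_of_ble_eq_true hm
  have h6 : j < 31 := by
    by_contra hj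
    have : 2 ^ 32 ≤ 2 ^ (j + 1) := Nat.pow_le_pow_right (by norm_num) (by omega)
    have h7 : (2 : ℕ) ^ 32 = 4294967296 := by norm_num
    omega
  have h8 : Nat.ble (nat_lit 31) j = false := by
    rcases h : Nat.ble (nat_lit 31) j with _ | _
    · rfl
    · have : 31 ≤ j := Nat.le_of_ble_eq_true h
      omega
  refine ⟨j, h3, ?_⟩
  unfold getG
  rw [h8]
  exact h2

/-! ### steps -/

/-- the open goals are now `m`; `st'`: the other cells -/
def doneM (code : ℕ) (C : Cell) (m : ℕ) (st' : Stk) (k : ℕ → Stk → Bool) : Bool :=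
  @Nat.rec (fun _ => Bool) (k code st') (fun m' _ => k code (.cons C (Nat.succ m') st')) m

/-- the tokens `28` to `31` -/
def stepB (cs : CT) (gs : List Con) (al : List (Con × Con)) (t code : ℕ) (st' : Stk) (C : Cell) (m : ℕ)
    (k : ℕ → Stk → Bool) : Bool :=
  cB (Nat.beq t (nat_lit 30))
    (comb cs (envOf C) (Nat.mod code (nat_lit 8)) (Nat.div code (nat_lit 8))
      (nat_lit 0) (nat_lit 0) (nat_lit 0) (nat_lit 0) (nat_lit 0) fun c => k c st')
    (stc (Nat.mod code (nat_lit 128)) fun j =>
      cB (Nat.beq t (nat_lit 28))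
        (cB ((getG gs al j).fails (envOf C)) (doneM (Nat.div code (nat_lit 128)) C
          (Nat.xor m (Nat.shiftLeft (nat_lit 2) j)) st' k) false)
        (cB (Nat.beq t (nat_lit 29))
          (addC (getG gs al j) (envOf C) (fac (Nat.div code (nat_lit 128))) (nat_lit 0) (nat_lit 0) (nat_lit 0)
            (nat_lit 0) (nat_lit 0) fun F V W e b =>
            comb cs (envOf C) (Nat.mod (Nat.div code (nat_lit 8388608)) (nat_lit 8))
              (Nat.div code (nat_lit 67108864)) F V W e b fun c =>
              doneM c C (Nat.xor m (Nat.shiftLeft (nat_lit 2) j)) st' k)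
          (k (Nat.div code (nat_lit 128)) (.cons C (Nat.lor (Nat.xor m (nat_lit 1))
            (Nat.shiftLeft (nat_lit 12884901888) (Nat.mul (nat_lit 2) j))) st'))))

/-- one step -/
def stepC (cs : CT) (gs : List Con) (al : List (Con × Con)) (t code : ℕ) (st' : Stk) (C : Cell) (m : ℕ)
    (k : ℕ → Stk → Bool) : Bool :=
  cB (Nat.ble t (nat_lit 27)) (cutc t C fun A B => k code (.cons A m (.cons B m st')))
    (cB (Nat.ble (nat_lit 32) t) (cB ((cs.getC (Nat.sub t (nat_lit 32))).fails (envOf C)) (k code st') false)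
      (stepB cs gs al t code st' C m k))

/-- at most `n` steps, then `k` -/
def innerC (cs : CT) (gs : List Con) (al : List (Con × Con)) (n : ℕ) : ℕ → Stk → (Stk → Bool) → Bool :=
  @Nat.rec (fun _ => ℕ → Stk → (Stk → Bool) → Bool) (fun _ st k => k st)
    (fun _ ih code st k => @Stk.rec (fun _ => Bool) (k .nil)
      (fun C m st' _ => stc (Nat.mod code (nat_lit 128)) fun t =>
        stepC cs gs al t (Nat.div code (nat_lit 128)) st' C m fun c s => ih c s k) st) n

/-- equality of cells -/
def eqC (A B : Cell) : Bool :=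
  cB (Nat.beq A.xl B.xl) (cB (Nat.beq A.xh B.xh) (cB (Nat.beq A.yl B.yl) (cB (Nat.beq A.yh B.yh)
    (cB (Nat.beq A.ul B.ul) (cB (Nat.beq A.uh B.uh) (cB (Nat.beq A.vl B.vl) (Nat.beq A.vh B.vh)
      false) false) false) false) false) false) false

lemma eqC_eq {A B : Cell} (h : eqC A B = true) : A = B := by
  have h1 := cB_and h
  have h2 := cB_and h1.2
  have h3 := cB_and h2.2
  have h4 := cB_and h3.2
  have h5 := cB_and h4.2
  have h6 := cB_and h5.2
  have h7 := cB_and h6.2
  obtain ⟨a1, a2, a3, a4, a5, a6, a7, a8⟩ := A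
  obtain ⟨b1, b2, b3, b4, b5, b6, b7, b8⟩ := B
  have e1 : a1 = b1 := Nat.eq_of_beq_eq_true h1.1
  have e2 : a2 = b2 := Nat.eq_of_beq_eq_true h2.1
  have e3 : a3 = b3 := Nat.eq_of_beq_eq_true h3.1
  have e4 : a4 = b4 := Nat.eq_of_beq_eq_true h4.1
  have e5 : a5 = b5 := Nat.eq_of_beq_eq_true h5.1
  have e6 : a6 = b6 := Nat.eq_of_beq_eq_true h6.1
  have e7 : a7 = b7 := Nat.eq_of_beq_eq_true h7.1
  have e8 : a8 = b8 := Nat.eq_of_beq_eq_true h7.2
  rw [e1, e2, e3, e4, e5, e6, e7, e8]

/-- equality of stacks -/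
def eqS : Stk → Stk → Bool :=
  fun s => @Stk.rec (fun _ => Stk → Bool) (fun s' => @Stk.rec (fun _ => Bool) true (fun _ _ _ _ => false) s')
    (fun C m _ ih s' => @Stk.rec (fun _ => Bool) false
      (fun C' m' s'' _ => cB (eqC C C') (cB (Nat.beq m m') (ih s'') false) false) s') s

lemma eqS_eq : ∀ {s s' : Stk}, eqS s s' = true → s = s'
  | .nil, .nil, _ => rfl
  | .nil, .cons _ _ _, h => by
    have : (false : Bool) = true := h
    simp at this
  | .cons _ _ _, .nil, h => by
    have : (false : Bool) = true := h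
    simp at this
  | .cons C m s, .cons C' m' s', h => by
    have h1 : cB (eqC C C') (cB (Nat.beq m m') (eqS s s') false) false = true := h
    obtain ⟨h2, h3⟩ := cB_and h1
    obtain ⟨h4, h5⟩ := cB_and h3
    rw [eqC_eq h2, Nat.eq_of_beq_eq_true h4, eqS_eq h5]

/-- `n` chunks of `code` lead from the stack `st` to the stack `st'` -/
def partC (cs : CT) (gs : List Con) (al : List (Con × Con)) (n : ℕ) : ℕ → Stk → Stk → Bool :=
  @Nat.rec (fun _ => ℕ → Stk → Stk → Bool)
    (fun code st st' => cB (Nat.beq code (nat_lit 0)) (eqS st st') false)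
    (fun _ ih code st st' => innerC cs gs al (Nat.mod code (nat_lit 128))
      (Nat.div (Nat.mod code (nat_lit 13407807929942597099574024998205846127479365820592393377723561443721764030073546976801874298166903427690031858186486050853753882811946569946433649006084096)) (nat_lit 128)) st
      (fun s => ih (Nat.div code (nat_lit 13407807929942597099574024998205846127479365820592393377723561443721764030073546976801874298166903427690031858186486050853753882811946569946433649006084096)) s st')) n

/-! ### soundness -/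

/-- the claim for a cell with the open goals `m` -/
def CellOk (gs : List Con) (al : List (Con × Con)) (u w : ℂ) (C : Cell) (m : ℕ) : Prop :=
  C.In → C.Mem u w → (∀ j, m.testBit (j + 1) = true → ¬ (getG gs al j).Holds u w) ∧
    (m.testBit 0 = true → ∃ p ∈ al, ¬ p.1.Holds u w ∧ ¬ p.2.Holds u w)

/-- the claim for a stack -/
def SOk (gs : List Con) (al : List (Con × Con)) (u w : ℂ) : Stk → Prop
  | .nil => True
  | .cons C m st => CellOk gs al u w C m ∧ SOk gs al u w st

section
variable {cs : CT} {gs : List Con} {al : List (Con × Con)}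

lemma doneM_det (code : ℕ) (C : Cell) (m : ℕ) (st' : Stk) : ∃ s, ∀ K : ℕ → Stk → Bool,
    doneM code C m st' K = K code s := by
  cases m with
  | zero => exact ⟨_, fun _ => rfl⟩
  | succ m => exact ⟨_, fun _ => rfl⟩

lemma cutc_det (t : ℕ) (C : Cell) : ∃ A B, ∀ K, cutc t C K = K A B := by
  obtain ⟨xl, xh, yl, yh, ul, uh, vl, vh⟩ := C
  unfold cutc
  cases Nat.ble t (nat_lit 13)
  · cases Nat.ble t (nat_lit 20)
    · exact ⟨_, _, fun _ => rfl⟩
    · exact ⟨_, _, fun _ => rfl⟩
  · cases Nat.ble t (nat_lit 6)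
    · exact ⟨_, _, fun _ => rfl⟩
    · exact ⟨_, _, fun _ => rfl⟩

lemma cB_t (a b : Bool) : cB true a b = a := rfl
lemma cB_f (a b : Bool) : cB false a b = b := rfl

section
variable (t code : ℕ) (st' : Stk) (C : Cell) (m : ℕ) (K : ℕ → Stk → Bool)

lemma stepB_30 (e1 : Nat.beq t (nat_lit 30) = true) : stepB cs gs al t code st' C m K =
    comb cs (envOf C) (Nat.mod code (nat_lit 8)) (Nat.div code (nat_lit 8))
      (nat_lit 0) (nat_lit 0) (nat_lit 0) (nat_lit 0) (nat_lit 0) fun c => K c st' := by
  unfold stepB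
  rw [e1]
  exact cB_t _ _

lemma stepB_28 (e1 : Nat.beq t (nat_lit 30) = false) (e2 : Nat.beq t (nat_lit 28) = true) :
    stepB cs gs al t code st' C m K =
    cB ((getG gs al (Nat.mod code (nat_lit 128))).fails (envOf C)) (doneM (Nat.div code (nat_lit 128)) C
          (Nat.xor m (Nat.shiftLeft (nat_lit 2) (Nat.mod code (nat_lit 128)))) st' K) false := by
  unfold stepB
  rw [stc_eq, e1, e2]
  exact (cB_f _ _).trans (cB_t _ _)

lemma stepB_29 (e1 : Nat.beq t (nat_lit 30) = false) (e2 : Nat.beq t (nat_lit 28) = false)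
    (e3 : Nat.beq t (nat_lit 29) = true) :
    stepB cs gs al t code st' C m K =
    (addC (getG gs al (Nat.mod code (nat_lit 128))) (envOf C) (fac (Nat.div code (nat_lit 128)))
      (nat_lit 0) (nat_lit 0) (nat_lit 0) (nat_lit 0) (nat_lit 0) fun F V W e b =>
            comb cs (envOf C) (Nat.mod (Nat.div code (nat_lit 8388608)) (nat_lit 8))
              (Nat.div code (nat_lit 67108864)) F V W e b fun c =>
              doneM c C (Nat.xor m (Nat.shiftLeft (nat_lit 2) (Nat.mod code (nat_lit 128)))) st' K) := by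
  unfold stepB
  rw [stc_eq, e1, e2, e3]
  exact (cB_f _ _).trans ((cB_f _ _).trans (cB_t _ _))

lemma stepB_31 (e1 : Nat.beq t (nat_lit 30) = false) (e2 : Nat.beq t (nat_lit 28) = false)
    (e3 : Nat.beq t (nat_lit 29) = false) :
    stepB cs gs al t code st' C m K =
    K (Nat.div code (nat_lit 128)) (.cons C (Nat.lor (Nat.xor m (nat_lit 1))
      (Nat.shiftLeft (nat_lit 12884901888) (Nat.mul (nat_lit 2) (Nat.mod code (nat_lit 128))))) st') := by
  unfold stepB
  rw [stc_eq, e1, e2, e3]
  exact (cB_f _ _).trans ((cB_f _ _).trans (cB_f _ _))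

end

lemma stepB_det {t code : ℕ} {st' : Stk} {C : Cell} {m : ℕ} {k : ℕ → Stk → Bool}
    (h : stepB cs gs al t code st' C m k = true) :
    ∃ c s, k c s = true ∧ ∀ K, stepB cs gs al t code st' C m K = K c s := by
  by_cases e1 : Nat.beq t (nat_lit 30) = true
  · rw [stepB_30 _ _ _ _ _ _ e1] at h
    obtain ⟨c, h2, h3⟩ := comb_det _ _ _ _ _ _ _ _ h
    exact ⟨c, st', h2, fun K => (stepB_30 _ _ _ _ _ _ e1).trans (h3 _)⟩
  · rw [Bool.not_eq_true] at e1
    by_cases e2 : Nat.beq t (nat_lit 28) = true
    · rw [stepB_28 _ _ _ _ _ _ e1 e2] at h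
      obtain ⟨h1, h2⟩ := cB_and h
      obtain ⟨s, h4⟩ := doneM_det (Nat.div code (nat_lit 128)) C
        (Nat.xor m (Nat.shiftLeft (nat_lit 2) (Nat.mod code (nat_lit 128)))) st'
      rw [h4] at h2
      refine ⟨_, s, h2, fun K => ?_⟩
      rw [stepB_28 _ _ _ _ _ _ e1 e2, h1, h4]
      exact cB_t _ _
    · rw [Bool.not_eq_true] at e2
      by_cases e3 : Nat.beq t (nat_lit 29) = true
      · rw [stepB_29 _ _ _ _ _ _ e1 e2 e3] at h
        obtain ⟨F', V', W', e', b', h1⟩ := addC_det (getG gs al (Nat.mod code (nat_lit 128))) (envOf C)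
          (fac (Nat.div code (nat_lit 128))) (nat_lit 0) (nat_lit 0) (nat_lit 0) (nat_lit 0) (nat_lit 0)
        rw [h1] at h
        obtain ⟨c, h2, h3⟩ := comb_det _ _ _ _ _ _ _ _ h
        obtain ⟨s, h4⟩ := doneM_det c C (Nat.xor m (Nat.shiftLeft (nat_lit 2) (Nat.mod code (nat_lit 128)))) st'
        rw [h4] at h2
        exact ⟨c, s, h2, fun K => (stepB_29 _ _ _ _ _ _ e1 e2 e3).trans
          ((h1 _).trans ((h3 _).trans (h4 K)))⟩
      · rw [Bool.not_eq_true] at e3
        rw [stepB_31 _ _ _ _ _ _ e1 e2 e3] at h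
        exact ⟨_, _, h, fun K => stepB_31 _ _ _ _ _ _ e1 e2 e3⟩

section
variable (t code : ℕ) (st' : Stk) (C : Cell) (m : ℕ) (K : ℕ → Stk → Bool)

lemma stepC_cut (e1 : Nat.ble t (nat_lit 27) = true) : stepC cs gs al t code st' C m K =
    cutc t C fun A B => K code (.cons A m (.cons B m st')) := by
  unfold stepC
  rw [e1]
  exact cB_t _ _

lemma stepC_one (e1 : Nat.ble t (nat_lit 27) = false) (e2 : Nat.ble (nat_lit 32) t = true) :
    stepC cs gs al t code st' C m K =
      cB ((cs.getC (Nat.sub t (nat_lit 32))).fails (envOf C)) (K code st') false := by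
  unfold stepC
  rw [e1, e2]
  exact (cB_f _ _).trans (cB_t _ _)

lemma stepC_B (e1 : Nat.ble t (nat_lit 27) = false) (e2 : Nat.ble (nat_lit 32) t = false) :
    stepC cs gs al t code st' C m K = stepB cs gs al t code st' C m K := by
  unfold stepC
  rw [e1, e2]
  exact (cB_f _ _).trans (cB_f _ _)

end

lemma stepC_det {t code : ℕ} {st' : Stk} {C : Cell} {m : ℕ} {k : ℕ → Stk → Bool}
    (h : stepC cs gs al t code st' C m k = true) :
    ∃ c s, k c s = true ∧ ∀ K, stepC cs gs al t code st' C m K = K c s := by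
  by_cases e1 : Nat.ble t (nat_lit 27) = true
  · rw [stepC_cut _ _ _ _ _ _ e1] at h
    obtain ⟨A, B, h1⟩ := cutc_det t C
    rw [h1] at h
    exact ⟨_, _, h, fun K => (stepC_cut _ _ _ _ _ _ e1).trans (h1 _)⟩
  · rw [Bool.not_eq_true] at e1
    by_cases e2 : Nat.ble (nat_lit 32) t = true
    · rw [stepC_one _ _ _ _ _ _ e1 e2] at h
      obtain ⟨h1, h2⟩ := cB_and h
      refine ⟨_, _, h2, fun K => ?_⟩
      rw [stepC_one _ _ _ _ _ _ e1 e2, h1]
      exact cB_t _ _
    · rw [Bool.not_eq_true] at e2
      rw [stepC_B _ _ _ _ _ _ e1 e2] at h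
      obtain ⟨c, s, h1, h2⟩ := stepB_det h
      exact ⟨c, s, h1, fun K => (stepC_B _ _ _ _ _ _ e1 e2).trans (h2 K)⟩

lemma innerC_succ (n code : ℕ) (C : Cell) (m : ℕ) (st' : Stk) (k : Stk → Bool) :
    innerC cs gs al (n + 1) code (.cons C m st') k =
      stepC cs gs al (Nat.mod code (nat_lit 128)) (Nat.div code (nat_lit 128)) st' C m
        (fun c s => innerC cs gs al n c s k) := by
  have h := stc_eq (Nat.mod code (nat_lit 128)) (fun t => stepC cs gs al t (Nat.div code (nat_lit 128)) st' C m
        (fun c s => innerC cs gs al n c s k))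
  exact h

lemma innerC_det : ∀ (n code : ℕ) (st : Stk) (k : Stk → Bool), innerC cs gs al n code st k = true →
    ∃ s, k s = true ∧ ∀ K, innerC cs gs al n code st K = K s
  | 0, _, st, _, h => ⟨st, h, fun _ => rfl⟩
  | _ + 1, _, .nil, _, h => ⟨.nil, h, fun _ => rfl⟩
  | n + 1, code, .cons C m st', k, h => by
    have key := fun K => innerC_succ (cs := cs) (gs := gs) (al := al) n code C m st' K
    rw [key] at h
    obtain ⟨c, s, h1, h2⟩ := stepC_det h
    obtain ⟨s', h3, h4⟩ := innerC_det n c s k h1
    exact ⟨s', h3, fun K => (key K).trans ((h2 _).trans (h4 K))⟩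

/-- the first `k` chunks and the rest of a code -/
def cat (k c r : ℕ) : ℕ := Nat.add c (Nat.mul (Nat.pow (nat_lit 13407807929942597099574024998205846127479365820592393377723561443721764030073546976801874298166903427690031858186486050853753882811946569946433649006084096) k) r)

/-- **Parts of a run.** -/
theorem partC_cat {m r : ℕ} {s s' : Stk} (h2 : partC cs gs al m r s s' = true) :
    ∀ {k c : ℕ} {st : Stk}, partC cs gs al k c st s = true →
    partC cs gs al (Nat.add m k) (cat k c r) st s' = true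
  | 0, c, st, h => by
    have h1 : cB (Nat.beq c (nat_lit 0)) (eqS st s) false = true := h
    obtain ⟨h3, h4⟩ := cB_and h1
    have e : c = 0 := Nat.eq_of_beq_eq_true h3
    have e2 : cat 0 c r = r := by
      rw [e]
      change 0 + 13407807929942597099574024998205846127479365820592393377723561443721764030073546976801874298166903427690031858186486050853753882811946569946433649006084096 ^ 0 * r = r
      rw [pow_zero, zero_add, one_mul]
    rw [eqS_eq h4, e2]
    exact h2
  | k + 1, c, st, h => by
    have h1 : innerC cs gs al (Nat.mod c (nat_lit 128)) (Nat.div (Nat.mod c (nat_lit 13407807929942597099574024998205846127479365820592393377723561443721764030073546976801874298166903427690031858186486050853753882811946569946433649006084096)) (nat_lit 128)) st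
      (fun s1 => partC cs gs al k (Nat.div c (nat_lit 13407807929942597099574024998205846127479365820592393377723561443721764030073546976801874298166903427690031858186486050853753882811946569946433649006084096)) s1 s) = true := h
    obtain ⟨s1, h3, h4⟩ := innerC_det _ _ _ _ h1
    have h5 := partC_cat h2 h3
    have hc : cat (k + 1) c r = c + 13407807929942597099574024998205846127479365820592393377723561443721764030073546976801874298166903427690031858186486050853753882811946569946433649006084096 * (13407807929942597099574024998205846127479365820592393377723561443721764030073546976801874298166903427690031858186486050853753882811946569946433649006084096 ^ k * r) := by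
      change c + 13407807929942597099574024998205846127479365820592393377723561443721764030073546976801874298166903427690031858186486050853753882811946569946433649006084096 ^ (k + 1) * r = _
      rw [pow_succ]
      ring
    have hd : Nat.div (cat (k + 1) c r) (nat_lit 13407807929942597099574024998205846127479365820592393377723561443721764030073546976801874298166903427690031858186486050853753882811946569946433649006084096) = cat k (Nat.div c (nat_lit 13407807929942597099574024998205846127479365820592393377723561443721764030073546976801874298166903427690031858186486050853753882811946569946433649006084096)) r := by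
      rw [hc]
      change (c + 13407807929942597099574024998205846127479365820592393377723561443721764030073546976801874298166903427690031858186486050853753882811946569946433649006084096 * (13407807929942597099574024998205846127479365820592393377723561443721764030073546976801874298166903427690031858186486050853753882811946569946433649006084096 ^ k * r)) / 13407807929942597099574024998205846127479365820592393377723561443721764030073546976801874298166903427690031858186486050853753882811946569946433649006084096 = c / 13407807929942597099574024998205846127479365820592393377723561443721764030073546976801874298166903427690031858186486050853753882811946569946433649006084096 + 13407807929942597099574024998205846127479365820592393377723561443721764030073546976801874298166903427690031858186486050853753882811946569946433649006084096 ^ k * r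
      rw [Nat.add_mul_div_left _ _ (by norm_num)]
    have hm : Nat.mod (cat (k + 1) c r) (nat_lit 13407807929942597099574024998205846127479365820592393377723561443721764030073546976801874298166903427690031858186486050853753882811946569946433649006084096) = Nat.mod c (nat_lit 13407807929942597099574024998205846127479365820592393377723561443721764030073546976801874298166903427690031858186486050853753882811946569946433649006084096) := by
      rw [hc]
      change (c + 13407807929942597099574024998205846127479365820592393377723561443721764030073546976801874298166903427690031858186486050853753882811946569946433649006084096 * (13407807929942597099574024998205846127479365820592393377723561443721764030073546976801874298166903427690031858186486050853753882811946569946433649006084096 ^ k * r)) % 13407807929942597099574024998205846127479365820592393377723561443721764030073546976801874298166903427690031858186486050853753882811946569946433649006084096 = c % 13407807929942597099574024998205846127479365820592393377723561443721764030073546976801874298166903427690031858186486050853753882811946569946433649006084096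
      rw [Nat.add_mul_mod_self_left]
    have hn : Nat.mod (cat (k + 1) c r) (nat_lit 128) = Nat.mod c (nat_lit 128) := by
      rw [hc]
      change (c + 13407807929942597099574024998205846127479365820592393377723561443721764030073546976801874298166903427690031858186486050853753882811946569946433649006084096 * (13407807929942597099574024998205846127479365820592393377723561443721764030073546976801874298166903427690031858186486050853753882811946569946433649006084096 ^ k * r)) % 128 = c % 128
      have : c + 13407807929942597099574024998205846127479365820592393377723561443721764030073546976801874298166903427690031858186486050853753882811946569946433649006084096 * (13407807929942597099574024998205846127479365820592393377723561443721764030073546976801874298166903427690031858186486050853753882811946569946433649006084096 ^ k * r) = c + 128 * (104748499452676539840422070298483172870932545473378073263465323779076281484949585756264642954428933028828373892081922272294952209468332577706512882860032 * (13407807929942597099574024998205846127479365820592393377723561443721764030073546976801874298166903427690031858186486050853753882811946569946433649006084096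 ^ k * r)) := by ring
      rw [this, Nat.add_mul_mod_self_left]
    change innerC cs gs al (Nat.mod (cat (k + 1) c r) (nat_lit 128))
      (Nat.div (Nat.mod (cat (k + 1) c r) (nat_lit 13407807929942597099574024998205846127479365820592393377723561443721764030073546976801874298166903427690031858186486050853753882811946569946433649006084096)) (nat_lit 128)) st
      (fun s1 => partC cs gs al (Nat.add m k) (Nat.div (cat (k + 1) c r) (nat_lit 13407807929942597099574024998205846127479365820592393377723561443721764030073546976801874298166903427690031858186486050853753882811946569946433649006084096)) s1 s') = true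
    rw [hd, hm, hn, h4]
    exact h5

/-! ### stacks as numbers -/

/-- `k` cells, `296` bits each -/
def dS (k : ℕ) : ℕ → Stk :=
  @Nat.rec (fun _ => ℕ → Stk) (fun _ => .nil) (fun _ ih N =>
    .cons ⟨Nat.mod N (nat_lit 2097152), Nat.mod (Nat.div N (nat_lit 2097152)) (nat_lit 2097152),
      Nat.mod (Nat.div N (nat_lit 4398046511104)) (nat_lit 2097152), Nat.mod (Nat.div N (nat_lit 9223372036854775808)) (nat_lit 2097152),
      Nat.mod (Nat.div N (nat_lit 19342813113834066795298816)) (nat_lit 2097152), Nat.mod (Nat.div N (nat_lit 40564819207303340847894502572032)) (nat_lit 2097152),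
      Nat.mod (Nat.div N (nat_lit 85070591730234615865843651857942052864)) (nat_lit 2097152), Nat.mod (Nat.div N (nat_lit 178405961588244985132285746181186892047843328)) (nat_lit 2097152)⟩
      (Nat.mod (Nat.div N (nat_lit 374144419156711147060143317175368453031918731001856)) (nat_lit 340282366920938463463374607431768211456)) (ih (Nat.div N (nat_lit 127314748520905380391777855525586135065716774604121015664758778084648831235208544136462336)))) k

section
variable {u w : ℂ}

lemma testBit_xor_ne {m j i : ℕ} (h : i ≠ j + 1) :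
    (Nat.xor m (Nat.shiftLeft 2 j)).testBit i = m.testBit i := by
  have e : Nat.shiftLeft 2 j = 2 ^ (j + 1) := by
    change 2 <<< j = 2 ^ (j + 1)
    rw [Nat.shiftLeft_eq, pow_succ, mul_comm]
  change (m ^^^ Nat.shiftLeft 2 j).testBit i = m.testBit i
  rw [e, Nat.testBit_xor, Nat.testBit_two_pow_of_ne (Ne.symm h), Bool.xor_false]

lemma doneM_spec {code : ℕ} {C : Cell} {m : ℕ} {st' : Stk} {k : ℕ → Stk → Bool}
    (h : doneM code C m st' k = true) (hk : ∀ c s, k c s = true → SOk gs al u w s) :
    CellOk gs al u w C m ∧ SOk gs al u w st' := by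
  cases m with
  | zero =>
    refine ⟨fun _ _ => ⟨fun j hj => ?_, fun hj => ?_⟩, hk _ _ h⟩
    · simp at hj
    · simp at hj
  | succ m => exact hk _ _ h

/-- a goal is removed -/
lemma CellOk.remove {C : Cell} {m j : ℕ} (h : CellOk gs al u w C (Nat.xor m (Nat.shiftLeft 2 j)))
    (hj : C.In → C.Mem u w → ¬ (getG gs al j).Holds u w) : CellOk gs al u w C m := by
  intro hI hm
  obtain ⟨h1, h2⟩ := h hI hm
  have h3 := hj hI hm
  refine ⟨fun i hi => ?_, fun h0 => h2 ?_⟩
  · by_cases e : i = j
    · rw [e]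
      exact h3
    · exact h1 i (by rw [testBit_xor_ne (by omega)]; exact hi)
  · rw [testBit_xor_ne (by omega)]
    exact h0

/-- a pair becomes open -/
lemma CellOk.pair {C : Cell} {m j : ℕ} (h : CellOk gs al u w C (Nat.lor (Nat.xor m (nat_lit 1))
    (Nat.shiftLeft (nat_lit 12884901888) (Nat.mul (nat_lit 2) j)))) : CellOk gs al u w C m := by
  intro hI hm
  obtain ⟨h1, h2⟩ := h hI hm
  have t1 : Nat.testBit 12884901888 32 = true := by decide +kernel
  have t2 : Nat.testBit 12884901888 33 = true := by decide +kernel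
  have k1 : ((nat_lit 12884901888) <<< (2 * j)).testBit (31 + 2 * j + 1) = true := by
    rw [Nat.testBit_shiftLeft, show 31 + 2 * j + 1 - 2 * j = 32 by omega, Bool.and_eq_true]
    exact ⟨decide_eq_true (by omega), t1⟩
  have k2 : ((nat_lit 12884901888) <<< (2 * j)).testBit (31 + (2 * j + 1) + 1) = true := by
    rw [Nat.testBit_shiftLeft, show 31 + (2 * j + 1) + 1 - 2 * j = 33 by omega, Bool.and_eq_true]
    exact ⟨decide_eq_true (by omega), t2⟩
  have b1 : ∀ i, ((m ^^^ 1) ||| ((nat_lit 12884901888) <<< (2 * j))).testBit i = true →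
      ((Nat.lor (Nat.xor m (nat_lit 1)) (Nat.shiftLeft (nat_lit 12884901888) (Nat.mul (nat_lit 2) j)))).testBit i = true :=
    fun i hi => hi
  have q1 := h1 (31 + 2 * j) (b1 _ (by rw [Nat.testBit_or, k1, Bool.or_true]))
  have q2 := h1 (31 + (2 * j + 1)) (b1 _ (by rw [Nat.testBit_or, k2, Bool.or_true]))
  rw [getG_pair] at q1 q2
  refine ⟨fun i hi => h1 i (b1 _ ?_), fun _ => ?_⟩
  · rw [Nat.testBit_or, Nat.testBit_xor, hi]
    have : Nat.testBit 1 (i + 1) = false := by
      rw [Nat.testBit_succ]
      simp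
    rw [this]
    simp
  · obtain ⟨p, hp, e1, e2⟩ := getP_mem q1
    rw [e1] at q1
    rw [e2] at q2
    exact ⟨p, hp, q1, q2⟩

variable (hc : cs.All u w) (hG : ∀ g ∈ gs, g.g = true) (ha : ∀ p ∈ al, p.1.g = true ∧ p.2.g = true)
include hc hG ha

lemma stepB_spec {t code : ℕ} {st' : Stk} {C : Cell} {m : ℕ} {k : ℕ → Stk → Bool}
    (h : stepB cs gs al t code st' C m k = true)
    (hk : ∀ c s, k c s = true → SOk gs al u w s) : SOk gs al u w (.cons C m st') := by
  by_cases e1 : Nat.beq t (nat_lit 30) = true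
  · rw [stepB_30 _ _ _ _ _ _ e1] at h
    obtain ⟨c, h1, -⟩ := comb_det _ _ _ _ _ _ _ _ h
    refine ⟨fun hI hm => ?_, hk _ _ h1⟩
    obtain ⟨X, Y, δ, ε, k1, k2, k3, k4⟩ := cell_pt hI hm
    exact absurd trivial (comb_spec hc k1 k2 k3 k4 _ _ _ _ _ _ _ _ _ Acc.zero h).1
  · rw [Bool.not_eq_true] at e1
    have hg := getG_g hG ha (Nat.mod code (nat_lit 128))
    by_cases e2 : Nat.beq t (nat_lit 28) = true
    · rw [stepB_28 _ _ _ _ _ _ e1 e2] at h
      obtain ⟨h5, h6⟩ := cB_and h
      obtain ⟨h7, h8⟩ := doneM_spec h6 hk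
      exact ⟨h7.remove fun hI hm => Con.fails_cell hI hm hg h5, h8⟩
    · rw [Bool.not_eq_true] at e2
      by_cases e3 : Nat.beq t (nat_lit 29) = true
      · rw [stepB_29 _ _ _ _ _ _ e1 e2 e3] at h
        obtain ⟨F', V', W', e', b', h1⟩ := addC_det (getG gs al (Nat.mod code (nat_lit 128))) (envOf C)
          (fac (Nat.div code (nat_lit 128))) (nat_lit 0) (nat_lit 0) (nat_lit 0) (nat_lit 0) (nat_lit 0)
        have h' := h
        rw [h1] at h'
        obtain ⟨c, h6, -⟩ := comb_det _ _ _ _ _ _ _ _ h'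
        obtain ⟨h7, h8⟩ := doneM_spec h6 hk
        refine ⟨h7.remove fun hI hm => ?_, h8⟩
        obtain ⟨X, Y, δ, ε, k1, k2, k3, k4⟩ := cell_pt hI hm
        obtain ⟨F, V, W, e, b, k6, k7⟩ := addC_spec hg k1 k2 k3 k4 Acc.zero h
        obtain ⟨k8, -⟩ := comb_spec hc k1 k2 k3 k4 _ _ _ _ _ _ _ _ _ k7 k6
        exact fun hh => k8 ⟨trivial, hh⟩
      · rw [Bool.not_eq_true] at e3
        rw [stepB_31 _ _ _ _ _ _ e1 e2 e3] at h
        obtain ⟨h1, h2⟩ := hk _ _ h
        exact ⟨h1.pair, h2⟩

lemma stepC_spec {t code : ℕ} {st' : Stk} {C : Cell} {m : ℕ} {k : ℕ → Stk → Bool}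
    (h : stepC cs gs al t code st' C m k = true)
    (hk : ∀ c s, k c s = true → SOk gs al u w s) : SOk gs al u w (.cons C m st') := by
  by_cases e1 : Nat.ble t (nat_lit 27) = true
  · rw [stepC_cut _ _ _ _ _ _ e1] at h
    have c1' : t ≤ 27 := Nat.le_of_ble_eq_true e1
    obtain ⟨A, B, h3, h4⟩ := cutc_spec c1' h
    obtain ⟨hA, hB, h5⟩ := hk _ _ h3
    refine ⟨fun hI hm => ?_, h5⟩
    obtain ⟨iA, iB, h6⟩ := h4 hI hm
    rcases h6 with h6 | h6
    · exact hA iA h6
    · exact hB iB h6
  · rw [Bool.not_eq_true] at e1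
    by_cases e2 : Nat.ble (nat_lit 32) t = true
    · rw [stepC_one _ _ _ _ _ _ e1 e2] at h
      obtain ⟨h3, h4⟩ := cB_and h
      refine ⟨fun hI hm => ?_, hk _ _ h4⟩
      have hq := CT.getC_all cs hc (Nat.sub t (nat_lit 32))
      exact absurd hq.2 (Con.fails_cell hI hm hq.1 h3)
    · rw [Bool.not_eq_true] at e2
      rw [stepC_B _ _ _ _ _ _ e1 e2] at h
      exact stepB_spec hc hG ha h hk

lemma innerC_spec : ∀ (n code : ℕ) (st : Stk) (k : Stk → Bool), innerC cs gs al n code st k = true →
    (∀ s, k s = true → SOk gs al u w s) → SOk gs al u w st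
  | 0, _, st, _, h, hk => hk st h
  | _ + 1, _, .nil, _, _, _ => trivial
  | n + 1, code, .cons C m st', k, h, hk => by
    have h1 : stepC cs gs al (Nat.mod code (nat_lit 128)) (Nat.div code (nat_lit 128)) st' C m
        (fun c s => innerC cs gs al n c s k) = true := (innerC_succ n code C m st' k).symm.trans h
    exact stepC_spec hc hG ha h1 fun c s hs => innerC_spec n c s k hs hk

theorem partC_spec : ∀ (n code : ℕ) (st : Stk), partC cs gs al n code st .nil = true → SOk gs al u w st
  | 0, _, st, h => by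
    have h1 : cB (Nat.beq _ (nat_lit 0)) (eqS st .nil) false = true := h
    rw [eqS_eq (cB_and h1).2]
    trivial
  | n + 1, code, st, h => by
    have h1 : innerC cs gs al (Nat.mod code (nat_lit 128))
      (Nat.div (Nat.mod code (nat_lit 13407807929942597099574024998205846127479365820592393377723561443721764030073546976801874298166903427690031858186486050853753882811946569946433649006084096)) (nat_lit 128)) st
      (fun s => partC cs gs al n (Nat.div code (nat_lit 13407807929942597099574024998205846127479365820592393377723561443721764030073546976801874298166903427690031858186486050853753882811946569946433649006084096)) s .nil) = true := h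
    exact innerC_spec hc hG ha _ _ st _ h1 fun s hs => partC_spec n _ s hs

end

end

end

end Pool.Agent.Work.MP_b30479_gt.G2.CN
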