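import Pool.Agent.Work.MP_b30479_gt.G2.CN.HLink
import Pool.Agent.Work.NumI.Expr
import Pool.Agent.Work.MP_b30479_gt.G2.WLoc

/-!
# Boxes from the goals of a run

`BB`: a box with the integer data of its four goal conditions on `exp (2 π i y)`; `BB.ok`: the
numerical check of the data; `BB.spec`: if the four conditions fail then `y` is in the box.
-/

namespace Pool.Agent.Work.MP_b30479_gt.G2.CN

open Complex SR NumI

/-- a box with denominator `10000` and the data of the goals -/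
structure BB where
  n0 : ℕ
  n1 : ℕ
  m0 : ℤ
  m1 : ℤ
  a1 : ℤ
  b1 : ℤ
  a0 : ℤ
  b0 : ℤ
  c1 : ℤ
  c0 : ℤ

namespace BB

/-- the goals -/
def H (s : BB) : List QC :=
  [⟨s.a1, s.b1, 0, 0⟩, ⟨s.a0, s.b0, 0, 0⟩, ⟨0, 0, 1000000, -s.c1⟩, ⟨0, 0, -1000000, s.c0⟩]

/-- the box -/
noncomputable def box (s : BB) : Box :=
  ⟨s.n0 / 10000, s.n1 / 10000, s.m0 / 10000, s.m1 / 10000⟩

/-- `a cos (2 π n / 10000) + b sin (2 π n / 10000)` -/
def eF (a b : ℤ) (n : ℕ) : E :=
  .add (.mul (.q a 1) (.cosPi (.q n 5000))) (.mul (.q b 1) (.sinPi (.q n 5000)))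

/-- `exp (- 4 π m / 10000) - c / 1000000` -/
def eT (m c : ℤ) : E := .sub (.exp (.mul .pi (.q (-m) 2500))) (.q c 1000000)

/-- the middle -/
def n2 (s : BB) : ℕ := Nat.div (Nat.add s.n0 s.n1) 2

/-- the check -/
def ok (s : BB) : Bool :=
  (Nat.blt 0 s.n0 && Nat.blt s.n0 s.n2 && Nat.blt s.n2 s.n1 && Nat.blt s.n2 5000 &&
    Nat.blt s.n1 (Nat.add 5000 s.n2) && decide (0 ≤ s.a0) && decide (0 ≤ s.c1)) &&
  chk [eF s.a1 s.b1 s.n1] 1 [] && chk [eF s.a0 s.b0 s.n0] 1 [] &&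
  chk [.neg (eF s.a1 s.b1 s.n2)] 1 [] && chk [.neg (eF s.a0 s.b0 s.n2)] 1 [] &&
  chk [.neg (eT s.m1 s.c1)] 1 [] && chk [eT s.m0 s.c0] 1 []

end BB

/-! ### the trigonometric condition -/

lemma sin_comb (a b α β θ : ℝ) : Real.sin (β - α) * (a * Real.cos θ + b * Real.sin θ) =
    Real.sin (β - θ) * (a * Real.cos α + b * Real.sin α) +
      Real.sin (θ - α) * (a * Real.cos β + b * Real.sin β) := by
  rw [Real.sin_sub, Real.sin_sub, Real.sin_sub]
  ring

lemma comb_nonneg {a b α β θ : ℝ} (h1 : α ≤ θ) (h2 : θ ≤ β) (h0 : α < β) (h3 : β - α < Real.pi)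
    (fa : 0 ≤ a * Real.cos α + b * Real.sin α) (fb : 0 ≤ a * Real.cos β + b * Real.sin β) :
    0 ≤ a * Real.cos θ + b * Real.sin θ := by
  have e := sin_comb a b α β θ
  have s1 : 0 < Real.sin (β - α) := Real.sin_pos_of_pos_of_lt_pi (by linarith only [h0]) h3
  have s2 : 0 ≤ Real.sin (β - θ) := Real.sin_nonneg_of_nonneg_of_le_pi (by linarith only [h2]) (by linarith only [h1, h3])
  have s3 : 0 ≤ Real.sin (θ - α) := Real.sin_nonneg_of_nonneg_of_le_pi (by linarith only [h1]) (by linarith only [h2, h3])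
  have : 0 ≤ Real.sin (β - α) * (a * Real.cos θ + b * Real.sin θ) := by
    rw [e]; positivity
  exact nonneg_of_mul_nonneg_right this s1

lemma exp_re (y : ℂ) : (cexp (2 * Real.pi * I * y)).re =
    Real.exp (-(2 * Real.pi * y.im)) * Real.cos (2 * Real.pi * y.re) := by
  rw [Complex.exp_re]
  congr 2 <;> simp

lemma exp_im (y : ℂ) : (cexp (2 * Real.pi * I * y)).im =
    Real.exp (-(2 * Real.pi * y.im)) * Real.sin (2 * Real.pi * y.re) := by
  rw [Complex.exp_im]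
  congr 2 <;> simp

lemma exp_nsq (y : ℂ) : ‖cexp (2 * Real.pi * I * y)‖ ^ 2 = Real.exp (-(4 * Real.pi * y.im)) := by
  rw [Complex.norm_exp, ← Real.exp_nat_mul]
  congr 1
  simp
  ring

lemma not_sat_ang {a b : ℤ} {y : ℂ} (h : ¬ (⟨a, b, 0, 0⟩ : QC).Sat (cexp (2 * Real.pi * I * y))) :
    (a : ℝ) * Real.cos (2 * Real.pi * y.re) + b * Real.sin (2 * Real.pi * y.re) < 0 := by
  unfold QC.Sat at h
  simp only at h
  push Not at h
  rw [exp_re, exp_im] at h
  have hp := Real.exp_pos (-(2 * Real.pi * y.im))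
  by_contra hc
  push Not at hc
  have := mul_nonneg hp.le hc
  push_cast at h
  linarith only [this, h]

namespace BB

variable {s : BB}

theorem spec (h : s.ok = true) {y : ℂ} (h0 : 0 ≤ y.re) (h1 : y.re < 1)
    (hS : ∀ Q ∈ s.H, ¬ Q.Sat (cexp (2 * Real.pi * I * y))) : s.box.In y := by
  have hpi := Real.pi_pos
  unfold ok at h
  simp only [Bool.and_eq_true, decide_eq_true_eq, Nat.blt_eq] at h
  obtain ⟨⟨⟨⟨⟨⟨⟨⟨⟨⟨⟨⟨k1, k2⟩, k3⟩, k4⟩, k5⟩, k6⟩, -⟩, g1⟩, g2⟩, g3⟩, g4⟩, g5⟩, g6⟩ := h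
  have G1 := pos_of_chk (chk_sound g1 List.Forall₂.nil)
  have G2 := pos_of_chk (chk_sound g2 List.Forall₂.nil)
  have G3 := pos_of_chk (chk_sound g3 List.Forall₂.nil)
  have G4 := pos_of_chk (chk_sound g4 List.Forall₂.nil)
  have G5 := pos_of_chk (chk_sound g5 List.Forall₂.nil)
  have G6 := pos_of_chk (chk_sound g6 List.Forall₂.nil)
  simp only [eF, eT, E.val, Int.cast_natCast] at G1 G2 G3 G4 G5 G6
  have Q1 := not_sat_ang (hS _ (by simp [H]) : ¬ (⟨s.a1, s.b1, 0, 0⟩ : QC).Sat _)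
  have Q2 := not_sat_ang (hS _ (by simp [H]) : ¬ (⟨s.a0, s.b0, 0, 0⟩ : QC).Sat _)
  have Q3 : ¬ (⟨0, 0, 1000000, -s.c1⟩ : QC).Sat _ := hS _ (by simp [H])
  have Q4 : ¬ (⟨0, 0, -1000000, s.c0⟩ : QC).Sat _ := hS _ (by simp [H])
  unfold QC.Sat at Q3 Q4
  rw [exp_nsq] at Q3 Q4
  push_cast at Q3 Q4 G1 G2 G3 G4 G5 G6
  have e1 : Real.pi * ((s.n1 : ℝ) / 5000) = 2 * Real.pi * ((s.n1 : ℝ) / 10000) := by ring
  have e2 : Real.pi * ((s.n0 : ℝ) / 5000) = 2 * Real.pi * ((s.n0 : ℝ) / 10000) := by ring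
  have e3 : Real.pi * ((s.n2 : ℝ) / 5000) = 2 * Real.pi * ((s.n2 : ℝ) / 10000) := by ring
  rw [e1] at G1
  rw [e2] at G2
  rw [e3] at G3 G4
  have i0 : (0 : ℝ) < s.n0 := by exact_mod_cast k1
  have i1 : (s.n0 : ℝ) < s.n2 := by exact_mod_cast k2
  have i2 : (s.n2 : ℝ) < s.n1 := by exact_mod_cast k3
  have i3 : (s.n2 : ℝ) < 5000 := by exact_mod_cast k4
  have i4 : (s.n1 : ℝ) < 5000 + s.n2 := by exact_mod_cast k5
  have P0 := mul_pos hpi i0
  have P1 := mul_lt_mul_of_pos_left i1 hpi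
  have P2 := mul_lt_mul_of_pos_left i2 hpi
  have P3 := mul_lt_mul_of_pos_left i3 hpi
  have P4 := mul_lt_mul_of_pos_left i4 hpi
  have Y0 := mul_nonneg hpi.le h0
  have Y1 := mul_lt_mul_of_pos_left h1 hpi
  have c2 : Real.cos (2 * Real.pi * ((s.n2 : ℝ) / 10000) + Real.pi) =
      -Real.cos (2 * Real.pi * ((s.n2 : ℝ) / 10000)) := Real.cos_add_pi _
  have s2 : Real.sin (2 * Real.pi * ((s.n2 : ℝ) / 10000) + Real.pi) =
      -Real.sin (2 * Real.pi * ((s.n2 : ℝ) / 10000)) := Real.sin_add_pi _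
  have hx : 2 * Real.pi * y.re < 2 * Real.pi * ((s.n2 : ℝ) / 10000) + Real.pi := by
    by_contra hc
    push Not at hc
    have := comb_nonneg (a := s.a0) (b := s.b0)
      (α := 2 * Real.pi * ((s.n2 : ℝ) / 10000) + Real.pi) (β := 2 * Real.pi)
      (θ := 2 * Real.pi * y.re) hc (by linarith only [Y1]) (by linarith only [Y1, hc]) (by linarith only [P0, P1])
      (by rw [c2, s2]; linarith only [G4])
      (by
        rw [Real.cos_two_pi, Real.sin_two_pi]
        have : (0 : ℝ) ≤ s.a0 := by exact_mod_cast k6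
        linarith only [this])
    linarith only [Q2, this]
  refine ⟨?_, ?_, ?_, ?_⟩
  · -- lower bound for the real part
    show (s.n0 : ℝ) / 10000 ≤ y.re
    by_contra hc
    push Not at hc
    have M := mul_lt_mul_of_pos_left hc hpi
    have := comb_nonneg (a := s.a0) (b := s.b0) (α := 0) (β := 2 * Real.pi * ((s.n0 : ℝ) / 10000))
      (θ := 2 * Real.pi * y.re) (by positivity) (by linarith only [M]) (by positivity)
      (by linarith only [P1, P3]) (by simp; exact_mod_cast k6) (by linarith only [G2])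
    linarith only [Q2, this]
  · show y.re ≤ (s.n1 : ℝ) / 10000
    by_contra hc
    push Not at hc
    have M := mul_lt_mul_of_pos_left hc hpi
    have := comb_nonneg (a := s.a1) (b := s.b1) (α := 2 * Real.pi * ((s.n1 : ℝ) / 10000))
      (β := 2 * Real.pi * ((s.n2 : ℝ) / 10000) + Real.pi)
      (θ := 2 * Real.pi * y.re) (by linarith only [M]) hx.le (by linarith only [P4])
      (by linarith only [P2]) (by linarith only [G1]) (by rw [c2, s2]; linarith only [G3])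
    linarith only [Q1, this]
  · show (s.m0 : ℝ) / 10000 ≤ y.im
    have h3 : Real.exp (-(4 * Real.pi * y.im)) < Real.exp (Real.pi * (-(s.m0 : ℝ) / 2500)) := by
      linarith only [Q4, G6]
    have h4 := Real.exp_lt_exp.1 h3
    by_contra hc
    push Not at hc
    have M := mul_lt_mul_of_pos_left hc hpi
    linarith only [h4, M]
  · show y.im ≤ (s.m1 : ℝ) / 10000
    have h3 : Real.exp (Real.pi * (-(s.m1 : ℝ) / 2500)) < Real.exp (-(4 * Real.pi * y.im)) := by
      linarith only [Q3, G5]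
    have h4 := Real.exp_lt_exp.1 h3
    by_contra hc
    push Not at hc
    have M := mul_lt_mul_of_pos_left hc hpi
    linarith only [h4, M]

lemma ok_c1 (h : s.ok = true) : (⟨0, 0, 1000000, -s.c1⟩ : QC).Sat 0 := by
  unfold ok at h
  simp only [Bool.and_eq_true, decide_eq_true_eq, Nat.blt_eq] at h
  obtain ⟨⟨⟨⟨⟨⟨⟨⟨⟨⟨⟨⟨-, -⟩, -⟩, -⟩, -⟩, -⟩, k⟩, -⟩, -⟩, -⟩, -⟩, -⟩, -⟩ := h
  unfold QC.Sat
  have : (0 : ℝ) ≤ s.c1 := by exact_mod_cast k
  simp
  linarith only [k]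

end BB

/-! ### the exponential of the variable with a given cotangent -/

lemma exp_acot2 {z : ℂ} (h1 : z ≠ I) (h2 : z ≠ -I) :
    cexp (2 * Real.pi * I * acot2 z) * (z - I) = z + I := by
  have hpi : (Real.pi : ℂ) ≠ 0 := by exact_mod_cast Real.pi_pos.ne'
  have hI : I * I = -1 := Complex.I_mul_I
  have n1 : 1 + z * I ≠ 0 := by
    intro h
    apply h1
    linear_combination (-I) * h + z * hI
  have n2 : 1 - z * I ≠ 0 := by
    intro h
    apply h2
    linear_combination I * h + z * hI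
  have e : 2 * Real.pi * I * acot2 z = Real.pi * I - Complex.log ((1 + z * I) / (1 - z * I)) := by
    unfold acot2 Complex.arctan
    field_simp
    ring_nf
    rw [Complex.I_sq]
    ring
  rw [e, Complex.exp_sub, Complex.exp_pi_mul_I, Complex.exp_log (div_ne_zero n1 n2)]
  field_simp
  linear_combination (-(2 : ℂ) * z) * hI

lemma acot2_range (z : ℂ) : 0 ≤ (acot2 z).re ∧ (acot2 z).re < 1 := by
  have hpi := Real.pi_pos
  have h1 := Complex.neg_pi_lt_arg ((1 + z * I) / (1 - z * I))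
  have h2 := Complex.arg_le_pi ((1 + z * I) / (1 - z * I))
  have e : (acot2 z).re = 1 / 2 - (Complex.arctan z).re / Real.pi := by
    unfold acot2
    rw [Complex.sub_re, Complex.div_ofReal_re]
    norm_num
  rw [e, arctan_re]
  constructor
  · have : ((1 + z * I) / (1 - z * I)).arg / 2 / Real.pi ≤ 1 / 2 := by
      rw [div_le_iff₀ hpi]
      linarith only [h2]
    linarith only [this]
  · have : -(1 / 2) < ((1 + z * I) / (1 - z * I)).arg / 2 / Real.pi := by
      rw [lt_div_iff₀ hpi]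
      linarith only [h1]
    linarith only [this]

/-! ### the hinge and the inner variables -/

/-- all groups hold -/
def AllOk (u w : ℂ) (l : List Grp) : Prop := ∀ g ∈ l, g.Ok u w

lemma AllOk.nil {u w : ℂ} : AllOk u w [] := fun _ h => absurd h List.not_mem_nil

lemma AllOk.cons {u w : ℂ} {g : Grp} {l : List Grp} (h : g.Ok u w) (hl : AllOk u w l) :
    AllOk u w (g :: l) := by
  intro g' hg
  rcases List.mem_cons.1 hg with rfl | h'
  · exact h
  · exact hl g' h'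

lemma AllOk.append {u w : ℂ} {l l' : List Grp} (h : AllOk u w l) (h' : AllOk u w l') :
    AllOk u w (l ++ l') := by
  intro g hg
  rcases List.mem_append.1 hg with h1 | h1
  · exact h g h1
  · exact h' g h1

/-- the box of a variable from a run -/
theorem box_of {l go : List Grp} {n code : ℕ} (hr : row l go n code root = true) {R q : ℂ}
    (hm : root.Mem R q) (hl : AllOk R q l) {s : BB} {g : Grp} (hg : g ∈ go) (hgH : g.H = s.H)
    (hs : s.ok = true) {z : ℂ} (hz : z ≠ I)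
    (he : (z + I) * g.M.val R q = (z - I) * g.N.val R q) : s.box.In (acot2 z) := by
  have hzI : z - I ≠ 0 := sub_ne_zero.2 hz
  have hsnd : ∀ c : ℂ, c * (z - I) = z + I → ∀ Q ∈ s.H, ¬ Q.Sat c := by
    intro c hc Q hQ
    refine row_sound hr hm hl hg (c := c) ?_ Q (by rw [hgH]; exact hQ)
    apply mul_left_cancel₀ hzI
    rw [← he, ← hc]
    ring
  have hz2 : z ≠ -I := by
    rintro rfl
    exact hsnd 0 (by ring) _ (by simp [BB.H]) (BB.ok_c1 hs)
  obtain ⟨r1, r2⟩ := acot2_range z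
  exact BB.spec hs r1 r2 (hsnd _ (exp_acot2 hz hz2))

lemma gzI (_ : ℂ) : gz 0 0 1 0 = I := by
  rw [gz_I]
  push_cast
  ring

/-- the hinge box from a run -/
theorem box_H {l go : List Grp} {n code : ℕ} (hr : row l go n code root = true) {R q : ℂ}
    (hm : root.Mem R q) (hl : AllOk R q l) {s : BB} (hg : gH s.H ∈ go) (hs : s.ok = true)
    (hR : 0 < R.re) : s.box.In (acot2 R) := by
  refine box_of hr hm hl hg rfl hs (ne_I_of_re hR).1 ?_
  change (R + I) * (R - gz 0 0 1 0) = (R - I) * (R + gz 0 0 1 0)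
  rw [gzI R]
  ring

/-- the box of the inner variable from a run -/
theorem box_S {l go : List Grp} {n code : ℕ} (hr : row l go n code root = true) {R k : ℂ}
    (hm : root.Mem R (1 / k ^ 2)) (hl : AllOk R (1 / k ^ 2) l) {s : BB} (hg : gS s.H ∈ go)
    (hs : s.ok = true) (hR : 0 < R.re) (hk : k ≠ 0) : s.box.In (acot2 (Sp R k)) := by
  have hRI : R + I ≠ 0 := by
    intro h
    exact (ne_I_of_re hR).2 (by linear_combination h)
  refine box_of hr hm hl hg rfl hs (Sp_ne_I hRI hk) ?_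
  have e := Sp_sub (k := k) hRI
  have hv := Ev.val_dl2 R (1 / k ^ 2)
  change (Sp R k + I) * (1 / k ^ 2) = (Sp R k - I) * Ev.dl2.val R (1 / k ^ 2)
  have hv2 : Ev.dl2.val R (1 / k ^ 2) = 1 / k ^ 2 - 2 + 2 * I * R := by
    have : DB I 2 R (1 / k ^ 2) = 2 * (1 / k ^ 2 - 2 + 2 * I * R) := by
      simp only [DB, cab]
      ring
    rw [this] at hv
    exact mul_left_cancel₀ two_ne_zero hv
  rw [hv2, ← e]
  linear_combination (2 * (Sp R k - I)) * Complex.I_mul_I

/-- the box of the inner variable behind a split hinge from a run -/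
theorem box_T {l go : List Grp} {n code : ℕ} (hr : row l go n code root = true) {R k : ℂ}
    (hm : root.Mem R (1 / k ^ 2)) (hl : AllOk R (1 / k ^ 2) l) {s : BB} (hg : gT s.H ∈ go)
    (hs : s.ok = true) (hR : 0 < R.re) (hk : k ≠ 0) (h0 : Sp R k + I ≠ 0) :
    s.box.In (acot2 (Sp (Sp R k) k)) := by
  have hRI : R + I ≠ 0 := by
    intro h
    exact (ne_I_of_re hR).2 (by linear_combination h)
  refine box_of hr hm hl hg rfl hs (Sp_ne_I h0 hk) ?_
  have e := Sp_sub (k := k) hRI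
  have e2 := Sp_sub (k := k) h0
  have hv := Ev.val_dl3 R (1 / k ^ 2)
  change (Sp (Sp R k) k + I) * (1 / k ^ 2 * (R + gz 0 0 1 0)) =
    (Sp (Sp R k) k - I) * (gz 0 0 1 0 * Ev.dl3.val R (1 / k ^ 2))
  have hv2 : Ev.dl3.val R (1 / k ^ 2) = I * R * (4 - 1 / k ^ 2) - (4 - 3 * (1 / k ^ 2)) := by
    have : DB I 3 R (1 / k ^ 2) = 2 * (I * R * (4 - 1 / k ^ 2) - (4 - 3 * (1 / k ^ 2))) := by
      simp only [DB, cab]
      ring
    rw [this] at hv
    exact mul_left_cancel₀ two_ne_zero hv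
  rw [hv2, gzI R]
  generalize Sp (Sp R k) k = T at *
  generalize Sp R k = S at *
  generalize 1 / k ^ 2 = q at *
  linear_combination (-2 * I * (R + I)) * e2 + (2 * I * (T - I)) * e +
    ((T - I) * (4 * (R + I) - R * (4 - q))) * Complex.I_mul_I

/-! ### a box as a condition -/

/-- a box with denominator `10000` and the data of four conditions valid in the box -/
structure IB where
  n0 : ℕ
  n1 : ℕ
  m0 : ℤ
  m1 : ℤ
  a1 : ℤ
  b1 : ℤ
  a0 : ℤ
  b0 : ℤ
  c1 : ℤ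
  c0 : ℤ

namespace IB

/-- the conditions -/
def H (s : IB) : List QC :=
  [⟨s.a1, s.b1, 0, 0⟩, ⟨s.a0, s.b0, 0, 0⟩, ⟨0, 0, 1000000, -s.c1⟩, ⟨0, 0, -1000000, s.c0⟩]

/-- the box -/
noncomputable def box (s : IB) : Box :=
  ⟨s.n0 / 10000, s.n1 / 10000, s.m0 / 10000, s.m1 / 10000⟩

/-- the check -/
def ok (s : IB) : Bool :=
  (Nat.blt s.n0 s.n1 && Nat.blt s.n1 (Nat.add 5000 s.n0)) &&
  chk [BB.eF s.a1 s.b1 s.n1] 1 [] && chk [BB.eF s.a1 s.b1 s.n0] 1 [] &&
  chk [BB.eF s.a0 s.b0 s.n1] 1 [] && chk [BB.eF s.a0 s.b0 s.n0] 1 [] &&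
  chk [.neg (BB.eT s.m0 s.c1)] 1 [] && chk [BB.eT s.m1 s.c0] 1 []

theorem sat {s : IB} (h : s.ok = true) {y : ℂ} (hy : s.box.In y) :
    Sat s.H (cexp (2 * Real.pi * I * y)) := by
  have hpi := Real.pi_pos
  unfold ok at h
  simp only [Bool.and_eq_true, Nat.blt_eq] at h
  obtain ⟨⟨⟨⟨⟨⟨⟨k1, k2⟩, g1⟩, g2⟩, g3⟩, g4⟩, g5⟩, g6⟩ := h
  have G1 := pos_of_chk (chk_sound g1 List.Forall₂.nil)
  have G2 := pos_of_chk (chk_sound g2 List.Forall₂.nil)
  have G3 := pos_of_chk (chk_sound g3 List.Forall₂.nil)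
  have G4 := pos_of_chk (chk_sound g4 List.Forall₂.nil)
  have G5 := pos_of_chk (chk_sound g5 List.Forall₂.nil)
  have G6 := pos_of_chk (chk_sound g6 List.Forall₂.nil)
  simp only [BB.eF, BB.eT, E.val, Int.cast_natCast] at G1 G2 G3 G4 G5 G6
  push_cast at G1 G2 G3 G4 G5 G6
  have e1 : Real.pi * ((s.n1 : ℝ) / 5000) = 2 * Real.pi * ((s.n1 : ℝ) / 10000) := by ring
  have e0 : Real.pi * ((s.n0 : ℝ) / 5000) = 2 * Real.pi * ((s.n0 : ℝ) / 10000) := by ring
  rw [e1] at G1 G3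
  rw [e0] at G2 G4
  obtain ⟨y1, y2, y3, y4⟩ := hy
  change (s.n0 : ℝ) / 10000 ≤ y.re at y1
  change y.re ≤ (s.n1 : ℝ) / 10000 at y2
  change (s.m0 : ℝ) / 10000 ≤ y.im at y3
  change y.im ≤ (s.m1 : ℝ) / 10000 at y4
  have i1 : (s.n0 : ℝ) < s.n1 := by exact_mod_cast k1
  have i2 : (s.n1 : ℝ) < 5000 + s.n0 := by exact_mod_cast k2
  have P1 := mul_lt_mul_of_pos_left i1 hpi
  have P2 := mul_lt_mul_of_pos_left i2 hpi
  have Y1 := mul_le_mul_of_nonneg_left y1 hpi.le
  have Y2 := mul_le_mul_of_nonneg_left y2 hpi.le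
  have Y3 := mul_le_mul_of_nonneg_left y3 hpi.le
  have Y4 := mul_le_mul_of_nonneg_left y4 hpi.le
  have hp := Real.exp_pos (-(2 * Real.pi * y.im))
  have key : ∀ a b : ℤ, 0 < (a : ℝ) * Real.cos (2 * Real.pi * ((s.n1 : ℝ) / 10000)) +
      b * Real.sin (2 * Real.pi * ((s.n1 : ℝ) / 10000)) →
      0 < (a : ℝ) * Real.cos (2 * Real.pi * ((s.n0 : ℝ) / 10000)) +
      b * Real.sin (2 * Real.pi * ((s.n0 : ℝ) / 10000)) →
      (⟨a, b, 0, 0⟩ : QC).Sat (cexp (2 * Real.pi * I * y)) := by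
    intro a b h1 h0
    have h2 := comb_nonneg (a := a) (b := b) (α := 2 * Real.pi * ((s.n0 : ℝ) / 10000))
      (β := 2 * Real.pi * ((s.n1 : ℝ) / 10000)) (θ := 2 * Real.pi * y.re) (by linarith only [Y1])
      (by linarith only [Y2]) (by linarith only [P1]) (by linarith only [P2]) h0.le h1.le
    unfold QC.Sat
    rw [exp_re, exp_im]
    have := mul_nonneg hp.le h2
    push_cast
    linarith only [this]
  intro Q hQ
  simp only [H, List.mem_cons, List.not_mem_nil, or_false] at hQ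
  rcases hQ with rfl | rfl | rfl | rfl
  · exact key _ _ (by simpa using G1) (by simpa using G2)
  · exact key _ _ (by simpa using G3) (by simpa using G4)
  · unfold QC.Sat
    rw [exp_nsq]
    have h3 : Real.exp (-(4 * Real.pi * y.im)) ≤ Real.exp (Real.pi * (-(s.m0 : ℝ) / 2500)) :=
      Real.exp_le_exp.2 (by linarith only [Y3])
    push_cast
    linarith only [G5, h3]
  · unfold QC.Sat
    rw [exp_nsq]
    have h3 : Real.exp (Real.pi * (-(s.m1 : ℝ) / 2500)) ≤ Real.exp (-(4 * Real.pi * y.im)) :=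
      Real.exp_le_exp.2 (by linarith only [Y4])
    push_cast
    linarith only [G6, h3]

end IB

end Pool.Agent.Work.MP_b30479_gt.G2.CN
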