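import Pool.Agent.Work.MP_b30479_gt.G2.CN.HBox

/-!
# Boxes
-/

namespace Pool.Agent.Work.MP_b30479_gt.G2.CN

/-- data -/
def b1620_1660_m690_m650 : BB :=
  ⟨1620, 1660, -690, -650, -863860, 503732, 851060, -525068, 2263847, 2379352⟩

theorem b1620_1660_m690_m650_ok : b1620_1660_m690_m650.ok = true := by decide +kernel

/-- data -/
def b1640_1860_880_1150 : BB :=
  ⟨1640, 1860, 880, 1150, -920183, 391489, 857591, -514332, 235774, 330849⟩

theorem b1640_1860_880_1150_ok : b1640_1860_880_1150.ok = true := by decide +kernel

/-- data -/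
def b1640_1860_880_1310 : BB :=
  ⟨1640, 1860, 880, 1310, -920183, 391489, 857591, -514332, 192831, 330849⟩

theorem b1640_1860_880_1310_ok : b1640_1860_880_1310.ok = true := by decide +kernel

/-- data -/
def b1650_1680_m10_10 : BB :=
  ⟨1650, 1680, -10, 10, -870122, 492837, 860806, -508933, 987760, 1012391⟩

theorem b1650_1680_m10_10_ok : b1650_1680_m10_10.ok = true := by decide +kernel

/-- data -/
def b1710_1950_180_580 : BB :=
  ⟨1710, 1950, 180, 580, -940838, 338856, 879376, -476128, 482585, 797362⟩

theorem b1710_1950_180_580_ok : b1710_1950_180_580.ok = true := by decide +kernel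

/-- data -/
def b1740_1970_m980_m760 : BB :=
  ⟨1740, 1970, -980, -760, -945022, 327007, 888194, -459468, 2599439, 3425519⟩

theorem b1740_1970_m980_m760_ok : b1740_1970_m980_m760.ok = true := by decide +kernel

/-- data -/
def b1790_2010_m280_m50 : BB :=
  ⟨1790, 2010, -280, -50, -952941, 303155, 902188, -431343, 1065115, 1421350⟩

theorem b1790_2010_m280_m50_ok : b1790_2010_m280_m50.ok = true := by decide +kernel

/-- data -/
def b1810_2270_m260_130 : BB :=
  ⟨1810, 2270, -260, 130, -989558, 144135, 907537, -419972, 849496, 1386073⟩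

theorem b1810_2270_m260_130_ok : b1810_2270_m260_130.ok = true := by decide +kernel

/-- data -/
def b1820_2520_m250_250 : BB :=
  ⟨1820, 2520, -250, 250, -999923, -12440, 910158, -414261, 730586, 1368764⟩

theorem b1820_2520_m250_250_ok : b1820_2520_m250_250.ok = true := by decide +kernel

/-- data -/
def b1820_2520_m250_385 : BB :=
  ⟨1820, 2520, -250, 385, -999923, -12440, 910158, -414261, 616588, 1368764⟩

theorem b1820_2520_m250_385_ok : b1820_2520_m250_385.ok = true := by decide +kernel

/-- data -/
def b1820_2520_m385_385 : BB :=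
  ⟨1820, 2520, -385, 385, -999923, -12440, 910158, -414261, 616588, 1621828⟩

theorem b1820_2520_m385_385_ok : b1820_2520_m385_385.ok = true := by decide +kernel

/-- data -/
def b1830_2280_m850_m450 : BB :=
  ⟨1830, 2280, -850, -450, -990444, 137915, 912743, -408534, 1760747, 2909235⟩

theorem b1830_2280_m850_m450_ok : b1830_2280_m850_m450.ok = true := by decide +kernel

/-- data -/
def b1860_2400_100_960 : BB :=
  ⟨1860, 2400, 100, 960, -998019, 62916, 920281, -391258, 299356, 881690⟩

theorem b1860_2400_100_960_ok : b1860_2400_100_960.ok = true := by decide +kernel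

/-- data -/
def b1860_2520_100_960 : BB :=
  ⟨1860, 2520, 100, 960, -999923, -12440, 920281, -391258, 299356, 881690⟩

theorem b1860_2520_100_960_ok : b1860_2520_100_960.ok = true := by decide +kernel

/-- data -/
def b1880_2340_m10_570 : BB :=
  ⟨1880, 2340, -10, 570, -994938, 100487, 925125, -379663, 488688, 1012391⟩

theorem b1880_2340_m10_570_ok : b1880_2340_m10_570.ok = true := by decide +kernel

/-- data -/
def b1950_2370_m220_220 : BB :=
  ⟨1950, 2370, -220, 220, -996656, 81716, 940923, -338620, 758654, 1318123⟩

theorem b1950_2370_m220_220_ok : b1950_2370_m220_220.ok = true := by decide +kernel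

/-- data -/
def b1950_2640_m570_50 : BB :=
  ⟨1950, 2640, -570, 50, -996145, -87726, 940923, -338620, 939337, 2046297⟩

theorem b1950_2640_m570_50_ok : b1950_2640_m570_50.ok = true := by decide +kernel

/-- data -/
def b2000_2980_m410_410 : BB :=
  ⟨2000, 2980, -410, 410, -954902, -296922, 951095, -308897, 597519, 1673588⟩

theorem b2000_2980_m410_410_ok : b2000_2980_m410_410.ok = true := by decide +kernel

/-- data -/
def b2120_2740_m780_m100 : BB :=
  ⟨2120, 2740, -780, -100, -988671, -150101, 971661, -236377, 1134186, 2664258⟩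

theorem b2120_2740_m780_m100_ok : b2120_2740_m780_m100.ok = true := by decide +kernel

/-- data -/
def b2140_2470_380_1280 : BB :=
  ⟨2140, 2470, 380, 1280, -999820, 18974, 974555, -224148, 200239, 620163⟩

theorem b2140_2470_380_1280_ok : b2140_2470_380_1280.ok = true := by decide +kernel

/-- data -/
def b2140_2680_380_1280 : BB :=
  ⟨2140, 2680, 380, 1280, -993625, -112732, 974555, -224148, 200239, 620163⟩

theorem b2140_2680_380_1280_ok : b2140_2680_380_1280.ok = true := by decide +kernel

/-- data -/
def b2140_2980_380_1380 : BB :=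
  ⟨2140, 2980, 380, 1380, -954902, -296922, 974555, -224148, 176593, 620163⟩

theorem b2140_2980_380_1380_ok : b2140_2980_380_1380.ok = true := by decide +kernel

/-- data -/
def b2170_3110_m660_10 : BB :=
  ⟨2170, 3110, -660, 10, -927492, -373843, 978607, -205740, 987760, 2291322⟩

theorem b2170_3110_m660_10_ok : b2170_3110_m660_10.ok = true := by decide +kernel

/-- data -/
def b2260_3140_m1145_m210 : BB :=
  ⟨2260, 3140, -1145, -210, -920281, -391258, 988671, -150101, 1302317, 4214783⟩

theorem b2260_3140_m1145_m210_ok : b2260_3140_m1145_m210.ok = true := by decide +kernel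

/-- data -/
def b2360_3920_m180_985 : BB :=
  ⟨2360, 3920, -180, 985, -627789, -778383, 996145, -87726, 290098, 1253505⟩

theorem b2360_3920_m180_985_ok : b2360_3920_m180_985.ok = true := by decide +kernel

/-- data -/
def b3010_4215_m450_590 : BB :=
  ⟨3010, 4215, -450, 590, -473584, -880749, 949057, 315106, 476559, 1759862⟩

theorem b3010_4215_m450_590_ok : b3010_4215_m450_590.ok = true := by decide +kernel

/-- data -/
def b3265_5120_m1600_150 : BB :=
  ⟨3265, 5120, -1600, 150, 75201, -997168, 886630, 462479, 828412, 7466064⟩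

theorem b3265_5120_m1600_150_ok : b3265_5120_m1600_150.ok = true := by decide +kernel

end Pool.Agent.Work.MP_b30479_gt.G2.CN
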