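import Pool.Agent.Work.MP_b30479_gt.G2.CN.HData
import Pool.Agent.Work.MP_b30479_gt.G2.CN.HBox

/-!
# Classes of rings

`Cls`: conditions for the value of a ring and the groups of its outer value as a first and as a
second ring; `Cls.Ok c x d l`: the class is right for the ring `(d, l)` at a hinge of kind `x`.
-/

namespace Pool.Agent.Work.MP_b30479_gt.G2.CN

open Complex SR

noncomputable section

/-- a class of rings -/
structure Cls where
  own : List QC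
  L : List Grp
  R : List Grp

/-- the conditions for a second ring, in the frame of the first ring -/
def ownR (x : SK) (H : List QC) : List QC := match x with | .a => mirH H | _ => H

/-- the class is right for the ring `(d, l)` at a hinge of kind `x` -/
structure Cls.Ok (c : Cls) (x : SK) (d : ℕ) (l : SK) : Prop where
  own : ∀ {K : KFam}, KOK K → ROK d l x → InH (K.K d l x) c.own
  L : ∀ {K : KFam}, KOK K → ∀ {R q q' : ℂ}, R ^ 2 + 1 - q = q' →
    Out I (crs d l x) R q q' (port K d (crs d l x) l) → AllOk R q c.L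
  R : ∀ {K : KFam}, KOK K → ∀ {R q q' : ℂ}, R ^ 2 + 1 - q = q' →
    Out (x.sgn * I) (crs d l x) R q' q ((port K d (crs d l x) l).map (frS x.sgn)) → AllOk R q c.R

lemma ne_of_re {k : ℂ} (h : 0 < k.re) : k ≠ 0 := by
  rintro rfl
  simp at h

lemma inH_ownR {x : SK} {S : Set ℂ} {H : List QC} (h : InH S H) : InH (frS x.sgn S) (ownR x H) := by
  cases x
  · exact h.fr
  · exact h.mir
  · exact h.fr
  · exact h.fr

/-- the groups of a hinge -/
def gsOf (x : SK) (c c' : Cls) : List Grp :=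
  gl c.own :: gr (ownR x c'.own) :: (c.L ++ c'.R)

/-- all groups of a hinge hold -/
theorem gs_ok {x : SK} {d : ℕ} {l : SK} {d' : ℕ} {l' : SK} {c c' : Cls} (hL : c.Ok x d l)
    (hR : c'.Ok x d' l') {K : KFam} (hK : KOK K) {R k k' : ℂ} (h : HDt K x d l d' l' R k k') :
    AllOk R (1 / k ^ 2) (gsOf x c c') := by
  have hq : R ^ 2 + 1 - 1 / k ^ 2 = 1 / k' ^ 2 := by
    rw [h.hinge]
    ring
  refine AllOk.cons (gl_ok (ne_of_re h.kre) (hL.own hK h.ok.left k h.mem)) (AllOk.cons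
    (gr_ok (ne_of_re h.kre') hq ?_) ((hL.L hK hq h.out).append (hR.R hK hq ?_)))
  · have h1 := inH_ownR (x := x) (hR.own hK h.ok.right.symm)
    rw [← K.symm] at h1
    exact h1 k' h.mem'
  · have h2 := h.out'
    rwa [crs_symm] at h2

/-- the hinge is in the box -/
theorem cls_H {x : SK} {d : ℕ} {l : SK} {d' : ℕ} {l' : SK} {c c' : Cls} (hL : c.Ok x d l)
    (hR : c'.Ok x d' l') {go : List Grp} {n code : ℕ}
    (hr : row (gsOf x c c') go n code root = true) {s : BB} (hs : s.ok = true)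
    (hg : gH s.H ∈ go) {K : KFam} (hK : KOK K) {R k k' : ℂ} (h : HDt K x d l d' l' R k k') :
    s.box.In (acot2 R) :=
  box_H hr (hK.root h) (gs_ok hL hR hK h) hg hs (r0_pos.trans h.Rre)

/-- the inner variable behind an unsplit hinge is in the box -/
theorem cls_S {x : SK} {d : ℕ} {l : SK} {d' : ℕ} {l' : SK} {c c' : Cls} (hL : c.Ok x d l)
    (hR : c'.Ok x d' l') {go : List Grp} {n code : ℕ}
    (hr : row (gsOf x c c') go n code root = true) {s : BB} (hs : s.ok = true)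
    (hg : gS s.H ∈ go) {K : KFam} (hK : KOK K) {R k k' : ℂ} (h : HDt K x d l d' l' R k k') :
    s.box.In (acot2 (Sp R k)) :=
  box_S hr (hK.root h) (gs_ok hL hR hK h) hg hs (r0_pos.trans h.Rre) (ne_of_re h.kre)

/-! ### side `a` -/

lemma one_I : (((1 : ℝ) : ℝ) : ℂ) * I = (((1 : ℕ) : ℂ) - (0 : ℕ)) * I := by norm_num

lemma neg_I : (((-1 : ℝ) : ℝ) : ℂ) * I = (((0 : ℕ) : ℂ) - (1 : ℕ)) * I := by norm_num

lemma InH.mm {S : Set ℂ} {H : List QC} (h : InH S H) : InH (frS (-1) (frS (-1) S)) H := by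
  rw [frS_frS (Or.inr rfl)]
  exact h

lemma ok1 {R q : ℂ} {g : Grp} (h : g.Ok R q) : AllOk R q [g] := AllOk.cons h AllOk.nil

/-- digit `1` -/
def a1s : Cls := ⟨h2as, [gA2 hST], [gD2 0 1 (mirH hST)]⟩

theorem a1s_ok : a1s.Ok .a 1 .s where
  own := fun hK h => hK.inH h h2as_ok
  L := fun hK _ _ _ hq h => ok1 (gA2_ok (portST hK (by decide)) hq h)
  R := fun hK _ _ _ hq h => ok1 (gD2_ok neg_I (portST hK (by decide)).mir hq h)

/-- digit `2` -/
def a2a : Cls := ⟨h2aa, [gA2 (mirH hA2)], [gD2 0 1 hA2]⟩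

theorem a2a_ok : a2a.Ok .a 2 .a where
  own := fun hK h => hK.inH h h2aa_ok
  L := fun hK _ _ _ hq h => ok1 (gA2_ok (portA hK).mir hq h)
  R := fun hK _ _ _ hq h => ok1 (gD2_ok neg_I (portA hK).mm hq h)

/-- digit `2`, split side -/
def a2s : Cls := ⟨h3as, [gA3 hS2], [gD3 0 1 (mirH hS2)]⟩

theorem a2s_ok : a2s.Ok .a 2 .s where
  own := fun hK h => hK.inH h h3as_ok
  L := fun hK _ _ _ hq h => ok1 (gA3_ok (portS hK) hq h)
  R := fun hK _ _ _ hq h => ok1 (gD3_ok neg_I (portS hK).mir hq h)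

/-- digit `2`, end -/
def a2e : Cls := ⟨h2ea, [gF2], [gE2 0 1]⟩

theorem a2e_ok : a2e.Ok .a 2 .e where
  own := fun hK h => hK.inH h h2ea_ok
  L := fun _ _ _ _ _ h => ok1 (gF2_ok h)
  R := fun _ _ _ _ hq h => ok1 (gE2_ok neg_I hq h)

/-- digit `3` -/
def a3a : Cls := ⟨h3aa, [gA3 (mirH hA2)], [gD3 0 1 hA2]⟩

theorem a3a_ok : a3a.Ok .a 3 .a where
  own := fun hK h => hK.inH h h3aa_ok
  L := fun hK _ _ _ hq h => ok1 (gA3_ok (portA hK).mir hq h)
  R := fun hK _ _ _ hq h => ok1 (gD3_ok neg_I (portA hK).mm hq h)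

/-- digit `3`, split side -/
def a3s : Cls := ⟨h4as, [gA4 hS3], [gD4 0 1 (mirH hS3)]⟩

theorem a3s_ok : a3s.Ok .a 3 .s where
  own := fun hK h => hK.inH h h4as_ok
  L := fun hK _ _ _ hq h => ok1 (gA4_ok (portS3 hK (by decide)) hq h)
  R := fun hK _ _ _ hq h => ok1 (gD4_ok neg_I (portS3 hK (by decide)).mir hq h)

/-- digit `3`, end -/
def a3e : Cls := ⟨h3ea, [gF3], [gE3 0 1]⟩

theorem a3e_ok : a3e.Ok .a 3 .e where
  own := fun hK h => hK.inH h h3ea_ok
  L := fun _ _ _ _ _ h => ok1 (gF3_ok h)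
  R := fun _ _ _ _ hq h => ok1 (gE3_ok neg_I hq h)

/-- digit `4` -/
def a4a : Cls := ⟨h4aa, [gA4 (mirH hA2)], [gD4 0 1 hA2]⟩

theorem a4a_ok : a4a.Ok .a 4 .a where
  own := fun hK h => hK.inH h h4aa_ok
  L := fun hK _ _ _ hq h => ok1 (gA4_ok (portA hK).mir hq h)
  R := fun hK _ _ _ hq h => ok1 (gD4_ok neg_I (portA hK).mm hq h)

/-- digit `4`, side `z` -/
def a4z : Cls := ⟨h4az, [gA4 hPZ], [gD4 0 1 (mirH hPZ)]⟩

theorem a4z_ok : a4z.Ok .a 4 .z where
  own := fun hK h => hK.inH h h4az_ok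
  L := fun hK _ _ _ hq h => ok1 (gA4_ok (portZ hK) hq h)
  R := fun hK _ _ _ hq h => ok1 (gD4_ok neg_I (portZ hK).mir hq h)

/-- digit `4`, end -/
def a4e : Cls := ⟨h4ea, [gF4], [gE4 0 1]⟩

theorem a4e_ok : a4e.Ok .a 4 .e where
  own := fun hK h => hK.inH h h4ea_ok
  L := fun _ _ _ _ _ h => ok1 (gF4_ok h)
  R := fun _ _ _ _ hq h => ok1 (gE4_ok neg_I hq h)

/-- digit `4`, split side -/
def a4s : Cls := ⟨h5as, [gA5 hS3], [gD5 0 1 (mirH hS3)]⟩

theorem a4s_ok : a4s.Ok .a 4 .s where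
  own := fun hK h => hK.inH h h5as_ok
  L := fun hK _ _ _ hq h => ok1 (gA5_ok (portS3 hK (by decide)) hq h)
  R := fun hK _ _ _ hq h => ok1 (gD5_ok neg_I (portS3 hK (by decide)).mir hq h)

/-- digit `5` -/
def a5a : Cls := ⟨h5aa, [gA5 (mirH hA2)], [gD5 0 1 hA2]⟩

theorem a5a_ok : a5a.Ok .a 5 .a where
  own := fun hK h => hK.inH h h5aa_ok
  L := fun hK _ _ _ hq h => ok1 (gA5_ok (portA hK).mir hq h)
  R := fun hK _ _ _ hq h => ok1 (gD5_ok neg_I (portA hK).mm hq h)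

/-- digit `5`, side `z` -/
def a5z : Cls := ⟨h5az, [gA5 hPZ], [gD5 0 1 (mirH hPZ)]⟩

theorem a5z_ok : a5z.Ok .a 5 .z where
  own := fun hK h => hK.inH h h5az_ok
  L := fun hK _ _ _ hq h => ok1 (gA5_ok (portZ hK) hq h)
  R := fun hK _ _ _ hq h => ok1 (gD5_ok neg_I (portZ hK).mir hq h)

/-- digit `5`, end -/
def a5e : Cls := ⟨h5ea, [gF5], [gE5 0 1]⟩

theorem a5e_ok : a5e.Ok .a 5 .e where
  own := fun hK h => hK.inH h h5ea_ok
  L := fun _ _ _ _ _ h => ok1 (gF5_ok h)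
  R := fun _ _ _ _ hq h => ok1 (gE5_ok neg_I hq h)

/-- digits at least `5` -/
def n5 : Cls := ⟨hn5, [], []⟩

theorem n5_ok {d : ℕ} {l : SK} (hd : 5 ≤ d) : n5.Ok .a d l where
  own := fun hK h => by
    refine hK.inU h hn5_ok ?_ (min_le_right _ _)
    unfold crs
    cases l <;> simp only [SK.u, lo5] <;> omega
  L := fun _ _ _ _ _ _ => AllOk.nil
  R := fun _ _ _ _ _ _ => AllOk.nil

/-- at least `6` crossings -/
def n6 : Cls := ⟨hn6, [], []⟩

theorem n6_ok {d : ℕ} {l : SK} (hd : 6 ≤ crs d l .a) : n6.Ok .a d l where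
  own := fun hK h => by
    refine hK.inU h hn6_ok ?_ (min_le_right _ _)
    unfold lo6
    omega
  L := fun _ _ _ _ _ _ => AllOk.nil
  R := fun _ _ _ _ _ _ => AllOk.nil

end

end Pool.Agent.Work.MP_b30479_gt.G2.CN
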