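import Pool.Agent.Work.MP_b30479_gt.G2.CN.HPoly

/-!
# Conditions for the ring values of the hinges between opposite signs

`h…`: conditions for the squares of the values of one ring, of many rings (`hn5`, `hn6`) or of the
ports (`hA2`, `hS2`, `hST`, `hS3`, `hPZ`).
-/

namespace Pool.Agent.Work.MP_b30479_gt.G2.CN

open Complex SR

/-- conditions -/
def h2aa : List QC :=
  [⟨-341496, 658953, 0, 0⟩, ⟨630784, -294912, 0, 0⟩, ⟨0, 0, -1000000, 186936⟩,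
  ⟨0, 0, 1000000, -1009419⟩, ⟨-966000, -259000, 0, -743260⟩, ⟨1000000, 17000, 0, 280337⟩,
  ⟨87000, 996000, 0, 312701⟩, ⟨946000, -326000, 149602, 0⟩, ⟨-326000, 946000, 0, 108236⟩,
  ⟨454000, 891000, 0, 418202⟩]

/-- conditions -/
def h2as : List QC :=
  [⟨-587018, 585480, 0, 0⟩, ⟨919632, -95060, 0, 0⟩, ⟨0, 0, -1000000, 201670⟩,
  ⟨0, 0, 1000000, -1240357⟩, ⟨35000, 999000, 880778, 0⟩, ⟨52000, 999000, 0, 408901⟩,
  ⟨951000, 309000, 0, 245866⟩, ⟨-616000, 788000, 0, 101510⟩, ⟨809000, -588000, 0, -465060⟩,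
  ⟨999000, -52000, 0, 46180⟩]

/-- conditions -/
def h2ea : List QC :=
  [⟨-239564, 244923, 0, 0⟩, ⟨450300, 949, 0, 0⟩, ⟨0, 0, -1000000, 59281⟩,
  ⟨0, 0, 1000000, -284112⟩, ⟨829000, 559000, 0, 216981⟩, ⟨-52000, 999000, 0, 202303⟩,
  ⟨-208000, -978000, 0, -501515⟩, ⟨-574000, 819000, 462522, 0⟩, ⟨940000, 342000, 0, 151913⟩,
  ⟨-407000, 914000, 0, 118984⟩]

/-- conditions -/
def h3aa : List QC :=
  [⟨-177384, 592288, 0, 0⟩, ⟨456762, -571160, 0, 0⟩, ⟨0, 0, -1000000, 289793⟩,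
  ⟨0, 0, 1000000, -648066⟩, ⟨978000, -208000, 0, 426058⟩, ⟨-961000, -276000, 0, -758558⟩,
  ⟨500000, 866000, 0, 432710⟩, ⟨848000, -530000, 0, 242259⟩, ⟨998000, -70000, 0, 476271⟩,
  ⟨-921000, -391000, 0, -776582⟩]

/-- conditions -/
def h3as : List QC :=
  [⟨-314130, 686576, 0, 0⟩, ⟨613842, -471200, 0, 0⟩, ⟨0, 0, -1000000, 263399⟩,
  ⟨0, 0, 1000000, -689121⟩, ⟨970000, -242000, 0, 271527⟩, ⟨-191000, 982000, 0, 174324⟩,
  ⟨-946000, -326000, 0, -761338⟩, ⟨276000, 961000, 0, 396626⟩, ⟨-809000, -588000, 0, -805781⟩,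
  ⟨829000, 559000, 0, 513125⟩]

/-- conditions -/
def h3ea : List QC :=
  [⟨-141024, 448868, 0, 0⟩, ⟨333144, -373417, 0, 0⟩, ⟨0, 0, -1000000, 161646⟩,
  ⟨0, 0, 1000000, -328748⟩, ⟨-588000, -809000, 0, -493908⟩, ⟨995000, -105000, 0, 326792⟩,
  ⟨-682000, 731000, 0, -203974⟩, ⟨242000, 970000, 0, 231981⟩, ⟨978000, 208000, 0, 393507⟩,
  ⟨-643000, -766000, 0, -508466⟩]

/-- conditions -/
def h4aa : List QC :=
  [⟨-112426, 699432, 0, 0⟩, ⟨304794, -709992, 0, 0⟩, ⟨0, 0, -1000000, 418465⟩,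
  ⟨0, 0, 1000000, -624020⟩, ⟨914000, -407000, 0, 495852⟩, ⟨-921000, -391000, 0, -775681⟩,
  ⟨438000, 899000, 0, 395570⟩, ⟨-391000, 921000, 0, -170113⟩, ⟨999000, -52000, 0, 625185⟩,
  ⟨857000, -515000, 0, 434113⟩]

/-- conditions -/
def h4as : List QC :=
  [⟨-170558, 623760, 0, 0⟩, ⟨395064, -644873, 0, 0⟩, ⟨0, 0, -1000000, 356485⟩,
  ⟨0, 0, 1000000, -571937⟩, ⟨974000, -225000, 0, 485484⟩, ⟨616000, 788000, 0, 508048⟩,
  ⟨819000, -574000, 0, 285896⟩, ⟨-375000, 927000, 0, -75862⟩, ⟨-927000, -375000, 0, -753001⟩,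
  ⟨829000, 559000, 0, 584514⟩]

/-- conditions -/
def h4az : List QC :=
  [⟨-202304, 746928, 0, 0⟩, ⟨323468, -664995, 0, 0⟩, ⟨0, 0, -1000000, 420767⟩,
  ⟨0, 0, 1000000, -598829⟩, ⟨951000, -309000, 0, 514243⟩, ⟨-391000, -921000, 0, -558367⟩,
  ⟨500000, 866000, 0, 480296⟩, ⟨809000, -588000, 0, 347694⟩, ⟨966000, -259000, 0, 536976⟩,
  ⟨292000, 956000, 0, 365307⟩]

/-- conditions -/
def h4ea : List QC :=
  [⟨-78000, 605900, 0, 0⟩, ⟨198640, -566796, 0, 0⟩, ⟨0, 0, -1000000, 322174⟩,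
  ⟨0, 0, 1000000, -448902⟩, ⟨-629000, -777000, 0, -512132⟩, ⟨-656000, 755000, 0, -338835⟩,
  ⟨988000, -156000, 0, 523128⟩, ⟨208000, 978000, 0, 198737⟩, ⟨966000, 259000, 0, 567528⟩,
  ⟨875000, -485000, 0, 399606⟩]

/-- conditions -/
def h5aa : List QC :=
  [⟨-72160, 772719, 0, 0⟩, ⟨197792, -767145, 0, 0⟩, ⟨0, 0, -1000000, 540283⟩,
  ⟨0, 0, 1000000, -681738⟩, ⟨-883000, -469000, 0, -771552⟩, ⟨891000, -454000, 0, 585037⟩,
  ⟨276000, 961000, 468616, 0⟩, ⟨423000, 906000, 0, 383281⟩, ⟨-276000, -961000, -640426, 0⟩,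
  ⟨-988000, -156000, -1359985, 0⟩]

/-- conditions -/
def h5as : List QC :=
  [⟨-104066, 723888, 0, 0⟩, ⟨253134, -719712, 0, 0⟩, ⟨0, 0, -1000000, 470184⟩,
  ⟨0, 0, 1000000, -628865⟩, ⟨891000, -454000, 0, 514661⟩, ⟨-875000, -485000, 0, -753449⟩,
  ⟨-530000, 848000, 0, -295418⟩, ⟨669000, 743000, 0, 546574⟩, ⟨985000, -174000, 0, 634510⟩,
  ⟨-122000, -993000, -583009, 0⟩]

/-- conditions -/
def h5az : List QC :=
  [⟨-113652, 736965, 0, 0⟩, ⟨204612, -737765, 0, 0⟩, ⟨0, 0, -1000000, 522996⟩,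
  ⟨0, 0, 1000000, -653577⟩, ⟨921000, -391000, 0, 594854⟩, ⟨999000, -35000, 1210030, 0⟩,
  ⟨0, 1000000, 203661, 0⟩, ⟨602000, 799000, 0, 531269⟩, ⟨-225000, -974000, 0, -365319⟩,
  ⟨985000, -174000, 0, 678311⟩]

/-- conditions -/
def h5ea : List QC :=
  [⟨-45252, 701515, 0, 0⟩, ⟨119952, -688705, 0, 0⟩, ⟨0, 0, -1000000, 469197⟩,
  ⟨0, 0, 1000000, -562742⟩, ⟨-602000, -799000, 0, -510694⟩, ⟨588000, 809000, 889216, 0⟩,
  ⟨978000, -208000, 0, 645100⟩, ⟨961000, 276000, 0, 676525⟩, ⟨358000, 934000, 0, 293407⟩,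
  ⟨-682000, -731000, -1140942, 0⟩]

/-- conditions -/
def hA2 : List QC :=
  [⟨0, 851929, 0, 0⟩, ⟨450300, 949, 0, 0⟩, ⟨0, 0, -1000000, 59281⟩, ⟨0, 0, 1000000, -1240357⟩,
  ⟨292000, 956000, 0, 237700⟩, ⟨-866000, -500000, 0, -867961⟩, ⟨829000, 559000, 0, 216981⟩,
  ⟨-1000000, 0, -2333885, 0⟩, ⟨974000, -225000, 0, -114329⟩, ⟨-719000, 695000, -1069378, 0⟩]

/-- conditions -/
def hPZ : List QC :=
  [⟨0, 839056, 0, 0⟩, ⟨334150, -622200, 0, 0⟩, ⟨0, 0, -1000000, 299599⟩,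
  ⟨0, 0, 1000000, -1000000⟩, ⟨-719000, -695000, 0, -722857⟩, ⟨-777000, 629000, -1013003, 0⟩,
  ⟨-87000, -996000, -776181, 0⟩, ⟨-682000, 731000, -849917, 0⟩, ⟨-358000, -934000, 0, -540206⟩,
  ⟨-788000, 616000, -1033212, 0⟩]

/-- conditions -/
def hS2 : List QC :=
  [⟨0, 822649, 0, 0⟩, ⟨919632, -95060, 0, 0⟩, ⟨0, 0, -1000000, 113771⟩,
  ⟨0, 0, 1000000, -1240357⟩, ⟨407000, 914000, 0, 316729⟩, ⟨-866000, -500000, 0, -867961⟩,
  ⟨326000, -946000, -1806488, 0⟩, ⟨-998000, 70000, -1913928, 0⟩, ⟨961000, 276000, 0, 228493⟩,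
  ⟨-707000, 707000, -963691, 0⟩]

/-- conditions -/
def hS3 : List QC :=
  [⟨-284596, 680403, 0, 0⟩, ⟨919632, -95060, 0, 0⟩, ⟨0, 0, -1000000, 113771⟩,
  ⟨0, 0, 1000000, -1240357⟩, ⟨-940000, -342000, 0, -772594⟩, ⟨-921000, 391000, -1095196, 0⟩,
  ⟨326000, -946000, -1806488, 0⟩, ⟨956000, 292000, 0, 237148⟩, ⟨-643000, -766000, 0, -992098⟩,
  ⟨809000, -588000, 0, -465060⟩]

/-- conditions -/
def hST : List QC :=
  [⟨0, 822649, 0, 0⟩, ⟨771080, -276159, 0, 0⟩, ⟨0, 0, -1000000, 113771⟩,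
  ⟨0, 0, 1000000, -1000000⟩, ⟨407000, 914000, 0, 316729⟩, ⟨-809000, -588000, 0, -810786⟩,
  ⟨819000, -574000, -376704, 0⟩, ⟨-998000, 70000, -1913928, 0⟩, ⟨-719000, 695000, -987130, 0⟩,
  ⟨-682000, -731000, 0, -839332⟩]

/-- conditions -/
def hn5 : List QC :=
  [⟨0, 851929, 0, 0⟩, ⟨204612, -737765, 0, 0⟩, ⟨0, 0, -1000000, 469197⟩,
  ⟨0, 0, 1000000, -1000000⟩, ⟨-616000, -788000, 0, -629627⟩, ⟨-407000, 914000, -494744, 0⟩,
  ⟨-588000, -809000, -1028367, 0⟩, ⟨-682000, -731000, 0, -683890⟩,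
  ⟨-602000, -799000, 0, -619858⟩, ⟨-242000, -970000, 0, -377508⟩]

/-- conditions -/
def hn6 : List QC :=
  [⟨0, 851929, 0, 0⟩, ⟨164982, -778120, 0, 0⟩, ⟨0, 0, -1000000, 575185⟩,
  ⟨0, 0, 1000000, -1000000⟩, ⟨743000, -669000, 738145, 0⟩, ⟨-530000, 848000, -644261, 0⟩,
  ⟨755000, -656000, 0, 478945⟩, ⟨-485000, -875000, 0, -521748⟩, ⟨-993000, 122000, -1282412, 0⟩,
  ⟨-695000, -719000, 0, -695624⟩]

theorem h2as_ok : okH h2as (pg 2 .s .a) = true := by decide +kernel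
theorem h2aa_ok : okH h2aa (pg 2 .a .a) = true := by decide +kernel
theorem h2ea_ok : okH h2ea (pg 2 .e .a) = true := by decide +kernel
theorem h3aa_ok : okH h3aa (pg 3 .a .a) = true := by decide +kernel
theorem h3as_ok : okH h3as (pg 3 .s .a) = true := by decide +kernel
theorem h3ea_ok : okH h3ea (pg 3 .e .a) = true := by decide +kernel
theorem h4as_ok : okH h4as (pg 4 .s .a) = true := by decide +kernel
theorem h4aa_ok : okH h4aa (pg 4 .a .a) = true := by decide +kernel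
theorem h4az_ok : okH h4az (pg 4 .z .a) = true := by decide +kernel
theorem h4ea_ok : okH h4ea (pg 4 .e .a) = true := by decide +kernel
theorem h5as_ok : okH h5as (pg 5 .s .a) = true := by decide +kernel
theorem h5aa_ok : okH h5aa (pg 5 .a .a) = true := by decide +kernel
theorem h5az_ok : okH h5az (pg 5 .z .a) = true := by decide +kernel
theorem h5ea_ok : okH h5ea (pg 5 .e .a) = true := by decide +kernel

/-- digits at least `5`, side `a` -/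
def lo5 (l : SK) : ℕ := match l with | .s => 6 | _ => 5
/-- digits at least `5`, at least `6` crossings, side `a` -/
def lo6 (_ : SK) : ℕ := 6
/-- at least three crossings -/
def lo3 (l : SK) : ℕ := match l with | .a => 3 | l => lo .s l
/-- digits `1`, `2` with a side `s`: crossings -/
def hi3 (l : SK) : ℕ := match l with | .e => 3 | .a => 3 | .z => 0 | .s => 4

theorem hn5_ok : chkU hn5 .a lo5 (fun _ => 8) = true := by decide +kernel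
theorem hn6_ok : chkU hn6 .a lo6 (fun _ => 8) = true := by decide +kernel
theorem hA2_ok : chkU hA2 .a (lo .a) (fun _ => 8) = true := by decide +kernel
theorem hPZ_ok : chkU hPZ .z (lo .z) (fun _ => 8) = true := by decide +kernel
theorem hS2_ok : chkU hS2 .s (lo .s) (fun _ => 8) = true := by decide +kernel
theorem hST_ok : chkU hST .s lo3 (fun _ => 8) = true := by decide +kernel
theorem hS3_ok : chkU hS3 .s (lo .s) hi3 = true := by decide +kernel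

/-! ### the ports -/

section
variable {K : KFam} (hK : KOK K) {d₀ B : ℕ}
include hK

lemma portA : InH {k | ∃ d l, ROK d l .a ∧ (2 ≤ d₀ ∨ 2 ≤ d) ∧ k ∈ K.K d l .a} hA2 := by
  rintro k ⟨d, l, h1, -, h3⟩
  exact hK.inU h1 hA2_ok (lo_le h1 (by decide)) (min_le_right _ _) k h3

lemma portZ : InH {k | ∃ d l, ROK d l .z ∧ k ∈ K.K d l .z} hPZ := by
  rintro k ⟨d, l, h1, h3⟩
  exact hK.inU h1 hPZ_ok (lo_le h1 (by decide)) (min_le_right _ _) k h3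

lemma portS : InH {k | ∃ d l, ROK d l .s ∧ (3 ≤ B ∨ 3 ≤ crs d l .s) ∧ (d₀ ≤ 2 ∨ d ≤ 2) ∧
    k ∈ K.K d l .s} hS2 := by
  rintro k ⟨d, l, h1, -, -, h3⟩
  exact hK.inU h1 hS2_ok (lo_le h1 (by decide)) (min_le_right _ _) k h3

lemma portST (hB : B ≤ 2) : InH {k | ∃ d l, ROK d l .s ∧ (3 ≤ B ∨ 3 ≤ crs d l .s) ∧
    (d₀ ≤ 2 ∨ d ≤ 2) ∧ k ∈ K.K d l .s} hST := by
  rintro k ⟨d, l, h1, h2, -, h3⟩
  have h4 := lo_le h1 (by decide)
  have h5 : 3 ≤ crs d l .s := by omega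
  refine hK.inU h1 hST_ok ?_ (min_le_right _ _) k h3
  cases l
  · exact h4
  · show 3 ≤ _
    omega
  · exact h4
  · exact h4

lemma portS3 (hd : 3 ≤ d₀) : InH {k | ∃ d l, ROK d l .s ∧ (3 ≤ B ∨ 3 ≤ crs d l .s) ∧
    (d₀ ≤ 2 ∨ d ≤ 2) ∧ k ∈ K.K d l .s} hS3 := by
  rintro k ⟨d, l, h1, -, h2, h3⟩
  have h5 : d ≤ 2 := by omega
  have h6 := h1.zl
  refine hK.inU h1 hS3_ok (lo_le h1 (by decide)) ?_ k h3
  unfold crs
  cases l
  · simp only [SK.u, hi3]; omega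
  · simp only [SK.u, hi3]; omega
  · have := h6 rfl; omega
  · simp only [SK.u, hi3]; omega

end

end Pool.Agent.Work.MP_b30479_gt.G2.CN
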