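import Pool.Agent.Work.MP_b30479_gt.G2.CN.Hin
import Pool.Agent.Work.MP_b30479_gt.G2.SWordH

/-!
# The data of a hinge satisfy the constraints

`InH K H`: the squares of the points of `K` satisfy the conditions `H`. For `HDt K x d l d' l' R k k'`
every group of `Hin.lean` is satisfied at `(R, 1 / k²)`.
-/

namespace Pool.Agent.Work.MP_b30479_gt.G2.CN

open Complex SR

noncomputable section

/-- the squares of the points of `K` satisfy the conditions -/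
def InH (K : Set ℂ) (H : List QC) : Prop := ∀ k ∈ K, Sat H (k ^ 2)

lemma InH.mir {K : Set ℂ} {H : List QC} (h : InH K H) : InH (frS (-1) K) (mirH H) := by
  intro k hk
  rw [frS_neg] at hk
  have h1 := h _ hk
  apply Sat.mir
  rwa [map_pow]

lemma InH.fr {K : Set ℂ} {H : List QC} (h : InH K H) : InH (frS 1 K) H := by
  rw [frS_one]
  exact h

lemma InH.poly {V : List (ℤ × ℤ)} {H : List QC} (h : okH H V = true) : InH (Poly V) H :=
  fun _ hk => okH_sound h hk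

lemma polyU_sub (V : List (ℤ × ℤ)) : PolyU V ⊆ Poly V := fun _ h e he => (h e he).le

lemma InH.polyU {V : List (ℤ × ℤ)} {H : List QC} (h : okH H V = true) : InH (PolyU V) H :=
  fun _ hk => okH_sound h (polyU_sub V hk)

/-! ### values of the expressions -/

lemma gz_nat (a : ℕ) : gz a 0 0 0 = a := by
  unfold gz
  apply Complex.ext <;> simp

lemma gz_I (a : ℕ) : gz 0 0 a 0 = a * I := by
  unfold gz
  apply Complex.ext <;> simp

lemma gz_nI (a : ℕ) : gz 0 0 0 a = -(a * I) := by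
  unfold gz
  apply Complex.ext <;> simp

namespace Ev

variable (u w : ℂ)

lemma val_one : one.val u w = 1 := by
  change gz 1 0 0 0 = 1
  rw [gz_nat]; simp

lemma val_q2 : q2.val u w = u ^ 2 + 1 - w := rfl

lemma val_dl2 : 2 * dl2.val u w = DB I 2 u w := by
  change 2 * (w - 2 + 2 * I * u) = _
  simp only [DB, cab]
  ring

lemma val_dl3 : 2 * dl3.val u w = DB I 3 u w := by
  change 2 * (I * u * (4 - w) - (4 - 3 * w)) = _
  simp only [DB, cab]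
  ring

lemma val_dl4 : 2 * dl4.val u w = DB I 4 u w := by
  change 2 * (4 * I * u * (2 - w) - (w ^ 2 - 8 * w + 8)) = _
  simp only [DB, cab]
  ring

lemma val_dl5 : 2 * dl5.val u w = DB I 5 u w := by
  change 2 * (I * u * (w ^ 2 - 12 * w + 16) - (5 * w ^ 2 - 20 * w + 16)) = _
  simp only [DB, cab]
  ring

lemma gz_ab (a b : ℕ) : gz 0 0 a b = ((a : ℂ) - b) * I := by
  unfold gz
  apply Complex.ext <;> simp

lemma val_dr2 (a b : ℕ) : 2 * (dr2 a b).val u w = DB (((a : ℂ) - b) * I) 2 u (u ^ 2 + 1 - w) := by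
  change 2 * (u ^ 2 + 1 - w - 2 + 2 * gz 0 0 a b * u) = _
  rw [gz_ab]
  simp only [DB, cab]
  ring

lemma val_dr3 (a b : ℕ) : 2 * (dr3 a b).val u w = DB (((a : ℂ) - b) * I) 3 u (u ^ 2 + 1 - w) := by
  change 2 * (gz 0 0 a b * u * (4 - (u ^ 2 + 1 - w)) - (4 - 3 * (u ^ 2 + 1 - w))) = _
  rw [gz_ab]
  simp only [DB, cab]
  ring

lemma val_dr4 (a b : ℕ) : 2 * (dr4 a b).val u w = DB (((a : ℂ) - b) * I) 4 u (u ^ 2 + 1 - w) := by
  change 2 * (4 * gz 0 0 a b * u * (2 - (u ^ 2 + 1 - w)) -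
    ((u ^ 2 + 1 - w) ^ 2 - 8 * (u ^ 2 + 1 - w) + 8)) = _
  rw [gz_ab]
  simp only [DB, cab]
  ring

lemma val_dr5 (a b : ℕ) : 2 * (dr5 a b).val u w = DB (((a : ℂ) - b) * I) 5 u (u ^ 2 + 1 - w) := by
  change 2 * (gz 0 0 a b * u * ((u ^ 2 + 1 - w) ^ 2 - 12 * (u ^ 2 + 1 - w) + 16) -
    (5 * (u ^ 2 + 1 - w) ^ 2 - 20 * (u ^ 2 + 1 - w) + 16)) = _
  rw [gz_ab]
  simp only [DB, cab]
  ring

end Ev

open Ev

/-! ### own values -/

section
variable {R q : ℂ} {H : List QC}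

lemma gl_ok {k : ℂ} (h0 : k ≠ 0) (h : Sat H (k ^ 2)) : (gl H).Ok R (1 / k ^ 2) := by
  refine ⟨k ^ 2, ?_, h⟩
  change k ^ 2 * (1 / k ^ 2) = one.val R (1 / k ^ 2)
  rw [val_one, mul_one_div_cancel (pow_ne_zero 2 h0)]

lemma gr_ok {k' : ℂ} (h0 : k' ≠ 0) (hq : R ^ 2 + 1 - q = 1 / k' ^ 2) (h : Sat H (k' ^ 2)) :
    (gr H).Ok R q := by
  refine ⟨k' ^ 2, ?_, h⟩
  change k' ^ 2 * q2.val R q = one.val R q
  rw [val_one, val_q2, hq, mul_one_div_cancel (pow_ne_zero 2 h0)]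

/-! ### outer values -/

lemma out_aux {q q' D : ℂ} {B : ℕ} {k : ℂ} (h : k ^ 2 * (4 * q' * q ^ B) = (2 * D) ^ 2) :
    k ^ 2 * (q ^ B * q') = D ^ 2 := by
  linear_combination h / 4

lemma gA2_ok {S : Set ℂ} (hS : InH S H) {q' : ℂ} (hq : R ^ 2 + 1 - q = q')
    (h : Out I 2 R q q' (some S)) : (gA2 H).Ok R q := by
  obtain ⟨k, hk, h2⟩ := h
  rw [← val_dl2] at h2
  refine ⟨k ^ 2, ?_, hS k hk⟩
  change k ^ 2 * (q ^ (1 + 1) * (R ^ 2 + 1 - q)) = dl2.val R q ^ 2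
  rw [hq]
  exact out_aux h2

lemma gA3_ok {S : Set ℂ} (hS : InH S H) {q' : ℂ} (hq : R ^ 2 + 1 - q = q')
    (h : Out I 3 R q q' (some S)) : (gA3 H).Ok R q := by
  obtain ⟨k, hk, h2⟩ := h
  rw [← val_dl3] at h2
  refine ⟨k ^ 2, ?_, hS k hk⟩
  change k ^ 2 * (q ^ (2 + 1) * (R ^ 2 + 1 - q)) = dl3.val R q ^ 2
  rw [hq]
  exact out_aux h2

lemma gA4_ok {S : Set ℂ} (hS : InH S H) {q' : ℂ} (hq : R ^ 2 + 1 - q = q')
    (h : Out I 4 R q q' (some S)) : (gA4 H).Ok R q := by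
  obtain ⟨k, hk, h2⟩ := h
  rw [← val_dl4] at h2
  refine ⟨k ^ 2, ?_, hS k hk⟩
  change k ^ 2 * (q ^ (3 + 1) * (R ^ 2 + 1 - q)) = dl4.val R q ^ 2
  rw [hq]
  exact out_aux h2

lemma gA5_ok {S : Set ℂ} (hS : InH S H) {q' : ℂ} (hq : R ^ 2 + 1 - q = q')
    (h : Out I 5 R q q' (some S)) : (gA5 H).Ok R q := by
  obtain ⟨k, hk, h2⟩ := h
  rw [← val_dl5] at h2
  refine ⟨k ^ 2, ?_, hS k hk⟩
  change k ^ 2 * (q ^ (4 + 1) * (R ^ 2 + 1 - q)) = dl5.val R q ^ 2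
  rw [hq]
  exact out_aux h2

lemma gD2_ok {a b : ℕ} {j : ℂ} (hj : j = ((a : ℂ) - b) * I) {S : Set ℂ} (hS : InH S H) {q' : ℂ}
    (hq : R ^ 2 + 1 - q = q') (h : Out j 2 R q' q (some S)) : (gD2 a b H).Ok R q := by
  obtain ⟨k, hk, h2⟩ := h
  rw [hj, ← hq, ← val_dr2] at h2
  refine ⟨k ^ 2, ?_, hS k hk⟩
  change k ^ 2 * ((R ^ 2 + 1 - q) ^ (1 + 1) * q) = (dr2 a b).val R q ^ 2
  exact out_aux h2

lemma gD3_ok {a b : ℕ} {j : ℂ} (hj : j = ((a : ℂ) - b) * I) {S : Set ℂ} (hS : InH S H) {q' : ℂ}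
    (hq : R ^ 2 + 1 - q = q') (h : Out j 3 R q' q (some S)) : (gD3 a b H).Ok R q := by
  obtain ⟨k, hk, h2⟩ := h
  rw [hj, ← hq, ← val_dr3] at h2
  refine ⟨k ^ 2, ?_, hS k hk⟩
  change k ^ 2 * ((R ^ 2 + 1 - q) ^ (2 + 1) * q) = (dr3 a b).val R q ^ 2
  exact out_aux h2

lemma gD4_ok {a b : ℕ} {j : ℂ} (hj : j = ((a : ℂ) - b) * I) {S : Set ℂ} (hS : InH S H) {q' : ℂ}
    (hq : R ^ 2 + 1 - q = q') (h : Out j 4 R q' q (some S)) : (gD4 a b H).Ok R q := by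
  obtain ⟨k, hk, h2⟩ := h
  rw [hj, ← hq, ← val_dr4] at h2
  refine ⟨k ^ 2, ?_, hS k hk⟩
  change k ^ 2 * ((R ^ 2 + 1 - q) ^ (3 + 1) * q) = (dr4 a b).val R q ^ 2
  exact out_aux h2

lemma gD5_ok {a b : ℕ} {j : ℂ} (hj : j = ((a : ℂ) - b) * I) {S : Set ℂ} (hS : InH S H) {q' : ℂ}
    (hq : R ^ 2 + 1 - q = q') (h : Out j 5 R q' q (some S)) : (gD5 a b H).Ok R q := by
  obtain ⟨k, hk, h2⟩ := h
  rw [hj, ← hq, ← val_dr5] at h2
  refine ⟨k ^ 2, ?_, hS k hk⟩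
  change k ^ 2 * ((R ^ 2 + 1 - q) ^ (4 + 1) * q) = (dr5 a b).val R q ^ 2
  exact out_aux h2

/-! ### ends -/

lemma zeroQ_sat : Sat zeroQ 0 := by
  intro Q hQ
  simp only [zeroQ, List.mem_cons, List.not_mem_nil, or_false] at hQ
  rcases hQ with rfl | rfl | rfl | rfl <;> simp [QC.Sat]

lemma zero_ok {g : Grp} (hH : g.H = zeroQ) {u w : ℂ} (h : 2 * g.N.val u w = 0) : g.Ok u w := by
  refine ⟨0, ?_, by rw [hH]; exact zeroQ_sat⟩
  have : g.N.val u w = 0 := by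
    rcases mul_eq_zero.1 h with h | h
    · exact absurd h two_ne_zero
    · exact h
  rw [this, zero_mul]

lemma gF2_ok {q' : ℂ} (h : Out I 2 R q q' none) : gF2.Ok R q :=
  zero_ok rfl ((val_dl2 R q).trans h)
lemma gF3_ok {q' : ℂ} (h : Out I 3 R q q' none) : gF3.Ok R q :=
  zero_ok rfl ((val_dl3 R q).trans h)
lemma gF4_ok {q' : ℂ} (h : Out I 4 R q q' none) : gF4.Ok R q :=
  zero_ok rfl ((val_dl4 R q).trans h)
lemma gF5_ok {q' : ℂ} (h : Out I 5 R q q' none) : gF5.Ok R q :=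
  zero_ok rfl ((val_dl5 R q).trans h)

lemma gE2_ok {a b : ℕ} {j : ℂ} (hj : j = ((a : ℂ) - b) * I) {q' : ℂ}
    (hq : R ^ 2 + 1 - q = q') (h : Out j 2 R q' q none) : (gE2 a b).Ok R q := by
  apply zero_ok rfl
  change 2 * (dr2 a b).val R q = 0
  rw [val_dr2, ← hj, hq]
  exact h
lemma gE3_ok {a b : ℕ} {j : ℂ} (hj : j = ((a : ℂ) - b) * I) {q' : ℂ}
    (hq : R ^ 2 + 1 - q = q') (h : Out j 3 R q' q none) : (gE3 a b).Ok R q := by
  apply zero_ok rfl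
  change 2 * (dr3 a b).val R q = 0
  rw [val_dr3, ← hj, hq]
  exact h
lemma gE4_ok {a b : ℕ} {j : ℂ} (hj : j = ((a : ℂ) - b) * I) {q' : ℂ}
    (hq : R ^ 2 + 1 - q = q') (h : Out j 4 R q' q none) : (gE4 a b).Ok R q := by
  apply zero_ok rfl
  change 2 * (dr4 a b).val R q = 0
  rw [val_dr4, ← hj, hq]
  exact h
lemma gE5_ok {a b : ℕ} {j : ℂ} (hj : j = ((a : ℂ) - b) * I) {q' : ℂ}
    (hq : R ^ 2 + 1 - q = q') (h : Out j 5 R q' q none) : (gE5 a b).Ok R q := by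
  apply zero_ok rfl
  change 2 * (dr5 a b).val R q = 0
  rw [val_dr5, ← hj, hq]
  exact h

end

/-! ### the root cell -/

/-- the root cell -/
def root : Cell := ⟨1048576, 1101824, 995328, 1101824, 976896, 1120256, 976896, 1120256⟩

lemma inI_of {l h : ℕ} {t a b : ℝ} (ha : a ≤ t) (hb : t ≤ b) (hl : (l : ℝ) ≤ D * a + 1048576)
    (hh : D * b + 1048576 ≤ (h : ℝ)) : InI l h t := by
  have := D_pos
  constructor <;> nlinarith

lemma root_mem {R q q' : ℂ} (hR : 0 ≤ R.re) (h : R ^ 2 + 1 = q + q') (hq : ‖q‖ ≤ 4375 / 1000)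
    (hq' : ‖q'‖ ≤ 4375 / 1000) : root.Mem R q := by
  have h1 : ‖R‖ ^ 2 ≤ 975 / 100 := by
    rw [← norm_pow, show R ^ 2 = q + q' - 1 by rw [← h]; ring]
    calc ‖q + q' - 1‖ ≤ ‖q‖ + ‖q'‖ + ‖(1 : ℂ)‖ := (norm_sub_le _ _).trans
          (add_le_add_left (norm_add_le _ _) _)
      _ ≤ 975 / 100 := by rw [norm_one]; linarith
  have h2 : ‖R‖ ≤ 325 / 100 := by nlinarith [norm_nonneg R]
  have a1 := (abs_le.1 ((Complex.abs_re_le_norm R).trans h2)).2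
  have a2 := abs_le.1 ((Complex.abs_im_le_norm R).trans h2)
  have a3 := abs_le.1 ((Complex.abs_re_le_norm q).trans hq)
  have a4 := abs_le.1 ((Complex.abs_im_le_norm q).trans hq)
  have hD : D = 16384 := rfl
  refine ⟨inI_of hR a1 ?_ ?_, inI_of a2.1 a2.2 ?_ ?_, inI_of a3.1 a3.2 ?_ ?_,
    inI_of a4.1 a4.2 ?_ ?_⟩ <;> rw [hD] <;> norm_num [root]

end

end Pool.Agent.Work.MP_b30479_gt.G2.CN
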