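import Pool.Agent.Work.MP_b30479_gt.G2.CN.HBox

/-!
# Groups for the inner variables

`gV`, `gW`: height of the inner variable minus the height of the hinge (unsplit, split); `gK3`,
`gK4`: the hinge on the other side; `TB`: a height window with the data of its two goals; `root2`:
a root cell without sign condition for `R`.
-/

namespace Pool.Agent.Work.MP_b30479_gt.G2.CN

open Complex SR NumI

noncomputable section

/-- inner variable minus hinge, `exp (2 π i (m - v))`, unsplit hinge `R` -/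
def gV (H : List QC) : Grp := ⟨.mul Ev.dl2 (.sub .R (.sc 1 (.k 0 0 1 0)) (rfl : 1 = 1)),
  .mul .q (.add .R (.sc 1 (.k 0 0 1 0)) (rfl : 1 = 1)), (rfl : 2 = 2), H⟩

/-- inner variable minus hinge, split hinge -/
def gW (H : List QC) : Grp := ⟨.gm 0 0 1 0 Ev.dl3,
  .mul Ev.dl2 (.add .R (.sc 1 (.k 0 0 1 0)) (rfl : 1 = 1)), (rfl : 2 = 2), H⟩

/-- the hinge on the other side of a ring with three crossings (seen from `R`) -/
def gK3 (H : List QC) : Grp := ⟨.gm 0 1 0 0 (.mul .q Ev.dl2), Ev.dl4, (rfl : 2 = 2), H⟩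

/-- the hinge behind four crossings -/
def gK4 (H : List QC) : Grp := ⟨.gm 0 1 0 0 (.mul .q Ev.dl3), Ev.dl5, (rfl : 3 = 3), H⟩

end

/-- a window of heights with denominator `10000` and the data of the goals -/
structure TB where
  m0 : ℤ
  m1 : ℤ
  c1 : ℤ
  c0 : ℤ

namespace TB

/-- the goals -/
def H (s : TB) : List QC := [⟨0, 0, 1000000, -s.c1⟩, ⟨0, 0, -1000000, s.c0⟩]

/-- the check -/
def ok (s : TB) : Bool := chk [.neg (BB.eT s.m1 s.c1)] 1 [] && chk [BB.eT s.m0 s.c0] 1 []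

theorem spec {s : TB} (h : s.ok = true) {c : ℂ} {t : ℝ} (ht : ‖c‖ ^ 2 = Real.exp (-(4 * Real.pi * t)))
    (hS : ∀ Q ∈ s.H, ¬ Q.Sat c) : (s.m0 : ℝ) / 10000 ≤ t ∧ t ≤ (s.m1 : ℝ) / 10000 := by
  have hpi := Real.pi_pos
  unfold ok at h
  simp only [Bool.and_eq_true] at h
  obtain ⟨g5, g6⟩ := h
  have G5 := pos_of_chk (chk_sound g5 List.Forall₂.nil)
  have G6 := pos_of_chk (chk_sound g6 List.Forall₂.nil)
  simp only [BB.eT, E.val] at G5 G6
  have Q3 : ¬ (⟨0, 0, 1000000, -s.c1⟩ : QC).Sat _ := hS _ (by simp [H])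
  have Q4 : ¬ (⟨0, 0, -1000000, s.c0⟩ : QC).Sat _ := hS _ (by simp [H])
  unfold QC.Sat at Q3 Q4
  rw [ht] at Q3 Q4
  push_cast at Q3 Q4 G5 G6
  constructor
  · have h3 : Real.exp (-(4 * Real.pi * t)) < Real.exp (Real.pi * (-(s.m0 : ℝ) / 2500)) := by
      linarith
    have h4 := Real.exp_lt_exp.1 h3
    by_contra hc
    push Not at hc
    nlinarith
  · have h3 : Real.exp (Real.pi * (-(s.m1 : ℝ) / 2500)) < Real.exp (-(4 * Real.pi * t)) := by
      linarith
    have h4 := Real.exp_lt_exp.1 h3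
    by_contra hc
    push Not at hc
    nlinarith

end TB

/-- a root cell without sign condition for `R` -/
def root2 : Cell := ⟨995328, 1101824, 995328, 1101824, 976896, 1120256, 976896, 1120256⟩

lemma root2_mem {R q : ℂ} (hR : ‖R‖ ≤ 325 / 100) (hq : ‖q‖ ≤ 4375 / 1000) : root2.Mem R q := by
  have a1 := abs_le.1 ((Complex.abs_re_le_norm R).trans hR)
  have a2 := abs_le.1 ((Complex.abs_im_le_norm R).trans hR)
  have a3 := abs_le.1 ((Complex.abs_re_le_norm q).trans hq)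
  have a4 := abs_le.1 ((Complex.abs_im_le_norm q).trans hq)
  have hD : D = 16384 := rfl
  refine ⟨inI_of a1.1 a1.2 ?_ ?_, inI_of a2.1 a2.2 ?_ ?_, inI_of a3.1 a3.2 ?_ ?_,
    inI_of a4.1 a4.2 ?_ ?_⟩ <;> rw [hD] <;> norm_num [root2]

end Pool.Agent.Work.MP_b30479_gt.G2.CN
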