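import Pool.Agent.Work.MP_b30479_gt.G2.CN.HLink

/-!
# The polygons of the ring values

`pg B l r`: polygon of the rings with `B` crossings and the sides `l`, `r`; `KOK K`: the sets of the
family `K` are in the polygons; `chkU`: check of conditions for many rings at once.
-/

namespace Pool.Agent.Work.MP_b30479_gt.G2.CN

open Complex SR

/-- 2 crossings -/
def pg2 (l r : SK) : List (ℤ × ℤ) :=
  match l, r with
  | .e, .a | .a, .e =>
    [(482, 220), (542, 221), (636, 283), (661, 310), (500, 501), (474, 475), (430, 375), (426, 249)]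
  | .a, .a =>
    [(646, 218), (707, 194), (837, 204), (867, 503), (809, 498), (704, 448), (632, 356), (600, 269)]
  | .a, .s | .s, .a =>
    [(569, 354), (653, 300), (841, 349), (867, 499), (817, 668), (714, 644), (568, 497), (537, 420)]
  | _, _ => [(0, 0), (1000, 0), (1000, 1000), (0, 1000)]

/-- 3 crossings -/
def pg3 (l r : SK) : List (ℤ × ℤ) :=
  match l, r with
  | .e, .a | .a, .e =>
    [(623, 118), (650, 105), (678, 104), (743, 146), (661, 252), (646, 237), (625, 192), (621, 159)]
  | .e, .s | .s, .e =>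
    [(535, 226), (593, 222), (648, 235), (662, 250), (565, 350), (545, 340), (517, 286), (525, 256)]
  | .a, .a =>
    [(748, 124), (778, 114), (859, 129), (847, 296), (807, 283), (756, 241), (733, 199), (718, 151)]
  | .a, .s | .s, .a =>
    [(684, 213), (728, 188), (849, 185), (848, 289), (822, 393), (789, 389), (731, 354), (669, 274)]
  | .s, .s =>
    [(651, 346), (743, 303), (814, 284), (851, 290), (784, 527), (740, 521), (700, 488), (658, 448)]
  | _, _ => [(0, 0), (1000, 0), (1000, 1000), (0, 1000)]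

/-- 4 crossings -/
def pg4 (l r : SK) : List (ℤ × ℤ) :=
  match l, r with
  | .e, .a | .a, .e =>
    [(754, 55), (768, 51), (780, 50), (815, 76), (764, 130), (757, 121), (748, 90)]
  | .e, .z | .z, .e => [(731, 114), (733, 112), (757, 119), (766, 129), (732, 132), (731, 128)]
  | .e, .s | .s, .e =>
    [(693, 105), (702, 100), (742, 129), (699, 182), (685, 171), (675, 136), (681, 122)]
  | .a, .a =>
    [(820, 70), (839, 67), (885, 82), (861, 177), (841, 170), (814, 139), (806, 118), (800, 83)]
  | .a, .z | .z, .a =>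
    [(795, 129), (805, 117), (818, 111), (872, 116), (861, 177), (838, 193), (812, 170), (798, 142)]
  | .a, .s | .s, .a =>
    [(767, 129), (781, 114), (797, 107), (860, 123), (837, 236), (813, 228), (783, 203), (758, 150)]
  | .z, .z =>
    [(803, 178), (845, 169), (862, 176), (841, 191), (826, 201), (815, 205), (802, 182)]
  | .s, .s =>
    [(734, 216), (740, 187), (805, 171), (842, 169), (862, 174), (804, 313), (776, 305), (731, 256)]
  | _, _ => [(0, 0), (1000, 0), (1000, 1000), (0, 1000)]

/-- 5 crossings -/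
def pg5 (l r : SK) : List (ℤ × ℤ) :=
  match l, r with
  | .e, .a | .a, .e =>
    [(831, 30), (838, 27), (849, 29), (865, 44), (833, 72), (829, 66), (826, 52)]
  | .e, .z | .z, .e => [(813, 70), (815, 60), (817, 59), (831, 66), (834, 72), (821, 71)]
  | .e, .s | .s, .e =>
    [(780, 65), (793, 52), (801, 49), (820, 70), (790, 95), (787, 95), (781, 87)]
  | .a, .a =>
    [(856, 48), (869, 41), (880, 41), (900, 50), (907, 55), (883, 112), (871, 103), (855, 76)]
  | .a, .z | .z, .a =>
    [(847, 76), (855, 69), (861, 66), (891, 73), (896, 75), (883, 112), (867, 118), (854, 101)]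
  | .a, .s | .s, .a =>
    [(824, 82), (835, 67), (853, 61), (887, 79), (861, 147), (844, 135), (833, 120), (824, 91)]
  | .z, .z => [(847, 107), (849, 104), (873, 104), (885, 110), (852, 125)]
  | .z, .s | .s, .z =>
    [(828, 107), (833, 103), (846, 104), (874, 113), (863, 142), (842, 154), (834, 150), (821, 124)]
  | .s, .s =>
    [(796, 130), (805, 108), (814, 100), (862, 119), (835, 191), (813, 181), (794, 147)]
  | _, _ => [(0, 0), (1000, 0), (1000, 1000), (0, 1000)]

/-- 6 crossings -/
def pg6 (l r : SK) : List (ℤ × ℤ) :=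
  match l, r with
  | .e, .a | .a, .e => [(874, 34), (876, 24), (878, 17), (887, 16), (899, 27), (877, 44)]
  | .e, .z | .z, .e => [(867, 35), (868, 34), (875, 38), (876, 39), (879, 44), (865, 41)]
  | .e, .s | .s, .e => [(847, 34), (858, 27), (860, 27), (870, 41), (848, 55), (844, 49)]
  | .a, .a =>
    [(892, 30), (901, 26), (908, 26), (926, 36), (904, 74), (896, 62), (891, 49)]
  | .a, .z | .z, .a =>
    [(885, 47), (890, 43), (896, 42), (917, 49), (905, 73), (894, 75), (887, 63)]
  | .a, .s | .s, .a =>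
    [(870, 48), (879, 40), (888, 38), (911, 50), (887, 93), (873, 80), (869, 57)]
  | .z, .z => [(882, 64), (902, 67), (906, 72), (886, 77), (883, 76)]
  | .z, .s | .s, .z =>
    [(872, 61), (884, 64), (899, 73), (888, 90), (874, 95), (869, 93), (864, 73)]
  | .s, .s =>
    [(844, 80), (856, 61), (863, 58), (891, 75), (864, 119), (852, 110), (846, 93)]
  | _, _ => [(0, 0), (1000, 0), (1000, 1000), (0, 1000)]

/-- 7 crossings -/
def pg7 (l r : SK) : List (ℤ × ℤ) :=
  match l, r with
  | .e, .a | .a, .e => [(907, 12), (910, 10), (915, 11), (922, 18), (907, 28), (905, 24)]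
  | .e, .z | .z, .e => [(899, 25), (901, 21), (908, 26), (908, 28), (900, 26)]
  | .e, .s | .s, .e => [(885, 30), (888, 20), (896, 16), (903, 26), (893, 31), (887, 33)]
  | .a, .a =>
    [(917, 19), (925, 17), (928, 18), (940, 25), (923, 49), (920, 46), (915, 34)]
  | .a, .z | .z, .a =>
    [(911, 30), (917, 27), (927, 31), (932, 35), (923, 49), (916, 50), (912, 44)]
  | .a, .s | .s, .a =>
    [(901, 31), (907, 25), (916, 25), (928, 35), (909, 62), (903, 54), (899, 42)]
  | .z, .z => [(908, 41), (919, 44), (926, 48), (908, 51)]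
  | .z, .s | .s, .z =>
    [(896, 47), (898, 42), (903, 39), (911, 42), (919, 49), (910, 59), (897, 62)]
  | .s, .s => [(882, 49), (889, 40), (896, 35), (913, 49), (891, 77), (883, 68)]
  | _, _ => [(0, 0), (1000, 0), (1000, 1000), (0, 1000)]

/-- 8 crossings or more -/
def pg8 (l r : SK) : List (ℤ × ℤ) :=
  match l, r with
  | .e, .a | .a, .e => [(923, 0), (1000, 0), (956, 22), (923, 22)]
  | .e, .z | .z, .e => [(916, 0), (1000, 0), (952, 24), (916, 24)]
  | .e, .s | .s, .e => [(907, 0), (1000, 0), (948, 26), (907, 26)]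
  | .a, .a => [(923, 0), (1000, 0), (957, 43), (923, 43)]
  | .a, .z | .z, .a => [(916, 0), (1000, 0), (953, 47), (916, 47)]
  | .z, .z => [(908, 0), (1000, 0), (948, 52), (908, 52)]
  | .a, .s | .s, .a => [(907, 0), (1000, 0), (948, 52), (907, 52)]
  | .z, .s | .s, .z => [(897, 0), (1000, 0), (942, 58), (897, 58)]
  | .s, .s => [(883, 0), (1000, 0), (934, 66), (883, 66)]
  | _, _ => [(0, 0), (1000, 0), (1000, 1000), (0, 1000)]

/-- the polygon -/
def pg (B : ℕ) (l r : SK) : List (ℤ × ℤ) :=
  if B = 2 then pg2 l r else if B = 3 then pg3 l r else if B = 4 then pg4 l r else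
  if B = 5 then pg5 l r else if B = 6 then pg6 l r else if B = 7 then pg7 l r else pg8 l r

lemma pg_min {B : ℕ} (l r : SK) : pg B l r = pg (min B 8) l r := by
  rcases le_total B 8 with h | h
  · rw [min_eq_left h]
  · rw [min_eq_right h]
    unfold pg
    split_ifs <;> first | rfl | omega

/-- the sets of the family are in the polygons -/
structure KOK (K : KFam) : Prop where
  sub : ∀ {d : ℕ} {l r : SK}, ROK d l r → K.K d l r ⊆ PolyU (pg (crs d l r) l r)

/-- minimal number of crossings of a ring with the sides `l`, `r` -/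
def lo (r l : SK) : ℕ :=
  match r, l with
  | .a, .e => 2
  | .a, .a => 2
  | .a, .z => 4
  | .a, .s => 2
  | .z, .e => 4
  | .z, .a => 4
  | .z, .z => 4
  | .z, .s => 5
  | .s, .e => 3
  | .s, .a => 2
  | .s, .z => 5
  | .s, .s => 3
  | _, _ => 0

lemma lo_le {d : ℕ} {l r : SK} (h : ROK d l r) (hr : r ≠ .e) : lo r l ≤ min (crs d l r) 8 := by
  have h1 := h.pos
  have h2 := h.one
  have h3 := h.zl
  have h4 := h.zr
  unfold crs
  cases r <;> cases l <;> simp_all [lo, SK.u] <;> omega

/-- check of conditions for the rings with the side `r` -/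
noncomputable def chkU (H : List QC) (r : SK) (a b : SK → ℕ) : Bool :=
  [SK.e, SK.a, SK.z, SK.s].all fun l => (List.range 9).all fun B =>
    Nat.blt B (a l) || Nat.blt (b l) B || okH H (pg B l r)

lemma chkU_use {H : List QC} {r : SK} {a b : SK → ℕ} (h : chkU H r a b = true) {B : ℕ} {l : SK}
    (h1 : a l ≤ min B 8) (h2 : min B 8 ≤ b l) : okH H (pg B l r) = true := by
  have h3 := List.all_eq_true.1 h l (by cases l <;> simp)
  have h4 := List.all_eq_true.1 h3 (min B 8) (List.mem_range.2 (by omega))
  rw [Bool.or_eq_true, Bool.or_eq_true, Nat.blt_eq, Nat.blt_eq] at h4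
  rcases h4 with (h4 | h4) | h4
  · omega
  · omega
  · rwa [← pg_min] at h4

section
variable {K : KFam} (hK : KOK K)
include hK

/-- one ring -/
lemma KOK.inH {d : ℕ} {l r : SK} (h : ROK d l r) {H : List QC}
    (hH : okH H (pg (crs d l r) l r) = true) : InH (K.K d l r) H :=
  fun _ hk => okH_sound hH (polyU_sub _ (hK.sub h hk))

/-- many rings -/
lemma KOK.inU {d : ℕ} {l r : SK} (h : ROK d l r) {H : List QC} {a b : SK → ℕ}
    (hH : chkU H r a b = true) (h1 : a l ≤ min (crs d l r) 8) (h2 : min (crs d l r) 8 ≤ b l) :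
    InH (K.K d l r) H := hK.inH h (chkU_use hH h1 h2)

end

/-- the lower bound of the modulus -/
def hmin : List QC := [⟨0, 0, -1000000, 52250⟩]

theorem hmin_a : chkU hmin .a (lo .a) (fun _ => 8) = true := by decide +kernel
theorem hmin_z : chkU hmin .z (lo .z) (fun _ => 8) = true := by decide +kernel
theorem hmin_s : chkU hmin .s (lo .s) (fun _ => 8) = true := by decide +kernel

lemma norm_of_hmin {k : ℂ} (h : Sat hmin (k ^ 2)) : ‖1 / k ^ 2‖ ≤ 4375 / 1000 := by
  have h1 := h ⟨0, 0, -1000000, 52250⟩ (by simp [hmin])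
  unfold QC.Sat at h1
  push_cast at h1
  have h2 : (22858 : ℝ) / 100000 < ‖k ^ 2‖ := by
    by_contra hc
    push Not at hc
    have h3 := norm_nonneg (k ^ 2)
    nlinarith
  rw [norm_div, norm_one, div_le_iff₀ (by linarith)]
  linarith

/-- the inverse of the value of a ring is bounded -/
lemma KOK.bound {K : KFam} (hK : KOK K) {d : ℕ} {l r : SK} (h : ROK d l r) (hr : r ≠ .e) {k : ℂ}
    (hk : k ∈ K.K d l r) : ‖1 / k ^ 2‖ ≤ 4375 / 1000 := by
  have h1 := lo_le h hr
  apply norm_of_hmin
  cases r
  · exact absurd rfl hr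
  · exact hK.inU h hmin_a h1 (min_le_right _ _) k hk
  · exact hK.inU h hmin_z h1 (min_le_right _ _) k hk
  · exact hK.inU h hmin_s h1 (min_le_right _ _) k hk

lemma norm_frS {s : ℝ} {S : Set ℂ} {k : ℂ} (hs : s = 1 ∨ s = -1) (hk : k ∈ frS s S) {c : ℝ}
    (h : ∀ k ∈ S, ‖1 / k ^ 2‖ ≤ c) : ‖1 / k ^ 2‖ ≤ c := by
  rcases hs with rfl | rfl
  · rw [frS_one] at hk
    exact h k hk
  · rw [frS_neg] at hk
    have := h _ hk
    rwa [← map_pow, show (1 : ℂ) = (starRingEnd ℂ) 1 by simp, ← map_div₀, Complex.norm_conj] at this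

/-- the root cell contains every hinge -/
lemma KOK.root {K : KFam} (hK : KOK K) {x : SK} {d : ℕ} {l : SK} {d' : ℕ} {l' : SK} {R k k' : ℂ}
    (h : HDt K x d l d' l' R k k') : root.Mem R (1 / k ^ 2) := by
  have hr : r0 < R.re := h.Rre
  have h0 := r0_pos
  refine root_mem (by linarith) h.hinge (hK.bound h.ok.left h.ok.ne h.mem) ?_
  have hR : ROK d' l' x := h.ok.right.symm
  refine norm_frS (SK.sgn_or x) h.mem' (fun k hk => ?_)
  rw [K.symm] at hk
  exact hK.bound hR h.ok.ne hk

end Pool.Agent.Work.MP_b30479_gt.G2.CN
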