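import Pool.Agent.Work.MP_b30479_gt.G2.CN.HRwA
import Pool.Agent.Work.MP_b30479_gt.G2.SWordJ

/-!
# The hinges between opposite signs

`un_a`: the hinge is in its box; `near_mid`, `near_midE`: the inner variable of a digit `3` next to
such a hinge; sharper facts at the digits `4` and `5`.
-/

namespace Pool.Agent.Work.MP_b30479_gt.G2.CN

open Complex SR
open scoped ComplexConjugate

/-- the cases of a ring at a hinge of kind `a` -/
inductive CA
  | a3a | a3s | a3e | a1s | a2a | a2s | a2e | a4a | a4z | a4e | a4s | n5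

namespace CA

/-- the class -/
noncomputable def cls : CA → Cls
  | .a3a => CN.a3a
  | .a3s => CN.a3s
  | .a3e => CN.a3e
  | .a1s => CN.a1s
  | .a2a => CN.a2a
  | .a2s => CN.a2s
  | .a2e => CN.a2e
  | .a4a => CN.a4a
  | .a4z => CN.a4z
  | .a4e => CN.a4e
  | .a4s => CN.a4s
  | .n5 => CN.n5

/-- the class of the region -/
def cl : CA → Cl
  | .a3a => .three
  | .a3s => .three
  | .a3e => .threeE
  | .a1s => .one
  | .a2a => .two
  | .a2s => .two
  | .a2e => .twoE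
  | .a4a => .ring
  | .a4z => .ring
  | .a4e => .ring
  | .a4s => .ring
  | .n5 => .ring

/-- the ring is in the case -/
def Has (d : ℕ) (l : SK) : CA → Prop
  | .a3a => d = 3 ∧ l = .a
  | .a3s => d = 3 ∧ l = .s
  | .a3e => d = 3 ∧ l = .e
  | .a1s => d = 1 ∧ l = .s
  | .a2a => d = 2 ∧ l = .a
  | .a2s => d = 2 ∧ l = .s
  | .a2e => d = 2 ∧ l = .e
  | .a4a => d = 4 ∧ l = .a
  | .a4z => d = 4 ∧ l = .z
  | .a4e => d = 4 ∧ l = .e
  | .a4s => d = 4 ∧ l = .s
  | .n5 => 5 ≤ d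

/-- position in the list -/
def ix : CA → ℕ
  | .a3a => 0
  | .a3s => 1
  | .a3e => 2
  | .a1s => 3
  | .a2a => 4
  | .a2s => 5
  | .a2e => 6
  | .a4a => 7
  | .a4z => 8
  | .a4e => 9
  | .a4s => 10
  | .n5 => 11

lemma has_of {d : ℕ} {l : SK} (h : ROK d l .a) : ∃ c : CA, c.Has d l := by
  have h1 := h.pos
  have h2 := h.one
  have h3 := h.zl
  rcases Nat.lt_or_ge d 5 with h5 | h5
  · have h6 : d = 1 ∨ d = 2 ∨ d = 3 ∨ d = 4 := by omega
    rcases h6 with rfl | rfl | rfl | rfl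
    · obtain ⟨h7 | h7, -⟩ := h2 rfl
      · subst h7
        exact ⟨.a1s, rfl, rfl⟩
      · exact absurd h7 (by decide)
    · cases l
      · exact ⟨.a2e, rfl, rfl⟩
      · exact ⟨.a2a, rfl, rfl⟩
      · exact absurd (h3 rfl) (by decide)
      · exact ⟨.a2s, rfl, rfl⟩
    · cases l
      · exact ⟨.a3e, rfl, rfl⟩
      · exact ⟨.a3a, rfl, rfl⟩
      · exact absurd (h3 rfl) (by decide)
      · exact ⟨.a3s, rfl, rfl⟩
    · cases l
      · exact ⟨.a4e, rfl, rfl⟩
      · exact ⟨.a4a, rfl, rfl⟩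
      · exact ⟨.a4z, rfl, rfl⟩
      · exact ⟨.a4s, rfl, rfl⟩
  · exact ⟨.n5, h5⟩

lemma ok {c : CA} {d : ℕ} {l : SK} (h : c.Has d l) : c.cls.Ok .a d l := by
  cases c
  · obtain ⟨rfl, rfl⟩ := h; exact a3a_ok
  · obtain ⟨rfl, rfl⟩ := h; exact a3s_ok
  · obtain ⟨rfl, rfl⟩ := h; exact a3e_ok
  · obtain ⟨rfl, rfl⟩ := h; exact a1s_ok
  · obtain ⟨rfl, rfl⟩ := h; exact a2a_ok
  · obtain ⟨rfl, rfl⟩ := h; exact a2s_ok
  · obtain ⟨rfl, rfl⟩ := h; exact a2e_ok
  · obtain ⟨rfl, rfl⟩ := h; exact a4a_ok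
  · obtain ⟨rfl, rfl⟩ := h; exact a4z_ok
  · obtain ⟨rfl, rfl⟩ := h; exact a4e_ok
  · obtain ⟨rfl, rfl⟩ := h; exact a4s_ok
  · exact n5_ok h

lemma cl_eq {c : CA} {d : ℕ} {l : SK} (h : c.Has d l) : cK d l = c.cl := by
  cases c
  · obtain ⟨rfl, rfl⟩ := h; rfl
  · obtain ⟨rfl, rfl⟩ := h; rfl
  · obtain ⟨rfl, rfl⟩ := h; rfl
  · obtain ⟨rfl, rfl⟩ := h; rfl
  · obtain ⟨rfl, rfl⟩ := h; rfl
  · obtain ⟨rfl, rfl⟩ := h; rfl
  · obtain ⟨rfl, rfl⟩ := h; rfl
  · obtain ⟨rfl, rfl⟩ := h; rfl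
  · obtain ⟨rfl, rfl⟩ := h; rfl
  · obtain ⟨rfl, rfl⟩ := h; rfl
  · obtain ⟨rfl, rfl⟩ := h; rfl
  · have h' : 5 ≤ d := h
    unfold cK
    rw [if_neg (by omega), if_neg (by omega), if_neg (by omega)]
    rfl

end CA

/-- a box contains another box -/
lemma box_sub {s : BB} {B : Box} {y : ℂ} (hy : s.box.In y)
    (h : B.x0 ≤ s.n0 / 10000 ∧ (s.n1 : ℝ) / 10000 ≤ B.x1 ∧ B.t0 ≤ s.m0 / 10000 ∧
      (s.m1 : ℝ) / 10000 ≤ B.t1) : B.In y :=
  ⟨h.1.trans hy.1, hy.2.1.trans h.2.1, h.2.2.1.trans hy.2.2.1, hy.2.2.2.trans h.2.2.2⟩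

/-- the statement for two cases -/
def PairA (c c' : CA) (B : Box) : Prop :=
  ∀ {K : KFam} {d : ℕ} {l : SK} {d' : ℕ} {l' : SK} {R k k' : ℂ}, KOK K → c.Has d l →
    c'.Has d' l' → HDt K .a d l d' l' R k k' → B.In (acot2 R)

/-- the statement for the inner variable -/
def PairS (c c' : CA) (B : Box) : Prop :=
  ∀ {K : KFam} {d : ℕ} {l : SK} {d' : ℕ} {l' : SK} {R k k' : ℂ}, KOK K → c.Has d l →
    c'.Has d' l' → HDt K .a d l d' l' R k k' → B.In (acot2 (Sp R k))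

section

theorem pH_a3a_a3a : PairA .a3a .a3a b1950_2370_m220_220.box := fun hK h1 h2 h =>
  cls_H (CA.ok h1) (CA.ok h2) r_a3a_a3a b1950_2370_m220_220_ok (List.mem_cons_self) hK h

theorem pH_a3a_a3s : PairA .a3a .a3s b1950_2370_m220_220.box := fun hK h1 h2 h =>
  cls_H (CA.ok h1) (CA.ok h2) r_a3a_a3s b1950_2370_m220_220_ok (List.mem_cons_self) hK h

theorem pH_a3a_a3e : PairA .a3a .a3e b1790_2010_m280_m50.box := fun hK h1 h2 h =>
  cls_H (CA.ok h1) (CA.ok h2) r_a3a_a3e b1790_2010_m280_m50_ok (List.mem_cons_self) hK h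

theorem pH_a3a_a1s : PairA .a3a .a1s b2260_3140_m1145_m210.box := fun hK h1 h2 h =>
  cls_H (CA.ok h1) (CA.ok h2) r_a3a_a1s b2260_3140_m1145_m210_ok (List.mem_cons_self) hK h

theorem pH_a3a_a2a : PairA .a3a .a2a b1950_2640_m570_50.box := fun hK h1 h2 h =>
  cls_H (CA.ok h1) (CA.ok h2) r_a3a_a2a b1950_2640_m570_50_ok (List.mem_cons_self) hK h

theorem pH_a3a_a2s : PairA .a3a .a2s b1950_2640_m570_50.box := fun hK h1 h2 h =>
  cls_H (CA.ok h1) (CA.ok h2) r_a3a_a2s b1950_2640_m570_50_ok (List.mem_cons_self) hK h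

theorem pH_a3a_a2e : PairA .a3a .a2e b1740_1970_m980_m760.box := fun hK h1 h2 h =>
  cls_H (CA.ok h1) (CA.ok h2) r_a3a_a2e b1740_1970_m980_m760_ok (List.mem_cons_self) hK h

theorem pH_a3a_a4a : PairA .a3a .a4a b1880_2340_m10_570.box := fun hK h1 h2 h =>
  cls_H (CA.ok h1) (CA.ok h2) r_a3a_a4a b1880_2340_m10_570_ok (List.mem_cons_self) hK h

theorem pH_a3a_a4z : PairA .a3a .a4z b1880_2340_m10_570.box := fun hK h1 h2 h =>
  cls_H (CA.ok h1) (CA.ok h2) r_a3a_a4z b1880_2340_m10_570_ok (List.mem_cons_self) hK h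

theorem pH_a3a_a4e : PairA .a3a .a4e b1880_2340_m10_570.box := fun hK h1 h2 h =>
  cls_H (CA.ok h1) (CA.ok h2) r_a3a_a4e b1880_2340_m10_570_ok (List.mem_cons_self) hK h

theorem pH_a3a_a4s : PairA .a3a .a4s b1880_2340_m10_570.box := fun hK h1 h2 h =>
  cls_H (CA.ok h1) (CA.ok h2) r_a3a_a4s b1880_2340_m10_570_ok (List.mem_cons_self) hK h

theorem pH_a3a_n5 : PairA .a3a .n5 b1880_2340_m10_570.box := fun hK h1 h2 h =>
  cls_H (CA.ok h1) (CA.ok h2) r_a3a_n5 b1880_2340_m10_570_ok (List.mem_cons_self) hK h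

theorem pH_a3s_a3s : PairA .a3s .a3s b1950_2370_m220_220.box := fun hK h1 h2 h =>
  cls_H (CA.ok h1) (CA.ok h2) r_a3s_a3s b1950_2370_m220_220_ok (List.mem_cons_self) hK h

theorem pH_a3s_a3e : PairA .a3s .a3e b1790_2010_m280_m50.box := fun hK h1 h2 h =>
  cls_H (CA.ok h1) (CA.ok h2) r_a3s_a3e b1790_2010_m280_m50_ok (List.mem_cons_self) hK h

theorem pH_a3s_a1s : PairA .a3s .a1s b2260_3140_m1145_m210.box := fun hK h1 h2 h =>
  cls_H (CA.ok h1) (CA.ok h2) r_a3s_a1s b2260_3140_m1145_m210_ok (List.mem_cons_self) hK h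

theorem pH_a3s_a2a : PairA .a3s .a2a b1950_2640_m570_50.box := fun hK h1 h2 h =>
  cls_H (CA.ok h1) (CA.ok h2) r_a3s_a2a b1950_2640_m570_50_ok (List.mem_cons_self) hK h

theorem pH_a3s_a2s : PairA .a3s .a2s b1950_2640_m570_50.box := fun hK h1 h2 h =>
  cls_H (CA.ok h1) (CA.ok h2) r_a3s_a2s b1950_2640_m570_50_ok (List.mem_cons_self) hK h

theorem pH_a3s_a2e : PairA .a3s .a2e b1740_1970_m980_m760.box := fun hK h1 h2 h =>
  cls_H (CA.ok h1) (CA.ok h2) r_a3s_a2e b1740_1970_m980_m760_ok (List.mem_cons_self) hK h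

theorem pH_a3s_a4a : PairA .a3s .a4a b1880_2340_m10_570.box := fun hK h1 h2 h =>
  cls_H (CA.ok h1) (CA.ok h2) r_a3s_a4a b1880_2340_m10_570_ok (List.mem_cons_self) hK h

theorem pH_a3s_a4z : PairA .a3s .a4z b1880_2340_m10_570.box := fun hK h1 h2 h =>
  cls_H (CA.ok h1) (CA.ok h2) r_a3s_a4z b1880_2340_m10_570_ok (List.mem_cons_self) hK h

theorem pH_a3s_a4e : PairA .a3s .a4e b1880_2340_m10_570.box := fun hK h1 h2 h =>
  cls_H (CA.ok h1) (CA.ok h2) r_a3s_a4e b1880_2340_m10_570_ok (List.mem_cons_self) hK h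

theorem pH_a3s_a4s : PairA .a3s .a4s b1880_2340_m10_570.box := fun hK h1 h2 h =>
  cls_H (CA.ok h1) (CA.ok h2) r_a3s_a4s b1880_2340_m10_570_ok (List.mem_cons_self) hK h

theorem pH_a3s_n5 : PairA .a3s .n5 b1880_2340_m10_570.box := fun hK h1 h2 h =>
  cls_H (CA.ok h1) (CA.ok h2) r_a3s_n5 b1880_2340_m10_570_ok (List.mem_cons_self) hK h

theorem pH_a3e_a3e : PairA .a3e .a3e b1650_1680_m10_10.box := fun hK h1 h2 h =>
  cls_H (CA.ok h1) (CA.ok h2) r_a3e_a3e b1650_1680_m10_10_ok (List.mem_cons_self) hK h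

theorem pH_a3e_a1s : PairA .a3e .a1s b2120_2740_m780_m100.box := fun hK h1 h2 h =>
  cls_H (CA.ok h1) (CA.ok h2) r_a3e_a1s b2120_2740_m780_m100_ok (List.mem_cons_self) hK h

theorem pH_a3e_a2a : PairA .a3e .a2a b1810_2270_m260_130.box := fun hK h1 h2 h =>
  cls_H (CA.ok h1) (CA.ok h2) r_a3e_a2a b1810_2270_m260_130_ok (List.mem_cons_self) hK h

theorem pH_a3e_a2s : PairA .a3e .a2s b1810_2270_m260_130.box := fun hK h1 h2 h =>
  cls_H (CA.ok h1) (CA.ok h2) r_a3e_a2s b1810_2270_m260_130_ok (List.mem_cons_self) hK h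

theorem pH_a3e_a2e : PairA .a3e .a2e b1620_1660_m690_m650.box := fun hK h1 h2 h =>
  cls_H (CA.ok h1) (CA.ok h2) r_a3e_a2e b1620_1660_m690_m650_ok (List.mem_cons_self) hK h

theorem pH_a3e_a4a : PairA .a3e .a4a b1710_1950_180_580.box := fun hK h1 h2 h =>
  cls_H (CA.ok h1) (CA.ok h2) r_a3e_a4a b1710_1950_180_580_ok (List.mem_cons_self) hK h

theorem pH_a3e_a4z : PairA .a3e .a4z b1710_1950_180_580.box := fun hK h1 h2 h =>
  cls_H (CA.ok h1) (CA.ok h2) r_a3e_a4z b1710_1950_180_580_ok (List.mem_cons_self) hK h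

theorem pH_a3e_a4e : PairA .a3e .a4e b1710_1950_180_580.box := fun hK h1 h2 h =>
  cls_H (CA.ok h1) (CA.ok h2) r_a3e_a4e b1710_1950_180_580_ok (List.mem_cons_self) hK h

theorem pH_a3e_a4s : PairA .a3e .a4s b1710_1950_180_580.box := fun hK h1 h2 h =>
  cls_H (CA.ok h1) (CA.ok h2) r_a3e_a4s b1710_1950_180_580_ok (List.mem_cons_self) hK h

theorem pH_a3e_n5 : PairA .a3e .n5 b1710_1950_180_580.box := fun hK h1 h2 h =>
  cls_H (CA.ok h1) (CA.ok h2) r_a3e_n5 b1710_1950_180_580_ok (List.mem_cons_self) hK h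

theorem pH_a1s_a2a : PairA .a1s .a2a b2360_3920_m180_985.box := fun hK h1 h2 h =>
  cls_H (CA.ok h1) (CA.ok h2) r_a1s_a2a b2360_3920_m180_985_ok (List.mem_cons_self) hK h

theorem pH_a1s_a2s : PairA .a1s .a2s b2360_3920_m180_985.box := fun hK h1 h2 h =>
  cls_H (CA.ok h1) (CA.ok h2) r_a1s_a2s b2360_3920_m180_985_ok (List.mem_cons_self) hK h

theorem pH_a1s_a2e : PairA .a1s .a2e b2170_3110_m660_10.box := fun hK h1 h2 h =>
  cls_H (CA.ok h1) (CA.ok h2) r_a1s_a2e b2170_3110_m660_10_ok (List.mem_cons_self) hK h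

theorem pH_a1s_a4a : PairA .a1s .a4a b2140_2680_380_1280.box := fun hK h1 h2 h =>
  cls_H (CA.ok h1) (CA.ok h2) r_a1s_a4a b2140_2680_380_1280_ok (List.mem_cons_self) hK h

theorem pH_a1s_a4z : PairA .a1s .a4z b2140_2680_380_1280.box := fun hK h1 h2 h =>
  cls_H (CA.ok h1) (CA.ok h2) r_a1s_a4z b2140_2680_380_1280_ok (List.mem_cons_self) hK h

theorem pH_a1s_a4e : PairA .a1s .a4e b2140_2470_380_1280.box := fun hK h1 h2 h =>
  cls_H (CA.ok h1) (CA.ok h2) r_a1s_a4e b2140_2470_380_1280_ok (List.mem_cons_self) hK h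

theorem pH_a1s_a4s : PairA .a1s .a4s b2140_2680_380_1280.box := fun hK h1 h2 h =>
  cls_H (CA.ok h1) (CA.ok h2) r_a1s_a4s b2140_2680_380_1280_ok (List.mem_cons_self) hK h

theorem pH_a1s_n5 : PairA .a1s .n5 b2140_2980_380_1380.box := fun hK h1 h2 h =>
  cls_H (CA.ok h1) (CA.ok h2) r_a1s_n5 b2140_2980_380_1380_ok (List.mem_cons_self) hK h

theorem pH_a2a_a2a : PairA .a2a .a2a b2000_2980_m410_410.box := fun hK h1 h2 h =>
  cls_H (CA.ok h1) (CA.ok h2) r_a2a_a2a b2000_2980_m410_410_ok (List.mem_cons_self) hK h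

theorem pH_a2a_a2s : PairA .a2a .a2s b2000_2980_m410_410.box := fun hK h1 h2 h =>
  cls_H (CA.ok h1) (CA.ok h2) r_a2a_a2s b2000_2980_m410_410_ok (List.mem_cons_self) hK h

theorem pH_a2a_a2e : PairA .a2a .a2e b1830_2280_m850_m450.box := fun hK h1 h2 h =>
  cls_H (CA.ok h1) (CA.ok h2) r_a2a_a2e b1830_2280_m850_m450_ok (List.mem_cons_self) hK h

theorem pH_a2a_a4a : PairA .a2a .a4a b1860_2520_100_960.box := fun hK h1 h2 h =>
  cls_H (CA.ok h1) (CA.ok h2) r_a2a_a4a b1860_2520_100_960_ok (List.mem_cons_self) hK h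

theorem pH_a2a_a4z : PairA .a2a .a4z b1860_2520_100_960.box := fun hK h1 h2 h =>
  cls_H (CA.ok h1) (CA.ok h2) r_a2a_a4z b1860_2520_100_960_ok (List.mem_cons_self) hK h

theorem pH_a2a_a4e : PairA .a2a .a4e b1860_2400_100_960.box := fun hK h1 h2 h =>
  cls_H (CA.ok h1) (CA.ok h2) r_a2a_a4e b1860_2400_100_960_ok (List.mem_cons_self) hK h

theorem pH_a2a_a4s : PairA .a2a .a4s b1860_2520_100_960.box := fun hK h1 h2 h =>
  cls_H (CA.ok h1) (CA.ok h2) r_a2a_a4s b1860_2520_100_960_ok (List.mem_cons_self) hK h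

theorem pH_a2a_n5 : PairA .a2a .n5 b1860_2520_100_960.box := fun hK h1 h2 h =>
  cls_H (CA.ok h1) (CA.ok h2) r_a2a_n5 b1860_2520_100_960_ok (List.mem_cons_self) hK h

theorem pH_a2s_a2s : PairA .a2s .a2s b2000_2980_m410_410.box := fun hK h1 h2 h =>
  cls_H (CA.ok h1) (CA.ok h2) r_a2s_a2s b2000_2980_m410_410_ok (List.mem_cons_self) hK h

theorem pH_a2s_a2e : PairA .a2s .a2e b1830_2280_m850_m450.box := fun hK h1 h2 h =>
  cls_H (CA.ok h1) (CA.ok h2) r_a2s_a2e b1830_2280_m850_m450_ok (List.mem_cons_self) hK h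

theorem pH_a2s_a4a : PairA .a2s .a4a b1860_2520_100_960.box := fun hK h1 h2 h =>
  cls_H (CA.ok h1) (CA.ok h2) r_a2s_a4a b1860_2520_100_960_ok (List.mem_cons_self) hK h

theorem pH_a2s_a4z : PairA .a2s .a4z b1860_2520_100_960.box := fun hK h1 h2 h =>
  cls_H (CA.ok h1) (CA.ok h2) r_a2s_a4z b1860_2520_100_960_ok (List.mem_cons_self) hK h

theorem pH_a2s_a4e : PairA .a2s .a4e b1860_2400_100_960.box := fun hK h1 h2 h =>
  cls_H (CA.ok h1) (CA.ok h2) r_a2s_a4e b1860_2400_100_960_ok (List.mem_cons_self) hK h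

theorem pH_a2s_a4s : PairA .a2s .a4s b1860_2520_100_960.box := fun hK h1 h2 h =>
  cls_H (CA.ok h1) (CA.ok h2) r_a2s_a4s b1860_2520_100_960_ok (List.mem_cons_self) hK h

theorem pH_a2s_n5 : PairA .a2s .n5 b1860_2520_100_960.box := fun hK h1 h2 h =>
  cls_H (CA.ok h1) (CA.ok h2) r_a2s_n5 b1860_2520_100_960_ok (List.mem_cons_self) hK h

theorem pH_a2e_a2e : PairA .a2e .a2e b1650_1680_m10_10.box := fun hK h1 h2 h =>
  cls_H (CA.ok h1) (CA.ok h2) r_a2e_a2e b1650_1680_m10_10_ok (List.mem_cons_self) hK h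

theorem pH_a2e_a4a : PairA .a2e .a4a b1640_1860_880_1150.box := fun hK h1 h2 h =>
  cls_H (CA.ok h1) (CA.ok h2) r_a2e_a4a b1640_1860_880_1150_ok (List.mem_cons_self) hK h

theorem pH_a2e_a4z : PairA .a2e .a4z b1640_1860_880_1150.box := fun hK h1 h2 h =>
  cls_H (CA.ok h1) (CA.ok h2) r_a2e_a4z b1640_1860_880_1150_ok (List.mem_cons_self) hK h

theorem pH_a2e_a4e : PairA .a2e .a4e b1640_1860_880_1150.box := fun hK h1 h2 h =>
  cls_H (CA.ok h1) (CA.ok h2) r_a2e_a4e b1640_1860_880_1150_ok (List.mem_cons_self) hK h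

theorem pH_a2e_a4s : PairA .a2e .a4s b1640_1860_880_1150.box := fun hK h1 h2 h =>
  cls_H (CA.ok h1) (CA.ok h2) r_a2e_a4s b1640_1860_880_1150_ok (List.mem_cons_self) hK h

theorem pH_a2e_n5 : PairA .a2e .n5 b1640_1860_880_1310.box := by
  intro K d l d' l' R k k' hK h1 h2 h
  have h2' : 5 ≤ d' := h2
  by_cases h6 : 6 ≤ crs d' l' .a
  · exact cls_H (CA.ok h1) (n6_ok h6) r_a2e_n6 b1640_1860_880_1310_ok List.mem_cons_self hK h
  · have h7 : d' = 5 := by
      unfold crs at h6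
      omega
    subst h7
    cases l'
    · exact cls_H (CA.ok h1) a5e_ok r_a2e_a5e b1640_1860_880_1310_ok List.mem_cons_self hK h
    · exact cls_H (CA.ok h1) a5a_ok r_a2e_a5a b1640_1860_880_1310_ok List.mem_cons_self hK h
    · exact cls_H (CA.ok h1) a5z_ok r_a2e_a5z b1640_1860_880_1310_ok List.mem_cons_self hK h
    · exact absurd (by decide : 6 ≤ crs 5 .s .a) h6

theorem pH_a4a_a4a : PairA .a4a .a4a b1820_2520_m250_250.box := fun hK h1 h2 h =>
  cls_H (CA.ok h1) (CA.ok h2) r_a4a_a4a b1820_2520_m250_250_ok (List.mem_cons_self) hK h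

theorem pH_a4a_a4z : PairA .a4a .a4z b1820_2520_m250_250.box := fun hK h1 h2 h =>
  cls_H (CA.ok h1) (CA.ok h2) r_a4a_a4z b1820_2520_m250_250_ok (List.mem_cons_self) hK h

theorem pH_a4a_a4e : PairA .a4a .a4e b1820_2520_m250_250.box := fun hK h1 h2 h =>
  cls_H (CA.ok h1) (CA.ok h2) r_a4a_a4e b1820_2520_m250_250_ok (List.mem_cons_self) hK h

theorem pH_a4a_a4s : PairA .a4a .a4s b1820_2520_m250_250.box := fun hK h1 h2 h =>
  cls_H (CA.ok h1) (CA.ok h2) r_a4a_a4s b1820_2520_m250_250_ok (List.mem_cons_self) hK h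

theorem pH_a4a_n5 : PairA .a4a .n5 b1820_2520_m250_385.box := fun hK h1 h2 h =>
  cls_H (CA.ok h1) (CA.ok h2) r_a4a_n5 b1820_2520_m250_385_ok (List.mem_cons_self) hK h

theorem pH_a4z_a4z : PairA .a4z .a4z b1820_2520_m250_250.box := fun hK h1 h2 h =>
  cls_H (CA.ok h1) (CA.ok h2) r_a4z_a4z b1820_2520_m250_250_ok (List.mem_cons_self) hK h

theorem pH_a4z_a4e : PairA .a4z .a4e b1820_2520_m250_250.box := fun hK h1 h2 h =>
  cls_H (CA.ok h1) (CA.ok h2) r_a4z_a4e b1820_2520_m250_250_ok (List.mem_cons_self) hK h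

theorem pH_a4z_a4s : PairA .a4z .a4s b1820_2520_m250_250.box := fun hK h1 h2 h =>
  cls_H (CA.ok h1) (CA.ok h2) r_a4z_a4s b1820_2520_m250_250_ok (List.mem_cons_self) hK h

theorem pH_a4z_n5 : PairA .a4z .n5 b1820_2520_m250_385.box := fun hK h1 h2 h =>
  cls_H (CA.ok h1) (CA.ok h2) r_a4z_n5 b1820_2520_m250_385_ok (List.mem_cons_self) hK h

theorem pH_a4e_a4e : PairA .a4e .a4e b1820_2520_m250_250.box := fun hK h1 h2 h =>
  cls_H (CA.ok h1) (CA.ok h2) r_a4e_a4e b1820_2520_m250_250_ok (List.mem_cons_self) hK h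

theorem pH_a4e_a4s : PairA .a4e .a4s b1820_2520_m250_250.box := fun hK h1 h2 h =>
  cls_H (CA.ok h1) (CA.ok h2) r_a4e_a4s b1820_2520_m250_250_ok (List.mem_cons_self) hK h

theorem pH_a4e_n5 : PairA .a4e .n5 b1820_2520_m250_385.box := fun hK h1 h2 h =>
  cls_H (CA.ok h1) (CA.ok h2) r_a4e_n5 b1820_2520_m250_385_ok (List.mem_cons_self) hK h

theorem pH_a4s_a4s : PairA .a4s .a4s b1820_2520_m250_250.box := fun hK h1 h2 h =>
  cls_H (CA.ok h1) (CA.ok h2) r_a4s_a4s b1820_2520_m250_250_ok (List.mem_cons_self) hK h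

theorem pH_a4s_n5 : PairA .a4s .n5 b1820_2520_m250_385.box := fun hK h1 h2 h =>
  cls_H (CA.ok h1) (CA.ok h2) r_a4s_n5 b1820_2520_m250_385_ok (List.mem_cons_self) hK h

theorem pH_n5_n5 : PairA .n5 .n5 b1820_2520_m385_385.box := fun hK h1 h2 h =>
  cls_H (CA.ok h1) (CA.ok h2) r_n5_n5 b1820_2520_m385_385_ok (List.mem_cons_self) hK h

theorem pS_a3a_a3a : PairS .a3a .a3a b3265_5120_m1600_150.box := fun hK h1 h2 h =>
  cls_S (CA.ok h1) (CA.ok h2) r_a3a_a3a b3265_5120_m1600_150_ok (List.mem_cons_of_mem _ List.mem_cons_self) hK h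

theorem pS_a3a_a3s : PairS .a3a .a3s b3265_5120_m1600_150.box := fun hK h1 h2 h =>
  cls_S (CA.ok h1) (CA.ok h2) r_a3a_a3s b3265_5120_m1600_150_ok (List.mem_cons_of_mem _ List.mem_cons_self) hK h

theorem pS_a3a_a3e : PairS .a3a .a3e b3265_5120_m1600_150.box := fun hK h1 h2 h =>
  cls_S (CA.ok h1) (CA.ok h2) r_a3a_a3e b3265_5120_m1600_150_ok (List.mem_cons_of_mem _ List.mem_cons_self) hK h

theorem pS_a3a_a1s : PairS .a3a .a1s b3265_5120_m1600_150.box := fun hK h1 h2 h =>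
  cls_S (CA.ok h1) (CA.ok h2) r_a3a_a1s b3265_5120_m1600_150_ok (List.mem_cons_of_mem _ List.mem_cons_self) hK h

theorem pS_a3a_a2a : PairS .a3a .a2a b3265_5120_m1600_150.box := fun hK h1 h2 h =>
  cls_S (CA.ok h1) (CA.ok h2) r_a3a_a2a b3265_5120_m1600_150_ok (List.mem_cons_of_mem _ List.mem_cons_self) hK h

theorem pS_a3a_a2s : PairS .a3a .a2s b3265_5120_m1600_150.box := fun hK h1 h2 h =>
  cls_S (CA.ok h1) (CA.ok h2) r_a3a_a2s b3265_5120_m1600_150_ok (List.mem_cons_of_mem _ List.mem_cons_self) hK h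

theorem pS_a3a_a2e : PairS .a3a .a2e b3265_5120_m1600_150.box := fun hK h1 h2 h =>
  cls_S (CA.ok h1) (CA.ok h2) r_a3a_a2e b3265_5120_m1600_150_ok (List.mem_cons_of_mem _ List.mem_cons_self) hK h

theorem pS_a3a_a4a : PairS .a3a .a4a b3265_5120_m1600_150.box := fun hK h1 h2 h =>
  cls_S (CA.ok h1) (CA.ok h2) r_a3a_a4a b3265_5120_m1600_150_ok (List.mem_cons_of_mem _ List.mem_cons_self) hK h

theorem pS_a3a_a4z : PairS .a3a .a4z b3265_5120_m1600_150.box := fun hK h1 h2 h =>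
  cls_S (CA.ok h1) (CA.ok h2) r_a3a_a4z b3265_5120_m1600_150_ok (List.mem_cons_of_mem _ List.mem_cons_self) hK h

theorem pS_a3a_a4e : PairS .a3a .a4e b3265_5120_m1600_150.box := fun hK h1 h2 h =>
  cls_S (CA.ok h1) (CA.ok h2) r_a3a_a4e b3265_5120_m1600_150_ok (List.mem_cons_of_mem _ List.mem_cons_self) hK h

theorem pS_a3a_a4s : PairS .a3a .a4s b3265_5120_m1600_150.box := fun hK h1 h2 h =>
  cls_S (CA.ok h1) (CA.ok h2) r_a3a_a4s b3265_5120_m1600_150_ok (List.mem_cons_of_mem _ List.mem_cons_self) hK h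

theorem pS_a3a_n5 : PairS .a3a .n5 b3265_5120_m1600_150.box := fun hK h1 h2 h =>
  cls_S (CA.ok h1) (CA.ok h2) r_a3a_n5 b3265_5120_m1600_150_ok (List.mem_cons_of_mem _ List.mem_cons_self) hK h

theorem pS_a3s_a3a : PairS .a3s .a3a b3265_5120_m1600_150.box := fun hK h1 h2 h =>
  cls_S (CA.ok h1) (CA.ok h2) r_a3s_a3a b3265_5120_m1600_150_ok (List.mem_cons_self) hK h

theorem pS_a3s_a3s : PairS .a3s .a3s b3265_5120_m1600_150.box := fun hK h1 h2 h =>
  cls_S (CA.ok h1) (CA.ok h2) r_a3s_a3s b3265_5120_m1600_150_ok (List.mem_cons_of_mem _ List.mem_cons_self) hK h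

theorem pS_a3s_a3e : PairS .a3s .a3e b3265_5120_m1600_150.box := fun hK h1 h2 h =>
  cls_S (CA.ok h1) (CA.ok h2) r_a3s_a3e b3265_5120_m1600_150_ok (List.mem_cons_of_mem _ List.mem_cons_self) hK h

theorem pS_a3s_a1s : PairS .a3s .a1s b3265_5120_m1600_150.box := fun hK h1 h2 h =>
  cls_S (CA.ok h1) (CA.ok h2) r_a3s_a1s b3265_5120_m1600_150_ok (List.mem_cons_of_mem _ List.mem_cons_self) hK h

theorem pS_a3s_a2a : PairS .a3s .a2a b3265_5120_m1600_150.box := fun hK h1 h2 h =>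
  cls_S (CA.ok h1) (CA.ok h2) r_a3s_a2a b3265_5120_m1600_150_ok (List.mem_cons_of_mem _ List.mem_cons_self) hK h

theorem pS_a3s_a2s : PairS .a3s .a2s b3265_5120_m1600_150.box := fun hK h1 h2 h =>
  cls_S (CA.ok h1) (CA.ok h2) r_a3s_a2s b3265_5120_m1600_150_ok (List.mem_cons_of_mem _ List.mem_cons_self) hK h

theorem pS_a3s_a2e : PairS .a3s .a2e b3265_5120_m1600_150.box := fun hK h1 h2 h =>
  cls_S (CA.ok h1) (CA.ok h2) r_a3s_a2e b3265_5120_m1600_150_ok (List.mem_cons_of_mem _ List.mem_cons_self) hK h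

theorem pS_a3s_a4a : PairS .a3s .a4a b3265_5120_m1600_150.box := fun hK h1 h2 h =>
  cls_S (CA.ok h1) (CA.ok h2) r_a3s_a4a b3265_5120_m1600_150_ok (List.mem_cons_of_mem _ List.mem_cons_self) hK h

theorem pS_a3s_a4z : PairS .a3s .a4z b3265_5120_m1600_150.box := fun hK h1 h2 h =>
  cls_S (CA.ok h1) (CA.ok h2) r_a3s_a4z b3265_5120_m1600_150_ok (List.mem_cons_of_mem _ List.mem_cons_self) hK h

theorem pS_a3s_a4e : PairS .a3s .a4e b3265_5120_m1600_150.box := fun hK h1 h2 h =>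
  cls_S (CA.ok h1) (CA.ok h2) r_a3s_a4e b3265_5120_m1600_150_ok (List.mem_cons_of_mem _ List.mem_cons_self) hK h

theorem pS_a3s_a4s : PairS .a3s .a4s b3265_5120_m1600_150.box := fun hK h1 h2 h =>
  cls_S (CA.ok h1) (CA.ok h2) r_a3s_a4s b3265_5120_m1600_150_ok (List.mem_cons_of_mem _ List.mem_cons_self) hK h

theorem pS_a3s_n5 : PairS .a3s .n5 b3265_5120_m1600_150.box := fun hK h1 h2 h =>
  cls_S (CA.ok h1) (CA.ok h2) r_a3s_n5 b3265_5120_m1600_150_ok (List.mem_cons_of_mem _ List.mem_cons_self) hK h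

theorem pS_a3e_a3a : PairS .a3e .a3a b3010_4215_m450_590.box := fun hK h1 h2 h =>
  cls_S (CA.ok h1) (CA.ok h2) r_a3e_a3a b3010_4215_m450_590_ok (List.mem_cons_self) hK h

theorem pS_a3e_a3s : PairS .a3e .a3s b3010_4215_m450_590.box := fun hK h1 h2 h =>
  cls_S (CA.ok h1) (CA.ok h2) r_a3e_a3s b3010_4215_m450_590_ok (List.mem_cons_self) hK h

theorem pS_a3e_a3e : PairS .a3e .a3e b3010_4215_m450_590.box := fun hK h1 h2 h =>
  cls_S (CA.ok h1) (CA.ok h2) r_a3e_a3e b3010_4215_m450_590_ok (List.mem_cons_of_mem _ List.mem_cons_self) hK h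

theorem pS_a3e_a1s : PairS .a3e .a1s b3010_4215_m450_590.box := fun hK h1 h2 h =>
  cls_S (CA.ok h1) (CA.ok h2) r_a3e_a1s b3010_4215_m450_590_ok (List.mem_cons_of_mem _ List.mem_cons_self) hK h

theorem pS_a3e_a2a : PairS .a3e .a2a b3010_4215_m450_590.box := fun hK h1 h2 h =>
  cls_S (CA.ok h1) (CA.ok h2) r_a3e_a2a b3010_4215_m450_590_ok (List.mem_cons_of_mem _ List.mem_cons_self) hK h

theorem pS_a3e_a2s : PairS .a3e .a2s b3010_4215_m450_590.box := fun hK h1 h2 h =>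
  cls_S (CA.ok h1) (CA.ok h2) r_a3e_a2s b3010_4215_m450_590_ok (List.mem_cons_of_mem _ List.mem_cons_self) hK h

theorem pS_a3e_a2e : PairS .a3e .a2e b3010_4215_m450_590.box := fun hK h1 h2 h =>
  cls_S (CA.ok h1) (CA.ok h2) r_a3e_a2e b3010_4215_m450_590_ok (List.mem_cons_of_mem _ List.mem_cons_self) hK h

theorem pS_a3e_a4a : PairS .a3e .a4a b3010_4215_m450_590.box := fun hK h1 h2 h =>
  cls_S (CA.ok h1) (CA.ok h2) r_a3e_a4a b3010_4215_m450_590_ok (List.mem_cons_of_mem _ List.mem_cons_self) hK h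

theorem pS_a3e_a4z : PairS .a3e .a4z b3010_4215_m450_590.box := fun hK h1 h2 h =>
  cls_S (CA.ok h1) (CA.ok h2) r_a3e_a4z b3010_4215_m450_590_ok (List.mem_cons_of_mem _ List.mem_cons_self) hK h

theorem pS_a3e_a4e : PairS .a3e .a4e b3010_4215_m450_590.box := fun hK h1 h2 h =>
  cls_S (CA.ok h1) (CA.ok h2) r_a3e_a4e b3010_4215_m450_590_ok (List.mem_cons_of_mem _ List.mem_cons_self) hK h

theorem pS_a3e_a4s : PairS .a3e .a4s b3010_4215_m450_590.box := fun hK h1 h2 h =>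
  cls_S (CA.ok h1) (CA.ok h2) r_a3e_a4s b3010_4215_m450_590_ok (List.mem_cons_of_mem _ List.mem_cons_self) hK h

theorem pS_a3e_n5 : PairS .a3e .n5 b3010_4215_m450_590.box := fun hK h1 h2 h =>
  cls_S (CA.ok h1) (CA.ok h2) r_a3e_n5 b3010_4215_m450_590_ok (List.mem_cons_of_mem _ List.mem_cons_self) hK h

end

/-- the statement for two cases in this order -/
theorem un_ord {c c' : CA} (hc : c.ix ≤ c'.ix) {K : KFam} {d : ℕ} {l : SK} {d' : ℕ} {l' : SK}
    {R k k' : ℂ} (hK : KOK K) (h1 : c.Has d l) (h2 : c'.Has d' l')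
    (h : HDt K .a d l d' l' R k k') : (hbox c.cl c'.cl false).In (acot2 R) := by
  cases c <;> cases c' <;> first | exact absurd hc (by decide) | skip
  · exact box_sub (pH_a3a_a3a hK h1 h2 h) (by norm_num [hbox, CA.cl, b1950_2370_m220_220])
  · exact box_sub (pH_a3a_a3s hK h1 h2 h) (by norm_num [hbox, CA.cl, b1950_2370_m220_220])
  · exact box_sub (pH_a3a_a3e hK h1 h2 h) (by norm_num [hbox, CA.cl, b1790_2010_m280_m50])
  · exact box_sub (pH_a3a_a1s hK h1 h2 h) (by norm_num [hbox, CA.cl, b2260_3140_m1145_m210])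
  · exact box_sub (pH_a3a_a2a hK h1 h2 h) (by norm_num [hbox, CA.cl, b1950_2640_m570_50])
  · exact box_sub (pH_a3a_a2s hK h1 h2 h) (by norm_num [hbox, CA.cl, b1950_2640_m570_50])
  · exact box_sub (pH_a3a_a2e hK h1 h2 h) (by norm_num [hbox, CA.cl, b1740_1970_m980_m760])
  · exact box_sub (pH_a3a_a4a hK h1 h2 h) (by norm_num [hbox, CA.cl, b1880_2340_m10_570])
  · exact box_sub (pH_a3a_a4z hK h1 h2 h) (by norm_num [hbox, CA.cl, b1880_2340_m10_570])
  · exact box_sub (pH_a3a_a4e hK h1 h2 h) (by norm_num [hbox, CA.cl, b1880_2340_m10_570])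
  · exact box_sub (pH_a3a_a4s hK h1 h2 h) (by norm_num [hbox, CA.cl, b1880_2340_m10_570])
  · exact box_sub (pH_a3a_n5 hK h1 h2 h) (by norm_num [hbox, CA.cl, b1880_2340_m10_570])
  · exact box_sub (pH_a3s_a3s hK h1 h2 h) (by norm_num [hbox, CA.cl, b1950_2370_m220_220])
  · exact box_sub (pH_a3s_a3e hK h1 h2 h) (by norm_num [hbox, CA.cl, b1790_2010_m280_m50])
  · exact box_sub (pH_a3s_a1s hK h1 h2 h) (by norm_num [hbox, CA.cl, b2260_3140_m1145_m210])
  · exact box_sub (pH_a3s_a2a hK h1 h2 h) (by norm_num [hbox, CA.cl, b1950_2640_m570_50])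
  · exact box_sub (pH_a3s_a2s hK h1 h2 h) (by norm_num [hbox, CA.cl, b1950_2640_m570_50])
  · exact box_sub (pH_a3s_a2e hK h1 h2 h) (by norm_num [hbox, CA.cl, b1740_1970_m980_m760])
  · exact box_sub (pH_a3s_a4a hK h1 h2 h) (by norm_num [hbox, CA.cl, b1880_2340_m10_570])
  · exact box_sub (pH_a3s_a4z hK h1 h2 h) (by norm_num [hbox, CA.cl, b1880_2340_m10_570])
  · exact box_sub (pH_a3s_a4e hK h1 h2 h) (by norm_num [hbox, CA.cl, b1880_2340_m10_570])
  · exact box_sub (pH_a3s_a4s hK h1 h2 h) (by norm_num [hbox, CA.cl, b1880_2340_m10_570])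
  · exact box_sub (pH_a3s_n5 hK h1 h2 h) (by norm_num [hbox, CA.cl, b1880_2340_m10_570])
  · exact box_sub (pH_a3e_a3e hK h1 h2 h) (by norm_num [hbox, CA.cl, b1650_1680_m10_10])
  · exact box_sub (pH_a3e_a1s hK h1 h2 h) (by norm_num [hbox, CA.cl, b2120_2740_m780_m100])
  · exact box_sub (pH_a3e_a2a hK h1 h2 h) (by norm_num [hbox, CA.cl, b1810_2270_m260_130])
  · exact box_sub (pH_a3e_a2s hK h1 h2 h) (by norm_num [hbox, CA.cl, b1810_2270_m260_130])
  · exact box_sub (pH_a3e_a2e hK h1 h2 h) (by norm_num [hbox, CA.cl, b1620_1660_m690_m650])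
  · exact box_sub (pH_a3e_a4a hK h1 h2 h) (by norm_num [hbox, CA.cl, b1710_1950_180_580])
  · exact box_sub (pH_a3e_a4z hK h1 h2 h) (by norm_num [hbox, CA.cl, b1710_1950_180_580])
  · exact box_sub (pH_a3e_a4e hK h1 h2 h) (by norm_num [hbox, CA.cl, b1710_1950_180_580])
  · exact box_sub (pH_a3e_a4s hK h1 h2 h) (by norm_num [hbox, CA.cl, b1710_1950_180_580])
  · exact box_sub (pH_a3e_n5 hK h1 h2 h) (by norm_num [hbox, CA.cl, b1710_1950_180_580])
  · obtain ⟨rfl, rfl⟩ := h1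
    obtain ⟨rfl, rfl⟩ := h2
    exact absurd (h.ok.opp rfl) (by decide)
  · exact box_sub (pH_a1s_a2a hK h1 h2 h) (by norm_num [hbox, CA.cl, b2360_3920_m180_985])
  · exact box_sub (pH_a1s_a2s hK h1 h2 h) (by norm_num [hbox, CA.cl, b2360_3920_m180_985])
  · exact box_sub (pH_a1s_a2e hK h1 h2 h) (by norm_num [hbox, CA.cl, b2170_3110_m660_10])
  · exact box_sub (pH_a1s_a4a hK h1 h2 h) (by norm_num [hbox, CA.cl, b2140_2680_380_1280])
  · exact box_sub (pH_a1s_a4z hK h1 h2 h) (by norm_num [hbox, CA.cl, b2140_2680_380_1280])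
  · exact box_sub (pH_a1s_a4e hK h1 h2 h) (by norm_num [hbox, CA.cl, b2140_2470_380_1280])
  · exact box_sub (pH_a1s_a4s hK h1 h2 h) (by norm_num [hbox, CA.cl, b2140_2680_380_1280])
  · exact box_sub (pH_a1s_n5 hK h1 h2 h) (by norm_num [hbox, CA.cl, b2140_2980_380_1380])
  · exact box_sub (pH_a2a_a2a hK h1 h2 h) (by norm_num [hbox, CA.cl, b2000_2980_m410_410])
  · exact box_sub (pH_a2a_a2s hK h1 h2 h) (by norm_num [hbox, CA.cl, b2000_2980_m410_410])
  · exact box_sub (pH_a2a_a2e hK h1 h2 h) (by norm_num [hbox, CA.cl, b1830_2280_m850_m450])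
  · exact box_sub (pH_a2a_a4a hK h1 h2 h) (by norm_num [hbox, CA.cl, b1860_2520_100_960])
  · exact box_sub (pH_a2a_a4z hK h1 h2 h) (by norm_num [hbox, CA.cl, b1860_2520_100_960])
  · exact box_sub (pH_a2a_a4e hK h1 h2 h) (by norm_num [hbox, CA.cl, b1860_2400_100_960])
  · exact box_sub (pH_a2a_a4s hK h1 h2 h) (by norm_num [hbox, CA.cl, b1860_2520_100_960])
  · exact box_sub (pH_a2a_n5 hK h1 h2 h) (by norm_num [hbox, CA.cl, b1860_2520_100_960])
  · exact box_sub (pH_a2s_a2s hK h1 h2 h) (by norm_num [hbox, CA.cl, b2000_2980_m410_410])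
  · exact box_sub (pH_a2s_a2e hK h1 h2 h) (by norm_num [hbox, CA.cl, b1830_2280_m850_m450])
  · exact box_sub (pH_a2s_a4a hK h1 h2 h) (by norm_num [hbox, CA.cl, b1860_2520_100_960])
  · exact box_sub (pH_a2s_a4z hK h1 h2 h) (by norm_num [hbox, CA.cl, b1860_2520_100_960])
  · exact box_sub (pH_a2s_a4e hK h1 h2 h) (by norm_num [hbox, CA.cl, b1860_2400_100_960])
  · exact box_sub (pH_a2s_a4s hK h1 h2 h) (by norm_num [hbox, CA.cl, b1860_2520_100_960])
  · exact box_sub (pH_a2s_n5 hK h1 h2 h) (by norm_num [hbox, CA.cl, b1860_2520_100_960])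
  · exact box_sub (pH_a2e_a2e hK h1 h2 h) (by norm_num [hbox, CA.cl, b1650_1680_m10_10])
  · exact box_sub (pH_a2e_a4a hK h1 h2 h) (by norm_num [hbox, CA.cl, b1640_1860_880_1150])
  · exact box_sub (pH_a2e_a4z hK h1 h2 h) (by norm_num [hbox, CA.cl, b1640_1860_880_1150])
  · exact box_sub (pH_a2e_a4e hK h1 h2 h) (by norm_num [hbox, CA.cl, b1640_1860_880_1150])
  · exact box_sub (pH_a2e_a4s hK h1 h2 h) (by norm_num [hbox, CA.cl, b1640_1860_880_1150])
  · exact box_sub (pH_a2e_n5 hK h1 h2 h) (by norm_num [hbox, CA.cl, b1640_1860_880_1310])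
  · exact box_sub (pH_a4a_a4a hK h1 h2 h) (by norm_num [hbox, CA.cl, b1820_2520_m250_250])
  · exact box_sub (pH_a4a_a4z hK h1 h2 h) (by norm_num [hbox, CA.cl, b1820_2520_m250_250])
  · exact box_sub (pH_a4a_a4e hK h1 h2 h) (by norm_num [hbox, CA.cl, b1820_2520_m250_250])
  · exact box_sub (pH_a4a_a4s hK h1 h2 h) (by norm_num [hbox, CA.cl, b1820_2520_m250_250])
  · exact box_sub (pH_a4a_n5 hK h1 h2 h) (by norm_num [hbox, CA.cl, b1820_2520_m250_385])
  · exact box_sub (pH_a4z_a4z hK h1 h2 h) (by norm_num [hbox, CA.cl, b1820_2520_m250_250])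
  · exact box_sub (pH_a4z_a4e hK h1 h2 h) (by norm_num [hbox, CA.cl, b1820_2520_m250_250])
  · exact box_sub (pH_a4z_a4s hK h1 h2 h) (by norm_num [hbox, CA.cl, b1820_2520_m250_250])
  · exact box_sub (pH_a4z_n5 hK h1 h2 h) (by norm_num [hbox, CA.cl, b1820_2520_m250_385])
  · exact box_sub (pH_a4e_a4e hK h1 h2 h) (by norm_num [hbox, CA.cl, b1820_2520_m250_250])
  · exact box_sub (pH_a4e_a4s hK h1 h2 h) (by norm_num [hbox, CA.cl, b1820_2520_m250_250])
  · exact box_sub (pH_a4e_n5 hK h1 h2 h) (by norm_num [hbox, CA.cl, b1820_2520_m250_385])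
  · exact box_sub (pH_a4s_a4s hK h1 h2 h) (by norm_num [hbox, CA.cl, b1820_2520_m250_250])
  · exact box_sub (pH_a4s_n5 hK h1 h2 h) (by norm_num [hbox, CA.cl, b1820_2520_m250_385])
  · exact box_sub (pH_n5_n5 hK h1 h2 h) (by norm_num [hbox, CA.cl, b1820_2520_m385_385])

/-- **The hinges between opposite signs are in their boxes.** -/
theorem un_a {K : KFam} {d : ℕ} {l : SK} {d' : ℕ} {l' : SK} {R k k' : ℂ} (hK : KOK K)
    (h : HDt K .a d l d' l' R k k') : (hbox (cK d l) (cK d' l') false).In (acot2 R) := by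
  obtain ⟨c, h1⟩ := CA.has_of h.ok.left
  obtain ⟨c', h2⟩ := CA.has_of h.ok.right.symm
  rw [CA.cl_eq h1, CA.cl_eq h2]
  rcases le_total c.ix c'.ix with hc | hc
  · exact un_ord hc hK h1 h2 h
  · have h3 := un_ord hc hK h2 h1 h.rev
    rw [show fz SK.a.sgn R = conj R from fz_neg R, acot2_conj, hbox_swap, Box.in_neg] at h3
    exact h3

/-- the inner variable of an interior digit `3` next to such a hinge -/
theorem near_mid {K : KFam} {l : SK} {d' : ℕ} {l' : SK} {R k k' : ℂ} (hK : KOK K)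
    (h : HDt K .a 3 l d' l' R k k') (hl : l ≠ .e) : b3265_5120_m1600_150.box.In (acot2 (Sp R k)) := by
  obtain ⟨c', h2⟩ := CA.has_of h.ok.right.symm
  cases l
  · exact absurd rfl hl
  · have h1 : CA.a3a.Has 3 .a := ⟨rfl, rfl⟩
    cases c' 
    · exact pS_a3a_a3a hK h1 h2 h
    · exact pS_a3a_a3s hK h1 h2 h
    · exact pS_a3a_a3e hK h1 h2 h
    · exact pS_a3a_a1s hK h1 h2 h
    · exact pS_a3a_a2a hK h1 h2 h
    · exact pS_a3a_a2s hK h1 h2 h
    · exact pS_a3a_a2e hK h1 h2 h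
    · exact pS_a3a_a4a hK h1 h2 h
    · exact pS_a3a_a4z hK h1 h2 h
    · exact pS_a3a_a4e hK h1 h2 h
    · exact pS_a3a_a4s hK h1 h2 h
    · exact pS_a3a_n5 hK h1 h2 h
  · exact absurd (h.ok.left.zl rfl) (by decide)
  · have h1 : CA.a3s.Has 3 .s := ⟨rfl, rfl⟩
    cases c' 
    · exact pS_a3s_a3a hK h1 h2 h
    · exact pS_a3s_a3s hK h1 h2 h
    · exact pS_a3s_a3e hK h1 h2 h
    · exact pS_a3s_a1s hK h1 h2 h
    · exact pS_a3s_a2a hK h1 h2 h
    · exact pS_a3s_a2s hK h1 h2 h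
    · exact pS_a3s_a2e hK h1 h2 h
    · exact pS_a3s_a4a hK h1 h2 h
    · exact pS_a3s_a4z hK h1 h2 h
    · exact pS_a3s_a4e hK h1 h2 h
    · exact pS_a3s_a4s hK h1 h2 h
    · exact pS_a3s_n5 hK h1 h2 h

/-- the inner variable of a digit `3` at an end -/
theorem near_midE {K : KFam} {d' : ℕ} {l' : SK} {R k k' : ℂ} (hK : KOK K)
    (h : HDt K .a 3 .e d' l' R k k') : mboxE.In (acot2 (Sp R k)) := by
  obtain ⟨c', h2⟩ := CA.has_of h.ok.right.symm
  have h1 : CA.a3e.Has 3 .e := ⟨rfl, rfl⟩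
  cases c' 
  · exact box_sub (pS_a3e_a3a hK h1 h2 h) (by norm_num [mboxE, b3010_4215_m450_590])
  · exact box_sub (pS_a3e_a3s hK h1 h2 h) (by norm_num [mboxE, b3010_4215_m450_590])
  · exact box_sub (pS_a3e_a3e hK h1 h2 h) (by norm_num [mboxE, b3010_4215_m450_590])
  · exact box_sub (pS_a3e_a1s hK h1 h2 h) (by norm_num [mboxE, b3010_4215_m450_590])
  · exact box_sub (pS_a3e_a2a hK h1 h2 h) (by norm_num [mboxE, b3010_4215_m450_590])
  · exact box_sub (pS_a3e_a2s hK h1 h2 h) (by norm_num [mboxE, b3010_4215_m450_590])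
  · exact box_sub (pS_a3e_a2e hK h1 h2 h) (by norm_num [mboxE, b3010_4215_m450_590])
  · exact box_sub (pS_a3e_a4a hK h1 h2 h) (by norm_num [mboxE, b3010_4215_m450_590])
  · exact box_sub (pS_a3e_a4z hK h1 h2 h) (by norm_num [mboxE, b3010_4215_m450_590])
  · exact box_sub (pS_a3e_a4e hK h1 h2 h) (by norm_num [mboxE, b3010_4215_m450_590])
  · exact box_sub (pS_a3e_a4s hK h1 h2 h) (by norm_num [mboxE, b3010_4215_m450_590])
  · exact box_sub (pS_a3e_n5 hK h1 h2 h) (by norm_num [mboxE, b3010_4215_m450_590])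

/-! ### sharper facts -/

section
variable {K : KFam} (hK : KOK K) {l : SK} {d' : ℕ} {l' : SK} {R k k' : ℂ}
include hK

lemma has1 (h : ROK 1 l .a) : CA.a1s.Has 1 l := by
  obtain ⟨h7 | h7, -⟩ := h.one rfl
  · exact ⟨rfl, h7⟩
  · exact absurd h7 (by decide)

lemma acot2_a : acot2 (fz SK.a.sgn R) = conj (acot2 R) := by
  rw [show fz SK.a.sgn R = conj R from fz_neg R, acot2_conj]

theorem y41 (h : HDt K .a 4 l 1 l' R k k') :
    (acot2 R).re ≤ 268 / 1000 ∧ -(acot2 R).im ≤ 128 / 1000 ∧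
      (l = .e → (acot2 R).re ≤ 247 / 1000) := by
  have h1 := has1 hK h.ok.right.symm
  have hr := h.rev
  have e := acot2_a hK (R := R)
  have e1 : (acot2 (fz SK.a.sgn R)).re = (acot2 R).re := by rw [e, Complex.conj_re]
  have e2 : (acot2 (fz SK.a.sgn R)).im = -(acot2 R).im := by rw [e, Complex.conj_im]
  cases l
  · have h2 := pH_a1s_a4e hK h1 ⟨rfl, rfl⟩ hr
    have a1 := h2.2.1
    have a2 := h2.2.2.2
    rw [e1] at a1
    rw [e2] at a2
    norm_num [BB.box, b2140_2470_380_1280] at a1 a2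
    exact ⟨by linarith only [a1], by linarith only [a2], fun _ => by linarith only [a1]⟩

  · have h2 := pH_a1s_a4a hK h1 ⟨rfl, rfl⟩ hr
    have a1 := h2.2.1
    have a2 := h2.2.2.2
    rw [e1] at a1
    rw [e2] at a2
    norm_num [BB.box, b2140_2680_380_1280] at a1 a2
    exact ⟨by linarith only [a1], by linarith only [a2], fun h => absurd h (by decide)⟩
  · have h2 := pH_a1s_a4z hK h1 ⟨rfl, rfl⟩ hr
    have a1 := h2.2.1
    have a2 := h2.2.2.2
    rw [e1] at a1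
    rw [e2] at a2
    norm_num [BB.box, b2140_2680_380_1280] at a1 a2
    exact ⟨by linarith only [a1], by linarith only [a2], fun h => absurd h (by decide)⟩
  · have h2 := pH_a1s_a4s hK h1 ⟨rfl, rfl⟩ hr
    have a1 := h2.2.1
    have a2 := h2.2.2.2
    rw [e1] at a1
    rw [e2] at a2
    norm_num [BB.box, b2140_2680_380_1280] at a1 a2
    exact ⟨by linarith only [a1], by linarith only [a2], fun h => absurd h (by decide)⟩

theorem y42e (h : HDt K .a 4 .e 2 l' R k k') (hl : l' ≠ .e) : (acot2 R).re ≤ 24 / 100 := by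
  have hr := h.rev
  have e1 : (acot2 (fz SK.a.sgn R)).re = (acot2 R).re := by rw [acot2_a hK, Complex.conj_re]
  cases l'
  · exact absurd rfl hl
  · have a1 := (pH_a2a_a4e hK ⟨rfl, rfl⟩ ⟨rfl, rfl⟩ hr).2.1
    rw [e1] at a1
    norm_num [BB.box, b1860_2400_100_960] at a1
    linarith only [a1]
  · exact absurd (h.ok.right.zr rfl) (by decide)
  · have a1 := (pH_a2s_a4e hK ⟨rfl, rfl⟩ ⟨rfl, rfl⟩ hr).2.1
    rw [e1] at a1
    norm_num [BB.box, b1860_2400_100_960] at a1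
    linarith only [a1]

theorem one5a {d : ℕ} (hd : 5 ≤ d) (h : HDt K .a d l 1 l' R k k') :
    -(acot2 R).im ≤ 138 / 1000 := by
  have h1 := has1 hK h.ok.right.symm
  have e2 : (acot2 (fz SK.a.sgn R)).im = -(acot2 R).im := by rw [acot2_a hK, Complex.conj_im]
  have a2 := (pH_a1s_n5 hK h1 (show CA.n5.Has d l from hd) h.rev).2.2.2
  rw [e2] at a2
  norm_num [BB.box, b2140_2980_380_1380] at a2
  linarith only [a2]

theorem three (h : HDt K .a 3 l d' l' R k k') (hl : l ≠ .e) (hd : 4 ≤ d') :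
    -(1 / 1000) ≤ (acot2 R).im := by
  obtain ⟨c', h2⟩ := CA.has_of h.ok.right.symm
  have key : b1880_2340_m10_570.box.In (acot2 R) := by
    cases l
    · exact absurd rfl hl
    · have h1 : CA.a3a.Has 3 .a := ⟨rfl, rfl⟩
      cases c'

      · exact absurd hd (by have := h2.1; omega)
      · exact absurd hd (by have := h2.1; omega)
      · exact absurd hd (by have := h2.1; omega)
      · exact absurd hd (by have := h2.1; omega)
      · exact absurd hd (by have := h2.1; omega)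
      · exact absurd hd (by have := h2.1; omega)
      · exact absurd hd (by have := h2.1; omega)
      · exact pH_a3a_a4a hK h1 h2 h
      · exact pH_a3a_a4z hK h1 h2 h
      · exact pH_a3a_a4e hK h1 h2 h
      · exact pH_a3a_a4s hK h1 h2 h
      · exact pH_a3a_n5 hK h1 h2 h
    · exact absurd (h.ok.left.zl rfl) (by decide)
    · have h1 : CA.a3s.Has 3 .s := ⟨rfl, rfl⟩
      cases c'

      · exact absurd hd (by have := h2.1; omega)
      · exact absurd hd (by have := h2.1; omega)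
      · exact absurd hd (by have := h2.1; omega)
      · exact absurd hd (by have := h2.1; omega)
      · exact absurd hd (by have := h2.1; omega)
      · exact absurd hd (by have := h2.1; omega)
      · exact absurd hd (by have := h2.1; omega)
      · exact pH_a3s_a4a hK h1 h2 h
      · exact pH_a3s_a4z hK h1 h2 h
      · exact pH_a3s_a4e hK h1 h2 h
      · exact pH_a3s_a4s hK h1 h2 h
      · exact pH_a3s_n5 hK h1 h2 h
  have := key.2.2.1
  norm_num [BB.box, b1880_2340_m10_570] at this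
  linarith only [this]


lemma has4 (l : SK) : ∃ c : CA, c.Has 4 l ∧ (c = .a4a ∨ c = .a4z ∨ c = .a4e ∨ c = .a4s) := by
  cases l
  · exact ⟨.a4e, ⟨rfl, rfl⟩, by simp⟩
  · exact ⟨.a4a, ⟨rfl, rfl⟩, by simp⟩
  · exact ⟨.a4z, ⟨rfl, rfl⟩, by simp⟩
  · exact ⟨.a4s, ⟨rfl, rfl⟩, by simp⟩

theorem lo4 (h : HDt K .a 4 l d' l' R k k') (hd : d' = 2 ∨ d' = 3) :
    -(acot2 R).im ≤ 115 / 1000 := by
  have e2 : (acot2 (fz SK.a.sgn R)).im = -(acot2 R).im := by rw [acot2_a hK, Complex.conj_im]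
  rw [← e2]
  have hr := h.rev
  obtain ⟨c, h1, hc⟩ := has4 hK l
  obtain ⟨c', h2⟩ := CA.has_of h.ok.right.symm
  cases c' 
  · rcases hc with rfl | rfl | rfl | rfl
    · have a2 := (pH_a3a_a4a hK h2 h1 hr).2.2.2
      norm_num [BB.box, b1880_2340_m10_570] at a2
      linarith only [a2]
    · have a2 := (pH_a3a_a4z hK h2 h1 hr).2.2.2
      norm_num [BB.box, b1880_2340_m10_570] at a2
      linarith only [a2]
    · have a2 := (pH_a3a_a4e hK h2 h1 hr).2.2.2
      norm_num [BB.box, b1880_2340_m10_570] at a2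
      linarith only [a2]
    · have a2 := (pH_a3a_a4s hK h2 h1 hr).2.2.2
      norm_num [BB.box, b1880_2340_m10_570] at a2
      linarith only [a2]
  · rcases hc with rfl | rfl | rfl | rfl
    · have a2 := (pH_a3s_a4a hK h2 h1 hr).2.2.2
      norm_num [BB.box, b1880_2340_m10_570] at a2
      linarith only [a2]
    · have a2 := (pH_a3s_a4z hK h2 h1 hr).2.2.2
      norm_num [BB.box, b1880_2340_m10_570] at a2
      linarith only [a2]
    · have a2 := (pH_a3s_a4e hK h2 h1 hr).2.2.2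
      norm_num [BB.box, b1880_2340_m10_570] at a2
      linarith only [a2]
    · have a2 := (pH_a3s_a4s hK h2 h1 hr).2.2.2
      norm_num [BB.box, b1880_2340_m10_570] at a2
      linarith only [a2]
  · rcases hc with rfl | rfl | rfl | rfl
    · have a2 := (pH_a3e_a4a hK h2 h1 hr).2.2.2
      norm_num [BB.box, b1710_1950_180_580] at a2
      linarith only [a2]
    · have a2 := (pH_a3e_a4z hK h2 h1 hr).2.2.2
      norm_num [BB.box, b1710_1950_180_580] at a2
      linarith only [a2]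
    · have a2 := (pH_a3e_a4e hK h2 h1 hr).2.2.2
      norm_num [BB.box, b1710_1950_180_580] at a2
      linarith only [a2]
    · have a2 := (pH_a3e_a4s hK h2 h1 hr).2.2.2
      norm_num [BB.box, b1710_1950_180_580] at a2
      linarith only [a2]
  · have := h2.1
    omega
  · rcases hc with rfl | rfl | rfl | rfl
    · have a2 := (pH_a2a_a4a hK h2 h1 hr).2.2.2
      norm_num [BB.box, b1860_2520_100_960] at a2
      linarith only [a2]
    · have a2 := (pH_a2a_a4z hK h2 h1 hr).2.2.2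
      norm_num [BB.box, b1860_2520_100_960] at a2
      linarith only [a2]
    · have a2 := (pH_a2a_a4e hK h2 h1 hr).2.2.2
      norm_num [BB.box, b1860_2400_100_960] at a2
      linarith only [a2]
    · have a2 := (pH_a2a_a4s hK h2 h1 hr).2.2.2
      norm_num [BB.box, b1860_2520_100_960] at a2
      linarith only [a2]
  · rcases hc with rfl | rfl | rfl | rfl
    · have a2 := (pH_a2s_a4a hK h2 h1 hr).2.2.2
      norm_num [BB.box, b1860_2520_100_960] at a2
      linarith only [a2]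
    · have a2 := (pH_a2s_a4z hK h2 h1 hr).2.2.2
      norm_num [BB.box, b1860_2520_100_960] at a2
      linarith only [a2]
    · have a2 := (pH_a2s_a4e hK h2 h1 hr).2.2.2
      norm_num [BB.box, b1860_2400_100_960] at a2
      linarith only [a2]
    · have a2 := (pH_a2s_a4s hK h2 h1 hr).2.2.2
      norm_num [BB.box, b1860_2520_100_960] at a2
      linarith only [a2]
  · rcases hc with rfl | rfl | rfl | rfl
    · have a2 := (pH_a2e_a4a hK h2 h1 hr).2.2.2
      norm_num [BB.box, b1640_1860_880_1150] at a2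
      linarith only [a2]
    · have a2 := (pH_a2e_a4z hK h2 h1 hr).2.2.2
      norm_num [BB.box, b1640_1860_880_1150] at a2
      linarith only [a2]
    · have a2 := (pH_a2e_a4e hK h2 h1 hr).2.2.2
      norm_num [BB.box, b1640_1860_880_1150] at a2
      linarith only [a2]
    · have a2 := (pH_a2e_a4s hK h2 h1 hr).2.2.2
      norm_num [BB.box, b1640_1860_880_1150] at a2
      linarith only [a2]
  · have := h2.1
    omega
  · have := h2.1
    omega
  · have := h2.1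
    omega
  · have := h2.1
    omega
  · have : 5 ≤ d' := h2
    omega

theorem rr4 (h : HDt K .a 4 l d' l' R k k') (hd : 4 ≤ d') : -(25 / 1000) ≤ (acot2 R).im := by
  have e2 : (acot2 (fz SK.a.sgn R)).im = -(acot2 R).im := by rw [acot2_a hK, Complex.conj_im]
  have hr := h.rev
  obtain ⟨c, h1, hc⟩ := has4 hK l
  obtain ⟨c', h2⟩ := CA.has_of h.ok.right.symm
  cases c' 
  · have := h2.1
    omega
  · have := h2.1
    omega
  · have := h2.1
    omega
  · have := h2.1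
    omega
  · have := h2.1
    omega
  · have := h2.1
    omega
  · have := h2.1
    omega
  · rcases hc with rfl | rfl | rfl | rfl
    · have a2 := (pH_a4a_a4a hK h1 h2 h).2.2.1
      norm_num [BB.box, b1820_2520_m250_250] at a2
      linarith only [a2]
    · have a2 := (pH_a4a_a4z hK h2 h1 hr).2.2.2
      rw [e2] at a2
      norm_num [BB.box, b1820_2520_m250_250] at a2
      linarith only [a2]
    · have a2 := (pH_a4a_a4e hK h2 h1 hr).2.2.2
      rw [e2] at a2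
      norm_num [BB.box, b1820_2520_m250_250] at a2
      linarith only [a2]
    · have a2 := (pH_a4a_a4s hK h2 h1 hr).2.2.2
      rw [e2] at a2
      norm_num [BB.box, b1820_2520_m250_250] at a2
      linarith only [a2]
  · rcases hc with rfl | rfl | rfl | rfl
    · have a2 := (pH_a4a_a4z hK h1 h2 h).2.2.1
      norm_num [BB.box, b1820_2520_m250_250] at a2
      linarith only [a2]
    · have a2 := (pH_a4z_a4z hK h1 h2 h).2.2.1
      norm_num [BB.box, b1820_2520_m250_250] at a2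
      linarith only [a2]
    · have a2 := (pH_a4z_a4e hK h2 h1 hr).2.2.2
      rw [e2] at a2
      norm_num [BB.box, b1820_2520_m250_250] at a2
      linarith only [a2]
    · have a2 := (pH_a4z_a4s hK h2 h1 hr).2.2.2
      rw [e2] at a2
      norm_num [BB.box, b1820_2520_m250_250] at a2
      linarith only [a2]
  · rcases hc with rfl | rfl | rfl | rfl
    · have a2 := (pH_a4a_a4e hK h1 h2 h).2.2.1
      norm_num [BB.box, b1820_2520_m250_250] at a2
      linarith only [a2]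
    · have a2 := (pH_a4z_a4e hK h1 h2 h).2.2.1
      norm_num [BB.box, b1820_2520_m250_250] at a2
      linarith only [a2]
    · have a2 := (pH_a4e_a4e hK h1 h2 h).2.2.1
      norm_num [BB.box, b1820_2520_m250_250] at a2
      linarith only [a2]
    · have a2 := (pH_a4e_a4s hK h2 h1 hr).2.2.2
      rw [e2] at a2
      norm_num [BB.box, b1820_2520_m250_250] at a2
      linarith only [a2]
  · rcases hc with rfl | rfl | rfl | rfl
    · have a2 := (pH_a4a_a4s hK h1 h2 h).2.2.1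
      norm_num [BB.box, b1820_2520_m250_250] at a2
      linarith only [a2]
    · have a2 := (pH_a4z_a4s hK h1 h2 h).2.2.1
      norm_num [BB.box, b1820_2520_m250_250] at a2
      linarith only [a2]
    · have a2 := (pH_a4e_a4s hK h1 h2 h).2.2.1
      norm_num [BB.box, b1820_2520_m250_250] at a2
      linarith only [a2]
    · have a2 := (pH_a4s_a4s hK h1 h2 h).2.2.1
      norm_num [BB.box, b1820_2520_m250_250] at a2
      linarith only [a2]
  · rcases hc with rfl | rfl | rfl | rfl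
    · have a2 := (pH_a4a_n5 hK h1 h2 h).2.2.1
      norm_num [BB.box, b1820_2520_m250_385] at a2
      linarith only [a2]
    · have a2 := (pH_a4z_n5 hK h1 h2 h).2.2.1
      norm_num [BB.box, b1820_2520_m250_385] at a2
      linarith only [a2]
    · have a2 := (pH_a4e_n5 hK h1 h2 h).2.2.1
      norm_num [BB.box, b1820_2520_m250_385] at a2
      linarith only [a2]
    · have a2 := (pH_a4s_n5 hK h1 h2 h).2.2.1
      norm_num [BB.box, b1820_2520_m250_385] at a2
      linarith only [a2]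

end

end Pool.Agent.Work.MP_b30479_gt.G2.CN
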