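import Pool.Agent.Work.MP_b30479_gt.G2.CN.Sem
import Pool.Agent.Work.MP_b30479_gt.TB.Plat
import Pool.Agent.Work.MP_b30479_gt.VC.AbelPlana

/-!
# Expressions of a hinge

Variables `R` (hinge) and `q = 1 / k²` (own value of the first ring); `q' = R² + 1 - q`.
`gl`, `gr`: own values of the two rings; `gA B`, `gD s B`: outer values of the first and the second
ring with `B` crossings; `s`: the second ring has the opposite sign.
All expressions are evaluated by explicit formulas for their first order forms.
-/

namespace Pool.Agent.Work.MP_b30479_gt.G2.CN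

open Complex

noncomputable section

/-! ### tools -/

lemma tcm (a b : ℤ) : tc ⟨a, b⟩ = (a : ℂ) + (b : ℂ) * I := GaussianInt.toComplex_def _

/-- constants -/
lemma RBc {n : ℕ} {a b : ℤ} {B : ℕ} (h : n = ge a.toNat (-a).toNat b.toNat (-b).toNat)
    (hB : |(a : ℝ)| + |(b : ℝ)| ≤ (B : ℝ)) : RB n ⟨a, b⟩ B := by
  constructor
  · have h1 := Rep_ge a.toNat (-a).toNat b.toNat (-b).toNat
    rw [← h] at h1
    have e : gi a.toNat (-a).toNat b.toNat (-b).toNat = ⟨a, b⟩ := by
      unfold gi
      apply Zsqrtd.ext
      · simp only; omega
      · simp only; omega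
    rwa [e] at h1
  · refine (Complex.norm_le_abs_re_add_abs_im _).trans ?_
    rw [tc_re, tc_im]
    exact hB

/-- a bound of an absolute value -/
def NB (z : ℂ) (n : ℕ) : Prop := ‖z‖ ≤ (n : ℝ)

namespace NB

variable {z w : ℂ} {n m : ℕ}

lemma add (h : NB z n) (h' : NB w m) : NB (z + w) (Nat.add n m) := by
  unfold NB at *
  change _ ≤ ((n + m : ℕ) : ℝ)
  push_cast
  exact (norm_add_le _ _).trans (add_le_add h h')

lemma sub (h : NB z n) (h' : NB w m) : NB (z - w) (Nat.add n m) := by
  unfold NB at *
  change _ ≤ ((n + m : ℕ) : ℝ)
  push_cast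
  exact (norm_sub_le _ _).trans (add_le_add h h')

lemma mul (h : NB z n) (h' : NB w m) : NB (z * w) (Nat.mul n m) := by
  unfold NB at *
  change _ ≤ ((n * m : ℕ) : ℝ)
  rw [norm_mul]
  push_cast
  exact mul_le_mul h h' (norm_nonneg _) (Nat.cast_nonneg _)

lemma pow (h : NB z n) (k : ℕ) : NB (z ^ k) (Nat.pow n k) := by
  unfold NB at *
  change _ ≤ ((n ^ k : ℕ) : ℝ)
  rw [norm_pow]
  push_cast
  exact pow_le_pow_left₀ (norm_nonneg _) h k

lemma nat (n : ℕ) : NB (n : ℂ) n := by
  unfold NB
  simp

lemma neg (h : NB z n) : NB (-z) n := by
  unfold NB at *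
  rwa [norm_neg]

lemma I1 : NB I (nat_lit 1) := by
  unfold NB
  rw [Complex.norm_I]
  exact_mod_cast le_rfl

lemma eq (h : NB z n) {w : ℂ} (e : w = z) : NB w n := e ▸ h

end NB

lemma NB_ofNat (k : ℕ) [k.AtLeastTwo] : NB (OfNat.ofNat k : ℂ) k := by
  unfold NB
  rw [Complex.norm_ofNat]
  exact le_of_eq rfl

lemma lin_NB {P R : ℂ} {a b ρ σ : ℕ} (hP : NB P a) (hR : NB R b) :
    ‖P‖ * ρ + ‖R‖ * σ ≤ ((Nat.add (Nat.mul a ρ) (Nat.mul b σ) : ℕ) : ℝ) := by
  change _ ≤ ((a * ρ + b * σ : ℕ) : ℝ)
  push_cast
  exact add_le_add (mul_le_mul_of_nonneg_right hP (Nat.cast_nonneg _))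
    (mul_le_mul_of_nonneg_right hR (Nat.cast_nonneg _))

variable {δ ε x y : ℂ} {A B : G} {b b' : ℕ}

/-- the general way to a form, with own bounds -/
lemma Enc.mkm {E : Env} {C P R : GaussianInt} {c p r m l e b1 b2 b3 : ℕ} {t : ℂ} (hc : RB c C b1) (hp : RB p P b2)
    (hr : RB r R b3) (h1 : b1 ≤ b) (h2 : b2 ≤ b) (h3 : b3 ≤ b) (hm : NB (tc C) m)
    (hl : ‖tc P‖ * E.ρ + ‖tc R‖ * E.σ ≤ l)
    (hx : x = tc C + tc P * δ + tc R * ε + t) (ht : NB t e) : Enc E δ ε b ⟨c, p, r, m, l, e⟩ x := by
  refine ⟨C, P, R, hc.mono h1, hp.mono h2, hr.mono h3, hm, hl, ?_⟩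
  have e0 : x - (tc C + tc P * δ + tc R * ε) = t := by rw [hx]; ring
  rw [e0]
  exact ht

lemma sub_le_cast (a b : ℕ) : (a : ℝ) - b ≤ ((Nat.sub a b : ℕ) : ℝ) := by
  have h6 : a ≤ Nat.sub a b + b := le_tsub_add
  have h7 : (a : ℝ) ≤ ((Nat.sub a b : ℕ) : ℝ) + b := by exact_mod_cast h6
  linarith

lemma norm_succ (n : ℕ) : ‖((n : ℂ) + 1)‖ = (n : ℝ) + 1 := by
  have : ((n : ℂ) + 1) = ((n + 1 : ℕ) : ℂ) := by push_cast; rfl
  rw [this, Complex.norm_natCast]
  push_cast
  rfl

lemma D_c : ((D : ℝ) : ℂ) = 16384 := by unfold D; norm_num

/-- the sum of three bounds -/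
def mx3 (b1 b2 b3 : ℕ) : ℕ := Nat.add (Nat.add b1 b2) b3

lemma mx3_1 (b1 b2 b3 : ℕ) : b1 ≤ mx3 b1 b2 b3 := by change b1 ≤ b1 + b2 + b3; omega
lemma mx3_2 (b1 b2 b3 : ℕ) : b2 ≤ mx3 b1 b2 b3 := by change b2 ≤ b1 + b2 + b3; omega
lemma mx3_3 (b1 b2 b3 : ℕ) : b3 ≤ mx3 b1 b2 b3 := by change b3 ≤ b1 + b2 + b3; omega

/-- the remainder of a power -/
lemma pow_rem {a z : ℂ} {u g : ℝ} (ha : ‖a‖ ≤ u) (hz : ‖z‖ ≤ g) (n : ℕ) :
    ‖(a + z) ^ (n + 1) - a ^ (n + 1) - (n + 1) * a ^ n * z‖ ≤
      (u + g) ^ (n + 1) - u ^ (n + 1) - (n + 1) * u ^ n * g := by
  have hu : 0 ≤ u := (norm_nonneg _).trans ha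
  have hg : 0 ≤ g := (norm_nonneg _).trans hz
  induction n with
  | zero => simp
  | succ n ih =>
    have e1 : (a + z) ^ (n + 1 + 1) - a ^ (n + 1 + 1) - ((n + 1 : ℕ) + 1) * a ^ (n + 1) * z =
        (a + z) * ((a + z) ^ (n + 1) - a ^ (n + 1) - (n + 1) * a ^ n * z) + (n + 1) * a ^ n * z ^ 2 := by
      push_cast
      ring
    have e2 : (u + g) ^ (n + 1 + 1) - u ^ (n + 1 + 1) - ((n + 1 : ℕ) + 1) * u ^ (n + 1) * g =
        (u + g) * ((u + g) ^ (n + 1) - u ^ (n + 1) - (n + 1) * u ^ n * g) + (n + 1) * u ^ n * g ^ 2 := by
      push_cast
      ring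
    rw [e1, e2]
    refine (norm_add_le _ _).trans (add_le_add ?_ ?_)
    · rw [norm_mul]
      exact mul_le_mul ((norm_add_le _ _).trans (add_le_add ha hz)) ih (norm_nonneg _) (by linarith)
    · rw [norm_mul, norm_mul, norm_pow, norm_pow]
      have e3 : ‖((n : ℂ) + 1)‖ = (n : ℝ) + 1 := by
        have : ((n : ℂ) + 1) = ((n + 1 : ℕ) : ℂ) := by push_cast; rfl
        rw [this, Complex.norm_natCast]
        push_cast
        rfl
      rw [e3]
      have p1 := pow_le_pow_left₀ (norm_nonneg a) ha n
      have p2 := pow_le_pow_left₀ (norm_nonneg z) hz 2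
      gcongr

/-! ### the expressions -/

/-- `D² q'` -/
def sEq (x y : ℕ) : ℕ :=
  Nat.mod (Nat.add (Nat.add (Nat.mul x x) (nat_lit 268435456)) (Nat.mul (nat_lit 179769313486231590772930519078902473361797697894230657273430081157732675805500963132708477322407536021120113879871393357658789768814416622492847430639474124377767893424865485276302219601246094119453082952085005768838150682342462881473913110540827237163350510684586298239947245938479716304835356329624224120833) y)) (nat_lit 179769313486231590772930519078902473361797697894230657273430081157732675805500963132708477322407536021120113879871393357658789768814416622492847430639474124377767893424865485276302219601246094119453082952085005768838150682342462881473913110540827237163350510684586298239947245938479716304835356329624224137217)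
/-- the linear part of `D² q'` -/
def lSq (mx ρ σ : ℕ) : ℕ := Nat.add (Nat.mul (Nat.mul (nat_lit 2) mx) ρ) (Nat.mul (nat_lit 16384) σ)
/-- the linear and the quadratic part -/
def tSq (mx ρ σ : ℕ) : ℕ := Nat.add (lSq mx ρ σ) (Nat.mul ρ ρ)

/-- the bound of `D² q'` -/
def bSq : ℕ := Nat.add (Nat.add (Nat.mul (nat_lit 262144) (nat_lit 262144)) (nat_lit 268435456))
  (Nat.mul (nat_lit 16384) (nat_lit 262144))

/-- `D² q'` at the centre -/
def sGq (X Y : GaussianInt) : GaussianInt := X * X + ⟨268435456, 0⟩ + ⟨-16384, 0⟩ * Y

lemma RB_sq {n m : ℕ} {X Y : GaussianInt} (hX : RB n X (nat_lit 262144)) (hY : RB m Y (nat_lit 262144)) :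
    RB (sEq n m) (sGq X Y) bSq := (((hX.mul hX).add (RBc (a := 268435456) (b := 0) (B := nat_lit 268435456) (n := nat_lit 268435456) rfl (by norm_num))).add ((RBc (a := -16384) (b := 0) (B := nat_lit 16384) (n := nat_lit 179769313486231590772930519078902473361797697894230657273430081157732675805500963132708477322407536021120113879871393357658789768814416622492847430639474124377767893424865485276302219601246094119453082952085005768838150682342462881473913110540827237163350510684586298239947245938479716304835356329624224120833) rfl (by norm_num)).mul hY)).mod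

lemma tc_sq (X Y : GaussianInt) : tc (sGq X Y) = tc X ^ 2 + 16384 ^ 2 - 16384 * tc Y := by
  unfold sGq
  rw [map_add, map_add, map_mul, map_mul, tcm 268435456 0, tcm (-16384) 0]
  push_cast
  ring

/-- the deviation of `D² q'` -/
def dSq (X δ ε : ℂ) : ℂ := 2 * X * δ - 16384 * ε + δ ^ 2

lemma NB_lSq {X δ ε : ℂ} {mx ρ σ : ℕ} (hX : NB X mx) (hδ : NB δ ρ) (hε : NB ε σ) :
    NB (2 * X * δ - 16384 * ε) (lSq mx ρ σ) :=
  (((NB_ofNat 2).mul hX).mul hδ).sub ((NB_ofNat 16384).mul hε)

lemma NB_tSq {X δ ε : ℂ} {mx ρ σ : ℕ} (hX : NB X mx) (hδ : NB δ ρ) (hε : NB ε σ) :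
    NB (dSq X δ ε) (tSq mx ρ σ) :=
  (NB_lSq hX hδ hε).add ((hδ.mul hδ).eq (by ring))

lemma gz_c1 : gz 1 0 0 0 = 1 := by unfold gz; apply Complex.ext <;> simp

lemma gz_cI : gz 0 0 1 0 = I := by unfold gz; apply Complex.ext <;> simp

namespace Ev

/-- the constant `1` -/
def one : Ev where
  s := 0
  d := 0
  b := nat_lit 1
  g := true
  ty := 1
  f := fun _ => ⟨nat_lit 1, nat_lit 0, nat_lit 0, nat_lit 1, nat_lit 0, nat_lit 0⟩
  val := fun _ _ => gz 1 0 0 0
  kd := Kd1 fun _ _ => gz_c1
  ok := fun _ E X Y δ ε u w _ _ _ _ => by
    refine ⟨1, 0, 0, RB.one (by decide), RB.zero _, RB.zero _, ?_, ?_, ?_⟩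
    · rw [map_one, norm_one]
      simp
    · rw [map_zero]
      simp
    · rw [pow_zero, map_one, map_zero, gz_c1]
      simp

def q2f (x mx ρ σ s : ℕ) : G :=
  ⟨s, Nat.mul (nat_lit 2) x, nat_lit 179769313486231590772930519078902473361797697894230657273430081157732675805500963132708477322407536021120113879871393357658789768814416622492847430639474124377767893424865485276302219601246094119453082952085005768838150682342462881473913110540827237163350510684586298239947245938479716304835356329624224120833, nrmE s, lSq mx ρ σ, Nat.mul ρ ρ⟩

/-- `q' = R² + 1 - q` -/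
def q2 : Ev where
  s := 0
  d := 2
  b := mx3 bSq (Nat.mul (nat_lit 2) (nat_lit 262144)) (nat_lit 16384)
  g := true
  ty := 0
  f := fun E => @Env.rec (fun _ => G) (fun x y mx _ _ _ _ _ ρ σ => q2f x mx ρ σ (sEq x y)) E
  val := fun u w => u ^ 2 + 1 - w
  kd := Kd0 _
  ok := fun _ E X Y δ ε u w hE ho hu hw => by
    obtain ⟨x, y, mx, my, a, b, c, d, ρ, σ⟩ := E
    obtain ⟨hx, hy, hmx, hmy⟩ := hE
    obtain ⟨_, _, _, _, hρ, hσ⟩ := ho
    have hs := RB_sq hx hy
    have hn : NB (tc (sGq X Y)) (nrmE (sEq x y)) := hs.nrm (by decide)
    have h2 : RB (Nat.mul (nat_lit 2) x) (2 * X) (Nat.mul (nat_lit 2) (nat_lit 262144)) := RB_two.mul hx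
    refine Enc.mkm (t := δ ^ 2) hs h2 (RBc (a := -16384) (b := 0) (B := nat_lit 16384) (n := nat_lit 179769313486231590772930519078902473361797697894230657273430081157732675805500963132708477322407536021120113879871393357658789768814416622492847430639474124377767893424865485276302219601246094119453082952085005768838150682342462881473913110540827237163350510684586298239947245938479716304835356329624224120833) rfl (by norm_num)) (mx3_1 _ _ _) (mx3_2 _ _ _) (mx3_3 _ _ _) hn ?_ ?_ ?_
    · refine lin_NB ?_ ?_
      · rw [map_mul, map_ofNat]
        exact (NB_ofNat 2).mul hmx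
      · exact (RBc (a := -16384) (b := 0) (B := nat_lit 16384) (n := nat_lit 179769313486231590772930519078902473361797697894230657273430081157732675805500963132708477322407536021120113879871393357658789768814416622492847430639474124377767893424865485276302219601246094119453082952085005768838150682342462881473913110540827237163350510684586298239947245938479716304835356329624224120833) rfl (by norm_num)).le
    · have e : (D : ℂ) ^ 2 * (u ^ 2 + 1 - w) = (D * u) ^ 2 + (D : ℂ) ^ 2 - D * (D * w) := by ring
      rw [e, hu, hw, D_c, tc_sq, map_mul, map_ofNat, tcm (-16384) 0]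
      push_cast
      ring
    · exact (NB.mul hρ hρ).eq (by ring)

/-! #### first ring -/

def dl2f (ρ σ c : ℕ) : G :=
  ⟨c, nat_lit 26815615859885194199148049996411692254958731641184786755447122887443528060147093953603748596333806855380063716372972101707507765623893139892867298012168192, nat_lit 1, nrmE c, Nat.add (Nat.mul (nat_lit 2) ρ) (Nat.mul (nat_lit 1) σ), nat_lit 0⟩

/-- `DB I 2 R q / 2` -/
def dl2 : Ev where
  s := 0
  d := 1
  b := mx3 (mx3 (nat_lit 262144) (nat_lit 32768) (Nat.mul (nat_lit 2) (nat_lit 262144))) (nat_lit 2) (nat_lit 1)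
  g := true
  ty := 0
  f := fun E => @Env.rec (fun _ => G) (fun x y _ _ _ _ _ _ ρ σ =>
    dl2f ρ σ (Nat.add (Nat.add y (nat_lit 179769313486231590772930519078902473361797697894230657273430081157732675805500963132708477322407536021120113879871393357658789768814416622492847430639474124377767893424865485276302219601246094119453082952085005768838150682342462881473913110540827237163350510684586298239947245938479716304835356329624224104449)) (Nat.mul (nat_lit 26815615859885194199148049996411692254958731641184786755447122887443528060147093953603748596333806855380063716372972101707507765623893139892867298012168192) x))) E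
  val := fun u w => w - 2 + 2 * I * u
  kd := Kd0 _
  ok := fun _ E X Y δ ε u w hE ho hu hw => by
    obtain ⟨x, y, mx, my, a, b, c, d, ρ, σ⟩ := E
    obtain ⟨hx, hy, hmx, hmy⟩ := hE
    obtain ⟨_, _, _, _, hρ, hσ⟩ := ho
    have hc := (hy.add (RBc (a := -32768) (b := 0) (B := nat_lit 32768) (n := nat_lit 179769313486231590772930519078902473361797697894230657273430081157732675805500963132708477322407536021120113879871393357658789768814416622492847430639474124377767893424865485276302219601246094119453082952085005768838150682342462881473913110540827237163350510684586298239947245938479716304835356329624224104449) rfl (by norm_num))).add ((RBc (a := 0) (b := 2) (B := nat_lit 2) (n := nat_lit 26815615859885194199148049996411692254958731641184786755447122887443528060147093953603748596333806855380063716372972101707507765623893139892867298012168192) rfl (by norm_num)).mul hx)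
    have hn := hc.nrm (by decide)
    refine Enc.mkm (t := 0) hc (RBc (a := 0) (b := 2) (B := nat_lit 2) (n := nat_lit 26815615859885194199148049996411692254958731641184786755447122887443528060147093953603748596333806855380063716372972101707507765623893139892867298012168192) rfl (by norm_num)) (RB.one (b := 1) le_rfl) (mx3_1 _ _ _) (mx3_2 _ _ _) (mx3_3 _ _ _) hn ?_ ?_ ?_
    · refine lin_NB (RBc (a := 0) (b := 2) (B := nat_lit 2) (n := nat_lit 26815615859885194199148049996411692254958731641184786755447122887443528060147093953603748596333806855380063716372972101707507765623893139892867298012168192) rfl (by norm_num)).le ?_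
      rw [map_one]
      unfold NB
      rw [norm_one]
      exact_mod_cast le_rfl
    · have e : (D : ℂ) ^ 1 * (w - 2 + 2 * I * u) = D * w - 2 * D + 2 * I * (D * u) := by ring
      rw [e, hu, hw, D_c]
      simp only [map_add, map_mul, map_one, tcm]
      push_cast
      ring
    · unfold NB
      rw [norm_zero]
      exact Nat.cast_nonneg _

def dl3f (ρ σ c p r : ℕ) : G :=
  ⟨c, p, r, nrmE c, Nat.add (Nat.mul (nrmE p) ρ) (Nat.mul (nrmE r) σ), Nat.mul ρ σ⟩

def dl3c (x y r : ℕ) : ℕ :=
  Nat.mod (Nat.add (Nat.add (Nat.mul y r) (Nat.mul (nat_lit 878694100496718043517683302282418331810487718418343092402491322775749527474899974671687634004666183037093927858109549828751614463963730408009475621262727315456) x)) (nat_lit 179769313486231590772930519078902473361797697894230657273430081157732675805500963132708477322407536021120113879871393357658789768814416622492847430639474124377767893424865485276302219601246094119453082952085005768838150682342462881473913110540827237163350510684586298239947245938479716304835356329623150395393)) (nat_lit 179769313486231590772930519078902473361797697894230657273430081157732675805500963132708477322407536021120113879871393357658789768814416622492847430639474124377767893424865485276302219601246094119453082952085005768838150682342462881473913110540827237163350510684586298239947245938479716304835356329624224137217)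

def dl3g (x y ρ σ r : ℕ) : G :=
  dl3f ρ σ (dl3c x y r) (Nat.add (nat_lit 878694100496718043517683302282418331810487718418343092402491322775749527474899974671687634004666183037093927858109549828751614463963730408009475621262727315456) (Nat.mul (nat_lit 179769313486231590772930519078902473361797697894230657273430081157732675805500963132708477322407536021120113879871393357658789768814416622492847430639474110969959963482268385702277221395399966640087262359691628045276706960578432807926936308666529070259922820652728111753896392184596904358265409895975218053121) y)) r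

/-- `DB I 3 R q / 2` -/
def dl3 : Ev where
  s := 0
  d := 2
  b := mx3 (mx3 (Nat.mul (nat_lit 262144) (Nat.add (nat_lit 49152) (Nat.mul (nat_lit 1) (nat_lit 262144))))
    (Nat.mul (nat_lit 65536) (nat_lit 262144)) (nat_lit 1073741824))
    (Nat.add (nat_lit 65536) (Nat.mul (nat_lit 1) (nat_lit 262144)))
    (Nat.add (nat_lit 49152) (Nat.mul (nat_lit 1) (nat_lit 262144)))
  g := true
  ty := 0
  f := fun E => @Env.rec (fun _ => G) (fun x y _ _ _ _ _ _ ρ σ =>
    dl3g x y ρ σ (Nat.add (nat_lit 49152) (Nat.mul (nat_lit 179769313486231590772930519078902473361797697894230657273430081157732675805500963132708477322407536021120113879871393357658789768814416622492847430639474110969959963482268385702277221395399966640087262359691628045276706960578432807926936308666529070259922820652728111753896392184596904358265409895975218053121) x))) E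
  val := fun u w => I * u * (4 - w) - (4 - 3 * w)
  kd := Kd0 _
  ok := fun _ E X Y δ ε u w hE ho hu hw => by
    obtain ⟨x, y, mx, my, a, b, c, d, ρ, σ⟩ := E
    obtain ⟨hx, hy, hmx, hmy⟩ := hE
    obtain ⟨_, _, _, _, hρ, hσ⟩ := ho
    have hr := (RBc (a := 49152) (b := 0) (B := nat_lit 49152) (n := nat_lit 49152) rfl (by norm_num)).add ((RBc (a := 0) (b := -1) (B := nat_lit 1) (n := nat_lit 179769313486231590772930519078902473361797697894230657273430081157732675805500963132708477322407536021120113879871393357658789768814416622492847430639474110969959963482268385702277221395399966640087262359691628045276706960578432807926936308666529070259922820652728111753896392184596904358265409895975218053121) rfl (by norm_num)).mul hx)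
    have hp := (RBc (a := 0) (b := 65536) (B := nat_lit 65536) (n := nat_lit 878694100496718043517683302282418331810487718418343092402491322775749527474899974671687634004666183037093927858109549828751614463963730408009475621262727315456) rfl (by norm_num)).add ((RBc (a := 0) (b := -1) (B := nat_lit 1) (n := nat_lit 179769313486231590772930519078902473361797697894230657273430081157732675805500963132708477322407536021120113879871393357658789768814416622492847430639474110969959963482268385702277221395399966640087262359691628045276706960578432807926936308666529070259922820652728111753896392184596904358265409895975218053121) rfl (by norm_num)).mul hy)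
    have hc := (((hy.mul hr).add ((RBc (a := 0) (b := 65536) (B := nat_lit 65536) (n := nat_lit 878694100496718043517683302282418331810487718418343092402491322775749527474899974671687634004666183037093927858109549828751614463963730408009475621262727315456) rfl (by norm_num)).mul hx)).add (RBc (a := -1073741824) (b := 0) (B := nat_lit 1073741824) (n := nat_lit 179769313486231590772930519078902473361797697894230657273430081157732675805500963132708477322407536021120113879871393357658789768814416622492847430639474124377767893424865485276302219601246094119453082952085005768838150682342462881473913110540827237163350510684586298239947245938479716304835356329623150395393) rfl (by norm_num))).mod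
    refine Enc.mkm (t := -(I * (δ * ε))) hc hp hr (mx3_1 _ _ _) (mx3_2 _ _ _) (mx3_3 _ _ _) (hc.nrm (by decide)) ?_ ?_ ?_
    · exact lin_NB (hp.nrm (by decide)) (hr.nrm (by decide))
    · have e : (D : ℂ) ^ 2 * (I * u * (4 - w) - (4 - 3 * w)) =
          I * (D * u) * (4 * D - D * w) - D * (4 * D - 3 * (D * w)) := by ring
      rw [e, hu, hw, D_c]
      simp only [map_add, map_mul, tcm]
      push_cast
      ring
    · have h1 : NB (I * (δ * ε)) (Nat.mul 1 (Nat.mul ρ σ)) := NB.I1.mul (NB.mul hρ hσ)
      have h2 : Nat.mul 1 (Nat.mul ρ σ) = Nat.mul ρ σ := Nat.one_mul _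
      rw [h2] at h1
      exact h1.neg

def dl4f (ρ σ c p r : ℕ) : G :=
  ⟨c, p, r, nrmE c, Nat.add (Nat.mul (nrmE p) ρ) (Nat.mul (nrmE r) σ),
    Nat.mul σ (Nat.add (Nat.mul (nat_lit 4) ρ) σ)⟩

def dl4c (x y r : ℕ) : ℕ :=
  Nat.mod (Nat.add (Nat.add (Nat.mul y (Nat.add r y)) (Nat.mul (nat_lit 1757388200993436087035366604564836663620975436836686184804982645551499054949799949343375268009332366074187855716219099657503228927927460816018951242525454630912) x)) (nat_lit 179769313486231590772930519078902473361797697894230657273430081157732675805500963132708477322407536021120113879871393357658789768814416622492847430639474124377767893424865485276302219601246094119453082952085005768838150682342462881473913110540827237163350510684586298239947245938479716304835356329622076653569)) (nat_lit 179769313486231590772930519078902473361797697894230657273430081157732675805500963132708477322407536021120113879871393357658789768814416622492847430639474124377767893424865485276302219601246094119453082952085005768838150682342462881473913110540827237163350510684586298239947245938479716304835356329624224137217)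

def dl4g (x y ρ σ r : ℕ) : G :=
  dl4f ρ σ (dl4c x y r) (Nat.add (nat_lit 1757388200993436087035366604564836663620975436836686184804982645551499054949799949343375268009332366074187855716219099657503228927927460816018951242525454630912) (Nat.mul (nat_lit 179769313486231590772930519078902473361797697894230657273430081157732675805500963132708477322407536021120113879871393357658789768814416622492847430639474070746536173654477086980202226777861584201989800582511494874592375795286342587286005903043634569549639750557153552295743830922948468518555570595028199800833) y)) r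

def dl4b : ℕ := Nat.add (Nat.add (Nat.mul (nat_lit 4) (nat_lit 262144)) (Nat.mul (nat_lit 2) (nat_lit 262144)))
  (nat_lit 131072)

/-- `DB I 4 R q / 2` -/
def dl4 : Ev where
  s := 0
  d := 2
  b := mx3 (mx3 (Nat.mul (nat_lit 262144) (Nat.add dl4b (nat_lit 262144)))
    (Nat.mul (nat_lit 131072) (nat_lit 262144)) (nat_lit 2147483648))
    (Nat.add (nat_lit 131072) (Nat.mul (nat_lit 4) (nat_lit 262144))) dl4b
  g := true
  ty := 0
  f := fun E => @Env.rec (fun _ => G) (fun x y _ _ _ _ _ _ ρ σ =>
    dl4g x y ρ σ (Nat.add (Nat.add (Nat.mul (nat_lit 179769313486231590772930519078902473361797697894230657273430081157732675805500963132708477322407536021120113879871393357658789768814416622492847430639474070746536173654477086980202226777861584201989800582511494874592375795286342587286005903043634569549639750557153552295743830922948468518555570595028199800833) x) (Nat.mul (nat_lit 179769313486231590772930519078902473361797697894230657273430081157732675805500963132708477322407536021120113879871393357658789768814416622492847430639474124377767893424865485276302219601246094119453082952085005768838150682342462881473913110540827237163350510684586298239947245938479716304835356329624224137215)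 y)) (nat_lit 131072))) E
  val := fun u w => 4 * I * u * (2 - w) - (w ^ 2 - 8 * w + 8)
  kd := Kd0 _
  ok := fun _ E X Y δ ε u w hE ho hu hw => by
    obtain ⟨x, y, mx, my, a, b, c, d, ρ, σ⟩ := E
    obtain ⟨hx, hy, hmx, hmy⟩ := hE
    obtain ⟨_, _, _, _, hρ, hσ⟩ := ho
    have hr := (((RBc (a := 0) (b := -4) (B := nat_lit 4) (n := nat_lit 179769313486231590772930519078902473361797697894230657273430081157732675805500963132708477322407536021120113879871393357658789768814416622492847430639474070746536173654477086980202226777861584201989800582511494874592375795286342587286005903043634569549639750557153552295743830922948468518555570595028199800833) rfl (by norm_num)).mul hx).add ((RBc (a := -2) (b := 0) (B := nat_lit 2) (n := nat_lit 179769313486231590772930519078902473361797697894230657273430081157732675805500963132708477322407536021120113879871393357658789768814416622492847430639474124377767893424865485276302219601246094119453082952085005768838150682342462881473913110540827237163350510684586298239947245938479716304835356329624224137215) rfl (by norm_num)).mul hy)).add (RBc (a := 131072)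 (b := 0) (B := nat_lit 131072) (n := nat_lit 131072) rfl (by norm_num))
    have hp := (RBc (a := 0) (b := 131072) (B := nat_lit 131072) (n := nat_lit 1757388200993436087035366604564836663620975436836686184804982645551499054949799949343375268009332366074187855716219099657503228927927460816018951242525454630912) rfl (by norm_num)).add ((RBc (a := 0) (b := -4) (B := nat_lit 4) (n := nat_lit 179769313486231590772930519078902473361797697894230657273430081157732675805500963132708477322407536021120113879871393357658789768814416622492847430639474070746536173654477086980202226777861584201989800582511494874592375795286342587286005903043634569549639750557153552295743830922948468518555570595028199800833) rfl (by norm_num)).mul hy)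
    have hc := (((hy.mul (hr.add hy)).add ((RBc (a := 0) (b := 131072) (B := nat_lit 131072) (n := nat_lit 1757388200993436087035366604564836663620975436836686184804982645551499054949799949343375268009332366074187855716219099657503228927927460816018951242525454630912) rfl (by norm_num)).mul hx)).add (RBc (a := -2147483648) (b := 0) (B := nat_lit 2147483648) (n := nat_lit 179769313486231590772930519078902473361797697894230657273430081157732675805500963132708477322407536021120113879871393357658789768814416622492847430639474124377767893424865485276302219601246094119453082952085005768838150682342462881473913110540827237163350510684586298239947245938479716304835356329622076653569) rfl (by norm_num))).mod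
    refine Enc.mkm (t := -(ε * (4 * δ * I + ε))) hc hp hr (mx3_1 _ _ _) (mx3_2 _ _ _) (mx3_3 _ _ _)
      (hc.nrm (by decide)) ?_ ?_ ?_
    · exact lin_NB (hp.nrm (by decide)) (hr.nrm (by decide))
    · have e : (D : ℂ) ^ 2 * (4 * I * u * (2 - w) - (w ^ 2 - 8 * w + 8)) =
          4 * I * (D * u) * (2 * D - D * w) - ((D * w) ^ 2 - 8 * D * (D * w) + 8 * D ^ 2) := by ring
      rw [e, hu, hw, D_c]
      simp only [map_add, map_mul, tcm]
      push_cast
      ring
    · have h1 : NB (4 * δ * I) (Nat.mul (Nat.mul 4 ρ) 1) := (((NB_ofNat 4).mul hρ)).mul NB.I1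
      have h2 : Nat.mul (Nat.mul 4 ρ) 1 = Nat.mul 4 ρ := Nat.mul_one _
      rw [h2] at h1
      exact (NB.mul hσ (h1.add hσ)).neg

/-- `t` -/
def dl5t (y : ℕ) : ℕ :=
  Nat.mod (Nat.add (Nat.mul y (Nat.add y (nat_lit 179769313486231590772930519078902473361797697894230657273430081157732675805500963132708477322407536021120113879871393357658789768814416622492847430639474124377767893424865485276302219601246094119453082952085005768838150682342462881473913110540827237163350510684586298239947245938479716304835356329624223940609))) (nat_lit 4294967296)) (nat_lit 179769313486231590772930519078902473361797697894230657273430081157732675805500963132708477322407536021120113879871393357658789768814416622492847430639474124377767893424865485276302219601246094119453082952085005768838150682342462881473913110540827237163350510684586298239947245938479716304835356329624224137217)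

def dl5f (mx my ρ σ c p r : ℕ) : G :=
  ⟨c, p, r, nrmE c, Nat.add (Nat.mul (nrmE p) ρ) (Nat.mul (nrmE r) σ),
    Nat.add (Nat.add (Nat.mul (Nat.mul (Nat.add (Nat.mul (nat_lit 2) my) (nat_lit 196608)) ρ) σ)
      (Nat.mul ρ (Nat.mul σ σ))) (Nat.mul (Nat.add mx (nat_lit 81920)) (Nat.mul σ σ))⟩

def dl5c (y ix t : ℕ) : ℕ :=
  Nat.mod (Nat.add (Nat.add (Nat.mul ix t) (Nat.mul y (Nat.add (Nat.mul (nat_lit 179769313486231590772930519078902473361797697894230657273430081157732675805500963132708477322407536021120113879871393357658789768814416622492847430639474124377767893424865485276302219601246094119453082952085005768838150682342462881473913110540827237163350510684586298239947245938479716304835356329624224055297) y) (nat_lit 5368709120))))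
    (nat_lit 179769313486231590772930519078902473361797697894230657273430081157732675805500963132708477322407536021120113879871393357658789768814416622492847430639474124377767893424865485276302219601246094119453082952085005768838150682342462881473913110540827237163350510684586298239947245938479716304835356259255479959553)) (nat_lit 179769313486231590772930519078902473361797697894230657273430081157732675805500963132708477322407536021120113879871393357658789768814416622492847430639474124377767893424865485276302219601246094119453082952085005768838150682342462881473913110540827237163350510684586298239947245938479716304835356329624224137217)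

def dl5r (y ix : ℕ) : ℕ :=
  Nat.mod (Nat.add (Nat.add (Nat.mul (Nat.add (Nat.mul (nat_lit 2) y) (nat_lit 179769313486231590772930519078902473361797697894230657273430081157732675805500963132708477322407536021120113879871393357658789768814416622492847430639474124377767893424865485276302219601246094119453082952085005768838150682342462881473913110540827237163350510684586298239947245938479716304835356329624223940609)) ix)
    (Nat.mul (nat_lit 179769313486231590772930519078902473361797697894230657273430081157732675805500963132708477322407536021120113879871393357658789768814416622492847430639474124377767893424865485276302219601246094119453082952085005768838150682342462881473913110540827237163350510684586298239947245938479716304835356329624223973377) y)) (nat_lit 5368709120)) (nat_lit 179769313486231590772930519078902473361797697894230657273430081157732675805500963132708477322407536021120113879871393357658789768814416622492847430639474124377767893424865485276302219601246094119453082952085005768838150682342462881473913110540827237163350510684586298239947245938479716304835356329624224137217)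

def dl5g (y mx my ρ σ ix t : ℕ) : G :=
  dl5f mx my ρ σ (dl5c y ix t) (Nat.mul (nat_lit 13407807929942597099574024998205846127479365820592393377723561443721764030073546976801874298166903427690031858186486050853753882811946569946433649006084096) t) (dl5r y ix)

def dl5tb : ℕ := Nat.add (Nat.mul (nat_lit 262144) (Nat.add (nat_lit 262144) (nat_lit 196608))) (nat_lit 4294967296)

/-- `DB I 5 R q / 2` -/
def dl5 : Ev where
  s := 0
  d := 3
  b := mx3 (mx3 (Nat.mul (Nat.mul (nat_lit 1) (nat_lit 262144)) dl5tb)
      (Nat.mul (nat_lit 262144) (Nat.add (Nat.mul (nat_lit 81920) (nat_lit 262144)) (nat_lit 5368709120)))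
      (nat_lit 70368744177664))
    (Nat.mul (nat_lit 1) dl5tb)
    (mx3 (Nat.mul (Nat.add (Nat.mul (nat_lit 2) (nat_lit 262144)) (nat_lit 196608)) (Nat.mul (nat_lit 1) (nat_lit 262144)))
      (Nat.mul (nat_lit 163840) (nat_lit 262144)) (nat_lit 5368709120))
  g := true
  ty := 0
  f := fun E => @Env.rec (fun _ => G) (fun x y mx my _ _ _ _ ρ σ =>
    dl5g y mx my ρ σ (Nat.mul (nat_lit 13407807929942597099574024998205846127479365820592393377723561443721764030073546976801874298166903427690031858186486050853753882811946569946433649006084096) x) (dl5t y)) E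
  val := fun u w => I * u * (w ^ 2 - 12 * w + 16) - (5 * w ^ 2 - 20 * w + 16)
  kd := Kd0 _
  ok := fun _ E X Y δ ε u w hE ho hu hw => by
    obtain ⟨x, y, mx, my, a, b, c, d, ρ, σ⟩ := E
    obtain ⟨hx, hy, hmx, hmy⟩ := hE
    obtain ⟨_, _, _, _, hρ, hσ⟩ := ho
    have hix := (RBc (a := 0) (b := 1) (B := nat_lit 1) (n := nat_lit 13407807929942597099574024998205846127479365820592393377723561443721764030073546976801874298166903427690031858186486050853753882811946569946433649006084096) rfl (by norm_num)).mul hx
    have ht := ((hy.mul (hy.add (RBc (a := -196608) (b := 0) (B := nat_lit 196608) (n := nat_lit 179769313486231590772930519078902473361797697894230657273430081157732675805500963132708477322407536021120113879871393357658789768814416622492847430639474124377767893424865485276302219601246094119453082952085005768838150682342462881473913110540827237163350510684586298239947245938479716304835356329624223940609) rfl (by norm_num)))).add (RBc (a := 4294967296) (b := 0) (B := nat_lit 4294967296) (n := nat_lit 4294967296) rfl (by norm_num))).mod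
    have hp := (RBc (a := 0) (b := 1) (B := nat_lit 1) (n := nat_lit 13407807929942597099574024998205846127479365820592393377723561443721764030073546976801874298166903427690031858186486050853753882811946569946433649006084096) rfl (by norm_num)).mul ht
    have hr := ((((RB_two.mul hy).add (RBc (a := -196608) (b := 0) (B := nat_lit 196608) (n := nat_lit 179769313486231590772930519078902473361797697894230657273430081157732675805500963132708477322407536021120113879871393357658789768814416622492847430639474124377767893424865485276302219601246094119453082952085005768838150682342462881473913110540827237163350510684586298239947245938479716304835356329624223940609) rfl (by norm_num))).mul hix).add ((RBc (a := -163840) (b := 0) (B := nat_lit 163840) (n := nat_lit 179769313486231590772930519078902473361797697894230657273430081157732675805500963132708477322407536021120113879871393357658789768814416622492847430639474124377767893424865485276302219601246094119453082952085005768838150682342462881473913110540827237163350510684586298239947245938479716304835356329624223973377) rfl (by norm_num)).mul hy)).add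 (RBc (a := 5368709120) (b := 0) (B := nat_lit 5368709120) (n := nat_lit 5368709120) rfl (by norm_num)) |>.mod
    have hc := (((hix.mul ht).add (hy.mul (((RBc (a := -81920) (b := 0) (B := nat_lit 81920) (n := nat_lit 179769313486231590772930519078902473361797697894230657273430081157732675805500963132708477322407536021120113879871393357658789768814416622492847430639474124377767893424865485276302219601246094119453082952085005768838150682342462881473913110540827237163350510684586298239947245938479716304835356329624224055297) rfl (by norm_num)).mul hy).add (RBc (a := 5368709120) (b := 0) (B := nat_lit 5368709120) (n := nat_lit 5368709120) rfl (by norm_num))))).add (RBc (a := -70368744177664) (b := 0) (B := nat_lit 70368744177664) (n := nat_lit 179769313486231590772930519078902473361797697894230657273430081157732675805500963132708477322407536021120113879871393357658789768814416622492847430639474124377767893424865485276302219601246094119453082952085005768838150682342462881473913110540827237163350510684586298239947245938479716304835356259255479959553) rfl (by norm_num))).mod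
    refine Enc.mkm (t := (2 * tc Y - 196608) * δ * ε * I + δ * (ε * ε) * I + (I * tc X - 81920) * (ε * ε))
      hc hp hr (mx3_1 _ _ _) (mx3_2 _ _ _) (mx3_3 _ _ _) (hc.nrm (by decide)) ?_ ?_ ?_
    · exact lin_NB (hp.nrm (by decide)) (hr.nrm (by decide))
    · have e : (D : ℂ) ^ 3 * (I * u * (w ^ 2 - 12 * w + 16) - (5 * w ^ 2 - 20 * w + 16)) =
          I * (D * u) * ((D * w) ^ 2 - 12 * D * (D * w) + 16 * D ^ 2) -
            D * (5 * (D * w) ^ 2 - 20 * D * (D * w) + 16 * D ^ 2) := by ring
      rw [e, hu, hw, D_c]
      simp only [map_add, map_mul, map_ofNat, tcm]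
      push_cast
      ring
    · have h0 := (((NB_ofNat 2).mul hmy).sub (NB_ofNat 196608)).mul hρ
      have h1 := (h0.mul hσ).mul NB.I1
      have h2 := (NB.mul hρ (NB.mul hσ hσ)).mul NB.I1
      have h3 := (((NB.I1.mul hmx)).sub (NB_ofNat 81920)).mul (NB.mul hσ hσ)
      have e1 : ∀ n : ℕ, Nat.mul n (nat_lit 1) = n := Nat.mul_one
      have e2 : ∀ n : ℕ, Nat.mul (nat_lit 1) n = n := Nat.one_mul
      rw [e1] at h1 h2
      rw [e2] at h3
      exact (h1.add h2).add h3

/-! #### second ring; `k = (a - b) i` -/

lemma gz_ngq (a b : ℕ) : gz 0 0 b a = -gz 0 0 a b := by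
  unfold gz
  apply Complex.ext <;> simp

lemma NB_k (a b : ℕ) : NB (gz 0 0 a b) (Nat.add a b) := by
  unfold NB gz
  change _ ≤ ((a + b : ℕ) : ℝ)
  refine (Complex.norm_le_abs_re_add_abs_im _).trans ?_
  simp only
  push_cast
  have ha : (0 : ℝ) ≤ a := Nat.cast_nonneg _
  have hb : (0 : ℝ) ≤ b := Nat.cast_nonneg _
  rw [sub_self, abs_zero, zero_add, abs_le]
  constructor <;> linarith

def dr2f (ρ σ c p : ℕ) : G :=
  ⟨c, p, nat_lit 179769313486231590772930519078902473361797697894230657273430081157732675805500963132708477322407536021120113879871393357658789768814416622492847430639474124377767893424865485276302219601246094119453082952085005768838150682342462881473913110540827237163350510684586298239947245938479716304835356329624224120833, nrmE c, Nat.add (Nat.mul (nrmE p) ρ) (Nat.mul (nat_lit 16384) σ), Nat.mul ρ ρ⟩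

/-- `DB (± I) 2 R q' / 2` -/
def dr2 (a b : ℕ) : Ev where
  s := 0
  d := 2
  b := mx3 (mx3 bSq (nat_lit 536870912) (Nat.mul (Nat.mul (nat_lit 32768) (gn 0 0 a b)) (nat_lit 262144)))
    (Nat.add (Nat.mul (nat_lit 2) (nat_lit 262144)) (Nat.mul (nat_lit 32768) (gn 0 0 a b))) (nat_lit 16384)
  g := rgB (mx3 (mx3 bSq (nat_lit 536870912) (Nat.mul (Nat.mul (nat_lit 32768) (gn 0 0 a b)) (nat_lit 262144)))
    (Nat.add (Nat.mul (nat_lit 2) (nat_lit 262144)) (Nat.mul (nat_lit 32768) (gn 0 0 a b))) (nat_lit 16384))
  ty := 0
  f := fun E => @Env.rec (fun _ => G) (fun x y _ _ _ _ _ _ ρ σ =>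
    dr2f ρ σ (Nat.add (Nat.add (sEq x y) (nat_lit 179769313486231590772930519078902473361797697894230657273430081157732675805500963132708477322407536021120113879871393357658789768814416622492847430639474124377767893424865485276302219601246094119453082952085005768838150682342462881473913110540827237163350510684586298239947245938479716304835356329623687266305)) (Nat.mul (Nat.mul (nat_lit 32768) (ge 0 0 a b)) x))
      (Nat.add (Nat.mul (nat_lit 2) x) (Nat.mul (nat_lit 32768) (ge 0 0 a b)))) E
  val := fun u w => u ^ 2 + 1 - w - 2 + 2 * gz 0 0 a b * u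
  kd := Kd0 _
  ok := fun hg E X Y δ ε u w hE ho hu hw => by
    have hlt := rgB_lt hg
    obtain ⟨x, y, mx, my, a', b', c, d, ρ, σ⟩ := E
    obtain ⟨hx, hy, hmx, hmy⟩ := hE
    obtain ⟨_, _, _, _, hρ, hσ⟩ := ho
    have hk := (RB.nat (nat_lit 32768)).mul (RB_ge 0 0 a b)
    have hs := RB_sq hx hy
    have hp := (RB_two.mul hx).add hk
    have hc := (hs.add (RBc (a := -536870912) (b := 0) (B := nat_lit 536870912) (n := nat_lit 179769313486231590772930519078902473361797697894230657273430081157732675805500963132708477322407536021120113879871393357658789768814416622492847430639474124377767893424865485276302219601246094119453082952085005768838150682342462881473913110540827237163350510684586298239947245938479716304835356329623687266305) rfl (by norm_num))).add (hk.mul hx)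
    refine Enc.mkm (t := δ * δ) hc hp (RBc (a := -16384) (b := 0) (B := nat_lit 16384) (n := nat_lit 179769313486231590772930519078902473361797697894230657273430081157732675805500963132708477322407536021120113879871393357658789768814416622492847430639474124377767893424865485276302219601246094119453082952085005768838150682342462881473913110540827237163350510684586298239947245938479716304835356329624224120833) rfl (by norm_num)) (mx3_1 _ _ _) (mx3_2 _ _ _) (mx3_3 _ _ _)
      (hc.nrm ((mx3_1 _ _ _).trans_lt hlt)) ?_ ?_ ?_
    · exact lin_NB (hp.nrm ((mx3_2 _ _ _).trans_lt hlt)) (RBc (a := -16384) (b := 0) (B := nat_lit 16384) (n := nat_lit 179769313486231590772930519078902473361797697894230657273430081157732675805500963132708477322407536021120113879871393357658789768814416622492847430639474124377767893424865485276302219601246094119453082952085005768838150682342462881473913110540827237163350510684586298239947245938479716304835356329624224120833) rfl (by norm_num)).le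
    · have e : (D : ℂ) ^ 2 * (u ^ 2 + 1 - w - 2 + 2 * gz 0 0 a b * u) =
          (D * u) ^ 2 + D ^ 2 - D * (D * w) - 2 * D ^ 2 + 2 * D * gz 0 0 a b * (D * u) := by ring
      rw [e, hu, hw, D_c]
      simp only [map_add, map_mul, map_ofNat, tcm, tc_sq, tc_gi, map_natCast]
      have e1 : (((nat_lit 32768 : ℕ)) : ℂ) = 32768 := by norm_num
      rw [e1]
      push_cast
      ring
    · exact NB.mul hρ hρ

def dr3f (ρ σ T f nf nk c p : ℕ) : G :=
  ⟨c, p, Nat.mul (nat_lit 179769313486231590772930519078902473361797697894230657273430081157732675805500963132708477322407536021120113879871393357658789768814416622492847430639474124377767893424865485276302219601246094119453082952085005768838150682342462881473913110540827237163350510684586298239947245938479716304835356329624224120833) f, nrmE c, Nat.add (Nat.mul (nrmE p) ρ) (Nat.mul (Nat.mul (nat_lit 16384) nf) σ),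
    Nat.add (Nat.mul nf (Nat.mul ρ ρ)) (Nat.mul (Nat.mul nk ρ) T)⟩

def dr3c (k x s f : ℕ) : ℕ :=
  Nat.mod (Nat.add (Nat.add (Nat.mul s f) (Nat.mul (Nat.mul (nat_lit 1073741824) k) x)) (nat_lit 179769313486231590772930519078902473361797697894230657273430081157732675805500963132708477322407536021120113879871393357658789768814416622492847430639474124377767893424865485276302219601246094119453082952085005768838150682342462881473913110540827237163350510684586298239947245938479716304835356312032038092801)) (nat_lit 179769313486231590772930519078902473361797697894230657273430081157732675805500963132708477322407536021120113879871393357658789768814416622492847430639474124377767893424865485276302219601246094119453082952085005768838150682342462881473913110540827237163350510684586298239947245938479716304835356329624224137217)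

def dr3p (k kn x s f : ℕ) : ℕ :=
  Nat.mod (Nat.add (Nat.add (Nat.mul (nat_lit 1073741824) k) (Nat.mul kn s)) (Nat.mul (Nat.mul (nat_lit 2) x) f))
    (nat_lit 179769313486231590772930519078902473361797697894230657273430081157732675805500963132708477322407536021120113879871393357658789768814416622492847430639474124377767893424865485276302219601246094119453082952085005768838150682342462881473913110540827237163350510684586298239947245938479716304835356329624224137217)

def dr3g (k kn nk x mx ρ σ s f : ℕ) : G :=
  dr3f ρ σ (tSq mx ρ σ) f (nrmE f) nk (dr3c k x s f) (dr3p k kn x s f)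

def dr3fb (a b : ℕ) : ℕ := Nat.add (nat_lit 49152) (Nat.mul (gn 0 0 b a) (nat_lit 262144))

def dr3b (a b : ℕ) : ℕ :=
  mx3 (mx3 (Nat.mul bSq (dr3fb a b)) (Nat.mul (Nat.mul (nat_lit 1073741824) (gn 0 0 a b)) (nat_lit 262144))
      (nat_lit 17592186044416))
    (mx3 (Nat.mul (nat_lit 1073741824) (gn 0 0 a b)) (Nat.mul (gn 0 0 b a) bSq)
      (Nat.mul (Nat.mul (nat_lit 2) (nat_lit 262144)) (dr3fb a b)))
    (Nat.mul (nat_lit 16384) (dr3fb a b))

/-- `DB (± I) 3 R q' / 2` -/
def dr3 (a b : ℕ) : Ev where
  s := 0
  d := 3
  b := dr3b a b
  g := rgB (dr3b a b)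
  ty := 0
  f := fun E => @Env.rec (fun _ => G) (fun x y mx _ _ _ _ _ ρ σ =>
    dr3g (ge 0 0 a b) (ge 0 0 b a) (Nat.add a b) x mx ρ σ (sEq x y)
      (Nat.add (nat_lit 49152) (Nat.mul (ge 0 0 b a) x))) E
  val := fun u w => gz 0 0 a b * u * (4 - (u ^ 2 + 1 - w)) - (4 - 3 * (u ^ 2 + 1 - w))
  kd := Kd0 _
  ok := fun hg E X Y δ ε u w hE ho hu hw => by
    have hlt := rgB_lt hg
    obtain ⟨x, y, mx, my, a', b', c, d, ρ, σ⟩ := E
    obtain ⟨hx, hy, hmx, hmy⟩ := hE
    obtain ⟨_, _, _, _, hρ, hσ⟩ := ho
    have hk := (RB.nat (nat_lit 1073741824)).mul (RB_ge 0 0 a b)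
    have hkn := RB_ge 0 0 b a
    have hs := RB_sq hx hy
    have hf := (RBc (a := 49152) (b := 0) (B := nat_lit 49152) (n := nat_lit 49152) rfl (by norm_num)).add (hkn.mul hx)
    have hp := ((hk.add (hkn.mul hs)).add ((RB_two.mul hx).mul hf)).mod
    have hc := (((hs.mul hf).add (hk.mul hx)).add (RBc (a := -17592186044416) (b := 0) (B := nat_lit 17592186044416) (n := nat_lit 179769313486231590772930519078902473361797697894230657273430081157732675805500963132708477322407536021120113879871393357658789768814416622492847430639474124377767893424865485276302219601246094119453082952085005768838150682342462881473913110540827237163350510684586298239947245938479716304835356312032038092801) rfl (by norm_num))).mod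
    have hr := (RBc (a := -16384) (b := 0) (B := nat_lit 16384) (n := nat_lit 179769313486231590772930519078902473361797697894230657273430081157732675805500963132708477322407536021120113879871393357658789768814416622492847430639474124377767893424865485276302219601246094119453082952085005768838150682342462881473913110540827237163350510684586298239947245938479716304835356329624224120833) rfl (by norm_num)).mul hf
    have h3 := (mx3_3 _ _ _).trans_lt hlt
    have hfl : dr3fb a b < HH := by
      have : dr3fb a b ≤ Nat.mul 16384 (dr3fb a b) := by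
        change dr3fb a b ≤ 16384 * dr3fb a b
        omega
      exact this.trans_lt h3
    have nf : NB (tc _) (nrmE _) := hf.nrm hfl
    refine Enc.mkm (t := (tc (⟨49152, 0⟩ + gi 0 0 b a * X)) * (δ * δ) - gz 0 0 a b * δ * dSq (tc X) δ ε)
      hc hp hr (mx3_1 _ _ _) (mx3_2 _ _ _) (mx3_3 _ _ _) (hc.nrm ((mx3_1 _ _ _).trans_lt hlt)) ?_ ?_ ?_
    · refine lin_NB (hp.nrm ((mx3_2 _ _ _).trans_lt hlt)) ?_
      rw [map_mul]
      exact NB.mul (RBc (a := -16384) (b := 0) (B := nat_lit 16384) (n := nat_lit 179769313486231590772930519078902473361797697894230657273430081157732675805500963132708477322407536021120113879871393357658789768814416622492847430639474124377767893424865485276302219601246094119453082952085005768838150682342462881473913110540827237163350510684586298239947245938479716304835356329624224120833) rfl (by norm_num)).le nf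
    · have e : (D : ℂ) ^ 3 * (gz 0 0 a b * u * (4 - (u ^ 2 + 1 - w)) - (4 - 3 * (u ^ 2 + 1 - w))) =
          gz 0 0 a b * (D * u) * (4 * D ^ 2 - ((D * u) ^ 2 + D ^ 2 - D * (D * w))) -
            D * (4 * D ^ 2 - 3 * ((D * u) ^ 2 + D ^ 2 - D * (D * w))) := by ring
      rw [e, hu, hw, D_c]
      simp only [map_add, map_mul, map_ofNat, tcm, tc_sq, tc_gi, gz_ngq a b, map_natCast, dSq]
      have e1 : (((nat_lit 1073741824 : ℕ)) : ℂ) = 1073741824 := by norm_num
      rw [e1]
      push_cast
      ring
    · exact (nf.mul (NB.mul hρ hρ)).sub (((NB_k a b).mul hρ).mul (NB_tSq hmx hρ hσ))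

def dr4f (ρ σ T f nf nk c p : ℕ) : G :=
  ⟨c, p, Nat.mul (nat_lit 179769313486231590772930519078902473361797697894230657273430081157732675805500963132708477322407536021120113879871393357658789768814416622492847430639474124377767893424865485276302219601246094119453082952085005768838150682342462881473913110540827237163350510684586298239947245938479716304835356329624224120833) f, nrmE c, Nat.add (Nat.mul (nrmE p) ρ) (Nat.mul (Nat.mul (nat_lit 16384) nf) σ),
    Nat.add (Nat.mul nf (Nat.mul ρ ρ)) (Nat.mul (Nat.add (Nat.mul (Nat.mul (nat_lit 65536) nk) ρ) T) T)⟩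

def dr4c (k x s f : ℕ) : ℕ :=
  Nat.mod (Nat.add (Nat.add (Nat.mul s (Nat.add f s)) (Nat.mul (Nat.mul (nat_lit 35184372088832) k) x))
    (nat_lit 179769313486231590772930519078902473361797697894230657273430081157732675805500963132708477322407536021120113879871393357658789768814416622492847430639474124377767893424865485276302219601246094119453082952085005768838150682342462881473913110540827237163350510684586298239947245938479716304834779868871920713729)) (nat_lit 179769313486231590772930519078902473361797697894230657273430081157732675805500963132708477322407536021120113879871393357658789768814416622492847430639474124377767893424865485276302219601246094119453082952085005768838150682342462881473913110540827237163350510684586298239947245938479716304835356329624224137217)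

def dr4p (k kn x s f : ℕ) : ℕ :=
  Nat.mod (Nat.add (Nat.add (Nat.mul (nat_lit 35184372088832) k) (Nat.mul (Nat.mul (nat_lit 65536) kn) s))
    (Nat.mul (Nat.mul (nat_lit 2) x) f)) (nat_lit 179769313486231590772930519078902473361797697894230657273430081157732675805500963132708477322407536021120113879871393357658789768814416622492847430639474124377767893424865485276302219601246094119453082952085005768838150682342462881473913110540827237163350510684586298239947245938479716304835356329624224137217)

def dr4g (k kn nk x mx ρ σ s f : ℕ) : G :=
  dr4f ρ σ (tSq mx ρ σ) f (nrmE f) nk (dr4c k x s f) (dr4p k kn x s f)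

def dr4fb (a b : ℕ) : ℕ := Nat.add (Nat.add (Nat.mul (Nat.mul (nat_lit 65536) (gn 0 0 b a)) (nat_lit 262144))
  (Nat.mul (nat_lit 2) bSq)) (nat_lit 2147483648)

def dr4b (a b : ℕ) : ℕ :=
  mx3 (mx3 (Nat.mul bSq (Nat.add (dr4fb a b) bSq)) (Nat.mul (Nat.mul (nat_lit 35184372088832) (gn 0 0 a b)) (nat_lit 262144))
      (nat_lit 576460752303423488))
    (mx3 (Nat.mul (nat_lit 35184372088832) (gn 0 0 a b)) (Nat.mul (Nat.mul (nat_lit 65536) (gn 0 0 b a)) bSq)
      (Nat.mul (Nat.mul (nat_lit 2) (nat_lit 262144)) (dr4fb a b)))
    (Nat.mul (nat_lit 16384) (dr4fb a b))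

/-- `DB (± I) 4 R q' / 2` -/
def dr4 (a b : ℕ) : Ev where
  s := 0
  d := 4
  b := dr4b a b
  g := rgB (dr4b a b)
  ty := 0
  f := fun E => @Env.rec (fun _ => G) (fun x y mx _ _ _ _ _ ρ σ =>
    dr4g (ge 0 0 a b) (ge 0 0 b a) (Nat.add a b) x mx ρ σ (sEq x y)
      (Nat.add (Nat.add (Nat.mul (Nat.mul (nat_lit 65536) (ge 0 0 b a)) x) (Nat.mul (nat_lit 179769313486231590772930519078902473361797697894230657273430081157732675805500963132708477322407536021120113879871393357658789768814416622492847430639474124377767893424865485276302219601246094119453082952085005768838150682342462881473913110540827237163350510684586298239947245938479716304835356329624224137215) (sEq x y)))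
        (nat_lit 2147483648))) E
  val := fun u w => 4 * gz 0 0 a b * u * (2 - (u ^ 2 + 1 - w)) -
    ((u ^ 2 + 1 - w) ^ 2 - 8 * (u ^ 2 + 1 - w) + 8)
  kd := Kd0 _
  ok := fun hg E X Y δ ε u w hE ho hu hw => by
    have hlt := rgB_lt hg
    obtain ⟨x, y, mx, my, a', b', c, d, ρ, σ⟩ := E
    obtain ⟨hx, hy, hmx, hmy⟩ := hE
    obtain ⟨_, _, _, _, hρ, hσ⟩ := ho
    have hk := (RB.nat (nat_lit 35184372088832)).mul (RB_ge 0 0 a b)
    have hkn := (RB.nat (nat_lit 65536)).mul (RB_ge 0 0 b a)
    have hs := RB_sq hx hy
    have hf := ((hkn.mul hx).add ((RBc (a := -2) (b := 0) (B := nat_lit 2) (n := nat_lit 179769313486231590772930519078902473361797697894230657273430081157732675805500963132708477322407536021120113879871393357658789768814416622492847430639474124377767893424865485276302219601246094119453082952085005768838150682342462881473913110540827237163350510684586298239947245938479716304835356329624224137215) rfl (by norm_num)).mul hs)).add (RBc (a := 2147483648) (b := 0) (B := nat_lit 2147483648) (n := nat_lit 2147483648) rfl (by norm_num))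
    have hp := ((hk.add (hkn.mul hs)).add ((RB_two.mul hx).mul hf)).mod
    have hc := (((hs.mul (hf.add hs)).add (hk.mul hx)).add (RBc (a := -576460752303423488) (b := 0) (B := nat_lit 576460752303423488) (n := nat_lit 179769313486231590772930519078902473361797697894230657273430081157732675805500963132708477322407536021120113879871393357658789768814416622492847430639474124377767893424865485276302219601246094119453082952085005768838150682342462881473913110540827237163350510684586298239947245938479716304834779868871920713729) rfl (by norm_num))).mod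
    have hr := (RBc (a := -16384) (b := 0) (B := nat_lit 16384) (n := nat_lit 179769313486231590772930519078902473361797697894230657273430081157732675805500963132708477322407536021120113879871393357658789768814416622492847430639474124377767893424865485276302219601246094119453082952085005768838150682342462881473913110540827237163350510684586298239947245938479716304835356329624224120833) rfl (by norm_num)).mul hf
    have h3 := (mx3_3 _ _ _).trans_lt hlt
    have hfl : dr4fb a b < HH := by
      have : dr4fb a b ≤ Nat.mul 16384 (dr4fb a b) := by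
        change dr4fb a b ≤ 16384 * dr4fb a b
        omega
      exact this.trans_lt h3
    have nf : NB (tc _) (nrmE _) := hf.nrm hfl
    refine Enc.mkm (t := (tc ((((nat_lit 65536 : ℕ) : GaussianInt) * gi 0 0 b a) * X + ⟨-2, 0⟩ * sGq X Y +
        ⟨2147483648, 0⟩)) * (δ * δ) - (65536 * gz 0 0 a b * δ + dSq (tc X) δ ε) * dSq (tc X) δ ε)
      hc hp hr (mx3_1 _ _ _) (mx3_2 _ _ _) (mx3_3 _ _ _) (hc.nrm ((mx3_1 _ _ _).trans_lt hlt)) ?_ ?_ ?_
    · refine lin_NB (hp.nrm ((mx3_2 _ _ _).trans_lt hlt)) ?_
      rw [map_mul]
      exact NB.mul (RBc (a := -16384) (b := 0) (B := nat_lit 16384) (n := nat_lit 179769313486231590772930519078902473361797697894230657273430081157732675805500963132708477322407536021120113879871393357658789768814416622492847430639474124377767893424865485276302219601246094119453082952085005768838150682342462881473913110540827237163350510684586298239947245938479716304835356329624224120833) rfl (by norm_num)).le nf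
    · have e : (D : ℂ) ^ 4 * (4 * gz 0 0 a b * u * (2 - (u ^ 2 + 1 - w)) -
          ((u ^ 2 + 1 - w) ^ 2 - 8 * (u ^ 2 + 1 - w) + 8)) =
          4 * gz 0 0 a b * D * (D * u) * (2 * D ^ 2 - ((D * u) ^ 2 + D ^ 2 - D * (D * w))) -
            (((D * u) ^ 2 + D ^ 2 - D * (D * w)) ^ 2 - 8 * D ^ 2 * ((D * u) ^ 2 + D ^ 2 - D * (D * w)) +
              8 * D ^ 4) := by ring
      rw [e, hu, hw, D_c]
      simp only [map_add, map_mul, map_ofNat, tcm, tc_sq, tc_gi, gz_ngq a b, map_natCast, dSq]
      have e1 : (((nat_lit 35184372088832 : ℕ)) : ℂ) = 35184372088832 := by norm_num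
      have e2 : (((nat_lit 65536 : ℕ)) : ℂ) = 65536 := by norm_num
      rw [e1, e2]
      push_cast
      ring
    · exact (nf.mul (NB.mul hρ hρ)).sub (((((NB_ofNat 65536).mul (NB_k a b)).mul hρ).add
        (NB_tSq hmx hρ hσ)).mul (NB_tSq hmx hρ hσ))

/-- `t` -/
def dr5t (s : ℕ) : ℕ :=
  Nat.mod (Nat.add (Nat.mul s (Nat.add s (nat_lit 179769313486231590772930519078902473361797697894230657273430081157732675805500963132708477322407536021120113879871393357658789768814416622492847430639474124377767893424865485276302219601246094119453082952085005768838150682342462881473913110540827237163350510684586298239947245938479716304835356329621002911745))) (nat_lit 1152921504606846976)) (nat_lit 179769313486231590772930519078902473361797697894230657273430081157732675805500963132708477322407536021120113879871393357658789768814416622492847430639474124377767893424865485276302219601246094119453082952085005768838150682342462881473913110540827237163350510684586298239947245938479716304835356329624224137217)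

def dr5f (mx ρ σ T ms f nf nk c p : ℕ) : G :=
  ⟨c, p, Nat.mul (nat_lit 179769313486231590772930519078902473361797697894230657273430081157732675805500963132708477322407536021120113879871393357658789768814416622492847430639474124377767893424865485276302219601246094119453082952085005768838150682342462881473913110540827237163350510684586298239947245938479716304835356329624224120833) f, nrmE c, Nat.add (Nat.mul (nrmE p) ρ) (Nat.mul (Nat.mul (nat_lit 16384) nf) σ),
    Nat.add (Nat.add (Nat.mul nf (Nat.mul ρ ρ))
      (Nat.mul (Nat.mul (Nat.mul nk ρ) (Nat.add (Nat.add (Nat.mul (nat_lit 2) ms) (nat_lit 3221225472)) T)) T))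
      (Nat.mul (Nat.add (Nat.mul nk mx) (nat_lit 81920)) (Nat.mul T T))⟩

def dr5c (kx s t : ℕ) : ℕ :=
  Nat.mod (Nat.add (Nat.add (Nat.mul kx t) (Nat.mul s (Nat.add (Nat.mul (nat_lit 179769313486231590772930519078902473361797697894230657273430081157732675805500963132708477322407536021120113879871393357658789768814416622492847430639474124377767893424865485276302219601246094119453082952085005768838150682342462881473913110540827237163350510684586298239947245938479716304835356329624224055297) s) (nat_lit 87960930222080))))
    (nat_lit 179769313486231590772930519078902473361797697894230657273430081157732675805500963132708477322407536021120113879871393357658789768814416622492847430639474124377767893424865485276302219601246094119453082952085005768838150682342462881473913110540827237163350510684586298239947245938479716285945890398145643282433)) (nat_lit 179769313486231590772930519078902473361797697894230657273430081157732675805500963132708477322407536021120113879871393357658789768814416622492847430639474124377767893424865485276302219601246094119453082952085005768838150682342462881473913110540827237163350510684586298239947245938479716304835356329624224137217)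

def dr5ff (kx s : ℕ) : ℕ :=
  Nat.mod (Nat.add (Nat.add (Nat.mul kx (Nat.add (Nat.mul (nat_lit 2) s) (nat_lit 179769313486231590772930519078902473361797697894230657273430081157732675805500963132708477322407536021120113879871393357658789768814416622492847430639474124377767893424865485276302219601246094119453082952085005768838150682342462881473913110540827237163350510684586298239947245938479716304835356329621002911745)))
    (Nat.mul (nat_lit 179769313486231590772930519078902473361797697894230657273430081157732675805500963132708477322407536021120113879871393357658789768814416622492847430639474124377767893424865485276302219601246094119453082952085005768838150682342462881473913110540827237163350510684586298239947245938479716304835356329624223973377) s)) (nat_lit 87960930222080)) (nat_lit 179769313486231590772930519078902473361797697894230657273430081157732675805500963132708477322407536021120113879871393357658789768814416622492847430639474124377767893424865485276302219601246094119453082952085005768838150682342462881473913110540827237163350510684586298239947245938479716304835356329624224137217)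

def dr5p (k x t f : ℕ) : ℕ :=
  Nat.mod (Nat.add (Nat.mul k t) (Nat.mul (Nat.mul (nat_lit 2) x) f)) (nat_lit 179769313486231590772930519078902473361797697894230657273430081157732675805500963132708477322407536021120113879871393357658789768814416622492847430639474124377767893424865485276302219601246094119453082952085005768838150682342462881473913110540827237163350510684586298239947245938479716304835356329624224137217)

def dr5h (k nk x mx ρ σ s kx t f : ℕ) : G :=
  dr5f mx ρ σ (tSq mx ρ σ) (nrmE s) f (nrmE f) nk (dr5c kx s t) (dr5p k x t f)

def dr5g (k nk x mx ρ σ s kx : ℕ) : G :=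
  dr5h k nk x mx ρ σ s kx (dr5t s) (dr5ff kx s)

def dr5tb : ℕ := Nat.add (Nat.mul bSq (Nat.add bSq (nat_lit 3221225472))) (nat_lit 1152921504606846976)

def dr5kb (a b : ℕ) : ℕ := Nat.mul (gn 0 0 a b) (nat_lit 262144)

def dr5fb (a b : ℕ) : ℕ := Nat.add (Nat.add (Nat.mul (dr5kb a b) (Nat.add (Nat.mul (nat_lit 2) bSq) (nat_lit 3221225472)))
  (Nat.mul (nat_lit 163840) bSq)) (nat_lit 87960930222080)

def dr5b (a b : ℕ) : ℕ :=
  mx3 (mx3 (Nat.mul (dr5kb a b) dr5tb)
      (Nat.mul bSq (Nat.add (Nat.mul (nat_lit 81920) bSq) (nat_lit 87960930222080)))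
      (nat_lit 18889465931478580854784))
    (Nat.add (Nat.mul (gn 0 0 a b) dr5tb) (Nat.mul (Nat.mul (nat_lit 2) (nat_lit 262144)) (dr5fb a b)))
    (Nat.mul (nat_lit 16384) (dr5fb a b))

/-- `DB (± I) 5 R q' / 2` -/
def dr5 (a b : ℕ) : Ev where
  s := 0
  d := 5
  b := dr5b a b
  g := rgB (dr5b a b)
  ty := 0
  f := fun E => @Env.rec (fun _ => G) (fun x y mx _ _ _ _ _ ρ σ =>
    dr5g (ge 0 0 a b) (Nat.add a b) x mx ρ σ (sEq x y) (Nat.mul (ge 0 0 a b) x)) E
  val := fun u w => gz 0 0 a b * u * ((u ^ 2 + 1 - w) ^ 2 - 12 * (u ^ 2 + 1 - w) + 16) -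
    (5 * (u ^ 2 + 1 - w) ^ 2 - 20 * (u ^ 2 + 1 - w) + 16)
  kd := Kd0 _
  ok := fun hg E X Y δ ε u w hE ho hu hw => by
    have hlt := rgB_lt hg
    obtain ⟨x, y, mx, my, a', b', c, d, ρ, σ⟩ := E
    obtain ⟨hx, hy, hmx, hmy⟩ := hE
    obtain ⟨_, _, _, _, hρ, hσ⟩ := ho
    have hk := RB_ge 0 0 a b
    have hkx := hk.mul hx
    have hs := RB_sq hx hy
    have ht := ((hs.mul (hs.add (RBc (a := -3221225472) (b := 0) (B := nat_lit 3221225472) (n := nat_lit 179769313486231590772930519078902473361797697894230657273430081157732675805500963132708477322407536021120113879871393357658789768814416622492847430639474124377767893424865485276302219601246094119453082952085005768838150682342462881473913110540827237163350510684586298239947245938479716304835356329621002911745) rfl (by norm_num)))).add (RBc (a := 1152921504606846976) (b := 0) (B := nat_lit 1152921504606846976) (n := nat_lit 1152921504606846976) rfl (by norm_num))).mod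
    have hf := (((hkx.mul ((RB_two.mul hs).add (RBc (a := -3221225472) (b := 0) (B := nat_lit 3221225472) (n := nat_lit 179769313486231590772930519078902473361797697894230657273430081157732675805500963132708477322407536021120113879871393357658789768814416622492847430639474124377767893424865485276302219601246094119453082952085005768838150682342462881473913110540827237163350510684586298239947245938479716304835356329621002911745) rfl (by norm_num)))).add ((RBc (a := -163840) (b := 0) (B := nat_lit 163840) (n := nat_lit 179769313486231590772930519078902473361797697894230657273430081157732675805500963132708477322407536021120113879871393357658789768814416622492847430639474124377767893424865485276302219601246094119453082952085005768838150682342462881473913110540827237163350510684586298239947245938479716304835356329624223973377) rfl (by norm_num)).mul hs)).add (RBc (a := 87960930222080) (b := 0) (B := nat_lit 87960930222080) (n := nat_lit 87960930222080) rfl (by norm_num))).mod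
    have hp := ((hk.mul ht).add ((RB_two.mul hx).mul hf)).mod
    have hc := (((hkx.mul ht).add (hs.mul (((RBc (a := -81920) (b := 0) (B := nat_lit 81920) (n := nat_lit 179769313486231590772930519078902473361797697894230657273430081157732675805500963132708477322407536021120113879871393357658789768814416622492847430639474124377767893424865485276302219601246094119453082952085005768838150682342462881473913110540827237163350510684586298239947245938479716304835356329624224055297) rfl (by norm_num)).mul hs).add (RBc (a := 87960930222080) (b := 0) (B := nat_lit 87960930222080) (n := nat_lit 87960930222080) rfl (by norm_num))))).add (RBc (a := -18889465931478580854784) (b := 0) (B := nat_lit 18889465931478580854784) (n := nat_lit 179769313486231590772930519078902473361797697894230657273430081157732675805500963132708477322407536021120113879871393357658789768814416622492847430639474124377767893424865485276302219601246094119453082952085005768838150682342462881473913110540827237163350510684586298239947245938479716285945890398145643282433) rfl (by norm_num))).mod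
    have hr := (RBc (a := -16384) (b := 0) (B := nat_lit 16384) (n := nat_lit 179769313486231590772930519078902473361797697894230657273430081157732675805500963132708477322407536021120113879871393357658789768814416622492847430639474124377767893424865485276302219601246094119453082952085005768838150682342462881473913110540827237163350510684586298239947245938479716304835356329624224120833) rfl (by norm_num)).mul hf
    have h3 := (mx3_3 _ _ _).trans_lt hlt
    have hfl : dr5fb a b < HH := by
      have : dr5fb a b ≤ Nat.mul 16384 (dr5fb a b) := by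
        change dr5fb a b ≤ 16384 * dr5fb a b
        omega
      exact this.trans_lt h3
    have nf : NB (tc _) (nrmE _) := hf.nrm hfl
    have ns : NB (tc (sGq X Y)) (nrmE (sEq x y)) := hs.nrm (by decide)
    refine Enc.mkm (t := (tc (gi 0 0 a b * X * (2 * sGq X Y + ⟨-3221225472, 0⟩) + ⟨-163840, 0⟩ * sGq X Y +
        ⟨87960930222080, 0⟩)) * (δ * δ) + gz 0 0 a b * δ * (2 * tc (sGq X Y) - 3221225472 + dSq (tc X) δ ε) *
          dSq (tc X) δ ε + (gz 0 0 a b * tc X - 81920) * (dSq (tc X) δ ε * dSq (tc X) δ ε))
      hc hp hr (mx3_1 _ _ _) (mx3_2 _ _ _) (mx3_3 _ _ _) (hc.nrm ((mx3_1 _ _ _).trans_lt hlt)) ?_ ?_ ?_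
    · refine lin_NB (hp.nrm ((mx3_2 _ _ _).trans_lt hlt)) ?_
      rw [map_mul]
      exact NB.mul (RBc (a := -16384) (b := 0) (B := nat_lit 16384) (n := nat_lit 179769313486231590772930519078902473361797697894230657273430081157732675805500963132708477322407536021120113879871393357658789768814416622492847430639474124377767893424865485276302219601246094119453082952085005768838150682342462881473913110540827237163350510684586298239947245938479716304835356329624224120833) rfl (by norm_num)).le nf
    · have e : (D : ℂ) ^ 5 * (gz 0 0 a b * u * ((u ^ 2 + 1 - w) ^ 2 - 12 * (u ^ 2 + 1 - w) + 16) -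
          (5 * (u ^ 2 + 1 - w) ^ 2 - 20 * (u ^ 2 + 1 - w) + 16)) =
          gz 0 0 a b * (D * u) * (((D * u) ^ 2 + D ^ 2 - D * (D * w)) ^ 2 -
            12 * D ^ 2 * ((D * u) ^ 2 + D ^ 2 - D * (D * w)) + 16 * D ^ 4) -
          D * (5 * ((D * u) ^ 2 + D ^ 2 - D * (D * w)) ^ 2 -
            20 * D ^ 2 * ((D * u) ^ 2 + D ^ 2 - D * (D * w)) + 16 * D ^ 4) := by ring
      rw [e, hu, hw, D_c]
      simp only [map_add, map_mul, map_ofNat, tcm, tc_sq, tc_gi, dSq]
      push_cast
      ring
    · exact ((nf.mul (NB.mul hρ hρ)).add ((((NB_k a b).mul hρ).mul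
        ((((NB_ofNat 2).mul ns).sub (NB_ofNat 3221225472)).add (NB_tSq hmx hρ hσ))).mul (NB_tSq hmx hρ hσ))).add
        ((((NB_k a b).mul hmx).sub (NB_ofNat 81920)).mul ((NB_tSq hmx hρ hσ).mul (NB_tSq hmx hρ hσ)))

/-! #### products of powers -/

/-- the bound of `q ^ B q'` minus its linear part; `u ^ n = un` -/
def mAe (B my σ ms un uB T l : ℕ) : ℕ :=
  Nat.sub (Nat.mul (Nat.pow (Nat.add my σ) B) (Nat.add ms T))
    (Nat.add (Nat.mul uB (Nat.add ms l)) (Nat.mul (Nat.mul B (Nat.mul un σ)) ms))

def mAg (B x mx my ρ σ s ms yn yB h un uB : ℕ) : G :=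
  ⟨Nat.mod (Nat.mul yB s) (nat_lit 179769313486231590772930519078902473361797697894230657273430081157732675805500963132708477322407536021120113879871393357658789768814416622492847430639474124377767893424865485276302219601246094119453082952085005768838150682342462881473913110540827237163350510684586298239947245938479716304835356329624224137217), Nat.mod (Nat.mul (Nat.mul (nat_lit 2) x) yB) (nat_lit 179769313486231590772930519078902473361797697894230657273430081157732675805500963132708477322407536021120113879871393357658789768814416622492847430639474124377767893424865485276302219601246094119453082952085005768838150682342462881473913110540827237163350510684586298239947245938479716304835356329624224137217),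
    Nat.mod (Nat.mul yn h) (nat_lit 179769313486231590772930519078902473361797697894230657273430081157732675805500963132708477322407536021120113879871393357658789768814416622492847430639474124377767893424865485276302219601246094119453082952085005768838150682342462881473913110540827237163350510684586298239947245938479716304835356329624224137217), Nat.mul uB ms,
    Nat.add (Nat.mul (Nat.mul uB (Nat.mul (nat_lit 2) mx)) ρ) (Nat.mul (Nat.mul un (nrmE h)) σ),
    mAe B my σ ms un uB (tSq mx ρ σ) (lSq mx ρ σ)⟩

def mAh (B x y mx my ρ σ s yn un : ℕ) : G :=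
  mAg B x mx my ρ σ s (nrmE s) yn (Nat.mod (Nat.mul yn y) (nat_lit 179769313486231590772930519078902473361797697894230657273430081157732675805500963132708477322407536021120113879871393357658789768814416622492847430639474124377767893424865485276302219601246094119453082952085005768838150682342462881473913110540827237163350510684586298239947245938479716304835356329624224137217))
    (Nat.add (Nat.mul B s) (Nat.mul (nat_lit 179769313486231590772930519078902473361797697894230657273430081157732675805500963132708477322407536021120113879871393357658789768814416622492847430639474124377767893424865485276302219601246094119453082952085005768838150682342462881473913110540827237163350510684586298239947245938479716304835356329624224120833) y)) un (Nat.mul un my)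

def mAb (n : ℕ) : ℕ :=
  mx3 (Nat.mul (Nat.mul (Nat.pow (nat_lit 262144) n) (nat_lit 262144)) bSq)
    (Nat.mul (Nat.mul (nat_lit 2) (nat_lit 262144)) (Nat.mul (Nat.pow (nat_lit 262144) n) (nat_lit 262144)))
    (Nat.add (Nat.mul (Nat.pow (nat_lit 262144) n) (Nat.add (Nat.mul (Nat.succ n) bSq) (Nat.mul (nat_lit 16384) (nat_lit 262144))))
      (Nat.add (Nat.mul (Nat.succ n) bSq) (Nat.mul (nat_lit 16384) (nat_lit 262144))))

/-- `q ^ (n + 1) q'` -/
def mA (n : ℕ) : Ev where
  s := 0
  d := n + 3
  b := mAb n
  g := rgB (mAb n)
  ty := 0
  f := fun E => @Env.rec (fun _ => G) (fun x y mx my _ _ _ _ ρ σ =>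
    mAh (Nat.succ n) x y mx my ρ σ (sEq x y) (Nat.mod (Nat.pow y n) (nat_lit 179769313486231590772930519078902473361797697894230657273430081157732675805500963132708477322407536021120113879871393357658789768814416622492847430639474124377767893424865485276302219601246094119453082952085005768838150682342462881473913110540827237163350510684586298239947245938479716304835356329624224137217)) (Nat.pow my n)) E
  val := fun u w => w ^ (n + 1) * (u ^ 2 + 1 - w)
  kd := Kd0 _
  ok := fun hg E X Y δ ε u w hE ho hu hw => by
    have hlt := rgB_lt hg
    obtain ⟨x, y, mx, my, a', b', c, d, ρ, σ⟩ := E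
    obtain ⟨hx, hy, hmx, hmy⟩ := hE
    obtain ⟨_, _, _, _, hρ, hσ⟩ := ho
    have hs := RB_sq hx hy
    have ns : NB (tc (sGq X Y)) (nrmE (sEq x y)) := hs.nrm (by decide)
    have hyn := (hy.pow n).mod
    have hyB := (hyn.mul hy).mod
    have hh := ((RB.nat (Nat.succ n)).mul hs).add ((RBc (a := -16384) (b := 0) (B := nat_lit 16384) (n := nat_lit 179769313486231590772930519078902473361797697894230657273430081157732675805500963132708477322407536021120113879871393357658789768814416622492847430639474124377767893424865485276302219601246094119453082952085005768838150682342462881473913110540827237163350510684586298239947245938479716304835356329624224120833) rfl (by norm_num)).mul hy)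
    have hc := (hyB.mul hs).mod
    have hp := ((RB_two.mul hx).mul hyB).mod
    have hr := (hyn.mul hh).mod
    have h3 := (mx3_3 _ _ _).trans_lt hlt
    have nh : NB (tc _) (nrmE _) := hh.nrm ((Nat.le_add_left _ _).trans_lt h3)
    have nT := NB_tSq hmx hρ hσ
    have nl : NB (2 * tc X * δ - 16384 * ε) (lSq mx ρ σ) := NB_lSq hmx hρ hσ
    refine Enc.mkm (t := tc Y ^ (n + 1) * δ ^ 2 + (n + 1) * tc Y ^ n * ε * dSq (tc X) δ ε +
        ((tc Y + ε) ^ (n + 1) - tc Y ^ (n + 1) - (n + 1) * tc Y ^ n * ε) * (tc (sGq X Y) + dSq (tc X) δ ε))
      hc hp hr (mx3_1 _ _ _) (mx3_2 _ _ _) ((Nat.le_add_right _ _).trans (mx3_3 _ _ _)) ?_ ?_ ?_ ?_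
    · rw [map_mul, map_mul, map_pow]
      exact ((NB.pow hmy n).mul hmy).mul ns
    · refine lin_NB ?_ ?_
      · rw [map_mul, map_mul, map_mul, map_pow, map_ofNat, mul_comm]
        exact ((NB.pow hmy n).mul hmy).mul ((NB_ofNat 2).mul hmx)
      · rw [map_mul, map_pow]
        exact (NB.pow hmy n).mul nh
    · have e : (D : ℂ) ^ (n + 3) * (w ^ (n + 1) * (u ^ 2 + 1 - w)) =
          (D * w) ^ (n + 1) * ((D * u) ^ 2 + (D : ℂ) ^ 2 - D * (D * w)) := by
        rw [mul_pow]; ring
      rw [e, hu, hw, D_c]
      simp only [map_add, map_mul, map_pow, map_ofNat, tcm (-16384) 0, tc_sq, map_natCast, dSq]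
      push_cast
      ring
    · have r := pow_rem hmy hσ n
      dsimp only at r
      have n1 : ‖tc Y ^ (n + 1) * δ ^ 2‖ ≤ (my : ℝ) ^ (n + 1) * ρ ^ 2 := by
        rw [norm_mul, norm_pow, norm_pow]
        exact mul_le_mul (pow_le_pow_left₀ (norm_nonneg _) hmy _) (pow_le_pow_left₀ (norm_nonneg _) hρ _)
          (by positivity) (by positivity)
      have n2 : ‖(n + 1) * tc Y ^ n * ε * dSq (tc X) δ ε‖ ≤ ((n : ℝ) + 1) * my ^ n * σ * (tSq mx ρ σ : ℕ) := by
        rw [norm_mul, norm_mul, norm_mul, norm_pow, norm_succ]
        have p1 := pow_le_pow_left₀ (norm_nonneg (tc Y)) hmy n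
        have p2 : ‖ε‖ ≤ (σ : ℝ) := hσ
        have p3 : ‖dSq (tc X) δ ε‖ ≤ ((tSq mx ρ σ : ℕ) : ℝ) := nT
        dsimp only at p1
        gcongr
      have n3 : ‖tc (sGq X Y) + dSq (tc X) δ ε‖ ≤ (nrmE (sEq x y) : ℝ) + (tSq mx ρ σ : ℕ) :=
        (norm_add_le _ _).trans (add_le_add ns nT)
      have n4 := mul_le_mul r n3 (norm_nonneg _) ((norm_nonneg _).trans r)
      rw [← norm_mul] at n4
      have h0 := (norm_add₃_le).trans (add_le_add (add_le_add n1 n2) n4)
      refine h0.trans ?_
      have q1 : ((Nat.mul (Nat.pow (Nat.add my σ) (Nat.succ n)) (Nat.add (nrmE (sEq x y)) (tSq mx ρ σ)) : ℕ) : ℝ) =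
          ((my : ℝ) + σ) ^ (n + 1) * ((nrmE (sEq x y) : ℝ) + (tSq mx ρ σ : ℕ)) := by
        change (((my + σ) ^ (n + 1) * (nrmE (sEq x y) + tSq mx ρ σ) : ℕ) : ℝ) = _
        push_cast
        rfl
      have q2 : ((Nat.add (Nat.mul (Nat.mul (Nat.pow my n) my) (Nat.add (nrmE (sEq x y)) (lSq mx ρ σ)))
          (Nat.mul (Nat.mul (Nat.succ n) (Nat.mul (Nat.pow my n) σ)) (nrmE (sEq x y))) : ℕ) : ℝ) =
          (my : ℝ) ^ n * my * ((nrmE (sEq x y) : ℝ) + (lSq mx ρ σ : ℕ)) +
            ((n : ℝ) + 1) * (my ^ n * σ) * (nrmE (sEq x y) : ℝ) := by
        change (((my ^ n * my * (nrmE (sEq x y) + lSq mx ρ σ) + (n + 1) * (my ^ n * σ) * nrmE (sEq x y)) : ℕ) : ℝ) = _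
        push_cast
        rfl
      have q3 : ((tSq mx ρ σ : ℕ) : ℝ) = (lSq mx ρ σ : ℕ) + (ρ : ℝ) ^ 2 := by
        change ((lSq mx ρ σ + ρ * ρ : ℕ) : ℝ) = _
        push_cast
        ring
      have key : (my : ℝ) ^ (n + 1) * ρ ^ 2 + ((n : ℝ) + 1) * my ^ n * σ * (tSq mx ρ σ : ℕ) +
          (((my : ℝ) + σ) ^ (n + 1) - my ^ (n + 1) - ((n : ℝ) + 1) * my ^ n * σ) *
            ((nrmE (sEq x y) : ℝ) + (tSq mx ρ σ : ℕ)) =
          ((my : ℝ) + σ) ^ (n + 1) * ((nrmE (sEq x y) : ℝ) + (tSq mx ρ σ : ℕ)) -
            ((my : ℝ) ^ n * my * ((nrmE (sEq x y) : ℝ) + (lSq mx ρ σ : ℕ)) +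
              ((n : ℝ) + 1) * (my ^ n * σ) * (nrmE (sEq x y) : ℝ)) := by
        rw [q3]
        ring
      exact (le_of_eq (key.trans (by rw [q1, q2]))).trans (sub_le_cast _ _)

/-- the bound of `q' ^ B q` minus its linear part; `ms ^ n = mn` -/
def mDe (B my σ ms mn mB T l : ℕ) : ℕ :=
  Nat.sub (Nat.mul (Nat.pow (Nat.add ms T) B) (Nat.add my σ))
    (Nat.add (Nat.mul mB (Nat.add my σ)) (Nat.mul (Nat.mul B (Nat.mul mn l)) my))

def mDg (B x y mx my ρ σ s ms sn h mn mB : ℕ) : G :=
  ⟨Nat.mod (Nat.mul (Nat.mul sn s) y) (nat_lit 179769313486231590772930519078902473361797697894230657273430081157732675805500963132708477322407536021120113879871393357658789768814416622492847430639474124377767893424865485276302219601246094119453082952085005768838150682342462881473913110540827237163350510684586298239947245938479716304835356329624224137217),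
    Nat.mod (Nat.mul (Nat.mul (Nat.mul (nat_lit 2) B) x) (Nat.mul sn y)) (nat_lit 179769313486231590772930519078902473361797697894230657273430081157732675805500963132708477322407536021120113879871393357658789768814416622492847430639474124377767893424865485276302219601246094119453082952085005768838150682342462881473913110540827237163350510684586298239947245938479716304835356329624224137217),
    Nat.mod (Nat.mul sn h) (nat_lit 179769313486231590772930519078902473361797697894230657273430081157732675805500963132708477322407536021120113879871393357658789768814416622492847430639474124377767893424865485276302219601246094119453082952085005768838150682342462881473913110540827237163350510684586298239947245938479716304835356329624224137217), Nat.mul mB my,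
    Nat.add (Nat.mul (Nat.mul (Nat.mul (Nat.mul (nat_lit 2) B) mx) (Nat.mul mn my)) ρ)
      (Nat.mul (Nat.mul mn (nrmE h)) σ),
    mDe B my σ ms mn mB (tSq mx ρ σ) (lSq mx ρ σ)⟩

def mDh (B x y mx my ρ σ s ms sn mn : ℕ) : G :=
  mDg B x y mx my ρ σ s ms sn (Nat.add s (Nat.mul B (Nat.mul (nat_lit 179769313486231590772930519078902473361797697894230657273430081157732675805500963132708477322407536021120113879871393357658789768814416622492847430639474124377767893424865485276302219601246094119453082952085005768838150682342462881473913110540827237163350510684586298239947245938479716304835356329624224120833) y))) mn (Nat.mul mn ms)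

def mDi (n x y mx my ρ σ s ms : ℕ) : G :=
  mDh (Nat.succ n) x y mx my ρ σ s ms (Nat.mod (Nat.pow s n) (nat_lit 179769313486231590772930519078902473361797697894230657273430081157732675805500963132708477322407536021120113879871393357658789768814416622492847430639474124377767893424865485276302219601246094119453082952085005768838150682342462881473913110540827237163350510684586298239947245938479716304835356329624224137217)) (Nat.pow ms n)

def mDj (n x y mx my ρ σ s : ℕ) : G := mDi n x y mx my ρ σ s (nrmE s)

def mDhb (n : ℕ) : ℕ := Nat.add bSq (Nat.mul (Nat.succ n) (Nat.mul (nat_lit 16384) (nat_lit 262144)))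

def mDb (n : ℕ) : ℕ :=
  mx3 (Nat.mul (Nat.mul (Nat.pow bSq n) bSq) (nat_lit 262144))
    (Nat.mul (Nat.mul (Nat.mul (nat_lit 2) (Nat.succ n)) (nat_lit 262144)) (Nat.mul (Nat.pow bSq n) (nat_lit 262144)))
    (Nat.add (Nat.mul (Nat.pow bSq n) (mDhb n)) (mDhb n))

/-- `q' ^ (n + 1) q` -/
def mD (n : ℕ) : Ev where
  s := 0
  d := 2 * n + 3
  b := mDb n
  g := rgB (mDb n)
  ty := 0
  f := fun E => @Env.rec (fun _ => G) (fun x y mx my _ _ _ _ ρ σ => mDj n x y mx my ρ σ (sEq x y)) E
  val := fun u w => (u ^ 2 + 1 - w) ^ (n + 1) * w
  kd := Kd0 _
  ok := fun hg E X Y δ ε u w hE ho hu hw => by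
    have hlt := rgB_lt hg
    obtain ⟨x, y, mx, my, a', b', c, d, ρ, σ⟩ := E
    obtain ⟨hx, hy, hmx, hmy⟩ := hE
    obtain ⟨_, _, _, _, hρ, hσ⟩ := ho
    have hs := RB_sq hx hy
    have ns : NB (tc (sGq X Y)) (nrmE (sEq x y)) := hs.nrm (by decide)
    have hsn := (hs.pow n).mod
    have hB2 : RB (Nat.mul (nat_lit 2) (Nat.succ n)) (2 * ((Nat.succ n : ℕ) : GaussianInt))
      (Nat.mul 2 (Nat.succ n)) := RB_two.mul (RB.nat (Nat.succ n))
    have hh := hs.add ((RB.nat (Nat.succ n)).mul ((RBc (a := -16384) (b := 0) (B := nat_lit 16384) (n := nat_lit 179769313486231590772930519078902473361797697894230657273430081157732675805500963132708477322407536021120113879871393357658789768814416622492847430639474124377767893424865485276302219601246094119453082952085005768838150682342462881473913110540827237163350510684586298239947245938479716304835356329624224120833) rfl (by norm_num)).mul hy))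
    have hc := ((hsn.mul hs).mul hy).mod
    have hp := ((hB2.mul hx).mul (hsn.mul hy)).mod
    have hr := (hsn.mul hh).mod
    have h3 := (mx3_3 _ _ _).trans_lt hlt
    have nh : NB (tc _) (nrmE _) := hh.nrm ((Nat.le_add_left _ _).trans_lt h3)
    have nT := NB_tSq hmx hρ hσ
    refine Enc.mkm (t := (n + 1) * tc (sGq X Y) ^ n * δ ^ 2 * tc Y +
        (n + 1) * tc (sGq X Y) ^ n * dSq (tc X) δ ε * ε +
        ((tc (sGq X Y) + dSq (tc X) δ ε) ^ (n + 1) - tc (sGq X Y) ^ (n + 1) -
          (n + 1) * tc (sGq X Y) ^ n * dSq (tc X) δ ε) * (tc Y + ε))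
      hc hp hr (mx3_1 _ _ _) (mx3_2 _ _ _) ((Nat.le_add_right _ _).trans (mx3_3 _ _ _)) ?_ ?_ ?_ ?_
    · rw [map_mul, map_mul, map_pow]
      exact ((ns.pow n).mul ns).mul hmy
    · refine lin_NB ?_ ?_
      · rw [map_mul, map_mul, map_mul, map_mul, map_pow, map_ofNat, map_natCast]
        exact (((NB_ofNat 2).mul (NB.nat _)).mul hmx).mul ((ns.pow n).mul hmy)
      · rw [map_mul, map_pow]
        exact (ns.pow n).mul nh
    · have e : (D : ℂ) ^ (2 * n + 3) * ((u ^ 2 + 1 - w) ^ (n + 1) * w) =
          ((D * u) ^ 2 + (D : ℂ) ^ 2 - D * (D * w)) ^ (n + 1) * (D * w) := by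
        have e1 : (D * u) ^ 2 + (D : ℂ) ^ 2 - D * (D * w) = (D : ℂ) ^ 2 * (u ^ 2 + 1 - w) := by ring
        rw [e1, mul_pow, ← pow_mul]
        ring
      have e2 : (tc X + δ) ^ 2 + 16384 ^ 2 - 16384 * (tc Y + ε) = tc (sGq X Y) + dSq (tc X) δ ε := by
        rw [tc_sq, dSq]
        ring
      rw [e, hu, hw, D_c, e2]
      simp only [map_add, map_mul, map_pow, map_ofNat, tcm (-16384) 0, map_natCast]
      unfold dSq
      push_cast
      ring
    · have r := pow_rem ns nT n
      have n1 : ‖(n + 1) * tc (sGq X Y) ^ n * δ ^ 2 * tc Y‖ ≤
          ((n : ℝ) + 1) * (nrmE (sEq x y) : ℝ) ^ n * ρ ^ 2 * my := by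
        rw [norm_mul, norm_mul, norm_mul, norm_pow, norm_pow, norm_succ]
        have p1 := pow_le_pow_left₀ (norm_nonneg (tc (sGq X Y))) ns n
        have p2 : ‖δ‖ ≤ (ρ : ℝ) := hρ
        have p3 : ‖tc Y‖ ≤ (my : ℝ) := hmy
        gcongr
      have n2 : ‖(n + 1) * tc (sGq X Y) ^ n * dSq (tc X) δ ε * ε‖ ≤
          ((n : ℝ) + 1) * (nrmE (sEq x y) : ℝ) ^ n * (tSq mx ρ σ : ℕ) * σ := by
        rw [norm_mul, norm_mul, norm_mul, norm_pow, norm_succ]
        have p1 := pow_le_pow_left₀ (norm_nonneg (tc (sGq X Y))) ns n
        have p2 : ‖ε‖ ≤ (σ : ℝ) := hσ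
        have p3 : ‖dSq (tc X) δ ε‖ ≤ ((tSq mx ρ σ : ℕ) : ℝ) := nT
        gcongr
      have n3 : ‖tc Y + ε‖ ≤ (my : ℝ) + σ := (norm_add_le _ _).trans (add_le_add hmy hσ)
      have n4 := mul_le_mul r n3 (norm_nonneg _) ((norm_nonneg _).trans r)
      rw [← norm_mul] at n4
      have h0 := (norm_add₃_le).trans (add_le_add (add_le_add n1 n2) n4)
      refine h0.trans ?_
      have q1 : ((Nat.mul (Nat.pow (Nat.add (nrmE (sEq x y)) (tSq mx ρ σ)) (Nat.succ n)) (Nat.add my σ) : ℕ) : ℝ) =
          ((nrmE (sEq x y) : ℝ) + (tSq mx ρ σ : ℕ)) ^ (n + 1) * ((my : ℝ) + σ) := by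
        change (((nrmE (sEq x y) + tSq mx ρ σ) ^ (n + 1) * (my + σ) : ℕ) : ℝ) = _
        push_cast
        rfl
      have q2 : ((Nat.add (Nat.mul (Nat.mul (Nat.pow (nrmE (sEq x y)) n) (nrmE (sEq x y))) (Nat.add my σ))
          (Nat.mul (Nat.mul (Nat.succ n) (Nat.mul (Nat.pow (nrmE (sEq x y)) n) (lSq mx ρ σ))) my) : ℕ) : ℝ) =
          (nrmE (sEq x y) : ℝ) ^ n * (nrmE (sEq x y) : ℝ) * ((my : ℝ) + σ) +
            ((n : ℝ) + 1) * ((nrmE (sEq x y) : ℝ) ^ n * (lSq mx ρ σ : ℕ)) * my := by
        change (((nrmE (sEq x y) ^ n * nrmE (sEq x y) * (my + σ) +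
          (n + 1) * (nrmE (sEq x y) ^ n * lSq mx ρ σ) * my) : ℕ) : ℝ) = _
        push_cast
        rfl
      have q3 : ((tSq mx ρ σ : ℕ) : ℝ) = (lSq mx ρ σ : ℕ) + (ρ : ℝ) ^ 2 := by
        change ((lSq mx ρ σ + ρ * ρ : ℕ) : ℝ) = _
        push_cast
        ring
      have key : ((n : ℝ) + 1) * (nrmE (sEq x y) : ℝ) ^ n * ρ ^ 2 * my +
          ((n : ℝ) + 1) * (nrmE (sEq x y) : ℝ) ^ n * (tSq mx ρ σ : ℕ) * σ +
          (((nrmE (sEq x y) : ℝ) + (tSq mx ρ σ : ℕ)) ^ (n + 1) - (nrmE (sEq x y) : ℝ) ^ (n + 1) -
            ((n : ℝ) + 1) * (nrmE (sEq x y) : ℝ) ^ n * (tSq mx ρ σ : ℕ)) * ((my : ℝ) + σ) =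
          ((nrmE (sEq x y) : ℝ) + (tSq mx ρ σ : ℕ)) ^ (n + 1) * ((my : ℝ) + σ) -
            ((nrmE (sEq x y) : ℝ) ^ n * (nrmE (sEq x y) : ℝ) * ((my : ℝ) + σ) +
              ((n : ℝ) + 1) * ((nrmE (sEq x y) : ℝ) ^ n * (lSq mx ρ σ : ℕ)) * my) := by
        rw [q3]
        ring
      exact (le_of_eq (key.trans (by rw [q1, q2]))).trans (sub_le_cast _ _)

def vf (ρ c : ℕ) : G := ⟨c, nat_lit 1, nat_lit 0, nrmE c, ρ, nat_lit 0⟩

/-- `R + i` -/
def vp : Ev where
  s := 0
  d := 1
  b := mx3 (Nat.add (nat_lit 262144) (nat_lit 16384)) (nat_lit 1) (nat_lit 1)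
  g := true
  ty := 2
  f := fun E => @Env.rec (fun _ => G) (fun x _ mx _ _ _ _ _ ρ _ =>
    vf ρ (Nat.add x (nat_lit 219673525124179510879420825570604582952621929604585773100622830693937381868724993667921908501166545759273481964527387457187903615990932602002368905315681828864))) E
  val := fun u _ => u + gz 0 0 1 0
  kd := Kd2 fun u _ => by rw [gz_cI]
  ok := fun _ E X Y δ ε u w hE ho hu hw => by
    obtain ⟨x, y, mx, my, a, b, c, d, ρ, σ⟩ := E
    obtain ⟨hx, hy, hmx, hmy⟩ := hE
    have hc := hx.add (RBc (a := 0) (b := 16384) (B := nat_lit 16384) (n := nat_lit 219673525124179510879420825570604582952621929604585773100622830693937381868724993667921908501166545759273481964527387457187903615990932602002368905315681828864) rfl (by norm_num))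
    refine Enc.mkm (t := 0) hc (RB.one (b := 1) le_rfl) (RB.zero 1) (mx3_1 _ _ _) (mx3_2 _ _ _) (mx3_3 _ _ _) 
      (hc.nrm (by decide)) ?_ ?_ ?_
    · rw [map_one, map_zero, norm_one, norm_zero, zero_mul, one_mul, add_zero]
    · have e : (D : ℂ) ^ 1 * (u + gz 0 0 1 0) = D * u + D * gz 0 0 1 0 := by ring
      have e1 : gz 0 0 1 0 = I := by unfold gz; apply Complex.ext <;> simp
      rw [e, hu, e1, D_c]
      simp only [map_add, map_one, map_zero, tcm 0 16384]
      push_cast
      ring
    · unfold NB
      rw [norm_zero]
      exact Nat.cast_nonneg _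

/-- `R - i` -/
def vm : Ev where
  s := 0
  d := 1
  b := mx3 (Nat.add (nat_lit 262144) (nat_lit 16384)) (nat_lit 1) (nat_lit 1)
  g := true
  ty := 3
  f := fun E => @Env.rec (fun _ => G) (fun x _ mx _ _ _ _ _ ρ _ =>
    vf ρ (Nat.add x (nat_lit 179769313486231590772930519078902473361797697894230657273430081157732675805500963132708477322407536021120113879871393357658789768814416622492847430639254450852643713913986064450731615018293472189848497178984382938144213300473737887805991202039660691404077028720058910782759342322488783702832987424308542308353))) E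
  val := fun u _ => u - gz 0 0 1 0
  kd := Kd3 fun u _ => by rw [gz_cI]
  ok := fun _ E X Y δ ε u w hE ho hu hw => by
    obtain ⟨x, y, mx, my, a, b, c, d, ρ, σ⟩ := E
    obtain ⟨hx, hy, hmx, hmy⟩ := hE
    have hc := hx.add (RBc (a := 0) (b := -16384) (B := nat_lit 16384) (n := nat_lit 179769313486231590772930519078902473361797697894230657273430081157732675805500963132708477322407536021120113879871393357658789768814416622492847430639254450852643713913986064450731615018293472189848497178984382938144213300473737887805991202039660691404077028720058910782759342322488783702832987424308542308353) rfl (by norm_num))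
    refine Enc.mkm (t := 0) hc (RB.one (b := 1) le_rfl) (RB.zero 1) (mx3_1 _ _ _) (mx3_2 _ _ _) (mx3_3 _ _ _) 
      (hc.nrm (by decide)) ?_ ?_ ?_
    · rw [map_one, map_zero, norm_one, norm_zero, zero_mul, one_mul, add_zero]
    · have e : (D : ℂ) ^ 1 * (u - gz 0 0 1 0) = D * u - D * gz 0 0 1 0 := by ring
      have e1 : gz 0 0 1 0 = I := by unfold gz; apply Complex.ext <;> simp
      rw [e, hu, e1, D_c]
      simp only [map_add, map_one, map_zero, tcm 0 (-16384)]
      push_cast
      ring
    · unfold NB
      rw [norm_zero]
      exact Nat.cast_nonneg _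

end Ev

open Ev

/-- own value of the first ring -/
def gl (H : List QC) : Grp := ⟨.sc 1 one, .q, rfl, H⟩
/-- own value of the second ring -/
def gr (H : List QC) : Grp := ⟨.sc 2 one, q2, rfl, H⟩

/-- outer value of the first ring -/
def gA2 (H : List QC) : Grp := ⟨.sc 2 (.sq dl2), mA 1, (rfl : 4 = 4), H⟩
def gA3 (H : List QC) : Grp := ⟨.sc 1 (.sq dl3), mA 2, (rfl : 5 = 5), H⟩
def gA4 (H : List QC) : Grp := ⟨.sc 2 (.sq dl4), mA 3, (rfl : 6 = 6), H⟩
def gA5 (H : List QC) : Grp := ⟨.sc 1 (.sq dl5), mA 4, (rfl : 7 = 7), H⟩

/-- outer value of the second ring -/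
def gD2 (a b : ℕ) (H : List QC) : Grp := ⟨.sc 1 (.sq (dr2 a b)), mD 1, (rfl : 5 = 5), H⟩
def gD3 (a b : ℕ) (H : List QC) : Grp := ⟨.sc 1 (.sq (dr3 a b)), mD 2, (rfl : 7 = 7), H⟩
def gD4 (a b : ℕ) (H : List QC) : Grp := ⟨.sc 1 (.sq (dr4 a b)), mD 3, (rfl : 9 = 9), H⟩
def gD5 (a b : ℕ) (H : List QC) : Grp := ⟨.sc 1 (.sq (dr5 a b)), mD 4, (rfl : 11 = 11), H⟩

/-- the conditions for `0` -/
def zeroQ : List QC := [⟨1, 0, 0, 0⟩, ⟨-1, 0, 0, 0⟩, ⟨0, 1, 0, 0⟩, ⟨0, -1, 0, 0⟩]

/-- the first ring is an end -/
def gF2 : Grp := ⟨dl2, .sc 1 one, (rfl : 1 = 1), zeroQ⟩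
def gF3 : Grp := ⟨dl3, .sc 2 one, (rfl : 2 = 2), zeroQ⟩
def gF4 : Grp := ⟨dl4, .sc 2 one, (rfl : 2 = 2), zeroQ⟩
def gF5 : Grp := ⟨dl5, .sc 3 one, (rfl : 3 = 3), zeroQ⟩

/-- the second ring is an end -/
def gE2 (a b : ℕ) : Grp := ⟨dr2 a b, .sc 2 one, (rfl : 2 = 2), zeroQ⟩
def gE3 (a b : ℕ) : Grp := ⟨dr3 a b, .sc 3 one, (rfl : 3 = 3), zeroQ⟩
def gE4 (a b : ℕ) : Grp := ⟨dr4 a b, .sc 4 one, (rfl : 4 = 4), zeroQ⟩
def gE5 (a b : ℕ) : Grp := ⟨dr5 a b, .sc 5 one, (rfl : 5 = 5), zeroQ⟩

/-- the hinge itself: `exp (2 π i y) = (R + i) / (R - i)` -/
def gH (H : List QC) : Grp := ⟨vp, vm, rfl, H⟩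
/-- the split hinge on the side of the first ring: `exp (2 π i y) = (q - 2 + 2 i R) / q` -/
def gS (H : List QC) : Grp := ⟨dl2, .q, rfl, H⟩
/-- two crossings split on the side of the first ring -/
def gT (H : List QC) : Grp := ⟨.gm 0 0 1 0 dl3, .mul .q vp, (rfl : 2 = 2), H⟩

end

end Pool.Agent.Work.MP_b30479_gt.G2.CN
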