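import Pool.Agent.Work.MP_b30479_gt.G2.SRefK
import Pool.Agent.Work.MP_b30479_gt.G2.CN.HPoly

/-!
# The family after three rounds is in the polygons of the rows
-/

namespace Pool.Agent.Work.MP_b30479_gt.G2.CN

open SR

lemma vr_pg8 (l r : SK) (h : l = .e → r ≠ .e) : vr l r = pg8 l r := by
  cases l <;> cases r <;> first | rfl | exact absurd rfl (h rfl)

lemma q3_pg : ∀ d < 8, ∀ l ∈ [SK.e, SK.a, SK.z, SK.s], ∀ r ∈ [SK.e, SK.a, SK.z, SK.s],
    ROK d l r → crs d l r < 8 → q3 (crs d l r) l r = some (pg (crs d l r) l r) := by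
  decide +kernel

theorem kr3_pol {d : ℕ} {l r : SK} (h : ROK d l r) :
    pol q3 vr d l r = some (pg (crs d l r) l r) := by
  unfold pol
  rcases lt_or_ge (crs d l r) 8 with h8 | h8
  · rw [if_neg (by omega)]
    exact q3_pg d (by unfold crs at h8; omega) l (by cases l <;> simp) r (by cases r <;> simp) h h8
  · rw [if_pos h8, vr_pg8 l r h.ends]
    unfold pg
    rw [if_neg (by omega), if_neg (by omega), if_neg (by omega), if_neg (by omega),
      if_neg (by omega), if_neg (by omega)]

/-- **The family after three rounds.** -/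
theorem kok_kr3 : KOK Kr3 := ⟨fun h => by rw [show Kr3.K _ _ _ = _ from Kq_some (kr3_pol h)]⟩

end Pool.Agent.Work.MP_b30479_gt.G2.CN
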