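import Pool.Agent.Work.MP_b30479_gt.G2.CN.HData

/-!
# Conditions for the ring values, twelve lines each

`k…`: one ring (crossings and sides), `n…`, `m…`, `oN…`: many rings, `P…`: ports.
-/

namespace Pool.Agent.Work.MP_b30479_gt.G2.CN.TD

open Complex SR

/-- conditions -/
def k4aa : List QC :=
  [⟨-112426, 699432, 0, 0⟩, ⟨304794, -709992, 0, 0⟩, ⟨0, 0, 1000000, -624020⟩,
  ⟨0, 0, -1000000, 418465⟩, ⟨934000, -358000, 0, 519806⟩, ⟨-921000, -391000, 0, -775681⟩,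
  ⟨309000, 951000, 0, 315432⟩, ⟨-391000, 921000, 0, -170113⟩, ⟨999000, -52000, 0, 625185⟩,
  ⟨-309000, -951000, -891468, 0⟩, ⟨-956000, -292000, 0, -784716⟩, ⟨500000, 866000, 0, 431560⟩]

/-- conditions -/
def k4az : List QC :=
  [⟨-202304, 746928, 0, 0⟩, ⟨323468, -664995, 0, 0⟩, ⟨0, 0, 1000000, -598829⟩,
  ⟨0, 0, -1000000, 420767⟩, ⟨961000, -276000, 0, 529658⟩, ⟨-438000, -899000, 0, -584987⟩,
  ⟨559000, 829000, 0, 510752⟩, ⟨-122000, -993000, -741137, 0⟩, ⟨1000000, 0, 0, 615384⟩]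

/-- conditions -/
def k4zz : List QC :=
  [⟨-285610, 685464, 0, 0⟩, ⟨334150, -622200, 0, 0⟩, ⟨0, 0, 1000000, -599107⟩,
  ⟨0, 0, -1000000, 457419⟩, ⟨-358000, -934000, 0, -540206⟩, ⟨70000, 998000, 0, 328215⟩,
  ⟨-375000, -927000, -1091829, 0⟩]

/-- conditions -/
def k5as : List QC :=
  [⟨-104066, 723888, 0, 0⟩, ⟨253134, -719712, 0, 0⟩, ⟨0, 0, 1000000, -628865⟩,
  ⟨0, 0, -1000000, 470184⟩, ⟨-500000, -866000, -1022330, 0⟩, ⟨-875000, -485000, 0, -753449⟩,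
  ⟨242000, 970000, 516272, 0⟩, ⟨326000, 946000, 0, 331679⟩, ⟨-819000, -574000, -1345228, 0⟩,
  ⟨-139000, -990000, -603469, 0⟩, ⟨875000, 485000, 0, 653761⟩]

/-- conditions -/
def k5zs : List QC :=
  [⟨-175968, 704900, 0, 0⟩, ⟨259336, -685248, 0, 0⟩, ⟨0, 0, 1000000, -603178⟩,
  ⟨0, 0, -1000000, 475295⟩, ⟨-485000, -875000, 0, -565889⟩, ⟨-602000, -799000, -1176821, 0⟩,
  ⟨866000, 500000, 0, 672207⟩, ⟨-17000, 1000000, 306303, 0⟩, ⟨-883000, -469000, 0, -755867⟩,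
  ⟨-156000, -988000, -683071, 0⟩]

/-- conditions -/
def k6ss : List QC :=
  [⟨-100108, 741405, 0, 0⟩, ⟨205632, -732335, 0, 0⟩, ⟨0, 0, 1000000, -639210⟩,
  ⟨0, 0, -1000000, 516581⟩, ⟨-788000, -616000, 0, -704417⟩, ⟨-656000, -755000, -1119569, 0⟩,
  ⟨-588000, 809000, 0, -355389⟩, ⟨819000, 574000, 0, 655674⟩, ⟨-866000, -500000, -1316928, 0⟩,
  ⟨-309000, -951000, -732252, 0⟩]

/-- conditions -/
def k4ea : List QC :=
  [⟨-78000, 605900, 0, 0⟩, ⟨198640, -566796, 0, 0⟩, ⟨0, 0, 1000000, -448902⟩,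
  ⟨0, 0, -1000000, 322174⟩, ⟨-629000, -777000, 0, -512132⟩, ⟨391000, 921000, 827293, 0⟩,
  ⟨-755000, -656000, -1570343, 0⟩, ⟨208000, 978000, 0, 198737⟩, ⟨966000, 259000, 0, 567528⟩]

/-- conditions -/
def k4ez : List QC :=
  [⟨-164192, 524745, 0, 0⟩, ⟨193248, -518400, 0, 0⟩, ⟨0, 0, 1000000, -364088⟩,
  ⟨0, 0, -1000000, 299599⟩, ⟨52000, -999000, 0, -167785⟩, ⟨438000, 899000, 1173831, 0⟩]

/-- conditions -/
def k5es : List QC :=
  [⟨-78498, 639200, 0, 0⟩, ⟨149530, -610344, 0, 0⟩, ⟨0, 0, 1000000, -458736⟩,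
  ⟨0, 0, -1000000, 375309⟩, ⟨-602000, -799000, 0, -493561⟩, ⟨-777000, 629000, 0, -447284⟩,
  ⟨656000, 755000, 0, 472895⟩, ⟨1000000, 0, 0, 602392⟩]

/-- conditions -/
def k5aa : List QC :=
  [⟨-72160, 772719, 0, 0⟩, ⟨197792, -767145, 0, 0⟩, ⟨0, 0, 1000000, -681738⟩,
  ⟨0, 0, -1000000, 540283⟩, ⟨-891000, -454000, 0, -775923⟩, ⟨-695000, -719000, -1100636, 0⟩,
  ⟨375000, 927000, 585077, 0⟩, ⟨777000, 629000, 0, 619234⟩, ⟨-454000, -891000, -844071, 0⟩]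

/-- conditions -/
def k5az : List QC :=
  [⟨-113652, 736965, 0, 0⟩, ⟨204612, -737765, 0, 0⟩, ⟨0, 0, 1000000, -653577⟩,
  ⟨0, 0, -1000000, 522996⟩, ⟨-731000, -682000, -1176341, 0⟩, ⟨-906000, -423000, 0, -779401⟩,
  ⟨695000, 719000, 0, 587151⟩, ⟨17000, 1000000, 224648, 0⟩, ⟨-342000, -940000, 0, -448289⟩,
  ⟨-530000, -848000, -964506, 0⟩, ⟨-839000, -545000, -1276628, 0⟩]

/-- conditions -/
def k5ez : List QC :=
  [⟨-96406, 664008, 0, 0⟩, ⟨116582, -669000, 0, 0⟩, ⟨0, 0, 1000000, -491037⟩,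
  ⟨0, 0, -1000000, 443381⟩, ⟨259000, 966000, 587458, 0⟩]

/-- conditions -/
def k5ea : List QC :=
  [⟨-45252, 701515, 0, 0⟩, ⟨119952, -688705, 0, 0⟩, ⟨0, 0, 1000000, -562742⟩,
  ⟨0, 0, -1000000, 469197⟩, ⟨-643000, -766000, 0, -538172⟩, ⟨602000, 799000, 906430, 0⟩,
  ⟨-766000, -643000, -1240737, 0⟩, ⟨966000, 259000, 0, 678715⟩, ⟨602000, 799000, 0, 455014⟩,
  ⟨-927000, -375000, -1411298, 0⟩, ⟨122000, 993000, 262559, 0⟩]

/-- conditions -/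
def k6as : List QC :=
  [⟨-67488, 787100, 0, 0⟩, ⟨164982, -778120, 0, 0⟩, ⟨0, 0, 1000000, -692925⟩,
  ⟨0, 0, -1000000, 575185⟩, ⟨-829000, -559000, 0, -737809⟩, ⟨-602000, -799000, -959225, 0⟩,
  ⟨375000, 927000, 569661, 0⟩, ⟨629000, 777000, 0, 539535⟩, ⟨-946000, -326000, -1292808, 0⟩]

/-- conditions -/
def k6es : List QC :=
  [⟨-46440, 738871, 0, 0⟩, ⟨93280, -716079, 0, 0⟩, ⟨0, 0, 1000000, -575446⟩,
  ⟨0, 0, -1000000, 510848⟩, ⟨-515000, -857000, 0, -450077⟩, ⟨788000, 616000, 1110545, 0⟩,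
  ⟨788000, 616000, 0, 599886⟩, ⟨-921000, -391000, -1343236, 0⟩, ⟨982000, 191000, 0, 712954⟩]

/-- conditions -/
def k6zs : List QC :=
  [⟨-106384, 756663, 0, 0⟩, ⟨166060, -754851, 0, 0⟩, ⟨0, 0, 1000000, -661832⟩,
  ⟨0, 0, -1000000, 565240⟩, ⟨-788000, -616000, 0, -713605⟩, ⟨326000, 946000, 583083, 0⟩,
  ⟨-883000, -469000, -1262492, 0⟩]

/-- conditions -/
def k7ss : List QC :=
  [⟨-62720, 801591, 0, 0⟩, ⟨137214, -787952, 0, 0⟩, ⟨0, 0, 1000000, -698846⟩,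
  ⟨0, 0, -1000000, 608907⟩, ⟨-766000, -643000, 0, -694207⟩, ⟨530000, 848000, 738922, 0⟩,
  ⟨766000, 643000, 0, 649628⟩, ⟨1000000, 0, 0, 775065⟩]

/-- conditions -/
def k2aa : List QC :=
  [⟨-341496, 658953, 0, 0⟩, ⟨630784, -294912, 0, 0⟩, ⟨0, 0, 1000000, -1009419⟩,
  ⟨0, 0, -1000000, 186936⟩, ⟨-970000, -242000, 0, -735478⟩, ⟨1000000, 17000, 0, 280337⟩,
  ⟨70000, 998000, 0, 306122⟩, ⟨956000, -292000, 188229, 0⟩, ⟨-326000, 946000, 0, 108236⟩,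
  ⟨469000, 883000, 0, 419935⟩, ⟨993000, -122000, 0, 215881⟩, ⟨-940000, -342000, 0, -778605⟩]

/-- conditions -/
def k3as : List QC :=
  [⟨-314130, 686576, 0, 0⟩, ⟨613842, -471200, 0, 0⟩, ⟨0, 0, 1000000, -689121⟩,
  ⟨0, 0, -1000000, 263399⟩, ⟨974000, -225000, 0, 280312⟩, ⟨-208000, 978000, 0, 164411⟩,
  ⟨-946000, -326000, 0, -761338⟩, ⟨326000, 946000, 0, 413380⟩, ⟨-819000, -574000, 0, -803704⟩,
  ⟨839000, 545000, 0, 512318⟩, ⟨438000, -899000, 0, -352536⟩, ⟨-966000, -259000, 0, -746300⟩]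

/-- conditions -/
def k2as : List QC :=
  [⟨-587018, 585480, 0, 0⟩, ⟨919632, -95060, 0, 0⟩, ⟨0, 0, 1000000, -1240357⟩,
  ⟨0, 0, -1000000, 201670⟩, ⟨35000, 999000, 880778, 0⟩, ⟨87000, 996000, 0, 418505⟩,
  ⟨961000, 276000, 0, 228493⟩, ⟨-616000, 788000, 0, 101510⟩, ⟨946000, 326000, 455634, 0⟩,
  ⟨-629000, -777000, 0, -997733⟩, ⟨985000, -174000, -80683, 0⟩, ⟨-961000, -276000, 0, -729554⟩]

/-- conditions -/
def k3ea : List QC :=
  [⟨-141024, 448868, 0, 0⟩, ⟨333144, -373417, 0, 0⟩, ⟨0, 0, 1000000, -328748⟩,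
  ⟨0, 0, -1000000, 161646⟩, ⟨-588000, -809000, 0, -493908⟩, ⟨995000, -105000, 0, 326792⟩,
  ⟨-682000, 731000, 0, -203974⟩, ⟨309000, 951000, 0, 255452⟩, ⟨966000, 259000, 0, 399254⟩,
  ⟨-656000, -755000, 0, -512115⟩, ⟨-559000, -829000, 0, -487055⟩, ⟨52000, -999000, -1280703, 0⟩]

/-- conditions -/
def k2ea : List QC :=
  [⟨-239564, 244923, 0, 0⟩, ⟨450300, 949, 0, 0⟩, ⟨0, 0, 1000000, -284112⟩,
  ⟨0, 0, -1000000, 59281⟩, ⟨829000, 559000, 0, 216981⟩, ⟨0, 1000000, 0, 212080⟩,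
  ⟨-208000, -978000, 0, -501515⟩, ⟨-839000, 545000, 0, -76266⟩, ⟨946000, 326000, 0, 145900⟩,
  ⟨-391000, 921000, 0, 123411⟩, ⟨-358000, -934000, 0, -510790⟩, ⟨-105000, -995000, 0, -500258⟩]

/-- conditions -/
def k3ss : List QC :=
  [⟨-493580, 640101, 0, 0⟩, ⟨771080, -276159, 0, 0⟩, ⟨0, 0, 1000000, -796351⟩,
  ⟨0, 0, -1000000, 295410⟩, ⟨-17000, 1000000, 0, 442433⟩, ⟨-766000, -643000, 0, -818558⟩,
  ⟨891000, 454000, 0, 474607⟩, ⟨-707000, -707000, 0, -831946⟩, ⟨669000, -743000, 0, -388683⟩,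
  ⟨848000, -530000, -287683, 0⟩, ⟨-87000, 996000, 0, 408416⟩, ⟨-956000, -292000, -1433520, 0⟩]

/-- conditions -/
def k4ss : List QC :=
  [⟨-284596, 680403, 0, 0⟩, ⟨473360, -509151, 0, 0⟩, ⟨0, 0, 1000000, -598024⟩,
  ⟨0, 0, -1000000, 339386⟩, ⟨0, 1000000, 0, 275310⟩, ⟨225000, -974000, -723175, 0⟩,
  ⟨-799000, -602000, 0, -753480⟩, ⟨940000, 342000, 0, 568696⟩, ⟨602000, -799000, 0, -71975⟩,
  ⟨-122000, 993000, 0, 197891⟩, ⟨-731000, -682000, 0, -745196⟩, ⟨-839000, -545000, 0, -761500⟩]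

/-- conditions -/
def k3es : List QC :=
  [⟨-304560, 364679, 0, 0⟩, ⟨370600, -181425, 0, 0⟩, ⟨0, 0, 1000000, -250745⟩,
  ⟨0, 0, -1000000, 113771⟩, ⟨-326000, -946000, 0, -443129⟩, ⟨999000, 52000, 0, 200514⟩,
  ⟨-326000, 946000, 0, 150503⟩, ⟨-469000, -883000, -2885813, 0⟩, ⟨-545000, 839000, 0, 56113⟩,
  ⟨-156000, 988000, 1070459, 0⟩, ⟨-391000, -921000, 0, -453644⟩, ⟨-292000, -956000, 0, -437875⟩]

/-- conditions -/
def n3Z : List QC :=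
  [⟨0, 1000000, 0, 0⟩, ⟨456762, -571160, 0, 0⟩, ⟨0, 0, 1000000, -1000000⟩,
  ⟨0, 0, -1000000, 289793⟩, ⟨-777000, -629000, 0, -826493⟩, ⟨309000, 951000, 0, 253612⟩,
  ⟨978000, -208000, 0, 426058⟩, ⟨875000, 485000, 0, 535030⟩, ⟨-866000, -500000, 0, -873751⟩,
  ⟨292000, -956000, -506104, 0⟩, ⟨-682000, -731000, 0, -796060⟩, ⟨-530000, -848000, -1542788, 0⟩]

/-- conditions -/
def nZz : List QC :=
  [⟨0, 1000000, 0, 0⟩, ⟨334150, -622200, 0, 0⟩, ⟨0, 0, 1000000, -1000000⟩,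
  ⟨0, 0, -1000000, 299599⟩, ⟨-695000, -719000, 0, -719342⟩, ⟨515000, 857000, 0, 410956⟩,
  ⟨809000, -588000, 0, 305755⟩, ⟨940000, -342000, 937844, 0⟩, ⟨-766000, -643000, 0, -769730⟩,
  ⟨-669000, 743000, -853926, 0⟩, ⟨-559000, 829000, -694748, 0⟩, ⟨-766000, 643000, -1020990, 0⟩]

/-- conditions -/
def n2 : List QC :=
  [⟨-314130, 686576, 0, 0⟩, ⟨630784, -294912, 0, 0⟩, ⟨0, 0, 1000000, -1009419⟩,
  ⟨0, 0, -1000000, 186936⟩, ⟨-961000, -276000, 0, -764466⟩, ⟨105000, 995000, 0, 319075⟩,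
  ⟨998000, 70000, 0, 303641⟩, ⟨990000, -139000, 356560, 0⟩, ⟨-208000, 978000, 0, 164411⟩,
  ⟨-906000, -423000, 0, -825909⟩, ⟨643000, -766000, -621775, 0⟩, ⟨454000, 891000, 0, 418202⟩]

/-- conditions -/
def m5a : List QC :=
  [⟨-67488, 787100, 0, 0⟩, ⟨204612, -737765, 0, 0⟩, ⟨0, 0, 1000000, -692925⟩,
  ⟨0, 0, -1000000, 522996⟩, ⟨-848000, -530000, 0, -755369⟩, ⟨-656000, -755000, -1100748, 0⟩,
  ⟨934000, 358000, 0, 710755⟩, ⟨375000, 927000, 569661, 0⟩, ⟨500000, 866000, 0, 436380⟩,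
  ⟨-857000, -515000, -1292882, 0⟩, ⟨-899000, -438000, 0, -783754⟩, ⟨-276000, -961000, 0, -401811⟩]

/-- conditions -/
def oN6a : List QC :=
  [⟨0, 1000000, 0, 0⟩, ⟨134100, -793611, 0, 0⟩, ⟨0, 0, 1000000, -1000000⟩,
  ⟨0, 0, -1000000, 616906⟩, ⟨695000, -719000, 679147, 0⟩, ⟨914000, 407000, 0, 747706⟩,
  ⟨-809000, -588000, -1117926, 0⟩, ⟨-695000, -719000, 0, -695624⟩, ⟨-391000, -921000, 0, -441312⟩,
  ⟨891000, 454000, 0, 732432⟩]

/-- conditions -/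
def oN8 : List QC :=
  [⟨0, 1000000, 0, 0⟩, ⟨94328, -819945, 0, 0⟩, ⟨0, 0, 1000000, -1000000⟩,
  ⟨0, 0, -1000000, 676751⟩, ⟨-695000, -719000, 0, -695624⟩, ⟨-995000, -105000, -1214832, 0⟩,
  ⟨52000, -999000, 0, -51902⟩]

/-- conditions -/
def PA1 : List QC :=
  [⟨0, 1000000, 0, 0⟩, ⟨450300, 949, 0, 0⟩, ⟨0, 0, 1000000, -1009419⟩, ⟨0, 0, -1000000, 59281⟩,
  ⟨292000, 956000, 0, 237700⟩, ⟨616000, -788000, 0, -415027⟩, ⟨829000, 559000, 0, 216981⟩,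
  ⟨-899000, -438000, 0, -954721⟩, ⟨-819000, -574000, 0, -953929⟩, ⟨-993000, 122000, -2424594, 0⟩,
  ⟨946000, 326000, 0, 145900⟩, ⟨-921000, -391000, -3426359, 0⟩]

/-- conditions -/
def PA2 : List QC :=
  [⟨0, 1000000, 0, 0⟩, ⟨450300, 949, 0, 0⟩, ⟨0, 0, 1000000, -1240357⟩, ⟨0, 0, -1000000, 59281⟩,
  ⟨292000, 956000, 0, 237700⟩, ⟨-857000, -515000, 0, -956969⟩, ⟨839000, 545000, 0, 212909⟩,
  ⟨990000, 139000, 259649, 0⟩, ⟨-719000, -695000, 0, -968845⟩, ⟨-970000, -242000, 0, -970000⟩,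
  ⟨946000, 326000, 0, 145900⟩, ⟨-988000, 156000, -2358113, 0⟩]

/-- conditions -/
def PZ : List QC :=
  [⟨0, 1000000, 0, 0⟩, ⟨334150, -622200, 0, 0⟩, ⟨0, 0, 1000000, -1000000⟩,
  ⟨0, 0, -1000000, 299599⟩, ⟨-695000, -719000, 0, -719342⟩, ⟨515000, 857000, 0, 410956⟩,
  ⟨809000, -588000, 0, 305755⟩, ⟨940000, -342000, 937844, 0⟩, ⟨-766000, -643000, 0, -769730⟩,
  ⟨-669000, 743000, -853926, 0⟩, ⟨-559000, 829000, -694748, 0⟩, ⟨-766000, 643000, -1020990, 0⟩]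

/-- conditions -/
def PS2 : List QC :=
  [⟨0, 1000000, 0, 0⟩, ⟨919632, -95060, 0, 0⟩, ⟨0, 0, 1000000, -1240357⟩,
  ⟨0, 0, -1000000, 113771⟩, ⟨407000, 914000, 0, 316729⟩, ⟨906000, 423000, 0, 292250⟩,
  ⟨-848000, -530000, 0, -955270⟩, ⟨-669000, -743000, 0, -981646⟩, ⟨-940000, -342000, 0, -962819⟩,
  ⟨946000, 326000, 455634, 0⟩, ⟨-961000, 276000, -1768621, 0⟩, ⟨-695000, 719000, -967585, 0⟩]

/-- conditions -/
def PS3 : List QC :=
  [⟨-284596, 680403, 0, 0⟩, ⟨919632, -95060, 0, 0⟩, ⟨0, 0, 1000000, -1240357⟩,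
  ⟨0, 0, -1000000, 113771⟩, ⟨-927000, -375000, 0, -814071⟩, ⟨-87000, 996000, 0, 220374⟩,
  ⟨906000, 423000, 0, 292250⟩, ⟨-643000, -766000, 0, -992098⟩, ⟨799000, -602000, 0, -480902⟩,
  ⟨-982000, -191000, 0, -758422⟩, ⟨999000, -35000, 0, 55778⟩, ⟨743000, 669000, 0, 335660⟩]

/-- conditions -/
def PST : List QC :=
  [⟨0, 1000000, 0, 0⟩, ⟨771080, -276159, 0, 0⟩, ⟨0, 0, 1000000, -1000000⟩,
  ⟨0, 0, -1000000, 113771⟩, ⟨407000, 914000, 0, 316729⟩, ⟨-719000, -695000, 0, -875900⟩,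
  ⟨978000, -208000, 0, 100348⟩, ⟨-857000, -515000, 0, -900147⟩, ⟨-559000, -829000, 0, -874257⟩,
  ⟨982000, 191000, 0, 238637⟩, ⟨-927000, -375000, 0, -927000⟩, ⟨-1000000, -17000, -2216676, 0⟩]

theorem k4aa_ok : okH k4aa (pg 4 .a .a) = true := by decide +kernel
theorem k4az_ok : okH k4az (pg 4 .a .z) = true := by decide +kernel
theorem k4zz_ok : okH k4zz (pg 4 .z .z) = true := by decide +kernel
theorem k5as_ok : okH k5as (pg 5 .a .s) = true := by decide +kernel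
theorem k5zs_ok : okH k5zs (pg 5 .z .s) = true := by decide +kernel
theorem k6ss_ok : okH k6ss (pg 6 .s .s) = true := by decide +kernel
theorem k4ea_ok : okH k4ea (pg 4 .e .a) = true := by decide +kernel
theorem k4ez_ok : okH k4ez (pg 4 .e .z) = true := by decide +kernel
theorem k5es_ok : okH k5es (pg 5 .e .s) = true := by decide +kernel
theorem k5aa_ok : okH k5aa (pg 5 .a .a) = true := by decide +kernel
theorem k5az_ok : okH k5az (pg 5 .a .z) = true := by decide +kernel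
theorem k5ez_ok : okH k5ez (pg 5 .e .z) = true := by decide +kernel
theorem k5ea_ok : okH k5ea (pg 5 .e .a) = true := by decide +kernel
theorem k6as_ok : okH k6as (pg 6 .a .s) = true := by decide +kernel
theorem k6es_ok : okH k6es (pg 6 .e .s) = true := by decide +kernel
theorem k6zs_ok : okH k6zs (pg 6 .z .s) = true := by decide +kernel
theorem k7ss_ok : okH k7ss (pg 7 .s .s) = true := by decide +kernel
theorem k2aa_ok : okH k2aa (pg 2 .a .a) = true := by decide +kernel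
theorem k3as_ok : okH k3as (pg 3 .a .s) = true := by decide +kernel
theorem k2as_ok : okH k2as (pg 2 .a .s) = true := by decide +kernel
theorem k3ea_ok : okH k3ea (pg 3 .e .a) = true := by decide +kernel
theorem k2ea_ok : okH k2ea (pg 2 .e .a) = true := by decide +kernel
theorem k3ss_ok : okH k3ss (pg 3 .s .s) = true := by decide +kernel
theorem k4ss_ok : okH k4ss (pg 4 .s .s) = true := by decide +kernel
theorem k3es_ok : okH k3es (pg 3 .e .s) = true := by decide +kernel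

/-- numbers of crossings: digits at least `3` and rings, not the end `3` -/
def lo3Z (l : SK) : ℕ := match l with | .e => 4 | .a => 3 | .z => 4 | .s => 4
/-- digit `2` -/
def lo2 (l : SK) : ℕ := match l with | .e => 9 | .a => 2 | .z => 9 | .s => 3
def hi2 (l : SK) : ℕ := match l with | .e => 0 | .a => 2 | .z => 0 | .s => 3
/-- digit `5` -/
def lo5a (l : SK) : ℕ := match l with | .e => 9 | .a => 5 | .z => 5 | .s => 6
def hi5a (l : SK) : ℕ := match l with | .e => 0 | .a => 5 | .z => 5 | .s => 6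
/-- digits at least `6` -/
def lo6a (l : SK) : ℕ := match l with | .e => 9 | .a => 6 | .z => 6 | .s => 7
/-- digits at least `8` -/
def lo8a (_ : SK) : ℕ := 8
/-- ports of a digit `1` -/
def loP1 (l : SK) : ℕ := match l with | .e => 2 | .a => 2 | .z => 4 | .s => 3

theorem n3Z_ok : chkU n3Z .a lo3Z (fun _ => 8) = true := by decide +kernel
theorem nZz_ok : chkU nZz .z (lo .z) (fun _ => 8) = true := by decide +kernel
theorem n2_ok : chkU n2 .a lo2 hi2 = true := by decide +kernel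
theorem m5a_ok : chkU m5a .a lo5a hi5a = true := by decide +kernel
theorem oN6a_ok : chkU oN6a .a lo6a (fun _ => 8) = true := by decide +kernel
theorem oN8_ok : chkU oN8 .a lo8a (fun _ => 8) = true := by decide +kernel
theorem PA1_ok : chkU PA1 .a loP1 (fun _ => 8) = true := by decide +kernel
theorem PA2_ok : chkU PA2 .a (lo .a) (fun _ => 8) = true := by decide +kernel
theorem PZ_ok : chkU PZ .z (lo .z) (fun _ => 8) = true := by decide +kernel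
theorem PS2_ok : chkU PS2 .s (lo .s) (fun _ => 8) = true := by decide +kernel
theorem PST_ok : chkU PST .s lo3 (fun _ => 8) = true := by decide +kernel
theorem PS3_ok : chkU PS3 .s (lo .s) hi3 = true := by decide +kernel

/-! ### the ports -/

section
variable {K : KFam} (hK : KOK K) {d₀ B : ℕ}
include hK

lemma portA : InH {k | ∃ d l, ROK d l .a ∧ (2 ≤ d₀ ∨ 2 ≤ d) ∧ k ∈ K.K d l .a} PA2 := by
  rintro k ⟨d, l, h1, -, h3⟩
  exact hK.inU h1 PA2_ok (lo_le h1 (by decide)) (min_le_right _ _) k h3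

lemma portA1 (h : d₀ ≤ 1) :
    InH {k | ∃ d l, ROK d l .a ∧ (2 ≤ d₀ ∨ 2 ≤ d) ∧ k ∈ K.K d l .a} PA1 := by
  rintro k ⟨d, l, h1, h2, h3⟩
  have h4 := lo_le h1 (by decide)
  have h5 : 2 ≤ d := by omega
  refine hK.inU h1 PA1_ok ?_ (min_le_right _ _) k h3
  cases l
  · exact h4
  · exact h4
  · exact h4
  · show 3 ≤ _
    unfold crs
    simp only [SK.u]
    omega

lemma portZ : InH {k | ∃ d l, ROK d l .z ∧ k ∈ K.K d l .z} PZ := by
  rintro k ⟨d, l, h1, h3⟩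
  exact hK.inU h1 PZ_ok (lo_le h1 (by decide)) (min_le_right _ _) k h3

lemma portS : InH {k | ∃ d l, ROK d l .s ∧ (3 ≤ B ∨ 3 ≤ crs d l .s) ∧ (d₀ ≤ 2 ∨ d ≤ 2) ∧
    k ∈ K.K d l .s} PS2 := by
  rintro k ⟨d, l, h1, -, -, h3⟩
  exact hK.inU h1 PS2_ok (lo_le h1 (by decide)) (min_le_right _ _) k h3

lemma portST (hB : B ≤ 2) : InH {k | ∃ d l, ROK d l .s ∧ (3 ≤ B ∨ 3 ≤ crs d l .s) ∧
    (d₀ ≤ 2 ∨ d ≤ 2) ∧ k ∈ K.K d l .s} PST := by
  rintro k ⟨d, l, h1, h2, -, h3⟩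
  have h4 := lo_le h1 (by decide)
  have h5 : 3 ≤ crs d l .s := by omega
  refine hK.inU h1 PST_ok ?_ (min_le_right _ _) k h3
  cases l
  · exact h4
  · show 3 ≤ _
    omega
  · exact h4
  · exact h4

lemma portS3 (hd : 3 ≤ d₀) : InH {k | ∃ d l, ROK d l .s ∧ (3 ≤ B ∨ 3 ≤ crs d l .s) ∧
    (d₀ ≤ 2 ∨ d ≤ 2) ∧ k ∈ K.K d l .s} PS3 := by
  rintro k ⟨d, l, h1, -, h2, h3⟩
  have h5 : d ≤ 2 := by omega
  have h6 := h1.zl
  refine hK.inU h1 PS3_ok (lo_le h1 (by decide)) ?_ k h3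
  unfold crs
  cases l
  · simp only [SK.u, hi3]; omega
  · simp only [SK.u, hi3]; omega
  · have := h6 rfl; omega
  · simp only [SK.u, hi3]; omega

end

end Pool.Agent.Work.MP_b30479_gt.G2.CN.TD
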