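import Pool.Agent.Work.MP_b30479_gt.G2.CN.TCls
import Pool.Agent.Work.MP_b30479_gt.G2.CN.TData

/-!
# Use of the rows of the ring windows

`OL`, `OR`: the groups of the outer values; `tuse`: the bounds of a row; `Bd`: bounds of the ring
variable, of the difference of the heights and of the sum of the real parts.
-/

namespace Pool.Agent.Work.MP_b30479_gt.G2.CN.TD

open Complex SR

noncomputable section

/-- the groups `L` hold for the outer side of kind `l` of the first ring -/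
def OL (d B : ℕ) (l : SK) (L : List Grp) : Prop :=
  ∀ {K : KFam}, KOK K → ∀ {R T q q' : ℂ}, T ^ 2 + 1 = q → R ^ 2 + 1 - q = q' →
    Out I B R q q' (port K d B l) → AllOk R T L

/-- the groups `L` hold for the outer side of kind `l` of the second ring -/
def OR (x : SK) (d B : ℕ) (l : SK) (L : List Grp) : Prop :=
  ∀ {K : KFam}, KOK K → ∀ {R T q q' : ℂ}, T ^ 2 + 1 = q → R ^ 2 + 1 - q = q' →
    Out (x.sgn * I) B R q' q ((port K d B l).map (frS x.sgn)) → AllOk R T L

section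
variable {x : SK} {d B : ℕ} {l : SK}

lemma OL.nil : OL d B l [] := fun _ _ _ _ _ _ _ _ => AllOk.nil
lemma OL.a : OL d B .a (tA B (mirH PA2)) := fun hK _ _ _ _ hT hq h =>
  tA_all hT hq (portA hK).mir h
lemma OL.z : OL d B .z (tA B PZ) := fun hK _ _ _ _ hT hq h => tA_all hT hq (portZ hK) h
lemma OL.s (hd : 3 ≤ d) : OL d B .s (tA B PS3) := fun hK _ _ _ _ hT hq h =>
  tA_all hT hq (portS3 hK hd) h
lemma OL.e : OL d B .e (tF B) := fun _ _ _ _ _ hT _ h => tF_all hT h

lemma OR.nil : OR x d B l [] := fun _ _ _ _ _ _ _ _ => AllOk.nil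
lemma OR.a : OR x d B .a (tD x B (mirH PA2)) := fun hK _ _ _ _ hT hq h =>
  tD_all hT hq (portA hK).mir h
lemma OR.a1 (hd : d ≤ 1) : OR x d B .a (tD x B (mirH PA1)) := fun hK _ _ _ _ hT hq h =>
  tD_all hT hq (portA1 hK hd).mir h
lemma OR.s : OR x d B .s (tD x B PS2) := fun hK _ _ _ _ hT hq h => tD_all hT hq (portS hK) h
lemma OR.st (hB : B ≤ 2) : OR x d B .s (tD x B PST) := fun hK _ _ _ _ hT hq h =>
  tD_all hT hq (portST hK hB) h
lemma OR.e : OR x d B .e (tE x B) := fun _ _ _ _ _ hT hq h => tE_all hT hq h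

end

/-! ### bounds from the conditions -/

lemma arc_ub {n m : ℕ} {a b : ℤ} {v : ℂ} (h : (GC.arc n m a b).P v)
    (h1 : v.re ≤ (m : ℝ) / 10000) : v.re < (n : ℝ) / 10000 := by
  by_contra hc
  push Not at hc
  exact h ⟨hc, h1⟩

lemma arc_lb {n m : ℕ} {a b : ℤ} {v : ℂ} (h : (GC.arc n m a b).P v)
    (h0 : (n : ℝ) / 10000 ≤ v.re) : (m : ℝ) / 10000 < v.re := by
  by_contra hc
  push Not at hc
  exact h ⟨h0, hc⟩

/-- rough ranges of a hinge and of a ring variable -/
structure Rg (y z : ℂ) : Prop where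
  y0 : 0 ≤ y.re
  y1 : y.re ≤ 2 / 5
  z0 : z.re ≤ 0
  z1 : -(1 / 4) ≤ z.re

/-- bounds of the ring variable, of the difference of the heights and of the sum of the real parts -/
structure Bd (S Q C : ℝ) (y z : ℂ) : Prop where
  s : -z.re ≤ S
  q : z.im - y.im ≤ Q
  c : y.re - z.re ≤ C

section
variable {K : KFam} (hK : KOK K) {x : SK} {d : ℕ} {l : SK} {d' : ℕ} {l' : SK} {w R k' : ℂ}
  (t : TDt K x d l d' l' w R k')
include hK t

/-- the bounds of a row -/
theorem tuse {B B' : ℕ} (hB : crs d l x = B) (hB' : crs d' x l' = B') {gi : List GC} {o : List QC}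
    {L : List Grp} {o' : List QC} {L' : List Grp} {gy gz gu : List GC} {n code : ℕ}
    (hr : trowOk x gi o L o' L' gy gz gu n code = true)
    (hi : ∀ g ∈ gi, g.G (yH x R (Complex.cos w)))
    (ho : InH (K.K d l x) o) (ho' : InH (K.K d' l' x) o') (hL : OL d B l L)
    (hL' : OR x d' B' l' L') :
    (∀ g ∈ gy, g.P (yH x R (Complex.cos w))) ∧ (∀ g ∈ gz, g.P (-zeta w)) ∧
      ∀ g ∈ gu, g.P (yH x R (Complex.cos w) - zeta w) := by
  subst hB hB'
  refine trow hK t hr hi (ho _ t.h.mem) ho' ?_ ?_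
  · intro q q' hT hq e1 e2
    refine hL hK hT hq ?_
    rw [e1, e2]
    exact t.h.out
  · intro q q' hT hq h
    exact hL' hK hT hq h

/-- a row with bounds of the three quantities -/
theorem bd_of {B B' : ℕ} (hB : crs d l x = B) (hB' : crs d' x l' = B') {o : List QC}
    {L : List Grp} {o' : List QC} {L' : List Grp} {s1 m1 c1 m2 : ℕ} {a1 b1 a2 b2 mq cq : ℤ}
    {n code : ℕ}
    (hr : trowOk x [] o L o' L' [] [.arc s1 m1 a1 b1] [.lo mq cq, .arc c1 m2 a2 b2] n code = true)
    (ho : InH (K.K d l x) o) (ho' : InH (K.K d' l' x) o') (hL : OL d B l L)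
    (hL' : OR x d' B' l' L') (rg : Rg (yH x R (Complex.cos w)) (zeta w)) (h1 : 2500 ≤ m1)
    (h2 : 6500 ≤ m2) :
    Bd ((s1 : ℝ) / 10000) (-(mq : ℝ) / 10000) ((c1 : ℝ) / 10000) (yH x R (Complex.cos w))
      (zeta w) := by
  obtain ⟨-, rz, ru⟩ := tuse hK t hB hB' hr (fun g hg => absurd hg (List.not_mem_nil)) ho ho' hL hL'
  have m1' : (2500 : ℝ) ≤ m1 := by exact_mod_cast h1
  have m2' : (6500 : ℝ) ≤ m2 := by exact_mod_cast h2
  have g1 := arc_ub (rz _ (List.mem_cons_self)) (by rw [Complex.neg_re]; linarith only [m1', rg, rg.z1])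
  have g2 : (mq : ℝ) / 10000 ≤ (yH x R (Complex.cos w) - zeta w).im :=
    ru _ (List.mem_cons_self)
  have g3 := arc_ub (ru _ (List.mem_cons_of_mem _ List.mem_cons_self))
    (by rw [Complex.sub_re]; linarith only [m2', rg, rg.z1, rg.y1])
  rw [Complex.neg_re] at g1
  rw [Complex.sub_im] at g2
  rw [Complex.sub_re] at g3
  exact ⟨g1.le, by rw [neg_div]; linarith only [g2], g3.le⟩

/-- a row with a bound of the difference of the heights -/
theorem q_of {B B' : ℕ} (hB : crs d l x = B) (hB' : crs d' x l' = B') {o : List QC}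
    {L : List Grp} {o' : List QC} {L' : List Grp} {mq cq : ℤ} {n code : ℕ}
    (hr : trowOk x [] o L o' L' [] [] [.lo mq cq] n code = true)
    (ho : InH (K.K d l x) o) (ho' : InH (K.K d' l' x) o') (hL : OL d B l L)
    (hL' : OR x d' B' l' L') :
    (zeta w).im - (yH x R (Complex.cos w)).im ≤ -(mq : ℝ) / 10000 := by
  obtain ⟨-, -, ru⟩ := tuse hK t hB hB' hr (fun g hg => absurd hg (List.not_mem_nil)) ho ho' hL hL'
  have g2 : (mq : ℝ) / 10000 ≤ (yH x R (Complex.cos w) - zeta w).im :=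
    ru _ (List.mem_cons_self)
  rw [Complex.sub_im] at g2
  rw [neg_div]
  linarith only [g2]

/-- a row with a bound of the sum of the real parts -/
theorem c_of {B B' : ℕ} (hB : crs d l x = B) (hB' : crs d' x l' = B') {o : List QC}
    {L : List Grp} {o' : List QC} {L' : List Grp} {c1 m2 : ℕ} {a2 b2 : ℤ} {n code : ℕ}
    (hr : trowOk x [] o L o' L' [] [] [.arc c1 m2 a2 b2] n code = true)
    (ho : InH (K.K d l x) o) (ho' : InH (K.K d' l' x) o') (hL : OL d B l L)
    (hL' : OR x d' B' l' L') (rg : Rg (yH x R (Complex.cos w)) (zeta w)) (h2 : 6500 ≤ m2) :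
    (yH x R (Complex.cos w)).re - (zeta w).re ≤ (c1 : ℝ) / 10000 := by
  obtain ⟨-, -, ru⟩ := tuse hK t hB hB' hr (fun g hg => absurd hg (List.not_mem_nil)) ho ho' hL hL'
  have m2' : (6500 : ℝ) ≤ m2 := by exact_mod_cast h2
  have g3 := arc_ub (ru _ (List.mem_cons_self))
    (by rw [Complex.sub_re]; linarith only [m2', rg, rg.z1, rg.y1])
  rw [Complex.sub_re] at g3
  exact g3.le

/-- a row for the ring variables with real part below a bound -/
theorem slab {B B' : ℕ} (hB : crs d l x = B) (hB' : crs d' x l' = B') {o : List QC}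
    {L : List Grp} {o' : List QC} {L' : List Grp} {s1 m1 : ℕ} {a1 b1 mq cq : ℤ} {n code : ℕ}
    (hr : trowOk x [] o (tZ ([GC.arc s1 m1 a1 b1].map GC.qi) :: L) o' L' [] [] [.lo mq cq] n code =
      true) (hok : (GC.arc s1 m1 a1 b1).ok = true)
    (ho : InH (K.K d l x) o) (ho' : InH (K.K d' l' x) o') (hL : OL d B l L)
    (hL' : OR x d' B' l' L') (h0 : (s1 : ℝ) / 10000 ≤ -(zeta w).re)
    (h1 : -(zeta w).re ≤ (m1 : ℝ) / 10000) :
    (zeta w).im - (yH x R (Complex.cos w)).im ≤ -(mq : ℝ) / 10000 := by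
  have key := trow hK t hr (fun g hg => absurd hg (List.not_mem_nil)) (ho _ t.h.mem) ho' (by
    intro q q' hT hq e1 e2
    refine AllOk.cons ?_ (hL hK hT hq (by rw [e1, e2, ← hB]; exact t.h.out))
    refine ⟨_, expZ t.h.kre _, ?_⟩
    intro Q hQ
    obtain ⟨g, hg, rfl⟩ := List.mem_map.1 hQ
    rw [List.mem_singleton] at hg
    subst hg
    exact GC.imp (g := .arc s1 m1 a1 b1) hok ⟨by rw [Complex.neg_re]; exact h0, by rw [Complex.neg_re]; exact h1⟩) (by
    intro q q' hT hq h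
    exact hL' hK hT hq (by rw [← hB']; exact h))
  have g2 : (mq : ℝ) / 10000 ≤ (yH x R (Complex.cos w) - zeta w).im :=
    key.2.2 _ (List.mem_cons_self)
  rw [Complex.sub_im] at g2
  rw [neg_div]
  linarith only [g2]

end

end

end Pool.Agent.Work.MP_b30479_gt.G2.CN.TD
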