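import Pool.Agent.Work.MP_b30479_gt.G2.CN.RowE
import Pool.Agent.Work.MP_b30479_gt.G2.CN.TUse
import Pool.Agent.Work.MP_b30479_gt.G2.RLev

/-!
# The value of an end ring with the digit `2`

The hinge of kind `a` between a ring with the own value `k` and an end ring with the digit `2` and
the own value `k'`: `k' ^ 2 = -(i / 2) k` in the frame of the first ring. `x3as`, `x2as`: the
conditions for `k' ^ 2` from the polygons of `k`.
-/

namespace Pool.Agent.Work.MP_b30479_gt.G2.CN.TD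

open Complex SR
open scoped ComplexConjugate

noncomputable section

/-- the condition for `-(i / 2) k` from an edge of the polygon of `k` -/
def lineQ (e : (ℤ × ℤ) × (ℤ × ℤ)) : QC :=
  ⟨2000 * (e.2.1 - e.1.1), 2000 * (e.2.2 - e.1.2), 0,
    (e.2.1 - e.1.1) * e.1.2 - (e.2.2 - e.1.2) * e.1.1⟩

lemma x3as_eq : x3as = (edges (pg 3 .s .a)).map lineQ := rfl
lemma x2as_eq : x2as = (edges (pg 2 .s .a)).map lineQ := rfl

lemma line_sat {z : ℂ} {e : (ℤ × ℤ) × (ℤ × ℤ)} (h : 0 ≤ cr e.1 e.2 z) :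
    (lineQ e).Sat (-(I / 2) * z) := by
  have e1 : (-(I / 2) * z).re = z.im / 2 := by
    rw [show -(I / 2) * z = ((-(1 / 2) : ℝ) : ℂ) * (I * z) by push_cast; ring, Complex.re_ofReal_mul,
      Complex.I_mul_re]
    ring
  have e2 : (-(I / 2) * z).im = -(z.re / 2) := by
    rw [show -(I / 2) * z = ((-(1 / 2) : ℝ) : ℂ) * (I * z) by push_cast; ring, Complex.im_ofReal_mul,
      Complex.I_mul_im]
    ring
  unfold QC.Sat lineQ
  rw [e1, e2]
  unfold cr at h
  push_cast at h ⊢
  linarith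

lemma line_in {V : List (ℤ × ℤ)} {z : ℂ} (h : z ∈ PolyU V) :
    Sat ((edges V).map lineQ) (-(I / 2) * z) := by
  intro Q hQ
  obtain ⟨e, he, rfl⟩ := List.mem_map.1 hQ
  exact line_sat (h e he).le

/-- the value of an end ring with the digit `2` -/
lemma end_two {R k k' : ℂ} (hD : DB ((SK.a.sgn : ℂ) * I) 2 R (1 / k' ^ 2) = 0)
    (hh : R ^ 2 + 1 = 1 / k ^ 2 + 1 / k' ^ 2) (hR : 0 < R.re) (hk : 0 < k.re) (hk' : k' ≠ 0) :
    k' ^ 2 = -(I / 2) * k := by
  have hk0 : k ≠ 0 := ne_of_re hk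
  have hs : (SK.a.sgn : ℂ) = -1 := by
    change (((-1 : ℝ)) : ℂ) = -1
    push_cast
    rfl
  have h1 : 2 * I * R + 2 - 1 / k' ^ 2 = 0 := by
    have h2 := hD
    unfold DB at h2
    rw [hs] at h2
    simp only [cab] at h2
    linear_combination (-1 / 2) * h2
  have hI : I * I = -1 := Complex.I_mul_I
  have h3 : R = I - I * (1 / k' ^ 2) / 2 := by
    linear_combination (-I / 2) * h1 + R * hI
  have h4 : (1 / k' ^ 2) ^ 2 / 4 + 1 / k ^ 2 = 0 := by
    rw [h3] at hh
    linear_combination -hh + (1 - 1 / k' ^ 2 / 2) ^ 2 * hI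
  have h5 : (2 * k' ^ 2 - I * k) * (2 * k' ^ 2 + I * k) = 0 := by
    have h6 : 4 * (k' ^ 2) ^ 2 + k ^ 2 = 0 := by
      field_simp at h4
      linear_combination h4
    linear_combination h6 - k ^ 2 * hI
  rcases mul_eq_zero.1 h5 with h6 | h6
  · exfalso
    have h7 : 1 / k' ^ 2 = -(2 * I) / k := by
      have h8 : k' ^ 2 = I * k / 2 := by linear_combination (1 / 2) * h6
      rw [h8]
      field_simp
      linear_combination hI
    rw [h7] at h3
    have h8 : R = I - 1 / k := by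
      rw [h3]
      field_simp
      linear_combination hI
    have h9 : R.re = -(1 / k).re := by
      rw [h8, Complex.sub_re, Complex.I_re, zero_sub]
    have h10 : 0 < (1 / k).re := by
      rw [one_div, Complex.inv_re]
      exact div_pos hk (Complex.normSq_pos.2 hk0)
    linarith
  · linear_combination (1 / 2) * h6

section
variable {K : KFam} {dl : ℕ} {ll : SK} {w kl kr : ℂ}

lemma end_in {d : ℕ} (hK : KOK K) (t : RDt K d .s .a dl ll 2 .e w kl kr) :
    Sat ((edges (pg (crs d .s .a) .s .a)).map lineQ) (kr ^ 2) := by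
  have h := t.right
  have hD : DB ((SK.a.sgn : ℂ) * I) 2 (RR w kr) (1 / kr ^ 2) = 0 := h.out'
  rw [end_two hD h.hinge (r0_pos.trans h.Rre) h.kre (ne_of_re h.kre')]
  exact line_in (hK.sub h.ok.left h.mem)

lemma end3 (hK : KOK K) (t : RDt K 2 .s .a dl ll 2 .e w kl kr) : InH {kr} x3as := by
  intro k hk
  rw [Set.mem_singleton_iff] at hk
  subst hk
  rw [x3as_eq]
  exact end_in hK t

lemma end2 (hK : KOK K) (t : RDt K 1 .s .a dl ll 2 .e w kl kr) : InH {kr} x2as := by
  intro k hk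
  rw [Set.mem_singleton_iff] at hk
  subst hk
  rw [x2as_eq]
  exact end_in hK t

end

end

end Pool.Agent.Work.MP_b30479_gt.G2.CN.TD
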