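import Pool.Agent.Work.MP_b30479_gt.G2.CN.M3End
import Pool.Agent.Work.MP_b30479_gt.G2.CN.M4B
import Pool.Agent.Work.MP_b30479_gt.G2.CN.HUn
import Pool.Agent.Work.MP_b30479_gt.G2.SWordM

/-!
# Location of the saddle point of a word: assembly

`LocZ`, `LocS`: the facts about the hinges with equal signs and about the split hinges.  The rest
follows from `KOK K` and `K ≤ K0`.  For the alternating words without a digit `1` these facts are
empty (`altK`).
-/

namespace Pool.Agent.Work.MP_b30479_gt.G2.CN.LA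

open Complex SR

/-- the facts about the hinges with equal signs -/
structure LocZ (K : KFam) : Prop where
  un : ∀ {d l d' l' R k k'}, HDt K .z d l d' l' R k k' →
    (hbox (cK d l) (cK d' l') true).In (acot2 R)
  rr4 : ∀ {l d' l' R k k'}, HDt K .z 4 l d' l' R k k' → 4 ≤ d' → -(25 / 1000) ≤ (acot2 R).im
  y4z : ∀ {d' l' R k k'}, HDt K .z 4 .e d' l' R k k' → (acot2 R).re ≤ 24 / 100

/-- the facts about the split hinges -/
structure LocS (K : KFam) : Prop where
  sp : ∀ {d l d' l' R k k'}, HDt K .s d l d' l' R k k' →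
    (hbox (cK d l) .one false).In (acot2 (Sp R k)) ∧ (acot2 (Sp R k)).re < 1 / 2
  one : ∀ {l r dl ll dr rr w kl kr}, RDt K 1 l r dl ll dr rr w kl kr →
    (cw (nC r dr rr) (nC l dl ll)).In (yH l (RR w kl) (Complex.cos w)).im
      (yH r (RR w kr) (Complex.cos w)).im
  absd : ∀ {d l d' l' R k k'}, HDt K .s d l d' l' R k k' →
    (cw (cK d' l') (cK d l)).In (-(acot2 (Sp R k)).im) (-(acot2 (Sp R k')).im)
  one4 : ∀ {l d' l' R k k'}, HDt K .s 4 l d' l' R k k' → -(acot2 (Sp R k)).im ≤ 128 / 1000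
  one5 : ∀ {l d' l' R k k'}, HDt K .s 5 l d' l' R k k' → -(acot2 (Sp R k)).im ≤ 138 / 1000
  y4s : ∀ {d' l' R k k'}, HDt K .s 4 .z d' l' R k k' → (acot2 (Sp R k)).re ≤ 2969 / 10000
  y4se : ∀ {d' l' R k k'}, HDt K .s 4 .e d' l' R k k' →
    216 / 1000 ≤ (acot2 (Sp R k)).re ∧ (acot2 (Sp R k)).re ≤ 278 / 1000

section
variable {K : KFam} (hK : KOK K) (Z : LocZ K) (S : LocS K)
include hK Z S

theorem bxs : M3.Bxs K where
  un := by
    intro x d l d' l' R k k' hx h
    cases x
    · exact absurd rfl h.ok.ne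
    · exact un_a hK h
    · exact Z.un h
    · exact absurd rfl hx
  sp := S.sp

theorem boxRows (h0 : K.Le K0) : BoxRows K where
  un := (bxs hK Z S).un
  sp := S.sp
  mid h := M3.mid_box hK (bxs hK Z S) h _
  midE h := M3.mid_end hK (bxs hK Z S) h
  ring h4 h := M4.ring_box hK h0 h4 h
  ringE h4 h := M4.end_box hK h0 h4 h

theorem xRows : XRows K where
  one := S.one
  absd := S.absd
  one4a h := (y41 hK h).2.1
  one4s := S.one4
  one5a h := one5a hK le_rfl h
  one5s := S.one5
  lo4 h hd := lo4 hK h hd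
  three h hl hd := three hK h hl hd
  rr4 := by
    intro x l d' l' R k k' h hx hd
    cases x
    · exact absurd rfl h.ok.ne
    · exact rr4 hK h hd
    · exact Z.rr4 h hd
    · exact absurd rfl hx
  mid h := M3.mid_win hK (bxs hK Z S) h

theorem zRows : ZRows K where
  sE4a h := M4.sE4a hK h
  sE4s h := M4.sE4s hK h
  sE5 h hr := M4.sE5 hK h hr
  s4s h := M4.s4s hK h
  s4 h := M4.s4 hK h
  y41 h := (y41 hK h).1
  y41e h := (y41 hK h).2.2 rfl
  y42e h hl := y42e hK h hl
  y4z := Z.y4z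
  y4s := S.y4s
  y4se := S.y4se

/-- **The location of the saddle point of a word.** -/
theorem loc_all (h0 : K.Le K0) {M : ℕ} {b : Fin (M + 1) → ℤ} {w : ℕ → ℂ} (hb : ClassW b)
    (F : RingFacts) (hw : Sol b w) (hM : 1 ≤ M) (hS : Snd K b w) :
    LocOK b w ∧ Loc b (zsW b w) ∧ LocX b (zsW b w) := by
  have B := boxRows hK Z S h0
  have h1 := locOK_of_boxes hb F hw hM hS B (fun h => M3.mid_l3 hK (bxs hK Z S) h)
    (fun h4 h => hZ_of B (zRows hK Z S) h4 h) (fun h4 h => hZe_of B (zRows hK Z S) h4 h)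
  exact ⟨h1.1, h1.2, locX_of_rows hb F hw hS (xRows hK Z S)⟩

end

/-! ### alternating words without a digit `1` -/

/-- the sides of a ring in an alternating word -/
def Alt (l : SK) : Prop := l = .e ∨ l = .a

/-- the restriction to the rings in an alternating word without a digit `1` -/
def altK (K : KFam) : KFam where
  K d l r := {k | k ∈ K.K d l r ∧ 2 ≤ d ∧ Alt l ∧ Alt r}
  symm d l r := by
    ext k
    simp only [Set.mem_ofPred_eq, K.symm d l r]
    tauto

lemma altK_le (K : KFam) : (altK K).Le K := fun _ _ _ _ h => h.1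

lemma altK_ok {K : KFam} (hK : KOK K) : KOK (altK K) :=
  ⟨fun h _ hk => hK.sub h hk.1⟩

lemma not_alt_z : ¬ Alt .z := by
  rintro (h | h) <;> exact absurd h (by decide)

lemma not_alt_s : ¬ Alt .s := by
  rintro (h | h) <;> exact absurd h (by decide)

theorem altK_z (K : KFam) : LocZ (altK K) where
  un h := absurd h.mem.2.2.2 not_alt_z
  rr4 h := absurd h.mem.2.2.2 not_alt_z
  y4z h := absurd h.mem.2.2.2 not_alt_z

theorem altK_s (K : KFam) : LocS (altK K) where
  sp h := absurd h.mem.2.2.2 not_alt_s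
  one h := absurd h.left.mem.2.1 (by decide)
  absd h := absurd h.mem.2.2.2 not_alt_s
  one4 h := absurd h.mem.2.2.2 not_alt_s
  one5 h := absurd h.mem.2.2.2 not_alt_s
  y4s h := absurd h.mem.2.2.2 not_alt_s
  y4se h := absurd h.mem.2.2.2 not_alt_s

lemma le_trans' {K K' K'' : KFam} (h : K.Le K') (h' : K'.Le K'') : K.Le K'' :=
  fun _ _ _ _ hk => h' _ _ _ (h _ _ _ hk)

section
variable {M : ℕ} {b : Fin (M + 1) → ℤ} {w : ℕ → ℂ}

lemma us_alt (h2 : ∀ i, 2 ≤ (b i).natAbs) (n : ℕ) : us b n = false := by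
  by_contra hc
  rw [Bool.not_eq_false] at hc
  have h1 := (us_true hc).2.1
  have hn : n < M + 1 := by
    by_contra hn
    unfold bb at h1
    rw [dif_neg hn] at h1
    exact absurd h1 (by decide)
  rw [bb_lt hn] at h1
  have := h2 ⟨n, hn⟩
  omega

lemma snd_alt {K : KFam} (hS : Snd K b w) (h2 : ∀ i, 2 ≤ (b i).natAbs)
    (ha : ∀ h : Fin M, b h.castSucc * b h.succ < 0) : Snd (altK K) b w := by
  have hop : ∀ n, n < M → bb b n * bb b (n + 1) < 0 := by
    intro n hn
    rw [bb_lt (by omega), bb_lt (by omega)]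
    exact ha ⟨n, hn⟩
  intro n hn _
  refine ⟨hS n hn (us_alt h2 n), ?_, ?_, ?_⟩
  · unfold dg
    rw [bb_lt (by omega)]
    exact h2 _
  · by_cases h0 : n = 0
    · subst h0
      exact Or.inl lk_e
    · right
      have h3 := hop (n - 1) (by omega)
      rw [show n - 1 + 1 = n by omega, mul_comm] at h3
      rw [lk_f (by omega) (us_alt h2 _), if_neg (not_lt.2 h3.le)]
  · by_cases h0 : M ≤ n
    · exact Or.inl (rk_e h0)
    · right
      rw [rk_f (by omega) (us_alt h2 _), if_neg (not_lt.2 (hop n (by omega)).le)]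

/-- **The location of the saddle point of an alternating word without a digit `1`.** -/
theorem loc_alt {K : KFam} (hK : KOK K) (h0 : K.Le K0) (hb : ClassW b) (F : RingFacts)
    (hw : Sol b w) (hM : 1 ≤ M) (hS : Snd K b w) (h2 : ∀ i, 2 ≤ (b i).natAbs)
    (ha : ∀ h : Fin M, b h.castSucc * b h.succ < 0) :
    LocOK b w ∧ Loc b (zsW b w) ∧ LocX b (zsW b w) :=
  loc_all (altK_ok hK) (altK_z K) (altK_s K) (le_trans' (altK_le K) h0) hb F hw hM
    (snd_alt hS h2 ha)

end

end Pool.Agent.Work.MP_b30479_gt.G2.CN.LA
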