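import Pool.Agent.Work.MP_b30479_gt.G2.CN.LocA
import Pool.Agent.Work.MP_b30479_gt.G2.CN.KokR
import Pool.Agent.Work.MP_b30479_gt.G2.SRefL

/-!
# Location of the saddle point of a word: the family after three rounds
-/

namespace Pool.Agent.Work.MP_b30479_gt.G2.CN.LA

open Complex SR

variable {M : ℕ} {b : Fin (M + 1) → ℤ} {w : ℕ → ℂ}

/-- **The location of the saddle point of a word.** -/
theorem loc_kr3 (Z : LocZ Kr3) (S : LocS Kr3) (hb : ClassW b) (F : RingFacts) (hw : Sol b w)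
    (hM : 1 ≤ M) : LocOK b w ∧ Loc b (zsW b w) ∧ LocX b (zsW b w) :=
  loc_all kok_kr3 Z S Kr3_le hb F hw hM (snd3 hb hw hM)

/-- **The location of the saddle point of an alternating word without a digit `1`.** -/
theorem loc_alt_kr3 (hb : ClassW b) (F : RingFacts) (hw : Sol b w) (hM : 1 ≤ M)
    (h2 : ∀ i, 2 ≤ (b i).natAbs) (ha : ∀ h : Fin M, b h.castSucc * b h.succ < 0) :
    LocOK b w ∧ Loc b (zsW b w) ∧ LocX b (zsW b w) :=
  loc_alt kok_kr3 Kr3_le hb F hw hM (snd3 hb hw hM) h2 ha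

end Pool.Agent.Work.MP_b30479_gt.G2.CN.LA
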