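import Pool.Agent.Work.MP_b30479_gt.G2.CN.LocRT

/-!
# The region behind a digit `1`, as seen from a ring

`Bh x d l C`: kind and neighbour of a hinge of a ring next to a digit `1` whose other neighbour has
the class `C`; `beh_of`: the same for a word; `side_sd`: one side of a ring, with the data of the
side.
-/

namespace Pool.Agent.Work.MP_b30479_gt.G2.CN.TD

open Complex SR
open scoped ComplexConjugate

noncomputable section

/-- kind and neighbour of a hinge next to a digit `1` with a region of class `C` behind it -/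
def Bh (x : SK) (d : ℕ) (l : SK) (C : Cl) : Prop :=
  (x = .a ∧ d = 1 ∧ C = .one) ∨ (x = .s ∧ C = cK d l)

lemma Bh.one {x : SK} {d : ℕ} {l : SK} (h : Bh x d l .one) :
    (x = .a ∧ d = 1) ∨ (x = .s ∧ d = 1) := by
  rcases h with ⟨h1, h2, -⟩ | ⟨h1, h2⟩
  · exact Or.inl ⟨h1, h2⟩
  · refine Or.inr ⟨h1, ?_⟩
    unfold cK at h2
    split_ifs at h2 with h3
    exact h3

lemma Bh.two {x : SK} {d : ℕ} {l : SK} (h : Bh x d l .two) : x = .s ∧ d = 2 ∧ l ≠ .e := by
  rcases h with ⟨-, -, h3⟩ | ⟨h1, h2⟩
  · exact absurd h3 (by decide)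
  · exact ⟨h1, cK_two' h2⟩

lemma Bh.twoE {x : SK} {d : ℕ} {l : SK} (h : Bh x d l .twoE) : x = .s ∧ d = 2 ∧ l = .e := by
  rcases h with ⟨-, -, h3⟩ | ⟨h1, h2⟩
  · exact absurd h3 (by decide)
  · exact ⟨h1, cK_twoE h2⟩

/-- the possible classes -/
lemma Bh.cases {K : KFam} {x : SK} {d' : ℕ} {l' : SK} {d : ℕ} {l : SK} {R k k' : ℂ} {C : Cl}
    (h : Bh x d' l' C) (t : HDt K x d l d' l' R k k') (h3 : 3 ≤ d) :
    C = .one ∨ C = .two ∨ C = .twoE := by
  rcases h with ⟨-, -, h3⟩ | ⟨h1, h2⟩
  · exact Or.inl h3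
  · subst h1
    have h5 := t.ok.one rfl
    have h6 := t.ok.right.pos
    have hd : d' = 1 ∨ d' = 2 := by omega
    rw [h2]
    rcases hd with rfl | rfl
    · exact Or.inl rfl
    · by_cases hl : l' = .e
      · subst hl
        exact Or.inr (Or.inr rfl)
      · exact Or.inr (Or.inl (by simp [cK, hl]))

section
variable {M : ℕ} {b : Fin (M + 1) → ℤ} {w : ℕ → ℂ}
variable (hb : ClassW b) (F : RingFacts) (hw : Sol b w) {K : KFam} (hS : Snd K b w)
variable {h h' : Fin M} {i j j' : Fin (M + 1)} {p : Fin 3}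
include hb F hw hS

/-- the region behind a digit `1`, as seen from a ring -/
theorem beh_of {x : SK} {d : ℕ} {l : SK} (A : Adj h i p j) (A' : Adj h' j p j')
    (sd : Sd b i j p x d l) (hi : clsW b i ≠ .one) (hj : clsW b j = .one)
    (hz : x = .z → 4 ≤ d) : Bh x d l (clsW b j') := by
  have h1 := one_nat hj
  rcases Bool.eq_false_or_eq_true (us b j.val) with hu | hu
  · exact Or.inr ⟨sd.s hu, (sd.far A' hu).2⟩
  · obtain ⟨hd, hx⟩ := sd.u hu
    rw [h1] at hd
    refine Or.inl ⟨?_, hd, ?_⟩
    · split_ifs at hx with h2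
      · have := hz hx
        omega
      · exact hx
    · have A2 : Adj h' j p.rev.rev j' := by rwa [Fin.rev_rev]
      exact far_one hb F hw hS A.symm A2 hu h1 hi

/-- one side of a region which is not absorbed -/
theorem side_sd (Bx : BoxRows K) (A : Adj h i p j) (h4 : 4 ≤ (b i).natAbs) :
    ∃ (x l : SK) (d' : ℕ) (l' : SK) (R k' : ℂ),
      TDt K x (b i).natAbs l d' l' (oW b w i.val) R k' ∧
      ofr (b i) (zsW b w (.inl (.inl h))) = yH x R (Complex.cos (oW b w i.val)) ∧
      (l = .e ↔ isEnd i = true) ∧ Sd b i j p x d' l' := by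
  have hu : us b i.val = false := us_of_abs (by omega)
  have ho := oW_re hw (by have := i.2; omega) hu
  rcases A.elim with ⟨rfl, e1, e2⟩ | ⟨rfl, e1, e2⟩
  · have hh := h.2
    have hH := hdt_right hb F hw hS (n := i.val) (by omega) hu
    rw [dg_val] at hH
    refine ⟨rk b i.val, _, _, _, _, _, ⟨hH, ho.1, ho.2, fun h5 => ?_⟩, ?_, ?_, sd_right A⟩
    · rw [h5] at hH
      exact (Bx.sp hH).2
    · have ey := own_y_right F hw (n := i.val) (by omega) hu
      rw [ofr_fz, zsW_val h e1.symm]
      exact ey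
    · rw [isEnd_iff]
      constructor
      · intro h5
        left
        by_contra hc
        exact lk_ne_e (by omega) h5
      · rintro (h5 | h5)
        · rw [h5]
          exact lk_e
        · omega
  · have hh := h.2
    have hH := hdt_left hb F hw hS (n := i.val) (by omega) (by omega) hu
    rw [dg_val] at hH
    refine ⟨lk b i.val, _, _, _, _, _, ⟨hH, ho.1, ho.2, fun h5 => ?_⟩, ?_, ?_, sd_left A⟩
    · rw [h5] at hH
      exact (Bx.sp hH).2
    · have ey := own_y_left hb F hw (n := i.val) (by omega) (by omega) hu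
      rw [ofr_fz, zsW_val h (n := i.val - 1) (by omega)]
      exact ey
    · rw [isEnd_iff]
      constructor
      · intro h5
        right
        by_contra hc
        exact rk_ne_e (by omega) h5
      · rintro (h5 | h5)
        · omega
        · exact rk_e (by omega)

end

end

end Pool.Agent.Work.MP_b30479_gt.G2.CN.TD
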