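import Pool.Agent.Work.MP_b30479_gt.G2.CDefs
import Pool.Agent.Work.MP_b30479_gt.TB.Plat
import Pool.Agent.Work.NumI.Expr
import Pool.Agent.Work.MP_b30479_gt.VC.AbelPlana

/-!
# Inner variables of regions with three crossings: the equations
-/

namespace Pool.Agent.Work.MP_b30479_gt.G2.CN.M3

open Complex

/-- the two hinges and the inner variable (cotangents); `q = 1 / κ` -/
structure Tri (U V M q κ : ℂ) : Prop where
  qk : q * κ = 1
  um : (M - I) * (U + I) = q
  mv : q * (M + V + 2 * I) = -2 * I * ((M + I) * (V + I))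
  u1 : U + I ≠ 0
  v1 : V + I ≠ 0

/-- `exp (- 2 π i m)` -/
noncomputable def yv (M : ℂ) : ℂ := (M - I) / (M + I)

namespace Tri

variable {U V M q κ : ℂ} (h : Tri U V M q κ)
include h

lemma q0 : q ≠ 0 := left_ne_zero_of_mul_eq_one h.qk

lemma m1 : M + I ≠ 0 := by
  intro h0
  have h1 := h.mv
  rw [h0, zero_mul, mul_zero, show M + V + 2 * I = (M + I) + (V + I) by ring, h0, zero_add] at h1
  exact mul_ne_zero h.q0 h.v1 h1

lemma hy : yv M * (M + I) = M - I := div_mul_cancel₀ _ h.m1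

lemma eU : (U + I) * (1 - yv M + 4 * κ * yv M) = (1 - yv M) * (U - I) := by
  apply mul_right_cancel₀ h.m1
  linear_combination ((U + I) * (-1 + 4 * κ) + (U - I)) * h.hy + 4 * κ * h.um + 4 * h.qk +
    4 * Complex.I_mul_I

lemma eV : (2 - 4 * κ - yv M) * (V + I) = V - I := by
  apply mul_right_cancel₀ h.m1
  linear_combination (-(V + I)) * h.hy + (2 * I * κ) * h.mv -
    (2 * I * (M + V + 2 * I)) * h.qk - (4 * κ * ((M + I) * (V + I))) * Complex.I_mul_I

/-- the denominator of the values of the neighbours -/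
lemma eden : (4 * κ * yv M + (1 - yv M) ^ 2) * ((U + I) * (M + I) ^ 2) = 4 * (M - U) := by
  linear_combination ((U + I) * (4 * κ * (M + I) + (yv M * (M + I) + (M - I) - 2 * (M + I)))) * h.hy +
    (4 * κ * (M + I)) * h.um + (4 * (M + I)) * h.qk + (4 * (U + I)) * Complex.I_mul_I

/-- the value of the left neighbour, hinge not split -/
lemma left_a {κl ql : ℂ} (hl : ql * κl = 1) (hR : U ^ 2 + 1 = q + ql) :
    κl * (4 * κ * yv M + (1 - yv M) ^ 2) = -4 * (κ * yv M) ^ 2 := by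
  have n : (U + I) ^ 2 * (M + I) ^ 2 ≠ 0 := mul_ne_zero (pow_ne_zero 2 h.u1) (pow_ne_zero 2 h.m1)
  have e1 : κ * (M - I) * (U + I) = 1 := by linear_combination κ * h.um + h.qk
  have e2 : κ * yv M * (M + I) * (U + I) = 1 := by
    linear_combination κ * (U + I) * h.hy + e1
  have e3 : κl * (M - U) * (U + I) = -1 := by
    linear_combination κl * h.um - κl * hR - hl + κl * Complex.I_mul_I
  apply mul_right_cancel₀ n
  linear_combination (κl * (U + I)) * h.eden + 4 * e3 +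
    (4 * (κ * yv M * (M + I) * (U + I)) + 4) * e2

/-- the value behind a split hinge -/
lemma split_aux {U' R ql κl : ℂ} (hl : ql * κl = 1) (hR : R ^ 2 + 1 = q + ql)
    (hS : (U' - I) * (R + I) = q) : κ * (U' - I) ^ 2 = κl * (q - U' ^ 2 - 1) := by
  have e1 : ql * (U' - I) ^ 2 = q * (q - U' ^ 2 - 1) := by
    linear_combination (-(U' - I) ^ 2) * hR + ((R - I) * (U' - I)) * hS + q * hS +
      (U' - I) ^ 2 * Complex.I_mul_I + q * Complex.I_mul_I
  linear_combination (κl * κ) * e1 - (κ * (U' - I) ^ 2) * hl +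
    (κl * (q - U' ^ 2 - 1)) * h.qk

/-- the value of the left neighbour, hinge split -/
lemma left_s {R κl ql : ℂ} (hl : ql * κl = 1) (hR : R ^ 2 + 1 = q + ql)
    (hS : (U - I) * (R + I) = q) : κl * (4 * κ * yv M + (1 - yv M) ^ 2) =
      -(κ * (1 - yv M + 4 * κ * yv M) ^ 2) := by
  have n : (U + I) ^ 2 * (M + I) ^ 2 ≠ 0 := mul_ne_zero (pow_ne_zero 2 h.u1) (pow_ne_zero 2 h.m1)
  have e1 := h.split_aux hl hR hS
  have e2 : (1 - yv M) * (M + I) = 2 * I := by linear_combination -h.hy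
  have e3 : (U + I) * (M + I) * (1 - yv M + 4 * κ * yv M) = 2 * I * (U - I) := by
    linear_combination (M + I) * h.eU + (U - I) * e2
  have e4 : (U + I) * (M - U) = q - U ^ 2 - 1 := by
    linear_combination h.um + Complex.I_mul_I
  apply mul_right_cancel₀ n
  have e5 : κ * ((U + I) * (M + I) * (1 - yv M + 4 * κ * yv M)) ^ 2 = -4 * (κ * (U - I) ^ 2) := by
    rw [e3]
    linear_combination (4 * κ * (U - I) ^ 2) * Complex.I_mul_I
  linear_combination (κl * (U + I)) * h.eden + e5 - 4 * e1 + 4 * κl * e4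

lemma dl : (V + I) * (q - 2 + 2 * I * M) = -q * (M + I) := by
  linear_combination h.mv - (2 * (V + I)) * Complex.I_mul_I

lemma den2 : (4 * κ * yv M + (1 - yv M) ^ 2) * (M + I) ^ 2 = 4 * κ * (M ^ 2 + 1 - q) := by
  linear_combination ((4 * κ * (M + I) + (yv M * (M + I) + (M - I) - 2 * (M + I)))) * h.hy +
    (4 - 4 * κ) * Complex.I_mul_I + 4 * h.qk

lemma port : (V ^ 2 + 1 - q) * (q - 2 + 2 * I * M) ^ 2 = q ^ 2 * (M ^ 2 + 1 - q) := by
  linear_combination ((V + I) * (q - 2 + 2 * I * M) - q * (M + I) - 2 * I * (q - 2 + 2 * I * M)) *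
    h.dl + (-4 * I * q * (M + I) + 4 * q * (q + 2 * I * (M + I)) - 4 * q * (I * I + 1) - q ^ 2 +
      (q - 2 + 2 * I * M) ^ 2) * Complex.I_mul_I

/-- the value of the right neighbour, hinge not split -/
lemma right_a {κr qr : ℂ} (hr : qr * κr = 1) (hV : V ^ 2 + 1 = q + qr) :
    κr * (4 * κ * yv M + (1 - yv M) ^ 2) = -(κ * (1 - yv M - 4 * κ) ^ 2) := by
  have n : (M + I) ^ 2 ≠ 0 := pow_ne_zero 2 h.m1
  have e1 : (1 - yv M - 4 * κ) * (M + I) = 2 * I * (κ * (q - 2 + 2 * I * M)) := by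
    linear_combination -h.hy - 2 * I * h.qk - (4 * κ * M) * Complex.I_mul_I
  have e2 := h.port
  have e3 : κr * (M ^ 2 + 1 - q) = κ ^ 2 * (q - 2 + 2 * I * M) ^ 2 := by
    linear_combination (-κr * κ ^ 2) * e2 - (κr * (M ^ 2 + 1 - q) * (q * κ + 1)) * h.qk +
      (κ ^ 2 * (q - 2 + 2 * I * M) ^ 2) * (hr + κr * hV)
  apply mul_right_cancel₀ n
  have e5 : κ * ((1 - yv M - 4 * κ) * (M + I)) ^ 2 = -4 * κ * (κ ^ 2 * (q - 2 + 2 * I * M) ^ 2) := by
    rw [e1]
    linear_combination (4 * κ * (κ * (q - 2 + 2 * I * M)) ^ 2) * Complex.I_mul_I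
  linear_combination κr * h.den2 + e5 + (4 * κ) * e3

/-- the value of the right neighbour, hinge split -/
lemma right_s {R κr qr : ℂ} (hr : qr * κr = 1) (hR : R ^ 2 + 1 = q + qr)
    (hS : (V - I) * (R + I) = q) : κr * (4 * κ * yv M + (1 - yv M) ^ 2) =
      -4 * (κ * (2 - 4 * κ - yv M)) ^ 2 := by
  have n : (M + I) ^ 2 ≠ 0 := pow_ne_zero 2 h.m1
  have e1 := h.split_aux hr hR hS
  have e2 : (2 - 4 * κ - yv M) * (M + I) = -(κ * ((q - 2 + 2 * I * M) * (V - I))) := by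
    linear_combination (κ * (2 - 4 * κ - yv M)) * h.dl -
      (κ * (q - 2 + 2 * I * M)) * h.eV - ((2 - 4 * κ - yv M) * (M + I)) * h.qk
  have e3 := h.port
  apply mul_right_cancel₀ n
  have e5 : (κ * ((2 - 4 * κ - yv M) * (M + I))) ^ 2 =
      κ ^ 3 * ((q - 2 + 2 * I * M) ^ 2 * (κ * (V - I) ^ 2)) := by
    rw [e2]
    ring
  rw [e1] at e5
  linear_combination κr * h.den2 + 4 * e5 - (4 * κ ^ 3 * κr) * e3 -
    (4 * κ * κr * (M ^ 2 + 1 - q) * (q * κ + 1)) * h.qk
end Tri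

end Pool.Agent.Work.MP_b30479_gt.G2.CN.M3
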