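import Pool.Agent.Work.MP_b30479_gt.G2.CN.TTabA

/-!
# Windows of the rings next to the digit `2`
-/

namespace Pool.Agent.Work.MP_b30479_gt.G2.CN.TD

open Complex SR

noncomputable section

/-! ### next to a digit `2` inside -/

lemma RB2.of {S Q C : ℝ} {y z : ℂ} (h : Bd S Q C y z) (h1 : S ≤ 2225 / 10000)
    (h2 : Q ≤ 1400 / 10000) (h3 : Q + 13 / 10 * S ≤ 3980 / 10000) (h4 : C ≤ 4495 / 10000) :
    RB2 y z :=
  ⟨h.s.trans h1, h.q.trans h2, by linarith only [h.s, h.q, h3, h], h.c.trans h4⟩

section
variable {K : KFam} (hK : KOK K) {l : SK} {l' : SK} {w R k' : ℂ}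
include hK

/-- four crossings -/
theorem b2_4 (t : TDt K .a 4 l 2 l' w R k') (hl' : l' ≠ .e)
    (rg : Rg (yH .a R (Complex.cos w)) (zeta w)) : RB2 (yH .a R (Complex.cos w)) (zeta w) := by
  have hl := t.h.ok.left
  have hr := t.h.ok.right.symm
  have h2 := hr.zl
  cases l'
  · exact absurd rfl hl'
  · have hn := hK.inH hr k2aa_ok
    cases l
    · have h := bd_of hK t rfl rfl t2_4ea (hK.inH hl k4ea_ok) hn OL.e OR.a rg (by norm_num)
        (by norm_num)
      norm_num at h
      exact RB2.of h (by norm_num) (by norm_num) (by norm_num) (by norm_num)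
    · have h := bd_of hK t rfl rfl t2_4aa (hK.inH hl k4aa_ok) hn OL.a OR.a rg (by norm_num)
        (by norm_num)
      norm_num at h
      exact RB2.of h (by norm_num) (by norm_num) (by norm_num) (by norm_num)
    · have h := bd_of hK t rfl rfl t2_4za (hK.inH hl k4az_ok) hn OL.z OR.a rg (by norm_num)
        (by norm_num)
      norm_num at h
      obtain ⟨e1, e2, e3⟩ := h
      refine ⟨by linarith only [e1], by linarith only [e2], ?_, by linarith only [e3]⟩
      rcases le_or_gt (2030 / 10000) (-(zeta w).re) with h5 | h5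
      · have h6 := slab hK t rfl rfl t2_4ya (by decide +kernel) (hK.inH hl k4az_ok) hn OL.z OR.a
          (by norm_num; linarith only [h5]) (by norm_num; linarith only [rg.z1, e1])
        norm_num at h6
        linarith only [e1, h6]
      · linarith only [e2, h5]
    · have h := bd_of hK t rfl rfl t2_4sa (hK.inH hl k5as_ok) hn (OL.s (by norm_num)) OR.a rg
        (by norm_num) (by norm_num)
      norm_num at h
      exact RB2.of h (by norm_num) (by norm_num) (by norm_num) (by norm_num)
  · have := h2 rfl
    omega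
  · have hn := hK.inH hr k3as_ok
    cases l
    · have h := bd_of hK t rfl rfl t2_4es (hK.inH hl k4ea_ok) hn OL.e OR.s rg (by norm_num)
        (by norm_num)
      norm_num at h
      exact RB2.of h (by norm_num) (by norm_num) (by norm_num) (by norm_num)
    · have h := bd_of hK t rfl rfl t2_4as (hK.inH hl k4aa_ok) hn OL.a OR.s rg (by norm_num)
        (by norm_num)
      norm_num at h
      exact RB2.of h (by norm_num) (by norm_num) (by norm_num) (by norm_num)
    · have h := bd_of hK t rfl rfl t2_4zs (hK.inH hl k4az_ok) hn OL.z OR.s rg (by norm_num)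
        (by norm_num)
      norm_num at h
      obtain ⟨e1, e2, e3⟩ := h
      refine ⟨by linarith only [e1], by linarith only [e2], ?_, by linarith only [e3]⟩
      rcases le_or_gt (2030 / 10000) (-(zeta w).re) with h5 | h5
      · have h6 := slab hK t rfl rfl t2_4ys (by decide +kernel) (hK.inH hl k4az_ok) hn OL.z OR.s
          (by norm_num; linarith only [h5]) (by norm_num; linarith only [rg.z1, e1])
        norm_num at h6
        linarith only [e1, h6]
      · linarith only [e2, h5]
    · have h := bd_of hK t rfl rfl t2_4ss (hK.inH hl k5as_ok) hn (OL.s (by norm_num)) OR.s rg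
        (by norm_num) (by norm_num)
      norm_num at h
      exact RB2.of h (by norm_num) (by norm_num) (by norm_num) (by norm_num)

/-- five crossings -/
theorem b2_5 (t : TDt K .a 5 l 2 l' w R k') (hl' : l' ≠ .e) (hz : ZB 5 l (zeta w))
    (rg : Rg (yH .a R (Complex.cos w)) (zeta w))
    (y1 : (yH .a R (Complex.cos w)).re ≤ 252 / 1000) :
    RB2 (yH .a R (Complex.cos w)) (zeta w) := by
  have hl := t.h.ok.left
  have hn := in_n2 hK t.h.ok.right.symm hl'
  by_cases hle : l = .e
  · subst hle
    have h := bd_of hK t rfl rfl t2_5e (hK.inH hl k5ea_ok) hn OL.nil OR.nil rg (by norm_num)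
      (by norm_num)
    norm_num at h
    exact RB2.of h (by norm_num) (by norm_num) (by norm_num) (by norm_num)
  · obtain ⟨a1, a2, a3, a4⟩ := zb5 (hz.i hle)
    have key : (zeta w).im - (yH .a R (Complex.cos w)).im ≤ 1400 / 10000 := by
      cases l
      · exact absurd rfl hle
      · have h := q_of hK t rfl rfl t2_5a (hK.inH hl k5aa_ok) hn OL.a OR.nil
        norm_num at h
        linarith only [h]
      · have h := q_of hK t rfl rfl t2_5z (hK.inH hl k5az_ok) hn OL.z OR.nil
        norm_num at h
        linarith only [h]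
      · have h := q_of hK t rfl rfl t2_5s (hK.inH hl k6as_ok) hn OL.nil OR.nil
        norm_num at h
        linarith only [h]
    exact ⟨by linarith only [a1], key, by linarith only [a1, key], by linarith only [y1, a1]⟩

end

/-- **Next to a digit `2` inside.** -/
theorem b2 {K : KFam} (hK : KOK K) {d : ℕ} {l : SK} {l' : SK} {w R k' : ℂ}
    (t : TDt K .a d l 2 l' w R k') (h4 : 4 ≤ d) (hl' : l' ≠ .e)
    (hz : ZB d l (zeta w)) (hy : YB .a 2 l' (yH .a R (Complex.cos w))) :
    RB2 (yH .a R (Complex.cos w)) (zeta w) := by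
  have z0 := zb_rg h4 hz
  obtain ⟨y0, y1, y2, y3⟩ := yb2 hl' hy
  have rg : Rg (yH .a R (Complex.cos w)) (zeta w) :=
    ⟨by linarith only [y0], by linarith only [y1], z0.1, z0.2⟩
  rcases Nat.lt_or_ge d 6 with h6 | h6
  · have : d = 4 ∨ d = 5 := by omega
    rcases this with rfl | rfl
    · exact b2_4 hK t hl' rg
    · exact b2_5 hK t hl' hz rg y1
  · by_cases hle : l = .e
    · subst hle
      obtain ⟨a1, a2, a3, a4⟩ := zb6e h6 hz
      exact ⟨by linarith only [a1], by linarith only [y2, a4], by linarith only [y2, a1, a4], by linarith only [y1, a1]⟩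
    · obtain ⟨a1, a2, a3, a4⟩ := zb6 h6 (hz.i hle)
      have h := q_of hK t rfl rfl t2_6 (in_oN6a hK t.h.ok.left h6 hle)
        (in_n2 hK t.h.ok.right.symm hl') OL.nil OR.nil
      norm_num at h
      exact ⟨by linarith only [a1], by linarith only [h], by linarith only [y2, a1, a4], by linarith only [y1, a1]⟩

/-! ### next to a digit `2` at the end -/

lemma yb2e {y : ℂ} (h : YB .a 2 .e y) :
    164 / 1000 ≤ y.re ∧ y.re ≤ 186 / 1000 ∧ -(131 / 1000) ≤ y.im ∧ y.im ≤ -(88 / 1000) := by
  unfold YB at h
  obtain ⟨a1, a2, a3, a4⟩ := h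
  norm_num [hbox, cK] at a1 a2 a3 a4
  norm_num
  exact ⟨a1, a2, a3, a4⟩

lemma zb67 {d : ℕ} (h7 : d = 6 ∨ d = 7) {l : SK} {z : ℂ} (h : ZB d l z) : z.re ≤ -(3 / 100) := by
  unfold ZB at h
  obtain ⟨-, a2, -, -⟩ := h
  by_cases hl : l = .e
  · rw [decide_eq_true hl] at a2
    rcases h7 with rfl | rfl <;> norm_num [zbox] at a2 <;> linarith only [a2]
  · rw [decide_eq_false hl] at a2
    rcases h7 with rfl | rfl <;> norm_num [zbox] at a2 <;> linarith only [a2]

section
variable {K : KFam} (hK : KOK K) {l : SK} {w R k' : ℂ}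
include hK

/-- a row with bounds of the hinge and a bound of the difference of the heights -/
theorem xsq_of {x : SK} {d : ℕ} {l : SK} {d' : ℕ} {l' : SK} (t : TDt K x d l d' l' w R k')
    {B B' : ℕ} (hB : crs d l x = B) (hB' : crs d' x l' = B') {o : List QC} {L : List Grp}
    {o' : List QC} {L' : List Grp} {x0 x1 s1 m1 m2 : ℕ} {a1 b1 a2 b2 a3 b3 mq cq : ℤ} {n code : ℕ}
    (hr : trowOk x [] o L o' L' [.arc 0 x0 a2 b2, .arc x1 m2 a3 b3] [.arc s1 m1 a1 b1]
      [.lo mq cq] n code = true)
    (ho : InH (K.K d l x) o) (ho' : InH (K.K d' l' x) o') (hL : OL d B l L)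
    (hL' : OR x d' B' l' L') (rg : Rg (yH x R (Complex.cos w)) (zeta w)) (h1 : 2500 ≤ m1)
    (h2 : 4000 ≤ m2) :
    (x0 : ℝ) / 10000 ≤ (yH x R (Complex.cos w)).re ∧
      (yH x R (Complex.cos w)).re ≤ (x1 : ℝ) / 10000 ∧ -(zeta w).re ≤ (s1 : ℝ) / 10000 ∧
      (zeta w).im - (yH x R (Complex.cos w)).im ≤ -(mq : ℝ) / 10000 := by
  obtain ⟨ry, rz, ru⟩ := tuse hK t hB hB' hr (fun g hg => absurd hg (List.not_mem_nil)) ho ho'
    hL hL'
  have m1' : (2500 : ℝ) ≤ m1 := by exact_mod_cast h1
  have m2' : (4000 : ℝ) ≤ m2 := by exact_mod_cast h2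
  have g1 := arc_ub (rz _ (List.mem_cons_self)) (by rw [Complex.neg_re]; linarith only [rg.z1, m1', rg])
  have g2 : (mq : ℝ) / 10000 ≤ (yH x R (Complex.cos w) - zeta w).im :=
    ru _ (List.mem_cons_self)
  have g3 := arc_lb (ry _ (List.mem_cons_self)) (by simpa using rg.y0)
  have g4 := arc_ub (ry _ (List.mem_cons_of_mem _ List.mem_cons_self)) (by linarith only [rg.y1, m2', rg])
  rw [Complex.neg_re] at g1
  rw [Complex.sub_im] at g2
  exact ⟨g3.le, g4.le, g1.le, by rw [neg_div]; linarith only [g2]⟩

/-- four crossings inside -/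
theorem b2f (t : TDt K .a 4 l 2 .e w R k') (hl' : l ≠ .e) (hz : ZB 4 l (zeta w))
    (hy : YB .a 2 .e (yH .a R (Complex.cos w))) : RB2f (yH .a R (Complex.cos w)) (zeta w) := by
  have hl := t.h.ok.left
  have hn := hK.inH t.h.ok.right.symm k2ea_ok
  obtain ⟨y0, y1, y2, y3⟩ := yb2e hy
  obtain ⟨a1, a2, a3, a4⟩ := zb4 (hz.i hl')
  have rg : Rg (yH .a R (Complex.cos w)) (zeta w) :=
    ⟨by linarith only [y0], by linarith only [y1], by linarith only [a2], by linarith only [a1]⟩
  cases l
  · exact absurd rfl hl'
  · have h := xsq_of hK t rfl rfl te_4a (hK.inH hl k4aa_ok) hn OL.a OR.e rg (by norm_num)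
      (by norm_num)
    norm_num at h
    obtain ⟨e1, e2, e3, e4⟩ := h
    refine ⟨by linarith only [e1], by linarith only [e2], by linarith only [e3], by linarith only [e4], ?_⟩
    rcases le_or_gt (2000 / 10000) (-(zeta w).re) with h5 | h5
    · have h6 := slab hK t rfl rfl te_4aS (by decide +kernel) (hK.inH hl k4aa_ok) hn OL.a OR.e
        (by norm_num; linarith only [h5]) (by norm_num; linarith only [rg.z1, e3])
      norm_num at h6
      linarith only [e3, h6]
    · linarith only [e4, h5]
  · have h := xsq_of hK t rfl rfl te_4z (hK.inH hl k4az_ok) hn OL.z OR.e rg (by norm_num)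
      (by norm_num)
    norm_num at h
    obtain ⟨e1, e2, e3, e4⟩ := h
    refine ⟨by linarith only [e1], by linarith only [e2], by linarith only [e3], by linarith only [e4], ?_⟩
    rcases le_or_gt (2025 / 10000) (-(zeta w).re) with h5 | h5
    · have h6 := slab hK t rfl rfl te_4zS (by decide +kernel) (hK.inH hl k4az_ok) hn OL.z OR.e
        (by norm_num; linarith only [h5]) (by norm_num; linarith only [rg.z1, e3])
      norm_num at h6
      linarith only [e3, h6]
    · linarith only [e4, h5]
  · have h := xsq_of hK t rfl rfl te_4s (hK.inH hl k5as_ok) hn (OL.s (by norm_num)) OR.e rg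
      (by norm_num) (by norm_num)
    norm_num at h
    obtain ⟨e1, e2, e3, e4⟩ := h
    exact ⟨by linarith only [e1], by linarith only [e2], by linarith only [e3], by linarith only [e4], by linarith only [e3, e4]⟩

/-- the word `4 2` -/
theorem b42 (t : TDt K .a 4 .e 2 .e w R k') (hz : ZB 4 .e (zeta w))
    (hy : YB .a 2 .e (yH .a R (Complex.cos w))) : RB42 (yH .a R (Complex.cos w)) (zeta w) := by
  have hl := t.h.ok.left
  have hn := hK.inH t.h.ok.right.symm k2ea_ok
  obtain ⟨y0, y1, y2, y3⟩ := yb2e hy
  obtain ⟨a1, a2, a3, a4⟩ := zb4e hz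
  obtain ⟨ry, rz, -⟩ := tuse hK t rfl rfl te_4e (fun g hg => absurd hg (List.not_mem_nil))
    (hK.inH hl k4ea_ok) hn OL.e OR.e
  have g1 := arc_lb (ry _ (List.mem_cons_self)) (by norm_num; linarith only [y0])
  have g2 := arc_ub (ry _ (List.mem_cons_of_mem _ List.mem_cons_self)) (by norm_num; linarith only [y1])
  have g3 : ((-930 : ℤ) : ℝ) / 10000 ≤ _ := ry _ (List.mem_cons_of_mem _ (List.mem_cons_of_mem _
    List.mem_cons_self))
  have g4 : _ ≤ ((-925 : ℤ) : ℝ) / 10000 := ry _ (List.mem_cons_of_mem _ (List.mem_cons_of_mem _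
    (List.mem_cons_of_mem _ List.mem_cons_self)))
  have g5 := arc_ub (rz _ (List.mem_cons_self)) (by rw [Complex.neg_re]; norm_num; linarith only [a1, g1, g2])
  have g6 := arc_lb (rz _ (List.mem_cons_of_mem _ List.mem_cons_self))
    (by rw [Complex.neg_re]; norm_num; linarith only [a2, g1, g2])
  have g7 : ((-265 : ℤ) : ℝ) / 10000 ≤ _ := rz _ (List.mem_cons_of_mem _ (List.mem_cons_of_mem _
    List.mem_cons_self))
  rw [Complex.neg_re] at g5 g6
  rw [Complex.neg_im] at g7
  norm_num at g1 g2 g3 g4 g5 g6 g7
  exact ⟨by linarith only [g1], by linarith only [g2], by linarith only [g3], by linarith only [g4], by linarith only [g6], by linarith only [g5],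
    by linarith only [g7]⟩

/-- at least five crossings -/
theorem b2e {d : ℕ} (t : TDt K .a d l 2 .e w R k') (h5 : 5 ≤ d) (hz : ZB d l (zeta w))
    (hy : YB .a 2 .e (yH .a R (Complex.cos w))) : RB2e (yH .a R (Complex.cos w)) (zeta w) := by
  have hl := t.h.ok.left
  have hn := hK.inH t.h.ok.right.symm k2ea_ok
  obtain ⟨y0, y1, y2, y3⟩ := yb2e hy
  have z0 := zb_rg (by omega : 4 ≤ d) hz
  have rg : Rg (yH .a R (Complex.cos w)) (zeta w) :=
    ⟨by linarith only [y0], by linarith only [y1], z0.1, z0.2⟩
  rcases h5.eq_or_lt with h6 | h6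
  · subst h6
    by_cases hle : l = .e
    · subst hle
      obtain ⟨a1, a2, a3, a4⟩ := zb5e hz
      have h := bd_of hK t rfl rfl te_5e (hK.inH hl k5ea_ok) hn OL.e OR.e rg (by norm_num)
        (by norm_num)
      norm_num at h
      obtain ⟨e1, e2, e3⟩ := h
      exact ⟨by linarith only [e1], by linarith only [y2, a4, e2], by linarith only [e1, e2], by linarith only [e3], Or.inl (by linarith only [a2])⟩
    · obtain ⟨a1, a2, a3, a4⟩ := zb5 (hz.i hle)
      cases l
      · exact absurd rfl hle
      · have h := bd_of hK t rfl rfl te_5a (hK.inH hl k5aa_ok) hn OL.a OR.e rg (by norm_num)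
          (by norm_num)
        norm_num at h
        obtain ⟨e1, e2, e3⟩ := h
        exact ⟨by linarith only [e1], by linarith only [e2], by linarith only [e1, e2], by linarith only [y1, e1], Or.inl (by linarith only [a2])⟩
      · have h := bd_of hK t rfl rfl te_5z (hK.inH hl k5az_ok) hn OL.z OR.e rg (by norm_num)
          (by norm_num)
        norm_num at h
        obtain ⟨e1, e2, e3⟩ := h
        exact ⟨by linarith only [e1], by linarith only [e2], by linarith only [e1, e2], by linarith only [y1, e1], Or.inl (by linarith only [a2])⟩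
      · have h := bd_of hK t rfl rfl te_5s (hK.inH hl k6as_ok) hn OL.nil OR.e rg (by norm_num)
          (by norm_num)
        norm_num at h
        obtain ⟨e1, e2, e3⟩ := h
        exact ⟨by linarith only [e1], by linarith only [e2], by linarith only [e1, e2], by linarith only [y1, e1], Or.inl (by linarith only [a2])⟩
  · have key : 3 / 100 ≤ -(zeta w).re ∨ 171 / 1000 ≤ (yH .a R (Complex.cos w)).re := by
      rcases Nat.lt_or_ge d 8 with h8 | h8
      · left
        have h7 : d = 6 ∨ d = 7 := by omega
        linarith only [zb67 h7 hz, h7, hz]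
      · by_contra hc
        push Not at hc
        obtain ⟨c1, c2⟩ := hc
        have kz := trow hK t te_8 (fun g hg => absurd hg (List.not_mem_nil))
          ((in_oN8 hK hl h8) _ t.h.mem) hn (by
            intro q q' hT hq e1 e2
            refine allOk_one ⟨_, expZ t.h.kre _, ?_⟩
            intro Q hQ
            obtain ⟨g, hg, rfl⟩ := List.mem_map.1 hQ
            rw [List.mem_singleton] at hg
            subst hg
            refine GC.imp (by decide +kernel) ⟨?_, ?_⟩
            · rw [Complex.neg_re]
              norm_num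
              linarith only [z0]
            · rw [Complex.neg_re]
              norm_num
              linarith only [c1]) (by
            intro q q' hT hq h
            exact OR.e hK hT hq h)
        have g1 := arc_lb (kz.1 _ (List.mem_cons_self)) (by norm_num; linarith only [y0])
        norm_num at g1
        linarith only [c2, g1]
    by_cases hle : l = .e
    · subst hle
      obtain ⟨a1, a2, a3, a4⟩ := zb6e h6 hz
      exact ⟨by linarith only [a1], by linarith only [y2, a4], by linarith only [y2, a1, a4], by linarith only [y1, a1], key⟩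
    · obtain ⟨a1, a2, a3, a4⟩ := zb6 h6 (hz.i hle)
      have h := q_of hK t rfl rfl te_6 (in_oN6a hK hl h6 hle) hn OL.nil OR.e
      norm_num at h
      exact ⟨by linarith only [a1], by linarith only [h], by linarith only [a1, h], by linarith only [y1, a1], key⟩

end

end

end Pool.Agent.Work.MP_b30479_gt.G2.CN.TD
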