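import Pool.Agent.Work.MP_b30479_gt.G2.CN.RowD

/-!
# Conditions for the ring values: digits at least `5` next to a digit `1`
-/

namespace Pool.Agent.Work.MP_b30479_gt.G2.CN.TD

open Complex SR

/-- digits at least `6`, split hinge -/
def lo7s (l : SK) : ℕ := match l with | .e => 9 | .a => 7 | .z => 7 | .s => 8
/-- end digits at least `6` -/
def lo6e (l : SK) : ℕ := match l with | .e => 6 | .a => 9 | .z => 9 | .s => 9
/-- end digits at least `6`, split hinge -/
def lo7e (l : SK) : ℕ := match l with | .e => 7 | .a => 9 | .z => 9 | .s => 9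
/-- digit `5`, split hinge: smallest number of crossings -/
def lo5s (l : SK) : ℕ := match l with | .e => 9 | .a => 6 | .z => 6 | .s => 7
/-- digit `5`, split hinge: largest number of crossings -/
def hi5s (l : SK) : ℕ := match l with | .e => 0 | .a => 6 | .z => 6 | .s => 7

theorem oN6e_ok : chkU oN6e .a lo6e (fun _ => 8) = true := by decide +kernel
theorem oN7s_ok : chkU oN7s .s lo7s (fun _ => 8) = true := by decide +kernel
theorem oN7f_ok : chkU oN7f .s lo7e (fun _ => 8) = true := by decide +kernel
theorem h6s_ok : chkU h6s .s lo5s hi5s = true := by decide +kernel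

section
variable {K : KFam} (hK : KOK K)
include hK

lemma in_oN6e {d : ℕ} (h : ROK d .e .a) (hd : 6 ≤ d) : InH (K.K d .e .a) oN6e := by
  refine hK.inU h oN6e_ok ?_ (min_le_right _ _)
  unfold crs
  simp only [SK.u, lo6e]
  omega

lemma in_oN7s {d : ℕ} {l : SK} (h : ROK d l .s) (hd : 6 ≤ d) (hl : l ≠ .e) :
    InH (K.K d l .s) oN7s := by
  refine hK.inU h oN7s_ok ?_ (min_le_right _ _)
  unfold crs
  cases l <;> simp only [SK.u, lo7s]
  · exact absurd rfl hl
  all_goals omega

lemma in_oN7f {d : ℕ} (h : ROK d .e .s) (hd : 6 ≤ d) : InH (K.K d .e .s) oN7f := by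
  refine hK.inU h oN7f_ok ?_ (min_le_right _ _)
  unfold crs
  simp only [SK.u, lo7e]
  omega

lemma in_h6s {l : SK} (h : ROK 5 l .s) (hl : l ≠ .e) : InH (K.K 5 l .s) h6s := by
  refine hK.inU h h6s_ok ?_ ?_
  · unfold crs
    cases l <;> simp only [SK.u, lo5s]
    · exact absurd rfl hl
    all_goals omega
  · unfold crs
    cases l <;> simp only [SK.u, hi5s]
    · exact absurd rfl hl
    all_goals omega

end

end Pool.Agent.Work.MP_b30479_gt.G2.CN.TD
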