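import Pool.Agent.Work.MP_b30479_gt.G2.CN.TCls

/-!
# Definitions of the tests of rows and of the lists of conditions

The rows need these definitions only.
-/

namespace Pool.Agent.Work.MP_b30479_gt.G2.CN

/-! ### TSpl -/

namespace TD

noncomputable section

open Complex SR Ev

/-- the hinge on the side of the second ring minus the ring variable -/
def tV (H : List QC) : Grp := ⟨.mul (tr2 1 0) zp, .mul tq2 zm, (rfl : 3 = 3), H⟩

/-- the check of a row at a split hinge -/
def trowOkV (gi : List GC) (o : List QC) (L : List Grp) (o' : List QC) (L' : List Grp)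
    (gy gz gu gv : List GC) (n code : ℕ) : Bool :=
  row (tsOf .s gi o L o' L') (goT .s gy gz gu ++ [tV (gv.map GC.q)]) n code rootT &&
    (gi.all GC.oki && gy.all GC.ok && gz.all GC.ok && gu.all GC.ok && gv.all GC.ok)

end

end TD

/-! ### TLef -/

namespace TD

noncomputable section

open Complex SR Ev

/-- `DB I 6 R q / 2` -/
def tl6 : Ev := .nl (.add
  (.sc 1 (.mul (.gm 0 0 2 0 .R) (.add (.sub (.nm 3 (.sq (.sq .q))) (.sc 2 (.nm 10 (.sq .q)))
    (rfl : 4 = 4)) (.sc 4 (.k 3 0 0 0)) (rfl : 4 = 4))))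
  (.mul (.sub (.sq .q) (.sc 2 one) (rfl : 2 = 2)) (.add (.sub (.sq (.sq .q))
    (.sc 2 (.nm 14 (.sq .q))) (rfl : 4 = 4)) (.sc 4 one) (rfl : 4 = 4))) (rfl : 6 = 6))

/-- the exponential of the hinge on the other side -/
def tLx (x : SK) (H : List QC) : Grp :=
  match x with
  | .s => ⟨.mul tq tl4, .gm 0 1 0 0 tl6, (rfl : 6 = 6), H⟩
  | _ => ⟨.mul tq tl3, .gm 0 1 0 0 tl5, (rfl : 5 = 5), H⟩

/-- the exponential of the hinge on the other side minus the ring variable -/
def tMx (x : SK) (H : List QC) : Grp :=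
  match x with
  | .s => ⟨.mul (.mul tq tl4) zp, .mul (.gm 0 1 0 0 tl6) zm, (rfl : 7 = 7), H⟩
  | _ => ⟨.mul (.mul tq tl3) zp, .mul (.gm 0 1 0 0 tl5) zm, (rfl : 6 = 6), H⟩

/-- the groups of a row with conditions for the hinge (`gi`), for the hinge minus the ring variable
(`ui`), for the other hinge (`li`), for the other hinge minus the ring variable (`ul`) -/
def tsL (x : SK) (gi ui li ul : List GC) (o : List QC) (L : List Grp) (o' : List QC)
    (L' : List Grp) : List Grp :=
  tYx x (gi.map GC.qi) :: tUx x (ui.map GC.qi) :: tLx x (li.map GC.qi) ::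
    tMx x (ul.map GC.qi) :: tl o :: tr (ownR x o') :: (L ++ L')

/-- the check of a row; `gl`: goals for the other hinge -/
def trowOkL (x : SK) (gi ui li ul : List GC) (o : List QC) (L : List Grp) (o' : List QC)
    (L' : List Grp) (gy gz gu gl : List GC) (n code : ℕ) : Bool :=
  row (tsL x gi ui li ul o L o' L') (goT x gy gz gu ++ [tLx x (gl.map GC.q)]) n code rootT &&
    (gi.all GC.oki && ui.all GC.oki && li.all GC.oki && ul.all GC.oki && gy.all GC.ok &&
      gz.all GC.ok && gu.all GC.ok && gl.all GC.ok)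

end

end TD

/-! ### TAlt -/

noncomputable section

open Complex SR

/-- both constraints of the pair `k` fail -/
def anyAt (E : Env) (al : List (Con × Con)) : ℕ → Bool :=
  @List.rec (Con × Con) (fun _ => ℕ → Bool) (fun _ => false)
    (fun p _ ih k => @Nat.rec (fun _ => Bool) (cond (p.1.fails E) (p.2.fails E) false)
      (fun k' _ => ih k') k) al

/-- all constraints of the pairs are valid -/
def allG2 (al : List (Con × Con)) : Bool :=
  @List.rec (Con × Con) (fun _ => Bool) true (fun p _ ih => cB p.1.g (cB p.2.g ih false) false) al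

/-- one step: digit `t`, first cell `C`; `pd`: the digit is the number of a pair for `C` -/
def stepA (cs : CT) (gs : List Con) (al : List (Con × Con)) (t : ℕ) (pd : Bool) (st' : List Cell) (C : Cell)
    (k : Bool → List Cell → Bool) : Bool :=
  cB pd (cB (anyAt (envOf C) al t) (k false st') false)
    (cB (Nat.ble t (nat_lit 11)) (cut t C fun A B => k false (A :: B :: st'))
      (cB (Nat.beq t (nat_lit 12)) (cB (allF gs (envOf C)) (k true (C :: st')) false)
        (cB (cs.get t (envOf C)) (k false st') false)))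

/-- at most `n` steps with the digits of `code`, then `k` -/
def innerA (cs : CT) (gs : List Con) (al : List (Con × Con)) (n : ℕ) :
    ℕ → Bool → List Cell → (Bool → List Cell → Bool) → Bool :=
  @Nat.rec (fun _ => ℕ → Bool → List Cell → (Bool → List Cell → Bool) → Bool) (fun _ pd st k => k pd st)
    (fun _ ih code pd st k => @List.rec Cell (fun _ => Bool) true
      (fun C st' _ => stepA cs gs al (Nat.mod code (nat_lit 64)) pd st' C
        fun pd' s => ih (Nat.div code (nat_lit 64)) pd' s k) st) n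

/-- the checker with alternatives; `64` digits at a time -/
def runA (cs : CT) (gs : List Con) (al : List (Con × Con)) (n : ℕ) : ℕ → Bool → List Cell → Bool :=
  @Nat.rec (fun _ => ℕ → Bool → List Cell → Bool)
    (fun _ _ st => @List.rec Cell (fun _ => Bool) true (fun _ _ _ => false) st)
    (fun _ ih code pd st => innerA cs gs al (nat_lit 64) (Nat.mod code (nat_lit 39402006196394479212279040100143613805079739270465446667948293404245721771497210611414266254884915640806627990306816)) pd st
      (ih (Nat.div code (nat_lit 39402006196394479212279040100143613805079739270465446667948293404245721771497210611414266254884915640806627990306816)))) n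

/-- a run of the checker: groups `l`, goals `go`, pairs of conditions for two quotients -/
def rowA (l go : List Grp) (gZ gU : Grp) (al : List (QC × QC)) (n code : ℕ) (C : Cell) : Bool :=
  cB (inC C) (cB (allG (csOf l)) (cB (allG (csOf go))
    (cB (allG2 (al.map fun p => (mkCon p.1 gZ.N gZ.M gZ.hd, mkCon p.2 gU.N gU.M gU.hd)))
      (cB (Nat.ble (nat_lit 1048576) n)
        (cB (Nat.ble (mk0 (csOf go)) (nat_lit 4294967295))
          (partC (ofL 7 (nat_lit 0) (csOf l)) (csOf go)
            (al.map fun p => (mkCon p.1 gZ.N gZ.M gZ.hd, mkCon p.2 gU.N gU.M gU.hd))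
            (Nat.sub n (nat_lit 1048576)) code (.cons C (Nat.succ (mk0 (csOf go))) .nil) .nil) false)
        (runA (ofL 6 (nat_lit 13) (csOf l)) (csOf go)
          (al.map fun p => (mkCon p.1 gZ.N gZ.M gZ.hd, mkCon p.2 gU.N gU.M gU.hd)) n code false [C]))
      false) false) false) false

end

/-! ### TAlt -/

namespace TD

noncomputable section

open Complex SR

/-- the check of a row with alternatives -/
def trowOkA (x : SK) (gi : List GC) (o : List QC) (L : List Grp) (o' : List QC) (L' : List Grp)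
    (gy gz gu : List GC) (al : List (GC × GC)) (n code : ℕ) : Bool :=
  rowA (tsOf x gi o L o' L') (goT x gy gz gu) (tZ []) (tUx x []) (al.map fun p => (p.1.q, p.2.q))
      n code rootT &&
    (gi.all GC.oki && gy.all GC.ok && gz.all GC.ok && gu.all GC.ok &&
      al.all fun p => p.1.ok && p.2.ok)

/-- the same with conditions for the hinge on the other side -/
def trowOkLA (x : SK) (gi ui li ul : List GC) (o : List QC) (L : List Grp) (o' : List QC)
    (L' : List Grp) (gy gz gu gl : List GC) (al : List (GC × GC)) (n code : ℕ) : Bool :=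
  rowA (tsL x gi ui li ul o L o' L') (goT x gy gz gu ++ [tLx x (gl.map GC.q)]) (tZ []) (tUx x [])
      (al.map fun p => (p.1.q, p.2.q)) n code rootT &&
    (gi.all GC.oki && ui.all GC.oki && li.all GC.oki && ul.all GC.oki && gy.all GC.ok &&
      gz.all GC.ok && gu.all GC.ok && gl.all GC.ok && al.all fun p => p.1.ok && p.2.ok)

end

end TD

/-! ### TDatb -/

namespace TD

section

open Complex SR

/-- conditions -/
def oN6e : List QC :=
  [⟨0, 1000000, 0, 0⟩, ⟨77176, -767193, 0, 0⟩, ⟨0, 0, 1000000, -1000000⟩,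
  ⟨0, 0, -1000000, 585273⟩, ⟨423000, -906000, 416521, 0⟩, ⟨391000, 921000, 0, 328796⟩,
  ⟨-242000, -970000, 0, -262019⟩, ⟨990000, 139000, 0, 763353⟩, ⟨1000000, 0, 0, 762720⟩,
  ⟨-530000, -848000, 0, -530000⟩]

/-- conditions -/
def oN7s : List QC :=
  [⟨0, 1000000, 0, 0⟩, ⟨116556, -775333, 0, 0⟩, ⟨0, 0, 1000000, -1000000⟩,
  ⟨0, 0, -1000000, 607914⟩, ⟨-669000, -743000, 0, -673090⟩, ⟨70000, -998000, 0, -62282⟩]

/-- conditions -/
def oN7f : List QC :=
  [⟨0, 1000000, 0, 0⟩, ⟨58542, -785680, 0, 0⟩, ⟨0, 0, 1000000, -1000000⟩,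
  ⟨0, 0, -1000000, 614852⟩, ⟨469000, -883000, 466873, 0⟩, ⟨777000, 629000, 0, 634729⟩,
  ⟨-87000, -996000, 0, -127228⟩, ⟨-438000, -899000, 0, -438341⟩]

/-- conditions -/
def h6s : List QC :=
  [⟨-62720, 801591, 0, 0⟩, ⟨166060, -754851, 0, 0⟩, ⟨0, 0, 1000000, -698846⟩,
  ⟨0, 0, -1000000, 565240⟩, ⟨-839000, -545000, 0, -746114⟩, ⟨682000, 731000, 0, 575687⟩,
  ⟨515000, 857000, 721706, 0⟩, ⟨-899000, -438000, -1276554, 0⟩, ⟨978000, 208000, 0, 751099⟩,
  ⟨242000, 970000, 0, 254802⟩, ⟨-292000, -956000, 0, -384934⟩]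

end

end TD

/-! ### TDatd -/

namespace TD

section

open Complex SR

/-- conditions -/
def nZa : List QC :=
  [⟨0, 1000000, 0, 0⟩, ⟨323468, -664995, 0, 0⟩, ⟨0, 0, 1000000, -1000000⟩,
  ⟨0, 0, -1000000, 322174⟩, ⟨-707000, -707000, 0, -726653⟩, ⟨309000, 951000, 0, 253612⟩,
  ⟨788000, -616000, 0, 324273⟩, ⟨-469000, -883000, 0, -602120⟩, ⟨-743000, -669000, 0, -751163⟩,
  ⟨-695000, -719000, -1505041, 0⟩, ⟨-643000, -766000, 0, -689998⟩, ⟨-407000, 914000, -505188, 0⟩]

/-- pairs of conditions -/
def al4e1 : List (GC × GC) :=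
  [(.hi (-220) 1318456, .arc 4600 9599 (-248702) (-968580)),
  (.hi (-230) 1335129, .arc 4610 9609 (-242611) (-970124)),
  (.hi (-240) 1352012, .arc 4620 9619 (-236511) (-971629)),
  (.hi (-250) 1369109, .arc 4630 9629 (-230402) (-973096)),
  (.hi (-260) 1386423, .arc 4640 9639 (-224283) (-974524)),
  (.hi (-270) 1403955, .arc 4650 9649 (-218156) (-975914)),
  (.hi (-280) 1421709, .arc 4660 9659 (-212019) (-977265)),
  (.hi (-290) 1439687, .arc 4670 9669 (-205875) (-978578)),
  (.hi (-300) 1457893, .arc 4680 9679 (-199722) (-979853)),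
  (.hi (-310) 1476329, .arc 4690 9689 (-193562) (-981088)),
  (.hi (-320) 1494998, .arc 4700 9699 (-187394) (-982285)),
  (.hi (-330) 1513903, .arc 4710 9709 (-181218) (-983443)),
  (.hi (-340) 1533047, .arc 4720 9719 (-175035) (-984562)),
  (.hi (-350) 1552434, .arc 4730 9729 (-168846) (-985642)),
  (.hi (-360) 1572065, .arc 4740 9739 (-162650) (-986684)),
  (.hi (-370) 1591945, .arc 4750 9749 (-156447) (-987686)),
  (.hi (-380) 1612076, .arc 4760 9759 (-150238) (-988650)),
  (.hi (-390) 1632462, .arc 4770 9769 (-144023) (-989574)),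
  (.hi (-400) 1653106, .arc 4780 9779 (-137803) (-990460)),
  (.hi (-410) 1674010, .arc 4790 9789 (-131577) (-991306)),
  (.hi (-420) 1695179, .arc 4800 9799 (-125346) (-992113))]

/-- pairs of conditions -/
def al4e2 : List (GC × GC) :=
  [(.hi (-320) 1494998, .arc 4340 9339 (-402918) (-915236)),
  (.hi (-330) 1513903, .arc 4350 9349 (-397159) (-917750)),
  (.hi (-340) 1533047, .arc 4360 9359 (-391385) (-920227)),
  (.hi (-350) 1552434, .arc 4370 9369 (-385596) (-922668)),
  (.hi (-360) 1572065, .arc 4380 9379 (-379791) (-925072)),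
  (.hi (-370) 1591945, .arc 4390 9389 (-373971) (-927440)),
  (.hi (-380) 1612076, .arc 4400 9399 (-368136) (-929772)),
  (.hi (-390) 1632462, .arc 4410 9409 (-362287) (-932067)),
  (.hi (-400) 1653106, .arc 4420 9419 (-356424) (-934324)),
  (.hi (-410) 1674010, .arc 4430 9429 (-350546) (-936545)),
  (.hi (-420) 1695179, .arc 4440 9439 (-344655) (-938730)),
  (.hi (-430) 1716616, .arc 4450 9449 (-338750) (-940877)),
  (.hi (-440) 1738324, .arc 4460 9459 (-332831) (-942986)),
  (.hi (-450) 1760306, .arc 4470 9469 (-326900) (-945059)),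
  (.hi (-460) 1782566, .arc 4480 9479 (-320956) (-947094)),
  (.hi (-470) 1805108, .arc 4490 9489 (-314998) (-949092))]

/-- pairs of conditions -/
def al4e2e : List (GC × GC) :=
  [(.hi (-180) 1253821, .arc 3880 8879 (-647066) (-762434)),
  (.hi (-190) 1269677, .arc 3890 8889 (-642262) (-766485)),
  (.hi (-200) 1285732, .arc 3900 8899 (-637434) (-770505)),
  (.hi (-210) 1301991, .arc 3910 8909 (-632580) (-774495)),
  (.hi (-220) 1318456, .arc 3920 8919 (-627701) (-778454)),
  (.hi (-230) 1335129, .arc 3930 8929 (-622798) (-782383))]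

/-- pairs of conditions -/
def al4e3 : List (GC × GC) :=
  [(.hi (-380) 1612076, .arc 4230 9229 (-465162) (-885225)),
  (.hi (-390) 1632462, .arc 4240 9239 (-459591) (-888131)),
  (.hi (-400) 1653106, .arc 4250 9249 (-454002) (-891001)),
  (.hi (-410) 1674010, .arc 4260 9259 (-448394) (-893836)),
  (.hi (-420) 1695179, .arc 4270 9269 (-442769) (-896635)),
  (.hi (-430) 1716616, .arc 4280 9279 (-437127) (-899400)),
  (.hi (-440) 1738324, .arc 4290 9289 (-431467) (-902129)),
  (.hi (-450) 1760306, .arc 4300 9299 (-425791) (-904822)),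
  (.hi (-460) 1782566, .arc 4310 9309 (-420097) (-907479)),
  (.hi (-470) 1805108, .arc 4320 9319 (-414387) (-910101)),
  (.hi (-480) 1827934, .arc 4330 9329 (-408661) (-912686)),
  (.hi (-490) 1851050, .arc 4340 9339 (-402918) (-915236)),
  (.hi (-500) 1874458, .arc 4350 9349 (-397159) (-917750)),
  (.hi (-510) 1898161, .arc 4360 9359 (-391385) (-920227))]

/-- pairs of conditions -/
def al4e3e : List (GC × GC) :=
  [(.hi (-310) 1476329, .arc 3980 8979 (-597915) (-801559)),
  (.hi (-320) 1494998, .arc 3990 8989 (-592867) (-805300)),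
  (.hi (-330) 1513903, .arc 4000 8999 (-587795) (-809010)),
  (.hi (-340) 1533047, .arc 4010 9009 (-582701) (-812687)),
  (.hi (-350) 1552434, .arc 4020 9019 (-577583) (-816332)),
  (.hi (-360) 1572065, .arc 4030 9029 (-572442) (-819945)),
  (.hi (-370) 1591945, .arc 4040 9039 (-567279) (-823525)),
  (.hi (-380) 1612076, .arc 4050 9049 (-562094) (-827074)),
  (.hi (-390) 1632462, .arc 4060 9059 (-556886) (-830589)),
  (.hi (-400) 1653106, .arc 4070 9069 (-551656) (-834072)),
  (.hi (-410) 1674010, .arc 4080 9079 (-546405) (-837521)),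
  (.hi (-420) 1695179, .arc 4090 9089 (-541132) (-840938)),
  (.hi (-430) 1716616, .arc 4100 9099 (-535837) (-844321))]

/-- pairs of conditions -/
def al4eZ : List (GC × GC) :=
  [(.hi (-400) 1653106, .arc 4220 9219 (-470715) (-882285)),
  (.hi (-410) 1674010, .arc 4230 9229 (-465162) (-885225)),
  (.hi (-420) 1695179, .arc 4240 9239 (-459591) (-888131)),
  (.hi (-430) 1716616, .arc 4250 9249 (-454002) (-891001)),
  (.hi (-440) 1738324, .arc 4260 9259 (-448394) (-893836)),
  (.hi (-450) 1760306, .arc 4270 9269 (-442769) (-896635)),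
  (.hi (-460) 1782566, .arc 4280 9279 (-437127) (-899400)),
  (.hi (-470) 1805108, .arc 4290 9289 (-431467) (-902129)),
  (.hi (-480) 1827934, .arc 4300 9299 (-425791) (-904822)),
  (.hi (-490) 1851050, .arc 4310 9309 (-420097) (-907479)),
  (.hi (-500) 1874458, .arc 4320 9319 (-414387) (-910101)),
  (.hi (-510) 1898161, .arc 4330 9329 (-408661) (-912686)),
  (.hi (-520) 1922165, .arc 4340 9339 (-402918) (-915236)),
  (.hi (-530) 1946472, .arc 4350 9349 (-397159) (-917750)),
  (.hi (-540) 1971086, .arc 4360 9359 (-391385) (-920227)),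
  (.hi (-550) 1996012, .arc 4370 9369 (-385596) (-922668)),
  (.hi (-560) 2021253, .arc 4380 9379 (-379791) (-925072)),
  (.hi (-570) 2046813, .arc 4390 9389 (-373971) (-927440)),
  (.hi (-580) 2072696, .arc 4400 9399 (-368136) (-929772)),
  (.hi (-590) 2098907, .arc 4410 9409 (-362287) (-932067)),
  (.hi (-600) 2125449, .arc 4420 9419 (-356424) (-934324)),
  (.hi (-610) 2152326, .arc 4430 9429 (-350546) (-936545)),
  (.hi (-620) 2179544, .arc 4440 9439 (-344655) (-938730)),
  (.hi (-630) 2207106, .arc 4450 9449 (-338750) (-940877)),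
  (.hi (-640) 2235016, .arc 4460 9459 (-332831) (-942986)),
  (.hi (-650) 2263279, .arc 4470 9469 (-326900) (-945059))]

/-- pairs of conditions -/
def al4eZs : List (GC × GC) :=
  [(.hi (-440) 1738324, .arc 4260 9259 (-448394) (-893836)),
  (.hi (-450) 1760306, .arc 4270 9269 (-442769) (-896635)),
  (.hi (-460) 1782566, .arc 4280 9279 (-437127) (-899400)),
  (.hi (-470) 1805108, .arc 4290 9289 (-431467) (-902129)),
  (.hi (-480) 1827934, .arc 4300 9299 (-425791) (-904822)),
  (.hi (-490) 1851050, .arc 4310 9309 (-420097) (-907479)),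
  (.hi (-500) 1874458, .arc 4320 9319 (-414387) (-910101)),
  (.hi (-510) 1898161, .arc 4330 9329 (-408661) (-912686)),
  (.hi (-520) 1922165, .arc 4340 9339 (-402918) (-915236)),
  (.hi (-530) 1946472, .arc 4350 9349 (-397159) (-917750)),
  (.hi (-540) 1971086, .arc 4360 9359 (-391385) (-920227)),
  (.hi (-550) 1996012, .arc 4370 9369 (-385596) (-922668)),
  (.hi (-560) 2021253, .arc 4380 9379 (-379791) (-925072)),
  (.hi (-570) 2046813, .arc 4390 9389 (-373971) (-927440)),
  (.hi (-580) 2072696, .arc 4400 9399 (-368136) (-929772)),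
  (.hi (-590) 2098907, .arc 4410 9409 (-362287) (-932067)),
  (.hi (-600) 2125449, .arc 4420 9419 (-356424) (-934324)),
  (.hi (-610) 2152326, .arc 4430 9429 (-350546) (-936545)),
  (.hi (-620) 2179544, .arc 4440 9439 (-344655) (-938730)),
  (.hi (-630) 2207106, .arc 4450 9449 (-338750) (-940877)),
  (.hi (-640) 2235016, .arc 4460 9459 (-332831) (-942986)),
  (.hi (-650) 2263279, .arc 4470 9469 (-326900) (-945059))]

/-- pairs of conditions -/
def al4i1 : List (GC × GC) :=
  [(.hi (-330) 1513903, .arc 4480 9479 (-320956) (-947094)),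
  (.hi (-340) 1533047, .arc 4490 9489 (-314998) (-949092)),
  (.hi (-350) 1552434, .arc 4500 9499 (-309029) (-951053)),
  (.hi (-360) 1572065, .arc 4510 9509 (-303047) (-952976)),
  (.hi (-370) 1591945, .arc 4520 9519 (-297054) (-954861)),
  (.hi (-380) 1612076, .arc 4530 9529 (-291048) (-956708)),
  (.hi (-390) 1632462, .arc 4540 9539 (-285031) (-958518)),
  (.hi (-400) 1653106, .arc 4550 9549 (-279003) (-960290)),
  (.hi (-410) 1674010, .arc 4560 9559 (-272964) (-962024)),
  (.hi (-420) 1695179, .arc 4570 9569 (-266914) (-963720)),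
  (.hi (-430) 1716616, .arc 4580 9579 (-260854) (-965378)),
  (.hi (-440) 1738324, .arc 4590 9589 (-254783) (-966998)),
  (.hi (-450) 1760306, .arc 4600 9599 (-248702) (-968580)),
  (.hi (-460) 1782566, .arc 4610 9609 (-242611) (-970124)),
  (.hi (-470) 1805108, .arc 4620 9619 (-236511) (-971629)),
  (.hi (-480) 1827934, .arc 4630 9629 (-230402) (-973096)),
  (.hi (-490) 1851050, .arc 4640 9639 (-224283) (-974524)),
  (.hi (-500) 1874458, .arc 4650 9649 (-218156) (-975914)),
  (.hi (-510) 1898161, .arc 4660 9659 (-212019) (-977265)),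
  (.hi (-520) 1922165, .arc 4670 9669 (-205875) (-978578)),
  (.hi (-530) 1946472, .arc 4680 9679 (-199722) (-979853)),
  (.hi (-540) 1971086, .arc 4690 9689 (-193562) (-981088)),
  (.hi (-550) 1996012, .arc 4700 9699 (-187394) (-982285)),
  (.hi (-560) 2021253, .arc 4710 9709 (-181218) (-983443)),
  (.hi (-570) 2046813, .arc 4720 9719 (-175035) (-984562)),
  (.hi (-580) 2072696, .arc 4730 9729 (-168846) (-985642)),
  (.hi (-590) 2098907, .arc 4740 9739 (-162650) (-986684)),
  (.hi (-600) 2125449, .arc 4750 9749 (-156447) (-987686)),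
  (.hi (-610) 2152326, .arc 4760 9759 (-150238) (-988650)),
  (.hi (-620) 2179544, .arc 4770 9769 (-144023) (-989574)),
  (.hi (-630) 2207106, .arc 4780 9779 (-137803) (-990460)),
  (.hi (-640) 2235016, .arc 4790 9789 (-131577) (-991306)),
  (.hi (-650) 2263279, .arc 4800 9799 (-125346) (-992113)),
  (.hi (-660) 2291900, .arc 4810 9809 (-119110) (-992881)),
  (.hi (-670) 2320882, .arc 4820 9819 (-112869) (-993610)),
  (.hi (-680) 2350232, .arc 4830 9829 (-106624) (-994299)),
  (.hi (-690) 2379952, .arc 4840 9839 (-100374) (-994950)),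
  (.hi (-700) 2410048, .arc 4850 9849 (-94121) (-995561)),
  (.hi (-710) 2440524, .arc 4860 9859 (-87864) (-996133)),
  (.hi (-720) 2471386, .arc 4870 9869 (-81603) (-996665))]

/-- pairs of conditions -/
def al4i2 : List (GC × GC) :=
  [(.hi (-420) 1695179, .arc 4170 9169 (-498196) (-867064)),
  (.hi (-430) 1716616, .arc 4180 9179 (-492738) (-870178)),
  (.hi (-440) 1738324, .arc 4190 9189 (-487261) (-873256)),
  (.hi (-450) 1760306, .arc 4200 9199 (-481765) (-876301)),
  (.hi (-460) 1782566, .arc 4210 9209 (-476249) (-879310)),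
  (.hi (-470) 1805108, .arc 4220 9219 (-470715) (-882285)),
  (.hi (-480) 1827934, .arc 4230 9229 (-465162) (-885225)),
  (.hi (-490) 1851050, .arc 4240 9239 (-459591) (-888131)),
  (.hi (-500) 1874458, .arc 4250 9249 (-454002) (-891001)),
  (.hi (-510) 1898161, .arc 4260 9259 (-448394) (-893836)),
  (.hi (-520) 1922165, .arc 4270 9269 (-442769) (-896635)),
  (.hi (-530) 1946472, .arc 4280 9279 (-437127) (-899400)),
  (.hi (-540) 1971086, .arc 4290 9289 (-431467) (-902129)),
  (.hi (-550) 1996012, .arc 4300 9299 (-425791) (-904822)),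
  (.hi (-560) 2021253, .arc 4310 9309 (-420097) (-907479)),
  (.hi (-570) 2046813, .arc 4320 9319 (-414387) (-910101)),
  (.hi (-580) 2072696, .arc 4330 9329 (-408661) (-912686)),
  (.hi (-590) 2098907, .arc 4340 9339 (-402918) (-915236)),
  (.hi (-600) 2125449, .arc 4350 9349 (-397159) (-917750)),
  (.hi (-610) 2152326, .arc 4360 9359 (-391385) (-920227)),
  (.hi (-620) 2179544, .arc 4370 9369 (-385596) (-922668)),
  (.hi (-630) 2207106, .arc 4380 9379 (-379791) (-925072)),
  (.hi (-640) 2235016, .arc 4390 9389 (-373971) (-927440)),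
  (.hi (-650) 2263279, .arc 4400 9399 (-368136) (-929772)),
  (.hi (-660) 2291900, .arc 4410 9409 (-362287) (-932067)),
  (.hi (-670) 2320882, .arc 4420 9419 (-356424) (-934324)),
  (.hi (-680) 2350232, .arc 4430 9429 (-350546) (-936545)),
  (.hi (-690) 2379952, .arc 4440 9439 (-344655) (-938730)),
  (.hi (-700) 2410048, .arc 4450 9449 (-338750) (-940877)),
  (.hi (-710) 2440524, .arc 4460 9459 (-332831) (-942986)),
  (.hi (-720) 2471386, .arc 4470 9469 (-326900) (-945059)),
  (.hi (-730) 2502639, .arc 4480 9479 (-320956) (-947094)),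
  (.hi (-740) 2534286, .arc 4490 9489 (-314998) (-949092)),
  (.hi (-750) 2566334, .arc 4500 9499 (-309029) (-951053))]

/-- pairs of conditions -/
def al4i2e : List (GC × GC) :=
  [(.hi (-320) 1494998, .arc 3610 8609 (-766501) (-642243)),
  (.hi (-330) 1513903, .arc 3620 8619 (-762451) (-647046)),
  (.hi (-340) 1533047, .arc 3630 8629 (-758370) (-651824)),
  (.hi (-350) 1552434, .arc 3640 8639 (-754260) (-656576)),
  (.hi (-360) 1572065, .arc 3650 8649 (-750119) (-661302)),
  (.hi (-370) 1591945, .arc 3660 8659 (-745950) (-666002)),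
  (.hi (-380) 1612076, .arc 3670 8669 (-741750) (-670676)),
  (.hi (-390) 1632462, .arc 3680 8679 (-737522) (-675324)),
  (.hi (-400) 1653106, .arc 3690 8689 (-733264) (-679944)),
  (.hi (-410) 1674010, .arc 3700 8699 (-728977) (-684538)),
  (.hi (-420) 1695179, .arc 3710 8709 (-724662) (-689105)),
  (.hi (-430) 1716616, .arc 3720 8719 (-720318) (-693644)),
  (.hi (-440) 1738324, .arc 3730 8729 (-715945) (-698156)),
  (.hi (-450) 1760306, .arc 3740 8739 (-711545) (-702641)),
  (.hi (-460) 1782566, .arc 3750 8749 (-707116) (-707098)),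
  (.hi (-470) 1805108, .arc 3760 8759 (-702659) (-711527)),
  (.hi (-480) 1827934, .arc 3770 8769 (-698174) (-715928)),
  (.hi (-490) 1851050, .arc 3780 8779 (-693662) (-720300)),
  (.hi (-500) 1874458, .arc 3790 8789 (-689123) (-724644)),
  (.hi (-510) 1898161, .arc 3800 8799 (-684556) (-728960)),
  (.hi (-520) 1922165, .arc 3810 8809 (-679963) (-733247)),
  (.hi (-530) 1946472, .arc 3820 8819 (-675342) (-737505)),
  (.hi (-540) 1971086, .arc 3830 8829 (-670695) (-741733)),
  (.hi (-550) 1996012, .arc 3840 8839 (-666021) (-745933)),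
  (.hi (-560) 2021253, .arc 3850 8849 (-661321) (-750103)),
  (.hi (-570) 2046813, .arc 3860 8859 (-656595) (-754243)),
  (.hi (-580) 2072696, .arc 3870 8869 (-651843) (-758354)),
  (.hi (-590) 2098907, .arc 3880 8879 (-647066) (-762434)),
  (.hi (-600) 2125449, .arc 3890 8889 (-642262) (-766485)),
  (.hi (-610) 2152326, .arc 3900 8899 (-637434) (-770505)),
  (.hi (-620) 2179544, .arc 3910 8909 (-632580) (-774495)),
  (.hi (-630) 2207106, .arc 3920 8919 (-627701) (-778454)),
  (.hi (-640) 2235016, .arc 3930 8929 (-622798) (-782383)),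
  (.hi (-650) 2263279, .arc 3940 8939 (-617869) (-786281)),
  (.hi (-660) 2291900, .arc 3950 8949 (-612917) (-790147)),
  (.hi (-670) 2320882, .arc 3960 8959 (-607940) (-793983))]

/-- pairs of conditions -/
def al4i3 : List (GC × GC) :=
  [(.hi (-470) 1805108, .arc 4030 9029 (-572442) (-819945)),
  (.hi (-480) 1827934, .arc 4040 9039 (-567279) (-823525)),
  (.hi (-490) 1851050, .arc 4050 9049 (-562094) (-827074)),
  (.hi (-500) 1874458, .arc 4060 9059 (-556886) (-830589)),
  (.hi (-510) 1898161, .arc 4070 9069 (-551656) (-834072)),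
  (.hi (-520) 1922165, .arc 4080 9079 (-546405) (-837521)),
  (.hi (-530) 1946472, .arc 4090 9089 (-541132) (-840938)),
  (.hi (-540) 1971086, .arc 4100 9099 (-535837) (-844321)),
  (.hi (-550) 1996012, .arc 4110 9109 (-530522) (-847671)),
  (.hi (-560) 2021253, .arc 4120 9119 (-525185) (-850988)),
  (.hi (-570) 2046813, .arc 4130 9129 (-519828) (-854271)),
  (.hi (-580) 2072696, .arc 4140 9139 (-514450) (-857520)),
  (.hi (-590) 2098907, .arc 4150 9149 (-509052) (-860736)),
  (.hi (-600) 2125449, .arc 4160 9159 (-503634) (-863917)),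
  (.hi (-610) 2152326, .arc 4170 9169 (-498196) (-867064)),
  (.hi (-620) 2179544, .arc 4180 9179 (-492738) (-870178)),
  (.hi (-630) 2207106, .arc 4190 9189 (-487261) (-873256)),
  (.hi (-640) 2235016, .arc 4200 9199 (-481765) (-876301)),
  (.hi (-650) 2263279, .arc 4210 9209 (-476249) (-879310)),
  (.hi (-660) 2291900, .arc 4220 9219 (-470715) (-882285)),
  (.hi (-670) 2320882, .arc 4230 9229 (-465162) (-885225)),
  (.hi (-680) 2350232, .arc 4240 9239 (-459591) (-888131)),
  (.hi (-690) 2379952, .arc 4250 9249 (-454002) (-891001)),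
  (.hi (-700) 2410048, .arc 4260 9259 (-448394) (-893836)),
  (.hi (-710) 2440524, .arc 4270 9269 (-442769) (-896635)),
  (.hi (-720) 2471386, .arc 4280 9279 (-437127) (-899400)),
  (.hi (-730) 2502639, .arc 4290 9289 (-431467) (-902129)),
  (.hi (-740) 2534286, .arc 4300 9299 (-425791) (-904822)),
  (.hi (-750) 2566334, .arc 4310 9309 (-420097) (-907479)),
  (.hi (-760) 2598787, .arc 4320 9319 (-414387) (-910101)),
  (.hi (-770) 2631650, .arc 4330 9329 (-408661) (-912686))]

/-- pairs of conditions -/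
def al4i3e : List (GC × GC) :=
  [(.hi (-430) 1716616, .arc 3750 8749 (-707116) (-707098)),
  (.hi (-440) 1738324, .arc 3760 8759 (-702659) (-711527)),
  (.hi (-450) 1760306, .arc 3770 8769 (-698174) (-715928)),
  (.hi (-460) 1782566, .arc 3780 8779 (-693662) (-720300)),
  (.hi (-470) 1805108, .arc 3790 8789 (-689123) (-724644)),
  (.hi (-480) 1827934, .arc 3800 8799 (-684556) (-728960)),
  (.hi (-490) 1851050, .arc 3810 8809 (-679963) (-733247)),
  (.hi (-500) 1874458, .arc 3820 8819 (-675342) (-737505)),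
  (.hi (-510) 1898161, .arc 3830 8829 (-670695) (-741733)),
  (.hi (-520) 1922165, .arc 3840 8839 (-666021) (-745933)),
  (.hi (-530) 1946472, .arc 3850 8849 (-661321) (-750103)),
  (.hi (-540) 1971086, .arc 3860 8859 (-656595) (-754243)),
  (.hi (-550) 1996012, .arc 3870 8869 (-651843) (-758354)),
  (.hi (-560) 2021253, .arc 3880 8879 (-647066) (-762434)),
  (.hi (-570) 2046813, .arc 3890 8889 (-642262) (-766485)),
  (.hi (-580) 2072696, .arc 3900 8899 (-637434) (-770505)),
  (.hi (-590) 2098907, .arc 3910 8909 (-632580) (-774495)),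
  (.hi (-600) 2125449, .arc 3920 8919 (-627701) (-778454)),
  (.hi (-610) 2152326, .arc 3930 8929 (-622798) (-782383)),
  (.hi (-620) 2179544, .arc 3940 8939 (-617869) (-786281)),
  (.hi (-630) 2207106, .arc 3950 8949 (-612917) (-790147)),
  (.hi (-640) 2235016, .arc 3960 8959 (-607940) (-793983)),
  (.hi (-650) 2263279, .arc 3970 8969 (-602940) (-797787)),
  (.hi (-660) 2291900, .arc 3980 8979 (-597915) (-801559)),
  (.hi (-670) 2320882, .arc 3990 8989 (-592867) (-805300)),
  (.hi (-680) 2350232, .arc 4000 8999 (-587795) (-809010)),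
  (.hi (-690) 2379952, .arc 4010 9009 (-582701) (-812687)),
  (.hi (-700) 2410048, .arc 4020 9019 (-577583) (-816332)),
  (.hi (-710) 2440524, .arc 4030 9029 (-572442) (-819945)),
  (.hi (-720) 2471386, .arc 4040 9039 (-567279) (-823525)),
  (.hi (-730) 2502639, .arc 4050 9049 (-562094) (-827074)),
  (.hi (-740) 2534286, .arc 4060 9059 (-556886) (-830589))]

/-- pairs of conditions -/
def al4iZ : List (GC × GC) :=
  [(.hi (-490) 1851050, .arc 4050 9049 (-562094) (-827074)),
  (.hi (-500) 1874458, .arc 4060 9059 (-556886) (-830589)),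
  (.hi (-510) 1898161, .arc 4070 9069 (-551656) (-834072)),
  (.hi (-520) 1922165, .arc 4080 9079 (-546405) (-837521)),
  (.hi (-530) 1946472, .arc 4090 9089 (-541132) (-840938)),
  (.hi (-540) 1971086, .arc 4100 9099 (-535837) (-844321)),
  (.hi (-550) 1996012, .arc 4110 9109 (-530522) (-847671)),
  (.hi (-560) 2021253, .arc 4120 9119 (-525185) (-850988)),
  (.hi (-570) 2046813, .arc 4130 9129 (-519828) (-854271)),
  (.hi (-580) 2072696, .arc 4140 9139 (-514450) (-857520)),
  (.hi (-590) 2098907, .arc 4150 9149 (-509052) (-860736)),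
  (.hi (-600) 2125449, .arc 4160 9159 (-503634) (-863917)),
  (.hi (-610) 2152326, .arc 4170 9169 (-498196) (-867064)),
  (.hi (-620) 2179544, .arc 4180 9179 (-492738) (-870178)),
  (.hi (-630) 2207106, .arc 4190 9189 (-487261) (-873256)),
  (.hi (-640) 2235016, .arc 4200 9199 (-481765) (-876301)),
  (.hi (-650) 2263279, .arc 4210 9209 (-476249) (-879310)),
  (.hi (-660) 2291900, .arc 4220 9219 (-470715) (-882285)),
  (.hi (-670) 2320882, .arc 4230 9229 (-465162) (-885225)),
  (.hi (-680) 2350232, .arc 4240 9239 (-459591) (-888131)),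
  (.hi (-690) 2379952, .arc 4250 9249 (-454002) (-891001)),
  (.hi (-700) 2410048, .arc 4260 9259 (-448394) (-893836)),
  (.hi (-710) 2440524, .arc 4270 9269 (-442769) (-896635)),
  (.hi (-720) 2471386, .arc 4280 9279 (-437127) (-899400)),
  (.hi (-730) 2502639, .arc 4290 9289 (-431467) (-902129)),
  (.hi (-740) 2534286, .arc 4300 9299 (-425791) (-904822)),
  (.hi (-750) 2566334, .arc 4310 9309 (-420097) (-907479)),
  (.hi (-760) 2598787, .arc 4320 9319 (-414387) (-910101)),
  (.hi (-770) 2631650, .arc 4330 9329 (-408661) (-912686)),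
  (.hi (-780) 2664929, .arc 4340 9339 (-402918) (-915236)),
  (.hi (-790) 2698629, .arc 4350 9349 (-397159) (-917750)),
  (.hi (-800) 2732755, .arc 4360 9359 (-391385) (-920227)),
  (.hi (-810) 2767312, .arc 4370 9369 (-385596) (-922668)),
  (.hi (-820) 2802307, .arc 4380 9379 (-379791) (-925072))]

/-- pairs of conditions -/
def al4iZs : List (GC × GC) :=
  [(.hi (-530) 1946472, .arc 4090 9089 (-541132) (-840938)),
  (.hi (-540) 1971086, .arc 4100 9099 (-535837) (-844321)),
  (.hi (-550) 1996012, .arc 4110 9109 (-530522) (-847671)),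
  (.hi (-560) 2021253, .arc 4120 9119 (-525185) (-850988)),
  (.hi (-570) 2046813, .arc 4130 9129 (-519828) (-854271)),
  (.hi (-580) 2072696, .arc 4140 9139 (-514450) (-857520)),
  (.hi (-590) 2098907, .arc 4150 9149 (-509052) (-860736)),
  (.hi (-600) 2125449, .arc 4160 9159 (-503634) (-863917)),
  (.hi (-610) 2152326, .arc 4170 9169 (-498196) (-867064)),
  (.hi (-620) 2179544, .arc 4180 9179 (-492738) (-870178)),
  (.hi (-630) 2207106, .arc 4190 9189 (-487261) (-873256)),
  (.hi (-640) 2235016, .arc 4200 9199 (-481765) (-876301)),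
  (.hi (-650) 2263279, .arc 4210 9209 (-476249) (-879310)),
  (.hi (-660) 2291900, .arc 4220 9219 (-470715) (-882285)),
  (.hi (-670) 2320882, .arc 4230 9229 (-465162) (-885225)),
  (.hi (-680) 2350232, .arc 4240 9239 (-459591) (-888131)),
  (.hi (-690) 2379952, .arc 4250 9249 (-454002) (-891001)),
  (.hi (-700) 2410048, .arc 4260 9259 (-448394) (-893836)),
  (.hi (-710) 2440524, .arc 4270 9269 (-442769) (-896635)),
  (.hi (-720) 2471386, .arc 4280 9279 (-437127) (-899400)),
  (.hi (-730) 2502639, .arc 4290 9289 (-431467) (-902129)),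
  (.hi (-740) 2534286, .arc 4300 9299 (-425791) (-904822)),
  (.hi (-750) 2566334, .arc 4310 9309 (-420097) (-907479)),
  (.hi (-760) 2598787, .arc 4320 9319 (-414387) (-910101)),
  (.hi (-770) 2631650, .arc 4330 9329 (-408661) (-912686)),
  (.hi (-780) 2664929, .arc 4340 9339 (-402918) (-915236)),
  (.hi (-790) 2698629, .arc 4350 9349 (-397159) (-917750)),
  (.hi (-800) 2732755, .arc 4360 9359 (-391385) (-920227)),
  (.hi (-810) 2767312, .arc 4370 9369 (-385596) (-922668)),
  (.hi (-820) 2802307, .arc 4380 9379 (-379791) (-925072))]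

end

end TD

/-! ### TDatg -/

namespace TD

/-- conditions -/
def k6aa : List QC :=
  [⟨-47216, 823788, 0, 0⟩, ⟨133792, -811740, 0, 0⟩, ⟨0, 0, 1000000, -737490⟩,
  ⟨0, 0, -1000000, 634033⟩, ⟨-857000, -515000, 0, -768083⟩, ⟨-669000, -743000, -949233, 0⟩,
  ⟨469000, 883000, 624307, 0⟩, ⟨656000, 755000, 0, 561772⟩]

/-- conditions -/
def k6az : List QC :=
  [⟨-75264, 801052, 0, 0⟩, ⟨134100, -793611, 0, 0⟩, ⟨0, 0, 1000000, -711139⟩,
  ⟨0, 0, -1000000, 616906⟩, ⟨-866000, -500000, 0, -771145⟩, ⟨-946000, -326000, -1242672, 0⟩,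
  ⟨391000, 921000, 577406, 0⟩]

/-- conditions -/
def k7as : List QC :=
  [⟨-45800, 838431, 0, 0⟩, ⟨112716, -822437, 0, 0⟩, ⟨0, 0, 1000000, -743750⟩,
  ⟨0, 0, -1000000, 656043⟩, ⟨-788000, -616000, 0, -717896⟩, ⟨-891000, -454000, -1147597, 0⟩,
  ⟨755000, 656000, 930263, 0⟩, ⟨707000, 707000, 0, 612758⟩]

/-- conditions -/
def k7zs : List QC :=
  [⟨-70434, 813888, 0, 0⟩, ⟨111228, -800765, 0, 0⟩, ⟨0, 0, 1000000, -717345⟩,
  ⟨0, 0, -1000000, 648065⟩, ⟨-866000, -500000, 0, -774342⟩, ⟨682000, 731000, 892441, 0⟩]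

/-- conditions -/
def k8ss : List QC :=
  [⟨0, 1000000, 0, 0⟩, ⟨116556, -775333, 0, 0⟩, ⟨0, 0, 1000000, -1000000⟩,
  ⟨0, 0, -1000000, 607914⟩, ⟨-669000, -743000, 0, -673090⟩, ⟨70000, -998000, 0, -62282⟩]

end TD

/-! ### TMid -/

namespace TD

noncomputable section

open Complex SR Ev
open scoped ComplexConjugate

/-- the exponential of the inner variable minus the hinge -/
def tSs (H : List QC) : Grp := ⟨.mul tl2 rm, .mul tq rp, (rfl : 3 = 3), H⟩

/-- the groups of a row: conditions for the hinge (`gi`), for the inner variable (`mi`), for their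
difference (`si`) -/
def tsM (gi mi si : List GC) (o : List QC) (L : List Grp) (o' : List QC) (L' : List Grp) :
    List Grp :=
  tYx .a (gi.map GC.qi) :: tl o :: tr (ownR .a o') ::
    (L ++ (L' ++ [tYs (mi.map GC.qi), tSs (si.map GC.qi)]))

/-- the check of a row; `gm`, `gs`: goals for the inner variable and for the difference -/
def trowOkM (gi mi si : List GC) (o : List QC) (L : List Grp) (o' : List QC) (L' : List Grp)
    (gy gz gu gm gs : List GC) (n code : ℕ) : Bool :=
  row (tsM gi mi si o L o' L') (goT .a gy gz gu ++ [tYs (gm.map GC.q), tSs (gs.map GC.q)]) n code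
      rootT &&
    (gi.all GC.oki && mi.all GC.oki && si.all GC.oki && gy.all GC.ok && gz.all GC.ok &&
      gu.all GC.ok && gm.all GC.ok && gs.all GC.ok)

end

end TD

/-! ### TMis -/

namespace TD

noncomputable section

open Complex SR Ev
open scoped ComplexConjugate

/-- the exponential of the inner variable -/
def tIx (x : SK) (H : List QC) : Grp :=
  match x with
  | .s => ⟨.gm 0 0 1 0 tl3, .mul tq rp, (rfl : 3 = 3), H⟩
  | _ => tYs H

/-- the exponential of the inner variable minus the hinge -/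
def tJx (x : SK) (H : List QC) : Grp :=
  match x with
  | .s => ⟨.gm 0 0 1 0 tl3, .mul rp tl2, (rfl : 3 = 3), H⟩
  | _ => tSs H

/-- the exponential of the far hinge -/
def tFx (x : SK) (H : List QC) : Grp :=
  match x with
  | .a => ⟨tq2, tr2 0 1, (rfl : 2 = 2), H⟩
  | _ => ⟨tq2, tr2 1 0, (rfl : 2 = 2), H⟩

/-- the groups of a row -/
def tsN (x : SK) (gi mi si fi : List GC) (o : List QC) (L : List Grp) (o' : List QC)
    (L' : List Grp) : List Grp :=
  tYx x (gi.map GC.qi) :: tl o :: tr (ownR x o') ::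
    (L ++ (L' ++ [tIx x (mi.map GC.qi), tJx x (si.map GC.qi), tFx x (fi.map GC.qi)]))

/-- the goals of a row -/
def goN (x : SK) (gy gm gs gf : List GC) : List Grp :=
  [tYx x (gy.map GC.q), tIx x (gm.map GC.q), tJx x (gs.map GC.q), tFx x (gf.map GC.q)]

/-- the check of a row -/
def trowOkN (x : SK) (gi mi si fi : List GC) (o : List QC) (L : List Grp) (o' : List QC)
    (L' : List Grp) (gy gm gs gf : List GC) (n code : ℕ) : Bool :=
  row (tsN x gi mi si fi o L o' L') (goN x gy gm gs gf) n code rootT &&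
    (gi.all GC.oki && mi.all GC.oki && si.all GC.oki && fi.all GC.oki && gy.all GC.ok &&
      gm.all GC.ok && gs.all GC.ok && gf.all GC.ok)

end

end TD

/-! ### TLg -/

namespace TD

noncomputable section

open Complex SR Ev
open scoped ComplexConjugate

/-- `DB I 7 R q / 2` -/
def tl7 : Ev := .nl (.sub
  (.mul (.gm 0 0 1 0 .R) (.sub
    (.add (.sc 6 (.k 7 0 0 0)) (.sc 2 (.nm 21 (.sq (.sq .q)))) (rfl : 6 = 6))
    (.add (.sc 4 (.nm 35 (.sq .q))) (.mul (.sq (.sq .q)) (.sq .q)) (rfl : 6 = 6)) (rfl : 6 = 6)))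
  (.sc 1 (.sub
    (.add (.sc 6 one) (.sc 2 (.nm 35 (.sq (.sq .q)))) (rfl : 6 = 6))
    (.add (.sc 4 (.nm 21 (.sq .q))) (.nm 7 (.mul (.sq (.sq .q)) (.sq .q))) (rfl : 6 = 6))
    (rfl : 6 = 6))) (rfl : 7 = 7))

/-- `DB I 8 R q / 2` -/
def tl8 : Ev := .nl (.sub
  (.sc 1 (.mul (.gm 0 0 8 0 .R) (.mul (.sub (.sc 2 one) (.sq .q) (rfl : 2 = 2))
    (.add (.sub (.sq (.sq .q)) (.sc 2 (.nm 6 (.sq .q))) (rfl : 4 = 4)) (.sc 4 one)
      (rfl : 4 = 4)))))
  (.sub
    (.add (.add (.sc 8 one) (.sc 4 (.nm 70 (.sq (.sq .q)))) (rfl : 8 = 8)) (.sq (.sq (.sq .q)))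
      (rfl : 8 = 8))
    (.add (.sc 6 (.nm 28 (.sq .q))) (.sc 2 (.nm 28 (.mul (.sq (.sq .q)) (.sq .q))))
      (rfl : 8 = 8)) (rfl : 8 = 8)) (rfl : 8 = 8))

/-- the exponential of the other hinge, by the digit and the kind of this hinge -/
def tLg (d : ℕ) (x : SK) (H : List QC) : Grp :=
  match d, x with
  | 3, .s => ⟨.mul tq tl3, .gm 0 1 0 0 tl5, (rfl : 5 = 5), H⟩
  | 3, _ => ⟨.mul tq tl2, .gm 0 1 0 0 tl4, (rfl : 4 = 4), H⟩
  | 5, .s => ⟨.mul tq tl5, .gm 0 1 0 0 tl7, (rfl : 7 = 7), H⟩
  | 5, _ => ⟨.mul tq tl4, .gm 0 1 0 0 tl6, (rfl : 6 = 6), H⟩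
  | 6, .s => ⟨.mul tq tl6, .gm 0 1 0 0 tl8, (rfl : 8 = 8), H⟩
  | 6, _ => ⟨.mul tq tl5, .gm 0 1 0 0 tl7, (rfl : 7 = 7), H⟩
  | _, .s => ⟨.mul tq tl4, .gm 0 1 0 0 tl6, (rfl : 6 = 6), H⟩
  | _, _ => ⟨.mul tq tl3, .gm 0 1 0 0 tl5, (rfl : 5 = 5), H⟩

/-- the groups of a row: conditions for the hinge (`gi`), for the ring variable (`zi`), for their
difference (`ui`), for the other hinge (`li`) -/
def tsB (d : ℕ) (x : SK) (gi zi ui li : List GC) (o : List QC) (L : List Grp) (o' : List QC)
    (L' : List Grp) : List Grp :=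
  tYx x (gi.map GC.qi) :: tUx x (ui.map GC.qi) :: tLg d x (li.map GC.qi) ::
    tl o :: tr (ownR x o') :: tZ (zi.map GC.qi) :: (L ++ L')

/-- the check of a row without alternatives -/
def trowOkC (d : ℕ) (x : SK) (gi zi ui li : List GC) (o : List QC) (L : List Grp) (o' : List QC)
    (L' : List Grp) (gy gz gu gl : List GC) (n code : ℕ) : Bool :=
  row (tsB d x gi zi ui li o L o' L') (goT x gy gz gu ++ [tLg d x (gl.map GC.q)]) n code rootT &&
    (gi.all GC.oki && zi.all GC.oki && ui.all GC.oki && li.all GC.oki && gy.all GC.ok &&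
      gz.all GC.ok && gu.all GC.ok && gl.all GC.ok)

end

end TD

/-! ### TLgK -/

namespace TD

noncomputable section

open Complex SR Ev
open scoped ComplexConjugate

/-- the check of a row; `al`: alternatives for the hinge and the difference -/
def trowOkK (d : ℕ) (x : SK) (gi zi ui li : List GC) (o : List QC) (L : List Grp) (o' : List QC)
    (L' : List Grp) (gy gz gu gl : List GC) (al : List (GC × GC)) (n code : ℕ) : Bool :=
  rowA (tsB d x gi zi ui li o L o' L') (goT x gy gz gu ++ [tLg d x (gl.map GC.q)]) (tYx x [])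
      (tUx x []) (al.map fun p => (p.1.q, p.2.q)) n code rootT &&
    (gi.all GC.oki && zi.all GC.oki && ui.all GC.oki && li.all GC.oki && gy.all GC.ok &&
      gz.all GC.ok && gu.all GC.ok && gl.all GC.ok && al.all fun p => p.1.ok && p.2.ok)

end

end TD

/-! ### TLj -/

namespace TD

/-- conditions -/
def l4_one : List GC :=
  [.arc 2250 7249 (-987686) 156447, .arc 0 3030 945059 326900, .lo (-1300) 5122428,
  .hi (-350) 1552431]

/-- conditions -/
def l4_one3 : List GC :=
  [.arc 2250 7249 (-987686) 156447, .lo (-1300) 5122428, .hi (-350) 1552431]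

/-- conditions -/
def l4_ringA : List GC :=
  [.arc 1870 6869 (-922668) 385596, .arc 0 2370 996667 (-81578), .lo (-200) 1285732,
  .hi 430 582541]

/-- conditions -/
def l4_ringA4 : List GC :=
  [.arc 0 2370 996667 (-81578), .lo (-200) 1285732, .hi 430 582541]

/-- conditions -/
def l4_ringZ : List GC :=
  [.arc 1730 6729 (-885225) 465162, .arc 0 2370 996667 (-81578), .lo 120 860024, .hi 630 453081]

/-- conditions -/
def l4_three : List GC :=
  [.arc 1950 6949 (-940877) 338750, .arc 0 2340 994952 (-100349), .lo (-360) 1572065,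
  .hi 60 927373]

/-- conditions -/
def l4_three3 : List GC :=
  [.arc 1950 6949 (-940877) 338750, .lo (-360) 1572065, .hi 60 927373]

/-- conditions -/
def l4_threeE : List GC :=
  [.arc 1750 6749 (-891001) 454002, .arc 0 1980 947102 (-320932), .lo (-420) 1695179,
  .hi (-150) 1207430]

/-- conditions -/
def l4_threeE4 : List GC :=
  [.arc 0 1980 947102 (-320932), .lo (-420) 1695179, .hi (-150) 1207430]

/-- conditions -/
def l4_two : List GC :=
  [.arc 1985 6984 (-948098) 317979, .arc 0 2580 998736 50257, .lo (-680) 2350232,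
  .hi (-70) 1091948]

/-- conditions -/
def l4_two3 : List GC :=
  [.arc 1985 6984 (-948098) 317979, .lo (-680) 2350232, .hi (-70) 1091948]

/-- conditions -/
def l4_twoE : List GC :=
  [.arc 1660 6659 (-863917) 503634, .arc 0 1910 932076 (-362264), .lo (-1120) 4085458,
  .hi (-850) 2909965]

/-- conditions -/
def l4_twoE3 : List GC :=
  [.arc 1660 6659 (-863917) 503634, .lo (-1120) 4085458, .hi (-850) 2909965]

/-- conditions -/
def lh_one : List GC :=
  [.arc 2140 7139 (-974524) 224283, .arc 0 2980 954861 297054, .lo (-1580) 7282591,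
  .hi (-380) 1612073]

/-- conditions -/
def lh_ringA : List GC :=
  [.arc 1820 6819 (-910101) 414387, .arc 0 2520 999921 12579, .lo (-385) 1622237, .hi 385 616432]

/-- conditions -/
def lh_ringZ : List GC :=
  [.arc 1700 6699 (-876301) 481765, .arc 0 2520 999921 12579, .lo (-10) 1012647, .hi 590 476437]

/-- conditions -/
def lh_three : List GC :=
  [.arc 1880 6879 (-925072) 379791, .arc 0 2340 994952 (-100349), .lo (-570) 2046813,
  .hi 40 950975]

/-- conditions -/
def lh_threeE : List GC :=
  [.arc 1710 6709 (-879310) 476249, .arc 0 1950 940885 (-338726), .lo (-580) 2072696,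
  .hi (-180) 1253818]

/-- conditions -/
def lh_two : List GC :=
  [.arc 1860 6859 (-920227) 391385, .arc 0 2520 999921 12579, .lo (-960) 3341340,
  .hi (-100) 1133899]

/-- conditions -/
def lh_twoE : List GC :=
  [.arc 1640 6639 (-857520) 514450, .arc 0 1860 920237 (-391362), .lo (-1310) 5187204,
  .hi (-880) 3021762]

/-- conditions -/
def lo4_one_ringA : List GC :=
  [.arc 2306 7305 (-992579) 121605, .arc 0 2811 980966 194178, .lo (-940) 3258410,
  .hi (-408) 1669805]

/-- conditions -/
def lo4_one_ringZ : List GC :=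
  [.arc 2326 7325 (-994028) 109122, .arc 0 2816 980351 197259, .lo (-930) 3217720,
  .hi (-367) 1585952]

/-- conditions -/
def lo4_one_three : List GC :=
  [.arc 2304 7303 (-992425) 122852, .arc 0 2772 985430 170084, .lo (-959) 3337144,
  .hi (-427) 1710154]

/-- conditions -/
def lo4_one_three3 : List GC :=
  [.arc 2304 7303 (-992425) 122852, .lo (-959) 3337144, .hi (-427) 1710154]

/-- conditions -/
def lo4_one_threeE : List GC :=
  [.arc 2284 7283 (-990803) 135313, .arc 0 2745 988173 153343, .lo (-944) 3274830,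
  .hi (-429) 1714457]

/-- conditions -/
def lo4_one_two : List GC :=
  [.arc 2267 7266 (-989301) 145888, .arc 0 2772 985430 170084, .lo (-991) 3474073,
  .hi (-443) 1744886]

/-- conditions -/
def lo4_one_two3 : List GC :=
  [.arc 2267 7266 (-989301) 145888, .lo (-991) 3474073, .hi (-443) 1744886]

/-- conditions -/
def lo4_one_twoE : List GC :=
  [.arc 2251 7250 (-987784) 155826, .arc 0 2708 991471 130331, .lo (-977) 3413489,
  .hi (-465) 1793798]

/-- conditions -/
def lo4_twoE_ringA : List GC :=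
  [.arc 2502 7501 (-999999) (-1244), .arc 0 2666 994564 104124, .lo (-1203) 4534590,
  .hi (-1065) 3812626]

/-- conditions -/
def lo4_twoE_ringZ : List GC :=
  [.arc 2519 7518 (-999929) (-11925), .arc 0 2666 994564 104124, .lo (-1190) 4461114,
  .hi (-1025) 3625719]

/-- conditions -/
def lo4_twoE_three : List GC :=
  [.arc 2498 7497 (-999999) 1269, .arc 0 2629 996716 80977, .lo (-1218) 4620876,
  .hi (-1081) 3890059]

/-- conditions -/
def lo4_twoE_threeE : List GC :=
  [.arc 2477 7476 (-999895) 14463, .arc 0 2597 998143 60922, .lo (-1198) 4506188,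
  .hi (-1078) 3875421]

/-- conditions -/
def lo4_twoE_two : List GC :=
  [.arc 2479 7478 (-999913) 13207, .arc 0 2621 997110 75966, .lo (-1246) 4786359,
  .hi (-1097) 3969065]

/-- conditions -/
def lo4_twoE_twoE : List GC :=
  [.arc 2439 7438 (-999265) 38331, .arc 0 2559 999312 37075, .lo (-1227) 4673433,
  .hi (-1107) 4019256]

/-- conditions -/
def lo4_two_ringA : List GC :=
  [.arc 2645 7644 (-995854) (-90968), .arc 0 3007 949684 313209, .lo (-999) 3509175,
  .hi (-685) 2365042]

/-- conditions -/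
def lo4_two_ringZ : List GC :=
  [.arc 2658 7657 (-995078) (-99099), .arc 0 3012 948696 316191, .lo (-983) 3439323,
  .hi (-642) 2240637]

/-- conditions -/
def lo4_two_three : List GC :=
  [.arc 2643 7642 (-995967) (-89716), .arc 0 2965 957618 288041, .lo (-1015) 3580445,
  .hi (-706) 2428285]

/-- conditions -/
def lo4_two_threeE : List GC :=
  [.arc 2620 7619 (-997160) (-75314), .arc 0 2936 962707 270545, .lo (-996) 3495970,
  .hi (-704) 2422189]

/-- conditions -/
def lo4_two_two : List GC :=
  [.arc 2625 7624 (-996918) (-78447), .arc 0 2963 957979 286838, .lo (-1047) 3727357,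
  .hi (-721) 2474491]

/-- conditions -/
def lo4_two_twoE : List GC :=
  [.arc 2582 7581 (-998674) (-51487), .arc 0 2896 969202 246267, .lo (-1030) 3648575,
  .hi (-739) 2531101]

/-- conditions -/
def lo5_one_ringA : List GC :=
  [.arc 2247 7246 (-987390) 158308, .arc 0 2797 982636 185542, .lo (-1066) 3817423,
  .hi (-493) 1858038]

/-- conditions -/
def lo5_one_ringZ : List GC :=
  [.arc 2249 7248 (-987588) 157067, .arc 0 2800 982285 187394, .lo (-1055) 3765017,
  .hi (-471) 1807374]

/-- conditions -/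
def lo5_one_three : List GC :=
  [.arc 2247 7246 (-987390) 158308, .arc 0 2778 984781 173798, .lo (-1072) 3846314,
  .hi (-510) 1898158]

/-- conditions -/
def lo5_one_threeE : List GC :=
  [.arc 2235 7234 (-986168) 165749, .arc 0 2760 986684 162650, .lo (-1070) 3836659,
  .hi (-512) 1902935]

/-- conditions -/
def lo5_one_two : List GC :=
  [.arc 2245 7244 (-987190) 159549, .arc 0 2775 985107 171941, .lo (-1094) 3954133,
  .hi (-518) 1917337]

/-- conditions -/
def lo5_one_twoE : List GC :=
  [.arc 2220 7219 (-984562) 175035, .arc 0 2729 989665 143401, .lo (-1093) 3949167,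
  .hi (-536) 1961200]

/-- conditions -/
def lo5_twoE_ringA : List GC :=
  [.arc 2413 7412 (-998506) 54649, .arc 0 2639 996188 87238, .lo (-1359) 5516646,
  .hi (-1147) 4226450]

/-- conditions -/
def lo5_twoE_ringZ : List GC :=
  [.arc 2420 7419 (-998736) 50257, .arc 0 2639 996188 87238, .lo (-1347) 5434081,
  .hi (-1122) 4095736]

/-- conditions -/
def lo5_twoE_three : List GC :=
  [.arc 2413 7412 (-998506) 54649, .arc 0 2619 997205 74713, .lo (-1368) 5579392,
  .hi (-1158) 4285278]

/-- conditions -/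
def lo5_twoE_threeE : List GC :=
  [.arc 2400 7399 (-998026) 62803, .arc 0 2600 998026 62803, .lo (-1359) 5516646,
  .hi (-1159) 4290666]

/-- conditions -/
def lo5_twoE_two : List GC :=
  [.arc 2403 7402 (-998143) 60922, .arc 0 2616 997344 72833, .lo (-1386) 5707033,
  .hi (-1168) 4339468]

/-- conditions -/
def lo5_twoE_twoE : List GC :=
  [.arc 2380 7379 (-997158) 75339, .arc 0 2580 998736 50257, .lo (-1380) 5664165,
  .hi (-1180) 4405401]

/-- conditions -/
def lo5_two_ringA : List GC :=
  [.arc 2566 7565 (-999141) (-41445), .arc 0 2988 953356 301849, .lo (-1168) 4339471,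
  .hi (-779) 2661579]

/-- conditions -/
def lo5_two_ringZ : List GC :=
  [.arc 2573 7572 (-998949) (-45839), .arc 0 2988 953356 301849, .lo (-1154) 4263795,
  .hi (-754) 2579263]

/-- conditions -/
def lo5_two_three : List GC :=
  [.arc 2567 7566 (-999115) (-42072), .arc 0 2963 957979 286838, .lo (-1178) 4394346,
  .hi (-794) 2712225]

/-- conditions -/
def lo5_two_threeE : List GC :=
  [.arc 2552 7551 (-999467) (-32654), .arc 0 2945 961162 275985, .lo (-1170) 4350391,
  .hi (-797) 2722469]

/-- conditions -/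
def lo5_two_two : List GC :=
  [.arc 2558 7557 (-999337) (-36422), .arc 0 2961 958339 285634, .lo (-1198) 4506188,
  .hi (-804) 2746523]

/-- conditions -/
def lo5_two_twoE : List GC :=
  [.arc 2534 7533 (-999772) (-21349), .arc 0 2924 964720 263279, .lo (-1193) 4477963,
  .hi (-821) 2805827]

/-- conditions -/
def lo6_one_ringA : List GC :=
  [.arc 2245 7244 (-987190) 159549, .arc 0 2795 982869 184307, .lo (-1139) 4184177,
  .hi (-552) 2001032]

/-- conditions -/
def lo6_one_ringZ : List GC :=
  [.arc 2246 7245 (-987290) 158929, .arc 0 2793 983100 183072, .lo (-1135) 4163198,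
  .hi (-540) 1971083]

/-- conditions -/
def lo6_one_three : List GC :=
  [.arc 2245 7244 (-987190) 159549, .arc 0 2786 983895 178746, .lo (-1144) 4210549,
  .hi (-565) 2033990]

/-- conditions -/
def lo6_one_threeE : List GC :=
  [.arc 2234 7233 (-986064) 166368, .arc 0 2753 987390 158308, .lo (-1142) 4199980,
  .hi (-567) 2039108]

/-- conditions -/
def lo6_one_two : List GC :=
  [.arc 2241 7240 (-986786) 162030, .arc 0 2787 983783 179364, .lo (-1164) 4317713,
  .hi (-569) 2044239]

/-- conditions -/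
def lo6_one_twoE : List GC :=
  [.arc 2226 7225 (-985215) 171322, .arc 0 2765 986168 165749, .lo (-1164) 4317713,
  .hi (-583) 2080522]

/-- conditions -/
def lo6_twoE_ringA : List GC :=
  [.arc 2374 7373 (-996867) 79098, .arc 0 2630 996665 81603, .lo (-1454) 6216149,
  .hi (-1205) 4545998]

/-- conditions -/
def lo6_twoE_ringZ : List GC :=
  [.arc 2377 7376 (-997014) 77219, .arc 0 2630 996665 81603, .lo (-1445) 6146242,
  .hi (-1190) 4461111]

/-- conditions -/
def lo6_twoE_three : List GC :=
  [.arc 2374 7373 (-996867) 79098, .arc 0 2618 997252 74086, .lo (-1460) 6263194,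
  .hi (-1214) 4597704]

/-- conditions -/
def lo6_twoE_threeE : List GC :=
  [.arc 2366 7365 (-996457) 84108, .arc 0 2606 997782 66565, .lo (-1456) 6231791,
  .hi (-1216) 4609274]

/-- conditions -/
def lo6_twoE_two : List GC :=
  [.arc 2369 7368 (-996613) 82229, .arc 0 2617 997298 73460, .lo (-1472) 6358357,
  .hi (-1220) 4632501]

/-- conditions -/
def lo6_twoE_twoE : List GC :=
  [.arc 2355 7354 (-995852) 90993, .arc 0 2595 998218 59667, .lo (-1469) 6334432,
  .hi (-1229) 4685191]

/-- conditions -/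
def lo6_two_ringA : List GC :=
  [.arc 2535 7534 (-999758) (-21977), .arc 0 2983 954299 298853, .lo (-1271) 4939114,
  .hi (-845) 2891738]

/-- conditions -/
def lo6_two_ringZ : List GC :=
  [.arc 2542 7541 (-999652) (-26374), .arc 0 2983 954299 298853, .lo (-1260) 4871311,
  .hi (-831) 2841309]

/-- conditions -/
def lo6_two_three : List GC :=
  [.arc 2536 7535 (-999744) (-22605), .arc 0 2969 956891 290447, .lo (-1278) 4982753,
  .hi (-857) 2935675]

/-- conditions -/
def lo6_two_threeE : List GC :=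
  [.arc 2527 7526 (-999856) (-16951), .arc 0 2957 959054 283224, .lo (-1274) 4957769,
  .hi (-860) 2946763]

/-- conditions -/
def lo6_two_two : List GC :=
  [.arc 2536 7535 (-999744) (-22605), .arc 0 2969 956891 290447, .lo (-1291) 5064821,
  .hi (-864) 2961613]

/-- conditions -/
def lo6_two_twoE : List GC :=
  [.arc 2516 7515 (-999950) (-10040), .arc 0 2944 961335 275381, .lo (-1290) 5058460,
  .hi (-877) 3010392]

end TD

/-! ### TLl -/

namespace TD

section

open Complex SR

/-- pairs of conditions -/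
def ak4_one : List (GC × GC) := [
  (.arc 2765 7764 (-986172) (-165724), .hi (-1235) 4720653),
  (.arc 2775 7774 (-985111) (-171917), .hi (-1245) 4780349),
  (.arc 2785 7784 (-984012) (-178103), .hi (-1255) 4840799),
  (.arc 2795 7794 (-982873) (-184282), .hi (-1265) 4902014),
  (.arc 2805 7804 (-981696) (-190454), .hi (-1275) 4964003),
  (.arc 2815 7814 (-980480) (-196618), .hi (-1285) 5026776),
  (.arc 2825 7824 (-979225) (-202775), .hi (-1295) 5090343),
  (.arc 2835 7834 (-977932) (-208924), .hi (-1305) 5154714),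
  (.arc 2845 7844 (-976600) (-215064), .hi (-1315) 5219899),
  (.arc 2855 7854 (-975229) (-221196), .hi (-1325) 5285908),
  (.arc 2865 7864 (-973820) (-227319), .hi (-1335) 5352752),
  (.arc 2875 7874 (-972373) (-233433), .hi (-1345) 5420441),
  (.arc 2885 7884 (-970887) (-239538), .hi (-1355) 5488986),
  (.arc 2895 7894 (-969363) (-245634), .hi (-1365) 5558398),
  (.arc 2905 7904 (-967800) (-251719), .hi (-1375) 5628687),
  (.arc 2915 7914 (-966200) (-257795), .hi (-1385) 5699866),
  (.arc 2925 7924 (-964561) (-263861), .hi (-1395) 5771944),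
  (.arc 2935 7934 (-962884) (-269916), .hi (-1405) 5844934),
  (.arc 2945 7944 (-961169) (-275961), .hi (-1415) 5918847),
  (.arc 2955 7954 (-959416) (-281995), .hi (-1425) 5993695),
  (.arc 2965 7964 (-957625) (-288017), .hi (-1435) 6069489)]

/-- pairs of conditions -/
def ak4_two : List (GC × GC) := [
  (.arc 2793 7792 (-983104) (-183047), .hi (-1273) 4951543),
  (.arc 2803 7802 (-981935) (-189220), .hi (-1283) 5014159),
  (.arc 2813 7812 (-980726) (-195386), .hi (-1293) 5077566),
  (.arc 2823 7822 (-979479) (-201544), .hi (-1303) 5141775),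
  (.arc 2833 7832 (-978194) (-207695), .hi (-1313) 5206796),
  (.arc 2843 7842 (-976869) (-213837), .hi (-1323) 5272640),
  (.arc 2853 7852 (-975507) (-219970), .hi (-1333) 5339316),
  (.arc 2863 7862 (-974105) (-226095), .hi (-1343) 5406835),
  (.arc 2873 7872 (-972665) (-232211), .hi (-1353) 5475208),
  (.arc 2883 7882 (-971187) (-238318), .hi (-1363) 5544445),
  (.arc 2893 7892 (-969671) (-244415), .hi (-1373) 5614558),
  (.arc 2903 7902 (-968116) (-250503), .hi (-1383) 5685558),
  (.arc 2913 7912 (-966523) (-256581), .hi (-1393) 5757456),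
  (.arc 2923 7922 (-964892) (-262649), .hi (-1403) 5830263),
  (.arc 2933 7932 (-963222) (-268706), .hi (-1413) 5903990),
  (.arc 2943 7942 (-961515) (-274753), .hi (-1423) 5978650),
  (.arc 2953 7952 (-959770) (-280789), .hi (-1433) 6054254),
  (.arc 2963 7962 (-957986) (-286813), .hi (-1443) 6130814),
  (.arc 2973 7972 (-956165) (-292827), .hi (-1453) 6208342),
  (.arc 2983 7982 (-954307) (-298829), .hi (-1463) 6286851)]

/-- pairs of conditions -/
def ak4_twoE : List (GC × GC) := [
  (.arc 2726 7725 (-989937) (-141511), .hi (-1186) 4438746),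
  (.arc 2736 7735 (-989028) (-147728), .hi (-1196) 4494877),
  (.arc 2746 7745 (-988080) (-153939), .hi (-1206) 4551717),
  (.arc 2756 7755 (-987094) (-160144), .hi (-1216) 4609277),
  (.arc 2766 7765 (-986068) (-166343), .hi (-1226) 4667564),
  (.arc 2776 7775 (-985003) (-172536), .hi (-1236) 4726589),
  (.arc 2786 7785 (-983900) (-178721), .hi (-1246) 4786359),
  (.arc 2796 7795 (-982757) (-184900), .hi (-1256) 4846886),
  (.arc 2806 7805 (-981576) (-191071), .hi (-1266) 4908178),
  (.arc 2816 7815 (-980356) (-197234), .hi (-1276) 4970245),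
  (.arc 2826 7825 (-979098) (-203390), .hi (-1286) 5033097),
  (.arc 2836 7835 (-977801) (-209538), .hi (-1296) 5096744),
  (.arc 2846 7845 (-976465) (-215678), .hi (-1306) 5161196),
  (.arc 2856 7855 (-975090) (-221809), .hi (-1316) 5226462),
  (.arc 2866 7865 (-973677) (-227931), .hi (-1326) 5292555),
  (.arc 2876 7875 (-972226) (-234044), .hi (-1336) 5359482),
  (.arc 2886 7885 (-970736) (-240148), .hi (-1346) 5427257),
  (.arc 2896 7895 (-969208) (-246243), .hi (-1356) 5495888),
  (.arc 2906 7905 (-967642) (-252327), .hi (-1366) 5565387),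
  (.arc 2916 7915 (-966037) (-258402), .hi (-1376) 5635765)]

/-- pairs of conditions -/
def ak4_three : List (GC × GC) := [
  (.arc 2815 7814 (-980480) (-196618), .hi (-1295) 5090343),
  (.arc 2825 7824 (-979225) (-202775), .hi (-1305) 5154714),
  (.arc 2835 7834 (-977932) (-208924), .hi (-1315) 5219899),
  (.arc 2845 7844 (-976600) (-215064), .hi (-1325) 5285908),
  (.arc 2855 7854 (-975229) (-221196), .hi (-1335) 5352752),
  (.arc 2865 7864 (-973820) (-227319), .hi (-1345) 5420441),
  (.arc 2875 7874 (-972373) (-233433), .hi (-1355) 5488986),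
  (.arc 2885 7884 (-970887) (-239538), .hi (-1365) 5558398),
  (.arc 2895 7894 (-969363) (-245634), .hi (-1375) 5628687),
  (.arc 2905 7904 (-967800) (-251719), .hi (-1385) 5699866),
  (.arc 2915 7914 (-966200) (-257795), .hi (-1395) 5771944),
  (.arc 2925 7924 (-964561) (-263861), .hi (-1405) 5844934),
  (.arc 2935 7934 (-962884) (-269916), .hi (-1415) 5918847),
  (.arc 2945 7944 (-961169) (-275961), .hi (-1425) 5993695),
  (.arc 2955 7954 (-959416) (-281995), .hi (-1435) 6069489),
  (.arc 2965 7964 (-957625) (-288017), .hi (-1445) 6146242),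
  (.arc 2975 7974 (-955797) (-294028), .hi (-1455) 6223965),
  (.arc 2985 7984 (-953930) (-300028), .hi (-1465) 6302671)]

/-- pairs of conditions -/
def ak4_threeE : List (GC × GC) := [
  (.arc 2786 7785 (-983900) (-178721), .hi (-1256) 4846886),
  (.arc 2796 7795 (-982757) (-184900), .hi (-1266) 4908178),
  (.arc 2806 7805 (-981576) (-191071), .hi (-1276) 4970245),
  (.arc 2816 7815 (-980356) (-197234), .hi (-1286) 5033097),
  (.arc 2826 7825 (-979098) (-203390), .hi (-1296) 5096744),
  (.arc 2836 7835 (-977801) (-209538), .hi (-1306) 5161196),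
  (.arc 2846 7845 (-976465) (-215678), .hi (-1316) 5226462),
  (.arc 2856 7855 (-975090) (-221809), .hi (-1326) 5292555),
  (.arc 2866 7865 (-973677) (-227931), .hi (-1336) 5359482),
  (.arc 2876 7875 (-972226) (-234044), .hi (-1346) 5427257),
  (.arc 2886 7885 (-970736) (-240148), .hi (-1356) 5495888),
  (.arc 2896 7895 (-969208) (-246243), .hi (-1366) 5565387),
  (.arc 2906 7905 (-967642) (-252327), .hi (-1376) 5635765),
  (.arc 2916 7915 (-966037) (-258402), .hi (-1386) 5707033),
  (.arc 2926 7925 (-964395) (-264467), .hi (-1396) 5779202),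
  (.arc 2936 7935 (-962714) (-270521), .hi (-1406) 5852284),
  (.arc 2946 7945 (-960995) (-276565), .hi (-1416) 5926290),
  (.arc 2956 7955 (-959239) (-282597), .hi (-1426) 6001232)]

/-- pairs of conditions -/
def ak4_ringA : List (GC × GC) := [
  (.arc 2807 7806 (-981456) (-191687), .hi (-1292) 5071189),
  (.arc 2817 7816 (-980232) (-197850), .hi (-1302) 5135318),
  (.arc 2827 7826 (-978970) (-204005), .hi (-1312) 5200257),
  (.arc 2837 7836 (-977669) (-210152), .hi (-1322) 5266018),
  (.arc 2847 7846 (-976329) (-216291), .hi (-1332) 5332610),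
  (.arc 2857 7856 (-974951) (-222421), .hi (-1342) 5400045),
  (.arc 2867 7866 (-973534) (-228543), .hi (-1352) 5468332),
  (.arc 2877 7876 (-972079) (-234655), .hi (-1362) 5537482),
  (.arc 2887 7886 (-970585) (-240758), .hi (-1372) 5607507),
  (.arc 2897 7896 (-969053) (-246852), .hi (-1382) 5678418),
  (.arc 2907 7906 (-967483) (-252935), .hi (-1392) 5750225),
  (.arc 2917 7916 (-965875) (-259009), .hi (-1402) 5822941),
  (.arc 2927 7926 (-964228) (-265073), .hi (-1412) 5896576),
  (.arc 2937 7936 (-962544) (-271126), .hi (-1422) 5971142),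
  (.arc 2947 7946 (-960821) (-277168), .hi (-1432) 6046651),
  (.arc 2957 7956 (-959061) (-283200), .hi (-1442) 6123115),
  (.arc 2967 7966 (-957263) (-289220), .hi (-1452) 6200545),
  (.arc 2977 7976 (-955426) (-295229), .hi (-1462) 6278955),
  (.arc 2987 7986 (-953553) (-301226), .hi (-1472) 6358357),
  (.arc 2997 7996 (-951641) (-307212), .hi (-1482) 6438762),
  (.arc 3007 8006 (-949692) (-313185), .hi (-1492) 6520185),
  (.arc 3017 8016 (-947706) (-319146), .hi (-1502) 6602637),
  (.arc 3027 8026 (-945682) (-325094), .hi (-1512) 6686132)]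

/-- pairs of conditions -/
def ak4_ringZ : List (GC × GC) := [
  (.arc 2822 7821 (-979606) (-200929), .hi (-1302) 5135318),
  (.arc 2832 7831 (-978324) (-207080), .hi (-1312) 5200257),
  (.arc 2842 7841 (-977004) (-213223), .hi (-1322) 5266018),
  (.arc 2852 7851 (-975645) (-219357), .hi (-1332) 5332610),
  (.arc 2862 7861 (-974247) (-225483), .hi (-1342) 5400045),
  (.arc 2872 7871 (-972811) (-231600), .hi (-1352) 5468332),
  (.arc 2882 7881 (-971337) (-237708), .hi (-1362) 5537482),
  (.arc 2892 7891 (-969824) (-243806), .hi (-1372) 5607507),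
  (.arc 2902 7901 (-968273) (-249895), .hi (-1382) 5678418),
  (.arc 2912 7911 (-966684) (-255974), .hi (-1392) 5750225),
  (.arc 2922 7921 (-965056) (-262042), .hi (-1402) 5822941),
  (.arc 2932 7931 (-963391) (-268101), .hi (-1412) 5896576),
  (.arc 2942 7941 (-961687) (-274149), .hi (-1422) 5971142),
  (.arc 2952 7951 (-959946) (-280186), .hi (-1432) 6046651),
  (.arc 2962 7961 (-958166) (-286212), .hi (-1442) 6123115),
  (.arc 2972 7971 (-956349) (-292226), .hi (-1452) 6200545),
  (.arc 2982 7981 (-954494) (-298229), .hi (-1462) 6278955),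
  (.arc 2992 7991 (-952602) (-304221), .hi (-1472) 6358357),
  (.arc 3002 8001 (-950671) (-310200), .hi (-1482) 6438762),
  (.arc 3012 8011 (-948704) (-316167), .hi (-1492) 6520185),
  (.arc 3022 8021 (-946698) (-322122), .hi (-1502) 6602637),
  (.arc 3032 8031 (-944656) (-328064), .hi (-1512) 6686132)]

/-- pairs of conditions -/
def ak5_one : List (GC × GC) := [
  (.arc 2724 7723 (-990114) (-140267), .hi (-1194) 4483594),
  (.arc 2734 7733 (-989213) (-146485), .hi (-1204) 4540292),
  (.arc 2744 7743 (-988273) (-152697), .hi (-1214) 4597707),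
  (.arc 2754 7753 (-987294) (-158904), .hi (-1224) 4655848),
  (.arc 2764 7763 (-986276) (-165104), .hi (-1234) 4714724),
  (.arc 2774 7773 (-985219) (-171298), .hi (-1244) 4774345),
  (.arc 2784 7783 (-984124) (-177485), .hi (-1254) 4834720),
  (.arc 2794 7793 (-982989) (-183665), .hi (-1264) 4895858),
  (.arc 2804 7803 (-981816) (-189837), .hi (-1274) 4957769),
  (.arc 2814 7813 (-980603) (-196002), .hi (-1284) 5020464),
  (.arc 2824 7823 (-979353) (-202160), .hi (-1294) 5083951),
  (.arc 2834 7833 (-978063) (-208309), .hi (-1304) 5148241),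
  (.arc 2844 7843 (-976735) (-214450), .hi (-1314) 5213343),
  (.arc 2854 7853 (-975368) (-220583), .hi (-1324) 5279270),
  (.arc 2864 7863 (-973963) (-226707), .hi (-1334) 5346029),
  (.arc 2874 7873 (-972519) (-232822), .hi (-1344) 5413633),
  (.arc 2884 7883 (-971037) (-238928), .hi (-1354) 5482092),
  (.arc 2894 7893 (-969517) (-245024), .hi (-1364) 5551417),
  (.arc 2904 7903 (-967958) (-251111), .hi (-1374) 5621618),
  (.arc 2914 7913 (-966361) (-257188), .hi (-1384) 5692707),
  (.arc 2924 7923 (-964726) (-263255), .hi (-1394) 5764695),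
  (.arc 2934 7933 (-963053) (-269311), .hi (-1404) 5837594),
  (.arc 2944 7943 (-961342) (-275357), .hi (-1414) 5911414),
  (.arc 2954 7953 (-959593) (-281392), .hi (-1424) 5986168)]

/-- pairs of conditions -/
def ak5_two : List (GC × GC) := [
  (.arc 2731 7730 (-989487) (-144620), .hi (-1211) 4580407),
  (.arc 2741 7740 (-988559) (-150834), .hi (-1221) 4638329),
  (.arc 2751 7750 (-987592) (-157043), .hi (-1231) 4696984),
  (.arc 2761 7760 (-986586) (-163245), .hi (-1241) 4756380),
  (.arc 2771 7770 (-985540) (-169440), .hi (-1251) 4816528),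
  (.arc 2781 7780 (-984456) (-175629), .hi (-1261) 4877436),
  (.arc 2791 7790 (-983333) (-181811), .hi (-1271) 4939114),
  (.arc 2801 7800 (-982172) (-187986), .hi (-1281) 5001573),
  (.arc 2811 7810 (-980971) (-194154), .hi (-1291) 5064821),
  (.arc 2821 7820 (-979732) (-200313), .hi (-1301) 5128869),
  (.arc 2831 7830 (-978454) (-206465), .hi (-1311) 5193727),
  (.arc 2841 7840 (-977137) (-212609), .hi (-1321) 5259405),
  (.arc 2851 7850 (-975782) (-218744), .hi (-1331) 5325913),
  (.arc 2861 7860 (-974389) (-224871), .hi (-1341) 5393263),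
  (.arc 2871 7870 (-972956) (-230989), .hi (-1351) 5461464),
  (.arc 2881 7880 (-971486) (-237097), .hi (-1361) 5530528),
  (.arc 2891 7890 (-969977) (-243197), .hi (-1371) 5600465),
  (.arc 2901 7900 (-968430) (-249286), .hi (-1381) 5671287),
  (.arc 2911 7910 (-966844) (-255366), .hi (-1391) 5743004),
  (.arc 2921 7920 (-965221) (-261436), .hi (-1401) 5815628),
  (.arc 2931 7930 (-963559) (-267495), .hi (-1411) 5889170),
  (.arc 2941 7940 (-961859) (-273544), .hi (-1421) 5963643),
  (.arc 2951 7950 (-960122) (-279582), .hi (-1431) 6039057),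
  (.arc 2961 7960 (-958346) (-285609), .hi (-1441) 6115425)]

/-- pairs of conditions -/
def ak5_twoE : List (GC × GC) := [
  (.arc 2684 7683 (-993326) (-115341), .hi (-1154) 4263795),
  (.arc 2694 7693 (-992582) (-121580), .hi (-1164) 4317713),
  (.arc 2704 7703 (-991798) (-127814), .hi (-1174) 4372313),
  (.arc 2714 7713 (-990976) (-134043), .hi (-1184) 4427604),
  (.arc 2724 7723 (-990114) (-140267), .hi (-1194) 4483594),
  (.arc 2734 7733 (-989213) (-146485), .hi (-1204) 4540292),
  (.arc 2744 7743 (-988273) (-152697), .hi (-1214) 4597707),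
  (.arc 2754 7753 (-987294) (-158904), .hi (-1224) 4655848),
  (.arc 2764 7763 (-986276) (-165104), .hi (-1234) 4714724),
  (.arc 2774 7773 (-985219) (-171298), .hi (-1244) 4774345),
  (.arc 2784 7783 (-984124) (-177485), .hi (-1254) 4834720),
  (.arc 2794 7793 (-982989) (-183665), .hi (-1264) 4895858),
  (.arc 2804 7803 (-981816) (-189837), .hi (-1274) 4957769),
  (.arc 2814 7813 (-980603) (-196002), .hi (-1284) 5020464),
  (.arc 2824 7823 (-979353) (-202160), .hi (-1294) 5083951),
  (.arc 2834 7833 (-978063) (-208309), .hi (-1304) 5148241),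
  (.arc 2844 7843 (-976735) (-214450), .hi (-1314) 5213343),
  (.arc 2854 7853 (-975368) (-220583), .hi (-1324) 5279270),
  (.arc 2864 7863 (-973963) (-226707), .hi (-1334) 5346029),
  (.arc 2874 7873 (-972519) (-232822), .hi (-1344) 5413633),
  (.arc 2884 7883 (-971037) (-238928), .hi (-1354) 5482092),
  (.arc 2894 7893 (-969517) (-245024), .hi (-1364) 5551417),
  (.arc 2904 7903 (-967958) (-251111), .hi (-1374) 5621618),
  (.arc 2914 7913 (-966361) (-257188), .hi (-1384) 5692707),
  (.arc 2924 7923 (-964726) (-263255), .hi (-1394) 5764695)]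

/-- pairs of conditions -/
def ak5_three : List (GC × GC) := [
  (.arc 2743 7742 (-988369) (-152076), .hi (-1233) 4708803),
  (.arc 2753 7752 (-987394) (-158284), .hi (-1243) 4768349),
  (.arc 2763 7762 (-986380) (-164484), .hi (-1253) 4828648),
  (.arc 2773 7772 (-985327) (-170679), .hi (-1263) 4889710),
  (.arc 2783 7782 (-984235) (-176866), .hi (-1273) 4951543),
  (.arc 2793 7792 (-983104) (-183047), .hi (-1283) 5014159),
  (.arc 2803 7802 (-981935) (-189220), .hi (-1293) 5077566),
  (.arc 2813 7812 (-980726) (-195386), .hi (-1303) 5141775),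
  (.arc 2823 7822 (-979479) (-201544), .hi (-1313) 5206796),
  (.arc 2833 7832 (-978194) (-207695), .hi (-1323) 5272640),
  (.arc 2843 7842 (-976869) (-213837), .hi (-1333) 5339316),
  (.arc 2853 7852 (-975507) (-219970), .hi (-1343) 5406835),
  (.arc 2863 7862 (-974105) (-226095), .hi (-1353) 5475208),
  (.arc 2873 7872 (-972665) (-232211), .hi (-1363) 5544445),
  (.arc 2883 7882 (-971187) (-238318), .hi (-1373) 5614558),
  (.arc 2893 7892 (-969671) (-244415), .hi (-1383) 5685558),
  (.arc 2903 7902 (-968116) (-250503), .hi (-1393) 5757456),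
  (.arc 2913 7912 (-966523) (-256581), .hi (-1403) 5830263),
  (.arc 2923 7922 (-964892) (-262649), .hi (-1413) 5903990),
  (.arc 2933 7932 (-963222) (-268706), .hi (-1423) 5978650),
  (.arc 2943 7942 (-961515) (-274753), .hi (-1433) 6054254),
  (.arc 2953 7952 (-959770) (-280789), .hi (-1443) 6130814),
  (.arc 2963 7962 (-957986) (-286813), .hi (-1453) 6208342)]

/-- pairs of conditions -/
def ak5_threeE : List (GC × GC) := [
  (.arc 2725 7724 (-990025) (-140889), .hi (-1205) 4546001),
  (.arc 2735 7734 (-989121) (-147106), .hi (-1215) 4603488),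
  (.arc 2745 7744 (-988177) (-153318), .hi (-1225) 4661702),
  (.arc 2755 7754 (-987194) (-159524), .hi (-1235) 4720653),
  (.arc 2765 7764 (-986172) (-165724), .hi (-1245) 4780349),
  (.arc 2775 7774 (-985111) (-171917), .hi (-1255) 4840799),
  (.arc 2785 7784 (-984012) (-178103), .hi (-1265) 4902014),
  (.arc 2795 7794 (-982873) (-184282), .hi (-1275) 4964003),
  (.arc 2805 7804 (-981696) (-190454), .hi (-1285) 5026776),
  (.arc 2815 7814 (-980480) (-196618), .hi (-1295) 5090343),
  (.arc 2825 7824 (-979225) (-202775), .hi (-1305) 5154714),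
  (.arc 2835 7834 (-977932) (-208924), .hi (-1315) 5219899),
  (.arc 2845 7844 (-976600) (-215064), .hi (-1325) 5285908),
  (.arc 2855 7854 (-975229) (-221196), .hi (-1335) 5352752),
  (.arc 2865 7864 (-973820) (-227319), .hi (-1345) 5420441),
  (.arc 2875 7874 (-972373) (-233433), .hi (-1355) 5488986),
  (.arc 2885 7884 (-970887) (-239538), .hi (-1365) 5558398),
  (.arc 2895 7894 (-969363) (-245634), .hi (-1375) 5628687),
  (.arc 2905 7904 (-967800) (-251719), .hi (-1385) 5699866),
  (.arc 2915 7914 (-966200) (-257795), .hi (-1395) 5771944),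
  (.arc 2925 7924 (-964561) (-263861), .hi (-1405) 5844934),
  (.arc 2935 7934 (-962884) (-269916), .hi (-1415) 5918847),
  (.arc 2945 7944 (-961169) (-275961), .hi (-1425) 5993695)]

/-- pairs of conditions -/
def ak5_ringA : List (GC × GC) := [
  (.arc 2758 7757 (-986892) (-161385), .hi (-1248) 4798404),
  (.arc 2768 7767 (-985858) (-167582), .hi (-1258) 4859083),
  (.arc 2778 7777 (-984786) (-173773), .hi (-1268) 4920529),
  (.arc 2788 7787 (-983674) (-179957), .hi (-1278) 4982753),
  (.arc 2798 7797 (-982524) (-186134), .hi (-1288) 5045763),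
  (.arc 2808 7807 (-981335) (-192304), .hi (-1298) 5109570),
  (.arc 2818 7817 (-980108) (-198466), .hi (-1308) 5174184),
  (.arc 2828 7827 (-978841) (-204620), .hi (-1318) 5239615),
  (.arc 2838 7837 (-977536) (-210767), .hi (-1328) 5305873),
  (.arc 2848 7847 (-976193) (-216904), .hi (-1338) 5372969),
  (.arc 2858 7857 (-974811) (-223034), .hi (-1348) 5440914),
  (.arc 2868 7867 (-973390) (-229154), .hi (-1358) 5509718),
  (.arc 2878 7877 (-971931) (-235266), .hi (-1368) 5579392),
  (.arc 2888 7887 (-970434) (-241368), .hi (-1378) 5649947),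
  (.arc 2898 7897 (-968898) (-247460), .hi (-1388) 5721394),
  (.arc 2908 7907 (-967324) (-253543), .hi (-1398) 5793745),
  (.arc 2918 7917 (-965712) (-259616), .hi (-1408) 5867011),
  (.arc 2928 7927 (-964062) (-265679), .hi (-1418) 5941203),
  (.arc 2938 7937 (-962373) (-271731), .hi (-1428) 6016333),
  (.arc 2948 7947 (-960647) (-277772), .hi (-1438) 6092414),
  (.arc 2958 7957 (-958883) (-283802), .hi (-1448) 6169456),
  (.arc 2968 7967 (-957081) (-289822), .hi (-1458) 6247473)]

/-- pairs of conditions -/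
def ak5_ringZ : List (GC × GC) := [
  (.arc 2778 7777 (-984786) (-173773), .hi (-1263) 4889710),
  (.arc 2788 7787 (-983674) (-179957), .hi (-1273) 4951543),
  (.arc 2798 7797 (-982524) (-186134), .hi (-1283) 5014159),
  (.arc 2808 7807 (-981335) (-192304), .hi (-1293) 5077566),
  (.arc 2818 7817 (-980108) (-198466), .hi (-1303) 5141775),
  (.arc 2828 7827 (-978841) (-204620), .hi (-1313) 5206796),
  (.arc 2838 7837 (-977536) (-210767), .hi (-1323) 5272640),
  (.arc 2848 7847 (-976193) (-216904), .hi (-1333) 5339316),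
  (.arc 2858 7857 (-974811) (-223034), .hi (-1343) 5406835),
  (.arc 2868 7867 (-973390) (-229154), .hi (-1353) 5475208),
  (.arc 2878 7877 (-971931) (-235266), .hi (-1363) 5544445),
  (.arc 2888 7887 (-970434) (-241368), .hi (-1373) 5614558),
  (.arc 2898 7897 (-968898) (-247460), .hi (-1383) 5685558),
  (.arc 2908 7907 (-967324) (-253543), .hi (-1393) 5757456),
  (.arc 2918 7917 (-965712) (-259616), .hi (-1403) 5830263),
  (.arc 2928 7927 (-964062) (-265679), .hi (-1413) 5903990),
  (.arc 2938 7937 (-962373) (-271731), .hi (-1423) 5978650),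
  (.arc 2948 7947 (-960647) (-277772), .hi (-1433) 6054254),
  (.arc 2958 7957 (-958883) (-283802), .hi (-1443) 6130814),
  (.arc 2968 7967 (-957081) (-289822), .hi (-1453) 6208342)]

/-- conditions -/
def lhA : List GC :=
  [.arc 1640 6639 (-857520) 514450, .arc 0 2980 954861 297054, .lo (-1580) 7282591,
  .hi 385 616432]

end

end TD

/-! ### TFd -/

namespace TD

section

open Complex SR

/-- conditions -/
def lf_ringA : List GC :=
  [.arc 1731 6730 (-885518) 464606, .arc 0 1886 926507 (-376277), .lo (-1037) 3680811,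
  .hi (-903) 3110373]

/-- conditions -/
def lf_ringZ : List GC :=
  [.arc 1742 6741 (-888708) 458475, .arc 0 1886 926507 (-376277), .lo (-1026) 3630281,
  .hi (-870) 2984027]

/-- conditions -/
def lf_three3 : List GC :=
  [.arc 1729 6728 (-884933) 465718, .lo (-1049) 3736737, .hi (-916) 3161603]

/-- conditions -/
def lf_threeE : List GC :=
  [.arc 1712 6711 (-879908) 475144, .arc 0 1832 913210 (-407490), .lo (-1035) 3671571,
  .hi (-915) 3157632]

/-- conditions -/
def lf_two3 : List GC :=
  [.arc 1715 6714 (-880802) 473484, .lo (-1072) 3846314, .hi (-928) 3209640]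

/-- conditions -/
def lf_twoE : List GC :=
  [.arc 1683 6682 (-871105) 491097, .arc 0 1803 905633 (-424062), .lo (-1060) 3788748,
  .hi (-940) 3258407]

end

end TD

/-! ### TYa -/

namespace TD

noncomputable section

open Complex SR Ev

/-- the exponential of the variable of a term -/
def tQ (H : List QC) : Grp := ⟨.add .R .q rfl, .sub .R .q rfl, rfl, H⟩

/-- the check of a row for the term of the second ring: `zi`: conditions for the ring variable -/
def trowOkQ (x : SK) (zi : List GC) (o o' : List QC) (L' : List Grp) (gq : List GC) (n code : ℕ) :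
    Bool :=
  row (tZ (zi.map GC.qi) :: tl o :: tr (ownR x o') :: L') [tQ (gq.map GC.q)] n code rootT &&
    (zi.all GC.oki && gq.all GC.ok)

end

end TD

end Pool.Agent.Work.MP_b30479_gt.G2.CN
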