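import Pool.Agent.Work.MP_b30479_gt.G2.CN.TUse
import Pool.Agent.Work.MP_b30479_gt.G2.CN.RowD

/-!
# Rows at split hinges with a condition for the other side

`tV`: the exponential of the hinge on the side of the second ring minus the ring variable of the
first ring.
-/

namespace Pool.Agent.Work.MP_b30479_gt.G2.CN.TD

open Complex SR Ev

noncomputable section

section
variable {w R k' : ℂ}

lemma expV (hc : 0 < (Complex.cos w).re) (hk : k' ≠ 0)
    (hR : 0 < R.re) (hq : R ^ 2 + 1 = 1 / Complex.cos w ^ 2 + 1 / k' ^ 2)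
    (h2 : (acot2 (Sp R k')).re < 1 / 2) (H : List QC) :
    cexp (2 * Real.pi * I * (acot2 (Sp R k') - zeta w)) * (tV H).M.val R (Complex.tan w) =
      (tV H).N.val R (Complex.tan w) := by
  have ht := tan_sq (ne_of_re hc)
  have e1 := exp_split hR hk h2
  have e2 := expZ (R := R) hc H
  have e3 : 2 * Real.pi * I * (acot2 (Sp R k') - zeta w) =
      2 * Real.pi * I * acot2 (Sp R k') + 2 * Real.pi * I * (-zeta w) := by ring
  rw [e3, Complex.exp_add]
  change _ * Ev.zm.val R _ = Ev.zp.val R _ at e2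
  change _ * (Ev.tq2.val R (Complex.tan w) * Ev.zm.val R (Complex.tan w)) =
    (Ev.tr2 1 0).val R (Complex.tan w) * Ev.zp.val R (Complex.tan w)
  have h4 := Ev.val_tr2 R (Complex.tan w) 1 0
  have hq' : R ^ 2 + 1 - (Complex.tan w ^ 2 + 1) = 1 / k' ^ 2 := by
    rw [ht]
    linear_combination hq
  have h5 : (Ev.tr2 1 0).val R (Complex.tan w) = 1 / k' ^ 2 - 2 + 2 * I * R := by
    apply mul_left_cancel₀ (two_ne_zero : (2 : ℂ) ≠ 0)
    rw [h4, hq']
    simp only [DB, cab]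
    push_cast
    ring
  rw [Ev.val_tq2, hq', h5, ← e1, ← e2]
  ring

/-- a run gives the bounds -/
theorem trowV_sound {gi : List GC} {o : List QC} {L : List Grp} {o' : List QC}
    {L' : List Grp} {gy gz gu gv : List GC} {n code : ℕ}
    (hr : trowOkV gi o L o' L' gy gz gu gv n code = true) (hm : rootT.Mem R (Complex.tan w))
    (hc : 0 < (Complex.cos w).re) (hR : 0 < R.re) (hk : k' ≠ 0)
    (hq : R ^ 2 + 1 = 1 / Complex.cos w ^ 2 + 1 / k' ^ 2)
    (h2 : (acot2 (Sp R (Complex.cos w))).re < 1 / 2) (h3 : (acot2 (Sp R k')).re < 1 / 2)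
    (hi : ∀ g ∈ gi, g.G (yH .s R (Complex.cos w))) (ho : (tl o).Ok R (Complex.tan w))
    (ho' : (tr (ownR .s o')).Ok R (Complex.tan w)) (hL : AllOk R (Complex.tan w) L)
    (hL' : AllOk R (Complex.tan w) L') :
    (∀ g ∈ gy, g.P (yH .s R (Complex.cos w))) ∧ (∀ g ∈ gz, g.P (-zeta w)) ∧
      (∀ g ∈ gu, g.P (yH .s R (Complex.cos w) - zeta w)) ∧
      ∀ g ∈ gv, g.P (acot2 (Sp R k') - zeta w) := by
  unfold trowOkV at hr
  rw [Bool.and_eq_true, Bool.and_eq_true, Bool.and_eq_true, Bool.and_eq_true,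
    Bool.and_eq_true] at hr
  obtain ⟨hrow, ⟨⟨⟨k1, k2⟩, k3⟩, k4⟩, k5⟩ := hr
  have hgi : (tYx .s (gi.map GC.qi)).Ok R (Complex.tan w) := by
    refine ⟨_, expY (x := .s) hc hR (fun _ => h2) _, ?_⟩
    intro Q hQ
    obtain ⟨g, hg, rfl⟩ := List.mem_map.1 hQ
    exact GC.imp (List.all_eq_true.1 k1 g hg) (hi g hg)
  have hl : AllOk R (Complex.tan w) (tsOf .s gi o L o' L') :=
    AllOk.cons hgi (AllOk.cons ho (AllOk.cons ho' (hL.append hL')))
  refine ⟨fun g hg => ?_, fun g hg => ?_, fun g hg => ?_, fun g hg => ?_⟩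
  · exact GC.spec (List.all_eq_true.1 k2 g hg) (row_sound hrow hm hl
      (g := tYx .s (gy.map GC.q)) (by simp [goT]) (expY (x := .s) hc hR (fun _ => h2) _) g.q
      (List.mem_map_of_mem hg))
  · exact GC.spec (List.all_eq_true.1 k3 g hg) (row_sound hrow hm hl
      (g := tZ (gz.map GC.q)) (by simp [goT]) (expZ hc _) g.q
      (List.mem_map_of_mem hg))
  · exact GC.spec (List.all_eq_true.1 k4 g hg) (row_sound hrow hm hl
      (g := tUx .s (gu.map GC.q)) (by simp [goT]) (expU (x := .s) hc hR (fun _ => h2) _) g.q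
      (List.mem_map_of_mem hg))
  · exact GC.spec (List.all_eq_true.1 k5 g hg) (row_sound hrow hm hl
      (g := tV (gv.map GC.q)) (by simp [goT]) (expV hc hk hR hq h3 _) g.q
      (List.mem_map_of_mem hg))

end

/-- the bounds of a row at a split hinge -/
theorem tuseV {K : KFam} (hK : KOK K) {d : ℕ} {l : SK} {d' : ℕ} {l' : SK} {w R k' : ℂ}
    (t : TDt K .s d l d' l' w R k') (h3 : (acot2 (Sp R k')).re < 1 / 2) {B B' : ℕ}
    (hB : crs d l .s = B) (hB' : crs d' .s l' = B') {gi : List GC} {o : List QC}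
    {L : List Grp} {o' : List QC} {L' : List Grp} {gy gz gu gv : List GC} {n code : ℕ}
    (hr : trowOkV gi o L o' L' gy gz gu gv n code = true)
    (hi : ∀ g ∈ gi, g.G (yH .s R (Complex.cos w)))
    (ho : InH (K.K d l .s) o) (ho' : InH (K.K d' l' .s) o') (hL : OL d B l L)
    (hL' : OR .s d' B' l' L') :
    (∀ g ∈ gy, g.P (yH .s R (Complex.cos w))) ∧ (∀ g ∈ gz, g.P (-zeta w)) ∧
      (∀ g ∈ gu, g.P (yH .s R (Complex.cos w) - zeta w)) ∧
      ∀ g ∈ gv, g.P (acot2 (Sp R k') - zeta w) := by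
  subst hB hB'
  have hc := t.h.kre
  have hc0 := ne_of_re hc
  have hT := tan_sq hc0
  have hR : 0 < R.re := r0_pos.trans t.h.Rre
  have hq : R ^ 2 + 1 - 1 / Complex.cos w ^ 2 = 1 / k' ^ 2 := by
    rw [t.h.hinge]
    ring
  have hm' := t.h.mem'
  have h1 := inH_ownR (x := .s) ho'
  rw [← K.symm] at h1
  exact trowV_sound hr (rootT_mem hK t.h hT (tan_re t.w0 t.w1)) hc hR (ne_of_re t.h.kre')
    t.h.hinge (t.sp rfl) h3 hi (tl_ok hc0 hT (ho _ t.h.mem))
    (tr_ok (ne_of_re t.h.kre') hT hq (h1 k' hm')) (hL hK hT hq t.h.out) (hL' hK hT hq t.h.out')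

end

end Pool.Agent.Work.MP_b30479_gt.G2.CN.TD
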