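import Pool.Agent.Work.MP_b30479_gt.G2.CN.TUse
import Pool.Agent.Work.MP_b30479_gt.G2.WLocT
import Pool.Agent.Work.MP_b30479_gt.G2.WLocF
import Pool.Agent.Work.MP_b30479_gt.G2.WLocR

/-!
# Small lemmas about windows and conditions
-/

namespace Pool.Agent.Work.MP_b30479_gt.G2.CN.TD

open Complex SR

noncomputable section

lemma m0 {α : Type*} {a : α} {l : List α} : a ∈ a :: l := List.mem_cons_self

lemma m1 {α : Type*} {a b : α} {l : List α} : b ∈ a :: b :: l :=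
  List.mem_cons_of_mem _ List.mem_cons_self

lemma m2 {α : Type*} {a b c : α} {l : List α} : c ∈ a :: b :: c :: l :=
  List.mem_cons_of_mem _ (List.mem_cons_of_mem _ List.mem_cons_self)

/-- a window from the conditions of a row -/
lemma win_mk {x0 x1 mx s0 s1 ms c1 mc : ℕ} {a0 b0 a1 b1 a2 b2 a3 b3 q1 cq q0 cq' : ℤ} {y z : ℂ}
    (rg : Rg y z) (h1 : (GC.arc 0 x0 a0 b0).P y) (h2 : (GC.arc x1 mx a1 b1).P y)
    (h3 : (GC.arc s1 ms a2 b2).P (-z)) (h4 : (GC.lo q1 cq).P (y - z))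
    (h5 : (GC.arc c1 mc a3 b3).P (y - z)) (h6 : (GC.hi q0 cq').P (y - z))
    (h7 : (s0 : ℝ) / 10000 ≤ -z.re) (n1 : 4000 ≤ mx) (n2 : 2500 ≤ ms) (n3 : 6500 ≤ mc) :
    (⟨x0, x1, s0, s1, -q0, -q1, c1⟩ : RWin).In y z := by
  have n1' : (4000 : ℝ) ≤ mx := by exact_mod_cast n1
  have n2' : (2500 : ℝ) ≤ ms := by exact_mod_cast n2
  have n3' : (6500 : ℝ) ≤ mc := by exact_mod_cast n3
  have g1 := arc_lb h1 (by simpa using rg.y0)
  have g2 := arc_ub h2 (by linarith only [n1', rg, rg.y1])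
  have g3 := arc_ub h3 (by rw [Complex.neg_re]; linarith only [n2', rg, rg.z1])
  have g5 := arc_ub h5 (by rw [Complex.sub_re]; linarith only [n3', rg, rg.z1, rg.y1])
  have g4 : (q1 : ℝ) / 10000 ≤ (y - z).im := h4
  have g6 : (y - z).im ≤ (q0 : ℝ) / 10000 := h6
  rw [Complex.neg_re] at g3
  rw [Complex.sub_re] at g5
  rw [Complex.sub_im] at g4 g6
  exact ⟨g1.le, g2.le, h7, g3.le, by dsimp only; rw [neg_div]; linarith only [g6],
    by dsimp only; rw [neg_div]; linarith only [g4], g5.le⟩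

/-- the height of the ring variable -/
lemma rho_mk {r c : ℤ} {z : ℂ} (h : (GC.lo r c).P (-z)) : z.im ≤ -(r : ℝ) / 10000 := by
  have g : (r : ℝ) / 10000 ≤ (-z).im := h
  rw [Complex.neg_im] at g
  rw [neg_div]
  linarith only [g]

/-- the far side of a digit `1` which is not absorbed -/
lemma far_s {l' : SK} (h : ROK 1 .a l') : l' = .s := by
  rcases (h.one rfl).1 with h1 | h1
  · exact absurd h1 (by decide)
  · exact h1

lemma mn {α : Type*} {p : α → Prop} : ∀ g ∈ ([] : List α), p g :=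
  fun _ hg => absurd hg (List.not_mem_nil)

/-- the conditions of a box -/
lemma li_box {x0 m0 x1 : ℕ} {a0 b0 a1 b1 t0 c0 t1 c1 : ℤ} {y : ℂ}
    (h0 : (x0 : ℝ) / 10000 ≤ y.re) (hm : y.re ≤ (m0 : ℝ) / 10000)
    (h1 : y.re ≤ (x1 : ℝ) / 10000) (h2 : (t0 : ℝ) / 10000 ≤ y.im)
    (h3 : y.im ≤ (t1 : ℝ) / 10000) :
    ∀ g ∈ [GC.arc x0 m0 a0 b0, GC.arc 0 x1 a1 b1, GC.lo t0 c0, GC.hi t1 c1], g.G y := by
  have hx : (0 : ℝ) ≤ y.re := le_trans (by positivity) h0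
  intro g hg
  simp only [List.mem_cons, List.not_mem_nil, or_false] at hg
  rcases hg with rfl | rfl | rfl | rfl
  · exact ⟨h0, hm⟩
  · exact ⟨by simpa using hx, h1⟩
  · exact h2
  · exact h3

lemma ui_arc {x0 m0 : ℕ} {a0 b0 : ℤ} {y : ℂ} (h0 : (x0 : ℝ) / 10000 ≤ y.re)
    (hm : y.re ≤ (m0 : ℝ) / 10000) : ∀ g ∈ [GC.arc x0 m0 a0 b0], g.G y := by
  intro g hg
  rw [List.mem_singleton] at hg
  subst hg
  exact ⟨h0, hm⟩

lemma ui_hi {m c : ℤ} {y : ℂ} (h0 : y.im ≤ (m : ℝ) / 10000) : ∀ g ∈ [GC.hi m c], g.G y := by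
  intro g hg
  rw [List.mem_singleton] at hg
  subst hg
  exact h0

lemma ui_lo {m c : ℤ} {y : ℂ} (h0 : (m : ℝ) / 10000 ≤ y.im) : ∀ g ∈ [GC.lo m c], g.G y := by
  intro g hg
  rw [List.mem_singleton] at hg
  subst hg
  exact h0

lemma tb_of {X : ℝ} {s m c m' : ℕ} {a1 b1 a2 b2 : ℤ} {y z : ℂ} (rg : Rg y z)
    (rz : (GC.arc s m a1 b1).P (-z)) (ru : (GC.arc c m' a2 b2).P (y - z)) (h1 : 2500 ≤ m)
    (h2 : 6500 ≤ m') (hX : y.re ≤ X / 10000) : TB X s c y z := by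
  have m1' : (2500 : ℝ) ≤ m := by exact_mod_cast h1
  have m2' : (6500 : ℝ) ≤ m' := by exact_mod_cast h2
  have g1 := arc_ub rz (by rw [Complex.neg_re]; linarith only [m1', rg, rg.z1])
  have g3 := arc_ub ru (by rw [Complex.sub_re]; linarith only [m2', rg, rg.z1, rg.y1])
  rw [Complex.neg_re] at g1
  rw [Complex.sub_re] at g3
  exact ⟨hX, g1.le, g3.le⟩

/-- the conditions of three lines -/
lemma li_box3 {x0 m0 : ℕ} {a0 b0 : ℤ} {t0 c0 t1 c1 : ℤ} {y : ℂ}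
    (h0 : (x0 : ℝ) / 10000 ≤ y.re) (hm : y.re ≤ (m0 : ℝ) / 10000)
    (h2 : (t0 : ℝ) / 10000 ≤ y.im) (h3 : y.im ≤ (t1 : ℝ) / 10000) :
    ∀ g ∈ [GC.arc x0 m0 a0 b0, GC.lo t0 c0, GC.hi t1 c1], g.G y := by
  intro g hg
  simp only [List.mem_cons, List.not_mem_nil, or_false] at hg
  rcases hg with rfl | rfl | rfl
  · exact ⟨h0, hm⟩
  · exact h2
  · exact h3

/-- the box of a hinge next to a digit `1` in numbers -/
lemma one_num {y : ℂ} (h : (hbox .ring .one false).In y) :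
    214 / 1000 ≤ y.re ∧ y.re ≤ 298 / 1000 ∧ -(158 / 1000) ≤ y.im ∧ y.im ≤ -(38 / 1000) := by
  obtain ⟨a1, a2, a3, a4⟩ := h
  norm_num [hbox] at a1 a2 a3 a4
  norm_num
  exact ⟨a1, a2, a3, a4⟩

/-- lower bound of the height of the ring variable -/
lemma rho_mk' {r c : ℤ} {z : ℂ} (h : (GC.hi r c).P (-z)) : -(r : ℝ) / 10000 ≤ z.im := by
  have h1 : (-z).im ≤ (r : ℝ) / 10000 := h
  rw [Complex.neg_im] at h1
  rw [neg_div]
  linarith only [h1]

lemma OL.s2 {d B : ℕ} : OL d B .s (tA B PS2) := fun hK _ _ _ _ hT hq h =>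
  tA_all hT hq (portS hK) h

/-- the bounds of a row -/
lemma b4c_of {x0 x1 m1 s0 s1 m2 c1 m3 : ℕ} {cr : ℤ} {t0 t1 r1 r0 q1 q0 : ℤ}
    {a1 b1 a2 b2 e1 e2 a3 b3 a4 b4 e3 e4 a5 b5 e5 e6 : ℤ} {y z : ℂ} {A : Prop}
    (h : (∀ g ∈ [GC.arc 0 x0 a1 b1, .arc x1 m1 a2 b2, .lo t0 e1, .hi t1 e2], g.P y) ∧
      (∀ g ∈ [GC.arc 0 s0 a3 b3, .arc s1 m2 a4 b4, .lo (-r1) e3, .hi (-r0) e4], g.P (-z)) ∧
      (∀ g ∈ [GC.arc c1 m3 a5 b5, .lo (-q1) e5, .hi (-q0) e6], g.P (y - z)) ∧ A) (rg : Rg y z)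
    (h1 : 4000 ≤ m1) (h2 : 2500 ≤ m2) (h3 : 6500 ≤ m3) (h4 : (c1 : ℤ) - r0 ≤ cr) :
    (mk4 x0 x1 s0 s1 q0 q1 r0 r1 t0 t1 c1 cr).In y z := by
  obtain ⟨hy, hz, hu, -⟩ := h
  have m1' : (4000 : ℝ) ≤ m1 := by exact_mod_cast h1
  have m2' : (2500 : ℝ) ≤ m2 := by exact_mod_cast h2
  have m3' : (6500 : ℝ) ≤ m3 := by exact_mod_cast h3
  have m4' : (c1 : ℝ) - r0 ≤ cr := by exact_mod_cast h4
  have ya := arc_lb (hy (.arc 0 x0 a1 b1) (by simp)) (by simpa using rg.y0)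
  have yb := arc_ub (hy (.arc x1 m1 a2 b2) (by simp)) (by linarith only [m1', rg, rg.y1])
  have yc : (t0 : ℝ) / 10000 ≤ y.im := hy (.lo t0 e1) (by simp)
  have yd : y.im ≤ (t1 : ℝ) / 10000 := hy (.hi t1 e2) (by simp)
  have za := arc_lb (hz (.arc 0 s0 a3 b3) (by simp)) (by simpa using rg.z0)
  have zb := arc_ub (hz (.arc s1 m2 a4 b4) (by simp)) (by
    rw [Complex.neg_re]; linarith only [m2', rg, rg.z1])
  have zc : ((-r1 : ℤ) : ℝ) / 10000 ≤ (-z).im := hz (.lo (-r1) e3) (by simp)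
  have zd : (-z).im ≤ ((-r0 : ℤ) : ℝ) / 10000 := hz (.hi (-r0) e4) (by simp)
  have ua := arc_ub (hu (.arc c1 m3 a5 b5) (by simp)) (by
    rw [Complex.sub_re]; linarith only [m3', rg, rg.z1, rg.y1])
  have ub : ((-q1 : ℤ) : ℝ) / 10000 ≤ (y - z).im := hu (.lo (-q1) e5) (by simp)
  have uc : (y - z).im ≤ ((-q0 : ℤ) : ℝ) / 10000 := hu (.hi (-q0) e6) (by simp)
  rw [Complex.neg_re] at za zb
  rw [Complex.neg_im] at zc zd
  rw [Complex.sub_re] at ua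
  rw [Complex.sub_im] at ub uc
  push_cast at zc zd ub uc
  refine ⟨?_, ?_, ?_, ?_, ?_, ?_, ?_, ?_, ?_, ?_, ?_, ?_⟩
  · simp only [mk4]
    push_cast
    linarith only [ya]
  · simp only [mk4]
    push_cast
    linarith only [yb]
  · simp only [mk4]
    push_cast
    linarith only [za]
  · simp only [mk4]
    push_cast
    linarith only [zb]
  · simp only [mk4]
    push_cast
    linarith only [uc]
  · simp only [mk4]
    push_cast
    linarith only [ub]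
  · simp only [mk4]
    push_cast
    linarith only [zd]
  · simp only [mk4]
    push_cast
    linarith only [zc]
  · simp only [mk4]
    push_cast
    linarith only [yc]
  · simp only [mk4]
    push_cast
    linarith only [yd]
  · simp only [mk4]
    push_cast
    linarith only [ua]
  · simp only [mk4]
    push_cast
    linarith only [m4', ua, zd]

/-- the conditions without a bound on the left -/
lemma li_box4 {x1 : ℕ} {a1 b1 t0 c0 t1 c1 : ℤ} {y : ℂ} (h0 : 0 ≤ y.re)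
    (h1 : y.re ≤ (x1 : ℝ) / 10000) (h2 : (t0 : ℝ) / 10000 ≤ y.im)
    (h3 : y.im ≤ (t1 : ℝ) / 10000) :
    ∀ g ∈ [GC.arc 0 x1 a1 b1, GC.lo t0 c0, GC.hi t1 c1], g.G y := by
  intro g hg
  simp only [List.mem_cons, List.not_mem_nil, or_false] at hg
  rcases hg with rfl | rfl | rfl
  · exact ⟨by simpa using h0, h1⟩
  · exact h2
  · exact h3

end

end Pool.Agent.Work.MP_b30479_gt.G2.CN.TD
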