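import Pool.Agent.Work.MP_b30479_gt.G2.CN.TTabA
import Pool.Agent.Work.MP_b30479_gt.G2.CN.TRwE
import Pool.Agent.Work.MP_b30479_gt.G2.CN.TRwJ
import Pool.Agent.Work.MP_b30479_gt.G2.CN.TSpl
import Pool.Agent.Work.MP_b30479_gt.G2.CN.TDatb
import Pool.Agent.Work.MP_b30479_gt.G2.CN.TUt

/-!
# Windows of the rings next to a digit `1`
-/

namespace Pool.Agent.Work.MP_b30479_gt.G2.CN.TD

open Complex SR

noncomputable section

/-- the conclusion for a ring next to a digit `1` -/
def One (n : ℕ) (e : Bool) (P : Cl) (y z : ℂ) : Prop := ∃ W ∈ rw1 n e P, W.In y z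

section
variable {K : KFam} (hK : KOK K) {l : SK} {d' : ℕ} {l' : SK} {w R k' : ℂ}
include hK

/-- four crossings, digit `1` not absorbed -/
theorem one4_a (t : TDt K .a 4 l 1 l' w R k')
    (rg : Rg (yH .a R (Complex.cos w)) (zeta w)) :
    One 4 (decide (l = .e)) .one (yH .a R (Complex.cos w)) (zeta w) ∧
      (l ≠ .e → (zeta w).im ≤ 85 / 1000) := by
  have hs := far_s t.h.ok.right
  subst hs
  have hl := t.h.ok.left
  have hr := t.h.ok.right.symm
  cases l
  · obtain ⟨ry, rz, ru⟩ := tuse hK t rfl rfl o_4eu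
      (fun g hg => absurd hg (List.not_mem_nil)) (hK.inH hl k4ea_ok)
      (hK.inH hr k2as_ok) OL.e (OR.st (by decide))
    have hw := win_mk (s0 := 2027) rg (ry _ m0) (ry _ m1) (rz _ m0) (ru _ m0) (ru _ m1) (ru _ m2)
      (by have := arc_lb (rz _ m1) (by rw [Complex.neg_re]; norm_num; linarith only [rg, rg.z0]); rw [Complex.neg_re] at this; exact this.le) (by norm_num) (by norm_num) (by norm_num)
    norm_num at hw
    refine ⟨⟨⟨2186, 2483, 2027, 2153, 848, 1153, 4540⟩, by simp [rw1], hw⟩, fun h => absurd rfl h⟩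
  · obtain ⟨ry, rz, ru⟩ := tuse hK t rfl rfl o_4au
      (fun g hg => absurd hg (List.not_mem_nil)) (hK.inH hl k4aa_ok)
      (hK.inH hr k2as_ok) OL.a (OR.st (by decide))
    have hw := win_mk (s0 := 0) rg (ry _ m0) (ry _ m1) (rz _ m0) (ru _ m0) (ru _ m1) (ru _ m2)
      (by norm_num; linarith only [rg, rg.z0]) (by norm_num) (by norm_num) (by norm_num)
    norm_num at hw
    refine ⟨⟨⟨2269, 2692, 0, 1998, 997, 1557, 4592⟩, by simp [rw1], hw⟩, fun _ => ?_⟩
    have := rho_mk (rz _ m1)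
    norm_num at this
    linarith only [this]
  · obtain ⟨ry, rz, ru⟩ := tuse hK t rfl rfl o_4zu
      (fun g hg => absurd hg (List.not_mem_nil)) (hK.inH hl k4az_ok)
      (hK.inH hr k2as_ok) OL.z (OR.st (by decide))
    have hw := win_mk (s0 := 0) rg (ry _ m0) (ry _ m1) (rz _ m0) (ru _ m0) (ru _ m1) (ru _ m2)
      (by norm_num; linarith only [rg, rg.z0]) (by norm_num) (by norm_num) (by norm_num)
    norm_num at hw
    refine ⟨⟨⟨2269, 2692, 0, 1998, 997, 1557, 4592⟩, by simp [rw1], hw⟩, fun _ => ?_⟩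
    have := rho_mk (rz _ m1)
    norm_num at this
    linarith only [this]
  · obtain ⟨ry, rz, ru⟩ := tuse hK t rfl rfl o_4su
      (fun g hg => absurd hg (List.not_mem_nil)) (hK.inH hl k5as_ok)
      (hK.inH hr k2as_ok) (OL.s (by norm_num)) (OR.st (by decide))
    have hw := win_mk (s0 := 0) rg (ry _ m0) (ry _ m1) (rz _ m0) (ru _ m0) (ru _ m1) (ru _ m2)
      (by norm_num; linarith only [rg, rg.z0]) (by norm_num) (by norm_num) (by norm_num)
    norm_num at hw
    refine ⟨⟨⟨2269, 2692, 0, 1998, 997, 1557, 4592⟩, by simp [rw1], hw⟩, fun _ => ?_⟩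
    have := rho_mk (rz _ m1)
    norm_num at this
    linarith only [this]

/-- four crossings, absorbed digit `1`, behind it a ring `(1, a)` -/
theorem one4_1a (t : TDt K .s 4 l 1 .a w R k')
    (rg : Rg (yH .s R (Complex.cos w)) (zeta w)) :
    One 4 (decide (l = .e)) .one (yH .s R (Complex.cos w)) (zeta w) ∧
      (l ≠ .e → (zeta w).im ≤ 85 / 1000) := by
  have hl := t.h.ok.left
  have hr := t.h.ok.right.symm
  cases l
  · obtain ⟨ry, rz, ru⟩ := tuse hK t rfl rfl o_4e1a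
      (fun g hg => absurd hg (List.not_mem_nil)) (hK.inH hl k5es_ok)
      (hK.inH hr k2as_ok) OL.e (OR.a1 (by norm_num))
    have hw := win_mk (s0 := 2029) rg (ry _ m0) (ry _ m1) (rz _ m0) (ru _ m0) (ru _ m1) (ru _ m2)
      (by have := arc_lb (rz _ m1) (by rw [Complex.neg_re]; norm_num; linarith only [rg, rg.z0]); rw [Complex.neg_re] at this; exact this.le) (by norm_num) (by norm_num) (by norm_num)
    norm_num at hw
    exact ⟨⟨⟨2147, 2488, 2029, 2153, 848, 1226, 4547⟩, by simp [rw1], hw⟩, fun h => absurd rfl h⟩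
  · obtain ⟨ry, rz, ru⟩ := tuse hK t rfl rfl o_4a1a
      (fun g hg => absurd hg (List.not_mem_nil)) (hK.inH hl k5as_ok)
      (hK.inH hr k2as_ok) OL.a (OR.a1 (by norm_num))
    have hw := win_mk (s0 := 0) rg (ry _ m0) (ry _ m1) (rz _ m0) (ru _ m0) (ru _ m1) (ru _ m2)
      (by norm_num; linarith only [rg, rg.z0]) (by norm_num) (by norm_num) (by norm_num)
    norm_num at hw
    refine ⟨⟨⟨2226, 2698, 0, 2004, 997, 1634, 4595⟩, by simp [rw1], hw⟩, fun _ => ?_⟩
    have hρ := rho_mk (rz _ m1)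
    norm_num at hρ
    linarith only [hρ]
  · obtain ⟨ry, rz, ru⟩ := tuse hK t rfl rfl o_4z1a
      (fun g hg => absurd hg (List.not_mem_nil)) (hK.inH hl k5zs_ok)
      (hK.inH hr k2as_ok) OL.z (OR.a1 (by norm_num))
    have hw := win_mk (s0 := 0) rg (ry _ m0) (ry _ m1) (rz _ m0) (ru _ m0) (ru _ m1) (ru _ m2)
      (by norm_num; linarith only [rg, rg.z0]) (by norm_num) (by norm_num) (by norm_num)
    norm_num at hw
    refine ⟨⟨⟨2226, 2698, 0, 2004, 997, 1634, 4595⟩, by simp [rw1], hw⟩, fun _ => ?_⟩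
    have hρ := rho_mk (rz _ m1)
    norm_num at hρ
    linarith only [hρ]
  · obtain ⟨ry, rz, ru⟩ := tuse hK t rfl rfl o_4s1a
      (fun g hg => absurd hg (List.not_mem_nil)) (hK.inH hl k6ss_ok)
      (hK.inH hr k2as_ok) OL.nil (OR.a1 (by norm_num))
    have hw := win_mk (s0 := 0) rg (ry _ m0) (ry _ m1) (rz _ m0) (ru _ m0) (ru _ m1) (ru _ m2)
      (by norm_num; linarith only [rg, rg.z0]) (by norm_num) (by norm_num) (by norm_num)
    norm_num at hw
    refine ⟨⟨⟨2225, 2673, 0, 1879, 927, 1646, 4486⟩, by simp [rw1], hw⟩, fun _ => ?_⟩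
    have hρ := rho_mk (rz _ m1)
    norm_num at hρ
    linarith only [hρ]

/-- four crossings, absorbed digit `1`, behind it a ring `(1, s)` -/
theorem one4_1s (t : TDt K .s 4 l 1 .s w R k')
    (rg : Rg (yH .s R (Complex.cos w)) (zeta w)) :
    One 4 (decide (l = .e)) .one (yH .s R (Complex.cos w)) (zeta w) ∧
      (l ≠ .e → (zeta w).im ≤ 85 / 1000) := by
  have hl := t.h.ok.left
  have hr := t.h.ok.right.symm
  cases l
  · obtain ⟨ry, rz, ru⟩ := tuse hK t rfl rfl o_4e1s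
      (fun g hg => absurd hg (List.not_mem_nil)) (hK.inH hl k5es_ok)
      (hK.inH hr k3ss_ok) OL.e OR.s
    have hw := win_mk (s0 := 2004) rg (ry _ m0) (ry _ m1) (rz _ m0) (ru _ m0) (ru _ m1) (ru _ m2)
      (by have := arc_lb (rz _ m1) (by rw [Complex.neg_re]; norm_num; linarith only [rg, rg.z0]); rw [Complex.neg_re] at this; exact this.le) (by norm_num) (by norm_num) (by norm_num)
    norm_num at hw
    exact ⟨⟨⟨2323, 2575, 2004, 2111, 993, 1179, 4609⟩, by simp [rw1], hw⟩, fun h => absurd rfl h⟩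
  · obtain ⟨ry, rz, ru⟩ := tuse hK t rfl rfl o_4a1s
      (fun g hg => absurd hg (List.not_mem_nil)) (hK.inH hl k5as_ok)
      (hK.inH hr k3ss_ok) OL.a OR.s
    have hw := win_mk (s0 := 0) rg (ry _ m0) (ry _ m1) (rz _ m0) (ru _ m0) (ru _ m1) (ru _ m2)
      (by norm_num; linarith only [rg, rg.z0]) (by norm_num) (by norm_num) (by norm_num)
    norm_num at hw
    refine ⟨⟨⟨2412, 2788, 0, 1967, 1154, 1573, 4668⟩, by simp [rw1], hw⟩, fun _ => ?_⟩
    have hρ := rho_mk (rz _ m1)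
    norm_num at hρ
    linarith only [hρ]
  · obtain ⟨ry, rz, ru⟩ := tuse hK t rfl rfl o_4z1s
      (fun g hg => absurd hg (List.not_mem_nil)) (hK.inH hl k5zs_ok)
      (hK.inH hr k3ss_ok) OL.z OR.s
    have hw := win_mk (s0 := 0) rg (ry _ m0) (ry _ m1) (rz _ m0) (ru _ m0) (ru _ m1) (ru _ m2)
      (by norm_num; linarith only [rg, rg.z0]) (by norm_num) (by norm_num) (by norm_num)
    norm_num at hw
    refine ⟨⟨⟨2412, 2788, 0, 1967, 1154, 1573, 4668⟩, by simp [rw1], hw⟩, fun _ => ?_⟩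
    have hρ := rho_mk (rz _ m1)
    norm_num at hρ
    linarith only [hρ]
  · obtain ⟨ry, rz, ru⟩ := tuse hK t rfl rfl o_4s1s
      (fun g hg => absurd hg (List.not_mem_nil)) (hK.inH hl k6ss_ok)
      (hK.inH hr k3ss_ok) OL.nil OR.s
    have hw := win_mk (s0 := 0) rg (ry _ m0) (ry _ m1) (rz _ m0) (ru _ m0) (ru _ m1) (ru _ m2)
      (by norm_num; linarith only [rg, rg.z0]) (by norm_num) (by norm_num) (by norm_num)
    norm_num at hw
    refine ⟨⟨⟨2400, 2767, 0, 1879, 1103, 1567, 4578⟩, by simp [rw1], hw⟩, fun _ => ?_⟩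
    have hρ := rho_mk (rz _ m1)
    norm_num at hρ
    linarith only [hρ]

/-- four crossings, absorbed digit `1`, behind it a ring `(2, a)` -/
theorem one4_2a (t : TDt K .s 4 l 2 .a w R k') (h3 : (acot2 (Sp R k')).re < 1 / 2)
    (rg : Rg (yH .s R (Complex.cos w)) (zeta w)) :
    One 4 (decide (l = .e)) .two (yH .s R (Complex.cos w)) (zeta w) ∧
      (l ≠ .e → (zeta w).im ≤ 75 / 1000 ∧
        -(acot2 (Sp R k')).im + (zeta w).im ≤ 150 / 1000) := by
  have hl := t.h.ok.left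
  have hr := t.h.ok.right.symm
  cases l
  · obtain ⟨ry, rz, ru⟩ := tuse hK t rfl rfl o_4e2a
      (fun g hg => absurd hg (List.not_mem_nil)) (hK.inH hl k5es_ok)
      (hK.inH hr k3as_ok) OL.e OR.a
    have hw := win_mk (s0 := 1965) rg (ry _ m0) (ry _ m1) (rz _ m0) (ru _ m0) (ru _ m1) (ru _ m2)
      (by have := arc_lb (rz _ m1) (by rw [Complex.neg_re]; norm_num; linarith only [rg, rg.z0]); rw [Complex.neg_re] at this; exact this.le) (by norm_num) (by norm_num) (by norm_num)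
    norm_num at hw
    exact ⟨⟨⟨2500, 2726, 1965, 2065, 1059, 1269, 4721⟩, by simp [rw1], hw⟩, fun h => absurd rfl h⟩
  · obtain ⟨ry, rz, ru, rv⟩ := tuseV hK t h3 rfl rfl o_4a2a
      (fun g hg => absurd hg (List.not_mem_nil)) (hK.inH hl k5as_ok)
      (hK.inH hr k3as_ok) OL.a OR.a
    have hw := win_mk (s0 := 0) rg (ry _ m0) (ry _ m1) (rz _ m0) (ru _ m0) (ru _ m1) (ru _ m2)
      (by norm_num; linarith only [rg, rg.z0]) (by norm_num) (by norm_num) (by norm_num)
    norm_num at hw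
    refine ⟨⟨⟨2591, 2947, 0, 1931, 1224, 1660, 4798⟩, by simp [rw1], hw⟩, fun _ => ?_⟩
    have hρ := rho_mk (rz _ m1)
    norm_num at hρ
    have hv : ((-1500 : ℤ) : ℝ) / 10000 ≤ _ := rv _ m0
    rw [Complex.sub_im] at hv
    norm_num at hv
    constructor <;> linarith only [hρ, hv]
  · obtain ⟨ry, rz, ru, rv⟩ := tuseV hK t h3 rfl rfl o_4z2a
      (fun g hg => absurd hg (List.not_mem_nil)) (hK.inH hl k5zs_ok)
      (hK.inH hr k3as_ok) OL.z OR.a
    have hw := win_mk (s0 := 0) rg (ry _ m0) (ry _ m1) (rz _ m0) (ru _ m0) (ru _ m1) (ru _ m2)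
      (by norm_num; linarith only [rg, rg.z0]) (by norm_num) (by norm_num) (by norm_num)
    norm_num at hw
    refine ⟨⟨⟨2591, 2947, 0, 1931, 1224, 1660, 4798⟩, by simp [rw1], hw⟩, fun _ => ?_⟩
    have hρ := rho_mk (rz _ m1)
    norm_num at hρ
    have hv : ((-1500 : ℤ) : ℝ) / 10000 ≤ _ := rv _ m0
    rw [Complex.sub_im] at hv
    norm_num at hv
    constructor <;> linarith only [hρ, hv]
  · obtain ⟨ry, rz, ru, rv⟩ := tuseV hK t h3 rfl rfl o_4s2a
      (fun g hg => absurd hg (List.not_mem_nil)) (hK.inH hl k6ss_ok)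
      (hK.inH hr k3as_ok) OL.nil OR.a
    have hw := win_mk (s0 := 0) rg (ry _ m0) (ry _ m1) (rz _ m0) (ru _ m0) (ru _ m1) (ru _ m2)
      (by norm_num; linarith only [rg, rg.z0]) (by norm_num) (by norm_num) (by norm_num)
    norm_num at hw
    refine ⟨⟨⟨2573, 2935, 0, 1879, 1172, 1661, 4742⟩, by simp [rw1], hw⟩, fun _ => ?_⟩
    have hρ := rho_mk (rz _ m1)
    norm_num at hρ
    have hv : ((-1500 : ℤ) : ℝ) / 10000 ≤ _ := rv _ m0
    rw [Complex.sub_im] at hv
    norm_num at hv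
    constructor <;> linarith only [hρ, hv]

/-- four crossings, absorbed digit `1`, behind it a ring `(2, s)` -/
theorem one4_2s (t : TDt K .s 4 l 2 .s w R k') (h3 : (acot2 (Sp R k')).re < 1 / 2)
    (rg : Rg (yH .s R (Complex.cos w)) (zeta w)) :
    One 4 (decide (l = .e)) .two (yH .s R (Complex.cos w)) (zeta w) ∧
      (l ≠ .e → (zeta w).im ≤ 75 / 1000 ∧
        -(acot2 (Sp R k')).im + (zeta w).im ≤ 150 / 1000) := by
  have hl := t.h.ok.left
  have hr := t.h.ok.right.symm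
  cases l
  · obtain ⟨ry, rz, ru⟩ := tuse hK t rfl rfl o_4e2s
      (fun g hg => absurd hg (List.not_mem_nil)) (hK.inH hl k5es_ok)
      (hK.inH hr k4ss_ok) OL.e OR.s
    have hw := win_mk (s0 := 1967) rg (ry _ m0) (ry _ m1) (rz _ m0) (ru _ m0) (ru _ m1) (ru _ m2)
      (by have := arc_lb (rz _ m1) (by rw [Complex.neg_re]; norm_num; linarith only [rg, rg.z0]); rw [Complex.neg_re] at this; exact this.le) (by norm_num) (by norm_num) (by norm_num)
    norm_num at hw
    exact ⟨⟨⟨2595, 2751, 1967, 2034, 1125, 1232, 4738⟩, by simp [rw1], hw⟩, fun h => absurd rfl h⟩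
  · obtain ⟨ry, rz, ru, rv⟩ := tuseV hK t h3 rfl rfl o_4a2s
      (fun g hg => absurd hg (List.not_mem_nil)) (hK.inH hl k5as_ok)
      (hK.inH hr k4ss_ok) OL.a OR.s
    have hw := win_mk (s0 := 0) rg (ry _ m0) (ry _ m1) (rz _ m0) (ru _ m0) (ru _ m1) (ru _ m2)
      (by norm_num; linarith only [rg, rg.z0]) (by norm_num) (by norm_num) (by norm_num)
    norm_num at hw
    refine ⟨⟨⟨2678, 2983, 0, 1912, 1285, 1625, 4826⟩, by simp [rw1], hw⟩, fun _ => ?_⟩
    have hρ := rho_mk (rz _ m1)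
    norm_num at hρ
    have hv : ((-1500 : ℤ) : ℝ) / 10000 ≤ _ := rv _ m0
    rw [Complex.sub_im] at hv
    norm_num at hv
    constructor <;> linarith only [hρ, hv]
  · obtain ⟨ry, rz, ru, rv⟩ := tuseV hK t h3 rfl rfl o_4z2s
      (fun g hg => absurd hg (List.not_mem_nil)) (hK.inH hl k5zs_ok)
      (hK.inH hr k4ss_ok) OL.z OR.s
    have hw := win_mk (s0 := 0) rg (ry _ m0) (ry _ m1) (rz _ m0) (ru _ m0) (ru _ m1) (ru _ m2)
      (by norm_num; linarith only [rg, rg.z0]) (by norm_num) (by norm_num) (by norm_num)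
    norm_num at hw
    refine ⟨⟨⟨2678, 2983, 0, 1912, 1285, 1625, 4826⟩, by simp [rw1], hw⟩, fun _ => ?_⟩
    have hρ := rho_mk (rz _ m1)
    norm_num at hρ
    have hv : ((-1500 : ℤ) : ℝ) / 10000 ≤ _ := rv _ m0
    rw [Complex.sub_im] at hv
    norm_num at hv
    constructor <;> linarith only [hρ, hv]
  · obtain ⟨ry, rz, ru, rv⟩ := tuseV hK t h3 rfl rfl o_4s2s
      (fun g hg => absurd hg (List.not_mem_nil)) (hK.inH hl k6ss_ok)
      (hK.inH hr k4ss_ok) OL.nil OR.s
    have hw := win_mk (s0 := 0) rg (ry _ m0) (ry _ m1) (rz _ m0) (ru _ m0) (ru _ m1) (ru _ m2)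
      (by norm_num; linarith only [rg, rg.z0]) (by norm_num) (by norm_num) (by norm_num)
    norm_num at hw
    refine ⟨⟨⟨2655, 2970, 0, 1879, 1237, 1614, 4777⟩, by simp [rw1], hw⟩, fun _ => ?_⟩
    have hρ := rho_mk (rz _ m1)
    norm_num at hρ
    have hv : ((-1500 : ℤ) : ℝ) / 10000 ≤ _ := rv _ m0
    rw [Complex.sub_im] at hv
    norm_num at hv
    constructor <;> linarith only [hρ, hv]

/-- four crossings, absorbed digit `1`, behind it a ring `(2, e)` -/
theorem one4_2e (t : TDt K .s 4 l 2 .e w R k')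
    (rg : Rg (yH .s R (Complex.cos w)) (zeta w)) :
    One 4 (decide (l = .e)) .twoE (yH .s R (Complex.cos w)) (zeta w) ∧
      (l ≠ .e → (zeta w).im ≤ 75 / 1000) := by
  have hl := t.h.ok.left
  have hr := t.h.ok.right.symm
  cases l
  · obtain ⟨ry, rz, ru⟩ := tuse hK t rfl rfl o_4e2e
      (fun g hg => absurd hg (List.not_mem_nil)) (hK.inH hl k5es_ok)
      (hK.inH hr k3es_ok) OL.e OR.e
    have hw := win_mk (s0 := 2015) rg (ry _ m0) (ry _ m1) (rz _ m0) (ru _ m0) (ru _ m1) (ru _ m2)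
      (by have := arc_lb (rz _ m1) (by rw [Complex.neg_re]; norm_num; linarith only [rg, rg.z0]); rw [Complex.neg_re] at this; exact this.le) (by norm_num) (by norm_num) (by norm_num)
    norm_num at hw
    exact ⟨⟨⟨2382, 2442, 2015, 2075, 1343, 1403, 4487⟩, by simp [rw1], hw⟩, fun h => absurd rfl h⟩
  · obtain ⟨ry, rz, ru⟩ := tuse hK t rfl rfl o_4a2e
      (fun g hg => absurd hg (List.not_mem_nil)) (hK.inH hl k5as_ok)
      (hK.inH hr k3es_ok) OL.a OR.e
    have hw := win_mk (s0 := 0) rg (ry _ m0) (ry _ m1) (rz _ m0) (ru _ m0) (ru _ m1) (ru _ m2)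
      (by norm_num; linarith only [rg, rg.z0]) (by norm_num) (by norm_num) (by norm_num)
    norm_num at hw
    refine ⟨⟨⟨2462, 2637, 0, 1962, 1530, 1818, 4561⟩, by simp [rw1], hw⟩, fun _ => ?_⟩
    have hρ := rho_mk (rz _ m1)
    norm_num at hρ
    linarith only [hρ]
  · obtain ⟨ry, rz, ru⟩ := tuse hK t rfl rfl o_4z2e
      (fun g hg => absurd hg (List.not_mem_nil)) (hK.inH hl k5zs_ok)
      (hK.inH hr k3es_ok) OL.z OR.e
    have hw := win_mk (s0 := 0) rg (ry _ m0) (ry _ m1) (rz _ m0) (ru _ m0) (ru _ m1) (ru _ m2)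
      (by norm_num; linarith only [rg, rg.z0]) (by norm_num) (by norm_num) (by norm_num)
    norm_num at hw
    refine ⟨⟨⟨2462, 2637, 0, 1962, 1530, 1818, 4561⟩, by simp [rw1], hw⟩, fun _ => ?_⟩
    have hρ := rho_mk (rz _ m1)
    norm_num at hρ
    linarith only [hρ]
  · obtain ⟨ry, rz, ru⟩ := tuse hK t rfl rfl o_4s2e
      (fun g hg => absurd hg (List.not_mem_nil)) (hK.inH hl k6ss_ok)
      (hK.inH hr k3es_ok) OL.nil OR.e
    have hw := win_mk (s0 := 0) rg (ry _ m0) (ry _ m1) (rz _ m0) (ru _ m0) (ru _ m1) (ru _ m2)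
      (by norm_num; linarith only [rg, rg.z0]) (by norm_num) (by norm_num) (by norm_num)
    norm_num at hw
    refine ⟨⟨⟨2463, 2648, 0, 1879, 1533, 1861, 4466⟩, by simp [rw1], hw⟩, fun _ => ?_⟩
    have hρ := rho_mk (rz _ m1)
    norm_num at hρ
    linarith only [hρ]

/-- five crossings, digit `1` not absorbed -/
theorem one5_a (t : TDt K .a 5 l 1 l' w R k')
    (rg : Rg (yH .a R (Complex.cos w)) (zeta w)) :
    One 5 (decide (l = .e)) .one (yH .a R (Complex.cos w)) (zeta w) := by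
  have hs := far_s t.h.ok.right
  subst hs
  have hl := t.h.ok.left
  have hr := t.h.ok.right.symm
  cases l
  · obtain ⟨ry, rz, ru⟩ := tuse hK t rfl rfl o_5eu
      (fun g hg => absurd hg (List.not_mem_nil)) (hK.inH hl k5ea_ok)
      (hK.inH hr k2as_ok) OL.e (OR.st (by decide))
    have hw := win_mk (s0 := 1691) rg (ry _ m0) (ry _ m1) (rz _ m0) (ru _ m0) (ru _ m1) (ru _ m2)
      (by have := arc_lb (rz _ m1) (by rw [Complex.neg_re]; norm_num; linarith only [rg, rg.z0]); rw [Complex.neg_re] at this; exact this.le) (by norm_num) (by norm_num) (by norm_num)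
    norm_num at hw
    exact ⟨⟨2214, 2514, 1691, 1798, 858, 1190, 4235⟩, by simp [rw1], hw⟩
  · obtain ⟨ry, rz, ru⟩ := tuse hK t rfl rfl o_5au
      (fun g hg => absurd hg (List.not_mem_nil)) (hK.inH hl k5aa_ok)
      (hK.inH hr k2as_ok) OL.a (OR.st (by decide))
    have hw := win_mk (s0 := 0) rg (ry _ m0) (ry _ m1) (rz _ m0) (ru _ m0) (ru _ m1) (ru _ m2)
      (by norm_num; linarith only [rg, rg.z0]) (by norm_num) (by norm_num) (by norm_num)
    norm_num at hw
    exact ⟨⟨2264, 2635, 0, 1674, 962, 1469, 4216⟩, by simp [rw1], hw⟩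
  · obtain ⟨ry, rz, ru⟩ := tuse hK t rfl rfl o_5zu
      (fun g hg => absurd hg (List.not_mem_nil)) (hK.inH hl k5az_ok)
      (hK.inH hr k2as_ok) OL.z (OR.st (by decide))
    have hw := win_mk (s0 := 0) rg (ry _ m0) (ry _ m1) (rz _ m0) (ru _ m0) (ru _ m1) (ru _ m2)
      (by norm_num; linarith only [rg, rg.z0]) (by norm_num) (by norm_num) (by norm_num)
    norm_num at hw
    exact ⟨⟨2299, 2635, 0, 1721, 1062, 1469, 4273⟩, by simp [rw1], hw⟩
  · obtain ⟨ry, rz, ru⟩ := tuse hK t rfl rfl o_5su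
      (fun g hg => absurd hg (List.not_mem_nil)) (hK.inH hl k6as_ok)
      (hK.inH hr k2as_ok) OL.nil (OR.st (by decide))
    have hw := win_mk (s0 := 0) rg (ry _ m0) (ry _ m1) (rz _ m0) (ru _ m0) (ru _ m1) (ru _ m2)
      (by norm_num; linarith only [rg, rg.z0]) (by norm_num) (by norm_num) (by norm_num)
    norm_num at hw
    exact ⟨⟨2256, 2649, 0, 1710, 891, 1532, 4291⟩, by simp [rw1], hw⟩

/-- five crossings, absorbed digit `1`, behind it a ring `(1, a)` -/
theorem one5_1a (t : TDt K .s 5 l 1 .a w R k')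
    (rg : Rg (yH .s R (Complex.cos w)) (zeta w)) :
    One 5 (decide (l = .e)) .one (yH .s R (Complex.cos w)) (zeta w) := by
  have hl := t.h.ok.left
  have hr := t.h.ok.right.symm
  by_cases hle : l = .e
  · subst hle
    obtain ⟨ry, rz, ru⟩ := tuse hK t rfl rfl o_5e1a
      (fun g hg => absurd hg (List.not_mem_nil)) (hK.inH hl k6es_ok)
      (hK.inH hr k2as_ok) OL.nil (OR.a1 (by norm_num))
    have hw := win_mk (s0 := 0) rg (ry _ m0) (ry _ m1) (rz _ m0) (ru _ m0) (ru _ m1) (ru _ m2)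
      (by norm_num; linarith only [rg, rg.z0]) (by norm_num) (by norm_num) (by norm_num)
    norm_num at hw
    exact ⟨⟨2166, 2524, 0, 1842, 785, 1313, 4318⟩, by simp [rw1], hw⟩
  · rw [decide_eq_false hle]
    obtain ⟨ry, rz, ru⟩ := tuse hK t rfl rfl o_5h1a
      (fun g hg => absurd hg (List.not_mem_nil)) (in_h6s hK hl hle)
      (hK.inH hr k2as_ok) OL.nil (OR.a1 (by norm_num))
    have hw := win_mk (s0 := 0) rg (ry _ m0) (ry _ m1) (rz _ m0) (ru _ m0) (ru _ m1) (ru _ m2)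
      (by norm_num; linarith only [rg, rg.z0]) (by norm_num) (by norm_num) (by norm_num)
    norm_num at hw
    exact ⟨⟨2213, 2654, 0, 1754, 891, 1623, 4359⟩, by simp [rw1], hw⟩

/-- five crossings, absorbed digit `1`, behind it a ring `(1, s)` -/
theorem one5_1s (t : TDt K .s 5 l 1 .s w R k')
    (rg : Rg (yH .s R (Complex.cos w)) (zeta w)) :
    One 5 (decide (l = .e)) .one (yH .s R (Complex.cos w)) (zeta w) := by
  have hl := t.h.ok.left
  have hr := t.h.ok.right.symm
  by_cases hle : l = .e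
  · subst hle
    obtain ⟨ry, rz, ru⟩ := tuse hK t rfl rfl o_5e1s
      (fun g hg => absurd hg (List.not_mem_nil)) (hK.inH hl k6es_ok)
      (hK.inH hr k3ss_ok) OL.nil OR.s
    have hw := win_mk (s0 := 0) rg (ry _ m0) (ry _ m1) (rz _ m0) (ru _ m0) (ru _ m1) (ru _ m2)
      (by norm_num; linarith only [rg, rg.z0]) (by norm_num) (by norm_num) (by norm_num)
    norm_num at hw
    exact ⟨⟨2335, 2607, 0, 1842, 959, 1252, 4403⟩, by simp [rw1], hw⟩
  · rw [decide_eq_false hle]
    obtain ⟨ry, rz, ru⟩ := tuse hK t rfl rfl o_5h1s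
      (fun g hg => absurd hg (List.not_mem_nil)) (in_h6s hK hl hle)
      (hK.inH hr k3ss_ok) OL.nil OR.s
    have hw := win_mk (s0 := 0) rg (ry _ m0) (ry _ m1) (rz _ m0) (ru _ m0) (ru _ m1) (ru _ m2)
      (by norm_num; linarith only [rg, rg.z0]) (by norm_num) (by norm_num) (by norm_num)
    norm_num at hw
    exact ⟨⟨2393, 2746, 0, 1754, 1073, 1552, 4450⟩, by simp [rw1], hw⟩

/-- five crossings, absorbed digit `1`, behind it a ring `(2, a)` -/
theorem one5_2a (t : TDt K .s 5 l 2 .a w R k')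
    (rg : Rg (yH .s R (Complex.cos w)) (zeta w)) :
    One 5 (decide (l = .e)) .two (yH .s R (Complex.cos w)) (zeta w) := by
  have hl := t.h.ok.left
  have hr := t.h.ok.right.symm
  by_cases hle : l = .e
  · subst hle
    obtain ⟨ry, rz, ru⟩ := tuse hK t rfl rfl o_5e2a
      (fun g hg => absurd hg (List.not_mem_nil)) (hK.inH hl k6es_ok)
      (hK.inH hr k3as_ok) OL.nil OR.a
    have hw := win_mk (s0 := 0) rg (ry _ m0) (ry _ m1) (rz _ m0) (ru _ m0) (ru _ m1) (ru _ m2)
      (by norm_num; linarith only [rg, rg.z0]) (by norm_num) (by norm_num) (by norm_num)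
    norm_num at hw
    exact ⟨⟨2499, 2750, 0, 1842, 1034, 1352, 4548⟩, by simp [rw1], hw⟩
  · rw [decide_eq_false hle]
    obtain ⟨ry, rz, ru⟩ := tuse hK t rfl rfl o_5h2a
      (fun g hg => absurd hg (List.not_mem_nil)) (in_h6s hK hl hle)
      (hK.inH hr k3as_ok) OL.nil OR.a
    have hw := win_mk (s0 := 0) rg (ry _ m0) (ry _ m1) (rz _ m0) (ru _ m0) (ru _ m1) (ru _ m2)
      (by norm_num; linarith only [rg, rg.z0]) (by norm_num) (by norm_num) (by norm_num)
    norm_num at hw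
    exact ⟨⟨2563, 2906, 0, 1754, 1151, 1657, 4609⟩, by simp [rw1], hw⟩

/-- five crossings, absorbed digit `1`, behind it a ring `(2, s)` -/
theorem one5_2s (t : TDt K .s 5 l 2 .s w R k')
    (rg : Rg (yH .s R (Complex.cos w)) (zeta w)) :
    One 5 (decide (l = .e)) .two (yH .s R (Complex.cos w)) (zeta w) := by
  have hl := t.h.ok.left
  have hr := t.h.ok.right.symm
  by_cases hle : l = .e
  · subst hle
    obtain ⟨ry, rz, ru⟩ := tuse hK t rfl rfl o_5e2s
      (fun g hg => absurd hg (List.not_mem_nil)) (hK.inH hl k6es_ok)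
      (hK.inH hr k4ss_ok) OL.nil OR.s
    have hw := win_mk (s0 := 0) rg (ry _ m0) (ry _ m1) (rz _ m0) (ru _ m0) (ru _ m1) (ru _ m2)
      (by norm_num; linarith only [rg, rg.z0]) (by norm_num) (by norm_num) (by norm_num)
    norm_num at hw
    exact ⟨⟨2578, 2783, 0, 1842, 1098, 1317, 4580⟩, by simp [rw1], hw⟩
  · rw [decide_eq_false hle]
    obtain ⟨ry, rz, ru⟩ := tuse hK t rfl rfl o_5h2s
      (fun g hg => absurd hg (List.not_mem_nil)) (in_h6s hK hl hle)
      (hK.inH hr k4ss_ok) OL.nil OR.s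
    have hw := win_mk (s0 := 0) rg (ry _ m0) (ry _ m1) (rz _ m0) (ru _ m0) (ru _ m1) (ru _ m2)
      (by norm_num; linarith only [rg, rg.z0]) (by norm_num) (by norm_num) (by norm_num)
    norm_num at hw
    exact ⟨⟨2645, 2942, 0, 1754, 1220, 1615, 4644⟩, by simp [rw1], hw⟩

/-- five crossings, absorbed digit `1`, behind it a ring `(2, e)` -/
theorem one5_2e (t : TDt K .s 5 l 2 .e w R k')
    (rg : Rg (yH .s R (Complex.cos w)) (zeta w)) :
    One 5 (decide (l = .e)) .twoE (yH .s R (Complex.cos w)) (zeta w) := by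
  have hl := t.h.ok.left
  have hr := t.h.ok.right.symm
  by_cases hle : l = .e
  · subst hle
    obtain ⟨ry, rz, ru⟩ := tuse hK t rfl rfl o_5e2e
      (fun g hg => absurd hg (List.not_mem_nil)) (hK.inH hl k6es_ok)
      (hK.inH hr k3es_ok) OL.nil OR.e
    have hw := win_mk (s0 := 0) rg (ry _ m0) (ry _ m1) (rz _ m0) (ru _ m0) (ru _ m1) (ru _ m2)
      (by norm_num; linarith only [rg, rg.z0]) (by norm_num) (by norm_num) (by norm_num)
    norm_num at hw
    exact ⟨⟨2389, 2480, 0, 1842, 1375, 1521, 4284⟩, by simp [rw1], hw⟩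
  · rw [decide_eq_false hle]
    obtain ⟨ry, rz, ru⟩ := tuse hK t rfl rfl o_5h2e
      (fun g hg => absurd hg (List.not_mem_nil)) (in_h6s hK hl hle)
      (hK.inH hr k3es_ok) OL.nil OR.e
    have hw := win_mk (s0 := 0) rg (ry _ m0) (ry _ m1) (rz _ m0) (ru _ m0) (ru _ m1) (ru _ m2)
      (by norm_num; linarith only [rg, rg.z0]) (by norm_num) (by norm_num) (by norm_num)
    norm_num at hw
    exact ⟨⟨2442, 2609, 0, 1754, 1503, 1842, 4325⟩, by simp [rw1], hw⟩

end

/-- a row for the hinges with real part at least `26 / 100` -/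
theorem q_ge {K : KFam} (hK : KOK K) {x : SK} {d : ℕ} {l : SK} {d' : ℕ} {l' : SK} {w R k' : ℂ}
    (t : TDt K x d l d' l' w R k') {B' : ℕ} (hB' : crs d' x l' = B') {o : List QC}
    {o' : List QC} {L' : List Grp} {m : ℕ} {a b cq : ℤ} {n code : ℕ}
    (hr : trowOk x [.arc 2600 m a b] o [] o' L' [] [] [.hi (-1000) cq] n code = true)
    (ho : InH (K.K d l x) o) (ho' : InH (K.K d' l' x) o') (hL' : OR x d' B' l' L')
    (h1 : 26 / 100 ≤ (yH x R (Complex.cos w)).re) (h2 : (yH x R (Complex.cos w)).re ≤ 2 / 5)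
    (hm : 4000 ≤ m) : 1 / 10 ≤ (zeta w).im - (yH x R (Complex.cos w)).im := by
  have hm' : (4000 : ℝ) ≤ m := by exact_mod_cast hm
  obtain ⟨-, -, ru⟩ := tuse hK t rfl hB' hr (fun g hg => by
    rw [List.mem_singleton] at hg
    subst hg
    exact ⟨by norm_num; linarith only [h1], by linarith only [h2, hm']⟩) ho ho' OL.nil hL'
  have g : _ ≤ ((-1000 : ℤ) : ℝ) / 10000 := ru _ (List.mem_cons_self)
  rw [Complex.sub_im] at g
  norm_num at g
  linarith only [g]

/-- **At least six crossings next to a digit `1`.** -/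
theorem one6 {K : KFam} (hK : KOK K) {x : SK} {d : ℕ} {l : SK} {d' : ℕ} {l' : SK} {w R k' : ℂ}
    (t : TDt K x d l d' l' w R k') (h6 : 6 ≤ d) (hx : (x = .a ∧ d' = 1) ∨ x = .s)
    (h1 : 26 / 100 ≤ (yH x R (Complex.cos w)).re) (h2 : (yH x R (Complex.cos w)).re ≤ 2 / 5) :
    1 / 10 ≤ (zeta w).im - (yH x R (Complex.cos w)).im := by
  have hl := t.h.ok.left
  have hr := t.h.ok.right.symm
  rcases hx with ⟨rfl, rfl⟩ | rfl
  · have hs := far_s t.h.ok.right
    subst hs
    by_cases hle : l = .e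
    · subst hle
      exact q_ge hK t rfl o_6w (in_oN6e hK hl h6) (hK.inH hr k2as_ok) (OR.st (by decide)) h1 h2
        (by norm_num)
    · exact q_ge hK t rfl o_6u (in_oN6a hK hl h6 hle) (hK.inH hr k2as_ok) (OR.st (by decide)) h1
        h2 (by norm_num)
  · have hd : d' = 1 ∨ d' = 2 := by
      have h3 := t.h.ok.one rfl
      have h4 := hr.pos
      omega
    have hz : l' ≠ .z := fun h5 => by
      have := hr.zl h5
      omega
    by_cases hle : l = .e
    · subst hle
      have ho := in_oN7f hK hl h6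
      rcases hd with rfl | rfl
      · cases l'
        · exact absurd rfl (hr.one rfl).2.1
        · exact q_ge hK t rfl o_6f1a ho (hK.inH hr k2as_ok) (OR.a1 (by norm_num)) h1 h2
            (by norm_num)
        · exact absurd rfl hz
        · exact q_ge hK t rfl o_6f1s ho (hK.inH hr k3ss_ok) OR.s h1 h2 (by norm_num)
      · cases l'
        · exact q_ge hK t rfl o_6f2e ho (hK.inH hr k3es_ok) OR.e h1 h2 (by norm_num)
        · exact q_ge hK t rfl o_6f2a ho (hK.inH hr k3as_ok) OR.a h1 h2 (by norm_num)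
        · exact absurd rfl hz
        · exact q_ge hK t rfl o_6f2s ho (hK.inH hr k4ss_ok) OR.s h1 h2 (by norm_num)
    · have ho := in_oN7s hK hl h6 hle
      rcases hd with rfl | rfl
      · cases l'
        · exact absurd rfl (hr.one rfl).2.1
        · exact q_ge hK t rfl o_6s1a ho (hK.inH hr k2as_ok) (OR.a1 (by norm_num)) h1 h2
            (by norm_num)
        · exact absurd rfl hz
        · exact q_ge hK t rfl o_6s1s ho (hK.inH hr k3ss_ok) OR.s h1 h2 (by norm_num)
      · cases l'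
        · exact q_ge hK t rfl o_6s2e ho (hK.inH hr k3es_ok) OR.e h1 h2 (by norm_num)
        · exact q_ge hK t rfl o_6s2a ho (hK.inH hr k3as_ok) OR.a h1 h2 (by norm_num)
        · exact absurd rfl hz
        · exact q_ge hK t rfl o_6s2s ho (hK.inH hr k4ss_ok) OR.s h1 h2 (by norm_num)

end

end Pool.Agent.Work.MP_b30479_gt.G2.CN.TD
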