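import Pool.Agent.Work.MP_b30479_gt.G2.CN.LocRW
import Pool.Agent.Work.MP_b30479_gt.G2.CN.M3Eq
import Pool.Agent.Work.MP_b30479_gt.G2.CN.TTabB
import Pool.Agent.Work.MP_b30479_gt.G2.CN.TTabC

/-!
# The windows of the rings of a word: assembly
-/

namespace Pool.Agent.Work.MP_b30479_gt.G2.CN.TD

open Complex SR
open scoped ComplexConjugate

noncomputable section

variable {M : ℕ} {b : Fin (M + 1) → ℤ} {w : ℕ → ℂ}

/-- the box of the ring variable -/
lemma zb_of (hL : Loc b (zsW b w)) (v : ZZ (tyW b)) {l : SK} (hl : l = .e ↔ isEnd v.1 = true) :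
    ZB (b v.1).natAbs l (zeta (oW b w v.1.val)) := by
  have h := hL.ring v
  rw [ofz_own] at h
  unfold ZB
  have e : decide (l = .e) = isEnd v.1 := by
    rcases Bool.eq_false_or_eq_true (isEnd v.1) with h1 | h1
    · rw [h1, decide_eq_true (hl.2 h1)]
    · rw [h1, decide_eq_false (fun h2 => by rw [hl.1 h2] at h1; exact absurd h1 (by decide))]
  rw [e]
  exact h

lemma kbox_un {x : SK} {d : ℕ} {l : SK} {d' : ℕ} {l' : SK} {y : ℂ} (h4 : 4 ≤ d) (hx : x ≠ .s)
    (h : (kbox x d l d' l').In y) : YB x d' l' y := by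
  unfold kbox at h
  rw [if_neg hx, cK_ring h4] at h
  exact h

lemma kbox_s {d : ℕ} {l : SK} {d' : ℕ} {l' : SK} {y : ℂ} (h4 : 4 ≤ d)
    (h : (kbox .s d l d' l').In y) : (hbox .ring .one false).In y := by
  unfold kbox at h
  rw [if_pos rfl, cK_ring h4] at h
  exact h

lemma nC_ne_s {x : SK} {d' : ℕ} {l' : SK} {A : Cl} (h : A = nC x d' l') (hA : A ≠ .one) :
    x ≠ .s ∧ A = cK d' l' := by
  unfold nC at h
  split_ifs at h with h1
  · exact absurd h hA
  · exact ⟨h1, h⟩

lemma cK_two' {d : ℕ} {l : SK} (h : Cl.two = cK d l) : d = 2 ∧ l ≠ .e := cK_two h.symm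

lemma cK_twoE {d : ℕ} {l : SK} (h : Cl.twoE = cK d l) : d = 2 ∧ l = .e := by
  unfold cK at h
  split_ifs at h with h1 h2 h3 h4 h5
  exact ⟨h2, h3⟩

lemma cK_ge3 {d : ℕ} {l : SK} {A : Cl} (hd : 1 ≤ d) (h : A = cK d l)
    (hA : A = .three ∨ A = .threeE ∨ A = .ring) : 3 ≤ d := by
  subst h
  by_contra hc
  have h1 : d = 1 ∨ d = 2 := by omega
  rcases h1 with rfl | rfl
  · simp [cK] at hA
  · unfold cK at hA
    split_ifs at hA <;> simp_all

lemma one_nat {i : Fin (M + 1)} (hc : clsW b i = .one) : (b i).natAbs = 1 := by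
  unfold clsW cls at hc
  split_ifs at hc with h1
  exact h1

lemma one_box {y : ℂ} (h : (hbox .ring .one false).In y) : 0 ≤ y.re ∧ y.re ≤ 2 / 5 := by
  obtain ⟨a1, a2, -, -⟩ := h
  norm_num [hbox] at a1 a2
  constructor <;> linarith

section
variable (hb : ClassW b) (F : RingFacts) (hw : Sol b w) {K : KFam} (hS : Snd K b w)
  (Bx : BoxRows K)
variable {h h' : Fin M} {i j j' : Fin (M + 1)} {p : Fin 3}
include hb F hw hS Bx

/-- the side of a ring next to a digit `1` -/
theorem one_side (A : Adj h j p i) (h4 : 4 ≤ (b j).natAbs) (hc : clsW b i = .one) :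
    ∃ (x l : SK) (d' : ℕ) (l' : SK) (R k' : ℂ),
      TDt K x (b j).natAbs l d' l' (oW b w j.val) R k' ∧
      ofr (b j) (zsW b w (.inl (.inl h))) = yH x R (Complex.cos (oW b w j.val)) ∧
      (l = .e ↔ isEnd j = true) ∧
      ((x = .s ∧ us b i.val = true) ∨ (us b i.val = false ∧ d' = 1 ∧ x = .a)) ∧
      (hbox .ring .one false).In (yH x R (Complex.cos (oW b w j.val))) := by
  obtain ⟨x, l, d', l', R, k', t, hy, he, hc', hx, hB⟩ := ring_view hb F hw hS Bx A h4
  have h1 := one_nat hc
  refine ⟨x, l, d', l', R, k', t, hy, he, ?_, ?_⟩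
  · rcases hx with hx | ⟨hu, hd, hx⟩
    · exact Or.inl hx
    · refine Or.inr ⟨hu, by omega, ?_⟩
      by_contra hc2
      have hz : x = .z := by
        rw [hx] at hc2 ⊢
        split_ifs at hc2 ⊢ with h2
        · rfl
        · exact absurd rfl hc2
      have := t.h.ok.right.zl hz
      omega
  · rcases hx with ⟨rfl, -⟩ | ⟨hu, hd, hx⟩
    · exact kbox_s h4 hB
    · have hd' : d' = 1 := by omega
      subst hd'
      have hxs : x ≠ .s := by
        rw [hx]
        split_ifs <;> decide
      have hB' := kbox_un h4 hxs hB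
      unfold YB at hB'
      have hz : x ≠ .z := fun hz => by
        have := t.h.ok.right.zl hz
        omega
      rw [decide_eq_false hz] at hB'
      exact hB'

end

section
variable (hb : ClassW b) (F : RingFacts) (hw : Sol b w) (hM : 1 ≤ M) {K : KFam} (hK : KOK K)
  (hS : Snd K b w) (Bx : BoxRows K)
include hb F hw hM hK hS Bx

/-- **The windows of the rings of a word.** -/
theorem locRg_of : LocRg b (zsW b w) := by
  have hL := loc_of_boxes hb F hw hM hS Bx
  have hr4 : ∀ v : ZZ (tyW b), 4 ≤ (b v.1).natAbs := by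
    rintro ⟨i, hv⟩
    exact ring_four hb (by
      cases h : tyW b i <;> rw [h] at hv <;> first | rfl | exact absurd hv (by decide))
  have base : ∀ {h : Fin M} {i j : Fin (M + 1)} {p : Fin 3} (v : ZZ (tyW b)), v.1 = i →
      Adj h i p j → clsW b j ≠ .one →
      ∃ (x l : SK) (d' : ℕ) (l' : SK) (R k' : ℂ),
        TDt K x (b i).natAbs l d' l' (oW b w i.val) R k' ∧ 4 ≤ (b i).natAbs ∧
        ofr (b i) (zsW b w (.inl (.inl h))) = yH x R (Complex.cos (oW b w i.val)) ∧
        ofz (b i) (zsW b w (.inr v)) = zeta (oW b w i.val) ∧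
        (l = .e ↔ isEnd i = true) ∧ clsW b j = cK d' l' ∧ (x = .a ∨ x = .z) ∧ 1 ≤ d' ∧
        ZB (b i).natAbs l (zeta (oW b w i.val)) ∧
        YB x d' l' (yH x R (Complex.cos (oW b w i.val))) := by
    intro h i j p v hv A hc
    subst hv
    have h4 := hr4 v
    obtain ⟨x, l, d', l', R, k', t, hy, he, hc', hx, hB⟩ := ring_view hb F hw hS Bx A h4
    obtain ⟨hxs, hcc⟩ := nC_ne_s hc' hc
    refine ⟨x, l, d', l', R, k', t, h4, hy, ofz_own v, he, hcc, ?_, t.h.ok.right.pos,
      zb_of hL v he, kbox_un h4 hxs hB⟩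
    rcases hx with ⟨h1, -⟩ | ⟨-, -, h1⟩
    · exact absurd h1 hxs
    · rw [h1]
      split_ifs
      · exact Or.inr rfl
      · exact Or.inl rfl
  have rg : ∀ {x l : SK} {R : ℂ} {j : Fin (M + 1)} (v : ZZ (tyW b)), v.1 = j →
      (l = .e ↔ isEnd j = true) →
      (hbox .ring .one false).In (yH x R (Complex.cos (oW b w j.val))) →
      Rg (yH x R (Complex.cos (oW b w j.val))) (zeta (oW b w j.val)) := by
    intro x l R j v hv he hB
    subst hv
    have z0 := zb_rg (hr4 v) (zb_of hL v he)
    have y0 := one_box hB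
    exact ⟨y0.1, y0.2, z0.1, z0.2⟩
  -- a digit `1` which is not absorbed: the other neighbour is absorbed
  have far : ∀ {h h' : Fin M} {i j j' : Fin (M + 1)} {p : Fin 3}, Adj h i p j →
      Adj h' i p.rev j' → us b i.val = false → (b i).natAbs = 1 → clsW b j ≠ .one →
      clsW b j' = .one := by
    intro h h' i j j' p A A' hu h1 hj
    obtain ⟨x, x', dl, ll, dr, rr, kl, kr, hE, -, -, c1, c2⟩ := A.pair_view hb F hw hS A' hu
    obtain ⟨hxs, -⟩ := nC_ne_s c1 hj
    rw [h1] at hE
    have h2 : x' = .s := (hE.left.ok.left.one rfl).1.resolve_right hxs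
    rw [c2, h2]
    rfl
  refine ⟨?_, ?_, ?_, ?_, ?_, ?_, ?_, ?_⟩
  · -- three
    intro h i j p v hv A hc hcj
    obtain ⟨x, l, d', l', R, k', t, h4, hy, hz, he, hcc, hx, hd, hZ, hY⟩ :=
      base v hv A (by rcases hcj with h | h | h <;> rw [h] <;> decide)
    rw [hy, hz]
    exact b3 hK t h4 hx (cK_ge3 hd hcc hcj) hZ hY
  · -- two
    intro h i j p v hv A hc hcj
    obtain ⟨x, l, d', l', R, k', t, h4, hy, hz, he, hcc, hx, hd, hZ, hY⟩ :=
      base v hv A (by rw [hcj]; decide)
    rw [hcj] at hcc
    obtain ⟨rfl, hl'⟩ := cK_two' hcc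
    obtain rfl : x = .a := hx.resolve_right fun h5 => by
      have := t.h.ok.right.zl h5
      omega
    rw [hy, hz]
    exact b2 hK t h4 hl' hZ hY
  · -- twoE5
    intro h i j p v hv A h5 hcj
    obtain ⟨x, l, d', l', R, k', t, h4, hy, hz, he, hcc, hx, hd, hZ, hY⟩ :=
      base v hv A (by rw [hcj]; decide)
    rw [hcj] at hcc
    obtain ⟨rfl, rfl⟩ := cK_twoE hcc
    obtain rfl : x = .a := hx.resolve_right fun h5 => by
      have := t.h.ok.right.zl h5
      omega
    rw [hy, hz]
    exact b2e hK t h5 hZ hY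
  · -- twoE4
    intro h i j p v hv A h5 hend hcj
    obtain ⟨x, l, d', l', R, k', t, h4, hy, hz, he, hcc, hx, hd, hZ, hY⟩ :=
      base v hv A (by rw [hcj]; decide)
    rw [hcj] at hcc
    obtain ⟨rfl, rfl⟩ := cK_twoE hcc
    obtain rfl : x = .a := hx.resolve_right fun h5 => by
      have := t.h.ok.right.zl h5
      omega
    have hl : l ≠ .e := fun h6 => by
      rw [he.1 h6] at hend
      exact absurd hend (by decide)
    rw [hy, hz]
    rw [h5] at t hZ
    exact b2f hK t hl hZ hY
  · -- w42
    intro h i j p v hv A h5 hend hcj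
    obtain ⟨x, l, d', l', R, k', t, h4, hy, hz, he, hcc, hx, hd, hZ, hY⟩ :=
      base v hv A (by rw [hcj]; decide)
    rw [hcj] at hcc
    obtain ⟨rfl, rfl⟩ := cK_twoE hcc
    obtain rfl : x = .a := hx.resolve_right fun h5 => by
      have := t.h.ok.right.zl h5
      omega
    obtain rfl : l = .e := he.2 hend
    rw [hy, hz]
    rw [h5] at t hZ
    exact b42 hK t hZ hY
  · -- one
    intro h h' i j j' p v hv A A' hc h45
    have h4 : 4 ≤ (b j).natAbs := by omega
    have hi := one_nat hc
    obtain ⟨x, l, d', l', R, k', t, hy, he, hx', hB⟩ := one_side hb F hw hS Bx A.symm h4 hc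
    have hdec : ∀ {l : SK}, (l = .e ↔ isEnd j = true) → decide (l = .e) = isEnd j := by
      intro l he
      rcases Bool.eq_false_or_eq_true (isEnd j) with h1 | h1
      · rw [h1, decide_eq_true (he.2 h1)]
      · rw [h1, decide_eq_false (fun h2 => by rw [he.1 h2] at h1; exact absurd h1 (by decide))]
    rcases hx' with ⟨rfl, hu⟩ | ⟨hu, rfl, rfl⟩
    · -- absorbed
      clear he
      obtain ⟨l, l', R, k', t, h3, hy, -, hc', he⟩ := absd_ring hb F hw hS Bx A A' hu
      have hB : (hbox .ring .one false).In (yH .s R (Complex.cos (oW b w j.val))) := by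
        obtain ⟨x, l, d', l', R2, k2, t2, hy2, he2, hx2, hB2⟩ :=
          one_side hb F hw hS Bx A.symm h4 hc
        rw [← hy, hy2]
        exact hB2
      have r0 := rg v hv he hB
      have hd : (b j').natAbs = 1 ∨ (b j').natAbs = 2 := by
        have h5 := t.h.ok.one rfl
        have h6 := t.h.ok.right.pos
        omega
      have hz : l' ≠ .z := fun h5 => by
        have := t.h.ok.right.zr h5
        omega
      subst hv
      rw [ofz_own, hy, hc']
      rw [← hdec he]
      generalize (b j').natAbs = d' at t hd hc'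
      generalize (b v.1).natAbs = d at t h45
      rcases hd with rfl | rfl
      · rw [show cK 1 l' = .one by simp [cK]]
        cases l'
        · exact absurd rfl (t.h.ok.right.one rfl).2.2
        · rcases h45 with rfl | rfl
          · exact (one4_1a hK t r0).1
          · exact one5_1a hK t r0
        · exact absurd rfl hz
        · rcases h45 with rfl | rfl
          · exact (one4_1s hK t r0).1
          · exact one5_1s hK t r0
      · cases l'
        · rw [show cK 2 .e = .twoE by simp [cK]]
          rcases h45 with rfl | rfl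
          · exact (one4_2e hK t r0).1
          · exact one5_2e hK t r0
        · rw [show cK 2 .a = .two by simp [cK]]
          rcases h45 with rfl | rfl
          · exact (one4_2a hK t h3 r0).1
          · exact one5_2a hK t r0
        · exact absurd rfl hz
        · rw [show cK 2 .s = .two by simp [cK]]
          rcases h45 with rfl | rfl
          · exact (one4_2s hK t h3 r0).1
          · exact one5_2s hK t r0
    · -- not absorbed
      have r0 := rg v hv he hB
      have hc' := far A A' hu hi (fun h5 => by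
        have := one_nat h5
        omega)
      subst hv
      rw [ofz_own, hy, hc', ← hdec he]
      rcases h45 with h5 | h5
      · rw [h5] at t ⊢
        exact (one4_a hK t r0).1
      · rw [h5] at t ⊢
        exact one5_a hK t r0
  · -- one6
    intro h i j p v hv A hc h6 hx
    have h4 : 4 ≤ (b j).natAbs := by omega
    obtain ⟨x, l, d', l', R, k', t, hy, he, hx', hB⟩ := one_side hb F hw hS Bx A.symm h4 hc
    subst hv
    rw [ofz_own, hy]
    have y0 := one_box hB
    refine one6 hK t h6 ?_ ?_ y0.2
    · rcases hx' with ⟨h1, -⟩ | ⟨-, h1, h2⟩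
      · exact Or.inr h1
      · exact Or.inl ⟨h2, h1⟩
    · rw [← hy, ofr_re]
      exact hx
  · -- kr
    intro h h' i j j' p v hv A A' hc h5 hend
    have h4 : 4 ≤ (b j).natAbs := by omega
    have hi := one_nat hc
    obtain ⟨x, l, d', l', R, k', t, hy, he, hx', hB⟩ := one_side hb F hw hS Bx A.symm h4 hc
    rcases hx' with ⟨rfl, hu⟩ | ⟨hu, rfl, rfl⟩
    · -- absorbed
      clear he
      obtain ⟨l, l', R, k', t, h3, hy, hy', hc', he⟩ := absd_ring hb F hw hS Bx A A' hu
      have hB : (hbox .ring .one false).In (yH .s R (Complex.cos (oW b w j.val))) := by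
        obtain ⟨x, l, d', l', R2, k2, t2, hy2, he2, hx2, hB2⟩ :=
          one_side hb F hw hS Bx A.symm h4 hc
        rw [← hy, hy2]
        exact hB2
      have r0 := rg v hv he hB
      have hl : l ≠ .e := fun h6 => by
        rw [he.1 h6] at hend
        exact absurd hend (by decide)
      have hd : (b j').natAbs = 1 ∨ (b j').natAbs = 2 := by
        have h5 := t.h.ok.one rfl
        have h6 := t.h.ok.right.pos
        omega
      have hz : l' ≠ .z := fun h5 => by
        have := t.h.ok.right.zr h5
        omega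
      have hop : b j' * b i < 0 := A'.symm.opp hb (Or.inr (by rw [hc]; decide))
      have es : ofs (b i) (zsW b w (.inl (.inl h'))).im = -(acot2 (Sp R k')).im := by
        rw [ofs_opp hop, ← ofr_im, hy']
      have ez : (zsW b w (.inr v)).im = (zeta (oW b w v.1.val)).im := by
        rw [← ofz_own v, ofz_im]
      subst hv
      rw [es, ez, hc']
      generalize (b j').natAbs = d' at t hd hc'
      rw [h5] at t
      rcases hd with rfl | rfl
      · rw [show cK 1 l' = .one by simp [cK]]
        refine ⟨?_, fun h6 => absurd h6 (by decide)⟩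
        cases l'
        · exact absurd rfl (t.h.ok.right.one rfl).2.2
        · exact (one4_1a hK t r0).2 hl
        · exact absurd rfl hz
        · exact (one4_1s hK t r0).2 hl
      · cases l'
        · rw [show cK 2 .e = .twoE by simp [cK]]
          exact ⟨((one4_2e hK t r0).2 hl).trans (by norm_num), fun h6 => absurd h6 (by decide)⟩
        · have h7 := (one4_2a hK t h3 r0).2 hl
          exact ⟨h7.1.trans (by norm_num), fun _ => h7⟩
        · exact absurd rfl hz
        · have h7 := (one4_2s hK t h3 r0).2 hl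
          exact ⟨h7.1.trans (by norm_num), fun _ => h7⟩
    · -- not absorbed
      have r0 := rg v hv he hB
      have hl : l ≠ .e := fun h6 => by
        rw [he.1 h6] at hend
        exact absurd hend (by decide)
      have hc' := far A A' hu hi (fun h5 => by
        have := one_nat h5
        omega)
      have ez : (zsW b w (.inr v)).im = (zeta (oW b w v.1.val)).im := by
        rw [← ofz_own v, ofz_im]
      subst hv
      rw [h5] at t
      rw [ez, hc']
      exact ⟨(one4_a hK t r0).2 hl, fun h6 => absurd h6 (by decide)⟩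

end

end

end Pool.Agent.Work.MP_b30479_gt.G2.CN.TD
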