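import Pool.Agent.Work.MP_b30479_gt.G2.CN.TTabA
import Pool.Agent.Work.MP_b30479_gt.G2.SWordL

/-!
# The two sides of a region of a word
-/

namespace Pool.Agent.Work.MP_b30479_gt.G2.CN.TD

open Complex SR
open scoped ComplexConjugate

noncomputable section

variable {M : ℕ} {b : Fin (M + 1) → ℤ} {w : ℕ → ℂ}

/-- the side of the region `i` towards its neighbour `j` at slot `p`: kind `x`, next ring
`(d, x, l)` -/
structure Sd (b : Fin (M + 1) → ℤ) (i j : Fin (M + 1)) (p : Fin 3) (x : SK) (d : ℕ) (l : SK) :
    Prop where
  cls : clsW b j = nC x d l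
  s : us b j.val = true → x = .s
  u : us b j.val = false → d = (b j).natAbs ∧ x = if 0 < b i * b j then .z else .a
  far : ∀ {h' : Fin M} {j' : Fin (M + 1)}, Adj h' j p j' → us b j.val = true →
    d = (b j').natAbs ∧ clsW b j' = cK d l
  kd : ∀ {h' : Fin M} {j' : Fin (M + 1)}, Adj h' j p j' → us b j.val = false →
    (us b j'.val = true → l = .s) ∧
      (us b j'.val = false → l = if 0 < b j * b j' then .z else .a)

lemma sd_right {h : Fin M} {i j : Fin (M + 1)} (A : Adj h i 2 j) :
    Sd b i j 2 (rk b i.val) (dg b (rn b i.val)) (rk b (rn b i.val)) := by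
  have e : i.val = h.val ∧ j.val = h.val + 1 := by
    rcases A.elim with ⟨-, h1⟩ | ⟨h0, -⟩
    · exact h1
    · exact absurd h0 (by decide)
  have hj := j.2
  have hji : j.val = i.val + 1 := by omega
  refine ⟨cls_right hji, fun h1 => rk_s (by omega) (by rwa [← hji]), fun h1 => ?_, ?_, ?_⟩
  · have h1' : us b (i.val + 1) = false := by rwa [← hji]
    have hrn : rn b i.val = j.val := by
      unfold rn
      rw [if_neg (by rw [h1']; decide)]
      omega
    refine ⟨?_, ?_⟩
    · rw [hrn, dg_val]
    · rw [rk_f (by omega) h1', ← bb_val (b := b) i, ← bb_val (b := b) j, hji]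
  · intro h' j' A' h1
    have h1' : us b (i.val + 1) = true := by rwa [← hji]
    have e' : j.val = h'.val ∧ j'.val = h'.val + 1 := by
      rcases A'.elim with ⟨-, h2⟩ | ⟨h0, -⟩
      · exact h2
      · exact absurd h0 (by decide)
    have hj' := j'.2
    have hrn : rn b i.val = j'.val := by
      unfold rn
      rw [if_pos h1']
      omega
    rw [hrn]
    refine ⟨dg_val j', ?_⟩
    refine clsW_eq _ ?_
    constructor
    · intro h6
      right
      by_contra hc
      exact rk_ne_e (by omega) h6
    · rintro (h6 | h6)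
      · omega
      · exact rk_e (by omega)
  · intro h' j' A' h1
    have h1' : us b (i.val + 1) = false := by rwa [← hji]
    have e' : j.val = h'.val ∧ j'.val = h'.val + 1 := by
      rcases A'.elim with ⟨-, h2⟩ | ⟨h0, -⟩
      · exact h2
      · exact absurd h0 (by decide)
    have hj' := j'.2
    have hrn : rn b i.val = j.val := by
      unfold rn
      rw [if_neg (by rw [h1']; decide)]
      omega
    have hjj : j'.val = j.val + 1 := by omega
    rw [hrn]
    refine ⟨fun h3 => rk_s (by omega) (by rwa [← hjj]), fun h3 => ?_⟩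
    have h3' : us b (j.val + 1) = false := by rwa [← hjj]
    rw [rk_f (by omega) h3', ← bb_val (b := b) j, ← bb_val (b := b) j', hjj]

lemma sd_left {h : Fin M} {i j : Fin (M + 1)} (A : Adj h i 0 j) :
    Sd b i j 0 (lk b i.val) (dg b (ln b i.val)) (lk b (ln b i.val)) := by
  have e : i.val = h.val + 1 ∧ j.val = h.val := by
    rcases A.elim with ⟨h0, -⟩ | ⟨-, h1⟩
    · exact absurd h0 (by decide)
    · exact h1
  have hi := i.2
  have hji : i.val = j.val + 1 := by omega
  refine ⟨cls_left hji, fun h1 => lk_s (by omega) (by rwa [show i.val - 1 = j.val by omega]),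
    fun h1 => ?_, ?_, ?_⟩
  · have h1' : us b (i.val - 1) = false := by rwa [show i.val - 1 = j.val by omega]
    have hln : ln b i.val = j.val := by
      unfold ln
      rw [if_neg (by rw [h1']; decide)]
      omega
    refine ⟨?_, ?_⟩
    · rw [hln, dg_val]
    · rw [lk_f (by omega) h1', ← bb_val (b := b) i, ← bb_val (b := b) j,
        show i.val - 1 = j.val by omega]
  · intro h' j' A' h1
    have h1' : us b (i.val - 1) = true := by rwa [show i.val - 1 = j.val by omega]
    have e' : j.val = h'.val + 1 ∧ j'.val = h'.val := by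
      rcases A'.elim with ⟨h0, -⟩ | ⟨-, h2⟩
      · exact absurd h0 (by decide)
      · exact h2
    have hln : ln b i.val = j'.val := by
      unfold ln
      rw [if_pos h1']
      omega
    rw [hln]
    refine ⟨dg_val j', ?_⟩
    refine clsW_eq _ ?_
    constructor
    · intro h6
      left
      by_contra hc
      exact lk_ne_e (by omega) h6
    · rintro (h6 | h6)
      · rw [h6]
        exact lk_e
      · omega
  · intro h' j' A' h1
    have h1' : us b (i.val - 1) = false := by rwa [show i.val - 1 = j.val by omega]
    have e' : j.val = h'.val + 1 ∧ j'.val = h'.val := by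
      rcases A'.elim with ⟨h0, -⟩ | ⟨-, h2⟩
      · exact absurd h0 (by decide)
      · exact h2
    have hln : ln b i.val = j.val := by
      unfold ln
      rw [if_neg (by rw [h1']; decide)]
      omega
    have hjj : j.val - 1 = j'.val := by omega
    rw [hln]
    refine ⟨fun h3 => lk_s (by omega) (by rwa [hjj]), fun h3 => ?_⟩
    have h3' : us b (j.val - 1) = false := by rwa [hjj]
    rw [lk_f (by omega) h3', ← bb_val (b := b) j, ← bb_val (b := b) j', hjj]

section
variable (hb : ClassW b) (F : RingFacts) (hw : Sol b w) {K : KFam} (hS : Snd K b w)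
variable {h h' : Fin M} {i j j' : Fin (M + 1)} {p : Fin 3}
include hb F hw hS

/-- both sides of an inner region which is not absorbed -/
theorem pair_sd (A : Adj h i p j) (A' : Adj h' i p.rev j') (hu : us b i.val = false) :
    ∃ (x x' : SK) (dl : ℕ) (ll : SK) (dr : ℕ) (rr : SK) (kl kr : ℂ),
      RDt K (b i).natAbs x x' dl ll dr rr (oW b w i.val) kl kr ∧
      ofr (b i) (zsW b w (.inl (.inl h))) =
        yH x (RR (oW b w i.val) kl) (Complex.cos (oW b w i.val)) ∧
      ofr (b i) (zsW b w (.inl (.inl h'))) =
        yH x' (RR (oW b w i.val) kr) (Complex.cos (oW b w i.val)) ∧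
      Sd b i j p x dl ll ∧ Sd b i j' p.rev x' dr rr := by
  rcases A.elim with ⟨rfl, e1, e2⟩ | ⟨rfl, e1, e2⟩
  · have e3 : i.val = h'.val + 1 ∧ j'.val = h'.val := by
      rcases A'.elim with ⟨h0, -⟩ | ⟨-, h1⟩
      · exact absurd h0 (by decide)
      · exact h1
    have hh := h.2
    have hE := (rdt hb F hw hS (n := i.val) (by omega) (by omega) hu).symm
    rw [dg_val] at hE
    refine ⟨rk b i.val, lk b i.val, _, _, _, _, oR b w i.val, oL b w i.val, hE, ?_, ?_,
      sd_right A, sd_left A'⟩
    · have ey := own_y_right F hw (n := i.val) (by omega) hu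
      rw [ofr_fz, zsW_val h e1.symm]
      exact ey
    · have ey := own_y_left hb F hw (n := i.val) (by omega) (by omega) hu
      rw [ofr_fz, zsW_val h' (n := i.val - 1) (by omega)]
      exact ey
  · have e3 : i.val = h'.val ∧ j'.val = h'.val + 1 := by
      rcases A'.elim with ⟨-, h1⟩ | ⟨h0, -⟩
      · exact h1
      · exact absurd h0 (by decide)
    have hh := h'.2
    have hE := rdt hb F hw hS (n := i.val) (by omega) (by omega) hu
    rw [dg_val] at hE
    refine ⟨lk b i.val, rk b i.val, _, _, _, _, oL b w i.val, oR b w i.val, hE, ?_, ?_,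
      sd_left A, sd_right A'⟩
    · have ey := own_y_left hb F hw (n := i.val) (by omega) (by omega) hu
      rw [ofr_fz, zsW_val h (n := i.val - 1) (by omega)]
      exact ey
    · have ey := own_y_right F hw (n := i.val) (by omega) hu
      rw [ofr_fz, zsW_val h' e3.1.symm]
      exact ey

end

end

end Pool.Agent.Work.MP_b30479_gt.G2.CN.TD
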