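import Pool.Agent.Work.MP_b30479_gt.G2.CN.TUse
import Pool.Agent.Work.MP_b30479_gt.G2.WLocR
import Pool.Agent.Work.MP_b30479_gt.G2.CN.TRwA
import Pool.Agent.Work.MP_b30479_gt.G2.SWordCk

/-!
# Windows of the rings next to the digits `2`, `3` and next to rings
-/

namespace Pool.Agent.Work.MP_b30479_gt.G2.CN.TD

open Complex SR

noncomputable section

/-- the box of the ring variable -/
def ZB (d : ℕ) (l : SK) (z : ℂ) : Prop := (zbox d (decide (l = .e))).In z

/-- the box of the hinge -/
def YB (x : SK) (d' : ℕ) (l' : SK) (y : ℂ) : Prop :=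
  (hbox .ring (cK d' l') (decide (x = .z))).In y

lemma ZB.e {d : ℕ} {z : ℂ} (h : ZB d .e z) : (zbox d true).In z := h
lemma ZB.i {d : ℕ} {l : SK} {z : ℂ} (h : ZB d l z) (hl : l ≠ .e) : (zbox d false).In z := by
  unfold ZB at h
  rwa [decide_eq_false hl] at h

/-- the interior box of a digit at least `6` -/
lemma zb6 {d : ℕ} (h6 : 6 ≤ d) {z : ℂ} (h : (zbox d false).In z) :
    -(168 / 1000) ≤ z.re ∧ z.re ≤ 0 ∧ 0 ≤ z.im ∧ z.im ≤ 52 / 1000 := by
  obtain ⟨a1, a2, a3, a4⟩ := h
  unfold zbox at a1 a2 a3 a4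
  rw [if_neg (by omega), if_neg (by omega)] at a1 a2 a3 a4
  by_cases e6 : d = 6
  · simp only [e6, if_true, if_false, Bool.false_eq_true] at a1 a2 a3 a4
    exact ⟨by linarith only [a1], by linarith only [a2], a3, by linarith only [a4]⟩
  · rw [if_neg e6] at a1 a2 a3 a4
    by_cases e7 : d = 7
    · simp only [e7, if_true, if_false, Bool.false_eq_true] at a1 a2 a3 a4
      exact ⟨by linarith only [a1], by linarith only [a2], a3, by linarith only [a4]⟩
    · rw [if_neg e7] at a1 a2 a3 a4
      simp only [if_false, Bool.false_eq_true] at a1 a2 a3 a4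
      refine ⟨by linarith only [a1], by linarith only [a2], a3, a4.trans ?_⟩
      have h8 : (8 : ℝ) ≤ d := by exact_mod_cast (show 8 ≤ d by omega)
      have : (64 : ℝ) ≤ (d : ℝ) ^ 2 := by nlinarith only [h8]
      rw [div_le_iff₀ (by linarith only [this])]
      linarith only [this]

/-- the box of a digit at least `6` at the end -/
lemma zb6e {d : ℕ} (h6 : 6 ≤ d) {z : ℂ} (h : (zbox d true).In z) :
    -(174 / 1000) ≤ z.re ∧ z.re ≤ 0 ∧ 0 ≤ z.im ∧ z.im ≤ 30 / 1000 := by
  obtain ⟨a1, a2, a3, a4⟩ := h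
  unfold zbox at a1 a2 a3 a4
  rw [if_neg (by omega), if_neg (by omega)] at a1 a2 a3 a4
  by_cases e6 : d = 6
  · simp only [e6, if_true] at a1 a2 a3 a4
    exact ⟨by linarith only [a1], by linarith only [a2], a3, by linarith only [a4]⟩
  · rw [if_neg e6] at a1 a2 a3 a4
    by_cases e7 : d = 7
    · simp only [e7, if_true] at a1 a2 a3 a4
      exact ⟨by linarith only [a1], by linarith only [a2], a3, by linarith only [a4]⟩
    · rw [if_neg e7] at a1 a2 a3 a4
      simp only [if_true] at a1 a2 a3 a4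
      refine ⟨by linarith only [a1], by linarith only [a2], a3, a4.trans ?_⟩
      have h8 : (8 : ℝ) ≤ d := by exact_mod_cast (show 8 ≤ d by omega)
      have : (64 : ℝ) ≤ (d : ℝ) ^ 2 := by nlinarith only [h8]
      rw [div_le_iff₀ (by linarith only [this])]
      linarith only [this]

lemma zb5 {z : ℂ} (h : (zbox 5 false).In z) :
    -(194 / 1000) ≤ z.re ∧ z.re ≤ -(127 / 1000) ∧ 0 ≤ z.im ∧ z.im ≤ 725 / 10000 := by
  obtain ⟨a1, a2, a3, a4⟩ := h
  norm_num [zbox] at a1 a2 a3 a4
  norm_num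
  exact ⟨a1, a2, a3, a4⟩

lemma zb5e {z : ℂ} (h : (zbox 5 true).In z) :
    -(206 / 1000) ≤ z.re ∧ z.re ≤ -(158 / 1000) ∧ 0 ≤ z.im ∧ z.im ≤ 43 / 1000 := by
  obtain ⟨a1, a2, a3, a4⟩ := h
  norm_num [zbox] at a1 a2 a3 a4
  norm_num
  exact ⟨a1, a2, a3, a4⟩

lemma zb4 {z : ℂ} (h : (zbox 4 false).In z) :
    -(226 / 1000) ≤ z.re ∧ z.re ≤ -(144 / 1000) ∧ 0 ≤ z.im ∧ z.im ≤ 1045 / 10000 := by
  obtain ⟨a1, a2, a3, a4⟩ := h
  norm_num [zbox] at a1 a2 a3 a4
  norm_num
  exact ⟨a1, a2, a3, a4⟩

lemma zb4e {z : ℂ} (h : (zbox 4 true).In z) :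
    -(248 / 1000) ≤ z.re ∧ z.re ≤ -(186 / 1000) ∧ 0 ≤ z.im ∧ z.im ≤ 65 / 1000 := by
  obtain ⟨a1, a2, a3, a4⟩ := h
  norm_num [zbox] at a1 a2 a3 a4
  norm_num
  exact ⟨a1, a2, a3, a4⟩

lemma zb_rg {d : ℕ} (h4 : 4 ≤ d) {l : SK} {z : ℂ} (h : ZB d l z) :
    z.re ≤ 0 ∧ -(1 / 4) ≤ z.re := by
  rcases Nat.lt_or_ge d 6 with h6 | h6
  · have : d = 4 ∨ d = 5 := by omega
    by_cases hl : l = .e
    · subst hl
      rcases this with rfl | rfl
      · have := zb4e h; constructor <;> linarith only [this]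
      · have := zb5e h; constructor <;> linarith only [this]
    · rcases this with rfl | rfl
      · have := zb4 (h.i hl); constructor <;> linarith only [this]
      · have := zb5 (h.i hl); constructor <;> linarith only [this]
  · by_cases hl : l = .e
    · subst hl
      have := zb6e h6 h; constructor <;> linarith only [this]
    · have := zb6 h6 (h.i hl); constructor <;> linarith only [this]

/-- ranges of a hinge next to a digit `3` -/
lemma yb3 {l' : SK} {y : ℂ} (h : YB .a 3 l' y) :
    171 / 1000 ≤ y.re ∧ y.re ≤ 234 / 1000 ∧ -(58 / 1000) ≤ y.im ∧ y.im ≤ 4 / 1000 := by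
  have e : cK 3 l' = .three ∨ cK 3 l' = .threeE := by
    cases l' <;> simp [cK]
  unfold YB at h
  rcases e with e | e <;>
  · rw [e] at h
    obtain ⟨a1, a2, a3, a4⟩ := h
    norm_num [hbox] at a1 a2 a3 a4
    norm_num
    exact ⟨by linarith only [a1], by linarith only [a2], by linarith only [a3], by linarith only [a4]⟩

lemma ybR {d' : ℕ} (h4 : 4 ≤ d') {l' : SK} {y : ℂ} (h : YB .a d' l' y) :
    182 / 1000 ≤ y.re ∧ y.re ≤ 252 / 1000 ∧ -(385 / 10000) ≤ y.im ∧ y.im ≤ 385 / 10000 := by
  unfold YB at h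
  rw [cK_ring h4] at h
  obtain ⟨a1, a2, a3, a4⟩ := h
  norm_num [hbox] at a1 a2 a3 a4
  norm_num
  exact ⟨a1, a2, a3, a4⟩

lemma ybZ {d' : ℕ} (h4 : 4 ≤ d') {l' : SK} {y : ℂ} (h : YB .z d' l' y) :
    170 / 1000 ≤ y.re ∧ y.re ≤ 252 / 1000 ∧ -(1 / 1000) ≤ y.im ∧ y.im ≤ 59 / 1000 := by
  unfold YB at h
  rw [cK_ring h4] at h
  obtain ⟨a1, a2, a3, a4⟩ := h
  norm_num [hbox] at a1 a2 a3 a4
  norm_num
  exact ⟨a1, a2, a3, a4⟩

lemma yb2 {l' : SK} (hl : l' ≠ .e) {y : ℂ} (h : YB .a 2 l' y) :
    186 / 1000 ≤ y.re ∧ y.re ≤ 252 / 1000 ∧ -(96 / 1000) ≤ y.im ∧ y.im ≤ -(10 / 1000) := by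
  have e : cK 2 l' = .two := by
    cases l' <;> simp_all [cK]
  unfold YB at h
  rw [e] at h
  obtain ⟨a1, a2, a3, a4⟩ := h
  norm_num [hbox] at a1 a2 a3 a4
  norm_num
  exact ⟨a1, a2, a3, a4⟩

/-! ### the lists of the neighbours -/

section
variable {K : KFam} (hK : KOK K)
include hK

lemma in_n3Z {d' : ℕ} {l' : SK} (h : ROK d' l' .a) (hc : (d' = 3 ∧ l' ≠ .e) ∨ 4 ≤ d') :
    InH (K.K d' l' .a) n3Z := by
  refine hK.inU h n3Z_ok ?_ (min_le_right _ _)
  have h2 := h.zl
  unfold crs
  cases l' <;> simp only [SK.u, lo3Z] at hc ⊢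
  · rcases hc with ⟨-, h5⟩ | h5
    · exact absurd rfl h5
    · omega
  · omega
  · have := h2 rfl
    omega
  · omega

lemma in_nZz {d' : ℕ} {l' : SK} (h : ROK d' l' .z) : InH (K.K d' l' .z) nZz :=
  hK.inU h nZz_ok (lo_le h (by decide)) (min_le_right _ _)

lemma in_n2 {l' : SK} (h : ROK 2 l' .a) (hl : l' ≠ .e) : InH (K.K 2 l' .a) n2 := by
  have h2 := h.zl
  refine hK.inU h n2_ok ?_ ?_
  · unfold crs
    cases l' <;> simp only [SK.u, lo2]
    · exact absurd rfl hl
    · omega
    · have := h2 rfl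
      omega
    · omega
  · unfold crs
    cases l' <;> simp only [SK.u, hi2]
    · exact absurd rfl hl
    · omega
    · have := h2 rfl
      omega
    · omega

lemma in_m5a {l : SK} (h : ROK 5 l .a) (hl : l ≠ .e) : InH (K.K 5 l .a) m5a := by
  refine hK.inU h m5a_ok ?_ ?_
  · unfold crs
    cases l <;> simp only [SK.u, lo5a]
    · exact absurd rfl hl
    all_goals omega
  · unfold crs
    cases l <;> simp only [SK.u, hi5a]
    · exact absurd rfl hl
    all_goals omega

lemma in_oN6a {d : ℕ} {l : SK} (h : ROK d l .a) (hd : 6 ≤ d) (hl : l ≠ .e) :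
    InH (K.K d l .a) oN6a := by
  refine hK.inU h oN6a_ok ?_ (min_le_right _ _)
  unfold crs
  cases l <;> simp only [SK.u, lo6a]
  · exact absurd rfl hl
  all_goals omega

lemma in_oN8 {d : ℕ} {l : SK} (h : ROK d l .a) (hd : 8 ≤ d) : InH (K.K d l .a) oN8 := by
  refine hK.inU h oN8_ok ?_ (min_le_right _ _)
  unfold crs lo8a
  omega

end

/-! ### next to a digit `3` or a ring -/

lemma RB3.of {S Q C : ℝ} {y z : ℂ} (h : Bd S Q C y z) (h1 : S ≤ 2445 / 10000)
    (h2 : Q ≤ 1200 / 10000) (h3 : Q + 22 / 10 * S ≤ 5900 / 10000) (h4 : C ≤ 4465 / 10000) :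
    RB3 y z :=
  ⟨h.s.trans h1, h.q.trans h2, by linarith only [h3, h, h.s, h.q], h.c.trans h4⟩

section
variable {K : KFam} (hK : KOK K) {d : ℕ} {l : SK} {d' : ℕ} {l' : SK} {w R k' : ℂ}
include hK

/-- four crossings, opposite signs -/
theorem b3_4a (t : TDt K .a 4 l d' l' w R k') (h3 : 3 ≤ d')
    (rg : Rg (yH .a R (Complex.cos w)) (zeta w)) : RB3 (yH .a R (Complex.cos w)) (zeta w) := by
  have hl := t.h.ok.left
  have hr := t.h.ok.right.symm
  by_cases he : d' = 3 ∧ l' = .e
  · obtain ⟨rfl, rfl⟩ := he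
    have hn := hK.inH hr k3ea_ok
    cases l
    · have h := bd_of hK t rfl rfl t3_4ex (hK.inH hl k4ea_ok) hn OL.e OR.e rg (by norm_num)
        (by norm_num)
      norm_num at h
      exact RB3.of h (by norm_num) (by norm_num) (by norm_num) (by norm_num)
    · have h := bd_of hK t rfl rfl t3_4ax (hK.inH hl k4aa_ok) hn OL.a OR.e rg (by norm_num)
        (by norm_num)
      norm_num at h
      exact RB3.of h (by norm_num) (by norm_num) (by norm_num) (by norm_num)
    · have h := bd_of hK t rfl rfl t3_4zx (hK.inH hl k4az_ok) hn OL.z OR.e rg (by norm_num)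
        (by norm_num)
      norm_num at h
      exact RB3.of h (by norm_num) (by norm_num) (by norm_num) (by norm_num)
    · have h := bd_of hK t rfl rfl t3_4sx (hK.inH hl k5as_ok) hn (OL.s (by norm_num)) OR.e rg
        (by norm_num) (by norm_num)
      norm_num at h
      exact RB3.of h (by norm_num) (by norm_num) (by norm_num) (by norm_num)
  · have hn := in_n3Z hK hr (by
      rcases h3.eq_or_lt with h5 | h5
      · left
        exact ⟨h5.symm, fun h6 => he ⟨h5.symm, h6⟩⟩
      · right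
        exact h5)
    cases l
    · have h := bd_of hK t rfl rfl t3_4e (hK.inH hl k4ea_ok) hn OL.e OR.nil rg (by norm_num)
        (by norm_num)
      norm_num at h
      exact RB3.of h (by norm_num) (by norm_num) (by norm_num) (by norm_num)
    · have h := bd_of hK t rfl rfl t3_4a (hK.inH hl k4aa_ok) hn OL.a OR.nil rg (by norm_num)
        (by norm_num)
      norm_num at h
      exact RB3.of h (by norm_num) (by norm_num) (by norm_num) (by norm_num)
    · have h := bd_of hK t rfl rfl t3_4z (hK.inH hl k4az_ok) hn OL.z OR.nil rg (by norm_num)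
        (by norm_num)
      norm_num at h
      exact RB3.of h (by norm_num) (by norm_num) (by norm_num) (by norm_num)
    · have h := bd_of hK t rfl rfl t3_4s (hK.inH hl k5as_ok) hn (OL.s (by norm_num)) OR.nil rg
        (by norm_num) (by norm_num)
      norm_num at h
      exact RB3.of h (by norm_num) (by norm_num) (by norm_num) (by norm_num)

/-- four crossings, equal signs -/
theorem b3_4z (t : TDt K .z 4 l d' l' w R k')
    (rg : Rg (yH .z R (Complex.cos w)) (zeta w)) : RB3 (yH .z R (Complex.cos w)) (zeta w) := by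
  have hl := t.h.ok.left
  have hr := t.h.ok.right.symm
  have hn := in_nZz hK hr
  cases l
  · have h := bd_of hK t rfl rfl tz_4e (hK.inH hl k4ez_ok) hn OL.e OR.nil rg (by norm_num)
      (by norm_num)
    norm_num at h
    exact RB3.of h (by norm_num) (by norm_num) (by norm_num) (by norm_num)
  · have h := bd_of hK t rfl rfl tz_4a (hK.inH hl k4az_ok) hn OL.a OR.nil rg (by norm_num)
      (by norm_num)
    norm_num at h
    exact RB3.of h (by norm_num) (by norm_num) (by norm_num) (by norm_num)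
  · have h := bd_of hK t rfl rfl tz_4z (hK.inH hl k4zz_ok) hn OL.z OR.nil rg (by norm_num)
      (by norm_num)
    norm_num at h
    exact RB3.of h (by norm_num) (by norm_num) (by norm_num) (by norm_num)
  · have h := bd_of hK t rfl rfl tz_4s (hK.inH hl k5zs_ok) hn (OL.s (by norm_num)) OR.nil rg
      (by norm_num) (by norm_num)
    norm_num at h
    exact RB3.of h (by norm_num) (by norm_num) (by norm_num) (by norm_num)

/-- five crossings, opposite signs -/
theorem b3_5a (t : TDt K .a 5 l d' l' w R k') (h3 : 3 ≤ d') (hz : ZB 5 l (zeta w))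
    (hy : YB .a d' l' (yH .a R (Complex.cos w))) : RB3 (yH .a R (Complex.cos w)) (zeta w) := by
  have hl := t.h.ok.left
  have hr := t.h.ok.right.symm
  have hY : 171 / 1000 ≤ (yH .a R (Complex.cos w)).re ∧ (yH .a R (Complex.cos w)).re ≤ 252 / 1000 ∧
      -(58 / 1000) ≤ (yH .a R (Complex.cos w)).im ∧
      (d' = 3 → (yH .a R (Complex.cos w)).re ≤ 234 / 1000) := by
    rcases h3.eq_or_lt with h5 | h5
    · subst h5
      have := yb3 hy
      exact ⟨by linarith only [this], by linarith only [this], by linarith only [this], fun _ => by linarith only [this]⟩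
    · have := ybR h5 hy
      exact ⟨by linarith only [this], by linarith only [this], by linarith only [this], fun h => by omega⟩
  obtain ⟨y0, y1, y2, y3⟩ := hY
  by_cases hle : l = .e
  · subst hle
    obtain ⟨a1, a2, a3, a4⟩ := zb5e hz
    have rg : Rg (yH .a R (Complex.cos w)) (zeta w) :=
      ⟨by linarith only [y0], by linarith only [y1], by linarith only [a2], by linarith only [a1]⟩
    refine ⟨by linarith only [a1], by linarith only [y2, a4], by linarith only [y2, a1, a4], ?_⟩
    by_cases h5 : d' = 3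
    · have := y3 h5
      linarith only [a1, this]
    · have h := c_of hK t rfl rfl t3_5e (hK.inH hl k5ea_ok) (in_n3Z hK hr (by omega)) OL.nil
        OR.nil rg (by norm_num)
      norm_num at h
      linarith only [h]
  · obtain ⟨a1, a2, a3, a4⟩ := zb5 (hz.i hle)
    have ho := in_m5a hK hl hle
    have key : (zeta w).im - (yH .a R (Complex.cos w)).im ≤ 1200 / 10000 := by
      by_cases he : d' = 3 ∧ l' = .e
      · obtain ⟨rfl, rfl⟩ := he
        have h := q_of hK t rfl rfl t3_5x ho (hK.inH hr k3ea_ok) OL.nil OR.nil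
        norm_num at h
        linarith only [h]
      · have h := q_of hK t rfl rfl t3_5 ho (in_n3Z hK hr (by
          rcases h3.eq_or_lt with h5 | h5
          · left
            exact ⟨h5.symm, fun h6 => he ⟨h5.symm, h6⟩⟩
          · right
            exact h5)) OL.nil OR.nil
        norm_num at h
        linarith only [h]
    exact ⟨by linarith only [a1], key, by linarith only [y2, a1, a4], by linarith only [y1, a1]⟩

/-- five crossings, equal signs -/
theorem b3_5z (t : TDt K .z 5 l d' l' w R k') (hz : ZB 5 l (zeta w))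
    (hy : YB .z d' l' (yH .z R (Complex.cos w))) : RB3 (yH .z R (Complex.cos w)) (zeta w) := by
  have hl := t.h.ok.left
  have hr := t.h.ok.right.symm
  obtain ⟨y0, y1, y2, y3⟩ := ybZ (hr.zr rfl) hy
  by_cases hle : l = .e
  · subst hle
    obtain ⟨a1, a2, a3, a4⟩ := zb5e hz
    have rg : Rg (yH .z R (Complex.cos w)) (zeta w) :=
      ⟨by linarith only [y0], by linarith only [y1], by linarith only [a2], by linarith only [a1]⟩
    have h := c_of hK t rfl rfl tz_5e (hK.inH hl k5ez_ok) (in_nZz hK hr) OL.nil OR.nil rg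
      (by norm_num)
    norm_num at h
    exact ⟨by linarith only [a1], by linarith only [y2, a4], by linarith only [y2, a1, a4], by linarith only [h]⟩
  · obtain ⟨a1, a2, a3, a4⟩ := zb5 (hz.i hle)
    exact ⟨by linarith only [a1], by linarith only [y2, a4], by linarith only [y2, a1, a4], by linarith only [y1, a1]⟩

end

/-- at least six crossings -/
lemma b3_6 {d : ℕ} (h6 : 6 ≤ d) {l : SK} {y z : ℂ} (hz : ZB d l z) (y1 : y.re ≤ 252 / 1000)
    (y2 : -(58 / 1000) ≤ y.im) : RB3 y z := by
  by_cases hle : l = .e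
  · subst hle
    obtain ⟨a1, a2, a3, a4⟩ := zb6e h6 hz
    exact ⟨by linarith only [a1], by linarith only [y2, a4], by linarith only [y2, a1, a4], by linarith only [y1, a1]⟩
  · obtain ⟨a1, a2, a3, a4⟩ := zb6 h6 (hz.i hle)
    exact ⟨by linarith only [a1], by linarith only [y2, a4], by linarith only [y2, a1, a4], by linarith only [y1, a1]⟩

/-- **Next to a digit `3` or a ring.** -/
theorem b3 {K : KFam} (hK : KOK K) {x : SK} {d : ℕ} {l : SK} {d' : ℕ} {l' : SK} {w R k' : ℂ}
    (t : TDt K x d l d' l' w R k') (h4 : 4 ≤ d) (hx : x = .a ∨ x = .z) (h3 : 3 ≤ d')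
    (hz : ZB d l (zeta w)) (hy : YB x d' l' (yH x R (Complex.cos w))) :
    RB3 (yH x R (Complex.cos w)) (zeta w) := by
  have z0 := zb_rg h4 hz
  rcases hx with rfl | rfl
  · have hY : 171 / 1000 ≤ (yH .a R (Complex.cos w)).re ∧
        (yH .a R (Complex.cos w)).re ≤ 252 / 1000 ∧
        -(58 / 1000) ≤ (yH .a R (Complex.cos w)).im := by
      rcases h3.eq_or_lt with h5 | h5
      · subst h5
        have := yb3 hy
        exact ⟨by linarith only [this], by linarith only [this], by linarith only [this]⟩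
      · have := ybR h5 hy
        exact ⟨by linarith only [this], by linarith only [this], by linarith only [this]⟩
    obtain ⟨y0, y1, y2⟩ := hY
    rcases Nat.lt_or_ge d 6 with h6 | h6
    · have : d = 4 ∨ d = 5 := by omega
      rcases this with rfl | rfl
      · exact b3_4a hK t h3 ⟨by linarith only [y0], by linarith only [y1], z0.1, z0.2⟩
      · exact b3_5a hK t h3 hz hy
    · exact b3_6 h6 hz y1 y2
  · obtain ⟨y0, y1, y2, y3⟩ := ybZ (t.h.ok.right.zl rfl) hy
    rcases Nat.lt_or_ge d 6 with h6 | h6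
    · have : d = 4 ∨ d = 5 := by omega
      rcases this with rfl | rfl
      · exact b3_4z hK t ⟨by linarith only [y0], by linarith only [y1], z0.1, z0.2⟩
      · exact b3_5z hK t hz hy
    · exact b3_6 h6 hz y1 (by linarith only [y2])

end

end Pool.Agent.Work.MP_b30479_gt.G2.CN.TD
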