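import Pool.Agent.Work.MP_b30479_gt.G2.CN.TLef
import Pool.Agent.Work.MP_b30479_gt.G2.CN.TRwL
import Pool.Agent.Work.MP_b30479_gt.G2.CN.TUt
import Pool.Agent.Work.MP_b30479_gt.G2.CN.TTabA

/-!
# Further windows of the rings: hinges
-/

namespace Pool.Agent.Work.MP_b30479_gt.G2.CN.TD

open Complex SR

noncomputable section

/-! ### a ring with four crossings next to an absorbed digit `1`, digit `2` behind it -/

section
variable {K : KFam} (hK : KOK K) {l : SK} {dl : ℕ} {ll : SK} {rr : SK} {w kl kr : ℂ}
include hK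

/-- other side split -/
theorem tri_s (t : LDt K .s .s dl ll 2 rr w kl kr) (hrr : rr ≠ .e)
    (hl : (hbox .ring .one false).In (yH .s (RR w kl) (Complex.cos w)))
    (rg : Rg (yH .s (RR w kr) (Complex.cos w)) (zeta w))
    (hx : (yH .s (RR w kr) (Complex.cos w)).re ≤ 2980 / 10000) :
    TB 2980 1820 4655 (yH .s (RR w kr) (Complex.cos w)) (zeta w) := by
  have ho := t.h.right.ok.left
  have hr := t.h.right.ok.right.symm
  obtain ⟨l1, l2, l3, l4⟩ := hl
  norm_num [hbox] at l1 l2 l3 l4
  cases rr
  · exact absurd rfl hrr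
  · obtain ⟨-, rz, ru, -⟩ := tuseL hK t rfl rfl t_1sa mn mn
      (li_box (by norm_num; linarith only [l1]) (by norm_num; linarith only [l2]) (by norm_num; linarith only [l2])
        (by norm_num; linarith only [l3]) (by norm_num; linarith only [l4])) mn (hK.inH ho k6ss_ok) (hK.inH hr k3as_ok)
      (fun _ _ _ _ => AllOk.nil) OR.a
    exact tb_of rg (rz _ m0) (ru _ m0) (by norm_num) (by norm_num) (by norm_num at hx ⊢; exact hx)
  · exact absurd (hr.zl rfl) (by norm_num)
  · obtain ⟨-, rz, ru, -⟩ := tuseL hK t rfl rfl t_1ss mn mn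
      (li_box (by norm_num; linarith only [l1]) (by norm_num; linarith only [l2]) (by norm_num; linarith only [l2])
        (by norm_num; linarith only [l3]) (by norm_num; linarith only [l4])) mn (hK.inH ho k6ss_ok) (hK.inH hr k4ss_ok)
      (fun _ _ _ _ => AllOk.nil) OR.s
    exact tb_of rg (rz _ m0) (ru _ m0) (by norm_num) (by norm_num) (by norm_num at hx ⊢; exact hx)

/-- other side: digit `1` -/
theorem tri_1 (t : LDt K .a .s 1 ll 2 rr w kl kr) (hrr : rr ≠ .e)
    (hl : (hbox .ring .one false).In (yH .a (RR w kl) (Complex.cos w)))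
    (rg : Rg (yH .s (RR w kr) (Complex.cos w)) (zeta w))
    (hx : (yH .s (RR w kr) (Complex.cos w)).re ≤ 2980 / 10000) :
    TB 2980 1820 4655 (yH .s (RR w kr) (Complex.cos w)) (zeta w) := by
  have ho := t.h.right.ok.left
  have hr := t.h.right.ok.right.symm
  obtain ⟨l1, l2, l3, l4⟩ := hl
  norm_num [hbox] at l1 l2 l3 l4
  cases rr
  · exact absurd rfl hrr
  · obtain ⟨-, rz, ru, -⟩ := tuseL hK t rfl rfl t_1aa mn mn
      (li_box (by norm_num; linarith only [l1]) (by norm_num; linarith only [l2]) (by norm_num; linarith only [l2])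
        (by norm_num; linarith only [l3]) (by norm_num; linarith only [l4])) mn (hK.inH ho k5as_ok) (hK.inH hr k3as_ok)
      (fun _ _ _ _ => AllOk.nil) OR.a
    exact tb_of rg (rz _ m0) (ru _ m0) (by norm_num) (by norm_num) (by norm_num at hx ⊢; exact hx)
  · exact absurd (hr.zl rfl) (by norm_num)
  · obtain ⟨-, rz, ru, -⟩ := tuseL hK t rfl rfl t_1as mn mn
      (li_box (by norm_num; linarith only [l1]) (by norm_num; linarith only [l2]) (by norm_num; linarith only [l2])
        (by norm_num; linarith only [l3]) (by norm_num; linarith only [l4])) mn (hK.inH ho k5as_ok) (hK.inH hr k4ss_ok)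
      (fun _ _ _ _ => AllOk.nil) OR.s
    exact tb_of rg (rz _ m0) (ru _ m0) (by norm_num) (by norm_num) (by norm_num at hx ⊢; exact hx)

/-- other side: digit `2` inside -/
theorem tri_2 (t : LDt K .a .s 2 ll 2 rr w kl kr) (hrr : rr ≠ .e)
    (hll : ll ≠ .e)
    (hl : (hbox .ring .two false).In (yH .a (RR w kl) (Complex.cos w)))
    (rg : Rg (yH .s (RR w kr) (Complex.cos w)) (zeta w))
    (hx : (yH .s (RR w kr) (Complex.cos w)).re ≤ 2980 / 10000) :
    TB 2980 1845 4690 (yH .s (RR w kr) (Complex.cos w)) (zeta w) := by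
  have ho := t.h.right.ok.left
  have hr := t.h.right.ok.right.symm
  obtain ⟨l1, l2, l3, l4⟩ := hl
  norm_num [hbox] at l1 l2 l3 l4
  cases rr
  · exact absurd rfl hrr
  · obtain ⟨-, rz, ru, -⟩ := tuseL hK t rfl rfl t_2a mn mn
      (li_box (by norm_num; linarith only [l1]) (by norm_num; linarith only [l2]) (by norm_num; linarith only [l2])
        (by norm_num; linarith only [l3]) (by norm_num; linarith only [l4])) mn (hK.inH ho k5as_ok) (hK.inH hr k3as_ok)
      (fun hT hq _ h => tA_all hT hq (fun k hk => by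
        rw [Set.mem_singleton_iff] at hk
        subst hk
        exact (in_n2 hK t.h.left.ok.right.symm hll).mir _ (by rw [K.symm]; exact t.h.left.mem')) h) OR.a
    exact tb_of rg (rz _ m0) (ru _ m0) (by norm_num) (by norm_num) (by norm_num at hx ⊢; exact hx)
  · exact absurd (hr.zl rfl) (by norm_num)
  · obtain ⟨-, rz, ru, -⟩ := tuseL hK t rfl rfl t_2s mn mn
      (li_box (by norm_num; linarith only [l1]) (by norm_num; linarith only [l2]) (by norm_num; linarith only [l2])
        (by norm_num; linarith only [l3]) (by norm_num; linarith only [l4])) mn (hK.inH ho k5as_ok) (hK.inH hr k4ss_ok)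
      (fun hT hq _ h => tA_all hT hq (fun k hk => by
        rw [Set.mem_singleton_iff] at hk
        subst hk
        exact (in_n2 hK t.h.left.ok.right.symm hll).mir _ (by rw [K.symm]; exact t.h.left.mem')) h) OR.s
    exact tb_of rg (rz _ m0) (ru _ m0) (by norm_num) (by norm_num) (by norm_num at hx ⊢; exact hx)

/-- other side: digit `2` at the end -/
theorem tri_E (t : LDt K .a .s 2 .e 2 rr w kl kr) (hrr : rr ≠ .e)
    (hl : (hbox .ring .twoE false).In (yH .a (RR w kl) (Complex.cos w)))
    (rg : Rg (yH .s (RR w kr) (Complex.cos w)) (zeta w)) :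
    TB 2900 1880 4680 (yH .s (RR w kr) (Complex.cos w)) (zeta w) := by
  have ho := t.h.right.ok.left
  have hr := t.h.right.ok.right.symm
  obtain ⟨l1, l2, l3, l4⟩ := hl
  norm_num [hbox] at l1 l2 l3 l4
  cases rr
  · exact absurd rfl hrr
  · obtain ⟨ry, rz, ru, -⟩ := tuseL hK t rfl rfl t_Ea mn mn
      (li_box (by norm_num; linarith only [l1]) (by norm_num; linarith only [l2]) (by norm_num; linarith only [l2])
        (by norm_num; linarith only [l3]) (by norm_num; linarith only [l4])) mn (hK.inH ho k5as_ok) (hK.inH hr k3as_ok)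
      (fun _ _ _ _ => AllOk.nil) OR.a
    exact tb_of rg (rz _ m0) (ru _ m0) (by norm_num) (by norm_num) (by
      have := arc_ub (ry _ m0) (by norm_num; linarith only [rg, rg.y1])
      norm_num at this ⊢
      exact this.le)
  · exact absurd (hr.zl rfl) (by norm_num)
  · obtain ⟨ry, rz, ru, -⟩ := tuseL hK t rfl rfl t_Es mn mn
      (li_box (by norm_num; linarith only [l1]) (by norm_num; linarith only [l2]) (by norm_num; linarith only [l2])
        (by norm_num; linarith only [l3]) (by norm_num; linarith only [l4])) mn (hK.inH ho k5as_ok) (hK.inH hr k4ss_ok)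
      (fun _ _ _ _ => AllOk.nil) OR.s
    exact tb_of rg (rz _ m0) (ru _ m0) (by norm_num) (by norm_num) (by
      have := arc_ub (ry _ m0) (by norm_num; linarith only [rg, rg.y1])
      norm_num at this ⊢
      exact this.le)

/-- other side: digit `3` inside -/
theorem tri_3 (t : LDt K .a .s 3 ll 2 rr w kl kr) (hrr : rr ≠ .e)
    (hl : (hbox .ring .three false).In (yH .a (RR w kl) (Complex.cos w)))
    (rg : Rg (yH .s (RR w kr) (Complex.cos w)) (zeta w))
    (hx : (yH .s (RR w kr) (Complex.cos w)).re ≤ 2980 / 10000) :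
    TB 2980 1880 4720 (yH .s (RR w kr) (Complex.cos w)) (zeta w) := by
  have ho := t.h.right.ok.left
  have hr := t.h.right.ok.right.symm
  obtain ⟨l1, l2, l3, l4⟩ := hl
  norm_num [hbox] at l1 l2 l3 l4
  cases rr
  · exact absurd rfl hrr
  · obtain ⟨-, rz, ru, -⟩ := tuseL hK t rfl rfl t_3a mn mn
      (li_box (by norm_num; linarith only [l1]) (by norm_num; linarith only [l2]) (by norm_num; linarith only [l2])
        (by norm_num; linarith only [l3]) (by norm_num; linarith only [l4])) mn (hK.inH ho k5as_ok) (hK.inH hr k3as_ok)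
      (fun _ _ _ _ => AllOk.nil) OR.a
    exact tb_of rg (rz _ m0) (ru _ m0) (by norm_num) (by norm_num) (by norm_num at hx ⊢; exact hx)
  · exact absurd (hr.zl rfl) (by norm_num)
  · obtain ⟨-, rz, ru, -⟩ := tuseL hK t rfl rfl t_3s mn mn
      (li_box (by norm_num; linarith only [l1]) (by norm_num; linarith only [l2]) (by norm_num; linarith only [l2])
        (by norm_num; linarith only [l3]) (by norm_num; linarith only [l4])) mn (hK.inH ho k5as_ok) (hK.inH hr k4ss_ok)
      (fun _ _ _ _ => AllOk.nil) OR.s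
    exact tb_of rg (rz _ m0) (ru _ m0) (by norm_num) (by norm_num) (by norm_num at hx ⊢; exact hx)

/-- other side: digit `3` at the end -/
theorem tri_e (t : LDt K .a .s 3 .e 2 rr w kl kr) (hrr : rr ≠ .e)
    (hl : (hbox .ring .threeE false).In (yH .a (RR w kl) (Complex.cos w)))
    (rg : Rg (yH .s (RR w kr) (Complex.cos w)) (zeta w))
    (hx : (yH .s (RR w kr) (Complex.cos w)).re ≤ 2980 / 10000) :
    TB 2980 1880 4720 (yH .s (RR w kr) (Complex.cos w)) (zeta w) := by
  have ho := t.h.right.ok.left
  have hr := t.h.right.ok.right.symm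
  obtain ⟨l1, l2, l3, l4⟩ := hl
  norm_num [hbox] at l1 l2 l3 l4
  cases rr
  · exact absurd rfl hrr
  · obtain ⟨-, rz, ru, -⟩ := tuseL hK t rfl rfl t_ea mn mn
      (li_box (by norm_num; linarith only [l1]) (by norm_num; linarith only [l2]) (by norm_num; linarith only [l2])
        (by norm_num; linarith only [l3]) (by norm_num; linarith only [l4])) mn (hK.inH ho k5as_ok) (hK.inH hr k3as_ok)
      (fun _ _ _ _ => AllOk.nil) OR.a
    exact tb_of rg (rz _ m0) (ru _ m0) (by norm_num) (by norm_num) (by norm_num at hx ⊢; exact hx)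
  · exact absurd (hr.zl rfl) (by norm_num)
  · obtain ⟨-, rz, ru, -⟩ := tuseL hK t rfl rfl t_es mn mn
      (li_box (by norm_num; linarith only [l1]) (by norm_num; linarith only [l2]) (by norm_num; linarith only [l2])
        (by norm_num; linarith only [l3]) (by norm_num; linarith only [l4])) mn (hK.inH ho k5as_ok) (hK.inH hr k4ss_ok)
      (fun _ _ _ _ => AllOk.nil) OR.s
    exact tb_of rg (rz _ m0) (ru _ m0) (by norm_num) (by norm_num) (by norm_num at hx ⊢; exact hx)

/-- other side: ring -/
theorem tri_Z (t : LDt K .a .s dl ll 2 rr w kl kr) (hrr : rr ≠ .e)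
    (hl : (hbox .ring .ring false).In (yH .a (RR w kl) (Complex.cos w)))
    (rg : Rg (yH .s (RR w kr) (Complex.cos w)) (zeta w))
    (hx : (yH .s (RR w kr) (Complex.cos w)).re ≤ 2980 / 10000) :
    TB 2980 1870 4748 (yH .s (RR w kr) (Complex.cos w)) (zeta w) := by
  have ho := t.h.right.ok.left
  have hr := t.h.right.ok.right.symm
  obtain ⟨l1, l2, l3, l4⟩ := hl
  norm_num [hbox] at l1 l2 l3 l4
  cases rr
  · exact absurd rfl hrr
  · obtain ⟨-, rz, ru, -⟩ := tuseL hK t rfl rfl t_Za mn mn
      (li_box (by norm_num; linarith only [l1]) (by norm_num; linarith only [l2]) (by norm_num; linarith only [l2])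
        (by norm_num; linarith only [l3]) (by norm_num; linarith only [l4])) mn (hK.inH ho k5as_ok) (hK.inH hr k3as_ok)
      (fun hT hq h _ => OL.a hK hT hq h) OR.a
    exact tb_of rg (rz _ m0) (ru _ m0) (by norm_num) (by norm_num) (by norm_num at hx ⊢; exact hx)
  · exact absurd (hr.zl rfl) (by norm_num)
  · obtain ⟨-, rz, ru, -⟩ := tuseL hK t rfl rfl t_Zs mn mn
      (li_box (by norm_num; linarith only [l1]) (by norm_num; linarith only [l2]) (by norm_num; linarith only [l2])
        (by norm_num; linarith only [l3]) (by norm_num; linarith only [l4])) mn (hK.inH ho k5as_ok) (hK.inH hr k4ss_ok)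
      (fun hT hq h _ => OL.a hK hT hq h) OR.s
    exact tb_of rg (rz _ m0) (ru _ m0) (by norm_num) (by norm_num) (by norm_num at hx ⊢; exact hx)

end

end

end Pool.Agent.Work.MP_b30479_gt.G2.CN.TD
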