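import Pool.Agent.Work.MP_b30479_gt.G2.CN.TRwE
import Pool.Agent.Work.MP_b30479_gt.G2.CN.TRwL
import Pool.Agent.Work.MP_b30479_gt.G2.CN.TSpl
import Pool.Agent.Work.MP_b30479_gt.G2.CN.TUt

/-!
# Further windows of the rings: the height over a hinge next to a digit `1`
-/

namespace Pool.Agent.Work.MP_b30479_gt.G2.CN.TD

open Complex SR

noncomputable section

/-- a row for the hinges with real part at least a bound -/
theorem q_ge' {K : KFam} (hK : KOK K) {x : SK} {d : ℕ} {l : SK} {d' : ℕ} {l' : SK} {w R k' : ℂ}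
    (t : TDt K x d l d' l' w R k') {B B' : ℕ} (hB : crs d l x = B) (hB' : crs d' x l' = B')
    {o : List QC} {L : List Grp} {o' : List QC} {L' : List Grp} {n0 m : ℕ} {a b mq cq : ℤ}
    {n code : ℕ}
    (hr : trowOk x [.arc n0 m a b] o L o' L' [] [] [.hi mq cq] n code = true)
    (ho : InH (K.K d l x) o) (ho' : InH (K.K d' l' x) o') (hL : OL d B l L)
    (hL' : OR x d' B' l' L') (h1 : (n0 : ℝ) / 10000 ≤ (yH x R (Complex.cos w)).re)
    (h2 : (yH x R (Complex.cos w)).re ≤ (m : ℝ) / 10000) :
    -(mq : ℝ) / 10000 ≤ (zeta w).im - (yH x R (Complex.cos w)).im := by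
  obtain ⟨-, -, ru⟩ := tuse hK t hB hB' hr (ui_arc h1 h2) ho ho' hL hL'
  have g : _ ≤ (mq : ℝ) / 10000 := ru _ (List.mem_cons_self)
  rw [Complex.sub_im] at g
  rw [neg_div]
  linarith only [g]

/-- upper bound of the real part and lower bound of the height from a row -/
lemma xq_of {x : SK} {w R : ℂ} {x1 m1 : ℕ} {a1 b1 mq cq : ℤ}
    (rg : Rg (yH x R (Complex.cos w)) (zeta w))
    (ry : (GC.arc x1 m1 a1 b1).P (yH x R (Complex.cos w)))
    (ru : (GC.hi mq cq).P (yH x R (Complex.cos w) - zeta w)) (h1 : 4000 ≤ m1) :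
    (yH x R (Complex.cos w)).re ≤ (x1 : ℝ) / 10000 ∧
      -(mq : ℝ) / 10000 ≤ (zeta w).im - (yH x R (Complex.cos w)).im := by
  have m1' : (4000 : ℝ) ≤ m1 := by exact_mod_cast h1
  have g1 := arc_ub ry (by linarith only [m1', rg, rg.y1])
  have g : _ ≤ (mq : ℝ) / 10000 := ru
  rw [Complex.sub_im] at g
  refine ⟨g1.le, ?_⟩
  rw [neg_div]
  linarith only [g]

section
variable {K : KFam} (hK : KOK K) {l : SK} {d' : ℕ} {l' : SK} {w R k' : ℂ}
include hK

/-- digit `1` not absorbed -/
theorem qs_u (t : TDt K .a 4 l 1 l' w R k') (hl' : l ≠ .e)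
    (rg : Rg (yH .a R (Complex.cos w)) (zeta w)) :
    QS (yH .a R (Complex.cos w)) (zeta w) := by
  have hs := far_s t.h.ok.right
  subst hs
  have hl := t.h.ok.left
  have hr := t.h.ok.right.symm
  have y1 := rg.y1
  cases l
  · exact absurd rfl hl'
  · obtain ⟨ry, rz, ru⟩ := tuse hK t rfl rfl o_4au mn
      (hK.inH hl k4aa_ok) (hK.inH hr k2as_ok) OL.a (OR.st (by decide))
    obtain ⟨hx, hq⟩ := xq_of rg (ry _ m1) (ru _ m2) (by norm_num)
    norm_num at hx hq
    refine ⟨fun h => ?_, fun h => ?_, fun h => ?_, fun h => ?_, fun h => ?_⟩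
    · have g := q_ge' hK t rfl rfl q_au (hK.inH hl k4aa_ok) (hK.inH hr k2as_ok) OL.a
        (OR.st (by decide)) (by norm_num; linarith only [h]) (by norm_num; linarith only [hx])
      norm_num at g
      linarith only [g]
    · linarith only [hx, h]
    · linarith only [hx, h]
    · linarith only [hx, h]
    · linarith only [hx, h]
  · obtain ⟨ry, rz, ru⟩ := tuse hK t rfl rfl o_4zu mn
      (hK.inH hl k4az_ok) (hK.inH hr k2as_ok) OL.z (OR.st (by decide))
    obtain ⟨hx, hq⟩ := xq_of rg (ry _ m1) (ru _ m2) (by norm_num)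
    norm_num at hx hq
    refine ⟨fun h => ?_, fun h => ?_, fun h => ?_, fun h => ?_, fun h => ?_⟩
    · have g := q_ge' hK t rfl rfl q_zu (hK.inH hl k4az_ok) (hK.inH hr k2as_ok) OL.z
        (OR.st (by decide)) (by norm_num; linarith only [h]) (by norm_num; linarith only [hx])
      norm_num at g
      linarith only [g]
    · linarith only [hx, h]
    · linarith only [hx, h]
    · linarith only [hx, h]
    · linarith only [hx, h]
  · obtain ⟨ry, rz, ru⟩ := tuse hK t rfl rfl o_4su mn
      (hK.inH hl k5as_ok) (hK.inH hr k2as_ok) (OL.s (by norm_num)) (OR.st (by decide))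
    obtain ⟨hx, hq⟩ := xq_of rg (ry _ m1) (ru _ m2) (by norm_num)
    norm_num at hx hq
    refine ⟨fun h => ?_, fun h => ?_, fun h => ?_, fun h => ?_, fun h => ?_⟩
    · have g := q_ge' hK t rfl rfl q_su (hK.inH hl k5as_ok) (hK.inH hr k2as_ok) (OL.s (by norm_num))
        (OR.st (by decide)) (by norm_num; linarith only [h]) (by norm_num; linarith only [hx])
      norm_num at g
      linarith only [g]
    · linarith only [hx, h]
    · linarith only [hx, h]
    · linarith only [hx, h]
    · linarith only [hx, h]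

/-- absorbed digit `1`, behind it a ring `(1, a)` -/
theorem qs_1a (t : TDt K .s 4 l 1 .a w R k') (hl' : l ≠ .e)
    (rg : Rg (yH .s R (Complex.cos w)) (zeta w)) :
    QS (yH .s R (Complex.cos w)) (zeta w) := by
  have hl := t.h.ok.left
  have hr := t.h.ok.right.symm
  have y1 := rg.y1
  cases l
  · exact absurd rfl hl'
  · obtain ⟨ry, rz, ru⟩ := tuse hK t rfl rfl o_4a1a mn
      (hK.inH hl k5as_ok) (hK.inH hr k2as_ok) OL.a (OR.a1 (by norm_num))
    obtain ⟨hx, hq⟩ := xq_of rg (ry _ m1) (ru _ m2) (by norm_num)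
    norm_num at hx hq
    refine ⟨fun h => ?_, fun h => ?_, fun h => ?_, fun h => ?_, fun h => ?_⟩
    · have g := q_ge' hK t rfl rfl q_a1a (hK.inH hl k5as_ok) (hK.inH hr k2as_ok) OL.a
        (OR.a1 (by norm_num)) (by norm_num; linarith only [h]) (by norm_num; linarith only [hx])
      norm_num at g
      linarith only [g]
    · linarith only [hx, h]
    · linarith only [hx, h]
    · linarith only [hx, h]
    · linarith only [hx, h]
  · obtain ⟨ry, rz, ru⟩ := tuse hK t rfl rfl o_4z1a mn
      (hK.inH hl k5zs_ok) (hK.inH hr k2as_ok) OL.z (OR.a1 (by norm_num))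
    obtain ⟨hx, hq⟩ := xq_of rg (ry _ m1) (ru _ m2) (by norm_num)
    norm_num at hx hq
    refine ⟨fun h => ?_, fun h => ?_, fun h => ?_, fun h => ?_, fun h => ?_⟩
    · have g := q_ge' hK t rfl rfl q_z1a (hK.inH hl k5zs_ok) (hK.inH hr k2as_ok) OL.z
        (OR.a1 (by norm_num)) (by norm_num; linarith only [h]) (by norm_num; linarith only [hx])
      norm_num at g
      linarith only [g]
    · linarith only [hx, h]
    · linarith only [hx, h]
    · linarith only [hx, h]
    · linarith only [hx, h]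
  · obtain ⟨ry, rz, ru⟩ := tuse hK t rfl rfl o_4s1a mn
      (hK.inH hl k6ss_ok) (hK.inH hr k2as_ok) OL.nil (OR.a1 (by norm_num))
    obtain ⟨hx, hq⟩ := xq_of rg (ry _ m1) (ru _ m2) (by norm_num)
    norm_num at hx hq
    refine ⟨fun h => ?_, fun h => ?_, fun h => ?_, fun h => ?_, fun h => ?_⟩
    · have g := q_ge' hK t rfl rfl q_s1a (hK.inH hl k6ss_ok) (hK.inH hr k2as_ok) OL.nil
        (OR.a1 (by norm_num)) (by norm_num; linarith only [h]) (by norm_num; linarith only [hx])
      norm_num at g
      linarith only [g]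
    · linarith only [hx, h]
    · linarith only [hx, h]
    · linarith only [hx, h]
    · linarith only [hx, h]

/-- absorbed digit `1`, behind it a ring `(1, s)` -/
theorem qs_1s (t : TDt K .s 4 l 1 .s w R k') (hl' : l ≠ .e)
    (rg : Rg (yH .s R (Complex.cos w)) (zeta w)) :
    QS (yH .s R (Complex.cos w)) (zeta w) := by
  have hl := t.h.ok.left
  have hr := t.h.ok.right.symm
  have y1 := rg.y1
  cases l
  · exact absurd rfl hl'
  · obtain ⟨ry, rz, ru⟩ := tuse hK t rfl rfl o_4a1s mn
      (hK.inH hl k5as_ok) (hK.inH hr k3ss_ok) OL.a OR.s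
    obtain ⟨hx, hq⟩ := xq_of rg (ry _ m1) (ru _ m2) (by norm_num)
    norm_num at hx hq
    refine ⟨fun h => ?_, fun h => ?_, fun h => ?_, fun h => ?_, fun h => ?_⟩
    · linarith only [hq]
    · have g := q_ge' hK t rfl rfl q7_a1s (hK.inH hl k5as_ok) (hK.inH hr k3ss_ok) OL.a
        OR.s (by norm_num; linarith only [h]) (by norm_num; linarith only [hx])
      norm_num at g
      linarith only [g]
    · linarith only [hx, h]
    · linarith only [hx, h]
    · linarith only [hx, h]
  · obtain ⟨ry, rz, ru⟩ := tuse hK t rfl rfl o_4z1s mn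
      (hK.inH hl k5zs_ok) (hK.inH hr k3ss_ok) OL.z OR.s
    obtain ⟨hx, hq⟩ := xq_of rg (ry _ m1) (ru _ m2) (by norm_num)
    norm_num at hx hq
    refine ⟨fun h => ?_, fun h => ?_, fun h => ?_, fun h => ?_, fun h => ?_⟩
    · linarith only [hq]
    · have g := q_ge' hK t rfl rfl q7_z1s (hK.inH hl k5zs_ok) (hK.inH hr k3ss_ok) OL.z
        OR.s (by norm_num; linarith only [h]) (by norm_num; linarith only [hx])
      norm_num at g
      linarith only [g]
    · linarith only [hx, h]
    · linarith only [hx, h]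
    · linarith only [hx, h]
  · obtain ⟨ry, rz, ru⟩ := tuse hK t rfl rfl o_4s1s mn
      (hK.inH hl k6ss_ok) (hK.inH hr k3ss_ok) OL.nil OR.s
    obtain ⟨hx, hq⟩ := xq_of rg (ry _ m1) (ru _ m2) (by norm_num)
    norm_num at hx hq
    refine ⟨fun h => ?_, fun h => ?_, fun h => ?_, fun h => ?_, fun h => ?_⟩
    · have g := q_ge' hK t rfl rfl q_s1s (hK.inH hl k6ss_ok) (hK.inH hr k3ss_ok) OL.nil
        OR.s (by norm_num; linarith only [h]) (by norm_num; linarith only [hx])
      norm_num at g
      linarith only [g]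
    · have g := q_ge' hK t rfl rfl q7_s1s (hK.inH hl k6ss_ok) (hK.inH hr k3ss_ok) OL.nil
        OR.s (by norm_num; linarith only [h]) (by norm_num; linarith only [hx])
      norm_num at g
      linarith only [g]
    · linarith only [hx, h]
    · linarith only [hx, h]
    · linarith only [hx, h]

/-- absorbed digit `1`, behind it a ring `(2, a)` -/
theorem qs_2a (t : TDt K .s 4 l 2 .a w R k') (hl' : l ≠ .e) (h3 : (acot2 (Sp R k')).re < 1 / 2)
    (rg : Rg (yH .s R (Complex.cos w)) (zeta w)) :
    QS (yH .s R (Complex.cos w)) (zeta w) := by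
  have hl := t.h.ok.left
  have hr := t.h.ok.right.symm
  have y1 := rg.y1
  cases l
  · exact absurd rfl hl'
  · obtain ⟨ry, rz, ru, -⟩ := tuseV hK t h3 rfl rfl o_4a2a mn
      (hK.inH hl k5as_ok) (hK.inH hr k3as_ok) OL.a OR.a
    obtain ⟨hx, hq⟩ := xq_of rg (ry _ m1) (ru _ m2) (by norm_num)
    norm_num at hx hq
    refine ⟨fun h => ?_, fun h => ?_, fun h => ?_, fun h => ?_, fun h => ?_⟩
    · linarith only [hq]
    · linarith only [hq]
    · have g := q_ge' hK t rfl rfl q8_a2a (hK.inH hl k5as_ok) (hK.inH hr k3as_ok) OL.a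
        OR.a (by norm_num; linarith only [h]) (by norm_num; linarith only [hx])
      norm_num at g
      linarith only [g]
    · have g := q_ge' hK t rfl rfl q85_a2a (hK.inH hl k5as_ok) (hK.inH hr k3as_ok) OL.a
        OR.a (by norm_num; linarith only [h]) (by norm_num; linarith only [hx])
      norm_num at g
      linarith only [g]
    · have g := q_ge' hK t rfl rfl q9_a2a (hK.inH hl k5as_ok) (hK.inH hr k3as_ok) OL.a
        OR.a (by norm_num; linarith only [h]) (by norm_num; linarith only [hx])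
      norm_num at g
      linarith only [g]
  · obtain ⟨ry, rz, ru, -⟩ := tuseV hK t h3 rfl rfl o_4z2a mn
      (hK.inH hl k5zs_ok) (hK.inH hr k3as_ok) OL.z OR.a
    obtain ⟨hx, hq⟩ := xq_of rg (ry _ m1) (ru _ m2) (by norm_num)
    norm_num at hx hq
    refine ⟨fun h => ?_, fun h => ?_, fun h => ?_, fun h => ?_, fun h => ?_⟩
    · linarith only [hq]
    · linarith only [hq]
    · have g := q_ge' hK t rfl rfl q8_z2a (hK.inH hl k5zs_ok) (hK.inH hr k3as_ok) OL.z
        OR.a (by norm_num; linarith only [h]) (by norm_num; linarith only [hx])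
      norm_num at g
      linarith only [g]
    · have g := q_ge' hK t rfl rfl q85_z2a (hK.inH hl k5zs_ok) (hK.inH hr k3as_ok) OL.z
        OR.a (by norm_num; linarith only [h]) (by norm_num; linarith only [hx])
      norm_num at g
      linarith only [g]
    · have g := q_ge' hK t rfl rfl q9_z2a (hK.inH hl k5zs_ok) (hK.inH hr k3as_ok) OL.z
        OR.a (by norm_num; linarith only [h]) (by norm_num; linarith only [hx])
      norm_num at g
      linarith only [g]
  · obtain ⟨ry, rz, ru, -⟩ := tuseV hK t h3 rfl rfl o_4s2a mn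
      (hK.inH hl k6ss_ok) (hK.inH hr k3as_ok) OL.nil OR.a
    obtain ⟨hx, hq⟩ := xq_of rg (ry _ m1) (ru _ m2) (by norm_num)
    norm_num at hx hq
    refine ⟨fun h => ?_, fun h => ?_, fun h => ?_, fun h => ?_, fun h => ?_⟩
    · linarith only [hq]
    · have g := q_ge' hK t rfl rfl q7_s2a (hK.inH hl k6ss_ok) (hK.inH hr k3as_ok) OL.nil
        OR.a (by norm_num; linarith only [h]) (by norm_num; linarith only [hx])
      norm_num at g
      linarith only [g]
    · have g := q_ge' hK t rfl rfl q8_s2a (hK.inH hl k6ss_ok) (hK.inH hr k3as_ok) OL.nil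
        OR.a (by norm_num; linarith only [h]) (by norm_num; linarith only [hx])
      norm_num at g
      linarith only [g]
    · have g := q_ge' hK t rfl rfl q85_s2a (hK.inH hl k6ss_ok) (hK.inH hr k3as_ok) OL.nil
        OR.a (by norm_num; linarith only [h]) (by norm_num; linarith only [hx])
      norm_num at g
      linarith only [g]
    · have g := q_ge' hK t rfl rfl q9_s2a (hK.inH hl k6ss_ok) (hK.inH hr k3as_ok) OL.nil
        OR.a (by norm_num; linarith only [h]) (by norm_num; linarith only [hx])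
      norm_num at g
      linarith only [g]

/-- absorbed digit `1`, behind it a ring `(2, s)` -/
theorem qs_2s (t : TDt K .s 4 l 2 .s w R k') (hl' : l ≠ .e) (h3 : (acot2 (Sp R k')).re < 1 / 2)
    (rg : Rg (yH .s R (Complex.cos w)) (zeta w)) :
    QS (yH .s R (Complex.cos w)) (zeta w) := by
  have hl := t.h.ok.left
  have hr := t.h.ok.right.symm
  have y1 := rg.y1
  cases l
  · exact absurd rfl hl'
  · obtain ⟨ry, rz, ru, -⟩ := tuseV hK t h3 rfl rfl o_4a2s mn
      (hK.inH hl k5as_ok) (hK.inH hr k4ss_ok) OL.a OR.s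
    obtain ⟨hx, hq⟩ := xq_of rg (ry _ m1) (ru _ m2) (by norm_num)
    norm_num at hx hq
    refine ⟨fun h => ?_, fun h => ?_, fun h => ?_, fun h => ?_, fun h => ?_⟩
    · linarith only [hq]
    · linarith only [hq]
    · linarith only [hq]
    · have g := q_ge' hK t rfl rfl q85_a2s (hK.inH hl k5as_ok) (hK.inH hr k4ss_ok) OL.a
        OR.s (by norm_num; linarith only [h]) (by norm_num; linarith only [hx])
      norm_num at g
      linarith only [g]
    · have g := q_ge' hK t rfl rfl q9_a2s (hK.inH hl k5as_ok) (hK.inH hr k4ss_ok) OL.a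
        OR.s (by norm_num; linarith only [h]) (by norm_num; linarith only [hx])
      norm_num at g
      linarith only [g]
  · obtain ⟨ry, rz, ru, -⟩ := tuseV hK t h3 rfl rfl o_4z2s mn
      (hK.inH hl k5zs_ok) (hK.inH hr k4ss_ok) OL.z OR.s
    obtain ⟨hx, hq⟩ := xq_of rg (ry _ m1) (ru _ m2) (by norm_num)
    norm_num at hx hq
    refine ⟨fun h => ?_, fun h => ?_, fun h => ?_, fun h => ?_, fun h => ?_⟩
    · linarith only [hq]
    · linarith only [hq]
    · linarith only [hq]
    · have g := q_ge' hK t rfl rfl q85_z2s (hK.inH hl k5zs_ok) (hK.inH hr k4ss_ok) OL.z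
        OR.s (by norm_num; linarith only [h]) (by norm_num; linarith only [hx])
      norm_num at g
      linarith only [g]
    · have g := q_ge' hK t rfl rfl q9_z2s (hK.inH hl k5zs_ok) (hK.inH hr k4ss_ok) OL.z
        OR.s (by norm_num; linarith only [h]) (by norm_num; linarith only [hx])
      norm_num at g
      linarith only [g]
  · obtain ⟨ry, rz, ru, -⟩ := tuseV hK t h3 rfl rfl o_4s2s mn
      (hK.inH hl k6ss_ok) (hK.inH hr k4ss_ok) OL.nil OR.s
    obtain ⟨hx, hq⟩ := xq_of rg (ry _ m1) (ru _ m2) (by norm_num)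
    norm_num at hx hq
    refine ⟨fun h => ?_, fun h => ?_, fun h => ?_, fun h => ?_, fun h => ?_⟩
    · linarith only [hq]
    · linarith only [hq]
    · have g := q_ge' hK t rfl rfl q8_s2s (hK.inH hl k6ss_ok) (hK.inH hr k4ss_ok) OL.nil
        OR.s (by norm_num; linarith only [h]) (by norm_num; linarith only [hx])
      norm_num at g
      linarith only [g]
    · have g := q_ge' hK t rfl rfl q85_s2s (hK.inH hl k6ss_ok) (hK.inH hr k4ss_ok) OL.nil
        OR.s (by norm_num; linarith only [h]) (by norm_num; linarith only [hx])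
      norm_num at g
      linarith only [g]
    · have g := q_ge' hK t rfl rfl q9_s2s (hK.inH hl k6ss_ok) (hK.inH hr k4ss_ok) OL.nil
        OR.s (by norm_num; linarith only [h]) (by norm_num; linarith only [hx])
      norm_num at g
      linarith only [g]

/-- absorbed digit `1`, behind it a ring `(2, e)` -/
theorem qs_2e (t : TDt K .s 4 l 2 .e w R k') (hl' : l ≠ .e)
    (rg : Rg (yH .s R (Complex.cos w)) (zeta w)) :
    QS (yH .s R (Complex.cos w)) (zeta w) := by
  have hl := t.h.ok.left
  have hr := t.h.ok.right.symm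
  have y1 := rg.y1
  cases l
  · exact absurd rfl hl'
  · obtain ⟨ry, rz, ru⟩ := tuse hK t rfl rfl o_4a2e mn
      (hK.inH hl k5as_ok) (hK.inH hr k3es_ok) OL.a OR.e
    obtain ⟨hx, hq⟩ := xq_of rg (ry _ m1) (ru _ m2) (by norm_num)
    norm_num at hx hq
    refine ⟨fun h => ?_, fun h => ?_, fun h => ?_, fun h => ?_, fun h => ?_⟩
    · linarith only [hq]
    · linarith only [hx, h]
    · linarith only [hx, h]
    · linarith only [hx, h]
    · linarith only [hx, h]
  · obtain ⟨ry, rz, ru⟩ := tuse hK t rfl rfl o_4z2e mn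
      (hK.inH hl k5zs_ok) (hK.inH hr k3es_ok) OL.z OR.e
    obtain ⟨hx, hq⟩ := xq_of rg (ry _ m1) (ru _ m2) (by norm_num)
    norm_num at hx hq
    refine ⟨fun h => ?_, fun h => ?_, fun h => ?_, fun h => ?_, fun h => ?_⟩
    · linarith only [hq]
    · linarith only [hx, h]
    · linarith only [hx, h]
    · linarith only [hx, h]
    · linarith only [hx, h]
  · obtain ⟨ry, rz, ru⟩ := tuse hK t rfl rfl o_4s2e mn
      (hK.inH hl k6ss_ok) (hK.inH hr k3es_ok) OL.nil OR.e
    obtain ⟨hx, hq⟩ := xq_of rg (ry _ m1) (ru _ m2) (by norm_num)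
    norm_num at hx hq
    refine ⟨fun h => ?_, fun h => ?_, fun h => ?_, fun h => ?_, fun h => ?_⟩
    · linarith only [hq]
    · linarith only [hx, h]
    · linarith only [hx, h]
    · linarith only [hx, h]
    · linarith only [hx, h]

end

end

end Pool.Agent.Work.MP_b30479_gt.G2.CN.TD
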