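import Pool.Agent.Work.MP_b30479_gt.G2.CN.TTabF
import Pool.Agent.Work.MP_b30479_gt.G2.CN.LocSd
import Pool.Agent.Work.MP_b30479_gt.G2.CN.TTwZ
import Pool.Agent.Work.MP_b30479_gt.G2.CN.LocRX
import Pool.Agent.Work.MP_b30479_gt.G2.CN.TTabE
import Pool.Agent.Work.MP_b30479_gt.G2.CN.TTabD

/-!
# Further windows of the rings of a word
-/

namespace Pool.Agent.Work.MP_b30479_gt.G2.CN.TD

open Complex SR
open scoped ComplexConjugate

noncomputable section

variable {M : ℕ} {b : Fin (M + 1) → ℤ} {w : ℕ → ℂ}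

/-- an inner region has a neighbour on the other side -/
lemma adj_other {h : Fin M} {i j : Fin (M + 1)} {p : Fin 3} (A : Adj h i p j)
    (hi : isEnd i = false) : ∃ (h' : Fin M) (j' : Fin (M + 1)), Adj h' i p.rev j' := by
  rcases A.other (fun _ => 0) (fun _ => 0) (fun _ => 0) with ⟨h1, -⟩ | ⟨-, h1⟩
  · rw [hi] at h1
    exact absurd h1 (by decide)
  · exact h1

lemma mid_of {h g : Fin M} {i j k : Fin (M + 1)} {p : Fin 3} (A : Adj h i p j)
    (A2 : Adj g j p k) : isEnd j = false := by
  rw [← Bool.not_eq_true, isEnd_iff]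
  have hh := h.2
  have hg := g.2
  rcases A.elim with ⟨rfl, a1, a2⟩ | ⟨rfl, a1, a2⟩
  · rcases A2.elim with ⟨-, a3, a4⟩ | ⟨h0, -⟩
    · omega
    · exact absurd h0 (by decide)
  · rcases A2.elim with ⟨h0, -⟩ | ⟨-, a3, a4⟩
    · exact absurd h0 (by decide)
    · omega

lemma adj_rev {h : Fin M} {i j : Fin (M + 1)} {p : Fin 3} (A : Adj h i p.rev.rev j) :
    Adj h i p j := by
  rwa [Fin.rev_rev] at A

/-- the imaginary part in the other frame -/
lemma ofs_opp {c c' : ℤ} (h1 : c * c' < 0) (z : ℂ) : ofs c' z.im = -(ofr c z).im := by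
  rw [← ofr_im, ofr_opp h1, Complex.conj_im]

lemma ofz_im (c : ℤ) (z : ℂ) : (ofz c z).im = z.im := by
  unfold ofz
  split_ifs
  · rfl
  · rw [Complex.neg_im, Complex.conj_im, neg_neg]

lemma two_nat {i : Fin (M + 1)} (hc : clsW b i = .two) : (b i).natAbs = 2 := by
  unfold clsW cls at hc
  split_ifs at hc with h1 h2
  exact h2

lemma three_nat {i : Fin (M + 1)} (hc : clsW b i = .three) : (b i).natAbs = 3 := by
  unfold clsW cls at hc
  split_ifs at hc with h1 h2 h3 h4 h5
  exact h4

lemma cK_three {d : ℕ} {l : SK} (h : Cl.three = cK d l) : l ≠ .e := by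
  intro hl
  subst hl
  unfold cK at h
  split_ifs at h
  simp_all

/-- the split hinge on the other side -/
lemma sp_far {K : KFam} (Bx : BoxRows K) {d : ℕ} {l : SK} {d' : ℕ} {l' : SK} {R k k' : ℂ}
    (h : HDt K .s d l d' l' R k k') : (acot2 (Sp R k')).re < 1 / 2 := by
  have hR := h.rev
  have f : ∀ z, fz SK.s.sgn z = z := fun z => fz_one z
  rw [f, f, f] at hR
  exact (Bx.sp hR).2

lemma LDt.of {K : KFam} (Bx : BoxRows K) {l x : SK} {dl : ℕ} {ll : SK} {dr : ℕ} {rr : SK}
    {w kl kr : ℂ} (h : RDt K 4 l x dl ll dr rr w kl kr) : LDt K l x dl ll dr rr w kl kr := by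
  refine ⟨h, fun hx => ?_, fun hl => ?_⟩
  · subst hx
    exact (Bx.sp h.right).2
  · subst hl
    exact (Bx.sp h.left).2

lemma RDt.tdt {K : KFam} (Bx : BoxRows K) {d : ℕ} {l x : SK} {dl : ℕ} {ll : SK} {dr : ℕ} {rr : SK}
    {w kl kr : ℂ} (h : RDt K d l x dl ll dr rr w kl kr) :
    TDt K x d l dr rr w (RR w kr) kr := by
  refine ⟨h.right, h.w0, h.w1, fun hx => ?_⟩
  subst hx
  exact (Bx.sp h.right).2

/-- the box of a hinge of a ring next to a class -/
lemma box_cls {K : KFam} (Bx : BoxRows K) {x : SK} {d : ℕ} {l : SK} {d' : ℕ} {l' : SK}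
    {R k k' : ℂ} (h : HDt K x d l d' l' R k k') (h4 : 4 ≤ d) {A : Cl} (hA : A = nC x d' l') :
    (hbox .ring A (decide (x = .z))).In (yH x R k) := by
  have hB := Bx.box h
  by_cases hx : x = .s
  · subst hx
    rw [hA]
    have := kbox_s h4 hB
    unfold nC
    rw [if_pos rfl]
    exact this
  · have := kbox_un h4 hx hB
    unfold YB at this
    unfold nC at hA
    rw [if_neg hx] at hA
    rw [hA]
    exact this

lemma box_one {x : SK} {y : ℂ} (h : (hbox .ring .one (decide (x = .z))).In y) :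
    (hbox .ring .one false).In y := by
  cases x <;> exact h

section
variable (hb : ClassW b) (F : RingFacts) (hw : Sol b w) {K : KFam} (hS : Snd K b w)
include hb F hw hS

/-- a digit `1` which is not absorbed: the other neighbour is absorbed -/
lemma far_one {h h' : Fin M} {i j j' : Fin (M + 1)} {p : Fin 3} (A : Adj h i p j)
    (A' : Adj h' i p.rev j') (hu : us b i.val = false) (h1 : (b i).natAbs = 1)
    (hj : clsW b j ≠ .one) : clsW b j' = .one := by
  obtain ⟨x, x', dl, ll, dr, rr, kl, kr, hE, -, -, c1, c2⟩ := A.pair_view hb F hw hS A' hu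
  obtain ⟨hxs, -⟩ := nC_ne_s c1 hj
  rw [h1] at hE
  have h2 : x' = .s := (hE.left.ok.left.one rfl).1.resolve_right hxs
  rw [c2, h2]
  rfl

end

section
variable (hb : ClassW b) (F : RingFacts) (hw : Sol b w) (hM : 1 ≤ M) {K : KFam} (hK : KOK K)
  (hS : Snd K b w) (Bx : BoxRows K)
include hb F hw hM hK hS Bx

lemma ring_nat {i : Fin (M + 1)} (hc : clsW b i = .ring) : 4 ≤ (b i).natAbs :=
  ring_four hb (tyW_of_ring hb hc)

/-- the rough ranges of the ring variable and of a hinge next to a digit `1` -/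
lemma rg_of {x l : SK} {R : ℂ} {j : Fin (M + 1)} (v : ZZ (tyW b)) (hv : v.1 = j)
    (h4 : 4 ≤ (b j).natAbs) (he : l = .e ↔ isEnd j = true)
    (hB : (hbox .ring .one false).In (yH x R (Complex.cos (oW b w j.val)))) :
    Rg (yH x R (Complex.cos (oW b w j.val))) (zeta (oW b w j.val)) := by
  have hL := loc_of_boxes hb F hw hM hS Bx
  subst hv
  have z0 := zb_rg h4 (zb_of hL v he)
  have y0 := one_box hB
  exact ⟨y0.1, y0.2, z0.1, z0.2⟩

theorem qs_of {h : Fin M} {i j : Fin (M + 1)} {p : Fin 3} (v : ZZ (tyW b)) (hv : v.1 = j)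
    (A : Adj h i p j) (hc : clsW b i = .one) (h4 : (b j).natAbs = 4) (hend : isEnd j = false) :
    QS (ofr (b j) (zsW b w (.inl (.inl h)))) (ofz (b j) (zsW b w (.inr v))) := by
  obtain ⟨x, l, d', l', R, k', t, hy, he, hx', hB⟩ :=
    one_side hb F hw hS Bx A.symm (by omega : 4 ≤ (b j).natAbs) hc
  have r0 := rg_of hb F hw hM hK hS Bx v hv (by omega) he hB
  have hl : l ≠ .e := fun h6 => by
    rw [he.1 h6] at hend
    exact absurd hend (by decide)
  subst hv
  rw [ofz_own, hy]
  rw [h4] at t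
  rcases hx' with ⟨rfl, hu⟩ | ⟨hu, rfl, rfl⟩
  · have h3 := sp_far Bx t.h
    have hd : d' = 1 ∨ d' = 2 := by
      have h5 := t.h.ok.one rfl
      have h6 := t.h.ok.right.pos
      omega
    have hz : l' ≠ .z := fun h5 => by
      have := t.h.ok.right.zr h5
      omega
    rcases hd with rfl | rfl
    · cases l'
      · exact absurd rfl (t.h.ok.right.one rfl).2.2
      · exact qs_1a hK t hl r0
      · exact absurd rfl hz
      · exact qs_1s hK t hl r0
    · cases l'
      · exact qs_2e hK t hl r0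
      · exact qs_2a hK t hl h3 r0
      · exact absurd rfl hz
      · exact qs_2s hK t hl h3 r0
  · exact qs_u hK t hl r0

/-- the data of a ring with four crossings next to a digit `1` -/
lemma four_of {h g : Fin M} {i j k : Fin (M + 1)} {p : Fin 3} (A : Adj h i p j)
    (A2 : Adj g j p k) (hc : clsW b i = .one) (h4 : (b j).natAbs = 4) :
    ∃ (l x : SK) (dl : ℕ) (ll : SK) (dr : ℕ) (rr : SK) (kl kr : ℂ),
      LDt K l x dl ll dr rr (oW b w j.val) kl kr ∧
      ofr (b j) (zsW b w (.inl (.inl g))) =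
        yH l (RR (oW b w j.val) kl) (Complex.cos (oW b w j.val)) ∧
      ofr (b j) (zsW b w (.inl (.inl h))) =
        yH x (RR (oW b w j.val) kr) (Complex.cos (oW b w j.val)) ∧
      Sd b j k p l dl ll ∧ Sd b j i p.rev x dr rr ∧
      (hbox .ring (clsW b k) (decide (l = .z))).In
        (yH l (RR (oW b w j.val) kl) (Complex.cos (oW b w j.val))) ∧
      (hbox .ring .one false).In
        (yH x (RR (oW b w j.val) kr) (Complex.cos (oW b w j.val))) := by
  obtain ⟨l, x, dl, ll, dr, rr, kl, kr, hE, y1, y2, s1, s2⟩ :=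
    pair_sd hb F hw hS A2 A.symm (us_of_abs (by omega))
  rw [h4] at hE
  have b1 := box_cls Bx hE.left (by norm_num) s1.cls
  have b2 := box_cls Bx hE.right (by norm_num) s2.cls
  rw [hc] at b2
  exact ⟨l, x, dl, ll, dr, rr, kl, kr, LDt.of Bx hE, y1, y2, s1, s2, b1, box_one b2⟩

theorem tri_of {h h' g : Fin M} {i j j' k : Fin (M + 1)} {p : Fin 3} (v : ZZ (tyW b))
    (hv : v.1 = j) (A : Adj h i p j) (A' : Adj h' i p.rev j') (A2 : Adj g j p k)
    (hc : clsW b i = .one) (hc' : clsW b j' = .two) (h4 : (b j).natAbs = 4) :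
    Tri (clsW b k) (decide (0 < b j * b k)) (ofr (b j) (zsW b w (.inl (.inl h))))
      (ofz (b j) (zsW b w (.inr v))) := by
  obtain ⟨l, x, dl, ll, dr, rr, kl, kr, t, y1, y2, s1, s2, b1, b2⟩ :=
    four_of hb F hw hM hK hS Bx A A2 hc h4
  have hui : us b i.val = true := by
    by_contra hu
    rw [Bool.not_eq_true] at hu
    have := far_one hb F hw hS A A' hu (one_nat hc) (fun h5 => by
      have := one_nat h5
      omega)
    rw [this] at hc'
    exact absurd hc' (by decide)
  have hxs := s2.s hui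
  subst hxs
  obtain ⟨hd, hcr⟩ := s2.far A' hui
  rw [hc'] at hcr
  obtain ⟨rfl, hrr⟩ := cK_two' hcr
  have hm := mid_of A A2
  have hend : (rr = .e) ↔ isEnd j = true :=
    ⟨fun h5 => absurd h5 hrr, fun h5 => by rw [hm] at h5; exact absurd h5 (by decide)⟩
  have r0 := rg_of hb F hw hM hK hS Bx v hv (by omega) hend b2
  have x0 := b2.2.1
  norm_num [hbox] at x0
  subst hv
  rw [ofz_own, y2]
  by_cases hk : us b k.val = true
  · have hls := s1.s hk
    subst hls
    have e : clsW b k = .one := s1.cls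
    rw [e] at b1 ⊢
    have := tri_s hK t hrr b1 r0 (by linarith only [x0])
    cases decide (0 < b v.1 * b k) <;> exact this
  · rw [Bool.not_eq_true] at hk
    obtain ⟨hdl, hl⟩ := s1.u hk
    by_cases hp : 0 < b v.1 * b k
    · rw [if_pos hp] at hl
      subst hl
      have e : clsW b k = .ring := by
        rw [s1.cls]
        unfold nC
        rw [if_neg (by decide), cK_ring (t.h.left.ok.right.zl rfl)]
      rw [e, decide_eq_true hp]
      trivial
    · rw [if_neg hp] at hl
      subst hl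
      rw [decide_eq_false hp]
      have e : clsW b k = cK dl ll := s1.cls
      rw [show decide (SK.a = SK.z) = false from rfl] at b1
      rw [e] at b1 ⊢
      have hpos := t.h.left.ok.right.pos
      have hd4 : dl = 1 ∨ dl = 2 ∨ dl = 3 ∨ 4 ≤ dl := by omega
      rcases hd4 with rfl | rfl | rfl | h5
      · exact tri_1 hK t hrr b1 r0 (by linarith only [x0])
      · by_cases hle : ll = .e
        · subst hle
          exact tri_E hK t hrr b1 r0
        · have e2 : cK 2 ll = .two := by simp [cK, hle]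
          rw [e2] at b1 ⊢
          exact tri_2 hK t hrr hle b1 r0 (by linarith only [x0])
      · by_cases hle : ll = .e
        · subst hle
          exact tri_e hK t hrr b1 r0 (by linarith only [x0])
        · have e2 : cK 3 ll = .three := by simp [cK, hle]
          rw [e2] at b1 ⊢
          exact tri_3 hK t hrr b1 r0 (by linarith only [x0])
      · rw [cK_ring h5] at b1 ⊢
        exact tri_Z hK t hrr b1 r0 (by linarith only [x0])

/-- the kind of the hinge next to a digit `1` which is not absorbed -/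
lemma one_kind {x : SK} {d l d' l'} {R k k' : ℂ} (h : HDt K x d l d' l' R k k')
    (hc : Cl.one = nC x d' l') : x = .s ∨ (x = .a ∧ d' = 1) := by
  by_cases hs : x = .s
  · exact Or.inl hs
  · right
    unfold nC at hc
    rw [if_neg hs] at hc
    have h1 := cK_one hc.symm
    refine ⟨?_, h1⟩
    cases x
    · exact absurd rfl h.ok.ne
    · rfl
    · have := h.ok.right.zl rfl
      omega
    · exact absurd rfl hs

theorem tri1_of {h g : Fin M} {i j k : Fin (M + 1)} {p : Fin 3} (v : ZZ (tyW b)) (hv : v.1 = j)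
    (A : Adj h i p j) (A2 : Adj g j p k) (hc : clsW b i = .one) (hk : clsW b k = .one)
    (h4 : (b j).natAbs = 4)
    (hx : 4535 / 10000 ≤ (zsW b w (.inl (.inl h))).re - (ofz (b j) (zsW b w (.inr v))).re) :
    (zsW b w (.inl (.inl g))).re ≤ 262 / 1000 := by
  obtain ⟨l, x, dl, ll, dr, rr, kl, kr, t, y1, y2, s1, s2, b1, b2⟩ :=
    four_of hb F hw hM hK hS Bx A A2 hc h4
  have hm := mid_of A A2
  have hend : (SK.a = .e) ↔ isEnd j = true :=
    ⟨fun h5 => absurd h5 (by decide), fun h5 => by rw [hm] at h5; exact absurd h5 (by decide)⟩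
  have r0 := rg_of hb F hw hM hK hS Bx v hv (by omega) hend b2
  rw [hk] at b1
  have b1' := box_one b1
  have e1 := s1.cls
  have e2 := s2.cls
  rw [hk] at e1
  rw [hc] at e2
  have k1 := one_kind hb F hw hM hK hS Bx t.h.left e1
  have k2 := one_kind hb F hw hM hK hS Bx t.h.right e2
  subst hv
  rw [ofz_own, ← ofr_re (b v.1) (zsW b w (.inl (.inl h))), y2] at hx
  rw [← ofr_re (b v.1) (zsW b w (.inl (.inl g))), y1]
  rcases k1 with rfl | ⟨rfl, rfl⟩
  · rcases k2 with rfl | ⟨rfl, rfl⟩
    · exact vv_ss hK t b1' b2 r0 hx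
    · exact vv_su hK t b1' b2 r0 hx
  · rcases k2 with rfl | ⟨rfl, rfl⟩
    · exact vv_as hK t b1' b2 r0 hx
    · exact vv_au hK t b1' b2 r0 hx

theorem three_of {h : Fin M} {i j : Fin (M + 1)} {p : Fin 3} (A : Adj h i p j)
    (hc : clsW b i = .three) (hj : clsW b j = .ring)
    (hx : -(1 / 1000) ≤ ofs (b i) (zsW b w (.inl (.inl h))).im) :
    0 ≤ ofs (b i) (zsW b w (.inl (.inl h))).im ∨
      (-(1 / 1000) ≤ ofs (b i) (zsW b w (.inl (.inl h))).im ∧ (b j).natAbs = 4 ∧
        (∃ (g : Fin M) (k : Fin (M + 1)), Adj g j p k ∧ clsW b k = .ring) ∧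
        ∀ v : ZZ (tyW b), v.1 = j → 4 / 100 ≤ (zsW b w (.inr v)).im) := by
  have h4 := ring_nat hb F hw hM hK hS Bx hj
  have h3 := three_nat hc
  have hop : b j * b i < 0 := A.symm.opp hb (Or.inr (by rw [hc]; decide))
  have hui : us b i.val = false := us_of_abs (by omega)
  have hci : ∀ {x d' l'}, clsW b i = nC x d' l' → x ≠ .s → l' ≠ .e := by
    intro x d' l' e hxs
    unfold nC at e
    rw [if_neg hxs, hc] at e
    exact cK_three e
  rw [ofs_opp hop]
  rw [ofs_opp hop] at hx
  rcases Bool.eq_false_or_eq_true (isEnd j) with hend | hend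
  · obtain ⟨x, l, d', l', R, k', t, hy, he, hc', hx', -⟩ := ring_view hb F hw hS Bx A.symm h4
    have hle := he.2 hend
    subst hle
    rcases hx' with ⟨-, hu⟩ | ⟨-, hd, hxx⟩
    · rw [hui] at hu
      exact absurd hu (by decide)
    · rw [if_neg (by omega)] at hxx
      rw [h3] at hd
      subst hxx hd
      left
      rw [hy]
      rcases three_t hK t h4 (hci hc' (by decide)) with h5 | ⟨-, h5 | ⟨h5, -⟩, -⟩
      · linarith only [h5]
      · exact absurd h5 (by decide)
      · exact absurd h5 (by decide)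
  · obtain ⟨g, k, A2⟩ := adj_other A.symm hend
    have A2' : Adj g j p k := adj_rev A2
    obtain ⟨l, x, dl, ll, dr, rr, kl, kr, hE, y1, y2, s1, s2⟩ :=
      pair_sd hb F hw hS A2' A.symm (us_of_abs (by omega))
    obtain ⟨hd, hxx⟩ := s2.u hui
    rw [if_neg (by omega)] at hxx
    rw [h3] at hd
    subst hxx hd
    rw [y2]
    rw [y2] at hx
    have hrr := hci s2.cls (by decide)
    rcases three_t hK (RDt.tdt Bx hE) h4 hrr with h5 | ⟨hd4, h5, h6⟩
    · left
      linarith only [h5]
    have hrho : ∀ v : ZZ (tyW b), v.1 = j → 4 / 100 ≤ (zsW b w (.inr v)).im := by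
      intro v hv
      subst hv
      rw [← ofz_im (b v.1), ofz_own]
      exact h6
    by_cases hk : clsW b k = .ring
    · exact Or.inr ⟨hx, hd4, ⟨g, k, A2', hk⟩, hrho⟩
    rcases h5 with rfl | ⟨rfl, rfl⟩
    · exfalso
      apply hk
      rw [s1.cls]
      unfold nC
      rw [if_neg (by decide), cK_ring (hE.left.ok.right.zl rfl)]
    · left
      have b1 := box_cls Bx hE.left h4 s1.cls
      rw [hd4] at hE
      have h7 : (yH .a (RR (oW b w j.val) kl) (Complex.cos (oW b w j.val))).im ≤ 40 / 10000 := by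
        revert b1 hk
        rw [show decide (SK.a = SK.z) = false from rfl]
        cases clsW b k
        all_goals
          intro hk b1
          obtain ⟨-, -, -, b4⟩ := b1
          norm_num [hbox] at b4
          first
            | (norm_num; linarith only [b4])
            | exact absurd rfl hk
      have := three_l hK (LDt.of Bx hE) h7
      linarith only [this]

/-- the data of a digit `2` next to an absorbed digit `1` and to a ring -/
lemma two_data {h h' g : Fin M} {i j k m : Fin (M + 1)} {p : Fin 3} (A : Adj h i p j)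
    (A' : Adj h' i p.rev k) (A2 : Adj g k p.rev m) (hc : clsW b i = .two) (hj : clsW b j = .ring)
    (hk : clsW b k = .one) (hm : clsW b m ≠ .one) :
    ∃ (dl : ℕ) (ll : SK) (dr : ℕ) (rr : SK) (kl kr : ℂ),
      RDt K 2 .s .a dl ll dr rr (oW b w i.val) kl kr ∧
      ofs (b i) (zsW b w (.inl (.inl h))).im =
        (yH .a (RR (oW b w i.val) kr) (Complex.cos (oW b w i.val))).im ∧
      dl = (b m).natAbs ∧ 4 ≤ dr := by
  have h2 := two_nat hc
  have h4 := ring_nat hb F hw hM hK hS Bx hj
  have huk : us b k.val = true := by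
    by_contra hu
    rw [Bool.not_eq_true] at hu
    have A'' : Adj h' k p i := adj_rev A'.symm
    exact hm (far_one hb F hw hS A'' A2 hu (one_nat hk) (by rw [hc]; decide))
  have hui : us b i.val = false := us_of_abs (by omega)
  have huj : us b j.val = false := us_of_abs (by omega)
  obtain ⟨x, x', dl, ll, dr, rr, kl, kr, hE, y1, y2, s1, s2⟩ := pair_sd hb F hw hS A A' hui
  have hx' := s2.s huk
  subst hx'
  obtain ⟨hd, -⟩ := s2.far A2 huk
  obtain ⟨hd', hx⟩ := s1.u huj
  have hop : b i * b j < 0 := A.opp hb (Or.inl (by rw [hc]; decide))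
  rw [if_neg (by omega)] at hx
  subst hx
  rw [h2] at hE
  refine ⟨dr, rr, dl, ll, kr, kl, hE.symm, ?_, hd, by omega⟩
  rw [← y1, ofr_im]

/-- **Further windows of the rings of a word.** -/
theorem locRt_of (h3 : ∀ {h : Fin M} {i j : Fin (M + 1)} {p : Fin 3}, Adj h i p j →
    clsW b i = .three → clsW b j = .ring →
    -(1 / 1000) ≤ ofs (b i) (zsW b w (.inl (.inl h))).im) : LocRt b (zsW b w) where
  qs v hv A hc h4 he := qs_of hb F hw hM hK hS Bx v hv A hc h4 he
  tri v hv A A' A2 hc hc' h4 := tri_of hb F hw hM hK hS Bx v hv A A' A2 hc hc' h4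
  tri1 v hv A A2 hc hk h4 hx := tri1_of hb F hw hM hK hS Bx v hv A A2 hc hk h4 hx
  three A hc hj := three_of hb F hw hM hK hS Bx A hc hj (h3 A hc hj)
  two1 A A' A2 hc hj hk hm := by
    obtain ⟨dl, ll, dr, rr, kl, kr, t, e, -, h4⟩ :=
      two_data hb F hw hM hK hS Bx A A' A2 hc hj hk hm
    rw [e]
    exact two_t hK (RDt.tdt Bx t) h4
  twoZ A A' A2 hc hj hk hm := by
    obtain ⟨dl, ll, dr, rr, kl, kr, t, e, hd, h4⟩ :=
      two_data hb F hw hM hK hS Bx A A' A2 hc hj hk (by rw [hm]; decide)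
    rw [e]
    exact two_z hK t (by rw [hd]; exact ring_nat hb F hw hM hK hS Bx hm) h4

end

end

end Pool.Agent.Work.MP_b30479_gt.G2.CN.TD
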