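import Pool.Agent.Work.MP_b30479_gt.G2.CN.TMid
import Pool.Agent.Work.MP_b30479_gt.G2.CN.LocRT

/-!
# Rows for the inner variable of a region with three crossings, II

The hinge at the first slot of kind `x`, with the variable `R`. `tIx`: the exponential of the inner
variable, `tJx`: of the inner variable minus the hinge, `tFx`: of the hinge behind the digit `1` at
the first slot, up to reflection.
-/

namespace Pool.Agent.Work.MP_b30479_gt.G2.CN.TD

open Complex SR Ev
open scoped ComplexConjugate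

noncomputable section

section
variable {K : KFam} {x r : SK} {dl : ℕ} {ll : SK} {dr : ℕ} {rr : SK} {w kl kr : ℂ}

/-- the exponential of the inner variable -/
lemma expI (t : RDt K 3 x r dl ll dr rr w kl kr)
    (hu : (yH x (RR w kl) (Complex.cos w)).re < 1 / 2)
    (hv : (yH r (RR w kr) (Complex.cos w)).re < 1 / 2) (H : List QC) :
    cexp (2 * Real.pi * I * mH x (RR w kl) (Complex.cos w)) *
      (tIx x H).M.val (RR w kl) (Complex.tan w) = (tIx x H).N.val (RR w kl) (Complex.tan w) := by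
  by_cases hx : x = .s
  · subst hx
    have T := M3.tri_of t hu hv
    have E := M3.exps_of T hu hv
    have hc0 := ne_of_re t.left.kre
    have ht := tan_sq hc0
    have hR : 0 < (RR w kl).re := r0_pos.trans t.left.Rre
    have hRI : RR w kl + I ≠ 0 := by
      intro h
      exact (ne_I_of_re hR).2 (by linear_combination h)
    have em := E.em
    have e1 := T.hy
    have e2 := T.um
    rw [Hq_s] at em e1 e2
    have hS : Sp (RR w kl) (Complex.cos w) * (RR w kl + I) =
        I * RR w kl + (1 / Complex.cos w ^ 2 - 1) := by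
      unfold Sp
      rw [div_mul_cancel₀ _ hRI]
    unfold mH
    rw [Hq_s]
    change _ * (Ev.tq.val _ _ * Ev.rp.val _ _) = gz 0 0 1 0 * Ev.tl3.val _ _
    have h4 := Ev.val_tl3 (RR w kl) (Complex.tan w)
    have h5 : Ev.tl3.val (RR w kl) (Complex.tan w) =
        I * RR w kl * (4 - 1 / Complex.cos w ^ 2) - (4 - 3 * (1 / Complex.cos w ^ 2)) := by
      apply mul_left_cancel₀ (two_ne_zero : (2 : ℂ) ≠ 0)
      rw [h4, ht]
      simp only [DB, cab]
      ring
    rw [Ev.val_tq, Ev.val_rp, ht, h5, gz_I]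
    set U := Sp (RR w kl) (Complex.cos w)
    set M := Sp U (Complex.cos w)
    set E0 := cexp (2 * Real.pi * I * acot2 M)
    set Q := 1 / Complex.cos w ^ 2
    have key : E0 * Q = Q - 2 + 2 * I * U := by
      linear_combination (-E0) * e2 - (E0 * (U + I)) * e1 + ((U + I) * (M + I)) * em +
        e2 + 2 * Complex.I_mul_I
    linear_combination (RR w kl + I) * key + 2 * I * hS +
      (2 * RR w kl - RR w kl * (4 - Q)) * Complex.I_mul_I
  · have e : tIx x H = tYs H := by
      cases x
      · rfl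
      · rfl
      · rfl
      · exact absurd rfl hx
    rw [e]
    have T := M3.tri_of t hu hv
    have E := M3.exps_of T hu hv
    have hc0 := ne_of_re t.left.kre
    have ht := tan_sq hc0
    have em := E.em
    have e1 := T.hy
    have e2 := T.um
    rw [Hq_of_ne hx] at em e1 e2
    unfold mH
    rw [Hq_of_ne hx]
    change _ * Ev.tq.val _ _ = Ev.tl2.val _ _
    have h4 := Ev.val_tl2 (RR w kl) (Complex.tan w)
    have h5 : Ev.tl2.val (RR w kl) (Complex.tan w) =
        1 / Complex.cos w ^ 2 - 2 + 2 * I * RR w kl := by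
      apply mul_left_cancel₀ (two_ne_zero : (2 : ℂ) ≠ 0)
      rw [h4, ht]
      simp only [DB, cab]
      ring
    rw [Ev.val_tq, ht, h5]
    set M := Sp (RR w kl) (Complex.cos w)
    set E0 := cexp (2 * Real.pi * I * acot2 M)
    linear_combination (-E0) * e2 - (E0 * (RR w kl + I)) * e1 + ((RR w kl + I) * (M + I)) * em +
      e2 + 2 * Complex.I_mul_I

/-- the exponential of the inner variable minus the hinge -/
lemma expJ (t : RDt K 3 x r dl ll dr rr w kl kr)
    (hu : (yH x (RR w kl) (Complex.cos w)).re < 1 / 2)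
    (hv : (yH r (RR w kr) (Complex.cos w)).re < 1 / 2)
    (h2 : x = .s → (acot2 (Sp (RR w kl) (Complex.cos w))).re < 1 / 2) (H : List QC) :
    cexp (2 * Real.pi * I * (mH x (RR w kl) (Complex.cos w) - yH x (RR w kl) (Complex.cos w))) *
      (tJx x H).M.val (RR w kl) (Complex.tan w) = (tJx x H).N.val (RR w kl) (Complex.tan w) := by
  have e1 := expI t hu hv H
  have hR : 0 < (RR w kl).re := r0_pos.trans t.left.Rre
  have e2 := expY (w := w) t.left.kre hR h2 H
  have h0 := Complex.exp_ne_zero (2 * Real.pi * I * yH x (RR w kl) (Complex.cos w))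
  by_cases hx : x = .s
  · subst hx
    change _ * (Ev.tq.val _ _ * Ev.rp.val _ _) = gz 0 0 1 0 * Ev.tl3.val _ _ at e1
    change _ * Ev.tq.val _ _ = Ev.tl2.val _ _ at e2
    change _ * (Ev.rp.val _ _ * Ev.tl2.val _ _) = gz 0 0 1 0 * Ev.tl3.val _ _
    rw [← e1, ← e2, mul_sub, Complex.exp_sub]
    field_simp
  · have e : tIx x H = tYs H := by
      cases x
      · rfl
      · rfl
      · rfl
      · exact absurd rfl hx
    have e' : tJx x H = tSs H := by
      cases x
      · rfl
      · rfl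
      · rfl
      · exact absurd rfl hx
    have e3 : tYx x H = tY H := by
      cases x
      · rfl
      · rfl
      · rfl
      · exact absurd rfl hx
    rw [e] at e1
    rw [e3] at e2
    rw [e']
    change _ * Ev.tq.val _ _ = Ev.tl2.val _ _ at e1
    change _ * Ev.rm.val _ _ = Ev.rp.val _ _ at e2
    change _ * (Ev.tq.val _ _ * Ev.rp.val _ _) = Ev.tl2.val _ _ * Ev.rm.val _ _
    rw [← e1, ← e2, mul_sub, Complex.exp_sub]
    field_simp

/-- the far hinge as a variable `v` of the row -/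
def Far (x : SK) (R q' v : ℂ) : Prop :=
  match x with
  | .a => cexp (2 * Real.pi * I * v) * (q' - 2 - 2 * I * R) = q'
  | _ => cexp (2 * Real.pi * I * v) * (q' - 2 + 2 * I * R) = q'

lemma expF {q' R T v : ℂ} (hq : R ^ 2 - T ^ 2 = q') (h : Far x R q' v) (H : List QC) :
    cexp (2 * Real.pi * I * v) * (tFx x H).M.val R T = (tFx x H).N.val R T := by
  have e1 : ∀ a b : ℕ, (Ev.tr2 a b).val R T = q' - 2 + 2 * (((a : ℂ) - b) * I) * R := by
    intro a b
    apply mul_left_cancel₀ (two_ne_zero : (2 : ℂ) ≠ 0)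
    rw [Ev.val_tr2, show R ^ 2 + 1 - (T ^ 2 + 1) = q' by rw [← hq]; ring]
    simp only [DB, cab]
    ring
  have e2 : Ev.tq2.val R T = q' := by
    rw [Ev.val_tq2, ← hq]
    ring
  cases x
  · change _ * (Ev.tr2 1 0).val _ _ = Ev.tq2.val _ _
    rw [e1, e2]
    have h' : cexp (2 * Real.pi * I * v) * (q' - 2 + 2 * I * R) = q' := h
    push_cast
    linear_combination h'
  · change _ * (Ev.tr2 0 1).val _ _ = Ev.tq2.val _ _
    rw [e1, e2]
    have h' : cexp (2 * Real.pi * I * v) * (q' - 2 - 2 * I * R) = q' := h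
    push_cast
    linear_combination h'
  · change _ * (Ev.tr2 1 0).val _ _ = Ev.tq2.val _ _
    rw [e1, e2]
    have h' : cexp (2 * Real.pi * I * v) * (q' - 2 + 2 * I * R) = q' := h
    push_cast
    linear_combination h'
  · change _ * (Ev.tr2 1 0).val _ _ = Ev.tq2.val _ _
    rw [e1, e2]
    have h' : cexp (2 * Real.pi * I * v) * (q' - 2 + 2 * I * R) = q' := h
    push_cast
    linear_combination h'

/-- the hinges of a region with three crossings -/
lemma re_halfx (Bx : BoxRows K) (t : RDt K 3 x r dl ll dr rr w kl kr) (hx : x ≠ .e)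
    (hr : r ≠ .e) :
    (yH x (RR w kl) (Complex.cos w)).re < 1 / 2 ∧ (yH r (RR w kr) (Complex.cos w)).re < 1 / 2 := by
  obtain ⟨c, hc⟩ := M3.fits t.left
  obtain ⟨c', hc'⟩ := M3.fits t.right
  exact ⟨(M3.box_fits (bxs_of Bx) t.left hr hc).2.1,
    (M3.box_fits (bxs_of Bx) t.right hx hc').2.1⟩

/-- **The bounds of a row.** `v`: the far hinge. -/
theorem tuseN (hK : KOK K) (Bx : BoxRows K) (t : RDt K 3 x r dl ll dr rr w kl kr)
    {v : ℂ} (hv : Far x (RR w kl) (1 / kl ^ 2) v)
    {gi mi si fi : List GC} {o : List QC} {L : List Grp} {o' : List QC} {L' : List Grp}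
    {gy gm gs gf : List GC} {n code : ℕ}
    (hr : trowOkN x gi mi si fi o L o' L' gy gm gs gf n code = true)
    (hi : ∀ g ∈ gi, g.G (yH x (RR w kl) (Complex.cos w)))
    (hmi : ∀ g ∈ mi, g.G (mH x (RR w kl) (Complex.cos w)))
    (hsi : ∀ g ∈ si, g.G (mH x (RR w kl) (Complex.cos w) - yH x (RR w kl) (Complex.cos w)))
    (hfi : ∀ g ∈ fi, g.G v)
    (ho : InH (K.K 3 r x) o) (ho' : InH (K.K dl ll x) o')
    (hL : AllOk (RR w kl) (Complex.tan w) L) (hL' : AllOk (RR w kl) (Complex.tan w) L') :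
    (∀ g ∈ gy, g.P (yH x (RR w kl) (Complex.cos w))) ∧
      (∀ g ∈ gm, g.P (mH x (RR w kl) (Complex.cos w))) ∧
      (∀ g ∈ gs, g.P (mH x (RR w kl) (Complex.cos w) - yH x (RR w kl) (Complex.cos w))) ∧
      ∀ g ∈ gf, g.P v := by
  have hxe : x ≠ .e := t.left.ok.ne
  have hre : r ≠ .e := t.right.ok.ne
  obtain ⟨hu, hv'⟩ := re_halfx Bx t hxe hre
  have hc := t.left.kre
  have hc0 := ne_of_re hc
  have hT := tan_sq hc0
  have hR : 0 < (RR w kl).re := r0_pos.trans t.left.Rre
  have hq : RR w kl ^ 2 + 1 - 1 / Complex.cos w ^ 2 = 1 / kl ^ 2 := by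
    rw [t.left.hinge]
    ring
  have hq2 : RR w kl ^ 2 - Complex.tan w ^ 2 = 1 / kl ^ 2 := by
    rw [← hq, ← hT]
    ring
  have hm' := t.left.mem'
  have h1 := inH_ownR (x := x) ho'
  rw [← K.symm] at h1
  have hsp : x = .s → (acot2 (Sp (RR w kl) (Complex.cos w))).re < 1 / 2 := by
    intro hx
    subst hx
    exact (Bx.sp t.left).2
  unfold trowOkN at hr
  rw [Bool.and_eq_true, Bool.and_eq_true, Bool.and_eq_true, Bool.and_eq_true, Bool.and_eq_true,
    Bool.and_eq_true, Bool.and_eq_true, Bool.and_eq_true] at hr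
  obtain ⟨hrow, ⟨⟨⟨⟨⟨⟨k1, k2⟩, k3⟩, k4⟩, k5⟩, k6⟩, k7⟩, k8⟩ := hr
  have hl : AllOk (RR w kl) (Complex.tan w) (tsN x gi mi si fi o L o' L') := by
    refine AllOk.cons ?_ (AllOk.cons (tl_ok hc0 hT (ho _ t.left.mem))
      (AllOk.cons (tr_ok (ne_of_re t.left.kre') hT hq (h1 kl hm'))
      (hL.append (hL'.append (AllOk.cons ?_ (AllOk.cons ?_ (AllOk.cons ?_ AllOk.nil)))))))
    · refine ⟨_, expY hc hR hsp _, ?_⟩
      have eH : (tYx x (gi.map GC.qi)).H = gi.map GC.qi := by cases x <;> rfl
      rw [eH]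
      intro Q hQ
      obtain ⟨g, hg, rfl⟩ := List.mem_map.1 hQ
      exact GC.imp (List.all_eq_true.1 k1 g hg) (hi g hg)
    · refine ⟨_, expI t hu hv' _, ?_⟩
      have eH : (tIx x (mi.map GC.qi)).H = mi.map GC.qi := by cases x <;> rfl
      rw [eH]
      intro Q hQ
      obtain ⟨g, hg, rfl⟩ := List.mem_map.1 hQ
      exact GC.imp (List.all_eq_true.1 k2 g hg) (hmi g hg)
    · refine ⟨_, expJ t hu hv' hsp _, ?_⟩
      have eH : (tJx x (si.map GC.qi)).H = si.map GC.qi := by cases x <;> rfl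
      rw [eH]
      intro Q hQ
      obtain ⟨g, hg, rfl⟩ := List.mem_map.1 hQ
      exact GC.imp (List.all_eq_true.1 k3 g hg) (hsi g hg)
    · refine ⟨_, expF hq2 hv _, ?_⟩
      have eH : (tFx x (fi.map GC.qi)).H = fi.map GC.qi := by cases x <;> rfl
      rw [eH]
      intro Q hQ
      obtain ⟨g, hg, rfl⟩ := List.mem_map.1 hQ
      exact GC.imp (List.all_eq_true.1 k4 g hg) (hfi g hg)
  have hm := rootT_mem hK t.left hT (tan_re t.w0 t.w1)
  refine ⟨fun g hg => ?_, fun g hg => ?_, fun g hg => ?_, fun g hg => ?_⟩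
  · have eH : (tYx x (gy.map GC.q)).H = gy.map GC.q := by cases x <;> rfl
    exact GC.spec (List.all_eq_true.1 k5 g hg) (row_sound hrow hm hl
      (g := tYx x (gy.map GC.q)) (by simp [goN]) (expY hc hR hsp _) g.q
      (by rw [eH]; exact List.mem_map_of_mem hg))
  · have eH : (tIx x (gm.map GC.q)).H = gm.map GC.q := by cases x <;> rfl
    exact GC.spec (List.all_eq_true.1 k6 g hg) (row_sound hrow hm hl
      (g := tIx x (gm.map GC.q)) (by simp [goN]) (expI t hu hv' _) g.q
      (by rw [eH]; exact List.mem_map_of_mem hg))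
  · have eH : (tJx x (gs.map GC.q)).H = gs.map GC.q := by cases x <;> rfl
    exact GC.spec (List.all_eq_true.1 k7 g hg) (row_sound hrow hm hl
      (g := tJx x (gs.map GC.q)) (by simp [goN]) (expJ t hu hv' hsp _) g.q
      (by rw [eH]; exact List.mem_map_of_mem hg))
  · have eH : (tFx x (gf.map GC.q)).H = gf.map GC.q := by cases x <;> rfl
    exact GC.spec (List.all_eq_true.1 k8 g hg) (row_sound hrow hm hl
      (g := tFx x (gf.map GC.q)) (by simp [goN]) (expF hq2 hv _) g.q
      (by rw [eH]; exact List.mem_map_of_mem hg))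

/-- the neighbour on the other side -/
lemma allLx (t : RDt K 3 x r dl ll dr rr w kl kr) {B : ℕ} (hB : crs 3 r x = B) {H : List QC}
    (hH : InH {kr} H) : AllOk (RR w kl) (Complex.tan w) (tA B H) := by
  subst hB
  have hT := tan_sq (ne_of_re t.left.kre)
  exact tA_all hT (by rw [t.left.hinge]; ring) hH (out_left t.symm)

/-- the far hinge, the digit `1` absorbed -/
lemma far_split (Bx : BoxRows K) {d : ℕ} {l : SK} {d' : ℕ} {l' : SK} {R k k' : ℂ}
    (h : HDt K .s d l d' l' R k k') : Far .s R (1 / k' ^ 2) (-acot2 (Sp R k')) := by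
  have hR : 0 < R.re := r0_pos.trans h.Rre
  have e := exp_split hR (ne_of_re h.kre') (sp_far Bx h)
  change cexp _ * (1 / k' ^ 2 - 2 + 2 * I * R) = _
  rw [← e, ← mul_assoc, ← Complex.exp_add]
  rw [show 2 * Real.pi * I * -acot2 (Sp R k') + 2 * Real.pi * I * acot2 (Sp R k') = 0 by ring,
    Complex.exp_zero, one_mul]

/-- the other hinge of a digit `1` which is not absorbed, in its own frame -/
lemma one_left (Bx : BoxRows K) (t : RDt K 1 .s .a dl ll dr rr w kl kr) :
    cexp (2 * Real.pi * I * yH .s (RR w kl) (Complex.cos w)) *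
      (1 / Complex.cos w ^ 2 - 2 + 2 * I * RR w kr) = 1 / Complex.cos w ^ 2 := by
  have hc0 := ne_of_re t.left.kre
  have hT := tan_sq hc0
  have hT0 : Complex.tan w ≠ 0 := by
    intro h
    have := t.tan_re
    rw [h] at this
    exact lt_irrefl _ this
  have hR : 0 < (RR w kl).re := r0_pos.trans t.left.Rre
  have hRI : RR w kl + I ≠ 0 := by
    intro h
    exact (ne_I_of_re hR).2 (by linear_combination h)
  have hE : cexp (2 * Real.pi * I * yH .s (RR w kl) (Complex.cos w)) *
      (Hq .s (RR w kl) (Complex.cos w) - I) = Hq .s (RR w kl) (Complex.cos w) + I := by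
    unfold yH
    rw [Hq_s]
    exact exp_acot2 (Sp_ne_I hRI hc0) (ne_nI_of_half (Bx.sp t.left).2)
  have h := t.reH
  rw [Hq_of_ne (by decide : SK.a ≠ .s)] at h
  have h1 := RE_lin (q := Complex.tan w ^ 2 + 1) Complex.I_mul_I hT0 (by ring) h.symm
  simp only [cab] at h1
  rw [← hT]
  set E := cexp (2 * Real.pi * I * yH .s (RR w kl) (Complex.cos w))
  set Y := Hq .s (RR w kl) (Complex.cos w)
  set R := RR w kr
  set T := Complex.tan w
  have h2 : Y * (1 - R * I) = T ^ 2 * I - R := by
    linear_combination h1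
  have h3 : E * (I * T ^ 2 - 2 * R - I) = I * (T ^ 2 + 1) := by
    linear_combination (1 - I * R) * hE + (1 - E) * h2 - (R * (E + 1)) * Complex.I_mul_I
  apply mul_left_cancel₀ Complex.I_ne_zero
  linear_combination h3 + (2 * R * E) * Complex.I_mul_I

end

end

end Pool.Agent.Work.MP_b30479_gt.G2.CN.TD
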