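import Pool.Agent.Work.MP_b30479_gt.G2.WLocN
import Pool.Agent.Work.MP_b30479_gt.G2.CN.TRxB
import Pool.Agent.Work.MP_b30479_gt.G2.CN.TMis

/-!
# The inner variable of a digit `3` between two digits `1`
-/

namespace Pool.Agent.Work.MP_b30479_gt.G2.CN.TD

open Complex SR
open scoped ComplexConjugate

noncomputable section

section
variable {K : KFam} {x r : SK} {dl : ℕ} {ll : SK} {dr : ℕ} {rr : SK} {w kl kr v : ℂ}

/-- a lower bound from a row -/
lemma lo_of {m c : ℤ} {A B C : Prop} {z : ℂ}
    (h : A ∧ (∀ g ∈ [GC.lo m c], g.P z) ∧ B ∧ C) : (m : ℝ) / 10000 ≤ z.im :=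
  h.2.1 _ List.mem_cons_self

/-- a given lower bound -/
lemma fi_lo {m c : ℤ} {z : ℂ} (h : (m : ℝ) / 10000 ≤ z.im) : ∀ g ∈ [GC.lo m c], g.G z := by
  intro g hg
  rw [List.mem_singleton] at hg
  subst hg
  exact h

lemma allK (hK : KOK K) (t : RDt K 3 x .a dl ll 1 rr w kl kr) {B : ℕ} (hB : crs 3 .a x = B) :
    AllOk (RR w kl) (Complex.tan w) (tA B (mirH k2as)) := by
  have h1 := t.right.ok.right.symm
  have hr : rr = .s := far_s t.right.ok.right
  subst hr
  refine allLx t hB ?_
  intro k hk
  rw [Set.mem_singleton_iff] at hk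
  subst hk
  exact (hK.inH h1 k2as_ok).mir _ (by rw [K.symm]; exact t.right.mem')

lemma allS (hK : KOK K) (t : RDt K 3 x .s dl ll dr rr w kl kr) {B : ℕ} (hB : crs 3 .s x = B) :
    AllOk (RR w kl) (Complex.tan w) (tA B PS3) := by
  subst hB
  have hT := tan_sq (ne_of_re t.left.kre)
  exact OL.s le_rfl hK hT (by rw [t.left.hinge]; ring) t.left.out

/-- the digit `1` at the first slot absorbed, a digit `1` behind it -/
theorem m1_s1 (hK : KOK K) (Bx : BoxRows K) (t : RDt K 3 .s r 1 ll dr rr w kl kr)
    (hr : r = .s ∨ (r = .a ∧ dr = 1)) (hv : Far .s (RR w kl) (1 / kl ^ 2) v) :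
    -(78 / 1000) ≤ (mH .s (RR w kl) (Complex.cos w)).im ∧
      (-(20 / 1000) ≤ v.im → -(69 / 1000) ≤ (mH .s (RR w kl) (Complex.cos w)).im) := by
  have h2 := t.left.ok.right.symm
  have ho := t.left.ok.left
  have hT := tan_sq (ne_of_re t.left.kre)
  have hq : RR w kl ^ 2 + 1 - 1 / Complex.cos w ^ 2 = 1 / kl ^ 2 := by
    rw [t.left.hinge]
    ring
  have f : -(20 / 1000) ≤ v.im → ((-200 : ℤ) : ℝ) / 10000 ≤ v.im := by
    intro h
    norm_num
    linarith only [h]
  cases ll
  · exact absurd rfl (h2.one rfl).2.1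
  · have hD : AllOk (RR w kl) (Complex.tan w) (tD .s 2 (mirH PA1)) :=
      OR.a1 (le_refl 1) hK hT hq t.left.out'
    have hn := hK.inH h2 k2as_ok
    rcases hr with rfl | ⟨rfl, rfl⟩
    · constructor
      · have g := lo_of (tuseN hK Bx t hv n1_A1a_s mn mn mn mn (hK.inH ho k5ss_ok) hn
          (allS hK t rfl) hD)
        norm_num at g
        linarith only [g]
      · intro h
        have g := lo_of (tuseN hK Bx t hv n1_A1a_st mn mn mn (fi_lo (f h)) (hK.inH ho k5ss_ok) hn
          (allS hK t rfl) hD)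
        norm_num at g
        linarith only [g]
    · constructor
      · have g := lo_of (tuseN hK Bx t hv n1_A1a_a mn mn mn mn (hK.inH ho k4as_ok) hn
          (allK hK t rfl) hD)
        norm_num at g
        linarith only [g]
      · intro h
        have g := lo_of (tuseN hK Bx t hv n1_A1a_at mn mn mn (fi_lo (f h)) (hK.inH ho k4as_ok) hn
          (allK hK t rfl) hD)
        norm_num at g
        linarith only [g]
  · exact absurd (h2.zl rfl) (by norm_num)
  · have hD : AllOk (RR w kl) (Complex.tan w) (tD .s 3 PS2) :=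
      OR.s hK hT hq t.left.out'
    have hn := hK.inH h2 k3ss_ok
    rcases hr with rfl | ⟨rfl, rfl⟩
    · have g := lo_of (tuseN hK Bx t hv n1_A1s_s mn mn mn mn (hK.inH ho k5ss_ok) hn
        (allS hK t rfl) hD)
      norm_num at g
      exact ⟨by linarith only [g], fun _ => by linarith only [g]⟩
    · have g := lo_of (tuseN hK Bx t hv n1_A1s_a mn mn mn mn (hK.inH ho k4as_ok) hn
        (allK hK t rfl) hD)
      norm_num at g
      exact ⟨by linarith only [g], fun _ => by linarith only [g]⟩

/-- the digit `1` at the first slot absorbed, a digit `2` behind it -/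
theorem m1_s2 (hK : KOK K) (Bx : BoxRows K) (t : RDt K 3 .s r 2 ll dr rr w kl kr) (hl : ll ≠ .e)
    (hr : r = .s ∨ (r = .a ∧ dr = 1)) (hv : Far .s (RR w kl) (1 / kl ^ 2) v) :
    -(58 / 1000) ≤ (mH .s (RR w kl) (Complex.cos w)).im ∧
      (45 / 1000 ≤ v.im → -(51 / 1000) ≤ (mH .s (RR w kl) (Complex.cos w)).im) := by
  have h2 := t.left.ok.right.symm
  have ho := t.left.ok.left
  have hT := tan_sq (ne_of_re t.left.kre)
  have hq : RR w kl ^ 2 + 1 - 1 / Complex.cos w ^ 2 = 1 / kl ^ 2 := by
    rw [t.left.hinge]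
    ring
  have f : 45 / 1000 ≤ v.im → ((450 : ℤ) : ℝ) / 10000 ≤ v.im := by
    intro h
    norm_num
    linarith only [h]
  cases ll
  · exact absurd rfl hl
  · have hD : AllOk (RR w kl) (Complex.tan w) (tD .s 3 (mirH PA2)) :=
      OR.a hK hT hq t.left.out'
    have hn := hK.inH h2 k3as_ok
    rcases hr with rfl | ⟨rfl, rfl⟩
    · constructor
      · have g := lo_of (tuseN hK Bx t hv n1_A2a_s mn mn mn mn (hK.inH ho k5ss_ok) hn
          (allS hK t rfl) hD)
        norm_num at g
        linarith only [g]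
      · intro h
        have g := lo_of (tuseN hK Bx t hv n1_A2a_st mn mn mn (fi_lo (f h)) (hK.inH ho k5ss_ok) hn
          (allS hK t rfl) hD)
        norm_num at g
        linarith only [g]
    · constructor
      · have g := lo_of (tuseN hK Bx t hv n1_A2a_a mn mn mn mn (hK.inH ho k4as_ok) hn
          (allK hK t rfl) hD)
        norm_num at g
        linarith only [g]
      · intro h
        have g := lo_of (tuseN hK Bx t hv n1_A2a_at mn mn mn (fi_lo (f h)) (hK.inH ho k4as_ok) hn
          (allK hK t rfl) hD)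
        norm_num at g
        linarith only [g]
  · exact absurd (h2.zl rfl) (by norm_num)
  · have hD : AllOk (RR w kl) (Complex.tan w) (tD .s 4 PS2) :=
      OR.s hK hT hq t.left.out'
    have hn := hK.inH h2 k4ss_ok
    rcases hr with rfl | ⟨rfl, rfl⟩
    · constructor
      · have g := lo_of (tuseN hK Bx t hv n1_A2s_s mn mn mn mn (hK.inH ho k5ss_ok) hn
          (allS hK t rfl) hD)
        norm_num at g
        linarith only [g]
      · intro h
        have g := lo_of (tuseN hK Bx t hv n1_A2s_st mn mn mn (fi_lo (f h)) (hK.inH ho k5ss_ok) hn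
          (allS hK t rfl) hD)
        norm_num at g
        linarith only [g]
    · constructor
      · have g := lo_of (tuseN hK Bx t hv n1_A2s_a mn mn mn mn (hK.inH ho k4as_ok) hn
          (allK hK t rfl) hD)
        norm_num at g
        linarith only [g]
      · intro h
        have g := lo_of (tuseN hK Bx t hv n1_A2s_at mn mn mn (fi_lo (f h)) (hK.inH ho k4as_ok) hn
          (allK hK t rfl) hD)
        norm_num at g
        linarith only [g]

/-- the digit `1` at the first slot not absorbed -/
theorem m1_a (hK : KOK K) (Bx : BoxRows K) (t : RDt K 3 .a r 1 .s dr rr w kl kr)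
    (hr : r = .s ∨ (r = .a ∧ dr = 1)) (hv : Far .a (RR w kl) (1 / kl ^ 2) v) :
    -(78 / 1000) ≤ (mH .a (RR w kl) (Complex.cos w)).im ∧
      (-(20 / 1000) ≤ v.im → -(69 / 1000) ≤ (mH .a (RR w kl) (Complex.cos w)).im) := by
  have h2 := t.left.ok.right.symm
  have ho := t.left.ok.left
  have hT := tan_sq (ne_of_re t.left.kre)
  have hq : RR w kl ^ 2 + 1 - 1 / Complex.cos w ^ 2 = 1 / kl ^ 2 := by
    rw [t.left.hinge]
    ring
  have f : -(20 / 1000) ≤ v.im → ((-200 : ℤ) : ℝ) / 10000 ≤ v.im := by
    intro h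
    norm_num
    linarith only [h]
  have hD : AllOk (RR w kl) (Complex.tan w) (tD .a 2 PST) :=
    OR.st (by decide) hK hT hq t.left.out'
  have hn := hK.inH h2 k2as_ok
  rcases hr with rfl | ⟨rfl, rfl⟩
  · constructor
    · have g := lo_of (tuseN hK Bx t hv n1_B_s mn mn mn mn (hK.inH ho k4as_ok) hn
        (allS hK t rfl) hD)
      norm_num at g
      linarith only [g]
    · intro h
      have g := lo_of (tuseN hK Bx t hv n1_B_st mn mn mn (fi_lo (f h)) (hK.inH ho k4as_ok) hn
        (allS hK t rfl) hD)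
      norm_num at g
      linarith only [g]
  · constructor
    · have g := lo_of (tuseN hK Bx t hv n1_B_a mn mn mn mn (hK.inH ho k3aa_ok) hn
        (allK hK t rfl) hD)
      norm_num at g
      linarith only [g]
    · intro h
      have g := lo_of (tuseN hK Bx t hv n1_B_at mn mn mn (fi_lo (f h)) (hK.inH ho k3aa_ok) hn
        (allK hK t rfl) hD)
      norm_num at g
      linarith only [g]

end

section
variable {M : ℕ} {b : Fin (M + 1) → ℤ} {w : ℕ → ℂ}
variable (hb : ClassW b) (F : RingFacts) (hw : Sol b w)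
include hb F hw

/-- the hinge on the left, seen from the region on the left -/
lemma flip_left {n : ℕ} (h0 : 0 < n) (hn : n ≤ M) (hu : us b n = false)
    (hv : us b (n - 1) = false) :
    RR (oW b w n) (oL b w n) =
      fz (lk b n).sgn (RR (oW b w (n - 1)) (oR b w (n - 1))) ∧
      oL b w n = fz (lk b n).sgn (Complex.cos (oW b w (n - 1))) := by
  have h1 := ln_spec hb h0 hu
  have hln : ln b n = n - 1 := by
    unfold ln
    rw [if_neg (by rw [hv]; decide)]
  have hrs := sg_rk hb (n := ln b n) (by omega) h1.2.1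
  rw [h1.2.2, rk_ln hb h0 hu hn] at hrs
  have hss : (lk b n).sgn * sg b (ln b n) = sg b n := by
    rw [← hrs]
    have := sg_mul_self (b := b) (ln b n)
    linear_combination (sg b n) * this
  rw [hln] at hss
  constructor
  · have e1 : RR (oW b w n) (oL b w n) = fz (sg b n) (R0 b w (n - 1)) := by
      unfold oW oL
      rw [← fz_R0_left hb F hw h0 hn hu, hln]
    have e2 : RR (oW b w (n - 1)) (oR b w (n - 1)) = fz (sg b (n - 1)) (R0 b w (n - 1)) := by
      unfold oW oR
      rw [← fz_R0_right hw (by omega) hv]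
    rw [e1, e2, ← fz_mul (SK.sgn_or _) (sg_or _), hss]
  · unfold oL oW
    rw [hln, ← fz_cos, ← fz_mul (SK.sgn_or _) (sg_or _), hss]

/-- the far hinge of an absorbed digit on the left -/
lemma far_abs {K : KFam} (hS : Snd K b w) {n : ℕ} (h2 : 2 ≤ n) (hn : n ≤ M)
    (hu : us b n = false) (hv : us b (n - 1) = true) :
    fz (sg b (n - 1)) (acot2 (Rh b w (n - 2))) =
      conj (acot2 (Sp (RR (oW b w n) (oL b w n)) (oL b w n))) := by
  obtain ⟨m, rfl⟩ : ∃ m, n = m + 2 := ⟨n - 2, by omega⟩
  have hv' : us b (m + 1) = true := hv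
  obtain ⟨hH, e1, -⟩ := absd_nat hb F hw hS hv'
  obtain ⟨g1, g2, g3, g4⟩ := us_true hv'
  rw [show m + 1 - 1 = m by omega] at g3
  have hrk : rk b m = .s := rk_s (by omega) hv'
  have hrn : rn b m = m + 2 := by
    unfold rn
    rw [if_pos hv']
  have hsg : sg b m * sg b (m + 2) = 1 := by
    have := sg_rk hb (n := m) (by omega) g3
    rw [hrk, hrn] at this
    exact this
  have hss : sg b (m + 2) = sg b m := by
    rcases sg_or (b := b) m with h | h <;> rcases sg_or (b := b) (m + 2) with h' | h' <;>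
      rw [h, h'] at hsg ⊢ <;> norm_num at hsg
  have hln : ln b (m + 2) = m := by
    unfold ln
    rw [show m + 2 - 1 = m + 1 by omega, if_pos hv']
    omega
  have eR : RR (oW b w (m + 2)) (oL b w (m + 2)) = RR (oW b w m) (oR b w m) := by
    unfold oW oL oR
    rw [← fz_R0_left hb F hw (by omega) (by omega) (by simpa using g4), hln, hss,
      fz_R0_right hw (by omega) g3]
  have eC : oL b w (m + 2) = Complex.cos (oW b w m) := by
    unfold oL oW
    rw [hln, hss, fz_cos]
  rw [show m + 2 - 1 = m + 1 by omega, show m + 2 - 2 = m by omega, e1, ← eR, ← eC]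

end

lemma cK_m1 {d : ℕ} {l : SK} (h : cK d l = .one) : d = 1 := by
  unfold cK at h
  split_ifs at h with h1
  exact h1

lemma cK_m2 {d : ℕ} {l : SK} (h : cK d l = .two) : d = 2 ∧ l ≠ .e := by
  unfold cK at h
  split_ifs at h with h1 h2 h3
  · exact ⟨h2, h3⟩

lemma nC_one {x : SK} {d : ℕ} {l : SK} (h : nC x d l = .one) : x = .s ∨ d = 1 := by
  unfold nC at h
  split_ifs at h with hx
  · exact Or.inl hx
  · exact Or.inr (cK_m1 h)

section
variable {M : ℕ} {b : Fin (M + 1) → ℤ} {w : ℕ → ℂ}
variable (hb : ClassW b) (F : RingFacts) (hw : Sol b w) {K : KFam} (hK : KOK K)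
  (hS : Snd K b w) (Bx : BoxRows K)
include hb F hw hK hS Bx

/-- all cases -/
theorem m1_word {h h' h2 : Fin M} {i j k r : Fin (M + 1)} (hm : (tyW b i).isMid = true)
    (A : Adj h i 0 j) (A' : Adj h' i 2 k) (A3 : Adj h2 j 0 r) (hi : clsW b i = .three)
    (hj : clsW b j = .one) (hk : clsW b k = .one) :
    (clsW b r = .one → -(78 / 1000) ≤ ofs (b i) (zsW b w (.inl (.inr ⟨i, hm⟩))).im ∧
      (-(20 / 1000) ≤ ofs (b j) (zsW b w (.inl (.inl h2))).im →
        -(69 / 1000) ≤ ofs (b i) (zsW b w (.inl (.inr ⟨i, hm⟩))).im)) ∧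
    (clsW b r = .two → -(58 / 1000) ≤ ofs (b i) (zsW b w (.inl (.inr ⟨i, hm⟩))).im ∧
      (45 / 1000 ≤ ofs (b j) (zsW b w (.inl (.inl h2))).im →
        -(51 / 1000) ≤ ofs (b i) (zsW b w (.inl (.inr ⟨i, hm⟩))).im)) := by
  have h3 := three_nat hi
  have hui : us b i.val = false := us_of_abs (by omega)
  have e : i.val = h.val + 1 ∧ j.val = h.val := by
    rcases A.elim with ⟨h0, -⟩ | ⟨-, h1⟩
    · exact absurd h0 (by decide)
    · exact h1
  have e3 : i.val = h'.val ∧ k.val = h'.val + 1 := by
    rcases A'.elim with ⟨-, h1⟩ | ⟨h0, -⟩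
    · exact h1
    · exact absurd h0 (by decide)
  have e2 : j.val = h2.val + 1 ∧ r.val = h2.val := by
    rcases A3.elim with ⟨h0, -⟩ | ⟨-, h1⟩
    · exact absurd h0 (by decide)
    · exact h1
  have hh := h'.2
  have hE := rdt hb F hw hS (n := i.val) (by omega) (by omega) hui
  have em : ofr (b i) (zsW b w (.inl (.inr ⟨i, hm⟩))) =
      mH (lk b i.val) (RR (oW b w i.val) (oL b w i.val)) (Complex.cos (oW b w i.val)) := by
    have ez : zsW b w (.inl (.inr ⟨i, hm⟩)) = acot2 (Rm b w i.val) := rfl
    rw [ez, ofr_fz, ← acot2_fz, own_mid hb F hw (n := i.val) (by omega) (by omega) hui]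
    rfl
  rw [← ofr_im, ← ofr_im, em]
  rw [dg_val, h3] at hE
  have hr : rk b i.val = .s ∨ (rk b i.val = .a ∧ dg b (rn b i.val) = 1) := by
    have c2 := cls_right (b := b) (i := i) (j := k) (by omega)
    rw [hk] at c2
    rcases nC_one c2.symm with h4 | h4
    · exact Or.inl h4
    · rcases M3.kinds hE.right with h5 | h5
      · exact Or.inr ⟨h5, h4⟩
      · exact Or.inl h5
  have sd := sd_left (b := b) A
  have hj1 : (b j).natAbs = 1 := by
    unfold clsW cls at hj
    split_ifs at hj with h1
    exact h1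
  rcases Bool.eq_false_or_eq_true (us b j.val) with huj | huj
  · -- absorbed
    have hx := sd.s huj
    obtain ⟨hd, hc⟩ := sd.far A3 huj
    have hv : Far .s (RR (oW b w i.val) (oL b w i.val)) (1 / oL b w i.val ^ 2)
        (-acot2 (Sp (RR (oW b w i.val) (oL b w i.val)) (oL b w i.val))) := by
      have h4 := hE.left
      rw [hx] at h4
      exact far_split Bx h4
    have ef : (ofr (b j) (zsW b w (.inl (.inl h2)))).im =
        (-acot2 (Sp (RR (oW b w i.val) (oL b w i.val)) (oL b w i.val))).im := by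
      have h5 := far_abs hb F hw hS (n := i.val) (by omega) (by omega) hui
        (by rwa [show i.val - 1 = j.val by omega])
      rw [show i.val - 1 = j.val by omega, show i.val - 2 = h2.val by omega] at h5
      rw [ofr_fz, zsW_val h2 (n := h2.val) rfl, h5, Complex.conj_im, Complex.neg_im]
    rw [ef]
    rw [hx] at hE ⊢
    constructor
    · intro hc1
      rw [hc1] at hc
      have h6 := cK_m1 hc.symm
      rw [h6] at hE
      exact m1_s1 hK Bx hE hr hv
    · intro hc1
      rw [hc1] at hc
      obtain ⟨h6, h7⟩ := cK_m2 hc.symm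
      rw [h6] at hE
      exact m1_s2 hK Bx hE h7 hr hv
  · -- not absorbed
    obtain ⟨hd, hx⟩ := sd.u huj
    have hop : b i * b j < 0 := A.opp hb (Or.inl (by rw [hi]; decide))
    rw [if_neg (by omega)] at hx
    have hur : us b r.val = true := by
      by_contra hc
      rw [Bool.not_eq_true] at hc
      have h5 : us b (h2.val + 1) = true := by
        rw [us_succ, Bool.and_eq_true, decide_eq_true_eq, Bool.not_eq_true']
        refine ⟨?_, by rwa [← e2.2]⟩
        rw [← e2.1, bb_val, hj1]
      rw [← e2.1, huj] at h5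
      exact absurd h5 (by decide)
    have hl := (sd.kd A3 huj).1 hur
    have hcr : clsW b r = .one := by
      have h6 := (us_true hur).2.1
      rw [bb_val] at h6
      unfold clsW cls
      rw [if_pos h6]
    have hjM := j.2
    -- the region `j`
    have hj0 : 0 < j.val := by omega
    have hEj := rdt hb F hw hS (n := j.val) hj0 (by omega) huj
    rw [dg_val, hj1] at hEj
    have hlj : lk b j.val = .s := (sd_left (b := b) A3).s hur
    have hrj : rk b j.val = .a := by
      have sd2 := sd_right (b := b) (A.symm : Adj h j 2 i)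
      rw [(sd2.u hui).2, if_neg (by rw [mul_comm]; omega)]
    rw [hlj, hrj] at hEj
    obtain ⟨f1, f2⟩ := flip_left hb F hw (n := i.val) (by omega) (by omega) hui
      (by rwa [show i.val - 1 = j.val by omega])
    rw [hx, show i.val - 1 = j.val by omega] at f1 f2
    have f1' : RR (oW b w i.val) (oL b w i.val) = conj (RR (oW b w j.val) (oR b w j.val)) := by
      rw [f1]
      exact fz_neg _
    have f2' : oL b w i.val = conj (Complex.cos (oW b w j.val)) := by
      rw [f2]
      exact fz_neg _
    have key : cexp (2 * Real.pi * I * yH .s (RR (oW b w j.val) (oL b w j.val))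
        (Complex.cos (oW b w j.val))) * (1 / Complex.cos (oW b w j.val) ^ 2 - 2 +
          2 * I * RR (oW b w j.val) (oR b w j.val)) = 1 / Complex.cos (oW b w j.val) ^ 2 :=
      one_left Bx hEj
    have ey := own_y_left hb F hw (n := j.val) hj0 (by omega) huj
    rw [hlj] at ey
    set y := yH .s (RR (oW b w j.val) (oL b w j.val)) (Complex.cos (oW b w j.val)) with hy
    have hv : Far .a (RR (oW b w i.val) (oL b w i.val)) (1 / oL b w i.val ^ 2) (-conj y) := by
      change cexp _ * (_ - 2 - 2 * I * _) = _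
      rw [f1', f2']
      have h7 := congrArg (starRingEnd ℂ) key
      rw [map_mul, ← Complex.exp_conj] at h7
      simp only [map_mul, map_add, map_sub, map_div₀, map_pow, map_one, Complex.conj_I,
        Complex.conj_ofReal, map_ofNat] at h7
      rw [show 2 * Real.pi * I * -conj y = 2 * Real.pi * -I * conj y by ring]
      linear_combination h7
    have ef : (ofr (b j) (zsW b w (.inl (.inl h2)))).im = (-conj y).im := by
      rw [ofr_fz, zsW_val h2 (n := j.val - 1) (by omega), ey, Complex.neg_im, Complex.conj_im,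
        neg_neg]
    rw [ef]
    rw [hx, hd, hj1, hl] at hE
    rw [hx]
    constructor
    · intro _
      exact m1_a hK Bx hE hr hv
    · intro h8
      rw [hcr] at h8
      exact absurd h8 (by decide)

/-- **The inner variable of a digit `3` of a word between two digits `1`.** -/
theorem locM1_of : LocM1 b (zsW b w) where
  one0 hm A A' A3 hi hj hk hr := ((m1_word hb F hw hK hS Bx hm A A' A3 hi hj hk).1 hr).1
  one1 hm A A' A3 hi hj hk hr := ((m1_word hb F hw hK hS Bx hm A A' A3 hi hj hk).1 hr).2
  two0 hm A A' A3 hi hj hk hr := ((m1_word hb F hw hK hS Bx hm A A' A3 hi hj hk).2 hr).1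
  two1 hm A A' A3 hi hj hk hr := ((m1_word hb F hw hK hS Bx hm A A' A3 hi hj hk).2 hr).2

end

end

end Pool.Agent.Work.MP_b30479_gt.G2.CN.TD
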