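import Pool.Agent.Work.MP_b30479_gt.G2.CN.TAlt

/-!
# Conditions for rings with four crossings
-/

namespace Pool.Agent.Work.MP_b30479_gt.G2.CN.TD

open Complex SR

/-- rings -/
def loZa (l : SK) : ℕ := match l with | .s => 5 | _ => 4

theorem nZa_ok : chkU nZa .a loZa (fun _ => 8) = true := by decide +kernel

lemma in_nZa {K : KFam} (hK : KOK K) {d' : ℕ} {l' : SK} (h : ROK d' l' .a) (hc : 4 ≤ d') :
    InH (K.K d' l' .a) nZa := by
  intro k hk
  refine hK.inU h nZa_ok ?_ (min_le_right _ _) k hk
  unfold crs
  cases l' <;> simp only [SK.u, loZa] <;> omega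

theorem al4e1_st : stair 4380 al4e1 = true := by decide
theorem al4e2_st : stair 4020 al4e2 = true := by decide
theorem al4e2e_st : stair 3700 al4e2e = true := by decide
theorem al4e3_st : stair 3850 al4e3 = true := by decide
theorem al4e3e_st : stair 3670 al4e3e = true := by decide
theorem al4eZ_st : stair 3820 al4eZ = true := by decide
theorem al4eZs_st : stair 3820 al4eZs = true := by decide
theorem al4i1_st : stair 4150 al4i1 = true := by decide
theorem al4i2_st : stair 3750 al4i2 = true := by decide
theorem al4i2e_st : stair 3290 al4i2e = true := by decide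
theorem al4i3_st : stair 3560 al4i3 = true := by decide
theorem al4i3e_st : stair 3320 al4i3e = true := by decide
theorem al4iZ_st : stair 3560 al4iZ = true := by decide
theorem al4iZs_st : stair 3560 al4iZs = true := by decide

end Pool.Agent.Work.MP_b30479_gt.G2.CN.TD
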