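import Pool.Agent.Work.MP_b30479_gt.G2.WLocO
import Pool.Agent.Work.MP_b30479_gt.G2.CN.LocM1
import Pool.Agent.Work.MP_b30479_gt.G2.CN.TRxD
import Pool.Agent.Work.MP_b30479_gt.G2.CN.TRxG
import Pool.Agent.Work.MP_b30479_gt.G2.CN.TRxI
import Pool.Agent.Work.MP_b30479_gt.G2.CN.TDatd

/-!
# The inner variable of a digit `3` next to a digit `1` at the first slot
-/

namespace Pool.Agent.Work.MP_b30479_gt.G2.CN.TD

open Complex SR
open scoped ComplexConjugate

noncomputable section

/-- the windows from the conditions of a row -/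
lemma mw_mn {c : MWin} {y0 y1 t0 t1 s0 s1 c1 c2 c3 c4 c5 c6 : ℤ} {y m : ℂ} {C : Prop}
    (e : c = ⟨(t0 : ℝ) / 10000, (t1 : ℝ) / 10000, (s0 : ℝ) / 10000, (s1 : ℝ) / 10000,
      (y0 : ℝ) / 10000, (y1 : ℝ) / 10000⟩)
    (h : (∀ g ∈ [GC.lo y0 c1, GC.hi y1 c2], g.P y) ∧
      (∀ g ∈ [GC.lo t0 c3, GC.hi t1 c4], g.P m) ∧
      (∀ g ∈ [GC.lo s0 c5, GC.hi s1 c6], g.P (m - y)) ∧ C) : c.In m.im y.im := by
  obtain ⟨hy, hm, hs, -⟩ := h
  subst e
  have a1 := hs _ m0
  have a2 := hs _ m1
  change _ ≤ (m - y).im at a1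
  change (m - y).im ≤ _ at a2
  rw [Complex.sub_im] at a1 a2
  exact ⟨hm _ m0, hm _ m1, a1, a2, hy _ m0, hy _ m1⟩

section
variable {K : KFam} {r : SK} {dr : ℕ} {rr : SK} {w kl kr v : ℂ}

theorem m3_A1s (hK : KOK K) (Bx : BoxRows K) (t : RDt K 3 .s r 1 .s dr rr w kl kr)
    (hr : r = .s ∨ (r = .a ∧ dr ≠ 1)) (hv : Far .s (RR w kl) (1 / kl ^ 2) v) :
    (mw3 false (nC r dr rr)).In (mH .s (RR w kl) (Complex.cos w)).im
      (yH .s (RR w kl) (Complex.cos w)).im := by
  have h1 := t.right.ok.right.symm
  have h2 := t.left.ok.right.symm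
  have ho := t.left.ok.left
  have hT := tan_sq (ne_of_re t.left.kre)
  have hq : RR w kl ^ 2 + 1 - 1 / Complex.cos w ^ 2 = 1 / kl ^ 2 := by
    rw [t.left.hinge]
    ring
  have hD := (OR.s : OR .s 1 3 .s _) hK hT hq t.left.out'
  have hn := hK.inH h2 k3ss_ok
  rcases hr with rfl | ⟨rfl, hr1⟩
  · have e : nC .s dr rr = .one := rfl
    rw [e]
    exact mw_mn (by norm_num [mw3]) (tuseN hK Bx t hv m3_A1s_1 mn mn mn mn
      (hK.inH ho k5ss_ok) hn (allS hK t rfl) hD)
  · have e : nC .a dr rr = cK dr rr := rfl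
    rw [e]
    have kA : ∀ {H : List QC}, InH (K.K dr rr .a) H → InH {kr} (mirH H) := by
      intro H hH k hk
      rw [Set.mem_singleton_iff] at hk
      subst hk
      exact hH.mir _ (by rw [K.symm]; exact t.right.mem')
    have hpos := h1.pos
    rcases Nat.lt_or_ge dr 4 with h4 | h4
    · have h5 : dr = 2 ∨ dr = 3 := by omega
      rcases h5 with rfl | rfl
      · cases rr
        · have e : cK 2 .e = .twoE := rfl
          rw [e]
          exact mw_mn (by norm_num [mw3]) (tuseN hK Bx t hv m3_A1s_2e mn mn mn mn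
            (hK.inH ho k4as_ok) hn (allLx t rfl (kA (hK.inH h1 k2ea_ok))) hD)
        · have e : cK 2 .a = .two := rfl
          rw [e]
          exact mw_mn (by norm_num [mw3]) (tuseN hK Bx t hv m3_A1s_2a mn mn mn mn
            (hK.inH ho k4as_ok) hn (allLx t rfl (kA (hK.inH h1 k2aa_ok))) hD)
        · exact absurd (h1.zl rfl) (by norm_num)
        · have e : cK 2 .s = .two := rfl
          rw [e]
          exact mw_mn (by norm_num [mw3]) (tuseN hK Bx t hv m3_A1s_2s mn mn mn mn
            (hK.inH ho k4as_ok) hn (allLx t rfl (kA (hK.inH h1 k3as_ok))) hD)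
      · cases rr
        · have e : cK 3 .e = .threeE := rfl
          rw [e]
          exact mw_mn (by norm_num [mw3]) (tuseN hK Bx t hv m3_A1s_3e mn mn mn mn
            (hK.inH ho k4as_ok) hn (allLx t rfl (kA (hK.inH h1 k3ea_ok))) hD)
        · have e : cK 3 .a = .three := rfl
          rw [e]
          exact mw_mn (by norm_num [mw3]) (tuseN hK Bx t hv m3_A1s_3a mn mn mn mn
            (hK.inH ho k4as_ok) hn (allLx t rfl (kA (hK.inH h1 k3aa_ok))) hD)
        · exact absurd (h1.zl rfl) (by norm_num)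
        · have e : cK 3 .s = .three := rfl
          rw [e]
          exact mw_mn (by norm_num [mw3]) (tuseN hK Bx t hv m3_A1s_3s mn mn mn mn
            (hK.inH ho k4as_ok) hn (allLx t rfl (kA (hK.inH h1 k4as_ok))) hD)
    · rw [cK_ring h4]
      exact mw_mn (by norm_num [mw3]) (tuseN hK Bx t hv m3_A1s_Z mn mn mn mn
        (hK.inH ho k4as_ok) hn (allLx t rfl (kA (in_nZa hK h1 h4))) hD)

theorem m3_B (hK : KOK K) (Bx : BoxRows K) (t : RDt K 3 .a r 1 .s dr rr w kl kr)
    (hr : r = .s ∨ (r = .a ∧ dr ≠ 1)) (hv : Far .a (RR w kl) (1 / kl ^ 2) v) :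
    (mw3 false (nC r dr rr)).In (mH .a (RR w kl) (Complex.cos w)).im
      (yH .a (RR w kl) (Complex.cos w)).im := by
  have h1 := t.right.ok.right.symm
  have h2 := t.left.ok.right.symm
  have ho := t.left.ok.left
  have hT := tan_sq (ne_of_re t.left.kre)
  have hq : RR w kl ^ 2 + 1 - 1 / Complex.cos w ^ 2 = 1 / kl ^ 2 := by
    rw [t.left.hinge]
    ring
  have hD := (OR.st (by decide) : OR .a 1 2 .s _) hK hT hq t.left.out'
  have hn := hK.inH h2 k2as_ok
  rcases hr with rfl | ⟨rfl, hr1⟩
  · have e : nC .s dr rr = .one := rfl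
    rw [e]
    exact mw_mn (by norm_num [mw3]) (tuseN hK Bx t hv m3_B_1 mn mn mn mn
      (hK.inH ho k4as_ok) hn (allS hK t rfl) hD)
  · have e : nC .a dr rr = cK dr rr := rfl
    rw [e]
    have kA : ∀ {H : List QC}, InH (K.K dr rr .a) H → InH {kr} (mirH H) := by
      intro H hH k hk
      rw [Set.mem_singleton_iff] at hk
      subst hk
      exact hH.mir _ (by rw [K.symm]; exact t.right.mem')
    have hpos := h1.pos
    rcases Nat.lt_or_ge dr 4 with h4 | h4
    · have h5 : dr = 2 ∨ dr = 3 := by omega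
      rcases h5 with rfl | rfl
      · cases rr
        · have e : cK 2 .e = .twoE := rfl
          rw [e]
          exact mw_mn (by norm_num [mw3]) (tuseN hK Bx t hv m3_B_2e mn mn mn mn
            (hK.inH ho k3aa_ok) hn (allLx t rfl (kA (hK.inH h1 k2ea_ok))) hD)
        · have e : cK 2 .a = .two := rfl
          rw [e]
          exact mw_mn (by norm_num [mw3]) (tuseN hK Bx t hv m3_B_2a mn mn mn mn
            (hK.inH ho k3aa_ok) hn (allLx t rfl (kA (hK.inH h1 k2aa_ok))) hD)
        · exact absurd (h1.zl rfl) (by norm_num)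
        · have e : cK 2 .s = .two := rfl
          rw [e]
          exact mw_mn (by norm_num [mw3]) (tuseN hK Bx t hv m3_B_2s mn mn mn mn
            (hK.inH ho k3aa_ok) hn (allLx t rfl (kA (hK.inH h1 k3as_ok))) hD)
      · cases rr
        · have e : cK 3 .e = .threeE := rfl
          rw [e]
          exact mw_mn (by norm_num [mw3]) (tuseN hK Bx t hv m3_B_3e mn mn mn mn
            (hK.inH ho k3aa_ok) hn (allLx t rfl (kA (hK.inH h1 k3ea_ok))) hD)
        · have e : cK 3 .a = .three := rfl
          rw [e]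
          exact mw_mn (by norm_num [mw3]) (tuseN hK Bx t hv m3_B_3a mn mn mn mn
            (hK.inH ho k3aa_ok) hn (allLx t rfl (kA (hK.inH h1 k3aa_ok))) hD)
        · exact absurd (h1.zl rfl) (by norm_num)
        · have e : cK 3 .s = .three := rfl
          rw [e]
          exact mw_mn (by norm_num [mw3]) (tuseN hK Bx t hv m3_B_3s mn mn mn mn
            (hK.inH ho k3aa_ok) hn (allLx t rfl (kA (hK.inH h1 k4as_ok))) hD)
    · rw [cK_ring h4]
      exact mw_mn (by norm_num [mw3]) (tuseN hK Bx t hv m3_B_Z mn mn mn mn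
        (hK.inH ho k3aa_ok) hn (allLx t rfl (kA (in_nZa hK h1 h4))) hD)

theorem m3_A2a (hK : KOK K) (Bx : BoxRows K) (t : RDt K 3 .s r 2 .a dr rr w kl kr)
    (hr : r = .s ∨ (r = .a ∧ dr ≠ 1)) (hv : Far .s (RR w kl) (1 / kl ^ 2) v) :
    (mw3 true (nC r dr rr)).In (mH .s (RR w kl) (Complex.cos w)).im
      (yH .s (RR w kl) (Complex.cos w)).im := by
  have h1 := t.right.ok.right.symm
  have h2 := t.left.ok.right.symm
  have ho := t.left.ok.left
  have hT := tan_sq (ne_of_re t.left.kre)
  have hq : RR w kl ^ 2 + 1 - 1 / Complex.cos w ^ 2 = 1 / kl ^ 2 := by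
    rw [t.left.hinge]
    ring
  have hD := (OR.a : OR .s 2 3 .a _) hK hT hq t.left.out'
  have hn := hK.inH h2 k3as_ok
  rcases hr with rfl | ⟨rfl, hr1⟩
  · have e : nC .s dr rr = .one := rfl
    rw [e]
    exact mw_mn (by norm_num [mw3]) (tuseN hK Bx t hv m3_A2a_1 mn mn mn mn
      (hK.inH ho k5ss_ok) hn (allS hK t rfl) hD)
  · have e : nC .a dr rr = cK dr rr := rfl
    rw [e]
    have kA : ∀ {H : List QC}, InH (K.K dr rr .a) H → InH {kr} (mirH H) := by
      intro H hH k hk
      rw [Set.mem_singleton_iff] at hk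
      subst hk
      exact hH.mir _ (by rw [K.symm]; exact t.right.mem')
    have hpos := h1.pos
    rcases Nat.lt_or_ge dr 4 with h4 | h4
    · have h5 : dr = 2 ∨ dr = 3 := by omega
      rcases h5 with rfl | rfl
      · cases rr
        · have e : cK 2 .e = .twoE := rfl
          rw [e]
          exact mw_mn (by norm_num [mw3]) (tuseN hK Bx t hv m3_A2a_2e mn mn mn mn
            (hK.inH ho k4as_ok) hn (allLx t rfl (kA (hK.inH h1 k2ea_ok))) hD)
        · have e : cK 2 .a = .two := rfl
          rw [e]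
          exact mw_mn (by norm_num [mw3]) (tuseN hK Bx t hv m3_A2a_2a mn mn mn mn
            (hK.inH ho k4as_ok) hn (allLx t rfl (kA (hK.inH h1 k2aa_ok))) hD)
        · exact absurd (h1.zl rfl) (by norm_num)
        · have e : cK 2 .s = .two := rfl
          rw [e]
          exact mw_mn (by norm_num [mw3]) (tuseN hK Bx t hv m3_A2a_2s mn mn mn mn
            (hK.inH ho k4as_ok) hn (allLx t rfl (kA (hK.inH h1 k3as_ok))) hD)
      · cases rr
        · have e : cK 3 .e = .threeE := rfl
          rw [e]
          exact mw_mn (by norm_num [mw3]) (tuseN hK Bx t hv m3_A2a_3e mn mn mn mn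
            (hK.inH ho k4as_ok) hn (allLx t rfl (kA (hK.inH h1 k3ea_ok))) hD)
        · have e : cK 3 .a = .three := rfl
          rw [e]
          exact mw_mn (by norm_num [mw3]) (tuseN hK Bx t hv m3_A2a_3a mn mn mn mn
            (hK.inH ho k4as_ok) hn (allLx t rfl (kA (hK.inH h1 k3aa_ok))) hD)
        · exact absurd (h1.zl rfl) (by norm_num)
        · have e : cK 3 .s = .three := rfl
          rw [e]
          exact mw_mn (by norm_num [mw3]) (tuseN hK Bx t hv m3_A2a_3s mn mn mn mn
            (hK.inH ho k4as_ok) hn (allLx t rfl (kA (hK.inH h1 k4as_ok))) hD)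
    · rw [cK_ring h4]
      exact mw_mn (by norm_num [mw3]) (tuseN hK Bx t hv m3_A2a_Z mn mn mn mn
        (hK.inH ho k4as_ok) hn (allLx t rfl (kA (in_nZa hK h1 h4))) hD)

theorem m3_A2s (hK : KOK K) (Bx : BoxRows K) (t : RDt K 3 .s r 2 .s dr rr w kl kr)
    (hr : r = .s ∨ (r = .a ∧ dr ≠ 1)) (hv : Far .s (RR w kl) (1 / kl ^ 2) v) :
    (mw3 true (nC r dr rr)).In (mH .s (RR w kl) (Complex.cos w)).im
      (yH .s (RR w kl) (Complex.cos w)).im := by
  have h1 := t.right.ok.right.symm
  have h2 := t.left.ok.right.symm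
  have ho := t.left.ok.left
  have hT := tan_sq (ne_of_re t.left.kre)
  have hq : RR w kl ^ 2 + 1 - 1 / Complex.cos w ^ 2 = 1 / kl ^ 2 := by
    rw [t.left.hinge]
    ring
  have hD := (OR.s : OR .s 2 4 .s _) hK hT hq t.left.out'
  have hn := hK.inH h2 k4ss_ok
  rcases hr with rfl | ⟨rfl, hr1⟩
  · have e : nC .s dr rr = .one := rfl
    rw [e]
    exact mw_mn (by norm_num [mw3]) (tuseN hK Bx t hv m3_A2s_1 mn mn mn mn
      (hK.inH ho k5ss_ok) hn (allS hK t rfl) hD)
  · have e : nC .a dr rr = cK dr rr := rfl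
    rw [e]
    have kA : ∀ {H : List QC}, InH (K.K dr rr .a) H → InH {kr} (mirH H) := by
      intro H hH k hk
      rw [Set.mem_singleton_iff] at hk
      subst hk
      exact hH.mir _ (by rw [K.symm]; exact t.right.mem')
    have hpos := h1.pos
    rcases Nat.lt_or_ge dr 4 with h4 | h4
    · have h5 : dr = 2 ∨ dr = 3 := by omega
      rcases h5 with rfl | rfl
      · cases rr
        · have e : cK 2 .e = .twoE := rfl
          rw [e]
          exact mw_mn (by norm_num [mw3]) (tuseN hK Bx t hv m3_A2s_2e mn mn mn mn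
            (hK.inH ho k4as_ok) hn (allLx t rfl (kA (hK.inH h1 k2ea_ok))) hD)
        · have e : cK 2 .a = .two := rfl
          rw [e]
          exact mw_mn (by norm_num [mw3]) (tuseN hK Bx t hv m3_A2s_2a mn mn mn mn
            (hK.inH ho k4as_ok) hn (allLx t rfl (kA (hK.inH h1 k2aa_ok))) hD)
        · exact absurd (h1.zl rfl) (by norm_num)
        · have e : cK 2 .s = .two := rfl
          rw [e]
          exact mw_mn (by norm_num [mw3]) (tuseN hK Bx t hv m3_A2s_2s mn mn mn mn
            (hK.inH ho k4as_ok) hn (allLx t rfl (kA (hK.inH h1 k3as_ok))) hD)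
      · cases rr
        · have e : cK 3 .e = .threeE := rfl
          rw [e]
          exact mw_mn (by norm_num [mw3]) (tuseN hK Bx t hv m3_A2s_3e mn mn mn mn
            (hK.inH ho k4as_ok) hn (allLx t rfl (kA (hK.inH h1 k3ea_ok))) hD)
        · have e : cK 3 .a = .three := rfl
          rw [e]
          exact mw_mn (by norm_num [mw3]) (tuseN hK Bx t hv m3_A2s_3a mn mn mn mn
            (hK.inH ho k4as_ok) hn (allLx t rfl (kA (hK.inH h1 k3aa_ok))) hD)
        · exact absurd (h1.zl rfl) (by norm_num)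
        · have e : cK 3 .s = .three := rfl
          rw [e]
          exact mw_mn (by norm_num [mw3]) (tuseN hK Bx t hv m3_A2s_3s mn mn mn mn
            (hK.inH ho k4as_ok) hn (allLx t rfl (kA (hK.inH h1 k4as_ok))) hD)
    · rw [cK_ring h4]
      exact mw_mn (by norm_num [mw3]) (tuseN hK Bx t hv m3_A2s_Z mn mn mn mn
        (hK.inH ho k4as_ok) hn (allLx t rfl (kA (in_nZa hK h1 h4))) hD)

end

section
variable {M : ℕ} {b : Fin (M + 1) → ℤ} {w : ℕ → ℂ}

/-- the side at the last slot of a region which is not absorbed -/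
lemma last_side {K : KFam} {h' : Fin M} {i k : Fin (M + 1)} {x : SK} {dl : ℕ} {ll : SK}
    {rr : SK} {w' kl kr : ℂ} (A' : Adj h' i 2 k) (hui : us b i.val = false)
    (hE : RDt K 3 x (rk b i.val) dl ll (dg b (rn b i.val)) rr w' kl kr) :
    rk b i.val = .s ∨ (rk b i.val = .a ∧ dg b (rn b i.val) ≠ 1) := by
  have e3 : i.val = h'.val ∧ k.val = h'.val + 1 := by
    rcases A'.elim with ⟨-, h1⟩ | ⟨h0, -⟩
    · exact h1
    · exact absurd h0 (by decide)
  have sd := sd_right (b := b) A'
  rcases Bool.eq_false_or_eq_true (us b k.val) with hu | hu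
  · exact Or.inl (sd.s hu)
  · right
    have hx : rk b i.val = .a := by
      rcases M3.kinds hE.right with h5 | h5
      · exact h5
      · have h6 := (sd.u hu).2
        rw [h5] at h6
        split_ifs at h6
    refine ⟨hx, fun hd => ?_⟩
    rw [(sd.u hu).1] at hd
    have h5 : us b (i.val + 1) = true := by
      rw [us_succ, Bool.and_eq_true, decide_eq_true_eq, Bool.not_eq_true']
      refine ⟨?_, hui⟩
      rw [show i.val + 1 = k.val by omega, bb_val, hd]
    rw [show i.val + 1 = k.val by omega, hu] at h5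
    exact absurd h5 (by decide)

variable (hb : ClassW b) (F : RingFacts) (hw : Sol b w) {K : KFam} (hK : KOK K)
  (hS : Snd K b w) (Bx : BoxRows K)
include hb F hw hK hS Bx

/-- all cases -/
theorem m3_word {h h' h2 : Fin M} {i j k r : Fin (M + 1)} (hm : (tyW b i).isMid = true)
    (A : Adj h i 0 j) (A' : Adj h' i 2 k) (A3 : Adj h2 j 0 r) (hi : clsW b i = .three)
    (hj : clsW b j = .one) :
    (clsW b r = .one → (mw3 false (clsW b k)).In
      (ofs (b i) (zsW b w (.inl (.inr ⟨i, hm⟩))).im) (ofs (b i) (zsW b w (.inl (.inl h))).im)) ∧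
    (clsW b r = .two → (mw3 true (clsW b k)).In
      (ofs (b i) (zsW b w (.inl (.inr ⟨i, hm⟩))).im)
      (ofs (b i) (zsW b w (.inl (.inl h))).im)) := by
  have h3 := three_nat hi
  have hui : us b i.val = false := us_of_abs (by omega)
  have e : i.val = h.val + 1 ∧ j.val = h.val := by
    rcases A.elim with ⟨h0, -⟩ | ⟨-, h1⟩
    · exact absurd h0 (by decide)
    · exact h1
  have e3 : i.val = h'.val ∧ k.val = h'.val + 1 := by
    rcases A'.elim with ⟨-, h1⟩ | ⟨h0, -⟩
    · exact h1
    · exact absurd h0 (by decide)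
  have e2 : j.val = h2.val + 1 ∧ r.val = h2.val := by
    rcases A3.elim with ⟨h0, -⟩ | ⟨-, h1⟩
    · exact absurd h0 (by decide)
    · exact h1
  have hh := h'.2
  have hE := rdt hb F hw hS (n := i.val) (by omega) (by omega) hui
  have em : ofr (b i) (zsW b w (.inl (.inr ⟨i, hm⟩))) =
      mH (lk b i.val) (RR (oW b w i.val) (oL b w i.val)) (Complex.cos (oW b w i.val)) := by
    have ez : zsW b w (.inl (.inr ⟨i, hm⟩)) = acot2 (Rm b w i.val) := rfl
    rw [ez, ofr_fz, ← acot2_fz, own_mid hb F hw (n := i.val) (by omega) (by omega) hui]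
    rfl
  have ey : ofr (b i) (zsW b w (.inl (.inl h))) =
      yH (lk b i.val) (RR (oW b w i.val) (oL b w i.val)) (Complex.cos (oW b w i.val)) := by
    rw [ofr_fz, zsW_val h (n := i.val - 1) (by omega),
      own_y_left hb F hw (n := i.val) (by omega) (by omega) hui]
  rw [← ofr_im, ← ofr_im, em, ey]
  rw [dg_val, h3] at hE
  have hr := last_side A' hui hE
  have hck : clsW b k = nC (rk b i.val) (dg b (rn b i.val)) (rk b (rn b i.val)) :=
    cls_right (b := b) (i := i) (j := k) (by omega)
  rw [hck]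
  have sd := sd_left (b := b) A
  have hj1 : (b j).natAbs = 1 := by
    unfold clsW cls at hj
    split_ifs at hj with h1
    exact h1
  rcases Bool.eq_false_or_eq_true (us b j.val) with huj | huj
  · -- absorbed
    have hx := sd.s huj
    obtain ⟨hd, hc⟩ := sd.far A3 huj
    have hv : Far .s (RR (oW b w i.val) (oL b w i.val)) (1 / oL b w i.val ^ 2)
        (-acot2 (Sp (RR (oW b w i.val) (oL b w i.val)) (oL b w i.val))) := by
      have h4 := hE.left
      rw [hx] at h4
      exact far_split Bx h4
    have hur : us b r.val = false := by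
      have h5 := (us_true huj).2.2.1
      rwa [show j.val - 1 = r.val by omega] at h5
    have hln : ln b i.val = r.val := by
      unfold ln
      rw [if_pos (by rwa [show i.val - 1 = j.val by omega])]
      omega
    rw [hx] at hE ⊢
    have h2' := hE.left.ok.right.symm
    constructor
    · intro hc1
      rw [hc1] at hc
      have h6 := cK_m1 hc.symm
      rw [h6] at hE h2'
      have hl : lk b (ln b i.val) = .s := by
        have hne := (h2'.one rfl).2.1
        rw [hln] at hne ⊢
        have hr0 : r.val ≠ 0 := by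
          intro h0
          rw [h0] at hne
          exact hne rfl
        apply lk_s (by omega)
        by_contra hcn
        rw [Bool.not_eq_true] at hcn
        have h5 : us b (r.val - 1 + 1) = true := by
          rw [us_succ, Bool.and_eq_true, decide_eq_true_eq, Bool.not_eq_true']
          refine ⟨?_, hcn⟩
          rw [show r.val - 1 + 1 = r.val by omega, bb_val, ← hd, h6]
        rw [show r.val - 1 + 1 = r.val by omega, hur] at h5
        exact absurd h5 (by decide)
      rw [hl] at hE
      exact m3_A1s hK Bx hE hr hv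
    · intro hc1
      rw [hc1] at hc
      obtain ⟨h6, h7⟩ := cK_m2 hc.symm
      rw [h6] at hE h2'
      have hl : lk b (ln b i.val) = .a ∨ lk b (ln b i.val) = .s := by
        generalize lk b (ln b i.val) = l at h7 h2'
        cases l
        · exact absurd rfl h7
        · exact Or.inl rfl
        · exact absurd (h2'.zl rfl) (by norm_num)
        · exact Or.inr rfl
      rcases hl with hl | hl
      · rw [hl] at hE
        exact m3_A2a hK Bx hE hr hv
      · rw [hl] at hE
        exact m3_A2s hK Bx hE hr hv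
  · -- not absorbed
    obtain ⟨hd, hx⟩ := sd.u huj
    have hop : b i * b j < 0 := A.opp hb (Or.inl (by rw [hi]; decide))
    rw [if_neg (by omega)] at hx
    have hur : us b r.val = true := by
      by_contra hc
      rw [Bool.not_eq_true] at hc
      have h5 : us b (h2.val + 1) = true := by
        rw [us_succ, Bool.and_eq_true, decide_eq_true_eq, Bool.not_eq_true']
        refine ⟨?_, by rwa [← e2.2]⟩
        rw [← e2.1, bb_val, hj1]
      rw [← e2.1, huj] at h5
      exact absurd h5 (by decide)
    have hl := (sd.kd A3 huj).1 hur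
    have hcr : clsW b r = .one := by
      have h6 := (us_true hur).2.1
      rw [bb_val] at h6
      unfold clsW cls
      rw [if_pos h6]
    have hjM := j.2
    have hj0 : 0 < j.val := by omega
    have hEj := rdt hb F hw hS (n := j.val) hj0 (by omega) huj
    rw [dg_val, hj1] at hEj
    have hlj : lk b j.val = .s := (sd_left (b := b) A3).s hur
    have hrj : rk b j.val = .a := by
      have sd2 := sd_right (b := b) (A.symm : Adj h j 2 i)
      rw [(sd2.u hui).2, if_neg (by rw [mul_comm]; omega)]
    rw [hlj, hrj] at hEj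
    obtain ⟨f1, f2⟩ := flip_left hb F hw (n := i.val) (by omega) (by omega) hui
      (by rwa [show i.val - 1 = j.val by omega])
    rw [hx, show i.val - 1 = j.val by omega] at f1 f2
    have f1' : RR (oW b w i.val) (oL b w i.val) = conj (RR (oW b w j.val) (oR b w j.val)) := by
      rw [f1]
      exact fz_neg _
    have f2' : oL b w i.val = conj (Complex.cos (oW b w j.val)) := by
      rw [f2]
      exact fz_neg _
    have key : cexp (2 * Real.pi * I * yH .s (RR (oW b w j.val) (oL b w j.val))
        (Complex.cos (oW b w j.val))) * (1 / Complex.cos (oW b w j.val) ^ 2 - 2 +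
          2 * I * RR (oW b w j.val) (oR b w j.val)) = 1 / Complex.cos (oW b w j.val) ^ 2 :=
      one_left Bx hEj
    set y := yH .s (RR (oW b w j.val) (oL b w j.val)) (Complex.cos (oW b w j.val)) with hy
    have hv : Far .a (RR (oW b w i.val) (oL b w i.val)) (1 / oL b w i.val ^ 2) (-conj y) := by
      change cexp _ * (_ - 2 - 2 * I * _) = _
      rw [f1', f2']
      have h7 := congrArg (starRingEnd ℂ) key
      rw [map_mul, ← Complex.exp_conj] at h7
      simp only [map_mul, map_add, map_sub, map_div₀, map_pow, map_one, Complex.conj_I,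
        Complex.conj_ofReal, map_ofNat] at h7
      rw [show 2 * Real.pi * I * -conj y = 2 * Real.pi * -I * conj y by ring]
      linear_combination h7
    rw [hx, hd, hj1, hl] at hE
    rw [hx]
    constructor
    · intro _
      exact m3_B hK Bx hE hr hv
    · intro h8
      rw [hcr] at h8
      exact absurd h8 (by decide)

/-- **The inner variable of a digit `3` of a word next to a digit `1` at the first slot.** -/
theorem locM2_of : LocM2 b (zsW b w) where
  one hm A A' A3 hi hj := (m3_word hb F hw hK hS Bx hm A A' A3 hi hj).1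
  two hm A A' A3 hi hj := (m3_word hb F hw hK hS Bx hm A A' A3 hi hj).2

end

end

end Pool.Agent.Work.MP_b30479_gt.G2.CN.TD
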