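import Pool.Agent.Work.MP_b30479_gt.G2.CN.M3Mid
import Pool.Agent.Work.MP_b30479_gt.G2.CN.RowD
import Pool.Agent.Work.MP_b30479_gt.G2.CN.TTwZ

/-!
# Rows for the inner variable of a region with three crossings

The hinge of the region with the neighbour at the first slot is of kind `a`, with the variable `R`.
`tYs`: the exponential of the inner variable; `tSs`: the exponential of the inner variable minus
the hinge.
-/

namespace Pool.Agent.Work.MP_b30479_gt.G2.CN.TD

open Complex SR Ev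
open scoped ComplexConjugate

noncomputable section

section
variable {K : KFam} {r : SK} {dl : ℕ} {ll : SK} {dr : ℕ} {rr : SK} {w kl kr : ℂ}

/-- the exponential of the inner variable -/
lemma expMid (t : RDt K 3 .a r dl ll dr rr w kl kr)
    (hu : (yH .a (RR w kl) (Complex.cos w)).re < 1 / 2)
    (hv : (yH r (RR w kr) (Complex.cos w)).re < 1 / 2) (H : List QC) :
    cexp (2 * Real.pi * I * mH .a (RR w kl) (Complex.cos w)) *
      (tYs H).M.val (RR w kl) (Complex.tan w) = (tYs H).N.val (RR w kl) (Complex.tan w) := by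
  have T := M3.tri_of t hu hv
  have E := M3.exps_of T hu hv
  have hc0 := ne_of_re t.left.kre
  have ht := tan_sq hc0
  have em := E.em
  have e1 := T.hy
  have e2 := T.um
  rw [Hq_of_ne (by decide : SK.a ≠ .s)] at em e1 e2
  unfold mH
  rw [Hq_of_ne (by decide : SK.a ≠ .s)]
  change _ * Ev.tq.val _ _ = Ev.tl2.val _ _
  have h4 := Ev.val_tl2 (RR w kl) (Complex.tan w)
  have h5 : Ev.tl2.val (RR w kl) (Complex.tan w) =
      1 / Complex.cos w ^ 2 - 2 + 2 * I * RR w kl := by
    apply mul_left_cancel₀ (two_ne_zero : (2 : ℂ) ≠ 0)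
    rw [h4, ht]
    simp only [DB, cab]
    ring
  rw [Ev.val_tq, ht, h5]
  set M := Sp (RR w kl) (Complex.cos w)
  set E0 := cexp (2 * Real.pi * I * acot2 M)
  linear_combination (-E0) * e2 - (E0 * (RR w kl + I)) * e1 + ((RR w kl + I) * (M + I)) * em +
    e2 + 2 * Complex.I_mul_I

/-- the exponential of the inner variable minus the hinge -/
lemma expMs (t : RDt K 3 .a r dl ll dr rr w kl kr)
    (hu : (yH .a (RR w kl) (Complex.cos w)).re < 1 / 2)
    (hv : (yH r (RR w kr) (Complex.cos w)).re < 1 / 2) (H : List QC) :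
    cexp (2 * Real.pi * I * (mH .a (RR w kl) (Complex.cos w) - yH .a (RR w kl) (Complex.cos w))) *
      (tSs H).M.val (RR w kl) (Complex.tan w) = (tSs H).N.val (RR w kl) (Complex.tan w) := by
  have e1 := expMid t hu hv H
  have hR : 0 < (RR w kl).re := r0_pos.trans t.left.Rre
  have e2 : cexp (2 * Real.pi * I * yH .a (RR w kl) (Complex.cos w)) * (RR w kl - I) =
      RR w kl + I := by
    unfold yH
    rw [Hq_of_ne (by decide : SK.a ≠ .s)]
    exact exp_acot2 (ne_I_of_re hR).1 (ne_I_of_re hR).2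
  change _ * Ev.tq.val _ _ = Ev.tl2.val _ _ at e1
  change _ * (Ev.tq.val _ _ * Ev.rp.val _ _) = Ev.tl2.val _ _ * Ev.rm.val _ _
  rw [Ev.val_rp, Ev.val_rm, ← e1, ← e2, mul_sub, Complex.exp_sub]
  have h0 := Complex.exp_ne_zero (2 * Real.pi * I * yH .a (RR w kl) (Complex.cos w))
  field_simp

lemma bxs_of (Bx : BoxRows K) : M3.Bxs K := ⟨Bx.un, Bx.sp⟩

/-- the hinges of a region with three crossings -/
lemma re_half (Bx : BoxRows K) (t : RDt K 3 .a r dl ll dr rr w kl kr) (hr : r ≠ .e) :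
    (yH .a (RR w kl) (Complex.cos w)).re < 1 / 2 ∧ (yH r (RR w kr) (Complex.cos w)).re < 1 / 2 := by
  obtain ⟨c, hc⟩ := M3.fits t.left
  obtain ⟨c', hc'⟩ := M3.fits t.right
  exact ⟨(M3.box_fits (bxs_of Bx) t.left hr hc).2.1,
    (M3.box_fits (bxs_of Bx) t.right (by decide) hc').2.1⟩

/-- **The bounds of a row.** -/
theorem tuseM (hK : KOK K) (Bx : BoxRows K) (t : RDt K 3 .a r dl ll dr rr w kl kr) (hre : r ≠ .e)
    {gi mi si : List GC} {o : List QC} {L : List Grp} {o' : List QC} {L' : List Grp}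
    {gy gz gu gm gs : List GC} {n code : ℕ}
    (hr : trowOkM gi mi si o L o' L' gy gz gu gm gs n code = true)
    (hi : ∀ g ∈ gi, g.G (yH .a (RR w kl) (Complex.cos w)))
    (hmi : ∀ g ∈ mi, g.G (mH .a (RR w kl) (Complex.cos w)))
    (hsi : ∀ g ∈ si, g.G (mH .a (RR w kl) (Complex.cos w) - yH .a (RR w kl) (Complex.cos w)))
    (ho : InH (K.K 3 r .a) o) (ho' : InH (K.K dl ll .a) o')
    (hL : AllOk (RR w kl) (Complex.tan w) L) (hL' : AllOk (RR w kl) (Complex.tan w) L') :
    (∀ g ∈ gy, g.P (yH .a (RR w kl) (Complex.cos w))) ∧ (∀ g ∈ gz, g.P (-zeta w)) ∧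
      (∀ g ∈ gu, g.P (yH .a (RR w kl) (Complex.cos w) - zeta w)) ∧
      (∀ g ∈ gm, g.P (mH .a (RR w kl) (Complex.cos w))) ∧
      ∀ g ∈ gs, g.P (mH .a (RR w kl) (Complex.cos w) - yH .a (RR w kl) (Complex.cos w)) := by
  obtain ⟨hu, hv⟩ := re_half Bx t hre
  have hc := t.left.kre
  have hc0 := ne_of_re hc
  have hT := tan_sq hc0
  have hR : 0 < (RR w kl).re := r0_pos.trans t.left.Rre
  have hq : RR w kl ^ 2 + 1 - 1 / Complex.cos w ^ 2 = 1 / kl ^ 2 := by
    rw [t.left.hinge]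
    ring
  have hm' := t.left.mem'
  have h1 := inH_ownR (x := .a) ho'
  rw [← K.symm] at h1
  have hsp : SK.a = .s → (acot2 (Sp (RR w kl) (Complex.cos w))).re < 1 / 2 :=
    fun h => absurd h (by decide)
  unfold trowOkM at hr
  rw [Bool.and_eq_true, Bool.and_eq_true, Bool.and_eq_true, Bool.and_eq_true, Bool.and_eq_true,
    Bool.and_eq_true, Bool.and_eq_true, Bool.and_eq_true] at hr
  obtain ⟨hrow, ⟨⟨⟨⟨⟨⟨k1, k2⟩, k3⟩, k4⟩, k5⟩, k6⟩, k7⟩, k8⟩ := hr
  have hl : AllOk (RR w kl) (Complex.tan w) (tsM gi mi si o L o' L') := by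
    refine AllOk.cons ?_ (AllOk.cons (tl_ok hc0 hT (ho _ t.left.mem))
      (AllOk.cons (tr_ok (ne_of_re t.left.kre') hT hq (h1 kl hm'))
      (hL.append (hL'.append (AllOk.cons ?_ (AllOk.cons ?_ AllOk.nil))))))
    · refine ⟨_, expY hc hR hsp _, ?_⟩
      intro Q hQ
      obtain ⟨g, hg, rfl⟩ := List.mem_map.1 hQ
      exact GC.imp (List.all_eq_true.1 k1 g hg) (hi g hg)
    · refine ⟨_, expMid t hu hv _, ?_⟩
      intro Q hQ
      obtain ⟨g, hg, rfl⟩ := List.mem_map.1 hQ
      exact GC.imp (List.all_eq_true.1 k2 g hg) (hmi g hg)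
    · refine ⟨_, expMs t hu hv _, ?_⟩
      intro Q hQ
      obtain ⟨g, hg, rfl⟩ := List.mem_map.1 hQ
      exact GC.imp (List.all_eq_true.1 k3 g hg) (hsi g hg)
  have hm := rootT_mem hK t.left hT (tan_re t.w0 t.w1)
  refine ⟨fun g hg => ?_, fun g hg => ?_, fun g hg => ?_, fun g hg => ?_, fun g hg => ?_⟩
  · exact GC.spec (List.all_eq_true.1 k4 g hg) (row_sound hrow hm hl
      (g := tYx .a (gy.map GC.q)) (by simp [goT]) (expY hc hR hsp _) g.q
      (List.mem_map_of_mem hg))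
  · exact GC.spec (List.all_eq_true.1 k5 g hg) (row_sound hrow hm hl
      (g := tZ (gz.map GC.q)) (by simp [goT]) (expZ hc _) g.q
      (List.mem_map_of_mem hg))
  · exact GC.spec (List.all_eq_true.1 k6 g hg) (row_sound hrow hm hl
      (g := tUx .a (gu.map GC.q)) (by simp [goT]) (expU hc hR hsp _) g.q
      (List.mem_map_of_mem hg))
  · exact GC.spec (List.all_eq_true.1 k7 g hg) (row_sound hrow hm hl
      (g := tYs (gm.map GC.q)) (by simp [goT]) (expMid t hu hv _) g.q
      (List.mem_map_of_mem hg))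
  · exact GC.spec (List.all_eq_true.1 k8 g hg) (row_sound hrow hm hl
      (g := tSs (gs.map GC.q)) (by simp [goT]) (expMs t hu hv _) g.q
      (List.mem_map_of_mem hg))

/-- the neighbour on the other side -/
lemma allL (t : RDt K 3 .a r dl ll dr rr w kl kr) {B : ℕ} (hB : crs 3 r .a = B) {H : List QC}
    (hH : InH {kr} H) : AllOk (RR w kl) (Complex.tan w) (tA B H) := by
  subst hB
  have hT := tan_sq (ne_of_re t.left.kre)
  exact tA_all hT (by rw [t.left.hinge]; ring) hH (out_left t.symm)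

end

end

end Pool.Agent.Work.MP_b30479_gt.G2.CN.TD
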