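import Pool.Agent.Work.MP_b30479_gt.G2.WLocM
import Pool.Agent.Work.MP_b30479_gt.G2.CN.TRwX
import Pool.Agent.Work.MP_b30479_gt.G2.CN.TRwZ
import Pool.Agent.Work.MP_b30479_gt.G2.CN.TMid
import Pool.Agent.Work.MP_b30479_gt.G2.CN.TDatd
import Pool.Agent.Work.MP_b30479_gt.G2.CN.LocRT

/-!
# The inner variable of a digit `3` next to a digit `2` at the first slot
-/

namespace Pool.Agent.Work.MP_b30479_gt.G2.CN.TD

open Complex SR
open scoped ComplexConjugate

noncomputable section

/-- the windows from the conditions of a row -/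
lemma mw_mk {c : MWin} {y0 y1 t0 t1 s0 s1 c1 c2 c3 c4 c5 c6 : ℤ} {y m : ℂ} {A B : Prop}
    (e : c = ⟨(t0 : ℝ) / 10000, (t1 : ℝ) / 10000, (s0 : ℝ) / 10000, (s1 : ℝ) / 10000,
      (y0 : ℝ) / 10000, (y1 : ℝ) / 10000⟩)
    (h : (∀ g ∈ [GC.lo y0 c1, GC.hi y1 c2], g.P y) ∧ A ∧ B ∧
      (∀ g ∈ [GC.lo t0 c3, GC.hi t1 c4], g.P m) ∧
      ∀ g ∈ [GC.lo s0 c5, GC.hi s1 c6], g.P (m - y)) : c.In m.im y.im := by
  obtain ⟨hy, -, -, hm, hs⟩ := h
  subst e
  have a1 := hs _ m0
  have a2 := hs _ m1
  change _ ≤ (m - y).im at a1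
  change (m - y).im ≤ _ at a2
  rw [Complex.sub_im] at a1 a2
  exact ⟨hm _ m0, hm _ m1, a1, a2, hy _ m0, hy _ m1⟩

section
variable {K : KFam} {r : SK} {ll : SK} {dr : ℕ} {rr : SK} {w kl kr : ℂ}

/-- the digit `2` -/
lemma two_kind (t : RDt K 3 .a r 2 ll dr rr w kl kr) (hl : ll ≠ .e) : ll = .a ∨ ll = .s := by
  cases ll
  · exact absurd rfl hl
  · exact Or.inl rfl
  · exact absurd (t.left.ok.right.symm.zl rfl) (by norm_num)
  · exact Or.inr rfl

/-- all cases -/
theorem md_cases (hK : KOK K) (Bx : BoxRows K) (t : RDt K 3 .a r 2 ll dr rr w kl kr)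
    (hl : ll ≠ .e) (hre : r ≠ .e) :
    (mw2 (nC r dr rr)).In (mH .a (RR w kl) (Complex.cos w)).im
      (yH .a (RR w kl) (Complex.cos w)).im := by
  have h1 := t.right.ok.right.symm
  have h2 := t.left.ok.right.symm
  have ho := t.left.ok.left
  have hT := tan_sq (ne_of_re t.left.kre)
  have hq : RR w kl ^ 2 + 1 - 1 / Complex.cos w ^ 2 = 1 / kl ^ 2 := by
    rw [t.left.hinge]
    ring
  have hpos := h1.pos
  have ha : ll = .a → AllOk (RR w kl) (Complex.tan w) (tD .a 2 (mirH PA2)) := by
    rintro rfl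
    exact OR.a hK hT hq t.left.out'
  have hs : ll = .s → AllOk (RR w kl) (Complex.tan w) (tD .a 3 PS2) := by
    rintro rfl
    exact OR.s hK hT hq t.left.out'
  have kA : ∀ {H : List QC}, InH (K.K dr rr .a) H → r = .a → InH {kr} (mirH H) := by
    intro H hH h2 k hk
    subst h2
    rw [Set.mem_singleton_iff] at hk
    subst hk
    exact hH.mir _ (by rw [K.symm]; exact t.right.mem')
  have hk := two_kind t hl
  have hx : r = .a ∨ r = .s := by
    cases r
    · exact absurd rfl hre
    · exact Or.inl rfl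
    · exact absurd (t.left.ok.left.zl rfl) (by decide)
    · exact Or.inr rfl
  rcases hx with rfl | rfl
  · have hz : nC .a dr rr = cK dr rr := by
      unfold nC
      rw [if_neg (by decide)]
    rw [hz]
    rcases Nat.lt_or_ge dr 4 with h4 | h4
    · have h5 : dr = 1 ∨ dr = 2 ∨ dr = 3 := by omega
      rcases h5 with rfl | rfl | rfl
      · have hr : rr = .s := far_s t.right.ok.right
        subst hr
        have e : cK 1 .s = .one := rfl
        rw [e]
        rcases hk with rfl | rfl
        · exact mw_mk (by norm_num [mw2]) (tuseM hK Bx t hre md_1u_a mn mn mn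
            (hK.inH ho k3aa_ok) (hK.inH h2 k2aa_ok) (allL t rfl (kA (hK.inH h1 k2as_ok) rfl))
            (ha rfl))
        · exact mw_mk (by norm_num [mw2]) (tuseM hK Bx t hre md_1u_s mn mn mn
            (hK.inH ho k3aa_ok) (hK.inH h2 k3as_ok) (allL t rfl (kA (hK.inH h1 k2as_ok) rfl))
            (hs rfl))
      · cases rr
        · have e : cK 2 .e = .twoE := rfl
          rw [e]
          rcases hk with rfl | rfl
          · exact mw_mk (by norm_num [mw2]) (tuseM hK Bx t hre md_2e_a mn mn mn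
              (hK.inH ho k3aa_ok) (hK.inH h2 k2aa_ok) (allL t rfl (kA (hK.inH h1 k2ea_ok) rfl))
              (ha rfl))
          · exact mw_mk (by norm_num [mw2]) (tuseM hK Bx t hre md_2e_s mn mn mn
              (hK.inH ho k3aa_ok) (hK.inH h2 k3as_ok) (allL t rfl (kA (hK.inH h1 k2ea_ok) rfl))
              (hs rfl))
        · have e : cK 2 .a = .two := rfl
          rw [e]
          rcases hk with rfl | rfl
          · exact mw_mk (by norm_num [mw2]) (tuseM hK Bx t hre md_2a_a mn mn mn
              (hK.inH ho k3aa_ok) (hK.inH h2 k2aa_ok) (allL t rfl (kA (hK.inH h1 k2aa_ok) rfl))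
              (ha rfl))
          · exact mw_mk (by norm_num [mw2]) (tuseM hK Bx t hre md_2a_s mn mn mn
              (hK.inH ho k3aa_ok) (hK.inH h2 k3as_ok) (allL t rfl (kA (hK.inH h1 k2aa_ok) rfl))
              (hs rfl))
        · exact absurd (h1.zl rfl) (by norm_num)
        · have e : cK 2 .s = .two := rfl
          rw [e]
          rcases hk with rfl | rfl
          · exact mw_mk (by norm_num [mw2]) (tuseM hK Bx t hre md_2s_a mn mn mn
              (hK.inH ho k3aa_ok) (hK.inH h2 k2aa_ok) (allL t rfl (kA (hK.inH h1 k3as_ok) rfl))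
              (ha rfl))
          · exact mw_mk (by norm_num [mw2]) (tuseM hK Bx t hre md_2s_s mn mn mn
              (hK.inH ho k3aa_ok) (hK.inH h2 k3as_ok) (allL t rfl (kA (hK.inH h1 k3as_ok) rfl))
              (hs rfl))
      · cases rr
        · have e : cK 3 .e = .threeE := rfl
          rw [e]
          rcases hk with rfl | rfl
          · exact mw_mk (by norm_num [mw2]) (tuseM hK Bx t hre md_3e_a mn mn mn
              (hK.inH ho k3aa_ok) (hK.inH h2 k2aa_ok) (allL t rfl (kA (hK.inH h1 k3ea_ok) rfl))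
              (ha rfl))
          · exact mw_mk (by norm_num [mw2]) (tuseM hK Bx t hre md_3e_s mn mn mn
              (hK.inH ho k3aa_ok) (hK.inH h2 k3as_ok) (allL t rfl (kA (hK.inH h1 k3ea_ok) rfl))
              (hs rfl))
        · have e : cK 3 .a = .three := rfl
          rw [e]
          rcases hk with rfl | rfl
          · exact mw_mk (by norm_num [mw2]) (tuseM hK Bx t hre md_3a_a mn mn mn
              (hK.inH ho k3aa_ok) (hK.inH h2 k2aa_ok) (allL t rfl (kA (hK.inH h1 k3aa_ok) rfl))
              (ha rfl))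
          · exact mw_mk (by norm_num [mw2]) (tuseM hK Bx t hre md_3a_s mn mn mn
              (hK.inH ho k3aa_ok) (hK.inH h2 k3as_ok) (allL t rfl (kA (hK.inH h1 k3aa_ok) rfl))
              (hs rfl))
        · exact absurd (h1.zl rfl) (by norm_num)
        · have e : cK 3 .s = .three := rfl
          rw [e]
          rcases hk with rfl | rfl
          · exact mw_mk (by norm_num [mw2]) (tuseM hK Bx t hre md_3s_a mn mn mn
              (hK.inH ho k3aa_ok) (hK.inH h2 k2aa_ok) (allL t rfl (kA (hK.inH h1 k4as_ok) rfl))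
              (ha rfl))
          · exact mw_mk (by norm_num [mw2]) (tuseM hK Bx t hre md_3s_s mn mn mn
              (hK.inH ho k3aa_ok) (hK.inH h2 k3as_ok) (allL t rfl (kA (hK.inH h1 k4as_ok) rfl))
              (hs rfl))
    · rw [cK_ring h4]
      rcases hk with rfl | rfl
      · exact mw_mk (by norm_num [mw2]) (tuseM hK Bx t hre md_Z_a mn mn mn
          (hK.inH ho k3aa_ok) (hK.inH h2 k2aa_ok) (allL t rfl (kA (in_nZa hK h1 h4) rfl))
          (ha rfl))
      · exact mw_mk (by norm_num [mw2]) (tuseM hK Bx t hre md_Z_s mn mn mn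
          (hK.inH ho k3aa_ok) (hK.inH h2 k3as_ok) (allL t rfl (kA (in_nZa hK h1 h4) rfl))
          (hs rfl))
  · have hz : nC .s dr rr = .one := by
      unfold nC
      rw [if_pos rfl]
    rw [hz]
    have hL : AllOk (RR w kl) (Complex.tan w) (tA 4 PS3) :=
      OL.s le_rfl hK hT hq t.left.out
    rcases hk with rfl | rfl
    · exact mw_mk (by norm_num [mw2]) (tuseM hK Bx t hre md_1s_a mn mn mn
        (hK.inH ho k4as_ok) (hK.inH h2 k2aa_ok) hL (ha rfl))
    · exact mw_mk (by norm_num [mw2]) (tuseM hK Bx t hre md_1s_s mn mn mn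
        (hK.inH ho k4as_ok) (hK.inH h2 k3as_ok) hL (hs rfl))

end

section
variable {M : ℕ} {b : Fin (M + 1) → ℤ} {w : ℕ → ℂ}
variable (hb : ClassW b) (F : RingFacts) (hw : Sol b w) {K : KFam} (hK : KOK K)
  (hS : Snd K b w) (Bx : BoxRows K)
include hb F hw hK hS Bx

/-- **The inner variable of a digit `3` of a word next to a digit `2` at the first slot.** -/
theorem locMd_of : LocMd b (zsW b w) := by
  constructor
  intro h h' i j k hm A A' hc hj
  have h3 := three_nat hc
  obtain ⟨x, x', dl, ll, dr, rr, kl, kr, hE, y1, y2, c1, c2⟩ :=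
    A.mid_view hb F hw hS A' (us_of_abs (by omega)) hm
  rw [h3] at hE
  rw [← ofr_im, ← ofr_im, y1, y2, c2]
  rw [hj] at c1
  have hx : x = .a ∧ dl = 2 ∧ ll ≠ .e := by
    unfold nC at c1
    split_ifs at c1 with hs
    have hx := M3.kinds hE.left
    refine ⟨hx.resolve_right hs, ?_, ?_⟩
    · unfold cK at c1
      split_ifs at c1 with g1 g2
      exact g2
    · rintro rfl
      unfold cK at c1
      split_ifs at c1
      simp_all
  obtain ⟨rfl, rfl, hl⟩ := hx
  exact md_cases hK Bx hE hl hE.right.ok.ne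

end

end

end Pool.Agent.Work.MP_b30479_gt.G2.CN.TD
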