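import Pool.Agent.Work.MP_b30479_gt.G2.CN.TTabG
import Pool.Agent.Work.MP_b30479_gt.G2.CN.LocRT

/-!
# Windows of the rings with four crossings of a word
-/

namespace Pool.Agent.Work.MP_b30479_gt.G2.CN.TD

open Complex SR
open scoped ComplexConjugate

noncomputable section

lemma b4_in {x0 x1 s0 s1 q0 q1 r0 r1 t0 t1 c1 cr : ℤ} {y z : ℂ}
    (h : B4 x0 x1 s0 s1 q0 q1 r0 r1 t0 t1 c1 cr y z) :
    (mk4 x0 x1 s0 s1 q0 q1 r0 r1 t0 t1 c1 cr).In y z :=
  ⟨h.x0, h.x1, h.s0, h.s1, h.q0, h.q1, h.r0, h.r1, h.t0, h.t1, h.c1, h.cr⟩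

lemma cK_c2 {l : SK} (h : l ≠ .e) : cK 2 l = .two := by simp [cK, h]
lemma cK_c3 {l : SK} (h : l ≠ .e) : cK 3 l = .three := by simp [cK, h]

/-- ends, by the class of the neighbour -/
theorem r4e_cls {K : KFam} (hK : KOK K) {x : SK} {d' : ℕ} {l' : SK} {w R k' : ℂ}
    (t : TDt K x 4 .e d' l' w R k') {C : Cl} {s : Bool} (hc : C = nC x d' l')
    (hs : x ≠ .s → s = decide (x = .z)) (rg : Rg (yH x R (Complex.cos w)) (zeta w)) :
    (r4 true C s).In (yH x R (Complex.cos w)) (zeta w) := by
  subst hc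
  have hpos := t.h.ok.right.pos
  cases x
  · exact absurd rfl t.h.ok.ne
  · have hs' := hs (by decide)
    rw [show decide (SK.a = SK.z) = false from rfl] at hs'
    subst hs'
    unfold nC
    rw [if_neg (by decide)]
    have hd : d' = 1 ∨ d' = 2 ∨ d' = 3 ∨ 4 ≤ d' := by omega
    rcases hd with rfl | rfl | rfl | h4
    · exact b4_in (r4e_1u hK t rg)
    · by_cases hl : l' = .e
      · subst hl
        exact b4_in (r4e_2e hK t rg)
      · rw [cK_c2 hl]
        exact b4_in (r4e_2 hK t hl rg)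
    · by_cases hl : l' = .e
      · subst hl
        exact b4_in (r4e_3e hK t rg)
      · rw [cK_c3 hl]
        exact b4_in (r4e_3 hK t hl rg)
    · rw [cK_ring h4]
      exact b4_in (r4e_Z hK t h4 rg)
  · have hs' := hs (by decide)
    rw [show decide (SK.z = SK.z) = true from rfl] at hs'
    subst hs'
    unfold nC
    rw [if_neg (by decide), cK_ring (t.h.ok.right.zl rfl)]
    exact b4_in (r4e_Zs hK t rg)
  · have e : nC .s d' l' = .one := rfl
    rw [e]
    cases s <;> exact b4_in (r4e_1s hK t rg)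

/-- interior rings, by the class of the neighbour -/
theorem r4i_cls {K : KFam} (hK : KOK K) {l x : SK} {dl : ℕ} {ll : SK} {dr : ℕ} {rr : SK}
    {w kl kr : ℂ} (t : LDt K l x dl ll dr rr w kl kr) {C : Cl} {s : Bool} (hc : C = nC x dr rr)
    (hs : x ≠ .s → s = decide (x = .z)) (hli : LI l (yH l (RR w kl) (Complex.cos w)))
    (rg : Rg (yH x (RR w kr) (Complex.cos w)) (zeta w)) :
    (r4 false C s).In (yH x (RR w kr) (Complex.cos w)) (zeta w) := by
  subst hc
  have hpos := t.h.right.ok.right.pos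
  cases x
  · exact absurd rfl t.h.right.ok.ne
  · have hs' := hs (by decide)
    rw [show decide (SK.a = SK.z) = false from rfl] at hs'
    subst hs'
    unfold nC
    rw [if_neg (by decide)]
    have hd : dr = 1 ∨ dr = 2 ∨ dr = 3 ∨ 4 ≤ dr := by omega
    rcases hd with rfl | rfl | rfl | h4
    · exact b4_in (r4i_1u hK t hli rg)
    · by_cases hl : rr = .e
      · subst hl
        exact b4_in (r4i_2e hK t hli rg)
      · rw [cK_c2 hl]
        exact b4_in (r4i_2 hK t hl hli rg)
    · by_cases hl : rr = .e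
      · subst hl
        exact b4_in (r4i_3e hK t hli rg)
      · rw [cK_c3 hl]
        exact b4_in (r4i_3 hK t hl hli rg)
    · rw [cK_ring h4]
      exact b4_in (r4i_Z hK t h4 hli rg)
  · have hs' := hs (by decide)
    rw [show decide (SK.z = SK.z) = true from rfl] at hs'
    subst hs'
    unfold nC
    rw [if_neg (by decide), cK_ring (t.h.right.ok.right.zl rfl)]
    exact b4_in (r4i_Zs hK t hli rg)
  · have e : nC .s dr rr = .one := rfl
    rw [e]
    cases s <;> exact b4_in (r4i_1s hK t hli rg)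

/-- rough range of the real part of a hinge of a ring -/
lemma hb_rg {C : Cl} {s : Bool} {y : ℂ} (h : (hbox .ring C s).In y) :
    0 ≤ y.re ∧ y.re ≤ 2 / 5 := by
  obtain ⟨a1, a2, -, -⟩ := h
  revert a1 a2
  cases C <;> cases s
  all_goals
    intro a1 a2
    norm_num [hbox] at a1 a2
    constructor <;> linarith

/-- the box of the hinge on the other side -/
lemma li_of {C : Cl} {l : SK} {dl : ℕ} {ll : SK} {y : ℂ} (he : l ≠ .e) (hz : l = .z → 4 ≤ dl)
    (hC : C = nC l dl ll) (h : (hbox .ring C (decide (l = .z))).In y) : LI l y := by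
  cases l
  · exact absurd rfl he
  · rw [show decide (SK.a = SK.z) = false from rfl] at h
    clear hC
    obtain ⟨a1, a2, a3, a4⟩ := h
    revert a1 a2 a3 a4
    cases C
    all_goals
      intro a1 a2 a3 a4
      norm_num [hbox] at a1 a2 a3 a4
      unfold LI
      norm_num
      refine ⟨?_, ?_, ?_, ?_⟩ <;> linarith
  · rw [show decide (SK.z = SK.z) = true from rfl] at h
    unfold nC at hC
    rw [if_neg (by decide), cK_ring (hz rfl)] at hC
    rw [hC] at h
    obtain ⟨a1, a2, a3, a4⟩ := h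
    norm_num [hbox] at a1 a2 a3 a4
    unfold LI
    norm_num
    exact ⟨a1, a2, a3, a4⟩
  · have e : nC .s dl ll = .one := rfl
    rw [hC, e] at h
    obtain ⟨a1, a2, a3, a4⟩ := h
    norm_num [hbox] at a1 a2 a3 a4
    unfold LI
    norm_num
    exact ⟨a1, a2, a3, a4⟩

section
variable {M : ℕ} {b : Fin (M + 1) → ℤ} {w : ℕ → ℂ}

lemma ss_adj {h : Fin M} {i j : Fin (M + 1)} {p : Fin 3} (A : Adj h i p j) :
    ssW b h = decide (0 < b i * b j) := by
  cases A
  · rfl
  · unfold ssW
    rw [mul_comm]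

variable (hb : ClassW b) (F : RingFacts) (hw : Sol b w) (hM : 1 ≤ M) {K : KFam} (hK : KOK K)
  (hS : Snd K b w) (Bx : BoxRows K)
include hb F hw hM hK hS Bx

/-- **Windows of the rings with four crossings of a word.** -/
theorem locR4_of : LocR4 b (zsW b w) := by
  have hL := loc_of_boxes hb F hw hM hS Bx
  constructor
  intro h i j p v hv A hi h4
  have kss : ∀ {x : SK} {d' : ℕ},
      ((x = .s ∧ us b j.val = true) ∨ (us b j.val = false ∧ d' = (b j).natAbs ∧
        x = if 0 < b i * b j then .z else .a)) → x ≠ .s → ssW b h = decide (x = .z) := by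
    intro x d' hx hxs
    rw [ss_adj A]
    rcases hx with ⟨h1, -⟩ | ⟨-, -, h1⟩
    · exact absurd h1 hxs
    · rw [h1]
      split_ifs with h2
      · rw [decide_eq_true h2]
        rfl
      · rw [decide_eq_false h2]
        rfl
  rcases Bool.eq_false_or_eq_true (isEnd i) with hend | hend
  · obtain ⟨x, l, d', l', R, k', t, hy, he, hc, hx, hB⟩ := ring_view hb F hw hS Bx A (by omega)
    have hle := he.2 hend
    subst hle
    have hbx := box_cls Bx t.h (by omega) hc
    subst hv
    have z0 := zb_rg (by omega) (zb_of hL v he)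
    have y0 := hb_rg hbx
    rw [h4] at t
    rw [hend, ofz_own, hy]
    exact r4e_cls hK t hc (kss hx) ⟨y0.1, y0.2, z0.1, z0.2⟩
  · obtain ⟨g, k, A2⟩ := adj_other A hend
    have A' : Adj h i p.rev.rev j := by rwa [Fin.rev_rev]
    obtain ⟨l, x, dl, ll, dr, rr, kl, kr, hE, y1, y2, s1, s2⟩ :=
      pair_sd hb F hw hS A2 A' (us_of_abs (by omega))
    have hbx := box_cls Bx hE.right (by omega) s2.cls
    have hbl := box_cls Bx hE.left (by omega) s1.cls
    have he : SK.a = .e ↔ isEnd i = true :=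
      ⟨fun h5 => absurd h5 (by decide), fun h5 => by rw [hend] at h5; exact absurd h5 (by decide)⟩
    subst hv
    have z0 := zb_rg (by omega) (zb_of hL v he)
    have y0 := hb_rg hbx
    rw [h4] at hE
    rw [hend, ofz_own, y2]
    refine r4i_cls hK (LDt.of Bx hE) s2.cls ?_
      (li_of hE.left.ok.ne (fun h5 => by subst h5; exact hE.left.ok.right.zl rfl) s1.cls hbl)
      ⟨y0.1, y0.2, z0.1, z0.2⟩
    intro hxs
    rcases Bool.eq_false_or_eq_true (us b j.val) with hu | hu
    · exact absurd (s2.s hu) hxs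
    · exact kss (Or.inr ⟨hu, (s2.u hu).1, (s2.u hu).2⟩) hxs

end

end

end Pool.Agent.Work.MP_b30479_gt.G2.CN.TD
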