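import Pool.Agent.Work.MP_b30479_gt.G2.WLocQ
import Pool.Agent.Work.MP_b30479_gt.G2.CN.LocM2
import Pool.Agent.Work.MP_b30479_gt.G2.CN.LocMd
import Pool.Agent.Work.MP_b30479_gt.G2.CN.LocRU

/-!
# The inner variable of a digit `3` next to a digit `3`
-/

namespace Pool.Agent.Work.MP_b30479_gt.G2.CN.TD

open Complex SR
open scoped ComplexConjugate

noncomputable section

lemma m4_u {c : ℤ} {m : ℂ} {A B C D : Prop}
    (h : A ∧ B ∧ C ∧ (∀ g ∈ [GC.hi (-50) c], g.P m) ∧ D) : m.im ≤ -(5 / 1000) := by
  obtain ⟨-, -, -, h1, -⟩ := h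
  have h2 : m.im ≤ ((-50 : ℤ) : ℝ) / 10000 := h1 _ m0
  norm_num at h2
  linarith only [h2]

lemma m4_s {c : ℤ} {m : ℂ} {A C : Prop}
    (h : A ∧ (∀ g ∈ [GC.hi (-50) c], g.P m) ∧ C) : m.im ≤ -(5 / 1000) := by
  obtain ⟨-, h1, -⟩ := h
  have h2 : m.im ≤ ((-50 : ℤ) : ℝ) / 10000 := h1 _ m0
  norm_num at h2
  linarith only [h2]

section
variable {K : KFam} {x : SK} {dl : ℕ} {ll rr : SK} {w kl kr : ℂ}

/-- a digit `3` at the last slot -/
theorem m4_cases (hK : KOK K) (Bx : BoxRows K) (t : RDt K 3 x .a dl ll 3 rr w kl kr)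
    (hr : rr ≠ .e) : (mH x (RR w kl) (Complex.cos w)).im ≤ -(5 / 1000) := by
  have h1 := t.right.ok.right.symm
  have h2 := t.left.ok.right.symm
  have ho := t.left.ok.left
  have hT := tan_sq (ne_of_re t.left.kre)
  have hq : RR w kl ^ 2 + 1 - 1 / Complex.cos w ^ 2 = 1 / kl ^ 2 := by
    rw [t.left.hinge]
    ring
  have hpos := h2.pos
  have kA : ∀ {H : List QC}, InH (K.K 3 rr .a) H → InH {kr} (mirH H) := by
    intro H hH k hk
    rw [Set.mem_singleton_iff] at hk
    subst hk
    exact hH.mir _ (by rw [K.symm]; exact t.right.mem')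
  have hrr : rr = .a ∨ rr = .s := by
    cases rr
    · exact absurd rfl hr
    · exact Or.inl rfl
    · exact absurd (h1.zl rfl) (by norm_num)
    · exact Or.inr rfl
  have hk : nC .a 3 rr = .three := by
    unfold nC
    rw [if_neg (by decide)]
    exact cK_c3 hr
  cases x
  · exact absurd rfl t.left.ok.ne
  · -- the hinge of kind `a`
    rcases Nat.lt_or_ge dl 4 with h4 | h4
    · have h5 : dl = 1 ∨ dl = 2 ∨ dl = 3 := by omega
      rcases h5 with rfl | rfl | rfl
      · have hl : ll = .s := far_s t.left.ok.right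
        subst hl
        rcases hrr with rfl | rfl
        · exact m4_u (tuseM hK Bx t (by decide) m4_1u_3a mn mn mn
            (hK.inH ho k3aa_ok) (hK.inH h2 k2as_ok) (allL t rfl (kA (hK.inH h1 k3aa_ok)))
            (OR.st (by decide) hK hT hq t.left.out'))
        · exact m4_u (tuseM hK Bx t (by decide) m4_1u_3s mn mn mn
            (hK.inH ho k3aa_ok) (hK.inH h2 k2as_ok) (allL t rfl (kA (hK.inH h1 k4as_ok)))
            (OR.st (by decide) hK hT hq t.left.out'))
      · by_cases hl : ll = .e
        · subst hl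
          rcases hrr with rfl | rfl
          · exact m4_u (tuseM hK Bx t (by decide) m4_2e_3a mn mn mn
              (hK.inH ho k3aa_ok) (hK.inH h2 k2ea_ok) (allL t rfl (kA (hK.inH h1 k3aa_ok)))
              (OR.e hK hT hq t.left.out'))
          · exact m4_u (tuseM hK Bx t (by decide) m4_2e_3s mn mn mn
              (hK.inH ho k3aa_ok) (hK.inH h2 k2ea_ok) (allL t rfl (kA (hK.inH h1 k4as_ok)))
              (OR.e hK hT hq t.left.out'))
        · have g := md_cases hK Bx t hl (by decide)
          rw [hk] at g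
          have g1 := g.2.1
          norm_num [mw2] at g1
          linarith only [g1]
      · cases ll
        · rcases hrr with rfl | rfl
          · exact m4_u (tuseM hK Bx t (by decide) m4_3e_3a mn mn mn
              (hK.inH ho k3aa_ok) (hK.inH h2 k3ea_ok) (allL t rfl (kA (hK.inH h1 k3aa_ok)))
              (OR.e hK hT hq t.left.out'))
          · exact m4_u (tuseM hK Bx t (by decide) m4_3e_3s mn mn mn
              (hK.inH ho k3aa_ok) (hK.inH h2 k3ea_ok) (allL t rfl (kA (hK.inH h1 k4as_ok)))
              (OR.e hK hT hq t.left.out'))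
        · rcases hrr with rfl | rfl
          · exact m4_u (tuseM hK Bx t (by decide) m4_3a_3a mn mn mn
              (hK.inH ho k3aa_ok) (hK.inH h2 k3aa_ok) (allL t rfl (kA (hK.inH h1 k3aa_ok)))
              (OR.a hK hT hq t.left.out'))
          · exact m4_u (tuseM hK Bx t (by decide) m4_3a_3s mn mn mn
              (hK.inH ho k3aa_ok) (hK.inH h2 k3aa_ok) (allL t rfl (kA (hK.inH h1 k4as_ok)))
              (OR.a hK hT hq t.left.out'))
        · exact absurd (h2.zl rfl) (by norm_num)
        · rcases hrr with rfl | rfl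
          · exact m4_u (tuseM hK Bx t (by decide) m4_3s_3a mn mn mn
              (hK.inH ho k3aa_ok) (hK.inH h2 k4as_ok) (allL t rfl (kA (hK.inH h1 k3aa_ok)))
              (OR.s hK hT hq t.left.out'))
          · exact m4_u (tuseM hK Bx t (by decide) m4_3s_3s mn mn mn
              (hK.inH ho k3aa_ok) (hK.inH h2 k4as_ok) (allL t rfl (kA (hK.inH h1 k4as_ok)))
              (OR.s hK hT hq t.left.out'))
    · rcases hrr with rfl | rfl
      · exact m4_u (tuseM hK Bx t (by decide) m4_Z_3a mn mn mn
          (hK.inH ho k3aa_ok) (in_nZa hK h2 h4) (allL t rfl (kA (hK.inH h1 k3aa_ok)))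
          AllOk.nil)
      · exact m4_u (tuseM hK Bx t (by decide) m4_Z_3s mn mn mn
          (hK.inH ho k3aa_ok) (in_nZa hK h2 h4) (allL t rfl (kA (hK.inH h1 k4as_ok)))
          AllOk.nil)
  · exact absurd (t.left.ok.left.zr rfl) (by norm_num)
  · -- a split hinge
    have hd : dl = 1 ∨ dl = 2 := by
      have h5 := t.left.ok.one rfl
      omega
    have hv := far_split Bx t.left
    have hrx : SK.a = .s ∨ (SK.a = .a ∧ (3 : ℕ) ≠ 1) := Or.inr ⟨rfl, by decide⟩
    rcases hd with rfl | rfl
    · cases ll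
      · exact absurd rfl (h2.one rfl).2.1
      · rcases hrr with rfl | rfl
        · exact m4_s (tuseN hK Bx t hv m4_1a_3a mn mn mn mn (hK.inH ho k4as_ok)
            (hK.inH h2 k2as_ok) (allLx t rfl (kA (hK.inH h1 k3aa_ok)))
            (OR.a1 (by norm_num) hK hT hq t.left.out'))
        · exact m4_s (tuseN hK Bx t hv m4_1a_3s mn mn mn mn (hK.inH ho k4as_ok)
            (hK.inH h2 k2as_ok) (allLx t rfl (kA (hK.inH h1 k4as_ok)))
            (OR.a1 (by norm_num) hK hT hq t.left.out'))
      · exact absurd (h2.zl rfl) (by norm_num)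
      · have g := m3_A1s hK Bx t hrx hv
        rw [hk] at g
        have g1 := g.2.1
        norm_num [mw3] at g1
        linarith only [g1]
    · cases ll
      · rcases hrr with rfl | rfl
        · exact m4_s (tuseN hK Bx t hv m4_12e_3a mn mn mn mn (hK.inH ho k4as_ok)
            (hK.inH h2 k3es_ok) (allLx t rfl (kA (hK.inH h1 k3aa_ok)))
            (OR.e hK hT hq t.left.out'))
        · exact m4_s (tuseN hK Bx t hv m4_12e_3s mn mn mn mn (hK.inH ho k4as_ok)
            (hK.inH h2 k3es_ok) (allLx t rfl (kA (hK.inH h1 k4as_ok)))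
            (OR.e hK hT hq t.left.out'))
      · have g := m3_A2a hK Bx t hrx hv
        rw [hk] at g
        have g1 := g.2.1
        norm_num [mw3] at g1
        linarith only [g1]
      · exact absurd (h2.zl rfl) (by norm_num)
      · have g := m3_A2s hK Bx t hrx hv
        rw [hk] at g
        have g1 := g.2.1
        norm_num [mw3] at g1
        linarith only [g1]

end

section
variable {M : ℕ} {b : Fin (M + 1) → ℤ} {w : ℕ → ℂ}
variable (hb : ClassW b) (F : RingFacts) (hw : Sol b w) {K : KFam} (hK : KOK K)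
  (hS : Snd K b w) (Bx : BoxRows K)
include hb F hw hK hS Bx

/-- **The inner variable of a digit `3` of a word next to a digit `3` at the last slot.** -/
theorem locM3_of : LocM3 b (zsW b w) := by
  constructor
  intro h h' i j k hm A A' hc hk
  have h3 := three_nat hc
  obtain ⟨x, x', dl, ll, dr, rr, kl, kr, hE, y1, y2, c1, c2⟩ :=
    A.mid_view hb F hw hS A' (us_of_abs (by omega)) hm
  rw [h3] at hE
  rw [← ofr_im, y2]
  rw [hk] at c2
  have hx : x' = .a ∧ dr = 3 ∧ rr ≠ .e := by
    unfold nC at c2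
    split_ifs at c2 with hs
    have hx := M3.kinds hE.right
    refine ⟨hx.resolve_right hs, ?_, ?_⟩
    · unfold cK at c2
      split_ifs at c2
      assumption
    · rintro rfl
      unfold cK at c2
      split_ifs at c2
      simp_all
  obtain ⟨rfl, rfl, hl⟩ := hx
  exact m4_cases hK Bx hE hl

end

end

end Pool.Agent.Work.MP_b30479_gt.G2.CN.TD
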