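import Pool.Agent.Work.MP_b30479_gt.G2.CN.TCls

/-!
# Definitions of the tests of rows with the inner variable seen from the other side

The rows need these definitions only.
-/

namespace Pool.Agent.Work.MP_b30479_gt.G2.CN

/-! ### TKin -/

namespace TD

noncomputable section

open Complex SR Ev
open scoped ComplexConjugate

/-- the common denominator -/
def dKi : Ev :=
  .nl (.sub (.nm 2 (.mul (.sub tq (.sc 2 (.k 2 0 0 0)) rfl) tl2)) (.sq tq) rfl)

/-- the exponential of the inner variable seen from the other side -/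
def tKi (H : List QC) : Grp := ⟨.mul tq tl2, dKi, (rfl : 4 = 4), H⟩

/-- the exponential of this inner variable minus the hinge -/
def tKs (H : List QC) : Grp := ⟨.sq tq, dKi, (rfl : 4 = 4), H⟩

/-- the exponential of this inner variable minus twice the hinge -/
def tKh (H : List QC) : Grp := ⟨.mul (.sq tq) tq, .mul dKi tl2, (rfl : 6 = 6), H⟩

/-- the check of a row -/
def trowOkI (o : List QC) (L : List Grp) (o' : List QC) (L' : List Grp)
    (gy gt gk gh : List GC) (n code : ℕ) : Bool :=
  row (tl o :: tr (ownR .s o') :: (L ++ L'))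
    [tYx .s (gy.map GC.q), tKi (gt.map GC.q), tKs (gk.map GC.q), tKh (gh.map GC.q)] n code rootT &&
    (gy.all GC.ok && gt.all GC.ok && gk.all GC.ok && gh.all GC.ok)

end

end TD

/-! ### LEnd2 -/

namespace TD

noncomputable section

open Complex SR
open scoped ComplexConjugate

/-- the conditions for `-(i / 2) k`, `k` in the polygon with 3 crossings -/
def x3as : List QC :=
  [⟨88000, -50000, 0, 26472⟩, ⟨242000, -6000, 0, 24932⟩, ⟨-2000, 208000, 0, -88481⟩,
    ⟨-52000, 208000, 0, -95706⟩, ⟨-66000, -8000, 0, -9681⟩, ⟨-116000, -70000, 0, 5053⟩,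
    ⟨-124000, -160000, 0, 36532⟩, ⟨30000, -122000, 0, 44919⟩]

/-- the conditions for `-(i / 2) k`, `k` in the polygon with 2 crossings -/
def x2as : List QC :=
  [⟨168000, -108000, 0, 60462⟩, ⟨376000, 98000, 0, 24403⟩, ⟨52000, 300000, 0, -117076⟩,
    ⟨-100000, 338000, 0, -171473⟩, ⟨-206000, -48000, 0, -49196⟩, ⟨-292000, -294000, 0, 10934⟩,
    ⟨-62000, -154000, 0, 28329⟩, ⟨64000, -132000, 0, 48882⟩]

end

end TD

end Pool.Agent.Work.MP_b30479_gt.G2.CN
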