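import Pool.Agent.Work.MP_b30479_gt.G2.CN.TMis
import Pool.Agent.Work.MP_b30479_gt.G2.CN.RowE

/-!
# Rows for a region with three crossings between the slots

The hinge at one side of kind `s`, with the variable `R`. `tKi`: the exponential of the inner
variable seen from the *other* side, `tKs`: of this inner variable minus the hinge, `tKh`: of this
inner variable minus twice the hinge.
-/

namespace Pool.Agent.Work.MP_b30479_gt.G2.CN.TD

open Complex SR Ev
open scoped ComplexConjugate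

noncomputable section

section
variable {K : KFam} {r : SK} {dl : ℕ} {ll : SK} {dr : ℕ} {rr : SK} {w kl kr : ℂ}

lemma val_dKi (R T : ℂ) : dKi.val R T =
    2 * ((T ^ 2 + 1 - 2) * Ev.tl2.val R T) - (T ^ 2 + 1) ^ 2 := by
  change ((2 : ℕ) : ℂ) * ((T ^ 2 + 1 - gz 2 0 0 0) * Ev.tl2.val R T) - (T ^ 2 + 1) ^ 2 = _
  have e : gz 2 0 0 0 = 2 := by
    unfold gz
    apply Complex.ext <;> simp
  rw [e]
  norm_num

/-- the exponential of the inner variable seen from the other side -/
lemma expK (t : RDt K 3 .s r dl ll dr rr w kl kr)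
    (hu : (yH .s (RR w kl) (Complex.cos w)).re < 1 / 2)
    (hv : (yH r (RR w kr) (Complex.cos w)).re < 1 / 2)
    (h2 : (acot2 (Sp (RR w kl) (Complex.cos w))).re < 1 / 2) (H : List QC) :
    cexp (2 * Real.pi * I * mH r (RR w kr) (Complex.cos w)) *
      (tKi H).M.val (RR w kl) (Complex.tan w) = (tKi H).N.val (RR w kl) (Complex.tan w) := by
  have T := M3.tri_of t.symm hv hu
  have E := M3.exps_of T hv hu
  have hR : 0 < (RR w kl).re := r0_pos.trans t.left.Rre
  have hc0 := ne_of_re t.left.kre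
  have ht := tan_sq hc0
  have eY := expY (w := w) (x := .s) t.left.kre hR (fun _ => h2) H
  have ev := E.ev
  have em := E.em
  have qk := T.qk
  change _ * Ev.tq.val _ _ = Ev.tl2.val _ _ at eY
  change _ * dKi.val _ _ = Ev.tq.val _ _ * Ev.tl2.val _ _
  rw [val_dKi]
  rw [Ev.val_tq] at eY ⊢
  rw [ht] at eY ⊢
  unfold yH at eY
  unfold mH
  set U := Hq .s (RR w kl) (Complex.cos w)
  set M := Sp (Hq r (RR w kr) (Complex.cos w)) (Complex.cos w)
  set Ev' := cexp (2 * Real.pi * I * acot2 U)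
  set Em := cexp (2 * Real.pi * I * acot2 M)
  set Q := 1 / Complex.cos w ^ 2
  rw [← eY]
  linear_combination (Em * Q ^ 2) * ev + (Q ^ 2 * Ev') * em + (4 * Em * Ev' * Q) * qk

/-- the exponential of this inner variable minus the hinge -/
lemma expKs (t : RDt K 3 .s r dl ll dr rr w kl kr)
    (hu : (yH .s (RR w kl) (Complex.cos w)).re < 1 / 2)
    (hv : (yH r (RR w kr) (Complex.cos w)).re < 1 / 2)
    (h2 : (acot2 (Sp (RR w kl) (Complex.cos w))).re < 1 / 2) (H : List QC) :
    cexp (2 * Real.pi * I * (mH r (RR w kr) (Complex.cos w) - yH .s (RR w kl) (Complex.cos w))) *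
      (tKs H).M.val (RR w kl) (Complex.tan w) = (tKs H).N.val (RR w kl) (Complex.tan w) := by
  have e1 := expK t hu hv h2 H
  have hR : 0 < (RR w kl).re := r0_pos.trans t.left.Rre
  have e2 := expY (w := w) (x := .s) t.left.kre hR (fun _ => h2) H
  have h0 := Complex.exp_ne_zero (2 * Real.pi * I * yH .s (RR w kl) (Complex.cos w))
  change _ * dKi.val _ _ = Ev.tq.val _ _ * Ev.tl2.val _ _ at e1
  change _ * Ev.tq.val _ _ = Ev.tl2.val _ _ at e2
  change _ * dKi.val _ _ = Ev.tq.val _ _ ^ 2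
  rw [← e2] at e1
  rw [mul_sub, Complex.exp_sub, div_mul_eq_mul_div, e1]
  field_simp

/-- the exponential of this inner variable minus twice the hinge -/
lemma expKh (t : RDt K 3 .s r dl ll dr rr w kl kr)
    (hu : (yH .s (RR w kl) (Complex.cos w)).re < 1 / 2)
    (hv : (yH r (RR w kr) (Complex.cos w)).re < 1 / 2)
    (h2 : (acot2 (Sp (RR w kl) (Complex.cos w))).re < 1 / 2) (H : List QC) :
    cexp (2 * Real.pi * I *
      (mH r (RR w kr) (Complex.cos w) - 2 * yH .s (RR w kl) (Complex.cos w))) *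
      (tKh H).M.val (RR w kl) (Complex.tan w) = (tKh H).N.val (RR w kl) (Complex.tan w) := by
  have e1 := expKs t hu hv h2 H
  have hR : 0 < (RR w kl).re := r0_pos.trans t.left.Rre
  have e2 := expY (w := w) (x := .s) t.left.kre hR (fun _ => h2) H
  have h0 := Complex.exp_ne_zero (2 * Real.pi * I * yH .s (RR w kl) (Complex.cos w))
  change _ * dKi.val _ _ = Ev.tq.val _ _ ^ 2 at e1
  change _ * Ev.tq.val _ _ = Ev.tl2.val _ _ at e2
  change _ * (dKi.val _ _ * Ev.tl2.val _ _) = Ev.tq.val _ _ ^ 2 * Ev.tq.val _ _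
  rw [← e2, ← e1]
  rw [show 2 * Real.pi * I * (mH r (RR w kr) (Complex.cos w) -
      2 * yH .s (RR w kl) (Complex.cos w)) =
      2 * Real.pi * I * (mH r (RR w kr) (Complex.cos w) - yH .s (RR w kl) (Complex.cos w)) -
      2 * Real.pi * I * yH .s (RR w kl) (Complex.cos w) by ring, Complex.exp_sub]
  field_simp

/-- **The bounds of a row.** -/
theorem tuseI (hK : KOK K) (Bx : BoxRows K) (t : RDt K 3 .s r dl ll dr rr w kl kr)
    {o : List QC} {L : List Grp} {o' : List QC} {L' : List Grp}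
    {gy gt gk gh : List GC} {n code : ℕ}
    (hr : trowOkI o L o' L' gy gt gk gh n code = true)
    (ho : InH (K.K 3 r .s) o) (ho' : InH (K.K dl ll .s) o')
    (hL : AllOk (RR w kl) (Complex.tan w) L) (hL' : AllOk (RR w kl) (Complex.tan w) L') :
    (∀ g ∈ gy, g.P (yH .s (RR w kl) (Complex.cos w))) ∧
      (∀ g ∈ gt, g.P (mH r (RR w kr) (Complex.cos w))) ∧
      (∀ g ∈ gk, g.P (mH r (RR w kr) (Complex.cos w) - yH .s (RR w kl) (Complex.cos w))) ∧
      ∀ g ∈ gh, g.P (mH r (RR w kr) (Complex.cos w) - 2 * yH .s (RR w kl) (Complex.cos w)) := by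
  have hxe : SK.s ≠ .e := t.left.ok.ne
  have hre : r ≠ .e := t.right.ok.ne
  obtain ⟨hu, hv'⟩ := re_halfx Bx t hxe hre
  have hc := t.left.kre
  have hc0 := ne_of_re hc
  have hT := tan_sq hc0
  have hR : 0 < (RR w kl).re := r0_pos.trans t.left.Rre
  have hq : RR w kl ^ 2 + 1 - 1 / Complex.cos w ^ 2 = 1 / kl ^ 2 := by
    rw [t.left.hinge]
    ring
  have hm' := t.left.mem'
  have h1 := inH_ownR (x := .s) ho'
  rw [← K.symm] at h1
  have h2 : (acot2 (Sp (RR w kl) (Complex.cos w))).re < 1 / 2 := (Bx.sp t.left).2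
  unfold trowOkI at hr
  rw [Bool.and_eq_true, Bool.and_eq_true, Bool.and_eq_true, Bool.and_eq_true] at hr
  obtain ⟨hrow, ⟨⟨k5, k6⟩, k7⟩, k8⟩ := hr
  have hl : AllOk (RR w kl) (Complex.tan w) (tl o :: tr (ownR .s o') :: (L ++ L')) :=
    AllOk.cons (tl_ok hc0 hT (ho _ t.left.mem))
      (AllOk.cons (tr_ok (ne_of_re t.left.kre') hT hq (h1 kl hm')) (hL.append hL'))
  have hm := rootT_mem hK t.left hT (tan_re t.w0 t.w1)
  refine ⟨fun g hg => ?_, fun g hg => ?_, fun g hg => ?_, fun g hg => ?_⟩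
  · exact GC.spec (List.all_eq_true.1 k5 g hg) (row_sound hrow hm hl
      (g := tYx .s (gy.map GC.q)) (by simp) (expY hc hR (fun _ => h2) _) g.q
      (List.mem_map_of_mem hg))
  · exact GC.spec (List.all_eq_true.1 k6 g hg) (row_sound hrow hm hl
      (g := tKi (gt.map GC.q)) (by simp) (expK t hu hv' h2 _) g.q
      (List.mem_map_of_mem hg))
  · exact GC.spec (List.all_eq_true.1 k7 g hg) (row_sound hrow hm hl
      (g := tKs (gk.map GC.q)) (by simp) (expKs t hu hv' h2 _) g.q
      (List.mem_map_of_mem hg))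
  · exact GC.spec (List.all_eq_true.1 k8 g hg) (row_sound hrow hm hl
      (g := tKh (gh.map GC.q)) (by simp) (expKh t hu hv' h2 _) g.q
      (List.mem_map_of_mem hg))

end

end

end Pool.Agent.Work.MP_b30479_gt.G2.CN.TD
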