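import Pool.Agent.Work.MP_b30479_gt.G2.WLocK
import Pool.Agent.Work.MP_b30479_gt.G2.CN.LocM4
import Pool.Agent.Work.MP_b30479_gt.G2.CN.TRyA
import Pool.Agent.Work.MP_b30479_gt.G2.CN.TRyB
import Pool.Agent.Work.MP_b30479_gt.G2.CN.TRyC
import Pool.Agent.Work.MP_b30479_gt.G2.CN.TRyD
import Pool.Agent.Work.MP_b30479_gt.G2.CN.TRyE
import Pool.Agent.Work.MP_b30479_gt.G2.CN.TRyF
import Pool.Agent.Work.MP_b30479_gt.G2.CN.TRyG
import Pool.Agent.Work.MP_b30479_gt.G2.CN.TRyH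
import Pool.Agent.Work.MP_b30479_gt.G2.CN.TRyI
import Pool.Agent.Work.MP_b30479_gt.G2.CN.TRyJ
import Pool.Agent.Work.MP_b30479_gt.G2.CN.TRyK
import Pool.Agent.Work.MP_b30479_gt.G2.CN.TRyL
import Pool.Agent.Work.MP_b30479_gt.G2.CN.TRyM
import Pool.Agent.Work.MP_b30479_gt.G2.CN.TRyN
import Pool.Agent.Work.MP_b30479_gt.G2.CN.TRyO
import Pool.Agent.Work.MP_b30479_gt.G2.CN.TRyP
import Pool.Agent.Work.MP_b30479_gt.G2.CN.TRyQ
import Pool.Agent.Work.MP_b30479_gt.G2.CN.TRyR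
import Pool.Agent.Work.MP_b30479_gt.G2.CN.TRyS
import Pool.Agent.Work.MP_b30479_gt.G2.CN.TRyT
import Pool.Agent.Work.MP_b30479_gt.G2.CN.TRyU
import Pool.Agent.Work.MP_b30479_gt.G2.CN.TRyV
import Pool.Agent.Work.MP_b30479_gt.G2.CN.TKin

/-!
# Windows at a digit `3` with a digit `1` at the last slot
-/

namespace Pool.Agent.Work.MP_b30479_gt.G2.CN.TD

open Complex SR
open scoped ComplexConjugate

noncomputable section

lemma g5_m {c : ℤ} {e : ℤ} {m : ℂ} {A B C D : Prop}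
    (h : A ∧ B ∧ C ∧ (∀ g ∈ [GC.hi c e], g.P m) ∧ D) : m.im ≤ (c : ℝ) / 10000 := by
  obtain ⟨-, -, -, h1, -⟩ := h
  exact h1 _ m0

lemma g5_y {c : ℤ} {e : ℤ} {y : ℂ} {D : Prop}
    (h : (∀ g ∈ [GC.lo c e], g.P y) ∧ D) : (c : ℝ) / 10000 ≤ y.im := h.1 _ m0

/-- the windows are monotone -/
lemma w5_le {a : ℝ} {x y : ℝ} (h : x ≤ a) (h2 : a ≤ y) : x ≤ y := h.trans h2

section
variable {K : KFam} {x r : SK} {dl : ℕ} {ll : SK} {dr : ℕ} {rr : SK} {w kl kr : ℂ}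

lemma kS5 (t : RDt K 3 x .s dl ll dr rr w kl kr) {H : List QC} (hH : InH (K.K dr rr .s) H) :
    InH {kr} H := by
  intro k hk
  rw [Set.mem_singleton_iff] at hk
  subst hk
  have h3 := t.right.mem'
  rw [K.symm] at h3
  have e : frS SK.s.sgn (K.K dr rr .s) = K.K dr rr .s := frS_one _
  rw [e] at h3
  exact hH _ h3

/-- what is behind an absorbed digit `1` next to a digit `3` -/
lemma beh5 (t : RDt K 3 x .s dl ll dr rr w kl kr) :
    (dr = 1 ∧ rr = .a) ∨ (dr = 1 ∧ rr = .s) ∨ (dr = 2 ∧ rr = .a) ∨ (dr = 2 ∧ rr = .s) ∨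
      (dr = 2 ∧ rr = .e) := by
  have h1 : ROK dr rr .s := t.right.ok.right.symm
  have h5 := t.right.ok.one rfl
  have hp := h1.pos
  have hd : dr = 1 ∨ dr = 2 := by omega
  have hz : rr ≠ .z := fun h => by
    have := h1.zl h
    omega
  rcases hd with rfl | rfl
  · cases rr
    · exact absurd rfl (h1.one rfl).2.1
    · exact Or.inl ⟨rfl, rfl⟩
    · exact absurd rfl hz
    · exact Or.inr (Or.inl ⟨rfl, rfl⟩)
  · cases rr
    · exact Or.inr (Or.inr (Or.inr (Or.inr ⟨rfl, rfl⟩)))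
    · exact Or.inr (Or.inr (Or.inl ⟨rfl, rfl⟩))
    · exact absurd rfl hz
    · exact Or.inr (Or.inr (Or.inr (Or.inl ⟨rfl, rfl⟩)))

lemma cK1 (l : SK) : cK 1 l = .one := rfl
lemma cK2a : cK 2 .a = .two := rfl
lemma cK2s : cK 2 .s = .two := rfl
lemma cK2e : cK 2 .e = .twoE := rfl
lemma cK3a : cK 3 .a = .three := rfl
lemma cK3s : cK 3 .s = .three := rfl
lemma cK3e : cK 3 .e = .threeE := rfl

theorem m5_case_3a (hK : KOK K) (Bx : BoxRows K) (t : RDt K 3 .a .s 3 .a dr rr w kl kr) :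
    (mH .a (RR w kl) (Complex.cos w)).im ≤ w5L .three (cK dr rr) := by
  have h1 : ROK dr rr .s := t.right.ok.right.symm
  have h2 := t.left.ok.right.symm
  have ho := t.left.ok.left
  have hT := tan_sq (ne_of_re t.left.kre)
  have hq : RR w kl ^ 2 + 1 - 1 / Complex.cos w ^ 2 = 1 / kl ^ 2 := by
    rw [t.left.hinge]
    ring
  rcases beh5 t with ⟨rfl, rfl⟩ | ⟨rfl, rfl⟩ | ⟨rfl, rfl⟩ | ⟨rfl, rfl⟩ | ⟨rfl, rfl⟩
  · rw [cK1]
    exact (g5_m (tuseM hK Bx t (by decide) m5_3a_1a mn mn mn (hK.inH ho k4as_ok) (hK.inH h2 k3aa_ok)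
      (allL t rfl (kS5 t (hK.inH h1 k2as_ok))) (OR.a hK hT hq t.left.out'))).trans (by norm_num [w5L])
  · rw [cK1]
    exact (g5_m (tuseM hK Bx t (by decide) m5_3a_1s mn mn mn (hK.inH ho k4as_ok) (hK.inH h2 k3aa_ok)
      (allL t rfl (kS5 t (hK.inH h1 k3ss_ok))) (OR.a hK hT hq t.left.out'))).trans (by norm_num [w5L])
  · rw [cK2a]
    exact (g5_m (tuseM hK Bx t (by decide) m5_3a_2a mn mn mn (hK.inH ho k4as_ok) (hK.inH h2 k3aa_ok)
      (allL t rfl (kS5 t (hK.inH h1 k3as_ok))) (OR.a hK hT hq t.left.out'))).trans (by norm_num [w5L])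
  · rw [cK2s]
    exact (g5_m (tuseM hK Bx t (by decide) m5_3a_2s mn mn mn (hK.inH ho k4as_ok) (hK.inH h2 k3aa_ok)
      (allL t rfl (kS5 t (hK.inH h1 k4ss_ok))) (OR.a hK hT hq t.left.out'))).trans (by norm_num [w5L])
  · rw [cK2e]
    exact (g5_m (tuseM hK Bx t (by decide) m5_3a_2e mn mn mn (hK.inH ho k4as_ok) (hK.inH h2 k3aa_ok)
      (allL t rfl (kS5 t (hK.inH h1 k3es_ok))) (OR.a hK hT hq t.left.out'))).trans (by norm_num [w5L])

theorem m5_case_3s (hK : KOK K) (Bx : BoxRows K) (t : RDt K 3 .a .s 3 .s dr rr w kl kr) :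
    (mH .a (RR w kl) (Complex.cos w)).im ≤ w5L .three (cK dr rr) := by
  have h1 : ROK dr rr .s := t.right.ok.right.symm
  have h2 := t.left.ok.right.symm
  have ho := t.left.ok.left
  have hT := tan_sq (ne_of_re t.left.kre)
  have hq : RR w kl ^ 2 + 1 - 1 / Complex.cos w ^ 2 = 1 / kl ^ 2 := by
    rw [t.left.hinge]
    ring
  rcases beh5 t with ⟨rfl, rfl⟩ | ⟨rfl, rfl⟩ | ⟨rfl, rfl⟩ | ⟨rfl, rfl⟩ | ⟨rfl, rfl⟩
  · rw [cK1]
    exact (g5_m (tuseM hK Bx t (by decide) m5_3s_1a mn mn mn (hK.inH ho k4as_ok) (hK.inH h2 k4as_ok)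
      (allL t rfl (kS5 t (hK.inH h1 k2as_ok))) (OR.s hK hT hq t.left.out'))).trans (by norm_num [w5L])
  · rw [cK1]
    exact (g5_m (tuseM hK Bx t (by decide) m5_3s_1s mn mn mn (hK.inH ho k4as_ok) (hK.inH h2 k4as_ok)
      (allL t rfl (kS5 t (hK.inH h1 k3ss_ok))) (OR.s hK hT hq t.left.out'))).trans (by norm_num [w5L])
  · rw [cK2a]
    exact (g5_m (tuseM hK Bx t (by decide) m5_3s_2a mn mn mn (hK.inH ho k4as_ok) (hK.inH h2 k4as_ok)
      (allL t rfl (kS5 t (hK.inH h1 k3as_ok))) (OR.s hK hT hq t.left.out'))).trans (by norm_num [w5L])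
  · rw [cK2s]
    exact (g5_m (tuseM hK Bx t (by decide) m5_3s_2s mn mn mn (hK.inH ho k4as_ok) (hK.inH h2 k4as_ok)
      (allL t rfl (kS5 t (hK.inH h1 k4ss_ok))) (OR.s hK hT hq t.left.out'))).trans (by norm_num [w5L])
  · rw [cK2e]
    exact (g5_m (tuseM hK Bx t (by decide) m5_3s_2e mn mn mn (hK.inH ho k4as_ok) (hK.inH h2 k4as_ok)
      (allL t rfl (kS5 t (hK.inH h1 k3es_ok))) (OR.s hK hT hq t.left.out'))).trans (by norm_num [w5L])

theorem m5_case_3e (hK : KOK K) (Bx : BoxRows K) (t : RDt K 3 .a .s 3 .e dr rr w kl kr) :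
    (mH .a (RR w kl) (Complex.cos w)).im ≤ w5L .threeE (cK dr rr) := by
  have h1 : ROK dr rr .s := t.right.ok.right.symm
  have h2 := t.left.ok.right.symm
  have ho := t.left.ok.left
  have hT := tan_sq (ne_of_re t.left.kre)
  have hq : RR w kl ^ 2 + 1 - 1 / Complex.cos w ^ 2 = 1 / kl ^ 2 := by
    rw [t.left.hinge]
    ring
  rcases beh5 t with ⟨rfl, rfl⟩ | ⟨rfl, rfl⟩ | ⟨rfl, rfl⟩ | ⟨rfl, rfl⟩ | ⟨rfl, rfl⟩
  · rw [cK1]
    exact (g5_m (tuseM hK Bx t (by decide) m5_3e_1a mn mn mn (hK.inH ho k4as_ok) (hK.inH h2 k3ea_ok)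
      (allL t rfl (kS5 t (hK.inH h1 k2as_ok))) (OR.e hK hT hq t.left.out'))).trans (by norm_num [w5L])
  · rw [cK1]
    exact (g5_m (tuseM hK Bx t (by decide) m5_3e_1s mn mn mn (hK.inH ho k4as_ok) (hK.inH h2 k3ea_ok)
      (allL t rfl (kS5 t (hK.inH h1 k3ss_ok))) (OR.e hK hT hq t.left.out'))).trans (by norm_num [w5L])
  · rw [cK2a]
    exact (g5_m (tuseM hK Bx t (by decide) m5_3e_2a mn mn mn (hK.inH ho k4as_ok) (hK.inH h2 k3ea_ok)
      (allL t rfl (kS5 t (hK.inH h1 k3as_ok))) (OR.e hK hT hq t.left.out'))).trans (by norm_num [w5L])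
  · rw [cK2s]
    exact (g5_m (tuseM hK Bx t (by decide) m5_3e_2s mn mn mn (hK.inH ho k4as_ok) (hK.inH h2 k3ea_ok)
      (allL t rfl (kS5 t (hK.inH h1 k4ss_ok))) (OR.e hK hT hq t.left.out'))).trans (by norm_num [w5L])
  · rw [cK2e]
    exact (g5_m (tuseM hK Bx t (by decide) m5_3e_2e mn mn mn (hK.inH ho k4as_ok) (hK.inH h2 k3ea_ok)
      (allL t rfl (kS5 t (hK.inH h1 k3es_ok))) (OR.e hK hT hq t.left.out'))).trans (by norm_num [w5L])

theorem m5_case_2a (hK : KOK K) (Bx : BoxRows K) (t : RDt K 3 .a .s 2 .a dr rr w kl kr) :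
    (mH .a (RR w kl) (Complex.cos w)).im ≤ w5L .two (cK dr rr) := by
  have h1 : ROK dr rr .s := t.right.ok.right.symm
  have h2 := t.left.ok.right.symm
  have ho := t.left.ok.left
  have hT := tan_sq (ne_of_re t.left.kre)
  have hq : RR w kl ^ 2 + 1 - 1 / Complex.cos w ^ 2 = 1 / kl ^ 2 := by
    rw [t.left.hinge]
    ring
  rcases beh5 t with ⟨rfl, rfl⟩ | ⟨rfl, rfl⟩ | ⟨rfl, rfl⟩ | ⟨rfl, rfl⟩ | ⟨rfl, rfl⟩
  · rw [cK1]
    exact (g5_m (tuseM hK Bx t (by decide) m5_2a_1a mn mn mn (hK.inH ho k4as_ok) (hK.inH h2 k2aa_ok)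
      (allL t rfl (kS5 t (hK.inH h1 k2as_ok))) (OR.a hK hT hq t.left.out'))).trans (by norm_num [w5L])
  · rw [cK1]
    exact (g5_m (tuseM hK Bx t (by decide) m5_2a_1s mn mn mn (hK.inH ho k4as_ok) (hK.inH h2 k2aa_ok)
      (allL t rfl (kS5 t (hK.inH h1 k3ss_ok))) (OR.a hK hT hq t.left.out'))).trans (by norm_num [w5L])
  · rw [cK2a]
    exact (g5_m (tuseM hK Bx t (by decide) m5_2a_2a mn mn mn (hK.inH ho k4as_ok) (hK.inH h2 k2aa_ok)
      (allL t rfl (kS5 t (hK.inH h1 k3as_ok))) (OR.a hK hT hq t.left.out'))).trans (by norm_num [w5L])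
  · rw [cK2s]
    exact (g5_m (tuseM hK Bx t (by decide) m5_2a_2s mn mn mn (hK.inH ho k4as_ok) (hK.inH h2 k2aa_ok)
      (allL t rfl (kS5 t (hK.inH h1 k4ss_ok))) (OR.a hK hT hq t.left.out'))).trans (by norm_num [w5L])
  · rw [cK2e]
    exact (g5_m (tuseM hK Bx t (by decide) m5_2a_2e mn mn mn (hK.inH ho k4as_ok) (hK.inH h2 k2aa_ok)
      (allL t rfl (kS5 t (hK.inH h1 k3es_ok))) (OR.a hK hT hq t.left.out'))).trans (by norm_num [w5L])

theorem m5_case_2s (hK : KOK K) (Bx : BoxRows K) (t : RDt K 3 .a .s 2 .s dr rr w kl kr) :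
    (mH .a (RR w kl) (Complex.cos w)).im ≤ w5L .two (cK dr rr) := by
  have h1 : ROK dr rr .s := t.right.ok.right.symm
  have h2 := t.left.ok.right.symm
  have ho := t.left.ok.left
  have hT := tan_sq (ne_of_re t.left.kre)
  have hq : RR w kl ^ 2 + 1 - 1 / Complex.cos w ^ 2 = 1 / kl ^ 2 := by
    rw [t.left.hinge]
    ring
  rcases beh5 t with ⟨rfl, rfl⟩ | ⟨rfl, rfl⟩ | ⟨rfl, rfl⟩ | ⟨rfl, rfl⟩ | ⟨rfl, rfl⟩
  · rw [cK1]
    exact (g5_m (tuseM hK Bx t (by decide) m5_2s_1a mn mn mn (hK.inH ho k4as_ok) (hK.inH h2 k3as_ok)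
      (allL t rfl (kS5 t (hK.inH h1 k2as_ok))) (OR.s hK hT hq t.left.out'))).trans (by norm_num [w5L])
  · rw [cK1]
    exact (g5_m (tuseM hK Bx t (by decide) m5_2s_1s mn mn mn (hK.inH ho k4as_ok) (hK.inH h2 k3as_ok)
      (allL t rfl (kS5 t (hK.inH h1 k3ss_ok))) (OR.s hK hT hq t.left.out'))).trans (by norm_num [w5L])
  · rw [cK2a]
    exact (g5_m (tuseM hK Bx t (by decide) m5_2s_2a mn mn mn (hK.inH ho k4as_ok) (hK.inH h2 k3as_ok)
      (allL t rfl (kS5 t (hK.inH h1 k3as_ok))) (OR.s hK hT hq t.left.out'))).trans (by norm_num [w5L])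
  · rw [cK2s]
    exact (g5_m (tuseM hK Bx t (by decide) m5_2s_2s mn mn mn (hK.inH ho k4as_ok) (hK.inH h2 k3as_ok)
      (allL t rfl (kS5 t (hK.inH h1 k4ss_ok))) (OR.s hK hT hq t.left.out'))).trans (by norm_num [w5L])
  · rw [cK2e]
    exact (g5_m (tuseM hK Bx t (by decide) m5_2s_2e mn mn mn (hK.inH ho k4as_ok) (hK.inH h2 k3as_ok)
      (allL t rfl (kS5 t (hK.inH h1 k3es_ok))) (OR.s hK hT hq t.left.out'))).trans (by norm_num [w5L])

theorem m5_case_2e (hK : KOK K) (Bx : BoxRows K) (t : RDt K 3 .a .s 2 .e dr rr w kl kr) :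
    (mH .a (RR w kl) (Complex.cos w)).im ≤ w5L .twoE (cK dr rr) := by
  have h1 : ROK dr rr .s := t.right.ok.right.symm
  have h2 := t.left.ok.right.symm
  have ho := t.left.ok.left
  have hT := tan_sq (ne_of_re t.left.kre)
  have hq : RR w kl ^ 2 + 1 - 1 / Complex.cos w ^ 2 = 1 / kl ^ 2 := by
    rw [t.left.hinge]
    ring
  rcases beh5 t with ⟨rfl, rfl⟩ | ⟨rfl, rfl⟩ | ⟨rfl, rfl⟩ | ⟨rfl, rfl⟩ | ⟨rfl, rfl⟩
  · rw [cK1]
    exact (g5_m (tuseM hK Bx t (by decide) m5_2e_1a mn mn mn (hK.inH ho k4as_ok) (hK.inH h2 k2ea_ok)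
      (allL t rfl (kS5 t (hK.inH h1 k2as_ok))) (OR.e hK hT hq t.left.out'))).trans (by norm_num [w5L])
  · rw [cK1]
    exact (g5_m (tuseM hK Bx t (by decide) m5_2e_1s mn mn mn (hK.inH ho k4as_ok) (hK.inH h2 k2ea_ok)
      (allL t rfl (kS5 t (hK.inH h1 k3ss_ok))) (OR.e hK hT hq t.left.out'))).trans (by norm_num [w5L])
  · rw [cK2a]
    exact (g5_m (tuseM hK Bx t (by decide) m5_2e_2a mn mn mn (hK.inH ho k4as_ok) (hK.inH h2 k2ea_ok)
      (allL t rfl (kS5 t (hK.inH h1 k3as_ok))) (OR.e hK hT hq t.left.out'))).trans (by norm_num [w5L])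
  · rw [cK2s]
    exact (g5_m (tuseM hK Bx t (by decide) m5_2e_2s mn mn mn (hK.inH ho k4as_ok) (hK.inH h2 k2ea_ok)
      (allL t rfl (kS5 t (hK.inH h1 k4ss_ok))) (OR.e hK hT hq t.left.out'))).trans (by norm_num [w5L])
  · rw [cK2e]
    exact (g5_m (tuseM hK Bx t (by decide) m5_2e_2e mn mn mn (hK.inH ho k4as_ok) (hK.inH h2 k2ea_ok)
      (allL t rfl (kS5 t (hK.inH h1 k3es_ok))) (OR.e hK hT hq t.left.out'))).trans (by norm_num [w5L])

theorem m5_case_Z (hK : KOK K) (Bx : BoxRows K) (t : RDt K 3 .a .s dl ll dr rr w kl kr)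
    (h4 : 4 ≤ dl) : (mH .a (RR w kl) (Complex.cos w)).im ≤ w5L .ring (cK dr rr) := by
  have h1 : ROK dr rr .s := t.right.ok.right.symm
  have h2 := t.left.ok.right.symm
  have ho := t.left.ok.left
  have hT := tan_sq (ne_of_re t.left.kre)
  have hq : RR w kl ^ 2 + 1 - 1 / Complex.cos w ^ 2 = 1 / kl ^ 2 := by
    rw [t.left.hinge]
    ring
  rcases beh5 t with ⟨rfl, rfl⟩ | ⟨rfl, rfl⟩ | ⟨rfl, rfl⟩ | ⟨rfl, rfl⟩ | ⟨rfl, rfl⟩
  · rw [cK1]
    exact (g5_m (tuseM hK Bx t (by decide) m5_Z_1a mn mn mn (hK.inH ho k4as_ok) (in_nZa hK h2 h4)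
      (allL t rfl (kS5 t (hK.inH h1 k2as_ok))) AllOk.nil)).trans (by norm_num [w5L])
  · rw [cK1]
    exact (g5_m (tuseM hK Bx t (by decide) m5_Z_1s mn mn mn (hK.inH ho k4as_ok) (in_nZa hK h2 h4)
      (allL t rfl (kS5 t (hK.inH h1 k3ss_ok))) AllOk.nil)).trans (by norm_num [w5L])
  · rw [cK2a]
    exact (g5_m (tuseM hK Bx t (by decide) m5_Z_2a mn mn mn (hK.inH ho k4as_ok) (in_nZa hK h2 h4)
      (allL t rfl (kS5 t (hK.inH h1 k3as_ok))) AllOk.nil)).trans (by norm_num [w5L])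
  · rw [cK2s]
    exact (g5_m (tuseM hK Bx t (by decide) m5_Z_2s mn mn mn (hK.inH ho k4as_ok) (in_nZa hK h2 h4)
      (allL t rfl (kS5 t (hK.inH h1 k4ss_ok))) AllOk.nil)).trans (by norm_num [w5L])
  · rw [cK2e]
    exact (g5_m (tuseM hK Bx t (by decide) m5_Z_2e mn mn mn (hK.inH ho k4as_ok) (in_nZa hK h2 h4)
      (allL t rfl (kS5 t (hK.inH h1 k3es_ok))) AllOk.nil)).trans (by norm_num [w5L])

/-- **The inner variable.** -/
theorem m5_all (hK : KOK K) (Bx : BoxRows K) (t : RDt K 3 .a .s dl ll dr rr w kl kr)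
    (hd : dl ≠ 1) : (mH .a (RR w kl) (Complex.cos w)).im ≤ w5L (cK dl ll) (cK dr rr) := by
  have h2 : ROK dl ll .a := t.left.ok.right.symm
  have hp := h2.pos
  rcases Nat.lt_or_ge dl 4 with h4 | h4
  · have hz : ll ≠ .z := fun h => by
      have := h2.zl h
      omega
    have h5 : dl = 2 ∨ dl = 3 := by omega
    rcases h5 with rfl | rfl
    · cases ll
      · exact m5_case_2e hK Bx t
      · exact m5_case_2a hK Bx t
      · exact absurd rfl hz
      · exact m5_case_2s hK Bx t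
    · cases ll
      · exact m5_case_3e hK Bx t
      · exact m5_case_3a hK Bx t
      · exact absurd rfl hz
      · exact m5_case_3s hK Bx t
  · rw [cK_ring h4]
    exact m5_case_Z hK Bx t h4

theorem y5_case_1a (hK : KOK K) (Bx : BoxRows K) (t : RDt K 3 .s .a 1 .a dr rr w kl kr)
    (hd : dr ≠ 1) : -(w5T (cK dr rr) .one) ≤ (yH .s (RR w kl) (Complex.cos w)).im := by
  have h1 : ROK dr rr .a := t.right.ok.right.symm
  have h2 := t.left.ok.right.symm
  have ho := t.left.ok.left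
  have hT := tan_sq (ne_of_re t.left.kre)
  have hq : RR w kl ^ 2 + 1 - 1 / Complex.cos w ^ 2 = 1 / kl ^ 2 := by
    rw [t.left.hinge]
    ring
  have hv := far_split Bx t.left
  have kA : ∀ {H : List QC}, InH (K.K dr rr .a) H → InH {kr} (mirH H) := by
    intro H hH k hk
    rw [Set.mem_singleton_iff] at hk
    subst hk
    exact hH.mir _ (by rw [K.symm]; exact t.right.mem')
  have hp := h1.pos
  rcases Nat.lt_or_ge dr 4 with h4 | h4
  · have hz : rr ≠ .z := fun h => by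
      have := h1.zl h
      omega
    have h5 : dr = 2 ∨ dr = 3 := by omega
    rcases h5 with rfl | rfl
    · cases rr
      · rw [cK2e]
        refine le_trans ?_ (g5_y (tuseN hK Bx t hv y5_2e_1a mn mn mn mn (hK.inH ho k4as_ok)
          (hK.inH h2 k2as_ok) (allLx t rfl (kA (hK.inH h1 k2ea_ok))) (OR.a1 (by norm_num) hK hT hq t.left.out')))
        norm_num [w5T]
      · rw [cK2a]
        refine le_trans ?_ (g5_y (tuseN hK Bx t hv y5_2a_1a mn mn mn mn (hK.inH ho k4as_ok)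
          (hK.inH h2 k2as_ok) (allLx t rfl (kA (hK.inH h1 k2aa_ok))) (OR.a1 (by norm_num) hK hT hq t.left.out')))
        norm_num [w5T]
      · exact absurd rfl hz
      · rw [cK2s]
        refine le_trans ?_ (g5_y (tuseN hK Bx t hv y5_2s_1a mn mn mn mn (hK.inH ho k4as_ok)
          (hK.inH h2 k2as_ok) (allLx t rfl (kA (hK.inH h1 k3as_ok))) (OR.a1 (by norm_num) hK hT hq t.left.out')))
        norm_num [w5T]
    · cases rr
      · rw [cK3e]
        refine le_trans ?_ (g5_y (tuseN hK Bx t hv y5_3e_1a mn mn mn mn (hK.inH ho k4as_ok)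
          (hK.inH h2 k2as_ok) (allLx t rfl (kA (hK.inH h1 k3ea_ok))) (OR.a1 (by norm_num) hK hT hq t.left.out')))
        norm_num [w5T]
      · rw [cK3a]
        refine le_trans ?_ (g5_y (tuseN hK Bx t hv y5_3a_1a mn mn mn mn (hK.inH ho k4as_ok)
          (hK.inH h2 k2as_ok) (allLx t rfl (kA (hK.inH h1 k3aa_ok))) (OR.a1 (by norm_num) hK hT hq t.left.out')))
        norm_num [w5T]
      · exact absurd rfl hz
      · rw [cK3s]
        refine le_trans ?_ (g5_y (tuseN hK Bx t hv y5_3s_1a mn mn mn mn (hK.inH ho k4as_ok)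
          (hK.inH h2 k2as_ok) (allLx t rfl (kA (hK.inH h1 k4as_ok))) (OR.a1 (by norm_num) hK hT hq t.left.out')))
        norm_num [w5T]
  · rw [cK_ring h4]
    refine le_trans ?_ (g5_y (tuseN hK Bx t hv y5_Z_1a mn mn mn mn (hK.inH ho k4as_ok)
      (hK.inH h2 k2as_ok) (allLx t rfl (kA (in_nZa hK h1 h4))) (OR.a1 (by norm_num) hK hT hq t.left.out')))
    norm_num [w5T]

theorem y5_case_2e (hK : KOK K) (Bx : BoxRows K) (t : RDt K 3 .s .a 2 .e dr rr w kl kr)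
    (hd : dr ≠ 1) : -(w5T (cK dr rr) .twoE) ≤ (yH .s (RR w kl) (Complex.cos w)).im := by
  have h1 : ROK dr rr .a := t.right.ok.right.symm
  have h2 := t.left.ok.right.symm
  have ho := t.left.ok.left
  have hT := tan_sq (ne_of_re t.left.kre)
  have hq : RR w kl ^ 2 + 1 - 1 / Complex.cos w ^ 2 = 1 / kl ^ 2 := by
    rw [t.left.hinge]
    ring
  have hv := far_split Bx t.left
  have kA : ∀ {H : List QC}, InH (K.K dr rr .a) H → InH {kr} (mirH H) := by
    intro H hH k hk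
    rw [Set.mem_singleton_iff] at hk
    subst hk
    exact hH.mir _ (by rw [K.symm]; exact t.right.mem')
  have hp := h1.pos
  rcases Nat.lt_or_ge dr 4 with h4 | h4
  · have hz : rr ≠ .z := fun h => by
      have := h1.zl h
      omega
    have h5 : dr = 2 ∨ dr = 3 := by omega
    rcases h5 with rfl | rfl
    · cases rr
      · rw [cK2e]
        refine le_trans ?_ (g5_y (tuseN hK Bx t hv y5_2e_2e mn mn mn mn (hK.inH ho k4as_ok)
          (hK.inH h2 k3es_ok) (allLx t rfl (kA (hK.inH h1 k2ea_ok))) (OR.e hK hT hq t.left.out')))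
        norm_num [w5T]
      · rw [cK2a]
        refine le_trans ?_ (g5_y (tuseN hK Bx t hv y5_2a_2e mn mn mn mn (hK.inH ho k4as_ok)
          (hK.inH h2 k3es_ok) (allLx t rfl (kA (hK.inH h1 k2aa_ok))) (OR.e hK hT hq t.left.out')))
        norm_num [w5T]
      · exact absurd rfl hz
      · rw [cK2s]
        refine le_trans ?_ (g5_y (tuseN hK Bx t hv y5_2s_2e mn mn mn mn (hK.inH ho k4as_ok)
          (hK.inH h2 k3es_ok) (allLx t rfl (kA (hK.inH h1 k3as_ok))) (OR.e hK hT hq t.left.out')))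
        norm_num [w5T]
    · cases rr
      · rw [cK3e]
        refine le_trans ?_ (g5_y (tuseN hK Bx t hv y5_3e_2e mn mn mn mn (hK.inH ho k4as_ok)
          (hK.inH h2 k3es_ok) (allLx t rfl (kA (hK.inH h1 k3ea_ok))) (OR.e hK hT hq t.left.out')))
        norm_num [w5T]
      · rw [cK3a]
        refine le_trans ?_ (g5_y (tuseN hK Bx t hv y5_3a_2e mn mn mn mn (hK.inH ho k4as_ok)
          (hK.inH h2 k3es_ok) (allLx t rfl (kA (hK.inH h1 k3aa_ok))) (OR.e hK hT hq t.left.out')))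
        norm_num [w5T]
      · exact absurd rfl hz
      · rw [cK3s]
        refine le_trans ?_ (g5_y (tuseN hK Bx t hv y5_3s_2e mn mn mn mn (hK.inH ho k4as_ok)
          (hK.inH h2 k3es_ok) (allLx t rfl (kA (hK.inH h1 k4as_ok))) (OR.e hK hT hq t.left.out')))
        norm_num [w5T]
  · rw [cK_ring h4]
    refine le_trans ?_ (g5_y (tuseN hK Bx t hv y5_Z_2e mn mn mn mn (hK.inH ho k4as_ok)
      (hK.inH h2 k3es_ok) (allLx t rfl (kA (in_nZa hK h1 h4))) (OR.e hK hT hq t.left.out')))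
    norm_num [w5T]

/-- **The hinge with the digit `1`.** -/
theorem y5_all (hK : KOK K) (Bx : BoxRows K) (t : RDt K 3 .s .a dl ll dr rr w kl kr)
    (hd : dr ≠ 1) :
    -(w5T (cK dr rr) (cK dl ll)) ≤ (yH .s (RR w kl) (Complex.cos w)).im := by
  have hv := far_split Bx t.left
  have hr : SK.a = .s ∨ (SK.a = .a ∧ dr ≠ 1) := Or.inr ⟨rfl, hd⟩
  have hQ : cK dr rr ≠ .one := by
    intro h
    exact hd (cK_m1 h)
  rcases beh5 t.symm with ⟨rfl, rfl⟩ | ⟨rfl, rfl⟩ | ⟨rfl, rfl⟩ | ⟨rfl, rfl⟩ | ⟨rfl, rfl⟩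
  · exact y5_case_1a hK Bx t hd
  · have g := (m3_A1s hK Bx t hr hv).2.2.2.2.1
    have e : nC .a dr rr = cK dr rr := rfl
    rw [e] at g
    rw [cK1]
    refine le_trans ?_ g
    generalize cK dr rr = Q at hQ ⊢
    cases Q <;> first | exact absurd rfl hQ | norm_num [w5T, mw3]
  · have g := (m3_A2a hK Bx t hr hv).2.2.2.2.1
    have e : nC .a dr rr = cK dr rr := rfl
    rw [e] at g
    rw [cK2a]
    refine le_trans ?_ g
    generalize cK dr rr = Q at hQ ⊢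
    cases Q <;> first | exact absurd rfl hQ | norm_num [w5T, mw3]
  · have g := (m3_A2s hK Bx t hr hv).2.2.2.2.1
    have e : nC .a dr rr = cK dr rr := rfl
    rw [e] at g
    rw [cK2s]
    refine le_trans ?_ g
    generalize cK dr rr = Q at hQ ⊢
    cases Q <;> first | exact absurd rfl hQ | norm_num [w5T, mw3]
  · rw [cK2e]
    exact y5_case_2e hK Bx t hd

/-- the three bounds from a row -/
lemma g5_k {c1 c2 c3 e1 e2 e3 : ℤ} {y m v : ℂ} {A : Prop} {a1 a2 a3 : ℝ}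
    (h : (∀ g ∈ [GC.lo c1 e1], g.P y) ∧ (∀ g ∈ [GC.hi c2 e2], g.P m) ∧
      (∀ g ∈ [GC.hi c3 e3], g.P (m - y)) ∧ A)
    (h1 : a1 ≤ (c1 : ℝ) / 10000) (h2 : (c2 : ℝ) / 10000 ≤ a2) (h3 : (c3 : ℝ) / 10000 ≤ a3) :
    a1 ≤ y.im ∧ m.im ≤ a2 ∧ m.im - y.im ≤ a3 := by
  obtain ⟨k1, k2, k3, -⟩ := h
  refine ⟨h1.trans (k1 _ m0), (k2 _ m0).trans h2, ?_⟩
  have k4 := k3 _ m0
  change (m - y).im ≤ _ at k4
  rw [Complex.sub_im] at k4
  exact k4.trans h3

theorem k5_case_s (hK : KOK K) (Bx : BoxRows K) (t : RDt K 3 .s .s dl ll dr rr w kl kr) :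
    -(w5T .one (cK dl ll)) ≤ (yH .s (RR w kl) (Complex.cos w)).im ∧
    (mH .s (RR w kr) (Complex.cos w)).im ≤ w5L .one (cK dl ll) ∧
    (mH .s (RR w kr) (Complex.cos w)).im - (yH .s (RR w kl) (Complex.cos w)).im ≤
      w5S (cK dl ll) := by
  have h2 := t.left.ok.right.symm
  have ho := t.left.ok.left
  have hT := tan_sq (ne_of_re t.left.kre)
  have hq : RR w kl ^ 2 + 1 - 1 / Complex.cos w ^ 2 = 1 / kl ^ 2 := by
    rw [t.left.hinge]
    ring
  rcases beh5 t.symm with ⟨rfl, rfl⟩ | ⟨rfl, rfl⟩ | ⟨rfl, rfl⟩ | ⟨rfl, rfl⟩ | ⟨rfl, rfl⟩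
  · rw [cK1]
    exact g5_k (v := 0) (tuseI hK Bx t k5_s_1a (hK.inH ho k5ss_ok) (hK.inH h2 k2as_ok) (allS hK t rfl)
      (OR.a1 (by norm_num) hK hT hq t.left.out')) (by norm_num [w5T]) (by norm_num [w5L]) (by norm_num [w5S])
  · rw [cK1]
    exact g5_k (v := 0) (tuseI hK Bx t k5_s_1s (hK.inH ho k5ss_ok) (hK.inH h2 k3ss_ok) (allS hK t rfl)
      (OR.s hK hT hq t.left.out')) (by norm_num [w5T]) (by norm_num [w5L]) (by norm_num [w5S])
  · rw [cK2a]
    exact g5_k (v := 0) (tuseI hK Bx t k5_s_2a (hK.inH ho k5ss_ok) (hK.inH h2 k3as_ok) (allS hK t rfl)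
      (OR.a hK hT hq t.left.out')) (by norm_num [w5T]) (by norm_num [w5L]) (by norm_num [w5S])
  · rw [cK2s]
    exact g5_k (v := 0) (tuseI hK Bx t k5_s_2s (hK.inH ho k5ss_ok) (hK.inH h2 k4ss_ok) (allS hK t rfl)
      (OR.s hK hT hq t.left.out')) (by norm_num [w5T]) (by norm_num [w5L]) (by norm_num [w5S])
  · rw [cK2e]
    exact g5_k (v := 0) (tuseI hK Bx t k5_s_2e (hK.inH ho k5ss_ok) (hK.inH h2 k3es_ok) (allS hK t rfl)
      (OR.e hK hT hq t.left.out')) (by norm_num [w5T]) (by norm_num [w5L]) (by norm_num [w5S])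

theorem k5_case_u (hK : KOK K) (Bx : BoxRows K) (t : RDt K 3 .s .a dl ll 1 rr w kl kr) :
    -(w5T .one (cK dl ll)) ≤ (yH .s (RR w kl) (Complex.cos w)).im ∧
    (mH .a (RR w kr) (Complex.cos w)).im ≤ w5L .one (cK dl ll) ∧
    (mH .a (RR w kr) (Complex.cos w)).im - (yH .s (RR w kl) (Complex.cos w)).im ≤
      w5S (cK dl ll) := by
  have h2 := t.left.ok.right.symm
  have ho := t.left.ok.left
  have hT := tan_sq (ne_of_re t.left.kre)
  have hq : RR w kl ^ 2 + 1 - 1 / Complex.cos w ^ 2 = 1 / kl ^ 2 := by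
    rw [t.left.hinge]
    ring
  rcases beh5 t.symm with ⟨rfl, rfl⟩ | ⟨rfl, rfl⟩ | ⟨rfl, rfl⟩ | ⟨rfl, rfl⟩ | ⟨rfl, rfl⟩
  · rw [cK1]
    exact g5_k (v := 0) (tuseI hK Bx t k5_u_1a (hK.inH ho k4as_ok) (hK.inH h2 k2as_ok) (allK hK t rfl)
      (OR.a1 (by norm_num) hK hT hq t.left.out')) (by norm_num [w5T]) (by norm_num [w5L]) (by norm_num [w5S])
  · rw [cK1]
    exact g5_k (v := 0) (tuseI hK Bx t k5_u_1s (hK.inH ho k4as_ok) (hK.inH h2 k3ss_ok) (allK hK t rfl)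
      (OR.s hK hT hq t.left.out')) (by norm_num [w5T]) (by norm_num [w5L]) (by norm_num [w5S])
  · rw [cK2a]
    exact g5_k (v := 0) (tuseI hK Bx t k5_u_2a (hK.inH ho k4as_ok) (hK.inH h2 k3as_ok) (allK hK t rfl)
      (OR.a hK hT hq t.left.out')) (by norm_num [w5T]) (by norm_num [w5L]) (by norm_num [w5S])
  · rw [cK2s]
    exact g5_k (v := 0) (tuseI hK Bx t k5_u_2s (hK.inH ho k4as_ok) (hK.inH h2 k4ss_ok) (allK hK t rfl)
      (OR.s hK hT hq t.left.out')) (by norm_num [w5T]) (by norm_num [w5L]) (by norm_num [w5S])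
  · rw [cK2e]
    exact g5_k (v := 0) (tuseI hK Bx t k5_u_2e (hK.inH ho k4as_ok) (hK.inH h2 k3es_ok) (allK hK t rfl)
      (OR.e hK hT hq t.left.out')) (by norm_num [w5T]) (by norm_num [w5L]) (by norm_num [w5S])

/-- the sum of the bounds -/
lemma w5_sum {Q P : Cl} (hQ : Q ≠ .one) (hP : P = .one ∨ P = .two ∨ P = .twoE) :
    w5T Q P + w5L Q P ≤ w5S P := by
  rcases hP with rfl | rfl | rfl <;> cases Q <;>
    first | exact absurd rfl hQ | norm_num [w5T, w5L, w5S]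

end

lemma ofs_opp5 {d d' : ℤ} (hd : d * d' < 0) (m : ℝ) : ofs d' m = -ofs d m := by
  unfold ofs
  rcases lt_trichotomy d 0 with h1 | h1 | h1
  · have h2 : 0 < d' := by nlinarith
    rw [if_pos h2, if_neg (not_lt.2 h1.le), neg_neg]
  · rw [h1, zero_mul] at hd
    exact absurd hd (lt_irrefl 0)
  · have h2 : d' < 0 := by nlinarith
    rw [if_neg (not_lt.2 h2.le), if_pos h1]

section
variable {M : ℕ} {b : Fin (M + 1) → ℤ} {w : ℕ → ℂ}

variable (hb : ClassW b) (F : RingFacts) (hw : Sol b w) {K : KFam} (hK : KOK K)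
  (hS : Snd K b w) (Bx : BoxRows K)

section
include hb F hw hK hS Bx

theorem word5 {h h' h2 : Fin M} {i j k r : Fin (M + 1)} (hm : (tyW b i).isMid = true)
    (A : Adj h i 0 j) (A' : Adj h' i 2 k) (A3 : Adj h2 k 2 r) (hi : clsW b i = .three)
    (hk : clsW b k = .one) :
    -(w5T (clsW b j) (clsW b r)) ≤ ofs (b i) (zsW b w (.inl (.inl h'))).im ∧
    ofs (b i) (zsW b w (.inl (.inr ⟨i, hm⟩))).im ≤ w5L (clsW b j) (clsW b r) ∧
    ofs (b i) (zsW b w (.inl (.inr ⟨i, hm⟩))).im - ofs (b i) (zsW b w (.inl (.inl h'))).im ≤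
      w5S (clsW b r) := by
  have h3 := three_nat hi
  have hui : us b i.val = false := us_of_abs (by omega)
  obtain ⟨x, x', dl, ll, dr, rr, kl, kr, t, y1, y2, y3, s1, s2, -⟩ :=
    mid_sd hb F hw hS A A' h3 hm
  have huk : us b k.val = true := by
    have e3 : k.val = i.val + 1 := by
      rcases A'.elim with ⟨-, h1⟩ | ⟨h0, -⟩
      · omega
      · exact absurd h0 (by decide)
    rw [e3, us_succ, Bool.and_eq_true, decide_eq_true_eq, Bool.not_eq_true']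
    refine ⟨?_, hui⟩
    rw [← e3, bb_val]
    exact one_nat hk
  have hx' := s2.s huk
  subst hx'
  obtain ⟨hdr, hcr⟩ := s2.far A3 huk
  have hP : cK dr rr = .one ∨ cK dr rr = .two ∨ cK dr rr = .twoE := by
    rcases beh5 t with ⟨rfl, rfl⟩ | ⟨rfl, rfl⟩ | ⟨rfl, rfl⟩ | ⟨rfl, rfl⟩ | ⟨rfl, rfl⟩
    · exact Or.inl rfl
    · exact Or.inl rfl
    · exact Or.inr (Or.inl rfl)
    · exact Or.inr (Or.inl rfl)
    · exact Or.inr (Or.inr rfl)
  rw [hcr, ← ofr_im, ← ofr_im, y2, y3]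
  have hcj : clsW b j = nC x dl ll := s1.cls
  have hop : b i * b j < 0 := A.opp hb (Or.inl (by rw [hi]; decide))
  rcases Bool.eq_false_or_eq_true (us b j.val) with huj | huj
  · have hx := s1.s huj
    subst hx
    have e : clsW b j = .one := hcj
    rw [e]
    exact k5_case_s hK Bx t.symm
  · obtain ⟨hdl, hx⟩ := s1.u huj
    rw [if_neg (by omega)] at hx
    subst hx
    have e : clsW b j = cK dl ll := hcj
    rw [e]
    by_cases hd1 : dl = 1
    · subst hd1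
      rw [cK1]
      exact k5_case_u hK Bx t.symm
    · have g1 := y5_all hK Bx t.symm hd1
      have g2 := m5_all hK Bx t hd1
      have hQ : cK dl ll ≠ .one := fun h => hd1 (cK_m1 h)
      have g3 := w5_sum hQ hP
      exact ⟨g1, g2, by linarith⟩

/-- **Windows at a digit `3` of a word with a digit `1` at the last slot.** -/
theorem locM5_of : LocM5 b (zsW b w) where
  hinge := by
    intro h h' h2 i j k r A A' A3 hi hk
    have h3 := three_nat hi
    have hm : (tyW b i).isMid = true := by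
      unfold tyW
      rw [if_neg (by omega), if_neg (by omega), if_pos h3]
      split_ifs <;> rfl
    have h6 := (word5 hb F hw hK hS Bx hm A A' A3 hi hk).1
    rw [ofs_opp5 (A'.opp hb (Or.inl (by rw [hi]; decide)))]
    linarith
  mid hm A A' A3 hi hk := (word5 hb F hw hK hS Bx hm A A' A3 hi hk).2.1
  line := by
    intro h h' h2 i j k r hm A A' A3 hi hk
    have h6 := (word5 hb F hw hK hS Bx hm A A' A3 hi hk).2.2
    rw [ofs_opp5 (A'.opp hb (Or.inl (by rw [hi]; decide)))]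
    linarith

end

end

end

end Pool.Agent.Work.MP_b30479_gt.G2.CN.TD
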