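import Pool.Agent.Work.MP_b30479_gt.G2.WLocL6
import Pool.Agent.Work.MP_b30479_gt.G2.CN.LocM5
import Pool.Agent.Work.MP_b30479_gt.G2.CN.TRzA
import Pool.Agent.Work.MP_b30479_gt.G2.CN.TRzB
import Pool.Agent.Work.MP_b30479_gt.G2.CN.TRzC
import Pool.Agent.Work.MP_b30479_gt.G2.CN.TRzD
import Pool.Agent.Work.MP_b30479_gt.G2.CN.TRzE
import Pool.Agent.Work.MP_b30479_gt.G2.CN.TRzF
import Pool.Agent.Work.MP_b30479_gt.G2.CN.TRzG
import Pool.Agent.Work.MP_b30479_gt.G2.CN.TRzH
import Pool.Agent.Work.MP_b30479_gt.G2.CN.TRzI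
import Pool.Agent.Work.MP_b30479_gt.G2.CN.TRzJ
import Pool.Agent.Work.MP_b30479_gt.G2.CN.TRzK
import Pool.Agent.Work.MP_b30479_gt.G2.CN.LEnd2


/-!
# Sharp windows at a digit `3` with a digit `1` at the last slot
-/

namespace Pool.Agent.Work.MP_b30479_gt.G2.CN.TD

open Complex SR
open scoped ComplexConjugate

noncomputable section

/-- upper bound of the height of the hinge with the digit `1` -/
def w6T : Cl → ℝ
  | .one => 801 / 10000
  | .two => 894 / 10000
  | _ => 1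

/-- upper bound of the sum of the two heights -/
def w6S : Cl → ℝ
  | .one => 512 / 10000
  | .two => 512 / 10000
  | _ => 1

/-- the ring behind the digit `1` and the ring behind it -/
lemma allP {K : KFam} {d : ℕ} {l : SK} {dl : ℕ} {ll : SK} {dp : ℕ} {lp : SK} {w' k2 kp : ℂ} {B : ℕ}
    (tP : RDt K d .s l dl ll dp lp w' k2 kp) (hB : crs d l .s = B) {H : List QC} (hH : InH {kp} H)
    {R T : ℂ} (hR : RR w' k2 = R) (hT : T ^ 2 + 1 = 1 / k2 ^ 2) : AllOk R T (tD .s B H) := by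
  subst hR hB
  have h := out_left tP.symm
  refine tD_all (q := 1 / k2 ^ 2) (q' := 1 / Complex.cos w' ^ 2) hT
    (by rw [tP.left.hinge]; ring) hH ?_
  have e1 : (some ({kp} : Set ℂ)).map (frS SK.s.sgn) = some {kp} := map_frS_one _
  have e2 : ((SK.s.sgn : ℝ) : ℂ) * I = I := by
    change (((1 : ℝ)) : ℂ) * I = I
    push_cast
    ring
  rw [e1, e2]
  exact h

/-- the kinds of the ring behind a ring with a side of kind `a` -/
lemma p6 {K : KFam} (hK : KOK K) {d : ℕ} {dl : ℕ} {ll : SK} {dp : ℕ} {lp : SK} {w' k2 kp : ℂ}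
    (tP : RDt K d .s .a dl ll dp lp w' k2 kp) :
    (dp = 1 ∧ InH {kp} (mirH k2as)) ∨ InH {kp} (mirH k2aa) ∨ InH {kp} (mirH k3as) ∨
      (dp = 2 ∧ lp = .e) ∨ InH {kp} (mirH k3aa) ∨ InH {kp} (mirH k4as) ∨
      InH {kp} (mirH k3ea) ∨ InH {kp} (mirH nZa) := by
  have h1 : ROK dp lp .a := tP.right.ok.right.symm
  have kA : ∀ {H : List QC}, InH (K.K dp lp .a) H → InH {kp} (mirH H) := by
    intro H hH k hk
    rw [Set.mem_singleton_iff] at hk
    subst hk
    exact hH.mir _ (by rw [K.symm]; exact tP.right.mem')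
  have hp := h1.pos
  rcases Nat.lt_or_ge dp 4 with h4 | h4
  · have hz : lp ≠ .z := fun h => by
      have := h1.zl h
      omega
    have h5 : dp = 1 ∨ dp = 2 ∨ dp = 3 := by omega
    rcases h5 with rfl | rfl | rfl
    · have h6 : lp = .s := by
        rcases (h1.one rfl).1 with h | h
        · exact h
        · exact absurd h (by decide)
      subst h6
      exact Or.inl ⟨rfl, kA (hK.inH h1 k2as_ok)⟩
    · cases lp
      · exact Or.inr (Or.inr (Or.inr (Or.inl ⟨rfl, rfl⟩)))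
      · exact Or.inr (Or.inl (kA (hK.inH h1 k2aa_ok)))
      · exact absurd rfl hz
      · exact Or.inr (Or.inr (Or.inl (kA (hK.inH h1 k3as_ok))))
    · cases lp
      · exact Or.inr (Or.inr (Or.inr (Or.inr (Or.inr (Or.inr (Or.inl (kA (hK.inH h1 k3ea_ok))))))))
      · exact Or.inr (Or.inr (Or.inr (Or.inr (Or.inl (kA (hK.inH h1 k3aa_ok))))))
      · exact absurd rfl hz
      · exact Or.inr (Or.inr (Or.inr (Or.inr (Or.inr (Or.inl (kA (hK.inH h1 k4as_ok)))))))
  · exact Or.inr (Or.inr (Or.inr (Or.inr (Or.inr (Or.inr (Or.inr (kA (in_nZa hK h1 h4))))))))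

/-- the two bounds from a row -/
lemma g6_k {c1 c3 e1 e3 : ℤ} {y m : ℂ} {A B : Prop} {a1 a3 : ℝ}
    (h : (∀ g ∈ [GC.lo c1 e1], g.P y) ∧ A ∧ (∀ g ∈ [GC.hi c3 e3], g.P (m - y)) ∧ B)
    (h1 : a1 ≤ (c1 : ℝ) / 10000) (h3 : (c3 : ℝ) / 10000 ≤ a3) :
    a1 ≤ y.im ∧ m.im - y.im ≤ a3 := by
  obtain ⟨k1, -, k3, -⟩ := h
  refine ⟨h1.trans (k1 _ m0), ?_⟩
  have k4 := k3 _ m0
  change (m - y).im ≤ _ at k4
  rw [Complex.sub_im] at k4
  exact k4.trans h3

/-- the bound of the hinge -/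
lemma g6_y {c1 e1 : ℤ} {y : ℂ} {D : Prop} {a1 : ℝ} (h : (∀ g ∈ [GC.lo c1 e1], g.P y) ∧ D)
    (h1 : a1 ≤ (c1 : ℝ) / 10000) : a1 ≤ y.im := h1.trans (h.1 _ m0)

/-- the bound of the sum -/
lemma g6_s {c3 e3 : ℤ} {y m : ℂ} {A B C : Prop} {a3 : ℝ}
    (h : A ∧ B ∧ (∀ g ∈ [GC.hi c3 e3], g.P (m - y)) ∧ C) (h3 : (c3 : ℝ) / 10000 ≤ a3) :
    m.im - y.im ≤ a3 := by
  obtain ⟨-, -, k3, -⟩ := h
  have k4 := k3 _ m0
  change (m - y).im ≤ _ at k4
  rw [Complex.sub_im] at k4
  exact k4.trans h3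

section
variable {K : KFam} {dl : ℕ} {ll : SK} {dr : ℕ} {rr : SK} {w kl kr : ℂ} {d3 : ℕ} {l3 : SK} {dp : ℕ}
  {lp : SK} {w' k2 kp : ℂ}


theorem k6_case_s (hK : KOK K) (Bx : BoxRows K) (t : RDt K 3 .s .s dl ll dr rr w kl kr)
    (tP : RDt K dl .s ll d3 l3 dp lp w' k2 kp) (hR : RR w' k2 = RR w kl)
    (hc : k2 = Complex.cos w) (hne : cK dl ll ≠ .twoE) :
    -(w6T (cK dl ll)) ≤ (yH .s (RR w kl) (Complex.cos w)).im ∧
    (mH .s (RR w kr) (Complex.cos w)).im - (yH .s (RR w kl) (Complex.cos w)).im ≤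
      w6S (cK dl ll) := by
  have h2 := t.left.ok.right.symm
  have ho := t.left.ok.left
  have hT := tan_sq (ne_of_re t.left.kre)
  have hT' : Complex.tan w ^ 2 + 1 = 1 / k2 ^ 2 := by rw [hc]; exact hT
  have hq : RR w kl ^ 2 + 1 - 1 / Complex.cos w ^ 2 = 1 / kl ^ 2 := by
    rw [t.left.hinge]
    ring
  rcases beh5 t.symm with ⟨rfl, rfl⟩ | ⟨rfl, rfl⟩ | ⟨rfl, rfl⟩ | ⟨rfl, rfl⟩ | ⟨rfl, rfl⟩
  · rw [cK1]
    rcases p6 hK tP with ⟨e9, h9⟩ | h9 | h9 | ⟨rfl, rfl⟩ | h9 | h9 | h9 | h9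
    · rcases tP.right.ok.opp rfl with h8 | h8 <;> omega
    · exact g6_k (tuseI hK Bx t k6_s_1a_2a (hK.inH ho k5ss_ok) (hK.inH h2 k2as_ok) (allS hK t rfl)
        (allP tP rfl h9 hR hT')) (by norm_num [w6T]) (by norm_num [w6S])
    · exact g6_k (tuseI hK Bx t k6_s_1a_2s (hK.inH ho k5ss_ok) (hK.inH h2 k2as_ok) (allS hK t rfl)
        (allP tP rfl h9 hR hT')) (by norm_num [w6T]) (by norm_num [w6S])
    · exact g6_k (tuseI hK Bx t k6_s_1a_2e (hK.inH ho k5ss_ok) (hK.inH h2 k2as_ok) (allS hK t rfl)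
        (allP tP rfl (end2 hK tP) hR hT')) (by norm_num [w6T]) (by norm_num [w6S])
    · exact g6_k (tuseI hK Bx t k6_s_1a_3a (hK.inH ho k5ss_ok) (hK.inH h2 k2as_ok) (allS hK t rfl)
        (allP tP rfl h9 hR hT')) (by norm_num [w6T]) (by norm_num [w6S])
    · exact g6_k (tuseI hK Bx t k6_s_1a_3s (hK.inH ho k5ss_ok) (hK.inH h2 k2as_ok) (allS hK t rfl)
        (allP tP rfl h9 hR hT')) (by norm_num [w6T]) (by norm_num [w6S])
    · exact g6_k (tuseI hK Bx t k6_s_1a_3e (hK.inH ho k5ss_ok) (hK.inH h2 k2as_ok) (allS hK t rfl)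
        (allP tP rfl h9 hR hT')) (by norm_num [w6T]) (by norm_num [w6S])
    · exact g6_k (tuseI hK Bx t k6_s_1a_Z (hK.inH ho k5ss_ok) (hK.inH h2 k2as_ok) (allS hK t rfl)
        (allP tP rfl h9 hR hT')) (by norm_num [w6T]) (by norm_num [w6S])
  · rw [cK1]
    exact g6_k (tuseI hK Bx t k6_s_1s (hK.inH ho k5ss_ok) (hK.inH h2 k3ss_ok) (allS hK t rfl)
      (OR.s hK hT hq t.left.out')) (by norm_num [w6T]) (by norm_num [w6S])
  · rw [cK2a]
    rcases p6 hK tP with ⟨e9, h9⟩ | h9 | h9 | ⟨rfl, rfl⟩ | h9 | h9 | h9 | h9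
    · exact g6_k (tuseI hK Bx t k6_s_2a_1s (hK.inH ho k5ss_ok) (hK.inH h2 k3as_ok) (allS hK t rfl)
        (allP tP rfl h9 hR hT')) (by norm_num [w6T]) (by norm_num [w6S])
    · exact g6_k (tuseI hK Bx t k6_s_2a_2a (hK.inH ho k5ss_ok) (hK.inH h2 k3as_ok) (allS hK t rfl)
        (allP tP rfl h9 hR hT')) (by norm_num [w6T]) (by norm_num [w6S])
    · exact g6_k (tuseI hK Bx t k6_s_2a_2s (hK.inH ho k5ss_ok) (hK.inH h2 k3as_ok) (allS hK t rfl)
        (allP tP rfl h9 hR hT')) (by norm_num [w6T]) (by norm_num [w6S])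
    · exact g6_k (tuseI hK Bx t k6_s_2a_2e (hK.inH ho k5ss_ok) (hK.inH h2 k3as_ok) (allS hK t rfl)
        (allP tP rfl (end3 hK tP) hR hT')) (by norm_num [w6T]) (by norm_num [w6S])
    · exact g6_k (tuseI hK Bx t k6_s_2a_3a (hK.inH ho k5ss_ok) (hK.inH h2 k3as_ok) (allS hK t rfl)
        (allP tP rfl h9 hR hT')) (by norm_num [w6T]) (by norm_num [w6S])
    · exact g6_k (tuseI hK Bx t k6_s_2a_3s (hK.inH ho k5ss_ok) (hK.inH h2 k3as_ok) (allS hK t rfl)
        (allP tP rfl h9 hR hT')) (by norm_num [w6T]) (by norm_num [w6S])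
    · exact g6_k (tuseI hK Bx t k6_s_2a_3e (hK.inH ho k5ss_ok) (hK.inH h2 k3as_ok) (allS hK t rfl)
        (allP tP rfl h9 hR hT')) (by norm_num [w6T]) (by norm_num [w6S])
    · exact g6_k (tuseI hK Bx t k6_s_2a_Z (hK.inH ho k5ss_ok) (hK.inH h2 k3as_ok) (allS hK t rfl)
        (allP tP rfl h9 hR hT')) (by norm_num [w6T]) (by norm_num [w6S])
  · rw [cK2s]
    exact g6_k (tuseI hK Bx t k6_s_2s (hK.inH ho k5ss_ok) (hK.inH h2 k4ss_ok) (allS hK t rfl)
      (OR.s hK hT hq t.left.out')) (by norm_num [w6T]) (by norm_num [w6S])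
  · exact absurd rfl hne

theorem k6_case_u (hK : KOK K) (Bx : BoxRows K) (t : RDt K 3 .s .a dl ll 1 rr w kl kr)
    (tP : RDt K dl .s ll d3 l3 dp lp w' k2 kp) (hR : RR w' k2 = RR w kl)
    (hc : k2 = Complex.cos w) (hne : cK dl ll ≠ .twoE) :
    -(w6T (cK dl ll)) ≤ (yH .s (RR w kl) (Complex.cos w)).im ∧
    (mH .a (RR w kr) (Complex.cos w)).im - (yH .s (RR w kl) (Complex.cos w)).im ≤
      w6S (cK dl ll) := by
  have h2 := t.left.ok.right.symm
  have ho := t.left.ok.left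
  have hT := tan_sq (ne_of_re t.left.kre)
  have hT' : Complex.tan w ^ 2 + 1 = 1 / k2 ^ 2 := by rw [hc]; exact hT
  have hq : RR w kl ^ 2 + 1 - 1 / Complex.cos w ^ 2 = 1 / kl ^ 2 := by
    rw [t.left.hinge]
    ring
  rcases beh5 t.symm with ⟨rfl, rfl⟩ | ⟨rfl, rfl⟩ | ⟨rfl, rfl⟩ | ⟨rfl, rfl⟩ | ⟨rfl, rfl⟩
  · rw [cK1]
    rcases p6 hK tP with ⟨e9, h9⟩ | h9 | h9 | ⟨rfl, rfl⟩ | h9 | h9 | h9 | h9
    · rcases tP.right.ok.opp rfl with h8 | h8 <;> omega
    · exact g6_k (tuseI hK Bx t k6_u_1a_2a (hK.inH ho k4as_ok) (hK.inH h2 k2as_ok) (allK hK t rfl)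
        (allP tP rfl h9 hR hT')) (by norm_num [w6T]) (by norm_num [w6S])
    · exact g6_k (tuseI hK Bx t k6_u_1a_2s (hK.inH ho k4as_ok) (hK.inH h2 k2as_ok) (allK hK t rfl)
        (allP tP rfl h9 hR hT')) (by norm_num [w6T]) (by norm_num [w6S])
    · exact g6_k (tuseI hK Bx t k6_u_1a_2e (hK.inH ho k4as_ok) (hK.inH h2 k2as_ok) (allK hK t rfl)
        (allP tP rfl (end2 hK tP) hR hT')) (by norm_num [w6T]) (by norm_num [w6S])
    · exact g6_k (tuseI hK Bx t k6_u_1a_3a (hK.inH ho k4as_ok) (hK.inH h2 k2as_ok) (allK hK t rfl)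
        (allP tP rfl h9 hR hT')) (by norm_num [w6T]) (by norm_num [w6S])
    · exact g6_k (tuseI hK Bx t k6_u_1a_3s (hK.inH ho k4as_ok) (hK.inH h2 k2as_ok) (allK hK t rfl)
        (allP tP rfl h9 hR hT')) (by norm_num [w6T]) (by norm_num [w6S])
    · exact g6_k (tuseI hK Bx t k6_u_1a_3e (hK.inH ho k4as_ok) (hK.inH h2 k2as_ok) (allK hK t rfl)
        (allP tP rfl h9 hR hT')) (by norm_num [w6T]) (by norm_num [w6S])
    · exact g6_k (tuseI hK Bx t k6_u_1a_Z (hK.inH ho k4as_ok) (hK.inH h2 k2as_ok) (allK hK t rfl)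
        (allP tP rfl h9 hR hT')) (by norm_num [w6T]) (by norm_num [w6S])
  · rw [cK1]
    exact g6_k (tuseI hK Bx t k6_u_1s (hK.inH ho k4as_ok) (hK.inH h2 k3ss_ok) (allK hK t rfl)
      (OR.s hK hT hq t.left.out')) (by norm_num [w6T]) (by norm_num [w6S])
  · rw [cK2a]
    rcases p6 hK tP with ⟨e9, h9⟩ | h9 | h9 | ⟨rfl, rfl⟩ | h9 | h9 | h9 | h9
    · exact g6_k (tuseI hK Bx t k6_u_2a_1s (hK.inH ho k4as_ok) (hK.inH h2 k3as_ok) (allK hK t rfl)
        (allP tP rfl h9 hR hT')) (by norm_num [w6T]) (by norm_num [w6S])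
    · exact g6_k (tuseI hK Bx t k6_u_2a_2a (hK.inH ho k4as_ok) (hK.inH h2 k3as_ok) (allK hK t rfl)
        (allP tP rfl h9 hR hT')) (by norm_num [w6T]) (by norm_num [w6S])
    · exact g6_k (tuseI hK Bx t k6_u_2a_2s (hK.inH ho k4as_ok) (hK.inH h2 k3as_ok) (allK hK t rfl)
        (allP tP rfl h9 hR hT')) (by norm_num [w6T]) (by norm_num [w6S])
    · exact g6_k (tuseI hK Bx t k6_u_2a_2e (hK.inH ho k4as_ok) (hK.inH h2 k3as_ok) (allK hK t rfl)
        (allP tP rfl (end3 hK tP) hR hT')) (by norm_num [w6T]) (by norm_num [w6S])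
    · exact g6_k (tuseI hK Bx t k6_u_2a_3a (hK.inH ho k4as_ok) (hK.inH h2 k3as_ok) (allK hK t rfl)
        (allP tP rfl h9 hR hT')) (by norm_num [w6T]) (by norm_num [w6S])
    · exact g6_k (tuseI hK Bx t k6_u_2a_3s (hK.inH ho k4as_ok) (hK.inH h2 k3as_ok) (allK hK t rfl)
        (allP tP rfl h9 hR hT')) (by norm_num [w6T]) (by norm_num [w6S])
    · exact g6_k (tuseI hK Bx t k6_u_2a_3e (hK.inH ho k4as_ok) (hK.inH h2 k3as_ok) (allK hK t rfl)
        (allP tP rfl h9 hR hT')) (by norm_num [w6T]) (by norm_num [w6S])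
    · exact g6_k (tuseI hK Bx t k6_u_2a_Z (hK.inH ho k4as_ok) (hK.inH h2 k3as_ok) (allK hK t rfl)
        (allP tP rfl h9 hR hT')) (by norm_num [w6T]) (by norm_num [w6S])
  · rw [cK2s]
    exact g6_k (tuseI hK Bx t k6_u_2s (hK.inH ho k4as_ok) (hK.inH h2 k4ss_ok) (allK hK t rfl)
      (OR.s hK hT hq t.left.out')) (by norm_num [w6T]) (by norm_num [w6S])
  · exact absurd rfl hne

theorem k6_case_2a (hK : KOK K) (Bx : BoxRows K) (t : RDt K 3 .s .a 1 .a 2 .a w kl kr)
    (tP : RDt K 1 .s .a d3 l3 dp lp w' k2 kp) (hR : RR w' k2 = RR w kl)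
    (hc : k2 = Complex.cos w) :
    -(801 / 10000) ≤ (yH .s (RR w kl) (Complex.cos w)).im := by
  have h1 : ROK 2 .a .a := t.right.ok.right.symm
  have h2 := t.left.ok.right.symm
  have ho := t.left.ok.left
  have hT := tan_sq (ne_of_re t.left.kre)
  have hT' : Complex.tan w ^ 2 + 1 = 1 / k2 ^ 2 := by rw [hc]; exact hT
  have kA : ∀ {H : List QC}, InH (K.K 2 .a .a) H → InH {kr} (mirH H) := by
    intro H hH k hk
    rw [Set.mem_singleton_iff] at hk
    subst hk
    exact hH.mir _ (by rw [K.symm]; exact t.right.mem')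
  have hL := allLx t rfl (kA (hK.inH h1 k2aa_ok))
  rcases p6 hK tP with ⟨e9, h9⟩ | h9 | h9 | ⟨rfl, rfl⟩ | h9 | h9 | h9 | h9
  · rcases tP.right.ok.opp rfl with h8 | h8 <;> omega
  · exact g6_y (tuseI hK Bx t k6_2a_1a_2a (hK.inH ho k4as_ok) (hK.inH h2 k2as_ok) hL
      (allP tP rfl h9 hR hT')) (by norm_num)
  · exact g6_y (tuseI hK Bx t k6_2a_1a_2s (hK.inH ho k4as_ok) (hK.inH h2 k2as_ok) hL
      (allP tP rfl h9 hR hT')) (by norm_num)
  · exact g6_y (tuseI hK Bx t k6_2a_1a_2e (hK.inH ho k4as_ok) (hK.inH h2 k2as_ok) hL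
      (allP tP rfl (end2 hK tP) hR hT')) (by norm_num)
  · exact g6_y (tuseI hK Bx t k6_2a_1a_3a (hK.inH ho k4as_ok) (hK.inH h2 k2as_ok) hL
      (allP tP rfl h9 hR hT')) (by norm_num)
  · exact g6_y (tuseI hK Bx t k6_2a_1a_3s (hK.inH ho k4as_ok) (hK.inH h2 k2as_ok) hL
      (allP tP rfl h9 hR hT')) (by norm_num)
  · exact g6_y (tuseI hK Bx t k6_2a_1a_3e (hK.inH ho k4as_ok) (hK.inH h2 k2as_ok) hL
      (allP tP rfl h9 hR hT')) (by norm_num)
  · exact g6_y (tuseI hK Bx t k6_2a_1a_Z (hK.inH ho k4as_ok) (hK.inH h2 k2as_ok) hL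
      (allP tP rfl h9 hR hT')) (by norm_num)

theorem k6_case_2s (hK : KOK K) (Bx : BoxRows K) (t : RDt K 3 .s .a 1 .a 2 .s w kl kr)
    (tP : RDt K 1 .s .a d3 l3 dp lp w' k2 kp) (hR : RR w' k2 = RR w kl)
    (hc : k2 = Complex.cos w) :
    -(801 / 10000) ≤ (yH .s (RR w kl) (Complex.cos w)).im := by
  have h1 : ROK 2 .s .a := t.right.ok.right.symm
  have h2 := t.left.ok.right.symm
  have ho := t.left.ok.left
  have hT := tan_sq (ne_of_re t.left.kre)
  have hT' : Complex.tan w ^ 2 + 1 = 1 / k2 ^ 2 := by rw [hc]; exact hT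
  have kA : ∀ {H : List QC}, InH (K.K 2 .s .a) H → InH {kr} (mirH H) := by
    intro H hH k hk
    rw [Set.mem_singleton_iff] at hk
    subst hk
    exact hH.mir _ (by rw [K.symm]; exact t.right.mem')
  have hL := allLx t rfl (kA (hK.inH h1 k3as_ok))
  rcases p6 hK tP with ⟨e9, h9⟩ | h9 | h9 | ⟨rfl, rfl⟩ | h9 | h9 | h9 | h9
  · rcases tP.right.ok.opp rfl with h8 | h8 <;> omega
  · exact g6_y (tuseI hK Bx t k6_2s_1a_2a (hK.inH ho k4as_ok) (hK.inH h2 k2as_ok) hL
      (allP tP rfl h9 hR hT')) (by norm_num)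
  · exact g6_y (tuseI hK Bx t k6_2s_1a_2s (hK.inH ho k4as_ok) (hK.inH h2 k2as_ok) hL
      (allP tP rfl h9 hR hT')) (by norm_num)
  · exact g6_y (tuseI hK Bx t k6_2s_1a_2e (hK.inH ho k4as_ok) (hK.inH h2 k2as_ok) hL
      (allP tP rfl (end2 hK tP) hR hT')) (by norm_num)
  · exact g6_y (tuseI hK Bx t k6_2s_1a_3a (hK.inH ho k4as_ok) (hK.inH h2 k2as_ok) hL
      (allP tP rfl h9 hR hT')) (by norm_num)
  · exact g6_y (tuseI hK Bx t k6_2s_1a_3s (hK.inH ho k4as_ok) (hK.inH h2 k2as_ok) hL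
      (allP tP rfl h9 hR hT')) (by norm_num)
  · exact g6_y (tuseI hK Bx t k6_2s_1a_3e (hK.inH ho k4as_ok) (hK.inH h2 k2as_ok) hL
      (allP tP rfl h9 hR hT')) (by norm_num)
  · exact g6_y (tuseI hK Bx t k6_2s_1a_Z (hK.inH ho k4as_ok) (hK.inH h2 k2as_ok) hL
      (allP tP rfl h9 hR hT')) (by norm_num)

theorem k6_case_Z (hK : KOK K) (Bx : BoxRows K) (t : RDt K 3 .s .a 1 .a dr rr w kl kr)
    (hd : 4 ≤ dr) :
    (mH .a (RR w kr) (Complex.cos w)).im - (yH .s (RR w kl) (Complex.cos w)).im ≤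
      512 / 10000 := by
  have h1 : ROK dr rr .a := t.right.ok.right.symm
  have h2 := t.left.ok.right.symm
  have ho := t.left.ok.left
  have hT := tan_sq (ne_of_re t.left.kre)
  have hq : RR w kl ^ 2 + 1 - 1 / Complex.cos w ^ 2 = 1 / kl ^ 2 := by
    rw [t.left.hinge]
    ring
  have kA : ∀ {H : List QC}, InH (K.K dr rr .a) H → InH {kr} (mirH H) := by
    intro H hH k hk
    rw [Set.mem_singleton_iff] at hk
    subst hk
    exact hH.mir _ (by rw [K.symm]; exact t.right.mem')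
  exact g6_s (tuseI hK Bx t k6_Z_1a (hK.inH ho k4as_ok) (hK.inH h2 k2as_ok)
    (allLx t rfl (kA (in_nZa hK h1 hd))) (OR.a1 (by norm_num) hK hT hq t.left.out'))
    (by norm_num)

end


section
variable {M : ℕ} {b : Fin (M + 1) → ℤ} {w : ℕ → ℂ}

variable (hb : ClassW b) (F : RingFacts) (hw : Sol b w) {K : KFam} (hK : KOK K)
  (hS : Snd K b w) (Bx : BoxRows K)

section
include hb F hw hS

/-- a digit `3`, the absorbed digit `1` on its right and the ring behind it -/
theorem ring6 {h h' h2 : Fin M} {i j k r : Fin (M + 1)} (hm : (tyW b i).isMid = true)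
    (A : Adj h i 0 j) (A' : Adj h' i 2 k) (A3 : Adj h2 k 2 r) (h3 : (b i).natAbs = 3)
    (huk : us b k.val = true) (hr : clsW b r ≠ .twoE) :
    ∃ (x : SK) (dl : ℕ) (ll : SK) (dr : ℕ) (rr : SK) (kl kr : ℂ) (l3 : SK) (dp : ℕ) (lp : SK)
      (w' k2 kp : ℂ),
      RDt K 3 x .s dl ll dr rr (oW b w i.val) kl kr ∧
      ofr (b i) (zsW b w (.inl (.inr ⟨i, hm⟩))) =
        mH x (RR (oW b w i.val) kl) (Complex.cos (oW b w i.val)) ∧
      ofr (b i) (zsW b w (.inl (.inl h'))) =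
        yH .s (RR (oW b w i.val) kr) (Complex.cos (oW b w i.val)) ∧
      Sd b i j 0 x dl ll ∧ clsW b r = cK dr rr ∧
      RDt K dr .s rr 3 l3 dp lp w' k2 kp ∧ RR w' k2 = RR (oW b w i.val) kr ∧
      k2 = Complex.cos (oW b w i.val) := by
  have hui : us b i.val = false := us_of_abs (by omega)
  have e : i.val = h.val + 1 ∧ j.val = h.val := by
    rcases A.elim with ⟨h0, -⟩ | ⟨-, h1⟩
    · exact absurd h0 (by decide)
    · exact h1
  have e3 : i.val = h'.val ∧ k.val = h'.val + 1 := by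
    rcases A'.elim with ⟨-, h1⟩ | ⟨h0, -⟩
    · exact h1
    · exact absurd h0 (by decide)
  have e2 : r.val = k.val + 1 := by
    rcases A3.elim with ⟨-, h1⟩ | ⟨h0, -⟩
    · omega
    · exact absurd h0 (by decide)
  have hh := h'.2
  have hrk : rk b i.val = .s := rk_s (by omega) (by rwa [show i.val + 1 = k.val by omega])
  have hrn : rn b i.val = r.val := by
    unfold rn
    rw [if_pos (by rwa [show i.val + 1 = k.val by omega])]
    omega
  have hE : RDt K _ _ _ _ _ _ _ (oW b w i.val) (oL b w i.val) (oR b w i.val) :=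
    rdt hb F hw hS (n := i.val) (by omega) (by omega) hui
  rw [dg_val, h3, hrk, hrn] at hE
  obtain ⟨g1, g2, g3, g4⟩ := us_true huk
  have hur : us b r.val = false := by rwa [e2]
  have hsd := sd_right (b := b) A'
  rw [hrn] at hsd
  have hcr : clsW b r = cK (dg b r.val) (rk b r.val) := (hsd.far A3 huk).2
  have hrM : r.val < M := by
    by_contra hc
    have h7 := rk_e (b := b) (n := r.val) (by omega)
    have h8 := beh5 hE
    rw [h7] at h8 hcr
    rcases h8 with ⟨-, h9⟩ | ⟨-, h9⟩ | ⟨-, h9⟩ | ⟨-, h9⟩ | ⟨h9, -⟩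
    · exact absurd h9 (by decide)
    · exact absurd h9 (by decide)
    · exact absurd h9 (by decide)
    · exact absurd h9 (by decide)
    · rw [h9] at hcr
      exact hr hcr
  have hP : RDt K _ _ _ _ _ _ _ (oW b w r.val) (oL b w r.val) (oR b w r.val) :=
    rdt hb F hw hS (n := r.val) (by omega) hrM hur
  have hlk : lk b r.val = .s := lk_s (by omega) (by rwa [show r.val - 1 = k.val by omega])
  have hln : ln b r.val = i.val := by
    unfold ln
    rw [if_pos (by rwa [show r.val - 1 = k.val by omega])]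
    omega
  rw [hlk, hln, dg_val (b := b) (i := i), h3] at hP
  have hsg : sg b i.val * sg b r.val = 1 := by
    have h5 := sg_rk hb (n := i.val) (by omega) hui
    rw [hrk, hrn] at h5
    exact h5
  have hss : sg b r.val = sg b i.val := by
    rcases sg_or (b := b) i.val with h | h <;> rcases sg_or (b := b) r.val with h' | h' <;>
      rw [h, h'] at hsg ⊢ <;> norm_num at hsg
  have eR : RR (oW b w r.val) (oL b w r.val) = RR (oW b w i.val) (oR b w i.val) := by
    unfold oW oL oR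
    rw [← fz_R0_left hb F hw (by omega) (by omega) hur, hln, hss,
      fz_R0_right hw (by omega) hui]
  have eC : oL b w r.val = Complex.cos (oW b w i.val) := by
    unfold oL oW
    rw [hln, hss, fz_cos]
  have ey := own_y_right F hw (n := i.val) (by omega) hui
  rw [hrk] at ey
  refine ⟨lk b i.val, _, _, _, _, oL b w i.val, oR b w i.val, _, _, _, oW b w r.val,
    oL b w r.val, oR b w r.val, hE, ?_, ?_, sd_left A, hcr, hP, eR, eC⟩
  · have ez : zsW b w (.inl (.inr ⟨i, hm⟩)) = acot2 (Rm b w i.val) := rfl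
    rw [ez, ofr_fz, ← acot2_fz, own_mid hb F hw (n := i.val) (by omega) (by omega) hui]
    rfl
  · rw [ofr_fz, zsW_val h' e3.1.symm]
    exact ey

end

/-- the two windows in the frame of the digit `3` -/
theorem two6 (hK : KOK K) (Bx : BoxRows K) {x : SK} {dl : ℕ} {ll : SK} {dr : ℕ} {rr : SK}
    {v kl kr : ℂ} {l3 : SK} {dp : ℕ} {lp : SK} {w' k2 kp : ℂ}
    (t : RDt K 3 x .s dl ll dr rr v kl kr) (hx : x = .s ∨ x = .a)
    (tP : RDt K dr .s rr 3 l3 dp lp w' k2 kp) (hR : RR w' k2 = RR v kr)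
    (hc : k2 = Complex.cos v) (hne : cK dr rr ≠ .twoE) :
    -(w6T (cK dr rr)) ≤ (yH .s (RR v kr) (Complex.cos v)).im ∧
    (mH x (RR v kl) (Complex.cos v)).im - (yH .s (RR v kr) (Complex.cos v)).im ≤
      w6S (cK dr rr) := by
  rcases hx with rfl | rfl
  · exact k6_case_s hK Bx t.symm tP hR hc hne
  · by_cases hd1 : dl = 1
    · subst hd1
      exact k6_case_u hK Bx t.symm tP hR hc hne
    · have g1 := y5_all hK Bx t.symm hd1
      have g2 := m5_all hK Bx t hd1
      have hQ : cK dl ll ≠ .one := fun h => hd1 (cK_m1 h)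
      have k1 : cK dl ll ≠ .two → w5T (cK dl ll) .one ≤ 801 / 10000 := by
        intro h
        generalize cK dl ll = Q at hQ h
        cases Q <;> first | exact absurd rfl hQ | exact absurd rfl h | norm_num [w5T]
      have k2' : cK dl ll ≠ .two → cK dl ll ≠ .ring →
          w5T (cK dl ll) .one + w5L (cK dl ll) .one ≤ 512 / 10000 := by
        intro h h'
        generalize cK dl ll = Q at hQ h h'
        cases Q <;> first | exact absurd rfl hQ | exact absurd rfl h | exact absurd rfl h' |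
          norm_num [w5T, w5L]
      have k3 : w5T (cK dl ll) .two ≤ 894 / 10000 := by
        generalize cK dl ll = Q at hQ
        cases Q <;> first | exact absurd rfl hQ | norm_num [w5T]
      have k4 : w5T (cK dl ll) .two + w5L (cK dl ll) .two ≤ 512 / 10000 := by
        generalize cK dl ll = Q at hQ
        cases Q <;> first | exact absurd rfl hQ | norm_num [w5T, w5L]
      rcases beh5 t with ⟨rfl, rfl⟩ | ⟨rfl, rfl⟩ | ⟨rfl, rfl⟩ | ⟨rfl, rfl⟩ | ⟨rfl, rfl⟩
      · rw [cK1] at g1 g2 ⊢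
        have e1 : w6T .one = 801 / 10000 := rfl
        have e2 : w6S .one = 512 / 10000 := rfl
        rw [e1, e2]
        by_cases hQ2 : cK dl ll = .two
        · obtain ⟨rfl, hle⟩ := cK_m2 hQ2
          have hr0 : ROK 2 ll .a := t.left.ok.right.symm
          have g3 : -(801 / 10000) ≤ (yH .s (RR v kr) (Complex.cos v)).im := by
            cases ll
            · exact absurd rfl hle
            · exact k6_case_2a hK Bx t.symm tP hR hc
            · exact absurd (hr0.zl rfl) (by norm_num)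
            · exact k6_case_2s hK Bx t.symm tP hR hc
          have e3 : w5L .two .one = -(345 / 10000) := rfl
          rw [hQ2, e3] at g2
          exact ⟨g3, by linarith only [g2, g3]⟩
        · have k5 := k1 hQ2
          rcases Nat.lt_or_ge dl 4 with h4 | h4
          · have hQ3 : cK dl ll ≠ .ring := by
              have hp := (t.left.ok.right : ROK dl .a ll).pos
              have h5 : dl = 1 ∨ dl = 2 ∨ dl = 3 := by omega
              rcases h5 with rfl | rfl | rfl <;> cases ll <;> decide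
            have k6 := k2' hQ2 hQ3
            exact ⟨by linarith only [g1, k5], by linarith only [g1, g2, k6]⟩
          · exact ⟨by linarith only [g1, k5], k6_case_Z hK Bx t.symm h4⟩
      · have g := (m3_A1s hK Bx t.symm (Or.inr ⟨rfl, hd1⟩) (far_split Bx t.symm.left)).2.2.2.2.1
        have e : nC .a dl ll = cK dl ll := rfl
        rw [e] at g
        rw [cK1] at g2 ⊢
        have e1 : w6T .one = 801 / 10000 := rfl
        have e2 : w6S .one = 512 / 10000 := rfl
        rw [e1, e2]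
        have k7 : -(801 / 10000) ≤ (mw3 false (cK dl ll)).y0 ∧
            w5L (cK dl ll) .one - (mw3 false (cK dl ll)).y0 ≤ 512 / 10000 := by
          generalize cK dl ll = Q at hQ
          cases Q <;> first | exact absurd rfl hQ | norm_num [w5L, mw3]
        exact ⟨k7.1.trans g, by linarith only [g2, g, k7, k7.2]⟩
      · rw [cK2a] at g1 g2 ⊢
        have e1 : w6T .two = 894 / 10000 := rfl
        have e2 : w6S .two = 512 / 10000 := rfl
        rw [e1, e2]
        exact ⟨by linarith only [k3, g1], by linarith only [k4, g1, g2]⟩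
      · rw [cK2s] at g1 g2 ⊢
        have e1 : w6T .two = 894 / 10000 := rfl
        have e2 : w6S .two = 512 / 10000 := rfl
        rw [e1, e2]
        exact ⟨by linarith only [k3, g1], by linarith only [k4, g1, g2]⟩
      · exact absurd rfl hne

section
include hb F hw hK hS Bx

theorem word6 {h h' h2 : Fin M} {i j k r : Fin (M + 1)} (hm : (tyW b i).isMid = true)
    (A : Adj h i 0 j) (A' : Adj h' i 2 k) (A3 : Adj h2 k 2 r) (hi : clsW b i = .three)
    (hk : clsW b k = .one) (hr : clsW b r ≠ .twoE) :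
    -(w6T (clsW b r)) ≤ ofs (b i) (zsW b w (.inl (.inl h'))).im ∧
    ofs (b i) (zsW b w (.inl (.inr ⟨i, hm⟩))).im - ofs (b i) (zsW b w (.inl (.inl h'))).im ≤
      w6S (clsW b r) := by
  have h3 := three_nat hi
  have hui : us b i.val = false := us_of_abs (by omega)
  have huk : us b k.val = true := by
    have e3 : k.val = i.val + 1 := by
      rcases A'.elim with ⟨-, h1⟩ | ⟨h0, -⟩
      · omega
      · exact absurd h0 (by decide)
    rw [e3, us_succ, Bool.and_eq_true, decide_eq_true_eq, Bool.not_eq_true']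
    refine ⟨?_, hui⟩
    rw [← e3, bb_val]
    exact one_nat hk
  obtain ⟨x, dl, ll, dr, rr, kl, kr, l3, dp, lp, w', k2, kp, t, y2, y3, s1, hcr, tP, eR, eC⟩ :=
    ring6 hb F hw hS hm A A' A3 h3 huk hr
  have hx : x = .s ∨ x = .a := by
    rcases Bool.eq_false_or_eq_true (us b j.val) with huj | huj
    · exact Or.inl (s1.s huj)
    · obtain ⟨-, hx⟩ := s1.u huj
      have hop : b i * b j < 0 := A.opp hb (Or.inl (by rw [hi]; decide))
      rw [if_neg (by omega)] at hx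
      exact Or.inr hx
  rw [hcr, ← ofr_im, ← ofr_im, y2, y3]
  exact two6 hK Bx t hx tP eR eC (by rw [← hcr]; exact hr)

/-- **Sharp windows at a digit `3` of a word with a digit `1` at the last slot.** -/
theorem locM6_of : LocM6 b (zsW b w) where
  one := by
    intro h h' h2 i j k r A A' A3 hi hk hr
    have h3 := three_nat hi
    have hm : (tyW b i).isMid = true := by
      unfold tyW
      rw [if_neg (by omega), if_neg (by omega), if_pos h3]
      split_ifs <;> rfl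
    have h6 := (word6 hb F hw hK hS Bx hm A A' A3 hi hk (by rw [hr]; decide)).1
    have e1 : w6T .one = 801 / 10000 := rfl
    rw [hr, e1] at h6
    rw [ofs_opp5 (A'.opp hb (Or.inl (by rw [hi]; decide)))]
    linarith only [h6]
  two := by
    intro h h' h2 i j k r A A' A3 hi hk hr
    have h3 := three_nat hi
    have hm : (tyW b i).isMid = true := by
      unfold tyW
      rw [if_neg (by omega), if_neg (by omega), if_pos h3]
      split_ifs <;> rfl
    have h6 := (word6 hb F hw hK hS Bx hm A A' A3 hi hk (by rw [hr]; decide)).1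
    have e1 : w6T .two = 894 / 10000 := rfl
    rw [hr, e1] at h6
    rw [ofs_opp5 (A'.opp hb (Or.inl (by rw [hi]; decide)))]
    linarith only [h6]
  line := by
    intro h h' h2 i j k r hm A A' A3 hi hk hr
    have h6 := (word6 hb F hw hK hS Bx hm A A' A3 hi hk
      (by rcases hr with hr | hr <;> rw [hr] <;> decide)).2
    have e1 : w6S (clsW b r) = 512 / 10000 := by
      rcases hr with hr | hr <;> rw [hr] <;> rfl
    rw [e1] at h6
    rw [ofs_opp5 (A'.opp hb (Or.inl (by rw [hi]; decide)))]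
    linarith only [hm, h6]

end

end

end

end Pool.Agent.Work.MP_b30479_gt.G2.CN.TD
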