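import Pool.Agent.Work.MP_b30479_gt.G2.CN.TLg

/-!
# Rows for both hinges of a ring: the groups of the outer values

`Oh l d ll k s`: kind and neighbour of the other hinge of a ring next to a region of class `k`
(`s`: equal signs).
-/

namespace Pool.Agent.Work.MP_b30479_gt.G2.CN.TD

open Complex SR Ev
open scoped ComplexConjugate

noncomputable section

lemma ld4 : LgD 4 := Or.inr (Or.inl rfl)
lemma ld5 : LgD 5 := Or.inr (Or.inr (Or.inl rfl))
lemma ld6 : LgD 6 := Or.inr (Or.inr (Or.inr rfl))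

/-- the first ring is an end, more crossings -/
def tFy (B : ℕ) : List Grp :=
  match B with
  | 6 => [⟨tl6, .sc 6 one, (rfl : 6 = 6), zeroQ⟩]
  | 7 => [⟨tl7, .sc 7 one, (rfl : 7 = 7), zeroQ⟩]
  | _ => []

lemma OL.ex {d B : ℕ} : OL d B .e (tFy B) := by
  intro K hK R T q q' hT hq h
  unfold tFy
  split
  · exact allOk_one (zero_ok rfl ((val_tl6 R T).trans (by rw [hT]; exact h)))
  · exact allOk_one (zero_ok rfl ((val_tl7 R T).trans (by rw [hT]; exact h)))
  · exact AllOk.nil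

/-- kind and neighbour of the other hinge -/
def Oh (l : SK) (d : ℕ) (ll : SK) (k : Cl) (s : Bool) : Prop :=
  k = nC l d ll ∧ (l ≠ .s → s = decide (l = .z))

section
variable {K : KFam} {d : ℕ} {l x : SK} {dl : ℕ} {ll : SK} {dr : ℕ} {rr : SK} {w kl kr : ℂ}

lemma aOkH (t : RDt K d l x dl ll dr rr w kl kr) {B : ℕ} (hB : crs d l x = B) {H : List QC}
    (hH : InH {kl} H) : AllOk (RR w kr) (Complex.tan w) (tA B H) := by
  subst hB
  have hT := tan_sq (ne_of_re t.right.kre)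
  exact tA_all hT (by rw [t.right.hinge]; ring) hH (out_left t)

lemma kl_a (t : RDt K d .a x dl ll dr rr w kl kr) {H : List QC} (hH : InH (K.K dl ll .a) H) :
    InH {kl} (mirH H) := by
  intro k hk
  rw [Set.mem_singleton_iff] at hk
  subst hk
  exact hH.mir _ (by rw [K.symm]; exact t.left.mem')

lemma kl_s (t : RDt K d .s x dl ll dr rr w kl kr) {H : List QC} (hH : InH (K.K dl ll .s) H) :
    InH {kl} H := by
  intro k hk
  rw [Set.mem_singleton_iff] at hk
  subst hk
  have h3 := t.left.mem'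
  rw [K.symm] at h3
  have e : frS SK.s.sgn (K.K dl ll .s) = K.K dl ll .s := frS_one _
  rw [e] at h3
  exact hH _ h3

lemma kl_z (t : RDt K d .z x dl ll dr rr w kl kr) {H : List QC} (hH : InH (K.K dl ll .z) H) :
    InH {kl} H := by
  intro k hk
  rw [Set.mem_singleton_iff] at hk
  subst hk
  have h3 := t.left.mem'
  rw [K.symm] at h3
  have e : frS SK.z.sgn (K.K dl ll .z) = K.K dl ll .z := frS_one _
  rw [e] at h3
  exact hH _ h3

lemma aPa (hK : KOK K) (t : RDt K d .a x dl ll dr rr w kl kr) {B : ℕ} (hB : crs d .a x = B) :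
    AllOk (RR w kr) (Complex.tan w) (tA B (mirH PA2)) := by
  subst hB
  have hT := tan_sq (ne_of_re t.right.kre)
  exact OL.a hK hT (by rw [t.right.hinge]; ring) t.right.out

lemma aPs (hK : KOK K) (h3 : 3 ≤ d) (t : RDt K d .s x dl ll dr rr w kl kr) {B : ℕ}
    (hB : crs d .s x = B) : AllOk (RR w kr) (Complex.tan w) (tA B PS3) := by
  subst hB
  have hT := tan_sq (ne_of_re t.right.kre)
  exact OL.s h3 hK hT (by rw [t.right.hinge]; ring) t.right.out

lemma dOk (hK : KOK K) (t : RDt K d l x dl ll dr rr w kl kr) {B : ℕ} (hB : crs dr x rr = B)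
    {L : List Grp} (h : OR x dr B rr L) : AllOk (RR w kr) (Complex.tan w) L := by
  subst hB
  have hT := tan_sq (ne_of_re t.right.kre)
  exact h hK hT (by rw [t.right.hinge]; ring) t.right.out'

end

section
variable {l : SK} {d : ℕ} {ll r : SK}

lemma Oh.one {s : Bool} (h : Oh l d ll .one s) (hz : l = .z → 4 ≤ d) (he : l ≠ .e) :
    (l = .a ∧ d = 1) ∨ l = .s := by
  obtain ⟨h1, -⟩ := h
  unfold nC at h1
  split_ifs at h1 with h2
  · exact Or.inr h2
  · have h3 : d = 1 := by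
      unfold cK at h1
      split_ifs at h1 with h4
      exact h4
    cases l
    · exact absurd rfl he
    · exact Or.inl ⟨rfl, h3⟩
    · have := hz rfl
      omega
    · exact absurd rfl h2

lemma Oh.cl {k : Cl} {s : Bool} (h : Oh l d ll k s) (hk : k ≠ .one) : l ≠ .s ∧ k = cK d ll :=
  nC_ne_s h.1 hk

lemma Oh.a_of {k : Cl} {s : Bool} (h : Oh l d ll k s) (hk : k ≠ .one) (hz : l = .z → 4 ≤ d)
    (he : l ≠ .e) (hd : d < 4) : l = .a := by
  have h1 := (h.cl hk).1
  cases l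
  · exact absurd rfl he
  · rfl
  · have := hz rfl
    omega
  · exact absurd rfl h1

lemma Oh.two {s : Bool} (h : Oh l d ll .two s) (hz : l = .z → 4 ≤ d) (he : l ≠ .e) :
    l = .a ∧ d = 2 ∧ ll ≠ .e := by
  have hk : Cl.two ≠ .one := by decide
  have h1 := cK_two' (h.cl hk).2
  exact ⟨h.a_of hk hz he (by omega), h1⟩

lemma Oh.twoE {s : Bool} (h : Oh l d ll .twoE s) (hz : l = .z → 4 ≤ d) (he : l ≠ .e) :
    l = .a ∧ d = 2 ∧ ll = .e := by
  have hk : Cl.twoE ≠ .one := by decide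
  have h1 := cK_twoE (h.cl hk).2
  exact ⟨h.a_of hk hz he (by omega), h1⟩

lemma Oh.three {s : Bool} (h : Oh l d ll .three s) (hz : l = .z → 4 ≤ d) (he : l ≠ .e) :
    l = .a ∧ d = 3 ∧ ll ≠ .e := by
  have hk : Cl.three ≠ .one := by decide
  have h1 : d = 3 ∧ ll ≠ .e := by
    have h2 := (h.cl hk).2
    unfold cK at h2
    split_ifs at h2 with g1 g2 g3 g4 g5
    exact ⟨g4, g5⟩
  exact ⟨h.a_of hk hz he (by omega), h1⟩

lemma Oh.threeE {s : Bool} (h : Oh l d ll .threeE s) (hz : l = .z → 4 ≤ d) (he : l ≠ .e) :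
    l = .a ∧ d = 3 ∧ ll = .e := by
  have hk : Cl.threeE ≠ .one := by decide
  have h1 : d = 3 ∧ ll = .e := by
    have h2 := (h.cl hk).2
    unfold cK at h2
    split_ifs at h2 with g1 g2 g3 g4 g5
    exact ⟨g4, g5⟩
  exact ⟨h.a_of hk hz he (by omega), h1⟩

lemma Oh.ring {s : Bool} (h : Oh l d ll .ring s) (hp : 1 ≤ d) (he : l ≠ .e) :
    (l = .a ∧ s = false ∧ 4 ≤ d) ∨ (l = .z ∧ s = true ∧ 4 ≤ d) := by
  have hk : Cl.ring ≠ .one := by decide
  obtain ⟨h1, h2⟩ := h.cl hk
  have h4 : 4 ≤ d := by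
    by_contra hc
    unfold cK at h2
    split_ifs at h2 with g1 g2 g3 g4 g5
    omega
  have h3 := h.2 h1
  cases l
  · exact absurd rfl he
  · exact Or.inl ⟨rfl, h3, h4⟩
  · exact Or.inr ⟨rfl, h3, h4⟩
  · exact absurd rfl h1

end

end

end Pool.Agent.Work.MP_b30479_gt.G2.CN.TD
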