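import Pool.Agent.Work.MP_b30479_gt.G2.WLocV
import Pool.Agent.Work.MP_b30479_gt.G2.CN.TLh
import Pool.Agent.Work.MP_b30479_gt.G2.CN.LocBh
import Pool.Agent.Work.MP_b30479_gt.G2.CN.LocRU

/-!
# Windows of the rings of a word next to a digit `1`: from the rows to the word
-/

namespace Pool.Agent.Work.MP_b30479_gt.G2.CN.TD

open Complex SR
open scoped ComplexConjugate

noncomputable section

section
variable {M : ℕ} {b : Fin (M + 1) → ℤ} {w : ℕ → ℂ}
variable (hb : ClassW b) (F : RingFacts) (hw : Sol b w) (hM : 1 ≤ M) {K : KFam}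
  (hS : Snd K b w) (Bx : BoxRows K)

/-- the other hinge of a ring: kind and class -/
lemma oh_of {h : Fin M} {i k : Fin (M + 1)} {p : Fin 3} {l : SK} {dl : ℕ} {ll : SK}
    (A : Adj h i p k) (sd : Sd b i k p l dl ll) : Oh l dl ll (clsW b k) (ssW b h) := by
  refine ⟨sd.cls, fun hl => ?_⟩
  rcases Bool.eq_false_or_eq_true (us b k.val) with hu | hu
  · exact absurd (sd.s hu) hl
  · rw [ss_adj A, (sd.u hu).2]
    split_ifs with h2
    · rw [decide_eq_true h2]
      rfl
    · rw [decide_eq_false h2]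
      rfl

include hb F hw hM hS Bx

/-- the data of a ring next to a digit `1` -/
theorem rw_of {h h' h2 : Fin M} {i j k g : Fin (M + 1)} {p : Fin 3} (v : ZZ (tyW b))
    (hv : v.1 = i) (A : Adj h i p j) (A3 : Adj h2 j p g) (A2 : Adj h' i p.rev k)
    (hi : clsW b i = .ring) (h4 : 4 ≤ (b i).natAbs) (hj : clsW b j = .one) :
    ∃ (l x : SK) (dl : ℕ) (ll : SK) (dr : ℕ) (rr : SK) (kl kr : ℂ),
      RDt K (b i).natAbs l x dl ll dr rr (oW b w i.val) kl kr ∧
      ofr (b i) (zsW b w (.inl (.inl h'))) =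
        yH l (RR (oW b w i.val) kl) (Complex.cos (oW b w i.val)) ∧
      ofr (b i) (zsW b w (.inl (.inl h))) =
        yH x (RR (oW b w i.val) kr) (Complex.cos (oW b w i.val)) ∧
      ofz (b i) (zsW b w (.inr v)) = zeta (oW b w i.val) ∧
      Bh x dr rr (clsW b g) ∧ Oh l dl ll (clsW b k) (ssW b h') ∧
      (hbox .ring (clsW b k) (ssW b h')).In
        (yH l (RR (oW b w i.val) kl) (Complex.cos (oW b w i.val))) ∧
      Rg (yH x (RR (oW b w i.val) kr) (Complex.cos (oW b w i.val))) (zeta (oW b w i.val)) ∧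
      Rg (yH l (RR (oW b w i.val) kl) (Complex.cos (oW b w i.val))) (zeta (oW b w i.val)) ∧
      isEnd i = false := by
  have hL := loc_of_boxes hb F hw hM hS Bx
  have A' : Adj h i p.rev.rev j := by rwa [Fin.rev_rev]
  have hui : us b i.val = false := us_of_abs (by omega)
  have hend : isEnd i = false := mid_of A.symm A2
  obtain ⟨l, x, dl, ll, dr, rr, kl, kr, hE, y1, y2, s1, s2⟩ := pair_sd hb F hw hS A2 A' hui
  rw [Fin.rev_rev] at s2
  have hbx := box_cls Bx hE.right h4 s2.cls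
  have hbl := box_cls Bx hE.left h4 s1.cls
  have hi1 : clsW b i ≠ .one := by
    rw [hi]
    decide
  have hC := beh_of hb F hw hS A A3 s2 hi1 hj hE.right.ok.right.symm.zr
  have hk := oh_of A2 s1
  have he : SK.a = .e ↔ isEnd i = true :=
    ⟨fun h5 => absurd h5 (by decide), fun h5 => by rw [hend] at h5; exact absurd h5 (by decide)⟩
  subst hv
  have z0 := zb_rg h4 (zb_of hL v he)
  have y0 := hb_rg hbx
  have y0' := hb_rg hbl
  refine ⟨l, x, dl, ll, dr, rr, kl, kr, hE, y1, y2, ofz_own .., hC, hk, ?_,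
    ⟨y0.1, y0.2, z0.1, z0.2⟩, ⟨y0'.1, y0'.2, z0.1, z0.2⟩, hend⟩
  by_cases hl : l = .s
  · have e : clsW b k = .one := by
      rw [s1.cls, hl]
      rfl
    rw [e] at hbl ⊢
    exact hbl
  · rw [hk.2 hl]
    exact hbl

/-- the windows from the windows of the rows -/
theorem locRw_mk {n : ℕ} (hn : 4 ≤ n) {q r : Cl → Cl → Bool → R4} {e : Cl → R4}
    (H4 : n = 4 → LocR4 b (zsW b w))
    (Q : ∀ {l x : SK} {dl : ℕ} {ll : SK} {dr : ℕ} {rr : SK} {w kl kr : ℂ} {C k : Cl} {s : Bool},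
      RDt K n l x dl ll dr rr w kl kr → Bh x dr rr C → Oh l dl ll k s →
      (n = 4 → (r4 false k s).In (yH l (RR w kl) (Complex.cos w)) (zeta w)) →
      (hbox .ring k s).In (yH l (RR w kl) (Complex.cos w)) →
      Rg (yH x (RR w kr) (Complex.cos w)) (zeta w) →
      (q C k s).In (yH x (RR w kr) (Complex.cos w)) (zeta w))
    (R : ∀ {l x : SK} {dl : ℕ} {ll : SK} {dr : ℕ} {rr : SK} {w kl kr : ℂ} {C k : Cl} {s : Bool},
      RDt K n l x dl ll dr rr w kl kr → Bh l dl ll C → Oh x dr rr k s → k ≠ .one →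
      (q C k s).In (yH l (RR w kl) (Complex.cos w)) (zeta w) →
      Rg (yH x (RR w kr) (Complex.cos w)) (zeta w) →
      (r C k s).In (yH x (RR w kr) (Complex.cos w)) (zeta w))
    (E : ∀ {x : SK} {dr : ℕ} {rr : SK} {w R k' : ℂ} {C : Cl}, TDt K x n .e dr rr w R k' →
      Bh x dr rr C → Rg (yH x R (Complex.cos w)) (zeta w) →
      (e C).In (yH x R (Complex.cos w)) (zeta w)) : LocRw n q r e b (zsW b w) := by
  constructor
  · intro h h' h2 i j k g p v hv A A3 A2 hi hni hj
    obtain ⟨l, x, dl, ll, dr, rr, kl, kr, t, y1, y2, ez, hC, hk, hl, rg, rg', hend⟩ :=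
      rw_of hb F hw hM hS Bx v hv A A3 A2 hi (by omega) hj
    rw [ez, y2]
    rw [hni] at t
    refine Q t hC hk (fun h5 => ?_) hl rg
    have g4 := (H4 h5).four v hv A2 hi (by omega)
    rw [hend, y1, ez] at g4
    exact g4
  · intro h h' h2 i j k g p v hv A A3 A2 hi hni hj hk1
    obtain ⟨l, x, dl, ll, dr, rr, kl, kr, t, y1, y2, ez, hC, hk, hl, rg, rg', hend⟩ :=
      rw_of hb F hw hM hS Bx v hv A A3 A2 hi (by omega) hj
    rw [ez, y1]
    rw [hni] at t
    refine R t.symm hC hk hk1 (Q t hC hk (fun h5 => ?_) hl rg) rg'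
    have g4 := (H4 h5).four v hv A2 hi (by omega)
    rw [hend, y1, ez] at g4
    exact g4
  · intro h h2 i j g p v hv A A3 hend hi hni hj
    have hL := loc_of_boxes hb F hw hM hS Bx
    obtain ⟨x, l, d', l', R', k', t, hy, he, sd⟩ := side_sd hb F hw hS Bx A (by omega)
    have hle := he.2 hend
    subst hle
    have hi1 : clsW b i ≠ .one := by
      rw [hi]
      decide
    have hC := beh_of hb F hw hS A A3 sd hi1 hj t.h.ok.right.symm.zr
    have hbx := box_cls Bx t.h (by omega) sd.cls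
    subst hv
    have z0 := zb_rg (by omega) (zb_of hL v he)
    have y0 := hb_rg hbx
    rw [ofz_own, hy]
    rw [hni] at t
    exact E t hC ⟨y0.1, y0.2, z0.1, z0.2⟩

end

end

end Pool.Agent.Work.MP_b30479_gt.G2.CN.TD
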