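import Pool.Agent.Work.MP_b30479_gt.G2.WLocC
import Pool.Agent.Work.MP_b30479_gt.G2.CN.RowD
import Pool.Agent.Work.MP_b30479_gt.G2.CN.TUt

/-!
# Rings with four crossings next to a digit `2` at an end: conditions
-/

namespace Pool.Agent.Work.MP_b30479_gt.G2.CN.TD

open Complex SR

lemma lf_ringA_of {y z : ℂ} (h : (rf4 .ring false).In y z) : ∀ g ∈ lf_ringA, g.G y := by
  have a0 := h.x0
  have a1 := h.x1
  have a2 := h.t0
  have a3 := h.t1
  norm_num [rf4, mk4] at a0 a1 a2 a3
  exact li_box (by norm_num; linarith only [a0]) (by norm_num; linarith only [a1]) (by norm_num; linarith only [a1]) (by norm_num; linarith only [a2]) (by norm_num; linarith only [a3])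

lemma lf_ringZ_of {y z : ℂ} (h : (rf4 .ring true).In y z) : ∀ g ∈ lf_ringZ, g.G y := by
  have a0 := h.x0
  have a1 := h.x1
  have a2 := h.t0
  have a3 := h.t1
  norm_num [rf4, mk4] at a0 a1 a2 a3
  exact li_box (by norm_num; linarith only [a0]) (by norm_num; linarith only [a1]) (by norm_num; linarith only [a1]) (by norm_num; linarith only [a2]) (by norm_num; linarith only [a3])

lemma lf_three3_of {s : Bool} {y z : ℂ} (h : (rf4 .three s).In y z) : ∀ g ∈ lf_three3, g.G y := by
  have a0 := h.x0
  have a1 := h.x1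
  have a2 := h.t0
  have a3 := h.t1
  norm_num [rf4, mk4] at a0 a1 a2 a3
  exact li_box3 (by norm_num; linarith only [a0]) (by norm_num; linarith only [a1]) (by norm_num; linarith only [a2]) (by norm_num; linarith only [a3])

lemma lf_threeE_of {s : Bool} {y z : ℂ} (h : (rf4 .threeE s).In y z) : ∀ g ∈ lf_threeE, g.G y := by
  have a0 := h.x0
  have a1 := h.x1
  have a2 := h.t0
  have a3 := h.t1
  norm_num [rf4, mk4] at a0 a1 a2 a3
  exact li_box (by norm_num; linarith only [a0]) (by norm_num; linarith only [a1]) (by norm_num; linarith only [a1]) (by norm_num; linarith only [a2]) (by norm_num; linarith only [a3])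

lemma lf_two3_of {s : Bool} {y z : ℂ} (h : (rf4 .two s).In y z) : ∀ g ∈ lf_two3, g.G y := by
  have a0 := h.x0
  have a1 := h.x1
  have a2 := h.t0
  have a3 := h.t1
  norm_num [rf4, mk4] at a0 a1 a2 a3
  exact li_box3 (by norm_num; linarith only [a0]) (by norm_num; linarith only [a1]) (by norm_num; linarith only [a2]) (by norm_num; linarith only [a3])

lemma lf_twoE_of {s : Bool} {y z : ℂ} (h : (rf4 .twoE s).In y z) : ∀ g ∈ lf_twoE, g.G y := by
  have a0 := h.x0
  have a1 := h.x1
  have a2 := h.t0
  have a3 := h.t1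
  norm_num [rf4, mk4] at a0 a1 a2 a3
  exact li_box (by norm_num; linarith only [a0]) (by norm_num; linarith only [a1]) (by norm_num; linarith only [a1]) (by norm_num; linarith only [a2]) (by norm_num; linarith only [a3])

end Pool.Agent.Work.MP_b30479_gt.G2.CN.TD
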