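import Pool.Agent.Work.MP_b30479_gt.G2.CN.TUt
import Pool.Agent.Work.MP_b30479_gt.G2.CN.RowD

/-!
# Conditions from the boxes, part 1
-/

namespace Pool.Agent.Work.MP_b30479_gt.G2.CN.TD

open Complex SR

noncomputable section

lemma l4_one_of {s : Bool} {y z : ℂ} (h : (r4 false .one s).In y z) : ∀ g ∈ l4_one, g.G y := by
  have a0 := h.x0
  have a1 := h.x1
  have a2 := h.t0
  have a3 := h.t1
  norm_num [r4, mk4] at a0 a1 a2 a3
  exact li_box (by norm_num; linarith) (by norm_num; linarith) (by norm_num; linarith) (by norm_num; linarith) (by norm_num; linarith)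

lemma l4_one3_of {s : Bool} {y z : ℂ} (h : (r4 false .one s).In y z) : ∀ g ∈ l4_one3, g.G y := by
  have a0 := h.x0
  have a1 := h.x1
  have a2 := h.t0
  have a3 := h.t1
  norm_num [r4, mk4] at a0 a1 a2 a3
  exact li_box3 (by norm_num; linarith) (by norm_num; linarith) (by norm_num; linarith) (by norm_num; linarith)

lemma l4_ringA_of {y z : ℂ} (h : (r4 false .ring false).In y z) : ∀ g ∈ l4_ringA, g.G y := by
  have a0 := h.x0
  have a1 := h.x1
  have a2 := h.t0
  have a3 := h.t1
  norm_num [r4, mk4] at a0 a1 a2 a3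
  exact li_box (by norm_num; linarith) (by norm_num; linarith) (by norm_num; linarith) (by norm_num; linarith) (by norm_num; linarith)

lemma l4_ringA4_of {y z : ℂ} (h : (r4 false .ring false).In y z) : ∀ g ∈ l4_ringA4, g.G y := by
  have a0 := h.x0
  have a1 := h.x1
  have a2 := h.t0
  have a3 := h.t1
  norm_num [r4, mk4] at a0 a1 a2 a3
  exact li_box4 (by norm_num; linarith) (by norm_num; linarith) (by norm_num; linarith) (by norm_num; linarith)

lemma l4_ringZ_of {y z : ℂ} (h : (r4 false .ring true).In y z) : ∀ g ∈ l4_ringZ, g.G y := by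
  have a0 := h.x0
  have a1 := h.x1
  have a2 := h.t0
  have a3 := h.t1
  norm_num [r4, mk4] at a0 a1 a2 a3
  exact li_box (by norm_num; linarith) (by norm_num; linarith) (by norm_num; linarith) (by norm_num; linarith) (by norm_num; linarith)

lemma l4_three_of {s : Bool} {y z : ℂ} (h : (r4 false .three s).In y z) : ∀ g ∈ l4_three, g.G y := by
  have a0 := h.x0
  have a1 := h.x1
  have a2 := h.t0
  have a3 := h.t1
  norm_num [r4, mk4] at a0 a1 a2 a3
  exact li_box (by norm_num; linarith) (by norm_num; linarith) (by norm_num; linarith) (by norm_num; linarith) (by norm_num; linarith)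

lemma l4_three3_of {s : Bool} {y z : ℂ} (h : (r4 false .three s).In y z) : ∀ g ∈ l4_three3, g.G y := by
  have a0 := h.x0
  have a1 := h.x1
  have a2 := h.t0
  have a3 := h.t1
  norm_num [r4, mk4] at a0 a1 a2 a3
  exact li_box3 (by norm_num; linarith) (by norm_num; linarith) (by norm_num; linarith) (by norm_num; linarith)

lemma l4_threeE_of {s : Bool} {y z : ℂ} (h : (r4 false .threeE s).In y z) : ∀ g ∈ l4_threeE, g.G y := by
  have a0 := h.x0
  have a1 := h.x1
  have a2 := h.t0
  have a3 := h.t1
  norm_num [r4, mk4] at a0 a1 a2 a3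
  exact li_box (by norm_num; linarith) (by norm_num; linarith) (by norm_num; linarith) (by norm_num; linarith) (by norm_num; linarith)

lemma l4_threeE4_of {s : Bool} {y z : ℂ} (h : (r4 false .threeE s).In y z) : ∀ g ∈ l4_threeE4, g.G y := by
  have a0 := h.x0
  have a1 := h.x1
  have a2 := h.t0
  have a3 := h.t1
  norm_num [r4, mk4] at a0 a1 a2 a3
  exact li_box4 (by norm_num; linarith) (by norm_num; linarith) (by norm_num; linarith) (by norm_num; linarith)

lemma l4_two_of {s : Bool} {y z : ℂ} (h : (r4 false .two s).In y z) : ∀ g ∈ l4_two, g.G y := by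
  have a0 := h.x0
  have a1 := h.x1
  have a2 := h.t0
  have a3 := h.t1
  norm_num [r4, mk4] at a0 a1 a2 a3
  exact li_box (by norm_num; linarith) (by norm_num; linarith) (by norm_num; linarith) (by norm_num; linarith) (by norm_num; linarith)

lemma l4_two3_of {s : Bool} {y z : ℂ} (h : (r4 false .two s).In y z) : ∀ g ∈ l4_two3, g.G y := by
  have a0 := h.x0
  have a1 := h.x1
  have a2 := h.t0
  have a3 := h.t1
  norm_num [r4, mk4] at a0 a1 a2 a3
  exact li_box3 (by norm_num; linarith) (by norm_num; linarith) (by norm_num; linarith) (by norm_num; linarith)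

lemma l4_twoE_of {s : Bool} {y z : ℂ} (h : (r4 false .twoE s).In y z) : ∀ g ∈ l4_twoE, g.G y := by
  have a0 := h.x0
  have a1 := h.x1
  have a2 := h.t0
  have a3 := h.t1
  norm_num [r4, mk4] at a0 a1 a2 a3
  exact li_box (by norm_num; linarith) (by norm_num; linarith) (by norm_num; linarith) (by norm_num; linarith) (by norm_num; linarith)

lemma l4_twoE3_of {s : Bool} {y z : ℂ} (h : (r4 false .twoE s).In y z) : ∀ g ∈ l4_twoE3, g.G y := by
  have a0 := h.x0
  have a1 := h.x1
  have a2 := h.t0
  have a3 := h.t1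
  norm_num [r4, mk4] at a0 a1 a2 a3
  exact li_box3 (by norm_num; linarith) (by norm_num; linarith) (by norm_num; linarith) (by norm_num; linarith)

lemma lh_one_of {s : Bool} {y : ℂ} (h : (hbox .ring .one s).In y) : ∀ g ∈ lh_one, g.G y := by
  obtain ⟨a0, a1, a2, a3⟩ := h
  norm_num [hbox] at a0 a1 a2 a3
  exact li_box (by norm_num; linarith) (by norm_num; linarith) (by norm_num; linarith) (by norm_num; linarith) (by norm_num; linarith)

lemma lh_ringA_of {y : ℂ} (h : (hbox .ring .ring false).In y) : ∀ g ∈ lh_ringA, g.G y := by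
  obtain ⟨a0, a1, a2, a3⟩ := h
  norm_num [hbox] at a0 a1 a2 a3
  exact li_box (by norm_num; linarith) (by norm_num; linarith) (by norm_num; linarith) (by norm_num; linarith) (by norm_num; linarith)

lemma lh_ringZ_of {y : ℂ} (h : (hbox .ring .ring true).In y) : ∀ g ∈ lh_ringZ, g.G y := by
  obtain ⟨a0, a1, a2, a3⟩ := h
  norm_num [hbox] at a0 a1 a2 a3
  exact li_box (by norm_num; linarith) (by norm_num; linarith) (by norm_num; linarith) (by norm_num; linarith) (by norm_num; linarith)

lemma lh_three_of {s : Bool} {y : ℂ} (h : (hbox .ring .three s).In y) : ∀ g ∈ lh_three, g.G y := by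
  obtain ⟨a0, a1, a2, a3⟩ := h
  norm_num [hbox] at a0 a1 a2 a3
  exact li_box (by norm_num; linarith) (by norm_num; linarith) (by norm_num; linarith) (by norm_num; linarith) (by norm_num; linarith)

lemma lh_threeE_of {s : Bool} {y : ℂ} (h : (hbox .ring .threeE s).In y) : ∀ g ∈ lh_threeE, g.G y := by
  obtain ⟨a0, a1, a2, a3⟩ := h
  norm_num [hbox] at a0 a1 a2 a3
  exact li_box (by norm_num; linarith) (by norm_num; linarith) (by norm_num; linarith) (by norm_num; linarith) (by norm_num; linarith)

lemma lh_two_of {s : Bool} {y : ℂ} (h : (hbox .ring .two s).In y) : ∀ g ∈ lh_two, g.G y := by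
  obtain ⟨a0, a1, a2, a3⟩ := h
  norm_num [hbox] at a0 a1 a2 a3
  exact li_box (by norm_num; linarith) (by norm_num; linarith) (by norm_num; linarith) (by norm_num; linarith) (by norm_num; linarith)

end

end Pool.Agent.Work.MP_b30479_gt.G2.CN.TD
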