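import Pool.Agent.Work.MP_b30479_gt.G2.CN.TF4A
import Pool.Agent.Work.MP_b30479_gt.G2.CN.LocRwA
import Pool.Agent.Work.MP_b30479_gt.G2.CN.TFd
import Pool.Agent.Work.MP_b30479_gt.G2.CN.TLka

/-!
# Rings with four crossings next to a digit `2` at an end
-/

namespace Pool.Agent.Work.MP_b30479_gt.G2.CN.TD

open Complex SR

noncomputable section

section
variable {K : KFam} (hK : KOK K) (Bx : BoxRows K) {l x : SK} {dl : ℕ} {ll : SK} {dr : ℕ} {rr : SK}
  {w kl kr : ℂ}
include hK Bx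

theorem f4o_two {s' : Bool} {s : Bool} (t : RDt K 4 l x dl ll dr rr w kl kr) (hC : Oh x dr rr .twoE s')
    (hk : Oh l dl ll .two s)
    (hl : (r4 false .two s).In (yH l (RR w kl) (Complex.cos w)) (zeta w))
    (rg : Rg (yH x (RR w kr) (Complex.cos w)) (zeta w)) :
    (rf4 .two s).In (yH x (RR w kr) (Complex.cos w)) (zeta w) := by
  have hN := t.right.ok.right.symm
  have hO := t.right.ok.left
  have hL := t.left.ok.right.symm
  obtain ⟨rfl, rfl, rfl⟩ := hC.twoE hN.zr t.right.ok.ne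
  obtain ⟨rfl, rfl, hle⟩ := hk.two hL.zr t.left.ok.ne
  cases ll
  · exact absurd rfl hle
  · exact b4c_of (tuseC hK Bx ld4 t f4_2_k2a mn mn mn
      (l4_two_of hl) (hK.inH hO k4aa_ok) (hK.inH hN k2ea_ok)
      (aOkH t rfl (kl_a t (hK.inH hL k2aa_ok))) (dOk hK t rfl OR.e)) rg
      (by norm_num) (by norm_num) (by norm_num) (by norm_num)
  · exact absurd (hL.zl rfl) (by norm_num)
  · exact b4c_of (tuseC hK Bx ld4 t f4_2_k2s mn mn mn
      (l4_two_of hl) (hK.inH hO k4aa_ok) (hK.inH hN k2ea_ok)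
      (aOkH t rfl (kl_a t (hK.inH hL k3as_ok))) (dOk hK t rfl OR.e)) rg
      (by norm_num) (by norm_num) (by norm_num) (by norm_num)

theorem f4p_two {s' : Bool} {s : Bool} (t : RDt K 4 l x dl ll dr rr w kl kr) (hC : Oh l dl ll .twoE s')
    (hk : Oh x dr rr .two s)
    (hl : (rf4 .two s).In (yH l (RR w kl) (Complex.cos w)) (zeta w))
    (rg : Rg (yH x (RR w kr) (Complex.cos w)) (zeta w)) :
    (rg4 .two s).In (yH x (RR w kr) (Complex.cos w)) (zeta w) := by
  have hN := t.right.ok.right.symm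
  have hO := t.right.ok.left
  have hL := t.left.ok.right.symm
  obtain ⟨rfl, rfl, rfl⟩ := hC.twoE hL.zr t.left.ok.ne
  obtain ⟨rfl, rfl, hre⟩ := hk.two hN.zr t.right.ok.ne
  cases rr
  · exact absurd rfl hre
  · exact b4c_of (tuseC hK Bx ld4 t g4_2_k2a mn mn mn
      (lf_two3_of hl) (hK.inH hO k4aa_ok) (hK.inH hN k2aa_ok)
      (aOkH t rfl (kl_a t (hK.inH hL k2ea_ok))) (dOk hK t rfl OR.a)) rg
      (by norm_num) (by norm_num) (by norm_num) (by norm_num)
  · exact absurd (hN.zl rfl) (by norm_num)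
  · exact b4c_of (tuseC hK Bx ld4 t g4_2_k2s mn mn mn
      (lf_two3_of hl) (hK.inH hO k4aa_ok) (hK.inH hN k3as_ok)
      (aOkH t rfl (kl_a t (hK.inH hL k2ea_ok))) (dOk hK t rfl OR.s)) rg
      (by norm_num) (by norm_num) (by norm_num) (by norm_num)

theorem f4o_twoE {s' : Bool} {s : Bool} (t : RDt K 4 l x dl ll dr rr w kl kr) (hC : Oh x dr rr .twoE s')
    (hk : Oh l dl ll .twoE s)
    (hl : (r4 false .twoE s).In (yH l (RR w kl) (Complex.cos w)) (zeta w))
    (rg : Rg (yH x (RR w kr) (Complex.cos w)) (zeta w)) :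
    (rf4 .twoE s).In (yH x (RR w kr) (Complex.cos w)) (zeta w) := by
  have hN := t.right.ok.right.symm
  have hO := t.right.ok.left
  have hL := t.left.ok.right.symm
  obtain ⟨rfl, rfl, rfl⟩ := hC.twoE hN.zr t.right.ok.ne
  obtain ⟨rfl, rfl, rfl⟩ := hk.twoE hL.zr t.left.ok.ne
  exact b4c_of (tuseC hK Bx ld4 t f4_2e_k2e mn mn mn
    (l4_twoE_of hl) (hK.inH hO k4aa_ok) (hK.inH hN k2ea_ok)
    (aOkH t rfl (kl_a t (hK.inH hL k2ea_ok))) (dOk hK t rfl OR.e)) rg
    (by norm_num) (by norm_num) (by norm_num) (by norm_num)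

theorem f4p_twoE {s' : Bool} {s : Bool} (t : RDt K 4 l x dl ll dr rr w kl kr) (hC : Oh l dl ll .twoE s')
    (hk : Oh x dr rr .twoE s)
    (hl : (rf4 .twoE s).In (yH l (RR w kl) (Complex.cos w)) (zeta w))
    (rg : Rg (yH x (RR w kr) (Complex.cos w)) (zeta w)) :
    (rg4 .twoE s).In (yH x (RR w kr) (Complex.cos w)) (zeta w) := by
  have hN := t.right.ok.right.symm
  have hO := t.right.ok.left
  have hL := t.left.ok.right.symm
  obtain ⟨rfl, rfl, rfl⟩ := hC.twoE hL.zr t.left.ok.ne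
  obtain ⟨rfl, rfl, rfl⟩ := hk.twoE hN.zr t.right.ok.ne
  exact b4c_of (tuseC hK Bx ld4 t g4_2e_k2e mn mn mn
    (lf_twoE_of hl) (hK.inH hO k4aa_ok) (hK.inH hN k2ea_ok)
    (aOkH t rfl (kl_a t (hK.inH hL k2ea_ok))) (dOk hK t rfl OR.e)) rg
    (by norm_num) (by norm_num) (by norm_num) (by norm_num)

theorem f4o_three {s' : Bool} {s : Bool} (t : RDt K 4 l x dl ll dr rr w kl kr) (hC : Oh x dr rr .twoE s')
    (hk : Oh l dl ll .three s)
    (hl : (r4 false .three s).In (yH l (RR w kl) (Complex.cos w)) (zeta w))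
    (rg : Rg (yH x (RR w kr) (Complex.cos w)) (zeta w)) :
    (rf4 .three s).In (yH x (RR w kr) (Complex.cos w)) (zeta w) := by
  have hN := t.right.ok.right.symm
  have hO := t.right.ok.left
  have hL := t.left.ok.right.symm
  obtain ⟨rfl, rfl, rfl⟩ := hC.twoE hN.zr t.right.ok.ne
  obtain ⟨rfl, rfl, hle⟩ := hk.three hL.zr t.left.ok.ne
  cases ll
  · exact absurd rfl hle
  · exact b4c_of (tuseC hK Bx ld4 t f4_3_k3a mn mn mn
      (l4_three_of hl) (hK.inH hO k4aa_ok) (hK.inH hN k2ea_ok)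
      (aOkH t rfl (kl_a t (hK.inH hL k3aa_ok))) (dOk hK t rfl OR.e)) rg
      (by norm_num) (by norm_num) (by norm_num) (by norm_num)
  · exact absurd (hL.zl rfl) (by norm_num)
  · exact b4c_of (tuseC hK Bx ld4 t f4_3_k3s mn mn mn
      (l4_three_of hl) (hK.inH hO k4aa_ok) (hK.inH hN k2ea_ok)
      (aOkH t rfl (kl_a t (hK.inH hL k4as_ok))) (dOk hK t rfl OR.e)) rg
      (by norm_num) (by norm_num) (by norm_num) (by norm_num)

theorem f4p_three {s' : Bool} {s : Bool} (t : RDt K 4 l x dl ll dr rr w kl kr) (hC : Oh l dl ll .twoE s')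
    (hk : Oh x dr rr .three s)
    (hl : (rf4 .three s).In (yH l (RR w kl) (Complex.cos w)) (zeta w))
    (rg : Rg (yH x (RR w kr) (Complex.cos w)) (zeta w)) :
    (rg4 .three s).In (yH x (RR w kr) (Complex.cos w)) (zeta w) := by
  have hN := t.right.ok.right.symm
  have hO := t.right.ok.left
  have hL := t.left.ok.right.symm
  obtain ⟨rfl, rfl, rfl⟩ := hC.twoE hL.zr t.left.ok.ne
  obtain ⟨rfl, rfl, hre⟩ := hk.three hN.zr t.right.ok.ne
  cases rr
  · exact absurd rfl hre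
  · exact b4c_of (tuseC hK Bx ld4 t g4_3_k3a mn mn mn
      (lf_three3_of hl) (hK.inH hO k4aa_ok) (hK.inH hN k3aa_ok)
      (aOkH t rfl (kl_a t (hK.inH hL k2ea_ok))) (dOk hK t rfl OR.a)) rg
      (by norm_num) (by norm_num) (by norm_num) (by norm_num)
  · exact absurd (hN.zl rfl) (by norm_num)
  · exact b4c_of (tuseC hK Bx ld4 t g4_3_k3s mn mn mn
      (lf_three3_of hl) (hK.inH hO k4aa_ok) (hK.inH hN k4as_ok)
      (aOkH t rfl (kl_a t (hK.inH hL k2ea_ok))) (dOk hK t rfl OR.s)) rg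
      (by norm_num) (by norm_num) (by norm_num) (by norm_num)

theorem f4o_threeE {s' : Bool} {s : Bool} (t : RDt K 4 l x dl ll dr rr w kl kr) (hC : Oh x dr rr .twoE s')
    (hk : Oh l dl ll .threeE s)
    (hl : (r4 false .threeE s).In (yH l (RR w kl) (Complex.cos w)) (zeta w))
    (rg : Rg (yH x (RR w kr) (Complex.cos w)) (zeta w)) :
    (rf4 .threeE s).In (yH x (RR w kr) (Complex.cos w)) (zeta w) := by
  have hN := t.right.ok.right.symm
  have hO := t.right.ok.left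
  have hL := t.left.ok.right.symm
  obtain ⟨rfl, rfl, rfl⟩ := hC.twoE hN.zr t.right.ok.ne
  obtain ⟨rfl, rfl, rfl⟩ := hk.threeE hL.zr t.left.ok.ne
  exact b4c_of (tuseC hK Bx ld4 t f4_3e_k3e mn mn mn
    (l4_threeE_of hl) (hK.inH hO k4aa_ok) (hK.inH hN k2ea_ok)
    (aOkH t rfl (kl_a t (hK.inH hL k3ea_ok))) (dOk hK t rfl OR.e)) rg
    (by norm_num) (by norm_num) (by norm_num) (by norm_num)

theorem f4p_threeE {s' : Bool} {s : Bool} (t : RDt K 4 l x dl ll dr rr w kl kr) (hC : Oh l dl ll .twoE s')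
    (hk : Oh x dr rr .threeE s)
    (hl : (rf4 .threeE s).In (yH l (RR w kl) (Complex.cos w)) (zeta w))
    (rg : Rg (yH x (RR w kr) (Complex.cos w)) (zeta w)) :
    (rg4 .threeE s).In (yH x (RR w kr) (Complex.cos w)) (zeta w) := by
  have hN := t.right.ok.right.symm
  have hO := t.right.ok.left
  have hL := t.left.ok.right.symm
  obtain ⟨rfl, rfl, rfl⟩ := hC.twoE hL.zr t.left.ok.ne
  obtain ⟨rfl, rfl, rfl⟩ := hk.threeE hN.zr t.right.ok.ne
  exact b4c_of (tuseC hK Bx ld4 t g4_3e_k3e mn mn mn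
    (lf_threeE_of hl) (hK.inH hO k4aa_ok) (hK.inH hN k3ea_ok)
    (aOkH t rfl (kl_a t (hK.inH hL k2ea_ok))) (dOk hK t rfl OR.e)) rg
    (by norm_num) (by norm_num) (by norm_num) (by norm_num)

theorem f4o_ringA {s' : Bool} (t : RDt K 4 l x dl ll dr rr w kl kr) (hC : Oh x dr rr .twoE s')
    (hk : Oh l dl ll .ring false)
    (hl : (r4 false .ring false).In (yH l (RR w kl) (Complex.cos w)) (zeta w))
    (rg : Rg (yH x (RR w kr) (Complex.cos w)) (zeta w)) :
    (rf4 .ring false).In (yH x (RR w kr) (Complex.cos w)) (zeta w) := by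
  have hN := t.right.ok.right.symm
  have hO := t.right.ok.left
  have hL := t.left.ok.right.symm
  obtain ⟨rfl, rfl, rfl⟩ := hC.twoE hN.zr t.right.ok.ne
  rcases hk.ring hL.pos t.left.ok.ne with ⟨rfl, -, hl4⟩ | ⟨-, h9, -⟩
  · exact b4c_of (tuseC hK Bx ld4 t f4_Z_kZ mn mn mn
      (l4_ringA_of hl) (hK.inH hO k4aa_ok) (hK.inH hN k2ea_ok)
      (aOkH t rfl (kl_a t (in_nZa hK hL hl4))) (dOk hK t rfl OR.e)) rg
      (by norm_num) (by norm_num) (by norm_num) (by norm_num)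
  · exact absurd h9 (by decide)

theorem f4p_ringA {s' : Bool} (t : RDt K 4 l x dl ll dr rr w kl kr) (hC : Oh l dl ll .twoE s')
    (hk : Oh x dr rr .ring false)
    (hl : (rf4 .ring false).In (yH l (RR w kl) (Complex.cos w)) (zeta w))
    (rg : Rg (yH x (RR w kr) (Complex.cos w)) (zeta w)) :
    (rg4 .ring false).In (yH x (RR w kr) (Complex.cos w)) (zeta w) := by
  have hN := t.right.ok.right.symm
  have hO := t.right.ok.left
  have hL := t.left.ok.right.symm
  obtain ⟨rfl, rfl, rfl⟩ := hC.twoE hL.zr t.left.ok.ne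
  rcases hk.ring hN.pos t.right.ok.ne with ⟨rfl, -, hr4⟩ | ⟨-, h9, -⟩
  · exact b4c_of (tuseC hK Bx ld4 t g4_Z_kZ mn mn mn
      (lf_ringA_of hl) (hK.inH hO k4aa_ok) (in_nZa hK hN hr4)
      (aOkH t rfl (kl_a t (hK.inH hL k2ea_ok))) AllOk.nil) rg
      (by norm_num) (by norm_num) (by norm_num) (by norm_num)
  · exact absurd h9 (by decide)

theorem f4o_ringZ {s' : Bool} (t : RDt K 4 l x dl ll dr rr w kl kr) (hC : Oh x dr rr .twoE s')
    (hk : Oh l dl ll .ring true)
    (hl : (r4 false .ring true).In (yH l (RR w kl) (Complex.cos w)) (zeta w))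
    (rg : Rg (yH x (RR w kr) (Complex.cos w)) (zeta w)) :
    (rf4 .ring true).In (yH x (RR w kr) (Complex.cos w)) (zeta w) := by
  have hN := t.right.ok.right.symm
  have hO := t.right.ok.left
  have hL := t.left.ok.right.symm
  obtain ⟨rfl, rfl, rfl⟩ := hC.twoE hN.zr t.right.ok.ne
  rcases hk.ring hL.pos t.left.ok.ne with ⟨-, h9, -⟩ | ⟨rfl, -, hl4⟩
  · exact absurd h9 (by decide)
  · exact b4c_of (tuseC hK Bx ld4 t f4_Zs_kz mn mn mn
      (l4_ringZ_of hl) (hK.inH hO k4az_ok) (hK.inH hN k2ea_ok)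
      (aOkH t rfl (kl_z t (in_nZz hK hL))) (dOk hK t rfl OR.e)) rg
      (by norm_num) (by norm_num) (by norm_num) (by norm_num)

theorem f4p_ringZ {s' : Bool} (t : RDt K 4 l x dl ll dr rr w kl kr) (hC : Oh l dl ll .twoE s')
    (hk : Oh x dr rr .ring true)
    (hl : (rf4 .ring true).In (yH l (RR w kl) (Complex.cos w)) (zeta w))
    (rg : Rg (yH x (RR w kr) (Complex.cos w)) (zeta w)) :
    (rg4 .ring true).In (yH x (RR w kr) (Complex.cos w)) (zeta w) := by
  have hN := t.right.ok.right.symm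
  have hO := t.right.ok.left
  have hL := t.left.ok.right.symm
  obtain ⟨rfl, rfl, rfl⟩ := hC.twoE hL.zr t.left.ok.ne
  rcases hk.ring hN.pos t.right.ok.ne with ⟨-, h9, -⟩ | ⟨rfl, -, hr4⟩
  · exact absurd h9 (by decide)
  · exact b4c_of (tuseC hK Bx ld4 t g4_Zs_kz mn mn mn
      (lf_ringZ_of hl) (hK.inH hO k4az_ok) (in_nZz hK hN)
      (aOkH t rfl (kl_a t (hK.inH hL k2ea_ok))) AllOk.nil) rg
      (by norm_num) (by norm_num) (by norm_num) (by norm_num)

theorem rf4_of {k : Cl} {s' s : Bool} (t : RDt K 4 l x dl ll dr rr w kl kr) (hC : Oh x dr rr .twoE s')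
    (hk : Oh l dl ll k s) (hk1 : k ≠ .one)
    (hl : (r4 false k s).In (yH l (RR w kl) (Complex.cos w)) (zeta w))
    (rg : Rg (yH x (RR w kr) (Complex.cos w)) (zeta w)) :
    (rf4 k s).In (yH x (RR w kr) (Complex.cos w)) (zeta w) := by
  cases k
  · exact absurd rfl hk1
  · exact f4o_two hK Bx t hC hk hl rg
  · exact f4o_twoE hK Bx t hC hk hl rg
  · exact f4o_three hK Bx t hC hk hl rg
  · exact f4o_threeE hK Bx t hC hk hl rg
  · cases s
    · exact f4o_ringA hK Bx t hC hk hl rg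
    · exact f4o_ringZ hK Bx t hC hk hl rg

theorem rg4_of {k : Cl} {s' s : Bool} (t : RDt K 4 l x dl ll dr rr w kl kr) (hC : Oh l dl ll .twoE s')
    (hk : Oh x dr rr k s) (hk1 : k ≠ .one)
    (hl : (rf4 k s).In (yH l (RR w kl) (Complex.cos w)) (zeta w))
    (rg : Rg (yH x (RR w kr) (Complex.cos w)) (zeta w)) :
    (rg4 k s).In (yH x (RR w kr) (Complex.cos w)) (zeta w) := by
  cases k
  · exact absurd rfl hk1
  · exact f4p_two hK Bx t hC hk hl rg
  · exact f4p_twoE hK Bx t hC hk hl rg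
  · exact f4p_three hK Bx t hC hk hl rg
  · exact f4p_threeE hK Bx t hC hk hl rg
  · cases s
    · exact f4p_ringA hK Bx t hC hk hl rg
    · exact f4p_ringZ hK Bx t hC hk hl rg

end

section
variable {M : ℕ} {b : Fin (M + 1) → ℤ} {w : ℕ → ℂ}
variable (hb : ClassW b) (F : RingFacts) (hw : Sol b w) (hM : 1 ≤ M) {K : KFam} (hK : KOK K)
  (hS : Snd K b w) (Bx : BoxRows K)
include hb F hw hM hK hS Bx

/-- **Windows of the rings with four crossings next to a digit `2` at an end.** -/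
theorem locR2e_of : LocR2e rf4 rg4 b (zsW b w) := by
  have key : ∀ {h h' : Fin M} {i j k : Fin (M + 1)} {p : Fin 3} (v : ZZ (tyW b)), v.1 = i →
      Adj h i p j → Adj h' i p.rev k → clsW b i = .ring → (b i).natAbs = 4 →
      clsW b j = .twoE → clsW b k ≠ .one →
      (rf4 (clsW b k) (ssW b h')).In (ofr (b i) (zsW b w (.inl (.inl h))))
        (ofz (b i) (zsW b w (.inr v))) ∧
      (rg4 (clsW b k) (ssW b h')).In (ofr (b i) (zsW b w (.inl (.inl h'))))
        (ofz (b i) (zsW b w (.inr v))) := by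
    intro h h' i j k p v hv A A2 hi hni hj hk1
    have hL := loc_of_boxes hb F hw hM hS Bx
    have A' : Adj h i p.rev.rev j := by rwa [Fin.rev_rev]
    have hui : us b i.val = false := us_of_abs (by omega)
    have hend : isEnd i = false := mid_of A.symm A2
    obtain ⟨l, x, dl, ll, dr, rr, kl, kr, hE, y1, y2, s1, s2⟩ := pair_sd hb F hw hS A2 A' hui
    rw [Fin.rev_rev] at s2
    have hbx := box_cls Bx hE.right (by omega) s2.cls
    have hbl := box_cls Bx hE.left (by omega) s1.cls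
    have hC := oh_of A s2
    have hk := oh_of A2 s1
    rw [hj] at hC
    have he : SK.a = .e ↔ isEnd i = true :=
      ⟨fun h5 => absurd h5 (by decide), fun h5 => by rw [hend] at h5; exact absurd h5 (by decide)⟩
    subst hv
    have z0 := zb_rg (by omega) (zb_of hL v he)
    have y0 := hb_rg hbx
    have y0' := hb_rg hbl
    have ez := ofz_own (b := b) (w := w) v
    have g4 := (locR4_of hb F hw hM hK hS Bx).four v rfl A2 hi (by omega)
    rw [hend, y1, ez] at g4
    rw [ez, y1, y2]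
    rw [hni] at hE
    have q := rf4_of hK Bx hE hC hk hk1 g4 ⟨y0.1, y0.2, z0.1, z0.2⟩
    exact ⟨q, rg4_of hK Bx hE.symm hC hk hk1 q ⟨y0'.1, y0'.2, z0.1, z0.2⟩⟩
  constructor
  · intro h h' i j k p v hv A A2 hi hni hj hk1
    exact (key v hv A A2 hi hni hj hk1).1
  · intro h h' i j k p v hv A A2 hi hni hj hk1
    exact (key v hv A A2 hi hni hj hk1).2

end

end

end Pool.Agent.Work.MP_b30479_gt.G2.CN.TD
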