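import Pool.Agent.Work.MP_b30479_gt.G2.WLocV
import Pool.Agent.Work.MP_b30479_gt.G2.CN.TUt
import Pool.Agent.Work.MP_b30479_gt.G2.CN.RowD

/-!
# Conditions from the boxes, part 3
-/

namespace Pool.Agent.Work.MP_b30479_gt.G2.CN.TD

open Complex SR

noncomputable section

lemma lo4_two_two_of {s : Bool} {y z : ℂ} (h : (rq4 .two .two s).In y z) : ∀ g ∈ lo4_two_two, g.G y := by
  have a0 := h.x0
  have a1 := h.x1
  have a2 := h.t0
  have a3 := h.t1
  norm_num [rq4, mk4] at a0 a1 a2 a3
  exact li_box (by norm_num; linarith) (by norm_num; linarith) (by norm_num; linarith) (by norm_num; linarith) (by norm_num; linarith)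

lemma lo4_two_twoE_of {s : Bool} {y z : ℂ} (h : (rq4 .two .twoE s).In y z) : ∀ g ∈ lo4_two_twoE, g.G y := by
  have a0 := h.x0
  have a1 := h.x1
  have a2 := h.t0
  have a3 := h.t1
  norm_num [rq4, mk4] at a0 a1 a2 a3
  exact li_box (by norm_num; linarith) (by norm_num; linarith) (by norm_num; linarith) (by norm_num; linarith) (by norm_num; linarith)

lemma lo5_one_ringA_of {y z : ℂ} (h : (rq5 .one .ring false).In y z) : ∀ g ∈ lo5_one_ringA, g.G y := by
  have a0 := h.x0
  have a1 := h.x1
  have a2 := h.t0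
  have a3 := h.t1
  norm_num [rq5, mk4] at a0 a1 a2 a3
  exact li_box (by norm_num; linarith) (by norm_num; linarith) (by norm_num; linarith) (by norm_num; linarith) (by norm_num; linarith)

lemma lo5_one_ringZ_of {y z : ℂ} (h : (rq5 .one .ring true).In y z) : ∀ g ∈ lo5_one_ringZ, g.G y := by
  have a0 := h.x0
  have a1 := h.x1
  have a2 := h.t0
  have a3 := h.t1
  norm_num [rq5, mk4] at a0 a1 a2 a3
  exact li_box (by norm_num; linarith) (by norm_num; linarith) (by norm_num; linarith) (by norm_num; linarith) (by norm_num; linarith)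

lemma lo5_one_three_of {s : Bool} {y z : ℂ} (h : (rq5 .one .three s).In y z) : ∀ g ∈ lo5_one_three, g.G y := by
  have a0 := h.x0
  have a1 := h.x1
  have a2 := h.t0
  have a3 := h.t1
  norm_num [rq5, mk4] at a0 a1 a2 a3
  exact li_box (by norm_num; linarith) (by norm_num; linarith) (by norm_num; linarith) (by norm_num; linarith) (by norm_num; linarith)

lemma lo5_one_threeE_of {s : Bool} {y z : ℂ} (h : (rq5 .one .threeE s).In y z) : ∀ g ∈ lo5_one_threeE, g.G y := by
  have a0 := h.x0
  have a1 := h.x1
  have a2 := h.t0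
  have a3 := h.t1
  norm_num [rq5, mk4] at a0 a1 a2 a3
  exact li_box (by norm_num; linarith) (by norm_num; linarith) (by norm_num; linarith) (by norm_num; linarith) (by norm_num; linarith)

lemma lo5_one_two_of {s : Bool} {y z : ℂ} (h : (rq5 .one .two s).In y z) : ∀ g ∈ lo5_one_two, g.G y := by
  have a0 := h.x0
  have a1 := h.x1
  have a2 := h.t0
  have a3 := h.t1
  norm_num [rq5, mk4] at a0 a1 a2 a3
  exact li_box (by norm_num; linarith) (by norm_num; linarith) (by norm_num; linarith) (by norm_num; linarith) (by norm_num; linarith)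

lemma lo5_one_twoE_of {s : Bool} {y z : ℂ} (h : (rq5 .one .twoE s).In y z) : ∀ g ∈ lo5_one_twoE, g.G y := by
  have a0 := h.x0
  have a1 := h.x1
  have a2 := h.t0
  have a3 := h.t1
  norm_num [rq5, mk4] at a0 a1 a2 a3
  exact li_box (by norm_num; linarith) (by norm_num; linarith) (by norm_num; linarith) (by norm_num; linarith) (by norm_num; linarith)

lemma lo5_twoE_ringA_of {y z : ℂ} (h : (rq5 .twoE .ring false).In y z) : ∀ g ∈ lo5_twoE_ringA, g.G y := by
  have a0 := h.x0
  have a1 := h.x1
  have a2 := h.t0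
  have a3 := h.t1
  norm_num [rq5, mk4] at a0 a1 a2 a3
  exact li_box (by norm_num; linarith) (by norm_num; linarith) (by norm_num; linarith) (by norm_num; linarith) (by norm_num; linarith)

lemma lo5_twoE_ringZ_of {y z : ℂ} (h : (rq5 .twoE .ring true).In y z) : ∀ g ∈ lo5_twoE_ringZ, g.G y := by
  have a0 := h.x0
  have a1 := h.x1
  have a2 := h.t0
  have a3 := h.t1
  norm_num [rq5, mk4] at a0 a1 a2 a3
  exact li_box (by norm_num; linarith) (by norm_num; linarith) (by norm_num; linarith) (by norm_num; linarith) (by norm_num; linarith)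

lemma lo5_twoE_three_of {s : Bool} {y z : ℂ} (h : (rq5 .twoE .three s).In y z) : ∀ g ∈ lo5_twoE_three, g.G y := by
  have a0 := h.x0
  have a1 := h.x1
  have a2 := h.t0
  have a3 := h.t1
  norm_num [rq5, mk4] at a0 a1 a2 a3
  exact li_box (by norm_num; linarith) (by norm_num; linarith) (by norm_num; linarith) (by norm_num; linarith) (by norm_num; linarith)

lemma lo5_twoE_threeE_of {s : Bool} {y z : ℂ} (h : (rq5 .twoE .threeE s).In y z) : ∀ g ∈ lo5_twoE_threeE, g.G y := by
  have a0 := h.x0
  have a1 := h.x1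
  have a2 := h.t0
  have a3 := h.t1
  norm_num [rq5, mk4] at a0 a1 a2 a3
  exact li_box (by norm_num; linarith) (by norm_num; linarith) (by norm_num; linarith) (by norm_num; linarith) (by norm_num; linarith)

lemma lo5_twoE_two_of {s : Bool} {y z : ℂ} (h : (rq5 .twoE .two s).In y z) : ∀ g ∈ lo5_twoE_two, g.G y := by
  have a0 := h.x0
  have a1 := h.x1
  have a2 := h.t0
  have a3 := h.t1
  norm_num [rq5, mk4] at a0 a1 a2 a3
  exact li_box (by norm_num; linarith) (by norm_num; linarith) (by norm_num; linarith) (by norm_num; linarith) (by norm_num; linarith)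

lemma lo5_twoE_twoE_of {s : Bool} {y z : ℂ} (h : (rq5 .twoE .twoE s).In y z) : ∀ g ∈ lo5_twoE_twoE, g.G y := by
  have a0 := h.x0
  have a1 := h.x1
  have a2 := h.t0
  have a3 := h.t1
  norm_num [rq5, mk4] at a0 a1 a2 a3
  exact li_box (by norm_num; linarith) (by norm_num; linarith) (by norm_num; linarith) (by norm_num; linarith) (by norm_num; linarith)

lemma lo5_two_ringA_of {y z : ℂ} (h : (rq5 .two .ring false).In y z) : ∀ g ∈ lo5_two_ringA, g.G y := by
  have a0 := h.x0
  have a1 := h.x1
  have a2 := h.t0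
  have a3 := h.t1
  norm_num [rq5, mk4] at a0 a1 a2 a3
  exact li_box (by norm_num; linarith) (by norm_num; linarith) (by norm_num; linarith) (by norm_num; linarith) (by norm_num; linarith)

lemma lo5_two_ringZ_of {y z : ℂ} (h : (rq5 .two .ring true).In y z) : ∀ g ∈ lo5_two_ringZ, g.G y := by
  have a0 := h.x0
  have a1 := h.x1
  have a2 := h.t0
  have a3 := h.t1
  norm_num [rq5, mk4] at a0 a1 a2 a3
  exact li_box (by norm_num; linarith) (by norm_num; linarith) (by norm_num; linarith) (by norm_num; linarith) (by norm_num; linarith)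

lemma lo5_two_three_of {s : Bool} {y z : ℂ} (h : (rq5 .two .three s).In y z) : ∀ g ∈ lo5_two_three, g.G y := by
  have a0 := h.x0
  have a1 := h.x1
  have a2 := h.t0
  have a3 := h.t1
  norm_num [rq5, mk4] at a0 a1 a2 a3
  exact li_box (by norm_num; linarith) (by norm_num; linarith) (by norm_num; linarith) (by norm_num; linarith) (by norm_num; linarith)

lemma lo5_two_threeE_of {s : Bool} {y z : ℂ} (h : (rq5 .two .threeE s).In y z) : ∀ g ∈ lo5_two_threeE, g.G y := by
  have a0 := h.x0
  have a1 := h.x1
  have a2 := h.t0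
  have a3 := h.t1
  norm_num [rq5, mk4] at a0 a1 a2 a3
  exact li_box (by norm_num; linarith) (by norm_num; linarith) (by norm_num; linarith) (by norm_num; linarith) (by norm_num; linarith)

lemma lo5_two_two_of {s : Bool} {y z : ℂ} (h : (rq5 .two .two s).In y z) : ∀ g ∈ lo5_two_two, g.G y := by
  have a0 := h.x0
  have a1 := h.x1
  have a2 := h.t0
  have a3 := h.t1
  norm_num [rq5, mk4] at a0 a1 a2 a3
  exact li_box (by norm_num; linarith) (by norm_num; linarith) (by norm_num; linarith) (by norm_num; linarith) (by norm_num; linarith)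

end

end Pool.Agent.Work.MP_b30479_gt.G2.CN.TD
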