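import Pool.Agent.Work.MP_b30479_gt.G2.CN.TQ4A
import Pool.Agent.Work.MP_b30479_gt.G2.CN.TQ4F
import Pool.Agent.Work.MP_b30479_gt.G2.CN.TQ4K
import Pool.Agent.Work.MP_b30479_gt.G2.CN.TQ4O
import Pool.Agent.Work.MP_b30479_gt.G2.CN.LocBh
import Pool.Agent.Work.MP_b30479_gt.G2.CN.TDatd
import Pool.Agent.Work.MP_b30479_gt.G2.CN.TLh
import Pool.Agent.Work.MP_b30479_gt.G2.CN.TLka
import Pool.Agent.Work.MP_b30479_gt.G2.CN.TLkb
import Pool.Agent.Work.MP_b30479_gt.G2.CN.TLkc

/-!
# Rings with 4 crossings next to a digit `1`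
-/

namespace Pool.Agent.Work.MP_b30479_gt.G2.CN.TD

open Complex SR

noncomputable section

section
variable {K : KFam} (hK : KOK K) (Bx : BoxRows K) {l x : SK} {dl : ℕ} {ll : SK} {dr : ℕ} {rr : SK}
  {w kl kr : ℂ}
include hK Bx

theorem q4_one_one {s : Bool} (t : RDt K 4 l x dl ll dr rr w kl kr) (hC : Bh x dr rr .one)
    (hk : Oh l dl ll .one s)
    (hl : (r4 false .one s).In (yH l (RR w kl) (Complex.cos w)) (zeta w))
    (rg : Rg (yH x (RR w kr) (Complex.cos w)) (zeta w)) :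
    (rq4 .one .one s).In (yH x (RR w kr) (Complex.cos w)) (zeta w) := by
  have hN := t.right.ok.right.symm
  have hO := t.right.ok.left
  have hL := t.left.ok.right.symm
  rcases hC.one with ⟨rfl, rfl⟩ | ⟨rfl, rfl⟩
  · have e2 := far_s t.right.ok.right
    subst e2
    rcases hk.one hL.zr t.left.ok.ne with ⟨rfl, rfl⟩ | rfl
    · have e1 := far_s t.left.ok.right
      subst e1
      exact b4c_of (tuseC hK Bx ld4 t o4_1a_1_u_u mn mn mn
        (l4_one3_of hl) (hK.inH hO k4aa_ok) (hK.inH hN k2as_ok)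
        (aOkH t rfl (kl_a t (hK.inH hL k2as_ok))) (dOk hK t rfl (OR.st (by decide)))) rg
        (by norm_num) (by norm_num) (by norm_num) (by norm_num)
    · exact b4c_of (tuseC hK Bx ld4 t o4_1a_1_u_p mn mn mn
        (l4_one_of hl) (hK.inH hO k5as_ok) (hK.inH hN k2as_ok)
        (aPs hK (by norm_num) t rfl) (dOk hK t rfl (OR.st (by decide)))) rg
        (by norm_num) (by norm_num) (by norm_num) (by norm_num)
  · cases rr
    · exact absurd rfl (hN.one rfl).2.1
    · rcases hk.one hL.zr t.left.ok.ne with ⟨rfl, rfl⟩ | rfl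
      · have e1 := far_s t.left.ok.right
        subst e1
        exact b4c_of (tuseC hK Bx ld4 t o4_1a_1_1a_u mn mn mn
          (l4_one_of hl) (hK.inH hO k5as_ok) (hK.inH hN k2as_ok)
          (aOkH t rfl (kl_a t (hK.inH hL k2as_ok))) (dOk hK t rfl (OR.a1 (by norm_num)))) rg
          (by norm_num) (by norm_num) (by norm_num) (by norm_num)
      · exact b4c_of (tuseC hK Bx ld4 t o4_1a_1_1a_x mn mn mn
          (l4_one_of hl) (hK.inH hO k6ss_ok) (hK.inH hN k2as_ok)
          AllOk.nil (dOk hK t rfl (OR.a1 (by norm_num)))) rg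
          (by norm_num) (by norm_num) (by norm_num) (by norm_num)
    · exact absurd (hN.zl rfl) (by norm_num)
    · rcases hk.one hL.zr t.left.ok.ne with ⟨rfl, rfl⟩ | rfl
      · have e1 := far_s t.left.ok.right
        subst e1
        exact b4c_of (tuseC hK Bx ld4 t o4_1a_1_1s_u mn mn mn
          (l4_one_of hl) (hK.inH hO k5as_ok) (hK.inH hN k3ss_ok)
          (aOkH t rfl (kl_a t (hK.inH hL k2as_ok))) (dOk hK t rfl OR.s)) rg
          (by norm_num) (by norm_num) (by norm_num) (by norm_num)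
      · exact b4c_of (tuseC hK Bx ld4 t o4_1a_1_1s_x mn mn mn
          (l4_one_of hl) (hK.inH hO k6ss_ok) (hK.inH hN k3ss_ok)
          AllOk.nil (dOk hK t rfl OR.s)) rg
          (by norm_num) (by norm_num) (by norm_num) (by norm_num)

theorem q4_one_two {s : Bool} (t : RDt K 4 l x dl ll dr rr w kl kr) (hC : Bh x dr rr .one)
    (hk : Oh l dl ll .two s)
    (hl : (r4 false .two s).In (yH l (RR w kl) (Complex.cos w)) (zeta w))
    (rg : Rg (yH x (RR w kr) (Complex.cos w)) (zeta w)) :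
    (rq4 .one .two s).In (yH x (RR w kr) (Complex.cos w)) (zeta w) := by
  have hN := t.right.ok.right.symm
  have hO := t.right.ok.left
  have hL := t.left.ok.right.symm
  rcases hC.one with ⟨rfl, rfl⟩ | ⟨rfl, rfl⟩
  · have e2 := far_s t.right.ok.right
    subst e2
    obtain ⟨rfl, rfl, hle⟩ := hk.two hL.zr t.left.ok.ne
    cases ll
    · exact absurd rfl hle
    · exact b4c_of (tuseC hK Bx ld4 t o4_1a_2_u_k2a mn mn mn
        (l4_two3_of hl) (hK.inH hO k4aa_ok) (hK.inH hN k2as_ok)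
        (aOkH t rfl (kl_a t (hK.inH hL k2aa_ok))) (dOk hK t rfl (OR.st (by decide)))) rg
        (by norm_num) (by norm_num) (by norm_num) (by norm_num)
    · exact absurd (hL.zl rfl) (by norm_num)
    · exact b4c_of (tuseC hK Bx ld4 t o4_1a_2_u_k2s mn mn mn
        (l4_two3_of hl) (hK.inH hO k4aa_ok) (hK.inH hN k2as_ok)
        (aOkH t rfl (kl_a t (hK.inH hL k3as_ok))) (dOk hK t rfl (OR.st (by decide)))) rg
        (by norm_num) (by norm_num) (by norm_num) (by norm_num)
  · cases rr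
    · exact absurd rfl (hN.one rfl).2.1
    · obtain ⟨rfl, rfl, hle⟩ := hk.two hL.zr t.left.ok.ne
      cases ll
      · exact absurd rfl hle
      · exact b4c_of (tuseC hK Bx ld4 t o4_1a_2_1a_k2a mn mn mn
          (l4_two_of hl) (hK.inH hO k5as_ok) (hK.inH hN k2as_ok)
          (aOkH t rfl (kl_a t (hK.inH hL k2aa_ok))) (dOk hK t rfl (OR.a1 (by norm_num)))) rg
          (by norm_num) (by norm_num) (by norm_num) (by norm_num)
      · exact absurd (hL.zl rfl) (by norm_num)
      · exact b4c_of (tuseC hK Bx ld4 t o4_1a_2_1a_k2s mn mn mn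
          (l4_two_of hl) (hK.inH hO k5as_ok) (hK.inH hN k2as_ok)
          (aOkH t rfl (kl_a t (hK.inH hL k3as_ok))) (dOk hK t rfl (OR.a1 (by norm_num)))) rg
          (by norm_num) (by norm_num) (by norm_num) (by norm_num)
    · exact absurd (hN.zl rfl) (by norm_num)
    · obtain ⟨rfl, rfl, hle⟩ := hk.two hL.zr t.left.ok.ne
      exact b4c_of (tuseC hK Bx ld4 t o4_1a_2_1s_p mn mn mn
        (l4_two_of hl) (hK.inH hO k5as_ok) (hK.inH hN k3ss_ok)
        (aPa hK t rfl) (dOk hK t rfl OR.s)) rg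
        (by norm_num) (by norm_num) (by norm_num) (by norm_num)

theorem q4_one_twoE {s : Bool} (t : RDt K 4 l x dl ll dr rr w kl kr) (hC : Bh x dr rr .one)
    (hk : Oh l dl ll .twoE s)
    (hl : (r4 false .twoE s).In (yH l (RR w kl) (Complex.cos w)) (zeta w))
    (rg : Rg (yH x (RR w kr) (Complex.cos w)) (zeta w)) :
    (rq4 .one .twoE s).In (yH x (RR w kr) (Complex.cos w)) (zeta w) := by
  have hN := t.right.ok.right.symm
  have hO := t.right.ok.left
  have hL := t.left.ok.right.symm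
  rcases hC.one with ⟨rfl, rfl⟩ | ⟨rfl, rfl⟩
  · have e2 := far_s t.right.ok.right
    subst e2
    obtain ⟨rfl, rfl, rfl⟩ := hk.twoE hL.zr t.left.ok.ne
    exact b4c_of (tuseC hK Bx ld4 t o4_1a_2e_u_k2e mn mn mn
      (l4_twoE3_of hl) (hK.inH hO k4aa_ok) (hK.inH hN k2as_ok)
      (aOkH t rfl (kl_a t (hK.inH hL k2ea_ok))) (dOk hK t rfl (OR.st (by decide)))) rg
      (by norm_num) (by norm_num) (by norm_num) (by norm_num)
  · cases rr
    · exact absurd rfl (hN.one rfl).2.1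
    · obtain ⟨rfl, rfl, rfl⟩ := hk.twoE hL.zr t.left.ok.ne
      exact b4c_of (tuseC hK Bx ld4 t o4_1a_2e_1a_k2e mn mn mn
        (l4_twoE_of hl) (hK.inH hO k5as_ok) (hK.inH hN k2as_ok)
        (aOkH t rfl (kl_a t (hK.inH hL k2ea_ok))) (dOk hK t rfl (OR.a1 (by norm_num)))) rg
        (by norm_num) (by norm_num) (by norm_num) (by norm_num)
    · exact absurd (hN.zl rfl) (by norm_num)
    · obtain ⟨rfl, rfl, rfl⟩ := hk.twoE hL.zr t.left.ok.ne
      exact b4c_of (tuseC hK Bx ld4 t o4_1a_2e_1s_k2e mn mn mn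
        (l4_twoE_of hl) (hK.inH hO k5as_ok) (hK.inH hN k3ss_ok)
        (aOkH t rfl (kl_a t (hK.inH hL k2ea_ok))) (dOk hK t rfl OR.s)) rg
        (by norm_num) (by norm_num) (by norm_num) (by norm_num)

theorem q4_one_three {s : Bool} (t : RDt K 4 l x dl ll dr rr w kl kr) (hC : Bh x dr rr .one)
    (hk : Oh l dl ll .three s)
    (hl : (r4 false .three s).In (yH l (RR w kl) (Complex.cos w)) (zeta w))
    (rg : Rg (yH x (RR w kr) (Complex.cos w)) (zeta w)) :
    (rq4 .one .three s).In (yH x (RR w kr) (Complex.cos w)) (zeta w) := by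
  have hN := t.right.ok.right.symm
  have hO := t.right.ok.left
  have hL := t.left.ok.right.symm
  rcases hC.one with ⟨rfl, rfl⟩ | ⟨rfl, rfl⟩
  · have e2 := far_s t.right.ok.right
    subst e2
    obtain ⟨rfl, rfl, hle⟩ := hk.three hL.zr t.left.ok.ne
    exact b4c_of (tuseC hK Bx ld4 t o4_1a_3_u_p mn mn mn
      (l4_three3_of hl) (hK.inH hO k4aa_ok) (hK.inH hN k2as_ok)
      (aPa hK t rfl) (dOk hK t rfl (OR.st (by decide)))) rg
      (by norm_num) (by norm_num) (by norm_num) (by norm_num)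
  · cases rr
    · exact absurd rfl (hN.one rfl).2.1
    · obtain ⟨rfl, rfl, hle⟩ := hk.three hL.zr t.left.ok.ne
      cases ll
      · exact absurd rfl hle
      · exact b4c_of (tuseC hK Bx ld4 t o4_1a_3_1a_k3a mn mn mn
          (l4_three_of hl) (hK.inH hO k5as_ok) (hK.inH hN k2as_ok)
          (aOkH t rfl (kl_a t (hK.inH hL k3aa_ok))) (dOk hK t rfl (OR.a1 (by norm_num)))) rg
          (by norm_num) (by norm_num) (by norm_num) (by norm_num)
      · exact absurd (hL.zl rfl) (by norm_num)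
      · exact b4c_of (tuseC hK Bx ld4 t o4_1a_3_1a_k3s mn mn mn
          (l4_three_of hl) (hK.inH hO k5as_ok) (hK.inH hN k2as_ok)
          (aOkH t rfl (kl_a t (hK.inH hL k4as_ok))) (dOk hK t rfl (OR.a1 (by norm_num)))) rg
          (by norm_num) (by norm_num) (by norm_num) (by norm_num)
    · exact absurd (hN.zl rfl) (by norm_num)
    · obtain ⟨rfl, rfl, hle⟩ := hk.three hL.zr t.left.ok.ne
      exact b4c_of (tuseC hK Bx ld4 t o4_1a_3_1s_p mn mn mn
        (l4_three_of hl) (hK.inH hO k5as_ok) (hK.inH hN k3ss_ok)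
        (aPa hK t rfl) (dOk hK t rfl OR.s)) rg
        (by norm_num) (by norm_num) (by norm_num) (by norm_num)

theorem q4_one_threeE {s : Bool} (t : RDt K 4 l x dl ll dr rr w kl kr) (hC : Bh x dr rr .one)
    (hk : Oh l dl ll .threeE s)
    (hl : (r4 false .threeE s).In (yH l (RR w kl) (Complex.cos w)) (zeta w))
    (rg : Rg (yH x (RR w kr) (Complex.cos w)) (zeta w)) :
    (rq4 .one .threeE s).In (yH x (RR w kr) (Complex.cos w)) (zeta w) := by
  have hN := t.right.ok.right.symm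
  have hO := t.right.ok.left
  have hL := t.left.ok.right.symm
  rcases hC.one with ⟨rfl, rfl⟩ | ⟨rfl, rfl⟩
  · have e2 := far_s t.right.ok.right
    subst e2
    obtain ⟨rfl, rfl, rfl⟩ := hk.threeE hL.zr t.left.ok.ne
    exact b4c_of (tuseC hK Bx ld4 t o4_1a_3e_u_k3e mn mn mn
      (l4_threeE4_of hl) (hK.inH hO k4aa_ok) (hK.inH hN k2as_ok)
      (aOkH t rfl (kl_a t (hK.inH hL k3ea_ok))) (dOk hK t rfl (OR.st (by decide)))) rg
      (by norm_num) (by norm_num) (by norm_num) (by norm_num)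
  · cases rr
    · exact absurd rfl (hN.one rfl).2.1
    · obtain ⟨rfl, rfl, rfl⟩ := hk.threeE hL.zr t.left.ok.ne
      exact b4c_of (tuseC hK Bx ld4 t o4_1a_3e_1a_k3e mn mn mn
        (l4_threeE_of hl) (hK.inH hO k5as_ok) (hK.inH hN k2as_ok)
        (aOkH t rfl (kl_a t (hK.inH hL k3ea_ok))) (dOk hK t rfl (OR.a1 (by norm_num)))) rg
        (by norm_num) (by norm_num) (by norm_num) (by norm_num)
    · exact absurd (hN.zl rfl) (by norm_num)
    · obtain ⟨rfl, rfl, rfl⟩ := hk.threeE hL.zr t.left.ok.ne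
      exact b4c_of (tuseC hK Bx ld4 t o4_1a_3e_1s_k3e mn mn mn
        (l4_threeE_of hl) (hK.inH hO k5as_ok) (hK.inH hN k3ss_ok)
        (aOkH t rfl (kl_a t (hK.inH hL k3ea_ok))) (dOk hK t rfl OR.s)) rg
        (by norm_num) (by norm_num) (by norm_num) (by norm_num)

theorem q4_one_ringA (t : RDt K 4 l x dl ll dr rr w kl kr) (hC : Bh x dr rr .one)
    (hk : Oh l dl ll .ring false)
    (hl : (r4 false .ring false).In (yH l (RR w kl) (Complex.cos w)) (zeta w))
    (rg : Rg (yH x (RR w kr) (Complex.cos w)) (zeta w)) :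
    (rq4 .one .ring false).In (yH x (RR w kr) (Complex.cos w)) (zeta w) := by
  have hN := t.right.ok.right.symm
  have hO := t.right.ok.left
  have hL := t.left.ok.right.symm
  rcases hC.one with ⟨rfl, rfl⟩ | ⟨rfl, rfl⟩
  · have e2 := far_s t.right.ok.right
    subst e2
    rcases hk.ring hL.pos t.left.ok.ne with ⟨rfl, -, hl4⟩ | ⟨-, h9, -⟩
    · exact b4c_of (tuseC hK Bx ld4 t o4_1a_Z_u_kZ mn mn mn
        (l4_ringA4_of hl) (hK.inH hO k4aa_ok) (hK.inH hN k2as_ok)
        (aOkH t rfl (kl_a t (in_nZa hK hL hl4))) (dOk hK t rfl (OR.st (by decide)))) rg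
        (by norm_num) (by norm_num) (by norm_num) (by norm_num)
    · exact absurd h9 (by decide)
  · cases rr
    · exact absurd rfl (hN.one rfl).2.1
    · rcases hk.ring hL.pos t.left.ok.ne with ⟨rfl, -, hl4⟩ | ⟨-, h9, -⟩
      · exact b4c_of (tuseC hK Bx ld4 t o4_1a_Z_1a_kZ mn mn mn
          (l4_ringA_of hl) (hK.inH hO k5as_ok) (hK.inH hN k2as_ok)
          (aOkH t rfl (kl_a t (in_nZa hK hL hl4))) (dOk hK t rfl (OR.a1 (by norm_num)))) rg
          (by norm_num) (by norm_num) (by norm_num) (by norm_num)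
      · exact absurd h9 (by decide)
    · exact absurd (hN.zl rfl) (by norm_num)
    · rcases hk.ring hL.pos t.left.ok.ne with ⟨rfl, -, hl4⟩ | ⟨-, h9, -⟩
      · exact b4c_of (tuseC hK Bx ld4 t o4_1a_Z_1s_kZ mn mn mn
          (l4_ringA_of hl) (hK.inH hO k5as_ok) (hK.inH hN k3ss_ok)
          (aOkH t rfl (kl_a t (in_nZa hK hL hl4))) (dOk hK t rfl OR.s)) rg
          (by norm_num) (by norm_num) (by norm_num) (by norm_num)
      · exact absurd h9 (by decide)

theorem q4_one_ringZ (t : RDt K 4 l x dl ll dr rr w kl kr) (hC : Bh x dr rr .one)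
    (hk : Oh l dl ll .ring true)
    (hl : (r4 false .ring true).In (yH l (RR w kl) (Complex.cos w)) (zeta w))
    (rg : Rg (yH x (RR w kr) (Complex.cos w)) (zeta w)) :
    (rq4 .one .ring true).In (yH x (RR w kr) (Complex.cos w)) (zeta w) := by
  have hN := t.right.ok.right.symm
  have hO := t.right.ok.left
  have hL := t.left.ok.right.symm
  rcases hC.one with ⟨rfl, rfl⟩ | ⟨rfl, rfl⟩
  · have e2 := far_s t.right.ok.right
    subst e2
    rcases hk.ring hL.pos t.left.ok.ne with ⟨-, h9, -⟩ | ⟨rfl, -, hl4⟩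
    · exact absurd h9 (by decide)
    · exact b4c_of (tuseC hK Bx ld4 t o4_1a_Zs_u_kz mn mn mn
        (l4_ringZ_of hl) (hK.inH hO k4az_ok) (hK.inH hN k2as_ok)
        (aOkH t rfl (kl_z t (in_nZz hK hL))) (dOk hK t rfl (OR.st (by decide)))) rg
        (by norm_num) (by norm_num) (by norm_num) (by norm_num)
  · cases rr
    · exact absurd rfl (hN.one rfl).2.1
    · rcases hk.ring hL.pos t.left.ok.ne with ⟨-, h9, -⟩ | ⟨rfl, -, hl4⟩
      · exact absurd h9 (by decide)
      · exact b4c_of (tuseC hK Bx ld4 t o4_1a_Zs_1a_kz mn mn mn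
          (l4_ringZ_of hl) (hK.inH hO k5zs_ok) (hK.inH hN k2as_ok)
          (aOkH t rfl (kl_z t (in_nZz hK hL))) (dOk hK t rfl (OR.a1 (by norm_num)))) rg
          (by norm_num) (by norm_num) (by norm_num) (by norm_num)
    · exact absurd (hN.zl rfl) (by norm_num)
    · rcases hk.ring hL.pos t.left.ok.ne with ⟨-, h9, -⟩ | ⟨rfl, -, hl4⟩
      · exact absurd h9 (by decide)
      · exact b4c_of (tuseC hK Bx ld4 t o4_1a_Zs_1s_kz mn mn mn
          (l4_ringZ_of hl) (hK.inH hO k5zs_ok) (hK.inH hN k3ss_ok)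
          (aOkH t rfl (kl_z t (in_nZz hK hL))) (dOk hK t rfl OR.s)) rg
          (by norm_num) (by norm_num) (by norm_num) (by norm_num)

theorem q4_two_one {s : Bool} (t : RDt K 4 l x dl ll dr rr w kl kr) (hC : Bh x dr rr .two)
    (hk : Oh l dl ll .one s)
    (hl : (r4 false .one s).In (yH l (RR w kl) (Complex.cos w)) (zeta w))
    (rg : Rg (yH x (RR w kr) (Complex.cos w)) (zeta w)) :
    (rq4 .two .one s).In (yH x (RR w kr) (Complex.cos w)) (zeta w) := by
  have hN := t.right.ok.right.symm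
  have hO := t.right.ok.left
  have hL := t.left.ok.right.symm
  obtain ⟨rfl, rfl, hre⟩ := hC.two
  cases rr
  · exact absurd rfl hre
  · rcases hk.one hL.zr t.left.ok.ne with ⟨rfl, rfl⟩ | rfl
    · have e1 := far_s t.left.ok.right
      subst e1
      exact b4c_of (tuseC hK Bx ld4 t o4_1b_1_2a_u mn mn mn
        (l4_one_of hl) (hK.inH hO k5as_ok) (hK.inH hN k3as_ok)
        (aOkH t rfl (kl_a t (hK.inH hL k2as_ok))) (dOk hK t rfl OR.a)) rg
        (by norm_num) (by norm_num) (by norm_num) (by norm_num)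
    · exact b4c_of (tuseC hK Bx ld4 t o4_1b_1_2a_x mn mn mn
        (l4_one_of hl) (hK.inH hO k6ss_ok) (hK.inH hN k3as_ok)
        AllOk.nil (dOk hK t rfl OR.a)) rg
        (by norm_num) (by norm_num) (by norm_num) (by norm_num)
  · exact absurd (hN.zl rfl) (by norm_num)
  · rcases hk.one hL.zr t.left.ok.ne with ⟨rfl, rfl⟩ | rfl
    · have e1 := far_s t.left.ok.right
      subst e1
      exact b4c_of (tuseC hK Bx ld4 t o4_1b_1_2s_u mn mn mn
        (l4_one_of hl) (hK.inH hO k5as_ok) (hK.inH hN k4ss_ok)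
        (aOkH t rfl (kl_a t (hK.inH hL k2as_ok))) (dOk hK t rfl OR.s)) rg
        (by norm_num) (by norm_num) (by norm_num) (by norm_num)
    · exact b4c_of (tuseC hK Bx ld4 t o4_1b_1_2s_x mn mn mn
        (l4_one_of hl) (hK.inH hO k6ss_ok) (hK.inH hN k4ss_ok)
        AllOk.nil (dOk hK t rfl OR.s)) rg
        (by norm_num) (by norm_num) (by norm_num) (by norm_num)

theorem q4_two_two {s : Bool} (t : RDt K 4 l x dl ll dr rr w kl kr) (hC : Bh x dr rr .two)
    (hk : Oh l dl ll .two s)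
    (hl : (r4 false .two s).In (yH l (RR w kl) (Complex.cos w)) (zeta w))
    (rg : Rg (yH x (RR w kr) (Complex.cos w)) (zeta w)) :
    (rq4 .two .two s).In (yH x (RR w kr) (Complex.cos w)) (zeta w) := by
  have hN := t.right.ok.right.symm
  have hO := t.right.ok.left
  have hL := t.left.ok.right.symm
  obtain ⟨rfl, rfl, hre⟩ := hC.two
  cases rr
  · exact absurd rfl hre
  · obtain ⟨rfl, rfl, hle⟩ := hk.two hL.zr t.left.ok.ne
    cases ll
    · exact absurd rfl hle
    · exact b4c_of (tuseC hK Bx ld4 t o4_1b_2_2a_k2a mn mn mn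
        (l4_two_of hl) (hK.inH hO k5as_ok) (hK.inH hN k3as_ok)
        (aOkH t rfl (kl_a t (hK.inH hL k2aa_ok))) (dOk hK t rfl OR.a)) rg
        (by norm_num) (by norm_num) (by norm_num) (by norm_num)
    · exact absurd (hL.zl rfl) (by norm_num)
    · exact b4c_of (tuseC hK Bx ld4 t o4_1b_2_2a_k2s mn mn mn
        (l4_two_of hl) (hK.inH hO k5as_ok) (hK.inH hN k3as_ok)
        (aOkH t rfl (kl_a t (hK.inH hL k3as_ok))) (dOk hK t rfl OR.a)) rg
        (by norm_num) (by norm_num) (by norm_num) (by norm_num)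
  · exact absurd (hN.zl rfl) (by norm_num)
  · obtain ⟨rfl, rfl, hle⟩ := hk.two hL.zr t.left.ok.ne
    exact b4c_of (tuseC hK Bx ld4 t o4_1b_2_2s_p mn mn mn
      (l4_two_of hl) (hK.inH hO k5as_ok) (hK.inH hN k4ss_ok)
      (aPa hK t rfl) (dOk hK t rfl OR.s)) rg
      (by norm_num) (by norm_num) (by norm_num) (by norm_num)

theorem q4_two_twoE {s : Bool} (t : RDt K 4 l x dl ll dr rr w kl kr) (hC : Bh x dr rr .two)
    (hk : Oh l dl ll .twoE s)
    (hl : (r4 false .twoE s).In (yH l (RR w kl) (Complex.cos w)) (zeta w))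
    (rg : Rg (yH x (RR w kr) (Complex.cos w)) (zeta w)) :
    (rq4 .two .twoE s).In (yH x (RR w kr) (Complex.cos w)) (zeta w) := by
  have hN := t.right.ok.right.symm
  have hO := t.right.ok.left
  have hL := t.left.ok.right.symm
  obtain ⟨rfl, rfl, hre⟩ := hC.two
  cases rr
  · exact absurd rfl hre
  · obtain ⟨rfl, rfl, rfl⟩ := hk.twoE hL.zr t.left.ok.ne
    exact b4c_of (tuseC hK Bx ld4 t o4_1b_2e_2a_k2e mn mn mn
      (l4_twoE_of hl) (hK.inH hO k5as_ok) (hK.inH hN k3as_ok)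
      (aOkH t rfl (kl_a t (hK.inH hL k2ea_ok))) (dOk hK t rfl OR.a)) rg
      (by norm_num) (by norm_num) (by norm_num) (by norm_num)
  · exact absurd (hN.zl rfl) (by norm_num)
  · obtain ⟨rfl, rfl, rfl⟩ := hk.twoE hL.zr t.left.ok.ne
    exact b4c_of (tuseC hK Bx ld4 t o4_1b_2e_2s_k2e mn mn mn
      (l4_twoE_of hl) (hK.inH hO k5as_ok) (hK.inH hN k4ss_ok)
      (aOkH t rfl (kl_a t (hK.inH hL k2ea_ok))) (dOk hK t rfl OR.s)) rg
      (by norm_num) (by norm_num) (by norm_num) (by norm_num)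

theorem q4_two_three {s : Bool} (t : RDt K 4 l x dl ll dr rr w kl kr) (hC : Bh x dr rr .two)
    (hk : Oh l dl ll .three s)
    (hl : (r4 false .three s).In (yH l (RR w kl) (Complex.cos w)) (zeta w))
    (rg : Rg (yH x (RR w kr) (Complex.cos w)) (zeta w)) :
    (rq4 .two .three s).In (yH x (RR w kr) (Complex.cos w)) (zeta w) := by
  have hN := t.right.ok.right.symm
  have hO := t.right.ok.left
  have hL := t.left.ok.right.symm
  obtain ⟨rfl, rfl, hre⟩ := hC.two
  cases rr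
  · exact absurd rfl hre
  · obtain ⟨rfl, rfl, hle⟩ := hk.three hL.zr t.left.ok.ne
    cases ll
    · exact absurd rfl hle
    · exact b4c_of (tuseC hK Bx ld4 t o4_1b_3_2a_k3a mn mn mn
        (l4_three_of hl) (hK.inH hO k5as_ok) (hK.inH hN k3as_ok)
        (aOkH t rfl (kl_a t (hK.inH hL k3aa_ok))) (dOk hK t rfl OR.a)) rg
        (by norm_num) (by norm_num) (by norm_num) (by norm_num)
    · exact absurd (hL.zl rfl) (by norm_num)
    · exact b4c_of (tuseC hK Bx ld4 t o4_1b_3_2a_k3s mn mn mn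
        (l4_three_of hl) (hK.inH hO k5as_ok) (hK.inH hN k3as_ok)
        (aOkH t rfl (kl_a t (hK.inH hL k4as_ok))) (dOk hK t rfl OR.a)) rg
        (by norm_num) (by norm_num) (by norm_num) (by norm_num)
  · exact absurd (hN.zl rfl) (by norm_num)
  · obtain ⟨rfl, rfl, hle⟩ := hk.three hL.zr t.left.ok.ne
    exact b4c_of (tuseC hK Bx ld4 t o4_1b_3_2s_p mn mn mn
      (l4_three_of hl) (hK.inH hO k5as_ok) (hK.inH hN k4ss_ok)
      (aPa hK t rfl) (dOk hK t rfl OR.s)) rg
      (by norm_num) (by norm_num) (by norm_num) (by norm_num)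

theorem q4_two_threeE {s : Bool} (t : RDt K 4 l x dl ll dr rr w kl kr) (hC : Bh x dr rr .two)
    (hk : Oh l dl ll .threeE s)
    (hl : (r4 false .threeE s).In (yH l (RR w kl) (Complex.cos w)) (zeta w))
    (rg : Rg (yH x (RR w kr) (Complex.cos w)) (zeta w)) :
    (rq4 .two .threeE s).In (yH x (RR w kr) (Complex.cos w)) (zeta w) := by
  have hN := t.right.ok.right.symm
  have hO := t.right.ok.left
  have hL := t.left.ok.right.symm
  obtain ⟨rfl, rfl, hre⟩ := hC.two
  cases rr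
  · exact absurd rfl hre
  · obtain ⟨rfl, rfl, rfl⟩ := hk.threeE hL.zr t.left.ok.ne
    exact b4c_of (tuseC hK Bx ld4 t o4_1b_3e_2a_k3e mn mn mn
      (l4_threeE_of hl) (hK.inH hO k5as_ok) (hK.inH hN k3as_ok)
      (aOkH t rfl (kl_a t (hK.inH hL k3ea_ok))) (dOk hK t rfl OR.a)) rg
      (by norm_num) (by norm_num) (by norm_num) (by norm_num)
  · exact absurd (hN.zl rfl) (by norm_num)
  · obtain ⟨rfl, rfl, rfl⟩ := hk.threeE hL.zr t.left.ok.ne
    exact b4c_of (tuseC hK Bx ld4 t o4_1b_3e_2s_k3e mn mn mn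
      (l4_threeE_of hl) (hK.inH hO k5as_ok) (hK.inH hN k4ss_ok)
      (aOkH t rfl (kl_a t (hK.inH hL k3ea_ok))) (dOk hK t rfl OR.s)) rg
      (by norm_num) (by norm_num) (by norm_num) (by norm_num)

theorem q4_two_ringA (t : RDt K 4 l x dl ll dr rr w kl kr) (hC : Bh x dr rr .two)
    (hk : Oh l dl ll .ring false)
    (hl : (r4 false .ring false).In (yH l (RR w kl) (Complex.cos w)) (zeta w))
    (rg : Rg (yH x (RR w kr) (Complex.cos w)) (zeta w)) :
    (rq4 .two .ring false).In (yH x (RR w kr) (Complex.cos w)) (zeta w) := by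
  have hN := t.right.ok.right.symm
  have hO := t.right.ok.left
  have hL := t.left.ok.right.symm
  obtain ⟨rfl, rfl, hre⟩ := hC.two
  cases rr
  · exact absurd rfl hre
  · rcases hk.ring hL.pos t.left.ok.ne with ⟨rfl, -, hl4⟩ | ⟨-, h9, -⟩
    · exact b4c_of (tuseC hK Bx ld4 t o4_1b_Z_2a_kZ mn mn mn
        (l4_ringA_of hl) (hK.inH hO k5as_ok) (hK.inH hN k3as_ok)
        (aOkH t rfl (kl_a t (in_nZa hK hL hl4))) (dOk hK t rfl OR.a)) rg
        (by norm_num) (by norm_num) (by norm_num) (by norm_num)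
    · exact absurd h9 (by decide)
  · exact absurd (hN.zl rfl) (by norm_num)
  · rcases hk.ring hL.pos t.left.ok.ne with ⟨rfl, -, hl4⟩ | ⟨-, h9, -⟩
    · exact b4c_of (tuseC hK Bx ld4 t o4_1b_Z_2s_kZ mn mn mn
        (l4_ringA_of hl) (hK.inH hO k5as_ok) (hK.inH hN k4ss_ok)
        (aOkH t rfl (kl_a t (in_nZa hK hL hl4))) (dOk hK t rfl OR.s)) rg
        (by norm_num) (by norm_num) (by norm_num) (by norm_num)
    · exact absurd h9 (by decide)

theorem q4_two_ringZ (t : RDt K 4 l x dl ll dr rr w kl kr) (hC : Bh x dr rr .two)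
    (hk : Oh l dl ll .ring true)
    (hl : (r4 false .ring true).In (yH l (RR w kl) (Complex.cos w)) (zeta w))
    (rg : Rg (yH x (RR w kr) (Complex.cos w)) (zeta w)) :
    (rq4 .two .ring true).In (yH x (RR w kr) (Complex.cos w)) (zeta w) := by
  have hN := t.right.ok.right.symm
  have hO := t.right.ok.left
  have hL := t.left.ok.right.symm
  obtain ⟨rfl, rfl, hre⟩ := hC.two
  cases rr
  · exact absurd rfl hre
  · rcases hk.ring hL.pos t.left.ok.ne with ⟨-, h9, -⟩ | ⟨rfl, -, hl4⟩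
    · exact absurd h9 (by decide)
    · exact b4c_of (tuseC hK Bx ld4 t o4_1b_Zs_2a_kz mn mn mn
        (l4_ringZ_of hl) (hK.inH hO k5zs_ok) (hK.inH hN k3as_ok)
        (aOkH t rfl (kl_z t (in_nZz hK hL))) (dOk hK t rfl OR.a)) rg
        (by norm_num) (by norm_num) (by norm_num) (by norm_num)
  · exact absurd (hN.zl rfl) (by norm_num)
  · rcases hk.ring hL.pos t.left.ok.ne with ⟨-, h9, -⟩ | ⟨rfl, -, hl4⟩
    · exact absurd h9 (by decide)
    · exact b4c_of (tuseC hK Bx ld4 t o4_1b_Zs_2s_kz mn mn mn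
        (l4_ringZ_of hl) (hK.inH hO k5zs_ok) (hK.inH hN k4ss_ok)
        (aOkH t rfl (kl_z t (in_nZz hK hL))) (dOk hK t rfl OR.s)) rg
        (by norm_num) (by norm_num) (by norm_num) (by norm_num)

theorem q4_twoE_one {s : Bool} (t : RDt K 4 l x dl ll dr rr w kl kr) (hC : Bh x dr rr .twoE)
    (hk : Oh l dl ll .one s)
    (hl : (r4 false .one s).In (yH l (RR w kl) (Complex.cos w)) (zeta w))
    (rg : Rg (yH x (RR w kr) (Complex.cos w)) (zeta w)) :
    (rq4 .twoE .one s).In (yH x (RR w kr) (Complex.cos w)) (zeta w) := by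
  have hN := t.right.ok.right.symm
  have hO := t.right.ok.left
  have hL := t.left.ok.right.symm
  obtain ⟨rfl, rfl, rfl⟩ := hC.twoE
  rcases hk.one hL.zr t.left.ok.ne with ⟨rfl, rfl⟩ | rfl
  · have e1 := far_s t.left.ok.right
    subst e1
    exact b4c_of (tuseC hK Bx ld4 t o4_1c_1_2e_u mn mn mn
      (l4_one_of hl) (hK.inH hO k5as_ok) (hK.inH hN k3es_ok)
      (aOkH t rfl (kl_a t (hK.inH hL k2as_ok))) (dOk hK t rfl OR.e)) rg
      (by norm_num) (by norm_num) (by norm_num) (by norm_num)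
  · exact b4c_of (tuseC hK Bx ld4 t o4_1c_1_2e_x mn mn mn
      (l4_one_of hl) (hK.inH hO k6ss_ok) (hK.inH hN k3es_ok)
      AllOk.nil (dOk hK t rfl OR.e)) rg
      (by norm_num) (by norm_num) (by norm_num) (by norm_num)

theorem q4_twoE_two {s : Bool} (t : RDt K 4 l x dl ll dr rr w kl kr) (hC : Bh x dr rr .twoE)
    (hk : Oh l dl ll .two s)
    (hl : (r4 false .two s).In (yH l (RR w kl) (Complex.cos w)) (zeta w))
    (rg : Rg (yH x (RR w kr) (Complex.cos w)) (zeta w)) :
    (rq4 .twoE .two s).In (yH x (RR w kr) (Complex.cos w)) (zeta w) := by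
  have hN := t.right.ok.right.symm
  have hO := t.right.ok.left
  have hL := t.left.ok.right.symm
  obtain ⟨rfl, rfl, rfl⟩ := hC.twoE
  obtain ⟨rfl, rfl, hle⟩ := hk.two hL.zr t.left.ok.ne
  cases ll
  · exact absurd rfl hle
  · exact b4c_of (tuseC hK Bx ld4 t o4_1c_2_2e_k2a mn mn mn
      (l4_two_of hl) (hK.inH hO k5as_ok) (hK.inH hN k3es_ok)
      (aOkH t rfl (kl_a t (hK.inH hL k2aa_ok))) (dOk hK t rfl OR.e)) rg
      (by norm_num) (by norm_num) (by norm_num) (by norm_num)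
  · exact absurd (hL.zl rfl) (by norm_num)
  · exact b4c_of (tuseC hK Bx ld4 t o4_1c_2_2e_k2s mn mn mn
      (l4_two_of hl) (hK.inH hO k5as_ok) (hK.inH hN k3es_ok)
      (aOkH t rfl (kl_a t (hK.inH hL k3as_ok))) (dOk hK t rfl OR.e)) rg
      (by norm_num) (by norm_num) (by norm_num) (by norm_num)

theorem q4_twoE_twoE {s : Bool} (t : RDt K 4 l x dl ll dr rr w kl kr) (hC : Bh x dr rr .twoE)
    (hk : Oh l dl ll .twoE s)
    (hl : (r4 false .twoE s).In (yH l (RR w kl) (Complex.cos w)) (zeta w))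
    (rg : Rg (yH x (RR w kr) (Complex.cos w)) (zeta w)) :
    (rq4 .twoE .twoE s).In (yH x (RR w kr) (Complex.cos w)) (zeta w) := by
  have hN := t.right.ok.right.symm
  have hO := t.right.ok.left
  have hL := t.left.ok.right.symm
  obtain ⟨rfl, rfl, rfl⟩ := hC.twoE
  obtain ⟨rfl, rfl, rfl⟩ := hk.twoE hL.zr t.left.ok.ne
  exact b4c_of (tuseC hK Bx ld4 t o4_1c_2e_2e_k2e mn mn mn
    (l4_twoE_of hl) (hK.inH hO k5as_ok) (hK.inH hN k3es_ok)
    (aOkH t rfl (kl_a t (hK.inH hL k2ea_ok))) (dOk hK t rfl OR.e)) rg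
    (by norm_num) (by norm_num) (by norm_num) (by norm_num)

theorem q4_twoE_three {s : Bool} (t : RDt K 4 l x dl ll dr rr w kl kr) (hC : Bh x dr rr .twoE)
    (hk : Oh l dl ll .three s)
    (hl : (r4 false .three s).In (yH l (RR w kl) (Complex.cos w)) (zeta w))
    (rg : Rg (yH x (RR w kr) (Complex.cos w)) (zeta w)) :
    (rq4 .twoE .three s).In (yH x (RR w kr) (Complex.cos w)) (zeta w) := by
  have hN := t.right.ok.right.symm
  have hO := t.right.ok.left
  have hL := t.left.ok.right.symm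
  obtain ⟨rfl, rfl, rfl⟩ := hC.twoE
  obtain ⟨rfl, rfl, hle⟩ := hk.three hL.zr t.left.ok.ne
  exact b4c_of (tuseC hK Bx ld4 t o4_1c_3_2e_p mn mn mn
    (l4_three_of hl) (hK.inH hO k5as_ok) (hK.inH hN k3es_ok)
    (aPa hK t rfl) (dOk hK t rfl OR.e)) rg
    (by norm_num) (by norm_num) (by norm_num) (by norm_num)

theorem q4_twoE_threeE {s : Bool} (t : RDt K 4 l x dl ll dr rr w kl kr) (hC : Bh x dr rr .twoE)
    (hk : Oh l dl ll .threeE s)
    (hl : (r4 false .threeE s).In (yH l (RR w kl) (Complex.cos w)) (zeta w))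
    (rg : Rg (yH x (RR w kr) (Complex.cos w)) (zeta w)) :
    (rq4 .twoE .threeE s).In (yH x (RR w kr) (Complex.cos w)) (zeta w) := by
  have hN := t.right.ok.right.symm
  have hO := t.right.ok.left
  have hL := t.left.ok.right.symm
  obtain ⟨rfl, rfl, rfl⟩ := hC.twoE
  obtain ⟨rfl, rfl, rfl⟩ := hk.threeE hL.zr t.left.ok.ne
  exact b4c_of (tuseC hK Bx ld4 t o4_1c_3e_2e_k3e mn mn mn
    (l4_threeE_of hl) (hK.inH hO k5as_ok) (hK.inH hN k3es_ok)
    (aOkH t rfl (kl_a t (hK.inH hL k3ea_ok))) (dOk hK t rfl OR.e)) rg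
    (by norm_num) (by norm_num) (by norm_num) (by norm_num)

theorem q4_twoE_ringA (t : RDt K 4 l x dl ll dr rr w kl kr) (hC : Bh x dr rr .twoE)
    (hk : Oh l dl ll .ring false)
    (hl : (r4 false .ring false).In (yH l (RR w kl) (Complex.cos w)) (zeta w))
    (rg : Rg (yH x (RR w kr) (Complex.cos w)) (zeta w)) :
    (rq4 .twoE .ring false).In (yH x (RR w kr) (Complex.cos w)) (zeta w) := by
  have hN := t.right.ok.right.symm
  have hO := t.right.ok.left
  have hL := t.left.ok.right.symm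
  obtain ⟨rfl, rfl, rfl⟩ := hC.twoE
  rcases hk.ring hL.pos t.left.ok.ne with ⟨rfl, -, hl4⟩ | ⟨-, h9, -⟩
  · exact b4c_of (tuseC hK Bx ld4 t o4_1c_Z_2e_kZ mn mn mn
      (l4_ringA_of hl) (hK.inH hO k5as_ok) (hK.inH hN k3es_ok)
      (aOkH t rfl (kl_a t (in_nZa hK hL hl4))) (dOk hK t rfl OR.e)) rg
      (by norm_num) (by norm_num) (by norm_num) (by norm_num)
  · exact absurd h9 (by decide)

theorem q4_twoE_ringZ (t : RDt K 4 l x dl ll dr rr w kl kr) (hC : Bh x dr rr .twoE)
    (hk : Oh l dl ll .ring true)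
    (hl : (r4 false .ring true).In (yH l (RR w kl) (Complex.cos w)) (zeta w))
    (rg : Rg (yH x (RR w kr) (Complex.cos w)) (zeta w)) :
    (rq4 .twoE .ring true).In (yH x (RR w kr) (Complex.cos w)) (zeta w) := by
  have hN := t.right.ok.right.symm
  have hO := t.right.ok.left
  have hL := t.left.ok.right.symm
  obtain ⟨rfl, rfl, rfl⟩ := hC.twoE
  rcases hk.ring hL.pos t.left.ok.ne with ⟨-, h9, -⟩ | ⟨rfl, -, hl4⟩
  · exact absurd h9 (by decide)
  · exact b4c_of (tuseC hK Bx ld4 t o4_1c_Zs_2e_kz mn mn mn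
      (l4_ringZ_of hl) (hK.inH hO k5zs_ok) (hK.inH hN k3es_ok)
      (aOkH t rfl (kl_z t (in_nZz hK hL))) (dOk hK t rfl OR.e)) rg
      (by norm_num) (by norm_num) (by norm_num) (by norm_num)

theorem p4_one_two {s : Bool} (t : RDt K 4 l x dl ll dr rr w kl kr) (hC : Bh l dl ll .one)
    (hk : Oh x dr rr .two s)
    (hl : (rq4 .one .two s).In (yH l (RR w kl) (Complex.cos w)) (zeta w))
    (rg : Rg (yH x (RR w kr) (Complex.cos w)) (zeta w)) :
    (rp4 .one .two s).In (yH x (RR w kr) (Complex.cos w)) (zeta w) := by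
  have hN := t.right.ok.right.symm
  have hO := t.right.ok.left
  have hL := t.left.ok.right.symm
  obtain ⟨rfl, rfl, hre⟩ := hk.two hN.zr t.right.ok.ne
  cases rr
  · exact absurd rfl hre
  · rcases hC.one with ⟨rfl, rfl⟩ | ⟨rfl, rfl⟩
    · have e1 := far_s t.left.ok.right
      subst e1
      exact b4c_of (tuseC hK Bx ld4 t p4_1a_2_k2a_u mn mn mn
        (lo4_one_two3_of hl) (hK.inH hO k4aa_ok) (hK.inH hN k2aa_ok)
        (aOkH t rfl (kl_a t (hK.inH hL k2as_ok))) (dOk hK t rfl OR.a)) rg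
        (by norm_num) (by norm_num) (by norm_num) (by norm_num)
    · exact b4c_of (tuseC hK Bx ld4 t p4_1a_2_k2a_p mn mn mn
        (lo4_one_two_of hl) (hK.inH hO k5as_ok) (hK.inH hN k2aa_ok)
        (aPs hK (by norm_num) t rfl) (dOk hK t rfl OR.a)) rg
        (by norm_num) (by norm_num) (by norm_num) (by norm_num)
  · exact absurd (hN.zl rfl) (by norm_num)
  · rcases hC.one with ⟨rfl, rfl⟩ | ⟨rfl, rfl⟩
    · have e1 := far_s t.left.ok.right
      subst e1
      exact b4c_of (tuseC hK Bx ld4 t p4_1a_2_k2s_u mn mn mn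
        (lo4_one_two3_of hl) (hK.inH hO k4aa_ok) (hK.inH hN k3as_ok)
        (aOkH t rfl (kl_a t (hK.inH hL k2as_ok))) (dOk hK t rfl OR.s)) rg
        (by norm_num) (by norm_num) (by norm_num) (by norm_num)
    · exact b4c_of (tuseC hK Bx ld4 t p4_1a_2_k2s_p mn mn mn
        (lo4_one_two_of hl) (hK.inH hO k5as_ok) (hK.inH hN k3as_ok)
        (aPs hK (by norm_num) t rfl) (dOk hK t rfl OR.s)) rg
        (by norm_num) (by norm_num) (by norm_num) (by norm_num)

theorem p4_one_twoE {s : Bool} (t : RDt K 4 l x dl ll dr rr w kl kr) (hC : Bh l dl ll .one)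
    (hk : Oh x dr rr .twoE s)
    (hl : (rq4 .one .twoE s).In (yH l (RR w kl) (Complex.cos w)) (zeta w))
    (rg : Rg (yH x (RR w kr) (Complex.cos w)) (zeta w)) :
    (rp4 .one .twoE s).In (yH x (RR w kr) (Complex.cos w)) (zeta w) := by
  have hN := t.right.ok.right.symm
  have hO := t.right.ok.left
  have hL := t.left.ok.right.symm
  obtain ⟨rfl, rfl, rfl⟩ := hk.twoE hN.zr t.right.ok.ne
  rcases hC.one with ⟨rfl, rfl⟩ | ⟨rfl, rfl⟩
  · have e1 := far_s t.left.ok.right
    subst e1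
    exact b4c_of (tuseC hK Bx ld4 t p4_1a_2e_k2e_u mn mn mn
      (lo4_one_twoE_of hl) (hK.inH hO k4aa_ok) (hK.inH hN k2ea_ok)
      (aOkH t rfl (kl_a t (hK.inH hL k2as_ok))) (dOk hK t rfl OR.e)) rg
      (by norm_num) (by norm_num) (by norm_num) (by norm_num)
  · exact b4c_of (tuseC hK Bx ld4 t p4_1a_2e_k2e_p mn mn mn
      (lo4_one_twoE_of hl) (hK.inH hO k5as_ok) (hK.inH hN k2ea_ok)
      (aPs hK (by norm_num) t rfl) (dOk hK t rfl OR.e)) rg
      (by norm_num) (by norm_num) (by norm_num) (by norm_num)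

theorem p4_one_three {s : Bool} (t : RDt K 4 l x dl ll dr rr w kl kr) (hC : Bh l dl ll .one)
    (hk : Oh x dr rr .three s)
    (hl : (rq4 .one .three s).In (yH l (RR w kl) (Complex.cos w)) (zeta w))
    (rg : Rg (yH x (RR w kr) (Complex.cos w)) (zeta w)) :
    (rp4 .one .three s).In (yH x (RR w kr) (Complex.cos w)) (zeta w) := by
  have hN := t.right.ok.right.symm
  have hO := t.right.ok.left
  have hL := t.left.ok.right.symm
  obtain ⟨rfl, rfl, hre⟩ := hk.three hN.zr t.right.ok.ne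
  cases rr
  · exact absurd rfl hre
  · rcases hC.one with ⟨rfl, rfl⟩ | ⟨rfl, rfl⟩
    · have e1 := far_s t.left.ok.right
      subst e1
      exact b4c_of (tuseC hK Bx ld4 t p4_1a_3_k3a_u mn mn mn
        (lo4_one_three3_of hl) (hK.inH hO k4aa_ok) (hK.inH hN k3aa_ok)
        (aOkH t rfl (kl_a t (hK.inH hL k2as_ok))) (dOk hK t rfl OR.a)) rg
        (by norm_num) (by norm_num) (by norm_num) (by norm_num)
    · exact b4c_of (tuseC hK Bx ld4 t p4_1a_3_k3a_p mn mn mn
        (lo4_one_three_of hl) (hK.inH hO k5as_ok) (hK.inH hN k3aa_ok)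
        (aPs hK (by norm_num) t rfl) (dOk hK t rfl OR.a)) rg
        (by norm_num) (by norm_num) (by norm_num) (by norm_num)
  · exact absurd (hN.zl rfl) (by norm_num)
  · rcases hC.one with ⟨rfl, rfl⟩ | ⟨rfl, rfl⟩
    · have e1 := far_s t.left.ok.right
      subst e1
      exact b4c_of (tuseC hK Bx ld4 t p4_1a_3_k3s_u mn mn mn
        (lo4_one_three3_of hl) (hK.inH hO k4aa_ok) (hK.inH hN k4as_ok)
        (aOkH t rfl (kl_a t (hK.inH hL k2as_ok))) (dOk hK t rfl OR.s)) rg
        (by norm_num) (by norm_num) (by norm_num) (by norm_num)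
    · exact b4c_of (tuseC hK Bx ld4 t p4_1a_3_k3s_p mn mn mn
        (lo4_one_three_of hl) (hK.inH hO k5as_ok) (hK.inH hN k4as_ok)
        (aPs hK (by norm_num) t rfl) (dOk hK t rfl OR.s)) rg
        (by norm_num) (by norm_num) (by norm_num) (by norm_num)

theorem p4_one_threeE {s : Bool} (t : RDt K 4 l x dl ll dr rr w kl kr) (hC : Bh l dl ll .one)
    (hk : Oh x dr rr .threeE s)
    (hl : (rq4 .one .threeE s).In (yH l (RR w kl) (Complex.cos w)) (zeta w))
    (rg : Rg (yH x (RR w kr) (Complex.cos w)) (zeta w)) :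
    (rp4 .one .threeE s).In (yH x (RR w kr) (Complex.cos w)) (zeta w) := by
  have hN := t.right.ok.right.symm
  have hO := t.right.ok.left
  have hL := t.left.ok.right.symm
  obtain ⟨rfl, rfl, rfl⟩ := hk.threeE hN.zr t.right.ok.ne
  rcases hC.one with ⟨rfl, rfl⟩ | ⟨rfl, rfl⟩
  · have e1 := far_s t.left.ok.right
    subst e1
    exact b4c_of (tuseC hK Bx ld4 t p4_1a_3e_k3e_u mn mn mn
      (lo4_one_threeE_of hl) (hK.inH hO k4aa_ok) (hK.inH hN k3ea_ok)
      (aOkH t rfl (kl_a t (hK.inH hL k2as_ok))) (dOk hK t rfl OR.e)) rg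
      (by norm_num) (by norm_num) (by norm_num) (by norm_num)
  · exact b4c_of (tuseC hK Bx ld4 t p4_1a_3e_k3e_p mn mn mn
      (lo4_one_threeE_of hl) (hK.inH hO k5as_ok) (hK.inH hN k3ea_ok)
      (aPs hK (by norm_num) t rfl) (dOk hK t rfl OR.e)) rg
      (by norm_num) (by norm_num) (by norm_num) (by norm_num)

theorem p4_one_ringA (t : RDt K 4 l x dl ll dr rr w kl kr) (hC : Bh l dl ll .one)
    (hk : Oh x dr rr .ring false)
    (hl : (rq4 .one .ring false).In (yH l (RR w kl) (Complex.cos w)) (zeta w))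
    (rg : Rg (yH x (RR w kr) (Complex.cos w)) (zeta w)) :
    (rp4 .one .ring false).In (yH x (RR w kr) (Complex.cos w)) (zeta w) := by
  have hN := t.right.ok.right.symm
  have hO := t.right.ok.left
  have hL := t.left.ok.right.symm
  rcases hk.ring hN.pos t.right.ok.ne with ⟨rfl, -, hr4⟩ | ⟨-, h9, -⟩
  · rcases hC.one with ⟨rfl, rfl⟩ | ⟨rfl, rfl⟩
    · have e1 := far_s t.left.ok.right
      subst e1
      exact b4c_of (tuseC hK Bx ld4 t p4_1a_Z_kZ_u mn mn mn
        (lo4_one_ringA_of hl) (hK.inH hO k4aa_ok) (in_nZa hK hN hr4)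
        (aOkH t rfl (kl_a t (hK.inH hL k2as_ok))) AllOk.nil) rg
        (by norm_num) (by norm_num) (by norm_num) (by norm_num)
    · exact b4c_of (tuseC hK Bx ld4 t p4_1a_Z_kZ_p mn mn mn
        (lo4_one_ringA_of hl) (hK.inH hO k5as_ok) (in_nZa hK hN hr4)
        (aPs hK (by norm_num) t rfl) AllOk.nil) rg
        (by norm_num) (by norm_num) (by norm_num) (by norm_num)
  · exact absurd h9 (by decide)

theorem p4_one_ringZ (t : RDt K 4 l x dl ll dr rr w kl kr) (hC : Bh l dl ll .one)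
    (hk : Oh x dr rr .ring true)
    (hl : (rq4 .one .ring true).In (yH l (RR w kl) (Complex.cos w)) (zeta w))
    (rg : Rg (yH x (RR w kr) (Complex.cos w)) (zeta w)) :
    (rp4 .one .ring true).In (yH x (RR w kr) (Complex.cos w)) (zeta w) := by
  have hN := t.right.ok.right.symm
  have hO := t.right.ok.left
  have hL := t.left.ok.right.symm
  rcases hk.ring hN.pos t.right.ok.ne with ⟨-, h9, -⟩ | ⟨rfl, -, hr4⟩
  · exact absurd h9 (by decide)
  · rcases hC.one with ⟨rfl, rfl⟩ | ⟨rfl, rfl⟩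
    · have e1 := far_s t.left.ok.right
      subst e1
      exact b4c_of (tuseC hK Bx ld4 t p4_1a_Zs_kz_u mn mn mn
        (lo4_one_ringZ_of hl) (hK.inH hO k4az_ok) (in_nZz hK hN)
        (aOkH t rfl (kl_a t (hK.inH hL k2as_ok))) AllOk.nil) rg
        (by norm_num) (by norm_num) (by norm_num) (by norm_num)
    · exact b4c_of (tuseC hK Bx ld4 t p4_1a_Zs_kz_p mn mn mn
        (lo4_one_ringZ_of hl) (hK.inH hO k5zs_ok) (in_nZz hK hN)
        (aPs hK (by norm_num) t rfl) AllOk.nil) rg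
        (by norm_num) (by norm_num) (by norm_num) (by norm_num)

theorem p4_two_two {s : Bool} (t : RDt K 4 l x dl ll dr rr w kl kr) (hC : Bh l dl ll .two)
    (hk : Oh x dr rr .two s)
    (hl : (rq4 .two .two s).In (yH l (RR w kl) (Complex.cos w)) (zeta w))
    (rg : Rg (yH x (RR w kr) (Complex.cos w)) (zeta w)) :
    (rp4 .two .two s).In (yH x (RR w kr) (Complex.cos w)) (zeta w) := by
  have hN := t.right.ok.right.symm
  have hO := t.right.ok.left
  have hL := t.left.ok.right.symm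
  obtain ⟨rfl, rfl, hre⟩ := hk.two hN.zr t.right.ok.ne
  cases rr
  · exact absurd rfl hre
  · obtain ⟨rfl, rfl, hle⟩ := hC.two
    exact b4c_of (tuseC hK Bx ld4 t p4_1b_2_k2a_p mn mn mn
      (lo4_two_two_of hl) (hK.inH hO k5as_ok) (hK.inH hN k2aa_ok)
      (aPs hK (by norm_num) t rfl) (dOk hK t rfl OR.a)) rg
      (by norm_num) (by norm_num) (by norm_num) (by norm_num)
  · exact absurd (hN.zl rfl) (by norm_num)
  · obtain ⟨rfl, rfl, hle⟩ := hC.two
    exact b4c_of (tuseC hK Bx ld4 t p4_1b_2_k2s_p mn mn mn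
      (lo4_two_two_of hl) (hK.inH hO k5as_ok) (hK.inH hN k3as_ok)
      (aPs hK (by norm_num) t rfl) (dOk hK t rfl OR.s)) rg
      (by norm_num) (by norm_num) (by norm_num) (by norm_num)

theorem p4_two_twoE {s : Bool} (t : RDt K 4 l x dl ll dr rr w kl kr) (hC : Bh l dl ll .two)
    (hk : Oh x dr rr .twoE s)
    (hl : (rq4 .two .twoE s).In (yH l (RR w kl) (Complex.cos w)) (zeta w))
    (rg : Rg (yH x (RR w kr) (Complex.cos w)) (zeta w)) :
    (rp4 .two .twoE s).In (yH x (RR w kr) (Complex.cos w)) (zeta w) := by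
  have hN := t.right.ok.right.symm
  have hO := t.right.ok.left
  have hL := t.left.ok.right.symm
  obtain ⟨rfl, rfl, rfl⟩ := hk.twoE hN.zr t.right.ok.ne
  obtain ⟨rfl, rfl, hle⟩ := hC.two
  exact b4c_of (tuseC hK Bx ld4 t p4_1b_2e_k2e_p mn mn mn
    (lo4_two_twoE_of hl) (hK.inH hO k5as_ok) (hK.inH hN k2ea_ok)
    (aPs hK (by norm_num) t rfl) (dOk hK t rfl OR.e)) rg
    (by norm_num) (by norm_num) (by norm_num) (by norm_num)

theorem p4_two_three {s : Bool} (t : RDt K 4 l x dl ll dr rr w kl kr) (hC : Bh l dl ll .two)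
    (hk : Oh x dr rr .three s)
    (hl : (rq4 .two .three s).In (yH l (RR w kl) (Complex.cos w)) (zeta w))
    (rg : Rg (yH x (RR w kr) (Complex.cos w)) (zeta w)) :
    (rp4 .two .three s).In (yH x (RR w kr) (Complex.cos w)) (zeta w) := by
  have hN := t.right.ok.right.symm
  have hO := t.right.ok.left
  have hL := t.left.ok.right.symm
  obtain ⟨rfl, rfl, hre⟩ := hk.three hN.zr t.right.ok.ne
  cases rr
  · exact absurd rfl hre
  · obtain ⟨rfl, rfl, hle⟩ := hC.two
    exact b4c_of (tuseC hK Bx ld4 t p4_1b_3_k3a_p mn mn mn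
      (lo4_two_three_of hl) (hK.inH hO k5as_ok) (hK.inH hN k3aa_ok)
      (aPs hK (by norm_num) t rfl) (dOk hK t rfl OR.a)) rg
      (by norm_num) (by norm_num) (by norm_num) (by norm_num)
  · exact absurd (hN.zl rfl) (by norm_num)
  · obtain ⟨rfl, rfl, hle⟩ := hC.two
    exact b4c_of (tuseC hK Bx ld4 t p4_1b_3_k3s_p mn mn mn
      (lo4_two_three_of hl) (hK.inH hO k5as_ok) (hK.inH hN k4as_ok)
      (aPs hK (by norm_num) t rfl) (dOk hK t rfl OR.s)) rg
      (by norm_num) (by norm_num) (by norm_num) (by norm_num)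

theorem p4_two_threeE {s : Bool} (t : RDt K 4 l x dl ll dr rr w kl kr) (hC : Bh l dl ll .two)
    (hk : Oh x dr rr .threeE s)
    (hl : (rq4 .two .threeE s).In (yH l (RR w kl) (Complex.cos w)) (zeta w))
    (rg : Rg (yH x (RR w kr) (Complex.cos w)) (zeta w)) :
    (rp4 .two .threeE s).In (yH x (RR w kr) (Complex.cos w)) (zeta w) := by
  have hN := t.right.ok.right.symm
  have hO := t.right.ok.left
  have hL := t.left.ok.right.symm
  obtain ⟨rfl, rfl, rfl⟩ := hk.threeE hN.zr t.right.ok.ne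
  obtain ⟨rfl, rfl, hle⟩ := hC.two
  exact b4c_of (tuseC hK Bx ld4 t p4_1b_3e_k3e_p mn mn mn
    (lo4_two_threeE_of hl) (hK.inH hO k5as_ok) (hK.inH hN k3ea_ok)
    (aPs hK (by norm_num) t rfl) (dOk hK t rfl OR.e)) rg
    (by norm_num) (by norm_num) (by norm_num) (by norm_num)

theorem p4_two_ringA (t : RDt K 4 l x dl ll dr rr w kl kr) (hC : Bh l dl ll .two)
    (hk : Oh x dr rr .ring false)
    (hl : (rq4 .two .ring false).In (yH l (RR w kl) (Complex.cos w)) (zeta w))
    (rg : Rg (yH x (RR w kr) (Complex.cos w)) (zeta w)) :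
    (rp4 .two .ring false).In (yH x (RR w kr) (Complex.cos w)) (zeta w) := by
  have hN := t.right.ok.right.symm
  have hO := t.right.ok.left
  have hL := t.left.ok.right.symm
  rcases hk.ring hN.pos t.right.ok.ne with ⟨rfl, -, hr4⟩ | ⟨-, h9, -⟩
  · obtain ⟨rfl, rfl, hle⟩ := hC.two
    exact b4c_of (tuseC hK Bx ld4 t p4_1b_Z_kZ_p mn mn mn
      (lo4_two_ringA_of hl) (hK.inH hO k5as_ok) (in_nZa hK hN hr4)
      (aPs hK (by norm_num) t rfl) AllOk.nil) rg
      (by norm_num) (by norm_num) (by norm_num) (by norm_num)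
  · exact absurd h9 (by decide)

theorem p4_two_ringZ (t : RDt K 4 l x dl ll dr rr w kl kr) (hC : Bh l dl ll .two)
    (hk : Oh x dr rr .ring true)
    (hl : (rq4 .two .ring true).In (yH l (RR w kl) (Complex.cos w)) (zeta w))
    (rg : Rg (yH x (RR w kr) (Complex.cos w)) (zeta w)) :
    (rp4 .two .ring true).In (yH x (RR w kr) (Complex.cos w)) (zeta w) := by
  have hN := t.right.ok.right.symm
  have hO := t.right.ok.left
  have hL := t.left.ok.right.symm
  rcases hk.ring hN.pos t.right.ok.ne with ⟨-, h9, -⟩ | ⟨rfl, -, hr4⟩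
  · exact absurd h9 (by decide)
  · obtain ⟨rfl, rfl, hle⟩ := hC.two
    exact b4c_of (tuseC hK Bx ld4 t p4_1b_Zs_kz_p mn mn mn
      (lo4_two_ringZ_of hl) (hK.inH hO k5zs_ok) (in_nZz hK hN)
      (aPs hK (by norm_num) t rfl) AllOk.nil) rg
      (by norm_num) (by norm_num) (by norm_num) (by norm_num)

theorem p4_twoE_two {s : Bool} (t : RDt K 4 l x dl ll dr rr w kl kr) (hC : Bh l dl ll .twoE)
    (hk : Oh x dr rr .two s)
    (hl : (rq4 .twoE .two s).In (yH l (RR w kl) (Complex.cos w)) (zeta w))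
    (rg : Rg (yH x (RR w kr) (Complex.cos w)) (zeta w)) :
    (rp4 .twoE .two s).In (yH x (RR w kr) (Complex.cos w)) (zeta w) := by
  have hN := t.right.ok.right.symm
  have hO := t.right.ok.left
  have hL := t.left.ok.right.symm
  obtain ⟨rfl, rfl, hre⟩ := hk.two hN.zr t.right.ok.ne
  cases rr
  · exact absurd rfl hre
  · obtain ⟨rfl, rfl, rfl⟩ := hC.twoE
    exact b4c_of (tuseC hK Bx ld4 t p4_1c_2_k2a_2e mn mn mn
      (lo4_twoE_two_of hl) (hK.inH hO k5as_ok) (hK.inH hN k2aa_ok)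
      (aOkH t rfl (kl_s t (hK.inH hL k3es_ok))) (dOk hK t rfl OR.a)) rg
      (by norm_num) (by norm_num) (by norm_num) (by norm_num)
  · exact absurd (hN.zl rfl) (by norm_num)
  · obtain ⟨rfl, rfl, rfl⟩ := hC.twoE
    exact b4c_of (tuseC hK Bx ld4 t p4_1c_2_k2s_2e mn mn mn
      (lo4_twoE_two_of hl) (hK.inH hO k5as_ok) (hK.inH hN k3as_ok)
      (aOkH t rfl (kl_s t (hK.inH hL k3es_ok))) (dOk hK t rfl OR.s)) rg
      (by norm_num) (by norm_num) (by norm_num) (by norm_num)

theorem p4_twoE_twoE {s : Bool} (t : RDt K 4 l x dl ll dr rr w kl kr) (hC : Bh l dl ll .twoE)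
    (hk : Oh x dr rr .twoE s)
    (hl : (rq4 .twoE .twoE s).In (yH l (RR w kl) (Complex.cos w)) (zeta w))
    (rg : Rg (yH x (RR w kr) (Complex.cos w)) (zeta w)) :
    (rp4 .twoE .twoE s).In (yH x (RR w kr) (Complex.cos w)) (zeta w) := by
  have hN := t.right.ok.right.symm
  have hO := t.right.ok.left
  have hL := t.left.ok.right.symm
  obtain ⟨rfl, rfl, rfl⟩ := hk.twoE hN.zr t.right.ok.ne
  obtain ⟨rfl, rfl, rfl⟩ := hC.twoE
  exact b4c_of (tuseC hK Bx ld4 t p4_1c_2e_k2e_2e mn mn mn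
    (lo4_twoE_twoE_of hl) (hK.inH hO k5as_ok) (hK.inH hN k2ea_ok)
    (aOkH t rfl (kl_s t (hK.inH hL k3es_ok))) (dOk hK t rfl OR.e)) rg
    (by norm_num) (by norm_num) (by norm_num) (by norm_num)

theorem p4_twoE_three {s : Bool} (t : RDt K 4 l x dl ll dr rr w kl kr) (hC : Bh l dl ll .twoE)
    (hk : Oh x dr rr .three s)
    (hl : (rq4 .twoE .three s).In (yH l (RR w kl) (Complex.cos w)) (zeta w))
    (rg : Rg (yH x (RR w kr) (Complex.cos w)) (zeta w)) :
    (rp4 .twoE .three s).In (yH x (RR w kr) (Complex.cos w)) (zeta w) := by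
  have hN := t.right.ok.right.symm
  have hO := t.right.ok.left
  have hL := t.left.ok.right.symm
  obtain ⟨rfl, rfl, hre⟩ := hk.three hN.zr t.right.ok.ne
  cases rr
  · exact absurd rfl hre
  · obtain ⟨rfl, rfl, rfl⟩ := hC.twoE
    exact b4c_of (tuseC hK Bx ld4 t p4_1c_3_k3a_2e mn mn mn
      (lo4_twoE_three_of hl) (hK.inH hO k5as_ok) (hK.inH hN k3aa_ok)
      (aOkH t rfl (kl_s t (hK.inH hL k3es_ok))) (dOk hK t rfl OR.a)) rg
      (by norm_num) (by norm_num) (by norm_num) (by norm_num)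
  · exact absurd (hN.zl rfl) (by norm_num)
  · obtain ⟨rfl, rfl, rfl⟩ := hC.twoE
    exact b4c_of (tuseC hK Bx ld4 t p4_1c_3_k3s_2e mn mn mn
      (lo4_twoE_three_of hl) (hK.inH hO k5as_ok) (hK.inH hN k4as_ok)
      (aOkH t rfl (kl_s t (hK.inH hL k3es_ok))) (dOk hK t rfl OR.s)) rg
      (by norm_num) (by norm_num) (by norm_num) (by norm_num)

theorem p4_twoE_threeE {s : Bool} (t : RDt K 4 l x dl ll dr rr w kl kr) (hC : Bh l dl ll .twoE)
    (hk : Oh x dr rr .threeE s)
    (hl : (rq4 .twoE .threeE s).In (yH l (RR w kl) (Complex.cos w)) (zeta w))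
    (rg : Rg (yH x (RR w kr) (Complex.cos w)) (zeta w)) :
    (rp4 .twoE .threeE s).In (yH x (RR w kr) (Complex.cos w)) (zeta w) := by
  have hN := t.right.ok.right.symm
  have hO := t.right.ok.left
  have hL := t.left.ok.right.symm
  obtain ⟨rfl, rfl, rfl⟩ := hk.threeE hN.zr t.right.ok.ne
  obtain ⟨rfl, rfl, rfl⟩ := hC.twoE
  exact b4c_of (tuseC hK Bx ld4 t p4_1c_3e_k3e_2e mn mn mn
    (lo4_twoE_threeE_of hl) (hK.inH hO k5as_ok) (hK.inH hN k3ea_ok)
    (aOkH t rfl (kl_s t (hK.inH hL k3es_ok))) (dOk hK t rfl OR.e)) rg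
    (by norm_num) (by norm_num) (by norm_num) (by norm_num)

theorem p4_twoE_ringA (t : RDt K 4 l x dl ll dr rr w kl kr) (hC : Bh l dl ll .twoE)
    (hk : Oh x dr rr .ring false)
    (hl : (rq4 .twoE .ring false).In (yH l (RR w kl) (Complex.cos w)) (zeta w))
    (rg : Rg (yH x (RR w kr) (Complex.cos w)) (zeta w)) :
    (rp4 .twoE .ring false).In (yH x (RR w kr) (Complex.cos w)) (zeta w) := by
  have hN := t.right.ok.right.symm
  have hO := t.right.ok.left
  have hL := t.left.ok.right.symm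
  rcases hk.ring hN.pos t.right.ok.ne with ⟨rfl, -, hr4⟩ | ⟨-, h9, -⟩
  · obtain ⟨rfl, rfl, rfl⟩ := hC.twoE
    exact b4c_of (tuseC hK Bx ld4 t p4_1c_Z_kZ_2e mn mn mn
      (lo4_twoE_ringA_of hl) (hK.inH hO k5as_ok) (in_nZa hK hN hr4)
      (aOkH t rfl (kl_s t (hK.inH hL k3es_ok))) AllOk.nil) rg
      (by norm_num) (by norm_num) (by norm_num) (by norm_num)
  · exact absurd h9 (by decide)

theorem p4_twoE_ringZ (t : RDt K 4 l x dl ll dr rr w kl kr) (hC : Bh l dl ll .twoE)
    (hk : Oh x dr rr .ring true)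
    (hl : (rq4 .twoE .ring true).In (yH l (RR w kl) (Complex.cos w)) (zeta w))
    (rg : Rg (yH x (RR w kr) (Complex.cos w)) (zeta w)) :
    (rp4 .twoE .ring true).In (yH x (RR w kr) (Complex.cos w)) (zeta w) := by
  have hN := t.right.ok.right.symm
  have hO := t.right.ok.left
  have hL := t.left.ok.right.symm
  rcases hk.ring hN.pos t.right.ok.ne with ⟨-, h9, -⟩ | ⟨rfl, -, hr4⟩
  · exact absurd h9 (by decide)
  · obtain ⟨rfl, rfl, rfl⟩ := hC.twoE
    exact b4c_of (tuseC hK Bx ld4 t p4_1c_Zs_kz_2e mn mn mn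
      (lo4_twoE_ringZ_of hl) (hK.inH hO k5zs_ok) (in_nZz hK hN)
      (aOkH t rfl (kl_s t (hK.inH hL k3es_ok))) AllOk.nil) rg
      (by norm_num) (by norm_num) (by norm_num) (by norm_num)

/-- the hinge next to the digit `1` -/
theorem rq4_of {C k : Cl} {s : Bool} (t : RDt K 4 l x dl ll dr rr w kl kr) (hC : Bh x dr rr C)
    (hk : Oh l dl ll k s) (hl : (r4 false k s).In (yH l (RR w kl) (Complex.cos w)) (zeta w))
    (rg : Rg (yH x (RR w kr) (Complex.cos w)) (zeta w)) :
    (rq4 C k s).In (yH x (RR w kr) (Complex.cos w)) (zeta w) := by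
  rcases hC.cases t.right (by norm_num) with rfl | rfl | rfl
  · cases k
    · exact q4_one_one hK Bx t hC hk hl rg
    · exact q4_one_two hK Bx t hC hk hl rg
    · exact q4_one_twoE hK Bx t hC hk hl rg
    · exact q4_one_three hK Bx t hC hk hl rg
    · exact q4_one_threeE hK Bx t hC hk hl rg
    · cases s
      · exact q4_one_ringA hK Bx t hC hk hl rg
      · exact q4_one_ringZ hK Bx t hC hk hl rg
  · cases k
    · exact q4_two_one hK Bx t hC hk hl rg
    · exact q4_two_two hK Bx t hC hk hl rg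
    · exact q4_two_twoE hK Bx t hC hk hl rg
    · exact q4_two_three hK Bx t hC hk hl rg
    · exact q4_two_threeE hK Bx t hC hk hl rg
    · cases s
      · exact q4_two_ringA hK Bx t hC hk hl rg
      · exact q4_two_ringZ hK Bx t hC hk hl rg
  · cases k
    · exact q4_twoE_one hK Bx t hC hk hl rg
    · exact q4_twoE_two hK Bx t hC hk hl rg
    · exact q4_twoE_twoE hK Bx t hC hk hl rg
    · exact q4_twoE_three hK Bx t hC hk hl rg
    · exact q4_twoE_threeE hK Bx t hC hk hl rg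
    · cases s
      · exact q4_twoE_ringA hK Bx t hC hk hl rg
      · exact q4_twoE_ringZ hK Bx t hC hk hl rg

/-- the other hinge -/
theorem rp4_of {C k : Cl} {s : Bool} (t : RDt K 4 l x dl ll dr rr w kl kr) (hC : Bh l dl ll C)
    (hk : Oh x dr rr k s) (hk1 : k ≠ .one)
    (hl : (rq4 C k s).In (yH l (RR w kl) (Complex.cos w)) (zeta w))
    (rg : Rg (yH x (RR w kr) (Complex.cos w)) (zeta w)) :
    (rp4 C k s).In (yH x (RR w kr) (Complex.cos w)) (zeta w) := by
  rcases hC.cases t.left (by norm_num) with rfl | rfl | rfl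
  · cases k
    · exact absurd rfl hk1
    · exact p4_one_two hK Bx t hC hk hl rg
    · exact p4_one_twoE hK Bx t hC hk hl rg
    · exact p4_one_three hK Bx t hC hk hl rg
    · exact p4_one_threeE hK Bx t hC hk hl rg
    · cases s
      · exact p4_one_ringA hK Bx t hC hk hl rg
      · exact p4_one_ringZ hK Bx t hC hk hl rg
  · cases k
    · exact absurd rfl hk1
    · exact p4_two_two hK Bx t hC hk hl rg
    · exact p4_two_twoE hK Bx t hC hk hl rg
    · exact p4_two_three hK Bx t hC hk hl rg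
    · exact p4_two_threeE hK Bx t hC hk hl rg
    · cases s
      · exact p4_two_ringA hK Bx t hC hk hl rg
      · exact p4_two_ringZ hK Bx t hC hk hl rg
  · cases k
    · exact absurd rfl hk1
    · exact p4_twoE_two hK Bx t hC hk hl rg
    · exact p4_twoE_twoE hK Bx t hC hk hl rg
    · exact p4_twoE_three hK Bx t hC hk hl rg
    · exact p4_twoE_threeE hK Bx t hC hk hl rg
    · cases s
      · exact p4_twoE_ringA hK Bx t hC hk hl rg
      · exact p4_twoE_ringZ hK Bx t hC hk hl rg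

end

end

end Pool.Agent.Work.MP_b30479_gt.G2.CN.TD
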