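import Pool.Agent.Work.MP_b30479_gt.G2.CN.LocRwA
import Pool.Agent.Work.MP_b30479_gt.G2.CN.TTabQ4
import Pool.Agent.Work.MP_b30479_gt.G2.CN.TTabQe

/-!
# Windows of the rings with four crossings of a word next to a digit `1`
-/

namespace Pool.Agent.Work.MP_b30479_gt.G2.CN.TD

open Complex SR
open scoped ComplexConjugate

noncomputable section

section
variable {M : ℕ} {b : Fin (M + 1) → ℤ} {w : ℕ → ℂ}
variable (hb : ClassW b) (F : RingFacts) (hw : Sol b w) (hM : 1 ≤ M) {K : KFam} (hK : KOK K)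
  (hS : Snd K b w) (Bx : BoxRows K)
include hb F hw hM hK hS Bx

/-- **Windows of the rings with four crossings of a word next to a digit `1`.** -/
theorem locRw4_of : LocRw 4 rq4 rp4 re4 b (zsW b w) :=
  locRw_mk hb F hw hM hS Bx (by norm_num) (fun _ => locR4_of hb F hw hM hK hS Bx)
    (fun t hC hk h4 _ rg => rq4_of hK Bx t hC hk (h4 rfl) rg)
    (fun t hC hk hk1 hl rg => rp4_of hK Bx t hC hk hk1 hl rg) (fun t hC rg => re4_of hK t hC rg)

end

end

end Pool.Agent.Work.MP_b30479_gt.G2.CN.TD
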