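import Pool.Agent.Work.MP_b30479_gt.G2.CN.HMid

/-!
# Inner variables of regions with three crossings: data of the runs

Variables: `y = exp (- 2 π i m)`, `m` the inner variable, and `κ = k²`; `u`, `v`: the word hinges on
the left and on the right.
-/

namespace Pool.Agent.Work.MP_b30479_gt.G2.CN.M3

noncomputable section

/-- own values, sides `aa` -/
def h3 : List QC :=
  [⟨-177384, 592288, 0, 0⟩, ⟨456762, -571160, 0, 0⟩, ⟨0, 0, -1000000, 289793⟩,
    ⟨0, 0, 1000000, -648066⟩, ⟨988000, -156000, 0, 446205⟩, ⟨-951000, -309000, 0, -763335⟩,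
    ⟨545000, 839000, 0, 450459⟩, ⟨292000, -956000, -506104, 0⟩, ⟨-559000, -829000, -1573985, 0⟩,
    ⟨174000, 985000, 0, 277399⟩, ⟨-921000, -391000, 0, -776582⟩, ⟨-974000, -225000, 0, -752806⟩]

/-- own values, sides `as` -/
def h4 : List QC :=
  [⟨-170558, 623760, 0, 0⟩, ⟨395064, -644873, 0, 0⟩, ⟨0, 0, -1000000, 356485⟩,
    ⟨0, 0, 1000000, -571937⟩, ⟨974000, -225000, 0, 485484⟩, ⟨616000, 788000, 0, 508048⟩,
    ⟨-375000, 927000, 0, -75862⟩, ⟨87000, -996000, -624146, 0⟩, ⟨-921000, -391000, 0, -753614⟩,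
    ⟨530000, 848000, 0, 467393⟩, ⟨857000, 515000, 0, 590229⟩, ⟨-946000, -326000, 0, -754319⟩]

/-- own values, sides `ss` -/
def h5 : List QC :=
  [⟨-162800, 652596, 0, 0⟩, ⟨318970, -660744, 0, 0⟩, ⟨0, 0, -1000000, 423171⟩,
    ⟨0, 0, 1000000, -573360⟩, ⟨-407000, -914000, -1090730, 0⟩, ⟨-866000, -500000, 0, -734716⟩,
    ⟨0, 1000000, 357813, 0⟩, ⟨819000, 574000, 0, 620986⟩, ⟨208000, -978000, -326567, 0⟩,
    ⟨857000, 515000, 0, 634909⟩]

/-- values of a neighbour: `u` -/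
def hU : List QC :=
  [⟨-587018, 585480, 0, 0⟩, ⟨919632, -95060, 0, 0⟩, ⟨0, 0, -1000000, 201670⟩,
    ⟨0, 0, 1000000, -1240357⟩, ⟨35000, 999000, 880778, 0⟩, ⟨87000, 996000, 0, 418505⟩,
    ⟨961000, 276000, 0, 228493⟩, ⟨-616000, 788000, 0, 101510⟩, ⟨946000, 326000, 455634, 0⟩,
    ⟨-629000, -777000, 0, -997733⟩, ⟨985000, -174000, -80683, 0⟩, ⟨-961000, -276000, 0, -729554⟩]

/-- values of a neighbour: `s` -/
def hS : List QC :=
  [⟨-284596, 680403, 0, 0⟩, ⟨919632, -95060, 0, 0⟩, ⟨0, 0, -1000000, 113771⟩,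
    ⟨0, 0, 1000000, -1240357⟩, ⟨-927000, -375000, 0, -790467⟩, ⟨-906000, 423000, -1039930, 0⟩,
    ⟨906000, 423000, 0, 292250⟩, ⟨799000, -602000, 0, -480902⟩, ⟨-643000, -766000, 0, -992098⟩,
    ⟨999000, -35000, 0, 55778⟩, ⟨-87000, 996000, 0, 220374⟩, ⟨743000, 669000, 0, 335660⟩]

/-- values of a neighbour: `o` -/
def hO : List QC :=
  [⟨-170558, 623760, 0, 0⟩, ⟨630784, -294912, 0, 0⟩, ⟨0, 0, -1000000, 161646⟩,
    ⟨0, 0, 1000000, -1009419⟩, ⟨-946000, -326000, 0, -771352⟩, ⟨993000, 122000, 0, 325007⟩,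
    ⟨-122000, 993000, 0, 85274⟩, ⟨-731000, -682000, -2357637, 0⟩, ⟨999000, -35000, 463290, 0⟩,
    ⟨993000, -122000, 0, 215881⟩, ⟨423000, 906000, 0, 291496⟩, ⟨839000, -545000, 0, -98108⟩]

/-- values of a neighbour: `e` -/
def hE : List QC :=
  [⟨-239564, 244923, 0, 0⟩, ⟨450300, 949, 0, 0⟩, ⟨0, 0, -1000000, 59281⟩,
    ⟨0, 0, 1000000, -284112⟩, ⟨829000, 559000, 0, 216981⟩, ⟨0, 1000000, 0, 212080⟩,
    ⟨-208000, -978000, 0, -501515⟩, ⟨-839000, 545000, 0, -76266⟩, ⟨946000, 326000, 0, 145900⟩,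
    ⟨-391000, 921000, 0, 123411⟩, ⟨-358000, -934000, 0, -510790⟩, ⟨-105000, -995000, 0, -500258⟩]

/-- values of a neighbour: `r` -/
def hR : List QC :=
  [⟨0, 822649, 0, 0⟩, ⟨323468, -664995, 0, 0⟩, ⟨0, 0, -1000000, 322174⟩,
    ⟨0, 0, 1000000, -1000000⟩, ⟨-719000, -695000, 0, -722317⟩, ⟨-438000, 899000, -539453, 0⟩,
    ⟨788000, -616000, 0, 324273⟩, ⟨-469000, -883000, 0, -602120⟩, ⟨-695000, -719000, -1505041, 0⟩,
    ⟨309000, 951000, 0, 253612⟩, ⟨-174000, -985000, -815831, 0⟩, ⟨-407000, -914000, -1143091, 0⟩]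

/-- the box of a hinge: `one` -/
def bOne : IB := ⟨2260, 3140, -1145, -210, 920230, 391377, -988651, 150230, 4215844, 1301988⟩

/-- the box of a hinge: `two,three,threeE` -/
def bOth : IB := ⟨1790, 2640, -570, 220, 996133, 87855, -902132, 431460, 2046813, 758462⟩

/-- the box of a hinge: `twoE` -/
def bTwoE : IB := ⟨1740, 1970, -980, -760, 945064, -326884, -888135, 459583, 3426382, 2598784⟩

/-- the box of a hinge: `ring` -/
def bRing : IB := ⟨1880, 2340, -40, 570, 994951, -100358, -925076, 379783, 1051552, 488563⟩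

def y1 : Ev := (.sub (.sc 1 Ev.one) .R rfl)
def ky : Ev := (.nm 4 (.mul .q .R))
def den : Ev := (.nl (.add ky (.sq y1) rfl))
def yk : Ev := (.nl (.add (.sc 1 y1) ky rfl))
def vm : Ev := (.sub (.sub (.sc 1 (.k 2 0 0 0)) (.nm 4 .q) rfl) .R rfl)
def laN : Ev := (.nl (.gm 0 4 0 0 (.sq (.mul .q .R))))
def raN : Ev := (.nl (.gm 0 1 0 0 (.mul .q (.sq (.sub y1 (.nm 4 .q) rfl)))))
def lsN : Ev := (.nl (.gm 0 1 0 0 (.mul .q (.sq yk))))
def rsN : Ev := (.nl (.gm 0 4 0 0 (.sq (.mul .q vm))))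
def yy : Ev := (.nl (.mul .R y1))
def ym : Ev := (.nl (.mul .R vm))

/-- own value -/
def gO (H : List QC) : Grp := ⟨.q, .sc 1 Ev.one, (rfl : 1 = 1), H⟩
/-- left hinge -/
def gU (H : List QC) : Grp := ⟨.sc 1 y1, yk, (rfl : 2 = 2), H⟩
/-- right hinge -/
def gW (H : List QC) : Grp := ⟨.sc 1 Ev.one, vm, (rfl : 1 = 1), H⟩
/-- left neighbour -/
def gLa (H : List QC) : Grp := ⟨laN, .sc 2 den, (rfl : 4 = 4), H⟩
def gLs (H : List QC) : Grp := ⟨lsN, .sc 3 den, (rfl : 5 = 5), H⟩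
/-- right neighbour -/
def gRa (H : List QC) : Grp := ⟨raN, .sc 1 den, (rfl : 3 = 3), H⟩
def gRs (H : List QC) : Grp := ⟨rsN, .sc 2 den, (rfl : 4 = 4), H⟩
/-- inner variable -/
def gM (H : List QC) : Grp := ⟨.sc 1 Ev.one, .R, (rfl : 1 = 1), H⟩
/-- inner variable minus left hinge -/
def gDf (H : List QC) : Grp := ⟨yk, yy, (rfl : 2 = 2), H⟩
/-- inner variable plus right hinge -/
def gSm (H : List QC) : Grp := ⟨.sc 2 Ev.one, ym, (rfl : 2 = 2), H⟩

/-- the goal for the sum -/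
def hSm : List QC := [⟨0, 1, 0, 0⟩]

/-- the root cell -/
def root3 : Cell := ⟨917504, 1179648, 917504, 1179648, 1032192, 1064960, 1032192, 1064960⟩

/-- the window of the inner variable: `11` -/
def m_11 : BB := ⟨3250, 5120, -900, -180, 75323, -997159, 891005, 453994, 1253821, 3098670⟩
/-- the window of the difference: `11` -/
def s_11 : TB := ⟨-450, 700, 414931, 1760303⟩

/-- the window of the inner variable: `1o` -/
def m_1o : BB := ⟨3250, 5120, -820, 50, 75323, -997159, 891005, 453994, 939103, 2802304⟩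
/-- the window of the difference: `1o` -/
def s_1o : TB := ⟨-400, 840, 347994, 1653103⟩

/-- the window of the inner variable: `1e` -/
def m_1e : BB := ⟨3250, 5120, -620, -50, 75323, -997159, 891005, 453994, 1064849, 2179541⟩
/-- the window of the difference: `1e` -/
def s_1e : TB := ⟨-200, 750, 389663, 1285729⟩

/-- the window of the inner variable: `1r` -/
def m_1r : BB := ⟨3250, 5120, -720, 0, 75323, -997159, 891005, 453994, 1000001, 2471383⟩
/-- the window of the difference: `1r` -/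
def s_1r : TB := ⟨-340, 800, 365933, 1533044⟩

/-- the window of the inner variable: `o1` -/
def m_o1 : BB := ⟨3250, 5120, -1140, -150, 75323, -997159, 891005, 453994, 1207433, 4189435⟩
/-- the window of the difference: `o1` -/
def s_o1 : TB := ⟨-1050, 140, 838679, 3741432⟩

/-- the window of the inner variable: `oo` -/
def m_oo : BB := ⟨3250, 5120, -1040, 50, 75323, -997159, 891005, 453994, 939103, 3694710⟩
/-- the window of the difference: `oo` -/
def s_oo : TB := ⟨-1000, 280, 703381, 3513584⟩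

/-- the window of the inner variable: `oe` -/
def m_oe : BB := ⟨3250, 5120, -820, -50, 75323, -997159, 891005, 453994, 1064849, 2802304⟩
/-- the window of the difference: `oe` -/
def s_oe : TB := ⟨-750, 190, 787605, 2566331⟩

/-- the window of the inner variable: `or` -/
def m_or : BB := ⟨3250, 5120, -920, 0, 75323, -997159, 891005, 453994, 1000001, 3177535⟩
/-- the window of the difference: `or` -/
def s_or : TB := ⟨-930, 240, 739641, 3217717⟩

/-- the window of the inner variable: `e1` -/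
def m_e1 : BB := ⟨3250, 5120, -1230, -800, 75323, -997159, 891005, 453994, 2732755, 4691082⟩
/-- the window of the difference: `e1` -/
def s_e1 : TB := ⟨-480, 150, 828206, 1827931⟩

/-- the window of the inner variable: `eo` -/
def m_eo : BB := ⟨3250, 5120, -1160, -640, 75323, -997159, 891005, 453994, 2235016, 4296061⟩
/-- the window of the difference: `eo` -/
def s_eo : TB := ⟨-400, 320, 668899, 1653103⟩

/-- the window of the inner variable: `ee` -/
def m_ee : BB := ⟨3250, 5120, -950, -670, 75323, -997159, 891005, 453994, 2320882, 3299612⟩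
/-- the window of the difference: `ee` -/
def s_ee : TB := ⟨-180, 290, 694598, 1253818⟩

/-- the window of the inner variable: `er` -/
def m_er : BB := ⟨3250, 5120, -1060, -670, 75323, -997159, 891005, 453994, 2320882, 3788745⟩
/-- the window of the difference: `er` -/
def s_er : TB := ⟨-310, 290, 694598, 1476326⟩

/-- ends: the inner variable is `exp (2 π i m) = 1 / (1 - 4 κ)` -/
def em : Ev := (.sub (.sc 1 Ev.one) (.nm 4 .q) rfl)
def gE (H : List QC) : Grp := ⟨.sc 1 Ev.one, em, (rfl : 1 = 1), H⟩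

/-- the root cell at ends -/
def rootE : Cell := ⟨1048576, 1048576, 1048576, 1048576, 1032192, 1064960, 1032192, 1064960⟩

/-- the box -/
def m_E : BB := ⟨3010, 4215, -450, 590, -473477, -880806, 949095, 314990, 476440, 1760303⟩

/-- own values at an end -/
def h3ea : List QC :=
  [⟨-141024, 448868, 0, 0⟩, ⟨333144, -373417, 0, 0⟩, ⟨0, 0, -1000000, 161646⟩,
    ⟨0, 0, 1000000, -328748⟩, ⟨-588000, -809000, 0, -493908⟩, ⟨995000, -105000, 0, 326792⟩,
    ⟨-682000, 731000, 0, -203974⟩, ⟨309000, 951000, 0, 255452⟩, ⟨966000, 259000, 0, 399254⟩,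
    ⟨-656000, -755000, 0, -512115⟩, ⟨-559000, -829000, 0, -487055⟩, ⟨52000, -999000, -1280703, 0⟩]

/-- own values at an end -/
def h3es : List QC :=
  [⟨-140400, 482804, 0, 0⟩, ⟨254436, -455477, 0, 0⟩, ⟨0, 0, -1000000, 224790⟩,
    ⟨0, 0, 1000000, -321722⟩, ⟨-616000, -788000, 0, -481804⟩, ⟨-574000, -819000, -1791816, 0⟩,
    ⟨-695000, 719000, 0, -234602⟩, ⟨766000, 643000, 0, 450683⟩, ⟨-276000, -961000, -1394822, 0⟩,
    ⟨839000, 545000, 0, 466813⟩]

end

end Pool.Agent.Work.MP_b30479_gt.G2.CN.M3
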