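import Pool.Agent.Work.MP_b30479_gt.G2.CN.M3Eq
import Pool.Agent.Work.MP_b30479_gt.G2.CN.HPoly
import Pool.Agent.Work.MP_b30479_gt.G2.CN.M3Dat
import Pool.Agent.Work.MP_b30479_gt.G2.SWordK

/-!
# Inner variables of regions with three crossings: the groups
-/

namespace Pool.Agent.Work.MP_b30479_gt.G2.CN.M3

open Complex SR

/-! ### values of the expressions -/

section vals
variable (u w : ℂ)

lemma v_y1 : y1.val u w = 1 - u := by
  change Ev.one.val u w - u = _
  rw [Ev.val_one]

lemma v_ky : ky.val u w = 4 * (w * u) := by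
  change ((4 : ℕ) : ℂ) * (w * u) = _
  push_cast
  ring

lemma v_den : den.val u w = 4 * w * u + (1 - u) ^ 2 := by
  change ky.val u w + y1.val u w ^ 2 = _
  rw [v_ky, v_y1]
  ring

lemma v_yk : yk.val u w = 1 - u + 4 * w * u := by
  change y1.val u w + ky.val u w = _
  rw [v_ky, v_y1]
  ring

lemma v_vm : vm.val u w = 2 - 4 * w - u := by
  change gz 2 0 0 0 - ((4 : ℕ) : ℂ) * w - u = _
  rw [gz_nat]
  push_cast
  ring

lemma gz_neg (a : ℕ) : gz 0 a 0 0 = -a := by
  unfold gz
  apply Complex.ext <;> simp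

lemma v_laN : laN.val u w = -4 * (w * u) ^ 2 := by
  change gz 0 4 0 0 * (w * u) ^ 2 = _
  rw [gz_neg]
  push_cast
  ring

lemma v_raN : raN.val u w = -(w * (1 - u - 4 * w) ^ 2) := by
  change gz 0 1 0 0 * (w * (y1.val u w - ((4 : ℕ) : ℂ) * w) ^ 2) = _
  rw [gz_neg, v_y1]
  push_cast
  ring

lemma v_lsN : lsN.val u w = -(w * (1 - u + 4 * w * u) ^ 2) := by
  change gz 0 1 0 0 * (w * yk.val u w ^ 2) = _
  rw [gz_neg, v_yk]
  push_cast
  ring

lemma v_rsN : rsN.val u w = -4 * (w * (2 - 4 * w - u)) ^ 2 := by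
  change gz 0 4 0 0 * (w * vm.val u w) ^ 2 = _
  rw [gz_neg, v_vm]
  push_cast
  ring

lemma v_yy : yy.val u w = u * (1 - u) := by
  change u * y1.val u w = _
  rw [v_y1]

lemma v_ym : ym.val u w = u * (2 - 4 * w - u) := by
  change u * vm.val u w = _
  rw [v_vm]

lemma v_em : em.val u w = 1 - 4 * w := by
  change Ev.one.val u w - ((4 : ℕ) : ℂ) * w = _
  rw [Ev.val_one]
  push_cast
  ring

end vals

/-! ### classes of sides -/

/-- sides: opposite sign, digit `1`; split; digit `2` or `3`; end with two crossings; digit at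
least `4` -/
inductive C5
  | u | s | o | e | r

namespace C5

/-- the side of kind `x` with the ring `(d, l)` behind it is in the class -/
def Fits (x : SK) (d : ℕ) (l : SK) : C5 → Prop
  | .u => x = .a ∧ d = 1
  | .s => x = .s
  | .o => x = .a ∧ ((d = 2 ∧ l ≠ .e) ∨ d = 3)
  | .e => x = .a ∧ d = 2 ∧ l = .e
  | .r => x = .a ∧ 4 ≤ d

/-- the box of the word hinge -/
noncomputable def box : C5 → IB
  | .u => bOne
  | .s => bOne
  | .o => bOth
  | .e => bTwoE
  | .r => bRing

/-- the neighbour, on the left -/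
noncomputable def gL : C5 → Grp
  | .u => gLa (mirH hU)
  | .s => gLs hS
  | .o => gLa (mirH hO)
  | .e => gLa (mirH hE)
  | .r => gLa (mirH hR)

/-- the neighbour, on the right -/
noncomputable def gR : C5 → Grp
  | .u => gRa (mirH hU)
  | .s => gRs hS
  | .o => gRa (mirH hO)
  | .e => gRa (mirH hE)
  | .r => gRa (mirH hR)

/-- own value -/
noncomputable def ow : C5 → C5 → List QC
  | .s, .s => h5
  | .s, _ => h4
  | _, .s => h4
  | _, _ => h3

theorem box_ok (c : C5) : c.box.ok = true := by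
  cases c <;> decide +kernel

end C5

theorem h3_ok : okH h3 (pg 3 .a .a) = true := by decide +kernel
theorem h4_ok : okH h4 (pg 4 .a .s) = true := by decide +kernel
theorem h5_ok : okH h5 (pg 5 .s .s) = true := by decide +kernel
theorem hU_ok : okH hU (pg 2 .s .a) = true := by decide +kernel
theorem hE_ok : okH hE (pg 2 .e .a) = true := by decide +kernel

/-- lower bounds of the number of crossings -/
def sS : SK → ℕ | .e => 3 | .a => 2 | .z => 9 | .s => 3
/-- upper bounds of the number of crossings -/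
def tS : SK → ℕ | .e => 3 | .a => 3 | .z => 0 | .s => 4
/-- lower bounds of the number of crossings -/
def sR : SK → ℕ | .e => 4 | .a => 4 | .z => 4 | .s => 5

theorem hS_ok : chkU hS .s sS tS = true := by decide +kernel
theorem hO_ok : chkU hO .a sS tS = true := by decide +kernel
theorem hR_ok : chkU hR .a sR (fun _ => 8) = true := by decide +kernel

/-! ### the equations of a ring with three crossings -/

lemma acot2_I : acot2 I = 1 / 2 := by
  unfold acot2 Complex.arctan
  have h1 : 1 + I * I = 0 := by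
    rw [Complex.I_mul_I]
    norm_num
  rw [h1, zero_div, Complex.log_zero]
  simp

lemma ne_of_half {z : ℂ} (h : (acot2 z).re < 1 / 2) : z ≠ I ∧ z ≠ -I := by
  constructor
  · rintro rfl
    rw [acot2_I] at h
    norm_num at h
  · rintro rfl
    rw [acot2_neg_I] at h
    norm_num at h

section
variable {K : KFam} {l r : SK} {dl : ℕ} {ll : SK} {dr : ℕ} {rr : SK} {w kl kr : ℂ}

theorem tri_of (h : RDt K 3 l r dl ll dr rr w kl kr)
    (hu : (yH l (RR w kl) (Complex.cos w)).re < 1 / 2)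
    (hv : (yH r (RR w kr) (Complex.cos w)).re < 1 / 2) :
    Tri (Hq l (RR w kl) (Complex.cos w)) (Hq r (RR w kr) (Complex.cos w))
      (Sp (Hq l (RR w kl) (Complex.cos w)) (Complex.cos w)) (1 / Complex.cos w ^ 2)
      (Complex.cos w ^ 2) := by
  have hc := h.cos_ne
  have hτ : Complex.tan w ≠ 0 := by
    intro h0
    have := h.tan_re
    rw [h0] at this
    simp at this
  have u1 : Hq l (RR w kl) (Complex.cos w) + I ≠ 0 := fun h0 =>
    (ne_of_half hu).2 (by linear_combination h0)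
  have v1 : Hq r (RR w kr) (Complex.cos w) + I ≠ 0 := fun h0 =>
    (ne_of_half hv).2 (by linear_combination h0)
  have h3 := RE_three Complex.I_mul_I u1 hτ h.reH
  rw [Rs_Sp hc, one_add_tan_sq hc] at h3
  exact ⟨one_div_mul_cancel (pow_ne_zero 2 hc), h3.1, h3.2, u1, v1⟩

end

/-- exponentials -/
structure Exps (U V M κ : ℂ) : Prop where
  eu : cexp (2 * Real.pi * I * acot2 U) * (1 - yv M + 4 * κ * yv M) = 1 - yv M
  ev : cexp (2 * Real.pi * I * acot2 V) * (2 - 4 * κ - yv M) = 1
  em : cexp (2 * Real.pi * I * acot2 M) * yv M = 1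

theorem exps_of {U V M q κ : ℂ} (h : Tri U V M q κ) (hu : (acot2 U).re < 1 / 2)
    (hv : (acot2 V).re < 1 / 2) : Exps U V M κ := by
  obtain ⟨u1, u2⟩ := ne_of_half hu
  obtain ⟨v1, v2⟩ := ne_of_half hv
  have m2 : M ≠ -I := fun h0 => h.m1 (by rw [h0]; ring)
  have m1 : M ≠ I := by
    intro h0
    have := h.um
    rw [h0, sub_self, zero_mul] at this
    exact h.q0 this.symm
  have eu := exp_acot2 u1 u2
  have ev := exp_acot2 v1 v2
  have em := exp_acot2 m1 m2
  refine ⟨?_, ?_, ?_⟩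
  · apply mul_right_cancel₀ h.u1
    linear_combination (cexp (2 * Real.pi * I * acot2 U)) * h.eU + (1 - yv M) * eu
  · apply mul_right_cancel₀ h.v1
    linear_combination (cexp (2 * Real.pi * I * acot2 V)) * h.eV + ev
  · apply mul_right_cancel₀ h.m1
    linear_combination (cexp (2 * Real.pi * I * acot2 M)) * h.hy + em

/-! ### the groups -/

section grp
variable {U V M q κ : ℂ}

lemma gO_ok {H : List QC} {u w : ℂ} (h : Sat H w) : (gO H).Ok u w := by
  refine ⟨w, ?_, h⟩
  change w * Ev.one.val u w = w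
  rw [Ev.val_one, mul_one]

lemma gU_ok {H : List QC} (hE : Exps U V M κ) (h : Sat H (cexp (2 * Real.pi * I * acot2 U))) :
    (gU H).Ok (yv M) κ := by
  refine ⟨_, ?_, h⟩
  change _ * yk.val (yv M) κ = y1.val (yv M) κ
  rw [v_yk, v_y1]
  exact hE.eu

lemma gW_ok {H : List QC} (hE : Exps U V M κ) (h : Sat H (cexp (2 * Real.pi * I * acot2 V))) :
    (gW H).Ok (yv M) κ := by
  refine ⟨_, ?_, h⟩
  change _ * vm.val (yv M) κ = Ev.one.val (yv M) κ
  rw [v_vm, Ev.val_one]
  exact hE.ev

lemma gLa_ok {H : List QC} {c : ℂ} (h : Sat H c)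
    (e : c * (4 * κ * yv M + (1 - yv M) ^ 2) = -4 * (κ * yv M) ^ 2) : (gLa H).Ok (yv M) κ := by
  refine ⟨c, ?_, h⟩
  change c * den.val (yv M) κ = laN.val (yv M) κ
  rw [v_den, v_laN]
  exact e

lemma gLs_ok {H : List QC} {c : ℂ} (h : Sat H c) (e : c * (4 * κ * yv M + (1 - yv M) ^ 2) =
      -(κ * (1 - yv M + 4 * κ * yv M) ^ 2)) : (gLs H).Ok (yv M) κ := by
  refine ⟨c, ?_, h⟩
  change c * den.val (yv M) κ = lsN.val (yv M) κ
  rw [v_den, v_lsN]
  exact e

lemma gRa_ok {H : List QC} {c : ℂ} (h : Sat H c)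
    (e : c * (4 * κ * yv M + (1 - yv M) ^ 2) = -(κ * (1 - yv M - 4 * κ) ^ 2)) :
    (gRa H).Ok (yv M) κ := by
  refine ⟨c, ?_, h⟩
  change c * den.val (yv M) κ = raN.val (yv M) κ
  rw [v_den, v_raN]
  exact e

lemma gRs_ok {H : List QC} {c : ℂ} (h : Sat H c)
    (e : c * (4 * κ * yv M + (1 - yv M) ^ 2) = -4 * (κ * (2 - 4 * κ - yv M)) ^ 2) :
    (gRs H).Ok (yv M) κ := by
  refine ⟨c, ?_, h⟩
  change c * den.val (yv M) κ = rsN.val (yv M) κ
  rw [v_den, v_rsN]
  exact e

end grp

/-! ### the tables -/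

namespace C5

/-- windows of the inner variable -/
noncomputable def mB (c c' : C5) : BB :=
  match c, c' with
  | .u, .u => m_11
  | .u, .s => m_11
  | .u, .o => m_1o
  | .u, .e => m_1e
  | .u, .r => m_1r
  | .s, .u => m_11
  | .s, .s => m_11
  | .s, .o => m_1o
  | .s, .e => m_1e
  | .s, .r => m_1r
  | .o, .u => m_o1
  | .o, .s => m_o1
  | .o, .o => m_oo
  | .o, .e => m_oe
  | .o, .r => m_or
  | .e, .u => m_e1
  | .e, .s => m_e1
  | .e, .o => m_eo
  | .e, .e => m_ee
  | .e, .r => m_er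
  | .r, .u => m_o1
  | .r, .s => m_o1
  | .r, .o => m_oo
  | .r, .e => m_oe
  | .r, .r => m_or

/-- windows of the difference -/
noncomputable def dB (c c' : C5) : TB :=
  match c, c' with
  | .u, .u => s_11
  | .u, .s => s_11
  | .u, .o => s_1o
  | .u, .e => s_1e
  | .u, .r => s_1r
  | .s, .u => s_11
  | .s, .s => s_11
  | .s, .o => s_1o
  | .s, .e => s_1e
  | .s, .r => s_1r
  | .o, .u => s_o1
  | .o, .s => s_o1
  | .o, .o => s_oo
  | .o, .e => s_oe
  | .o, .r => s_or
  | .e, .u => s_e1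
  | .e, .s => s_e1
  | .e, .o => s_eo
  | .e, .e => s_ee
  | .e, .r => s_er
  | .r, .u => s_o1
  | .r, .s => s_o1
  | .r, .o => s_oo
  | .r, .e => s_oe
  | .r, .r => s_or

/-- the additional goal -/
noncomputable def ex : C5 → List Grp
  | .e => [gSm hSm]
  | _ => []

end C5

end Pool.Agent.Work.MP_b30479_gt.G2.CN.M3
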