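import Pool.Agent.Work.MP_b30479_gt.G2.WLocG
import Pool.Agent.Work.MP_b30479_gt.G2.CN.LocRU
import Pool.Agent.Work.MP_b30479_gt.G2.CN.M3Fit

/-!
# The hinges between a digit `3` and a ring
-/

namespace Pool.Agent.Work.MP_b30479_gt.G2.CN.TD

open Complex SR
open scoped ComplexConjugate

noncomputable section

lemma OR.z {x : SK} {d B : ℕ} : OR x d B .z (tD x B PZ) := fun hK _ _ _ _ hT hq h =>
  tD_all hT hq (portZ hK) h

lemma OR.s3 {x : SK} {d B : ℕ} (hd : 3 ≤ d) : OR x d B .s (tD x B PS3) :=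
  fun hK _ _ _ _ hT hq h => tD_all hT hq (portS3 hK hd) h

section
variable {K : KFam} (hK : KOK K)
include hK

/-- in the frame of the ring -/
theorem three_j {d : ℕ} {l l' : SK} {w R k' : ℂ} (t : TDt K .a d l 3 l' w R k') (h4 : 4 ≤ d)
    (hl' : l' ≠ .e) : (yH .a R (Complex.cos w)).im ≤ 0 ∨ (d = 4 ∧ l = .z) := by
  rcases three_t hK t h4 hl' with h | ⟨hd, h | ⟨h1, h2⟩, -⟩
  · exact Or.inl h
  · exact Or.inr ⟨hd, h⟩
  · left
    subst hd h1 h2
    obtain ⟨ry, -, -⟩ := tuse hK t rfl rfl x3_as mn (hK.inH t.h.ok.left k4aa_ok)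
      (hK.inH t.h.ok.right.symm k4as_ok) OL.a (OR.s3 le_rfl)
    have g : _ ≤ ((0 : ℤ) : ℝ) / 10000 := ry _ m0
    norm_num at g
    linarith only [g]

/-- the windows of the exception, in the frame of the ring -/
theorem three_x {w R k' : ℂ} (t : TDt K .a 4 .z 3 .s w R k')
    (rg : Rg (yH .a R (Complex.cos w)) (zeta w)) (h : 0 ≤ (yH .a R (Complex.cos w)).im) :
    212 / 1000 ≤ (yH .a R (Complex.cos w)).re ∧ (yH .a R (Complex.cos w)).re ≤ 217 / 1000 ∧
      201 / 1000 ≤ -(zeta w).re ∧ -(zeta w).re ≤ 206 / 1000 ∧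
      84 / 1000 ≤ (zeta w).im ∧ (zeta w).im ≤ 895 / 10000 ∧
      4165 / 10000 ≤ (yH .a R (Complex.cos w)).re - (zeta w).re ∧
      (yH .a R (Complex.cos w)).re - (zeta w).re ≤ 4205 / 10000 := by
  obtain ⟨hy, hz, hu⟩ := tuse hK t rfl rfl x3_zs (ui_lo (by norm_num; linarith only [h]))
    (hK.inH t.h.ok.left k4az_ok) (hK.inH t.h.ok.right.symm k4as_ok) OL.z (OR.s3 le_rfl)
  have ya := arc_lb (hy _ List.mem_cons_self) (by simpa using rg.y0)
  have yb := arc_ub (hy _ (List.mem_cons_of_mem _ List.mem_cons_self)) (by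
    norm_num; linarith only [rg, rg.y1])
  have za := arc_lb (hz _ List.mem_cons_self) (by simpa using rg.z0)
  have zb := arc_ub (hz _ (List.mem_cons_of_mem _ List.mem_cons_self)) (by
    rw [Complex.neg_re]; norm_num; linarith only [rg, rg.z1])
  have zc : ((-895 : ℤ) : ℝ) / 10000 ≤ (-zeta w).im :=
    hz _ (List.mem_cons_of_mem _ (List.mem_cons_of_mem _ List.mem_cons_self))
  have zd : (-zeta w).im ≤ ((-840 : ℤ) : ℝ) / 10000 :=
    hz _ (List.mem_cons_of_mem _ (List.mem_cons_of_mem _ (List.mem_cons_of_mem _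
      List.mem_cons_self)))
  have ub := arc_ub (hu _ List.mem_cons_self) (by
    rw [Complex.sub_re]; norm_num; linarith only [yb, rg, rg.z1, rg.y1])
  have ua := arc_lb (hu _ (List.mem_cons_of_mem _ List.mem_cons_self)) (by
    rw [Complex.sub_re]; norm_num; linarith only [ya, rg, rg.z0, rg.y0])
  rw [Complex.neg_re] at za zb
  rw [Complex.neg_im] at zc zd
  rw [Complex.sub_re] at ub ua
  norm_num at ya yb za zb zc zd ub ua
  norm_num
  refine ⟨?_, ?_, ?_, ?_, ?_, ?_, ?_, ?_⟩ <;> linarith only [ya, yb, za, zb, zd, zc, ua, ub]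

variable {l' : SK} {dl : ℕ} {ll : SK} {w kl kr : ℂ}

/-- a row in the frame of the digit `3` -/
lemma three_row (t : RDt K 3 l' .a dl ll 4 .z w kl kr) {B : ℕ} (hB : crs 3 l' .a = B)
    {o H : List QC} {m c : ℤ} {n code : ℕ}
    (hr : trowOk .a [] o (tA B H) k4az (tD .a 4 PZ) [.lo m c] [] [] n code = true)
    (ho : InH (K.K 3 l' .a) o) (hH : InH {kl} H) :
    (m : ℝ) / 10000 ≤ (yH .a (RR w kr) (Complex.cos w)).im := by
  subst hB
  have T : TDt K .a 3 l' 4 .z w (RR w kr) kr :=
    ⟨t.right, t.w0, t.w1, fun h => absurd h (by decide)⟩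
  obtain ⟨ry, -, -⟩ := trow hK T hr mn (ho _ T.h.mem) (hK.inH t.right.ok.right.symm k4az_ok)
    (fun {q q'} hT hq e1 e2 => tA_all hT hq hH (by
      rw [e1, e2]
      exact out_left t))
    (fun {q q'} hT hq h => OR.z hK hT hq h)
  exact ry _ m0

/-- in the frame of the digit `3` -/
theorem three_i (t : RDt K 3 l' .a dl ll 4 .z w kl kr) (hl' : l' ≠ .e) :
    0 ≤ (yH .a (RR w kr) (Complex.cos w)).im ∨
      (l' = .s ∧ dl = 2 ∧ ll ≠ .e ∧ -(7 / 10000) ≤ (yH .a (RR w kr) (Complex.cos w)).im) := by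
  have h1 := t.left.ok.right.symm
  have ho := t.right.ok.left
  have hpos := h1.pos
  have kA : ∀ {H : List QC}, InH (K.K dl ll .a) H → l' = .a → InH {kl} (mirH H) := by
    intro H hH h2 k hk
    subst h2
    rw [Set.mem_singleton_iff] at hk
    subst hk
    exact hH.mir _ (by rw [K.symm]; exact t.left.mem')
  have kS : ∀ {H : List QC}, InH (K.K dl ll .s) H → l' = .s → InH {kl} H := by
    intro H hH h2 k hk
    subst h2
    rw [Set.mem_singleton_iff] at hk
    subst hk
    have h3 := t.left.mem'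
    rw [K.symm] at h3
    have e : frS SK.s.sgn (K.K dl ll .s) = K.K dl ll .s := frS_one _
    rw [e] at h3
    exact hH _ h3
  cases l'
  · exact absurd rfl hl'
  · left
    by_cases hd : dl = 1
    · subst hd
      have hs := far_s t.left.ok.right
      subst hs
      have g := three_row hK t rfl y3_a1 (hK.inH ho k3aa_ok) (kA (hK.inH h1 k2as_ok) rfl)
      norm_num at g
      exact g
    · have hP : InH (K.K dl ll .a) PA1 := fun k hk =>
        (portA1 hK (d₀ := 1) le_rfl) k ⟨dl, ll, h1, Or.inr (by omega), hk⟩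
      have g := three_row hK t rfl y3_aa (hK.inH ho k3aa_ok) (kA hP rfl)
      norm_num at g
      exact g
  · exact absurd (t.right.ok.left.zl rfl) (by decide)
  · have hd : dl = 1 ∨ dl = 2 := by
      have h5 := t.left.ok.one rfl
      omega
    have hz : ll ≠ .z := fun h5 => by
      have := h1.zl h5
      omega
    rcases hd with rfl | rfl
    · left
      cases ll
      · exact absurd rfl (h1.one rfl).2.1
      · have g := three_row hK t rfl y3_s1a (hK.inH ho k4as_ok) (kS (hK.inH h1 k2as_ok) rfl)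
        norm_num at g
        exact g
      · exact absurd rfl hz
      · have g := three_row hK t rfl y3_s1s (hK.inH ho k4as_ok) (kS (hK.inH h1 k3ss_ok) rfl)
        norm_num at g
        exact g
    · cases ll
      · left
        have g := three_row hK t rfl y3_s2e (hK.inH ho k4as_ok) (kS (hK.inH h1 k3es_ok) rfl)
        norm_num at g
        exact g
      · refine Or.inr ⟨rfl, rfl, by decide, ?_⟩
        have g := three_row hK t rfl y3_s2a (hK.inH ho k4as_ok) (kS (hK.inH h1 k3as_ok) rfl)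
        norm_num at g
        linarith only [g]
      · exact absurd rfl hz
      · refine Or.inr ⟨rfl, rfl, by decide, ?_⟩
        have g := three_row hK t rfl y3_s2s (hK.inH ho k4as_ok) (kS (hK.inH h1 k4ss_ok) rfl)
        norm_num at g
        linarith only [g]

end

section
variable {M : ℕ} {b : Fin (M + 1) → ℤ} {w : ℕ → ℂ}

lemma three_end {i : Fin (M + 1)} (hc : clsW b i = .three) : isEnd i = false := by
  unfold clsW cls at hc
  split_ifs at hc with h1 h2 h3 h4 h5
  rw [Bool.not_eq_true] at h5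
  exact h5

variable (hb : ClassW b) (F : RingFacts) (hw : Sol b w) (hM : 1 ≤ M) {K : KFam} (hK : KOK K)
  (hS : Snd K b w) (Bx : BoxRows K)
include hb F hw hM hK hS Bx

/-- **The hinges between a digit `3` and a ring of a word.** -/
theorem loc3_of : Loc3 b (zsW b w) := by
  have hL := loc_of_boxes hb F hw hM hS Bx
  constructor
  intro h i j p A hc hj
  have h4 := ring_nat hb F hw hM hK hS Bx hj
  have h3 := three_nat hc
  have hop : b j * b i < 0 := A.symm.opp hb (Or.inr (by rw [hc]; decide))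
  have hui : us b i.val = false := us_of_abs (by omega)
  have huj : us b j.val = false := us_of_abs (by omega)
  have hci : ∀ {x d' l'}, clsW b i = nC x d' l' → x ≠ .s → l' ≠ .e := by
    intro x d' l' e hxs
    unfold nC at e
    rw [if_neg hxs, hc] at e
    exact cK_three e
  rcases le_or_gt 0 (ofs (b i) (zsW b w (.inl (.inl h))).im) with h0 | h0
  · exact Or.inl h0
  have e0 := ofs_opp hop (zsW b w (.inl (.inl h)))
  rcases Bool.eq_false_or_eq_true (isEnd j) with hend | hend
  · obtain ⟨x, l, d', l', R, k', t, hy, he, hc', hx', hB⟩ := ring_view hb F hw hS Bx A.symm h4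
    have hle := he.2 hend
    subst hle
    rcases hx' with ⟨-, hu⟩ | ⟨-, hd, hxx⟩
    · rw [hui] at hu
      exact absurd hu (by decide)
    · rw [if_neg (by omega)] at hxx
      rw [h3] at hd
      subst hxx hd
      left
      rcases three_j hK t h4 (hci hc' (by decide)) with h5 | ⟨-, h5⟩
      · rw [e0, hy]
        linarith only [h5]
      · exact absurd h5 (by decide)
  -- the side of the ring
  obtain ⟨g, k, A2⟩ := adj_other A.symm hend
  have A2' : Adj g j p k := adj_rev A2
  obtain ⟨lj, xj, dlj, llj, drj, rrj, klj, krj, hEj, yj1, yj2, sj1, sj2⟩ :=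
    pair_sd hb F hw hS A2' A.symm huj
  obtain ⟨hdj, hxj⟩ := sj2.u hui
  rw [if_neg (by omega)] at hxj
  rw [h3] at hdj
  subst hxj hdj
  have hrj := hci sj2.cls (by decide)
  rcases three_j hK (RDt.tdt Bx hEj) h4 hrj with h5 | ⟨hd4, hlz⟩
  · left
    rw [e0, yj2]
    linarith only [h5]
  subst hlz
  have hbx := box_cls Bx hEj.right (by omega) sj2.cls
  have huk : us b k.val = false := by
    rcases Bool.eq_false_or_eq_true (us b k.val) with h6 | h6
    · exact absurd (sj1.s h6) (by decide)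
    · exact h6
  have hjk : 0 < b j * b k := by
    by_contra h6
    have h7 := (sj1.u huk).2
    rw [if_neg h6] at h7
    exact absurd h7 (by decide)
  have hk : clsW b k = .ring := by
    rw [sj1.cls]
    unfold nC
    rw [if_neg (by decide), cK_ring (hEj.left.ok.right.zl rfl)]
  -- the side of the digit 3
  obtain ⟨g3, k3, A3⟩ := adj_other A (three_end hc)
  have A' : Adj h i p.rev.rev j := by rwa [Fin.rev_rev]
  obtain ⟨l3, x3, dl, ll, dr, rr, kl, kr, hE, y1, y2, s1, s2⟩ := pair_sd hb F hw hS A3 A' hui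
  obtain ⟨hd3, hx3⟩ := s2.u huj
  have hop' : b i * b j < 0 := by rw [mul_comm]; exact hop
  rw [if_neg (by omega)] at hx3
  rw [hd4] at hd3
  have hrr : rr = .z := by
    have h6 := (s2.kd A2 huj).2 huk
    rwa [if_pos hjk] at h6
  subst hx3 hd3 hrr
  rw [h3] at hE
  have e1 : ofs (b i) (zsW b w (.inl (.inl h))).im =
      (yH .a (RR (oW b w i.val) kr) (Complex.cos (oW b w i.val))).im := by
    rw [← ofr_im, y2]
  rcases three_i hK hE hE.left.ok.ne with h6 | ⟨hl3, hdl, hll, h6⟩
  · left
    rw [e1]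
    exact h6
  subst hl3 hdl
  have hu3 : us b k3.val = true := by
    rcases Bool.eq_false_or_eq_true (us b k3.val) with h7 | h7
    · exact h7
    · have h8 := (s1.u h7).2
      split_ifs at h8
  have hrs : rrj = .s := (sj2.kd A3 hui).1 hu3
  subst hrs
  rw [hd4] at hEj
  have hx : 0 ≤ (yH .a (RR (oW b w j.val) krj) (Complex.cos (oW b w j.val))).im := by
    rw [← yj2]
    linarith only [h0, e0]
  have he : SK.a = .e ↔ isEnd j = true :=
    ⟨fun h5 => absurd h5 (by decide), fun h5 => by rw [hend] at h5; exact absurd h5 (by decide)⟩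
  have key : ∀ v : ZZ (tyW b), v.1 = j → _ := fun v hv =>
    three_x hK (RDt.tdt Bx hEj) (by
      subst hv
      have z0 := zb_rg (by omega) (zb_of hL v he)
      have y0 := hb_rg hbx
      exact ⟨y0.1, y0.2, z0.1, z0.2⟩) hx
  have hv0 : (tyW b j).isRing = true := by
    rw [tyW_of_ring hb hj]
    rfl
  obtain ⟨x0, x1, -⟩ := key ⟨j, hv0⟩ rfl
  have ex : (zsW b w (.inl (.inl h))).re =
      (yH .a (RR (oW b w j.val) krj) (Complex.cos (oW b w j.val))).re := by
    rw [← yj2, ofr_re]
  have uq : ∀ {h' : Fin M} {k' : Fin (M + 1)}, Adj h' i p.rev k' → k' = k3 := by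
    intro h' k' B
    apply Fin.ext
    rcases A3.elim with ⟨a0, a1, a2⟩ | ⟨a0, a1, a2⟩
    · rcases B.elim with ⟨-, a3, a4⟩ | ⟨b0, -⟩
      · omega
      · rw [a0] at b0
        exact absurd b0 (by decide)
    · rcases B.elim with ⟨b0, -⟩ | ⟨-, a3, a4⟩
      · rw [a0] at b0
        exact absurd b0 (by decide)
      · omega
  right
  refine ⟨by rw [e1]; exact h6, hd4, ⟨g, k, A2', hk, hjk⟩, ?_, ?_, by rw [ex]; exact x0,
    by rw [ex]; exact x1, ?_, ?_, ?_, ?_, ?_, ?_⟩
  · intro h' k' B
    rw [uq B, s1.cls]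
    rfl
  · intro h' g' k' m B B'
    have hk' := uq B
    subst hk'
    rw [(s1.far B' hu3).2]
    exact cK_c2 hll
  · intro v hv
    have := (key v hv).2.2.1
    subst hv
    rw [ofz_own]
    exact this
  · intro v hv
    have := (key v hv).2.2.2.1
    subst hv
    rw [ofz_own]
    exact this
  · intro v hv
    have := (key v hv).2.2.2.2.1
    subst hv
    rw [← ofz_im (b v.1), ofz_own]
    exact this
  · intro v hv
    have := (key v hv).2.2.2.2.2.1
    subst hv
    rw [← ofz_im (b v.1), ofz_own]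
    exact this
  · intro v hv
    have := (key v hv).2.2.2.2.2.2.1
    subst hv
    rw [ofz_own, ex]
    exact this
  · intro v hv
    have := (key v hv).2.2.2.2.2.2.2
    subst hv
    rw [ofz_own, ex]
    exact this

end

end

end Pool.Agent.Work.MP_b30479_gt.G2.CN.TD
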