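import Pool.Agent.Work.MP_b30479_gt.G2.CN.LocZ

/-!
# The height of a hinge between two rings
-/

namespace Pool.Agent.Work.MP_b30479_gt.G2.CN.LA

open Complex SR
open scoped ComplexConjugate

variable {M : ℕ} {b : Fin (M + 1) → ℤ} {w : ℕ → ℂ}

/-- **The height of a hinge between two rings** (field `rr` of `SR.LocR`) -/
theorem rr_of (hb : ClassW b) (F : RingFacts) (hw : Sol b w) {K : KFam} (hK : KOK K)
    (hS : Snd K b w) (Bx : BoxRows K) {h : Fin M} {i j : Fin (M + 1)} {p : Fin 3}
    (A : Adj h i p j) (hi : clsW b i = .ring) (hj : clsW b j = .ring) :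
    ofs (b i) (zsW b w (.inl (.inl h))).im ≤ 56 / 1000 ∧
      (5 ≤ (b i).natAbs → ofs (b i) (zsW b w (.inl (.inl h))).im ≤ 465 / 10000) := by
  have h4 := ring_four hb (tyW_of_ring hb hi)
  obtain ⟨x, l, d', l', R, k', hH, hy, -, hc, hx⟩ :=
    A.side_view hb F hw hS (us_of_abs (by omega))
  rw [← ofr_im, hy]
  have hB := Bx.box hH
  have hs : x ≠ .s := by
    rintro rfl
    rw [hj] at hc
    exact absurd hc (by unfold nC; rw [if_pos rfl]; decide)
  have hB' : (hbox .ring .ring (decide (x = .z))).In (yH x R (Complex.cos (oW b w i.val))) := by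
    unfold kbox at hB
    rw [if_neg hs, cK_ring h4] at hB
    unfold nC at hc
    rw [if_neg hs, hj] at hc
    rwa [← hc] at hB
  have hxx : x = .a ∨ x = .z := by
    rcases hx with ⟨h1, -⟩ | ⟨-, -, h1⟩
    · exact absurd h1 hs
    · rw [h1]
      split_ifs
      · exact Or.inr rfl
      · exact Or.inl rfl
  rcases hxx with rfl | rfl
  · rw [show decide (SK.a = SK.z) = false from rfl] at hB'
    obtain ⟨-, -, -, h1⟩ := hB'
    norm_num [hbox] at h1
    exact ⟨by linarith, fun _ => by linarith⟩
  · have e : yH .z R (Complex.cos (oW b w i.val)) = acot2 R := yH_ne (by decide) _ _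
    rw [e]
    generalize (b i).natAbs = d at hH h4
    rcases h4.eq_or_lt with h5 | h5
    · subst h5
      have := z44 hK hH
      exact ⟨this.2.1, fun h6 => absurd h6 (by norm_num)⟩
    · have key : (acot2 R).im ≤ 465 / 10000 := by
        have hd4 : 4 ≤ d' := hH.ok.right.zl rfl
        rcases hd4.eq_or_lt with h6 | h6
        · subst h6
          have hR := hH.rev
          have f : ∀ z, fz SK.z.sgn z = z := fun z => fz_one z
          rw [f, f, f] at hR
          exact (z44 hK hR).2.2 h5
        · exact (z55 hK hH h5 h6).trans (by norm_num)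
      exact ⟨key.trans (by norm_num), fun _ => key⟩

end Pool.Agent.Work.MP_b30479_gt.G2.CN.LA
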