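import Pool.Agent.Work.MP_b30479_gt.G2.CN.M3Dat
import Pool.Agent.Work.MP_b30479_gt.G2.CN.TTabA
import Pool.Agent.Work.MP_b30479_gt.G2.SWordL

/-!
# The windows of the rings of a word
-/

namespace Pool.Agent.Work.MP_b30479_gt.G2.CN.TD

open Complex SR
open scoped ComplexConjugate

noncomputable section

section
variable {M : ℕ} {b : Fin (M + 1) → ℤ} {w : ℕ → ℂ}

/-- the ring variable in the own frame -/
lemma ofz_own (v : ZZ (tyW b)) : ofz (b v.1) (zsW b w (.inr v)) = zeta (oW b w v.1.val) := by
  have h := zeta_own (b := b) (w := w) v.1.val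
  have e : zsW b w (.inr v) = -(sg b v.1.val : ℂ) * w v.1.val / Real.pi := rfl
  rw [e, h]
  have hs : sg b v.1.val = if 0 < b v.1 then 1 else -1 := by
    unfold sg
    rw [bb_val]
  unfold ofz
  by_cases h0 : 0 < b v.1
  · rw [if_pos h0, if_pos (by rw [hs, if_pos h0])]
  · rw [if_neg h0, if_neg (by rw [hs, if_neg h0]; norm_num), map_neg, Complex.conj_conj, neg_neg]

lemma oW_re {n : ℕ} (hw : Sol b w) (hn : n ≤ M) (hu : us b n = false) :
    0 < (oW b w n).re ∧ (oW b w n).re < 3 / 2 := by
  unfold oW
  rw [fz_re]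
  exact ⟨hw.re0 n hn hu, hw.re1 n hn hu⟩

section
variable (hb : ClassW b) (F : RingFacts) (hw : Sol b w) {K : KFam} (hS : Snd K b w)
  (Bx : BoxRows K)
variable {h h' : Fin M} {i j j' : Fin (M + 1)} {p : Fin 3}
include hb F hw hS Bx

/-- one side of a ring -/
theorem ring_view (A : Adj h i p j) (h4 : 4 ≤ (b i).natAbs) :
    ∃ (x l : SK) (d' : ℕ) (l' : SK) (R k' : ℂ),
      TDt K x (b i).natAbs l d' l' (oW b w i.val) R k' ∧
      ofr (b i) (zsW b w (.inl (.inl h))) = yH x R (Complex.cos (oW b w i.val)) ∧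
      (l = .e ↔ isEnd i = true) ∧ clsW b j = nC x d' l' ∧
      ((x = .s ∧ us b j.val = true) ∨ (us b j.val = false ∧ d' = (b j).natAbs ∧
        x = if 0 < b i * b j then .z else .a)) ∧
      (kbox x (b i).natAbs l d' l').In (yH x R (Complex.cos (oW b w i.val))) := by
  have hu : us b i.val = false := us_of_abs (by omega)
  obtain ⟨x, l, d', l', R, k', hH, hy, he, hc, hx⟩ := A.side_view hb F hw hS hu
  have ho := oW_re hw (by have := i.2; omega) hu
  refine ⟨x, l, d', l', R, k', ⟨hH, ho.1, ho.2, fun h => ?_⟩, hy, he, hc, hx, Bx.box hH⟩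
  subst h
  exact (Bx.sp hH).2

/-- an absorbed digit: data and variables on both sides -/
theorem absd_full {m : ℕ} (hu : us b (m + 1) = true) :
    HDt K .s (dg b m) (lk b m) (dg b (m + 2)) (rk b (m + 2)) (RR (oW b w m) (oR b w m))
      (Complex.cos (oW b w m)) (oR b w m) ∧
    oR b w m = Complex.cos (oW b w (m + 2)) ∧
    fz (sg b m) (acot2 (Rh b w m)) =
      acot2 (Sp (RR (oW b w m) (oR b w m)) (Complex.cos (oW b w m))) ∧
    fz (sg b (m + 2)) (acot2 (Rh b w (m + 1))) =
      acot2 (Sp (RR (oW b w m) (oR b w m)) (oR b w m)) := by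
  obtain ⟨h1, h2, h3, h4⟩ := us_true hu
  have h5 := us_lt hb hu
  rw [show m + 1 - 1 = m by omega] at h3
  have hrk : rk b m = .s := rk_s (by omega) hu
  have hrn : rn b m = m + 2 := by
    unfold rn
    rw [if_pos hu]
  have hH := hdt_right hb F hw hS (n := m) (by omega) h3
  rw [hrk, hrn] at hH
  have hsg : sg b m * sg b (m + 2) = 1 := by
    have := sg_rk hb (n := m) (by omega) h3
    rw [hrk, hrn] at this
    exact this
  have hss : sg b (m + 2) = sg b m := by
    rcases sg_or (b := b) m with h | h <;> rcases sg_or (b := b) (m + 2) with h' | h' <;>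
      rw [h, h'] at hsg ⊢ <;> norm_num at hsg
  have e0 := own_y_right F hw (n := m) (by omega) h3
  have e2 := own_y_left hb F hw (n := m + 2) (by omega) (by omega) (by simpa using h4)
  rw [show m + 2 - 1 = m + 1 by omega] at e2
  have hlk : lk b (m + 2) = .s := lk_s (by omega) (by rwa [show m + 2 - 1 = m + 1 by omega])
  have hln : ln b (m + 2) = m := by
    unfold ln
    rw [show m + 2 - 1 = m + 1 by omega, if_pos hu]
    omega
  have eo : oR b w m = fz (sg b m) (Complex.cos (w (m + 2))) := by
    unfold oR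
    rw [hrn]
  have eC : Complex.cos (oW b w (m + 2)) = oR b w m := by
    unfold oW
    rw [hss, ← fz_cos, eo]
  refine ⟨?_, eC.symm, ?_, ?_⟩
  · rw [eo]
    exact hH
  · rw [e0, hrk]
    unfold yH
    rw [Hq_s]
  · rw [e2, hlk]
    have eR : RR (oW b w (m + 2)) (oL b w (m + 2)) = RR (oW b w m) (oR b w m) := by
      unfold oW oL oR
      rw [← fz_R0_left hb F hw (by omega) (by omega) (by simpa using h4), hln, hss,
        fz_R0_right hw (by omega) h3]
    rw [eR, eC]
    unfold yH
    rw [Hq_s]

/-- the ring behind a side of an absorbed digit -/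
theorem absd_ring (A : Adj h i p j) (A' : Adj h' i p.rev j') (hu : us b i.val = true) :
    ∃ (l l' : SK) (R k' : ℂ),
      TDt K .s (b j).natAbs l (b j').natAbs l' (oW b w j.val) R k' ∧
      (acot2 (Sp R k')).re < 1 / 2 ∧
      ofr (b j) (zsW b w (.inl (.inl h))) = yH .s R (Complex.cos (oW b w j.val)) ∧
      ofr (b j') (zsW b w (.inl (.inl h'))) = acot2 (Sp R k') ∧
      clsW b j' = cK (b j').natAbs l' ∧ (l = .e ↔ isEnd j = true) := by
  obtain ⟨m, hm⟩ : ∃ m, i.val = m + 1 := ⟨i.val - 1, by have := (us_true hu).1; omega⟩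
  rw [hm] at hu
  obtain ⟨hH, eC, e1, e2⟩ := absd_full hb F hw hS Bx hu
  obtain ⟨h1, h2, h3, h4⟩ := us_true hu
  rw [show m + 1 - 1 = m by omega] at h3
  rw [show m + 1 + 1 = m + 2 by omega] at h4
  have h5 := us_lt hb hu
  have hR := hH.rev
  have f : ∀ z, fz SK.s.sgn z = z := fun z => fz_one z
  rw [f, f, f] at hR
  have hs1 := (Bx.sp hH).2
  have hs2 := (Bx.sp hR).2
  rcases A.elim with ⟨rfl, a1, a2⟩ | ⟨rfl, a1, a2⟩
  · -- the ring `j` is on the right
    have hj' : i.val = h'.val + 1 ∧ j'.val = h'.val := by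
      rcases A'.elim with ⟨h0, -⟩ | ⟨-, h6⟩
      · exact absurd h0 (by decide)
      · exact h6
    have hj : j.val = m + 2 := by omega
    have hjv' : j'.val = m := by omega
    have hjM := j.2
    have d1 : dg b (m + 2) = (b j).natAbs := by rw [← hj, dg_val]
    have d2 : dg b m = (b j').natAbs := by rw [← hjv', dg_val]
    rw [d1, d2, eC] at hR
    have ho := oW_re hw (by omega : m + 2 ≤ M) h4
    refine ⟨rk b (m + 2), lk b m, RR (oW b w m) (oR b w m), Complex.cos (oW b w m),
      ⟨?_, ?_, ?_, fun _ => ?_⟩, ?_, ?_, ?_, ?_, ?_⟩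
    · rw [hj, eC]
      exact hR
    · rw [hj]
      exact ho.1
    · rw [hj]
      exact ho.2
    · rw [hj, ← eC]
      exact hs2
    · exact hs1
    · rw [ofr_fz, zsW_val h (n := m + 1) (by omega), hj, e2, eC]
      unfold yH
      rw [Hq_s]
    · rw [ofr_fz, zsW_val h' (n := m) (by omega), hjv', e1]
    · rw [← d2, ← hjv']
      refine clsW_eq _ ?_
      constructor
      · intro h6
        left
        by_contra hc
        exact lk_ne_e (by omega) h6
      · rintro (h6 | h6)
        · rw [h6]
          exact lk_e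
        · omega
    · rw [isEnd_iff, hj]
      constructor
      · intro h6
        right
        by_contra hc
        exact rk_ne_e (by omega) h6
      · rintro (h6 | h6)
        · omega
        · exact rk_e (by omega)
  · -- the ring `j` is on the left
    have hj' : i.val = h'.val ∧ j'.val = h'.val + 1 := by
      rcases A'.elim with ⟨-, h6⟩ | ⟨h0, -⟩
      · exact h6
      · exact absurd h0 (by decide)
    have hj : j.val = m := by omega
    have hjv' : j'.val = m + 2 := by omega
    have hjM := j'.2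
    have d1 : dg b m = (b j).natAbs := by rw [← hj, dg_val]
    have d2 : dg b (m + 2) = (b j').natAbs := by rw [← hjv', dg_val]
    rw [d1, d2] at hH
    have ho := oW_re hw (by omega : m ≤ M) h3
    refine ⟨lk b m, rk b (m + 2), RR (oW b w m) (oR b w m), oR b w m,
      ⟨?_, ?_, ?_, fun _ => ?_⟩, ?_, ?_, ?_, ?_, ?_⟩
    · rw [hj]
      exact hH
    · rw [hj]
      exact ho.1
    · rw [hj]
      exact ho.2
    · rw [hj]
      exact hs1
    · exact hs2
    · rw [ofr_fz, zsW_val h (n := m) (by omega), hj, e1]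
      unfold yH
      rw [Hq_s]
    · rw [ofr_fz, zsW_val h' (n := m + 1) (by omega), hjv', e2]
    · rw [← d2, ← hjv']
      refine clsW_eq _ ?_
      constructor
      · intro h6
        right
        by_contra hc
        exact rk_ne_e (by omega) h6
      · rintro (h6 | h6)
        · omega
        · exact rk_e (by omega)
    · rw [isEnd_iff, hj]
      constructor
      · intro h6
        left
        by_contra hc
        exact lk_ne_e (by omega) h6
      · rintro (h6 | h6)
        · rw [h6]
          exact lk_e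
        · omega

end

end

end

end Pool.Agent.Work.MP_b30479_gt.G2.CN.TD
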