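import Pool.Agent.Work.MP_b30479_gt.G2.CN.TLgK
import Pool.Agent.Work.MP_b30479_gt.G2.CN.TLh

/-!
# Pairs of conditions; the conditions for the other hinge, any class
-/

namespace Pool.Agent.Work.MP_b30479_gt.G2.CN.TD

open Complex SR

theorem ak4_one_st : stairK 1530 ak4_one = true := by decide

theorem ak4_two_st : stairK 1520 ak4_two = true := by decide

theorem ak4_twoE_st : stairK 1540 ak4_twoE = true := by decide

theorem ak4_three_st : stairK 1520 ak4_three = true := by decide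

theorem ak4_threeE_st : stairK 1530 ak4_threeE = true := by decide

theorem ak4_ringA_st : stairK 1515 ak4_ringA = true := by decide

theorem ak4_ringZ_st : stairK 1520 ak4_ringZ = true := by decide

theorem ak5_one_st : stairK 1530 ak5_one = true := by decide

theorem ak5_two_st : stairK 1520 ak5_two = true := by decide

theorem ak5_twoE_st : stairK 1530 ak5_twoE = true := by decide

theorem ak5_three_st : stairK 1510 ak5_three = true := by decide

theorem ak5_threeE_st : stairK 1520 ak5_threeE = true := by decide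

theorem ak5_ringA_st : stairK 1510 ak5_ringA = true := by decide

theorem ak5_ringZ_st : stairK 1515 ak5_ringZ = true := by decide

lemma lhA_of {k : Cl} {y : ℂ} (h : (hbox .ring k false).In y) : ∀ g ∈ lhA, g.G y := by
  obtain ⟨a0, a1, a2, a3⟩ := h
  cases k <;> norm_num [hbox] at a0 a1 a2 a3 <;>
    exact li_box (by norm_num; linarith only [a0]) (by norm_num; linarith only [a1]) (by norm_num; linarith only [a1])
      (by norm_num; linarith only [a2]) (by norm_num; linarith only [a3])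

/-- the bounds of a row with pairs -/
lemma bk_of {x0 x1 m1 s0 s1 m2 c1 m3 : ℕ} {cr ka : ℤ} {t0 t1 r1 r0 q1 q0 : ℤ}
    {a1 b1 a2 b2 e1 e2 a3 b3 a4 b4 e3 e4 a5 b5 e5 e6 : ℤ} {y z : ℂ} {A : Prop}
    {al : List (GC × GC)}
    (h : ((∀ g ∈ [GC.arc 0 x0 a1 b1, .arc x1 m1 a2 b2, .lo t0 e1, .hi t1 e2], g.P y) ∧
      (∀ g ∈ [GC.arc 0 s0 a3 b3, .arc s1 m2 a4 b4, .lo (-r1) e3, .hi (-r0) e4], g.P (-z)) ∧
      (∀ g ∈ [GC.arc c1 m3 a5 b5, .lo (-q1) e5, .hi (-q0) e6], g.P (y - z)) ∧ A) ∧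
      ∃ p ∈ al, p.1.P y ∧ p.2.P (y - z)) (hst : stairK ka al = true) (rg : Rg y z)
    (h1 : 4000 ≤ m1) (h2 : 2500 ≤ m2) (h3 : 6500 ≤ m3) (h4 : (c1 : ℤ) - r0 ≤ cr) :
    (mk4 x0 x1 s0 s1 q0 q1 r0 r1 t0 t1 c1 cr).In y z ∧
      y.re - (ka : ℝ) / 10000 ≤ z.im - y.im :=
  ⟨b4c_of h.1 rg h1 h2 h3 h4, stairK_use hst rg h.2⟩

/-- a lower bound for the height of the ring variable -/
lemma br_of {r0 c0 : ℤ} {z : ℂ} {A B : Prop} (h : A ∧ (∀ g ∈ [GC.hi (-r0) c0], g.P (-z)) ∧ B) :
    (r0 : ℝ) / 10000 ≤ z.im := by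
  have zd : (-z).im ≤ ((-r0 : ℤ) : ℝ) / 10000 := h.2.1 (.hi (-r0) c0) (by simp)
  rw [Complex.neg_im] at zd
  push_cast at zd
  linarith only [zd]

section
variable {l : SK} {d : ℕ} {ll r : SK}

/-- the class at the other hinge of kind `z` -/
lemma Oh.z_ {k : Cl} {s : Bool} (h : Oh .z d ll k s) (hz : 4 ≤ d) : k = .ring ∧ s = true := by
  obtain ⟨h1, h2⟩ := h
  refine ⟨?_, (h2 (by decide)).trans (by decide)⟩
  rw [h1]
  unfold nC cK
  simp only [show ¬(SK.z = .s) by decide, if_false]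
  split_ifs <;> first | rfl | omega

/-- the class at the other hinge of kind `s` -/
lemma Oh.s_ {k : Cl} {s : Bool} (h : Oh .s d ll k s) : k = .one := by
  rw [h.1]
  unfold nC
  simp

/-- equal signs at the other hinge of kind `a` -/
lemma Oh.a_ {k : Cl} {s : Bool} (h : Oh .a d ll k s) : s = false :=
  (h.2 (by decide)).trans (by decide)

end

end Pool.Agent.Work.MP_b30479_gt.G2.CN.TD
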