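import Pool.Agent.Work.MP_b30479_gt.G2.WLocB
import Pool.Agent.Work.MP_b30479_gt.G2.CN.TC6A
import Pool.Agent.Work.MP_b30479_gt.G2.CN.TK4D
import Pool.Agent.Work.MP_b30479_gt.G2.CN.TLl
import Pool.Agent.Work.MP_b30479_gt.G2.CN.LocBh
import Pool.Agent.Work.MP_b30479_gt.G2.CN.TDatd
import Pool.Agent.Work.MP_b30479_gt.G2.CN.TLka
import Pool.Agent.Work.MP_b30479_gt.G2.CN.TLkb

/-!
# Rings with four or five crossings next to a digit `1`, class two behind it
-/

namespace Pool.Agent.Work.MP_b30479_gt.G2.CN.TD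

open Complex SR

noncomputable section

section
variable {K : KFam} (hK : KOK K) (Bx : BoxRows K) {l x : SK} {dl : ℕ} {ll : SK} {dr : ℕ} {rr : SK}
  {w kl kr : ℂ}
include hK Bx

theorem h4_one {s : Bool} (t : RDt K 4 l x dl ll dr rr w kl kr) (hC : Bh x dr rr .two)
    (hk : Oh l dl ll .one s)
    (hl : (r4 false .one s).In (yH l (RR w kl) (Complex.cos w)) (zeta w))
    (rg : Rg (yH x (RR w kr) (Complex.cos w)) (zeta w)) :
    (rk4 .one s).In (yH x (RR w kr) (Complex.cos w)) (zeta w) ∧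
      (yH x (RR w kr) (Complex.cos w)).re - (ka4 .one s : ℝ) / 10000 ≤
        (zeta w).im - (yH x (RR w kr) (Complex.cos w)).im := by
  have hN := t.right.ok.right.symm
  have hO := t.right.ok.left
  have hL := t.left.ok.right.symm
  obtain ⟨rfl, rfl, hre⟩ := hC.two
  cases rr
  · exact absurd rfl hre
  · rcases hk.one hL.zr t.left.ok.ne with ⟨rfl, rfl⟩ | rfl
    · have e1 := far_s t.left.ok.right
      subst e1
      exact bk_of (tuseK hK Bx ld4 t h4_1_2a_u mn mn mn
        (l4_one_of hl) (hK.inH hO k5as_ok) (hK.inH hN k3as_ok)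
        (aOkH t rfl (kl_a t (hK.inH hL k2as_ok))) (dOk hK t rfl OR.a)) ak4_one_st rg
        (by norm_num) (by norm_num) (by norm_num) (by norm_num)
    · exact bk_of (tuseK hK Bx ld4 t h4_1_2a_xs mn mn mn
        (l4_one_of hl) (hK.inH hO k6ss_ok) (hK.inH hN k3as_ok)
        AllOk.nil (dOk hK t rfl OR.a)) ak4_one_st rg
        (by norm_num) (by norm_num) (by norm_num) (by norm_num)
  · exact absurd (hN.zl rfl) (by norm_num)
  · rcases hk.one hL.zr t.left.ok.ne with ⟨rfl, rfl⟩ | rfl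
    · have e1 := far_s t.left.ok.right
      subst e1
      exact bk_of (tuseK hK Bx ld4 t h4_1_2s_u mn mn mn
        (l4_one_of hl) (hK.inH hO k5as_ok) (hK.inH hN k4ss_ok)
        (aOkH t rfl (kl_a t (hK.inH hL k2as_ok))) (dOk hK t rfl OR.s)) ak4_one_st rg
        (by norm_num) (by norm_num) (by norm_num) (by norm_num)
    · exact bk_of (tuseK hK Bx ld4 t h4_1_2s_xs mn mn mn
        (l4_one_of hl) (hK.inH hO k6ss_ok) (hK.inH hN k4ss_ok)
        AllOk.nil (dOk hK t rfl OR.s)) ak4_one_st rg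
        (by norm_num) (by norm_num) (by norm_num) (by norm_num)

theorem h4_two {s : Bool} (t : RDt K 4 l x dl ll dr rr w kl kr) (hC : Bh x dr rr .two)
    (hk : Oh l dl ll .two s)
    (hl : (r4 false .two s).In (yH l (RR w kl) (Complex.cos w)) (zeta w))
    (rg : Rg (yH x (RR w kr) (Complex.cos w)) (zeta w)) :
    (rk4 .two s).In (yH x (RR w kr) (Complex.cos w)) (zeta w) ∧
      (yH x (RR w kr) (Complex.cos w)).re - (ka4 .two s : ℝ) / 10000 ≤
        (zeta w).im - (yH x (RR w kr) (Complex.cos w)).im := by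
  have hN := t.right.ok.right.symm
  have hO := t.right.ok.left
  have hL := t.left.ok.right.symm
  obtain ⟨rfl, rfl, hre⟩ := hC.two
  cases rr
  · exact absurd rfl hre
  · obtain ⟨rfl, rfl, hle⟩ := hk.two hL.zr t.left.ok.ne
    exact bk_of (tuseK hK Bx ld4 t h4_2_2a_p mn mn mn
      (l4_two_of hl) (hK.inH hO k5as_ok) (hK.inH hN k3as_ok)
      (aPa hK t rfl) (dOk hK t rfl OR.a)) ak4_two_st rg
      (by norm_num) (by norm_num) (by norm_num) (by norm_num)
  · exact absurd (hN.zl rfl) (by norm_num)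
  · obtain ⟨rfl, rfl, hle⟩ := hk.two hL.zr t.left.ok.ne
    exact bk_of (tuseK hK Bx ld4 t h4_2_2s_p mn mn mn
      (l4_two_of hl) (hK.inH hO k5as_ok) (hK.inH hN k4ss_ok)
      (aPa hK t rfl) (dOk hK t rfl OR.s)) ak4_two_st rg
      (by norm_num) (by norm_num) (by norm_num) (by norm_num)

theorem h4_twoE {s : Bool} (t : RDt K 4 l x dl ll dr rr w kl kr) (hC : Bh x dr rr .two)
    (hk : Oh l dl ll .twoE s)
    (hl : (r4 false .twoE s).In (yH l (RR w kl) (Complex.cos w)) (zeta w))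
    (rg : Rg (yH x (RR w kr) (Complex.cos w)) (zeta w)) :
    (rk4 .twoE s).In (yH x (RR w kr) (Complex.cos w)) (zeta w) ∧
      (yH x (RR w kr) (Complex.cos w)).re - (ka4 .twoE s : ℝ) / 10000 ≤
        (zeta w).im - (yH x (RR w kr) (Complex.cos w)).im := by
  have hN := t.right.ok.right.symm
  have hO := t.right.ok.left
  have hL := t.left.ok.right.symm
  obtain ⟨rfl, rfl, hre⟩ := hC.two
  cases rr
  · exact absurd rfl hre
  · obtain ⟨rfl, rfl, rfl⟩ := hk.twoE hL.zr t.left.ok.ne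
    exact bk_of (tuseK hK Bx ld4 t h4_2e_2a_k2e mn mn mn
      (l4_twoE_of hl) (hK.inH hO k5as_ok) (hK.inH hN k3as_ok)
      (aOkH t rfl (kl_a t (hK.inH hL k2ea_ok))) (dOk hK t rfl OR.a)) ak4_twoE_st rg
      (by norm_num) (by norm_num) (by norm_num) (by norm_num)
  · exact absurd (hN.zl rfl) (by norm_num)
  · obtain ⟨rfl, rfl, rfl⟩ := hk.twoE hL.zr t.left.ok.ne
    exact bk_of (tuseK hK Bx ld4 t h4_2e_2s_k2e mn mn mn
      (l4_twoE_of hl) (hK.inH hO k5as_ok) (hK.inH hN k4ss_ok)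
      (aOkH t rfl (kl_a t (hK.inH hL k2ea_ok))) (dOk hK t rfl OR.s)) ak4_twoE_st rg
      (by norm_num) (by norm_num) (by norm_num) (by norm_num)

theorem h4_three {s : Bool} (t : RDt K 4 l x dl ll dr rr w kl kr) (hC : Bh x dr rr .two)
    (hk : Oh l dl ll .three s)
    (hl : (r4 false .three s).In (yH l (RR w kl) (Complex.cos w)) (zeta w))
    (rg : Rg (yH x (RR w kr) (Complex.cos w)) (zeta w)) :
    (rk4 .three s).In (yH x (RR w kr) (Complex.cos w)) (zeta w) ∧
      (yH x (RR w kr) (Complex.cos w)).re - (ka4 .three s : ℝ) / 10000 ≤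
        (zeta w).im - (yH x (RR w kr) (Complex.cos w)).im := by
  have hN := t.right.ok.right.symm
  have hO := t.right.ok.left
  have hL := t.left.ok.right.symm
  obtain ⟨rfl, rfl, hre⟩ := hC.two
  cases rr
  · exact absurd rfl hre
  · obtain ⟨rfl, rfl, hle⟩ := hk.three hL.zr t.left.ok.ne
    exact bk_of (tuseK hK Bx ld4 t h4_3_2a_p mn mn mn
      (l4_three_of hl) (hK.inH hO k5as_ok) (hK.inH hN k3as_ok)
      (aPa hK t rfl) (dOk hK t rfl OR.a)) ak4_three_st rg
      (by norm_num) (by norm_num) (by norm_num) (by norm_num)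
  · exact absurd (hN.zl rfl) (by norm_num)
  · obtain ⟨rfl, rfl, hle⟩ := hk.three hL.zr t.left.ok.ne
    exact bk_of (tuseK hK Bx ld4 t h4_3_2s_p mn mn mn
      (l4_three_of hl) (hK.inH hO k5as_ok) (hK.inH hN k4ss_ok)
      (aPa hK t rfl) (dOk hK t rfl OR.s)) ak4_three_st rg
      (by norm_num) (by norm_num) (by norm_num) (by norm_num)

theorem h4_threeE {s : Bool} (t : RDt K 4 l x dl ll dr rr w kl kr) (hC : Bh x dr rr .two)
    (hk : Oh l dl ll .threeE s)
    (hl : (r4 false .threeE s).In (yH l (RR w kl) (Complex.cos w)) (zeta w))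
    (rg : Rg (yH x (RR w kr) (Complex.cos w)) (zeta w)) :
    (rk4 .threeE s).In (yH x (RR w kr) (Complex.cos w)) (zeta w) ∧
      (yH x (RR w kr) (Complex.cos w)).re - (ka4 .threeE s : ℝ) / 10000 ≤
        (zeta w).im - (yH x (RR w kr) (Complex.cos w)).im := by
  have hN := t.right.ok.right.symm
  have hO := t.right.ok.left
  have hL := t.left.ok.right.symm
  obtain ⟨rfl, rfl, hre⟩ := hC.two
  cases rr
  · exact absurd rfl hre
  · obtain ⟨rfl, rfl, rfl⟩ := hk.threeE hL.zr t.left.ok.ne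
    exact bk_of (tuseK hK Bx ld4 t h4_3e_2a_k3e mn mn mn
      (l4_threeE_of hl) (hK.inH hO k5as_ok) (hK.inH hN k3as_ok)
      (aOkH t rfl (kl_a t (hK.inH hL k3ea_ok))) (dOk hK t rfl OR.a)) ak4_threeE_st rg
      (by norm_num) (by norm_num) (by norm_num) (by norm_num)
  · exact absurd (hN.zl rfl) (by norm_num)
  · obtain ⟨rfl, rfl, rfl⟩ := hk.threeE hL.zr t.left.ok.ne
    exact bk_of (tuseK hK Bx ld4 t h4_3e_2s_k3e mn mn mn
      (l4_threeE_of hl) (hK.inH hO k5as_ok) (hK.inH hN k4ss_ok)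
      (aOkH t rfl (kl_a t (hK.inH hL k3ea_ok))) (dOk hK t rfl OR.s)) ak4_threeE_st rg
      (by norm_num) (by norm_num) (by norm_num) (by norm_num)

theorem h4_ringA (t : RDt K 4 l x dl ll dr rr w kl kr) (hC : Bh x dr rr .two)
    (hk : Oh l dl ll .ring false)
    (hl : (r4 false .ring false).In (yH l (RR w kl) (Complex.cos w)) (zeta w))
    (rg : Rg (yH x (RR w kr) (Complex.cos w)) (zeta w)) :
    (rk4 .ring false).In (yH x (RR w kr) (Complex.cos w)) (zeta w) ∧
      (yH x (RR w kr) (Complex.cos w)).re - (ka4 .ring false : ℝ) / 10000 ≤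
        (zeta w).im - (yH x (RR w kr) (Complex.cos w)).im := by
  have hN := t.right.ok.right.symm
  have hO := t.right.ok.left
  have hL := t.left.ok.right.symm
  obtain ⟨rfl, rfl, hre⟩ := hC.two
  cases rr
  · exact absurd rfl hre
  · rcases hk.ring hL.pos t.left.ok.ne with ⟨rfl, -, hl4⟩ | ⟨-, h9, -⟩
    · exact bk_of (tuseK hK Bx ld4 t h4_Z_2a_kZ mn mn mn
        (l4_ringA_of hl) (hK.inH hO k5as_ok) (hK.inH hN k3as_ok)
        (aOkH t rfl (kl_a t (in_nZa hK hL hl4))) (dOk hK t rfl OR.a)) ak4_ringA_st rg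
        (by norm_num) (by norm_num) (by norm_num) (by norm_num)
    · exact absurd h9 (by decide)
  · exact absurd (hN.zl rfl) (by norm_num)
  · rcases hk.ring hL.pos t.left.ok.ne with ⟨rfl, -, hl4⟩ | ⟨-, h9, -⟩
    · exact bk_of (tuseK hK Bx ld4 t h4_Z_2s_kZ mn mn mn
        (l4_ringA_of hl) (hK.inH hO k5as_ok) (hK.inH hN k4ss_ok)
        (aOkH t rfl (kl_a t (in_nZa hK hL hl4))) (dOk hK t rfl OR.s)) ak4_ringA_st rg
        (by norm_num) (by norm_num) (by norm_num) (by norm_num)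
    · exact absurd h9 (by decide)

theorem h4_ringZ (t : RDt K 4 l x dl ll dr rr w kl kr) (hC : Bh x dr rr .two)
    (hk : Oh l dl ll .ring true)
    (hl : (r4 false .ring true).In (yH l (RR w kl) (Complex.cos w)) (zeta w))
    (rg : Rg (yH x (RR w kr) (Complex.cos w)) (zeta w)) :
    (rk4 .ring true).In (yH x (RR w kr) (Complex.cos w)) (zeta w) ∧
      (yH x (RR w kr) (Complex.cos w)).re - (ka4 .ring true : ℝ) / 10000 ≤
        (zeta w).im - (yH x (RR w kr) (Complex.cos w)).im := by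
  have hN := t.right.ok.right.symm
  have hO := t.right.ok.left
  have hL := t.left.ok.right.symm
  obtain ⟨rfl, rfl, hre⟩ := hC.two
  cases rr
  · exact absurd rfl hre
  · rcases hk.ring hL.pos t.left.ok.ne with ⟨-, h9, -⟩ | ⟨rfl, -, hl4⟩
    · exact absurd h9 (by decide)
    · exact bk_of (tuseK hK Bx ld4 t h4_Zs_2a_kz mn mn mn
        (l4_ringZ_of hl) (hK.inH hO k5zs_ok) (hK.inH hN k3as_ok)
        (aOkH t rfl (kl_z t (in_nZz hK hL))) (dOk hK t rfl OR.a)) ak4_ringZ_st rg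
        (by norm_num) (by norm_num) (by norm_num) (by norm_num)
  · exact absurd (hN.zl rfl) (by norm_num)
  · rcases hk.ring hL.pos t.left.ok.ne with ⟨-, h9, -⟩ | ⟨rfl, -, hl4⟩
    · exact absurd h9 (by decide)
    · exact bk_of (tuseK hK Bx ld4 t h4_Zs_2s_kz mn mn mn
        (l4_ringZ_of hl) (hK.inH hO k5zs_ok) (hK.inH hN k4ss_ok)
        (aOkH t rfl (kl_z t (in_nZz hK hL))) (dOk hK t rfl OR.s)) ak4_ringZ_st rg
        (by norm_num) (by norm_num) (by norm_num) (by norm_num)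

/-- the hinge next to the digit `1` -/
theorem rk4_of {k : Cl} {s : Bool} (t : RDt K 4 l x dl ll dr rr w kl kr) (hC : Bh x dr rr .two)
    (hk : Oh l dl ll k s) (hl : (r4 false k s).In (yH l (RR w kl) (Complex.cos w)) (zeta w))
    (rg : Rg (yH x (RR w kr) (Complex.cos w)) (zeta w)) :
    (rk4 k s).In (yH x (RR w kr) (Complex.cos w)) (zeta w) ∧
      (yH x (RR w kr) (Complex.cos w)).re - (ka4 k s : ℝ) / 10000 ≤
        (zeta w).im - (yH x (RR w kr) (Complex.cos w)).im := by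
  cases k
  · exact h4_one hK Bx t hC hk hl rg
  · exact h4_two hK Bx t hC hk hl rg
  · exact h4_twoE hK Bx t hC hk hl rg
  · exact h4_three hK Bx t hC hk hl rg
  · exact h4_threeE hK Bx t hC hk hl rg
  · cases s
    · exact h4_ringA hK Bx t hC hk hl rg
    · exact h4_ringZ hK Bx t hC hk hl rg

theorem h5_one {s : Bool} (t : RDt K 5 l x dl ll dr rr w kl kr) (hC : Bh x dr rr .two)
    (hk : Oh l dl ll .one s)
    (hl : (hbox .ring .one s).In (yH l (RR w kl) (Complex.cos w)))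
    (rg : Rg (yH x (RR w kr) (Complex.cos w)) (zeta w)) :
    (rk5 .one s).In (yH x (RR w kr) (Complex.cos w)) (zeta w) ∧
      (yH x (RR w kr) (Complex.cos w)).re - (ka5 .one s : ℝ) / 10000 ≤
        (zeta w).im - (yH x (RR w kr) (Complex.cos w)).im := by
  have hN := t.right.ok.right.symm
  have hO := t.right.ok.left
  have hL := t.left.ok.right.symm
  obtain ⟨rfl, rfl, hre⟩ := hC.two
  cases rr
  · exact absurd rfl hre
  · rcases hk.one hL.zr t.left.ok.ne with ⟨rfl, rfl⟩ | rfl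
    · have e1 := far_s t.left.ok.right
      subst e1
      exact bk_of (tuseK hK Bx ld5 t h5_1_2a_xa mn mn mn
        (lh_one_of hl) (hK.inH hO k6as_ok) (hK.inH hN k3as_ok)
        AllOk.nil (dOk hK t rfl OR.a)) ak5_one_st rg
        (by norm_num) (by norm_num) (by norm_num) (by norm_num)
    · exact bk_of (tuseK hK Bx ld5 t h5_1_2a_xs mn mn mn
        (lh_one_of hl) (hK.inH hO k7ss_ok) (hK.inH hN k3as_ok)
        AllOk.nil (dOk hK t rfl OR.a)) ak5_one_st rg
        (by norm_num) (by norm_num) (by norm_num) (by norm_num)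
  · exact absurd (hN.zl rfl) (by norm_num)
  · rcases hk.one hL.zr t.left.ok.ne with ⟨rfl, rfl⟩ | rfl
    · have e1 := far_s t.left.ok.right
      subst e1
      exact bk_of (tuseK hK Bx ld5 t h5_1_2s_xa mn mn mn
        (lh_one_of hl) (hK.inH hO k6as_ok) (hK.inH hN k4ss_ok)
        AllOk.nil (dOk hK t rfl OR.s)) ak5_one_st rg
        (by norm_num) (by norm_num) (by norm_num) (by norm_num)
    · exact bk_of (tuseK hK Bx ld5 t h5_1_2s_xs mn mn mn
        (lh_one_of hl) (hK.inH hO k7ss_ok) (hK.inH hN k4ss_ok)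
        AllOk.nil (dOk hK t rfl OR.s)) ak5_one_st rg
        (by norm_num) (by norm_num) (by norm_num) (by norm_num)

theorem h5_two {s : Bool} (t : RDt K 5 l x dl ll dr rr w kl kr) (hC : Bh x dr rr .two)
    (hk : Oh l dl ll .two s)
    (hl : (hbox .ring .two s).In (yH l (RR w kl) (Complex.cos w)))
    (rg : Rg (yH x (RR w kr) (Complex.cos w)) (zeta w)) :
    (rk5 .two s).In (yH x (RR w kr) (Complex.cos w)) (zeta w) ∧
      (yH x (RR w kr) (Complex.cos w)).re - (ka5 .two s : ℝ) / 10000 ≤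
        (zeta w).im - (yH x (RR w kr) (Complex.cos w)).im := by
  have hN := t.right.ok.right.symm
  have hO := t.right.ok.left
  have hL := t.left.ok.right.symm
  obtain ⟨rfl, rfl, hre⟩ := hC.two
  cases rr
  · exact absurd rfl hre
  · obtain ⟨rfl, rfl, hle⟩ := hk.two hL.zr t.left.ok.ne
    exact bk_of (tuseK hK Bx ld5 t h5_2_2a_xa mn mn mn
      (lh_two_of hl) (hK.inH hO k6as_ok) (hK.inH hN k3as_ok)
      AllOk.nil (dOk hK t rfl OR.a)) ak5_two_st rg
      (by norm_num) (by norm_num) (by norm_num) (by norm_num)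
  · exact absurd (hN.zl rfl) (by norm_num)
  · obtain ⟨rfl, rfl, hle⟩ := hk.two hL.zr t.left.ok.ne
    exact bk_of (tuseK hK Bx ld5 t h5_2_2s_xa mn mn mn
      (lh_two_of hl) (hK.inH hO k6as_ok) (hK.inH hN k4ss_ok)
      AllOk.nil (dOk hK t rfl OR.s)) ak5_two_st rg
      (by norm_num) (by norm_num) (by norm_num) (by norm_num)

theorem h5_twoE {s : Bool} (t : RDt K 5 l x dl ll dr rr w kl kr) (hC : Bh x dr rr .two)
    (hk : Oh l dl ll .twoE s)
    (hl : (hbox .ring .twoE s).In (yH l (RR w kl) (Complex.cos w)))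
    (rg : Rg (yH x (RR w kr) (Complex.cos w)) (zeta w)) :
    (rk5 .twoE s).In (yH x (RR w kr) (Complex.cos w)) (zeta w) ∧
      (yH x (RR w kr) (Complex.cos w)).re - (ka5 .twoE s : ℝ) / 10000 ≤
        (zeta w).im - (yH x (RR w kr) (Complex.cos w)).im := by
  have hN := t.right.ok.right.symm
  have hO := t.right.ok.left
  have hL := t.left.ok.right.symm
  obtain ⟨rfl, rfl, hre⟩ := hC.two
  cases rr
  · exact absurd rfl hre
  · obtain ⟨rfl, rfl, rfl⟩ := hk.twoE hL.zr t.left.ok.ne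
    exact bk_of (tuseK hK Bx ld5 t h5_2e_2a_xa mn mn mn
      (lh_twoE_of hl) (hK.inH hO k6as_ok) (hK.inH hN k3as_ok)
      AllOk.nil (dOk hK t rfl OR.a)) ak5_twoE_st rg
      (by norm_num) (by norm_num) (by norm_num) (by norm_num)
  · exact absurd (hN.zl rfl) (by norm_num)
  · obtain ⟨rfl, rfl, rfl⟩ := hk.twoE hL.zr t.left.ok.ne
    exact bk_of (tuseK hK Bx ld5 t h5_2e_2s_xa mn mn mn
      (lh_twoE_of hl) (hK.inH hO k6as_ok) (hK.inH hN k4ss_ok)
      AllOk.nil (dOk hK t rfl OR.s)) ak5_twoE_st rg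
      (by norm_num) (by norm_num) (by norm_num) (by norm_num)

theorem h5_three {s : Bool} (t : RDt K 5 l x dl ll dr rr w kl kr) (hC : Bh x dr rr .two)
    (hk : Oh l dl ll .three s)
    (hl : (hbox .ring .three s).In (yH l (RR w kl) (Complex.cos w)))
    (rg : Rg (yH x (RR w kr) (Complex.cos w)) (zeta w)) :
    (rk5 .three s).In (yH x (RR w kr) (Complex.cos w)) (zeta w) ∧
      (yH x (RR w kr) (Complex.cos w)).re - (ka5 .three s : ℝ) / 10000 ≤
        (zeta w).im - (yH x (RR w kr) (Complex.cos w)).im := by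
  have hN := t.right.ok.right.symm
  have hO := t.right.ok.left
  have hL := t.left.ok.right.symm
  obtain ⟨rfl, rfl, hre⟩ := hC.two
  cases rr
  · exact absurd rfl hre
  · obtain ⟨rfl, rfl, hle⟩ := hk.three hL.zr t.left.ok.ne
    exact bk_of (tuseK hK Bx ld5 t h5_3_2a_xa mn mn mn
      (lh_three_of hl) (hK.inH hO k6as_ok) (hK.inH hN k3as_ok)
      AllOk.nil (dOk hK t rfl OR.a)) ak5_three_st rg
      (by norm_num) (by norm_num) (by norm_num) (by norm_num)
  · exact absurd (hN.zl rfl) (by norm_num)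
  · obtain ⟨rfl, rfl, hle⟩ := hk.three hL.zr t.left.ok.ne
    exact bk_of (tuseK hK Bx ld5 t h5_3_2s_xa mn mn mn
      (lh_three_of hl) (hK.inH hO k6as_ok) (hK.inH hN k4ss_ok)
      AllOk.nil (dOk hK t rfl OR.s)) ak5_three_st rg
      (by norm_num) (by norm_num) (by norm_num) (by norm_num)

theorem h5_threeE {s : Bool} (t : RDt K 5 l x dl ll dr rr w kl kr) (hC : Bh x dr rr .two)
    (hk : Oh l dl ll .threeE s)
    (hl : (hbox .ring .threeE s).In (yH l (RR w kl) (Complex.cos w)))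
    (rg : Rg (yH x (RR w kr) (Complex.cos w)) (zeta w)) :
    (rk5 .threeE s).In (yH x (RR w kr) (Complex.cos w)) (zeta w) ∧
      (yH x (RR w kr) (Complex.cos w)).re - (ka5 .threeE s : ℝ) / 10000 ≤
        (zeta w).im - (yH x (RR w kr) (Complex.cos w)).im := by
  have hN := t.right.ok.right.symm
  have hO := t.right.ok.left
  have hL := t.left.ok.right.symm
  obtain ⟨rfl, rfl, hre⟩ := hC.two
  cases rr
  · exact absurd rfl hre
  · obtain ⟨rfl, rfl, rfl⟩ := hk.threeE hL.zr t.left.ok.ne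
    exact bk_of (tuseK hK Bx ld5 t h5_3e_2a_xa mn mn mn
      (lh_threeE_of hl) (hK.inH hO k6as_ok) (hK.inH hN k3as_ok)
      AllOk.nil (dOk hK t rfl OR.a)) ak5_threeE_st rg
      (by norm_num) (by norm_num) (by norm_num) (by norm_num)
  · exact absurd (hN.zl rfl) (by norm_num)
  · obtain ⟨rfl, rfl, rfl⟩ := hk.threeE hL.zr t.left.ok.ne
    exact bk_of (tuseK hK Bx ld5 t h5_3e_2s_xa mn mn mn
      (lh_threeE_of hl) (hK.inH hO k6as_ok) (hK.inH hN k4ss_ok)
      AllOk.nil (dOk hK t rfl OR.s)) ak5_threeE_st rg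
      (by norm_num) (by norm_num) (by norm_num) (by norm_num)

theorem h5_ringA (t : RDt K 5 l x dl ll dr rr w kl kr) (hC : Bh x dr rr .two)
    (hk : Oh l dl ll .ring false)
    (hl : (hbox .ring .ring false).In (yH l (RR w kl) (Complex.cos w)))
    (rg : Rg (yH x (RR w kr) (Complex.cos w)) (zeta w)) :
    (rk5 .ring false).In (yH x (RR w kr) (Complex.cos w)) (zeta w) ∧
      (yH x (RR w kr) (Complex.cos w)).re - (ka5 .ring false : ℝ) / 10000 ≤
        (zeta w).im - (yH x (RR w kr) (Complex.cos w)).im := by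
  have hN := t.right.ok.right.symm
  have hO := t.right.ok.left
  have hL := t.left.ok.right.symm
  obtain ⟨rfl, rfl, hre⟩ := hC.two
  cases rr
  · exact absurd rfl hre
  · rcases hk.ring hL.pos t.left.ok.ne with ⟨rfl, -, hl4⟩ | ⟨-, h9, -⟩
    · exact bk_of (tuseK hK Bx ld5 t h5_Z_2a_xa mn mn mn
        (lh_ringA_of hl) (hK.inH hO k6as_ok) (hK.inH hN k3as_ok)
        AllOk.nil (dOk hK t rfl OR.a)) ak5_ringA_st rg
        (by norm_num) (by norm_num) (by norm_num) (by norm_num)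
    · exact absurd h9 (by decide)
  · exact absurd (hN.zl rfl) (by norm_num)
  · rcases hk.ring hL.pos t.left.ok.ne with ⟨rfl, -, hl4⟩ | ⟨-, h9, -⟩
    · exact bk_of (tuseK hK Bx ld5 t h5_Z_2s_xa mn mn mn
        (lh_ringA_of hl) (hK.inH hO k6as_ok) (hK.inH hN k4ss_ok)
        AllOk.nil (dOk hK t rfl OR.s)) ak5_ringA_st rg
        (by norm_num) (by norm_num) (by norm_num) (by norm_num)
    · exact absurd h9 (by decide)

theorem h5_ringZ (t : RDt K 5 l x dl ll dr rr w kl kr) (hC : Bh x dr rr .two)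
    (hk : Oh l dl ll .ring true)
    (hl : (hbox .ring .ring true).In (yH l (RR w kl) (Complex.cos w)))
    (rg : Rg (yH x (RR w kr) (Complex.cos w)) (zeta w)) :
    (rk5 .ring true).In (yH x (RR w kr) (Complex.cos w)) (zeta w) ∧
      (yH x (RR w kr) (Complex.cos w)).re - (ka5 .ring true : ℝ) / 10000 ≤
        (zeta w).im - (yH x (RR w kr) (Complex.cos w)).im := by
  have hN := t.right.ok.right.symm
  have hO := t.right.ok.left
  have hL := t.left.ok.right.symm
  obtain ⟨rfl, rfl, hre⟩ := hC.two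
  cases rr
  · exact absurd rfl hre
  · rcases hk.ring hL.pos t.left.ok.ne with ⟨-, h9, -⟩ | ⟨rfl, -, hl4⟩
    · exact absurd h9 (by decide)
    · exact bk_of (tuseK hK Bx ld5 t h5_Zs_2a_xz mn mn mn
        (lh_ringZ_of hl) (hK.inH hO k6zs_ok) (hK.inH hN k3as_ok)
        AllOk.nil (dOk hK t rfl OR.a)) ak5_ringZ_st rg
        (by norm_num) (by norm_num) (by norm_num) (by norm_num)
  · exact absurd (hN.zl rfl) (by norm_num)
  · rcases hk.ring hL.pos t.left.ok.ne with ⟨-, h9, -⟩ | ⟨rfl, -, hl4⟩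
    · exact absurd h9 (by decide)
    · exact bk_of (tuseK hK Bx ld5 t h5_Zs_2s_xz mn mn mn
        (lh_ringZ_of hl) (hK.inH hO k6zs_ok) (hK.inH hN k4ss_ok)
        AllOk.nil (dOk hK t rfl OR.s)) ak5_ringZ_st rg
        (by norm_num) (by norm_num) (by norm_num) (by norm_num)

/-- the hinge next to the digit `1` -/
theorem rk5_of {k : Cl} {s : Bool} (t : RDt K 5 l x dl ll dr rr w kl kr) (hC : Bh x dr rr .two)
    (hk : Oh l dl ll k s) (hl : (hbox .ring k s).In (yH l (RR w kl) (Complex.cos w)))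
    (rg : Rg (yH x (RR w kr) (Complex.cos w)) (zeta w)) :
    (rk5 k s).In (yH x (RR w kr) (Complex.cos w)) (zeta w) ∧
      (yH x (RR w kr) (Complex.cos w)).re - (ka5 k s : ℝ) / 10000 ≤
        (zeta w).im - (yH x (RR w kr) (Complex.cos w)).im := by
  cases k
  · exact h5_one hK Bx t hC hk hl rg
  · exact h5_two hK Bx t hC hk hl rg
  · exact h5_twoE hK Bx t hC hk hl rg
  · exact h5_three hK Bx t hC hk hl rg
  · exact h5_threeE hK Bx t hC hk hl rg
  · cases s
    · exact h5_ringA hK Bx t hC hk hl rg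
    · exact h5_ringZ hK Bx t hC hk hl rg

end

end

end Pool.Agent.Work.MP_b30479_gt.G2.CN.TD
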