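import Pool.Agent.Work.MP_b30479_gt.G2.CN.RowD

/-!
# Conditions for rings with five and six crossings
-/

namespace Pool.Agent.Work.MP_b30479_gt.G2.CN.TD

/-- conditions -/
def k5zz : List QC :=
  [⟨-181584, 751313, 0, 0⟩, ⟨213000, -710279, 0, 0⟩, ⟨0, 0, 1000000, -632542⟩,
  ⟨0, 0, -1000000, 531233⟩, ⟨-309000, -951000, 0, -423438⟩, ⟨1000000, 0, 0, 705960⟩]

/-- conditions -/
def k6zz : List QC :=
  [⟨-112896, 773828, 0, 0⟩, ⟨136444, -779067, 0, 0⟩, ⟨0, 0, 1000000, -682310⟩,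
  ⟨0, 0, -1000000, 611555⟩, ⟨-309000, -951000, 0, -376108⟩, ⟨1000000, 0, 0, 773828⟩,
  ⟨985000, 174000, 1210768, 0⟩]

/-- conditions -/
def k6ea : List QC :=
  [⟨-28384, 786513, 0, 0⟩, ⟨77176, -767193, 0, 0⟩, ⟨0, 0, 1000000, -654368⟩,
  ⟨0, 0, -1000000, 585273⟩, ⟨-669000, -743000, 0, -576269⟩, ⟨829000, 559000, 1064434, 0⟩,
  ⟨978000, 208000, 0, 758302⟩, ⟨1000000, 0, 0, 762720⟩]

/-- conditions -/
def k6ez : List QC :=
  [⟨-59024, 752268, 0, 0⟩, ⟨77352, -770705, 0, 0⟩, ⟨0, 0, 1000000, -599970⟩,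
  ⟨0, 0, -1000000, 562359⟩, ⟨766000, 643000, 1066605, 0⟩, ⟨993000, 122000, 0, 749971⟩]

/-- conditions -/
def k7es : List QC :=
  [⟨-28672, 802560, 0, 0⟩, ⟨58542, -785680, 0, 0⟩, ⟨0, 0, 1000000, -665995⟩,
  ⟨0, 0, -1000000, 614852⟩, ⟨-530000, -848000, 0, -471628⟩, ⟨866000, 500000, 1094658, 0⟩,
  ⟨545000, 839000, 0, 459339⟩, ⟨961000, 276000, 0, 766469⟩, ⟨-375000, -927000, 0, -350008⟩]

theorem k5zz_ok : okH k5zz (pg 5 .z .z) = true := by decide +kernel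
theorem k6aa_ok : okH k6aa (pg 6 .a .a) = true := by decide +kernel
theorem k6az_ok : okH k6az (pg 6 .a .z) = true := by decide +kernel
theorem k6zz_ok : okH k6zz (pg 6 .z .z) = true := by decide +kernel
theorem k6ea_ok : okH k6ea (pg 6 .e .a) = true := by decide +kernel
theorem k6ez_ok : okH k6ez (pg 6 .e .z) = true := by decide +kernel
theorem k7as_ok : okH k7as (pg 7 .a .s) = true := by decide +kernel
theorem k7es_ok : okH k7es (pg 7 .e .s) = true := by decide +kernel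
theorem k7zs_ok : okH k7zs (pg 7 .z .s) = true := by decide +kernel
theorem k8ss_ok : okH k8ss (pg 8 .s .s) = true := by decide +kernel

end Pool.Agent.Work.MP_b30479_gt.G2.CN.TD
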