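import Pool.Agent.Work.MP_b30479_gt.G2.WLocB
import Pool.Agent.Work.MP_b30479_gt.G2.CN.TC6A
import Pool.Agent.Work.MP_b30479_gt.G2.CN.TLl
import Pool.Agent.Work.MP_b30479_gt.G2.CN.LocBh
import Pool.Agent.Work.MP_b30479_gt.G2.CN.TDatg
import Pool.Agent.Work.MP_b30479_gt.G2.CN.TLka

/-!
# Rings with five or six crossings next to a digit `1`
-/

namespace Pool.Agent.Work.MP_b30479_gt.G2.CN.TD

open Complex SR

noncomputable section

section
variable {K : KFam} (hK : KOK K) (Bx : BoxRows K) {l x : SK} {dl : ℕ} {ll : SK} {dr : ℕ} {rr : SK}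
  {w kl kr : ℂ}
include hK Bx

theorem c6_one {k : Cl} {s : Bool} (t : RDt K 6 l x dl ll dr rr w kl kr)
    (hC : Bh x dr rr .one) (hk : Oh l dl ll k s)
    (hl : (hbox .ring k s).In (yH l (RR w kl) (Complex.cos w)))
    (rg : Rg (yH x (RR w kr) (Complex.cos w)) (zeta w)) :
    (rc6 .one).In (yH x (RR w kr) (Complex.cos w)) (zeta w) := by
  have hN := t.right.ok.right.symm
  have hO := t.right.ok.left
  have hL := t.left.ok.right.symm
  rcases hC.one with ⟨rfl, rfl⟩ | ⟨rfl, rfl⟩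
  · have e2 := far_s t.right.ok.right
    subst e2
    cases l
    · exact absurd rfl t.left.ok.ne
    · obtain rfl := hk.a_
      exact b4c_of (tuseC hK Bx ld6 t c6_1a_u_a mn mn mn
        (lhA_of hl) (hK.inH hO k6aa_ok) (hK.inH hN k2as_ok)
        AllOk.nil (dOk hK t rfl (OR.st (by decide)))) rg
        (by norm_num) (by norm_num) (by norm_num) (by norm_num)
    · obtain ⟨rfl, rfl⟩ := hk.z_ (hL.zr rfl)
      exact b4c_of (tuseC hK Bx ld6 t c6_1a_u_z mn mn mn
        (lh_ringZ_of hl) (hK.inH hO k6az_ok) (hK.inH hN k2as_ok)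
        AllOk.nil (dOk hK t rfl (OR.st (by decide)))) rg
        (by norm_num) (by norm_num) (by norm_num) (by norm_num)
    · obtain rfl := hk.s_
      exact b4c_of (tuseC hK Bx ld6 t c6_1a_u_s mn mn mn
        (lh_one_of hl) (hK.inH hO k7as_ok) (hK.inH hN k2as_ok)
        AllOk.nil (dOk hK t rfl (OR.st (by decide)))) rg
        (by norm_num) (by norm_num) (by norm_num) (by norm_num)
  · cases rr
    · exact absurd rfl (hN.one rfl).2.1
    · cases l
      · exact absurd rfl t.left.ok.ne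
      · obtain rfl := hk.a_
        exact b4c_of (tuseC hK Bx ld6 t c6_1a_1a_a mn mn mn
          (lhA_of hl) (hK.inH hO k7as_ok) (hK.inH hN k2as_ok)
          AllOk.nil (dOk hK t rfl (OR.a1 (by norm_num)))) rg
          (by norm_num) (by norm_num) (by norm_num) (by norm_num)
      · obtain ⟨rfl, rfl⟩ := hk.z_ (hL.zr rfl)
        exact b4c_of (tuseC hK Bx ld6 t c6_1a_1a_z mn mn mn
          (lh_ringZ_of hl) (hK.inH hO k7zs_ok) (hK.inH hN k2as_ok)
          AllOk.nil (dOk hK t rfl (OR.a1 (by norm_num)))) rg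
          (by norm_num) (by norm_num) (by norm_num) (by norm_num)
      · obtain rfl := hk.s_
        exact b4c_of (tuseC hK Bx ld6 t c6_1a_1a_s mn mn mn
          (lh_one_of hl) (hK.inH hO k8ss_ok) (hK.inH hN k2as_ok)
          AllOk.nil (dOk hK t rfl (OR.a1 (by norm_num)))) rg
          (by norm_num) (by norm_num) (by norm_num) (by norm_num)
    · exact absurd (hN.zl rfl) (by norm_num)
    · cases l
      · exact absurd rfl t.left.ok.ne
      · obtain rfl := hk.a_
        exact b4c_of (tuseC hK Bx ld6 t c6_1a_1s_a mn mn mn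
          (lhA_of hl) (hK.inH hO k7as_ok) (hK.inH hN k3ss_ok)
          AllOk.nil (dOk hK t rfl OR.s)) rg
          (by norm_num) (by norm_num) (by norm_num) (by norm_num)
      · obtain ⟨rfl, rfl⟩ := hk.z_ (hL.zr rfl)
        exact b4c_of (tuseC hK Bx ld6 t c6_1a_1s_z mn mn mn
          (lh_ringZ_of hl) (hK.inH hO k7zs_ok) (hK.inH hN k3ss_ok)
          AllOk.nil (dOk hK t rfl OR.s)) rg
          (by norm_num) (by norm_num) (by norm_num) (by norm_num)
      · obtain rfl := hk.s_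
        exact b4c_of (tuseC hK Bx ld6 t c6_1a_1s_s mn mn mn
          (lh_one_of hl) (hK.inH hO k8ss_ok) (hK.inH hN k3ss_ok)
          AllOk.nil (dOk hK t rfl OR.s)) rg
          (by norm_num) (by norm_num) (by norm_num) (by norm_num)

theorem c6_two {k : Cl} {s : Bool} (t : RDt K 6 l x dl ll dr rr w kl kr)
    (hC : Bh x dr rr .two) (hk : Oh l dl ll k s)
    (hl : (hbox .ring k s).In (yH l (RR w kl) (Complex.cos w)))
    (rg : Rg (yH x (RR w kr) (Complex.cos w)) (zeta w)) :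
    (rc6 .two).In (yH x (RR w kr) (Complex.cos w)) (zeta w) := by
  have hN := t.right.ok.right.symm
  have hO := t.right.ok.left
  have hL := t.left.ok.right.symm
  obtain ⟨rfl, rfl, hre⟩ := hC.two
  cases rr
  · exact absurd rfl hre
  · cases l
    · exact absurd rfl t.left.ok.ne
    · obtain rfl := hk.a_
      exact b4c_of (tuseC hK Bx ld6 t c6_1b_2a_a mn mn mn
        (lhA_of hl) (hK.inH hO k7as_ok) (hK.inH hN k3as_ok)
        AllOk.nil (dOk hK t rfl OR.a)) rg
        (by norm_num) (by norm_num) (by norm_num) (by norm_num)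
    · obtain ⟨rfl, rfl⟩ := hk.z_ (hL.zr rfl)
      exact b4c_of (tuseC hK Bx ld6 t c6_1b_2a_z mn mn mn
        (lh_ringZ_of hl) (hK.inH hO k7zs_ok) (hK.inH hN k3as_ok)
        AllOk.nil (dOk hK t rfl OR.a)) rg
        (by norm_num) (by norm_num) (by norm_num) (by norm_num)
    · obtain rfl := hk.s_
      exact b4c_of (tuseC hK Bx ld6 t c6_1b_2a_s mn mn mn
        (lh_one_of hl) (hK.inH hO k8ss_ok) (hK.inH hN k3as_ok)
        AllOk.nil (dOk hK t rfl OR.a)) rg
        (by norm_num) (by norm_num) (by norm_num) (by norm_num)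
  · exact absurd (hN.zl rfl) (by norm_num)
  · cases l
    · exact absurd rfl t.left.ok.ne
    · obtain rfl := hk.a_
      exact b4c_of (tuseC hK Bx ld6 t c6_1b_2s_a mn mn mn
        (lhA_of hl) (hK.inH hO k7as_ok) (hK.inH hN k4ss_ok)
        AllOk.nil (dOk hK t rfl OR.s)) rg
        (by norm_num) (by norm_num) (by norm_num) (by norm_num)
    · obtain ⟨rfl, rfl⟩ := hk.z_ (hL.zr rfl)
      exact b4c_of (tuseC hK Bx ld6 t c6_1b_2s_z mn mn mn
        (lh_ringZ_of hl) (hK.inH hO k7zs_ok) (hK.inH hN k4ss_ok)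
        AllOk.nil (dOk hK t rfl OR.s)) rg
        (by norm_num) (by norm_num) (by norm_num) (by norm_num)
    · obtain rfl := hk.s_
      exact b4c_of (tuseC hK Bx ld6 t c6_1b_2s_s mn mn mn
        (lh_one_of hl) (hK.inH hO k8ss_ok) (hK.inH hN k4ss_ok)
        AllOk.nil (dOk hK t rfl OR.s)) rg
        (by norm_num) (by norm_num) (by norm_num) (by norm_num)

theorem c6_twoE {k : Cl} {s : Bool} (t : RDt K 6 l x dl ll dr rr w kl kr)
    (hC : Bh x dr rr .twoE) (hk : Oh l dl ll k s)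
    (hl : (hbox .ring k s).In (yH l (RR w kl) (Complex.cos w)))
    (rg : Rg (yH x (RR w kr) (Complex.cos w)) (zeta w)) :
    (rc6 .twoE).In (yH x (RR w kr) (Complex.cos w)) (zeta w) := by
  have hN := t.right.ok.right.symm
  have hO := t.right.ok.left
  have hL := t.left.ok.right.symm
  obtain ⟨rfl, rfl, rfl⟩ := hC.twoE
  cases l
  · exact absurd rfl t.left.ok.ne
  · obtain rfl := hk.a_
    exact b4c_of (tuseC hK Bx ld6 t c6_1c_2e_a mn mn mn
      (lhA_of hl) (hK.inH hO k7as_ok) (hK.inH hN k3es_ok)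
      AllOk.nil (dOk hK t rfl OR.e)) rg
      (by norm_num) (by norm_num) (by norm_num) (by norm_num)
  · obtain ⟨rfl, rfl⟩ := hk.z_ (hL.zr rfl)
    exact b4c_of (tuseC hK Bx ld6 t c6_1c_2e_z mn mn mn
      (lh_ringZ_of hl) (hK.inH hO k7zs_ok) (hK.inH hN k3es_ok)
      AllOk.nil (dOk hK t rfl OR.e)) rg
      (by norm_num) (by norm_num) (by norm_num) (by norm_num)
  · obtain rfl := hk.s_
    exact b4c_of (tuseC hK Bx ld6 t c6_1c_2e_s mn mn mn
      (lh_one_of hl) (hK.inH hO k8ss_ok) (hK.inH hN k3es_ok)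
      AllOk.nil (dOk hK t rfl OR.e)) rg
      (by norm_num) (by norm_num) (by norm_num) (by norm_num)

theorem c5_one {k : Cl} {s : Bool} (t : RDt K 5 l x dl ll dr rr w kl kr)
    (hC : Bh x dr rr .one) (hk : Oh l dl ll k s)
    (hl : (hbox .ring k s).In (yH l (RR w kl) (Complex.cos w))) :
    ((240 : ℤ) : ℝ) / 10000 ≤ (zeta w).im := by
  have hN := t.right.ok.right.symm
  have hO := t.right.ok.left
  have hL := t.left.ok.right.symm
  rcases hC.one with ⟨rfl, rfl⟩ | ⟨rfl, rfl⟩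
  · have e2 := far_s t.right.ok.right
    subst e2
    cases l
    · exact absurd rfl t.left.ok.ne
    · obtain rfl := hk.a_
      exact br_of (tuseC hK Bx ld5 t r5_1a_u_a mn mn mn
        (lhA_of hl) (hK.inH hO k5aa_ok) (hK.inH hN k2as_ok)
        (aPa hK t rfl) (dOk hK t rfl (OR.st (by decide))))
    · obtain ⟨rfl, rfl⟩ := hk.z_ (hL.zr rfl)
      exact br_of (tuseC hK Bx ld5 t r5_1a_u_z mn mn mn
        (lh_ringZ_of hl) (hK.inH hO k5az_ok) (hK.inH hN k2as_ok)
        AllOk.nil (dOk hK t rfl (OR.st (by decide))))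
    · obtain rfl := hk.s_
      exact br_of (tuseC hK Bx ld5 t r5_1a_u_s mn mn mn
        (lh_one_of hl) (hK.inH hO k6as_ok) (hK.inH hN k2as_ok)
        AllOk.nil (dOk hK t rfl (OR.st (by decide))))
  · cases rr
    · exact absurd rfl (hN.one rfl).2.1
    · cases l
      · exact absurd rfl t.left.ok.ne
      · obtain rfl := hk.a_
        exact br_of (tuseC hK Bx ld5 t r5_1a_1a_a mn mn mn
          (lhA_of hl) (hK.inH hO k6as_ok) (hK.inH hN k2as_ok)
          AllOk.nil (dOk hK t rfl (OR.a1 (by norm_num))))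
      · obtain ⟨rfl, rfl⟩ := hk.z_ (hL.zr rfl)
        exact br_of (tuseC hK Bx ld5 t r5_1a_1a_z mn mn mn
          (lh_ringZ_of hl) (hK.inH hO k6zs_ok) (hK.inH hN k2as_ok)
          AllOk.nil (dOk hK t rfl (OR.a1 (by norm_num))))
      · obtain rfl := hk.s_
        exact br_of (tuseC hK Bx ld5 t r5_1a_1a_s mn mn mn
          (lh_one_of hl) (hK.inH hO k7ss_ok) (hK.inH hN k2as_ok)
          AllOk.nil (dOk hK t rfl (OR.a1 (by norm_num))))
    · exact absurd (hN.zl rfl) (by norm_num)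
    · cases l
      · exact absurd rfl t.left.ok.ne
      · obtain rfl := hk.a_
        exact br_of (tuseC hK Bx ld5 t r5_1a_1s_a mn mn mn
          (lhA_of hl) (hK.inH hO k6as_ok) (hK.inH hN k3ss_ok)
          AllOk.nil (dOk hK t rfl OR.s))
      · obtain ⟨rfl, rfl⟩ := hk.z_ (hL.zr rfl)
        exact br_of (tuseC hK Bx ld5 t r5_1a_1s_z mn mn mn
          (lh_ringZ_of hl) (hK.inH hO k6zs_ok) (hK.inH hN k3ss_ok)
          AllOk.nil (dOk hK t rfl OR.s))
      · obtain rfl := hk.s_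
        exact br_of (tuseC hK Bx ld5 t r5_1a_1s_s mn mn mn
          (lh_one_of hl) (hK.inH hO k7ss_ok) (hK.inH hN k3ss_ok)
          AllOk.nil (dOk hK t rfl OR.s))

theorem c5_two {k : Cl} {s : Bool} (t : RDt K 5 l x dl ll dr rr w kl kr)
    (hC : Bh x dr rr .two) (hk : Oh l dl ll k s)
    (hl : (hbox .ring k s).In (yH l (RR w kl) (Complex.cos w))) :
    ((240 : ℤ) : ℝ) / 10000 ≤ (zeta w).im := by
  have hN := t.right.ok.right.symm
  have hO := t.right.ok.left
  have hL := t.left.ok.right.symm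
  obtain ⟨rfl, rfl, hre⟩ := hC.two
  cases rr
  · exact absurd rfl hre
  · cases l
    · exact absurd rfl t.left.ok.ne
    · obtain rfl := hk.a_
      exact br_of (tuseC hK Bx ld5 t r5_1b_2a_a mn mn mn
        (lhA_of hl) (hK.inH hO k6as_ok) (hK.inH hN k3as_ok)
        AllOk.nil (dOk hK t rfl OR.a))
    · obtain ⟨rfl, rfl⟩ := hk.z_ (hL.zr rfl)
      exact br_of (tuseC hK Bx ld5 t r5_1b_2a_z mn mn mn
        (lh_ringZ_of hl) (hK.inH hO k6zs_ok) (hK.inH hN k3as_ok)
        AllOk.nil (dOk hK t rfl OR.a))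
    · obtain rfl := hk.s_
      exact br_of (tuseC hK Bx ld5 t r5_1b_2a_s mn mn mn
        (lh_one_of hl) (hK.inH hO k7ss_ok) (hK.inH hN k3as_ok)
        AllOk.nil (dOk hK t rfl OR.a))
  · exact absurd (hN.zl rfl) (by norm_num)
  · cases l
    · exact absurd rfl t.left.ok.ne
    · obtain rfl := hk.a_
      exact br_of (tuseC hK Bx ld5 t r5_1b_2s_a mn mn mn
        (lhA_of hl) (hK.inH hO k6as_ok) (hK.inH hN k4ss_ok)
        AllOk.nil (dOk hK t rfl OR.s))
    · obtain ⟨rfl, rfl⟩ := hk.z_ (hL.zr rfl)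
      exact br_of (tuseC hK Bx ld5 t r5_1b_2s_z mn mn mn
        (lh_ringZ_of hl) (hK.inH hO k6zs_ok) (hK.inH hN k4ss_ok)
        AllOk.nil (dOk hK t rfl OR.s))
    · obtain rfl := hk.s_
      exact br_of (tuseC hK Bx ld5 t r5_1b_2s_s mn mn mn
        (lh_one_of hl) (hK.inH hO k7ss_ok) (hK.inH hN k4ss_ok)
        AllOk.nil (dOk hK t rfl OR.s))

theorem c5_twoE {k : Cl} {s : Bool} (t : RDt K 5 l x dl ll dr rr w kl kr)
    (hC : Bh x dr rr .twoE) (hk : Oh l dl ll k s)
    (hl : (hbox .ring k s).In (yH l (RR w kl) (Complex.cos w))) :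
    ((240 : ℤ) : ℝ) / 10000 ≤ (zeta w).im := by
  have hN := t.right.ok.right.symm
  have hO := t.right.ok.left
  have hL := t.left.ok.right.symm
  obtain ⟨rfl, rfl, rfl⟩ := hC.twoE
  cases l
  · exact absurd rfl t.left.ok.ne
  · obtain rfl := hk.a_
    exact br_of (tuseC hK Bx ld5 t r5_1c_2e_a mn mn mn
      (lhA_of hl) (hK.inH hO k6as_ok) (hK.inH hN k3es_ok)
      AllOk.nil (dOk hK t rfl OR.e))
  · obtain ⟨rfl, rfl⟩ := hk.z_ (hL.zr rfl)
    exact br_of (tuseC hK Bx ld5 t r5_1c_2e_z mn mn mn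
      (lh_ringZ_of hl) (hK.inH hO k6zs_ok) (hK.inH hN k3es_ok)
      AllOk.nil (dOk hK t rfl OR.e))
  · obtain rfl := hk.s_
    exact br_of (tuseC hK Bx ld5 t r5_1c_2e_s mn mn mn
      (lh_one_of hl) (hK.inH hO k7ss_ok) (hK.inH hN k3es_ok)
      AllOk.nil (dOk hK t rfl OR.e))

/-- the hinge next to the digit `1`, 6 crossings -/
theorem rc6_of {C k : Cl} {s : Bool} (t : RDt K 6 l x dl ll dr rr w kl kr) (hC : Bh x dr rr C)
    (hk : Oh l dl ll k s) (hl : (hbox .ring k s).In (yH l (RR w kl) (Complex.cos w)))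
    (rg : Rg (yH x (RR w kr) (Complex.cos w)) (zeta w)) :
    (rc6 C).In (yH x (RR w kr) (Complex.cos w)) (zeta w) := by
  rcases hC.cases t.right (by norm_num) with rfl | rfl | rfl
  · exact c6_one hK Bx t hC hk hl rg
  · exact c6_two hK Bx t hC hk hl rg
  · exact c6_twoE hK Bx t hC hk hl rg

/-- the height of the ring variable, 5 crossings -/
theorem rh5_of {C k : Cl} {s : Bool} (t : RDt K 5 l x dl ll dr rr w kl kr) (hC : Bh x dr rr C)
    (hk : Oh l dl ll k s) (hl : (hbox .ring k s).In (yH l (RR w kl) (Complex.cos w))) :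
    ((240 : ℤ) : ℝ) / 10000 ≤ (zeta w).im := by
  rcases hC.cases t.right (by norm_num) with rfl | rfl | rfl
  · exact c5_one hK Bx t hC hk hl
  · exact c5_two hK Bx t hC hk hl
  · exact c5_twoE hK Bx t hC hk hl

end

end

end Pool.Agent.Work.MP_b30479_gt.G2.CN.TD
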