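import Pool.Agent.Work.MP_b30479_gt.G2.CN.LocRwA
import Pool.Agent.Work.MP_b30479_gt.G2.CN.TTabK
import Pool.Agent.Work.MP_b30479_gt.G2.CN.TTabR
import Pool.Agent.Work.MP_b30479_gt.G2.CN.TTabQe

/-!
# Windows of the rings of a word next to a digit `1`, reduced form
-/

namespace Pool.Agent.Work.MP_b30479_gt.G2.CN.TD

open Complex SR
open scoped ComplexConjugate

noncomputable section

section
variable {M : ℕ} {b : Fin (M + 1) → ℤ} {w : ℕ → ℂ}
variable (hb : ClassW b) (F : RingFacts) (hw : Sol b w) (hM : 1 ≤ M) {K : KFam}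
  (hS : Snd K b w) (Bx : BoxRows K)
include hb F hw hM hS Bx

/-- the windows from the windows of the rows, class two behind the digit `1` -/
theorem locRk_mk {n : ℕ} (hn : 4 ≤ n) {q : Cl → Bool → R4} {ka : Cl → Bool → ℤ}
    (H4 : n = 4 → LocR4 b (zsW b w))
    (Q : ∀ {l x : SK} {dl : ℕ} {ll : SK} {dr : ℕ} {rr : SK} {w kl kr : ℂ} {k : Cl} {s : Bool},
      RDt K n l x dl ll dr rr w kl kr → Bh x dr rr .two → Oh l dl ll k s →
      (n = 4 → (r4 false k s).In (yH l (RR w kl) (Complex.cos w)) (zeta w)) →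
      (hbox .ring k s).In (yH l (RR w kl) (Complex.cos w)) →
      Rg (yH x (RR w kr) (Complex.cos w)) (zeta w) →
      (q k s).In (yH x (RR w kr) (Complex.cos w)) (zeta w) ∧
        (yH x (RR w kr) (Complex.cos w)).re - (ka k s : ℝ) / 10000 ≤
          (zeta w).im - (yH x (RR w kr) (Complex.cos w)).im) : LocRk n q ka b (zsW b w) := by
  have key : ∀ {h h' h2 : Fin M} {i j k g : Fin (M + 1)} {p : Fin 3} (v : ZZ (tyW b)), v.1 = i →
      Adj h i p j → Adj h2 j p g → Adj h' i p.rev k → clsW b i = .ring → (b i).natAbs = n →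
      clsW b j = .one → clsW b g = .two →
      (q (clsW b k) (ssW b h')).In (ofr (b i) (zsW b w (.inl (.inl h))))
        (ofz (b i) (zsW b w (.inr v))) ∧
      (ofr (b i) (zsW b w (.inl (.inl h)))).re - (ka (clsW b k) (ssW b h') : ℝ) / 10000 ≤
        (ofz (b i) (zsW b w (.inr v))).im - (ofr (b i) (zsW b w (.inl (.inl h)))).im := by
    intro h h' h2 i j k g p v hv A A3 A2 hi hni hj hg
    obtain ⟨l, x, dl, ll, dr, rr, kl, kr, t, y1, y2, ez, hC, hk, hl, rg, rg', hend⟩ :=
      rw_of hb F hw hM hS Bx v hv A A3 A2 hi (by omega) hj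
    rw [hg] at hC
    rw [ez, y2]
    rw [hni] at t
    refine Q t hC hk (fun h5 => ?_) hl rg
    have g4 := (H4 h5).four v hv A2 hi (by omega)
    rw [hend, y1, ez] at g4
    exact g4
  constructor
  · intro h h' h2 i j k g p v hv A A3 A2 hi hni hj hg
    exact (key v hv A A3 A2 hi hni hj hg).1
  · intro h h' h2 i j k g p v hv A A3 A2 hi hni hj hg
    exact (key v hv A A3 A2 hi hni hj hg).2

/-- the windows from the windows of the rows, by the class behind the digit `1` -/
theorem locRc_mk {n : ℕ} (hn : 4 ≤ n) {q e : Cl → R4}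
    (Q : ∀ {l x : SK} {dl : ℕ} {ll : SK} {dr : ℕ} {rr : SK} {w kl kr : ℂ} {C k : Cl} {s : Bool},
      RDt K n l x dl ll dr rr w kl kr → Bh x dr rr C → Oh l dl ll k s →
      (hbox .ring k s).In (yH l (RR w kl) (Complex.cos w)) →
      Rg (yH x (RR w kr) (Complex.cos w)) (zeta w) →
      (q C).In (yH x (RR w kr) (Complex.cos w)) (zeta w))
    (E : ∀ {x : SK} {dr : ℕ} {rr : SK} {w R k' : ℂ} {C : Cl}, TDt K x n .e dr rr w R k' →
      Bh x dr rr C → Rg (yH x R (Complex.cos w)) (zeta w) →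
      (e C).In (yH x R (Complex.cos w)) (zeta w)) : LocRc n q e b (zsW b w) := by
  constructor
  · intro h h' h2 i j k g p v hv A A3 A2 hi hni hj
    obtain ⟨l, x, dl, ll, dr, rr, kl, kr, t, y1, y2, ez, hC, hk, hl, rg, rg', hend⟩ :=
      rw_of hb F hw hM hS Bx v hv A A3 A2 hi (by omega) hj
    rw [ez, y2]
    rw [hni] at t
    exact Q t hC hk hl rg
  · intro h h2 i j g p v hv A A3 hend hi hni hj
    have hL := loc_of_boxes hb F hw hM hS Bx
    obtain ⟨x, l, d', l', R', k', t, hy, he, sd⟩ := side_sd hb F hw hS Bx A (by omega)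
    have hle := he.2 hend
    subst hle
    have hi1 : clsW b i ≠ .one := by
      rw [hi]
      decide
    have hC := beh_of hb F hw hS A A3 sd hi1 hj t.h.ok.right.symm.zr
    have hbx := box_cls Bx t.h (by omega) sd.cls
    subst hv
    have z0 := zb_rg (by omega) (zb_of hL v he)
    have y0 := hb_rg hbx
    rw [ofz_own, hy]
    rw [hni] at t
    exact E t hC ⟨y0.1, y0.2, z0.1, z0.2⟩

/-- the lower bound for the heights from the rows -/
theorem locRh_mk {n : ℕ} (hn : 4 ≤ n) {m : ℤ}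
    (Q : ∀ {l x : SK} {dl : ℕ} {ll : SK} {dr : ℕ} {rr : SK} {w kl kr : ℂ} {C k : Cl} {s : Bool},
      RDt K n l x dl ll dr rr w kl kr → Bh x dr rr C → Oh l dl ll k s →
      (hbox .ring k s).In (yH l (RR w kl) (Complex.cos w)) → (m : ℝ) / 10000 ≤ (zeta w).im) :
    LocRh n m b (zsW b w) := by
  intro h h' h2 i j k g p v hv A A3 A2 hi hni hj
  obtain ⟨l, x, dl, ll, dr, rr, kl, kr, t, y1, y2, ez, hC, hk, hl, rg, rg', hend⟩ :=
    rw_of hb F hw hM hS Bx v hv A A3 A2 hi (by omega) hj
  rw [ez]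
  rw [hni] at t
  exact Q t hC hk hl

end

section
variable {M : ℕ} {b : Fin (M + 1) → ℤ} {w : ℕ → ℂ}
variable (hb : ClassW b) (F : RingFacts) (hw : Sol b w) (hM : 1 ≤ M) {K : KFam} (hK : KOK K)
  (hS : Snd K b w) (Bx : BoxRows K)
include hb F hw hM hK hS Bx

/-- **Windows of the rings with four crossings next to a digit `1`, class two behind it.** -/
theorem locRk4_of : LocRk 4 rk4 ka4 b (zsW b w) :=
  locRk_mk hb F hw hM hS Bx (by norm_num) (fun _ => locR4_of hb F hw hM hK hS Bx)
    (fun t hC hk h4 _ rg => rk4_of hK Bx t hC hk (h4 rfl) rg)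

/-- **Windows of the rings with five crossings next to a digit `1`, class two behind it.** -/
theorem locRk5_of : LocRk 5 rk5 ka5 b (zsW b w) :=
  locRk_mk hb F hw hM hS Bx (by norm_num) (fun h => absurd h (by norm_num))
    (fun t hC hk _ hl rg => rk5_of hK Bx t hC hk hl rg)

/-- **Windows of the rings with six crossings next to a digit `1`.** -/
theorem locRc6_of : LocRc 6 rc6 re6 b (zsW b w) :=
  locRc_mk hb F hw hM hS Bx (by norm_num) (fun t hC hk hl rg => rc6_of hK Bx t hC hk hl rg)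
    (fun t hC rg => re6_of hK t hC rg)

/-- **The height of the rings with five crossings next to a digit `1`.** -/
theorem locRh5_of : LocRh 5 240 b (zsW b w) :=
  locRh_mk hb F hw hM hS Bx (by norm_num) (fun t hC hk hl => rh5_of hK Bx t hC hk hl)

/-- **The height of the rings with four crossings next to a digit `1`.** -/
theorem locRh4_of : LocRh 4 330 b (zsW b w) := by
  intro h h' h2 i j k g p v hv A A3 A2 hi hni hj
  obtain ⟨l, x, dl, ll, dr, rr, kl, kr, t, y1, y2, ez, hC, hk, hl, rg, rg', hend⟩ :=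
    rw_of hb F hw hM hS Bx v hv A A3 A2 hi (by omega) hj
  have g4 := (locR4_of hb F hw hM hK hS Bx).four v hv A hi (by omega)
  rw [hend, hj] at g4
  have h0 := g4.r0
  cases hs : ssW b h <;> rw [hs] at h0 <;> simpa [r4, mk4] using h0

end

end

end Pool.Agent.Work.MP_b30479_gt.G2.CN.TD
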