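import Pool.Agent.Work.MP_b30479_gt.G2.WRng0
import Pool.Agent.Work.MP_b30479_gt.G2.CN.LocR3
import Pool.Agent.Work.MP_b30479_gt.G2.CN.LocRR

/-!
# The location facts of the hinges of rings
-/

namespace Pool.Agent.Work.MP_b30479_gt.G2.CN.TD

open Complex SR

noncomputable section

variable {M : ℕ} {b : Fin (M + 1) → ℤ} {w : ℕ → ℂ}

/-- **The location facts of the hinges of rings.** -/
theorem locR_of (hb : ClassW b) (F : RingFacts) (hw : Sol b w) (hM : 1 ≤ M) {K : KFam}
    (hK : KOK K) (hS : Snd K b w) (Bx : BoxRows K) : LocR b (zsW b w) :=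
  ⟨fun A hi hj => LA.rr_of hb F hw hK hS Bx A hi hj, (loc3_of hb F hw hM hK hS Bx).three⟩

end

end Pool.Agent.Work.MP_b30479_gt.G2.CN.TD
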