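import Pool.Agent.Work.MP_b30479_gt.G2.CN.TQ5I
import Pool.Agent.Work.MP_b30479_gt.G2.CN.TQ6E
import Pool.Agent.Work.MP_b30479_gt.G2.CN.LocBh
import Pool.Agent.Work.MP_b30479_gt.G2.CN.TDatg
import Pool.Agent.Work.MP_b30479_gt.G2.CN.TDatd
import Pool.Agent.Work.MP_b30479_gt.G2.CN.TLh
import Pool.Agent.Work.MP_b30479_gt.G2.CN.TLka
import Pool.Agent.Work.MP_b30479_gt.G2.CN.TLkb
import Pool.Agent.Work.MP_b30479_gt.G2.CN.TLkd

/-!
# Rings with 6 crossings next to a digit `1`
-/

namespace Pool.Agent.Work.MP_b30479_gt.G2.CN.TD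

open Complex SR

noncomputable section

section
variable {K : KFam} (hK : KOK K) (Bx : BoxRows K) {l x : SK} {dl : ℕ} {ll : SK} {dr : ℕ} {rr : SK}
  {w kl kr : ℂ}
include hK Bx

theorem q6_one_one {s : Bool} (t : RDt K 6 l x dl ll dr rr w kl kr) (hC : Bh x dr rr .one)
    (hk : Oh l dl ll .one s)
    (hl : (hbox .ring .one s).In (yH l (RR w kl) (Complex.cos w)))
    (rg : Rg (yH x (RR w kr) (Complex.cos w)) (zeta w)) :
    (rq6 .one .one s).In (yH x (RR w kr) (Complex.cos w)) (zeta w) := by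
  have hN := t.right.ok.right.symm
  have hO := t.right.ok.left
  have hL := t.left.ok.right.symm
  rcases hC.one with ⟨rfl, rfl⟩ | ⟨rfl, rfl⟩
  · have e2 := far_s t.right.ok.right
    subst e2
    rcases hk.one hL.zr t.left.ok.ne with ⟨rfl, rfl⟩ | rfl
    · have e1 := far_s t.left.ok.right
      subst e1
      exact b4c_of (tuseC hK Bx ld6 t o6_1a_1_u_xa mn mn mn
        (lh_one_of hl) (hK.inH hO k6aa_ok) (hK.inH hN k2as_ok)
        AllOk.nil (dOk hK t rfl (OR.st (by decide)))) rg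
        (by norm_num) (by norm_num) (by norm_num) (by norm_num)
    · exact b4c_of (tuseC hK Bx ld6 t o6_1a_1_u_xs mn mn mn
        (lh_one_of hl) (hK.inH hO k7as_ok) (hK.inH hN k2as_ok)
        AllOk.nil (dOk hK t rfl (OR.st (by decide)))) rg
        (by norm_num) (by norm_num) (by norm_num) (by norm_num)
  · cases rr
    · exact absurd rfl (hN.one rfl).2.1
    · rcases hk.one hL.zr t.left.ok.ne with ⟨rfl, rfl⟩ | rfl
      · have e1 := far_s t.left.ok.right
        subst e1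
        exact b4c_of (tuseC hK Bx ld6 t o6_1a_1_1a_xa mn mn mn
          (lh_one_of hl) (hK.inH hO k7as_ok) (hK.inH hN k2as_ok)
          AllOk.nil (dOk hK t rfl (OR.a1 (by norm_num)))) rg
          (by norm_num) (by norm_num) (by norm_num) (by norm_num)
      · exact b4c_of (tuseC hK Bx ld6 t o6_1a_1_1a_xs mn mn mn
          (lh_one_of hl) (hK.inH hO k8ss_ok) (hK.inH hN k2as_ok)
          AllOk.nil (dOk hK t rfl (OR.a1 (by norm_num)))) rg
          (by norm_num) (by norm_num) (by norm_num) (by norm_num)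
    · exact absurd (hN.zl rfl) (by norm_num)
    · rcases hk.one hL.zr t.left.ok.ne with ⟨rfl, rfl⟩ | rfl
      · have e1 := far_s t.left.ok.right
        subst e1
        exact b4c_of (tuseC hK Bx ld6 t o6_1a_1_1s_xa mn mn mn
          (lh_one_of hl) (hK.inH hO k7as_ok) (hK.inH hN k3ss_ok)
          AllOk.nil (dOk hK t rfl OR.s)) rg
          (by norm_num) (by norm_num) (by norm_num) (by norm_num)
      · exact b4c_of (tuseC hK Bx ld6 t o6_1a_1_1s_xs mn mn mn
          (lh_one_of hl) (hK.inH hO k8ss_ok) (hK.inH hN k3ss_ok)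
          AllOk.nil (dOk hK t rfl OR.s)) rg
          (by norm_num) (by norm_num) (by norm_num) (by norm_num)

theorem q6_one_two {s : Bool} (t : RDt K 6 l x dl ll dr rr w kl kr) (hC : Bh x dr rr .one)
    (hk : Oh l dl ll .two s)
    (hl : (hbox .ring .two s).In (yH l (RR w kl) (Complex.cos w)))
    (rg : Rg (yH x (RR w kr) (Complex.cos w)) (zeta w)) :
    (rq6 .one .two s).In (yH x (RR w kr) (Complex.cos w)) (zeta w) := by
  have hN := t.right.ok.right.symm
  have hO := t.right.ok.left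
  have hL := t.left.ok.right.symm
  rcases hC.one with ⟨rfl, rfl⟩ | ⟨rfl, rfl⟩
  · have e2 := far_s t.right.ok.right
    subst e2
    obtain ⟨rfl, rfl, hle⟩ := hk.two hL.zr t.left.ok.ne
    exact b4c_of (tuseC hK Bx ld6 t o6_1a_2_u_xa mn mn mn
      (lh_two_of hl) (hK.inH hO k6aa_ok) (hK.inH hN k2as_ok)
      AllOk.nil (dOk hK t rfl (OR.st (by decide)))) rg
      (by norm_num) (by norm_num) (by norm_num) (by norm_num)
  · cases rr
    · exact absurd rfl (hN.one rfl).2.1
    · obtain ⟨rfl, rfl, hle⟩ := hk.two hL.zr t.left.ok.ne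
      exact b4c_of (tuseC hK Bx ld6 t o6_1a_2_1a_xa mn mn mn
        (lh_two_of hl) (hK.inH hO k7as_ok) (hK.inH hN k2as_ok)
        AllOk.nil (dOk hK t rfl (OR.a1 (by norm_num)))) rg
        (by norm_num) (by norm_num) (by norm_num) (by norm_num)
    · exact absurd (hN.zl rfl) (by norm_num)
    · obtain ⟨rfl, rfl, hle⟩ := hk.two hL.zr t.left.ok.ne
      exact b4c_of (tuseC hK Bx ld6 t o6_1a_2_1s_xa mn mn mn
        (lh_two_of hl) (hK.inH hO k7as_ok) (hK.inH hN k3ss_ok)
        AllOk.nil (dOk hK t rfl OR.s)) rg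
        (by norm_num) (by norm_num) (by norm_num) (by norm_num)

theorem q6_one_twoE {s : Bool} (t : RDt K 6 l x dl ll dr rr w kl kr) (hC : Bh x dr rr .one)
    (hk : Oh l dl ll .twoE s)
    (hl : (hbox .ring .twoE s).In (yH l (RR w kl) (Complex.cos w)))
    (rg : Rg (yH x (RR w kr) (Complex.cos w)) (zeta w)) :
    (rq6 .one .twoE s).In (yH x (RR w kr) (Complex.cos w)) (zeta w) := by
  have hN := t.right.ok.right.symm
  have hO := t.right.ok.left
  have hL := t.left.ok.right.symm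
  rcases hC.one with ⟨rfl, rfl⟩ | ⟨rfl, rfl⟩
  · have e2 := far_s t.right.ok.right
    subst e2
    obtain ⟨rfl, rfl, rfl⟩ := hk.twoE hL.zr t.left.ok.ne
    exact b4c_of (tuseC hK Bx ld6 t o6_1a_2e_u_xa mn mn mn
      (lh_twoE_of hl) (hK.inH hO k6aa_ok) (hK.inH hN k2as_ok)
      AllOk.nil (dOk hK t rfl (OR.st (by decide)))) rg
      (by norm_num) (by norm_num) (by norm_num) (by norm_num)
  · cases rr
    · exact absurd rfl (hN.one rfl).2.1
    · obtain ⟨rfl, rfl, rfl⟩ := hk.twoE hL.zr t.left.ok.ne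
      exact b4c_of (tuseC hK Bx ld6 t o6_1a_2e_1a_xa mn mn mn
        (lh_twoE_of hl) (hK.inH hO k7as_ok) (hK.inH hN k2as_ok)
        AllOk.nil (dOk hK t rfl (OR.a1 (by norm_num)))) rg
        (by norm_num) (by norm_num) (by norm_num) (by norm_num)
    · exact absurd (hN.zl rfl) (by norm_num)
    · obtain ⟨rfl, rfl, rfl⟩ := hk.twoE hL.zr t.left.ok.ne
      exact b4c_of (tuseC hK Bx ld6 t o6_1a_2e_1s_xa mn mn mn
        (lh_twoE_of hl) (hK.inH hO k7as_ok) (hK.inH hN k3ss_ok)
        AllOk.nil (dOk hK t rfl OR.s)) rg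
        (by norm_num) (by norm_num) (by norm_num) (by norm_num)

theorem q6_one_three {s : Bool} (t : RDt K 6 l x dl ll dr rr w kl kr) (hC : Bh x dr rr .one)
    (hk : Oh l dl ll .three s)
    (hl : (hbox .ring .three s).In (yH l (RR w kl) (Complex.cos w)))
    (rg : Rg (yH x (RR w kr) (Complex.cos w)) (zeta w)) :
    (rq6 .one .three s).In (yH x (RR w kr) (Complex.cos w)) (zeta w) := by
  have hN := t.right.ok.right.symm
  have hO := t.right.ok.left
  have hL := t.left.ok.right.symm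
  rcases hC.one with ⟨rfl, rfl⟩ | ⟨rfl, rfl⟩
  · have e2 := far_s t.right.ok.right
    subst e2
    obtain ⟨rfl, rfl, hle⟩ := hk.three hL.zr t.left.ok.ne
    exact b4c_of (tuseC hK Bx ld6 t o6_1a_3_u_xa mn mn mn
      (lh_three_of hl) (hK.inH hO k6aa_ok) (hK.inH hN k2as_ok)
      AllOk.nil (dOk hK t rfl (OR.st (by decide)))) rg
      (by norm_num) (by norm_num) (by norm_num) (by norm_num)
  · cases rr
    · exact absurd rfl (hN.one rfl).2.1
    · obtain ⟨rfl, rfl, hle⟩ := hk.three hL.zr t.left.ok.ne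
      exact b4c_of (tuseC hK Bx ld6 t o6_1a_3_1a_xa mn mn mn
        (lh_three_of hl) (hK.inH hO k7as_ok) (hK.inH hN k2as_ok)
        AllOk.nil (dOk hK t rfl (OR.a1 (by norm_num)))) rg
        (by norm_num) (by norm_num) (by norm_num) (by norm_num)
    · exact absurd (hN.zl rfl) (by norm_num)
    · obtain ⟨rfl, rfl, hle⟩ := hk.three hL.zr t.left.ok.ne
      exact b4c_of (tuseC hK Bx ld6 t o6_1a_3_1s_xa mn mn mn
        (lh_three_of hl) (hK.inH hO k7as_ok) (hK.inH hN k3ss_ok)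
        AllOk.nil (dOk hK t rfl OR.s)) rg
        (by norm_num) (by norm_num) (by norm_num) (by norm_num)

theorem q6_one_threeE {s : Bool} (t : RDt K 6 l x dl ll dr rr w kl kr) (hC : Bh x dr rr .one)
    (hk : Oh l dl ll .threeE s)
    (hl : (hbox .ring .threeE s).In (yH l (RR w kl) (Complex.cos w)))
    (rg : Rg (yH x (RR w kr) (Complex.cos w)) (zeta w)) :
    (rq6 .one .threeE s).In (yH x (RR w kr) (Complex.cos w)) (zeta w) := by
  have hN := t.right.ok.right.symm
  have hO := t.right.ok.left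
  have hL := t.left.ok.right.symm
  rcases hC.one with ⟨rfl, rfl⟩ | ⟨rfl, rfl⟩
  · have e2 := far_s t.right.ok.right
    subst e2
    obtain ⟨rfl, rfl, rfl⟩ := hk.threeE hL.zr t.left.ok.ne
    exact b4c_of (tuseC hK Bx ld6 t o6_1a_3e_u_xa mn mn mn
      (lh_threeE_of hl) (hK.inH hO k6aa_ok) (hK.inH hN k2as_ok)
      AllOk.nil (dOk hK t rfl (OR.st (by decide)))) rg
      (by norm_num) (by norm_num) (by norm_num) (by norm_num)
  · cases rr
    · exact absurd rfl (hN.one rfl).2.1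
    · obtain ⟨rfl, rfl, rfl⟩ := hk.threeE hL.zr t.left.ok.ne
      exact b4c_of (tuseC hK Bx ld6 t o6_1a_3e_1a_xa mn mn mn
        (lh_threeE_of hl) (hK.inH hO k7as_ok) (hK.inH hN k2as_ok)
        AllOk.nil (dOk hK t rfl (OR.a1 (by norm_num)))) rg
        (by norm_num) (by norm_num) (by norm_num) (by norm_num)
    · exact absurd (hN.zl rfl) (by norm_num)
    · obtain ⟨rfl, rfl, rfl⟩ := hk.threeE hL.zr t.left.ok.ne
      exact b4c_of (tuseC hK Bx ld6 t o6_1a_3e_1s_xa mn mn mn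
        (lh_threeE_of hl) (hK.inH hO k7as_ok) (hK.inH hN k3ss_ok)
        AllOk.nil (dOk hK t rfl OR.s)) rg
        (by norm_num) (by norm_num) (by norm_num) (by norm_num)

theorem q6_one_ringA (t : RDt K 6 l x dl ll dr rr w kl kr) (hC : Bh x dr rr .one)
    (hk : Oh l dl ll .ring false)
    (hl : (hbox .ring .ring false).In (yH l (RR w kl) (Complex.cos w)))
    (rg : Rg (yH x (RR w kr) (Complex.cos w)) (zeta w)) :
    (rq6 .one .ring false).In (yH x (RR w kr) (Complex.cos w)) (zeta w) := by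
  have hN := t.right.ok.right.symm
  have hO := t.right.ok.left
  have hL := t.left.ok.right.symm
  rcases hC.one with ⟨rfl, rfl⟩ | ⟨rfl, rfl⟩
  · have e2 := far_s t.right.ok.right
    subst e2
    rcases hk.ring hL.pos t.left.ok.ne with ⟨rfl, -, hl4⟩ | ⟨-, h9, -⟩
    · exact b4c_of (tuseC hK Bx ld6 t o6_1a_Z_u_xa mn mn mn
        (lh_ringA_of hl) (hK.inH hO k6aa_ok) (hK.inH hN k2as_ok)
        AllOk.nil (dOk hK t rfl (OR.st (by decide)))) rg
        (by norm_num) (by norm_num) (by norm_num) (by norm_num)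
    · exact absurd h9 (by decide)
  · cases rr
    · exact absurd rfl (hN.one rfl).2.1
    · rcases hk.ring hL.pos t.left.ok.ne with ⟨rfl, -, hl4⟩ | ⟨-, h9, -⟩
      · exact b4c_of (tuseC hK Bx ld6 t o6_1a_Z_1a_xa mn mn mn
          (lh_ringA_of hl) (hK.inH hO k7as_ok) (hK.inH hN k2as_ok)
          AllOk.nil (dOk hK t rfl (OR.a1 (by norm_num)))) rg
          (by norm_num) (by norm_num) (by norm_num) (by norm_num)
      · exact absurd h9 (by decide)
    · exact absurd (hN.zl rfl) (by norm_num)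
    · rcases hk.ring hL.pos t.left.ok.ne with ⟨rfl, -, hl4⟩ | ⟨-, h9, -⟩
      · exact b4c_of (tuseC hK Bx ld6 t o6_1a_Z_1s_xa mn mn mn
          (lh_ringA_of hl) (hK.inH hO k7as_ok) (hK.inH hN k3ss_ok)
          AllOk.nil (dOk hK t rfl OR.s)) rg
          (by norm_num) (by norm_num) (by norm_num) (by norm_num)
      · exact absurd h9 (by decide)

theorem q6_one_ringZ (t : RDt K 6 l x dl ll dr rr w kl kr) (hC : Bh x dr rr .one)
    (hk : Oh l dl ll .ring true)
    (hl : (hbox .ring .ring true).In (yH l (RR w kl) (Complex.cos w)))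
    (rg : Rg (yH x (RR w kr) (Complex.cos w)) (zeta w)) :
    (rq6 .one .ring true).In (yH x (RR w kr) (Complex.cos w)) (zeta w) := by
  have hN := t.right.ok.right.symm
  have hO := t.right.ok.left
  have hL := t.left.ok.right.symm
  rcases hC.one with ⟨rfl, rfl⟩ | ⟨rfl, rfl⟩
  · have e2 := far_s t.right.ok.right
    subst e2
    rcases hk.ring hL.pos t.left.ok.ne with ⟨-, h9, -⟩ | ⟨rfl, -, hl4⟩
    · exact absurd h9 (by decide)
    · exact b4c_of (tuseC hK Bx ld6 t o6_1a_Zs_u_xz mn mn mn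
        (lh_ringZ_of hl) (hK.inH hO k6az_ok) (hK.inH hN k2as_ok)
        AllOk.nil (dOk hK t rfl (OR.st (by decide)))) rg
        (by norm_num) (by norm_num) (by norm_num) (by norm_num)
  · cases rr
    · exact absurd rfl (hN.one rfl).2.1
    · rcases hk.ring hL.pos t.left.ok.ne with ⟨-, h9, -⟩ | ⟨rfl, -, hl4⟩
      · exact absurd h9 (by decide)
      · exact b4c_of (tuseC hK Bx ld6 t o6_1a_Zs_1a_xz mn mn mn
          (lh_ringZ_of hl) (hK.inH hO k7zs_ok) (hK.inH hN k2as_ok)
          AllOk.nil (dOk hK t rfl (OR.a1 (by norm_num)))) rg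
          (by norm_num) (by norm_num) (by norm_num) (by norm_num)
    · exact absurd (hN.zl rfl) (by norm_num)
    · rcases hk.ring hL.pos t.left.ok.ne with ⟨-, h9, -⟩ | ⟨rfl, -, hl4⟩
      · exact absurd h9 (by decide)
      · exact b4c_of (tuseC hK Bx ld6 t o6_1a_Zs_1s_xz mn mn mn
          (lh_ringZ_of hl) (hK.inH hO k7zs_ok) (hK.inH hN k3ss_ok)
          AllOk.nil (dOk hK t rfl OR.s)) rg
          (by norm_num) (by norm_num) (by norm_num) (by norm_num)

theorem q6_two_one {s : Bool} (t : RDt K 6 l x dl ll dr rr w kl kr) (hC : Bh x dr rr .two)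
    (hk : Oh l dl ll .one s)
    (hl : (hbox .ring .one s).In (yH l (RR w kl) (Complex.cos w)))
    (rg : Rg (yH x (RR w kr) (Complex.cos w)) (zeta w)) :
    (rq6 .two .one s).In (yH x (RR w kr) (Complex.cos w)) (zeta w) := by
  have hN := t.right.ok.right.symm
  have hO := t.right.ok.left
  have hL := t.left.ok.right.symm
  obtain ⟨rfl, rfl, hre⟩ := hC.two
  cases rr
  · exact absurd rfl hre
  · rcases hk.one hL.zr t.left.ok.ne with ⟨rfl, rfl⟩ | rfl
    · have e1 := far_s t.left.ok.right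
      subst e1
      exact b4c_of (tuseC hK Bx ld6 t o6_1b_1_2a_xa mn mn mn
        (lh_one_of hl) (hK.inH hO k7as_ok) (hK.inH hN k3as_ok)
        AllOk.nil (dOk hK t rfl OR.a)) rg
        (by norm_num) (by norm_num) (by norm_num) (by norm_num)
    · exact b4c_of (tuseC hK Bx ld6 t o6_1b_1_2a_xs mn mn mn
        (lh_one_of hl) (hK.inH hO k8ss_ok) (hK.inH hN k3as_ok)
        AllOk.nil (dOk hK t rfl OR.a)) rg
        (by norm_num) (by norm_num) (by norm_num) (by norm_num)
  · exact absurd (hN.zl rfl) (by norm_num)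
  · rcases hk.one hL.zr t.left.ok.ne with ⟨rfl, rfl⟩ | rfl
    · have e1 := far_s t.left.ok.right
      subst e1
      exact b4c_of (tuseC hK Bx ld6 t o6_1b_1_2s_xa mn mn mn
        (lh_one_of hl) (hK.inH hO k7as_ok) (hK.inH hN k4ss_ok)
        AllOk.nil (dOk hK t rfl OR.s)) rg
        (by norm_num) (by norm_num) (by norm_num) (by norm_num)
    · exact b4c_of (tuseC hK Bx ld6 t o6_1b_1_2s_xs mn mn mn
        (lh_one_of hl) (hK.inH hO k8ss_ok) (hK.inH hN k4ss_ok)
        AllOk.nil (dOk hK t rfl OR.s)) rg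
        (by norm_num) (by norm_num) (by norm_num) (by norm_num)

theorem q6_two_two {s : Bool} (t : RDt K 6 l x dl ll dr rr w kl kr) (hC : Bh x dr rr .two)
    (hk : Oh l dl ll .two s)
    (hl : (hbox .ring .two s).In (yH l (RR w kl) (Complex.cos w)))
    (rg : Rg (yH x (RR w kr) (Complex.cos w)) (zeta w)) :
    (rq6 .two .two s).In (yH x (RR w kr) (Complex.cos w)) (zeta w) := by
  have hN := t.right.ok.right.symm
  have hO := t.right.ok.left
  have hL := t.left.ok.right.symm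
  obtain ⟨rfl, rfl, hre⟩ := hC.two
  cases rr
  · exact absurd rfl hre
  · obtain ⟨rfl, rfl, hle⟩ := hk.two hL.zr t.left.ok.ne
    exact b4c_of (tuseC hK Bx ld6 t o6_1b_2_2a_xa mn mn mn
      (lh_two_of hl) (hK.inH hO k7as_ok) (hK.inH hN k3as_ok)
      AllOk.nil (dOk hK t rfl OR.a)) rg
      (by norm_num) (by norm_num) (by norm_num) (by norm_num)
  · exact absurd (hN.zl rfl) (by norm_num)
  · obtain ⟨rfl, rfl, hle⟩ := hk.two hL.zr t.left.ok.ne
    exact b4c_of (tuseC hK Bx ld6 t o6_1b_2_2s_xa mn mn mn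
      (lh_two_of hl) (hK.inH hO k7as_ok) (hK.inH hN k4ss_ok)
      AllOk.nil (dOk hK t rfl OR.s)) rg
      (by norm_num) (by norm_num) (by norm_num) (by norm_num)

theorem q6_two_twoE {s : Bool} (t : RDt K 6 l x dl ll dr rr w kl kr) (hC : Bh x dr rr .two)
    (hk : Oh l dl ll .twoE s)
    (hl : (hbox .ring .twoE s).In (yH l (RR w kl) (Complex.cos w)))
    (rg : Rg (yH x (RR w kr) (Complex.cos w)) (zeta w)) :
    (rq6 .two .twoE s).In (yH x (RR w kr) (Complex.cos w)) (zeta w) := by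
  have hN := t.right.ok.right.symm
  have hO := t.right.ok.left
  have hL := t.left.ok.right.symm
  obtain ⟨rfl, rfl, hre⟩ := hC.two
  cases rr
  · exact absurd rfl hre
  · obtain ⟨rfl, rfl, rfl⟩ := hk.twoE hL.zr t.left.ok.ne
    exact b4c_of (tuseC hK Bx ld6 t o6_1b_2e_2a_xa mn mn mn
      (lh_twoE_of hl) (hK.inH hO k7as_ok) (hK.inH hN k3as_ok)
      AllOk.nil (dOk hK t rfl OR.a)) rg
      (by norm_num) (by norm_num) (by norm_num) (by norm_num)
  · exact absurd (hN.zl rfl) (by norm_num)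
  · obtain ⟨rfl, rfl, rfl⟩ := hk.twoE hL.zr t.left.ok.ne
    exact b4c_of (tuseC hK Bx ld6 t o6_1b_2e_2s_xa mn mn mn
      (lh_twoE_of hl) (hK.inH hO k7as_ok) (hK.inH hN k4ss_ok)
      AllOk.nil (dOk hK t rfl OR.s)) rg
      (by norm_num) (by norm_num) (by norm_num) (by norm_num)

theorem q6_two_three {s : Bool} (t : RDt K 6 l x dl ll dr rr w kl kr) (hC : Bh x dr rr .two)
    (hk : Oh l dl ll .three s)
    (hl : (hbox .ring .three s).In (yH l (RR w kl) (Complex.cos w)))
    (rg : Rg (yH x (RR w kr) (Complex.cos w)) (zeta w)) :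
    (rq6 .two .three s).In (yH x (RR w kr) (Complex.cos w)) (zeta w) := by
  have hN := t.right.ok.right.symm
  have hO := t.right.ok.left
  have hL := t.left.ok.right.symm
  obtain ⟨rfl, rfl, hre⟩ := hC.two
  cases rr
  · exact absurd rfl hre
  · obtain ⟨rfl, rfl, hle⟩ := hk.three hL.zr t.left.ok.ne
    exact b4c_of (tuseC hK Bx ld6 t o6_1b_3_2a_xa mn mn mn
      (lh_three_of hl) (hK.inH hO k7as_ok) (hK.inH hN k3as_ok)
      AllOk.nil (dOk hK t rfl OR.a)) rg
      (by norm_num) (by norm_num) (by norm_num) (by norm_num)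
  · exact absurd (hN.zl rfl) (by norm_num)
  · obtain ⟨rfl, rfl, hle⟩ := hk.three hL.zr t.left.ok.ne
    exact b4c_of (tuseC hK Bx ld6 t o6_1b_3_2s_xa mn mn mn
      (lh_three_of hl) (hK.inH hO k7as_ok) (hK.inH hN k4ss_ok)
      AllOk.nil (dOk hK t rfl OR.s)) rg
      (by norm_num) (by norm_num) (by norm_num) (by norm_num)

theorem q6_two_threeE {s : Bool} (t : RDt K 6 l x dl ll dr rr w kl kr) (hC : Bh x dr rr .two)
    (hk : Oh l dl ll .threeE s)
    (hl : (hbox .ring .threeE s).In (yH l (RR w kl) (Complex.cos w)))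
    (rg : Rg (yH x (RR w kr) (Complex.cos w)) (zeta w)) :
    (rq6 .two .threeE s).In (yH x (RR w kr) (Complex.cos w)) (zeta w) := by
  have hN := t.right.ok.right.symm
  have hO := t.right.ok.left
  have hL := t.left.ok.right.symm
  obtain ⟨rfl, rfl, hre⟩ := hC.two
  cases rr
  · exact absurd rfl hre
  · obtain ⟨rfl, rfl, rfl⟩ := hk.threeE hL.zr t.left.ok.ne
    exact b4c_of (tuseC hK Bx ld6 t o6_1b_3e_2a_xa mn mn mn
      (lh_threeE_of hl) (hK.inH hO k7as_ok) (hK.inH hN k3as_ok)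
      AllOk.nil (dOk hK t rfl OR.a)) rg
      (by norm_num) (by norm_num) (by norm_num) (by norm_num)
  · exact absurd (hN.zl rfl) (by norm_num)
  · obtain ⟨rfl, rfl, rfl⟩ := hk.threeE hL.zr t.left.ok.ne
    exact b4c_of (tuseC hK Bx ld6 t o6_1b_3e_2s_xa mn mn mn
      (lh_threeE_of hl) (hK.inH hO k7as_ok) (hK.inH hN k4ss_ok)
      AllOk.nil (dOk hK t rfl OR.s)) rg
      (by norm_num) (by norm_num) (by norm_num) (by norm_num)

theorem q6_two_ringA (t : RDt K 6 l x dl ll dr rr w kl kr) (hC : Bh x dr rr .two)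
    (hk : Oh l dl ll .ring false)
    (hl : (hbox .ring .ring false).In (yH l (RR w kl) (Complex.cos w)))
    (rg : Rg (yH x (RR w kr) (Complex.cos w)) (zeta w)) :
    (rq6 .two .ring false).In (yH x (RR w kr) (Complex.cos w)) (zeta w) := by
  have hN := t.right.ok.right.symm
  have hO := t.right.ok.left
  have hL := t.left.ok.right.symm
  obtain ⟨rfl, rfl, hre⟩ := hC.two
  cases rr
  · exact absurd rfl hre
  · rcases hk.ring hL.pos t.left.ok.ne with ⟨rfl, -, hl4⟩ | ⟨-, h9, -⟩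
    · exact b4c_of (tuseC hK Bx ld6 t o6_1b_Z_2a_xa mn mn mn
        (lh_ringA_of hl) (hK.inH hO k7as_ok) (hK.inH hN k3as_ok)
        AllOk.nil (dOk hK t rfl OR.a)) rg
        (by norm_num) (by norm_num) (by norm_num) (by norm_num)
    · exact absurd h9 (by decide)
  · exact absurd (hN.zl rfl) (by norm_num)
  · rcases hk.ring hL.pos t.left.ok.ne with ⟨rfl, -, hl4⟩ | ⟨-, h9, -⟩
    · exact b4c_of (tuseC hK Bx ld6 t o6_1b_Z_2s_xa mn mn mn
        (lh_ringA_of hl) (hK.inH hO k7as_ok) (hK.inH hN k4ss_ok)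
        AllOk.nil (dOk hK t rfl OR.s)) rg
        (by norm_num) (by norm_num) (by norm_num) (by norm_num)
    · exact absurd h9 (by decide)

theorem q6_two_ringZ (t : RDt K 6 l x dl ll dr rr w kl kr) (hC : Bh x dr rr .two)
    (hk : Oh l dl ll .ring true)
    (hl : (hbox .ring .ring true).In (yH l (RR w kl) (Complex.cos w)))
    (rg : Rg (yH x (RR w kr) (Complex.cos w)) (zeta w)) :
    (rq6 .two .ring true).In (yH x (RR w kr) (Complex.cos w)) (zeta w) := by
  have hN := t.right.ok.right.symm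
  have hO := t.right.ok.left
  have hL := t.left.ok.right.symm
  obtain ⟨rfl, rfl, hre⟩ := hC.two
  cases rr
  · exact absurd rfl hre
  · rcases hk.ring hL.pos t.left.ok.ne with ⟨-, h9, -⟩ | ⟨rfl, -, hl4⟩
    · exact absurd h9 (by decide)
    · exact b4c_of (tuseC hK Bx ld6 t o6_1b_Zs_2a_xz mn mn mn
        (lh_ringZ_of hl) (hK.inH hO k7zs_ok) (hK.inH hN k3as_ok)
        AllOk.nil (dOk hK t rfl OR.a)) rg
        (by norm_num) (by norm_num) (by norm_num) (by norm_num)
  · exact absurd (hN.zl rfl) (by norm_num)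
  · rcases hk.ring hL.pos t.left.ok.ne with ⟨-, h9, -⟩ | ⟨rfl, -, hl4⟩
    · exact absurd h9 (by decide)
    · exact b4c_of (tuseC hK Bx ld6 t o6_1b_Zs_2s_xz mn mn mn
        (lh_ringZ_of hl) (hK.inH hO k7zs_ok) (hK.inH hN k4ss_ok)
        AllOk.nil (dOk hK t rfl OR.s)) rg
        (by norm_num) (by norm_num) (by norm_num) (by norm_num)

theorem q6_twoE_one {s : Bool} (t : RDt K 6 l x dl ll dr rr w kl kr) (hC : Bh x dr rr .twoE)
    (hk : Oh l dl ll .one s)
    (hl : (hbox .ring .one s).In (yH l (RR w kl) (Complex.cos w)))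
    (rg : Rg (yH x (RR w kr) (Complex.cos w)) (zeta w)) :
    (rq6 .twoE .one s).In (yH x (RR w kr) (Complex.cos w)) (zeta w) := by
  have hN := t.right.ok.right.symm
  have hO := t.right.ok.left
  have hL := t.left.ok.right.symm
  obtain ⟨rfl, rfl, rfl⟩ := hC.twoE
  rcases hk.one hL.zr t.left.ok.ne with ⟨rfl, rfl⟩ | rfl
  · have e1 := far_s t.left.ok.right
    subst e1
    exact b4c_of (tuseC hK Bx ld6 t o6_1c_1_2e_xa mn mn mn
      (lh_one_of hl) (hK.inH hO k7as_ok) (hK.inH hN k3es_ok)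
      AllOk.nil (dOk hK t rfl OR.e)) rg
      (by norm_num) (by norm_num) (by norm_num) (by norm_num)
  · exact b4c_of (tuseC hK Bx ld6 t o6_1c_1_2e_xs mn mn mn
      (lh_one_of hl) (hK.inH hO k8ss_ok) (hK.inH hN k3es_ok)
      AllOk.nil (dOk hK t rfl OR.e)) rg
      (by norm_num) (by norm_num) (by norm_num) (by norm_num)

theorem q6_twoE_two {s : Bool} (t : RDt K 6 l x dl ll dr rr w kl kr) (hC : Bh x dr rr .twoE)
    (hk : Oh l dl ll .two s)
    (hl : (hbox .ring .two s).In (yH l (RR w kl) (Complex.cos w)))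
    (rg : Rg (yH x (RR w kr) (Complex.cos w)) (zeta w)) :
    (rq6 .twoE .two s).In (yH x (RR w kr) (Complex.cos w)) (zeta w) := by
  have hN := t.right.ok.right.symm
  have hO := t.right.ok.left
  have hL := t.left.ok.right.symm
  obtain ⟨rfl, rfl, rfl⟩ := hC.twoE
  obtain ⟨rfl, rfl, hle⟩ := hk.two hL.zr t.left.ok.ne
  exact b4c_of (tuseC hK Bx ld6 t o6_1c_2_2e_xa mn mn mn
    (lh_two_of hl) (hK.inH hO k7as_ok) (hK.inH hN k3es_ok)
    AllOk.nil (dOk hK t rfl OR.e)) rg
    (by norm_num) (by norm_num) (by norm_num) (by norm_num)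

theorem q6_twoE_twoE {s : Bool} (t : RDt K 6 l x dl ll dr rr w kl kr) (hC : Bh x dr rr .twoE)
    (hk : Oh l dl ll .twoE s)
    (hl : (hbox .ring .twoE s).In (yH l (RR w kl) (Complex.cos w)))
    (rg : Rg (yH x (RR w kr) (Complex.cos w)) (zeta w)) :
    (rq6 .twoE .twoE s).In (yH x (RR w kr) (Complex.cos w)) (zeta w) := by
  have hN := t.right.ok.right.symm
  have hO := t.right.ok.left
  have hL := t.left.ok.right.symm
  obtain ⟨rfl, rfl, rfl⟩ := hC.twoE
  obtain ⟨rfl, rfl, rfl⟩ := hk.twoE hL.zr t.left.ok.ne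
  exact b4c_of (tuseC hK Bx ld6 t o6_1c_2e_2e_xa mn mn mn
    (lh_twoE_of hl) (hK.inH hO k7as_ok) (hK.inH hN k3es_ok)
    AllOk.nil (dOk hK t rfl OR.e)) rg
    (by norm_num) (by norm_num) (by norm_num) (by norm_num)

theorem q6_twoE_three {s : Bool} (t : RDt K 6 l x dl ll dr rr w kl kr) (hC : Bh x dr rr .twoE)
    (hk : Oh l dl ll .three s)
    (hl : (hbox .ring .three s).In (yH l (RR w kl) (Complex.cos w)))
    (rg : Rg (yH x (RR w kr) (Complex.cos w)) (zeta w)) :
    (rq6 .twoE .three s).In (yH x (RR w kr) (Complex.cos w)) (zeta w) := by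
  have hN := t.right.ok.right.symm
  have hO := t.right.ok.left
  have hL := t.left.ok.right.symm
  obtain ⟨rfl, rfl, rfl⟩ := hC.twoE
  obtain ⟨rfl, rfl, hle⟩ := hk.three hL.zr t.left.ok.ne
  exact b4c_of (tuseC hK Bx ld6 t o6_1c_3_2e_xa mn mn mn
    (lh_three_of hl) (hK.inH hO k7as_ok) (hK.inH hN k3es_ok)
    AllOk.nil (dOk hK t rfl OR.e)) rg
    (by norm_num) (by norm_num) (by norm_num) (by norm_num)

theorem q6_twoE_threeE {s : Bool} (t : RDt K 6 l x dl ll dr rr w kl kr) (hC : Bh x dr rr .twoE)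
    (hk : Oh l dl ll .threeE s)
    (hl : (hbox .ring .threeE s).In (yH l (RR w kl) (Complex.cos w)))
    (rg : Rg (yH x (RR w kr) (Complex.cos w)) (zeta w)) :
    (rq6 .twoE .threeE s).In (yH x (RR w kr) (Complex.cos w)) (zeta w) := by
  have hN := t.right.ok.right.symm
  have hO := t.right.ok.left
  have hL := t.left.ok.right.symm
  obtain ⟨rfl, rfl, rfl⟩ := hC.twoE
  obtain ⟨rfl, rfl, rfl⟩ := hk.threeE hL.zr t.left.ok.ne
  exact b4c_of (tuseC hK Bx ld6 t o6_1c_3e_2e_xa mn mn mn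
    (lh_threeE_of hl) (hK.inH hO k7as_ok) (hK.inH hN k3es_ok)
    AllOk.nil (dOk hK t rfl OR.e)) rg
    (by norm_num) (by norm_num) (by norm_num) (by norm_num)

theorem q6_twoE_ringA (t : RDt K 6 l x dl ll dr rr w kl kr) (hC : Bh x dr rr .twoE)
    (hk : Oh l dl ll .ring false)
    (hl : (hbox .ring .ring false).In (yH l (RR w kl) (Complex.cos w)))
    (rg : Rg (yH x (RR w kr) (Complex.cos w)) (zeta w)) :
    (rq6 .twoE .ring false).In (yH x (RR w kr) (Complex.cos w)) (zeta w) := by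
  have hN := t.right.ok.right.symm
  have hO := t.right.ok.left
  have hL := t.left.ok.right.symm
  obtain ⟨rfl, rfl, rfl⟩ := hC.twoE
  rcases hk.ring hL.pos t.left.ok.ne with ⟨rfl, -, hl4⟩ | ⟨-, h9, -⟩
  · exact b4c_of (tuseC hK Bx ld6 t o6_1c_Z_2e_xa mn mn mn
      (lh_ringA_of hl) (hK.inH hO k7as_ok) (hK.inH hN k3es_ok)
      AllOk.nil (dOk hK t rfl OR.e)) rg
      (by norm_num) (by norm_num) (by norm_num) (by norm_num)
  · exact absurd h9 (by decide)

theorem q6_twoE_ringZ (t : RDt K 6 l x dl ll dr rr w kl kr) (hC : Bh x dr rr .twoE)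
    (hk : Oh l dl ll .ring true)
    (hl : (hbox .ring .ring true).In (yH l (RR w kl) (Complex.cos w)))
    (rg : Rg (yH x (RR w kr) (Complex.cos w)) (zeta w)) :
    (rq6 .twoE .ring true).In (yH x (RR w kr) (Complex.cos w)) (zeta w) := by
  have hN := t.right.ok.right.symm
  have hO := t.right.ok.left
  have hL := t.left.ok.right.symm
  obtain ⟨rfl, rfl, rfl⟩ := hC.twoE
  rcases hk.ring hL.pos t.left.ok.ne with ⟨-, h9, -⟩ | ⟨rfl, -, hl4⟩
  · exact absurd h9 (by decide)
  · exact b4c_of (tuseC hK Bx ld6 t o6_1c_Zs_2e_xz mn mn mn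
      (lh_ringZ_of hl) (hK.inH hO k7zs_ok) (hK.inH hN k3es_ok)
      AllOk.nil (dOk hK t rfl OR.e)) rg
      (by norm_num) (by norm_num) (by norm_num) (by norm_num)

theorem p6_one_two {s : Bool} (t : RDt K 6 l x dl ll dr rr w kl kr) (hC : Bh l dl ll .one)
    (hk : Oh x dr rr .two s)
    (hl : (rq6 .one .two s).In (yH l (RR w kl) (Complex.cos w)) (zeta w))
    (rg : Rg (yH x (RR w kr) (Complex.cos w)) (zeta w)) :
    (rp6 .one .two s).In (yH x (RR w kr) (Complex.cos w)) (zeta w) := by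
  have hN := t.right.ok.right.symm
  have hO := t.right.ok.left
  have hL := t.left.ok.right.symm
  obtain ⟨rfl, rfl, hre⟩ := hk.two hN.zr t.right.ok.ne
  cases rr
  · exact absurd rfl hre
  · rcases hC.one with ⟨rfl, rfl⟩ | ⟨rfl, rfl⟩
    · have e1 := far_s t.left.ok.right
      subst e1
      exact b4c_of (tuseC hK Bx ld6 t p6_1a_2_k2a_xa mn mn mn
        (lo6_one_two_of hl) (hK.inH hO k6aa_ok) (hK.inH hN k2aa_ok)
        AllOk.nil (dOk hK t rfl OR.a)) rg
        (by norm_num) (by norm_num) (by norm_num) (by norm_num)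
    · exact b4c_of (tuseC hK Bx ld6 t p6_1a_2_k2a_xs mn mn mn
        (lo6_one_two_of hl) (hK.inH hO k7as_ok) (hK.inH hN k2aa_ok)
        AllOk.nil (dOk hK t rfl OR.a)) rg
        (by norm_num) (by norm_num) (by norm_num) (by norm_num)
  · exact absurd (hN.zl rfl) (by norm_num)
  · rcases hC.one with ⟨rfl, rfl⟩ | ⟨rfl, rfl⟩
    · have e1 := far_s t.left.ok.right
      subst e1
      exact b4c_of (tuseC hK Bx ld6 t p6_1a_2_k2s_xa mn mn mn
        (lo6_one_two_of hl) (hK.inH hO k6aa_ok) (hK.inH hN k3as_ok)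
        AllOk.nil (dOk hK t rfl OR.s)) rg
        (by norm_num) (by norm_num) (by norm_num) (by norm_num)
    · exact b4c_of (tuseC hK Bx ld6 t p6_1a_2_k2s_xs mn mn mn
        (lo6_one_two_of hl) (hK.inH hO k7as_ok) (hK.inH hN k3as_ok)
        AllOk.nil (dOk hK t rfl OR.s)) rg
        (by norm_num) (by norm_num) (by norm_num) (by norm_num)

theorem p6_one_twoE {s : Bool} (t : RDt K 6 l x dl ll dr rr w kl kr) (hC : Bh l dl ll .one)
    (hk : Oh x dr rr .twoE s)
    (hl : (rq6 .one .twoE s).In (yH l (RR w kl) (Complex.cos w)) (zeta w))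
    (rg : Rg (yH x (RR w kr) (Complex.cos w)) (zeta w)) :
    (rp6 .one .twoE s).In (yH x (RR w kr) (Complex.cos w)) (zeta w) := by
  have hN := t.right.ok.right.symm
  have hO := t.right.ok.left
  have hL := t.left.ok.right.symm
  obtain ⟨rfl, rfl, rfl⟩ := hk.twoE hN.zr t.right.ok.ne
  rcases hC.one with ⟨rfl, rfl⟩ | ⟨rfl, rfl⟩
  · have e1 := far_s t.left.ok.right
    subst e1
    exact b4c_of (tuseC hK Bx ld6 t p6_1a_2e_k2e_xa mn mn mn
      (lo6_one_twoE_of hl) (hK.inH hO k6aa_ok) (hK.inH hN k2ea_ok)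
      AllOk.nil (dOk hK t rfl OR.e)) rg
      (by norm_num) (by norm_num) (by norm_num) (by norm_num)
  · exact b4c_of (tuseC hK Bx ld6 t p6_1a_2e_k2e_xs mn mn mn
      (lo6_one_twoE_of hl) (hK.inH hO k7as_ok) (hK.inH hN k2ea_ok)
      AllOk.nil (dOk hK t rfl OR.e)) rg
      (by norm_num) (by norm_num) (by norm_num) (by norm_num)

theorem p6_one_three {s : Bool} (t : RDt K 6 l x dl ll dr rr w kl kr) (hC : Bh l dl ll .one)
    (hk : Oh x dr rr .three s)
    (hl : (rq6 .one .three s).In (yH l (RR w kl) (Complex.cos w)) (zeta w))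
    (rg : Rg (yH x (RR w kr) (Complex.cos w)) (zeta w)) :
    (rp6 .one .three s).In (yH x (RR w kr) (Complex.cos w)) (zeta w) := by
  have hN := t.right.ok.right.symm
  have hO := t.right.ok.left
  have hL := t.left.ok.right.symm
  obtain ⟨rfl, rfl, hre⟩ := hk.three hN.zr t.right.ok.ne
  cases rr
  · exact absurd rfl hre
  · rcases hC.one with ⟨rfl, rfl⟩ | ⟨rfl, rfl⟩
    · have e1 := far_s t.left.ok.right
      subst e1
      exact b4c_of (tuseC hK Bx ld6 t p6_1a_3_k3a_xa mn mn mn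
        (lo6_one_three_of hl) (hK.inH hO k6aa_ok) (hK.inH hN k3aa_ok)
        AllOk.nil (dOk hK t rfl OR.a)) rg
        (by norm_num) (by norm_num) (by norm_num) (by norm_num)
    · exact b4c_of (tuseC hK Bx ld6 t p6_1a_3_k3a_xs mn mn mn
        (lo6_one_three_of hl) (hK.inH hO k7as_ok) (hK.inH hN k3aa_ok)
        AllOk.nil (dOk hK t rfl OR.a)) rg
        (by norm_num) (by norm_num) (by norm_num) (by norm_num)
  · exact absurd (hN.zl rfl) (by norm_num)
  · rcases hC.one with ⟨rfl, rfl⟩ | ⟨rfl, rfl⟩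
    · have e1 := far_s t.left.ok.right
      subst e1
      exact b4c_of (tuseC hK Bx ld6 t p6_1a_3_k3s_xa mn mn mn
        (lo6_one_three_of hl) (hK.inH hO k6aa_ok) (hK.inH hN k4as_ok)
        AllOk.nil (dOk hK t rfl OR.s)) rg
        (by norm_num) (by norm_num) (by norm_num) (by norm_num)
    · exact b4c_of (tuseC hK Bx ld6 t p6_1a_3_k3s_xs mn mn mn
        (lo6_one_three_of hl) (hK.inH hO k7as_ok) (hK.inH hN k4as_ok)
        AllOk.nil (dOk hK t rfl OR.s)) rg
        (by norm_num) (by norm_num) (by norm_num) (by norm_num)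

theorem p6_one_threeE {s : Bool} (t : RDt K 6 l x dl ll dr rr w kl kr) (hC : Bh l dl ll .one)
    (hk : Oh x dr rr .threeE s)
    (hl : (rq6 .one .threeE s).In (yH l (RR w kl) (Complex.cos w)) (zeta w))
    (rg : Rg (yH x (RR w kr) (Complex.cos w)) (zeta w)) :
    (rp6 .one .threeE s).In (yH x (RR w kr) (Complex.cos w)) (zeta w) := by
  have hN := t.right.ok.right.symm
  have hO := t.right.ok.left
  have hL := t.left.ok.right.symm
  obtain ⟨rfl, rfl, rfl⟩ := hk.threeE hN.zr t.right.ok.ne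
  rcases hC.one with ⟨rfl, rfl⟩ | ⟨rfl, rfl⟩
  · have e1 := far_s t.left.ok.right
    subst e1
    exact b4c_of (tuseC hK Bx ld6 t p6_1a_3e_k3e_xa mn mn mn
      (lo6_one_threeE_of hl) (hK.inH hO k6aa_ok) (hK.inH hN k3ea_ok)
      AllOk.nil (dOk hK t rfl OR.e)) rg
      (by norm_num) (by norm_num) (by norm_num) (by norm_num)
  · exact b4c_of (tuseC hK Bx ld6 t p6_1a_3e_k3e_xs mn mn mn
      (lo6_one_threeE_of hl) (hK.inH hO k7as_ok) (hK.inH hN k3ea_ok)
      AllOk.nil (dOk hK t rfl OR.e)) rg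
      (by norm_num) (by norm_num) (by norm_num) (by norm_num)

theorem p6_one_ringA (t : RDt K 6 l x dl ll dr rr w kl kr) (hC : Bh l dl ll .one)
    (hk : Oh x dr rr .ring false)
    (hl : (rq6 .one .ring false).In (yH l (RR w kl) (Complex.cos w)) (zeta w))
    (rg : Rg (yH x (RR w kr) (Complex.cos w)) (zeta w)) :
    (rp6 .one .ring false).In (yH x (RR w kr) (Complex.cos w)) (zeta w) := by
  have hN := t.right.ok.right.symm
  have hO := t.right.ok.left
  have hL := t.left.ok.right.symm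
  rcases hk.ring hN.pos t.right.ok.ne with ⟨rfl, -, hr4⟩ | ⟨-, h9, -⟩
  · rcases hC.one with ⟨rfl, rfl⟩ | ⟨rfl, rfl⟩
    · have e1 := far_s t.left.ok.right
      subst e1
      exact b4c_of (tuseC hK Bx ld6 t p6_1a_Z_kZ_xa mn mn mn
        (lo6_one_ringA_of hl) (hK.inH hO k6aa_ok) (in_nZa hK hN hr4)
        AllOk.nil AllOk.nil) rg
        (by norm_num) (by norm_num) (by norm_num) (by norm_num)
    · exact b4c_of (tuseC hK Bx ld6 t p6_1a_Z_kZ_xs mn mn mn
        (lo6_one_ringA_of hl) (hK.inH hO k7as_ok) (in_nZa hK hN hr4)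
        AllOk.nil AllOk.nil) rg
        (by norm_num) (by norm_num) (by norm_num) (by norm_num)
  · exact absurd h9 (by decide)

theorem p6_one_ringZ (t : RDt K 6 l x dl ll dr rr w kl kr) (hC : Bh l dl ll .one)
    (hk : Oh x dr rr .ring true)
    (hl : (rq6 .one .ring true).In (yH l (RR w kl) (Complex.cos w)) (zeta w))
    (rg : Rg (yH x (RR w kr) (Complex.cos w)) (zeta w)) :
    (rp6 .one .ring true).In (yH x (RR w kr) (Complex.cos w)) (zeta w) := by
  have hN := t.right.ok.right.symm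
  have hO := t.right.ok.left
  have hL := t.left.ok.right.symm
  rcases hk.ring hN.pos t.right.ok.ne with ⟨-, h9, -⟩ | ⟨rfl, -, hr4⟩
  · exact absurd h9 (by decide)
  · rcases hC.one with ⟨rfl, rfl⟩ | ⟨rfl, rfl⟩
    · have e1 := far_s t.left.ok.right
      subst e1
      exact b4c_of (tuseC hK Bx ld6 t p6_1a_Zs_kz_xa mn mn mn
        (lo6_one_ringZ_of hl) (hK.inH hO k6az_ok) (in_nZz hK hN)
        AllOk.nil AllOk.nil) rg
        (by norm_num) (by norm_num) (by norm_num) (by norm_num)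
    · exact b4c_of (tuseC hK Bx ld6 t p6_1a_Zs_kz_xs mn mn mn
        (lo6_one_ringZ_of hl) (hK.inH hO k7zs_ok) (in_nZz hK hN)
        AllOk.nil AllOk.nil) rg
        (by norm_num) (by norm_num) (by norm_num) (by norm_num)

theorem p6_two_two {s : Bool} (t : RDt K 6 l x dl ll dr rr w kl kr) (hC : Bh l dl ll .two)
    (hk : Oh x dr rr .two s)
    (hl : (rq6 .two .two s).In (yH l (RR w kl) (Complex.cos w)) (zeta w))
    (rg : Rg (yH x (RR w kr) (Complex.cos w)) (zeta w)) :
    (rp6 .two .two s).In (yH x (RR w kr) (Complex.cos w)) (zeta w) := by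
  have hN := t.right.ok.right.symm
  have hO := t.right.ok.left
  have hL := t.left.ok.right.symm
  obtain ⟨rfl, rfl, hre⟩ := hk.two hN.zr t.right.ok.ne
  cases rr
  · exact absurd rfl hre
  · obtain ⟨rfl, rfl, hle⟩ := hC.two
    exact b4c_of (tuseC hK Bx ld6 t p6_1b_2_k2a_xs mn mn mn
      (lo6_two_two_of hl) (hK.inH hO k7as_ok) (hK.inH hN k2aa_ok)
      AllOk.nil (dOk hK t rfl OR.a)) rg
      (by norm_num) (by norm_num) (by norm_num) (by norm_num)
  · exact absurd (hN.zl rfl) (by norm_num)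
  · obtain ⟨rfl, rfl, hle⟩ := hC.two
    exact b4c_of (tuseC hK Bx ld6 t p6_1b_2_k2s_xs mn mn mn
      (lo6_two_two_of hl) (hK.inH hO k7as_ok) (hK.inH hN k3as_ok)
      AllOk.nil (dOk hK t rfl OR.s)) rg
      (by norm_num) (by norm_num) (by norm_num) (by norm_num)

theorem p6_two_twoE {s : Bool} (t : RDt K 6 l x dl ll dr rr w kl kr) (hC : Bh l dl ll .two)
    (hk : Oh x dr rr .twoE s)
    (hl : (rq6 .two .twoE s).In (yH l (RR w kl) (Complex.cos w)) (zeta w))
    (rg : Rg (yH x (RR w kr) (Complex.cos w)) (zeta w)) :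
    (rp6 .two .twoE s).In (yH x (RR w kr) (Complex.cos w)) (zeta w) := by
  have hN := t.right.ok.right.symm
  have hO := t.right.ok.left
  have hL := t.left.ok.right.symm
  obtain ⟨rfl, rfl, rfl⟩ := hk.twoE hN.zr t.right.ok.ne
  obtain ⟨rfl, rfl, hle⟩ := hC.two
  exact b4c_of (tuseC hK Bx ld6 t p6_1b_2e_k2e_xs mn mn mn
    (lo6_two_twoE_of hl) (hK.inH hO k7as_ok) (hK.inH hN k2ea_ok)
    AllOk.nil (dOk hK t rfl OR.e)) rg
    (by norm_num) (by norm_num) (by norm_num) (by norm_num)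

theorem p6_two_three {s : Bool} (t : RDt K 6 l x dl ll dr rr w kl kr) (hC : Bh l dl ll .two)
    (hk : Oh x dr rr .three s)
    (hl : (rq6 .two .three s).In (yH l (RR w kl) (Complex.cos w)) (zeta w))
    (rg : Rg (yH x (RR w kr) (Complex.cos w)) (zeta w)) :
    (rp6 .two .three s).In (yH x (RR w kr) (Complex.cos w)) (zeta w) := by
  have hN := t.right.ok.right.symm
  have hO := t.right.ok.left
  have hL := t.left.ok.right.symm
  obtain ⟨rfl, rfl, hre⟩ := hk.three hN.zr t.right.ok.ne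
  cases rr
  · exact absurd rfl hre
  · obtain ⟨rfl, rfl, hle⟩ := hC.two
    exact b4c_of (tuseC hK Bx ld6 t p6_1b_3_k3a_xs mn mn mn
      (lo6_two_three_of hl) (hK.inH hO k7as_ok) (hK.inH hN k3aa_ok)
      AllOk.nil (dOk hK t rfl OR.a)) rg
      (by norm_num) (by norm_num) (by norm_num) (by norm_num)
  · exact absurd (hN.zl rfl) (by norm_num)
  · obtain ⟨rfl, rfl, hle⟩ := hC.two
    exact b4c_of (tuseC hK Bx ld6 t p6_1b_3_k3s_xs mn mn mn
      (lo6_two_three_of hl) (hK.inH hO k7as_ok) (hK.inH hN k4as_ok)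
      AllOk.nil (dOk hK t rfl OR.s)) rg
      (by norm_num) (by norm_num) (by norm_num) (by norm_num)

theorem p6_two_threeE {s : Bool} (t : RDt K 6 l x dl ll dr rr w kl kr) (hC : Bh l dl ll .two)
    (hk : Oh x dr rr .threeE s)
    (hl : (rq6 .two .threeE s).In (yH l (RR w kl) (Complex.cos w)) (zeta w))
    (rg : Rg (yH x (RR w kr) (Complex.cos w)) (zeta w)) :
    (rp6 .two .threeE s).In (yH x (RR w kr) (Complex.cos w)) (zeta w) := by
  have hN := t.right.ok.right.symm
  have hO := t.right.ok.left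
  have hL := t.left.ok.right.symm
  obtain ⟨rfl, rfl, rfl⟩ := hk.threeE hN.zr t.right.ok.ne
  obtain ⟨rfl, rfl, hle⟩ := hC.two
  exact b4c_of (tuseC hK Bx ld6 t p6_1b_3e_k3e_xs mn mn mn
    (lo6_two_threeE_of hl) (hK.inH hO k7as_ok) (hK.inH hN k3ea_ok)
    AllOk.nil (dOk hK t rfl OR.e)) rg
    (by norm_num) (by norm_num) (by norm_num) (by norm_num)

theorem p6_two_ringA (t : RDt K 6 l x dl ll dr rr w kl kr) (hC : Bh l dl ll .two)
    (hk : Oh x dr rr .ring false)
    (hl : (rq6 .two .ring false).In (yH l (RR w kl) (Complex.cos w)) (zeta w))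
    (rg : Rg (yH x (RR w kr) (Complex.cos w)) (zeta w)) :
    (rp6 .two .ring false).In (yH x (RR w kr) (Complex.cos w)) (zeta w) := by
  have hN := t.right.ok.right.symm
  have hO := t.right.ok.left
  have hL := t.left.ok.right.symm
  rcases hk.ring hN.pos t.right.ok.ne with ⟨rfl, -, hr4⟩ | ⟨-, h9, -⟩
  · obtain ⟨rfl, rfl, hle⟩ := hC.two
    exact b4c_of (tuseC hK Bx ld6 t p6_1b_Z_kZ_xs mn mn mn
      (lo6_two_ringA_of hl) (hK.inH hO k7as_ok) (in_nZa hK hN hr4)
      AllOk.nil AllOk.nil) rg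
      (by norm_num) (by norm_num) (by norm_num) (by norm_num)
  · exact absurd h9 (by decide)

theorem p6_two_ringZ (t : RDt K 6 l x dl ll dr rr w kl kr) (hC : Bh l dl ll .two)
    (hk : Oh x dr rr .ring true)
    (hl : (rq6 .two .ring true).In (yH l (RR w kl) (Complex.cos w)) (zeta w))
    (rg : Rg (yH x (RR w kr) (Complex.cos w)) (zeta w)) :
    (rp6 .two .ring true).In (yH x (RR w kr) (Complex.cos w)) (zeta w) := by
  have hN := t.right.ok.right.symm
  have hO := t.right.ok.left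
  have hL := t.left.ok.right.symm
  rcases hk.ring hN.pos t.right.ok.ne with ⟨-, h9, -⟩ | ⟨rfl, -, hr4⟩
  · exact absurd h9 (by decide)
  · obtain ⟨rfl, rfl, hle⟩ := hC.two
    exact b4c_of (tuseC hK Bx ld6 t p6_1b_Zs_kz_xs mn mn mn
      (lo6_two_ringZ_of hl) (hK.inH hO k7zs_ok) (in_nZz hK hN)
      AllOk.nil AllOk.nil) rg
      (by norm_num) (by norm_num) (by norm_num) (by norm_num)

theorem p6_twoE_two {s : Bool} (t : RDt K 6 l x dl ll dr rr w kl kr) (hC : Bh l dl ll .twoE)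
    (hk : Oh x dr rr .two s)
    (hl : (rq6 .twoE .two s).In (yH l (RR w kl) (Complex.cos w)) (zeta w))
    (rg : Rg (yH x (RR w kr) (Complex.cos w)) (zeta w)) :
    (rp6 .twoE .two s).In (yH x (RR w kr) (Complex.cos w)) (zeta w) := by
  have hN := t.right.ok.right.symm
  have hO := t.right.ok.left
  have hL := t.left.ok.right.symm
  obtain ⟨rfl, rfl, hre⟩ := hk.two hN.zr t.right.ok.ne
  cases rr
  · exact absurd rfl hre
  · obtain ⟨rfl, rfl, rfl⟩ := hC.twoE
    exact b4c_of (tuseC hK Bx ld6 t p6_1c_2_k2a_xs mn mn mn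
      (lo6_twoE_two_of hl) (hK.inH hO k7as_ok) (hK.inH hN k2aa_ok)
      AllOk.nil (dOk hK t rfl OR.a)) rg
      (by norm_num) (by norm_num) (by norm_num) (by norm_num)
  · exact absurd (hN.zl rfl) (by norm_num)
  · obtain ⟨rfl, rfl, rfl⟩ := hC.twoE
    exact b4c_of (tuseC hK Bx ld6 t p6_1c_2_k2s_xs mn mn mn
      (lo6_twoE_two_of hl) (hK.inH hO k7as_ok) (hK.inH hN k3as_ok)
      AllOk.nil (dOk hK t rfl OR.s)) rg
      (by norm_num) (by norm_num) (by norm_num) (by norm_num)

theorem p6_twoE_twoE {s : Bool} (t : RDt K 6 l x dl ll dr rr w kl kr) (hC : Bh l dl ll .twoE)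
    (hk : Oh x dr rr .twoE s)
    (hl : (rq6 .twoE .twoE s).In (yH l (RR w kl) (Complex.cos w)) (zeta w))
    (rg : Rg (yH x (RR w kr) (Complex.cos w)) (zeta w)) :
    (rp6 .twoE .twoE s).In (yH x (RR w kr) (Complex.cos w)) (zeta w) := by
  have hN := t.right.ok.right.symm
  have hO := t.right.ok.left
  have hL := t.left.ok.right.symm
  obtain ⟨rfl, rfl, rfl⟩ := hk.twoE hN.zr t.right.ok.ne
  obtain ⟨rfl, rfl, rfl⟩ := hC.twoE
  exact b4c_of (tuseC hK Bx ld6 t p6_1c_2e_k2e_xs mn mn mn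
    (lo6_twoE_twoE_of hl) (hK.inH hO k7as_ok) (hK.inH hN k2ea_ok)
    AllOk.nil (dOk hK t rfl OR.e)) rg
    (by norm_num) (by norm_num) (by norm_num) (by norm_num)

theorem p6_twoE_three {s : Bool} (t : RDt K 6 l x dl ll dr rr w kl kr) (hC : Bh l dl ll .twoE)
    (hk : Oh x dr rr .three s)
    (hl : (rq6 .twoE .three s).In (yH l (RR w kl) (Complex.cos w)) (zeta w))
    (rg : Rg (yH x (RR w kr) (Complex.cos w)) (zeta w)) :
    (rp6 .twoE .three s).In (yH x (RR w kr) (Complex.cos w)) (zeta w) := by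
  have hN := t.right.ok.right.symm
  have hO := t.right.ok.left
  have hL := t.left.ok.right.symm
  obtain ⟨rfl, rfl, hre⟩ := hk.three hN.zr t.right.ok.ne
  cases rr
  · exact absurd rfl hre
  · obtain ⟨rfl, rfl, rfl⟩ := hC.twoE
    exact b4c_of (tuseC hK Bx ld6 t p6_1c_3_k3a_xs mn mn mn
      (lo6_twoE_three_of hl) (hK.inH hO k7as_ok) (hK.inH hN k3aa_ok)
      AllOk.nil (dOk hK t rfl OR.a)) rg
      (by norm_num) (by norm_num) (by norm_num) (by norm_num)
  · exact absurd (hN.zl rfl) (by norm_num)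
  · obtain ⟨rfl, rfl, rfl⟩ := hC.twoE
    exact b4c_of (tuseC hK Bx ld6 t p6_1c_3_k3s_xs mn mn mn
      (lo6_twoE_three_of hl) (hK.inH hO k7as_ok) (hK.inH hN k4as_ok)
      AllOk.nil (dOk hK t rfl OR.s)) rg
      (by norm_num) (by norm_num) (by norm_num) (by norm_num)

theorem p6_twoE_threeE {s : Bool} (t : RDt K 6 l x dl ll dr rr w kl kr) (hC : Bh l dl ll .twoE)
    (hk : Oh x dr rr .threeE s)
    (hl : (rq6 .twoE .threeE s).In (yH l (RR w kl) (Complex.cos w)) (zeta w))
    (rg : Rg (yH x (RR w kr) (Complex.cos w)) (zeta w)) :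
    (rp6 .twoE .threeE s).In (yH x (RR w kr) (Complex.cos w)) (zeta w) := by
  have hN := t.right.ok.right.symm
  have hO := t.right.ok.left
  have hL := t.left.ok.right.symm
  obtain ⟨rfl, rfl, rfl⟩ := hk.threeE hN.zr t.right.ok.ne
  obtain ⟨rfl, rfl, rfl⟩ := hC.twoE
  exact b4c_of (tuseC hK Bx ld6 t p6_1c_3e_k3e_xs mn mn mn
    (lo6_twoE_threeE_of hl) (hK.inH hO k7as_ok) (hK.inH hN k3ea_ok)
    AllOk.nil (dOk hK t rfl OR.e)) rg
    (by norm_num) (by norm_num) (by norm_num) (by norm_num)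

theorem p6_twoE_ringA (t : RDt K 6 l x dl ll dr rr w kl kr) (hC : Bh l dl ll .twoE)
    (hk : Oh x dr rr .ring false)
    (hl : (rq6 .twoE .ring false).In (yH l (RR w kl) (Complex.cos w)) (zeta w))
    (rg : Rg (yH x (RR w kr) (Complex.cos w)) (zeta w)) :
    (rp6 .twoE .ring false).In (yH x (RR w kr) (Complex.cos w)) (zeta w) := by
  have hN := t.right.ok.right.symm
  have hO := t.right.ok.left
  have hL := t.left.ok.right.symm
  rcases hk.ring hN.pos t.right.ok.ne with ⟨rfl, -, hr4⟩ | ⟨-, h9, -⟩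
  · obtain ⟨rfl, rfl, rfl⟩ := hC.twoE
    exact b4c_of (tuseC hK Bx ld6 t p6_1c_Z_kZ_xs mn mn mn
      (lo6_twoE_ringA_of hl) (hK.inH hO k7as_ok) (in_nZa hK hN hr4)
      AllOk.nil AllOk.nil) rg
      (by norm_num) (by norm_num) (by norm_num) (by norm_num)
  · exact absurd h9 (by decide)

theorem p6_twoE_ringZ (t : RDt K 6 l x dl ll dr rr w kl kr) (hC : Bh l dl ll .twoE)
    (hk : Oh x dr rr .ring true)
    (hl : (rq6 .twoE .ring true).In (yH l (RR w kl) (Complex.cos w)) (zeta w))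
    (rg : Rg (yH x (RR w kr) (Complex.cos w)) (zeta w)) :
    (rp6 .twoE .ring true).In (yH x (RR w kr) (Complex.cos w)) (zeta w) := by
  have hN := t.right.ok.right.symm
  have hO := t.right.ok.left
  have hL := t.left.ok.right.symm
  rcases hk.ring hN.pos t.right.ok.ne with ⟨-, h9, -⟩ | ⟨rfl, -, hr4⟩
  · exact absurd h9 (by decide)
  · obtain ⟨rfl, rfl, rfl⟩ := hC.twoE
    exact b4c_of (tuseC hK Bx ld6 t p6_1c_Zs_kz_xs mn mn mn
      (lo6_twoE_ringZ_of hl) (hK.inH hO k7zs_ok) (in_nZz hK hN)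
      AllOk.nil AllOk.nil) rg
      (by norm_num) (by norm_num) (by norm_num) (by norm_num)

/-- the hinge next to the digit `1` -/
theorem rq6_of {C k : Cl} {s : Bool} (t : RDt K 6 l x dl ll dr rr w kl kr) (hC : Bh x dr rr C)
    (hk : Oh l dl ll k s) (hl : (hbox .ring k s).In (yH l (RR w kl) (Complex.cos w)))
    (rg : Rg (yH x (RR w kr) (Complex.cos w)) (zeta w)) :
    (rq6 C k s).In (yH x (RR w kr) (Complex.cos w)) (zeta w) := by
  rcases hC.cases t.right (by norm_num) with rfl | rfl | rfl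
  · cases k
    · exact q6_one_one hK Bx t hC hk hl rg
    · exact q6_one_two hK Bx t hC hk hl rg
    · exact q6_one_twoE hK Bx t hC hk hl rg
    · exact q6_one_three hK Bx t hC hk hl rg
    · exact q6_one_threeE hK Bx t hC hk hl rg
    · cases s
      · exact q6_one_ringA hK Bx t hC hk hl rg
      · exact q6_one_ringZ hK Bx t hC hk hl rg
  · cases k
    · exact q6_two_one hK Bx t hC hk hl rg
    · exact q6_two_two hK Bx t hC hk hl rg
    · exact q6_two_twoE hK Bx t hC hk hl rg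
    · exact q6_two_three hK Bx t hC hk hl rg
    · exact q6_two_threeE hK Bx t hC hk hl rg
    · cases s
      · exact q6_two_ringA hK Bx t hC hk hl rg
      · exact q6_two_ringZ hK Bx t hC hk hl rg
  · cases k
    · exact q6_twoE_one hK Bx t hC hk hl rg
    · exact q6_twoE_two hK Bx t hC hk hl rg
    · exact q6_twoE_twoE hK Bx t hC hk hl rg
    · exact q6_twoE_three hK Bx t hC hk hl rg
    · exact q6_twoE_threeE hK Bx t hC hk hl rg
    · cases s
      · exact q6_twoE_ringA hK Bx t hC hk hl rg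
      · exact q6_twoE_ringZ hK Bx t hC hk hl rg

/-- the other hinge -/
theorem rp6_of {C k : Cl} {s : Bool} (t : RDt K 6 l x dl ll dr rr w kl kr) (hC : Bh l dl ll C)
    (hk : Oh x dr rr k s) (hk1 : k ≠ .one)
    (hl : (rq6 C k s).In (yH l (RR w kl) (Complex.cos w)) (zeta w))
    (rg : Rg (yH x (RR w kr) (Complex.cos w)) (zeta w)) :
    (rp6 C k s).In (yH x (RR w kr) (Complex.cos w)) (zeta w) := by
  rcases hC.cases t.left (by norm_num) with rfl | rfl | rfl
  · cases k
    · exact absurd rfl hk1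
    · exact p6_one_two hK Bx t hC hk hl rg
    · exact p6_one_twoE hK Bx t hC hk hl rg
    · exact p6_one_three hK Bx t hC hk hl rg
    · exact p6_one_threeE hK Bx t hC hk hl rg
    · cases s
      · exact p6_one_ringA hK Bx t hC hk hl rg
      · exact p6_one_ringZ hK Bx t hC hk hl rg
  · cases k
    · exact absurd rfl hk1
    · exact p6_two_two hK Bx t hC hk hl rg
    · exact p6_two_twoE hK Bx t hC hk hl rg
    · exact p6_two_three hK Bx t hC hk hl rg
    · exact p6_two_threeE hK Bx t hC hk hl rg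
    · cases s
      · exact p6_two_ringA hK Bx t hC hk hl rg
      · exact p6_two_ringZ hK Bx t hC hk hl rg
  · cases k
    · exact absurd rfl hk1
    · exact p6_twoE_two hK Bx t hC hk hl rg
    · exact p6_twoE_twoE hK Bx t hC hk hl rg
    · exact p6_twoE_three hK Bx t hC hk hl rg
    · exact p6_twoE_threeE hK Bx t hC hk hl rg
    · cases s
      · exact p6_twoE_ringA hK Bx t hC hk hl rg
      · exact p6_twoE_ringZ hK Bx t hC hk hl rg

end

end

end Pool.Agent.Work.MP_b30479_gt.G2.CN.TD
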