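import Pool.Agent.Work.MP_b30479_gt.G2.CN.TYt
import Pool.Agent.Work.MP_b30479_gt.G2.CN.LocBh

/-!
# Windows of the rings next to a digit `1`, seven or more crossings: the hinge of the digit `1`
-/

namespace Pool.Agent.Work.MP_b30479_gt.G2.CN.TD

open Complex SR
open scoped ComplexConjugate

noncomputable section

lemma zq7 {z : ℂ} (h : (zbox 7 false).In z) : QB 970 1500 (-400) 0 (-z) := by
  obtain ⟨h1, h2, h3, h4⟩ := h
  norm_num [zbox] at h1 h2 h3 h4
  constructor
  · simp only [Complex.neg_re, Complex.neg_im]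
    push_cast
    linarith only [h2]
  · simp only [Complex.neg_re, Complex.neg_im]
    push_cast
    linarith only [h1]
  · simp only [Complex.neg_re, Complex.neg_im]
    push_cast
    linarith only [h4]
  · simp only [Complex.neg_re, Complex.neg_im]
    push_cast
    linarith only [h3]

lemma sq64 {n : ℕ} (h8 : 8 ≤ n) : (64 : ℝ) ≤ (n : ℝ) ^ 2 := by
  have : (8 : ℝ) ≤ n := by exact_mod_cast h8
  nlinarith only [this]

lemma zq8 {n : ℕ} (h8 : 8 ≤ n) {z : ℂ} (h : (zbox n false).In z) :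
    QB 0 1550 (-360) 0 (-z) := by
  have hs := sq64 h8
  obtain ⟨h1, h2, h3, h4⟩ := h
  have n4 : n ≠ 4 := by omega
  have n5 : n ≠ 5 := by omega
  have n6 : n ≠ 6 := by omega
  have n7 : n ≠ 7 := by omega
  simp only [zbox, n4, n5, n6, n7, if_false, Bool.false_eq_true] at h1 h2 h3 h4
  have h5 : (23 : ℝ) / 10 / (n : ℝ) ^ 2 ≤ 360 / 10000 := by
    rw [div_le_iff₀ (by linarith only [hs])]
    nlinarith only [hs]
  constructor
  · simp only [Complex.neg_re, Complex.neg_im]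
    push_cast
    linarith only [h2]
  · simp only [Complex.neg_re, Complex.neg_im]
    push_cast
    linarith only [h1]
  · simp only [Complex.neg_re, Complex.neg_im]
    push_cast
    linarith only [h4, h5]
  · simp only [Complex.neg_re, Complex.neg_im]
    push_cast
    linarith only [h3]

lemma zq8e {n : ℕ} (h8 : 8 ≤ n) {z : ℂ} (h : (zbox n true).In z) :
    QB 0 1550 (-172) 0 (-z) := by
  have hs := sq64 h8
  obtain ⟨h1, h2, h3, h4⟩ := h
  have n4 : n ≠ 4 := by omega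
  have n5 : n ≠ 5 := by omega
  have n6 : n ≠ 6 := by omega
  have n7 : n ≠ 7 := by omega
  simp only [zbox, n4, n5, n6, n7, if_false, if_true] at h1 h2 h3 h4
  have h5 : (11 : ℝ) / 10 / (n : ℝ) ^ 2 ≤ 172 / 10000 := by
    rw [div_le_iff₀ (by linarith only [hs])]
    nlinarith only [hs]
  constructor
  · simp only [Complex.neg_re, Complex.neg_im]
    push_cast
    linarith only [h2]
  · simp only [Complex.neg_re, Complex.neg_im]
    push_cast
    linarith only [h1]
  · simp only [Complex.neg_re, Complex.neg_im]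
    push_cast
    linarith only [h4, h5]
  · simp only [Complex.neg_re, Complex.neg_im]
    push_cast
    linarith only [h3]

/-- the type of a side next to a digit `1` -/
lemma bh_nt {τ : NT} {x : SK} {d : ℕ} {l : SK} {C : Cl} (h : Bh x d l C) (hτ : τ.Is x d l) :
    τ.one = true ∧ τ.ring = false ∧ τ.C = C := by
  rcases h with ⟨h1, h2, h3⟩ | ⟨h1, h2⟩
  · subst h1 h2 h3
    cases τ <;> simp_all [NT.Is, NT.one, NT.ring, NT.C]
  · subst h1 h2
    cases τ <;> simp_all [NT.Is, NT.one, NT.ring, NT.C, cK]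

section
variable {K : KFam} (Bx : BoxRows K) {d : ℕ} {l x : SK} {dl : ℕ} {ll : SK} {dr : ℕ} {rr : SK}
  {w kl kr : ℂ}
include Bx

lemma tdt_r (t : RDt K d l x dl ll dr rr w kl kr) : TDt K x d l dr rr w (RR w kr) kr :=
  ⟨t.right, t.w0, t.w1, fun h5 => by subst h5; exact (Bx.sp t.right).2⟩

lemma tdt_e (t : RDe K d x dr rr w kr) : TDt K x d .e dr rr w (RR w kr) kr :=
  ⟨t.right, t.w0, t.w1, fun h5 => by subst h5; exact (Bx.sp t.right).2⟩

end

section
variable {K : KFam} (hK : KOK K) (h0 : K.Le K0) (Bx : BoxRows K) {d : ℕ} {l x : SK} {dl : ℕ}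
  {ll : SK} {dr : ℕ} {rr : SK} {w kl kr : ℂ} {C k : Cl} {s : Bool}
include hK h0 Bx

/-- the hinge next to the digit `1`, 7 crossings -/
theorem rc7_of (t : RDt K 7 l x dl ll dr rr w kl kr) (hC : Bh x dr rr C)
    (rg : Rg (yH x (RR w kr) (Complex.cos w)) (zeta w)) :
    (rc7 C).In (yH x (RR w kr) (Complex.cos w)) (zeta w) := by
  obtain ⟨τ, hτ⟩ := nt_all t.right.ok (by norm_num)
  obtain ⟨τ', hτ'⟩ := nt_all t.left.ok (by norm_num)
  obtain ⟨e1, e2, e3⟩ := bh_nt hC hτ
  have hz := zq7 (Bx.ring (by norm_num) t).1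
  have hg := g7_of hK h0 t hτ hτ' (by rw [e1, Bool.true_or]) hz
  have h := rw7_of hK (tdt_r Bx t) hτ e2 hg rg
  rw [rw7, if_pos e1, e3] at h
  exact h

/-- the hinge next to the digit `1`, at least 8 crossings -/
theorem rc8_of (hd : 8 ≤ d) (t : RDt K d l x dl ll dr rr w kl kr) (hC : Bh x dr rr C)
    (rg : Rg (yH x (RR w kr) (Complex.cos w)) (zeta w)) :
    (rc8 C).In (yH x (RR w kr) (Complex.cos w)) (zeta w) := by
  obtain ⟨τ, hτ⟩ := nt_all t.right.ok (by omega)
  obtain ⟨τ', hτ'⟩ := nt_all t.left.ok (by omega)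
  obtain ⟨e1, e2, e3⟩ := bh_nt hC hτ
  have hz := zq8 hd (Bx.ring (by omega) t).1
  have hg := g8_of hK h0 hd t hτ hτ' (by rw [e1, Bool.true_or]) hz
  have h := rw8_of hK hd (tdt_r Bx t) hτ e2 hg rg
  rw [rw8, if_pos e1, e3] at h
  exact h

/-- a ring at an end, at least 8 crossings -/
theorem re8_of (hd : 8 ≤ d) (t : RDe K d x dr rr w kr) (hC : Bh x dr rr C)
    (rg : Rg (yH x (RR w kr) (Complex.cos w)) (zeta w)) :
    (re8 C).In (yH x (RR w kr) (Complex.cos w)) (zeta w) := by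
  obtain ⟨τ, hτ⟩ := nt_all t.right.ok (by omega)
  obtain ⟨e1, e2, e3⟩ := bh_nt hC hτ
  have hz := zq8e hd (Bx.ringE (by omega) t).1
  have hg := h8_of hK h0 hd t hτ e1 hz
  have hg' : (g8 τ).In (-zeta w) := by
    obtain ⟨g1, g2, g3, g4⟩ := hg
    revert e1 g1 g2 g3 g4
    cases τ
    all_goals
      intro e1 g1 g2 g3 g4
      first
      | exact absurd e1 (by decide)
      | (norm_num [h8] at g1 g2 g3 g4
         refine ⟨?_, ?_, ?_, ?_⟩ <;> norm_num [g8] <;> linarith only [g1, g2, g3, g4])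
  have h := rw8_of hK hd (tdt_e Bx t) hτ e2 hg' rg
  rw [rw8, if_pos e1] at h
  rw [← e3]
  obtain ⟨g1, g2, g3, g4⟩ := hg
  obtain ⟨x0, x1, s0, s1, q0, q1, r0, r1, t0, t1, c1, cr⟩ := h
  rw [Complex.neg_re] at g1 g2
  rw [Complex.neg_im] at g3 g4
  clear e2 e3 hz hg' hτ hC
  revert e1 g1 g2 g3 g4 x0 x1 s0 s1 q0 q1 r0 r1 t0 t1 c1 cr
  cases τ
  all_goals
    intro e1 g1 g2 g3 g4 x0 x1 s0 s1 q0 q1 r0 r1 t0 t1 c1 cr
    first
    | exact absurd e1 (by decide)
    | (norm_num [h8] at g1 g2 g3 g4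
       norm_num [rc8, NT.C, mk4] at x0 x1 s0 s1 q0 q1 r0 r1 t0 t1 c1 cr
       constructor
       all_goals
         norm_num [re8, NT.C, mk4]
         linarith only [x0, x1, g1, g2, q0, g3, t0, g4, t1, c1])

end

end

end Pool.Agent.Work.MP_b30479_gt.G2.CN.TD
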