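import Pool.Agent.Work.MP_b30479_gt.G2.CN.TY7E
import Pool.Agent.Work.MP_b30479_gt.G2.CN.LocRk
import Pool.Agent.Work.MP_b30479_gt.G2.CN.LocRya

/-!
# Windows of the rings of a word next to a digit `1`, seven or more crossings
-/

namespace Pool.Agent.Work.MP_b30479_gt.G2.CN.TD

open Complex SR
open scoped ComplexConjugate

noncomputable section

/-! ### regions of the ring variables -/

/-! ### types -/

/-- the type of the other side -/
lemma oh_nt {τ : NT} {x : SK} {d : ℕ} {l : SK} {k : Cl} {s : Bool} (h : Oh x d l k s)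
    (hτ : τ.Is x d l) (hz : x = .z → 4 ≤ d) (h1 : k ≠ .one) (h4 : k ≠ .ring) :
    τ.one = false ∧ τ.ring = false ∧ τ.C = k := by
  have e := h.1
  cases τ
  all_goals
    simp_all [NT.Is, NT.one, NT.ring, NT.C, nC, cK]
  all_goals
    first
    | done
    | (exfalso; revert h4; rw [if_neg (by omega), if_neg (by omega)]; simp)

/-! ### one ring -/

section
variable {K : KFam} (hK : KOK K) (h0 : K.Le K0) (Bx : BoxRows K) {d : ℕ} {l x : SK} {dl : ℕ}
  {ll : SK} {dr : ℕ} {rr : SK} {w kl kr : ℂ} {C k : Cl} {s : Bool}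
include hK h0 Bx

/-- the other hinge, 7 crossings -/
theorem rd7_of (t : RDt K 7 l x dl ll dr rr w kl kr) (hC : Bh x dr rr C) (hk : Oh l dl ll k s)
    (k1 : k ≠ .one) (k4 : k ≠ .ring) (rg : Rg (yH l (RR w kl) (Complex.cos w)) (zeta w)) :
    (rd7 k).In (yH l (RR w kl) (Complex.cos w)) (zeta w) := by
  obtain ⟨τ, hτ⟩ := nt_all t.right.ok (by norm_num)
  obtain ⟨τ', hτ'⟩ := nt_all t.left.ok (by norm_num)
  obtain ⟨e1, e2, e3⟩ := bh_nt hC hτ
  obtain ⟨f1, f2, f3⟩ := oh_nt hk hτ' t.left.ok.right.symm.zr k1 k4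
  have hz := zq7 (Bx.ring (by norm_num) t).1
  have hg := g7_of hK h0 t.symm hτ' hτ (by rw [e1, Bool.or_true]) hz
  have h := rw7_of hK (tdt_r Bx t.symm) hτ' f2 hg rg
  rw [rw7, if_neg (by rw [f1]; decide), f3] at h
  exact h

/-- the other hinge, at least 8 crossings -/
theorem rd8_of (hd : 8 ≤ d) (t : RDt K d l x dl ll dr rr w kl kr) (hC : Bh x dr rr C)
    (hk : Oh l dl ll k s) (k1 : k ≠ .one) (k4 : k ≠ .ring)
    (rg : Rg (yH l (RR w kl) (Complex.cos w)) (zeta w)) :
    (rd8 k).In (yH l (RR w kl) (Complex.cos w)) (zeta w) := by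
  obtain ⟨τ, hτ⟩ := nt_all t.right.ok (by omega)
  obtain ⟨τ', hτ'⟩ := nt_all t.left.ok (by omega)
  obtain ⟨e1, e2, e3⟩ := bh_nt hC hτ
  obtain ⟨f1, f2, f3⟩ := oh_nt hk hτ' t.left.ok.right.symm.zr k1 k4
  have hz := zq8 hd (Bx.ring (by omega) t).1
  have hg := g8_of hK h0 hd t.symm hτ' hτ (by rw [e1, Bool.or_true]) hz
  have h := rw8_of hK hd (tdt_r Bx t.symm) hτ' f2 hg rg
  rw [rw8, if_neg (by rw [f1]; decide), f3] at h
  exact h

end

section
variable {K : KFam} (hK : KOK K) {x : SK} {dr : ℕ} {rr : SK} {w R k' : ℂ}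
include hK

/-- a ring at an end with 7 crossings -/
theorem re7_of {C : Cl} (t : TDt K x 7 .e dr rr w R k') (hC : Bh x dr rr C)
    (rg : Rg (yH x R (Complex.cos w)) (zeta w)) :
    (re7 C).In (yH x R (Complex.cos w)) (zeta w) := by
  have hN := t.h.ok.right.symm
  have hO := in_k8 hK t.h.ok.left (by norm_num) t.h.ok.ne
  rcases hC.cases t.h (by norm_num) with rfl | rfl | rfl
  · rcases hC.one with ⟨rfl, rfl⟩ | ⟨rfl, rfl⟩
    · have e2 := far_s t.h.ok.right
      subst e2
      exact b4e_of (tuse hK t rfl rfl e7_u mn hO (hK.inH hN k2as_ok)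
        OL.ez (OR.st (by decide))) rg (by norm_num) (by norm_num) (by norm_num) (by norm_num)
    · cases rr
      · exact absurd rfl (hN.one rfl).2.1
      · exact b4e_of (tuse hK t rfl rfl e7_a1 mn hO (hK.inH hN k2as_ok)
          OL.ez (OR.a1 (by norm_num))) rg (by norm_num) (by norm_num) (by norm_num) (by norm_num)
      · exact absurd (hN.zl rfl) (by norm_num)
      · exact b4e_of (tuse hK t rfl rfl e7_s1 mn hO (hK.inH hN k3ss_ok)
          OL.ez OR.s) rg (by norm_num) (by norm_num) (by norm_num) (by norm_num)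
  · obtain ⟨rfl, rfl, hre⟩ := hC.two
    cases rr
    · exact absurd rfl hre
    · exact b4e_of (tuse hK t rfl rfl e7_a2 mn hO (hK.inH hN k3as_ok)
        OL.ez OR.a) rg (by norm_num) (by norm_num) (by norm_num) (by norm_num)
    · exact absurd (hN.zl rfl) (by norm_num)
    · exact b4e_of (tuse hK t rfl rfl e7_s2 mn hO (hK.inH hN k4ss_ok)
        OL.ez OR.s) rg (by norm_num) (by norm_num) (by norm_num) (by norm_num)
  · obtain ⟨rfl, rfl, rfl⟩ := hC.twoE
    exact b4e_of (tuse hK t rfl rfl e7_e2 mn hO (hK.inH hN k3es_ok)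
      OL.ez OR.e) rg (by norm_num) (by norm_num) (by norm_num) (by norm_num)

end

/-! ### words -/

/-- a digit `1` has a second neighbour -/
theorem adj_next {M : ℕ} {b : Fin (M + 1) → ℤ} (hb : ClassW b) {h : Fin M} {i j : Fin (M + 1)}
    {p : Fin 3} (A : Adj h i p j) (hj : clsW b j = .one) : ∃ h' g, Adj h' j p g := by
  rcases A.symm.other b (fun _ => 0) (fun _ => 0) with ⟨he, -⟩ | ⟨-, h', g, A'⟩
  · exfalso
    have h1 := one_nat hj
    have h2 := hb.first
    have h3 := hb.last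
    unfold isEnd at he
    simp only [decide_eq_true_eq] at he
    rcases he with he | he
    · rw [he] at h1
      omega
    · rw [he] at h1
      omega
  · rw [Fin.rev_rev] at A'
    exact ⟨h', g, A'⟩

section
variable {M : ℕ} {b : Fin (M + 1) → ℤ} {w : ℕ → ℂ}
variable (hb : ClassW b) (F : RingFacts) (hw : Sol b w) (hM : 1 ≤ M) {K : KFam}
  (hS : Snd K b w) (Bx : BoxRows K) {h h' : Fin M} {i j j' : Fin (M + 1)} {p : Fin 3}
include hb F hw hM hS

/-- a ring at an end, with the data of the ring -/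
theorem end_sd (A : Adj h i p j) (he : isEnd i = true) (h4 : 4 ≤ (b i).natAbs) :
    ∃ (x : SK) (d' : ℕ) (l' : SK) (k' : ℂ),
      RDe K (b i).natAbs x d' l' (oW b w i.val) k' ∧
      ofr (b i) (zsW b w (.inl (.inl h))) =
        yH x (RR (oW b w i.val) k') (Complex.cos (oW b w i.val)) ∧ Sd b i j p x d' l' := by
  have hu : us b i.val = false := us_of_abs (by omega)
  rw [isEnd_iff] at he
  rcases A.elim with ⟨rfl, e1, e2⟩ | ⟨rfl, e1, e2⟩
  · have hh := h.2
    have h0 : i.val = 0 := by omega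
    have hE : RDe K (dg b 0) (rk b 0) (dg b (rn b 0)) (rk b (rn b 0)) (oW b w 0) (oR b w 0) :=
      rde_first hb F hw hS hM
    rw [← h0, dg_val] at hE
    refine ⟨rk b i.val, _, _, _, hE, ?_, sd_right A⟩
    have ey := own_y_right F hw (n := i.val) (by omega) hu
    rw [ofr_fz, zsW_val h e1.symm]
    exact ey
  · have hh := h.2
    have h1 : i.val = M := by omega
    have hE : RDe K (dg b i.val) (lk b i.val) (dg b (ln b i.val))
        (lk b (ln b i.val)) (oW b w i.val) (oL b w i.val) := by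
      unfold oW oL
      rw [h1]
      exact rde_last hb F hw hS hM
    rw [dg_val] at hE
    refine ⟨lk b i.val, _, _, _, hE, ?_, sd_left A⟩
    have ey := own_y_left hb F hw (n := i.val) (by omega) (by omega) hu
    rw [ofr_fz, zsW_val h (n := i.val - 1) (by omega)]
    exact ey

end

section
variable {M : ℕ} {b : Fin (M + 1) → ℤ} {w : ℕ → ℂ}
variable (hb : ClassW b) (F : RingFacts) (hw : Sol b w) (hM : 1 ≤ M) {K : KFam} (hK : KOK K)
  (h0 : K.Le K0) (hS : Snd K b w) (Bx : BoxRows K)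
include hb F hw hM hK h0 hS Bx

/-- **Windows of the rings with seven crossings next to a digit `1`.** -/
theorem locRc7_of : LocRc 7 rc7 re7 b (zsW b w) :=
  locRc_mk hb F hw hM hS Bx (by norm_num) (fun t hC _ _ rg => rc7_of hK h0 Bx t hC rg)
    (fun t hC rg => re7_of hK t hC rg)

/-- **The other hinges of the rings with seven crossings next to a digit `1`.** -/
theorem locRd7_of : LocRd 7 rd7 b (zsW b w) := by
  intro h h' i j k p v hv A A2 hi hni hj k1 k4
  obtain ⟨h2, g, A3⟩ := adj_next hb A hj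
  obtain ⟨l, x, dl, ll, dr, rr, kl, kr, t, y1, y2, ez, hC, hk, hl, rg, rg', hend⟩ :=
    rw_of hb F hw hM hS Bx v hv A A3 A2 hi (by omega) hj
  rw [ez, y1]
  rw [hni] at t
  exact rd7_of hK h0 Bx t hC hk k1 k4 rg'

/-- **Windows of the rings with at least eight crossings next to a digit `1`.** -/
theorem locRc8_of : LocRc8 rc8 rd8 re8 b (zsW b w) := by
  constructor
  · intro h h' h2 i j k g p v hv A A3 A2 hi hni hj
    obtain ⟨l, x, dl, ll, dr, rr, kl, kr, t, y1, y2, ez, hC, hk, hl, rg, rg', hend⟩ :=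
      rw_of hb F hw hM hS Bx v hv A A3 A2 hi (by omega) hj
    rw [ez, y2]
    exact rc8_of hK h0 Bx hni t hC rg
  · intro h h' i j k p v hv A A2 hi hni hj k1 k4
    obtain ⟨h2, g, A3⟩ := adj_next hb A hj
    obtain ⟨l, x, dl, ll, dr, rr, kl, kr, t, y1, y2, ez, hC, hk, hl, rg, rg', hend⟩ :=
      rw_of hb F hw hM hS Bx v hv A A3 A2 hi (by omega) hj
    rw [ez, y1]
    exact rd8_of hK h0 Bx hni t hC hk k1 k4 rg'
  · intro h h2 i j g p v hv A A3 hend hi hni hj
    have hL := loc_of_boxes hb F hw hM hS Bx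
    obtain ⟨x, d', l', k', t, hy, sd⟩ := end_sd hb F hw hM hS A hend (by omega)
    have hi1 : clsW b i ≠ .one := by
      rw [hi]
      decide
    have hC := beh_of hb F hw hS A A3 sd hi1 hj t.right.ok.right.symm.zr
    have hbx := box_cls Bx t.right (by omega) sd.cls
    subst hv
    have z0 := zb_rg (l := .e) (by omega) (zb_of hL v ⟨fun _ => hend, fun _ => rfl⟩)
    have y0 := hb_rg hbx
    rw [ofz_own, hy]
    exact re8_of hK h0 Bx hni t hC ⟨y0.1, y0.2, z0.1, z0.2⟩

end

end

end Pool.Agent.Work.MP_b30479_gt.G2.CN.TD
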