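import Pool.Agent.Work.MP_b30479_gt.G2.SZY
import Pool.Agent.Work.MP_b30479_gt.G2.CN.LocA

/-!
# The hinges with equal signs
-/

namespace Pool.Agent.Work.MP_b30479_gt.G2.CN.LA

open Complex SR Z8 SQ KB

/-- check of all polygons of the rings with a side `z` -/
def chkZ (f : List (ℤ × ℤ) → Bool) : Bool :=
  [SK.e, SK.a, SK.z, SK.s].all fun l => (List.range 9).all fun B =>
    Nat.blt B (lo .z l) || f (pg B l .z)

lemma chkZ_use {f : List (ℤ × ℤ) → Bool} (h : chkZ f = true) {d : ℕ} {l : SK} (hd : ROK d l .z) :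
    f (pg (crs d l .z) l .z) = true := by
  have h1 := lo_le hd (by decide)
  have h3 := List.all_eq_true.1 h l (by cases l <;> simp)
  have h4 := List.all_eq_true.1 h3 (min (crs d l .z) 8) (List.mem_range.2 (by omega))
  rw [Bool.or_eq_true, Nat.blt_eq] at h4
  rcases h4 with h4 | h4
  · omega
  · rwa [← pg_min] at h4

theorem chkZ_qb : chkZ qbOK = true := by decide +kernel

section
variable {K : KFam} (hK : KOK K)
include hK

theorem zq_of : ZQ K := fun _ _ h _ hk => qb_of (chkZ_use chkZ_qb h) (hK.sub h hk)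

/-- digit `4` -/
lemma qb4_of' {l : SK} (h : ROK 4 l .z) {k : ℂ} (hk : k ∈ K.K 4 l .z) : QB4 k := by
  have h1 := hK.sub h hk
  cases l
  · exact qb4_of (by decide +kernel : qb4OK (pg 4 .e .z) = true) h1
  · exact qb4_of (by decide +kernel : qb4OK (pg 4 .a .z) = true) h1
  · exact qb4_of (by decide +kernel : qb4OK (pg 4 .z .z) = true) h1
  · exact qb4_of (by decide +kernel : qb4OK (pg 5 .s .z) = true) h1

end

/-- digits at least `5`: minimal number of crossings -/
def lo5z (l : SK) : ℕ := match l with | .s => 6 | _ => 5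

/-- check of all polygons of the rings with a side `z` and digit at least `5` -/
def chkZ5 (f : List (ℤ × ℤ) → Bool) : Bool :=
  [SK.e, SK.a, SK.z, SK.s].all fun l => (List.range 9).all fun B =>
    Nat.blt B (lo5z l) || f (pg B l .z)

theorem chkZ5_qb : chkZ5 qb5OK = true := by decide +kernel

lemma chkZ5_use {f : List (ℤ × ℤ) → Bool} (h : chkZ5 f = true) {d : ℕ} {l : SK} (hd : 5 ≤ d) :
    f (pg (crs d l .z) l .z) = true := by
  have h1 : lo5z l ≤ min (crs d l .z) 8 := by
    unfold crs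
    cases l <;> simp only [SK.u, lo5z] <;> omega
  have h3 := List.all_eq_true.1 h l (by cases l <;> simp)
  have h4 := List.all_eq_true.1 h3 (min (crs d l .z) 8) (List.mem_range.2 (by omega))
  rw [Bool.or_eq_true, Nat.blt_eq] at h4
  rcases h4 with h4 | h4
  · omega
  · rwa [← pg_min] at h4

section
variable {K : KFam} (hK : KOK K)
include hK

/-- digits at least `5` -/
lemma qb5_of' {d : ℕ} {l : SK} (h : ROK d l .z) (hd : 5 ≤ d) {k : ℂ} (hk : k ∈ K.K d l .z) :
    QB5 k := qb5_of (chkZ5_use chkZ5_qb hd) (hK.sub h hk)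

theorem locZ : LocZ K where
  un h := (un_z (zq_of hK) h).1
  rr4 h _ := le_trans (by norm_num) (un_z (zq_of hK) h).2.1
  y4z := by
    intro d' l' R k k' h
    refine un_z24 (zq_of hK) h ?_
    have h1 := hK.sub h.ok.left h.mem
    have hk : k ∈ Poly (pg 4 .e .z) := polyU_sub _ h1
    have g := px_py_of (by decide +kernel : polyOK 0 0 (-1000) 20 (pg 4 .e .z) = true)
      (by decide +kernel : polyOK 1000 0 1500 0 (pg 4 .e .z) = true) hk
    push_cast at g
    linarith

/-- the height at a hinge `4 | d`, `d` at least `4`, equal signs -/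
theorem z44 {l : SK} {d' : ℕ} {l' : SK} {R k k' : ℂ} (h : HDt K .z 4 l d' l' R k k') :
    0 ≤ (acot2 R).im ∧ (acot2 R).im ≤ 56 / 1000 ∧ (5 ≤ d' → (acot2 R).im ≤ 465 / 10000) := by
  have hR := r0_pos.trans h.Rre
  have m1 := h.mem'
  rw [show SK.z.sgn = 1 from rfl, frS_one, K.symm] at m1
  have q := qb4_of' hK h.ok.left h.mem
  have h4' : 4 ≤ d' := h.ok.right.zl rfl
  refine ⟨(un_z (zq_of hK) h).2.1, ?_, fun hd => T45 hR h.hinge q (qb5_of' hK h.ok.right.symm hd m1)⟩
  rcases Nat.lt_or_ge d' 5 with hd | hd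
  · obtain rfl : d' = 4 := by omega
    exact T44 hR h.hinge q (qb4_of' hK h.ok.right.symm m1)
  · exact (T45 hR h.hinge q (qb5_of' hK h.ok.right.symm hd m1)).trans (by norm_num)

/-- the height at a hinge `d | d'`, both at least `5`, equal signs -/
theorem z55 {d : ℕ} {l : SK} {d' : ℕ} {l' : SK} {R k k' : ℂ} (h : HDt K .z d l d' l' R k k')
    (hd : 5 ≤ d) (hd' : 5 ≤ d') : (acot2 R).im ≤ 352 / 10000 := by
  have hR := r0_pos.trans h.Rre
  have m1 := h.mem'
  rw [show SK.z.sgn = 1 from rfl, frS_one, K.symm] at m1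
  exact T55 hR h.hinge (qb5_of' hK h.ok.left hd h.mem) (qb5_of' hK h.ok.right.symm hd' m1)

end

end Pool.Agent.Work.MP_b30479_gt.G2.CN.LA
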