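import Pool.Agent.Work.MP_b30479_gt.G2.CN.M3Mid

/-!
# Inner variables of regions with three crossings: the rows
-/

namespace Pool.Agent.Work.MP_b30479_gt.G2.CN.M3

open Complex SR

section
variable {K : KFam} {l r : SK} {dl : ℕ} {ll : SK} {dr : ℕ} {rr : SK} {w kl kr : ℂ}

/-- the box of the inner variable -/
theorem mid_box (hK : KOK K) (B : Bxs K) (h : RDt K 3 l r dl ll dr rr w kl kr) (A : Cl) :
    (mbox A).In (mH l (RR w kl) (Complex.cos w)) := by
  obtain ⟨c, c', -, -, h1, -⟩ := mid_main hK B h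
  refine in_mono h1 ?_ ?_ ?_ ?_ <;> cases c <;> cases c' <;>
    norm_num [mbox, C5.mB, BB.box, m_11, m_1o, m_1e, m_1r, m_o1, m_oo, m_oe, m_or, m_e1, m_eo,
      m_ee, m_er]

/-- the sum of the inner variable and the right hinge -/
theorem mid_l3 (hK : KOK K) (B : Bxs K) (h : RDt K 3 l r dl ll dr rr w kl kr) :
    1 / 2 ≤ (mH l (RR w kl) (Complex.cos w)).re + (yH r (RR w kr) (Complex.cos w)).re := by
  obtain ⟨c, c', -, hc', h1, -, -, h2⟩ := mid_main hK B h
  have h0 : 325 / 1000 ≤ (mH l (RR w kl) (Complex.cos w)).re := (mid_box hK B h .one).1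
  have h3 := (box_fits B h.right h.left.ok.ne hc').1.1
  cases c'
  · norm_num [C5.box, IB.box, bOne] at h3
    linarith
  · norm_num [C5.box, IB.box, bOne] at h3
    linarith
  · norm_num [C5.box, IB.box, bOth] at h3
    linarith
  · exact (h2 rfl).le
  · norm_num [C5.box, IB.box, bRing] at h3
    linarith

/-- **The window of the inner variable.** -/
theorem mid_win (hK : KOK K) (B : Bxs K) (h : RDt K 3 l r dl ll dr rr w kl kr) :
    (mw (nC l dl ll) (nC r dr rr)).InM (mH l (RR w kl) (Complex.cos w)).im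
      (yH l (RR w kl) (Complex.cos w)).im := by
  obtain ⟨c, c', hc, hc', ⟨-, -, h3, h4⟩, h5, h6, -⟩ := mid_main hK B h
  have n1 := nC_fits hc
  have n2 := nC_fits hc'
  have key : ∀ A A' : Cl, Cf A c → Cf A' c' →
      (mw A A').t0 ≤ (C5.mB c c').box.t0 ∧ (C5.mB c c').box.t1 ≤ (mw A A').t1 ∧
      (mw A A').s0 ≤ ((C5.dB c c').m0 : ℝ) / 10000 ∧
      ((C5.dB c c').m1 : ℝ) / 10000 ≤ (mw A A').s1 := by
    intro A A' a1 a2
    cases c <;> cases c' <;> cases A <;> cases A' <;> simp only [Cf, reduceCtorEq, or_self,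
      or_false, or_true] at a1 a2 <;>
      norm_num [mw, C5.mB, C5.dB, BB.box, m_11, m_1o, m_1e, m_1r, m_o1, m_oo, m_oe, m_or, m_e1,
        m_eo, m_ee, m_er, s_11, s_1o, s_1e, s_1r, s_o1, s_oo, s_oe, s_or, s_e1, s_eo, s_ee, s_er]
  obtain ⟨k1, k2, k3, k4⟩ := key _ _ n1 n2
  exact ⟨k1.trans h3, h4.trans k2, k3.trans h5, h6.trans k4⟩

end

/-! ### ends -/

theorem h3ea_ok : okH h3ea (pg 3 .e .a) = true := by decide +kernel
theorem h3es_ok : okH h3es (pg 4 .e .s) = true := by decide +kernel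
theorem mE_ok : m_E.ok = true := by decide +kernel

lemma root_memE {κ : ℂ} (hκ : ‖κ‖ ≤ 1) : rootE.Mem 0 κ := by
  have a3 := abs_le.1 ((Complex.abs_re_le_norm κ).trans hκ)
  have a4 := abs_le.1 ((Complex.abs_im_le_norm κ).trans hκ)
  have hD : D = 16384 := rfl
  refine ⟨inI_of (a := 0) (b := 0) le_rfl le_rfl ?_ ?_, inI_of (a := 0) (b := 0) le_rfl le_rfl ?_ ?_,
    inI_of a3.1 a3.2 ?_ ?_, inI_of a4.1 a4.2 ?_ ?_⟩ <;> rw [hD] <;> norm_num [rootE]

lemma gE_eq {H : List QC} {u w c : ℂ} (h : c * (1 - 4 * w) = 1) :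
    c * (gE H).M.val u w = (gE H).N.val u w := by
  change c * em.val u w = Ev.one.val u w
  rw [v_em, Ev.val_one]
  exact h

section
variable {K : KFam} {r : SK} {dr : ℕ} {rr : SK} {w kr : ℂ}

/-- the inner variable of an end region with three crossings -/
theorem mid_end (hK : KOK K) (B : Bxs K) (h : RDe K 3 r dr rr w kr) :
    mboxE.In (mH r (RR w kr) (Complex.cos w)) := by
  have hc := h.cos_ne
  have hτ : Complex.tan w ≠ 0 := by
    intro h0
    have := h.tan_re
    rw [h0] at this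
    simp at this
  have hk := kinds h.right
  have v1 : Hq r (RR w kr) (Complex.cos w) + I ≠ 0 := by
    rcases hk with rfl | rfl
    · rw [Hq_of_ne (by decide)]
      exact add_I_ne h.right.Rre
    · rw [Hq_s]
      intro h0
      exact (ne_of_half (B.sp h.right).2).2 (by linear_combination h0)
  have h3 := RE1_three Complex.I_mul_I v1 hτ h.reH
  rw [Rs_Sp hc, one_add_tan_sq hc] at h3
  obtain ⟨e1, e2⟩ := h3
  have q0 : (1 : ℂ) / Complex.cos w ^ 2 ≠ 0 := one_div_ne_zero (pow_ne_zero 2 hc)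
  have qk : (1 : ℂ) / Complex.cos w ^ 2 * Complex.cos w ^ 2 = 1 :=
    one_div_mul_cancel (pow_ne_zero 2 hc)
  have m1 : Sp (Hq r (RR w kr) (Complex.cos w)) (Complex.cos w) + I ≠ 0 := by
    intro h0
    rw [h0, mul_zero] at e2
    exact q0 e2
  have m2 : Sp (Hq r (RR w kr) (Complex.cos w)) (Complex.cos w) ≠ I := Sp_ne_I v1 hc
  have m3 : Sp (Hq r (RR w kr) (Complex.cos w)) (Complex.cos w) ≠ -I := fun h0 =>
    m1 (by rw [h0]; ring)
  have em := exp_acot2 m2 m3
  have hE : cexp (2 * Real.pi * I * acot2 (Sp (Hq r (RR w kr) (Complex.cos w)) (Complex.cos w))) *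
      (1 - 4 * (Complex.cos w ^ 2)) = 1 := by
    apply mul_right_cancel₀ m1
    have e3 : (1 - 4 * (Complex.cos w ^ 2)) *
        (Sp (Hq r (RR w kr) (Complex.cos w)) (Complex.cos w) + I) =
        Sp (Hq r (RR w kr) (Complex.cos w)) (Complex.cos w) - I := by
      linear_combination (2 * I * Complex.cos w ^ 2) * e2 - (2 * I) * qk -
        (4 * Complex.cos w ^ 2 *
          (Sp (Hq r (RR w kr) (Complex.cos w)) (Complex.cos w) + I)) * Complex.I_mul_I
    linear_combination (cexp (2 * Real.pi * I *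
      acot2 (Sp (Hq r (RR w kr) (Complex.cos w)) (Complex.cos w)))) * e3 + em
  obtain ⟨r1, r2⟩ := acot2_range (Sp (Hq r (RR w kr) (Complex.cos w)) (Complex.cos w))
  have hm := h.right.mem
  have hR := h.right.ok.left
  have key : m_E.box.In (acot2 (Sp (Hq r (RR w kr) (Complex.cos w)) (Complex.cos w))) := by
    rcases hk with rfl | rfl
    · have hs : Sat h3ea (Complex.cos w ^ 2) := hK.inH hR h3ea_ok _ hm
      refine BB.spec mE_ok r1 r2 (row_sound t_Eea (u := 0) (root_memE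
        (le_of_sat (c := 328748) (by simp [h3ea]) (by norm_num) hs))
        (AllOk.cons (gO_ok hs) AllOk.nil) (g := gE m_E.H) List.mem_cons_self (gE_eq hE))
    · have hs : Sat h3es (Complex.cos w ^ 2) := hK.inH hR h3es_ok _ hm
      refine BB.spec mE_ok r1 r2 (row_sound t_Ees (u := 0) (root_memE
        (le_of_sat (c := 321722) (by simp [h3es]) (by norm_num) hs))
        (AllOk.cons (gO_ok hs) AllOk.nil) (g := gE m_E.H) List.mem_cons_self (gE_eq hE))
  refine in_mono key ?_ ?_ ?_ ?_ <;> norm_num [mboxE, BB.box, m_E]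

end

end Pool.Agent.Work.MP_b30479_gt.G2.CN.M3
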