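import Pool.Agent.Work.MP_b30479_gt.G2.CN.M3Tab
import Pool.Agent.Work.MP_b30479_gt.G2.SWordL

/-!
# Inner variables of regions with three crossings: the result
-/

namespace Pool.Agent.Work.MP_b30479_gt.G2.CN.M3

open Complex SR

/-! ### the classes of the sides -/

section
variable {K : KFam} {x o : SK} {d : ℕ} {l : SK} {R k k' : ℂ}

lemma kinds (h : HDt K x 3 o d l R k k') : x = .a ∨ x = .s := by
  cases x
  · exact absurd rfl h.ok.ne
  · exact Or.inl rfl
  · exact absurd (h.ok.left.zr rfl) (by norm_num)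
  · exact Or.inr rfl

lemma fits (h : HDt K x 3 o d l R k k') : ∃ c : C5, C5.Fits x d l c := by
  rcases kinds h with rfl | rfl
  · have h1 := h.ok.right.pos
    rcases Nat.lt_or_ge d 4 with h4 | h4
    · have h5 : d = 1 ∨ d = 2 ∨ d = 3 := by omega
      rcases h5 with rfl | rfl | rfl
      · exact ⟨.u, rfl, rfl⟩
      · by_cases hl : l = .e
        · exact ⟨.e, rfl, rfl, hl⟩
        · exact ⟨.o, rfl, Or.inl ⟨rfl, hl⟩⟩
      · exact ⟨.o, rfl, Or.inr rfl⟩
    · exact ⟨.r, rfl, h4⟩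
  · exact ⟨.s, rfl⟩

/-- the conditions for the value of the neighbour -/
noncomputable def nb : C5 → List QC
  | .u => mirH hU
  | .s => hS
  | .o => mirH hO
  | .e => mirH hE
  | .r => mirH hR

lemma nb_sat (hK : KOK K) (h : HDt K x 3 o d l R k k') {c : C5} (hc : c.Fits x d l) :
    Sat (nb c) (k' ^ 2) := by
  have hR : ROK d l x := h.ok.right.symm
  have hm := h.mem'
  rw [K.symm] at hm
  have hp := hR.pos
  have h1 := hR.one
  have hz := hR.zl
  cases c
  · obtain ⟨rfl, rfl⟩ := hc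
    have hl : l = .s := (h1 rfl).1.resolve_right (by decide)
    subst hl
    exact (hK.inH hR hU_ok).mir k' hm
  · have hc' : x = .s := hc
    subst hc'
    have h2 := (h.ok.one rfl).resolve_left (by norm_num)
    refine (hK.inU hR hS_ok ?_ ?_).fr k' hm
    · unfold crs
      cases l <;> simp_all [sS, SK.u] <;> omega
    · unfold crs
      cases l <;> simp_all [tS, SK.u] <;> omega
  · obtain ⟨rfl, hc⟩ := hc
    refine (hK.inU hR hO_ok ?_ ?_).mir k' hm
    · unfold crs
      rcases hc with ⟨rfl, hc⟩ | rfl <;> cases l <;> simp_all [sS, SK.u]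
    · unfold crs
      rcases hc with ⟨rfl, hc⟩ | rfl <;> cases l <;> simp_all [tS, SK.u]
  · obtain ⟨rfl, rfl, rfl⟩ := hc
    exact (hK.inH hR hE_ok).mir k' hm
  · obtain ⟨rfl, hc⟩ := hc
    refine (hK.inU hR hR_ok ?_ (min_le_right _ _)).mir k' hm
    unfold crs
    cases l <;> simp_all [sR, SK.u]

end

/-- the boxes of the hinges -/
structure Bxs (K : KFam) : Prop where
  un : ∀ {x d l d' l' R k k'}, x ≠ .s → HDt K x d l d' l' R k k' →
    (hbox (cK d l) (cK d' l') (decide (x = .z))).In (acot2 R)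
  sp : ∀ {d l d' l' R k k'}, HDt K .s d l d' l' R k k' →
    (hbox (cK d l) .one false).In (acot2 (Sp R k)) ∧ (acot2 (Sp R k)).re < 1 / 2

lemma in_mono {B B' : Box} {y : ℂ} (h : B.In y) (h0 : B'.x0 ≤ B.x0) (h1 : B.x1 ≤ B'.x1)
    (h2 : B'.t0 ≤ B.t0) (h3 : B.t1 ≤ B'.t1) : B'.In y :=
  ⟨h0.trans h.1, h.2.1.trans h1, h2.trans h.2.2.1, h.2.2.2.trans h3⟩

section
variable {K : KFam} {x o : SK} {d : ℕ} {l : SK} {R k k' : ℂ}

/-- the class of the neighbour -/
def Cf (A : Cl) : C5 → Prop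
  | .u => A = .one
  | .s => A = .one
  | .o => A = .two ∨ A = .three ∨ A = .threeE
  | .e => A = .twoE
  | .r => A = .ring

lemma nC_fits {c : C5} (hc : c.Fits x d l) : Cf (nC x d l) c := by
  cases c
  · obtain ⟨rfl, rfl⟩ := hc
    rfl
  · have hc' : x = .s := hc
    subst hc'
    rfl
  · obtain ⟨rfl, hc⟩ := hc
    rcases hc with ⟨rfl, hc⟩ | rfl
    · left
      unfold nC cK
      rw [if_neg (by decide), if_neg (by norm_num), if_pos rfl, if_neg hc]
    · right
      by_cases hl : l = .e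
      · right
        unfold nC cK
        rw [if_neg (by decide), if_neg (by norm_num), if_neg (by norm_num), if_pos rfl, if_pos hl]
      · left
        unfold nC cK
        rw [if_neg (by decide), if_neg (by norm_num), if_neg (by norm_num), if_pos rfl, if_neg hl]
  · obtain ⟨rfl, rfl, rfl⟩ := hc
    rfl
  · obtain ⟨rfl, hc⟩ := hc
    show nC .a d l = .ring
    unfold nC cK
    rw [if_neg (by decide), if_neg (by omega), if_neg (by omega), if_neg (by omega)]

lemma cK_three (ho : o ≠ .e) : cK 3 o = .three := by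
  unfold cK
  rw [if_neg (by norm_num), if_neg (by norm_num), if_pos rfl, if_neg ho]

lemma box_fits (B : Bxs K) (h : HDt K x 3 o d l R k k') (ho : o ≠ .e) {c : C5}
    (hc : c.Fits x d l) : c.box.box.In (yH x R k) ∧ (yH x R k).re < 1 / 2 ∧
      (yH x R k).im ≤ 57 / 1000 := by
  have h3 := cK_three ho
  have hn := nC_fits hc
  have key : ∃ A, Cf A c ∧ (hbox .three A false).In (yH x R k) := by
    rcases kinds h with rfl | rfl
    · have h1 := B.un (by decide) h
      rw [h3] at h1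
      refine ⟨_, hn, ?_⟩
      unfold yH
      rw [Hq_of_ne (by decide)]
      exact h1
    · have h1 := (B.sp h).1
      rw [h3] at h1
      refine ⟨_, hn, ?_⟩
      unfold yH
      rw [Hq_s]
      exact h1
  obtain ⟨A, hA, h1⟩ := key
  refine ⟨?_, ?_, ?_⟩
  · cases c
    · have hA' : A = .one := hA
      subst hA'
      refine in_mono h1 ?_ ?_ ?_ ?_ <;> norm_num [hbox, C5.box, IB.box, bOne]
    · have hA' : A = .one := hA
      subst hA'
      refine in_mono h1 ?_ ?_ ?_ ?_ <;> norm_num [hbox, C5.box, IB.box, bOne]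
    · rcases hA with rfl | rfl | rfl
      · refine in_mono h1 ?_ ?_ ?_ ?_ <;> norm_num [hbox, C5.box, IB.box, bOth]
      · refine in_mono h1 ?_ ?_ ?_ ?_ <;> norm_num [hbox, C5.box, IB.box, bOth]
      · refine in_mono h1 ?_ ?_ ?_ ?_ <;> norm_num [hbox, C5.box, IB.box, bOth]
    · have hA' : A = .twoE := hA
      subst hA'
      refine in_mono h1 ?_ ?_ ?_ ?_ <;> norm_num [hbox, C5.box, IB.box, bTwoE]
    · have hA' : A = .ring := hA
      subst hA'
      refine in_mono h1 ?_ ?_ ?_ ?_ <;> norm_num [hbox, C5.box, IB.box, bRing]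
  · have h2 := h1.2.1
    cases A <;> norm_num [hbox] at h2 <;> linarith only [h2]
  · have h2 := h1.2.2.2
    cases A <;> norm_num [hbox] at h2 <;> linarith only [h2]

end

/-! ### the root cell -/

lemma le_of_sat {H : List QC} {z : ℂ} {c : ℤ} (hm : (⟨0, 0, 1000000, -c⟩ : QC) ∈ H)
    (hc : c ≤ 1000000) (h : Sat H z) : ‖z‖ ≤ 1 := by
  have h1 := h _ hm
  unfold QC.Sat at h1
  push_cast at h1
  have h2 : (c : ℝ) ≤ 1000000 := by exact_mod_cast hc
  have h3 := norm_nonneg z
  by_contra hc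
  push Not at hc
  nlinarith only [h1, h2, hc, h3]

lemma ow_le (c c' : C5) {z : ℂ} (h : Sat (C5.ow c c') z) : ‖z‖ ≤ 1 := by
  have a3 : Sat h3 z → ‖z‖ ≤ 1 := fun h => le_of_sat (c := 648066) (by simp [h3]) (by norm_num) h
  have a4 : Sat h4 z → ‖z‖ ≤ 1 := fun h => le_of_sat (c := 571937) (by simp [h4]) (by norm_num) h
  have a5 : Sat h5 z → ‖z‖ ≤ 1 := fun h => le_of_sat (c := 573360) (by simp [h5]) (by norm_num) h
  cases c <;> cases c' <;> first | exact a3 h | exact a4 h | exact a5 h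

lemma root_mem3 {y κ : ℂ} (hy : ‖y‖ ≤ 8) (hκ : ‖κ‖ ≤ 1) : root3.Mem y κ := by
  have a1 := abs_le.1 ((Complex.abs_re_le_norm y).trans hy)
  have a2 := abs_le.1 ((Complex.abs_im_le_norm y).trans hy)
  have a3 := abs_le.1 ((Complex.abs_re_le_norm κ).trans hκ)
  have a4 := abs_le.1 ((Complex.abs_im_le_norm κ).trans hκ)
  have hD : D = 16384 := rfl
  refine ⟨inI_of a1.1 a1.2 ?_ ?_, inI_of a2.1 a2.2 ?_ ?_, inI_of a3.1 a3.2 ?_ ?_,
    inI_of a4.1 a4.2 ?_ ?_⟩ <;> rw [hD] <;> norm_num [root3]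

lemma norm_exps (y : ℂ) : ‖cexp (2 * Real.pi * I * y)‖ = Real.exp (-(2 * Real.pi * y.im)) := by
  rw [Complex.norm_exp]
  congr 1
  simp

lemma yv_le {U V M κ : ℂ} (h : Exps U V M κ) (hκ : ‖κ‖ ≤ 1) (hv : (acot2 V).im ≤ 57 / 1000) :
    ‖yv M‖ ≤ 8 := by
  have h1 : (1 : ℝ) / 2 ≤ ‖cexp (2 * Real.pi * I * acot2 V)‖ := by
    rw [norm_exps]
    have h2 := Real.add_one_le_exp (-(2 * Real.pi * (acot2 V).im))
    have h3 := Real.pi_lt_d2
    have h4 := Real.pi_pos
    have h5 : Real.pi * (acot2 V).im ≤ 315 / 100 * (57 / 1000) := by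
      rcases le_or_gt 0 (acot2 V).im with h | h
      · nlinarith only [h3, hv, h4]
      · nlinarith only [h3, hv, h4]
    linarith only [h2, h5]
  have e := h.ev
  set E := cexp (2 * Real.pi * I * acot2 V)
  have h0 : E ≠ 0 := by
    intro h0
    rw [h0, norm_zero] at h1
    norm_num at h1
  have e2 : yv M = 2 - 4 * κ - E⁻¹ := by
    rw [inv_eq_of_mul_eq_one_right e]
    ring
  rw [e2]
  have h6 : ‖E⁻¹‖ ≤ 2 := by
    rw [norm_inv]
    rw [inv_le_comm₀ (by linarith only [h1]) (by norm_num)]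
    linarith only [h1]
  calc ‖2 - 4 * κ - E⁻¹‖ ≤ ‖(2 : ℂ) - 4 * κ‖ + ‖E⁻¹‖ := norm_sub_le _ _
    _ ≤ (‖(2 : ℂ)‖ + ‖4 * κ‖) + ‖E⁻¹‖ := by
      have := norm_sub_le (2 : ℂ) (4 * κ)
      linarith only [this]
    _ ≤ 8 := by
      rw [norm_mul]
      have : ‖(2 : ℂ)‖ = 2 := by norm_num
      have : ‖(4 : ℂ)‖ = 4 := by norm_num
      nlinarith

/-! ### the result -/

section
variable {K : KFam} {l r : SK} {dl : ℕ} {ll : SK} {dr : ℕ} {rr : SK} {w kl kr : ℂ}

lemma own_sat (hK : KOK K) (h : RDt K 3 l r dl ll dr rr w kl kr) {c c' : C5} (hc : c.Fits l dl ll)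
    (hc' : c'.Fits r dr rr) : Sat (C5.ow c c') (Complex.cos w ^ 2) := by
  have hm := h.right.mem
  have hR := h.right.ok.left
  have t3 : l = .a → r = .a → Sat h3 (Complex.cos w ^ 2) := by
    rintro rfl rfl
    exact hK.inH hR h3_ok _ hm
  have t4 : l = .a → r = .s → Sat h4 (Complex.cos w ^ 2) := by
    rintro rfl rfl
    exact hK.inH hR h4_ok _ hm
  have t4' : l = .s → r = .a → Sat h4 (Complex.cos w ^ 2) := by
    rintro rfl rfl
    exact hK.inH hR h4_ok _ hm
  have t5 : l = .s → r = .s → Sat h5 (Complex.cos w ^ 2) := by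
    rintro rfl rfl
    exact hK.inH hR h5_ok _ hm
  have k1 : c ≠ .s → l = .a := by
    intro h0
    cases c
    · exact hc.1
    · exact absurd rfl h0
    · exact hc.1
    · exact hc.1
    · exact hc.1
  have k2 : c' ≠ .s → r = .a := by
    intro h0
    cases c'
    · exact hc'.1
    · exact absurd rfl h0
    · exact hc'.1
    · exact hc'.1
    · exact hc'.1
  have s1 : c = .s → l = .s := by
    rintro rfl
    exact hc
  have s2 : c' = .s → r = .s := by
    rintro rfl
    exact hc'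
  by_cases e1 : c = .s <;> by_cases e2 : c' = .s
  · subst e1; subst e2
    exact t5 (s1 rfl) (s2 rfl)
  · subst e1
    have := t4' (s1 rfl) (k2 e2)
    cases c' <;> first | exact absurd rfl e2 | exact this
  · subst e2
    have := t4 (k1 e1) (s2 rfl)
    cases c <;> first | exact absurd rfl e1 | exact this
  · have := t3 (k1 e1) (k2 e2)
    cases c <;> cases c' <;> first | exact absurd rfl e1 | exact absurd rfl e2 | exact this

lemma ne_re {k : ℂ} (h : 0 < k.re) : k ≠ 0 := by
  rintro rfl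
  simp at h

/-- the group of the left neighbour -/
lemma gL_ok (hK : KOK K) (h : RDt K 3 l r dl ll dr rr w kl kr)
    (T : Tri (Hq l (RR w kl) (Complex.cos w)) (Hq r (RR w kr) (Complex.cos w))
      (Sp (Hq l (RR w kl) (Complex.cos w)) (Complex.cos w)) (1 / Complex.cos w ^ 2)
      (Complex.cos w ^ 2)) {c : C5} (hc : c.Fits l dl ll) :
    c.gL.Ok (yv (Sp (Hq l (RR w kl) (Complex.cos w)) (Complex.cos w))) (Complex.cos w ^ 2) := by
  have hs := nb_sat hK h.left hc
  have hk : 1 / kl ^ 2 * kl ^ 2 = 1 := one_div_mul_cancel (pow_ne_zero 2 (ne_re h.left.kre'))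
  have ha : l = .a → (kl ^ 2) * (4 * (Complex.cos w ^ 2) *
      yv (Sp (Hq l (RR w kl) (Complex.cos w)) (Complex.cos w)) +
      (1 - yv (Sp (Hq l (RR w kl) (Complex.cos w)) (Complex.cos w))) ^ 2) =
      -4 * ((Complex.cos w ^ 2) * yv (Sp (Hq l (RR w kl) (Complex.cos w)) (Complex.cos w))) ^ 2 := by
    intro hl
    refine T.left_a hk ?_
    rw [hl, Hq_of_ne (by decide)]
    exact h.left.hinge
  cases c
  · exact gLa_ok hs (ha hc.1)
  · have hc' : l = .s := hc
    refine gLs_ok hs (T.left_s hk h.left.hinge ?_)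
    rw [hc', Hq_s]
    exact Sp_sub (add_I_ne h.left.Rre)
  · exact gLa_ok hs (ha hc.1)
  · exact gLa_ok hs (ha hc.1)
  · exact gLa_ok hs (ha hc.1)

/-- the group of the right neighbour -/
lemma gR_ok (hK : KOK K) (h : RDt K 3 l r dl ll dr rr w kl kr)
    (T : Tri (Hq l (RR w kl) (Complex.cos w)) (Hq r (RR w kr) (Complex.cos w))
      (Sp (Hq l (RR w kl) (Complex.cos w)) (Complex.cos w)) (1 / Complex.cos w ^ 2)
      (Complex.cos w ^ 2)) {c : C5} (hc : c.Fits r dr rr) :
    c.gR.Ok (yv (Sp (Hq l (RR w kl) (Complex.cos w)) (Complex.cos w))) (Complex.cos w ^ 2) := by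
  have hs := nb_sat hK h.right hc
  have hk : 1 / kr ^ 2 * kr ^ 2 = 1 := one_div_mul_cancel (pow_ne_zero 2 (ne_re h.right.kre'))
  have ha : r = .a → (kr ^ 2) * (4 * (Complex.cos w ^ 2) *
      yv (Sp (Hq l (RR w kl) (Complex.cos w)) (Complex.cos w)) +
      (1 - yv (Sp (Hq l (RR w kl) (Complex.cos w)) (Complex.cos w))) ^ 2) =
      -((Complex.cos w ^ 2) * (1 - yv (Sp (Hq l (RR w kl) (Complex.cos w)) (Complex.cos w)) -
        4 * (Complex.cos w ^ 2)) ^ 2) := by
    intro hl
    refine T.right_a hk ?_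
    rw [hl, Hq_of_ne (by decide)]
    exact h.right.hinge
  cases c
  · exact gRa_ok hs (ha hc.1)
  · have hc' : r = .s := hc
    refine gRs_ok hs (T.right_s hk h.right.hinge ?_)
    rw [hc', Hq_s]
    exact Sp_sub (add_I_ne h.right.Rre)
  · exact gRa_ok hs (ha hc.1)
  · exact gRa_ok hs (ha hc.1)
  · exact gRa_ok hs (ha hc.1)

lemma gM_eq {H : List QC} {u w c : ℂ} (h : c * u = 1) :
    c * (gM H).M.val u w = (gM H).N.val u w := by
  change c * u = Ev.one.val u w
  rw [Ev.val_one]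
  exact h

lemma gDf_eq {H : List QC} {u w c : ℂ} (h : c * (u * (1 - u)) = 1 - u + 4 * w * u) :
    c * (gDf H).M.val u w = (gDf H).N.val u w := by
  change c * yy.val u w = yk.val u w
  rw [v_yy, v_yk]
  exact h

lemma gSm_eq {H : List QC} {u w c : ℂ} (h : c * (u * (2 - 4 * w - u)) = 1) :
    c * (gSm H).M.val u w = (gSm H).N.val u w := by
  change c * ym.val u w = Ev.one.val u w
  rw [v_ym, Ev.val_one]
  exact h

/-- **The inner variable of a region with three crossings.** -/
theorem mid_main (hK : KOK K) (B : Bxs K) (h : RDt K 3 l r dl ll dr rr w kl kr) :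
    ∃ c c' : C5, c.Fits l dl ll ∧ c'.Fits r dr rr ∧
      (C5.mB c c').box.In (mH l (RR w kl) (Complex.cos w)) ∧
      ((C5.dB c c').m0 : ℝ) / 10000 ≤ (mH l (RR w kl) (Complex.cos w)).im -
        (yH l (RR w kl) (Complex.cos w)).im ∧
      (mH l (RR w kl) (Complex.cos w)).im - (yH l (RR w kl) (Complex.cos w)).im ≤
        ((C5.dB c c').m1 : ℝ) / 10000 ∧
      (c' = .e → 1 / 2 < (mH l (RR w kl) (Complex.cos w)).re +
        (yH r (RR w kr) (Complex.cos w)).re) := by
  obtain ⟨c, hc⟩ := fits h.left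
  obtain ⟨c', hc'⟩ := fits h.right
  have hle : l ≠ .e := h.left.ok.ne
  have hre : r ≠ .e := h.right.ok.ne
  obtain ⟨bu, u2, -⟩ := box_fits B h.left hre hc
  obtain ⟨bv, v2, v3⟩ := box_fits B h.right hle hc'
  have T := tri_of h u2 v2
  have E := exps_of T u2 v2
  have hκ := ow_le c c' (own_sat hK h hc hc')
  have hm := root_mem3 (yv_le E hκ v3) hκ
  have hall : AllOk (yv (Sp (Hq l (RR w kl) (Complex.cos w)) (Complex.cos w)))
      (Complex.cos w ^ 2) [gO (C5.ow c c'), gU c.box.H, gW c'.box.H, c.gL, c'.gR] :=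
    AllOk.cons (gO_ok (own_sat hK h hc hc')) (AllOk.cons (gU_ok E (IB.sat (C5.box_ok c) bu))
      (AllOk.cons (gW_ok E (IB.sat (C5.box_ok c') bv)) (AllOk.cons (gL_ok hK h T hc)
        (AllOk.cons (gR_ok hK h T hc') AllOk.nil))))
  obtain ⟨n, code, hr⟩ := C5.tab c c'
  refine ⟨c, c', hc, hc', ?_, ?_⟩
  · obtain ⟨r1, r2⟩ := acot2_range (Sp (Hq l (RR w kl) (Complex.cos w)) (Complex.cos w))
    refine BB.spec (C5.mB_ok c c') r1 r2 ?_
    exact row_sound hr hm hall (g := gM (C5.mB c c').H) (List.mem_cons_self) (gM_eq E.em)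
  · have ht : ∀ y : ℂ, cexp (2 * Real.pi * I * y) ≠ 0 := fun y => Complex.exp_ne_zero _
    have d1 := row_sound hr hm hall (g := gDf (C5.dB c c').H)
      (c := cexp (2 * Real.pi * I * (mH l (RR w kl) (Complex.cos w) -
        yH l (RR w kl) (Complex.cos w))))
      (List.mem_cons_of_mem _ List.mem_cons_self) (gDf_eq (by
        rw [mul_sub, Complex.exp_sub]
        have e1 := E.em
        have e2 := E.eu
        unfold mH yH
        rw [div_mul_eq_mul_div, div_eq_iff (ht _)]
        linear_combination (1 - yv (Sp (Hq l (RR w kl) (Complex.cos w)) (Complex.cos w))) * e1 -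
          e2))
    have d2 := TB.spec (C5.dB_ok c c') (t := (mH l (RR w kl) (Complex.cos w)).im -
        (yH l (RR w kl) (Complex.cos w)).im) (by
          rw [exp_nsq, Complex.sub_im]) d1
    refine ⟨d2.1, d2.2, ?_⟩
    rintro rfl
    have d3 := row_sound hr hm hall (g := gSm hSm)
      (c := cexp (2 * Real.pi * I * (mH l (RR w kl) (Complex.cos w) +
        yH r (RR w kr) (Complex.cos w))))
      (List.mem_append_right _ List.mem_cons_self) (gSm_eq (by
        rw [mul_add, Complex.exp_add]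
        have e1 := E.em
        have e2 := E.ev
        unfold mH yH
        linear_combination (cexp (2 * Real.pi * I * acot2 (Hq r (RR w kr) (Complex.cos w))) *
          (2 - 4 * (Complex.cos w ^ 2) -
            yv (Sp (Hq l (RR w kl) (Complex.cos w)) (Complex.cos w)))) * e1 + e2))
      ⟨0, 1, 0, 0⟩ (List.mem_cons_self)
    obtain ⟨r1, r2⟩ := acot2_range (Sp (Hq l (RR w kl) (Complex.cos w)) (Complex.cos w))
    obtain ⟨r3, r4⟩ := acot2_range (Hq r (RR w kr) (Complex.cos w))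
    have d4 := not_sat_ang d3
    push_cast at d4
    rw [zero_mul, zero_add, one_mul, Complex.add_re] at d4
    by_contra hc
    push Not at hc
    have hpi := Real.pi_pos
    have := Real.sin_nonneg_of_nonneg_of_le_pi (x := 2 * Real.pi *
      ((mH l (RR w kl) (Complex.cos w)).re + (yH r (RR w kr) (Complex.cos w)).re))
      (mul_nonneg (by positivity) (add_nonneg r1 r3)) (by nlinarith only [hc, hpi])
    linarith only [d4, this]

end

end Pool.Agent.Work.MP_b30479_gt.G2.CN.M3
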