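import Pool.Agent.Work.MP_b30479_gt.G2.CN.M3Fit
import Pool.Agent.Work.MP_b30479_gt.G2.CN.M3Ra

/-!
# Inner variables of regions with three crossings
-/

namespace Pool.Agent.Work.MP_b30479_gt.G2.CN.M3

open Complex SR

namespace C5

/-- the runs -/
theorem tab (c c' : C5) : ∃ n code, row [gO (ow c c'), gU c.box.H, gW c'.box.H, c.gL, c'.gR]
    ([gM (mB c c').H, gDf (dB c c').H] ++ ex c') n code root3 = true :=
  match c, c' with
  | .u, .u => ⟨_, _, t_uu⟩
  | .u, .s => ⟨_, _, t_us⟩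
  | .u, .o => ⟨_, _, t_uo⟩
  | .u, .e => ⟨_, _, t_ue⟩
  | .u, .r => ⟨_, _, t_ur⟩
  | .s, .u => ⟨_, _, t_su⟩
  | .s, .s => ⟨_, _, t_ss⟩
  | .s, .o => ⟨_, _, t_so⟩
  | .s, .e => ⟨_, _, t_se⟩
  | .s, .r => ⟨_, _, t_sr⟩
  | .o, .u => ⟨_, _, t_ou⟩
  | .o, .s => ⟨_, _, t_os⟩
  | .o, .o => ⟨_, _, t_oo⟩
  | .o, .e => ⟨_, _, t_oe⟩
  | .o, .r => ⟨_, _, t_or⟩
  | .e, .u => ⟨_, _, t_eu⟩
  | .e, .s => ⟨_, _, t_es⟩
  | .e, .o => ⟨_, _, t_eo⟩
  | .e, .e => ⟨_, _, t_ee⟩
  | .e, .r => ⟨_, _, t_er⟩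
  | .r, .u => ⟨_, _, t_ru⟩
  | .r, .s => ⟨_, _, t_rs⟩
  | .r, .o => ⟨_, _, t_ro⟩
  | .r, .e => ⟨_, _, t_re⟩
  | .r, .r => ⟨_, _, t_rr⟩

end C5

theorem m11_ok : m_11.ok = true := by decide +kernel
theorem m1o_ok : m_1o.ok = true := by decide +kernel
theorem m1e_ok : m_1e.ok = true := by decide +kernel
theorem m1r_ok : m_1r.ok = true := by decide +kernel
theorem mo1_ok : m_o1.ok = true := by decide +kernel
theorem moo_ok : m_oo.ok = true := by decide +kernel
theorem moe_ok : m_oe.ok = true := by decide +kernel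
theorem mor_ok : m_or.ok = true := by decide +kernel
theorem me1_ok : m_e1.ok = true := by decide +kernel
theorem meo_ok : m_eo.ok = true := by decide +kernel
theorem mee_ok : m_ee.ok = true := by decide +kernel
theorem mer_ok : m_er.ok = true := by decide +kernel
theorem s11_ok : s_11.ok = true := by decide +kernel
theorem s1o_ok : s_1o.ok = true := by decide +kernel
theorem s1e_ok : s_1e.ok = true := by decide +kernel
theorem s1r_ok : s_1r.ok = true := by decide +kernel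
theorem so1_ok : s_o1.ok = true := by decide +kernel
theorem soo_ok : s_oo.ok = true := by decide +kernel
theorem soe_ok : s_oe.ok = true := by decide +kernel
theorem sor_ok : s_or.ok = true := by decide +kernel
theorem se1_ok : s_e1.ok = true := by decide +kernel
theorem seo_ok : s_eo.ok = true := by decide +kernel
theorem see_ok : s_ee.ok = true := by decide +kernel
theorem ser_ok : s_er.ok = true := by decide +kernel

namespace C5

theorem mB_ok (c c' : C5) : (mB c c').ok = true :=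
  match c, c' with
  | .u, .u => m11_ok
  | .u, .s => m11_ok
  | .u, .o => m1o_ok
  | .u, .e => m1e_ok
  | .u, .r => m1r_ok
  | .s, .u => m11_ok
  | .s, .s => m11_ok
  | .s, .o => m1o_ok
  | .s, .e => m1e_ok
  | .s, .r => m1r_ok
  | .o, .u => mo1_ok
  | .o, .s => mo1_ok
  | .o, .o => moo_ok
  | .o, .e => moe_ok
  | .o, .r => mor_ok
  | .e, .u => me1_ok
  | .e, .s => me1_ok
  | .e, .o => meo_ok
  | .e, .e => mee_ok
  | .e, .r => mer_ok
  | .r, .u => mo1_ok
  | .r, .s => mo1_ok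
  | .r, .o => moo_ok
  | .r, .e => moe_ok
  | .r, .r => mor_ok

theorem dB_ok (c c' : C5) : (dB c c').ok = true :=
  match c, c' with
  | .u, .u => s11_ok
  | .u, .s => s11_ok
  | .u, .o => s1o_ok
  | .u, .e => s1e_ok
  | .u, .r => s1r_ok
  | .s, .u => s11_ok
  | .s, .s => s11_ok
  | .s, .o => s1o_ok
  | .s, .e => s1e_ok
  | .s, .r => s1r_ok
  | .o, .u => so1_ok
  | .o, .s => so1_ok
  | .o, .o => soo_ok
  | .o, .e => soe_ok
  | .o, .r => sor_ok
  | .e, .u => se1_ok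
  | .e, .s => se1_ok
  | .e, .o => seo_ok
  | .e, .e => see_ok
  | .e, .r => ser_ok
  | .r, .u => so1_ok
  | .r, .s => so1_ok
  | .r, .o => soo_ok
  | .r, .e => soe_ok
  | .r, .r => sor_ok

end C5

end Pool.Agent.Work.MP_b30479_gt.G2.CN.M3
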