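import Pool.Agent.Work.MP_b30479_gt.G2.CN.GS
import Pool.Agent.Work.MP_b30479_gt.G2.SQuartF

/-!
# Constraints on a quotient

`QC`: the condition `al Re c + be Im c - ga |c|² - mu ≥ 0` on a complex number `c`; `Sat H c`: all
conditions of the list `H`; `okH H V`: they hold for `c = k²`, `k` in the polygon `V`.
`Grp`: a quotient `c = N / M` of two expressions with a list of conditions.
`row`: a run of the checker for a list of groups and a group of goals.
-/

namespace Pool.Agent.Work.MP_b30479_gt.G2.CN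

open Complex

/-- the condition `al Re c + be Im c - ga |c|² - mu ≥ 0` -/
structure QC where
  al : ℤ
  be : ℤ
  ga : ℤ
  mu : ℤ

/-- the condition holds at `c` -/
def QC.Sat (Q : QC) (c : ℂ) : Prop :=
  0 ≤ (Q.al : ℝ) * c.re + Q.be * c.im - Q.ga * ‖c‖ ^ 2 - Q.mu

/-- the conjugate condition -/
def QC.mir (Q : QC) : QC := ⟨Q.al, -Q.be, Q.ga, Q.mu⟩

lemma QC.mir_sat {Q : QC} {c : ℂ} : Q.mir.Sat c ↔ Q.Sat ((starRingEnd ℂ) c) := by
  unfold QC.Sat QC.mir
  rw [Complex.norm_conj, Complex.conj_re, Complex.conj_im]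
  push_cast
  rw [neg_mul, mul_neg]

/-- all conditions of the list hold at `c` -/
def Sat (H : List QC) (c : ℂ) : Prop := ∀ Q ∈ H, Q.Sat c

/-- the conjugate conditions -/
def mirH (H : List QC) : List QC := H.map QC.mir

lemma Sat.mir {H : List QC} {c : ℂ} (h : Sat H ((starRingEnd ℂ) c)) : Sat (mirH H) c := by
  intro Q hQ
  obtain ⟨Q', h1, rfl⟩ := List.mem_map.1 hQ
  exact QC.mir_sat.2 (h Q' h1)

/-- check of the conditions for the squares of the points of a polygon -/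
noncomputable def okH (H : List QC) (V : List (ℤ × ℤ)) : Bool :=
  @List.rec QC (fun _ => Bool) true (fun Q _ ih => SQ.an (SQ.polyQ Q.al Q.be Q.ga Q.mu V) ih) H

lemma okH_mem {V : List (ℤ × ℤ)} : ∀ {H : List QC}, okH H V = true → ∀ Q ∈ H,
    SQ.polyQ Q.al Q.be Q.ga Q.mu V = true := by
  intro H
  induction H with
  | nil => exact fun _ Q hQ => absurd hQ (by simp)
  | cons Q' H ih =>
    intro h Q hQ
    have h1 : SQ.an (SQ.polyQ Q'.al Q'.be Q'.ga Q'.mu V) (okH H V) = true := h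
    obtain ⟨h2, h3⟩ := SQ.an_iff h1
    rcases List.mem_cons.1 hQ with e | hQ
    · rw [e]
      exact h2
    · exact ih h3 Q hQ

theorem okH_sound {H : List QC} {V : List (ℤ × ℤ)} (h : okH H V = true) {k : ℂ}
    (hk : k ∈ Poly V) : Sat H (k ^ 2) := by
  intro Q hQ
  have h1 := SQ.poly_sound (SQ.polyQ_ok (okH_mem h Q hQ)) hk
  unfold SQ.quart at h1
  unfold QC.Sat
  have e1 : (k ^ 2).re = k.re ^ 2 - k.im ^ 2 := by
    rw [pow_two, Complex.mul_re]; ring
  have e2 : (k ^ 2).im = 2 * k.re * k.im := by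
    rw [pow_two, Complex.mul_im]; ring
  have e3 : ‖k ^ 2‖ ^ 2 = (k.re ^ 2 + k.im ^ 2) ^ 2 := by
    rw [norm_pow, ← pow_mul, mul_comm 2 2, pow_mul, ← Complex.normSq_eq_norm_sq,
      Complex.normSq_apply]
    ring
  rw [e1, e2, e3]
  exact h1

noncomputable section

/-- no condition -/
def Con.triv : Con where
  g := true
  b := nat_lit 0
  lf := fun _ => ⟨nat_lit 0, nat_lit 0, nat_lit 0, nat_lit 0⟩
  Holds := fun _ _ => True
  ok := fun _ => ⟨HH_pos, fun _ _ _ _ _ _ _ _ _ _ _ => ⟨0, LOk.zero, fun _ => le_rfl⟩⟩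

/-- `0 ≤ x Im A + y Re A - m |A|² + k` -/
def qdi (x y m k : ℤ) (A : Ev) : Con :=
  if m = 0 then .ql x.toNat (-x).toNat y.toNat (-y).toNat k.toNat (-k).toNat A
  else .qd x.toNat (-x).toNat y.toNat (-y).toNat m.toNat (-m).toNat k.toNat (-k).toNat A

/-- the constraint `Q` for the quotient `N / M` -/
def mkCon0 (Q : QC) (N M : Ev) (hd : N.deg = M.deg) : Con :=
  if Q.ga = 0 then
    if Q.mu = 0 then .qI Q.be.toNat (-Q.be).toNat Q.al.toNat (-Q.al).toNat N M
    else .qM Q.be.toNat (-Q.be).toNat Q.al.toNat (-Q.al).toNat Q.mu.toNat (-Q.mu).toNat N M hd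
  else if Q.mu = 0 then
    .qG Q.be.toNat (-Q.be).toNat Q.al.toNat (-Q.al).toNat Q.ga.toNat (-Q.ga).toNat N M hd
  else if Q.al = 0 ∧ Q.be = 0 then
    .qB Q.ga.toNat (-Q.ga).toNat Q.mu.toNat (-Q.mu).toNat N M hd
  else .qA Q.be.toNat (-Q.be).toNat Q.al.toNat (-Q.al).toNat Q.ga.toNat (-Q.ga).toNat Q.mu.toNat
    (-Q.mu).toNat N M hd

/-- the same; special forms if `M = 1`, `N = 1`, `N / M = (u + i) / (u - i)` or
`N / M = (1 + i w) / (1 - i w)` -/
def mkCon (Q : QC) (N M : Ev) (hd : N.deg = M.deg) : Con :=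
  if M.ty = 1 then qdi Q.be Q.al Q.ga (-Q.mu) N
  else if N.ty = 1 then qdi (-Q.be) Q.al Q.mu (-Q.ga) M
  else if N.ty = 2 ∧ M.ty = 3 then
    qdi (2 * (Q.mu - Q.ga)) (2 * Q.be) (Q.ga + Q.mu - Q.al) (-(Q.al + Q.ga + Q.mu)) .R
  else if N.ty = 4 ∧ M.ty = 5 then
    qdi (2 * (Q.ga - Q.mu)) (2 * Q.be) (Q.al + Q.ga + Q.mu) (Q.al - Q.ga - Q.mu) .q
  else mkCon0 Q N M hd

lemma toNat_sub (x : ℤ) : ((x.toNat : ℕ) : ℝ) - ((-x).toNat : ℕ) = x := by
  have h : ((x.toNat : ℕ) : ℤ) - ((-x).toNat : ℕ) = x := by omega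
  exact_mod_cast h

lemma gz_int (x y : ℤ) : gz x.toNat (-x).toNat y.toNat (-y).toNat = ⟨(x : ℝ), (y : ℝ)⟩ := by
  unfold gz
  rw [toNat_sub, toNat_sub]

theorem mkCon0_holds {Q : QC} {N M : Ev} {hd : N.deg = M.deg} {u w c : ℂ}
    (hc : c * M.val u w = N.val u w) (h : Q.Sat c) : (mkCon0 Q N M hd).Holds u w := by
  have n2 : M.val u w * (starRingEnd ℂ) (M.val u w) = ((‖M.val u w‖ ^ 2 : ℝ) : ℂ) := by
    rw [Complex.mul_conj, Complex.normSq_eq_norm_sq]
  have hN : N.val u w * (starRingEnd ℂ) (M.val u w) = ((‖M.val u w‖ ^ 2 : ℝ) : ℂ) * c := by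
    rw [← n2, ← hc]; ring
  have nn : ‖N.val u w‖ ^ 2 = ‖c‖ ^ 2 * ‖M.val u w‖ ^ 2 := by
    rw [← hc, norm_mul, mul_pow]
  have p := sq_nonneg ‖M.val u w‖
  unfold QC.Sat at h
  have hh := mul_nonneg p h
  have e : (gz Q.be.toNat (-Q.be).toNat Q.al.toNat (-Q.al).toNat *
      (N.val u w * (starRingEnd ℂ) (M.val u w))).im = ‖M.val u w‖ ^ 2 * (Q.al * c.re + Q.be * c.im) := by
    rw [gz_int, hN, mul_left_comm, Complex.im_ofReal_mul, Complex.mul_im]
    ring
  unfold mkCon0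
  by_cases hg : Q.ga = 0
  · rw [if_pos hg]
    rw [hg, Int.cast_zero, zero_mul, sub_zero] at hh
    by_cases hm : Q.mu = 0
    · rw [if_pos hm]
      rw [hm, Int.cast_zero, sub_zero] at hh
      change 0 ≤ (gz _ _ _ _ * (N.val u w * (starRingEnd ℂ) (M.val u w))).im
      rw [e]
      exact hh
    · rw [if_neg hm]
      change 0 ≤ (gz _ _ _ _ * (N.val u w * (starRingEnd ℂ) (M.val u w))).im -
        (((Q.mu.toNat : ℕ) : ℝ) - ((-Q.mu).toNat : ℕ)) * ‖M.val u w‖ ^ 2
      rw [e, toNat_sub]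
      linarith only [hh]
  · rw [if_neg hg]
    by_cases hm : Q.mu = 0
    · rw [if_pos hm]
      rw [hm, Int.cast_zero, sub_zero] at hh
      change 0 ≤ (gz _ _ _ _ * (N.val u w * (starRingEnd ℂ) (M.val u w))).im -
        (((Q.ga.toNat : ℕ) : ℝ) - ((-Q.ga).toNat : ℕ)) * ‖N.val u w‖ ^ 2
      rw [e, toNat_sub, nn]
      linarith only [hh]
    · rw [if_neg hm]
      by_cases hab : Q.al = 0 ∧ Q.be = 0
      · rw [if_pos hab]
        rw [hab.1, hab.2, Int.cast_zero, zero_mul, zero_mul, zero_add, zero_sub] at hh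
        change 0 ≤ -((((Q.ga.toNat : ℕ) : ℝ) - ((-Q.ga).toNat : ℕ)) * ‖N.val u w‖ ^ 2) -
          (((Q.mu.toNat : ℕ) : ℝ) - ((-Q.mu).toNat : ℕ)) * ‖M.val u w‖ ^ 2
        rw [toNat_sub, toNat_sub, nn]
        linarith only [hh]
      · rw [if_neg hab]
        change 0 ≤ (gz _ _ _ _ * (N.val u w * (starRingEnd ℂ) (M.val u w))).im -
          (((Q.ga.toNat : ℕ) : ℝ) - ((-Q.ga).toNat : ℕ)) * ‖N.val u w‖ ^ 2 -
          (((Q.mu.toNat : ℕ) : ℝ) - ((-Q.mu).toNat : ℕ)) * ‖M.val u w‖ ^ 2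
        rw [e, toNat_sub, toNat_sub, nn]
        linarith only [hh]

lemma im_xy (x y : ℝ) (z : ℂ) : ((⟨x, y⟩ : ℂ) * z).im = x * z.im + y * z.re := by
  rw [Complex.mul_im]

lemma qdi_holds {x y m k : ℤ} {A : Ev} {u w : ℂ}
    (h : 0 ≤ (x : ℝ) * (A.val u w).im + y * (A.val u w).re - m * ‖A.val u w‖ ^ 2 + k) :
    (qdi x y m k A).Holds u w := by
  unfold qdi
  by_cases hm : m = 0
  · rw [if_pos hm]
    change 0 ≤ (gz _ _ _ _ * A.val u w).im + (((k.toNat : ℕ) : ℝ) - ((-k).toNat : ℕ))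
    rw [gz_int, toNat_sub, im_xy]
    rw [hm, Int.cast_zero, zero_mul, sub_zero] at h
    exact h
  · rw [if_neg hm]
    change 0 ≤ (gz _ _ _ _ * A.val u w).im - (((m.toNat : ℕ) : ℝ) - ((-m).toNat : ℕ)) * ‖A.val u w‖ ^ 2 +
      (((k.toNat : ℕ) : ℝ) - ((-k).toNat : ℕ))
    rw [gz_int, toNat_sub, toNat_sub, im_xy]
    exact h

theorem mkCon_holds {Q : QC} {N M : Ev} {hd : N.deg = M.deg} {u w c : ℂ}
    (hc : c * M.val u w = N.val u w) (h : Q.Sat c) : (mkCon Q N M hd).Holds u w := by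
  unfold mkCon
  by_cases h1 : M.ty = 1
  · rw [if_pos h1]
    rw [M.kd.k1 h1, mul_one] at hc
    apply qdi_holds
    rw [← hc]
    unfold QC.Sat at h
    push_cast
    linarith only [h]
  rw [if_neg h1]
  by_cases h2 : N.ty = 1
  · rw [if_pos h2]
    rw [N.kd.k1 h2] at hc
    apply qdi_holds
    unfold QC.Sat at h
    set z := M.val u w with hz
    have n2 : c * ((‖z‖ ^ 2 : ℝ) : ℂ) = (starRingEnd ℂ) z := by
      rw [← Complex.normSq_eq_norm_sq, ← Complex.mul_conj, ← mul_assoc, hc, one_mul]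
    have r1 := congrArg Complex.re n2
    have r2 := congrArg Complex.im n2
    rw [Complex.re_mul_ofReal, Complex.conj_re] at r1
    rw [Complex.im_mul_ofReal, Complex.conj_im] at r2
    have r3 : ‖c‖ ^ 2 * ‖z‖ ^ 2 = 1 := by
      rw [← mul_pow, ← norm_mul, hc, norm_one, one_pow]
    have hh := mul_nonneg h (sq_nonneg ‖z‖)
    have e : ((Q.al : ℝ) * c.re + Q.be * c.im - Q.ga * ‖c‖ ^ 2 - Q.mu) * ‖z‖ ^ 2 =
        Q.al * (c.re * ‖z‖ ^ 2) + Q.be * (c.im * ‖z‖ ^ 2) - Q.ga * (‖c‖ ^ 2 * ‖z‖ ^ 2) -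
          Q.mu * ‖z‖ ^ 2 := by ring
    rw [e, r1, r2, r3] at hh
    push_cast
    linarith only [hh]
  rw [if_neg h2]
  by_cases h3 : N.ty = 2 ∧ M.ty = 3
  · rw [if_pos h3]
    rw [N.kd.k2 h3.1, M.kd.k3 h3.2] at hc
    apply qdi_holds
    change 0 ≤ _ * u.im + _ * u.re - _ * ‖u‖ ^ 2 + _
    unfold QC.Sat at h
    have n1 : ‖u‖ ^ 2 = u.re * u.re + u.im * u.im := by
      rw [← Complex.normSq_eq_norm_sq, Complex.normSq_apply]
    have n2 : ‖u - I‖ ^ 2 = u.re * u.re + (u.im - 1) * (u.im - 1) := by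
      rw [← Complex.normSq_eq_norm_sq, Complex.normSq_apply]
      simp
    have n3 : ‖c‖ ^ 2 * ‖u - I‖ ^ 2 = u.re * u.re + (u.im + 1) * (u.im + 1) := by
      rw [← mul_pow, ← norm_mul, hc, ← Complex.normSq_eq_norm_sq, Complex.normSq_apply]
      simp
    have n4 : c * ((‖u - I‖ ^ 2 : ℝ) : ℂ) = (u + I) * (starRingEnd ℂ) (u - I) := by
      rw [← Complex.normSq_eq_norm_sq, ← Complex.mul_conj, ← mul_assoc, hc]
    have r1 := congrArg Complex.re n4
    have r2 := congrArg Complex.im n4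
    rw [Complex.re_mul_ofReal] at r1
    rw [Complex.im_mul_ofReal] at r2
    simp only [map_sub, Complex.conj_I, sub_neg_eq_add, Complex.mul_re, Complex.mul_im, Complex.add_re,
      Complex.add_im, Complex.conj_re, Complex.conj_im, Complex.I_re, Complex.I_im, add_zero] at r1 r2
    have hh := mul_nonneg h (sq_nonneg ‖u - I‖)
    have e : ((Q.al : ℝ) * c.re + Q.be * c.im - Q.ga * ‖c‖ ^ 2 - Q.mu) * ‖u - I‖ ^ 2 =
        Q.al * (c.re * ‖u - I‖ ^ 2) + Q.be * (c.im * ‖u - I‖ ^ 2) -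
          Q.ga * (‖c‖ ^ 2 * ‖u - I‖ ^ 2) - Q.mu * ‖u - I‖ ^ 2 := by ring
    rw [e, r1, r2, n3, n2] at hh
    push_cast
    rw [n1]
    nlinarith only [hh, hh]
  rw [if_neg h3]
  by_cases h5 : N.ty = 4 ∧ M.ty = 5
  · rw [if_pos h5]
    rw [N.kd.k4 h5.1, M.kd.k5 h5.2] at hc
    apply qdi_holds
    change 0 ≤ _ * w.im + _ * w.re - _ * ‖w‖ ^ 2 + _
    unfold QC.Sat at h
    have n1 : ‖w‖ ^ 2 = w.re * w.re + w.im * w.im := by
      rw [← Complex.normSq_eq_norm_sq, Complex.normSq_apply]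
    have n2 : ‖1 - I * w‖ ^ 2 = (1 + w.im) * (1 + w.im) + w.re * w.re := by
      rw [← Complex.normSq_eq_norm_sq, Complex.normSq_apply]
      simp
    have n3 : ‖c‖ ^ 2 * ‖1 - I * w‖ ^ 2 = (1 - w.im) * (1 - w.im) + w.re * w.re := by
      rw [← mul_pow, ← norm_mul, hc, ← Complex.normSq_eq_norm_sq, Complex.normSq_apply]
      simp
      ring
    have n4 : c * ((‖1 - I * w‖ ^ 2 : ℝ) : ℂ) = (1 + I * w) * (starRingEnd ℂ) (1 - I * w) := by
      rw [← Complex.normSq_eq_norm_sq, ← Complex.mul_conj, ← mul_assoc, hc]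
    have r1 := congrArg Complex.re n4
    have r2 := congrArg Complex.im n4
    rw [Complex.re_mul_ofReal] at r1
    rw [Complex.im_mul_ofReal] at r2
    simp only [map_sub, map_mul, map_one, Complex.conj_I, Complex.mul_re, Complex.mul_im, Complex.add_re,
      Complex.add_im, Complex.sub_re, Complex.sub_im, Complex.neg_re, Complex.neg_im, Complex.one_re,
      Complex.one_im, Complex.conj_re, Complex.conj_im, Complex.I_re, Complex.I_im] at r1 r2
    have hh := mul_nonneg h (sq_nonneg ‖1 - I * w‖)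
    have e : ((Q.al : ℝ) * c.re + Q.be * c.im - Q.ga * ‖c‖ ^ 2 - Q.mu) * ‖1 - I * w‖ ^ 2 =
        Q.al * (c.re * ‖1 - I * w‖ ^ 2) + Q.be * (c.im * ‖1 - I * w‖ ^ 2) -
          Q.ga * (‖c‖ ^ 2 * ‖1 - I * w‖ ^ 2) - Q.mu * ‖1 - I * w‖ ^ 2 := by ring
    rw [e, r1, r2, n3, n2] at hh
    push_cast
    rw [n1]
    nlinarith only [hh, hh]
  rw [if_neg h5]
  exact mkCon0_holds hc h

/-- a quotient of two expressions with conditions -/
structure Grp where
  N : Ev
  M : Ev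
  hd : N.deg = M.deg
  H : List QC

/-- the constraints of a group -/
def Grp.cs (g : Grp) : List Con := g.H.map fun Q => mkCon Q g.N g.M g.hd

/-- the quotient satisfies the conditions -/
def Grp.Ok (g : Grp) (u w : ℂ) : Prop := ∃ c : ℂ, c * g.M.val u w = g.N.val u w ∧ Sat g.H c

lemma Grp.Ok.holds {g : Grp} {u w : ℂ} (h : g.Ok u w) : ∀ c ∈ g.cs, c.Holds u w := by
  intro c hc
  obtain ⟨z, h1, h2⟩ := h
  obtain ⟨Q, hQ, rfl⟩ := List.mem_map.1 hc
  exact mkCon_holds h1 (h2 Q hQ)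

/-- the constraints of a list of groups -/
def csOf (l : List Grp) : List Con := l.flatMap Grp.cs

lemma csOf_holds {l : List Grp} {u w : ℂ} (h : ∀ g ∈ l, g.Ok u w) :
    ∀ c ∈ csOf l, c.Holds u w := by
  intro c hc
  obtain ⟨g, h1, h2⟩ := List.mem_flatMap.1 hc
  exact (h g h1).holds c h2

/-- the head -/
def hdC (l : List Con) : Con := @List.rec Con (fun _ => Con) Con.triv (fun c _ _ => c) l

/-- the first `n` elements and the others -/
def spl (n : ℕ) : List Con → List Con × List Con :=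
  @Nat.rec (fun _ => List Con → List Con × List Con) (fun l => ([], l))
    (fun _ ih l => @List.rec Con (fun _ => List Con × List Con) ([], [])
      (fun c l' _ => (c :: (ih l').1, (ih l').2)) l) n

lemma spl_mem (n : ℕ) : ∀ l : List Con, (∀ c ∈ (spl n l).1, c ∈ l) ∧ (∀ c ∈ (spl n l).2, c ∈ l) := by
  induction n with
  | zero => exact fun l => ⟨fun c hc => absurd hc (by simp [spl]), fun c hc => hc⟩
  | succ n ih =>
    intro l
    cases l with
    | nil => exact ⟨fun c hc => hc, fun c hc => hc⟩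
    | cons a l =>
      constructor
      · intro c hc
        have : c ∈ a :: (spl n l).1 := hc
        rcases List.mem_cons.1 this with rfl | h
        · exact List.mem_cons_self
        · exact List.mem_cons_of_mem _ ((ih l).1 c h)
      · intro c hc
        have : c ∈ (spl n l).2 := hc
        exact List.mem_cons_of_mem _ ((ih l).2 c this)

/-- the tree of a list; its first element has the number `i` -/
def ofL (d : ℕ) : ℕ → List Con → CT :=
  @Nat.rec (fun _ => ℕ → List Con → CT) (fun _ l => .l (hdC l))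
    (fun d ih i l => .n (Nat.add i (Nat.pow (nat_lit 2) d)) (ih i (spl (Nat.pow (nat_lit 2) d) l).1)
      (ih (Nat.add i (Nat.pow (nat_lit 2) d)) (spl (Nat.pow (nat_lit 2) d) l).2)) d

lemma ofL_all {u w : ℂ} (d : ℕ) : ∀ (i : ℕ) (l : List Con), (∀ c ∈ l, c.g = true ∧ c.Holds u w) →
    (ofL d i l).All u w := by
  induction d with
  | zero =>
    intro i l hl
    cases l with
    | nil => exact ⟨rfl, trivial⟩
    | cons c l => exact hl c List.mem_cons_self
  | succ d ih =>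
    intro i l hl
    exact ⟨ih _ _ fun c hc => hl c ((spl_mem _ l).1 c hc), ih _ _ fun c hc => hl c ((spl_mem _ l).2 c hc)⟩

/-- the range of a cell, as a test -/
def inI (n : ℕ) : Bool := cB (Nat.ble (nat_lit 917504) n) (Nat.ble n (nat_lit 1179648)) false

lemma inI_spec {n : ℕ} (h : inI n = true) : InR n :=
  ⟨Nat.le_of_ble_eq_true (cB_and h).1, Nat.le_of_ble_eq_true (cB_and h).2⟩

def inC (C : Cell) : Bool := cB (inI C.xl) (cB (inI C.xh) (cB (inI C.yl) (cB (inI C.yh)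
  (cB (inI C.ul) (cB (inI C.uh) (cB (inI C.vl) (inI C.vh) false) false) false) false) false) false) false

lemma inC_spec {C : Cell} (h : inC C = true) : C.In := by
  have h1 := cB_and h
  have h2 := cB_and h1.2
  have h3 := cB_and h2.2
  have h4 := cB_and h3.2
  have h5 := cB_and h4.2
  have h6 := cB_and h5.2
  have h7 := cB_and h6.2
  exact ⟨inI_spec h1.1, inI_spec h2.1, inI_spec h3.1, inI_spec h4.1, inI_spec h5.1, inI_spec h6.1,
    inI_spec h7.1, inI_spec h7.2⟩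

/-- the open goals at the start are the numbers of all goals -/
lemma mk0_goal {gs : List Con} {al : List (Con × Con)} {u w : ℂ} {C : Cell} (hC : C.In) (hm : C.Mem u w)
    (h : CellOk gs al u w C (mk0 gs)) (hk : Nat.ble (mk0 gs) (nat_lit 4294967295) = true) {g : Con}
    (hg : g ∈ gs) : ¬ g.Holds u w := by
  obtain ⟨j, h1, h2⟩ := getG_goal al hg hk
  have h3 := (h hC hm).1 j h1
  rw [h2] at h3
  exact h3

/-- a run of the checker: groups `l`, goals `go`; `n ≥ 1048576`: `n - 1048576` chunks for the second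
checker -/
def row (l : List Grp) (go : List Grp) (n code : ℕ) (C : Cell) : Bool :=
  cB (inC C) (cB (allG (csOf l)) (cB (allG (csOf go))
    (cB (Nat.ble (nat_lit 1048576) n)
      (cB (Nat.ble (mk0 (csOf go)) (nat_lit 4294967295))
        (partC (ofL 7 (nat_lit 0) (csOf l)) (csOf go) [] (Nat.sub n (nat_lit 1048576)) code
          (.cons C (mk0 (csOf go)) .nil) .nil) false)
      (run (ofL 6 (nat_lit 13) (csOf l)) (csOf go) n code [C])) false) false) false

/-- **Soundness of a run.** -/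
theorem row_sound {l : List Grp} {go : List Grp} {n code : ℕ} {C : Cell}
    (h : row l go n code C = true) {u w : ℂ} (hm : C.Mem u w) (hl : ∀ g ∈ l, g.Ok u w)
    {g : Grp} (hg : g ∈ go) {c : ℂ} (hc : c * g.M.val u w = g.N.val u w) :
    ∀ Q ∈ g.H, ¬ Q.Sat c := by
  intro Q hQ hS
  have h1 := cB_and h
  have h2 := cB_and h1.2
  have h3 := cB_and h2.2
  have hC := inC_spec h1.1
  have hcs : ∀ c ∈ csOf l, c.g = true ∧ c.Holds u w := fun c hc => ⟨allG_spec h2.1 c hc, csOf_holds hl c hc⟩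
  have hmem : mkCon Q g.N g.M g.hd ∈ csOf go :=
    List.mem_flatMap.2 ⟨g, hg, List.mem_map.2 ⟨Q, hQ, rfl⟩⟩
  rcases cB_cases h3.2 with ⟨_, h4⟩ | ⟨_, h4⟩
  · obtain ⟨h5, h6⟩ := cB_and h4
    have h7 := partC_spec (ofL_all 7 _ _ hcs) (allG_spec h3.1) (fun p hp => absurd hp (by simp)) _ _ _ h6
    exact mk0_goal hC hm h7.1 h5 hmem (mkCon_holds hc hS)
  · have h5 := run_spec (ofL_all 6 _ _ hcs) (allG_spec h3.1) n code [C] h4 C List.mem_cons_self hC hm _ hmem
    exact h5 (mkCon_holds hc hS)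

/-! ### runs in parts -/

/-- the number of chunks of a run in parts -/
def pn (n : ℕ) : ℕ := Nat.add (nat_lit 1048576) n

/-- a sum -/
def pl (m k : ℕ) : ℕ := Nat.add m k

/-- the data of a run are in the range -/
def rdy (l go : List Grp) (C : Cell) : Bool :=
  cB (inC C) (cB (allG (csOf l)) (cB (allG (csOf go)) (Nat.ble (mk0 (csOf go)) (nat_lit 4294967295))
    false) false) false

lemma pn_le (n : ℕ) : Nat.ble (nat_lit 1048576) (pn n) = true :=
  Nat.ble_eq_true_of_le (Nat.le_add_right 1048576 n)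

lemma pn_sub (n : ℕ) : Nat.sub (pn n) (nat_lit 1048576) = n := Nat.add_sub_cancel_left _ _

/-- **A run in parts.** -/
theorem row_mk {l go : List Grp} {n code : ℕ} {C : Cell} (h1 : rdy l go C = true)
    (h2 : partC (ofL 7 (nat_lit 0) (csOf l)) (csOf go) [] n code (.cons C (mk0 (csOf go)) .nil) .nil = true) :
    row l go (pn n) code C = true := by
  obtain ⟨k1, h3⟩ := cB_and h1
  obtain ⟨k2, h4⟩ := cB_and h3
  obtain ⟨k3, k4⟩ := cB_and h4
  unfold row
  rw [k1, k2, k3, k4, pn_le, pn_sub, h2]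
  rfl

/-- one part more -/
theorem cat_mk (d N : ℕ) {cs : CT} {gs : List Con} {al : List (Con × Con)} {m k c r : ℕ} {st s : Stk}
    (h1 : partC cs gs al k c st (dS d N) = true) (h2 : partC cs gs al m r (dS d N) s = true) :
    partC cs gs al (pl m k) (cat k c r) st s = true := partC_cat h2 h1

theorem and_mk {a b : Bool} (h1 : a = true) (h2 : b = true) : (a && b) = true := by
  rw [h1, h2]
  rfl

end

end Pool.Agent.Work.MP_b30479_gt.G2.CN
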