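import Pool.Agent.Work.MP_b30479_gt.G2.SZ8
import Pool.Agent.Work.MP_b30479_gt.G2.CN.Sem
import Pool.Agent.Work.NumI.Expr

/-!
# Bounds of a ring variable from the polygon of its cosine

`(1 - C) x² - C y² - C (1 - C) = (cos² w₁ - C) (cosh² w₂ - C)` for `x + i y = cos w`; its sign on a
polygon is read off from the polar form on the triangles of a fan.
-/

namespace Pool.Agent.Work.MP_b30479_gt.G2.CN.M4

open Complex SR NumI

/-- the polar form, units `1 / 1000` and `10 ^ 7` -/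
def gf (c : ℤ) (p q : ℤ × ℤ) : ℤ :=
  (10000000 - c) * 10000000 * (p.1 * q.1) - c * 10000000 * (p.2 * q.2) -
    c * (10000000 - c) * 1000000

/-- one triangle -/
def triF (s c : ℤ) (a b d : ℤ × ℤ) : Bool :=
  decide (0 < (b.1 - a.1) * (d.2 - a.2) - (b.2 - a.2) * (d.1 - a.1)) &&
  decide (0 ≤ s * gf c a a) && decide (0 ≤ s * gf c b b) && decide (0 ≤ s * gf c d d) &&
  decide (0 ≤ s * gf c a b) && decide (0 ≤ s * gf c a d) && decide (0 ≤ s * gf c b d)

/-- all triangles of the fan -/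
def fanF (s c : ℤ) (a : ℤ × ℤ) : List (ℤ × ℤ) → Bool
  | b :: d :: l => triF s c a b d && fanF s c a (d :: l)
  | _ => true

/-- the check for a polygon -/
def polyF (s c : ℤ) : List (ℤ × ℤ) → Bool
  | a :: b :: d :: l => fanF s c a (b :: d :: l)
  | _ => false

/-- the quadratic function -/
noncomputable def qf (C : ℝ) (z : ℂ) : ℝ := (1 - C) * z.re ^ 2 - C * z.im ^ 2 - C * (1 - C)

lemma tri_sound {s c : ℤ} {a b d : ℤ × ℤ} (h : triF s c a b d = true) {z : ℂ}
    (h0 : 0 ≤ cr b d z) (h1 : cr a d z ≤ 0) (h2 : 0 ≤ cr a b z) :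
    0 ≤ (s : ℝ) * qf ((c : ℝ) / 10000000) z := by
  simp only [triF, Bool.and_eq_true, decide_eq_true_eq] at h
  obtain ⟨⟨⟨⟨⟨⟨hD, c1⟩, c2⟩, c3⟩, c4⟩, c5⟩, c6⟩ := h
  obtain ⟨a1, a2⟩ := a
  obtain ⟨b1, b2⟩ := b
  obtain ⟨e1, e2⟩ := d
  simp only [gf] at c1 c2 c3 c4 c5 c6
  simp only at hD
  have hD' : (0 : ℝ) < (b1 - a1) * (e2 - a2) - (b2 - a2) * (e1 - a1) := by exact_mod_cast hD
  rify at c1 c2 c3 c4 c5 c6
  simp only [cr, Int.cast_sub] at h0 h1 h2
  generalize hx : z.re = x at *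
  generalize hy : z.im = y at *
  obtain ⟨l0, hl0⟩ : ∃ l0 : ℝ, l0 = ((e1 : ℝ) - b1) * (1000 * y - b2) -
    ((e2 : ℝ) - b2) * (1000 * x - b1) := ⟨_, rfl⟩
  obtain ⟨l1, hl1⟩ : ∃ l1 : ℝ, l1 = -(((e1 : ℝ) - a1) * (1000 * y - a2) -
    ((e2 : ℝ) - a2) * (1000 * x - a1)) := ⟨_, rfl⟩
  obtain ⟨l2, hl2⟩ : ∃ l2 : ℝ, l2 = ((b1 : ℝ) - a1) * (1000 * y - a2) -
    ((b2 : ℝ) - a2) * (1000 * x - a1) := ⟨_, rfl⟩
  have p0 : 0 ≤ l0 := by rw [hl0]; exact h0
  have p1 : 0 ≤ l1 := by rw [hl1]; linarith only [h1]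
  have p2 : 0 ≤ l2 := by rw [hl2]; exact h2
  set D : ℝ := ((b1 : ℝ) - a1) * (e2 - a2) - (b2 - a2) * (e1 - a1) with hDd
  have sD : l0 + l1 + l2 = D := by rw [hl0, hl1, hl2, hDd]; ring
  have sx : D * (1000 * x) = l0 * a1 + l1 * b1 + l2 * e1 := by
    rw [hl0, hl1, hl2, hDd]; ring
  have sy : D * (1000 * y) = l0 * a2 + l1 * b2 + l2 * e2 := by
    rw [hl0, hl1, hl2, hDd]; ring
  have key : D ^ 2 * 1000000 * 100000000000000 * ((s : ℝ) * qf ((c : ℝ) / 10000000) z) =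
      s * ((10000000 - c) * 10000000 * (D * (1000 * x)) ^ 2 -
        c * 10000000 * (D * (1000 * y)) ^ 2 - c * (10000000 - c) * 1000000 * D ^ 2) := by
    rw [qf, hx, hy]
    ring
  have hpos : 0 ≤ D ^ 2 * 1000000 * 100000000000000 * ((s : ℝ) * qf ((c : ℝ) / 10000000) z) := by
    rw [key, sx, sy, ← sD]
    have q1 := mul_nonneg (pow_nonneg p0 2) c1
    have q2 := mul_nonneg (pow_nonneg p1 2) c2
    have q3 := mul_nonneg (pow_nonneg p2 2) c3
    have q4 := mul_nonneg (mul_nonneg p0 p1) c4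
    have q5 := mul_nonneg (mul_nonneg p0 p2) c5
    have q6 := mul_nonneg (mul_nonneg p1 p2) c6
    have hs := add_nonneg (add_nonneg (add_nonneg q1 q2) q3) (mul_nonneg (by norm_num :
      (0 : ℝ) ≤ 2) (add_nonneg (add_nonneg q4 q5) q6))
    refine hs.trans (le_of_eq ?_)
    ring
  have hD4 : 0 < D ^ 2 * 1000000 * 100000000000000 := by positivity
  exact nonneg_of_mul_nonneg_right hpos hD4

lemma fan_sound {s c : ℤ} {a : ℤ × ℤ} {z : ℂ} (t : List (ℤ × ℤ)) :
    ∀ x : ℤ × ℤ, (∀ e ∈ (x :: t).zip (t ++ [a]), 0 ≤ cr e.1 e.2 z) →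
      fanF s c a (x :: t) = true → 0 ≤ cr a x z → (t ≠ [] ∨ 0 < cr a x z) →
      0 ≤ (s : ℝ) * qf ((c : ℝ) / 10000000) z := by
  induction t with
  | nil =>
    intro x h1 _ _ h4
    have h5 := h1 (x, a) (by simp)
    rw [SQ.cr_swap] at h5
    rcases h4 with h4 | h4
    · exact absurd rfl h4
    · simp only at h5
      linarith only [h5, h4]
  | cons y t ih =>
    intro x h1 h2 h3 _
    rw [fanF, Bool.and_eq_true] at h2
    by_cases hy : cr a y z ≤ 0
    · exact tri_sound h2.1 (h1 (x, y) (by simp)) hy h3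
    · push Not at hy
      exact ih y (fun e he => h1 e (by simp [he])) h2.2 hy.le (Or.inr hy)

theorem polyF_sound {s c : ℤ} {V : List (ℤ × ℤ)} (h : polyF s c V = true) {z : ℂ}
    (hz : z ∈ Poly V) : 0 ≤ (s : ℝ) * qf ((c : ℝ) / 10000000) z := by
  match V, h, hz with
  | [], h, _ => simp [polyF] at h
  | [_], h, _ => simp [polyF] at h
  | [_, _], h, _ => simp [polyF] at h
  | a :: b :: c :: l, h, hz =>
    rw [polyF] at h
    have hz' : ∀ e ∈ (a :: b :: c :: l).zip ((b :: c :: l) ++ [a]), 0 ≤ cr e.1 e.2 z := by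
      intro e he
      apply hz e
      rw [edges, List.rotate_cons_succ, List.rotate_zero]
      exact he
    refine fan_sound (c :: l) b (fun e he => hz' e ?_) h (hz' (a, b) (by simp))
      (Or.inl (List.cons_ne_nil _ _))
    rw [List.cons_append, List.zip_cons_cons]
    exact List.mem_cons_of_mem _ he

/-- the factorisation -/
lemma qf_cos (C : ℝ) (w : ℂ) : qf C (Complex.cos w) =
    (Real.cos w.re ^ 2 - C) * (Real.cosh w.im ^ 2 - C) := by
  obtain ⟨h1, h2⟩ := Z8.cos_parts w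
  have h3 := Real.sin_sq_add_cos_sq w.re
  have h4 := Real.cosh_sq w.im
  unfold qf
  rw [h1, h2]
  have h5 : Real.sin w.re ^ 2 = 1 - Real.cos w.re ^ 2 := by linarith only [h3]
  have h6 : Real.sinh w.im ^ 2 = Real.cosh w.im ^ 2 - 1 := by linarith only [h4]
  have h7 : (-(Real.sin w.re * Real.sinh w.im)) ^ 2 =
      (1 - Real.cos w.re ^ 2) * (Real.cosh w.im ^ 2 - 1) := by
    rw [← h5, ← h6]
    ring
  rw [h7]
  ring

/-! ### bounds -/

/-- an upper bound `n / 10000` of `w₁ / π`; `c > 10 ^ 7 cos² (π n / 10000)` -/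
structure UD where
  n : ℕ
  c : ℤ

/-- the check of the number -/
def UD.ok (s : UD) : Bool := decide (s.c < 10000000) && Nat.ble s.n 5000 &&
  chk [.sub (.q s.c 10000000) (.sq (.cosPi (.q s.n 10000)))] 1 []

/-- bounds: `n0 ≤ 10000 w₁ / π ≤ n1`, `10000 |w₂| / π ≤ m` -/
structure ZD where
  n1 : ℕ
  n0 : ℕ
  m : ℕ
  c1 : ℤ
  c0 : ℤ
  h : ℤ

/-- the check of the numbers -/
def ZD.ok (s : ZD) : Bool := (UD.ok ⟨s.n1, s.c1⟩ && decide (s.c0 < 10000000)) &&
  decide (10000000 < s.h) && Nat.ble s.n0 5000 &&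
  chk [.sub (.sq (.cosPi (.q s.n0 10000))) (.q s.c0 10000000)] 1 [] &&
  chk [.sub (.sq (.cosh (.mul .pi (.q s.m 10000)))) (.q s.h 10000000)] 1 []

/-- the check for a polygon -/
noncomputable def ZD.pol (s : ZD) (V : List (ℤ × ℤ)) : Bool := polyF 1 s.c1 V && polyF (-1) s.c0 V &&
  polyF 1 s.h V && okH [⟨0, 1000000, 0, 1⟩] V

section
variable {V : List (ℤ × ℤ)} {w : ℂ}

theorem UD.sound {s : UD} (h : s.ok = true) (hV : polyF 1 s.c V = true)
    (hw : Complex.cos w ∈ Poly V) (h0 : 0 < w.re) (h1 : w.re < 3 / 2) :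
    w.re / Real.pi ≤ s.n / 10000 := by
  have hpi := Real.pi_pos
  have hpi3 := Real.pi_gt_three
  unfold ok at h
  simp only [Bool.and_eq_true, decide_eq_true_eq, Nat.ble_eq] at h
  obtain ⟨⟨k1, k2⟩, k3⟩ := h
  have g := pos_of_chk (chk_sound k3 List.Forall₂.nil)
  simp only [E.val, Int.cast_natCast] at g
  push_cast at g
  have k1' : (s.c : ℝ) < 10000000 := by exact_mod_cast k1
  have k2' : (s.n : ℝ) ≤ 5000 := by exact_mod_cast k2
  have f := polyF_sound hV hw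
  rw [qf_cos] at f
  have c1 : 1 ≤ Real.cosh w.im ^ 2 := one_le_pow₀ (Real.one_le_cosh _)
  have c2 : (s.c : ℝ) / 10000000 < 1 := by rw [div_lt_one (by norm_num)]; exact k1'
  have c3 : 0 ≤ Real.cos w.re ^ 2 - (s.c : ℝ) / 10000000 := by
    rw [Int.cast_one, one_mul] at f
    exact nonneg_of_mul_nonneg_left f (by linarith only [k1', c1])
  have c4 : Real.cos (Real.pi * (s.n / 10000)) ^ 2 < Real.cos w.re ^ 2 := by linarith only [g, c3]
  have c5 : 0 ≤ Real.cos w.re := Real.cos_nonneg_of_mem_Icc ⟨by linarith only [h0, hpi3], by linarith only [h1, hpi3]⟩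
  have c6 : Real.cos (Real.pi * (s.n / 10000)) < Real.cos w.re := lt_of_pow_lt_pow_left₀ 2 c5 c4
  by_contra hc
  push Not at hc
  rw [lt_div_iff₀ hpi] at hc
  have c7 := Real.cos_le_cos_of_nonneg_of_le_pi (x := Real.pi * (s.n / 10000)) (y := w.re)
    (by positivity) (by linarith only [h1, hpi3]) (by linarith only [hc])
  linarith only [c6, c7]

theorem ZD.sound {s : ZD} (h : s.ok = true) (hV : s.pol V = true)
    (hw : Complex.cos w ∈ Poly V) (h0 : 0 < w.re) (h1 : w.re < 3 / 2) :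
    (s.n0 : ℝ) / 10000 ≤ w.re / Real.pi ∧ w.re / Real.pi ≤ s.n1 / 10000 ∧
      w.im < 0 ∧ -w.im / Real.pi ≤ s.m / 10000 := by
  have hpi := Real.pi_pos
  have hpi3 := Real.pi_gt_three
  unfold ok at h
  unfold pol at hV
  simp only [Bool.and_eq_true, decide_eq_true_eq, Nat.ble_eq] at h hV
  obtain ⟨⟨⟨⟨⟨k0, k1⟩, k2⟩, k3⟩, k4⟩, k5⟩ := h
  obtain ⟨⟨⟨v1, v2⟩, v3⟩, v4⟩ := hV
  have g4 := pos_of_chk (chk_sound k4 List.Forall₂.nil)
  have g5 := pos_of_chk (chk_sound k5 List.Forall₂.nil)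
  simp only [E.val, Int.cast_natCast] at g4 g5
  push_cast at g4 g5
  have k1' : (s.c0 : ℝ) < 10000000 := by exact_mod_cast k1
  have k2' : (10000000 : ℝ) < s.h := by exact_mod_cast k2
  have k3' : (s.n0 : ℝ) ≤ 5000 := by exact_mod_cast k3
  have f2 := polyF_sound v2 hw
  have f3 := polyF_sound v3 hw
  rw [qf_cos] at f2 f3
  push_cast at f2 f3
  have c1 : 1 ≤ Real.cosh w.im ^ 2 := one_le_pow₀ (Real.one_le_cosh _)
  have d1 : Real.cos w.re ^ 2 ≤ 1 := Real.cos_sq_le_one _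
  have hs : 0 < Real.sin w.re := Real.sin_pos_of_pos_of_lt_pi h0 (by linarith only [h1, hpi3])
  have hcp : 0 < Real.cos w.re := Real.cos_pos_of_mem_Ioo ⟨by linarith only [h0, hpi3], by linarith only [h1, hpi3]⟩
  have him : w.im < 0 := by
    have h2 := okH_sound v4 hw ⟨0, 1000000, 0, 1⟩ (by simp)
    unfold QC.Sat at h2
    rw [pow_two, Complex.mul_im] at h2
    obtain ⟨e1, e2⟩ := Z8.cos_parts w
    rw [e1, e2] at h2
    push_cast at h2
    by_contra hc
    push Not at hc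
    have h3 := Real.sinh_nonneg_iff.2 hc
    have h4 := mul_nonneg (mul_nonneg hcp.le (Real.cosh_pos w.im).le) (mul_nonneg hs.le h3)
    linarith only [h2, h4]
  refine ⟨?_, UD.sound k0 v1 hw h0 h1, him, ?_⟩
  · have c2 : (s.c0 : ℝ) / 10000000 < 1 := by rw [div_lt_one (by norm_num)]; exact k1'
    have c3 : Real.cos w.re ^ 2 - (s.c0 : ℝ) / 10000000 ≤ 0 := by
      by_contra hc
      push Not at hc
      have := mul_pos hc (by linarith only [k1', c1] : 0 < Real.cosh w.im ^ 2 - (s.c0 : ℝ) / 10000000)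
      linarith only [f2, this]
    have c4 : Real.cos w.re ^ 2 < Real.cos (Real.pi * (s.n0 / 10000)) ^ 2 := by linarith only [g4, c3]
    have c5 : 0 ≤ Real.cos (Real.pi * (s.n0 / 10000)) :=
      Real.cos_nonneg_of_mem_Icc ⟨by
        have : 0 ≤ Real.pi * ((s.n0 : ℝ) / 10000) := by positivity
        linarith only [hpi3, this], by nlinarith only [hpi, k3']⟩
    have c6 := lt_of_pow_lt_pow_left₀ 2 c5 c4
    rw [le_div_iff₀ hpi]
    by_contra hc
    push Not at hc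
    have c7 := Real.cos_le_cos_of_nonneg_of_le_pi (x := w.re) (y := Real.pi * (s.n0 / 10000))
      h0.le (by nlinarith only [hpi3, hpi, k3']) (by linarith only [hc])
    linarith only [c6, c7]
  · have c2 : 1 < (s.h : ℝ) / 10000000 := by rw [one_lt_div (by norm_num)]; exact k2'
    have c3 : Real.cosh w.im ^ 2 - (s.h : ℝ) / 10000000 ≤ 0 := by
      by_contra hc
      push Not at hc
      have := mul_neg_of_neg_of_pos (by linarith only [k2', d1] : Real.cos w.re ^ 2 - (s.h : ℝ) / 10000000 < 0) hc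
      linarith only [f3, this]
    have c4 : Real.cosh w.im ^ 2 < Real.cosh (Real.pi * (s.m / 10000)) ^ 2 := by linarith only [g5, c3]
    have c5 : Real.cosh w.im < Real.cosh (Real.pi * (s.m / 10000)) :=
      lt_of_pow_lt_pow_left₀ 2 (Real.cosh_pos _).le c4
    rw [Real.cosh_lt_cosh, abs_of_neg him, abs_of_nonneg (by positivity)] at c5
    rw [div_le_iff₀ hpi]
    linarith only [c5]

end

end Pool.Agent.Work.MP_b30479_gt.G2.CN.M4
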