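import Pool.Agent.Work.MP_b30479_gt.G2.CN.PGrp

/-!
# Two adjacent digits `1`: from boxes to rectangles
-/

namespace Pool.Agent.Work.MP_b30479_gt.G2.CN.PW

open Complex SR NumI CN.Ev S6

noncomputable section

/-- a box of a hinge variable with the data of its four conditions -/
structure BG where
  n0 : ℕ
  n1 : ℕ
  m0 : ℤ
  m1 : ℤ
  a : ℤ
  b : ℤ
  a' : ℤ
  b' : ℤ
  c0 : ℤ
  c1 : ℤ

namespace BG

/-- the bounds -/
def L (s : BG) : List GC :=
  [.arc s.n0 s.n1 s.a s.b, .arc s.n0 s.n1 s.a' s.b', .lo s.m0 s.c0, .hi s.m1 s.c1]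

/-- the conditions on the exponential -/
def H (s : BG) : List QC :=
  [⟨s.a, s.b, 0, 0⟩, ⟨s.a', s.b', 0, 0⟩, ⟨0, 0, 1000000, -s.c0⟩, ⟨0, 0, -1000000, s.c1⟩]

/-- the check -/
def ok (s : BG) : Bool := s.L.all GC.oki && Nat.ble 1667 s.n0 && Nat.ble s.n1 8333

/-- the variable is in the box -/
structure In (s : BG) (y : ℂ) : Prop where
  x0 : (s.n0 : ℝ) / 10000 ≤ y.re
  x1 : y.re ≤ (s.n1 : ℝ) / 10000
  t0 : (s.m0 : ℝ) / 10000 ≤ y.im
  t1 : y.im ≤ (s.m1 : ℝ) / 10000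

/-- the box of a table is a part -/
def sub (s : BG) (b : BB) : Bool :=
  Nat.ble s.n0 b.n0 && (Nat.ble b.n1 s.n1 || Nat.ble 5000 s.n1) && decide (s.m0 ≤ b.m0) &&
    decide (b.m1 ≤ s.m1)

theorem In.of {s : BG} {b : BB} (h : s.sub b = true) {y : ℂ} (hb : b.box.In y)
    (hh : y.re < 1 / 2) : s.In y := by
  unfold sub at h
  rw [Bool.and_eq_true, Bool.and_eq_true, Bool.and_eq_true, Bool.or_eq_true, Nat.ble_eq,
    Nat.ble_eq, Nat.ble_eq, decide_eq_true_eq, decide_eq_true_eq] at h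
  obtain ⟨⟨⟨h1, h2⟩, h3⟩, h4⟩ := h
  obtain ⟨b1, b2, b3, b4⟩ := hb
  change (b.n0 : ℝ) / 10000 ≤ y.re at b1
  change y.re ≤ (b.n1 : ℝ) / 10000 at b2
  change (b.m0 : ℝ) / 10000 ≤ y.im at b3
  change y.im ≤ (b.m1 : ℝ) / 10000 at b4
  have e1 : (s.n0 : ℝ) ≤ b.n0 := by exact_mod_cast h1
  have e3 : (s.m0 : ℝ) ≤ b.m0 := by exact_mod_cast h3
  have e4 : (b.m1 : ℝ) ≤ s.m1 := by exact_mod_cast h4
  refine ⟨by linarith only [b1, e1], ?_, by linarith only [b3, e3], by linarith only [b4, e4]⟩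
  rcases h2 with h2 | h2
  · have : (b.n1 : ℝ) ≤ s.n1 := by exact_mod_cast h2
    linarith only [b2, this]
  · have : (5000 : ℝ) ≤ s.n1 := by exact_mod_cast h2
    linarith only [hh, this]

/-- the box of a table is a part, no bound by `1 / 2` -/
def sub' (s : BG) (b : BB) : Bool :=
  Nat.ble s.n0 b.n0 && Nat.ble b.n1 s.n1 && decide (s.m0 ≤ b.m0) && decide (b.m1 ≤ s.m1)

theorem In.of' {s : BG} {b : BB} (h : s.sub' b = true) {y : ℂ} (hb : b.box.In y) : s.In y := by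
  unfold sub' at h
  rw [Bool.and_eq_true, Bool.and_eq_true, Bool.and_eq_true, Nat.ble_eq,
    Nat.ble_eq, decide_eq_true_eq, decide_eq_true_eq] at h
  obtain ⟨⟨⟨h1, h2⟩, h3⟩, h4⟩ := h
  obtain ⟨b1, b2, b3, b4⟩ := hb
  change (b.n0 : ℝ) / 10000 ≤ y.re at b1
  change y.re ≤ (b.n1 : ℝ) / 10000 at b2
  change (b.m0 : ℝ) / 10000 ≤ y.im at b3
  change y.im ≤ (b.m1 : ℝ) / 10000 at b4
  have e1 : (s.n0 : ℝ) ≤ b.n0 := by exact_mod_cast h1
  have e2 : (b.n1 : ℝ) ≤ s.n1 := by exact_mod_cast h2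
  have e3 : (s.m0 : ℝ) ≤ b.m0 := by exact_mod_cast h3
  have e4 : (b.m1 : ℝ) ≤ s.m1 := by exact_mod_cast h4
  exact ⟨by linarith only [b1, e1], by linarith only [b2, e2], by linarith only [b3, e3], by linarith only [b4, e4]⟩

/-- the conditions hold -/
theorem sat {s : BG} (h : s.ok = true) {y : ℂ} (hy : s.In y) :
    Sat s.H (cexp (2 * Real.pi * I * y)) := by
  unfold ok at h
  rw [Bool.and_eq_true, Bool.and_eq_true] at h
  have h1 := List.all_eq_true.1 h.1.1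
  intro Q hQ
  have g1 := GC.imp (h1 (.arc s.n0 s.n1 s.a s.b) (by simp [L])) (y := y) ⟨hy.x0, hy.x1⟩
  have g2 := GC.imp (h1 (.arc s.n0 s.n1 s.a' s.b') (by simp [L])) (y := y) ⟨hy.x0, hy.x1⟩
  have g3 := GC.imp (h1 (.lo s.m0 s.c0) (by simp [L])) (y := y) hy.t0
  have g4 := GC.imp (h1 (.hi s.m1 s.c1) (by simp [L])) (y := y) hy.t1
  unfold H at hQ
  simp only [List.mem_cons, List.not_mem_nil, or_false] at hQ
  rcases hQ with rfl | rfl | rfl | rfl
  · exact g1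
  · exact g2
  · exact g3
  · exact g4

end BG

/-- the variable is bounded -/
theorem norm_lt_two {y z : ℂ} (h0 : 1 / 6 ≤ y.re) (h1 : y.re ≤ 5 / 6)
    (he : cexp (2 * Real.pi * I * y) * (z - I) = z + I) : ‖z‖ < 2 := by
  have hpi := Real.pi_pos
  have hc : Real.cos (2 * Real.pi * y.re) ≤ 1 / 2 := by
    rcases le_total y.re (1 / 2) with h | h
    · have := Real.cos_le_cos_of_nonneg_of_le_pi (x := Real.pi / 3) (y := 2 * Real.pi * y.re)
        (by positivity) (by nlinarith only [hpi, h]) (by nlinarith only [h0, hpi])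
      rw [Real.cos_pi_div_three] at this
      exact this
    · have e : Real.cos (2 * Real.pi * y.re) = Real.cos (2 * Real.pi - 2 * Real.pi * y.re) := by
        rw [Real.cos_two_pi_sub]
      rw [e]
      have := Real.cos_le_cos_of_nonneg_of_le_pi (x := Real.pi / 3)
        (y := 2 * Real.pi - 2 * Real.pi * y.re) (by positivity) (by nlinarith only [hpi, h]) (by nlinarith only [h1, hpi])
      rw [Real.cos_pi_div_three] at this
      exact this
  have hp := Real.exp_pos (-(2 * Real.pi * y.im))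
  have r1 := exp_re y
  have r2 := exp_im y
  have r3 : ‖cexp (2 * Real.pi * I * y)‖ = Real.exp (-(2 * Real.pi * y.im)) := by
    rw [Complex.norm_exp]
    congr 1
    simp
  generalize cexp (2 * Real.pi * I * y) = E at *
  have e1 : z * (E - 1) = I * (E + 1) := by linear_combination he
  have e2 : ‖z‖ * ‖E - 1‖ = ‖E + 1‖ := by
    rw [← norm_mul, e1, norm_mul, Complex.norm_I, one_mul]
  have n1 : ‖E - 1‖ ^ 2 = ‖E‖ ^ 2 - 2 * E.re + 1 := by
    rw [← Complex.normSq_eq_norm_sq, ← Complex.normSq_eq_norm_sq, Complex.normSq_apply,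
      Complex.normSq_apply]
    simp
    ring
  have n2 : ‖E + 1‖ ^ 2 = ‖E‖ ^ 2 + 2 * E.re + 1 := by
    rw [← Complex.normSq_eq_norm_sq, ← Complex.normSq_eq_norm_sq, Complex.normSq_apply,
      Complex.normSq_apply]
    simp
    ring
  have hr : E.re ≤ ‖E‖ / 2 := by
    rw [r1, r3]
    nlinarith only [hc, hp]
  have h2 : ‖E + 1‖ ^ 2 < 4 * ‖E - 1‖ ^ 2 := by
    rw [n1, n2]
    nlinarith only [hr, norm_nonneg E, sq_nonneg (‖E‖ - 5 / 6)]
  by_contra hcon
  push Not at hcon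
  have h3 : 2 * ‖E - 1‖ ≤ ‖E + 1‖ := by
    rw [← e2]
    exact mul_le_mul_of_nonneg_right hcon (norm_nonneg _)
  nlinarith only [h2, hcon, e2, h3, norm_nonneg (E - 1), norm_nonneg (E + 1)]

/-- the cell of the bounded variables; the second variable is `0` -/
def cell2 : Cell :=
  ⟨1015808, 1081344, 1015808, 1081344, 1048576, 1048576, 1048576, 1048576⟩

/-- the sides of a rectangle as goals -/
def gRc (r : RC) : Grp :=
  ⟨.R, .sc 1 one, (rfl : 1 = 1),
    [⟨-16384, 0, 0, 1048576 - r.x0⟩, ⟨16384, 0, 0, r.x1 - 1048576⟩,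
     ⟨0, -16384, 0, 1048576 - r.y0⟩, ⟨0, 16384, 0, r.y1 - 1048576⟩]⟩

/-- the run of a rectangle -/
def rrow (s : BG) (r : RC) (n code : ℕ) : Bool := row [gH s.H] [gRc r] n code cell2

/-- **The rectangle of a box.** -/
theorem rect {s : BG} (hs : s.ok = true) {r : RC} {n code : ℕ} (hr : rrow s r n code = true)
    {z : ℂ} (h1 : z ≠ I) (h2 : z ≠ -I) (hy : s.In (acot2 z)) : r.Mem z := by
  have he := exp_acot2 h1 h2
  have hok := hs
  unfold BG.ok at hok
  rw [Bool.and_eq_true, Bool.and_eq_true, Nat.ble_eq, Nat.ble_eq] at hok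
  have k0 : (1667 : ℝ) ≤ s.n0 := by exact_mod_cast hok.1.2
  have k1 : (s.n1 : ℝ) ≤ 8333 := by exact_mod_cast hok.2
  have hn := norm_lt_two (y := acot2 z) (by linarith only [k0, hy, hy.x0]) (by linarith only [k1, hy, hy.x1]) he
  have a1 := abs_le.1 ((Complex.abs_re_le_norm z).trans hn.le)
  have a2 := abs_le.1 ((Complex.abs_im_le_norm z).trans hn.le)
  have hm : cell2.Mem z 0 := by
    refine ⟨⟨?_, ?_⟩, ⟨?_, ?_⟩, ⟨?_, ?_⟩, ⟨?_, ?_⟩⟩
    · show ((1015808 : ℕ) : ℝ) ≤ D * z.re + 1048576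
      unfold D; push_cast; linarith only [a1, a1.1]
    · show D * z.re + 1048576 ≤ ((1081344 : ℕ) : ℝ)
      unfold D; push_cast; linarith only [a1, a1.2]
    · show ((1015808 : ℕ) : ℝ) ≤ D * z.im + 1048576
      unfold D; push_cast; linarith only [a2, a2.1]
    · show D * z.im + 1048576 ≤ ((1081344 : ℕ) : ℝ)
      unfold D; push_cast; linarith only [a2, a2.2]
    · show ((1048576 : ℕ) : ℝ) ≤ D * (0 : ℂ).re + 1048576
      simp
    · show D * (0 : ℂ).re + 1048576 ≤ ((1048576 : ℕ) : ℝ)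
      simp
    · show ((1048576 : ℕ) : ℝ) ≤ D * (0 : ℂ).im + 1048576
      simp
    · show D * (0 : ℂ).im + 1048576 ≤ ((1048576 : ℕ) : ℝ)
      simp
  have hg : AllOk z 0 [gH s.H] := by
    refine ok1 ⟨_, ?_, BG.sat hs hy⟩
    change _ * (z - gz 0 0 1 0) = z + gz 0 0 1 0
    rw [gzI z]
    exact he
  have key := row_sound hr hm hg (g := gRc r) List.mem_cons_self (c := z) (by
    change z * (Ev.sc 1 one).val z 0 = z
    rw [v_one, mul_one])
  have g1 := key ⟨-16384, 0, 0, 1048576 - r.x0⟩ (by simp [gRc])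
  have g2 := key ⟨16384, 0, 0, r.x1 - 1048576⟩ (by simp [gRc])
  have g3 := key ⟨0, -16384, 0, 1048576 - r.y0⟩ (by simp [gRc])
  have g4 := key ⟨0, 16384, 0, r.y1 - 1048576⟩ (by simp [gRc])
  unfold QC.Sat at g1 g2 g3 g4
  push_cast at g1 g2 g3 g4
  refine ⟨⟨?_, ?_⟩, ⟨?_, ?_⟩⟩
  · show (r.x0 : ℝ) ≤ D * z.re + 1048576
    unfold D; linarith only [g1]
  · show D * z.re + 1048576 ≤ (r.x1 : ℝ)
    unfold D; linarith only [g2]
  · show (r.y0 : ℝ) ≤ D * z.im + 1048576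
    unfold D; linarith only [g3]
  · show D * z.im + 1048576 ≤ (r.y1 : ℝ)
    unfold D; linarith only [g4]

end

end Pool.Agent.Work.MP_b30479_gt.G2.CN.PW
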