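import Pool.Agent.Work.MP_b30479_gt.G2.CN.SCls

/-!
# The split hinge between a digit `1` and a digit of at least `4`

The run gives `Re y ≤ 7 / 10`; the square of the exponential has a negative argument, so
`Re y < 1 / 2`.
-/

namespace Pool.Agent.Work.MP_b30479_gt.G2.CN.S6

open Complex SR
open scoped ComplexConjugate

/-- the imaginary part of the square is positive -/
def hpos : List QC := [⟨0, 1000000, 10000, 0⟩]

/-- at most `7` crossings -/
def h7 (_ : SK) : ℕ := 7

theorem hpos_ok : chkU hpos .s lZS h7 = true := by decide +kernel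

lemma bottom {V : List (ℤ × ℤ)} {x : ℤ} (hx : x < 1000) (h : ((x, 0), (1000, 0)) ∈ edges V) {z : ℂ}
    (hz : z ∈ PolyU V) : 0 < z.im := by
  have h1 := hz _ h
  unfold cr at h1
  push_cast at h1
  have h2 : (x : ℝ) < 1000 := by exact_mod_cast hx
  by_contra hc
  push Not at hc
  nlinarith only [h1, h2, hc]

lemma pg8_im {l : SK} {z : ℂ} (hz : z ∈ PolyU (pg8 l .s)) : 0 < z.im := by
  cases l
  · exact bottom (x := 907) (by norm_num) (by decide) hz
  · exact bottom (x := 907) (by norm_num) (by decide) hz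
  · exact bottom (x := 897) (by norm_num) (by decide) hz
  · exact bottom (x := 883) (by norm_num) (by decide) hz

section
variable {K : KFam} (hK : KOK K)
include hK

/-- the ring values for the digits at least `4` are not real -/
lemma im_pos {d : ℕ} {l : SK} (h : ROK d l .s) (hd : 4 ≤ d) {k : ℂ} (hk : k ∈ K.K d l .s)
    (hr : 0 < k.re) : 0 < k.im := by
  have h5 : 5 ≤ crs d l .s := by
    unfold crs
    have : SK.s.u = 1 := rfl
    omega
  rcases Nat.lt_or_ge (crs d l .s) 8 with h8 | h8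
  · have h1 : InH (K.K d l .s) hpos := by
      refine hK.inU h hpos_ok ?_ ?_
      · unfold crs
        cases l <;> simp only [SK.u, lZS] <;> omega
      · unfold h7
        omega
    have h2 := h1 k hk ⟨0, 1000000, 10000, 0⟩ (by simp [hpos])
    unfold QC.Sat at h2
    push_cast at h2
    have e1 : (k ^ 2).im = 2 * k.re * k.im := by
      rw [pow_two, Complex.mul_im]
      ring
    rw [e1] at h2
    have h3 : 0 < ‖k ^ 2‖ := norm_pos_iff.2 (pow_ne_zero 2 (ne_of_re hr))
    have h4 : 0 < ‖k ^ 2‖ ^ 2 := by positivity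
    by_contra hc
    push Not at hc
    nlinarith only [h2, h4, hr, hc, mul_nonneg hr.le (neg_nonneg.2 hc)]
  · have h1 := hK.sub h hk
    rw [pg_min, min_eq_right h8] at h1
    have e : pg 8 l .s = pg8 l .s := rfl
    rw [e] at h1
    exact pg8_im h1

/-- a digit `1` next to a digit of at least `4` -/
theorem half_1a {d' : ℕ} {l' : SK} {R k k' : ℂ} (h : HDt K .s 1 .a d' l' R k k') (hd : 4 ≤ d')
    (h7 : (acot2 (Sp R k)).re ≤ 7 / 10) : (acot2 (Sp R k)).re < 1 / 2 := by
  have hpi := Real.pi_pos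
  by_contra hc
  push Not at hc
  have ho := h.out
  rw [show crs 1 .a .s = 2 from rfl] at ho
  obtain ⟨ko, hko, e⟩ := ho
  rw [frS_neg] at hko
  have hR : R + I ≠ 0 := add_I_ne h.Rre
  have hk := ne_of_re h.kre
  have hk' := ne_of_re h.kre'
  -- the outer value
  have s1 : Sat HPA1 ((conj ko) ^ 2) := pA1 hK le_rfl _ hko
  have s2 := s1 ⟨0, 1000000, 0, 0⟩ (by simp [HPA1])
  unfold QC.Sat at s2
  rw [← map_pow, Complex.conj_im] at s2
  push_cast at s2
  have s3 : (ko ^ 2).im ≤ 0 := by linarith only [s2]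
  -- the own value of the second ring
  have m' : k' ∈ K.K d' l' .s := by
    have m := h.mem'
    rwa [show SK.s.sgn = 1 from rfl, frS_one, K.symm] at m
  have i' := im_pos hK h.ok.right.symm hd m' h.kre'
  have t1 : Sat HZS (k' ^ 2) := (cZS_ok (l := l') hd).own hK h.ok.right.symm _ m'
  have t2 := t1 ⟨259336, -685248, 0, 0⟩ (by simp [HZS])
  unfold QC.Sat at t2
  push_cast at t2
  have t3 : 0 < (k' ^ 2).im := by
    rw [pow_two, Complex.mul_im]
    have := mul_pos h.kre' i'
    linarith only [this]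
  -- the equation
  have hD : DB I 2 R (1 / k ^ 2) = 2 * (1 / k ^ 2 - 2 + 2 * I * R) := by
    simp only [DB, cab]
    ring
  rw [hD] at e
  have hn1 : Sp R k ≠ I := Sp_ne_I hR hk
  have hn2 : Sp R k ≠ -I := by
    intro h0
    have e1 := Sp_sub (k := k) hR
    rw [h0] at e1
    have e2 : 1 / k ^ 2 - 2 + 2 * I * R = 0 := by
      linear_combination (-1) * e1 + (-2 : ℂ) * Complex.I_mul_I
    rw [e2] at e
    have e3 : ko ^ 2 * (4 * (1 / k' ^ 2) * (1 / k ^ 2) ^ 2) = 0 := by rw [e]; ring
    have e4 : (4 * (1 / k' ^ 2) * (1 / k ^ 2) ^ 2 : ℂ) ≠ 0 := by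
      refine mul_ne_zero (mul_ne_zero (by norm_num) ?_) (pow_ne_zero 2 ?_)
      · exact one_div_ne_zero (pow_ne_zero 2 hk')
      · exact one_div_ne_zero (pow_ne_zero 2 hk)
    have e5 := (mul_eq_zero.1 e3).resolve_right e4
    have s4 := s1 ⟨0, 0, -1000000, 59281⟩ (by simp [HPA1])
    unfold QC.Sat at s4
    rw [← map_pow, e5] at s4
    norm_num at s4
  have ee := exp_acot2 hn1 hn2
  have e6 := Sp_sub (k := k) hR
  have hS : Sp R k - I ≠ 0 := sub_ne_zero.2 hn1
  -- `E q = q - 2 + 2 i R`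
  have e7 : cexp (2 * Real.pi * I * acot2 (Sp R k)) * (1 / k ^ 2) = 1 / k ^ 2 - 2 + 2 * I * R := by
    apply mul_left_cancel₀ hS
    linear_combination (1 / k ^ 2) * ee - 2 * I * e6 + (2 * (Sp R k - I)) * Complex.I_mul_I
  have q0 : (1 : ℂ) / k ^ 2 ≠ 0 := one_div_ne_zero (pow_ne_zero 2 hk)
  have e8 : cexp (2 * Real.pi * I * acot2 (Sp R k)) ^ 2 * k' ^ 2 = ko ^ 2 := by
    have e9 : (cexp (2 * Real.pi * I * acot2 (Sp R k)) * (1 / k ^ 2)) ^ 2 =
        ko ^ 2 * ((1 / k' ^ 2) * (1 / k ^ 2) ^ 2) := by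
      rw [e7]
      linear_combination (-1 / 4 : ℂ) * e
    have e10 : (1 / k' ^ 2) * k' ^ 2 = 1 := one_div_mul_cancel (pow_ne_zero 2 hk')
    apply mul_right_cancel₀ (pow_ne_zero 2 q0)
    linear_combination k' ^ 2 * e9 + (ko ^ 2 * (1 / k ^ 2) ^ 2) * e10
  -- the imaginary part
  have e11 : cexp (2 * Real.pi * I * acot2 (Sp R k)) ^ 2 =
      cexp (2 * Real.pi * I * (2 * acot2 (Sp R k))) := by
    rw [← Complex.exp_nat_mul]
    congr 1
    push_cast
    ring
  rw [e11] at e8
  have e12 := congrArg Complex.im e8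
  rw [Complex.mul_im, exp_re, exp_im] at e12
  have re2 : (2 * acot2 (Sp R k)).re = 2 * (acot2 (Sp R k)).re := by simp
  rw [re2] at e12
  set x := (acot2 (Sp R k)).re with hx
  have hE := Real.exp_pos (-(2 * Real.pi * (2 * acot2 (Sp R k)).im))
  set r := Real.exp (-(2 * Real.pi * (2 * acot2 (Sp R k)).im)) with hr
  have c1 : Real.cos (2 * Real.pi * (2 * x)) = Real.cos (2 * Real.pi * (2 * x) - 2 * Real.pi) :=
    (Real.cos_sub_two_pi _).symm
  have c2 : Real.sin (2 * Real.pi * (2 * x)) = Real.sin (2 * Real.pi * (2 * x) - 2 * Real.pi) :=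
    (Real.sin_sub_two_pi _).symm
  rw [c1, c2] at e12
  set θ := 2 * Real.pi * (2 * x) - 2 * Real.pi with hθ
  have th0 : 0 ≤ θ := by nlinarith only [hpi, hc]
  have th1 : θ ≤ 4 * Real.pi / 5 := by nlinarith only [hpi, h7]
  have hu : 0 < (k' ^ 2).re := by nlinarith only [t2, t3]
  have key : 0 < (k' ^ 2).im * Real.cos θ + (k' ^ 2).re * Real.sin θ := by
    rcases le_or_gt θ (Real.pi / 2) with h2 | h2
    · have a1 : 0 ≤ Real.cos θ := Real.cos_nonneg_of_mem_Icc ⟨by linarith only [hpi, th0], h2⟩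
      have a2 : 0 ≤ Real.sin θ := Real.sin_nonneg_of_nonneg_of_le_pi th0 (by linarith only [hpi, th1])
      have a3 := Real.sin_sq_add_cos_sq θ
      rcases a1.eq_or_lt with a4 | a4
      · rw [← a4] at a3 ⊢
        have : 0 < Real.sin θ := by
          rcases a2.eq_or_lt with a5 | a5
          · rw [← a5] at a3
            norm_num at a3
          · exact a5
        nlinarith only [hu, this, mul_pos hu this]
      · nlinarith only [t3, a4, hu, a2, mul_pos t3 a4, mul_nonneg hu.le a2]
    · -- `θ = π - φ`, `π / 5 ≤ φ < π / 2`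
      have b1 : Real.cos θ = -Real.cos (Real.pi - θ) := by rw [Real.cos_pi_sub]; ring
      have b2 : Real.sin θ = Real.sin (Real.pi - θ) := by rw [Real.sin_pi_sub]
      have b3 : Real.cos (Real.pi - θ) ≤ Real.cos (Real.pi / 5) :=
        Real.cos_le_cos_of_nonneg_of_le_pi (by positivity) (by linarith only [th1, h2]) (by linarith only [th1])
      have b4 : Real.cos (Real.pi / 5) ≤ 81 / 100 := by
        rw [Real.cos_pi_div_five]
        have : Real.sqrt 5 ≤ 224 / 100 := by
          rw [show (224 / 100 : ℝ) = Real.sqrt ((224 / 100) ^ 2) by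
            rw [Real.sqrt_sq (by norm_num)]]
          exact Real.sqrt_le_sqrt (by norm_num)
        linarith only [this]
      have b5 : 0 < Real.cos (Real.pi - θ) :=
        Real.cos_pos_of_mem_Ioo ⟨by linarith only [th1, h2], by linarith only [h2]⟩
      have b6 : 0 ≤ Real.sin (Real.pi - θ) :=
        Real.sin_nonneg_of_nonneg_of_le_pi (by linarith only [th1, h2]) (by linarith only [th1, h2])
      have b7 := Real.sin_sq_add_cos_sq (Real.pi - θ)
      have b8 : 58 / 100 ≤ Real.sin (Real.pi - θ) := by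
        by_contra hb
        push Not at hb
        nlinarith only [b3, b4, b7, hb, b5, b6]
      rw [b1, b2]
      nlinarith only [t2, b6, t3, b3, b4, b5, b8]
  have : 0 < (ko ^ 2).im := by
    rw [← e12]
    nlinarith only [s2, e12, hE, key, mul_pos hE key]
  linarith only [s2, this]

end

end Pool.Agent.Work.MP_b30479_gt.G2.CN.S6
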