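import Pool.Agent.Work.MP_b30479_gt.G2.CN.HUn
import Pool.Agent.Work.MP_b30479_gt.G2.CN.SRwA
import Pool.Agent.Work.MP_b30479_gt.G2.CN.SRwI
import Pool.Agent.Work.MP_b30479_gt.G2.CN.SRwQ

/-!
# Split hinges: the bounds at a digit `1` with one split side
-/

namespace Pool.Agent.Work.MP_b30479_gt.G2.CN.S6

open Complex SR NumI

/-- digit `1` with one split side: bounds of the unsplit hinge -/
def GXa : CA → List GC
  | .a3a => gx3a
  | .a3s => gx3a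
  | .a3e => gx3ea
  | .a2a => gx2a
  | .a2s => gx2a
  | .a2e => gx2ea
  | .a4a => gxra
  | .a4z => gxra
  | .a4e => gxra
  | .a4s => gxra
  | .n5 => gxra
  | _ => []

/-- bounds of the split hinge -/
def GXb : CA → List GC
  | .a3a => gx3b
  | .a3s => gx3b
  | .a3e => gx3eb
  | .a2a => gx2b
  | .a2s => gx2b
  | .a2e => gx2eb
  | .a4a => gxrb
  | .a4z => gxrb
  | .a4e => gxrb
  | .a4s => gxrb
  | .n5 => gxrb
  | _ => []

/-- bounds of the sum -/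
def GXc : CA → List GC
  | .a3a => gx3c
  | .a3s => gx3c
  | .a3e => gx3ec
  | .a2a => gx2c
  | .a2s => gx2c
  | .a2e => gx2ec
  | .a4a => gxrc
  | .a4z => gxrc
  | .a4e => gxrc
  | .a4s => gxrc
  | .n5 => gxrc
  | _ => []

/-- digit `1` with one split side -/
def PX (c : CA) : Prop :=
  ∀ {K : KFam} {dl : ℕ} {ll : SK} {dr : ℕ} {rr : SK} {w kl kr : ℂ}, KOK K → c.Has dr rr →
    RDt K 1 .s .a dl ll dr rr w kl kr → (acot2 (Sp (RR w kl) (Complex.cos w))).re < 1 / 2 →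
    (∀ e ∈ GXa c, e.P (acot2 (RR w kr))) ∧
    (∀ e ∈ GXb c, e.P (acot2 (Sp (RR w kl) (Complex.cos w)))) ∧
    ∀ e ∈ GXc c, e.P (acot2 (Sp (RR w kl) (Complex.cos w)) + acot2 (RR w kr))

theorem px_a3a : PX .a3a := fun hK h2 h e1 =>
  useX a1s_ok (CA.ok h2) r_x_a3a hK h gx3_ok e1
theorem px_a3s : PX .a3s := fun hK h2 h e1 =>
  useX a1s_ok (CA.ok h2) r_x_a3s hK h gx3_ok e1
theorem px_a3e : PX .a3e := fun hK h2 h e1 =>
  useX a1s_ok (CA.ok h2) r_x_a3e hK h gx3e_ok e1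
theorem px_a2a : PX .a2a := fun hK h2 h e1 =>
  useX a1s_ok (CA.ok h2) r_x_a2a hK h gx2_ok e1
theorem px_a2s : PX .a2s := fun hK h2 h e1 =>
  useX a1s_ok (CA.ok h2) r_x_a2s hK h gx2_ok e1
theorem px_a2e : PX .a2e := fun hK h2 h e1 =>
  useX a1s_ok (CA.ok h2) r_x_a2e hK h gx2e_ok e1
theorem px_a4a : PX .a4a := fun hK h2 h e1 =>
  useX a1s_ok (CA.ok h2) r_x_a4a hK h gxr_ok e1
theorem px_a4z : PX .a4z := fun hK h2 h e1 =>
  useX a1s_ok (CA.ok h2) r_x_a4z hK h gxr_ok e1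
theorem px_a4e : PX .a4e := fun hK h2 h e1 =>
  useX a1s_ok (CA.ok h2) r_x_a4e hK h gxr_ok e1
theorem px_a4s : PX .a4s := fun hK h2 h e1 =>
  useX a1s_ok (CA.ok h2) r_x_a4s hK h gxr_ok e1
theorem px_n5 : PX .n5 := fun hK h2 h e1 =>
  useX a1s_ok (CA.ok h2) r_x_n5 hK h gxr_ok e1

theorem px_all {c : CA} (hc : c ≠ .a1s) : PX c := by
  cases c
  · exact px_a3a
  · exact px_a3s
  · exact px_a3e
  · exact absurd rfl hc
  · exact px_a2a
  · exact px_a2s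
  · exact px_a2e
  · exact px_a4a
  · exact px_a4z
  · exact px_a4e
  · exact px_a4s
  · exact px_n5

end Pool.Agent.Work.MP_b30479_gt.G2.CN.S6
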