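import Pool.Agent.Work.MP_b30479_gt.G2.CN.STab
import Pool.Agent.Work.MP_b30479_gt.G2.CN.SXt
import Pool.Agent.Work.MP_b30479_gt.G2.CN.SHalf
import Pool.Agent.Work.MP_b30479_gt.G2.CN.LocA

/-!
# The facts about the split hinges

`locS`: the facts about the split hinges hold for every family of sets in the polygons; further facts
about the sums of the real parts.
-/

namespace Pool.Agent.Work.MP_b30479_gt.G2.CN.S6

open Complex SR NumI

/-! ### the numbers -/

/-- the box of a split hinge, in units of `1 / 10000` -/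
def hbI : Cl → ℤ × ℤ × ℤ × ℤ
  | .one => (2750, 5000, -1180, 1180)
  | .two => (2360, 3920, -985, 180)
  | .twoE => (2170, 3110, -10, 660)
  | .three => (2260, 3140, -1145, -210)
  | .threeE => (2120, 2740, -780, -100)
  | .ring => (2140, 2980, -1580, -380)

theorem hb_eq (c : Cl) : hbox c .one false = ⟨((hbI c).1 : ℝ) / 10000, ((hbI c).2.1 : ℝ) / 10000,
    ((hbI c).2.2.1 : ℝ) / 10000, ((hbI c).2.2.2 : ℝ) / 10000⟩ := by
  cases c <;> simp only [hbox, hbI] <;> push_cast <;> congr 1 <;> norm_num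

/-- the windows at a digit `1`, in units of `1 / 10000` -/
def cwI : Cl → Cl → ℤ × ℤ × ℤ × ℤ
  | .one, .one => (-960, 560, -850, 600)
  | .one, .two => (-180, 790, -490, 950)
  | .one, .twoE => (-660, -160, -560, 370)
  | .one, .three => (210, 920, -220, 1110)
  | .one, .threeE => (100, 580, -110, 1010)
  | .one, .ring => (380, 1360, -100, 1430)
  | .two, .one => (-930, 540, -490, 950)
  | .two, .two => (50, 790, 420, 1300)
  | .two, .twoE => (-490, -200, 210, 640)
  | .two, .three => (460, 940, 780, 1480)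
  | .two, .threeE => (300, 590, 830, 1340)
  | .two, .ring => (630, 1450, 940, 1870)
  | .twoE, .one => (-330, 800, -560, 370)
  | .twoE, .two => (480, 985, 210, 640)
  | .twoE, .twoE => (-60, 10, -60, 60)
  | .twoE, .three => (870, 1145, 510, 770)
  | .twoE, .threeE => (690, 780, 510, 640)
  | .twoE, .ring => (1000, 1580, 640, 1060)
  | .three, .one => (-910, 490, -220, 1110)
  | .three, .two => (100, 770, 780, 1480)
  | .three, .twoE => (-450, -250, 510, 770)
  | .threeE, .one => (-610, 650, -110, 1010)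
  | .threeE, .two => (320, 910, 830, 1340)
  | .threeE, .twoE => (-240, -110, 510, 640)
  | .ring, .one => (-1170, 510, -100, 1430)
  | .ring, .two => (-80, 800, 940, 1870)
  | .ring, .twoE => (-610, -240, 640, 1060)
  | _, _ => (0, 0, 0, 0)

/-- classes of digits at most `2` -/
def low : Cl → Bool
  | .one | .two | .twoE => true
  | _ => false

theorem cw_eq {P B : Cl} (h : (low P || low B) = true) : cw P B = ⟨((cwI P B).1 : ℝ) / 10000,
    ((cwI P B).2.1 : ℝ) / 10000, ((cwI P B).2.2.1 : ℝ) / 10000,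
    ((cwI P B).2.2.2 : ℝ) / 10000⟩ := by
  cases P <;> cases B <;> first
    | exact absurd h (by decide)
    | (simp only [cw, cwI]; push_cast; congr 1 <;> norm_num)

/-! ### the boxes of the table -/

/-- the box of the table is good enough -/
def chkB (c c' : CS) : Bool :=
  !(CS.adm c c') || (decide ((hbI c.cl).1 ≤ (BX c c').n0) &&
    decide (min ((BX c c').n1 : ℤ) 5000 ≤ (hbI c.cl).2.1) &&
    decide ((hbI c.cl).2.2.1 ≤ (BX c c').m0) && decide ((BX c c').m1 ≤ (hbI c.cl).2.2.2) &&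
    decide (-(cwI c'.cl c.cl).2.1 ≤ (BX c c').m0) && decide ((BX c c').m1 ≤ -(cwI c'.cl c.cl).1) &&
    (low c.cl || low c'.cl) &&
    (decide ((BX c c').n1 < 5000) || (decide (c = .s1a) && decide (4 ≤ c'.dig) &&
      decide ((BX c c').n1 ≤ 7000))) &&
    (decide (c.dig ≠ 4) || decide (-1280 ≤ (BX c c').m0)) &&
    (decide (c.dig ≠ 5) || decide (-1380 ≤ (BX c c').m0)) &&
    (decide (c ≠ .s4z) || decide ((BX c c').n1 ≤ 2969)) &&
    (decide (c ≠ .s4e) || (decide (2160 ≤ (BX c c').n0) && decide ((BX c c').n1 ≤ 2780))) &&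
    (decide (c ≠ .s1s) || (decide ((cwI .one .one).1 ≤ (BX c c').m0) &&
      decide ((BX c c').m1 ≤ (cwI .one .one).2.1))))

theorem chkB_all (c c' : CS) : chkB c c' = true := by
  cases c <;> cases c' <;> rfl

/-- the facts which follow from the table -/
structure ChkB (c c' : CS) : Prop where
  a1 : (hbI c.cl).1 ≤ (BX c c').n0
  a2 : min ((BX c c').n1 : ℤ) 5000 ≤ (hbI c.cl).2.1
  a3 : (hbI c.cl).2.2.1 ≤ (BX c c').m0
  a4 : (BX c c').m1 ≤ (hbI c.cl).2.2.2
  a5 : -(cwI c'.cl c.cl).2.1 ≤ (BX c c').m0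
  a6 : (BX c c').m1 ≤ -(cwI c'.cl c.cl).1
  a7 : (low c.cl || low c'.cl) = true
  a8 : (BX c c').n1 < 5000 ∨ (c = .s1a ∧ 4 ≤ c'.dig ∧ (BX c c').n1 ≤ 7000)
  a9 : c.dig = 4 → -1280 ≤ (BX c c').m0
  a10 : c.dig = 5 → -1380 ≤ (BX c c').m0
  a11 : c = .s4z → (BX c c').n1 ≤ 2969
  a12 : c = .s4e → 2160 ≤ (BX c c').n0 ∧ (BX c c').n1 ≤ 2780
  a13 : c = .s1s → (cwI .one .one).1 ≤ (BX c c').m0 ∧ (BX c c').m1 ≤ (cwI .one .one).2.1

theorem chkB_of {c c' : CS} (ha : CS.adm c c' = true) : ChkB c c' := by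
  have h := chkB_all c c'
  unfold chkB at h
  rw [ha, Bool.not_true, Bool.false_or] at h
  simp only [Bool.and_eq_true, Bool.or_eq_true, decide_eq_true_eq] at h
  obtain ⟨⟨⟨⟨⟨⟨⟨⟨⟨⟨⟨⟨h1, h2⟩, h3⟩, h4⟩, h5⟩, h6⟩, h7⟩, h8⟩, h9⟩, h10⟩, h11⟩, h12⟩, h13⟩ := h
  exact ⟨h1, h2, h3, h4, h5, h6, by rw [Bool.or_eq_true]; exact h7,
    h8.imp_right fun h => ⟨h.1.1, h.1.2, h.2⟩, fun h => h9.resolve_left (not_not.2 h),
    fun h => h10.resolve_left (not_not.2 h), fun h => h11.resolve_left (not_not.2 h),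
    fun h => h12.resolve_left (not_not.2 h), fun h => h13.resolve_left (not_not.2 h)⟩

/-! ### the box -/

section
variable {K : KFam} (hK : KOK K) {d : ℕ} {l : SK} {d' : ℕ} {l' : SK} {R k k' : ℂ}
include hK

omit hK in
lemma two_of (h : HDt K .s d l d' l' R k k') : ∃ c c' : CS, c.Has d l ∧ c'.Has d' l' ∧
    CS.adm c c' = true := by
  obtain ⟨c, h1⟩ := CS.has_of h.ok.left
  obtain ⟨c', h2⟩ := CS.has_of h.ok.right.symm
  exact ⟨c, c', h1, h2, CS.adm_of h1 h2 h.ok⟩

omit hK in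
lemma dig4 {c : CS} (h : c.Has d l) (h4 : 4 ≤ c.dig) : 4 ≤ d := by
  have := CS.dig_of h
  omega

/-- the real part is less than `1 / 2` -/
theorem half_of {c c' : CS} (h1 : c.Has d l) (h2 : c'.Has d' l') (ha : CS.adm c c' = true)
    (h : HDt K .s d l d' l' R k k') : (acot2 (Sp R k)).re < 1 / 2 := by
  have hb := pb_all ha hK h1 h2 h
  have t := chkB_of ha
  have hx : (acot2 (Sp R k)).re ≤ ((BX c c').n1 : ℝ) / 10000 := hb.2.1
  rcases t.a8 with h5 | ⟨rfl, h6, h7⟩
  · have : ((BX c c').n1 : ℝ) < 5000 := by exact_mod_cast h5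
    linarith only [hx, this]
  · obtain ⟨rfl, rfl⟩ := h1
    refine half_1a hK h (dig4 h2 h6) ?_
    have : ((BX .s1a c').n1 : ℝ) ≤ 7000 := by exact_mod_cast h7
    linarith only [hx, this]

theorem half (h : HDt K .s d l d' l' R k k') : (acot2 (Sp R k)).re < 1 / 2 := by
  obtain ⟨c, c', h1, h2, ha⟩ := two_of h
  exact half_of hK h1 h2 ha h

theorem half' (h : HDt K .s d l d' l' R k k') : (acot2 (Sp R k')).re < 1 / 2 :=
  half hK (rev_s h)

/-- the box of a split hinge -/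
theorem sp_box (h : HDt K .s d l d' l' R k k') :
    (hbox (cK d l) .one false).In (acot2 (Sp R k)) ∧ (acot2 (Sp R k)).re < 1 / 2 := by
  obtain ⟨c, c', h1, h2, ha⟩ := two_of h
  have hb := pb_all ha hK h1 h2 h
  have t := chkB_of ha
  have hh := half_of hK h1 h2 ha h
  refine ⟨?_, hh⟩
  rw [CS.cl_eq h1, hb_eq]
  obtain ⟨b1, b2, b3, b4⟩ := hb
  change ((BX c c').n0 : ℝ) / 10000 ≤ _ at b1
  change _ ≤ ((BX c c').n1 : ℝ) / 10000 at b2
  change ((BX c c').m0 : ℝ) / 10000 ≤ _ at b3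
  change _ ≤ ((BX c c').m1 : ℝ) / 10000 at b4
  have e1 : ((hbI c.cl).1 : ℝ) ≤ (BX c c').n0 := by exact_mod_cast t.a1
  have e3 : ((hbI c.cl).2.2.1 : ℝ) ≤ (BX c c').m0 := by exact_mod_cast t.a3
  have e4 : ((BX c c').m1 : ℝ) ≤ (hbI c.cl).2.2.2 := by exact_mod_cast t.a4
  refine ⟨?_, ?_, ?_, ?_⟩
  · show ((hbI c.cl).1 : ℝ) / 10000 ≤ _
    linarith only [b1, e1]
  · show _ ≤ ((hbI c.cl).2.1 : ℝ) / 10000
    rcases min_le_iff.1 t.a2 with h5 | h5
    · have : ((BX c c').n1 : ℝ) ≤ (hbI c.cl).2.1 := by exact_mod_cast h5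
      linarith only [b2, this]
    · have : (5000 : ℝ) ≤ (hbI c.cl).2.1 := by exact_mod_cast h5
      linarith only [hh, this]
  · show ((hbI c.cl).2.2.1 : ℝ) / 10000 ≤ _
    linarith only [b3, e3]
  · show _ ≤ ((hbI c.cl).2.2.2 : ℝ) / 10000
    linarith only [b4, e4]

end

/-! ### the sums -/

/-- the bounds of the sum of the table, in units of `1 / 10000` -/
def guI (l : List GC) : Option (ℤ × ℤ × ℕ) :=
  match l with
  | [.lo m _, .hi m' _, .arc n m'' _ _] => if 10000 ≤ m'' then some (m, m', n) else none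
  | [.lo m _, .hi m' _, .arc n m'' _ _, _] => if 10000 ≤ m'' then some (m, m', n) else none
  | _ => none

lemma gu_spec {l : List GC} {m m' : ℤ} {n : ℕ} (h : guI l = some (m, m', n)) {v : ℂ}
    (hl : ∀ e ∈ l, e.P v) (hv : v.re ≤ 1) :
    (m : ℝ) / 10000 ≤ v.im ∧ v.im ≤ (m' : ℝ) / 10000 ∧ v.re ≤ (n : ℝ) / 10000 := by
  have key : ∀ {a : ℤ} {c : ℤ} {b : ℤ} {c' : ℤ} {p q : ℕ} {x y : ℤ} {l' : List GC},
      (∀ e ∈ (GC.lo a c :: GC.hi b c' :: GC.arc p q x y :: l'), e.P v) → 10000 ≤ q →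
      (a : ℝ) / 10000 ≤ v.im ∧ v.im ≤ (b : ℝ) / 10000 ∧ v.re ≤ (p : ℝ) / 10000 := by
    intro a c b c' p q x y l' hl hq
    have g1 : (GC.lo a c).P v := hl _ (by simp)
    have g2 : (GC.hi b c').P v := hl _ (by simp)
    have g3 : (GC.arc p q x y).P v := hl _ (by simp)
    refine ⟨g1, g2, ?_⟩
    by_contra hc
    push Not at hc
    have : (10000 : ℝ) ≤ q := by exact_mod_cast hq
    exact g3 ⟨hc.le, by linarith only [hv, this]⟩
  unfold guI at h
  split at h
  · split_ifs at h with h5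
    obtain ⟨rfl, rfl, rfl⟩ := by simpa using h
    exact key hl h5
  · split_ifs at h with h5
    obtain ⟨rfl, rfl, rfl⟩ := by simpa using h
    exact key hl h5
  · simp at h

/-- the table of the sums is good enough -/
def chkU' (c c' : CS) : Bool :=
  !(CS.adm c c') || (match guI (GU c c') with
    | some (m, m', n) => decide (-(cwI c'.cl c.cl).2.2.2 ≤ m) && decide (m' ≤ -(cwI c'.cl c.cl).2.2.1) &&
        decide (n ≤ if (c.cl = .one ∧ c'.cl = .ring) ∨ (c.cl = .ring ∧ c'.cl = .one) then 7600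
          else 8000)
    | none => false)

theorem chkU'_all (c c' : CS) : chkU' c c' = true := by
  cases c <;> cases c' <;> rfl

section
variable {K : KFam} (hK : KOK K) {d : ℕ} {l : SK} {d' : ℕ} {l' : SK} {R k k' : ℂ}
include hK

/-- the sum at a split hinge -/
theorem sum_s (h : HDt K .s d l d' l' R k k') :
    -(cw (cK d' l') (cK d l)).s1 ≤ (acot2 (Sp R k) + acot2 (Sp R k')).im ∧
    (acot2 (Sp R k) + acot2 (Sp R k')).im ≤ -(cw (cK d' l') (cK d l)).s0 ∧
    (acot2 (Sp R k) + acot2 (Sp R k')).re ≤ 80 / 100 ∧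
    ((cK d l = .one ∧ cK d' l' = .ring) ∨ (cK d l = .ring ∧ cK d' l' = .one) →
      (acot2 (Sp R k) + acot2 (Sp R k')).re ≤ 76 / 100) := by
  obtain ⟨c, c', h1, h2, ha⟩ := two_of h
  have hu := pu_all ha hK h1 h2 h (half hK h) (half' hK h)
  have t := chkB_of ha
  have hv : (acot2 (Sp R k) + acot2 (Sp R k')).re ≤ 1 := by
    rw [Complex.add_re]
    linarith only [hK, h, half hK h, half' hK h]
  have g := chkU'_all c c'
  unfold chkU' at g
  rw [ha, Bool.not_true, Bool.false_or] at g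
  rw [CS.cl_eq h1, CS.cl_eq h2, cw_eq (by rw [Bool.or_comm]; exact t.a7)]
  split at g
  · rename_i m m' n e
    simp only [Bool.and_eq_true, decide_eq_true_eq] at g
    obtain ⟨⟨g1, g2⟩, g3⟩ := g
    obtain ⟨k1, k2, k3⟩ := gu_spec e hu hv
    have e1 : (-(cwI c'.cl c.cl).2.2.2 : ℝ) ≤ m := by exact_mod_cast g1
    have e2 : (m' : ℝ) ≤ -(cwI c'.cl c.cl).2.2.1 := by exact_mod_cast g2
    have e3 : (n : ℝ) ≤ 8000 := by
      have : n ≤ 8000 := g3.trans (by split_ifs <;> norm_num)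
      exact_mod_cast this
    refine ⟨?_, ?_, by linarith only [k3, e3], fun h5 => ?_⟩
    · show -(((cwI c'.cl c.cl).2.2.2 : ℝ) / 10000) ≤ _
      linarith only [k1, e1]
    · show _ ≤ -(((cwI c'.cl c.cl).2.2.1 : ℝ) / 10000)
      linarith only [k2, e2]
    · rw [if_pos h5] at g3
      have : (n : ℝ) ≤ 7600 := by exact_mod_cast g3
      linarith only [k3, this]
  · simp at g

/-- the window at a split hinge -/
theorem absd (h : HDt K .s d l d' l' R k k') :
    (cw (cK d' l') (cK d l)).In (-(acot2 (Sp R k)).im) (-(acot2 (Sp R k')).im) := by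
  obtain ⟨c, c', h1, h2, ha⟩ := two_of h
  have hb := pb_all ha hK h1 h2 h
  have t := chkB_of ha
  obtain ⟨s1, s2, -⟩ := sum_s hK h
  rw [Complex.add_im] at s1 s2
  have e := cw_eq (P := c'.cl) (B := c.cl) (by rw [Bool.or_comm]; exact t.a7)
  rw [CS.cl_eq h1, CS.cl_eq h2] at s1 s2 ⊢
  refine ⟨?_, ?_, by linarith only [s2], by linarith only [s1]⟩
  · rw [e]
    have b4 : _ ≤ ((BX c c').m1 : ℝ) / 10000 := hb.2.2.2
    have e6 : ((BX c c').m1 : ℝ) ≤ -(cwI c'.cl c.cl).1 := by exact_mod_cast t.a6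
    show ((cwI c'.cl c.cl).1 : ℝ) / 10000 ≤ _
    linarith only [b4, e6]
  · rw [e]
    have b3 : ((BX c c').m0 : ℝ) / 10000 ≤ _ := hb.2.2.1
    have e5 : (-(cwI c'.cl c.cl).2.1 : ℝ) ≤ (BX c c').m0 := by exact_mod_cast t.a5
    show _ ≤ ((cwI c'.cl c.cl).2.1 : ℝ) / 10000
    linarith only [b3, e5]

theorem one4 {d' : ℕ} (h : HDt K .s 4 l d' l' R k k') : -(acot2 (Sp R k)).im ≤ 128 / 1000 := by
  obtain ⟨c, c', h1, h2, ha⟩ := two_of h
  have b3 : ((BX c c').m0 : ℝ) / 10000 ≤ _ := (pb_all ha hK h1 h2 h).2.2.1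
  have e : (-1280 : ℝ) ≤ (BX c c').m0 := by exact_mod_cast (chkB_of ha).a9 (CS.dig_of h1).symm
  linarith only [b3, e]

theorem one5 {d' : ℕ} (h : HDt K .s 5 l d' l' R k k') : -(acot2 (Sp R k)).im ≤ 138 / 1000 := by
  obtain ⟨c, c', h1, h2, ha⟩ := two_of h
  have b3 : ((BX c c').m0 : ℝ) / 10000 ≤ _ := (pb_all ha hK h1 h2 h).2.2.1
  have e : (-1380 : ℝ) ≤ (BX c c').m0 := by exact_mod_cast (chkB_of ha).a10 (CS.dig_of h1).symm
  linarith only [b3, e]

theorem y4s {d' : ℕ} (h : HDt K .s 4 .z d' l' R k k') : (acot2 (Sp R k)).re ≤ 2969 / 10000 := by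
  obtain ⟨c', h2⟩ := CS.has_of h.ok.right.symm
  have h1 : CS.Has 4 .z .s4z := ⟨rfl, rfl⟩
  have ha := CS.adm_of h1 h2 h.ok
  have b2 : _ ≤ ((BX .s4z c').n1 : ℝ) / 10000 := (pb_all ha hK h1 h2 h).2.1
  have e : ((BX .s4z c').n1 : ℝ) ≤ 2969 := by exact_mod_cast (chkB_of ha).a11 rfl
  linarith only [b2, e]

theorem y4se {d' : ℕ} (h : HDt K .s 4 .e d' l' R k k') :
    216 / 1000 ≤ (acot2 (Sp R k)).re ∧ (acot2 (Sp R k)).re ≤ 278 / 1000 := by
  obtain ⟨c', h2⟩ := CS.has_of h.ok.right.symm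
  have h1 : CS.Has 4 .e .s4e := ⟨rfl, rfl⟩
  have ha := CS.adm_of h1 h2 h.ok
  have b1 : ((BX .s4e c').n0 : ℝ) / 10000 ≤ _ := (pb_all ha hK h1 h2 h).1
  have b2 : _ ≤ ((BX .s4e c').n1 : ℝ) / 10000 := (pb_all ha hK h1 h2 h).2.1
  have e := (chkB_of ha).a12 rfl
  have e1 : (2160 : ℝ) ≤ (BX .s4e c').n0 := by exact_mod_cast e.1
  have e2 : ((BX .s4e c').n1 : ℝ) ≤ 2780 := by exact_mod_cast e.2
  constructor <;> linarith only [b1, e1, b2, e2]

end

/-! ### a digit `1` which is not absorbed -/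

/-- the bounds of the height of the table -/
def lhI (l : List GC) : Option (ℤ × ℤ) :=
  match l with
  | .lo m _ :: .hi m' _ :: _ => some (m, m')
  | _ => none

lemma lh_spec {l : List GC} {m m' : ℤ} (h : lhI l = some (m, m')) {v : ℂ} (hl : ∀ e ∈ l, e.P v) :
    (m : ℝ) / 10000 ≤ v.im ∧ v.im ≤ (m' : ℝ) / 10000 := by
  unfold lhI at h
  split at h
  · obtain ⟨rfl, rfl⟩ := by simpa using h
    refine ⟨?_, ?_⟩
    · rename_i a c b c' l'
      have g1 : (GC.lo a c).P v := hl _ (by simp)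
      exact g1
    · rename_i a c b c' l'
      have g2 : (GC.hi b c').P v := hl _ (by simp)
      exact g2
  · simp at h

/-- the tables at a digit `1` with one split side -/
def chkX (c : CA) : Bool :=
  decide (lhI (GXa c) = some ((cwI .one c.cl).1, (cwI .one c.cl).2.1)) &&
  decide (lhI (GXb c) = some ((cwI c.cl .one).1, (cwI c.cl .one).2.1)) &&
  (match guI (GXc c) with
    | some (m, m', n) => decide ((cwI c.cl .one).2.2.1 = m) && decide (m' = (cwI c.cl .one).2.2.2) &&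
        decide (n ≤ if c.cl = .ring then 7600 else 8000)
    | none => false)

theorem chkX_of {c : CA} (hc : c ≠ .a1s) : chkX c = true := by
  cases c
  case a1s => exact absurd rfl hc
  all_goals rfl

section
variable {K : KFam} (hK : KOK K) {dl : ℕ} {ll : SK} {dr : ℕ} {rr : SK} {w kl kr : ℂ}
include hK

/-- the facts at a digit `1` -/
structure One (K : KFam) (P B : Cl) (y y' : ℂ) : Prop where
  win : (cw P B).In y.im y'.im
  sum : y.re + y'.re ≤ 80 / 100
  sumZ : P = .ring ∨ B = .ring → y.re + y'.re ≤ 76 / 100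

theorem one_sa (h : RDt K 1 .s .a dl ll dr rr w kl kr) :
    One K (cK dr rr) .one (yH .s (RR w kl) (Complex.cos w)) (yH .a (RR w kr) (Complex.cos w)) ∧
    One K .one (cK dr rr) (yH .a (RR w kr) (Complex.cos w)) (yH .s (RR w kl) (Complex.cos w)) := by
  obtain ⟨c, h2⟩ := CA.has_of h.right.ok.right.symm
  have hc : c ≠ .a1s := by
    rintro rfl
    have := h.right.ok.opp rfl
    obtain ⟨rfl, -⟩ := h2
    omega
  obtain ⟨u1, u2, u3⟩ := px_all hc hK h2 h (half hK h.left)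
  have hv : (acot2 (Sp (RR w kl) (Complex.cos w)) + acot2 (RR w kr)).re ≤ 1 := by
    rw [Complex.add_re]
    have e1 := half hK h.left
    have e2 := (un_a hK h.right).2.1
    have e3 : (hbox (cK 1 .s) (cK dr rr) false).x1 ≤ 1 / 2 := by
      rw [show cK 1 .s = .one from rfl]
      cases cK dr rr <;> norm_num [hbox]
    linarith only [e1, e2, e3]
  have g := chkX_of hc
  unfold chkX at g
  rw [Bool.and_eq_true, Bool.and_eq_true, decide_eq_true_eq, decide_eq_true_eq] at g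
  obtain ⟨⟨g1, g2⟩, g3⟩ := g
  have k1 := lh_spec g1 u1
  have k2 := lh_spec g2 u2
  rw [CA.cl_eq h2]
  unfold yH
  rw [Hq_s, Hq_of_ne (by decide)]
  split at g3
  · rename_i m m' n e
    simp only [Bool.and_eq_true, decide_eq_true_eq] at g3
    obtain ⟨⟨g4, g5⟩, g6⟩ := g3
    obtain ⟨k3, k4, k5⟩ := gu_spec e u3 hv
    rw [Complex.add_im] at k3 k4
    rw [Complex.add_re] at k5
    subst g4 g5
    have e8 : (n : ℝ) ≤ 8000 := by
      have : n ≤ 8000 := g6.trans (by split_ifs <;> norm_num)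
      exact_mod_cast this
    have e7 : c.cl = .ring → (n : ℝ) ≤ 7600 := by
      intro h5
      rw [if_pos h5] at g6
      exact_mod_cast g6
    have s1 : (cwI .one c.cl).2.2.1 = (cwI c.cl .one).2.2.1 := by cases c <;> rfl
    have s2 : (cwI .one c.cl).2.2.2 = (cwI c.cl .one).2.2.2 := by cases c <;> rfl
    refine ⟨⟨?_, by linarith only [k5, e8], ?_⟩, ⟨?_, by linarith only [k5, e8], ?_⟩⟩
    · rw [cw_eq (by rw [Bool.or_comm]; rfl)]
      exact ⟨k2.1, k2.2, k3, k4⟩
    · rintro (h5 | h5)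
      · linarith only [k5, e7, h5, e7 h5]
      · exact absurd h5 (by decide)
    · rw [cw_eq (by rfl)]
      refine ⟨k1.1, k1.2, ?_, ?_⟩
      · show ((cwI .one c.cl).2.2.1 : ℝ) / 10000 ≤ _
        rw [s1]
        linarith only [k3]
      · show _ ≤ ((cwI .one c.cl).2.2.2 : ℝ) / 10000
        rw [s2]
        linarith only [k4]
    · rintro (h5 | h5)
      · exact absurd h5 (by decide)
      · linarith only [k5, e7, h5, e7 h5]
  · simp at g3

theorem one_ss (h : RDt K 1 .s .s dl ll dr rr w kl kr) :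
    One K .one .one (yH .s (RR w kl) (Complex.cos w)) (yH .s (RR w kr) (Complex.cos w)) := by
  obtain ⟨c, h2⟩ := CS.has_of h.right.ok.right.symm
  obtain ⟨c', h3⟩ := CS.has_of h.left.ok.right.symm
  have h1 : CS.Has 1 .s .s1s := ⟨rfl, rfl⟩
  have ha := CS.adm_of h1 h3 h.left.ok
  have b := pb_all ha hK h1 h3 h.left
  have t := (chkB_of ha).a13 rfl
  have u := pv_all c hK h2 h (half hK h.left) (half hK h.right)
  have hv : (acot2 (Sp (RR w kl) (Complex.cos w)) + acot2 (Sp (RR w kr) (Complex.cos w))).re ≤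
      1 := by
    rw [Complex.add_re]
    linarith only [hK, h, half hK h.left, half hK h.right]
  obtain ⟨k3, k4, k5⟩ := gu_spec (l := gvv) rfl u hv
  rw [Complex.add_im] at k3 k4
  rw [Complex.add_re] at k5
  have b3 : ((BX .s1s c').m0 : ℝ) / 10000 ≤ _ := b.2.2.1
  have b4 : _ ≤ ((BX .s1s c').m1 : ℝ) / 10000 := b.2.2.2
  have e1 : ((cwI .one .one).1 : ℝ) ≤ (BX .s1s c').m0 := by exact_mod_cast t.1
  have e2 : ((BX .s1s c').m1 : ℝ) ≤ (cwI .one .one).2.1 := by exact_mod_cast t.2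
  unfold yH
  rw [Hq_s, Hq_s]
  refine ⟨?_, ?_, ?_⟩
  · rw [cw_eq rfl]
    refine ⟨?_, ?_, ?_, ?_⟩
    · show ((cwI .one .one).1 : ℝ) / 10000 ≤ _
      linarith only [b3, e1]
    · show _ ≤ ((cwI .one .one).2.1 : ℝ) / 10000
      linarith only [b4, e2]
    · show ((cwI .one .one).2.2.1 : ℝ) / 10000 ≤ _
      exact k3
    · show _ ≤ ((cwI .one .one).2.2.2 : ℝ) / 10000
      exact k4
  · push_cast at k5
    linarith only [k5]
  · rintro (h5 | h5) <;> exact absurd h5 (by decide)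

/-- the facts at a digit `1` which is not absorbed -/
theorem one_all {l r : SK} (h : RDt K 1 l r dl ll dr rr w kl kr) :
    One K (nC r dr rr) (nC l dl ll) (yH l (RR w kl) (Complex.cos w))
      (yH r (RR w kr) (Complex.cos w)) := by
  have o := h.right.ok.left
  obtain ⟨o1, o2, o3⟩ := o.one rfl
  have o4 : l ≠ .z := fun h0 => by have := o.zl h0; omega
  have o5 : r ≠ .z := fun h0 => by have := o.zr h0; omega
  cases l
  · exact absurd rfl o2
  · cases r
    · exact absurd rfl o3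
    · rcases o1 with o1 | o1 <;> exact absurd o1 (by decide)
    · exact absurd rfl o5
    · exact (one_sa hK h.symm).2
  · exact absurd rfl o4
  · cases r
    · exact absurd rfl o3
    · exact (one_sa hK h).1
    · exact absurd rfl o5
    · exact one_ss hK h

/-- **The facts about the split hinges.** -/
theorem locS : LA.LocS K where
  sp := sp_box hK
  one h := (one_all hK h).win
  absd := absd hK
  one4 := one4 hK
  one5 := one5 hK
  y4s := y4s hK
  y4se := y4se hK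

end

end Pool.Agent.Work.MP_b30479_gt.G2.CN.S6
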