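import Pool.Agent.Work.MP_b30479_gt.G2.CN.PCtx
import Pool.Agent.Work.MP_b30479_gt.G2.CN.PBox
import Pool.Agent.Work.MP_b30479_gt.G2.CN.SLoc

/-!
# Two adjacent digits `1`: the facts about the neighbours
-/

namespace Pool.Agent.Work.MP_b30479_gt.G2.CN.PW

open Complex SR NumI CN.Ev S6

noncomputable section

/-- the facts about the absorbed side -/
structure PF (c : NC) (cV cW : RC) (k U V W : ℂ) : Prop where
  n : NOk c k U V W
  v : cV.Mem V
  w : cW.Mem W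

/-- the facts about the other side -/
structure QF (c : NC) (cU : RC) (k U V W : ℂ) : Prop where
  n : NOk c k U V W
  u : cU.Mem U

section
variable {K : KFam} (hK : KOK K) {r : SK} {dl : ℕ} {ll : SK} {dr : ℕ} {rr : SK} {w kl kr : ℂ}
  (h : RDt K 1 .s r dl ll dr rr w kl kr)
include hK h

lemma neV : hV w kl ≠ I ∧ hV w kl ≠ -I :=
  ⟨Sp_ne_I (add_I_ne h.left.Rre) h.cos_ne, ne_nI_of_half (half hK h.left)⟩

lemma neW : hW w kl ≠ I ∧ hW w kl ≠ -I :=
  ⟨Sp_ne_I (add_I_ne h.left.Rre) (ne_of_re h.left.kre'), ne_nI_of_half (half' hK h.left)⟩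

lemma mV {cj c : S6.CS} (hj : cj.Has 1 r) (hc : c.Has dl ll) {s : BG} (hs : s.ok = true) {rc : RC}
    {n code : ℕ} (hr : rrow s rc n code = true) (hb : s.sub (BX cj c) = true) :
    rc.Mem (hV w kl) :=
  rect hs hr (neV hK h).1 (neV hK h).2
    (BG.In.of hb (pb_all (S6.CS.adm_of hj hc h.left.ok) hK hj hc h.left) (half hK h.left))

lemma mW {cj c : S6.CS} (hj : cj.Has 1 r) (hc : c.Has dl ll) {s : BG} (hs : s.ok = true) {rc : RC}
    {n code : ℕ} (hr : rrow s rc n code = true) (hb : s.sub (BX c cj) = true) :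
    rc.Mem (hW w kl) :=
  rect hs hr (neW hK h).1 (neW hK h).2
    (BG.In.of hb (pb_all (S6.CS.adm_of hc hj (rev_s h.left).ok) hK hc hj (rev_s h.left))
      (half' hK h.left))

/-- the facts about the absorbed side -/
lemma mkPF {cj c : S6.CS} (hj : cj.Has 1 r) (hc : c.Has dl ll) {P : NC} {s : BG}
    (hs : s.ok = true) {rc : RC} {n code : ℕ} (hr : rrow s rc n code = true)
    {s' : BG} (hs' : s'.ok = true) {rc' : RC} {n' code' : ℕ}
    (hr' : rrow s' rc' n' code' = true)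
    (hb : (s.sub (BX cj c) && s'.sub (BX c cj)) = true)
    (hn : NOk P kl (hU r w kr) (hV w kl) (hW w kl)) :
    PF P rc rc' kl (hU r w kr) (hV w kl) (hW w kl) := by
  rw [Bool.and_eq_true] at hb
  exact ⟨hn, mV hK h hj hc hs hr hb.1, mW hK h hj hc hs' hr' hb.2⟩

end

/-! ### side `a` -/

lemma hU_a {w kr : ℂ} : hU .a w kr = RR w kr := Hq_of_ne (by decide) _ _

lemma BG.In.box {s : BG} {B : Box} {y : ℂ} (hb : B.In y) (h : (s.n0 : ℝ) / 10000 ≤ B.x0 ∧
    B.x1 ≤ (s.n1 : ℝ) / 10000 ∧ (s.m0 : ℝ) / 10000 ≤ B.t0 ∧ B.t1 ≤ (s.m1 : ℝ) / 10000) :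
    s.In y :=
  ⟨h.1.trans hb.1, hb.2.1.trans h.2.1, h.2.2.1.trans hb.2.2.1, hb.2.2.2.trans h.2.2.2⟩

section
variable {K : KFam} (hK : KOK K) {dl : ℕ} {ll : SK} {dr : ℕ} {rr : SK} {w kl kr : ℂ}
  (h : RDt K 1 .s .a dl ll dr rr w kl kr)
include h

lemma neU : hU .a w kr ≠ I ∧ hU .a w kr ≠ -I := by
  rw [hU_a]
  exact ne_I_of_re (r0_pos.trans h.right.Rre)

include hK

/-- the facts about the other side from the box of a table -/
lemma mkQ {c : CA} (hc : c.Has dr rr) {Q : NC} {b : BB} (hp : PairA .a1s c b.box) {s : BG}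
    (hs : s.ok = true) {rc : RC} {n code : ℕ} (hr : rrow s rc n code = true)
    (hb : s.sub' b = true) (hn : NOk Q kr (hU .a w kr) (hV w kl) (hW w kl)) :
    QF Q rc kr (hU .a w kr) (hV w kl) (hW w kl) := by
  refine ⟨hn, rect hs hr (neU h).1 (neU h).2 (BG.In.of' hb ?_)⟩
  rw [hU_a]
  exact hp hK (show CA.a1s.Has 1 .s from ⟨rfl, rfl⟩) hc h.right

/-- the facts about the other side from the general box -/
lemma mkQ' {c : CA} (hc : c.Has dr rr) {Q : NC} {s : BG}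
    (hs : s.ok = true) {rc : RC} {n code : ℕ} (hr : rrow s rc n code = true)
    (hb : (s.n0 : ℝ) / 10000 ≤ (hbox .one c.cl false).x0 ∧
      (hbox .one c.cl false).x1 ≤ (s.n1 : ℝ) / 10000 ∧
      (s.m0 : ℝ) / 10000 ≤ (hbox .one c.cl false).t0 ∧
      (hbox .one c.cl false).t1 ≤ (s.m1 : ℝ) / 10000)
    (hn : NOk Q kr (hU .a w kr) (hV w kl) (hW w kl)) :
    QF Q rc kr (hU .a w kr) (hV w kl) (hW w kl) := by
  refine ⟨hn, rect hs hr (neU h).1 (neU h).2 (BG.In.box ?_ hb)⟩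
  rw [hU_a]
  have h1 := un_a hK h.right
  rw [CA.cl_eq hc] at h1
  exact h1

/-- the data, side `a` -/
theorem datA {P Q : NC} {cU cV cW : RC} (hP : PF P cV cW kl (hU .a w kr) (hV w kl) (hW w kl))
    (hQ : QF Q cU kr (hU .a w kr) (hV w kl) (hW w kl)) :
    Dat (aU P Q) (aV P Q) cU cV cW (hU .a w kr) (hV w kl) (hW w kl) (acot2 (hU .a w kr))
      (acot2 (hV w kl)) (acot2 (hW w kl)) where
  pv := (pd h).toPV
  eU := exp_acot2 (neU h).1 (neU h).2
  eV := exp_acot2 (neV hK h).1 (neV hK h).2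
  eW := exp_acot2 (neW hK h).1 (neW hK h).2
  gu := (aUV_ok hK h hP.n hQ.n).1
  gv := (aUV_ok hK h hP.n hQ.n).2
  mU := hQ.u
  mV := hP.v
  mW := hP.w

end

/-! ### side `s` -/

section
variable {K : KFam} (hK : KOK K) {dl : ℕ} {ll : SK} {dr : ℕ} {rr : SK} {w kl kr : ℂ}
  (h : RDt K 1 .s .s dl ll dr rr w kl kr)
include hK h

/-- the facts about the other side -/
lemma mkR {c : S6.CS} (hc : c.Has dr rr) {Q : NC} {s : BG}
    (hs : s.ok = true) {rc : RC} {n code : ℕ} (hr : rrow s rc n code = true)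
    (hb : s.sub (BX .s1s c) = true) (hn : NOk Q kr (hU .s w kr) (hV w kl) (hW w kl)) :
    QF Q rc kr (hU .s w kr) (hV w kl) (hW w kl) := by
  refine ⟨hn, ?_⟩
  rw [hU_s]
  exact mV hK h.symm (show S6.CS.s1s.Has 1 .s from ⟨rfl, rfl⟩) hc hs hr hb

/-- the data, side `s` -/
theorem datS {P Q : NC} {cU cV cW : RC} (hP : PF P cV cW kl (hU .s w kr) (hV w kl) (hW w kl))
    (hQ : QF Q cU kr (hU .s w kr) (hV w kl) (hW w kl)) :
    Dat (sU P Q) (sV P Q) cU cV cW (hU .s w kr) (hV w kl) (hW w kl) (acot2 (hU .s w kr))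
      (acot2 (hV w kl)) (acot2 (hW w kl)) where
  pv := (pd h).toPV
  eU := by
    rw [hU_s]
    exact exp_acot2 (neV hK h.symm).1 (neV hK h.symm).2
  eV := exp_acot2 (neV hK h).1 (neV hK h).2
  eW := exp_acot2 (neW hK h).1 (neW hK h).2
  gu := (sUV_ok hK h hP.n hQ.n).1
  gv := (sUV_ok hK h hP.n hQ.n).2
  mU := hQ.u
  mV := hP.v
  mW := hP.w

end

end

end Pool.Agent.Work.MP_b30479_gt.G2.CN.PW
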