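import Pool.Agent.Work.MP_b30479_gt.G2.CN.PRc
import Pool.Agent.Work.MP_b30479_gt.G2.WLocP

/-!
# Two adjacent digits `1`: the windows
-/

namespace Pool.Agent.Work.MP_b30479_gt.G2.CN.PW

open Complex SR

lemma bd12 {yU yV yW : ℂ} {m0 m1 m2 m3 m4 m5 m6 m7 m8 m9 m10 m11 : ℤ}
    {c0 c1 c2 c3 c4 c5 c6 c7 c8 c9 c10 c11 : ℤ}
    (h : Bd yU yV yW [(0, .lo m0 c0), (0, .hi m1 c1), (1, .lo m2 c2), (1, .hi m3 c3),
      (2, .lo m4 c4), (2, .hi m5 c5), (3, .lo m6 c6), (3, .hi m7 c7), (4, .lo m8 c8),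
      (4, .hi m9 c9), (5, .lo m10 c10), (5, .hi m11 c11)]) {W : Win6}
    (hw : (W.t0 = -(m1 : ℝ) / 10000 ∧ W.t1 = -(m0 : ℝ) / 10000 ∧ W.k0 = -(m3 : ℝ) / 10000 ∧
      W.k1 = -(m2 : ℝ) / 10000) ∧ (W.q0 = (m4 : ℝ) / 10000 ∧ W.q1 = (m5 : ℝ) / 10000 ∧
      W.a0 = -(m7 : ℝ) / 10000 ∧ W.a1 = -(m6 : ℝ) / 10000) ∧ W.b0 = (m8 : ℝ) / 10000 ∧
      W.b1 = (m9 : ℝ) / 10000 ∧ W.c0 = (m10 : ℝ) / 10000 ∧ W.c1 = (m11 : ℝ) / 10000) :
    W.In (-yV.im) (-yW.im) yU.im := by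
  obtain ⟨⟨w1, w2, w3, w4⟩, ⟨w5, w6, w7, w8⟩, w9, w10, w11, w12⟩ := hw
  have h0 : (m0 : ℝ) / 10000 ≤ yV.im := h _ (.head _)
  have h1 : yV.im ≤ (m1 : ℝ) / 10000 := h _ (.tail _ (.head _))
  have h2 : (m2 : ℝ) / 10000 ≤ yW.im := h _ (.tail _ (.tail _ (.head _)))
  have h3 : yW.im ≤ (m3 : ℝ) / 10000 := h _ (.tail _ (.tail _ (.tail _ (.head _))))
  have h4 : (m4 : ℝ) / 10000 ≤ yU.im := h _ (.tail _ (.tail _ (.tail _ (.tail _ (.head _)))))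
  have h5 : yU.im ≤ (m5 : ℝ) / 10000 :=
    h _ (.tail _ (.tail _ (.tail _ (.tail _ (.tail _ (.head _))))))
  have h6 : (m6 : ℝ) / 10000 ≤ (yV + yW).im :=
    h _ (.tail _ (.tail _ (.tail _ (.tail _ (.tail _ (.tail _ (.head _)))))))
  have h7 : (yV + yW).im ≤ (m7 : ℝ) / 10000 :=
    h _ (.tail _ (.tail _ (.tail _ (.tail _ (.tail _ (.tail _ (.tail _ (.head _))))))))
  have h8 : (m8 : ℝ) / 10000 ≤ (yV + yU).im :=
    h _ (.tail _ (.tail _ (.tail _ (.tail _ (.tail _ (.tail _ (.tail _ (.tail _ (.head _)))))))))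
  have h9 : (yV + yU).im ≤ (m9 : ℝ) / 10000 :=
    h _ (.tail _ (.tail _ (.tail _ (.tail _ (.tail _ (.tail _ (.tail _ (.tail _ (.tail _
      (.head _))))))))))
  have h10 : (m10 : ℝ) / 10000 ≤ (yU - yW).im :=
    h _ (.tail _ (.tail _ (.tail _ (.tail _ (.tail _ (.tail _ (.tail _ (.tail _ (.tail _
      (.tail _ (.head _)))))))))))
  have h11 : (yU - yW).im ≤ (m11 : ℝ) / 10000 :=
    h _ (.tail _ (.tail _ (.tail _ (.tail _ (.tail _ (.tail _ (.tail _ (.tail _ (.tail _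
      (.tail _ (.tail _ (.head _))))))))))))
  rw [Complex.add_im] at h6 h7 h8 h9
  rw [Complex.sub_im] at h10 h11
  constructor
  · rw [w1]; linarith only [h1]
  · rw [w2]; linarith only [h0]
  · rw [w3]; linarith only [h3]
  · rw [w4]; linarith only [h2]
  · rw [w5]; linarith only [h4]
  · rw [w6]; linarith only [h5]
  · rw [w7]; linarith only [h7]
  · rw [w8]; linarith only [h6]
  · rw [w9]; linarith only [h8]
  · rw [w10]; linarith only [h9]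
  · rw [w11]; linarith only [h10]
  · rw [w12]; linarith only [h11]

/-- the bounds of a run are the windows -/
theorem in_of {P Q : Cl} {yU yV yW : ℂ} (h : Bd yU yV yW (wl P Q)) :
    (pcw P Q).In (-yV.im) (-yW.im) yU.im := by
  cases P <;> cases Q <;> exact bd12 h (by simp only [pcw]; norm_num)

end Pool.Agent.Work.MP_b30479_gt.G2.CN.PW
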