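import Pool.Agent.Work.MP_b30479_gt.G2.CN.PTab
import Pool.Agent.Work.MP_b30479_gt.G2.CN.PFac
import Pool.Agent.Work.MP_b30479_gt.G2.CN.PWin

/-!
# Two adjacent digits `1`: all pairs of neighbours
-/

namespace Pool.Agent.Work.MP_b30479_gt.G2.CN.PW

open Complex SR NumI CN.Ev S6

noncomputable section

/-! ### side `a` -/

section
variable {K : KFam} (hK : KOK K) {dl : ℕ} {ll : SK} {dr : ℕ} {rr : SK} {w kl kr : ℂ}
  (h : RDt K 1 .s .a dl ll dr rr w kl kr)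
include hK h

lemma pa_s1s (hc : S6.CS.s1s.Has dl ll) : PF p1s c_2750_4365_m560_960 c_2750_4365_m560_560 kl
    (hU .a w kr) (hV w kl) (hW w kl) :=
  mkPF hK h (cj := .s1a) ⟨rfl, rfl⟩ hc g_2750_4365_m560_960_ok k_2750_4365_m560_960
    g_2750_4365_m560_560_ok k_2750_4365_m560_560 (by decide) (n1s hK h hc)

lemma pa_s2e (hc : S6.CS.s2e.Has dl ll) : PF p2e c_2750_4999_m800_330 c_2170_3110_160_660 kl
    (hU .a w kr) (hV w kl) (hW w kl) :=
  mkPF hK h (cj := .s1a) ⟨rfl, rfl⟩ hc g_2750_4999_m800_330_ok k_2750_4999_m800_330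
    g_2170_3110_160_660_ok k_2170_3110_160_660 (by decide) (n2e hK h hc)

lemma pa_s2a (hc : S6.CS.s2a.Has dl ll) : PF p2a c_2750_4625_m540_930 c_2360_3920_m790_180 kl
    (hU .a w kr) (hV w kl) (hW w kl) :=
  mkPF hK h (cj := .s1a) ⟨rfl, rfl⟩ hc g_2750_4625_m540_930_ok k_2750_4625_m540_930
    g_2360_3920_m790_180_ok k_2360_3920_m790_180 (by decide) (n2a hK h hc)

lemma pa_s2s (hc : S6.CS.s2s.Has dl ll) : PF p2s c_2750_4625_m540_930 c_2360_3920_m790_180 kl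
    (hU .a w kr) (hV w kl) (hW w kl) :=
  mkPF hK h (cj := .s1a) ⟨rfl, rfl⟩ hc g_2750_4625_m540_930_ok k_2750_4625_m540_930
    g_2360_3920_m790_180_ok k_2360_3920_m790_180 (by decide) (n2s hK h hc)

lemma pa_s3e (hc : S6.CS.s3e.Has dl ll) : PF p3e c_2750_4999_m650_610 c_2120_2740_m580_m100 kl
    (hU .a w kr) (hV w kl) (hW w kl) :=
  mkPF hK h (cj := .s1a) ⟨rfl, rfl⟩ hc g_2750_4999_m650_610_ok k_2750_4999_m650_610
    g_2120_2740_m580_m100_ok k_2120_2740_m580_m100 (by decide) (n3e hK h hc)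

lemma pa_s3a (hc : S6.CS.s3a.Has dl ll) : PF p3a c_2750_4999_m490_910 c_2260_3140_m920_m210 kl
    (hU .a w kr) (hV w kl) (hW w kl) :=
  mkPF hK h (cj := .s1a) ⟨rfl, rfl⟩ hc g_2750_4999_m490_910_ok k_2750_4999_m490_910
    g_2260_3140_m920_m210_ok k_2260_3140_m920_m210 (by decide) (n3a hK h hc)

lemma pa_s3s (hc : S6.CS.s3s.Has dl ll) : PF p3s c_2750_4999_m490_910 c_2260_3140_m920_m210 kl
    (hU .a w kr) (hV w kl) (hW w kl) :=
  mkPF hK h (cj := .s1a) ⟨rfl, rfl⟩ hc g_2750_4999_m490_910_ok k_2750_4999_m490_910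
    g_2260_3140_m920_m210_ok k_2260_3140_m920_m210 (by decide) (n3s hK h hc)

lemma pa_s4e (hc : S6.CS.s4e.Has dl ll) : PF pZ c_2750_5000_m510_1170 c_2140_2980_m1360_m380 kl
    (hU .a w kr) (hV w kl) (hW w kl) :=
  mkPF hK h (cj := .s1a) ⟨rfl, rfl⟩ hc g_2750_5000_m510_1170_ok k_2750_5000_m510_1170
    g_2140_2980_m1360_m380_ok k_2140_2980_m1360_m380 (by decide) (nZ hK h (dig4 hc (by decide)))

lemma pa_s4a (hc : S6.CS.s4a.Has dl ll) : PF pZ c_2750_5000_m510_1170 c_2140_2980_m1360_m380 kl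
    (hU .a w kr) (hV w kl) (hW w kl) :=
  mkPF hK h (cj := .s1a) ⟨rfl, rfl⟩ hc g_2750_5000_m510_1170_ok k_2750_5000_m510_1170
    g_2140_2980_m1360_m380_ok k_2140_2980_m1360_m380 (by decide) (nZ hK h (dig4 hc (by decide)))

lemma pa_s4z (hc : S6.CS.s4z.Has dl ll) : PF pZ c_2750_5000_m510_1170 c_2140_2980_m1360_m380 kl
    (hU .a w kr) (hV w kl) (hW w kl) :=
  mkPF hK h (cj := .s1a) ⟨rfl, rfl⟩ hc g_2750_5000_m510_1170_ok k_2750_5000_m510_1170
    g_2140_2980_m1360_m380_ok k_2140_2980_m1360_m380 (by decide) (nZ hK h (dig4 hc (by decide)))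

lemma pa_s4s (hc : S6.CS.s4s.Has dl ll) : PF pZ c_2750_5000_m510_1170 c_2140_2980_m1360_m380 kl
    (hU .a w kr) (hV w kl) (hW w kl) :=
  mkPF hK h (cj := .s1a) ⟨rfl, rfl⟩ hc g_2750_5000_m510_1170_ok k_2750_5000_m510_1170
    g_2140_2980_m1360_m380_ok k_2140_2980_m1360_m380 (by decide) (nZ hK h (dig4 hc (by decide)))

lemma pa_s5 (hc : S6.CS.s5.Has dl ll) : PF pZ c_2750_5000_m510_1170 c_2140_2980_m1360_m380 kl
    (hU .a w kr) (hV w kl) (hW w kl) :=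
  mkPF hK h (cj := .s1a) ⟨rfl, rfl⟩ hc g_2750_5000_m510_1170_ok k_2750_5000_m510_1170
    g_2140_2980_m1360_m380_ok k_2140_2980_m1360_m380 (by decide) (nZ hK h (dig4 hc (by decide)))

lemma pa_s6 (hc : S6.CS.s6.Has dl ll) : PF pZ c_2750_5000_m510_1170 c_2140_2980_m1360_m380 kl
    (hU .a w kr) (hV w kl) (hW w kl) :=
  mkPF hK h (cj := .s1a) ⟨rfl, rfl⟩ hc g_2750_5000_m510_1170_ok k_2750_5000_m510_1170
    g_2140_2980_m1360_m380_ok k_2140_2980_m1360_m380 (by decide) (nZ hK h (dig4 hc (by decide)))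

lemma qa_a2e (hc : CA.a2e.Has dr rr) : QF q2e c_2170_3110_m660_10 kr
    (hU .a w kr) (hV w kl) (hW w kl) :=
  mkQ' hK h hc g_2170_3110_m660_10_ok k_2170_3110_m660_10
    (by simp only [CA.cl, hbox, g_2170_3110_m660_10]; norm_num) (m2e hK h hc)

lemma qa_a2a (hc : CA.a2a.Has dr rr) : QF q2a c_2360_3920_m180_985 kr
    (hU .a w kr) (hV w kl) (hW w kl) :=
  mkQ' hK h hc g_2360_3920_m180_985_ok k_2360_3920_m180_985
    (by simp only [CA.cl, hbox, g_2360_3920_m180_985]; norm_num) (m2a hK h hc)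

lemma qa_a2s (hc : CA.a2s.Has dr rr) : QF q2s c_2360_3920_m180_985 kr
    (hU .a w kr) (hV w kl) (hW w kl) :=
  mkQ' hK h hc g_2360_3920_m180_985_ok k_2360_3920_m180_985
    (by simp only [CA.cl, hbox, g_2360_3920_m180_985]; norm_num) (m2s hK h hc)

lemma qa_a3e (hc : CA.a3e.Has dr rr) : QF q3e c_2120_2740_100_780 kr
    (hU .a w kr) (hV w kl) (hW w kl) :=
  mkQ' hK h hc g_2120_2740_100_780_ok k_2120_2740_100_780
    (by simp only [CA.cl, hbox, g_2120_2740_100_780]; norm_num) (m3e hK h hc)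

lemma qa_a3a (hc : CA.a3a.Has dr rr) : QF q3a c_2260_3140_210_1145 kr
    (hU .a w kr) (hV w kl) (hW w kl) :=
  mkQ' hK h hc g_2260_3140_210_1145_ok k_2260_3140_210_1145
    (by simp only [CA.cl, hbox, g_2260_3140_210_1145]; norm_num) (m3a hK h hc)

lemma qa_a3s (hc : CA.a3s.Has dr rr) : QF q3s c_2260_3140_210_1145 kr
    (hU .a w kr) (hV w kl) (hW w kl) :=
  mkQ' hK h hc g_2260_3140_210_1145_ok k_2260_3140_210_1145
    (by simp only [CA.cl, hbox, g_2260_3140_210_1145]; norm_num) (m3s hK h hc)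

lemma qa_a4e (hc : CA.a4e.Has dr rr) : QF q4e c_2140_2470_380_1280 kr
    (hU .a w kr) (hV w kl) (hW w kl) :=
  mkQ hK h hc pH_a1s_a4e g_2140_2470_380_1280_ok k_2140_2470_380_1280 (by decide)
    (m4e hK h hc)

lemma qa_a4a (hc : CA.a4a.Has dr rr) : QF q4a c_2140_2680_380_1280 kr
    (hU .a w kr) (hV w kl) (hW w kl) :=
  mkQ hK h hc pH_a1s_a4a g_2140_2680_380_1280_ok k_2140_2680_380_1280 (by decide)
    (m4a hK h hc)

lemma qa_a4z (hc : CA.a4z.Has dr rr) : QF q4z c_2140_2680_380_1280 kr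
    (hU .a w kr) (hV w kl) (hW w kl) :=
  mkQ hK h hc pH_a1s_a4z g_2140_2680_380_1280_ok k_2140_2680_380_1280 (by decide)
    (m4z hK h hc)

lemma qa_a4s (hc : CA.a4s.Has dr rr) : QF q4s c_2140_2680_380_1280 kr
    (hU .a w kr) (hV w kl) (hW w kl) :=
  mkQ hK h hc pH_a1s_a4s g_2140_2680_380_1280_ok k_2140_2680_380_1280 (by decide)
    (m4s hK h hc)

lemma qa_n5 (hc : CA.n5.Has dr rr) : QF q5 c_2140_2980_380_1380 kr
    (hU .a w kr) (hV w kl) (hW w kl) :=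
  mkQ hK h hc pH_a1s_n5 g_2140_2980_380_1380_ok k_2140_2980_380_1380 (by decide)
    (m5 hK h hc)

/-- second neighbour of the case `a2e` -/
theorem ba_a2e (hc : CA.a2e.Has dr rr) :
    Bd (acot2 (hU .a w kr)) (acot2 (hV w kl)) (acot2 (hW w kl))
      (wl (cK dl ll) .twoE) := by
  have hQ := qa_a2e hK h hc
  obtain ⟨c, hl⟩ := S6.CS.has_of h.left.ok.right.symm
  rw [S6.CS.cl_eq hl]
  cases c
  · exact absurd (h.left.ok.abs rfl) (by obtain ⟨rfl, rfl⟩ := hl; decide)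
  · exact w_a_1s_a2e (datA hK h (pa_s1s hK h hl) hQ)
  · exact w_a_2e_a2e (datA hK h (pa_s2e hK h hl) hQ)
  · exact w_a_2a_a2e (datA hK h (pa_s2a hK h hl) hQ)
  · exact w_a_2s_a2e (datA hK h (pa_s2s hK h hl) hQ)
  · exact w_a_3e_a2e (datA hK h (pa_s3e hK h hl) hQ)
  · exact w_a_3a_a2e (datA hK h (pa_s3a hK h hl) hQ)
  · exact w_a_3s_a2e (datA hK h (pa_s3s hK h hl) hQ)
  · exact w_a_Z_a2e (datA hK h (pa_s4e hK h hl) hQ)
  · exact w_a_Z_a2e (datA hK h (pa_s4a hK h hl) hQ)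
  · exact w_a_Z_a2e (datA hK h (pa_s4z hK h hl) hQ)
  · exact w_a_Z_a2e (datA hK h (pa_s4s hK h hl) hQ)
  · exact w_a_Z_a2e (datA hK h (pa_s5 hK h hl) hQ)
  · exact w_a_Z_a2e (datA hK h (pa_s6 hK h hl) hQ)

/-- second neighbour of the case `a2a` -/
theorem ba_a2a (hc : CA.a2a.Has dr rr) :
    Bd (acot2 (hU .a w kr)) (acot2 (hV w kl)) (acot2 (hW w kl))
      (wl (cK dl ll) .two) := by
  have hQ := qa_a2a hK h hc
  obtain ⟨c, hl⟩ := S6.CS.has_of h.left.ok.right.symm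
  rw [S6.CS.cl_eq hl]
  cases c
  · exact absurd (h.left.ok.abs rfl) (by obtain ⟨rfl, rfl⟩ := hl; decide)
  · exact w_a_1s_a2a (datA hK h (pa_s1s hK h hl) hQ)
  · exact w_a_2e_a2a (datA hK h (pa_s2e hK h hl) hQ)
  · exact w_a_2a_a2a (datA hK h (pa_s2a hK h hl) hQ)
  · exact w_a_2s_a2a (datA hK h (pa_s2s hK h hl) hQ)
  · exact w_a_3e_a2a (datA hK h (pa_s3e hK h hl) hQ)
  · exact w_a_3a_a2a (datA hK h (pa_s3a hK h hl) hQ)
  · exact w_a_3s_a2a (datA hK h (pa_s3s hK h hl) hQ)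
  · exact w_a_Z_a2a (datA hK h (pa_s4e hK h hl) hQ)
  · exact w_a_Z_a2a (datA hK h (pa_s4a hK h hl) hQ)
  · exact w_a_Z_a2a (datA hK h (pa_s4z hK h hl) hQ)
  · exact w_a_Z_a2a (datA hK h (pa_s4s hK h hl) hQ)
  · exact w_a_Z_a2a (datA hK h (pa_s5 hK h hl) hQ)
  · exact w_a_Z_a2a (datA hK h (pa_s6 hK h hl) hQ)

/-- second neighbour of the case `a2s` -/
theorem ba_a2s (hc : CA.a2s.Has dr rr) :
    Bd (acot2 (hU .a w kr)) (acot2 (hV w kl)) (acot2 (hW w kl))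
      (wl (cK dl ll) .two) := by
  have hQ := qa_a2s hK h hc
  obtain ⟨c, hl⟩ := S6.CS.has_of h.left.ok.right.symm
  rw [S6.CS.cl_eq hl]
  cases c
  · exact absurd (h.left.ok.abs rfl) (by obtain ⟨rfl, rfl⟩ := hl; decide)
  · exact w_a_1s_a2s (datA hK h (pa_s1s hK h hl) hQ)
  · exact w_a_2e_a2s (datA hK h (pa_s2e hK h hl) hQ)
  · exact w_a_2a_a2s (datA hK h (pa_s2a hK h hl) hQ)
  · exact w_a_2s_a2s (datA hK h (pa_s2s hK h hl) hQ)
  · exact w_a_3e_a2s (datA hK h (pa_s3e hK h hl) hQ)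
  · exact w_a_3a_a2s (datA hK h (pa_s3a hK h hl) hQ)
  · exact w_a_3s_a2s (datA hK h (pa_s3s hK h hl) hQ)
  · exact w_a_Z_a2s (datA hK h (pa_s4e hK h hl) hQ)
  · exact w_a_Z_a2s (datA hK h (pa_s4a hK h hl) hQ)
  · exact w_a_Z_a2s (datA hK h (pa_s4z hK h hl) hQ)
  · exact w_a_Z_a2s (datA hK h (pa_s4s hK h hl) hQ)
  · exact w_a_Z_a2s (datA hK h (pa_s5 hK h hl) hQ)
  · exact w_a_Z_a2s (datA hK h (pa_s6 hK h hl) hQ)

/-- second neighbour of the case `a3e` -/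
theorem ba_a3e (hc : CA.a3e.Has dr rr) :
    Bd (acot2 (hU .a w kr)) (acot2 (hV w kl)) (acot2 (hW w kl))
      (wl (cK dl ll) .threeE) := by
  have hQ := qa_a3e hK h hc
  obtain ⟨c, hl⟩ := S6.CS.has_of h.left.ok.right.symm
  rw [S6.CS.cl_eq hl]
  cases c
  · exact absurd (h.left.ok.abs rfl) (by obtain ⟨rfl, rfl⟩ := hl; decide)
  · exact w_a_1s_a3e (datA hK h (pa_s1s hK h hl) hQ)
  · exact w_a_2e_a3e (datA hK h (pa_s2e hK h hl) hQ)
  · exact w_a_2a_a3e (datA hK h (pa_s2a hK h hl) hQ)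
  · exact w_a_2s_a3e (datA hK h (pa_s2s hK h hl) hQ)
  · exact w_a_3e_a3e (datA hK h (pa_s3e hK h hl) hQ)
  · exact w_a_3a_a3e (datA hK h (pa_s3a hK h hl) hQ)
  · exact w_a_3s_a3e (datA hK h (pa_s3s hK h hl) hQ)
  · exact w_a_Z_a3e (datA hK h (pa_s4e hK h hl) hQ)
  · exact w_a_Z_a3e (datA hK h (pa_s4a hK h hl) hQ)
  · exact w_a_Z_a3e (datA hK h (pa_s4z hK h hl) hQ)
  · exact w_a_Z_a3e (datA hK h (pa_s4s hK h hl) hQ)
  · exact w_a_Z_a3e (datA hK h (pa_s5 hK h hl) hQ)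
  · exact w_a_Z_a3e (datA hK h (pa_s6 hK h hl) hQ)

/-- second neighbour of the case `a3a` -/
theorem ba_a3a (hc : CA.a3a.Has dr rr) :
    Bd (acot2 (hU .a w kr)) (acot2 (hV w kl)) (acot2 (hW w kl))
      (wl (cK dl ll) .three) := by
  have hQ := qa_a3a hK h hc
  obtain ⟨c, hl⟩ := S6.CS.has_of h.left.ok.right.symm
  rw [S6.CS.cl_eq hl]
  cases c
  · exact absurd (h.left.ok.abs rfl) (by obtain ⟨rfl, rfl⟩ := hl; decide)
  · exact w_a_1s_a3a (datA hK h (pa_s1s hK h hl) hQ)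
  · exact w_a_2e_a3a (datA hK h (pa_s2e hK h hl) hQ)
  · exact w_a_2a_a3a (datA hK h (pa_s2a hK h hl) hQ)
  · exact w_a_2s_a3a (datA hK h (pa_s2s hK h hl) hQ)
  · exact w_a_3e_a3a (datA hK h (pa_s3e hK h hl) hQ)
  · exact w_a_3a_a3a (datA hK h (pa_s3a hK h hl) hQ)
  · exact w_a_3s_a3a (datA hK h (pa_s3s hK h hl) hQ)
  · exact w_a_Z_a3a (datA hK h (pa_s4e hK h hl) hQ)
  · exact w_a_Z_a3a (datA hK h (pa_s4a hK h hl) hQ)
  · exact w_a_Z_a3a (datA hK h (pa_s4z hK h hl) hQ)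
  · exact w_a_Z_a3a (datA hK h (pa_s4s hK h hl) hQ)
  · exact w_a_Z_a3a (datA hK h (pa_s5 hK h hl) hQ)
  · exact w_a_Z_a3a (datA hK h (pa_s6 hK h hl) hQ)

/-- second neighbour of the case `a3s` -/
theorem ba_a3s (hc : CA.a3s.Has dr rr) :
    Bd (acot2 (hU .a w kr)) (acot2 (hV w kl)) (acot2 (hW w kl))
      (wl (cK dl ll) .three) := by
  have hQ := qa_a3s hK h hc
  obtain ⟨c, hl⟩ := S6.CS.has_of h.left.ok.right.symm
  rw [S6.CS.cl_eq hl]
  cases c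
  · exact absurd (h.left.ok.abs rfl) (by obtain ⟨rfl, rfl⟩ := hl; decide)
  · exact w_a_1s_a3s (datA hK h (pa_s1s hK h hl) hQ)
  · exact w_a_2e_a3s (datA hK h (pa_s2e hK h hl) hQ)
  · exact w_a_2a_a3s (datA hK h (pa_s2a hK h hl) hQ)
  · exact w_a_2s_a3s (datA hK h (pa_s2s hK h hl) hQ)
  · exact w_a_3e_a3s (datA hK h (pa_s3e hK h hl) hQ)
  · exact w_a_3a_a3s (datA hK h (pa_s3a hK h hl) hQ)
  · exact w_a_3s_a3s (datA hK h (pa_s3s hK h hl) hQ)
  · exact w_a_Z_a3s (datA hK h (pa_s4e hK h hl) hQ)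
  · exact w_a_Z_a3s (datA hK h (pa_s4a hK h hl) hQ)
  · exact w_a_Z_a3s (datA hK h (pa_s4z hK h hl) hQ)
  · exact w_a_Z_a3s (datA hK h (pa_s4s hK h hl) hQ)
  · exact w_a_Z_a3s (datA hK h (pa_s5 hK h hl) hQ)
  · exact w_a_Z_a3s (datA hK h (pa_s6 hK h hl) hQ)

/-- second neighbour of the case `a4e` -/
theorem ba_a4e (hc : CA.a4e.Has dr rr) :
    Bd (acot2 (hU .a w kr)) (acot2 (hV w kl)) (acot2 (hW w kl))
      (wl (cK dl ll) .ring) := by
  have hQ := qa_a4e hK h hc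
  obtain ⟨c, hl⟩ := S6.CS.has_of h.left.ok.right.symm
  rw [S6.CS.cl_eq hl]
  cases c
  · exact absurd (h.left.ok.abs rfl) (by obtain ⟨rfl, rfl⟩ := hl; decide)
  · exact w_a_1s_a4e (datA hK h (pa_s1s hK h hl) hQ)
  · exact w_a_2e_a4e (datA hK h (pa_s2e hK h hl) hQ)
  · exact w_a_2a_a4e (datA hK h (pa_s2a hK h hl) hQ)
  · exact w_a_2s_a4e (datA hK h (pa_s2s hK h hl) hQ)
  · exact w_a_3e_a4e (datA hK h (pa_s3e hK h hl) hQ)
  · exact w_a_3a_a4e (datA hK h (pa_s3a hK h hl) hQ)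
  · exact w_a_3s_a4e (datA hK h (pa_s3s hK h hl) hQ)
  · exact w_a_Z_a4e (datA hK h (pa_s4e hK h hl) hQ)
  · exact w_a_Z_a4e (datA hK h (pa_s4a hK h hl) hQ)
  · exact w_a_Z_a4e (datA hK h (pa_s4z hK h hl) hQ)
  · exact w_a_Z_a4e (datA hK h (pa_s4s hK h hl) hQ)
  · exact w_a_Z_a4e (datA hK h (pa_s5 hK h hl) hQ)
  · exact w_a_Z_a4e (datA hK h (pa_s6 hK h hl) hQ)

/-- second neighbour of the case `a4a` -/
theorem ba_a4a (hc : CA.a4a.Has dr rr) :
    Bd (acot2 (hU .a w kr)) (acot2 (hV w kl)) (acot2 (hW w kl))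
      (wl (cK dl ll) .ring) := by
  have hQ := qa_a4a hK h hc
  obtain ⟨c, hl⟩ := S6.CS.has_of h.left.ok.right.symm
  rw [S6.CS.cl_eq hl]
  cases c
  · exact absurd (h.left.ok.abs rfl) (by obtain ⟨rfl, rfl⟩ := hl; decide)
  · exact w_a_1s_a4a (datA hK h (pa_s1s hK h hl) hQ)
  · exact w_a_2e_a4a (datA hK h (pa_s2e hK h hl) hQ)
  · exact w_a_2a_a4a (datA hK h (pa_s2a hK h hl) hQ)
  · exact w_a_2s_a4a (datA hK h (pa_s2s hK h hl) hQ)
  · exact w_a_3e_a4a (datA hK h (pa_s3e hK h hl) hQ)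
  · exact w_a_3a_a4a (datA hK h (pa_s3a hK h hl) hQ)
  · exact w_a_3s_a4a (datA hK h (pa_s3s hK h hl) hQ)
  · exact w_a_Z_a4a (datA hK h (pa_s4e hK h hl) hQ)
  · exact w_a_Z_a4a (datA hK h (pa_s4a hK h hl) hQ)
  · exact w_a_Z_a4a (datA hK h (pa_s4z hK h hl) hQ)
  · exact w_a_Z_a4a (datA hK h (pa_s4s hK h hl) hQ)
  · exact w_a_Z_a4a (datA hK h (pa_s5 hK h hl) hQ)
  · exact w_a_Z_a4a (datA hK h (pa_s6 hK h hl) hQ)

/-- second neighbour of the case `a4z` -/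
theorem ba_a4z (hc : CA.a4z.Has dr rr) :
    Bd (acot2 (hU .a w kr)) (acot2 (hV w kl)) (acot2 (hW w kl))
      (wl (cK dl ll) .ring) := by
  have hQ := qa_a4z hK h hc
  obtain ⟨c, hl⟩ := S6.CS.has_of h.left.ok.right.symm
  rw [S6.CS.cl_eq hl]
  cases c
  · exact absurd (h.left.ok.abs rfl) (by obtain ⟨rfl, rfl⟩ := hl; decide)
  · exact w_a_1s_a4z (datA hK h (pa_s1s hK h hl) hQ)
  · exact w_a_2e_a4z (datA hK h (pa_s2e hK h hl) hQ)
  · exact w_a_2a_a4z (datA hK h (pa_s2a hK h hl) hQ)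
  · exact w_a_2s_a4z (datA hK h (pa_s2s hK h hl) hQ)
  · exact w_a_3e_a4z (datA hK h (pa_s3e hK h hl) hQ)
  · exact w_a_3a_a4z (datA hK h (pa_s3a hK h hl) hQ)
  · exact w_a_3s_a4z (datA hK h (pa_s3s hK h hl) hQ)
  · exact w_a_Z_a4z (datA hK h (pa_s4e hK h hl) hQ)
  · exact w_a_Z_a4z (datA hK h (pa_s4a hK h hl) hQ)
  · exact w_a_Z_a4z (datA hK h (pa_s4z hK h hl) hQ)
  · exact w_a_Z_a4z (datA hK h (pa_s4s hK h hl) hQ)
  · exact w_a_Z_a4z (datA hK h (pa_s5 hK h hl) hQ)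
  · exact w_a_Z_a4z (datA hK h (pa_s6 hK h hl) hQ)

/-- second neighbour of the case `a4s` -/
theorem ba_a4s (hc : CA.a4s.Has dr rr) :
    Bd (acot2 (hU .a w kr)) (acot2 (hV w kl)) (acot2 (hW w kl))
      (wl (cK dl ll) .ring) := by
  have hQ := qa_a4s hK h hc
  obtain ⟨c, hl⟩ := S6.CS.has_of h.left.ok.right.symm
  rw [S6.CS.cl_eq hl]
  cases c
  · exact absurd (h.left.ok.abs rfl) (by obtain ⟨rfl, rfl⟩ := hl; decide)
  · exact w_a_1s_a4s (datA hK h (pa_s1s hK h hl) hQ)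
  · exact w_a_2e_a4s (datA hK h (pa_s2e hK h hl) hQ)
  · exact w_a_2a_a4s (datA hK h (pa_s2a hK h hl) hQ)
  · exact w_a_2s_a4s (datA hK h (pa_s2s hK h hl) hQ)
  · exact w_a_3e_a4s (datA hK h (pa_s3e hK h hl) hQ)
  · exact w_a_3a_a4s (datA hK h (pa_s3a hK h hl) hQ)
  · exact w_a_3s_a4s (datA hK h (pa_s3s hK h hl) hQ)
  · exact w_a_Z_a4s (datA hK h (pa_s4e hK h hl) hQ)
  · exact w_a_Z_a4s (datA hK h (pa_s4a hK h hl) hQ)
  · exact w_a_Z_a4s (datA hK h (pa_s4z hK h hl) hQ)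
  · exact w_a_Z_a4s (datA hK h (pa_s4s hK h hl) hQ)
  · exact w_a_Z_a4s (datA hK h (pa_s5 hK h hl) hQ)
  · exact w_a_Z_a4s (datA hK h (pa_s6 hK h hl) hQ)

/-- second neighbour of the case `n5` -/
theorem ba_n5 (hc : CA.n5.Has dr rr) :
    Bd (acot2 (hU .a w kr)) (acot2 (hV w kl)) (acot2 (hW w kl))
      (wl (cK dl ll) .ring) := by
  have hQ := qa_n5 hK h hc
  obtain ⟨c, hl⟩ := S6.CS.has_of h.left.ok.right.symm
  rw [S6.CS.cl_eq hl]
  cases c
  · exact absurd (h.left.ok.abs rfl) (by obtain ⟨rfl, rfl⟩ := hl; decide)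
  · exact w_a_1s_n5 (datA hK h (pa_s1s hK h hl) hQ)
  · exact w_a_2e_n5 (datA hK h (pa_s2e hK h hl) hQ)
  · exact w_a_2a_n5 (datA hK h (pa_s2a hK h hl) hQ)
  · exact w_a_2s_n5 (datA hK h (pa_s2s hK h hl) hQ)
  · exact w_a_3e_n5 (datA hK h (pa_s3e hK h hl) hQ)
  · exact w_a_3a_n5 (datA hK h (pa_s3a hK h hl) hQ)
  · exact w_a_3s_n5 (datA hK h (pa_s3s hK h hl) hQ)
  · exact w_a_Z_n5 (datA hK h (pa_s4e hK h hl) hQ)
  · exact w_a_Z_n5 (datA hK h (pa_s4a hK h hl) hQ)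
  · exact w_a_Z_n5 (datA hK h (pa_s4z hK h hl) hQ)
  · exact w_a_Z_n5 (datA hK h (pa_s4s hK h hl) hQ)
  · exact w_a_Z_n5 (datA hK h (pa_s5 hK h hl) hQ)
  · exact w_a_Z_n5 (datA hK h (pa_s6 hK h hl) hQ)

/-- **The windows, side `a`.** -/
theorem bdA : Bd (acot2 (hU .a w kr)) (acot2 (hV w kl)) (acot2 (hW w kl))
    (wl (cK dl ll) (cK dr rr)) := by
  obtain ⟨c, hc⟩ := CA.has_of h.right.ok.right.symm
  rw [CA.cl_eq hc]
  cases c
  · exact ba_a3a hK h hc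
  · exact ba_a3s hK h hc
  · exact ba_a3e hK h hc
  · exact absurd (h.right.ok.opp rfl) (by obtain ⟨rfl, rfl⟩ := hc; decide)
  · exact ba_a2a hK h hc
  · exact ba_a2s hK h hc
  · exact ba_a2e hK h hc
  · exact ba_a4a hK h hc
  · exact ba_a4z hK h hc
  · exact ba_a4e hK h hc
  · exact ba_a4s hK h hc
  · exact ba_n5 hK h hc

end

/-! ### side `s` -/

section
variable {K : KFam} (hK : KOK K) {dl : ℕ} {ll : SK} {dr : ℕ} {rr : SK} {w kl kr : ℂ}
  (h : RDt K 1 .s .s dl ll dr rr w kl kr)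
include hK h

lemma ps_s1s (hc : S6.CS.s1s.Has dl ll) : PF p1s c_2750_4365_m560_560 c_2750_4365_m560_560 kl
    (hU .s w kr) (hV w kl) (hW w kl) :=
  mkPF hK h (cj := .s1s) ⟨rfl, rfl⟩ hc g_2750_4365_m560_560_ok k_2750_4365_m560_560
    g_2750_4365_m560_560_ok k_2750_4365_m560_560 (by decide) (n1s hK h hc)

lemma ps_s2e (hc : S6.CS.s2e.Has dl ll) : PF p2e c_2750_4365_m800_330 c_2170_3110_160_660 kl
    (hU .s w kr) (hV w kl) (hW w kl) :=
  mkPF hK h (cj := .s1s) ⟨rfl, rfl⟩ hc g_2750_4365_m800_330_ok k_2750_4365_m800_330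
    g_2170_3110_160_660_ok k_2170_3110_160_660 (by decide) (n2e hK h hc)

lemma ps_s2a (hc : S6.CS.s2a.Has dl ll) : PF p2a c_2750_4365_m540_560 c_2360_3920_m790_180 kl
    (hU .s w kr) (hV w kl) (hW w kl) :=
  mkPF hK h (cj := .s1s) ⟨rfl, rfl⟩ hc g_2750_4365_m540_560_ok k_2750_4365_m540_560
    g_2360_3920_m790_180_ok k_2360_3920_m790_180 (by decide) (n2a hK h hc)

lemma ps_s2s (hc : S6.CS.s2s.Has dl ll) : PF p2s c_2750_4365_m540_560 c_2360_3920_m790_180 kl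
    (hU .s w kr) (hV w kl) (hW w kl) :=
  mkPF hK h (cj := .s1s) ⟨rfl, rfl⟩ hc g_2750_4365_m540_560_ok k_2750_4365_m540_560
    g_2360_3920_m790_180_ok k_2360_3920_m790_180 (by decide) (n2s hK h hc)

lemma ps_s3e (hc : S6.CS.s3e.Has dl ll) : PF p3e c_2750_4365_m650_560 c_2120_2740_m580_m100 kl
    (hU .s w kr) (hV w kl) (hW w kl) :=
  mkPF hK h (cj := .s1s) ⟨rfl, rfl⟩ hc g_2750_4365_m650_560_ok k_2750_4365_m650_560
    g_2120_2740_m580_m100_ok k_2120_2740_m580_m100 (by decide) (n3e hK h hc)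

lemma ps_s3a (hc : S6.CS.s3a.Has dl ll) : PF p3a c_2750_4365_m490_560 c_2260_3140_m920_m210 kl
    (hU .s w kr) (hV w kl) (hW w kl) :=
  mkPF hK h (cj := .s1s) ⟨rfl, rfl⟩ hc g_2750_4365_m490_560_ok k_2750_4365_m490_560
    g_2260_3140_m920_m210_ok k_2260_3140_m920_m210 (by decide) (n3a hK h hc)

lemma ps_s3s (hc : S6.CS.s3s.Has dl ll) : PF p3s c_2750_4365_m490_560 c_2260_3140_m920_m210 kl
    (hU .s w kr) (hV w kl) (hW w kl) :=
  mkPF hK h (cj := .s1s) ⟨rfl, rfl⟩ hc g_2750_4365_m490_560_ok k_2750_4365_m490_560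
    g_2260_3140_m920_m210_ok k_2260_3140_m920_m210 (by decide) (n3s hK h hc)

lemma ps_s4e (hc : S6.CS.s4e.Has dl ll) : PF pZ5 c_2750_4365_m510_560 c_2140_2980_m1280_m380 kl
    (hU .s w kr) (hV w kl) (hW w kl) :=
  mkPF hK h (cj := .s1s) ⟨rfl, rfl⟩ hc g_2750_4365_m510_560_ok k_2750_4365_m510_560
    g_2140_2980_m1280_m380_ok k_2140_2980_m1280_m380 (by decide) (nZ5 hK h hc.1 (by obtain ⟨-, rfl⟩ := hc; decide))

lemma ps_s4a (hc : S6.CS.s4a.Has dl ll) : PF pZ5 c_2750_4365_m510_560 c_2140_2980_m1280_m380 kl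
    (hU .s w kr) (hV w kl) (hW w kl) :=
  mkPF hK h (cj := .s1s) ⟨rfl, rfl⟩ hc g_2750_4365_m510_560_ok k_2750_4365_m510_560
    g_2140_2980_m1280_m380_ok k_2140_2980_m1280_m380 (by decide) (nZ5 hK h hc.1 (by obtain ⟨-, rfl⟩ := hc; decide))

lemma ps_s4z (hc : S6.CS.s4z.Has dl ll) : PF pZ5 c_2750_4365_m510_560 c_2140_2980_m1280_m380 kl
    (hU .s w kr) (hV w kl) (hW w kl) :=
  mkPF hK h (cj := .s1s) ⟨rfl, rfl⟩ hc g_2750_4365_m510_560_ok k_2750_4365_m510_560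
    g_2140_2980_m1280_m380_ok k_2140_2980_m1280_m380 (by decide) (nZ5 hK h hc.1 (by obtain ⟨-, rfl⟩ := hc; decide))

lemma ps_s4s (hc : S6.CS.s4s.Has dl ll) : PF pZL c_2750_4365_m510_560 c_2140_2980_m1360_m380 kl
    (hU .s w kr) (hV w kl) (hW w kl) :=
  mkPF hK h (cj := .s1s) ⟨rfl, rfl⟩ hc g_2750_4365_m510_560_ok k_2750_4365_m510_560
    g_2140_2980_m1360_m380_ok k_2140_2980_m1360_m380 (by decide) (nZL hK h (by obtain ⟨rfl, rfl⟩ := hc; decide))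

lemma ps_s5 (hc : S6.CS.s5.Has dl ll) : PF pZL c_2750_4365_m510_560 c_2140_2980_m1360_m380 kl
    (hU .s w kr) (hV w kl) (hW w kl) :=
  mkPF hK h (cj := .s1s) ⟨rfl, rfl⟩ hc g_2750_4365_m510_560_ok k_2750_4365_m510_560
    g_2140_2980_m1360_m380_ok k_2140_2980_m1360_m380 (by decide) (nZL hK h (by
      obtain rfl : dl = 5 := hc
      unfold crs
      rw [show SK.s.u = 1 from rfl]
      omega))

lemma ps_s6 (hc : S6.CS.s6.Has dl ll) : PF pZL c_2750_4365_m510_560 c_2140_2980_m1360_m380 kl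
    (hU .s w kr) (hV w kl) (hW w kl) :=
  mkPF hK h (cj := .s1s) ⟨rfl, rfl⟩ hc g_2750_4365_m510_560_ok k_2750_4365_m510_560
    g_2140_2980_m1360_m380_ok k_2140_2980_m1360_m380 (by decide) (nZL hK h (by
      have hc' : 6 ≤ dl := hc
      unfold crs
      omega))

lemma pz_s4e (hc : S6.CS.s4e.Has dl ll) : PF pZ c_2750_4365_m510_560 c_2140_2980_m1360_m380 kl
    (hU .s w kr) (hV w kl) (hW w kl) :=
  mkPF hK h (cj := .s1s) ⟨rfl, rfl⟩ hc g_2750_4365_m510_560_ok k_2750_4365_m510_560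
    g_2140_2980_m1360_m380_ok k_2140_2980_m1360_m380 (by decide) (nZ hK h (dig4 hc (by decide)))

lemma pz_s4a (hc : S6.CS.s4a.Has dl ll) : PF pZ c_2750_4365_m510_560 c_2140_2980_m1360_m380 kl
    (hU .s w kr) (hV w kl) (hW w kl) :=
  mkPF hK h (cj := .s1s) ⟨rfl, rfl⟩ hc g_2750_4365_m510_560_ok k_2750_4365_m510_560
    g_2140_2980_m1360_m380_ok k_2140_2980_m1360_m380 (by decide) (nZ hK h (dig4 hc (by decide)))

lemma pz_s4z (hc : S6.CS.s4z.Has dl ll) : PF pZ c_2750_4365_m510_560 c_2140_2980_m1360_m380 kl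
    (hU .s w kr) (hV w kl) (hW w kl) :=
  mkPF hK h (cj := .s1s) ⟨rfl, rfl⟩ hc g_2750_4365_m510_560_ok k_2750_4365_m510_560
    g_2140_2980_m1360_m380_ok k_2140_2980_m1360_m380 (by decide) (nZ hK h (dig4 hc (by decide)))

lemma pz_s4s (hc : S6.CS.s4s.Has dl ll) : PF pZ c_2750_4365_m510_560 c_2140_2980_m1360_m380 kl
    (hU .s w kr) (hV w kl) (hW w kl) :=
  mkPF hK h (cj := .s1s) ⟨rfl, rfl⟩ hc g_2750_4365_m510_560_ok k_2750_4365_m510_560
    g_2140_2980_m1360_m380_ok k_2140_2980_m1360_m380 (by decide) (nZ hK h (dig4 hc (by decide)))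

lemma pz_s5 (hc : S6.CS.s5.Has dl ll) : PF pZ c_2750_4365_m510_560 c_2140_2980_m1360_m380 kl
    (hU .s w kr) (hV w kl) (hW w kl) :=
  mkPF hK h (cj := .s1s) ⟨rfl, rfl⟩ hc g_2750_4365_m510_560_ok k_2750_4365_m510_560
    g_2140_2980_m1360_m380_ok k_2140_2980_m1360_m380 (by decide) (nZ hK h (dig4 hc (by decide)))

lemma pz_s6 (hc : S6.CS.s6.Has dl ll) : PF pZ c_2750_4365_m510_560 c_2140_2980_m1360_m380 kl
    (hU .s w kr) (hV w kl) (hW w kl) :=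
  mkPF hK h (cj := .s1s) ⟨rfl, rfl⟩ hc g_2750_4365_m510_560_ok k_2750_4365_m510_560
    g_2140_2980_m1360_m380_ok k_2140_2980_m1360_m380 (by decide) (nZ hK h (dig4 hc (by decide)))

lemma ps_1aX (hc : S6.CS.s1a.Has dl ll)
    (hn : NOk p1X kl (hU .s w kr) (hV w kl) (hW w kl)) :
    PF p1X c_2750_4365_m560_560 c_2750_4365_m560_960 kl (hU .s w kr) (hV w kl) (hW w kl) :=
  mkPF hK h (cj := .s1s) ⟨rfl, rfl⟩ hc g_2750_4365_m560_560_ok k_2750_4365_m560_560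
    g_2750_4365_m560_960_ok k_2750_4365_m560_960 (by decide) hn

lemma ps_1aY (hc : S6.CS.s1a.Has dl ll)
    (hn : NOk p1Y kl (hU .s w kr) (hV w kl) (hW w kl)) :
    PF p1Y c_2750_4365_m560_560 c_2750_4365_m560_960 kl (hU .s w kr) (hV w kl) (hW w kl) :=
  mkPF hK h (cj := .s1s) ⟨rfl, rfl⟩ hc g_2750_4365_m560_560_ok k_2750_4365_m560_560
    g_2750_4365_m560_960_ok k_2750_4365_m560_960 (by decide) hn

/-- every second neighbour -/
lemma qs_U2 : QF r2 c_2750_4365_m800_560 kr (hU .s w kr) (hV w kl) (hW w kl) := by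
  obtain ⟨c, hc⟩ := S6.CS.has_of h.right.ok.right.symm
  cases c <;>
    exact mkR hK h hc g_2750_4365_m800_560_ok k_2750_4365_m800_560 (by decide) (t2 hK h)

/-- not the end digit `2` -/
lemma qs_U3 (hn : ¬ (dr = 2 ∧ rr = .e)) :
    QF r3 c_2750_4365_m650_560 kr (hU .s w kr) (hV w kl) (hW w kl) := by
  obtain ⟨c, hc⟩ := S6.CS.has_of h.right.ok.right.symm
  cases c
  case s2e => exact absurd hc hn
  all_goals
    exact mkR hK h hc g_2750_4365_m650_560_ok k_2750_4365_m650_560 (by decide) (t3 hK h hn)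

/-- not the end digit `2`, not the digit `1` with one split side -/
lemma qs_S3 (hn : ¬ (dr = 2 ∧ rr = .e)) (hn' : ¬ (dr = 1 ∧ rr = .a)) :
    QF r4 c_2750_4365_m650_560 kr (hU .s w kr) (hV w kl) (hW w kl) := by
  obtain ⟨c, hc⟩ := S6.CS.has_of h.right.ok.right.symm
  cases c
  case s1a => exact absurd hc hn'
  case s2e => exact absurd hc hn
  all_goals
    exact mkR hK h hc g_2750_4365_m650_560_ok k_2750_4365_m650_560 (by decide) (t4 hK h hn hn')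

lemma qs_2e (hc : S6.CS.s2e.Has dr rr) : QF r2e c_2750_4365_m800_330 kr
    (hU .s w kr) (hV w kl) (hW w kl) :=
  mkR hK h hc g_2750_4365_m800_330_ok k_2750_4365_m800_330 (by decide) (t2e hK h hc)

lemma qs_1a (hc : S6.CS.s1a.Has dr rr) : QF r1a c_2750_4365_m560_560 kr
    (hU .s w kr) (hV w kl) (hW w kl) :=
  mkR hK h hc g_2750_4365_m560_560_ok k_2750_4365_m560_560 (by decide) (t1a hK h hc)

lemma qs_3e (hc : S6.CS.s3e.Has dr rr) : QF r3e c_2750_4365_m650_560 kr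
    (hU .s w kr) (hV w kl) (hW w kl) :=
  mkR hK h hc g_2750_4365_m650_560_ok k_2750_4365_m650_560 (by decide) (t3e hK h hc)

lemma qs_2a (hc : S6.CS.s2a.Has dr rr) : QF r2a c_2750_4365_m540_560 kr
    (hU .s w kr) (hV w kl) (hW w kl) :=
  mkR hK h hc g_2750_4365_m540_560_ok k_2750_4365_m540_560 (by decide) (t2a hK h hc)

lemma qs_2s (hc : S6.CS.s2s.Has dr rr) : QF r2s c_2750_4365_m540_560 kr
    (hU .s w kr) (hV w kl) (hW w kl) :=
  mkR hK h hc g_2750_4365_m540_560_ok k_2750_4365_m540_560 (by decide) (t2s hK h hc)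

lemma qs_Z {c : S6.CS} (hc : c.Has dr rr) (h4 : 4 ≤ c.dig) : QF rZ c_2750_4365_m510_560 kr
    (hU .s w kr) (hV w kl) (hW w kl) := by
  have hn := tZ hK h (dig4 hc h4)
  cases c <;> first
    | exact absurd h4 (by decide)
    | exact mkR hK h hc g_2750_4365_m510_560_ok k_2750_4365_m510_560 (by decide) hn

lemma qs_1aX (hc : S6.CS.s1a.Has dr rr)
    (hn : NOk r1X kr (hU .s w kr) (hV w kl) (hW w kl)) :
    QF r1X c_2750_4365_m560_560 kr (hU .s w kr) (hV w kl) (hW w kl) :=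
  mkR hK h hc g_2750_4365_m560_560_ok k_2750_4365_m560_560 (by decide) hn

lemma qs_1aY (hc : S6.CS.s1a.Has dr rr)
    (hn : NOk r1Y kr (hU .s w kr) (hV w kl) (hW w kl)) :
    QF r1Y c_2750_4365_m560_560 kr (hU .s w kr) (hV w kl) (hW w kl) :=
  mkR hK h hc g_2750_4365_m560_560_ok k_2750_4365_m560_560 (by decide) hn

theorem bs_1aX (hP : PF p1X c_2750_4365_m560_560 c_2750_4365_m560_960 kl
    (hU .s w kr) (hV w kl) (hW w kl)) :
    Bd (acot2 (hU .s w kr)) (acot2 (hV w kl)) (acot2 (hW w kl)) (wl .one .one) := by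
  exact w_s_1aX_U2 (datS hK h hP (qs_U2 hK h))

theorem bs_1aY (hP : PF p1Y c_2750_4365_m560_560 c_2750_4365_m560_960 kl
    (hU .s w kr) (hV w kl) (hW w kl)) :
    Bd (acot2 (hU .s w kr)) (acot2 (hV w kl)) (acot2 (hW w kl)) (wl .one .one) := by
  by_cases h2 : dr = 2 ∧ rr = .e
  · exact w_s_1aY_2e (datS hK h hP (qs_2e hK h h2))
  · exact w_s_1aY_U3 (datS hK h hP (qs_U3 hK h h2))

theorem bs_1s (hP : PF p1s c_2750_4365_m560_560 c_2750_4365_m560_560 kl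
    (hU .s w kr) (hV w kl) (hW w kl)) :
    Bd (acot2 (hU .s w kr)) (acot2 (hV w kl)) (acot2 (hW w kl)) (wl .one .one) := by
  by_cases h2 : dr = 2 ∧ rr = .e
  · exact w_s_1s_2e (datS hK h hP (qs_2e hK h h2))
  · exact w_s_1s_U3 (datS hK h hP (qs_U3 hK h h2))

theorem bs_2e (hP : PF p2e c_2750_4365_m800_330 c_2170_3110_160_660 kl
    (hU .s w kr) (hV w kl) (hW w kl)) :
    Bd (acot2 (hU .s w kr)) (acot2 (hV w kl)) (acot2 (hW w kl)) (wl .twoE .one) := by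
  exact w_s_2e_U2 (datS hK h hP (qs_U2 hK h))

theorem bs_2a (hP : PF p2a c_2750_4365_m540_560 c_2360_3920_m790_180 kl
    (hU .s w kr) (hV w kl) (hW w kl)) :
    Bd (acot2 (hU .s w kr)) (acot2 (hV w kl)) (acot2 (hW w kl)) (wl .two .one) := by
  by_cases h2 : dr = 2 ∧ rr = .e
  · exact w_s_2a_2e (datS hK h hP (qs_2e hK h h2))
  · exact w_s_2a_U3 (datS hK h hP (qs_U3 hK h h2))

theorem bs_2s (hP : PF p2s c_2750_4365_m540_560 c_2360_3920_m790_180 kl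
    (hU .s w kr) (hV w kl) (hW w kl)) :
    Bd (acot2 (hU .s w kr)) (acot2 (hV w kl)) (acot2 (hW w kl)) (wl .two .one) := by
  by_cases h2 : dr = 2 ∧ rr = .e
  · exact w_s_2s_2e (datS hK h hP (qs_2e hK h h2))
  · exact w_s_2s_U3 (datS hK h hP (qs_U3 hK h h2))

theorem bs_3e (hP : PF p3e c_2750_4365_m650_560 c_2120_2740_m580_m100 kl
    (hU .s w kr) (hV w kl) (hW w kl)) :
    Bd (acot2 (hU .s w kr)) (acot2 (hV w kl)) (acot2 (hW w kl)) (wl .threeE .one) := by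
  exact w_s_3e_U2 (datS hK h hP (qs_U2 hK h))

theorem bs_3a (hP : PF p3a c_2750_4365_m490_560 c_2260_3140_m920_m210 kl
    (hU .s w kr) (hV w kl) (hW w kl)) :
    Bd (acot2 (hU .s w kr)) (acot2 (hV w kl)) (acot2 (hW w kl)) (wl .three .one) := by
  by_cases h2 : dr = 2 ∧ rr = .e
  · exact w_s_3a_2e (datS hK h hP (qs_2e hK h h2))
  · by_cases h1 : dr = 1 ∧ rr = .a
    · exact w_s_3a_1a (datS hK h hP (qs_1a hK h h1))
    · exact w_s_3a_S3 (datS hK h hP (qs_S3 hK h h2 h1))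

theorem bs_3s (hP : PF p3s c_2750_4365_m490_560 c_2260_3140_m920_m210 kl
    (hU .s w kr) (hV w kl) (hW w kl)) :
    Bd (acot2 (hU .s w kr)) (acot2 (hV w kl)) (acot2 (hW w kl)) (wl .three .one) := by
  by_cases h2 : dr = 2 ∧ rr = .e
  · exact w_s_3s_2e (datS hK h hP (qs_2e hK h h2))
  · by_cases h1 : dr = 1 ∧ rr = .a
    · exact w_s_3s_1a (datS hK h hP (qs_1a hK h h1))
    · exact w_s_3s_S3 (datS hK h hP (qs_S3 hK h h2 h1))

theorem bs_Z5 (hF : dr = 1 → rr = .a → FarX K .s w kr) (hP : PF pZ5 c_2750_4365_m510_560 c_2140_2980_m1280_m380 kl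
    (hU .s w kr) (hV w kl) (hW w kl)) :
    Bd (acot2 (hU .s w kr)) (acot2 (hV w kl)) (acot2 (hW w kl)) (wl .ring .one) := by
  by_cases h2 : dr = 2 ∧ rr = .e
  · exact w_s_Z5_2e (datS hK h hP (qs_2e hK h h2))
  · by_cases h1 : dr = 1 ∧ rr = .a
    · rcases t1 hK h h1 (hF h1.1 h1.2) with hn | hn
      · exact w_s_Z5_1aX (datS hK h hP (qs_1aX hK h h1 hn))
      · exact w_s_Z5_1aY (datS hK h hP (qs_1aY hK h h1 hn))
    · exact w_s_Z5_S3 (datS hK h hP (qs_S3 hK h h2 h1))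

theorem bs_ZL (hP : PF pZL c_2750_4365_m510_560 c_2140_2980_m1360_m380 kl
    (hU .s w kr) (hV w kl) (hW w kl)) :
    Bd (acot2 (hU .s w kr)) (acot2 (hV w kl)) (acot2 (hW w kl)) (wl .ring .one) := by
  by_cases h2 : dr = 2 ∧ rr = .e
  · exact w_s_ZL_2e (datS hK h hP (qs_2e hK h h2))
  · exact w_s_ZL_U3 (datS hK h hP (qs_U3 hK h h2))

/-- **The windows, side `s`.** -/
theorem bdS (hF : dl = 1 → ll = .a → FarX K .s w kl) (hF' : dr = 1 → rr = .a → FarX K .s w kr) :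
    Bd (acot2 (hU .s w kr)) (acot2 (hV w kl)) (acot2 (hW w kl)) (wl (cK dl ll) .one) := by
  obtain ⟨c, hc⟩ := S6.CS.has_of h.left.ok.right.symm
  rw [S6.CS.cl_eq hc]
  cases c
  · rcases n1a hK h hc (hF hc.1 hc.2) with hn | hn
    · exact bs_1aX hK h (ps_1aX hK h hc hn)
    · exact bs_1aY hK h (ps_1aY hK h hc hn)
  · exact bs_1s hK h (ps_s1s hK h hc)
  · exact bs_2e hK h (ps_s2e hK h hc)
  · exact bs_2a hK h (ps_s2a hK h hc)
  · exact bs_2s hK h (ps_s2s hK h hc)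
  · exact bs_3e hK h (ps_s3e hK h hc)
  · exact bs_3a hK h (ps_s3a hK h hc)
  · exact bs_3s hK h (ps_s3s hK h hc)
  · exact bs_Z5 hK h hF' (ps_s4e hK h hc)
  · exact bs_Z5 hK h hF' (ps_s4a hK h hc)
  · exact bs_Z5 hK h hF' (ps_s4z hK h hc)
  · exact bs_ZL hK h (ps_s4s hK h hc)
  · exact bs_ZL hK h (ps_s5 hK h hc)
  · exact bs_ZL hK h (ps_s6 hK h hc)

/-! ### three digits `1` -/

lemma pz (hd : 4 ≤ dl) : PF pZ c_2750_4365_m510_560 c_2140_2980_m1360_m380 kl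
    (hU .s w kr) (hV w kl) (hW w kl) := by
  obtain ⟨c, hc⟩ := S6.CS.has_of h.left.ok.right.symm
  have h4 := S6.CS.dig_of hc
  cases c
  case s4e => exact pz_s4e hK h hc
  case s4a => exact pz_s4a hK h hc
  case s4z => exact pz_s4z hK h hc
  case s4s => exact pz_s4s hK h hc
  case s5 => exact pz_s5 hK h hc
  case s6 => exact pz_s6 hK h hc
  all_goals
    exact absurd h4 (by simp only [S6.CS.dig]; omega)

end

lemma last1 {yU yV yW : ℂ} {m c : ℤ} (h : Bd yU yV yW [(5, .hi m c)]) :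
    yU.im - yW.im ≤ (m : ℝ) / 10000 := by
  have h1 : (yU - yW).im ≤ (m : ℝ) / 10000 := h _ (.head _)
  rwa [Complex.sub_im] at h1

lemma kcw_one {R Q : Cl} (h : Q ≠ .ring ∨ R = .three ∨ R = .one) :
    kcw R Q = (pcw .one Q).c1 := by
  cases Q
  case ring =>
    rcases h with h | h | h
    · exact absurd rfl h
    · subst h; rfl
    · subst h; rfl
  all_goals cases R <;> rfl

section
variable {K : KFam} (hK : KOK K) {dl : ℕ} {ll : SK} {dr : ℕ} {rr : SK} {w kl kr : ℂ}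
  (h : RDt K 1 .s .s dl ll dr rr w kl kr)
include hK h

/-- three digits `1`: the general bound -/
lemma three0 (hl : 2 ≤ dl) (hr : 2 ≤ dr) :
    (acot2 (hU .s w kr)).im - (acot2 (hW w kl)).im ≤ (pcw .one (cK dl ll)).c1 := by
  have h1 := in_of (bdS hK h (fun h1 => absurd h1 (by omega)) (fun h1 => absurd h1 (by omega)))
  have h2 := h1.c1
  have h3 : (pcw (cK dl ll) .one).c1 = (pcw .one (cK dl ll)).c1 := by
    rw [pcw_swap (cK dl ll) .one]
    rfl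
  rw [h3] at h2
  linarith

/-- **Three digits `1`.** -/
theorem bd3 (hl : 2 ≤ dl) (hr : 2 ≤ dr) :
    (acot2 (hU .s w kr)).im - (acot2 (hW w kl)).im ≤ kcw (cK dr rr) (cK dl ll) := by
  have h0 := three0 hK h hl hr
  obtain ⟨c, hc⟩ := S6.CS.has_of h.left.ok.right.symm
  obtain ⟨c', hc'⟩ := S6.CS.has_of h.right.ok.right.symm
  have e := S6.CS.cl_eq hc
  have e' := S6.CS.cl_eq hc'
  by_cases hd : 4 ≤ dl
  · have hP := pz hK h hd
    have hq : cK dl ll = .ring := by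
      unfold cK
      rw [if_neg (by omega), if_neg (by omega), if_neg (by omega)]
    rw [hq] at h0 ⊢
    rw [e']
    cases c'
    case s2e =>
      have := last1 (w3_2e (datS hK h hP (qs_2e hK h hc')))
      refine this.trans ?_
      simp only [S6.CS.cl, kcw]
      norm_num
    case s3e =>
      have := last1 (w3_3e (datS hK h hP (qs_3e hK h hc')))
      refine this.trans ?_
      simp only [S6.CS.cl, kcw]
      norm_num
    case s2a =>
      have := last1 (w3_2a (datS hK h hP (qs_2a hK h hc')))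
      refine this.trans ?_
      simp only [S6.CS.cl, kcw]
      norm_num
    case s2s =>
      have := last1 (w3_2s (datS hK h hP (qs_2s hK h hc')))
      refine this.trans ?_
      simp only [S6.CS.cl, kcw]
      norm_num
    case s1a => obtain ⟨rfl, -⟩ := hc'; omega
    case s1s => obtain ⟨rfl, -⟩ := hc'; omega
    case s3a => exact h0.trans (kcw_one (R := .three) (Or.inr (Or.inl rfl))).ge
    case s3s => exact h0.trans (kcw_one (R := .three) (Or.inr (Or.inl rfl))).ge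
    all_goals
      have := last1 (w3_Z (datS hK h hP (qs_Z hK h hc' (by decide))))
      refine this.trans ?_
      simp only [S6.CS.cl, kcw]
      norm_num
  · have hq : cK dl ll ≠ .ring := by
      rw [e]
      have h4 := S6.CS.dig_of hc
      cases c <;> first
        | decide
        | exact absurd h4 (by simp only [S6.CS.dig]; omega)
    rw [kcw_one (Or.inl hq)]
    exact h0

end

/-- **The rows at pairs of digits `1`.** -/
theorem pRows2 {K : KFam} (hK : KOK K) : PRows2 K where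
  pair := by
    intro r dl ll dr rr w kl kr h hF hF'
    cases r
    case e => exact absurd rfl (h.left.ok.left.one rfl).2.1
    case z => exact absurd (h.left.ok.left.zl rfl) (by decide)
    case a => exact in_of (bdA hK h)
    case s => exact in_of (bdS hK h hF (hF' rfl))
  three := by
    intro dl ll dr rr w kl kr h hl hr
    have h1 := bd3 hK h hl hr
    rw [hU_s] at h1
    linarith

/-- **The location facts at pairs of digits `±1`.** -/
theorem locP {M : ℕ} {b : Fin (M + 1) → ℤ} {w : ℕ → ℂ} (hb : ClassW b) (F : RingFacts)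
    (hw : Sol b w) {K : KFam} (hK : Snd K b w) (h0 : KOK K) : LocP b (zsW b w) :=
  locP_of_rows2 hb F hw hK (pRows2 h0)

end

end Pool.Agent.Work.MP_b30479_gt.G2.CN.PW
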