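import Pool.Agent.Work.MP_b30479_gt.G2.CN.SIn

/-!
# Split hinges: use of the runs
-/

namespace Pool.Agent.Work.MP_b30479_gt.G2.CN.S6

open Complex SR NumI CN.Ev S6.Ev

noncomputable section

/-! ### exponentials at a digit `1` -/

section
variable {K : KFam} {dl : ℕ} {ll : SK} {dr : ℕ} {rr : SK} {w kl kr : ℂ}

/-- digit `1`, one side `s`: the product -/
lemma eX (h : RDt K 1 .s .a dl ll dr rr w kl kr)
    (h1 : (acot2 (Sp (RR w kl) (Complex.cos w))).re < 1 / 2) (H : List QC) :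
    cexp (2 * Real.pi * I * (acot2 (Sp (RR w kl) (Complex.cos w)) + acot2 (RR w kr))) *
      (sgX H).M.val (RR w kr) (1 / Complex.cos w ^ 2) =
      (sgX H).N.val (RR w kr) (1 / Complex.cos w ^ 2) := by
  change _ * (sRm.val _ _ * dl2.val _ _) = 1 / Complex.cos w ^ 2 * sRp.val _ _
  have e1 := exp_sa h h1
  have n := ne_I_of_re (r0_pos.trans h.right.Rre)
  have e2 := exp_acot2 n.1 n.2
  rw [val_sRm, val_sRp, val_dl2', mul_add, Complex.exp_add]
  linear_combination (cexp (2 * Real.pi * I * acot2 (RR w kr)) * (RR w kr - I)) * e1 +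
    (1 / Complex.cos w ^ 2) * e2

/-- digit `1`, one side `s`: the split hinge -/
lemma eW (h : RDt K 1 .s .a dl ll dr rr w kl kr)
    (h1 : (acot2 (Sp (RR w kl) (Complex.cos w))).re < 1 / 2) (H : List QC) :
    cexp (2 * Real.pi * I * acot2 (Sp (RR w kl) (Complex.cos w))) *
      (sgW H).M.val (RR w kr) (1 / Complex.cos w ^ 2) =
      (sgW H).N.val (RR w kr) (1 / Complex.cos w ^ 2) := by
  change _ * dl2.val _ _ = 1 / Complex.cos w ^ 2
  rw [val_dl2', exp_sa h h1]

/-- digit `1`, one side `s`: the other hinge -/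
lemma eH (h : RDt K 1 .s .a dl ll dr rr w kl kr) (H : List QC) :
    cexp (2 * Real.pi * I * acot2 (RR w kr)) *
      (gH H).M.val (RR w kr) (1 / Complex.cos w ^ 2) =
      (gH H).N.val (RR w kr) (1 / Complex.cos w ^ 2) := by
  change _ * (RR w kr - gz 0 0 1 0) = RR w kr + gz 0 0 1 0
  have n := ne_I_of_re (r0_pos.trans h.right.Rre)
  rw [gzI (RR w kr)]
  exact exp_acot2 n.1 n.2

/-- digit `1`, two sides `s`: the product -/
lemma eV (h : RDt K 1 .s .s dl ll dr rr w kl kr)
    (h1 : (acot2 (Sp (RR w kl) (Complex.cos w))).re < 1 / 2)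
    (h2 : (acot2 (Sp (RR w kr) (Complex.cos w))).re < 1 / 2) (H : List QC) :
    cexp (2 * Real.pi * I * (acot2 (Sp (RR w kl) (Complex.cos w)) +
      acot2 (Sp (RR w kr) (Complex.cos w)))) *
      (sgV H).M.val (RR w kr) (1 / Complex.cos w ^ 2) =
      (sgV H).N.val (RR w kr) (1 / Complex.cos w ^ 2) := by
  change _ * (gz 0 0 1 0 * dl3.val _ _) = dl2.val _ _ * sRp.val _ _
  have e := one_rel h
  rw [Hq_s, Hq_s] at e
  have hR : RR w kr + I ≠ 0 := add_I_ne h.right.Rre
  have s := Sp_sub (k := Complex.cos w) hR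
  have e2 := exp_split (r0_pos.trans h.right.Rre) h.cos_ne h2
  obtain ⟨n1, n2⟩ : Sp (RR w kl) (Complex.cos w) ≠ I ∧ Sp (RR w kl) (Complex.cos w) ≠ -I :=
    ⟨Sp_ne_I (add_I_ne h.left.Rre) h.cos_ne, ne_nI_of_half h1⟩
  have ee := exp_acot2 n1 n2
  have hS : Sp (RR w kl) (Complex.cos w) + I ≠ 0 := fun h0 => n2 (by linear_combination h0)
  have q0 : (1 : ℂ) / Complex.cos w ^ 2 ≠ 0 := one_div_ne_zero (pow_ne_zero 2 h.cos_ne)
  rw [gz_I, val_sRp, val_dl2', val_dl3', mul_add, Complex.exp_add]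
  push_cast
  generalize acot2 (Sp (RR w kl) (Complex.cos w)) = a at *
  generalize acot2 (Sp (RR w kr) (Complex.cos w)) = b at *
  generalize Sp (RR w kl) (Complex.cos w) = U at *
  generalize Sp (RR w kr) (Complex.cos w) = V at *
  generalize 1 / Complex.cos w ^ 2 = q at *
  generalize RR w kr = R at *
  generalize cexp (2 * Real.pi * I * a) = Ea at *
  generalize cexp (2 * Real.pi * I * b) = Eb at *
  -- `Ea (q + 2 i (V + i)) = q`
  have e4 : Ea * (q + 2 * I * (V + I)) = q := by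
    apply mul_right_cancel₀ hS
    linear_combination (2 * I * Ea) * e + q * ee
  -- `(q + 2 i (V + i)) (R + i) = i dl3`
  have e5 : (q + 2 * I * (V + I)) * (R + I) = I * (I * R * (4 - q) - (4 - 3 * q)) := by
    linear_combination (2 * I) * s + (-(R * (4 - q)) + 4 * (R + I)) * Complex.I_mul_I
  apply mul_right_cancel₀ q0
  linear_combination (-(Ea * Eb * q)) * e5 + (Eb * q * (R + I)) * e4 + (q * (R + I)) * e2

end

/-! ### use of a run -/

/-- the goals of a run for a split hinge -/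
def goS (b : BB) (gu : List GC) : List Grp := [gS b.H, sgU (gu.map GC.q)]

/-- the goals of a run for a split hinge next to a digit `1` with two split sides -/
def goV (b : BB) (gu gv : List GC) : List Grp := [gS b.H, sgU (gu.map GC.q), sgV (gv.map GC.q)]

/-- the goals of a run for the hinge with opposite signs next to a digit `1` -/
def goX (ga gb gc : List GC) : List Grp :=
  [gH (ga.map GC.q), sgW (gb.map GC.q), sgX (gc.map GC.q)]

section
variable {x : SK} {d : ℕ} {l : SK} {d' : ℕ} {l' : SK} {c c' : Cls} (hL : c.Ok x d l)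
  (hR : c'.Ok x d' l') {go : List Grp} {n code : ℕ}
  (hr : row (gsOf x c c') go n code root = true) {K : KFam} (hK : KOK K) {R k k' : ℂ}
  (h : HDt K x d l d' l' R k k')
include hL hR hr hK h

/-- the bounds from a group of goals -/
theorem use_gc {g : Grp} (hg : g ∈ go) {gs : List GC} (hH : g.H = gs.map GC.q)
    (ho : gs.all GC.ok = true) {v : ℂ}
    (he : cexp (2 * Real.pi * I * v) * g.M.val R (1 / k ^ 2) = g.N.val R (1 / k ^ 2)) :
    ∀ e ∈ gs, e.P v := by
  intro e hE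
  refine GC.spec (List.all_eq_true.1 ho e hE) ?_
  refine row_sound hr (hK.root h) (gs_ok hL hR hK h) hg he _ ?_
  rw [hH]
  exact List.mem_map_of_mem hE

end

section
variable {d : ℕ} {l : SK} {d' : ℕ} {l' : SK} {c c' : Cls} (hL : c.Ok .s d l)
  (hR : c'.Ok .s d' l') {b : BB} {gu gv : List GC} {n code : ℕ}

section
variable (hr : row (gsOf .s c c') (goS b gu) n code root = true) {K : KFam} (hK : KOK K)
  {R k k' : ℂ} (h : HDt K .s d l d' l' R k k')
include hL hR hr hK h

theorem useS (hs : b.ok = true) : b.box.In (acot2 (Sp R k)) :=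
  cls_S hL hR hr hs List.mem_cons_self hK h

theorem useU (ho : gu.all GC.ok = true) (h1 : (acot2 (Sp R k)).re < 1 / 2)
    (h2 : (acot2 (Sp R k')).re < 1 / 2) : ∀ e ∈ gu, e.P (acot2 (Sp R k) + acot2 (Sp R k')) :=
  use_gc hL hR hr hK h (g := sgU (gu.map GC.q)) (by simp [goS]) rfl ho (eU h h1 h2 _)

end

section
variable (hr : row (gsOf .s c c') (goV b gu gv) n code root = true) {K : KFam} (hK : KOK K)
  {R k k' : ℂ} (h : HDt K .s d l d' l' R k k')
include hL hR hr hK h

theorem useS' (hs : b.ok = true) : b.box.In (acot2 (Sp R k)) :=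
  cls_S hL hR hr hs List.mem_cons_self hK h

theorem useU' (ho : gu.all GC.ok = true) (h1 : (acot2 (Sp R k)).re < 1 / 2)
    (h2 : (acot2 (Sp R k')).re < 1 / 2) : ∀ e ∈ gu, e.P (acot2 (Sp R k) + acot2 (Sp R k')) :=
  use_gc hL hR hr hK h (g := sgU (gu.map GC.q)) (by simp [goV]) rfl ho (eU h h1 h2 _)

end

end

/-- digit `1` with two split sides -/
theorem useV {ll : SK} {dl : ℕ} {dr : ℕ} {rr : SK} {c c' : Cls} (hL : c.Ok .s 1 .s)
    (hR : c'.Ok .s dr rr) {b : BB} {gu gv : List GC} {n code : ℕ}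
    (hr : row (gsOf .s c c') (goV b gu gv) n code root = true) {K : KFam} (hK : KOK K)
    {w kl kr : ℂ} (h : RDt K 1 .s .s dl ll dr rr w kl kr) (ho : gv.all GC.ok = true)
    (h1 : (acot2 (Sp (RR w kl) (Complex.cos w))).re < 1 / 2)
    (h2 : (acot2 (Sp (RR w kr) (Complex.cos w))).re < 1 / 2) :
    ∀ e ∈ gv, e.P (acot2 (Sp (RR w kl) (Complex.cos w)) +
      acot2 (Sp (RR w kr) (Complex.cos w))) :=
  use_gc hL hR hr hK h.right (g := sgV (gv.map GC.q)) (by simp [goV]) rfl ho (eV h h1 h2 _)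

/-- digit `1` with one split side -/
theorem useX {ll : SK} {dl : ℕ} {dr : ℕ} {rr : SK} {c c' : Cls} (hL : c.Ok .a 1 .s)
    (hR : c'.Ok .a dr rr) {ga gb gc : List GC} {n code : ℕ}
    (hr : row (gsOf .a c c') (goX ga gb gc) n code root = true) {K : KFam} (hK : KOK K)
    {w kl kr : ℂ} (h : RDt K 1 .s .a dl ll dr rr w kl kr)
    (ho : (ga.all GC.ok && gb.all GC.ok && gc.all GC.ok) = true)
    (h1 : (acot2 (Sp (RR w kl) (Complex.cos w))).re < 1 / 2) :
    (∀ e ∈ ga, e.P (acot2 (RR w kr))) ∧ (∀ e ∈ gb, e.P (acot2 (Sp (RR w kl) (Complex.cos w)))) ∧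
      ∀ e ∈ gc, e.P (acot2 (Sp (RR w kl) (Complex.cos w)) + acot2 (RR w kr)) := by
  rw [Bool.and_eq_true, Bool.and_eq_true] at ho
  exact ⟨use_gc hL hR hr hK h.right (g := gH (ga.map GC.q)) (by simp [goX]) rfl ho.1.1 (eH h _),
    use_gc hL hR hr hK h.right (g := sgW (gb.map GC.q)) (by simp [goX]) rfl ho.1.2 (eW h h1 _),
    use_gc hL hR hr hK h.right (g := sgX (gc.map GC.q)) (by simp [goX]) rfl ho.2 (eX h h1 _)⟩

end

end Pool.Agent.Work.MP_b30479_gt.G2.CN.S6
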