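import Pool.Agent.Work.MP_b30479_gt.G2.CN.PIn
import Pool.Agent.Work.MP_b30479_gt.G2.CN.SRow

/-!
# Two adjacent digits `1`: the groups hold

`PV`: the relation between the hinges; `PD`: the same with the values of the two rings.
-/

namespace Pool.Agent.Work.MP_b30479_gt.G2.CN.PW

open Complex SR NumI CN.Ev S6

/-- the relation between the three hinges -/
structure PV (U V W : ℂ) : Prop where
  e : (V + W) * (V - I) = -((U + I) * (V + I))
  b0 : V + I ≠ 0
  e0 : V - I ≠ 0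
  r0 : V + W ≠ 0

/-- the relations between the three hinges and the values `q`, `p` of the rings -/
structure PD (U V W q p : ℂ) : Prop extends PV U V W where
  q : (V + W) * (V - I) = q
  p : (V + W) * (W - I) = p

namespace PV

variable {U V W : ℂ} (h : PV U V W)
include h

lemma he : (W - I) * (V - I) = -((V + I) * (U + V)) := by
  linear_combination h.e

lemma pe : (W + I) * (V - I) = -((U + I) * (V + I) + (V - I) ^ 2) := by
  linear_combination h.e

lemma pe' : (U + I) * (V + I) + (V - I) ^ 2 = -((W + I) * (V - I)) := by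
  rw [h.pe]
  ring

lemma fb : (U - I) * (V + I) = -((V + W) * (V - I) + 2 * I * (V + I)) := by
  linear_combination h.e

lemma n_eq : (V + W) * (W - I) * (V - I) ^ 2 = (U + I) * (V + I) * ((V + I) * (U + V)) := by
  have h1 := h.e
  have h2 := h.he
  calc (V + W) * (W - I) * (V - I) ^ 2 = ((V + W) * (V - I)) * ((W - I) * (V - I)) := by ring
    _ = _ := by rw [h1, h2]; ring

end PV

lemma sp_sum {R c k : ℂ} (h : R + I ≠ 0) (hh : R ^ 2 + 1 = 1 / c ^ 2 + 1 / k ^ 2) :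
    Sp R c + Sp R k = R + I := by
  have h1 := Sp_sub (k := c) h
  have h2 := Sp_sub (k := k) h
  apply mul_right_cancel₀ h
  linear_combination h1 + h2 - hh + Complex.I_mul_I

section
variable {K : KFam} {r : SK} {dl : ℕ} {ll : SK} {dr : ℕ} {rr : SK} {w kl kr : ℂ}

/-- the relations for a ring with the digit `1` and an absorbed digit on the left -/
theorem pd (h : RDt K 1 .s r dl ll dr rr w kl kr) :
    PD (Hq r (RR w kr) (Complex.cos w)) (Sp (RR w kl) (Complex.cos w)) (Sp (RR w kl) kl)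
      (1 / Complex.cos w ^ 2) (1 / kl ^ 2) := by
  have e := one_rel h
  rw [Hq_s] at e
  have hR : RR w kl + I ≠ 0 := add_I_ne h.left.Rre
  have s1 := Sp_sub (k := Complex.cos w) hR
  have s2 := Sp_sub (k := kl) hR
  have s3 := sp_sum hR h.left.hinge
  have q0 : (1 : ℂ) / Complex.cos w ^ 2 ≠ 0 := one_div_ne_zero (pow_ne_zero 2 h.cos_ne)
  have e1 : (Sp (RR w kl) (Complex.cos w) + Sp (RR w kl) kl) *
      (Sp (RR w kl) (Complex.cos w) - I) = 1 / Complex.cos w ^ 2 := by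
    rw [s3, mul_comm]
    exact s1
  refine ⟨⟨?_, ?_, ?_, ?_⟩, e1, ?_⟩
  · rw [e1]
    linear_combination e
  · intro h0
    rw [h0, zero_mul] at e
    exact q0 (neg_eq_zero.1 e.symm)
  · intro h0
    rw [h0, mul_zero] at e1
    exact q0 e1.symm
  · rw [s3]
    exact hR
  · rw [s3, mul_comm]
    exact s2

/-- the second neighbour on a side `a` -/
lemma qQ_a (h : RDt K 1 .s .a dl ll dr rr w kl kr) :
    (Hq .a (RR w kr) (Complex.cos w) + I) * (Hq .a (RR w kr) (Complex.cos w) +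
      Sp (RR w kl) (Complex.cos w)) = 1 / kr ^ 2 := by
  have e := one_rel h
  rw [Hq_s] at e
  have e2 := h.right.hinge
  rw [Hq_of_ne (by decide)] at e ⊢
  linear_combination e + e2 - Complex.I_mul_I

end

section
variable {U V W q p : ℂ} (h : PD U V W q p) {H : List QC} {k : ℂ}

/-! ### own values -/

section
include h

lemma q_uv : -((U + I) * (V + I)) = q := by rw [← h.q, h.e]

lemma p_un : (U + I) * (V + I) * ((V + I) * (U + V)) = p * (V - I) ^ 2 := by
  rw [← h.p, h.n_eq]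

end

lemma uJ_ok (h : PD U V W (1 / k ^ 2) p) (k0 : k ≠ 0) (hS : Sat H (k ^ 2)) :
    (uJ H).Ok U V := by
  refine ⟨k ^ 2, ?_, hS⟩
  change k ^ 2 * (Ev.gm 0 1 0 0 uab).val U V = (Ev.sc 2 one).val U V
  rw [v_one, v_neg, val_uab, q_uv h, mul_one_div_cancel (pow_ne_zero 2 k0)]

lemma vJ_ok (h : PD U V W (1 / k ^ 2) p) (k0 : k ≠ 0) (hS : Sat H (k ^ 2)) :
    (vJ H).Ok V W := by
  refine ⟨k ^ 2, ?_, hS⟩
  change k ^ 2 * vre.val V W = (Ev.sc 2 one).val V W
  rw [v_one, val_vre, h.q, mul_one_div_cancel (pow_ne_zero 2 k0)]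

lemma uP_ok (h : PD U V W q (1 / k ^ 2)) (k0 : k ≠ 0) (hS : Sat H (k ^ 2)) :
    (uP H).Ok U V := by
  refine ⟨k ^ 2, ?_, hS⟩
  change k ^ 2 * un.val U V = ue2.val U V
  rw [val_un, val_ue2, p_un h, ← mul_assoc, mul_one_div_cancel (pow_ne_zero 2 k0), one_mul]

lemma vP_ok (h : PD U V W q (1 / k ^ 2)) (k0 : k ≠ 0) (hS : Sat H (k ^ 2)) :
    (vP H).Ok V W := by
  refine ⟨k ^ 2, ?_, hS⟩
  change k ^ 2 * vrh.val V W = (Ev.sc 2 one).val V W
  rw [v_one, val_vrh, h.p, mul_one_div_cancel (pow_ne_zero 2 k0)]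

lemma uQ_ok (hm : (U + I) * (U + V) = 1 / k ^ 2) (k0 : k ≠ 0) (hS : Sat H (k ^ 2)) :
    (uQ H).Ok U V := by
  refine ⟨k ^ 2, ?_, hS⟩
  change k ^ 2 * um.val U V = (Ev.sc 2 one).val U V
  rw [v_one, val_um, hm, mul_one_div_cancel (pow_ne_zero 2 k0)]

lemma vn_eq (h : PV U V W) : vn.val V W = (V + I) ^ 2 * ((U + I) * (U + V)) := by
  rw [val_vn, h.n_eq]
  ring

lemma vQ_ok (h : PV U V W) (hm : (U + I) * (U + V) = 1 / k ^ 2) (k0 : k ≠ 0)
    (hS : Sat H (k ^ 2)) : (vQ H).Ok V W := by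
  refine ⟨k ^ 2, ?_, hS⟩
  change k ^ 2 * vn.val V W = vb2.val V W
  rw [vn_eq h, val_vb2, hm]
  have := pow_ne_zero 2 k0
  field_simp

/-- the other neighbour of the digit `1` on a side `s` -/
lemma uR_ok (h : (uP H).Ok V U) : (uR H).Ok U V := by
  obtain ⟨c, h1, h2⟩ := h
  refine ⟨c, ?_, h2⟩
  change c * un.val V U = ue2.val V U at h1
  change c * un2.val U V = uf2.val U V
  rw [val_un, val_ue2] at h1
  rw [val_un2, val_uf2]
  linear_combination h1

lemma vR_ok (hv : PV U V W) (h : (uR H).Ok U V) : (vR H).Ok V W := by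
  obtain ⟨c, h1, h2⟩ := h
  refine ⟨c, ?_, h2⟩
  change c * un2.val U V = uf2.val U V at h1
  rw [val_un2, val_uf2] at h1
  change c * (Ev.gm 0 1 0 0 (.nl (.mul (.mul (.sq vr) (.mul ve2 ve)) vh))).val V W =
    vs.val V W ^ 2
  rw [v_neg, v_nl, v_mul, v_mul, v_sq, v_mul, val_vr, val_ve2, val_ve, val_vh, val_vs]
  have e1 := hv.e
  have e2 := hv.he
  have e3 := hv.fb
  have e4 : (V + W) ^ 2 * ((V - I) ^ 2 * (V - I)) * (W - I) =
      -((U + I) * (V + I) * ((U + I) * (U + V)) * (V + I) ^ 2) := by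
    calc (V + W) ^ 2 * ((V - I) ^ 2 * (V - I)) * (W - I) =
        ((V + W) * (V - I)) ^ 2 * ((W - I) * (V - I)) := by ring
      _ = _ := by rw [e1, e2]; ring
  have e5 : ((V + W) * (V - I) + 2 * I * (V + I)) ^ 2 = (U - I) ^ 2 * (V + I) ^ 2 := by
    rw [← mul_pow, e3]
    ring
  rw [e4, e5]
  linear_combination (V + I) ^ 2 * h1

end

/-! ### outer values of the absorbed side -/

section
variable {U V W q p : ℂ} {H : List QC}

lemma dr2v (R q : ℂ) : (dr2 1 0).val R q = R ^ 2 + 1 - q - 2 + 2 * I * R := val_dr2' R q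

lemma dr3v (R q : ℂ) : (dr3 1 0).val R q =
    I * R * (4 - (R ^ 2 + 1 - q)) - (4 - 3 * (R ^ 2 + 1 - q)) := by
  have hv := CN.Ev.val_dr3 R q 1 0
  apply mul_left_cancel₀ two_ne_zero
  rw [hv]
  simp only [DB, cab]
  push_cast
  ring

lemma dr4v (R q : ℂ) : (dr4 1 0).val R q =
    4 * I * R * (2 - (R ^ 2 + 1 - q)) - ((R ^ 2 + 1 - q) ^ 2 - 8 * (R ^ 2 + 1 - q) + 8) := by
  have hv := CN.Ev.val_dr4 R q 1 0
  apply mul_left_cancel₀ two_ne_zero
  rw [hv]
  simp only [DB, cab]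
  push_cast
  ring

lemma dr5v (R q : ℂ) : (dr5 1 0).val R q =
    I * R * ((R ^ 2 + 1 - q) ^ 2 - 12 * (R ^ 2 + 1 - q) + 16) -
      (5 * (R ^ 2 + 1 - q) ^ 2 - 20 * (R ^ 2 + 1 - q) + 16) := by
  have hv := CN.Ev.val_dr5 R q 1 0
  apply mul_left_cancel₀ two_ne_zero
  rw [hv]
  simp only [DB, cab]
  push_cast
  ring

section
variable (h : PD U V W q p) {R : ℂ} (hR : V + W = R + I) (hp : R ^ 2 + 1 - q = p)
include h hR hp

lemma y2_eq : (dr2 1 0).val R q = (V + W) * (W + I) := by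
  rw [dr2v, hp, ← h.p]
  have e : R = V + W - I := by rw [hR]; ring
  rw [e]
  linear_combination (-2 : ℂ) * Complex.I_mul_I

lemma y3_eq : (dr3 1 0).val R q = (V + W) * qY3 (V + W) (W - I) := by
  rw [dr3v, hp, ← h.p, qY3]
  have e : R = V + W - I := by rw [hR]; ring
  rw [e]
  linear_combination (-(4 - (V + W) * (W - I))) * Complex.I_mul_I

lemma y4_eq : (dr4 1 0).val R q = (V + W) * qY4 (V + W) (W - I) := by
  rw [dr4v, hp, ← h.p, qY4]
  have e : R = V + W - I := by rw [hR]; ring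
  rw [e]
  linear_combination (-(4 * (2 - (V + W) * (W - I)))) * Complex.I_mul_I

lemma y5_eq : (dr5 1 0).val R q = (V + W) * qY5 (V + W) (W - I) := by
  rw [dr5v, hp, ← h.p, qY5]
  have e : R = V + W - I := by rw [hR]; ring
  rw [e]
  linear_combination (-(((V + W) * (W - I)) ^ 2 - 12 * ((V + W) * (W - I)) + 16)) *
    Complex.I_mul_I

lemma vA2_ok (hg : (gD2 1 0 H).Ok R q) : (vA2 H).Ok V W := by
  obtain ⟨c, h1, h2⟩ := hg
  refine ⟨c, ?_, h2⟩
  change c * ((R ^ 2 + 1 - q) ^ (1 + 1) * q) = (dr2 1 0).val R q ^ 2 at h1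
  rw [y2_eq h hR hp, hp, ← h.p, ← h.q] at h1
  change c * (vrh.val V W * (vh.val V W * ve.val V W)) = vi.val V W ^ 2
  rw [val_vrh, val_vh, val_ve, val_vi]
  apply mul_left_cancel₀ (pow_ne_zero 2 h.r0)
  linear_combination h1

lemma vA3_ok (hg : (gD3 1 0 H).Ok R q) : (vA3 H).Ok V W := by
  obtain ⟨c, h1, h2⟩ := hg
  refine ⟨c, ?_, h2⟩
  change c * ((R ^ 2 + 1 - q) ^ (2 + 1) * q) = (dr3 1 0).val R q ^ 2 at h1
  rw [y3_eq h hR hp, hp, ← h.p, ← h.q] at h1
  change c * (vrh.val V W ^ 2 * (vh.val V W * ve.val V W)) = vy3.val V W ^ 2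
  rw [val_vrh, val_vh, val_ve, val_vy3]
  apply mul_left_cancel₀ (pow_ne_zero 2 h.r0)
  linear_combination h1

lemma vA4_ok (hg : (gD4 1 0 H).Ok R q) : (vA4 H).Ok V W := by
  obtain ⟨c, h1, h2⟩ := hg
  refine ⟨c, ?_, h2⟩
  change c * ((R ^ 2 + 1 - q) ^ (3 + 1) * q) = (dr4 1 0).val R q ^ 2 at h1
  rw [y4_eq h hR hp, hp, ← h.p, ← h.q] at h1
  change c * (vrh.val V W ^ 2 * vrh.val V W * (vh.val V W * ve.val V W)) = vy4.val V W ^ 2
  rw [val_vrh, val_vh, val_ve, val_vy4]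
  apply mul_left_cancel₀ (pow_ne_zero 2 h.r0)
  linear_combination h1

lemma vA5_ok (hg : (gD5 1 0 H).Ok R q) : (vA5 H).Ok V W := by
  obtain ⟨c, h1, h2⟩ := hg
  refine ⟨c, ?_, h2⟩
  change c * ((R ^ 2 + 1 - q) ^ (4 + 1) * q) = (dr5 1 0).val R q ^ 2 at h1
  rw [y5_eq h hR hp, hp, ← h.p, ← h.q] at h1
  change c * ((vrh.val V W ^ 2) ^ 2 * (vh.val V W * ve.val V W)) = vy5.val V W ^ 2
  rw [val_vrh, val_vh, val_ve, val_vy5]
  apply mul_left_cancel₀ (pow_ne_zero 2 h.r0)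
  linear_combination h1

end

lemma zeroN {g : Grp} {u w : ℂ} (hH : g.H = zeroQ) (h : g.N.val u w = 0) : g.Ok u w := by
  refine ⟨0, ?_, by rw [hH]; exact zeroQ_sat⟩
  rw [h, zero_mul]

/-- the value of a group of an end -/
lemma zero_val {g : Grp} {u w : ℂ} (hH : g.H = zeroQ) (h : g.Ok u w) : g.N.val u w = 0 := by
  obtain ⟨c, h1, h2⟩ := h
  rw [hH] at h2
  have a1 := h2 ⟨1, 0, 0, 0⟩ (by simp [zeroQ])
  have a2 := h2 ⟨-1, 0, 0, 0⟩ (by simp [zeroQ])
  have a3 := h2 ⟨0, 1, 0, 0⟩ (by simp [zeroQ])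
  have a4 := h2 ⟨0, -1, 0, 0⟩ (by simp [zeroQ])
  unfold QC.Sat at a1 a2 a3 a4
  push_cast at a1 a2 a3 a4
  have hc : c = 0 := by
    apply Complex.ext
    · rw [Complex.zero_re]; linarith
    · rw [Complex.zero_im]; linarith
  rw [← h1, hc, zero_mul]

section
variable (h : PD U V W q p) {R : ℂ} (hR : V + W = R + I) (hp : R ^ 2 + 1 - q = p)
include h hR hp

lemma vF3_ok (hg : (gE3 1 0).Ok R q) : (vF3 zeroQ).Ok V W := by
  have h1 : (dr3 1 0).val R q = 0 := zero_val rfl hg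
  rw [y3_eq h hR hp] at h1
  refine zeroN rfl ?_
  change vy3.val V W = 0
  rw [val_vy3]
  exact (mul_eq_zero.1 h1).resolve_left h.r0

lemma vF4_ok (hg : (gE4 1 0).Ok R q) : (vF4 zeroQ).Ok V W := by
  have h1 : (dr4 1 0).val R q = 0 := zero_val rfl hg
  rw [y4_eq h hR hp] at h1
  refine zeroN rfl ?_
  change vy4.val V W = 0
  rw [val_vy4]
  exact (mul_eq_zero.1 h1).resolve_left h.r0

lemma vF5_ok (hg : (gE5 1 0).Ok R q) : (vF5 zeroQ).Ok V W := by
  have h1 : (dr5 1 0).val R q = 0 := zero_val rfl hg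
  rw [y5_eq h hR hp] at h1
  refine zeroN rfl ?_
  change vy5.val V W = 0
  rw [val_vy5]
  exact (mul_eq_zero.1 h1).resolve_left h.r0

end

/-! ### the same in the variables `U`, `V` -/

section
variable (h : PV U V W)
include h

lemma Y3_eq : pY3 (V - I) ((U + I) * (V + I) + (V - I) ^ 2)
    ((U + I) * (V + I) * ((V + I) * (U + V))) = I * (qY3 (V + W) (W - I) * (V - I) ^ 2) := by
  rw [← h.n_eq, h.pe', pY3, qY3]
  linear_combination ((V + W) * (W - I) * (V - I) ^ 2) * Complex.I_mul_I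

lemma Y4_eq : pY4 (V - I) ((U + I) * (V + I) + (V - I) ^ 2)
    ((U + I) * (V + I) * ((V + I) * (U + V))) = I * (qY4 (V + W) (W - I) * (V - I) ^ 3) := by
  rw [← h.n_eq, h.pe', pY4, qY4]
  linear_combination (2 * ((V + W) * (W - I) * (V - I) ^ 3)) * Complex.I_mul_I

lemma Y5_eq : pY5 (V - I) ((U + I) * (V + I) + (V - I) ^ 2)
    ((U + I) * (V + I) * ((V + I) * (U + V))) = I * (qY5 (V + W) (W - I) * (V - I) ^ 4) := by
  rw [← h.n_eq, h.pe', pY5, qY5]
  linear_combination ((4 * ((V + W) * (W - I)) - ((V + W) * (W - I)) ^ 2) * (V - I) ^ 4) *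
    Complex.I_mul_I

lemma uA2_ok {H : List QC} (hg : (vA2 H).Ok V W) : (uA2 H).Ok U V := by
  obtain ⟨c, h1, h2⟩ := hg
  refine ⟨c, ?_, h2⟩
  change c * (vrh.val V W * (vh.val V W * ve.val V W)) = vi.val V W ^ 2 at h1
  rw [val_vrh, val_vh, val_ve, val_vi] at h1
  change c * (Ev.gm 0 1 0 0 (.nl (.mul (.sq ubc) uab))).val U V = ug.val U V ^ 2
  rw [v_neg, v_nl, v_mul, v_sq, val_ubc, val_uab, val_ug, h.pe']
  have e1 := h.e
  have e2 := h.he
  have e3 : -(((V + I) * (U + V)) ^ 2 * ((U + I) * (V + I))) =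
      ((W - I) * (V - I)) ^ 2 * ((V + W) * (V - I)) := by
    rw [e1, e2]
    ring
  rw [e3]
  linear_combination (V - I) ^ 2 * h1

lemma uA3_ok {H : List QC} (hg : (vA3 H).Ok V W) : (uA3 H).Ok U V := by
  obtain ⟨c, h1, h2⟩ := hg
  refine ⟨c, ?_, h2⟩
  change c * (vrh.val V W ^ 2 * (vh.val V W * ve.val V W)) = vy3.val V W ^ 2 at h1
  rw [val_vrh, val_vh, val_ve, val_vy3] at h1
  change c * (ubc.val U V ^ 2 * ubc.val U V * uab.val U V ^ 2) = uy3.val U V ^ 2
  rw [val_uy3, val_ue, val_ug, val_un, Y3_eq h, val_ubc, val_uab]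
  have e1 := h.e
  have e2 := h.he
  have e3 : ((V + I) * (U + V)) ^ 2 * ((V + I) * (U + V)) * ((U + I) * (V + I)) ^ 2 =
      -(((W - I) * (V - I)) ^ 3 * ((V + W) * (V - I)) ^ 2) := by
    rw [e1, e2]
    ring
  rw [e3]
  linear_combination (-(V - I) ^ 4) * h1 -
    (qY3 (V + W) (W - I) ^ 2 * (V - I) ^ 4) * Complex.I_mul_I

lemma uF3_ok (hg : (vF3 zeroQ).Ok V W) : (uF3 zeroQ).Ok U V := by
  have h1 : vy3.val V W = 0 := zero_val rfl hg
  refine zeroN rfl ?_
  change uy3.val U V = 0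
  rw [val_uy3, val_ue, val_ug, val_un, Y3_eq h, ← val_vy3, h1]
  ring

lemma uF4_ok (hg : (vF4 zeroQ).Ok V W) : (uF4 zeroQ).Ok U V := by
  have h1 : vy4.val V W = 0 := zero_val rfl hg
  refine zeroN rfl ?_
  change uy4.val U V = 0
  rw [val_uy4, val_ue, val_ug, val_un, Y4_eq h, ← val_vy4, h1]
  ring

lemma uF5_ok (hg : (vF5 zeroQ).Ok V W) : (uF5 zeroQ).Ok U V := by
  have h1 : vy5.val V W = 0 := zero_val rfl hg
  refine zeroN rfl ?_
  change uy5.val U V = 0
  rw [val_uy5, val_ue, val_ug, val_un, Y5_eq h, ← val_vy5, h1]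
  ring

lemma uX2_ok (hg : (vX2 zeroQ).Ok V W) : (uX2 zeroQ).Ok U V := by
  have h1 : vX2e.val V W = 0 := zero_val rfl hg
  rw [val_vX2e, val_vrh, val_vh, val_ve, val_vi] at h1
  refine zeroN rfl ?_
  change uX2e.val U V = 0
  rw [val_uX2e, pX]
  have e1 := h.e
  have e2 := h.he
  have e3 : (U + I) * (V + I) = -((V + W) * (V - I)) := by rw [e1]; ring
  have e4 : (V + I) * (U + V) = -((W - I) * (V - I)) := by rw [e2]; ring
  rw [e3, e4]
  linear_combination (V - I) ^ 3 * h1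

end

/-! ### the other side of the digit `1` -/

lemma uS2_ok {U V : ℂ} {H : List QC} (h : (uA2 H).Ok V U) : (uS2 H).Ok U V := by
  obtain ⟨c, h1, h2⟩ := h
  refine ⟨c, ?_, h2⟩
  change c * (Ev.gm 0 1 0 0 (.nl (.mul (.sq ubc) uab))).val V U = ug.val V U ^ 2 at h1
  change c * (Ev.gm 0 1 0 0 (.nl (.mul (.sq um) uab))).val U V = ug2.val U V ^ 2
  rw [v_neg, v_nl, v_mul, v_sq, val_ubc, val_uab, val_ug] at h1
  rw [v_neg, v_nl, v_mul, v_sq, val_um, val_uab, val_ug2]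
  linear_combination h1

lemma uS3_ok {U V : ℂ} {H : List QC} (h : (uA3 H).Ok V U) : (uS3 H).Ok U V := by
  obtain ⟨c, h1, h2⟩ := h
  refine ⟨c, ?_, h2⟩
  change c * (ubc.val V U ^ 2 * ubc.val V U * uab.val V U ^ 2) = uy3.val V U ^ 2 at h1
  change c * (um.val U V ^ 2 * um.val U V * uab.val U V ^ 2) = uz3.val U V ^ 2
  rw [val_ubc, val_uab, val_uy3, val_ue, val_ug, val_un, pY3] at h1
  rw [val_um, val_uab, val_uz3, val_uf, val_ug2, val_un2, pY3]
  linear_combination h1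

lemma uG3_ok {U V : ℂ} (h : (uF3 zeroQ).Ok V U) : (uG3 zeroQ).Ok U V := by
  have h1 : uy3.val V U = 0 := zero_val rfl h
  rw [val_uy3, val_ue, val_ug, val_un, pY3] at h1
  refine zeroN rfl ?_
  change uz3.val U V = 0
  rw [val_uz3, val_uf, val_ug2, val_un2, pY3]
  linear_combination h1

lemma uG4_ok {U V : ℂ} (h : (uF4 zeroQ).Ok V U) : (uG4 zeroQ).Ok U V := by
  have h1 : uy4.val V U = 0 := zero_val rfl h
  rw [val_uy4, val_ue, val_ug, val_un, pY4] at h1
  refine zeroN rfl ?_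
  change uz4.val U V = 0
  rw [val_uz4, val_uf, val_ug2, val_un2, pY4]
  linear_combination h1

lemma uX3_ok {U V : ℂ} (h : (uX2 zeroQ).Ok V U) : (uX3 zeroQ).Ok U V := by
  have h1 : uX2e.val V U = 0 := zero_val rfl h
  rw [val_uX2e, pX] at h1
  refine zeroN rfl ?_
  change uX2r.val U V = 0
  rw [val_uX2r, pX]
  linear_combination h1

/-! ### outer values of the second neighbour on a side `a` -/

section
variable {U V W q p : ℂ} {H : List QC}

lemma m_eq {U V q : ℂ} (hq : -((U + I) * (V + I)) = q) : U ^ 2 + 1 - q = (U + I) * (U + V) := by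
  rw [← hq]
  linear_combination Complex.I_mul_I

lemma d2v (U q : ℂ) : (dr2 0 1).val U q = pD2 U (U ^ 2 + 1 - q) := by
  have hv := CN.Ev.val_dr2 U q 0 1
  apply mul_left_cancel₀ two_ne_zero
  rw [hv]
  simp only [DB, cab, pD2]
  push_cast
  ring

lemma d3v (U q : ℂ) : (dr3 0 1).val U q = pD3 U (U ^ 2 + 1 - q) := by
  have hv := CN.Ev.val_dr3 U q 0 1
  apply mul_left_cancel₀ two_ne_zero
  rw [hv]
  simp only [DB, cab, pD3]
  push_cast
  linear_combination (-2 * (4 - (U ^ 2 + 1 - q))) * Complex.I_mul_I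

lemma d4v (U q : ℂ) : (dr4 0 1).val U q = pD4 U (U ^ 2 + 1 - q) := by
  have hv := CN.Ev.val_dr4 U q 0 1
  apply mul_left_cancel₀ two_ne_zero
  rw [hv]
  simp only [DB, cab, pD4]
  push_cast
  linear_combination (-8 * (2 - (U ^ 2 + 1 - q))) * Complex.I_mul_I

lemma d5v (U q : ℂ) : (dr5 0 1).val U q = pD5 U (U ^ 2 + 1 - q) := by
  have hv := CN.Ev.val_dr5 U q 0 1
  apply mul_left_cancel₀ two_ne_zero
  rw [hv]
  simp only [DB, cab, pD5]
  push_cast
  linear_combination (-2 * ((U ^ 2 + 1 - q) ^ 2 - 12 * (U ^ 2 + 1 - q) + 16)) *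
    Complex.I_mul_I

section
variable (hq : -((U + I) * (V + I)) = q)
include hq

lemma uD2_ok (hg : (gD2 0 1 H).Ok U q) : (uD2 H).Ok U V := by
  obtain ⟨c, h1, h2⟩ := hg
  refine ⟨c, ?_, h2⟩
  change c * ((U ^ 2 + 1 - q) ^ (1 + 1) * q) = (dr2 0 1).val U q ^ 2 at h1
  change c * (Ev.gm 0 1 0 0 (.nl (.mul uab (.sq um)))).val U V = uD2e.val U V ^ 2
  rw [d2v, m_eq hq, ← hq] at h1
  rw [v_neg, v_nl, v_mul, v_sq, val_uD2e, val_um, val_uab]
  linear_combination h1

lemma uD3_ok (hg : (gD3 0 1 H).Ok U q) : (uD3 H).Ok U V := by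
  obtain ⟨c, h1, h2⟩ := hg
  refine ⟨c, ?_, h2⟩
  change c * ((U ^ 2 + 1 - q) ^ (2 + 1) * q) = (dr3 0 1).val U q ^ 2 at h1
  change c * (Ev.gm 0 1 0 0 (.nl (.mul uab (.mul (.sq um) um)))).val U V = uD3e.val U V ^ 2
  rw [d3v, m_eq hq, ← hq] at h1
  rw [v_neg, v_nl, v_mul, v_mul, v_sq, val_uD3e, val_um, val_uab]
  linear_combination h1

lemma uD4_ok (hg : (gD4 0 1 H).Ok U q) : (uD4 H).Ok U V := by
  obtain ⟨c, h1, h2⟩ := hg
  refine ⟨c, ?_, h2⟩
  change c * ((U ^ 2 + 1 - q) ^ (3 + 1) * q) = (dr4 0 1).val U q ^ 2 at h1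
  change c * (Ev.gm 0 1 0 0 (.nl (.mul uab (.sq (.sq um))))).val U V = uD4e.val U V ^ 2
  rw [d4v, m_eq hq, ← hq] at h1
  rw [v_neg, v_nl, v_mul, v_sq, v_sq, val_uD4e, val_um, val_uab]
  linear_combination h1

lemma uD5_ok (hg : (gD5 0 1 H).Ok U q) : (uD5 H).Ok U V := by
  obtain ⟨c, h1, h2⟩ := hg
  refine ⟨c, ?_, h2⟩
  change c * ((U ^ 2 + 1 - q) ^ (4 + 1) * q) = (dr5 0 1).val U q ^ 2 at h1
  change c * (Ev.gm 0 1 0 0 (.nl (.mul uab (.mul (.sq (.sq um)) um)))).val U V =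
    uD5e.val U V ^ 2
  rw [d5v, m_eq hq, ← hq] at h1
  rw [v_neg, v_nl, v_mul, v_mul, v_sq, v_sq, val_uD5e, val_um, val_uab]
  linear_combination h1

lemma uE2_ok (hg : (gE2 0 1).Ok U q) : (uE2 zeroQ).Ok U V := by
  have h1 : (dr2 0 1).val U q = 0 := zero_val rfl hg
  refine zeroN rfl ?_
  change uD2e.val U V = 0
  rw [val_uD2e, val_um, ← m_eq hq, ← d2v, h1]

lemma uE3_ok (hg : (gE3 0 1).Ok U q) : (uE3 zeroQ).Ok U V := by
  have h1 : (dr3 0 1).val U q = 0 := zero_val rfl hg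
  refine zeroN rfl ?_
  change uD3e.val U V = 0
  rw [val_uD3e, val_um, ← m_eq hq, ← d3v, h1]

lemma uE4_ok (hg : (gE4 0 1).Ok U q) : (uE4 zeroQ).Ok U V := by
  have h1 : (dr4 0 1).val U q = 0 := zero_val rfl hg
  refine zeroN rfl ?_
  change uD4e.val U V = 0
  rw [val_uD4e, val_um, ← m_eq hq, ← d4v, h1]

end

section
variable (h : PV U V W)
include h

lemma s_eq : vs.val V W = -((U - I) * (V + I)) := by
  rw [val_vs, h.fb]
  ring

lemma D2_eq : vD2e.val V W = (V + I) ^ 2 * uD2e.val U V := by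
  rw [val_vD2e, s_eq h, vn_eq h, val_vb, val_uD2e, val_um, pD2]
  linear_combination (2 * (V + I) ^ 2) * Complex.I_mul_I

lemma D3_eq : vD3e.val V W = (V + I) ^ 3 * uD3e.val U V := by
  rw [val_vD3e, s_eq h, vn_eq h, val_vb, val_uD3e, val_um, pD3]
  ring

lemma D4_eq : vD4e.val V W = (V + I) ^ 4 * uD4e.val U V := by
  rw [val_vD4e, s_eq h, vn_eq h, val_vb, val_uD4e, val_um, pD4]
  ring

lemma vD2_ok (hg : (uD2 H).Ok U V) : (vD2 H).Ok V W := by
  obtain ⟨c, h1, h2⟩ := hg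
  refine ⟨c, ?_, h2⟩
  change c * (Ev.gm 0 1 0 0 (.nl (.mul uab (.sq um)))).val U V = uD2e.val U V ^ 2 at h1
  rw [v_neg, v_nl, v_mul, v_sq, val_um, val_uab] at h1
  change c * (vn.val V W ^ 2 * vre.val V W) = vD2e.val V W ^ 2
  rw [D2_eq h, vn_eq h, val_vre, h.e]
  linear_combination (V + I) ^ 4 * h1

lemma vE2_ok (hg : (uE2 zeroQ).Ok U V) : (vE2 zeroQ).Ok V W := by
  have h1 : uD2e.val U V = 0 := zero_val rfl hg
  refine zeroN rfl ?_
  change vD2e.val V W = 0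
  rw [D2_eq h, h1, mul_zero]

lemma vE3_ok (hg : (uE3 zeroQ).Ok U V) : (vE3 zeroQ).Ok V W := by
  have h1 : uD3e.val U V = 0 := zero_val rfl hg
  refine zeroN rfl ?_
  change vD3e.val V W = 0
  rw [D3_eq h, h1, mul_zero]

lemma vE4_ok (hg : (uE4 zeroQ).Ok U V) : (vE4 zeroQ).Ok V W := by
  have h1 : uD4e.val U V = 0 := zero_val rfl hg
  refine zeroN rfl ?_
  change vD4e.val V W = 0
  rw [D4_eq h, h1, mul_zero]

end

end

/-! ### exponentials -/

section
variable {U V W yU yV yW : ℂ} (h : PV U V W)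
  (eU : cexp (2 * Real.pi * I * yU) * (U - I) = U + I)
  (eV : cexp (2 * Real.pi * I * yV) * (V - I) = V + I)
  (eW : cexp (2 * Real.pi * I * yW) * (W - I) = W + I)

/-- the exponential of a hinge, in the variables `U`, `V` -/
def EG (E : ℂ) (g : Grp) (u w : ℂ) : Prop := E * g.M.val u w = g.N.val u w

include eV in
lemma eugT (H : List QC) : EG (cexp (2 * Real.pi * I * yV)) (ugT H) U V := by
  change _ * ue.val U V = ub.val U V
  rw [val_ue, val_ub, eV]

include h eW in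
lemma eugK (H : List QC) : EG (cexp (2 * Real.pi * I * yW)) (ugK H) U V := by
  change _ * ubc.val U V = ug.val U V
  have e2 := h.he
  rw [val_ubc, val_ug, h.pe', ← eW]
  linear_combination (cexp (2 * Real.pi * I * yW)) * e2

include eU in
lemma eugR (H : List QC) : EG (cexp (2 * Real.pi * I * yU)) (ugR H) U V := by
  change _ * uf.val U V = ua.val U V
  rw [val_uf, val_ua, eU]

include h eV eW in
lemma eugA (H : List QC) : EG (cexp (2 * Real.pi * I * (yV + yW))) (ugA H) U V := by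
  have e1 := eugK h eW H
  change _ * ubc.val U V = ug.val U V at e1
  change _ * (ue.val U V * uc.val U V) = ug.val U V
  rw [← e1, val_ubc, val_ue, val_uc, mul_add, Complex.exp_add]
  linear_combination (cexp (2 * Real.pi * I * yW) * (U + V)) * eV

include eU eV in
lemma eugB (H : List QC) : EG (cexp (2 * Real.pi * I * (yV + yU))) (ugB H) U V := by
  change _ * (ue.val U V * uf.val U V) = uab.val U V
  rw [val_ue, val_uf, val_uab, mul_add, Complex.exp_add, ← eU]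
  linear_combination (cexp (2 * Real.pi * I * yU) * (U - I)) * eV

include h eU eW in
lemma eugC (H : List QC) : EG (cexp (2 * Real.pi * I * (yU - yW))) (ugC H) U V := by
  have e1 := eugK h eW H
  change _ * ubc.val U V = ug.val U V at e1
  change _ * (uf.val U V * ug.val U V) = uab.val U V * uc.val U V
  rw [← e1, val_ubc, val_uf, val_uab, val_uc, mul_sub, Complex.exp_sub, ← eU]
  have := Complex.exp_ne_zero (2 * Real.pi * I * yW)
  field_simp

include eV in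
lemma evgT (H : List QC) : EG (cexp (2 * Real.pi * I * yV)) (vgT H) V W := by
  change _ * ve.val V W = vb.val V W
  rw [val_ve, val_vb, eV]

include eW in
lemma evgK (H : List QC) : EG (cexp (2 * Real.pi * I * yW)) (vgK H) V W := by
  change _ * vh.val V W = vi.val V W
  rw [val_vh, val_vi, eW]

include h eU in
lemma evgR (H : List QC) : EG (cexp (2 * Real.pi * I * yU)) (vgR H) V W := by
  change _ * vs.val V W = vre.val V W
  rw [s_eq h, val_vre, h.e, ← eU]
  ring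

include eV eW in
lemma evgA (H : List QC) : EG (cexp (2 * Real.pi * I * (yV + yW))) (vgA H) V W := by
  change _ * (ve.val V W * vh.val V W) = vb.val V W * vi.val V W
  rw [val_ve, val_vh, val_vb, val_vi, mul_add, Complex.exp_add, ← eV, ← eW]
  ring

include h eU eV in
lemma evgB (H : List QC) : EG (cexp (2 * Real.pi * I * (yV + yU))) (vgB H) V W := by
  have e1 := evgR h eU H
  change _ * vs.val V W = vre.val V W at e1
  change _ * vs.val V W = vb.val V W * vr.val V W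
  rw [mul_add, Complex.exp_add, mul_assoc, e1, val_vre, val_vb, val_vr, ← eV]
  ring

include h eU eW in
lemma evgC (H : List QC) : EG (cexp (2 * Real.pi * I * (yU - yW))) (vgC H) V W := by
  have e1 := evgR h eU H
  change _ * vs.val V W = vre.val V W at e1
  change _ * (vs.val V W * vi.val V W) = vre.val V W * vh.val V W
  rw [mul_sub, Complex.exp_sub, ← e1, val_vi, val_vh, ← eW]
  have := Complex.exp_ne_zero (2 * Real.pi * I * yW)
  field_simp

end

end

end Pool.Agent.Work.MP_b30479_gt.G2.CN.PW
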