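import Pool.Agent.Work.MP_b30479_gt.G2.CN.PDat
import Pool.Agent.Work.MP_b30479_gt.G2.CN.PLnk

/-!
# Two adjacent digits `1`: classes of the neighbours and use of the runs
-/

namespace Pool.Agent.Work.MP_b30479_gt.G2.CN.PW

open Complex SR NumI CN.Ev S6

noncomputable section

/-- the groups of a neighbour -/
structure NC where
  own : List QC
  V : List Grp
  U : List Grp

/-! ### the absorbed side -/

/-- digit `1`, the end digit `2` behind it -/
def p1X : NC := ⟨H2as, [vA2 (mirH h2ea), vX2 zeroQ], [uA2 (mirH h2ea), uX2 zeroQ]⟩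
/-- digit `1`, not the end digit `2` behind it -/
def p1Y : NC := ⟨H2as, [vA2 (mirH HPA1x)], [uA2 (mirH HPA1x)]⟩
/-- digit `1`, two split sides -/
def p1s : NC := ⟨H3ss, [vA3 HPS2], [uA3 HPS2]⟩
/-- digit `2`, end -/
def p2e : NC := ⟨H3es, [vF3 zeroQ], [uF3 zeroQ]⟩
/-- digit `2` -/
def p2a : NC := ⟨H3as, [vA3 (mirH HPA2)], [uA3 (mirH HPA2)]⟩
/-- digit `2`, two split sides -/
def p2s : NC := ⟨H4ss, [vA4 HPS2], []⟩
/-- digit `3`, end -/
def p3e : NC := ⟨H4es, [vF4 zeroQ], [uF4 zeroQ]⟩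
/-- digit `3` -/
def p3a : NC := ⟨H4as, [vA4 (mirH HPA2)], []⟩
/-- digit `3`, two split sides -/
def p3s : NC := ⟨H5ss, [vA5 HPS3], []⟩
/-- digits at least `4` -/
def pZ : NC := ⟨HZS, [], []⟩
/-- digit `4`, `5` crossings -/
def pZ5 : NC := ⟨HZ5, [], []⟩
/-- at least `6` crossings -/
def pZL : NC := ⟨HZL, [], []⟩

/-! ### the second neighbour, side `a` -/

/-- digit `2`, end -/
def q2e : NC := ⟨mirH h2ea, [vE2 zeroQ], [uE2 zeroQ]⟩
/-- digit `2` -/
def q2a : NC := ⟨mirH h2aa, [vD2 hA2], [uD2 hA2]⟩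
/-- digit `2`, split side -/
def q2s : NC := ⟨mirH h3as, [], [uD3 (mirH hS2)]⟩
/-- digit `3`, end -/
def q3e : NC := ⟨mirH h3ea, [vE3 zeroQ], [uE3 zeroQ]⟩
/-- digit `3` -/
def q3a : NC := ⟨mirH h3aa, [], [uD3 hA2]⟩
/-- digit `3`, split side -/
def q3s : NC := ⟨mirH h4as, [], [uD4 (mirH hS3)]⟩
/-- digit `4`, end -/
def q4e : NC := ⟨mirH h4ea, [vE4 zeroQ], [uE4 zeroQ]⟩
/-- digit `4` -/
def q4a : NC := ⟨mirH h4aa, [], [uD4 hA2]⟩
/-- digit `4`, side `z` -/
def q4z : NC := ⟨mirH h4az, [], [uD4 (mirH hPZ)]⟩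
/-- digit `4`, split side -/
def q4s : NC := ⟨mirH h5as, [], [uD5 (mirH hS3)]⟩
/-- digits at least `5` -/
def q5 : NC := ⟨mirH hn5, [], []⟩

/-! ### the second neighbour, side `s` -/

/-- all rings -/
def r2 : NC := ⟨HPS2, [], []⟩
/-- without the end digit `2` -/
def r3 : NC := ⟨HPS2x, [], []⟩
/-- without the end digit `2` and the digit `1` with one split side -/
def r4 : NC := ⟨HPSTx, [], []⟩
/-- the end digit `2` -/
def r2e : NC := ⟨H3es, [], [uG3 zeroQ]⟩
/-- digit `1` with one split side -/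
def r1a : NC := ⟨H2as, [], [uS2 (mirH HPA1)]⟩
/-- digit `1` with one split side, the end digit `2` behind it -/
def r1X : NC := ⟨H2as, [], [uS2 (mirH h2ea), uX3 zeroQ]⟩
/-- digit `1` with one split side, not the end digit `2` behind it -/
def r1Y : NC := ⟨H2as, [], [uS2 (mirH HPA1x)]⟩

/-- digit `3`, end -/
def r3e : NC := ⟨H4es, [], [uG4 zeroQ]⟩
/-- digit `2` -/
def r2a : NC := ⟨H3as, [], [uS3 (mirH HPA2)]⟩
/-- digit `2`, two split sides -/
def r2s : NC := ⟨H4ss, [], []⟩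
/-- digits at least `4` -/
def rZ : NC := ⟨HZS, [], []⟩

/-- the groups, side `a` -/
def aU (P Q : NC) : List Grp := uJ H2as :: uP P.own :: uQ Q.own :: (P.U ++ Q.U)
/-- the groups, side `a` -/
def aV (P Q : NC) : List Grp := vJ H2as :: vP P.own :: vQ Q.own :: (P.V ++ Q.V)
/-- the groups, side `s` -/
def sU (P Q : NC) : List Grp := uJ H3ss :: uP P.own :: uR Q.own :: (P.U ++ Q.U)
/-- the groups, side `s` -/
def sV (P Q : NC) : List Grp := vJ H3ss :: vP P.own :: vR Q.own :: (P.V ++ Q.V)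

/-! ### selection -/

/-- the elements selected by the binary digits of `m` -/
def pk {α : Type} (l : List α) : ℕ → List α :=
  @List.rec α (fun _ => ℕ → List α) (fun _ => [])
    (fun a _ ih m => @cond (List α) (Nat.beq (Nat.mod m 2) 1) (a :: ih (Nat.div m 2))
      (ih (Nat.div m 2))) l

lemma pk_cons {α : Type} (a : α) (l : List α) (m : ℕ) : pk (a :: l) m =
    cond (Nat.beq (Nat.mod m 2) 1) (a :: pk l (Nat.div m 2)) (pk l (Nat.div m 2)) := rfl

lemma pk_sub {α : Type} {x : α} : ∀ (l : List α) (m : ℕ), x ∈ pk l m → x ∈ l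
  | [], _, h => absurd h List.not_mem_nil
  | a :: l, m, h => by
    rw [pk_cons] at h
    cases hb : Nat.beq (Nat.mod m 2) 1
    · rw [hb, cond_false] at h
      exact List.mem_cons_of_mem _ (pk_sub l _ h)
    · rw [hb, cond_true] at h
      rcases List.mem_cons.1 h with rfl | h'
      · exact List.mem_cons_self
      · exact List.mem_cons_of_mem _ (pk_sub l _ h')

/-- every element is selected by one of the two numbers -/
def cv {α : Type} (l : List α) : ℕ → ℕ → Bool :=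
  @List.rec α (fun _ => ℕ → ℕ → Bool) (fun _ _ => true)
    (fun _ _ ih m n => (Nat.beq (Nat.mod m 2) 1 || Nat.beq (Nat.mod n 2) 1) &&
      ih (Nat.div m 2) (Nat.div n 2)) l

lemma cv_mem {α : Type} {x : α} : ∀ (l : List α) (m n : ℕ), cv l m n = true → x ∈ l →
    x ∈ pk l m ∨ x ∈ pk l n
  | [], _, _, _, h => absurd h List.not_mem_nil
  | a :: l, m, n, hc, h => by
    have hc' : ((Nat.beq (Nat.mod m 2) 1 || Nat.beq (Nat.mod n 2) 1) &&
      cv l (Nat.div m 2) (Nat.div n 2)) = true := hc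
    rw [Bool.and_eq_true, Bool.or_eq_true] at hc'
    obtain ⟨h1, h2⟩ := hc'
    rw [pk_cons, pk_cons]
    rcases List.mem_cons.1 h with rfl | h'
    · rcases h1 with h1 | h1
      · left
        rw [h1, cond_true]
        exact List.mem_cons_self
      · right
        rw [h1, cond_true]
        exact List.mem_cons_self
    · rcases cv_mem l _ _ h2 h' with h3 | h3
      · left
        cases Nat.beq (Nat.mod m 2) 1
        · exact h3
        · exact List.mem_cons_of_mem _ h3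
      · right
        cases Nat.beq (Nat.mod n 2) 1
        · exact h3
        · exact List.mem_cons_of_mem _ h3

/-- fewer conditions -/
def Grp.pk (g : Grp) (m : ℕ) : Grp := ⟨g.N, g.M, g.hd, PW.pk g.H m⟩

/-- fewer conditions in every group -/
def pks (ms : List ℕ) : List Grp → List Grp :=
  @List.rec ℕ (fun _ => List Grp → List Grp) (fun _ => [])
    (fun m _ ih l => @List.rec Grp (fun _ => List Grp) [] (fun g l' _ => Grp.pk g m :: ih l') l) ms

lemma Grp.pk_ok {g : Grp} {u w : ℂ} (h : g.Ok u w) (m : ℕ) : (Grp.pk g m).Ok u w := by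
  obtain ⟨c, h1, h2⟩ := h
  exact ⟨c, h1, fun Q hQ => h2 Q (pk_sub _ _ hQ)⟩

lemma pks_ok {u w : ℂ} : ∀ (ms : List ℕ) (l : List Grp), AllOk u w l → AllOk u w (pks ms l)
  | [], _, _ => AllOk.nil
  | _ :: _, [], _ => AllOk.nil
  | m :: ms, g :: l, h => AllOk.cons (Grp.pk_ok (h g List.mem_cons_self) m)
      (pks_ok ms l fun x hx => h x (List.mem_cons_of_mem _ hx))

/-! ### bounds -/

/-- the conditions of one kind -/
def kd (i : ℕ) (l : List (ℕ × GC)) : List QC :=
  @List.rec (ℕ × GC) (fun _ => List QC) []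
    (fun a _ ih => @cond (List QC) (Nat.beq a.1 i) (a.2.q :: ih) ih) l

lemma kd_mem {i : ℕ} {x : ℕ × GC} (hi : x.1 = i) : ∀ (l : List (ℕ × GC)), x ∈ l →
    x.2.q ∈ kd i l
  | [], h => absurd h List.not_mem_nil
  | a :: l, h => by
    have e : kd i (a :: l) = cond (Nat.beq a.1 i) (a.2.q :: kd i l) (kd i l) := rfl
    rw [e]
    rcases List.mem_cons.1 h with rfl | h'
    · rw [hi, Nat.beq_refl, cond_true]
      exact List.mem_cons_self
    · have := kd_mem hi l h'
      cases Nat.beq a.1 i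
      · exact this
      · exact List.mem_cons_of_mem _ this

/-- the goals, variables `U`, `V` -/
def goU (l : List (ℕ × GC)) : List Grp :=
  [ugT (kd 0 l), ugK (kd 1 l), ugR (kd 2 l), ugA (kd 3 l), ugB (kd 4 l), ugC (kd 5 l)]
/-- the goals, variables `V`, `W` -/
def goV (l : List (ℕ × GC)) : List Grp :=
  [vgT (kd 0 l), vgK (kd 1 l), vgR (kd 2 l), vgA (kd 3 l), vgB (kd 4 l), vgC (kd 5 l)]

/-- the variable of a kind -/
def yk (yU yV yW : ℂ) : ℕ → ℂ
  | 0 => yV
  | 1 => yW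
  | 2 => yU
  | 3 => yV + yW
  | 4 => yV + yU
  | _ => yU - yW

/-- all bounds hold -/
def Bd (yU yV yW : ℂ) (l : List (ℕ × GC)) : Prop := ∀ x ∈ l, x.2.P (yk yU yV yW x.1)

/-- the check of the bounds -/
def okL (l : List (ℕ × GC)) : Bool := l.all fun x => x.2.ok && Nat.ble x.1 5

lemma Bd.sub {yU yV yW : ℂ} {l l' : List (ℕ × GC)} (h : Bd yU yV yW l)
    (hs : ∀ x ∈ l', x ∈ l) : Bd yU yV yW l' := fun x hx => h x (hs x hx)

/-- two parts give all bounds -/
lemma Bd.join {yU yV yW : ℂ} {l : List (ℕ × GC)} {m n : ℕ} (h : Bd yU yV yW (pk l m))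
    (h' : Bd yU yV yW (pk l n)) (hc : cv l m n = true) : Bd yU yV yW l := by
  intro x hx
  rcases cv_mem l m n hc hx with h1 | h1
  · exact h x h1
  · exact h' x h1

/-- a rectangle -/
structure RC where
  x0 : ℕ
  x1 : ℕ
  y0 : ℕ
  y1 : ℕ

/-- the point is in the rectangle -/
def RC.Mem (c : RC) (z : ℂ) : Prop := InI c.x0 c.x1 z.re ∧ InI c.y0 c.y1 z.im

/-- the product of two rectangles -/
def RC.cell (a b : RC) : Cell := ⟨a.x0, a.x1, a.y0, a.y1, b.x0, b.x1, b.y0, b.y1⟩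

lemma RC.cell_mem {a b : RC} {u w : ℂ} (h : a.Mem u) (h' : b.Mem w) : (a.cell b).Mem u w :=
  ⟨h.1, h.2, h'.1, h'.2⟩

/-- the data at a pair of digits `1` -/
structure Dat (gU gV : List Grp) (cU cV cW : RC) (U V W yU yV yW : ℂ) : Prop where
  pv : PV U V W
  eU : cexp (2 * Real.pi * I * yU) * (U - I) = U + I
  eV : cexp (2 * Real.pi * I * yV) * (V - I) = V + I
  eW : cexp (2 * Real.pi * I * yW) * (W - I) = W + I
  gu : AllOk U V gU
  gv : AllOk V W gV
  mU : cU.Mem U
  mV : cV.Mem V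
  mW : cW.Mem W

section
variable {gU gV : List Grp} {cU cV cW : RC} {U V W yU yV yW : ℂ}
  (D : Dat gU gV cU cV cW U V W yU yV yW)
include D

lemma kinds {i : ℕ} (hi : i ≤ 5) {l : List (ℕ × GC)} :
    ∃ g ∈ goU l, g.H = kd i l ∧
      EG (cexp (2 * Real.pi * I * yk yU yV yW i)) g U V := by
  have h : i = 0 ∨ i = 1 ∨ i = 2 ∨ i = 3 ∨ i = 4 ∨ i = 5 := by omega
  rcases h with rfl | rfl | rfl | rfl | rfl | rfl
  · exact ⟨ugT (kd 0 l), by simp only [goU, List.mem_cons, true_or], rfl,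
      eugT (U := U) D.eV _⟩
  · exact ⟨ugK (kd 1 l), by simp only [goU, List.mem_cons, true_or, or_true], rfl,
      eugK D.pv D.eW _⟩
  · exact ⟨ugR (kd 2 l), by simp only [goU, List.mem_cons, true_or, or_true], rfl,
      eugR (V := V) D.eU _⟩
  · exact ⟨ugA (kd 3 l), by simp only [goU, List.mem_cons, true_or, or_true], rfl,
      eugA D.pv D.eV D.eW _⟩
  · exact ⟨ugB (kd 4 l), by simp only [goU, List.mem_cons, true_or, or_true], rfl,
      eugB D.eU D.eV _⟩
  · exact ⟨ugC (kd 5 l), by simp only [goU, List.mem_cons, true_or, or_true], rfl,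
      eugC D.pv D.eU D.eW _⟩

lemma kindsV {i : ℕ} (hi : i ≤ 5) {l : List (ℕ × GC)} :
    ∃ g ∈ goV l, g.H = kd i l ∧
      EG (cexp (2 * Real.pi * I * yk yU yV yW i)) g V W := by
  have h : i = 0 ∨ i = 1 ∨ i = 2 ∨ i = 3 ∨ i = 4 ∨ i = 5 := by omega
  rcases h with rfl | rfl | rfl | rfl | rfl | rfl
  · exact ⟨vgT (kd 0 l), by simp only [goV, List.mem_cons, true_or], rfl,
      evgT (W := W) D.eV _⟩
  · exact ⟨vgK (kd 1 l), by simp only [goV, List.mem_cons, true_or, or_true], rfl,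
      evgK (V := V) D.eW _⟩
  · exact ⟨vgR (kd 2 l), by simp only [goV, List.mem_cons, true_or, or_true], rfl,
      evgR D.pv D.eU _⟩
  · exact ⟨vgA (kd 3 l), by simp only [goV, List.mem_cons, true_or, or_true], rfl,
      evgA D.eV D.eW _⟩
  · exact ⟨vgB (kd 4 l), by simp only [goV, List.mem_cons, true_or, or_true], rfl,
      evgB D.pv D.eU D.eV _⟩
  · exact ⟨vgC (kd 5 l), by simp only [goV, List.mem_cons, true_or, or_true], rfl,
      evgC D.pv D.eU D.eW _⟩

/-- a run in the variables `U`, `V` -/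
theorem runU {ms : List ℕ} {l : List (ℕ × GC)} {n code : ℕ} (ho : okL l = true)
    (hr : row (pks ms gU) (goU l) n code (cU.cell cV) = true) : Bd yU yV yW l := by
  intro x hx
  have h1 := List.all_eq_true.1 ho x hx
  rw [Bool.and_eq_true, Nat.ble_eq] at h1
  refine GC.spec h1.1 ?_
  obtain ⟨g, hg, hH, he⟩ := kinds D h1.2 (l := l)
  refine row_sound hr (RC.cell_mem D.mU D.mV) (pks_ok ms gU D.gu) hg he _ ?_
  rw [hH]
  exact kd_mem rfl l hx

/-- a run in the variables `V`, `W` -/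
theorem runV {ms : List ℕ} {l : List (ℕ × GC)} {n code : ℕ} (ho : okL l = true)
    (hr : row (pks ms gV) (goV l) n code (cV.cell cW) = true) : Bd yU yV yW l := by
  intro x hx
  have h1 := List.all_eq_true.1 ho x hx
  rw [Bool.and_eq_true, Nat.ble_eq] at h1
  refine GC.spec h1.1 ?_
  obtain ⟨g, hg, hH, he⟩ := kindsV D h1.2 (l := l)
  refine row_sound hr (RC.cell_mem D.mV D.mW) (pks_ok ms gV D.gv) hg he _ ?_
  rw [hH]
  exact kd_mem rfl l hx

end

end

end Pool.Agent.Work.MP_b30479_gt.G2.CN.PW
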