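import Pool.Agent.Work.MP_b30479_gt.G2.CN.SCls
import Pool.Agent.Work.MP_b30479_gt.G2.SWordJ

/-!
# Split hinges: cases
-/

namespace Pool.Agent.Work.MP_b30479_gt.G2.CN.S6

open Complex SR NumI

/-- the cases of a ring at a split hinge -/
inductive CS
  | s1a | s1s | s2e | s2a | s2s | s3e | s3a | s3s | s4e | s4a | s4z | s4s | s5 | s6
  deriving DecidableEq

namespace CS

/-- the ring is in the case -/
def Has (d : ℕ) (l : SK) : CS → Prop
  | .s1a => d = 1 ∧ l = .a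
  | .s1s => d = 1 ∧ l = .s
  | .s2e => d = 2 ∧ l = .e
  | .s2a => d = 2 ∧ l = .a
  | .s2s => d = 2 ∧ l = .s
  | .s3e => d = 3 ∧ l = .e
  | .s3a => d = 3 ∧ l = .a
  | .s3s => d = 3 ∧ l = .s
  | .s4e => d = 4 ∧ l = .e
  | .s4a => d = 4 ∧ l = .a
  | .s4z => d = 4 ∧ l = .z
  | .s4s => d = 4 ∧ l = .s
  | .s5 => d = 5
  | .s6 => 6 ≤ d

/-- the class of the region -/
def cl : CS → Cl
  | .s1a | .s1s => .one
  | .s2e => .twoE
  | .s2a | .s2s => .two
  | .s3e => .threeE
  | .s3a | .s3s => .three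
  | _ => .ring

/-- the digit, at most `6` -/
def dig : CS → ℕ
  | .s1a | .s1s => 1
  | .s2e | .s2a | .s2s => 2
  | .s3e | .s3a | .s3s => 3
  | .s4e | .s4a | .s4z | .s4s => 4
  | .s5 => 5
  | .s6 => 6

lemma has_of {d : ℕ} {l : SK} (h : ROK d l .s) : ∃ c : CS, c.Has d l := by
  have h1 := h.pos
  have h2 := h.one
  have h3 := h.zl
  rcases Nat.lt_or_ge d 6 with h5 | h5
  · have h6 : d = 1 ∨ d = 2 ∨ d = 3 ∨ d = 4 ∨ d = 5 := by omega
    rcases h6 with rfl | rfl | rfl | rfl | rfl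
    · cases l
      · exact absurd rfl (h2 rfl).2.1
      · exact ⟨.s1a, rfl, rfl⟩
      · exact absurd (h3 rfl) (by decide)
      · exact ⟨.s1s, rfl, rfl⟩
    · cases l
      · exact ⟨.s2e, rfl, rfl⟩
      · exact ⟨.s2a, rfl, rfl⟩
      · exact absurd (h3 rfl) (by decide)
      · exact ⟨.s2s, rfl, rfl⟩
    · cases l
      · exact ⟨.s3e, rfl, rfl⟩
      · exact ⟨.s3a, rfl, rfl⟩
      · exact absurd (h3 rfl) (by decide)
      · exact ⟨.s3s, rfl, rfl⟩
    · cases l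
      · exact ⟨.s4e, rfl, rfl⟩
      · exact ⟨.s4a, rfl, rfl⟩
      · exact ⟨.s4z, rfl, rfl⟩
      · exact ⟨.s4s, rfl, rfl⟩
    · exact ⟨.s5, rfl⟩
  · exact ⟨.s6, h5⟩

lemma dig_of {c : CS} {d : ℕ} {l : SK} (h : c.Has d l) : min d 6 = c.dig := by
  cases c
  case s5 => rw [show d = 5 from h]; rfl
  case s6 => exact min_eq_right h
  all_goals
    obtain ⟨rfl, rfl⟩ := h
    rfl

lemma cl_eq {c : CS} {d : ℕ} {l : SK} (h : c.Has d l) : cK d l = c.cl := by
  cases c
  case s5 => rw [show d = 5 from h]; rfl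
  case s6 =>
    have h' : 6 ≤ d := h
    unfold cK
    rw [if_neg (by omega), if_neg (by omega), if_neg (by omega)]
    rfl
  all_goals
    obtain ⟨rfl, rfl⟩ := h
    rfl

noncomputable section

/-- the class -/
def cE : CS → Cls
  | .s1a => c1a
  | .s1s => c1s
  | .s2e => c2e
  | .s2a => c2a
  | .s2s => c2s
  | .s3e => c3e
  | .s3a => c3a
  | .s3s => c3s
  | .s4e => c4e
  | .s4a => c4a
  | .s4z => c4z
  | .s4s => c4s
  | .s5 => cD5
  | .s6 => cZL

/-- at least `6` crossings: one class -/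
def cL : CS → Cls
  | .s4s | .s5 | .s6 => cZL
  | c => c.cE

/-- digit `4` with `5` crossings: one class -/
def cM : CS → Cls
  | .s4e | .s4a | .s4z => cZ5
  | c => c.cL

/-- digits at least `4`: one class -/
def cZ : CS → Cls
  | .s4e | .s4a | .s4z | .s4s | .s5 | .s6 => cZS
  | c => c.cE

end

section
variable {c : CS} {d : ℕ} {l : SK}

lemma okE (h : c.Has d l) : c.cE.Ok .s d l := by
  cases c
  case s5 =>
    obtain rfl : d = 5 := h
    exact cD5_ok
  case s6 =>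
    have h' : 6 ≤ d := h
    exact cZL_ok (by unfold crs; omega)
  case s1a => obtain ⟨rfl, rfl⟩ := h; exact c1a_ok
  case s1s => obtain ⟨rfl, rfl⟩ := h; exact c1s_ok
  case s2e => obtain ⟨rfl, rfl⟩ := h; exact c2e_ok
  case s2a => obtain ⟨rfl, rfl⟩ := h; exact c2a_ok
  case s2s => obtain ⟨rfl, rfl⟩ := h; exact c2s_ok
  case s3e => obtain ⟨rfl, rfl⟩ := h; exact c3e_ok
  case s3a => obtain ⟨rfl, rfl⟩ := h; exact c3a_ok
  case s3s => obtain ⟨rfl, rfl⟩ := h; exact c3s_ok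
  case s4e => obtain ⟨rfl, rfl⟩ := h; exact c4e_ok
  case s4a => obtain ⟨rfl, rfl⟩ := h; exact c4a_ok
  case s4z => obtain ⟨rfl, rfl⟩ := h; exact c4z_ok
  case s4s => obtain ⟨rfl, rfl⟩ := h; exact c4s_ok

lemma okL (h : c.Has d l) : c.cL.Ok .s d l := by
  cases c
  case s5 =>
    obtain rfl : d = 5 := h
    exact cZL_ok (by unfold crs; rw [show SK.s.u = 1 from rfl]; omega)
  case s4s =>
    obtain ⟨rfl, rfl⟩ := h
    exact cZL_ok (by decide)
  all_goals exact okE h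

lemma okM (h : c.Has d l) : c.cM.Ok .s d l := by
  cases c
  case s4e => obtain ⟨rfl, rfl⟩ := h; exact cZ5_ok (by decide)
  case s4a => obtain ⟨rfl, rfl⟩ := h; exact cZ5_ok (by decide)
  case s4z => obtain ⟨rfl, rfl⟩ := h; exact cZ5_ok (by decide)
  all_goals exact okL h

lemma okZ (h : c.Has d l) : c.cZ.Ok .s d l := by
  cases c
  case s4e => obtain ⟨rfl, rfl⟩ := h; exact cZS_ok le_rfl
  case s4a => obtain ⟨rfl, rfl⟩ := h; exact cZS_ok le_rfl
  case s4z => obtain ⟨rfl, rfl⟩ := h; exact cZS_ok le_rfl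
  case s4s => obtain ⟨rfl, rfl⟩ := h; exact cZS_ok le_rfl
  case s5 =>
    obtain rfl : d = 5 := h
    exact cZS_ok (by norm_num)
  case s6 =>
    have h' : 6 ≤ d := h
    exact cZS_ok (by omega)
  all_goals exact okE h

end

/-- the possible pairs -/
def adm (c c' : CS) : Bool :=
  (Nat.ble c.dig 2 || Nat.ble c'.dig 2) && !(decide (c = .s1a) && decide (c' = .s1a))

lemma adm_of {c c' : CS} {d : ℕ} {l : SK} {d' : ℕ} {l' : SK} (h : c.Has d l) (h' : c'.Has d' l')
    (ho : HOK .s d l d' l') : adm c c' = true := by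
  have h1 := dig_of h
  have h2 := dig_of h'
  have h3 := ho.one rfl
  have h4 := ho.abs rfl
  unfold adm
  rw [Bool.and_eq_true, Bool.or_eq_true, Nat.ble_eq, Nat.ble_eq]
  refine ⟨by omega, ?_⟩
  rw [Bool.not_eq_true', Bool.and_eq_false_iff]
  by_contra hc
  push Not at hc
  obtain ⟨h5, h6⟩ := hc
  have e1 : c = .s1a := by simpa using h5
  have e2 : c' = .s1a := by simpa using h6
  subst e1 e2
  obtain ⟨rfl, rfl⟩ := h
  obtain ⟨rfl, rfl⟩ := h'
  exact absurd h4 (by decide)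

end CS

/-! ### symmetry -/

/-- a split hinge, seen from the other side -/
lemma rev_s {K : KFam} {d : ℕ} {l : SK} {d' : ℕ} {l' : SK} {R k k' : ℂ}
    (h : HDt K .s d l d' l' R k k') : HDt K .s d' l' d l R k' k := by
  have h1 := h.rev
  rw [show SK.s.sgn = 1 from rfl, fz_one, fz_one, fz_one] at h1
  exact h1

end Pool.Agent.Work.MP_b30479_gt.G2.CN.S6
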