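import Pool.Agent.Work.MP_b30479_gt.G2.SWordP
import Pool.Agent.Work.MP_b30479_gt.G2.CN.HUn
import Pool.Agent.Work.MP_b30479_gt.G2.CN.M3Dat
import Pool.Agent.Work.MP_b30479_gt.G2.CN.PGrp
import Pool.Agent.Work.MP_b30479_gt.G2.CN.SCas

/-!
# Two adjacent digits `1`: the groups of the neighbours hold
-/

namespace Pool.Agent.Work.MP_b30479_gt.G2.CN.PW

open Complex SR NumI CN.Ev S6

noncomputable section

/-- the facts about a neighbour -/
structure NOk (c : NC) (k U V W : ℂ) : Prop where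
  own : Sat c.own (k ^ 2)
  U : AllOk U V c.U
  V : AllOk V W c.V

section
variable {K : KFam} (hK : KOK K) {r : SK} {dl : ℕ} {ll : SK} {dr : ℕ} {rr : SK} {w kl kr : ℂ}
  (h : RDt K 1 .s r dl ll dr rr w kl kr)
include hK h

/-- the value of the absorbed side -/
lemma ownL {c : Cls} (hc : c.Ok .s dl ll) : Sat c.own (kl ^ 2) := by
  have h1 := inH_ownR (x := .s) (hc.own hK h.left.ok.right.symm)
  rw [← K.symm] at h1
  exact h1 kl h.left.mem'

/-- the outer value of the absorbed side -/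
lemma farL {c : Cls} (hc : c.Ok .s dl ll) : AllOk (RR w kl) (1 / Complex.cos w ^ 2) c.R := by
  have hq : RR w kl ^ 2 + 1 - 1 / Complex.cos w ^ 2 = 1 / kl ^ 2 := by
    rw [h.left.hinge]
    ring
  have h2 := h.left.out'
  rw [crs_symm] at h2
  exact hc.R hK hq h2

end

section
variable {K : KFam} {r : SK} {dl : ℕ} {ll : SK} {dr : ℕ} {rr : SK} {w kl kr : ℂ}
  (h : RDt K 1 .s r dl ll dr rr w kl kr)
include h

lemma sumL : Sp (RR w kl) (Complex.cos w) + Sp (RR w kl) kl = RR w kl + I :=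
  sp_sum (add_I_ne h.left.Rre) h.left.hinge

lemma hqL : RR w kl ^ 2 + 1 - 1 / Complex.cos w ^ 2 = 1 / kl ^ 2 := by
  rw [h.left.hinge]
  ring

end

/-- the hinges of the absorbed digit and the other hinge -/
abbrev hV (w kl : ℂ) : ℂ := Sp (RR w kl) (Complex.cos w)
/-- the outer hinge of the absorbed digit -/
abbrev hW (w kl : ℂ) : ℂ := Sp (RR w kl) kl
/-- the other hinge of the digit `1` -/
abbrev hU (r : SK) (w kr : ℂ) : ℂ := Hq r (RR w kr) (Complex.cos w)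

/-! ### the absorbed side -/

section
variable {K : KFam} (hK : KOK K) {r : SK} {dl : ℕ} {ll : SK} {dr : ℕ} {rr : SK} {w kl kr : ℂ}
  (h : RDt K 1 .s r dl ll dr rr w kl kr)
include hK h

lemma n2e (hc : CS.s2e.Has dl ll) : NOk p2e kl (hU r w kr) (hV w kl) (hW w kl) := by
  have hc' := CS.okE hc
  have h1 := farL hK h hc' _ List.mem_cons_self
  have h2 := vF3_ok (pd h) (sumL h) (hqL h) h1
  exact ⟨ownL hK h hc', ok1 (uF3_ok (pd h).toPV h2), ok1 h2⟩

lemma n3e (hc : CS.s3e.Has dl ll) : NOk p3e kl (hU r w kr) (hV w kl) (hW w kl) := by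
  have hc' := CS.okE hc
  have h1 := farL hK h hc' _ List.mem_cons_self
  have h2 := vF4_ok (pd h) (sumL h) (hqL h) h1
  exact ⟨ownL hK h hc', ok1 (uF4_ok (pd h).toPV h2), ok1 h2⟩

lemma n1s (hc : CS.s1s.Has dl ll) : NOk p1s kl (hU r w kr) (hV w kl) (hW w kl) := by
  have hc' := CS.okE hc
  have h1 := farL hK h hc' _ List.mem_cons_self
  have h2 := vA3_ok (pd h) (sumL h) (hqL h) h1
  exact ⟨ownL hK h hc', ok1 (uA3_ok (pd h).toPV h2), ok1 h2⟩

lemma n2a (hc : CS.s2a.Has dl ll) : NOk p2a kl (hU r w kr) (hV w kl) (hW w kl) := by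
  have hc' := CS.okE hc
  have h1 := farL hK h hc' _ List.mem_cons_self
  have h2 := vA3_ok (pd h) (sumL h) (hqL h) h1
  exact ⟨ownL hK h hc', ok1 (uA3_ok (pd h).toPV h2), ok1 h2⟩

lemma n2s (hc : CS.s2s.Has dl ll) : NOk p2s kl (hU r w kr) (hV w kl) (hW w kl) := by
  have hc' := CS.okE hc
  have h1 := farL hK h hc' _ List.mem_cons_self
  have h2 := vA4_ok (pd h) (sumL h) (hqL h) h1
  exact ⟨ownL hK h hc', AllOk.nil, ok1 h2⟩

lemma n3a (hc : CS.s3a.Has dl ll) : NOk p3a kl (hU r w kr) (hV w kl) (hW w kl) := by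
  have hc' := CS.okE hc
  have h1 := farL hK h hc' _ List.mem_cons_self
  have h2 := vA4_ok (pd h) (sumL h) (hqL h) h1
  exact ⟨ownL hK h hc', AllOk.nil, ok1 h2⟩

lemma n3s (hc : CS.s3s.Has dl ll) : NOk p3s kl (hU r w kr) (hV w kl) (hW w kl) := by
  have hc' := CS.okE hc
  have h1 := farL hK h hc' _ List.mem_cons_self
  have h2 := vA5_ok (pd h) (sumL h) (hqL h) h1
  exact ⟨ownL hK h hc', AllOk.nil, ok1 h2⟩

lemma nZ (hd : 4 ≤ dl) : NOk pZ kl (hU r w kr) (hV w kl) (hW w kl) :=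
  ⟨ownL hK h (cZS_ok hd), AllOk.nil, AllOk.nil⟩

lemma nZ5 (hd : dl = 4) (hl : ll ≠ .s) : NOk pZ5 kl (hU r w kr) (hV w kl) (hW w kl) := by
  subst hd
  exact ⟨ownL hK h (cZ5_ok hl), AllOk.nil, AllOk.nil⟩

lemma nZL (hd : 6 ≤ crs dl ll .s) : NOk pZL kl (hU r w kr) (hV w kl) (hW w kl) :=
  ⟨ownL hK h (cZL_ok hd), AllOk.nil, AllOk.nil⟩

end

/-! ### a digit `1` with known data behind it -/

/-- the outer value of a digit `1` -/
lemma vA2X {Y V W k : ℂ} {H : List QC} (h : PV Y W V) (hk : (Y + I) * (Y + W) = 1 / k ^ 2)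
    (k0 : k ≠ 0) (hS : Sat H (k ^ 2)) : (vA2 H).Ok V W := by
  refine ⟨k ^ 2, ?_, hS⟩
  change k ^ 2 * (vrh.val V W * (vh.val V W * ve.val V W)) = vi.val V W ^ 2
  rw [val_vrh, val_vh, val_ve, val_vi]
  have e1 := h.e
  have e2 := h.he
  have e3 : k ^ 2 * ((Y + I) * (Y + W)) = 1 := by
    rw [hk, mul_one_div_cancel (pow_ne_zero 2 k0)]
  have e4 : (V + W) * (W - I) * ((W - I) * (V - I)) =
      (W + I) ^ 2 * ((Y + I) * (Y + W)) := by
    calc (V + W) * (W - I) * ((W - I) * (V - I)) =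
        ((W + V) * (W - I)) * ((V - I) * (W - I)) := by ring
      _ = _ := by rw [e1, e2]; ring
  rw [e4]
  linear_combination (W + I) ^ 2 * e3

/-- the end digit `2` behind a digit `1` -/
lemma vX2_ok {Y V W p : ℂ} (h : PV Y W V) (hp : Y ^ 2 + 1 - p = (Y + I) * (Y + W))
    (hg : (gE2 0 1).Ok Y p) : (vX2 zeroQ).Ok V W := by
  have h1 : (dr2 0 1).val Y p = 0 := zero_val rfl hg
  rw [d2v, hp, pD2] at h1
  refine zeroN rfl ?_
  change vX2e.val V W = 0
  rw [val_vX2e, val_vrh, val_vh, val_ve, val_vi]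
  have e1 := h.e
  have e2 := h.he
  have e3 : (V + W) * (W - I) = -((Y + I) * (W + I)) := by rw [← e1]; ring
  have e4 : (W - I) * (V - I) = -((W + I) * (Y + W)) := by rw [← e2]; ring
  rw [e3, e4]
  linear_combination (W + I) ^ 2 * h1 + (4 * (W + I) ^ 2 - 2 * (W + I) ^ 2) * Complex.I_mul_I

section
variable {K : KFam} (hK : KOK K) {r : SK} {w kl : ℂ}
include hK

/-- a digit `1` behind the absorbed digit -/
theorem farX_ok (hF : FarX K r w kl) :
    (vA2 (mirH h2ea)).Ok (hV w kl) (hW w kl) ∧ (vX2 zeroQ).Ok (hV w kl) (hW w kl) ∨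
      (vA2 (mirH HPA1x)).Ok (hV w kl) (hW w kl) := by
  obtain ⟨dX, lX, wP, kX, hP, rfl, hR⟩ := hF
  have hpd := pd hP
  have hq := qQ_a hP
  rw [hR] at hpd hq
  have k0 : kX ≠ 0 := ne_of_re hP.right.kre'
  have hm : ∀ {H : List QC}, InH (K.K dX lX .a) H → Sat (mirH H) (kX ^ 2) := by
    intro H h1
    have h2 := h1.mir
    have h3 := hP.right.mem'
    rw [← K.symm] at h2
    exact h2 kX h3
  by_cases hc : dX = 2 ∧ lX = .e
  · left
    obtain ⟨rfl, rfl⟩ := hc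
    have h1 := hm (a2e_ok.own hK hP.right.ok.right.symm)
    refine ⟨vA2X hpd.toPV hq k0 h1, ?_⟩
    have hq2 : RR wP kX ^ 2 + 1 - 1 / Complex.cos wP ^ 2 = 1 / kX ^ 2 := by
      rw [hP.right.hinge]
      ring
    have h2 := hP.right.out'
    rw [crs_symm] at h2
    have h3 := a2e_ok.R hK hq2 h2 _ List.mem_cons_self
    rw [Hq_of_ne (by decide)] at hpd hq
    exact vX2_ok hpd.toPV (by rw [hq2, hq]) h3
  · right
    have hd : 2 ≤ dX := by
      have := hP.right.ok.opp rfl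
      omega
    have hok := hP.right.ok.right.symm
    refine vA2X hpd.toPV hq k0 (hm (hK.inU hok HPA1x_ok ?_ (min_le_right _ _)))
    have h3 := hok.zl
    unfold crs
    cases lX
    · have : dX ≠ 2 := fun h5 => hc ⟨h5, rfl⟩
      simp only [SK.u, lA1x]; omega
    · simp only [SK.u, lA1x]; omega
    · have := h3 rfl
      simp only [SK.u, lA1x]; omega
    · simp only [SK.u, lA1x]; omega

end

section
variable {K : KFam} (hK : KOK K) {r : SK} {dl : ℕ} {ll : SK} {dr : ℕ} {rr : SK} {w kl kr : ℂ}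
  (h : RDt K 1 .s r dl ll dr rr w kl kr)
include hK h

/-- a digit `1` with one split side on the absorbed side -/
lemma n1a (hc : CS.s1a.Has dl ll) (hF : FarX K r w kl) :
    NOk p1X kl (hU r w kr) (hV w kl) (hW w kl) ∨ NOk p1Y kl (hU r w kr) (hV w kl) (hW w kl) := by
  have ho := ownL hK h (CS.okE hc)
  rcases farX_ok hK hF with ⟨h1, h2⟩ | h1
  · left
    exact ⟨ho, AllOk.cons (uA2_ok (pd h).toPV h1) (ok1 (uX2_ok (pd h).toPV h2)),
      AllOk.cons h1 (ok1 h2)⟩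
  · right
    exact ⟨ho, ok1 (uA2_ok (pd h).toPV h1), ok1 h1⟩

end

/-! ### the second neighbour, side `a` -/

section
variable {K : KFam} (hK : KOK K) {dl : ℕ} {ll : SK} {dr : ℕ} {rr : SK} {w kl kr : ℂ}
  (h : RDt K 1 .s .a dl ll dr rr w kl kr)
include hK h

lemma ownR_a {c : Cls} (hc : c.Ok .a dr rr) : Sat (mirH c.own) (kr ^ 2) := by
  have h1 := inH_ownR (x := .a) (hc.own hK h.right.ok.right.symm)
  rw [← K.symm] at h1
  exact h1 kr h.right.mem'

lemma farR_a {c : Cls} (hc : c.Ok .a dr rr) :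
    AllOk (hU .a w kr) (1 / Complex.cos w ^ 2) c.R := by
  have hq : RR w kr ^ 2 + 1 - 1 / Complex.cos w ^ 2 = 1 / kr ^ 2 := by
    rw [h.right.hinge]
    ring
  have h2 := h.right.out'
  rw [crs_symm] at h2
  unfold hU
  rw [Hq_of_ne (by decide)]
  exact hc.R hK hq h2

lemma m2e (hc : CA.a2e.Has dr rr) : NOk q2e kr (hU .a w kr) (hV w kl) (hW w kl) := by
  have hc' := CA.ok hc
  have h1 := farR_a hK h hc' _ List.mem_cons_self
  have h2 := uE2_ok (q_uv (pd h)) h1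
  exact ⟨ownR_a hK h hc', ok1 h2, ok1 (vE2_ok (pd h).toPV h2)⟩

lemma m2a (hc : CA.a2a.Has dr rr) : NOk q2a kr (hU .a w kr) (hV w kl) (hW w kl) := by
  have hc' := CA.ok hc
  have h1 := farR_a hK h hc' _ List.mem_cons_self
  have h2 := uD2_ok (q_uv (pd h)) h1
  exact ⟨ownR_a hK h hc', ok1 h2, ok1 (vD2_ok (pd h).toPV h2)⟩

lemma m2s (hc : CA.a2s.Has dr rr) : NOk q2s kr (hU .a w kr) (hV w kl) (hW w kl) := by
  have hc' := CA.ok hc
  have h1 := farR_a hK h hc' _ List.mem_cons_self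
  exact ⟨ownR_a hK h hc', ok1 (uD3_ok (q_uv (pd h)) h1), AllOk.nil⟩

lemma m3e (hc : CA.a3e.Has dr rr) : NOk q3e kr (hU .a w kr) (hV w kl) (hW w kl) := by
  have hc' := CA.ok hc
  have h1 := farR_a hK h hc' _ List.mem_cons_self
  have h2 := uE3_ok (q_uv (pd h)) h1
  exact ⟨ownR_a hK h hc', ok1 h2, ok1 (vE3_ok (pd h).toPV h2)⟩

lemma m3a (hc : CA.a3a.Has dr rr) : NOk q3a kr (hU .a w kr) (hV w kl) (hW w kl) := by
  have hc' := CA.ok hc
  have h1 := farR_a hK h hc' _ List.mem_cons_self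
  exact ⟨ownR_a hK h hc', ok1 (uD3_ok (q_uv (pd h)) h1), AllOk.nil⟩

lemma m3s (hc : CA.a3s.Has dr rr) : NOk q3s kr (hU .a w kr) (hV w kl) (hW w kl) := by
  have hc' := CA.ok hc
  have h1 := farR_a hK h hc' _ List.mem_cons_self
  exact ⟨ownR_a hK h hc', ok1 (uD4_ok (q_uv (pd h)) h1), AllOk.nil⟩

lemma m4e (hc : CA.a4e.Has dr rr) : NOk q4e kr (hU .a w kr) (hV w kl) (hW w kl) := by
  have hc' := CA.ok hc
  have h1 := farR_a hK h hc' _ List.mem_cons_self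
  have h2 := uE4_ok (q_uv (pd h)) h1
  exact ⟨ownR_a hK h hc', ok1 h2, ok1 (vE4_ok (pd h).toPV h2)⟩

lemma m4a (hc : CA.a4a.Has dr rr) : NOk q4a kr (hU .a w kr) (hV w kl) (hW w kl) := by
  have hc' := CA.ok hc
  have h1 := farR_a hK h hc' _ List.mem_cons_self
  exact ⟨ownR_a hK h hc', ok1 (uD4_ok (q_uv (pd h)) h1), AllOk.nil⟩

lemma m4z (hc : CA.a4z.Has dr rr) : NOk q4z kr (hU .a w kr) (hV w kl) (hW w kl) := by
  have hc' := CA.ok hc
  have h1 := farR_a hK h hc' _ List.mem_cons_self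
  exact ⟨ownR_a hK h hc', ok1 (uD4_ok (q_uv (pd h)) h1), AllOk.nil⟩

lemma m4s (hc : CA.a4s.Has dr rr) : NOk q4s kr (hU .a w kr) (hV w kl) (hW w kl) := by
  have hc' := CA.ok hc
  have h1 := farR_a hK h hc' _ List.mem_cons_self
  exact ⟨ownR_a hK h hc', ok1 (uD5_ok (q_uv (pd h)) h1), AllOk.nil⟩

lemma m5 (hc : CA.n5.Has dr rr) : NOk q5 kr (hU .a w kr) (hV w kl) (hW w kl) :=
  ⟨ownR_a hK h (CA.ok hc), AllOk.nil, AllOk.nil⟩

/-- all groups, side `a` -/
theorem aUV_ok {P Q : NC} (hP : NOk P kl (hU .a w kr) (hV w kl) (hW w kl))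
    (hQ : NOk Q kr (hU .a w kr) (hV w kl) (hW w kl)) :
    AllOk (hU .a w kr) (hV w kl) (aU P Q) ∧ AllOk (hV w kl) (hW w kl) (aV P Q) := by
  have hd := pd h
  have c0 := h.cos_ne
  have l0 := ne_of_re h.left.kre'
  have r0 := ne_of_re h.right.kre'
  have ho : Sat H2as (Complex.cos w ^ 2) := c1a_ok.own hK h.left.ok.left _ h.left.mem
  have hm : (hU .a w kr + I) * (hU .a w kr + hV w kl) = 1 / kr ^ 2 := qQ_a h
  exact ⟨AllOk.cons (uJ_ok hd c0 ho) (AllOk.cons (uP_ok hd l0 hP.own) (AllOk.cons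
      (uQ_ok hm r0 hQ.own) (hP.U.append hQ.U))),
    AllOk.cons (vJ_ok hd c0 ho) (AllOk.cons (vP_ok hd l0 hP.own) (AllOk.cons
      (vQ_ok hd.toPV hm r0 hQ.own) (hP.V.append hQ.V)))⟩

end

/-! ### the second neighbour, side `s` -/

lemma hU_s {w kr : ℂ} : hU .s w kr = hV w kr := Hq_s _ _

section
variable {K : KFam} (hK : KOK K) {dl : ℕ} {ll : SK} {dr : ℕ} {rr : SK} {w kl kr : ℂ}
  (h : RDt K 1 .s .s dl ll dr rr w kl kr)
include hK h

lemma t2 : NOk r2 kr (hU .s w kr) (hV w kl) (hW w kl) := by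
  have hok := h.right.ok.right.symm
  refine ⟨?_, AllOk.nil, AllOk.nil⟩
  have h1 : InH (K.K dr rr .s) HPS2 := hK.inU hok HPS2_ok (lo_le hok (by decide))
    (min_le_right _ _)
  have h2 := h1.fr
  rw [← K.symm] at h2
  exact h2 kr h.right.mem'

lemma t3 (hc : ¬ (dr = 2 ∧ rr = .e)) : NOk r3 kr (hU .s w kr) (hV w kl) (hW w kl) := by
  have hok := h.right.ok.right.symm
  refine ⟨?_, AllOk.nil, AllOk.nil⟩
  have h1 : InH (K.K dr rr .s) HPS2x := by
    refine hK.inU hok HPS2x_ok ?_ (min_le_right _ _)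
    have a1 := hok.pos
    have a2 := hok.one
    have a3 := hok.zl
    unfold crs
    cases rr
    · have : dr ≠ 2 := fun h5 => hc ⟨h5, rfl⟩
      have : dr ≠ 1 := fun h5 => (a2 h5).2.1 rfl
      simp only [SK.u, lS2x]; omega
    · simp only [SK.u, lS2x]; omega
    · have := a3 rfl
      simp only [SK.u, lS2x]; omega
    · simp only [SK.u, lS2x]; omega
  have h2 := h1.fr
  rw [← K.symm] at h2
  exact h2 kr h.right.mem'

lemma t4 (hc : ¬ (dr = 2 ∧ rr = .e)) (hc' : ¬ (dr = 1 ∧ rr = .a)) :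
    NOk r4 kr (hU .s w kr) (hV w kl) (hW w kl) := by
  have hok := h.right.ok.right.symm
  refine ⟨?_, AllOk.nil, AllOk.nil⟩
  have h1 : InH (K.K dr rr .s) HPSTx := by
    refine hK.inU hok HPSTx_ok ?_ (min_le_right _ _)
    have a1 := hok.pos
    have a2 := hok.one
    have a3 := hok.zl
    unfold crs
    cases rr
    · have : dr ≠ 2 := fun h5 => hc ⟨h5, rfl⟩
      have : dr ≠ 1 := fun h5 => (a2 h5).2.1 rfl
      simp only [SK.u, lSTx]; omega
    · have : dr ≠ 1 := fun h5 => hc' ⟨h5, rfl⟩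
      simp only [SK.u, lSTx]; omega
    · have := a3 rfl
      simp only [SK.u, lSTx]; omega
    · simp only [SK.u, lSTx]; omega
  have h2 := h1.fr
  rw [← K.symm] at h2
  exact h2 kr h.right.mem'

lemma t2e (hc : CS.s2e.Has dr rr) : NOk r2e kr (hU .s w kr) (hV w kl) (hW w kl) := by
  have h1 := n2e hK h.symm hc
  rw [hU_s]
  have h2 : (uF3 zeroQ).Ok (hU .s w kl) (hV w kr) := h1.U _ List.mem_cons_self
  rw [hU_s] at h2
  exact ⟨h1.own, ok1 (uG3_ok h2), AllOk.nil⟩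

lemma t3e (hc : CS.s3e.Has dr rr) : NOk r3e kr (hU .s w kr) (hV w kl) (hW w kl) := by
  have h1 := n3e hK h.symm hc
  rw [hU_s]
  have h2 : (uF4 zeroQ).Ok (hU .s w kl) (hV w kr) := h1.U _ List.mem_cons_self
  rw [hU_s] at h2
  exact ⟨h1.own, ok1 (uG4_ok h2), AllOk.nil⟩

lemma t2a (hc : CS.s2a.Has dr rr) : NOk r2a kr (hU .s w kr) (hV w kl) (hW w kl) := by
  have h1 := n2a hK h.symm hc
  rw [hU_s]
  have h2 : (uA3 (mirH HPA2)).Ok (hU .s w kl) (hV w kr) := h1.U _ List.mem_cons_self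
  rw [hU_s] at h2
  exact ⟨h1.own, ok1 (uS3_ok h2), AllOk.nil⟩

lemma t2s (hc : CS.s2s.Has dr rr) : NOk r2s kr (hU .s w kr) (hV w kl) (hW w kl) :=
  ⟨(n2s hK h.symm hc).own, AllOk.nil, AllOk.nil⟩

lemma tZ (hd : 4 ≤ dr) : NOk rZ kr (hU .s w kr) (hV w kl) (hW w kl) :=
  ⟨(nZ hK h.symm hd).own, AllOk.nil, AllOk.nil⟩

lemma t1a (hc : CS.s1a.Has dr rr) : NOk r1a kr (hU .s w kr) (hV w kl) (hW w kl) := by
  have hc' := CS.okE hc
  have h0 := h.symm
  have h1 := farL hK h0 hc' _ List.mem_cons_self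
  have h2 := uA2_ok (pd h0).toPV (vA2_ok (pd h0) (sumL h0) (hqL h0) h1)
  rw [hU_s]
  have e : Hq .s (RR w kl) (Complex.cos w) = hV w kl := Hq_s _ _
  rw [e] at h2
  exact ⟨ownL hK h0 hc', ok1 (uS2_ok h2), AllOk.nil⟩

lemma t1 (hc : CS.s1a.Has dr rr) (hF : FarX K .s w kr) :
    NOk r1X kr (hU .s w kr) (hV w kl) (hW w kl) ∨
      NOk r1Y kr (hU .s w kr) (hV w kl) (hW w kl) := by
  rcases n1a hK h.symm hc hF with h1 | h1
  · left
    have g1 : (uA2 (mirH h2ea)).Ok (hU .s w kl) (hV w kr) := h1.U _ List.mem_cons_self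
    have g2 : (uX2 zeroQ).Ok (hU .s w kl) (hV w kr) :=
      h1.U _ (List.mem_cons_of_mem _ List.mem_cons_self)
    rw [hU_s] at g1 g2
    rw [hU_s]
    exact ⟨h1.own, AllOk.cons (uS2_ok g1) (ok1 (uX3_ok g2)), AllOk.nil⟩
  · right
    have g1 : (uA2 (mirH HPA1x)).Ok (hU .s w kl) (hV w kr) := h1.U _ List.mem_cons_self
    rw [hU_s] at g1
    rw [hU_s]
    exact ⟨h1.own, ok1 (uS2_ok g1), AllOk.nil⟩

/-- all groups, side `s` -/
theorem sUV_ok {P Q : NC} (hP : NOk P kl (hU .s w kr) (hV w kl) (hW w kl))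
    (hQ : NOk Q kr (hU .s w kr) (hV w kl) (hW w kl)) :
    AllOk (hU .s w kr) (hV w kl) (sU P Q) ∧ AllOk (hV w kl) (hW w kl) (sV P Q) := by
  have hd := pd h
  have hd' := pd h.symm
  have c0 := h.cos_ne
  have l0 := ne_of_re h.left.kre'
  have r0 := ne_of_re h.right.kre'
  have ho : Sat H3ss (Complex.cos w ^ 2) := c1s_ok.own hK h.left.ok.left _ h.left.mem
  have e1 : Hq .s (RR w kr) (Complex.cos w) = hV w kr := Hq_s _ _
  have e2 : Hq .s (RR w kl) (Complex.cos w) = hV w kl := Hq_s _ _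
  have g1 := uP_ok hd' r0 hQ.own
  rw [e2] at g1
  have g2 : (uR Q.own).Ok (hU .s w kr) (hV w kl) := by
    rw [hU_s]
    exact uR_ok g1
  exact ⟨AllOk.cons (uJ_ok hd c0 ho) (AllOk.cons (uP_ok hd l0 hP.own) (AllOk.cons
      g2 (hP.U.append hQ.U))),
    AllOk.cons (vJ_ok hd c0 ho) (AllOk.cons (vP_ok hd l0 hP.own) (AllOk.cons
      (vR_ok hd.toPV g2) (hP.V.append hQ.V)))⟩

end

end

end Pool.Agent.Work.MP_b30479_gt.G2.CN.PW
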