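import Pool.Agent.Work.MP_b30479_gt.G2.CN.SDat

/-!
# Two adjacent digits `1`: further conditions for ring values
-/

namespace Pool.Agent.Work.MP_b30479_gt.G2.CN.PW

open SR S6

/-- digits at least `2`, side `a`, without the end digit `2` -/
def HPA1x : List QC :=
  [⟨0, 1000000, 0, 0⟩, ⟨630784, -294912, 0, 0⟩, ⟨0, 0, 1000000, -1009419⟩,
   ⟨0, 0, -1000000, 161646⟩, ⟨309000, 951000, 0, 253612⟩, ⟨993000, 122000, 0, 325007⟩,
   ⟨-906000, -423000, 0, -953305⟩, ⟨-819000, -574000, 0, -953929⟩, ⟨899000, 438000, 0, 399973⟩,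
   ⟨588000, -809000, 0, -413120⟩, ⟨643000, -766000, -621775, 0⟩, ⟨-966000, -259000, 0, -966900⟩]

/-- side `s`, without the end digit `2` -/
def HPS2x : List QC :=
  [⟨0, 1000000, 0, 0⟩, ⟨919632, -95060, 0, 0⟩, ⟨0, 0, 1000000, -1240357⟩,
   ⟨0, 0, -1000000, 190044⟩, ⟨-857000, -515000, 0, -955572⟩, ⟨643000, 766000, 0, 413187⟩,
   ⟨-669000, -743000, 0, -981646⟩, ⟨423000, 906000, 0, 329808⟩, ⟨-946000, -326000, 0, -964428⟩,
   ⟨951000, 309000, 0, 245866⟩, ⟨788000, -616000, 0, -498015⟩, ⟨-52000, -999000, -2126092, 0⟩]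

/-- side `s`, at least `3` crossings, without the end digit `2` -/
def HPSTx : List QC :=
  [⟨0, 1000000, 0, 0⟩, ⟨771080, -276159, 0, 0⟩, ⟨0, 0, 1000000, -1000000⟩,
   ⟨0, 0, -1000000, 224790⟩, ⟨883000, 469000, 0, 472093⟩, ⟨-707000, -707000, 0, -874652⟩,
   ⟨423000, 906000, 0, 329808⟩, ⟨-839000, -545000, 0, -892000⟩, ⟨-559000, -829000, 0, -874257⟩,
   ⟨-921000, -391000, 0, -924561⟩, ⟨891000, 454000, 0, 472836⟩, ⟨1000000, 0, 411668, 0⟩]

/-- digits at least `2`, side `a`, without the end digit `2` -/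
def lA1x (l : SK) : ℕ := match l with | .s => 3 | .z => 4 | .e => 3 | _ => 2
/-- side `s`, without the end digit `2` -/
def lS2x (l : SK) : ℕ := match l with | .e => 4 | .a => 2 | .z => 5 | .s => 3
/-- side `s`, at least `3` crossings, without the end digit `2` -/
def lSTx (l : SK) : ℕ := match l with | .e => 4 | .a => 3 | .z => 5 | .s => 3

theorem HPA1x_ok : chkU HPA1x .a lA1x h8 = true := by decide +kernel
theorem HPS2x_ok : chkU HPS2x .s lS2x h8 = true := by decide +kernel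
theorem HPSTx_ok : chkU HPSTx .s lSTx h8 = true := by decide +kernel

end Pool.Agent.Work.MP_b30479_gt.G2.CN.PW
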