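import Pool.Agent.Work.MP_b30479_gt.G2.CN.HLink

/-!
# Two adjacent digits `1`: groups

A ring with the digit `1` and an absorbed digit on the left.  `V`, `W`: the two hinges of the absorbed
digit (`V` next to the digit `1`), `U`: the other hinge of the digit `1`.  Groups `u…`: variables `U`,
`V`; groups `v…`: variables `V`, `W`.
-/

namespace Pool.Agent.Work.MP_b30479_gt.G2.CN.PW

open Complex SR CN.Ev

noncomputable section

/-! ### expressions -/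

def ua : Ev := (.add .R (.sc 1 (.k 0 0 1 0)) (rfl : 1 = 1))
def uf : Ev := (.sub .R (.sc 1 (.k 0 0 1 0)) (rfl : 1 = 1))
def ub : Ev := (.add .q (.sc 1 (.k 0 0 1 0)) (rfl : 1 = 1))
def ue : Ev := (.sub .q (.sc 1 (.k 0 0 1 0)) (rfl : 1 = 1))
def uc : Ev := (.add .R .q (rfl : 1 = 1))
def uab : Ev := (.nl (.mul ua ub))
def um : Ev := (.nl (.mul ua uc))
def ubc : Ev := (.nl (.mul ub uc))
def ue2 : Ev := (.nl (.sq ue))
def uf2 : Ev := (.nl (.sq uf))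
def ug : Ev := (.nl (.add uab ue2 (rfl : 2 = 2)))
def un : Ev := (.nl (.mul uab ubc))
def ug2 : Ev := (.nl (.add uab uf2 (rfl : 2 = 2)))
def un2 : Ev := (.nl (.mul uab um))
def uy3 : Ev := (.nl (.sub un (.gm 0 0 2 0 (.sc 1 (.mul ue ug))) (rfl : 4 = 4)))
def uy4 : Ev := (.nl (.sub (.sc 1 (.nm 2 (.mul ue un))) (.gm 0 0 1 0 (.mul ug (.sub (.sc 2 (.nm
  4 ue2)) un (rfl : 4 = 4)))) (rfl : 6 = 6)))
def uy5 : Ev := (.nl (.sub (.mul un (.sub (.sc 2 (.nm 4 ue2)) un (rfl : 4 = 4))) (.gm 0 0 4 0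
  (.sc 1 (.mul (.mul ue ug) (.sub (.sc 2 (.nm 2 ue2)) un (rfl : 4 = 4))))) (rfl : 8 = 8)))
def uz3 : Ev := (.nl (.sub un2 (.gm 0 0 2 0 (.sc 1 (.mul uf ug2))) (rfl : 4 = 4)))
def uz4 : Ev := (.nl (.sub (.sc 1 (.nm 2 (.mul uf un2))) (.gm 0 0 1 0 (.mul ug2 (.sub (.sc 2
  (.nm 4 uf2)) un2 (rfl : 4 = 4)))) (rfl : 6 = 6)))
def uz5 : Ev := (.nl (.sub (.mul un2 (.sub (.sc 2 (.nm 4 uf2)) un2 (rfl : 4 = 4))) (.gm 0 0 4 0
  (.sc 1 (.mul (.mul uf ug2) (.sub (.sc 2 (.nm 2 uf2)) un2 (rfl : 4 = 4))))) (rfl : 8 = 8)))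
def uD2e : Ev := (.nl (.sub um (.sc 1 (.gm 0 0 2 0 uf)) (rfl : 2 = 2)))
def uD3e : Ev := (.nl (.sub (.sc 1 (.nm 2 um)) (.gm 0 0 1 0 (.mul uf (.sub (.sc 2 (.k 4 0 0 0))
  um (rfl : 2 = 2)))) (rfl : 3 = 3)))
def uD4e : Ev := (.nl (.sub (.sub (.sc 2 (.nm 4 um)) (.sq um) (rfl : 4 = 4)) (.sc 1 (.gm 0 0 4 0
  (.mul uf (.sub (.sc 2 (.k 2 0 0 0)) um (rfl : 2 = 2))))) (rfl : 4 = 4)))
def uD5e : Ev := (.nl (.sub (.sub (.sc 3 (.nm 8 um)) (.sc 1 (.nm 4 (.sq um))) (rfl : 5 = 5))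
  (.gm 0 0 1 0 (.mul uf (.add (.sub (.sq um) (.sc 2 (.nm 12 um)) (rfl : 4 = 4)) (.sc 4 (.k 16 0
  0 0)) (rfl : 4 = 4)))) (rfl : 5 = 5)))
def uX2e : Ev := (.nl (.sub (.sc 1 (.gm 0 0 2 0 (.mul (.nl (.sub (.sc 1 (.gm 0 0 2 0 ue)) ubc
  (rfl : 2 = 2))) (.add (.mul ubc uab) (.sc 1 (.gm 0 0 2 0 (.mul (.nl (.sub (.sc 1 (.gm 0 0 2 0
  ue)) ubc (rfl : 2 = 2))) ue))) (rfl : 4 = 4))))) (.mul (.mul (.mul ubc ubc) uab) ue) (rfl : 7
  = 7)))
def uX2r : Ev := (.nl (.sub (.sc 1 (.gm 0 0 2 0 (.mul (.nl (.sub (.sc 1 (.gm 0 0 2 0 uf)) um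
  (rfl : 2 = 2))) (.add (.mul um uab) (.sc 1 (.gm 0 0 2 0 (.mul (.nl (.sub (.sc 1 (.gm 0 0 2 0
  uf)) um (rfl : 2 = 2))) uf))) (rfl : 4 = 4))))) (.mul (.mul (.mul um um) uab) uf) (rfl : 7 =
  7)))
def uJ (H : List QC) : Grp := ⟨(.sc 2 one), (.gm 0 1 0 0 uab), (rfl : 2 = 2), H⟩
def uP (H : List QC) : Grp := ⟨(.sc 2 ue2), un, (rfl : 4 = 4), H⟩
def uQ (H : List QC) : Grp := ⟨(.sc 2 one), um, (rfl : 2 = 2), H⟩
def uR (H : List QC) : Grp := ⟨(.sc 2 uf2), un2, (rfl : 4 = 4), H⟩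
def uA2 (H : List QC) : Grp := ⟨(.sc 2 (.nl (.sq ug))), (.gm 0 1 0 0 (.nl (.mul (.sq ubc)
  uab))), (rfl : 6 = 6), H⟩
def uA3 (H : List QC) : Grp := ⟨(.sc 2 (.nl (.sq uy3))), (.nl (.mul (.mul (.sq ubc) ubc) (.sq
  uab))), (rfl : 10 = 10), H⟩
def uS2 (H : List QC) : Grp := ⟨(.sc 2 (.nl (.sq ug2))), (.gm 0 1 0 0 (.nl (.mul (.sq um)
  uab))), (rfl : 6 = 6), H⟩
def uS3 (H : List QC) : Grp := ⟨(.sc 2 (.nl (.sq uz3))), (.nl (.mul (.mul (.sq um) um) (.sq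
  uab))), (rfl : 10 = 10), H⟩
def uF3 (H : List QC) : Grp := ⟨uy3, (.sc 4 one), (rfl : 4 = 4), H⟩
def uF4 (H : List QC) : Grp := ⟨uy4, (.sc 6 one), (rfl : 6 = 6), H⟩
def uF5 (H : List QC) : Grp := ⟨uy5, (.sc 8 one), (rfl : 8 = 8), H⟩
def uG3 (H : List QC) : Grp := ⟨uz3, (.sc 4 one), (rfl : 4 = 4), H⟩
def uG4 (H : List QC) : Grp := ⟨uz4, (.sc 6 one), (rfl : 6 = 6), H⟩
def uG5 (H : List QC) : Grp := ⟨uz5, (.sc 8 one), (rfl : 8 = 8), H⟩
def uE2 (H : List QC) : Grp := ⟨uD2e, (.sc 2 one), (rfl : 2 = 2), H⟩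
def uE3 (H : List QC) : Grp := ⟨uD3e, (.sc 3 one), (rfl : 3 = 3), H⟩
def uE4 (H : List QC) : Grp := ⟨uD4e, (.sc 4 one), (rfl : 4 = 4), H⟩
def uX2 (H : List QC) : Grp := ⟨uX2e, (.sc 7 one), (rfl : 7 = 7), H⟩
def uX3 (H : List QC) : Grp := ⟨uX2r, (.sc 7 one), (rfl : 7 = 7), H⟩
def uD2 (H : List QC) : Grp := ⟨(.sc 2 (.nl (.sq uD2e))), (.gm 0 1 0 0 (.nl (.mul uab (.sq
  um)))), (rfl : 6 = 6), H⟩
def uD3 (H : List QC) : Grp := ⟨(.sc 2 (.nl (.sq uD3e))), (.gm 0 1 0 0 (.nl (.mul uab (.mul (.sq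
  um) um)))), (rfl : 8 = 8), H⟩
def uD4 (H : List QC) : Grp := ⟨(.sc 2 (.nl (.sq uD4e))), (.gm 0 1 0 0 (.nl (.mul uab (.sq (.sq
  um))))), (rfl : 10 = 10), H⟩
def uD5 (H : List QC) : Grp := ⟨(.sc 2 (.nl (.sq uD5e))), (.gm 0 1 0 0 (.nl (.mul uab (.mul (.sq
  (.sq um)) um)))), (rfl : 12 = 12), H⟩
def ugT (H : List QC) : Grp := ⟨ub, ue, (rfl : 1 = 1), H⟩
def ugK (H : List QC) : Grp := ⟨ug, ubc, (rfl : 2 = 2), H⟩
def ugR (H : List QC) : Grp := ⟨ua, uf, (rfl : 1 = 1), H⟩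
def ugA (H : List QC) : Grp := ⟨ug, (.mul ue uc), (rfl : 2 = 2), H⟩
def ugB (H : List QC) : Grp := ⟨uab, (.mul ue uf), (rfl : 2 = 2), H⟩
def ugC (H : List QC) : Grp := ⟨(.mul uab uc), (.mul uf ug), (rfl : 3 = 3), H⟩
def vb : Ev := (.add .R (.sc 1 (.k 0 0 1 0)) (rfl : 1 = 1))
def ve : Ev := (.sub .R (.sc 1 (.k 0 0 1 0)) (rfl : 1 = 1))
def vh : Ev := (.sub .q (.sc 1 (.k 0 0 1 0)) (rfl : 1 = 1))
def vi : Ev := (.add .q (.sc 1 (.k 0 0 1 0)) (rfl : 1 = 1))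
def vr : Ev := (.add .R .q (rfl : 1 = 1))
def vre : Ev := (.nl (.mul vr ve))
def vrh : Ev := (.nl (.mul vr vh))
def vs : Ev := (.nl (.add vre (.sc 1 (.gm 0 0 2 0 vb)) (rfl : 2 = 2)))
def vb2 : Ev := (.nl (.sq vb))
def ve2 : Ev := (.nl (.sq ve))
def vn : Ev := (.nl (.mul vrh ve2))
def vy3 : Ev := (.nl (.sub (.add (.sc 2 (.k 0 0 4 0)) (.sc 1 (.nm 2 vh)) (rfl : 2 = 2)) (.gm 0 0
  1 0 vrh) (rfl : 2 = 2)))
def vy4 : Ev := (.nl (.sub (.sub (.add (.sc 3 (.k 0 0 8 0)) (.sc 2 (.nm 4 vh)) (rfl : 3 = 3))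
  (.sc 1 (.gm 0 0 4 0 vrh)) (rfl : 3 = 3)) (.mul vrh vh) (rfl : 3 = 3)))
def vy5 : Ev := (.nl (.add (.sub (.gm 0 0 1 0 (.add (.sub (.sq vrh) (.sc 2 (.nm 12 vrh)) (rfl :
  4 = 4)) (.sc 4 (.k 16 0 0 0)) (rfl : 4 = 4))) (.sc 1 (.nm 4 (.mul vrh vh))) (rfl : 4 = 4))
  (.sc 3 (.nm 8 vh)) (rfl : 4 = 4)))
def vD2e : Ev := (.nl (.add vn (.sc 1 (.gm 0 0 2 0 (.mul vb vs))) (rfl : 4 = 4)))
def vD3e : Ev := (.nl (.add (.gm 0 0 1 0 (.mul vs (.sub (.sc 2 (.nm 4 vb2)) vn (rfl : 4 = 4))))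
  (.sc 1 (.nm 2 (.mul vb vn))) (rfl : 6 = 6)))
def vD4e : Ev := (.nl (.sub (.add (.sc 1 (.gm 0 0 4 0 (.mul (.mul vb vs) (.sub (.sc 2 (.nm 2
  vb2)) vn (rfl : 4 = 4))))) (.sc 2 (.nm 4 (.mul vn vb2))) (rfl : 8 = 8)) (.sq vn) (rfl : 8 =
  8)))
def vX2e : Ev := (.nl (.add (.mul vrh (.mul vh ve)) (.sc 1 (.gm 0 0 2 0 (.mul vi (.add vrh (.sc
  1 (.gm 0 0 2 0 vi)) (rfl : 2 = 2))))) (rfl : 4 = 4)))
def vJ (H : List QC) : Grp := ⟨(.sc 2 one), vre, (rfl : 2 = 2), H⟩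
def vP (H : List QC) : Grp := ⟨(.sc 2 one), vrh, (rfl : 2 = 2), H⟩
def vQ (H : List QC) : Grp := ⟨(.sc 2 vb2), vn, (rfl : 4 = 4), H⟩
def vR (H : List QC) : Grp := ⟨(.sc 2 (.nl (.sq vs))), (.gm 0 1 0 0 (.nl (.mul (.mul (.sq vr)
  (.mul ve2 ve)) vh))), (rfl : 6 = 6), H⟩
def vA2 (H : List QC) : Grp := ⟨(.sc 2 (.nl (.sq vi))), (.nl (.mul vrh (.mul vh ve))), (rfl : 4
  = 4), H⟩
def vA3 (H : List QC) : Grp := ⟨(.sc 2 (.nl (.sq vy3))), (.nl (.mul (.sq vrh) (.mul vh ve))),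
  (rfl : 6 = 6), H⟩
def vA4 (H : List QC) : Grp := ⟨(.sc 2 (.nl (.sq vy4))), (.nl (.mul (.mul (.sq vrh) vrh) (.mul
  vh ve))), (rfl : 8 = 8), H⟩
def vA5 (H : List QC) : Grp := ⟨(.sc 2 (.nl (.sq vy5))), (.nl (.mul (.sq (.sq vrh)) (.mul vh
  ve))), (rfl : 10 = 10), H⟩
def vF3 (H : List QC) : Grp := ⟨vy3, (.sc 2 one), (rfl : 2 = 2), H⟩
def vF4 (H : List QC) : Grp := ⟨vy4, (.sc 3 one), (rfl : 3 = 3), H⟩
def vF5 (H : List QC) : Grp := ⟨vy5, (.sc 4 one), (rfl : 4 = 4), H⟩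
def vE2 (H : List QC) : Grp := ⟨vD2e, (.sc 4 one), (rfl : 4 = 4), H⟩
def vE3 (H : List QC) : Grp := ⟨vD3e, (.sc 6 one), (rfl : 6 = 6), H⟩
def vE4 (H : List QC) : Grp := ⟨vD4e, (.sc 8 one), (rfl : 8 = 8), H⟩
def vX2 (H : List QC) : Grp := ⟨vX2e, (.sc 4 one), (rfl : 4 = 4), H⟩
def vD2 (H : List QC) : Grp := ⟨(.sc 2 (.nl (.sq vD2e))), (.nl (.mul (.sq vn) vre)), (rfl : 10 =
  10), H⟩
def vgT (H : List QC) : Grp := ⟨vb, ve, (rfl : 1 = 1), H⟩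
def vgK (H : List QC) : Grp := ⟨vi, vh, (rfl : 1 = 1), H⟩
def vgR (H : List QC) : Grp := ⟨vre, vs, (rfl : 2 = 2), H⟩
def vgA (H : List QC) : Grp := ⟨(.mul vb vi), (.mul ve vh), (rfl : 2 = 2), H⟩
def vgB (H : List QC) : Grp := ⟨(.mul vb vr), vs, (rfl : 2 = 2), H⟩
def vgC (H : List QC) : Grp := ⟨(.mul vre vh), (.mul vs vi), (rfl : 3 = 3), H⟩

/-! ### values -/

section
variable (A B : Ev) (u w : ℂ)

lemma v_mul : (Ev.mul A B).val u w = A.val u w * B.val u w := rfl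
lemma v_sq : (Ev.sq A).val u w = A.val u w ^ 2 := rfl
lemma v_sc (j : ℕ) : (Ev.sc j A).val u w = A.val u w := rfl
lemma v_nl : (Ev.nl A).val u w = A.val u w := rfl

lemma gz_eq (a b c d : ℕ) : gz a b c d = ((a : ℂ) - b) + ((c : ℂ) - d) * I := by
  unfold gz
  apply Complex.ext <;> simp

lemma v_k (a b c d : ℕ) : (Ev.k a b c d).val u w = ((a : ℂ) - b) + ((c : ℂ) - d) * I :=
  gz_eq a b c d

lemma v_one (j : ℕ) : (Ev.sc j one).val u w = 1 := by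
  rw [v_sc]
  exact CN.Ev.val_one _ _

lemma v_neg : (Ev.gm 0 1 0 0 A).val u w = -A.val u w := by
  change gz 0 1 0 0 * A.val u w = _
  rw [gz_eq]
  simp

end

section
variable (u w : ℂ)

lemma val_ua : ua.val u w = u + I := by
  change u + gz 0 0 1 0 = _
  rw [gz_eq]; push_cast; ring
lemma val_uf : uf.val u w = u - I := by
  change u - gz 0 0 1 0 = _
  rw [gz_eq]; push_cast; ring
lemma val_ub : ub.val u w = w + I := by
  change w + gz 0 0 1 0 = _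
  rw [gz_eq]; push_cast; ring
lemma val_ue : ue.val u w = w - I := by
  change w - gz 0 0 1 0 = _
  rw [gz_eq]; push_cast; ring
lemma val_uc : uc.val u w = u + w := rfl
lemma val_uab : uab.val u w = (u + I) * (w + I) := by
  simp only [uab, v_nl, v_mul, val_ua, val_ub]
lemma val_um : um.val u w = (u + I) * (u + w) := by
  simp only [um, v_nl, v_mul, val_ua, val_uc]
lemma val_ubc : ubc.val u w = (w + I) * (u + w) := by
  simp only [ubc, v_nl, v_mul, val_ub, val_uc]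
lemma val_ue2 : ue2.val u w = (w - I) ^ 2 := by
  simp only [ue2, v_nl, v_sq, val_ue]
lemma val_uf2 : uf2.val u w = (u - I) ^ 2 := by
  simp only [uf2, v_nl, v_sq, val_uf]
lemma val_ug : ug.val u w = (u + I) * (w + I) + (w - I) ^ 2 := by
  change uab.val u w + ue2.val u w = _
  rw [val_uab, val_ue2]
lemma val_ug2 : ug2.val u w = (u + I) * (w + I) + (u - I) ^ 2 := by
  change uab.val u w + uf2.val u w = _
  rw [val_uab, val_uf2]
lemma val_un : un.val u w = (u + I) * (w + I) * ((w + I) * (u + w)) := by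
  simp only [un, v_nl, v_mul, val_uab, val_ubc]
lemma val_un2 : un2.val u w = (u + I) * (w + I) * ((u + I) * (u + w)) := by
  simp only [un2, v_nl, v_mul, val_uab, val_um]

/-- the polynomials of the outer values -/
def pY3 (e g n : ℂ) : ℂ := n - 2 * I * (e * g)
/-- the polynomials of the outer values -/
def pY4 (e g n : ℂ) : ℂ := 2 * (e * n) - I * (g * (4 * e ^ 2 - n))
/-- the polynomials of the outer values -/
def pY5 (e g n : ℂ) : ℂ := n * (4 * e ^ 2 - n) - 4 * I * (e * g * (2 * e ^ 2 - n))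

lemma val_uy3 : uy3.val u w = pY3 (ue.val u w) (ug.val u w) (un.val u w) := by
  change un.val u w - gz 0 0 2 0 * (ue.val u w * ug.val u w) = _
  rw [gz_eq, pY3]; push_cast; ring
lemma val_uy4 : uy4.val u w = pY4 (ue.val u w) (ug.val u w) (un.val u w) := by
  change (2 : ℕ) * (ue.val u w * un.val u w) - gz 0 0 1 0 * (ug.val u w *
    ((4 : ℕ) * ue2.val u w - un.val u w)) = _
  rw [gz_eq, pY4, val_ue2, val_ue]; push_cast; ring
lemma val_uy5 : uy5.val u w = pY5 (ue.val u w) (ug.val u w) (un.val u w) := by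
  change un.val u w * ((4 : ℕ) * ue2.val u w - un.val u w) - gz 0 0 4 0 *
    (ue.val u w * ug.val u w * ((2 : ℕ) * ue2.val u w - un.val u w)) = _
  rw [gz_eq, pY5, val_ue2, val_ue]; push_cast; ring
lemma val_uz3 : uz3.val u w = pY3 (uf.val u w) (ug2.val u w) (un2.val u w) := by
  change un2.val u w - gz 0 0 2 0 * (uf.val u w * ug2.val u w) = _
  rw [gz_eq, pY3]; push_cast; ring
lemma val_uz4 : uz4.val u w = pY4 (uf.val u w) (ug2.val u w) (un2.val u w) := by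
  change (2 : ℕ) * (uf.val u w * un2.val u w) - gz 0 0 1 0 * (ug2.val u w *
    ((4 : ℕ) * uf2.val u w - un2.val u w)) = _
  rw [gz_eq, pY4, val_uf2, val_uf]; push_cast; ring
lemma val_uz5 : uz5.val u w = pY5 (uf.val u w) (ug2.val u w) (un2.val u w) := by
  change un2.val u w * ((4 : ℕ) * uf2.val u w - un2.val u w) - gz 0 0 4 0 *
    (uf.val u w * ug2.val u w * ((2 : ℕ) * uf2.val u w - un2.val u w)) = _
  rw [gz_eq, pY5, val_uf2, val_uf]; push_cast; ring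

/-- the polynomials of the outer values of the second neighbour -/
def pD2 (U m : ℂ) : ℂ := m - 2 - 2 * I * U
/-- the polynomials of the outer values of the second neighbour -/
def pD3 (U m : ℂ) : ℂ := 2 * m - I * ((U - I) * (4 - m))
/-- the polynomials of the outer values of the second neighbour -/
def pD4 (U m : ℂ) : ℂ := 4 * m - m ^ 2 - 4 * I * ((U - I) * (2 - m))
/-- the polynomials of the outer values of the second neighbour -/
def pD5 (U m : ℂ) : ℂ := 8 * m - 4 * m ^ 2 - I * ((U - I) * (m ^ 2 - 12 * m + 16))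

lemma val_uD2e : uD2e.val u w = pD2 u (um.val u w) := by
  change um.val u w - gz 0 0 2 0 * uf.val u w = _
  rw [gz_eq, pD2, val_uf]; push_cast; linear_combination 2 * Complex.I_mul_I
lemma val_uD3e : uD3e.val u w = pD3 u (um.val u w) := by
  change (2 : ℕ) * um.val u w - gz 0 0 1 0 * (uf.val u w * (gz 4 0 0 0 - um.val u w)) = _
  rw [gz_eq, gz_eq, pD3, val_uf]; push_cast; ring
lemma val_uD4e : uD4e.val u w = pD4 u (um.val u w) := by
  change (4 : ℕ) * um.val u w - um.val u w ^ 2 - gz 0 0 4 0 *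
    (uf.val u w * (gz 2 0 0 0 - um.val u w)) = _
  rw [gz_eq, gz_eq, pD4, val_uf]; push_cast; ring
lemma val_uD5e : uD5e.val u w = pD5 u (um.val u w) := by
  change (8 : ℕ) * um.val u w - (4 : ℕ) * um.val u w ^ 2 - gz 0 0 1 0 *
    (uf.val u w * (um.val u w ^ 2 - (12 : ℕ) * um.val u w + gz 16 0 0 0)) = _
  rw [gz_eq, gz_eq, pD5, val_uf]; push_cast; ring

/-- the polynomial for the end digit `2` two rings away -/
def pX (e b a c : ℂ) : ℂ :=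
  2 * I * ((2 * I * e - b * c) * (b * c * (a * b) + 2 * I * ((2 * I * e - b * c) * e))) -
    b * c * (b * c) * (a * b) * e

lemma val_uX2e : uX2e.val u w = pX (w - I) (w + I) (u + I) (u + w) := by
  change gz 0 0 2 0 * ((gz 0 0 2 0 * ue.val u w - ubc.val u w) * (ubc.val u w * uab.val u w +
    gz 0 0 2 0 * ((gz 0 0 2 0 * ue.val u w - ubc.val u w) * ue.val u w))) -
    ubc.val u w * ubc.val u w * uab.val u w * ue.val u w = _
  rw [gz_eq, pX, val_ubc, val_uab, val_ue]; push_cast; ring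
lemma val_uX2r : uX2r.val u w = pX (u - I) (u + I) (w + I) (u + w) := by
  change gz 0 0 2 0 * ((gz 0 0 2 0 * uf.val u w - um.val u w) * (um.val u w * uab.val u w +
    gz 0 0 2 0 * ((gz 0 0 2 0 * uf.val u w - um.val u w) * uf.val u w))) -
    um.val u w * um.val u w * uab.val u w * uf.val u w = _
  rw [gz_eq, pX, val_um, val_uab, val_uf]; push_cast; ring

lemma val_vb : vb.val u w = u + I := by
  change u + gz 0 0 1 0 = _
  rw [gz_eq]; push_cast; ring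
lemma val_ve : ve.val u w = u - I := by
  change u - gz 0 0 1 0 = _
  rw [gz_eq]; push_cast; ring
lemma val_vh : vh.val u w = w - I := by
  change w - gz 0 0 1 0 = _
  rw [gz_eq]; push_cast; ring
lemma val_vi : vi.val u w = w + I := by
  change w + gz 0 0 1 0 = _
  rw [gz_eq]; push_cast; ring
lemma val_vr : vr.val u w = u + w := rfl
lemma val_vre : vre.val u w = (u + w) * (u - I) := by
  simp only [vre, v_nl, v_mul, val_vr, val_ve]
lemma val_vrh : vrh.val u w = (u + w) * (w - I) := by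
  simp only [vrh, v_nl, v_mul, val_vr, val_vh]
lemma val_vs : vs.val u w = (u + w) * (u - I) + 2 * I * (u + I) := by
  change vre.val u w + gz 0 0 2 0 * vb.val u w = _
  rw [gz_eq, val_vre, val_vb]; push_cast; ring
lemma val_vb2 : vb2.val u w = (u + I) ^ 2 := by
  simp only [vb2, v_nl, v_sq, val_vb]
lemma val_ve2 : ve2.val u w = (u - I) ^ 2 := by
  simp only [ve2, v_nl, v_sq, val_ve]
lemma val_vn : vn.val u w = (u + w) * (w - I) * (u - I) ^ 2 := by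
  simp only [vn, v_nl, v_mul, val_vrh, val_ve2]

/-- the outer value, divided by the unsplit hinge -/
def qY3 (r h : ℂ) : ℂ := 4 * I + 2 * h - I * (r * h)
/-- the outer value, divided by the unsplit hinge -/
def qY4 (r h : ℂ) : ℂ := 8 * I + 4 * h - 4 * I * (r * h) - r * h * h
/-- the outer value, divided by the unsplit hinge -/
def qY5 (r h : ℂ) : ℂ := I * ((r * h) ^ 2 - 12 * (r * h) + 16) - 4 * (r * h * h) + 8 * h

lemma val_vy3 : vy3.val u w = qY3 (u + w) (w - I) := by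
  change gz 0 0 4 0 + (2 : ℕ) * vh.val u w - gz 0 0 1 0 * vrh.val u w = _
  rw [gz_eq, gz_eq, qY3, val_vrh, val_vh]; push_cast; ring
lemma val_vy4 : vy4.val u w = qY4 (u + w) (w - I) := by
  change gz 0 0 8 0 + (4 : ℕ) * vh.val u w - gz 0 0 4 0 * vrh.val u w -
    vrh.val u w * vh.val u w = _
  rw [gz_eq, gz_eq, qY4, val_vrh, val_vh]; push_cast; ring
lemma val_vy5 : vy5.val u w = qY5 (u + w) (w - I) := by
  change gz 0 0 1 0 * (vrh.val u w ^ 2 - (12 : ℕ) * vrh.val u w + gz 16 0 0 0) -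
    (4 : ℕ) * (vrh.val u w * vh.val u w) + (8 : ℕ) * vh.val u w = _
  rw [gz_eq, gz_eq, qY5, val_vrh, val_vh]; push_cast; ring

lemma val_vD2e : vD2e.val u w = vn.val u w + 2 * I * (vb.val u w * vs.val u w) := by
  change vn.val u w + gz 0 0 2 0 * (vb.val u w * vs.val u w) = _
  rw [gz_eq]; push_cast; ring
lemma val_vD3e : vD3e.val u w = I * (vs.val u w * (4 * vb.val u w ^ 2 - vn.val u w)) +
    2 * (vb.val u w * vn.val u w) := by
  change gz 0 0 1 0 * (vs.val u w * ((4 : ℕ) * vb2.val u w - vn.val u w)) +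
    (2 : ℕ) * (vb.val u w * vn.val u w) = _
  rw [gz_eq, val_vb2, val_vb]; push_cast; ring
lemma val_vD4e : vD4e.val u w = 4 * I * (vb.val u w * vs.val u w * (2 * vb.val u w ^ 2 -
    vn.val u w)) + 4 * (vn.val u w * vb.val u w ^ 2) - vn.val u w ^ 2 := by
  change gz 0 0 4 0 * (vb.val u w * vs.val u w * ((2 : ℕ) * vb2.val u w - vn.val u w)) +
    (4 : ℕ) * (vn.val u w * vb2.val u w) - vn.val u w ^ 2 = _
  rw [gz_eq, val_vb2, val_vb]; push_cast; ring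
lemma val_vX2e : vX2e.val u w = vrh.val u w * (vh.val u w * ve.val u w) +
    2 * I * (vi.val u w * (vrh.val u w + 2 * I * vi.val u w)) := by
  change vrh.val u w * (vh.val u w * ve.val u w) +
    gz 0 0 2 0 * (vi.val u w * (vrh.val u w + gz 0 0 2 0 * vi.val u w)) = _
  rw [gz_eq]; push_cast; ring

end

end

end Pool.Agent.Work.MP_b30479_gt.G2.CN.PW
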