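import Pool.Agent.Work.MP_b30479_gt.G2.CN.PRwAA
import Pool.Agent.Work.MP_b30479_gt.G2.CN.PRwAG
import Pool.Agent.Work.MP_b30479_gt.G2.CN.PRwAL
import Pool.Agent.Work.MP_b30479_gt.G2.CN.PRwAP
import Pool.Agent.Work.MP_b30479_gt.G2.CN.PRwAT
import Pool.Agent.Work.MP_b30479_gt.G2.CN.PRwAZ

/-!
# Two adjacent digits `1`: the bounds for every pair of neighbours
-/

namespace Pool.Agent.Work.MP_b30479_gt.G2.CN.PW

open SR

/-- the bounds for given groups, side `a` -/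
def AW (P Q : NC) (cU cV cW : RC) (l : List (ℕ × GC)) : Prop :=
  ∀ {U V W yU yV yW : ℂ}, Dat (aU P Q) (aV P Q) cU cV cW U V W yU yV yW → Bd yU yV yW l

/-- the bounds for given groups, side `s` -/
def SW (P Q : NC) (cU cV cW : RC) (l : List (ℕ × GC)) : Prop :=
  ∀ {U V W yU yV yW : ℂ}, Dat (sU P Q) (sV P Q) cU cV cW U V W yU yV yW → Bd yU yV yW l

lemma okL_pk {l : List (ℕ × GC)} {m : ℕ} (h : okL l = true) : okL (pk l m) = true :=
  List.all_eq_true.2 fun x hx => List.all_eq_true.1 h x (pk_sub _ _ hx)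

lemma wl_pk (P Q : Cl) (m : ℕ) : okL (pk (wl P Q) m) = true := okL_pk (wl_ok P Q)

theorem w_a_1s_a2e : AW p1s q2e c_2170_3110_m660_10 c_2750_4365_m560_960
    c_2750_4365_m560_560 (wl .one .twoE) := fun D =>
  runU D (wl_ok _ _) r_a_1s_a2e_U_TkrABC

theorem w_a_1s_a2a : AW p1s q2a c_2360_3920_m180_985 c_2750_4365_m560_960
    c_2750_4365_m560_560 (wl .one .two) := fun D =>
  (runV D (wl_pk _ _ _) r_a_1s_a2a_V_k).join
    (runU D (wl_pk _ _ _) r_a_1s_a2a_U_TrABC) (by decide)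

theorem w_a_1s_a2s : AW p1s q2s c_2360_3920_m180_985 c_2750_4365_m560_960
    c_2750_4365_m560_560 (wl .one .two) := fun D =>
  runU D (wl_ok _ _) r_a_1s_a2s_U_TkrABC

theorem w_a_1s_a3e : AW p1s q3e c_2120_2740_100_780 c_2750_4365_m560_960
    c_2750_4365_m560_560 (wl .one .threeE) := fun D =>
  runU D (wl_ok _ _) r_a_1s_a3e_U_TkrABC

theorem w_a_1s_a3a : AW p1s q3a c_2260_3140_210_1145 c_2750_4365_m560_960
    c_2750_4365_m560_560 (wl .one .three) := fun D =>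
  runU D (wl_ok _ _) r_a_1s_a3a_U_TkrABC

theorem w_a_1s_a3s : AW p1s q3s c_2260_3140_210_1145 c_2750_4365_m560_960
    c_2750_4365_m560_560 (wl .one .three) := fun D =>
  runU D (wl_ok _ _) r_a_1s_a3s_U_TkrABC

theorem w_a_1s_a4e : AW p1s q4e c_2140_2470_380_1280 c_2750_4365_m560_960
    c_2750_4365_m560_560 (wl .one .ring) := fun D =>
  runU D (wl_ok _ _) r_a_1s_a4e_U_TkrABC

theorem w_a_1s_a4a : AW p1s q4a c_2140_2680_380_1280 c_2750_4365_m560_960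
    c_2750_4365_m560_560 (wl .one .ring) := fun D =>
  runU D (wl_ok _ _) r_a_1s_a4a_U_TkrABC

theorem w_a_1s_a4z : AW p1s q4z c_2140_2680_380_1280 c_2750_4365_m560_960
    c_2750_4365_m560_560 (wl .one .ring) := fun D =>
  runU D (wl_ok _ _) r_a_1s_a4z_U_TkrABC

theorem w_a_1s_a4s : AW p1s q4s c_2140_2680_380_1280 c_2750_4365_m560_960
    c_2750_4365_m560_560 (wl .one .ring) := fun D =>
  runU D (wl_ok _ _) r_a_1s_a4s_U_TkrABC

theorem w_a_1s_n5 : AW p1s q5 c_2140_2980_380_1380 c_2750_4365_m560_960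
    c_2750_4365_m560_560 (wl .one .ring) := fun D =>
  runU D (wl_ok _ _) r_a_1s_n5_U_TkrABC

theorem w_a_2e_a2e : AW p2e q2e c_2170_3110_m660_10 c_2750_4999_m800_330
    c_2170_3110_160_660 (wl .twoE .twoE) := fun D =>
  runU D (wl_ok _ _) r_a_2e_a2e_U_TkrABC

theorem w_a_2e_a2a : AW p2e q2a c_2360_3920_m180_985 c_2750_4999_m800_330
    c_2170_3110_160_660 (wl .twoE .two) := fun D =>
  runV D (wl_ok _ _) r_a_2e_a2a_V_TkrABC

theorem w_a_2e_a2s : AW p2e q2s c_2360_3920_m180_985 c_2750_4999_m800_330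
    c_2170_3110_160_660 (wl .twoE .two) := fun D =>
  (runV D (wl_pk _ _ _) r_a_2e_a2s_V_kTAC).join
    (runU D (wl_pk _ _ _) r_a_2e_a2s_U_rB) (by decide)

theorem w_a_2e_a3e : AW p2e q3e c_2120_2740_100_780 c_2750_4999_m800_330
    c_2170_3110_160_660 (wl .twoE .threeE) := fun D =>
  runV D (wl_ok _ _) r_a_2e_a3e_V_TkrABC

theorem w_a_2e_a3a : AW p2e q3a c_2260_3140_210_1145 c_2750_4999_m800_330
    c_2170_3110_160_660 (wl .twoE .three) := fun D =>
  runU D (wl_ok _ _) r_a_2e_a3a_U_TkrABC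

theorem w_a_2e_a3s : AW p2e q3s c_2260_3140_210_1145 c_2750_4999_m800_330
    c_2170_3110_160_660 (wl .twoE .three) := fun D =>
  runV D (wl_ok _ _) r_a_2e_a3s_V_TkrABC

theorem w_a_2e_a4e : AW p2e q4e c_2140_2470_380_1280 c_2750_4999_m800_330
    c_2170_3110_160_660 (wl .twoE .ring) := fun D =>
  runV D (wl_ok _ _) r_a_2e_a4e_V_TkrABC

theorem w_a_2e_a4a : AW p2e q4a c_2140_2680_380_1280 c_2750_4999_m800_330
    c_2170_3110_160_660 (wl .twoE .ring) := fun D =>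
  runU D (wl_ok _ _) r_a_2e_a4a_U_TkrABC

theorem w_a_2e_a4z : AW p2e q4z c_2140_2680_380_1280 c_2750_4999_m800_330
    c_2170_3110_160_660 (wl .twoE .ring) := fun D =>
  runU D (wl_ok _ _) r_a_2e_a4z_U_TkrABC

theorem w_a_2e_a4s : AW p2e q4s c_2140_2680_380_1280 c_2750_4999_m800_330
    c_2170_3110_160_660 (wl .twoE .ring) := fun D =>
  runV D (wl_ok _ _) r_a_2e_a4s_V_TkrABC

theorem w_a_2e_n5 : AW p2e q5 c_2140_2980_380_1380 c_2750_4999_m800_330
    c_2170_3110_160_660 (wl .twoE .ring) := fun D =>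
  runV D (wl_ok _ _) r_a_2e_n5_V_TkrABC

theorem w_a_2a_a2e : AW p2a q2e c_2170_3110_m660_10 c_2750_4625_m540_930
    c_2360_3920_m790_180 (wl .two .twoE) := fun D =>
  runU D (wl_ok _ _) r_a_2a_a2e_U_TkrABC

theorem w_a_2a_a2a : AW p2a q2a c_2360_3920_m180_985 c_2750_4625_m540_930
    c_2360_3920_m790_180 (wl .two .two) := fun D =>
  (runV D (wl_pk _ _ _) r_a_2a_a2a_V_k).join
    (runU D (wl_pk _ _ _) r_a_2a_a2a_U_TrABC) (by decide)

theorem w_a_2a_a2s : AW p2a q2s c_2360_3920_m180_985 c_2750_4625_m540_930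
    c_2360_3920_m790_180 (wl .two .two) := fun D =>
  (runV D (wl_pk _ _ _) r_a_2a_a2s_V_k).join
    (runU D (wl_pk _ _ _) r_a_2a_a2s_U_TrABC) (by decide)

theorem w_a_2a_a3e : AW p2a q3e c_2120_2740_100_780 c_2750_4625_m540_930
    c_2360_3920_m790_180 (wl .two .threeE) := fun D =>
  runU D (wl_ok _ _) r_a_2a_a3e_U_TkrABC

theorem w_a_2a_a3a : AW p2a q3a c_2260_3140_210_1145 c_2750_4625_m540_930
    c_2360_3920_m790_180 (wl .two .three) := fun D =>
  (runV D (wl_pk _ _ _) r_a_2a_a3a_V_k).join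
    (runU D (wl_pk _ _ _) r_a_2a_a3a_U_TrABC) (by decide)

theorem w_a_2a_a3s : AW p2a q3s c_2260_3140_210_1145 c_2750_4625_m540_930
    c_2360_3920_m790_180 (wl .two .three) := fun D =>
  (runV D (wl_pk _ _ _) r_a_2a_a3s_V_k).join
    (runU D (wl_pk _ _ _) r_a_2a_a3s_U_TrABC) (by decide)

theorem w_a_2a_a4e : AW p2a q4e c_2140_2470_380_1280 c_2750_4625_m540_930
    c_2360_3920_m790_180 (wl .two .ring) := fun D =>
  runU D (wl_ok _ _) r_a_2a_a4e_U_TkrABC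

theorem w_a_2a_a4a : AW p2a q4a c_2140_2680_380_1280 c_2750_4625_m540_930
    c_2360_3920_m790_180 (wl .two .ring) := fun D =>
  runU D (wl_ok _ _) r_a_2a_a4a_U_TkrABC

theorem w_a_2a_a4z : AW p2a q4z c_2140_2680_380_1280 c_2750_4625_m540_930
    c_2360_3920_m790_180 (wl .two .ring) := fun D =>
  runU D (wl_ok _ _) r_a_2a_a4z_U_TkrABC

theorem w_a_2a_a4s : AW p2a q4s c_2140_2680_380_1280 c_2750_4625_m540_930
    c_2360_3920_m790_180 (wl .two .ring) := fun D =>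
  (runV D (wl_pk _ _ _) r_a_2a_a4s_V_k).join
    (runU D (wl_pk _ _ _) r_a_2a_a4s_U_TrABC) (by decide)

theorem w_a_2a_n5 : AW p2a q5 c_2140_2980_380_1380 c_2750_4625_m540_930
    c_2360_3920_m790_180 (wl .two .ring) := fun D =>
  (runV D (wl_pk _ _ _) r_a_2a_n5_V_k).join
    (runU D (wl_pk _ _ _) r_a_2a_n5_U_TrABC) (by decide)

theorem w_a_2s_a2e : AW p2s q2e c_2170_3110_m660_10 c_2750_4625_m540_930
    c_2360_3920_m790_180 (wl .two .twoE) := fun D =>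
  runU D (wl_ok _ _) r_a_2s_a2e_U_TkrABC

theorem w_a_2s_a2a : AW p2s q2a c_2360_3920_m180_985 c_2750_4625_m540_930
    c_2360_3920_m790_180 (wl .two .two) := fun D =>
  (runV D (wl_pk _ _ _) r_a_2s_a2a_V_k).join
    (runU D (wl_pk _ _ _) r_a_2s_a2a_U_TrABC) (by decide)

theorem w_a_2s_a2s : AW p2s q2s c_2360_3920_m180_985 c_2750_4625_m540_930
    c_2360_3920_m790_180 (wl .two .two) := fun D =>
  (runV D (wl_pk _ _ _) r_a_2s_a2s_V_k).join
    (runU D (wl_pk _ _ _) r_a_2s_a2s_U_TrABC) (by decide)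

theorem w_a_2s_a3e : AW p2s q3e c_2120_2740_100_780 c_2750_4625_m540_930
    c_2360_3920_m790_180 (wl .two .threeE) := fun D =>
  runU D (wl_ok _ _) r_a_2s_a3e_U_TkrABC

theorem w_a_2s_a3a : AW p2s q3a c_2260_3140_210_1145 c_2750_4625_m540_930
    c_2360_3920_m790_180 (wl .two .three) := fun D =>
  (runV D (wl_pk _ _ _) r_a_2s_a3a_V_k).join
    (runU D (wl_pk _ _ _) r_a_2s_a3a_U_TrABC) (by decide)

theorem w_a_2s_a3s : AW p2s q3s c_2260_3140_210_1145 c_2750_4625_m540_930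
    c_2360_3920_m790_180 (wl .two .three) := fun D =>
  (runV D (wl_pk _ _ _) r_a_2s_a3s_V_k).join
    (runU D (wl_pk _ _ _) r_a_2s_a3s_U_TrABC) (by decide)

theorem w_a_2s_a4e : AW p2s q4e c_2140_2470_380_1280 c_2750_4625_m540_930
    c_2360_3920_m790_180 (wl .two .ring) := fun D =>
  runU D (wl_ok _ _) r_a_2s_a4e_U_TkrABC

theorem w_a_2s_a4a : AW p2s q4a c_2140_2680_380_1280 c_2750_4625_m540_930
    c_2360_3920_m790_180 (wl .two .ring) := fun D =>
  (runV D (wl_pk _ _ _) r_a_2s_a4a_V_k).join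
    (runU D (wl_pk _ _ _) r_a_2s_a4a_U_TrABC) (by decide)

theorem w_a_2s_a4z : AW p2s q4z c_2140_2680_380_1280 c_2750_4625_m540_930
    c_2360_3920_m790_180 (wl .two .ring) := fun D =>
  runU D (wl_ok _ _) r_a_2s_a4z_U_TkrABC

theorem w_a_2s_a4s : AW p2s q4s c_2140_2680_380_1280 c_2750_4625_m540_930
    c_2360_3920_m790_180 (wl .two .ring) := fun D =>
  (runV D (wl_pk _ _ _) r_a_2s_a4s_V_k).join
    (runU D (wl_pk _ _ _) r_a_2s_a4s_U_TrABC) (by decide)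

theorem w_a_2s_n5 : AW p2s q5 c_2140_2980_380_1380 c_2750_4625_m540_930
    c_2360_3920_m790_180 (wl .two .ring) := fun D =>
  (runV D (wl_pk _ _ _) r_a_2s_n5_V_k).join
    (runU D (wl_pk _ _ _) r_a_2s_n5_U_TrABC) (by decide)

theorem w_a_3e_a2e : AW p3e q2e c_2170_3110_m660_10 c_2750_4999_m650_610
    c_2120_2740_m580_m100 (wl .threeE .twoE) := fun D =>
  runU D (wl_ok _ _) r_a_3e_a2e_U_TkrABC

theorem w_a_3e_a2a : AW p3e q2a c_2360_3920_m180_985 c_2750_4999_m650_610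
    c_2120_2740_m580_m100 (wl .threeE .two) := fun D =>
  runV D (wl_ok _ _) r_a_3e_a2a_V_TkrABC

theorem w_a_3e_a2s : AW p3e q2s c_2360_3920_m180_985 c_2750_4999_m650_610
    c_2120_2740_m580_m100 (wl .threeE .two) := fun D =>
  runV D (wl_ok _ _) r_a_3e_a2s_V_TkrABC

theorem w_a_3e_a3e : AW p3e q3e c_2120_2740_100_780 c_2750_4999_m650_610
    c_2120_2740_m580_m100 (wl .threeE .threeE) := fun D =>
  runU D (wl_ok _ _) r_a_3e_a3e_U_TkrABC

theorem w_a_3e_a3a : AW p3e q3a c_2260_3140_210_1145 c_2750_4999_m650_610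
    c_2120_2740_m580_m100 (wl .threeE .three) := fun D =>
  runU D (wl_ok _ _) r_a_3e_a3a_U_TkrABC

theorem w_a_3e_a3s : AW p3e q3s c_2260_3140_210_1145 c_2750_4999_m650_610
    c_2120_2740_m580_m100 (wl .threeE .three) := fun D =>
  runV D (wl_ok _ _) r_a_3e_a3s_V_TkrABC

theorem w_a_3e_a4e : AW p3e q4e c_2140_2470_380_1280 c_2750_4999_m650_610
    c_2120_2740_m580_m100 (wl .threeE .ring) := fun D =>
  runV D (wl_ok _ _) r_a_3e_a4e_V_TkrABC

theorem w_a_3e_a4a : AW p3e q4a c_2140_2680_380_1280 c_2750_4999_m650_610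
    c_2120_2740_m580_m100 (wl .threeE .ring) := fun D =>
  runV D (wl_ok _ _) r_a_3e_a4a_V_TkrABC

theorem w_a_3e_a4z : AW p3e q4z c_2140_2680_380_1280 c_2750_4999_m650_610
    c_2120_2740_m580_m100 (wl .threeE .ring) := fun D =>
  runU D (wl_ok _ _) r_a_3e_a4z_U_TkrABC

theorem w_a_3e_a4s : AW p3e q4s c_2140_2680_380_1280 c_2750_4999_m650_610
    c_2120_2740_m580_m100 (wl .threeE .ring) := fun D =>
  runV D (wl_ok _ _) r_a_3e_a4s_V_TkrABC

theorem w_a_3e_n5 : AW p3e q5 c_2140_2980_380_1380 c_2750_4999_m650_610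
    c_2120_2740_m580_m100 (wl .threeE .ring) := fun D =>
  runV D (wl_ok _ _) r_a_3e_n5_V_TkrABC

theorem w_a_3a_a2e : AW p3a q2e c_2170_3110_m660_10 c_2750_4999_m490_910
    c_2260_3140_m920_m210 (wl .three .twoE) := fun D =>
  runU D (wl_ok _ _) r_a_3a_a2e_U_TkrABC

theorem w_a_3a_a2a : AW p3a q2a c_2360_3920_m180_985 c_2750_4999_m490_910
    c_2260_3140_m920_m210 (wl .three .two) := fun D =>
  (runV D (wl_pk _ _ _) r_a_3a_a2a_V_k).join
    (runU D (wl_pk _ _ _) r_a_3a_a2a_U_TrABC) (by decide)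

theorem w_a_3a_a2s : AW p3a q2s c_2360_3920_m180_985 c_2750_4999_m490_910
    c_2260_3140_m920_m210 (wl .three .two) := fun D =>
  (runV D (wl_pk _ _ _) r_a_3a_a2s_V_k).join
    (runU D (wl_pk _ _ _) r_a_3a_a2s_U_TrABC) (by decide)

theorem w_a_3a_a3e : AW p3a q3e c_2120_2740_100_780 c_2750_4999_m490_910
    c_2260_3140_m920_m210 (wl .three .threeE) := fun D =>
  runU D (wl_ok _ _) r_a_3a_a3e_U_TkrABC

theorem w_a_3a_a3a : AW p3a q3a c_2260_3140_210_1145 c_2750_4999_m490_910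
    c_2260_3140_m920_m210 (wl .three .three) := fun D =>
  (runV D (wl_pk _ _ _) r_a_3a_a3a_V_k).join
    (runU D (wl_pk _ _ _) r_a_3a_a3a_U_TrABC) (by decide)

theorem w_a_3a_a3s : AW p3a q3s c_2260_3140_210_1145 c_2750_4999_m490_910
    c_2260_3140_m920_m210 (wl .three .three) := fun D =>
  (runV D (wl_pk _ _ _) r_a_3a_a3s_V_k).join
    (runU D (wl_pk _ _ _) r_a_3a_a3s_U_TrABC) (by decide)

theorem w_a_3a_a4e : AW p3a q4e c_2140_2470_380_1280 c_2750_4999_m490_910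
    c_2260_3140_m920_m210 (wl .three .ring) := fun D =>
  runU D (wl_ok _ _) r_a_3a_a4e_U_TkrABC

theorem w_a_3a_a4a : AW p3a q4a c_2140_2680_380_1280 c_2750_4999_m490_910
    c_2260_3140_m920_m210 (wl .three .ring) := fun D =>
  (runV D (wl_pk _ _ _) r_a_3a_a4a_V_k).join
    (runU D (wl_pk _ _ _) r_a_3a_a4a_U_TrABC) (by decide)

theorem w_a_3a_a4z : AW p3a q4z c_2140_2680_380_1280 c_2750_4999_m490_910
    c_2260_3140_m920_m210 (wl .three .ring) := fun D =>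
  runU D (wl_ok _ _) r_a_3a_a4z_U_TkrABC

theorem w_a_3a_a4s : AW p3a q4s c_2140_2680_380_1280 c_2750_4999_m490_910
    c_2260_3140_m920_m210 (wl .three .ring) := fun D =>
  (runV D (wl_pk _ _ _) r_a_3a_a4s_V_k).join
    (runU D (wl_pk _ _ _) r_a_3a_a4s_U_TrABC) (by decide)

theorem w_a_3a_n5 : AW p3a q5 c_2140_2980_380_1380 c_2750_4999_m490_910
    c_2260_3140_m920_m210 (wl .three .ring) := fun D =>
  runV D (wl_ok _ _) r_a_3a_n5_V_TkrABC

theorem w_a_3s_a2e : AW p3s q2e c_2170_3110_m660_10 c_2750_4999_m490_910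
    c_2260_3140_m920_m210 (wl .three .twoE) := fun D =>
  runU D (wl_ok _ _) r_a_3s_a2e_U_TkrABC

theorem w_a_3s_a2a : AW p3s q2a c_2360_3920_m180_985 c_2750_4999_m490_910
    c_2260_3140_m920_m210 (wl .three .two) := fun D =>
  (runV D (wl_pk _ _ _) r_a_3s_a2a_V_k).join
    (runU D (wl_pk _ _ _) r_a_3s_a2a_U_TrABC) (by decide)

theorem w_a_3s_a2s : AW p3s q2s c_2360_3920_m180_985 c_2750_4999_m490_910
    c_2260_3140_m920_m210 (wl .three .two) := fun D =>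
  runU D (wl_ok _ _) r_a_3s_a2s_U_TkrABC

theorem w_a_3s_a3e : AW p3s q3e c_2120_2740_100_780 c_2750_4999_m490_910
    c_2260_3140_m920_m210 (wl .three .threeE) := fun D =>
  runU D (wl_ok _ _) r_a_3s_a3e_U_TkrABC

theorem w_a_3s_a3a : AW p3s q3a c_2260_3140_210_1145 c_2750_4999_m490_910
    c_2260_3140_m920_m210 (wl .three .three) := fun D =>
  runU D (wl_ok _ _) r_a_3s_a3a_U_TkrABC

theorem w_a_3s_a3s : AW p3s q3s c_2260_3140_210_1145 c_2750_4999_m490_910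
    c_2260_3140_m920_m210 (wl .three .three) := fun D =>
  runU D (wl_ok _ _) r_a_3s_a3s_U_TkrABC

theorem w_a_3s_a4e : AW p3s q4e c_2140_2470_380_1280 c_2750_4999_m490_910
    c_2260_3140_m920_m210 (wl .three .ring) := fun D =>
  runU D (wl_ok _ _) r_a_3s_a4e_U_TkrABC

theorem w_a_3s_a4a : AW p3s q4a c_2140_2680_380_1280 c_2750_4999_m490_910
    c_2260_3140_m920_m210 (wl .three .ring) := fun D =>
  runU D (wl_ok _ _) r_a_3s_a4a_U_TkrABC

theorem w_a_3s_a4z : AW p3s q4z c_2140_2680_380_1280 c_2750_4999_m490_910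
    c_2260_3140_m920_m210 (wl .three .ring) := fun D =>
  runU D (wl_ok _ _) r_a_3s_a4z_U_TkrABC

theorem w_a_3s_a4s : AW p3s q4s c_2140_2680_380_1280 c_2750_4999_m490_910
    c_2260_3140_m920_m210 (wl .three .ring) := fun D =>
  runU D (wl_ok _ _) r_a_3s_a4s_U_TkrABC

theorem w_a_3s_n5 : AW p3s q5 c_2140_2980_380_1380 c_2750_4999_m490_910
    c_2260_3140_m920_m210 (wl .three .ring) := fun D =>
  runV D (wl_ok _ _) r_a_3s_n5_V_TkrABC

theorem w_a_Z_a2e : AW pZ q2e c_2170_3110_m660_10 c_2750_5000_m510_1170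
    c_2140_2980_m1360_m380 (wl .ring .twoE) := fun D =>
  runU D (wl_ok _ _) r_a_Z_a2e_U_TkrABC

theorem w_a_Z_a2a : AW pZ q2a c_2360_3920_m180_985 c_2750_5000_m510_1170
    c_2140_2980_m1360_m380 (wl .ring .two) := fun D =>
  (runV D (wl_pk _ _ _) r_a_Z_a2a_V_k).join
    (runU D (wl_pk _ _ _) r_a_Z_a2a_U_TrABC) (by decide)

theorem w_a_Z_a2s : AW pZ q2s c_2360_3920_m180_985 c_2750_5000_m510_1170
    c_2140_2980_m1360_m380 (wl .ring .two) := fun D =>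
  (runV D (wl_pk _ _ _) r_a_Z_a2s_V_k).join
    (runU D (wl_pk _ _ _) r_a_Z_a2s_U_TrABC) (by decide)

theorem w_a_Z_a3e : AW pZ q3e c_2120_2740_100_780 c_2750_5000_m510_1170
    c_2140_2980_m1360_m380 (wl .ring .threeE) := fun D =>
  runU D (wl_ok _ _) r_a_Z_a3e_U_TkrABC

theorem w_a_Z_a3a : AW pZ q3a c_2260_3140_210_1145 c_2750_5000_m510_1170
    c_2140_2980_m1360_m380 (wl .ring .three) := fun D =>
  (runV D (wl_pk _ _ _) r_a_Z_a3a_V_k).join
    (runU D (wl_pk _ _ _) r_a_Z_a3a_U_TrABC) (by decide)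

theorem w_a_Z_a3s : AW pZ q3s c_2260_3140_210_1145 c_2750_5000_m510_1170
    c_2140_2980_m1360_m380 (wl .ring .three) := fun D =>
  (runV D (wl_pk _ _ _) r_a_Z_a3s_V_k).join
    (runU D (wl_pk _ _ _) r_a_Z_a3s_U_TrABC) (by decide)

theorem w_a_Z_a4e : AW pZ q4e c_2140_2470_380_1280 c_2750_5000_m510_1170
    c_2140_2980_m1360_m380 (wl .ring .ring) := fun D =>
  runU D (wl_ok _ _) r_a_Z_a4e_U_TkrABC

theorem w_a_Z_a4a : AW pZ q4a c_2140_2680_380_1280 c_2750_5000_m510_1170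
    c_2140_2980_m1360_m380 (wl .ring .ring) := fun D =>
  (runV D (wl_pk _ _ _) r_a_Z_a4a_V_k).join
    (runU D (wl_pk _ _ _) r_a_Z_a4a_U_TrABC) (by decide)

theorem w_a_Z_a4z : AW pZ q4z c_2140_2680_380_1280 c_2750_5000_m510_1170
    c_2140_2980_m1360_m380 (wl .ring .ring) := fun D =>
  runU D (wl_ok _ _) r_a_Z_a4z_U_TkrABC

theorem w_a_Z_a4s : AW pZ q4s c_2140_2680_380_1280 c_2750_5000_m510_1170
    c_2140_2980_m1360_m380 (wl .ring .ring) := fun D =>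
  (runV D (wl_pk _ _ _) r_a_Z_a4s_V_k).join
    (runU D (wl_pk _ _ _) r_a_Z_a4s_U_TrABC) (by decide)

theorem w_a_Z_n5 : AW pZ q5 c_2140_2980_380_1380 c_2750_5000_m510_1170
    c_2140_2980_m1360_m380 (wl .ring .ring) := fun D =>
  (runV D (wl_pk _ _ _) r_a_Z_n5_V_k).join
    (runU D (wl_pk _ _ _) r_a_Z_n5_U_TrABC) (by decide)

theorem w_s_1aX_U2 : SW p1X r2 c_2750_4365_m800_560 c_2750_4365_m560_560
    c_2750_4365_m560_960 (wl .one .one) := fun D =>
  runV D (wl_ok _ _) r_s_1aX_U2_V_TkrABC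

theorem w_s_1aY_2e : SW p1Y r2e c_2750_4365_m800_330 c_2750_4365_m560_560
    c_2750_4365_m560_960 (wl .one .one) := fun D =>
  runU D (wl_ok _ _) r_s_1aY_2e_U_TkrABC

theorem w_s_1aY_U3 : SW p1Y r3 c_2750_4365_m650_560 c_2750_4365_m560_560
    c_2750_4365_m560_960 (wl .one .one) := fun D =>
  (runV D (wl_pk _ _ _) r_s_1aY_U3_V_kA).join
    (runU D (wl_pk _ _ _) r_s_1aY_U3_U_TrBC) (by decide)

theorem w_s_1s_2e : SW p1s r2e c_2750_4365_m800_330 c_2750_4365_m560_560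
    c_2750_4365_m560_560 (wl .one .one) := fun D =>
  runU D (wl_ok _ _) r_s_1s_2e_U_TkrABC

theorem w_s_1s_U3 : SW p1s r3 c_2750_4365_m650_560 c_2750_4365_m560_560
    c_2750_4365_m560_560 (wl .one .one) := fun D =>
  (runV D (wl_pk _ _ _) r_s_1s_U3_V_k).join
    (runU D (wl_pk _ _ _) r_s_1s_U3_U_TrABC) (by decide)

theorem w_s_2e_U2 : SW p2e r2 c_2750_4365_m800_560 c_2750_4365_m800_330
    c_2170_3110_160_660 (wl .twoE .one) := fun D =>
  runV D (wl_ok _ _) r_s_2e_U2_V_TkrABC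

theorem w_s_2a_2e : SW p2a r2e c_2750_4365_m800_330 c_2750_4365_m540_560
    c_2360_3920_m790_180 (wl .two .one) := fun D =>
  runU D (wl_ok _ _) r_s_2a_2e_U_TkrABC

theorem w_s_2a_U3 : SW p2a r3 c_2750_4365_m650_560 c_2750_4365_m540_560
    c_2360_3920_m790_180 (wl .two .one) := fun D =>
  (runV D (wl_pk _ _ _) r_s_2a_U3_V_k).join
    (runU D (wl_pk _ _ _) r_s_2a_U3_U_TrABC) (by decide)

theorem w_s_2s_2e : SW p2s r2e c_2750_4365_m800_330 c_2750_4365_m540_560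
    c_2360_3920_m790_180 (wl .two .one) := fun D =>
  runU D (wl_ok _ _) r_s_2s_2e_U_TkrABC

theorem w_s_2s_U3 : SW p2s r3 c_2750_4365_m650_560 c_2750_4365_m540_560
    c_2360_3920_m790_180 (wl .two .one) := fun D =>
  (runV D (wl_pk _ _ _) r_s_2s_U3_V_k).join
    (runU D (wl_pk _ _ _) r_s_2s_U3_U_TrABC) (by decide)

theorem w_s_3e_U2 : SW p3e r2 c_2750_4365_m800_560 c_2750_4365_m650_560
    c_2120_2740_m580_m100 (wl .threeE .one) := fun D =>
  runV D (wl_ok _ _) r_s_3e_U2_V_TkrABC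

theorem w_s_3a_1a : SW p3a r1a c_2750_4365_m560_560 c_2750_4365_m490_560
    c_2260_3140_m920_m210 (wl .three .one) := fun D =>
  (runV D (wl_pk _ _ _) r_s_3a_1a_V_kA).join
    (runU D (wl_pk _ _ _) r_s_3a_1a_U_TrBC) (by decide)

theorem w_s_3a_2e : SW p3a r2e c_2750_4365_m800_330 c_2750_4365_m490_560
    c_2260_3140_m920_m210 (wl .three .one) := fun D =>
  runU D (wl_ok _ _) r_s_3a_2e_U_TkrABC

theorem w_s_3a_S3 : SW p3a r4 c_2750_4365_m650_560 c_2750_4365_m490_560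
    c_2260_3140_m920_m210 (wl .three .one) := fun D =>
  runV D (wl_ok _ _) r_s_3a_S3_V_TkrABC

theorem w_s_3s_1a : SW p3s r1a c_2750_4365_m560_560 c_2750_4365_m490_560
    c_2260_3140_m920_m210 (wl .three .one) := fun D =>
  (runV D (wl_pk _ _ _) r_s_3s_1a_V_k).join
    (runU D (wl_pk _ _ _) r_s_3s_1a_U_TrABC) (by decide)

theorem w_s_3s_2e : SW p3s r2e c_2750_4365_m800_330 c_2750_4365_m490_560
    c_2260_3140_m920_m210 (wl .three .one) := fun D =>
  runU D (wl_ok _ _) r_s_3s_2e_U_TkrABC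

theorem w_s_3s_S3 : SW p3s r4 c_2750_4365_m650_560 c_2750_4365_m490_560
    c_2260_3140_m920_m210 (wl .three .one) := fun D =>
  runV D (wl_ok _ _) r_s_3s_S3_V_TkrABC

theorem w_s_Z5_1aX : SW pZ5 r1X c_2750_4365_m560_560 c_2750_4365_m510_560
    c_2140_2980_m1280_m380 (wl .ring .one) := fun D =>
  runU D (wl_ok _ _) r_s_Z5_1aX_U_TkrABC

theorem w_s_Z5_1aY : SW pZ5 r1Y c_2750_4365_m560_560 c_2750_4365_m510_560
    c_2140_2980_m1280_m380 (wl .ring .one) := fun D =>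
  (runV D (wl_pk _ _ _) r_s_Z5_1aY_V_k).join
    (runU D (wl_pk _ _ _) r_s_Z5_1aY_U_TrABC) (by decide)

theorem w_s_Z5_2e : SW pZ5 r2e c_2750_4365_m800_330 c_2750_4365_m510_560
    c_2140_2980_m1280_m380 (wl .ring .one) := fun D =>
  runU D (wl_ok _ _) r_s_Z5_2e_U_TkrABC

theorem w_s_Z5_S3 : SW pZ5 r4 c_2750_4365_m650_560 c_2750_4365_m510_560
    c_2140_2980_m1280_m380 (wl .ring .one) := fun D =>
  (runV D (wl_pk _ _ _) r_s_Z5_S3_V_k).join
    (runU D (wl_pk _ _ _) r_s_Z5_S3_U_TrABC) (by decide)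

theorem w_s_ZL_2e : SW pZL r2e c_2750_4365_m800_330 c_2750_4365_m510_560
    c_2140_2980_m1360_m380 (wl .ring .one) := fun D =>
  runU D (wl_ok _ _) r_s_ZL_2e_U_TkrABC

theorem w_s_ZL_U3 : SW pZL r3 c_2750_4365_m650_560 c_2750_4365_m510_560
    c_2140_2980_m1360_m380 (wl .ring .one) := fun D =>
  (runV D (wl_pk _ _ _) r_s_ZL_U3_V_k).join
    (runU D (wl_pk _ _ _) r_s_ZL_U3_U_TrABC) (by decide)

theorem w3_2e : SW pZ r2e c_2750_4365_m800_330 c_2750_4365_m510_560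
    c_2140_2980_m1360_m380 w52 := fun D =>
  runU D w52_ok r_s_Z_2e_U_three

theorem w3_3e : SW pZ r3e c_2750_4365_m650_560 c_2750_4365_m510_560
    c_2140_2980_m1360_m380 w67 := fun D =>
  runU D w67_ok r_s_Z_3e_U_three

theorem w3_2a : SW pZ r2a c_2750_4365_m540_560 c_2750_4365_m510_560
    c_2140_2980_m1360_m380 w91 := fun D =>
  runU D w91_ok r_s_Z_2a_U_three

theorem w3_2s : SW pZ r2s c_2750_4365_m540_560 c_2750_4365_m510_560
    c_2140_2980_m1360_m380 w91 := fun D =>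
  runU D w91_ok r_s_Z_2s_U_three

theorem w3_Z : SW pZ rZ c_2750_4365_m510_560 c_2750_4365_m510_560
    c_2140_2980_m1360_m380 w105 := fun D =>
  runU D w105_ok r_s_Z_Z_U_three

end Pool.Agent.Work.MP_b30479_gt.G2.CN.PW
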