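import Pool.Agent.Work.MP_b30479_gt.G2.CN.LocA
import Pool.Agent.Work.MP_b30479_gt.G2.SRefK

/-!
# Location of the saddle point: alternating words with all digits at least `4`
-/

namespace Pool.Agent.Work.MP_b30479_gt.G2.CN.LA

open Complex SR Set
open scoped ComplexConjugate

/-- the restriction to the rings of an alternating word with all digits at least `4` -/
def ringK (K : KFam) : KFam where
  K d l r := {k | k ∈ K.K d l r ∧ 4 ≤ d ∧ Alt l ∧ Alt r}
  symm d l r := by
    ext k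
    simp only [Set.mem_ofPred_eq, K.symm d l r]
    tauto

lemma ringK_le (K : KFam) : (ringK K).Le K := fun _ _ _ _ h => h.1

lemma ringK_ok {K : KFam} (hK : KOK K) : KOK (ringK K) :=
  ⟨fun h _ hk => hK.sub h hk.1⟩

lemma ring_view {K : KFam} {x : SK} {d : ℕ} {l : SK} {d' : ℕ} {l' : SK} {R k k' : ℂ}
    (h : HDt (ringK K) x d l d' l' R k k') : x = .a ∧ 4 ≤ d ∧ Alt l ∧ 4 ≤ d' ∧ Alt l' := by
  have h1 := h.mem.2
  have hx : x = .a := h1.2.2.resolve_left h.ok.ne
  subst hx
  have h2 := h.mem'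
  rw [show SK.a.sgn = -1 from rfl, frS_neg] at h2
  exact ⟨rfl, h1.1, h1.2.1, h2.2.1, h2.2.2.2⟩

/-! ### one round -/

/-- the statements of one round -/
structure LowA (q : ℕ → SK → SK → Option (List (ℤ × ℤ))) (p : PT) : Prop where
  ends : ∀ d, 4 ≤ d → d ≤ 7 → ∃ V, q d .e .a = some V ∧
    Rf1 (d : ℝ) (rty d .e .a) (prt p .a d d) V
  inner : ∀ d, 4 ≤ d → d ≤ 7 → ∃ V, q d .a .a = some V ∧
    Rf2 (d : ℝ) (rty d .a .a) (prt p .a d d) (prt p .a d d) V

theorem refine_ring {K : KFam} {q q' : ℕ → SK → SK → Option (List (ℤ × ℤ))}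
    {vh : SK → SK → List (ℤ × ℤ)} {p : PT} {hq : ∀ B l r, q' B l r = q' B r l} (hle : K.Le K0)
    (hS : Src K q vh) (hT : tab q vh p = true) (hL : LowA q' p) :
    Refine (ringK K) (ringK (Kq q' vr hq vr_symm)) := by
  constructor
  · intro d l r dl ll dr rr w kl kr h
    obtain ⟨rfl, h4, -, -, -⟩ := ring_view h.left
    obtain ⟨rfl, -, -, -, -⟩ := ring_view h.right
    refine ⟨?_, h4, Or.inr rfl, Or.inr rfl⟩
    have h' := h.mono (ringK_le K)
    rcases lt_or_ge d 8 with h8 | h8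
    · obtain ⟨V, e, hR⟩ := hL.inner d h4 (by omega)
      have e' : pol q' vr d .a .a = some V := by
        unfold pol
        rw [if_neg (show ¬ 8 ≤ crs d .a .a from not_le.2 h8)]
        exact e
      rw [Kq_some e']
      have hl : kl ∈ prt p .a d d := port_in hS hT h'.left.ok h'.left.mem'
      have hr : kr ∈ prt p .a d d := port_in hS hT h'.right.ok h'.right.mem'
      have hz : Complex.cos w ∈ Poly (vt (rty d .a .a)) := KB.polyU_sub _ (hle _ _ _ h'.right.mem)
      refine hR kl hl kr hr w h.w0.le h.w1.le h.wi.le hz h.left.Rre.le h.right.Rre.le ?_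
      rw [Complex.ofReal_natCast]
      exact h.eq
    · rw [Kq_some (V := Z8.v8 .a .a) (by unfold pol; rw [if_pos (show 8 ≤ crs d .a .a from h8)]; rfl)]
      exact Z8.mem8 hle h' h8
  · intro d r dr rr w kr h
    obtain ⟨rfl, h4, -, -, -⟩ := ring_view h.right
    refine ⟨?_, h4, Or.inl rfl, Or.inr rfl⟩
    have h' := h.mono (ringK_le K)
    rcases lt_or_ge d 8 with h8 | h8
    · obtain ⟨V, e, hR⟩ := hL.ends d h4 (by omega)
      have e' : pol q' vr d .e .a = some V := by
        unfold pol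
        rw [if_neg (show ¬ 8 ≤ crs d .e .a from not_le.2 h8)]
        exact e
      rw [Kq_some e']
      have hr : kr ∈ prt p .a d d := port_in hS hT h'.right.ok h'.right.mem'
      have hz : Complex.cos w ∈ Poly (vt (rty d .e .a)) := KB.polyU_sub _ (hle _ _ _ h'.right.mem)
      refine hR kr hr w h.w0.le h.w1.le h.wi.le hz h.right.Rre.le ?_
      rw [Complex.ofReal_natCast]
      exact h.eq
    · rw [Kq_some (V := Z8.v8 .e .a) (by unfold pol; rw [if_pos (show 8 ≤ crs d .e .a from h8)]; rfl)]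
      exact Z8.mem8e hle h' h8

/-! ### boxes -/

section
variable {K : KFam} (hK : KOK K)
include hK

/-- the hinges of two rings of opposite signs -/
theorem un_rr {d : ℕ} {l : SK} {d' : ℕ} {l' : SK} {R k k' : ℂ} (h : HDt K .a d l d' l' R k k')
    (h4 : 4 ≤ d) (h4' : 4 ≤ d') (hl : Alt l) (hl' : Alt l') :
    (hbox .ring .ring false).In (acot2 R) ∧ (d = 4 → -(25 / 1000) ≤ (acot2 R).im) := by
  have has : ∀ {d : ℕ} {l : SK}, 4 ≤ d → Alt l → ∃ c : CA, c.Has d l ∧
      ((c = .a4a ∧ d = 4) ∨ (c = .a4e ∧ d = 4) ∨ (c = .n5 ∧ 5 ≤ d)) := by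
    intro d l h4 hl
    rcases Nat.lt_or_ge d 5 with h5 | h5
    · have : d = 4 := by omega
      subst this
      rcases hl with rfl | rfl
      · exact ⟨.a4e, ⟨rfl, rfl⟩, by simp⟩
      · exact ⟨.a4a, ⟨rfl, rfl⟩, by simp⟩
    · exact ⟨.n5, h5, by simp [h5]⟩
  have key : ∀ {B : Box} {y : ℂ}, B.In y → 1820 / 10000 ≤ B.x0 → B.x1 ≤ 2520 / 10000 →
      -(385 / 10000) ≤ B.t0 → B.t1 ≤ 385 / 10000 → (hbox .ring .ring false).In y := by
    rintro B y ⟨a1, a2, a3, a4⟩ b1 b2 b3 b4
    refine ⟨?_, ?_, ?_, ?_⟩ <;> norm_num [hbox] <;> linarith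
  have sym : ∀ {B : Box}, B.In (acot2 (fz SK.a.sgn R)) → B.neg.In (acot2 R) := by
    intro B h3
    rw [show fz SK.a.sgn R = conj R from fz_neg R, acot2_conj] at h3
    obtain ⟨a1, a2, a3, a4⟩ := h3
    rw [Complex.conj_re] at a1 a2
    rw [Complex.conj_im] at a3 a4
    exact ⟨a1, a2, by show -B.t1 ≤ _; linarith, by show _ ≤ -B.t0; linarith⟩
  obtain ⟨c, h1, hc⟩ := has h4 hl
  obtain ⟨c', h2, hc'⟩ := has h4' hl'
  have hr := h.rev
  rcases hc with ⟨rfl, hd⟩ | ⟨rfl, hd⟩ | ⟨rfl, hd⟩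
  · rcases hc' with ⟨rfl, hd'⟩ | ⟨rfl, hd'⟩ | ⟨rfl, hd'⟩
    · have h3 := pH_a4a_a4a hK h1 h2 h
      refine ⟨key h3 ?_ ?_ ?_ ?_, fun _ => ?_⟩
      · norm_num [BB.box, b1820_2520_m250_250]
      · norm_num [BB.box, b1820_2520_m250_250]
      · norm_num [BB.box, b1820_2520_m250_250]
      · norm_num [BB.box, b1820_2520_m250_250]
      · have := h3.2.2.1
        norm_num [BB.box, b1820_2520_m250_250] at this
        linarith
    · have h3 := pH_a4a_a4e hK h1 h2 h
      refine ⟨key h3 ?_ ?_ ?_ ?_, fun _ => ?_⟩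
      · norm_num [BB.box, b1820_2520_m250_250]
      · norm_num [BB.box, b1820_2520_m250_250]
      · norm_num [BB.box, b1820_2520_m250_250]
      · norm_num [BB.box, b1820_2520_m250_250]
      · have := h3.2.2.1
        norm_num [BB.box, b1820_2520_m250_250] at this
        linarith
    · have h3 := pH_a4a_n5 hK h1 h2 h
      refine ⟨key h3 ?_ ?_ ?_ ?_, fun _ => ?_⟩
      · norm_num [BB.box, b1820_2520_m250_385]
      · norm_num [BB.box, b1820_2520_m250_385]
      · norm_num [BB.box, b1820_2520_m250_385]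
      · norm_num [BB.box, b1820_2520_m250_385]
      · have := h3.2.2.1
        norm_num [BB.box, b1820_2520_m250_385] at this
        linarith
  · rcases hc' with ⟨rfl, hd'⟩ | ⟨rfl, hd'⟩ | ⟨rfl, hd'⟩
    · have h3 := sym (pH_a4a_a4e hK h2 h1 hr)
      refine ⟨key h3 ?_ ?_ ?_ ?_, fun _ => ?_⟩
      · norm_num [BB.box, Box.neg, b1820_2520_m250_250]
      · norm_num [BB.box, Box.neg, b1820_2520_m250_250]
      · norm_num [BB.box, Box.neg, b1820_2520_m250_250]
      · norm_num [BB.box, Box.neg, b1820_2520_m250_250]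
      · have := h3.2.2.1
        norm_num [BB.box, Box.neg, b1820_2520_m250_250] at this
        linarith
    · have h3 := pH_a4e_a4e hK h1 h2 h
      refine ⟨key h3 ?_ ?_ ?_ ?_, fun _ => ?_⟩
      · norm_num [BB.box, b1820_2520_m250_250]
      · norm_num [BB.box, b1820_2520_m250_250]
      · norm_num [BB.box, b1820_2520_m250_250]
      · norm_num [BB.box, b1820_2520_m250_250]
      · have := h3.2.2.1
        norm_num [BB.box, b1820_2520_m250_250] at this
        linarith
    · have h3 := pH_a4e_n5 hK h1 h2 h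
      refine ⟨key h3 ?_ ?_ ?_ ?_, fun _ => ?_⟩
      · norm_num [BB.box, b1820_2520_m250_385]
      · norm_num [BB.box, b1820_2520_m250_385]
      · norm_num [BB.box, b1820_2520_m250_385]
      · norm_num [BB.box, b1820_2520_m250_385]
      · have := h3.2.2.1
        norm_num [BB.box, b1820_2520_m250_385] at this
        linarith
  · rcases hc' with ⟨rfl, hd'⟩ | ⟨rfl, hd'⟩ | ⟨rfl, hd'⟩
    · refine ⟨key (sym (pH_a4a_n5 hK h2 h1 hr)) ?_ ?_ ?_ ?_, fun h => absurd h (by omega)⟩ <;>
        norm_num [BB.box, Box.neg, b1820_2520_m250_385]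
    · refine ⟨key (sym (pH_a4e_n5 hK h2 h1 hr)) ?_ ?_ ?_ ?_, fun h => absurd h (by omega)⟩ <;>
        norm_num [BB.box, Box.neg, b1820_2520_m250_385]
    · refine ⟨key (pH_n5_n5 hK h1 h2 h) ?_ ?_ ?_ ?_, fun h => absurd h (by omega)⟩ <;>
        norm_num [BB.box, b1820_2520_m385_385]

theorem ring_boxRows (h0 : K.Le K0) : BoxRows (ringK K) where
  un := by
    intro x d l d' l' R k k' _ h
    obtain ⟨rfl, h4, hl, h4', hl'⟩ := ring_view h
    rw [cK_ring h4, cK_ring h4']
    exact (un_rr hK (h.mono (ringK_le K)) h4 h4' hl hl').1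
  sp h := absurd (ring_view h).1 (by decide)
  mid h := absurd (ring_view h.left).2.1 (by decide)
  midE h := absurd (ring_view h.right).2.1 (by decide)
  ring h4 h := M4.ring_box hK h0 h4 (h.mono (ringK_le K))
  ringE h4 h := M4.end_box hK h0 h4 (h.mono (ringK_le K))

theorem ring_xRows : XRows (ringK K) where
  one h := absurd (ring_view h.left).2.1 (by decide)
  absd h := absurd (ring_view h).1 (by decide)
  one4a h := absurd (ring_view h).2.2.2.1 (by decide)
  one4s h := absurd (ring_view h).1 (by decide)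
  one5a h := absurd (ring_view h).2.2.2.1 (by decide)
  one5s h := absurd (ring_view h).1 (by decide)
  lo4 h hd := absurd (ring_view h).2.2.2.1 (by omega)
  three h _ _ := absurd (ring_view h).2.1 (by decide)
  rr4 := by
    intro x l d' l' R k k' h _ _
    obtain ⟨rfl, h4, hl, h4', hl'⟩ := ring_view h
    exact (un_rr hK (h.mono (ringK_le K)) h4 h4' hl hl').2 rfl
  mid h := absurd (ring_view h.left).2.1 (by decide)

theorem ring_zRows : ZRows (ringK K) where
  sE4a h := M4.sE4a hK (h.mono (ringK_le K))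
  sE4s h := M4.sE4s hK (h.mono (ringK_le K))
  sE5 h hr := M4.sE5 hK (h.mono (ringK_le K)) hr
  s4s h := M4.s4s hK (h.mono (ringK_le K))
  s4 h := M4.s4 hK (h.mono (ringK_le K))
  y41 h := absurd (ring_view h).2.2.2.1 (by decide)
  y41e h := absurd (ring_view h).2.2.2.1 (by decide)
  y42e h _ := absurd (ring_view h).2.2.2.1 (by decide)
  y4z h := absurd (ring_view h).1 (by decide)
  y4s h := absurd (ring_view h).1 (by decide)
  y4se h := absurd (ring_view h).1 (by decide)

/-- **The location of the saddle point of an alternating word with all digits at least `4`.** -/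
theorem ring_loc (h0 : K.Le K0) {M : ℕ} {b : Fin (M + 1) → ℤ} {w : ℕ → ℂ} (hb : ClassW b)
    (F : RingFacts) (hw : Sol b w) (hM : 1 ≤ M) (hS : Snd (ringK K) b w) :
    LocOK b w ∧ Loc b (zsW b w) ∧ LocX b (zsW b w) := by
  have B := ring_boxRows hK h0
  have h1 := locOK_of_boxes hb F hw hM hS B
    (fun h => absurd (ring_view h.left).2.1 (by decide))
    (fun h4 h => hZ_of B (ring_zRows hK) h4 h) (fun h4 h => hZe_of B (ring_zRows hK) h4 h)
  exact ⟨h1.1, h1.2, locX_of_rows hb F hw hS (ring_xRows hK)⟩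

end

section
variable {M : ℕ} {b : Fin (M + 1) → ℤ} {w : ℕ → ℂ}

lemma snd_ring {K : KFam} (hS : Snd K b w) (h4 : ∀ i, 4 ≤ (b i).natAbs)
    (ha : ∀ h : Fin M, b h.castSucc * b h.succ < 0) : Snd (ringK K) b w := by
  have h2 := snd_alt hS (fun i => le_trans (by norm_num) (h4 i)) ha
  intro n hn hu
  obtain ⟨h5, -, h6, h7⟩ := h2 n hn hu
  refine ⟨h5, ?_, h6, h7⟩
  unfold dg
  rw [bb_lt (by omega)]
  exact h4 _

end

end Pool.Agent.Work.MP_b30479_gt.G2.CN.LA
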