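import Pool.Agent.Work.MP_b30479_gt.G2.CN.RingA
import Pool.Agent.Work.MP_b30479_gt.G2.SRefL
import Pool.Agent.Work.MP_b30479_gt.G2.CN.KokR

/-!
# Location of the saddle point: alternating words with all digits at least `4`, certificates
-/

namespace Pool.Agent.Work.MP_b30479_gt.G2.CN.LA

open Complex SR SC

theorem lowA1 : LowA q1 pt1 := by
  constructor
  · intro d h4 h7
    interval_cases d
    · exact ⟨_, rfl, rf1_4ea⟩
    · exact ⟨_, rfl, rf1_5ea⟩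
    · exact ⟨_, rfl, rf1_6ea⟩
    · exact ⟨_, rfl, rf1_7ea⟩
  · intro d h4 h7
    interval_cases d
    · exact ⟨_, rfl, rf1_4aa⟩
    · exact ⟨_, rfl, rf1_5aa⟩
    · exact ⟨_, rfl, rf1_6aa⟩
    · exact ⟨_, rfl, rf1_7aa⟩

theorem lowA2 : LowA q2 pt2 := by
  constructor
  · intro d h4 h7
    interval_cases d
    · exact ⟨_, rfl, rf2_4ea⟩
    · exact ⟨_, rfl, rf2_5ea⟩
    · exact ⟨_, rfl, rf2_6ea⟩
    · exact ⟨_, rfl, rf2_7ea⟩
  · intro d h4 h7
    interval_cases d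
    · exact ⟨_, rfl, rf2_4aa⟩
    · exact ⟨_, rfl, rf2_5aa⟩
    · exact ⟨_, rfl, rf2_6aa⟩
    · exact ⟨_, rfl, rf2_7aa⟩

theorem lowA3 : LowA q3 pt3 := by
  constructor
  · intro d h4 h7
    interval_cases d
    · exact ⟨_, rfl, rf3_4ea⟩
    · exact ⟨_, rfl, rf3_5ea⟩
    · exact ⟨_, rfl, rf3_6ea⟩
    · exact ⟨_, rfl, rf3_7ea⟩
  · intro d h4 h7
    interval_cases d
    · exact ⟨_, rfl, rf3_4aa⟩
    · exact ⟨_, rfl, rf3_5aa⟩
    · exact ⟨_, rfl, rf3_6aa⟩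
    · exact ⟨_, rfl, rf3_7aa⟩

variable {M : ℕ} {b : Fin (M + 1) → ℤ} {w : ℕ → ℂ}

theorem snd3_ring (hb : ClassW b) (hw : Sol b w) (hM : 1 ≤ M) (h4 : ∀ i, 4 ≤ (b i).natAbs)
    (ha : ∀ h : Fin M, b h.castSucc * b h.succ < 0) : Snd (ringK Kr3) b w :=
  Snd.refine hb ringFacts hw hM (refine_ring Kr2_le (src_Kq tab3) tab3 lowA3)
    (Snd.refine hb ringFacts hw hM (refine_ring Kr1_le (src_Kq tab2) tab2 lowA2)
      (Snd.refine hb ringFacts hw hM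
        (refine_ring (fun _ _ _ => Set.Subset.rfl) src_K0 tab1 lowA1)
        (snd_ring (snd_K0 hb hw) h4 ha)))

/-- **The location of the saddle point of an alternating word with all digits at least `4`.** -/
theorem ring_loc3 (hb : ClassW b) (hw : Sol b w) (hM : 1 ≤ M) (h4 : ∀ i, 4 ≤ (b i).natAbs)
    (ha : ∀ h : Fin M, b h.castSucc * b h.succ < 0) :
    LocOK b w ∧ Loc b (zsW b w) ∧ LocX b (zsW b w) :=
  ring_loc kok_kr3 Kr3_le hb ringFacts hw hM (snd3_ring hb hw hM h4 ha)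

end Pool.Agent.Work.MP_b30479_gt.G2.CN.LA
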