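import Pool.Agent.Work.MP_b30479_gt.G2.CN.TGoal

/-!
# Split hinges: boxes and bounds
-/

namespace Pool.Agent.Work.MP_b30479_gt.G2.CN.S6

/-- box -/
def sb2120_2740_m580_m100 : BB :=
  ⟨2120, 2740, -580, -100, -988661, -150163, 971647, -236438, 1133903, 2072692⟩
/-- box -/
def sb2120_2740_m590_m300 : BB :=
  ⟨2120, 2740, -590, -300, -988661, -150163, 971647, -236438, 1457894, 2098903⟩
/-- box -/
def sb2120_2740_m780_m690 : BB :=
  ⟨2120, 2740, -780, -690, -988661, -150163, 971647, -236438, 2379953, 2664925⟩
/-- box -/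
def sb2140_2969_m1280_m1000 : BB :=
  ⟨2140, 2969, -1280, -1000, -956913, -290375, 974541, -224210, 3513588, 4995287⟩
/-- box -/
def sb2140_2969_m1280_m380 : BB :=
  ⟨2140, 2969, -1280, -380, -956913, -290375, 974541, -224210, 1612077, 4995287⟩
/-- box -/
def sb2140_2969_m1280_m630 : BB :=
  ⟨2140, 2969, -1280, -630, -956913, -290375, 974541, -224210, 2207107, 4995287⟩
/-- box -/
def sb2140_2980_m1280_m1000 : BB :=
  ⟨2140, 2980, -1280, -1000, -954883, -296982, 974541, -224210, 3513588, 4995287⟩
/-- box -/
def sb2140_2980_m1280_m380 : BB :=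
  ⟨2140, 2980, -1280, -380, -954883, -296982, 974541, -224210, 1612077, 4995287⟩
/-- box -/
def sb2140_2980_m1280_m630 : BB :=
  ⟨2140, 2980, -1280, -630, -954883, -296982, 974541, -224210, 2207107, 4995287⟩
/-- box -/
def sb2140_2980_m1360_m380 : BB :=
  ⟨2140, 2980, -1360, -380, -954883, -296982, 974541, -224210, 1612077, 5523579⟩
/-- box -/
def sb2140_2980_m1380_m1000 : BB :=
  ⟨2140, 2980, -1380, -1000, -954883, -296982, 974541, -224210, 3513588, 5664161⟩
/-- box -/
def sb2140_2980_m1380_m630 : BB :=
  ⟨2140, 2980, -1380, -630, -954883, -296982, 974541, -224210, 2207107, 5664161⟩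
/-- box -/
def sb2140_2980_m1450_m630 : BB :=
  ⟨2140, 2980, -1450, -630, -954883, -296982, 974541, -224210, 2207107, 6184977⟩
/-- box -/
def sb2140_2980_m1580_m1000 : BB :=
  ⟨2140, 2980, -1580, -1000, -954883, -296982, 974541, -224210, 3513588, 7282587⟩
/-- box -/
def sb2160_2780_m1280_m1000 : BB :=
  ⟨2160, 2780, -1280, -1000, -984575, -174961, 977281, -211946, 3513588, 4995287⟩
/-- box -/
def sb2160_2780_m1280_m380 : BB :=
  ⟨2160, 2780, -1280, -380, -984575, -174961, 977281, -211946, 1612077, 4995287⟩
/-- box -/
def sb2160_2780_m1280_m630 : BB :=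
  ⟨2160, 2780, -1280, -630, -984575, -174961, 977281, -211946, 2207107, 4995287⟩
/-- box -/
def sb2170_3110_110_240 : BB :=
  ⟨2170, 3110, 110, 240, -927469, -373901, 978594, -205801, 739642, 870896⟩
/-- box -/
def sb2170_3110_160_660 : BB :=
  ⟨2170, 3110, 160, 660, -927469, -373901, 978594, -205801, 436322, 817859⟩
/-- box -/
def sb2170_3110_200_490 : BB :=
  ⟨2170, 3110, 200, 490, -927469, -373901, 978594, -205801, 540237, 777765⟩
/-- box -/
def sb2170_3110_240_610 : BB :=
  ⟨2170, 3110, 240, 610, -927469, -373901, 978594, -205801, 464616, 739637⟩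
/-- box -/
def sb2170_3110_250_450 : BB :=
  ⟨2170, 3110, 250, 450, -927469, -373901, 978594, -205801, 568086, 730400⟩
/-- box -/
def sb2170_3110_m10_60 : BB :=
  ⟨2170, 3110, -10, 60, -927469, -373901, 978594, -205801, 927377, 1012643⟩
/-- box -/
def sb2260_3140_m1145_m870 : BB :=
  ⟨2260, 3140, -1145, -870, -920256, -391316, 988661, -150163, 2984031, 4215840⟩
/-- box -/
def sb2260_3140_m920_m210 : BB :=
  ⟨2260, 3140, -920, -210, -920256, -391316, 988661, -150163, 1301992, 3177534⟩
/-- box -/
def sb2260_3140_m940_m460 : BB :=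
  ⟨2260, 3140, -940, -460, -920256, -391316, 988661, -150163, 1782567, 3258406⟩
/-- box -/
def sb2360_3920_m770_m100 : BB :=
  ⟨2360, 3920, -770, -100, -627740, -778423, 996139, -87789, 1133903, 2631646⟩
/-- box -/
def sb2360_3920_m790_180 : BB :=
  ⟨2360, 3920, -790, 180, -627740, -778423, 996139, -87789, 797565, 2698625⟩
/-- box -/
def sb2360_3920_m790_m50 : BB :=
  ⟨2360, 3920, -790, -50, -627740, -778423, 996139, -87789, 1064850, 2698625⟩
/-- box -/
def sb2360_3920_m800_80 : BB :=
  ⟨2360, 3920, -800, 80, -627740, -778423, 996139, -87789, 904360, 2732751⟩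
/-- box -/
def sb2360_3920_m910_m320 : BB :=
  ⟨2360, 3920, -910, -320, -627740, -778423, 996139, -87789, 1494999, 3137853⟩
/-- box -/
def sb2360_3920_m985_m480 : BB :=
  ⟨2360, 3920, -985, -480, -627740, -778423, 996139, -87789, 1827935, 3447974⟩
/-- box -/
def sb2750_4365_m490_560 : BB :=
  ⟨2750, 4365, -490, 560, -388539, -921432, 987679, 156497, 494746, 1851046⟩
/-- box -/
def sb2750_4365_m510_560 : BB :=
  ⟨2750, 4365, -510, 560, -388539, -921432, 987679, 156497, 494746, 1898157⟩
/-- box -/
def sb2750_4365_m540_560 : BB :=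
  ⟨2750, 4365, -540, 560, -388539, -921432, 987679, 156497, 494746, 1971082⟩
/-- box -/
def sb2750_4365_m560_560 : BB :=
  ⟨2750, 4365, -560, 560, -388539, -921432, 987679, 156497, 494746, 2021249⟩
/-- box -/
def sb2750_4365_m560_960 : BB :=
  ⟨2750, 4365, -560, 960, -388539, -921432, 987679, 156497, 299284, 2021249⟩
/-- box -/
def sb2750_4365_m650_560 : BB :=
  ⟨2750, 4365, -650, 560, -388539, -921432, 987679, 156497, 494746, 2263275⟩
/-- box -/
def sb2750_4365_m800_330 : BB :=
  ⟨2750, 4365, -800, 330, -388539, -921432, 987679, 156497, 660547, 2732751⟩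
/-- box -/
def sb2750_4625_m540_930 : BB :=
  ⟨2750, 4625, -540, 930, -233506, -972355, 987679, 156497, 310782, 1971082⟩
/-- box -/
def sb2750_4999_m490_910 : BB :=
  ⟨2750, 4999, -490, 910, -691, -1000000, 987679, 156497, 318691, 1851046⟩
/-- box -/
def sb2750_4999_m510_1170 : BB :=
  ⟨2750, 4999, -510, 1170, -691, -1000000, 987679, 156497, 229867, 1898157⟩
/-- box -/
def sb2750_4999_m650_610 : BB :=
  ⟨2750, 4999, -650, 610, -691, -1000000, 987679, 156497, 464616, 2263275⟩
/-- box -/
def sb2750_4999_m800_330 : BB :=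
  ⟨2750, 4999, -800, 330, -691, -1000000, 987679, 156497, 660547, 2732751⟩
/-- box -/
def sb2750_7000_m510_1170 : BB :=
  ⟨2750, 7000, -510, 1170, 951037, -309077, 987679, 156497, 229867, 1898157⟩

theorem sb2120_2740_m580_m100_ok : sb2120_2740_m580_m100.ok = true := by decide +kernel
theorem sb2120_2740_m590_m300_ok : sb2120_2740_m590_m300.ok = true := by decide +kernel
theorem sb2120_2740_m780_m690_ok : sb2120_2740_m780_m690.ok = true := by decide +kernel
theorem sb2140_2969_m1280_m1000_ok : sb2140_2969_m1280_m1000.ok = true := by decide +kernel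
theorem sb2140_2969_m1280_m380_ok : sb2140_2969_m1280_m380.ok = true := by decide +kernel
theorem sb2140_2969_m1280_m630_ok : sb2140_2969_m1280_m630.ok = true := by decide +kernel
theorem sb2140_2980_m1280_m1000_ok : sb2140_2980_m1280_m1000.ok = true := by decide +kernel
theorem sb2140_2980_m1280_m380_ok : sb2140_2980_m1280_m380.ok = true := by decide +kernel
theorem sb2140_2980_m1280_m630_ok : sb2140_2980_m1280_m630.ok = true := by decide +kernel
theorem sb2140_2980_m1360_m380_ok : sb2140_2980_m1360_m380.ok = true := by decide +kernel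
theorem sb2140_2980_m1380_m1000_ok : sb2140_2980_m1380_m1000.ok = true := by decide +kernel
theorem sb2140_2980_m1380_m630_ok : sb2140_2980_m1380_m630.ok = true := by decide +kernel
theorem sb2140_2980_m1450_m630_ok : sb2140_2980_m1450_m630.ok = true := by decide +kernel
theorem sb2140_2980_m1580_m1000_ok : sb2140_2980_m1580_m1000.ok = true := by decide +kernel
theorem sb2160_2780_m1280_m1000_ok : sb2160_2780_m1280_m1000.ok = true := by decide +kernel
theorem sb2160_2780_m1280_m380_ok : sb2160_2780_m1280_m380.ok = true := by decide +kernel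
theorem sb2160_2780_m1280_m630_ok : sb2160_2780_m1280_m630.ok = true := by decide +kernel
theorem sb2170_3110_110_240_ok : sb2170_3110_110_240.ok = true := by decide +kernel
theorem sb2170_3110_160_660_ok : sb2170_3110_160_660.ok = true := by decide +kernel
theorem sb2170_3110_200_490_ok : sb2170_3110_200_490.ok = true := by decide +kernel
theorem sb2170_3110_240_610_ok : sb2170_3110_240_610.ok = true := by decide +kernel
theorem sb2170_3110_250_450_ok : sb2170_3110_250_450.ok = true := by decide +kernel
theorem sb2170_3110_m10_60_ok : sb2170_3110_m10_60.ok = true := by decide +kernel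
theorem sb2260_3140_m1145_m870_ok : sb2260_3140_m1145_m870.ok = true := by decide +kernel
theorem sb2260_3140_m920_m210_ok : sb2260_3140_m920_m210.ok = true := by decide +kernel
theorem sb2260_3140_m940_m460_ok : sb2260_3140_m940_m460.ok = true := by decide +kernel
theorem sb2360_3920_m770_m100_ok : sb2360_3920_m770_m100.ok = true := by decide +kernel
theorem sb2360_3920_m790_180_ok : sb2360_3920_m790_180.ok = true := by decide +kernel
theorem sb2360_3920_m790_m50_ok : sb2360_3920_m790_m50.ok = true := by decide +kernel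
theorem sb2360_3920_m800_80_ok : sb2360_3920_m800_80.ok = true := by decide +kernel
theorem sb2360_3920_m910_m320_ok : sb2360_3920_m910_m320.ok = true := by decide +kernel
theorem sb2360_3920_m985_m480_ok : sb2360_3920_m985_m480.ok = true := by decide +kernel
theorem sb2750_4365_m490_560_ok : sb2750_4365_m490_560.ok = true := by decide +kernel
theorem sb2750_4365_m510_560_ok : sb2750_4365_m510_560.ok = true := by decide +kernel
theorem sb2750_4365_m540_560_ok : sb2750_4365_m540_560.ok = true := by decide +kernel
theorem sb2750_4365_m560_560_ok : sb2750_4365_m560_560.ok = true := by decide +kernel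
theorem sb2750_4365_m560_960_ok : sb2750_4365_m560_960.ok = true := by decide +kernel
theorem sb2750_4365_m650_560_ok : sb2750_4365_m650_560.ok = true := by decide +kernel
theorem sb2750_4365_m800_330_ok : sb2750_4365_m800_330.ok = true := by decide +kernel
theorem sb2750_4625_m540_930_ok : sb2750_4625_m540_930.ok = true := by decide +kernel
theorem sb2750_4999_m490_910_ok : sb2750_4999_m490_910.ok = true := by decide +kernel
theorem sb2750_4999_m510_1170_ok : sb2750_4999_m510_1170.ok = true := by decide +kernel
theorem sb2750_4999_m650_610_ok : sb2750_4999_m650_610.ok = true := by decide +kernel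
theorem sb2750_4999_m800_330_ok : sb2750_4999_m800_330.ok = true := by decide +kernel
theorem sb2750_7000_m510_1170_ok : sb2750_7000_m510_1170.ok = true := by decide +kernel

/-- bounds of the sum -/
def gu1_1 : List GC :=
  [.lo (-600) 2125445, .hi 850 343649, .arc 8000 12000 (951076) (308957)]
/-- bounds of the sum -/
def gu1_2 : List GC :=
  [.lo (-950) 3299611, .hi 490 540237, .arc 8000 12000 (951076) (308957)]
/-- bounds of the sum -/
def gu1_2e : List GC :=
  [.lo (-370) 1591941, .hi 560 494746, .arc 8000 12000 (951076) (308957)]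
/-- bounds of the sum -/
def gu1_3 : List GC :=
  [.lo (-1110) 4034436, .hi 220 758466, .arc 8000 12000 (951076) (308957)]
/-- bounds of the sum -/
def gu1_3e : List GC :=
  [.lo (-1010) 3558015, .hi 110 870901, .arc 8000 12000 (951076) (308957)]
/-- bounds of the sum -/
def gu1_r : List GC :=
  [.lo (-1430) 6031469, .hi 100 881914, .arc 7600 12000 (998031) (62728), .arc 1000 5900 (-535880) (844294)]
/-- bounds of the sum -/
def gu2_2 : List GC :=
  [.lo (-1300) 5122424, .hi (-420) 1695180, .arc 8000 12000 (951076) (308957)]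
/-- bounds of the sum -/
def gu2_3 : List GC :=
  [.lo (-1480) 6422596, .hi (-780) 2664930, .arc 8000 12000 (951076) (308957)]
/-- bounds of the sum -/
def gu2_3e : List GC :=
  [.lo (-1340) 5386486, .hi (-830) 2837745, .arc 8000 12000 (951076) (308957)]
/-- bounds of the sum -/
def gu2_r : List GC :=
  [.lo (-1870) 10484637, .hi (-940) 3258411, .arc 8000 12000 (951076) (308957)]
/-- bounds of the sum -/
def gu2e_2 : List GC :=
  [.lo (-640) 2235012, .hi (-210) 1301992, .arc 8000 12000 (951076) (308957)]
/-- bounds of the sum -/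
def gu2e_2e : List GC :=
  [.lo (-60) 1078311, .hi 60 927377, .arc 8000 12000 (951076) (308957)]
/-- bounds of the sum -/
def gu2e_3 : List GC :=
  [.lo (-770) 2631646, .hi (-510) 1898162, .arc 8000 12000 (951076) (308957)]
/-- bounds of the sum -/
def gu2e_3e : List GC :=
  [.lo (-640) 2235012, .hi (-510) 1898162, .arc 8000 12000 (951076) (308957)]
/-- bounds of the sum -/
def gu2e_r : List GC :=
  [.lo (-1060) 3788744, .hi (-640) 2235017, .arc 8000 12000 (951076) (308957)]
/-- bounds of the sum, two split sides -/
def gvv : List GC :=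
  [.lo (-850) 2909964, .hi 600 470492, .arc 8000 12000 (951076) (308957)]
/-- bounds, one split side -/
def gx2a : List GC :=
  [.lo (-180) 1253817, .hi 790 370561]
/-- bounds, one split side -/
def gx2b : List GC :=
  [.lo (-930) 3217716, .hi 540 507337, .arc 4625 9525 (-233506) (-972355)]
/-- bounds, one split side -/
def gx2c : List GC :=
  [.lo (-490) 1851046, .hi 950 303068, .arc 8000 12000 (951076) (308957)]
/-- bounds, one split side -/
def gx2ea : List GC :=
  [.lo (-660) 2291896, .hi (-160) 1222703]
/-- bounds, one split side -/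
def gx2eb : List GC :=
  [.lo (-330) 1513899, .hi 800 365934]
/-- bounds, one split side -/
def gx2ec : List GC :=
  [.lo (-560) 2021249, .hi 370 628165, .arc 8000 12000 (951076) (308957)]
/-- bounds, one split side -/
def gx3a : List GC :=
  [.lo 210 768053, .hi 920 314712]
/-- bounds, one split side -/
def gx3b : List GC :=
  [.lo (-910) 3137853, .hi 490 540237]
/-- bounds, one split side -/
def gx3c : List GC :=
  [.lo (-220) 1318452, .hi 1110 247868, .arc 8000 12000 (951076) (308957)]
/-- bounds, one split side -/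
def gx3ea : List GC :=
  [.lo 100 881909, .hi 580 482466]
/-- bounds, one split side -/
def gx3eb : List GC :=
  [.lo (-610) 2152322, .hi 650 441840]
/-- bounds, one split side -/
def gx3ec : List GC :=
  [.lo (-110) 1148237, .hi 1010 281058, .arc 8000 12000 (951076) (308957)]
/-- bounds, one split side -/
def gxra : List GC :=
  [.lo 380 620316, .hi 1360 181044]
/-- bounds, one split side -/
def gxrb : List GC :=
  [.lo (-1170) 4350387, .hi 510 526829]
/-- bounds, one split side -/
def gxrc : List GC :=
  [.lo (-100) 1133898, .hi 1430 165800, .arc 7600 12000 (998031) (62728), .arc 1000 5900 (-535880) (844294)]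

theorem gu1_1_ok : gu1_1.all GC.ok = true := by decide +kernel
theorem gu1_2_ok : gu1_2.all GC.ok = true := by decide +kernel
theorem gu1_2e_ok : gu1_2e.all GC.ok = true := by decide +kernel
theorem gu1_3_ok : gu1_3.all GC.ok = true := by decide +kernel
theorem gu1_3e_ok : gu1_3e.all GC.ok = true := by decide +kernel
theorem gu1_r_ok : gu1_r.all GC.ok = true := by decide +kernel
theorem gu2_2_ok : gu2_2.all GC.ok = true := by decide +kernel
theorem gu2_3_ok : gu2_3.all GC.ok = true := by decide +kernel
theorem gu2_3e_ok : gu2_3e.all GC.ok = true := by decide +kernel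
theorem gu2_r_ok : gu2_r.all GC.ok = true := by decide +kernel
theorem gu2e_2_ok : gu2e_2.all GC.ok = true := by decide +kernel
theorem gu2e_2e_ok : gu2e_2e.all GC.ok = true := by decide +kernel
theorem gu2e_3_ok : gu2e_3.all GC.ok = true := by decide +kernel
theorem gu2e_3e_ok : gu2e_3e.all GC.ok = true := by decide +kernel
theorem gu2e_r_ok : gu2e_r.all GC.ok = true := by decide +kernel
theorem gvv_ok : gvv.all GC.ok = true := by decide +kernel
theorem gx2_ok : (gx2a.all GC.ok && gx2b.all GC.ok && gx2c.all GC.ok) = true := by decide +kernel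
theorem gx2e_ok : (gx2ea.all GC.ok && gx2eb.all GC.ok && gx2ec.all GC.ok) = true := by decide +kernel
theorem gx3_ok : (gx3a.all GC.ok && gx3b.all GC.ok && gx3c.all GC.ok) = true := by decide +kernel
theorem gx3e_ok : (gx3ea.all GC.ok && gx3eb.all GC.ok && gx3ec.all GC.ok) = true := by decide +kernel
theorem gxr_ok : (gxra.all GC.ok && gxrb.all GC.ok && gxrc.all GC.ok) = true := by decide +kernel

end Pool.Agent.Work.MP_b30479_gt.G2.CN.S6
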