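import Pool.Agent.Work.MP_b30479_gt.G2.CN.SDat
import Pool.Agent.Work.MP_b30479_gt.G2.CN.HCls

/-!
# Split hinges: classes of rings
-/

namespace Pool.Agent.Work.MP_b30479_gt.G2.CN.S6

open Complex SR

noncomputable section

/-! ### the ports -/

section
variable {K : KFam} (hK : KOK K) {d₀ B : ℕ}
include hK

lemma pA1 (hd : d₀ ≤ 1) :
    InH {k | ∃ d l, ROK d l .a ∧ (2 ≤ d₀ ∨ 2 ≤ d) ∧ k ∈ K.K d l .a} HPA1 := by
  rintro k ⟨d, l, h1, h2, h3⟩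
  have h5 : 2 ≤ d := by omega
  have h6 := h1.zl
  refine hK.inU h1 HPA1_ok ?_ (min_le_right _ _) k h3
  unfold crs
  cases l
  · simp only [SK.u, lA1]; omega
  · simp only [SK.u, lA1]; omega
  · have := h6 rfl
    simp only [SK.u, lA1]; omega
  · simp only [SK.u, lA1]; omega

lemma pA2 : InH {k | ∃ d l, ROK d l .a ∧ (2 ≤ d₀ ∨ 2 ≤ d) ∧ k ∈ K.K d l .a} HPA2 := by
  rintro k ⟨d, l, h1, -, h3⟩
  exact hK.inU h1 HPA2_ok (lo_le h1 (by decide)) (min_le_right _ _) k h3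

lemma pZ : InH {k | ∃ d l, ROK d l .z ∧ k ∈ K.K d l .z} HPZ := by
  rintro k ⟨d, l, h1, h3⟩
  exact hK.inU h1 HPZ_ok (lo_le h1 (by decide)) (min_le_right _ _) k h3

lemma pS2 : InH {k | ∃ d l, ROK d l .s ∧ (3 ≤ B ∨ 3 ≤ crs d l .s) ∧ (d₀ ≤ 2 ∨ d ≤ 2) ∧
    k ∈ K.K d l .s} HPS2 := by
  rintro k ⟨d, l, h1, -, -, h3⟩
  exact hK.inU h1 HPS2_ok (lo_le h1 (by decide)) (min_le_right _ _) k h3

lemma pST (hB : B ≤ 2) : InH {k | ∃ d l, ROK d l .s ∧ (3 ≤ B ∨ 3 ≤ crs d l .s) ∧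
    (d₀ ≤ 2 ∨ d ≤ 2) ∧ k ∈ K.K d l .s} HPST := by
  rintro k ⟨d, l, h1, h2, -, h3⟩
  have h4 := lo_le h1 (by decide)
  have h5 : 3 ≤ crs d l .s := by omega
  refine hK.inU h1 HPST_ok ?_ (min_le_right _ _) k h3
  cases l
  · exact h4
  · show 3 ≤ _
    omega
  · exact h4
  · exact h4

lemma pS3 (hd : 3 ≤ d₀) : InH {k | ∃ d l, ROK d l .s ∧ (3 ≤ B ∨ 3 ≤ crs d l .s) ∧
    (d₀ ≤ 2 ∨ d ≤ 2) ∧ k ∈ K.K d l .s} HPS3 := by
  rintro k ⟨d, l, h1, -, h2, h3⟩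
  have h5 : d ≤ 2 := by omega
  have h6 := h1.zl
  refine hK.inU h1 HPS3_ok (lo_le h1 (by decide)) ?_ k h3
  unfold crs
  cases l
  · simp only [SK.u, hi3]; omega
  · simp only [SK.u, hi3]; omega
  · have := h6 rfl; omega
  · simp only [SK.u, hi3]; omega

end

lemma InH.pp {S : Set ℂ} {H : List QC} (h : InH S H) : InH (frS 1 S) H := h.fr

/-! ### side `s` -/

/-- digit `1` -/
def c1a : Cls := ⟨H2as, [gA2 (mirH HPA1)], [gD2 1 0 (mirH HPA1)]⟩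

theorem c1a_ok : c1a.Ok .s 1 .a where
  own := fun hK h => hK.inH h H2as_ok
  L := fun hK _ _ _ hq h => ok1 (gA2_ok (pA1 hK le_rfl).mir hq h)
  R := fun hK _ _ _ hq h => ok1 (gD2_ok one_I (pA1 hK le_rfl).mir.fr hq h)

/-- digit `1`, two split sides -/
def c1s : Cls := ⟨H3ss, [gA3 HPS2], [gD3 1 0 HPS2]⟩

theorem c1s_ok : c1s.Ok .s 1 .s where
  own := fun hK h => hK.inH h H3ss_ok
  L := fun hK _ _ _ hq h => ok1 (gA3_ok (pS2 hK) hq h)
  R := fun hK _ _ _ hq h => ok1 (gD3_ok one_I (pS2 hK).fr hq h)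

/-- digit `2`, end -/
def c2e : Cls := ⟨H3es, [gF3], [gE3 1 0]⟩

theorem c2e_ok : c2e.Ok .s 2 .e where
  own := fun hK h => hK.inH h H3es_ok
  L := fun _ _ _ _ _ h => ok1 (gF3_ok h)
  R := fun _ _ _ _ hq h => ok1 (gE3_ok one_I hq h)

/-- digit `2` -/
def c2a : Cls := ⟨H3as, [gA3 (mirH HPA2)], [gD3 1 0 (mirH HPA2)]⟩

theorem c2a_ok : c2a.Ok .s 2 .a where
  own := fun hK h => hK.inH h H3as_ok
  L := fun hK _ _ _ hq h => ok1 (gA3_ok (pA2 hK).mir hq h)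
  R := fun hK _ _ _ hq h => ok1 (gD3_ok one_I (pA2 hK).mir.fr hq h)

/-- digit `2`, two split sides -/
def c2s : Cls := ⟨H4ss, [gA4 HPS2], [gD4 1 0 HPS2]⟩

theorem c2s_ok : c2s.Ok .s 2 .s where
  own := fun hK h => hK.inH h H4ss_ok
  L := fun hK _ _ _ hq h => ok1 (gA4_ok (pS2 hK) hq h)
  R := fun hK _ _ _ hq h => ok1 (gD4_ok one_I (pS2 hK).fr hq h)

/-- digit `3`, end -/
def c3e : Cls := ⟨H4es, [gF4], [gE4 1 0]⟩

theorem c3e_ok : c3e.Ok .s 3 .e where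
  own := fun hK h => hK.inH h H4es_ok
  L := fun _ _ _ _ _ h => ok1 (gF4_ok h)
  R := fun _ _ _ _ hq h => ok1 (gE4_ok one_I hq h)

/-- digit `3` -/
def c3a : Cls := ⟨H4as, [gA4 (mirH HPA2)], [gD4 1 0 (mirH HPA2)]⟩

theorem c3a_ok : c3a.Ok .s 3 .a where
  own := fun hK h => hK.inH h H4as_ok
  L := fun hK _ _ _ hq h => ok1 (gA4_ok (pA2 hK).mir hq h)
  R := fun hK _ _ _ hq h => ok1 (gD4_ok one_I (pA2 hK).mir.fr hq h)

/-- digit `3`, two split sides -/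
def c3s : Cls := ⟨H5ss, [gA5 HPS3], [gD5 1 0 HPS3]⟩

theorem c3s_ok : c3s.Ok .s 3 .s where
  own := fun hK h => hK.inH h H5ss_ok
  L := fun hK _ _ _ hq h => ok1 (gA5_ok (pS3 hK (by decide)) hq h)
  R := fun hK _ _ _ hq h => ok1 (gD5_ok one_I (pS3 hK (by decide)).fr hq h)

/-- digit `4`, end -/
def c4e : Cls := ⟨H5es, [gF5], [gE5 1 0]⟩

theorem c4e_ok : c4e.Ok .s 4 .e where
  own := fun hK h => hK.inH h H5es_ok
  L := fun _ _ _ _ _ h => ok1 (gF5_ok h)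
  R := fun _ _ _ _ hq h => ok1 (gE5_ok one_I hq h)

/-- digit `4` -/
def c4a : Cls := ⟨H5as, [gA5 (mirH HPA2)], [gD5 1 0 (mirH HPA2)]⟩

theorem c4a_ok : c4a.Ok .s 4 .a where
  own := fun hK h => hK.inH h H5as_ok
  L := fun hK _ _ _ hq h => ok1 (gA5_ok (pA2 hK).mir hq h)
  R := fun hK _ _ _ hq h => ok1 (gD5_ok one_I (pA2 hK).mir.fr hq h)

/-- digit `4`, side `z` -/
def c4z : Cls := ⟨H5zs, [gA5 HPZ], [gD5 1 0 HPZ]⟩

theorem c4z_ok : c4z.Ok .s 4 .z where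
  own := fun hK h => hK.inH h H5zs_ok
  L := fun hK _ _ _ hq h => ok1 (gA5_ok (pZ hK) hq h)
  R := fun hK _ _ _ hq h => ok1 (gD5_ok one_I (pZ hK).fr hq h)

/-- digit `4`, two split sides -/
def c4s : Cls := ⟨H6ss, [], []⟩

theorem c4s_ok : c4s.Ok .s 4 .s where
  own := fun hK h => hK.inH h H6ss_ok
  L := fun _ _ _ _ _ _ => AllOk.nil
  R := fun _ _ _ _ _ _ => AllOk.nil

/-- digit `5` -/
def cD5 : Cls := ⟨HD5, [], []⟩

theorem cD5_ok {l : SK} : cD5.Ok .s 5 l where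
  own := fun hK h => by
    refine hK.inU h HD5_ok ?_ ?_
    · unfold crs
      cases l <;> simp only [SK.u, lD5] <;> omega
    · unfold crs
      cases l <;> simp only [SK.u, hD5] <;> omega
  L := fun _ _ _ _ _ _ => AllOk.nil
  R := fun _ _ _ _ _ _ => AllOk.nil

/-- digits at least `4`, at least `6` crossings -/
def cZL : Cls := ⟨HZL, [], []⟩

theorem cZL_ok {d : ℕ} {l : SK} (hd : 6 ≤ crs d l .s) : cZL.Ok .s d l where
  own := fun hK h => by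
    refine hK.inU h HZL_ok ?_ (min_le_right _ _)
    unfold lZL
    omega
  L := fun _ _ _ _ _ _ => AllOk.nil
  R := fun _ _ _ _ _ _ => AllOk.nil

/-- digit `4`, `5` crossings -/
def cZ5 : Cls := ⟨HZ5, [], []⟩

theorem cZ5_ok {l : SK} (hl : l ≠ .s) : cZ5.Ok .s 4 l where
  own := fun hK h => by
    refine hK.inU h HZ5_ok ?_ ?_
    · unfold crs
      cases l <;> simp only [SK.u, lZ5] <;> first | omega | exact absurd rfl hl
    · unfold crs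
      cases l <;> simp only [SK.u, S6.hZ5] <;> first | omega | exact absurd rfl hl
  L := fun _ _ _ _ _ _ => AllOk.nil
  R := fun _ _ _ _ _ _ => AllOk.nil

/-- digits at least `4` -/
def cZS : Cls := ⟨HZS, [], []⟩

theorem cZS_ok {d : ℕ} {l : SK} (hd : 4 ≤ d) : cZS.Ok .s d l where
  own := fun hK h => by
    refine hK.inU h HZS_ok ?_ (min_le_right _ _)
    unfold crs
    cases l <;> simp only [SK.u, lZS] <;> omega
  L := fun _ _ _ _ _ _ => AllOk.nil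
  R := fun _ _ _ _ _ _ => AllOk.nil

end

end Pool.Agent.Work.MP_b30479_gt.G2.CN.S6
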