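import Pool.Agent.Work.MP_b30479_gt.G2.CN.HData

/-!
# Split hinges: the conditions for the ring values

`Hbxy`: the conditions for the squares of the values of the rings with `b` crossings and the sides
`x`, `y`; the other lists are for the union of several kinds of rings.
-/

namespace Pool.Agent.Work.MP_b30479_gt.G2.CN.S6

open SR

/-- conditions -/
def H2as : List QC :=
  [⟨-587018, 585480, 0, 0⟩, ⟨919632, -95060, 0, 0⟩, ⟨0, 0, 1000000, -1240357⟩,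
   ⟨0, 0, -1000000, 201670⟩, ⟨35000, 999000, 880778, 0⟩, ⟨87000, 996000, 0, 418505⟩,
   ⟨961000, 276000, 0, 228493⟩, ⟨-616000, 788000, 0, 101510⟩, ⟨946000, 326000, 455634, 0⟩,
   ⟨-629000, -777000, 0, -997733⟩, ⟨985000, -174000, -80683, 0⟩, ⟨-961000, -276000, 0, -729554⟩]

/-- conditions -/
def H3ss : List QC :=
  [⟨-493580, 640101, 0, 0⟩, ⟨771080, -276159, 0, 0⟩, ⟨0, 0, 1000000, -796351⟩,
   ⟨0, 0, -1000000, 295410⟩, ⟨-17000, 1000000, 0, 442433⟩, ⟨-766000, -643000, 0, -818558⟩,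
   ⟨891000, 454000, 0, 474607⟩, ⟨-707000, -707000, 0, -831946⟩, ⟨669000, -743000, 0, -388683⟩,
   ⟨848000, -530000, -287683, 0⟩, ⟨-87000, 996000, 0, 408416⟩, ⟨-956000, -292000, -1433520, 0⟩]

/-- conditions -/
def H3es : List QC :=
  [⟨-304560, 364679, 0, 0⟩, ⟨370600, -181425, 0, 0⟩, ⟨0, 0, 1000000, -250745⟩,
   ⟨0, 0, -1000000, 113771⟩, ⟨-326000, -946000, 0, -443129⟩, ⟨999000, 52000, 0, 200514⟩,
   ⟨-326000, 946000, 0, 150503⟩, ⟨-469000, -883000, -2885813, 0⟩, ⟨-545000, 839000, 0, 56113⟩,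
   ⟨-156000, 988000, 1070459, 0⟩, ⟨-391000, -921000, 0, -453644⟩, ⟨-292000, -956000, 0, -437875⟩]

/-- conditions -/
def H3as : List QC :=
  [⟨-314130, 686576, 0, 0⟩, ⟨613842, -471200, 0, 0⟩, ⟨0, 0, 1000000, -689121⟩,
   ⟨0, 0, -1000000, 263399⟩, ⟨974000, -225000, 0, 280312⟩, ⟨-208000, 978000, 0, 164411⟩,
   ⟨-946000, -326000, 0, -761338⟩, ⟨326000, 946000, 0, 413380⟩, ⟨-819000, -574000, 0, -803704⟩,
   ⟨839000, 545000, 0, 512318⟩, ⟨438000, -899000, 0, -352536⟩, ⟨-966000, -259000, 0, -746300⟩]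

/-- conditions -/
def H4ss : List QC :=
  [⟨-284596, 680403, 0, 0⟩, ⟨473360, -509151, 0, 0⟩, ⟨0, 0, 1000000, -598024⟩,
   ⟨0, 0, -1000000, 339386⟩, ⟨0, 1000000, 0, 275310⟩, ⟨225000, -974000, -723175, 0⟩,
   ⟨-799000, -602000, 0, -753480⟩, ⟨940000, 342000, 0, 568696⟩, ⟨602000, -799000, 0, -71975⟩,
   ⟨-122000, 993000, 0, 197891⟩, ⟨-731000, -682000, 0, -745196⟩, ⟨-839000, -545000, 0, -761500⟩]

/-- conditions -/
def H4es : List QC :=
  [⟨-140400, 482804, 0, 0⟩, ⟨254436, -455477, 0, 0⟩, ⟨0, 0, 1000000, -321722⟩,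
   ⟨0, 0, -1000000, 224790⟩, ⟨-616000, -788000, 0, -481804⟩, ⟨-574000, -819000, -1791816, 0⟩,
   ⟨-695000, 719000, 0, -234602⟩, ⟨766000, 643000, 0, 450683⟩, ⟨-276000, -961000, -1394822, 0⟩,
   ⟨839000, 545000, 0, 466813⟩]

/-- conditions -/
def H4as : List QC :=
  [⟨-170558, 623760, 0, 0⟩, ⟨395064, -644873, 0, 0⟩, ⟨0, 0, 1000000, -571937⟩,
   ⟨0, 0, -1000000, 356485⟩, ⟨974000, -225000, 0, 485484⟩, ⟨616000, 788000, 0, 508048⟩,
   ⟨-375000, 927000, 0, -75862⟩, ⟨87000, -996000, -624146, 0⟩, ⟨-921000, -391000, 0, -753614⟩,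
   ⟨530000, 848000, 0, 467393⟩, ⟨857000, 515000, 0, 590229⟩, ⟨-946000, -326000, 0, -754319⟩]

/-- conditions -/
def H5ss : List QC :=
  [⟨-162800, 652596, 0, 0⟩, ⟨318970, -660744, 0, 0⟩, ⟨0, 0, 1000000, -573360⟩,
   ⟨0, 0, -1000000, 423171⟩, ⟨-407000, -914000, -1090730, 0⟩, ⟨-866000, -500000, 0, -734716⟩,
   ⟨0, 1000000, 357813, 0⟩, ⟨819000, 574000, 0, 620986⟩, ⟨208000, -978000, -326567, 0⟩,
   ⟨857000, 515000, 0, 634909⟩]

/-- conditions -/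
def H5es : List QC :=
  [⟨-78498, 639200, 0, 0⟩, ⟨149530, -610344, 0, 0⟩, ⟨0, 0, 1000000, -458736⟩,
   ⟨0, 0, -1000000, 375309⟩, ⟨-602000, -799000, 0, -493561⟩, ⟨-777000, 629000, 0, -447284⟩,
   ⟨656000, 755000, 0, 472895⟩, ⟨1000000, 0, 0, 602392⟩]

/-- conditions -/
def H5as : List QC :=
  [⟨-104066, 723888, 0, 0⟩, ⟨253134, -719712, 0, 0⟩, ⟨0, 0, 1000000, -628865⟩,
   ⟨0, 0, -1000000, 470184⟩, ⟨-500000, -866000, -1022330, 0⟩, ⟨-875000, -485000, 0, -753449⟩,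
   ⟨242000, 970000, 516272, 0⟩, ⟨326000, 946000, 0, 331679⟩, ⟨-819000, -574000, -1345228, 0⟩,
   ⟨-139000, -990000, -603469, 0⟩, ⟨875000, 485000, 0, 653761⟩]

/-- conditions -/
def H5zs : List QC :=
  [⟨-175968, 704900, 0, 0⟩, ⟨259336, -685248, 0, 0⟩, ⟨0, 0, 1000000, -603178⟩,
   ⟨0, 0, -1000000, 475295⟩, ⟨-485000, -875000, 0, -565889⟩, ⟨-602000, -799000, -1176821, 0⟩,
   ⟨866000, 500000, 0, 672207⟩, ⟨-17000, 1000000, 306303, 0⟩, ⟨-883000, -469000, 0, -755867⟩,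
   ⟨-156000, -988000, -683071, 0⟩]

/-- conditions -/
def H6ss : List QC :=
  [⟨-100108, 741405, 0, 0⟩, ⟨205632, -732335, 0, 0⟩, ⟨0, 0, 1000000, -639210⟩,
   ⟨0, 0, -1000000, 516581⟩, ⟨-788000, -616000, 0, -704417⟩, ⟨-656000, -755000, -1119569, 0⟩,
   ⟨-588000, 809000, 0, -355389⟩, ⟨819000, 574000, 0, 655674⟩, ⟨-866000, -500000, -1316928, 0⟩,
   ⟨-309000, -951000, -732252, 0⟩]

/-- conditions -/
def HD5 : List QC :=
  [⟨-46440, 738871, 0, 0⟩, ⟨166060, -754851, 0, 0⟩, ⟨0, 0, 1000000, -698846⟩,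
   ⟨0, 0, -1000000, 510848⟩, ⟨906000, -423000, 0, 607968⟩, ⟨-819000, -574000, 0, -732892⟩,
   ⟨515000, 857000, 721706, 0⟩, ⟨839000, 545000, 0, 632326⟩, ⟨-242000, 970000, 0, -133760⟩]

/-- conditions -/
def HZL : List QC :=
  [⟨0, 1000000, 0, 0⟩, ⟨205632, -732335, 0, 0⟩, ⟨0, 0, 1000000, -1000000⟩,
   ⟨0, 0, -1000000, 510848⟩, ⟨799000, -602000, 797348, 0⟩, ⟨-743000, 669000, -957593, 0⟩,
   ⟨-695000, -719000, -1158292, 0⟩, ⟨-574000, -819000, 0, -599205⟩,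
   ⟨-545000, -839000, 0, -576558⟩, ⟨-707000, -707000, 0, -707000⟩, ⟨1000000, 0, 0, 705936⟩,
   ⟨-276000, -961000, -692445, 0⟩]

/-- conditions -/
def HZ5 : List QC :=
  [⟨-78498, 639200, 0, 0⟩, ⟨259336, -685248, 0, 0⟩, ⟨0, 0, 1000000, -628865⟩,
   ⟨0, 0, -1000000, 375309⟩, ⟨-423000, -906000, -1001895, 0⟩, ⟨52000, 999000, 264757, 0⟩,
   ⟨-866000, -500000, 0, -750900⟩, ⟨375000, 927000, 0, 311255⟩, ⟨259000, 966000, 536741, 0⟩,
   ⟨-259000, -966000, 0, -430933⟩, ⟨-375000, -927000, -942821, 0⟩, ⟨17000, 1000000, 215471, 0⟩]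

/-- conditions -/
def HZS : List QC :=
  [⟨0, 1000000, 0, 0⟩, ⟨259336, -685248, 0, 0⟩, ⟨0, 0, 1000000, -1000000⟩,
   ⟨0, 0, -1000000, 375309⟩, ⟨-669000, -743000, 0, -679915⟩, ⟨469000, 883000, 0, 365674⟩,
   ⟨-423000, -906000, -1001895, 0⟩, ⟨-469000, -883000, 0, -561063⟩,
   ⟨-731000, -682000, 0, -731000⟩, ⟨-643000, -766000, 0, -661451⟩]

/-- conditions -/
def HPA1 : List QC :=
  [⟨0, 1000000, 0, 0⟩, ⟨450300, 949, 0, 0⟩, ⟨0, 0, 1000000, -1009419⟩, ⟨0, 0, -1000000, 59281⟩,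
   ⟨292000, 956000, 0, 237700⟩, ⟨616000, -788000, 0, -415027⟩, ⟨829000, 559000, 0, 216981⟩,
   ⟨-899000, -438000, 0, -954721⟩, ⟨-819000, -574000, 0, -953929⟩,
   ⟨-993000, 122000, -2424594, 0⟩, ⟨946000, 326000, 0, 145900⟩, ⟨-921000, -391000, -3426359, 0⟩]

/-- conditions -/
def HPA2 : List QC :=
  [⟨0, 1000000, 0, 0⟩, ⟨450300, 949, 0, 0⟩, ⟨0, 0, 1000000, -1240357⟩, ⟨0, 0, -1000000, 59281⟩,
   ⟨292000, 956000, 0, 237700⟩, ⟨-857000, -515000, 0, -956969⟩, ⟨839000, 545000, 0, 212909⟩,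
   ⟨990000, 139000, 259649, 0⟩, ⟨-719000, -695000, 0, -968845⟩, ⟨-970000, -242000, 0, -970000⟩,
   ⟨946000, 326000, 0, 145900⟩, ⟨-988000, 156000, -2358113, 0⟩]

/-- conditions -/
def HPZ : List QC :=
  [⟨0, 1000000, 0, 0⟩, ⟨334150, -622200, 0, 0⟩, ⟨0, 0, 1000000, -1000000⟩,
   ⟨0, 0, -1000000, 299599⟩, ⟨-695000, -719000, 0, -719342⟩, ⟨515000, 857000, 0, 410956⟩,
   ⟨809000, -588000, 0, 305755⟩, ⟨940000, -342000, 937844, 0⟩, ⟨-766000, -643000, 0, -769730⟩,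
   ⟨-669000, 743000, -853926, 0⟩, ⟨-559000, 829000, -694748, 0⟩, ⟨-766000, 643000, -1020990, 0⟩]

/-- conditions -/
def HPS3 : List QC :=
  [⟨-284596, 680403, 0, 0⟩, ⟨919632, -95060, 0, 0⟩, ⟨0, 0, 1000000, -1240357⟩,
   ⟨0, 0, -1000000, 113771⟩, ⟨-927000, -375000, 0, -814071⟩, ⟨-87000, 996000, 0, 220374⟩,
   ⟨906000, 423000, 0, 292250⟩, ⟨-643000, -766000, 0, -992098⟩, ⟨799000, -602000, 0, -480902⟩,
   ⟨-982000, -191000, 0, -758422⟩, ⟨999000, -35000, 0, 55778⟩, ⟨743000, 669000, 0, 335660⟩]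

/-- conditions -/
def HPS2 : List QC :=
  [⟨0, 1000000, 0, 0⟩, ⟨919632, -95060, 0, 0⟩, ⟨0, 0, 1000000, -1240357⟩,
   ⟨0, 0, -1000000, 113771⟩, ⟨407000, 914000, 0, 316729⟩, ⟨906000, 423000, 0, 292250⟩,
   ⟨-848000, -530000, 0, -955270⟩, ⟨-669000, -743000, 0, -981646⟩,
   ⟨-940000, -342000, 0, -962819⟩, ⟨946000, 326000, 455634, 0⟩, ⟨-961000, 276000, -1768621, 0⟩,
   ⟨-695000, 719000, -967585, 0⟩]

/-- conditions -/
def HPST : List QC :=
  [⟨0, 1000000, 0, 0⟩, ⟨771080, -276159, 0, 0⟩, ⟨0, 0, 1000000, -1000000⟩,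
   ⟨0, 0, -1000000, 113771⟩, ⟨407000, 914000, 0, 316729⟩, ⟨-719000, -695000, 0, -875900⟩,
   ⟨978000, -208000, 0, 100348⟩, ⟨-857000, -515000, 0, -900147⟩,
   ⟨-559000, -829000, 0, -874257⟩, ⟨982000, 191000, 0, 238637⟩, ⟨-927000, -375000, 0, -927000⟩,
   ⟨-1000000, -17000, -2216676, 0⟩]

/-- at most `8` crossings in the table -/
def h8 (_ : SK) : ℕ := 8
/-- digit `5` -/
def lD5 (l : SK) : ℕ := match l with | .s => 7 | _ => 6
/-- digit `5` -/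
def hD5 (l : SK) : ℕ := match l with | .s => 7 | _ => 6
/-- digits at least `4`, at least `6` crossings -/
def lZL (_ : SK) : ℕ := 6
/-- digit `4`, `5` crossings -/
def lZ5 (l : SK) : ℕ := match l with | .s => 9 | _ => 5
/-- digit `4`, `5` crossings -/
def hZ5 (_ : SK) : ℕ := 5
/-- digits at least `4` -/
def lZS (l : SK) : ℕ := match l with | .s => 6 | _ => 5
/-- digits at least `2`, side `a` -/
def lA1 (l : SK) : ℕ := match l with | .s => 3 | .z => 4 | _ => 2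

theorem H2as_ok : okH H2as (pg 2 .a .s) = true := by decide +kernel
theorem H3ss_ok : okH H3ss (pg 3 .s .s) = true := by decide +kernel
theorem H3es_ok : okH H3es (pg 3 .e .s) = true := by decide +kernel
theorem H3as_ok : okH H3as (pg 3 .a .s) = true := by decide +kernel
theorem H4ss_ok : okH H4ss (pg 4 .s .s) = true := by decide +kernel
theorem H4es_ok : okH H4es (pg 4 .e .s) = true := by decide +kernel
theorem H4as_ok : okH H4as (pg 4 .a .s) = true := by decide +kernel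
theorem H5ss_ok : okH H5ss (pg 5 .s .s) = true := by decide +kernel
theorem H5es_ok : okH H5es (pg 5 .e .s) = true := by decide +kernel
theorem H5as_ok : okH H5as (pg 5 .a .s) = true := by decide +kernel
theorem H5zs_ok : okH H5zs (pg 5 .z .s) = true := by decide +kernel
theorem H6ss_ok : okH H6ss (pg 6 .s .s) = true := by decide +kernel
theorem HD5_ok : chkU HD5 .s lD5 hD5 = true := by decide +kernel
theorem HZL_ok : chkU HZL .s lZL h8 = true := by decide +kernel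
theorem HZ5_ok : chkU HZ5 .s lZ5 hZ5 = true := by decide +kernel
theorem HZS_ok : chkU HZS .s lZS h8 = true := by decide +kernel
theorem HPA1_ok : chkU HPA1 .a lA1 h8 = true := by decide +kernel
theorem HPA2_ok : chkU HPA2 .a (lo .a) h8 = true := by decide +kernel
theorem HPZ_ok : chkU HPZ .z (lo .z) h8 = true := by decide +kernel
theorem HPS3_ok : chkU HPS3 .s (lo .s) hi3 = true := by decide +kernel
theorem HPS2_ok : chkU HPS2 .s (lo .s) h8 = true := by decide +kernel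
theorem HPST_ok : chkU HPST .s lo3 h8 = true := by decide +kernel

end Pool.Agent.Work.MP_b30479_gt.G2.CN.S6
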