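import Pool.Agent.Work.MP_b30479_gt.G2.CN.TGoal
import Pool.Agent.Work.MP_b30479_gt.G2.CN.HCls

/-!
# Groups for the split hinges

`sgU`: product of the exponentials on the two sides of an absorbed digit; `sgV`: the same for a digit
`1` between two absorbed digits; `sgW`, `sgX`: the split hinge and the product for a digit `1` next to
one absorbed digit.
-/

namespace Pool.Agent.Work.MP_b30479_gt.G2.CN.S6

open Complex SR NumI

noncomputable section

namespace Ev

/-- `R + i` -/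
def sRp : Ev := .add .R (.sc 1 (.k 0 0 1 0)) rfl
/-- `R - i` -/
def sRm : Ev := .sub .R (.sc 1 (.k 0 0 1 0)) rfl

variable (u w : ℂ)

lemma val_sRp : sRp.val u w = u + I := by
  change u + gz 0 0 1 0 = _
  rw [gz_I]
  push_cast
  ring

lemma val_sRm : sRm.val u w = u - I := by
  change u - gz 0 0 1 0 = _
  rw [gz_I]
  push_cast
  ring

end Ev

open CN.Ev S6.Ev

/-- the product for the two sides of an absorbed digit -/
def sgU (H : List QC) : Grp := ⟨.mul dl2 (dr2 1 0), .mul .q q2, (rfl : 3 = 3), H⟩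
/-- the product for a digit `1` between two absorbed digits -/
def sgV (H : List QC) : Grp := ⟨.mul dl2 sRp, .gm 0 0 1 0 dl3, (rfl : 2 = 2), H⟩
/-- the split hinge on the other side of a digit `1` -/
def sgW (H : List QC) : Grp := ⟨.q, dl2, (rfl : 1 = 1), H⟩
/-- the product for a digit `1` next to one absorbed digit -/
def sgX (H : List QC) : Grp := ⟨.mul .q sRp, .mul sRm dl2, (rfl : 2 = 2), H⟩

lemma val_dl2' (R q : ℂ) : dl2.val R q = q - 2 + 2 * I * R := by
  have hv := CN.Ev.val_dl2 R q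
  have : DB I 2 R q = 2 * (q - 2 + 2 * I * R) := by
    simp only [DB, cab]
    ring
  rw [this] at hv
  exact mul_left_cancel₀ two_ne_zero hv

lemma val_dl3' (R q : ℂ) : dl3.val R q = I * R * (4 - q) - (4 - 3 * q) := by
  have hv := CN.Ev.val_dl3 R q
  have : DB I 3 R q = 2 * (I * R * (4 - q) - (4 - 3 * q)) := by
    simp only [DB, cab]
    ring
  rw [this] at hv
  exact mul_left_cancel₀ two_ne_zero hv

lemma val_dr2' (R q : ℂ) : (dr2 1 0).val R q = R ^ 2 + 1 - q - 2 + 2 * I * R := by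
  have hv := CN.Ev.val_dr2 R q 1 0
  have : DB ((((1 : ℕ) : ℂ) - (0 : ℕ)) * I) 2 R (R ^ 2 + 1 - q) =
      2 * (R ^ 2 + 1 - q - 2 + 2 * I * R) := by
    simp only [DB, cab]
    push_cast
    ring
  rw [this] at hv
  exact mul_left_cancel₀ two_ne_zero hv

/-! ### exponentials -/

section
variable {K : KFam} {d : ℕ} {l : SK} {d' : ℕ} {l' : SK} {R k k' : ℂ}

/-- the value of the second ring -/
lemma q2_eq (h : HDt K .s d l d' l' R k k') : R ^ 2 + 1 - 1 / k ^ 2 = 1 / k' ^ 2 := by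
  rw [h.hinge]
  ring

lemma exp1 (h : HDt K .s d l d' l' R k k') (h1 : (acot2 (Sp R k)).re < 1 / 2) :
    cexp (2 * Real.pi * I * acot2 (Sp R k)) * (1 / k ^ 2) = 1 / k ^ 2 - 2 + 2 * I * R :=
  exp_split (r0_pos.trans h.Rre) (ne_of_re h.kre) h1

lemma exp2 (h : HDt K .s d l d' l' R k k') (h1 : (acot2 (Sp R k')).re < 1 / 2) :
    cexp (2 * Real.pi * I * acot2 (Sp R k')) * (1 / k' ^ 2) = 1 / k' ^ 2 - 2 + 2 * I * R :=
  exp_split (r0_pos.trans h.Rre) (ne_of_re h.kre') h1

/-- the first group -/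
lemma eS (h : HDt K .s d l d' l' R k k') (h1 : (acot2 (Sp R k)).re < 1 / 2) (H : List QC) :
    cexp (2 * Real.pi * I * acot2 (Sp R k)) * (gS H).M.val R (1 / k ^ 2) =
      (gS H).N.val R (1 / k ^ 2) := by
  change _ * (1 / k ^ 2) = dl2.val R (1 / k ^ 2)
  rw [val_dl2', exp1 h h1]

/-- the product -/
lemma eU (h : HDt K .s d l d' l' R k k') (h1 : (acot2 (Sp R k)).re < 1 / 2)
    (h2 : (acot2 (Sp R k')).re < 1 / 2) (H : List QC) :
    cexp (2 * Real.pi * I * (acot2 (Sp R k) + acot2 (Sp R k'))) * (sgU H).M.val R (1 / k ^ 2) =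
      (sgU H).N.val R (1 / k ^ 2) := by
  change _ * (1 / k ^ 2 * q2.val R (1 / k ^ 2)) = dl2.val R (1 / k ^ 2) *
    (dr2 1 0).val R (1 / k ^ 2)
  rw [val_dl2', val_dr2', CN.Ev.val_q2, q2_eq h, mul_add, Complex.exp_add, ← exp1 h h1,
    ← exp2 h h2]
  ring

end

/-! ### digit `1` -/

/-- the ring relation for one crossing -/
lemma RE_one {R R' τ : ℂ} (hτ : τ ≠ 0) (hr : RE I 1 R R' τ) :
    (R + I) * (R' + I) = -(1 + τ ^ 2) := by
  unfold RE at hr
  have e : 2 * τ * (R + R' - I * (R * R' + τ ^ 2)) = 0 := by linear_combination hr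
  have h2 := (mul_eq_zero.mp e).resolve_left (mul_ne_zero two_ne_zero hτ)
  linear_combination I * h2 + (1 + τ ^ 2 + R * R') * Complex.I_mul_I

section
variable {K : KFam} {l r : SK} {dl : ℕ} {ll : SK} {dr : ℕ} {rr : SK} {w kl kr : ℂ}

lemma one_rel (h : RDt K 1 l r dl ll dr rr w kl kr) :
    (Hq l (RR w kl) (Complex.cos w) + I) * (Hq r (RR w kr) (Complex.cos w) + I) =
      -(1 / Complex.cos w ^ 2) := by
  have hτ : Complex.tan w ≠ 0 := by
    intro h0
    have := h.tan_re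
    rw [h0] at this
    simp at this
  rw [RE_one hτ h.reH, one_add_tan_sq h.cos_ne]

/-- the split hinge of a digit `1` with one side `s` -/
lemma exp_sa (h : RDt K 1 .s .a dl ll dr rr w kl kr)
    (h1 : (acot2 (Sp (RR w kl) (Complex.cos w))).re < 1 / 2) :
    cexp (2 * Real.pi * I * acot2 (Sp (RR w kl) (Complex.cos w))) *
      (1 / Complex.cos w ^ 2 - 2 + 2 * I * RR w kr) = 1 / Complex.cos w ^ 2 := by
  have e := one_rel h
  rw [Hq_s, Hq_of_ne (by decide)] at e
  have q0 : (1 : ℂ) / Complex.cos w ^ 2 ≠ 0 := one_div_ne_zero (pow_ne_zero 2 h.cos_ne)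
  have hR : RR w kr + I ≠ 0 := add_I_ne h.right.Rre
  obtain ⟨n1, n2⟩ : Sp (RR w kl) (Complex.cos w) ≠ I ∧ Sp (RR w kl) (Complex.cos w) ≠ -I :=
    ⟨Sp_ne_I (add_I_ne h.left.Rre) h.cos_ne, ne_nI_of_half h1⟩
  have ee := exp_acot2 n1 n2
  have hS : Sp (RR w kl) (Complex.cos w) + I ≠ 0 := fun h0 => n2 (by linear_combination h0)
  generalize Sp (RR w kl) (Complex.cos w) = U at *
  generalize 1 / Complex.cos w ^ 2 = q at *
  generalize RR w kr = R at *
  apply mul_right_cancel₀ hS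
  have e3 : (q - 2 + 2 * I * R) * (U + I) = q * (U - I) := by
    linear_combination (2 * I) * e - (2 * (U + I)) * Complex.I_mul_I
  linear_combination (cexp (2 * Real.pi * I * acot2 U)) * e3 + q * ee

end

end

end Pool.Agent.Work.MP_b30479_gt.G2.CN.S6
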