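import Pool.Agent.Work.MP_b30479_gt.G2.CN.SCas
import Pool.Agent.Work.MP_b30479_gt.G2.CN.SRwA
import Pool.Agent.Work.MP_b30479_gt.G2.CN.SRwI
import Pool.Agent.Work.MP_b30479_gt.G2.CN.SRwQ

/-!
# Split hinges: the box and the bounds of the sum for every pair of rings
-/

namespace Pool.Agent.Work.MP_b30479_gt.G2.CN.S6

open Complex SR NumI

/-- the box of the hinge variable of the first ring -/
def BX : CS → CS → BB
  | .s1a, .s1s => sb2750_4365_m560_960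
  | .s1a, .s2e => sb2750_4999_m800_330
  | .s1a, .s2a => sb2750_4625_m540_930
  | .s1a, .s2s => sb2750_4625_m540_930
  | .s1a, .s3e => sb2750_4999_m650_610
  | .s1a, .s3a => sb2750_4999_m490_910
  | .s1a, .s3s => sb2750_4999_m490_910
  | .s1a, .s4e => sb2750_4999_m510_1170
  | .s1a, .s4a => sb2750_4999_m510_1170
  | .s1a, .s4z => sb2750_4999_m510_1170
  | .s1a, .s4s => sb2750_7000_m510_1170
  | .s1a, .s5 => sb2750_7000_m510_1170
  | .s1a, .s6 => sb2750_7000_m510_1170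
  | .s1s, .s1a => sb2750_4365_m560_560
  | .s1s, .s1s => sb2750_4365_m560_560
  | .s1s, .s2e => sb2750_4365_m800_330
  | .s1s, .s2a => sb2750_4365_m540_560
  | .s1s, .s2s => sb2750_4365_m540_560
  | .s1s, .s3e => sb2750_4365_m650_560
  | .s1s, .s3a => sb2750_4365_m490_560
  | .s1s, .s3s => sb2750_4365_m490_560
  | .s1s, .s4e => sb2750_4365_m510_560
  | .s1s, .s4a => sb2750_4365_m510_560
  | .s1s, .s4z => sb2750_4365_m510_560
  | .s1s, .s4s => sb2750_4365_m510_560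
  | .s1s, .s5 => sb2750_4365_m510_560
  | .s1s, .s6 => sb2750_4365_m510_560
  | .s2e, .s1a => sb2170_3110_160_660
  | .s2e, .s1s => sb2170_3110_160_660
  | .s2e, .s2e => sb2170_3110_m10_60
  | .s2e, .s2a => sb2170_3110_200_490
  | .s2e, .s2s => sb2170_3110_200_490
  | .s2e, .s3e => sb2170_3110_110_240
  | .s2e, .s3a => sb2170_3110_250_450
  | .s2e, .s3s => sb2170_3110_250_450
  | .s2e, .s4e => sb2170_3110_240_610
  | .s2e, .s4a => sb2170_3110_240_610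
  | .s2e, .s4z => sb2170_3110_240_610
  | .s2e, .s4s => sb2170_3110_240_610
  | .s2e, .s5 => sb2170_3110_240_610
  | .s2e, .s6 => sb2170_3110_240_610
  | .s2a, .s1a => sb2360_3920_m790_180
  | .s2a, .s1s => sb2360_3920_m790_180
  | .s2a, .s2e => sb2360_3920_m985_m480
  | .s2a, .s2a => sb2360_3920_m790_m50
  | .s2a, .s2s => sb2360_3920_m790_m50
  | .s2a, .s3e => sb2360_3920_m910_m320
  | .s2a, .s3a => sb2360_3920_m770_m100
  | .s2a, .s3s => sb2360_3920_m770_m100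
  | .s2a, .s4e => sb2360_3920_m800_80
  | .s2a, .s4a => sb2360_3920_m800_80
  | .s2a, .s4z => sb2360_3920_m800_80
  | .s2a, .s4s => sb2360_3920_m800_80
  | .s2a, .s5 => sb2360_3920_m800_80
  | .s2a, .s6 => sb2360_3920_m800_80
  | .s2s, .s1a => sb2360_3920_m790_180
  | .s2s, .s1s => sb2360_3920_m790_180
  | .s2s, .s2e => sb2360_3920_m985_m480
  | .s2s, .s2a => sb2360_3920_m790_m50
  | .s2s, .s2s => sb2360_3920_m790_m50
  | .s2s, .s3e => sb2360_3920_m910_m320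
  | .s2s, .s3a => sb2360_3920_m770_m100
  | .s2s, .s3s => sb2360_3920_m770_m100
  | .s2s, .s4e => sb2360_3920_m800_80
  | .s2s, .s4a => sb2360_3920_m800_80
  | .s2s, .s4z => sb2360_3920_m800_80
  | .s2s, .s4s => sb2360_3920_m800_80
  | .s2s, .s5 => sb2360_3920_m800_80
  | .s2s, .s6 => sb2360_3920_m800_80
  | .s3e, .s1a => sb2120_2740_m580_m100
  | .s3e, .s1s => sb2120_2740_m580_m100
  | .s3e, .s2e => sb2120_2740_m780_m690
  | .s3e, .s2a => sb2120_2740_m590_m300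
  | .s3e, .s2s => sb2120_2740_m590_m300
  | .s3a, .s1a => sb2260_3140_m920_m210
  | .s3a, .s1s => sb2260_3140_m920_m210
  | .s3a, .s2e => sb2260_3140_m1145_m870
  | .s3a, .s2a => sb2260_3140_m940_m460
  | .s3a, .s2s => sb2260_3140_m940_m460
  | .s3s, .s1a => sb2260_3140_m920_m210
  | .s3s, .s1s => sb2260_3140_m920_m210
  | .s3s, .s2e => sb2260_3140_m1145_m870
  | .s3s, .s2a => sb2260_3140_m940_m460
  | .s3s, .s2s => sb2260_3140_m940_m460
  | .s4e, .s1a => sb2160_2780_m1280_m380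
  | .s4e, .s1s => sb2160_2780_m1280_m380
  | .s4e, .s2e => sb2160_2780_m1280_m1000
  | .s4e, .s2a => sb2160_2780_m1280_m630
  | .s4e, .s2s => sb2160_2780_m1280_m630
  | .s4a, .s1a => sb2140_2980_m1280_m380
  | .s4a, .s1s => sb2140_2980_m1280_m380
  | .s4a, .s2e => sb2140_2980_m1280_m1000
  | .s4a, .s2a => sb2140_2980_m1280_m630
  | .s4a, .s2s => sb2140_2980_m1280_m630
  | .s4z, .s1a => sb2140_2969_m1280_m380
  | .s4z, .s1s => sb2140_2969_m1280_m380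
  | .s4z, .s2e => sb2140_2969_m1280_m1000
  | .s4z, .s2a => sb2140_2969_m1280_m630
  | .s4z, .s2s => sb2140_2969_m1280_m630
  | .s4s, .s1a => sb2140_2980_m1280_m380
  | .s4s, .s1s => sb2140_2980_m1280_m380
  | .s4s, .s2e => sb2140_2980_m1280_m1000
  | .s4s, .s2a => sb2140_2980_m1280_m630
  | .s4s, .s2s => sb2140_2980_m1280_m630
  | .s5, .s1a => sb2140_2980_m1360_m380
  | .s5, .s1s => sb2140_2980_m1360_m380
  | .s5, .s2e => sb2140_2980_m1380_m1000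
  | .s5, .s2a => sb2140_2980_m1380_m630
  | .s5, .s2s => sb2140_2980_m1380_m630
  | .s6, .s1a => sb2140_2980_m1360_m380
  | .s6, .s1s => sb2140_2980_m1360_m380
  | .s6, .s2e => sb2140_2980_m1580_m1000
  | .s6, .s2a => sb2140_2980_m1450_m630
  | .s6, .s2s => sb2140_2980_m1450_m630
  | _, _ => sb2120_2740_m580_m100

/-- the statement for two cases -/
def PB (c c' : CS) : Prop :=
  ∀ {K : KFam} {d : ℕ} {l : SK} {d' : ℕ} {l' : SK} {R k k' : ℂ}, KOK K → c.Has d l →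
    c'.Has d' l' → HDt K .s d l d' l' R k k' → (BX c c').box.In (acot2 (Sp R k))

section

open CS

theorem pb_1a_1s : PB .s1a .s1s := fun hK h1 h2 h =>
  useS (okE h1) (okE h2) r_1a_1s hK h sb2750_4365_m560_960_ok
theorem pb_1a_2e : PB .s1a .s2e := fun hK h1 h2 h =>
  useS (okE h1) (okE h2) r_1a_2e hK h sb2750_4999_m800_330_ok
theorem pb_1a_2a : PB .s1a .s2a := fun hK h1 h2 h =>
  useS (okE h1) (okE h2) r_1a_2a hK h sb2750_4625_m540_930_ok
theorem pb_1a_2s : PB .s1a .s2s := fun hK h1 h2 h =>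
  useS (okE h1) (okE h2) r_1a_2s hK h sb2750_4625_m540_930_ok
theorem pb_1a_3e : PB .s1a .s3e := fun hK h1 h2 h =>
  useS (okE h1) (okE h2) r_1a_3e hK h sb2750_4999_m650_610_ok
theorem pb_1a_3a : PB .s1a .s3a := fun hK h1 h2 h =>
  useS (okE h1) (okE h2) r_1a_3a hK h sb2750_4999_m490_910_ok
theorem pb_1a_3s : PB .s1a .s3s := fun hK h1 h2 h =>
  useS (okE h1) (okE h2) r_1a_3s hK h sb2750_4999_m490_910_ok
theorem pb_1a_4e : PB .s1a .s4e := fun hK h1 h2 h =>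
  useS (okE h1) (okM h2) r_1a_Z5 hK h sb2750_4999_m510_1170_ok
theorem pb_1a_4a : PB .s1a .s4a := fun hK h1 h2 h =>
  useS (okE h1) (okM h2) r_1a_Z5 hK h sb2750_4999_m510_1170_ok
theorem pb_1a_4z : PB .s1a .s4z := fun hK h1 h2 h =>
  useS (okE h1) (okM h2) r_1a_Z5 hK h sb2750_4999_m510_1170_ok
theorem pb_1a_4s : PB .s1a .s4s := fun hK h1 h2 h =>
  useS (okE h1) (okM h2) r_1a_ZL hK h sb2750_7000_m510_1170_ok
theorem pb_1a_5 : PB .s1a .s5 := fun hK h1 h2 h =>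
  useS (okE h1) (okM h2) r_1a_ZL hK h sb2750_7000_m510_1170_ok
theorem pb_1a_6 : PB .s1a .s6 := fun hK h1 h2 h =>
  useS (okE h1) (okM h2) r_1a_ZL hK h sb2750_7000_m510_1170_ok
theorem pb_1s_1a : PB .s1s .s1a := fun hK h1 h2 h =>
  useS' (okE h1) (okE h2) r_1s_1a hK h sb2750_4365_m560_560_ok
theorem pb_1s_1s : PB .s1s .s1s := fun hK h1 h2 h =>
  useS' (okE h1) (okE h2) r_1s_1s hK h sb2750_4365_m560_560_ok
theorem pb_1s_2e : PB .s1s .s2e := fun hK h1 h2 h =>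
  useS' (okE h1) (okE h2) r_1s_2e hK h sb2750_4365_m800_330_ok
theorem pb_1s_2a : PB .s1s .s2a := fun hK h1 h2 h =>
  useS' (okE h1) (okE h2) r_1s_2a hK h sb2750_4365_m540_560_ok
theorem pb_1s_2s : PB .s1s .s2s := fun hK h1 h2 h =>
  useS' (okE h1) (okE h2) r_1s_2s hK h sb2750_4365_m540_560_ok
theorem pb_1s_3e : PB .s1s .s3e := fun hK h1 h2 h =>
  useS' (okE h1) (okE h2) r_1s_3e hK h sb2750_4365_m650_560_ok
theorem pb_1s_3a : PB .s1s .s3a := fun hK h1 h2 h =>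
  useS' (okE h1) (okE h2) r_1s_3a hK h sb2750_4365_m490_560_ok
theorem pb_1s_3s : PB .s1s .s3s := fun hK h1 h2 h =>
  useS' (okE h1) (okE h2) r_1s_3s hK h sb2750_4365_m490_560_ok
theorem pb_1s_4e : PB .s1s .s4e := fun hK h1 h2 h =>
  useS' (okE h1) (okE h2) r_1s_4e hK h sb2750_4365_m510_560_ok
theorem pb_1s_4a : PB .s1s .s4a := fun hK h1 h2 h =>
  useS' (okE h1) (okE h2) r_1s_4a hK h sb2750_4365_m510_560_ok
theorem pb_1s_4z : PB .s1s .s4z := fun hK h1 h2 h =>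
  useS' (okE h1) (okE h2) r_1s_4z hK h sb2750_4365_m510_560_ok
theorem pb_1s_4s : PB .s1s .s4s := fun hK h1 h2 h =>
  useS' (okE h1) (okL h2) r_1s_ZL hK h sb2750_4365_m510_560_ok
theorem pb_1s_5 : PB .s1s .s5 := fun hK h1 h2 h =>
  useS' (okE h1) (okL h2) r_1s_ZL hK h sb2750_4365_m510_560_ok
theorem pb_1s_6 : PB .s1s .s6 := fun hK h1 h2 h =>
  useS' (okE h1) (okL h2) r_1s_ZL hK h sb2750_4365_m510_560_ok
theorem pb_2e_1a : PB .s2e .s1a := fun hK h1 h2 h =>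
  useS (okE h1) (okE h2) r_2e_1a hK h sb2170_3110_160_660_ok
theorem pb_2e_1s : PB .s2e .s1s := fun hK h1 h2 h =>
  useS (okE h1) (okE h2) r_2e_1s hK h sb2170_3110_160_660_ok
theorem pb_2e_2e : PB .s2e .s2e := fun hK h1 h2 h =>
  useS (okE h1) (okE h2) r_2e_2e hK h sb2170_3110_m10_60_ok
theorem pb_2e_2a : PB .s2e .s2a := fun hK h1 h2 h =>
  useS (okE h1) (okE h2) r_2e_2a hK h sb2170_3110_200_490_ok
theorem pb_2e_2s : PB .s2e .s2s := fun hK h1 h2 h =>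
  useS (okE h1) (okE h2) r_2e_2s hK h sb2170_3110_200_490_ok
theorem pb_2e_3e : PB .s2e .s3e := fun hK h1 h2 h =>
  useS (okE h1) (okE h2) r_2e_3e hK h sb2170_3110_110_240_ok
theorem pb_2e_3a : PB .s2e .s3a := fun hK h1 h2 h =>
  useS (okE h1) (okE h2) r_2e_3a hK h sb2170_3110_250_450_ok
theorem pb_2e_3s : PB .s2e .s3s := fun hK h1 h2 h =>
  useS (okE h1) (okE h2) r_2e_3s hK h sb2170_3110_250_450_ok
theorem pb_2e_4e : PB .s2e .s4e := fun hK h1 h2 h =>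
  useS (okE h1) (okZ h2) r_2e_Z hK h sb2170_3110_240_610_ok
theorem pb_2e_4a : PB .s2e .s4a := fun hK h1 h2 h =>
  useS (okE h1) (okZ h2) r_2e_Z hK h sb2170_3110_240_610_ok
theorem pb_2e_4z : PB .s2e .s4z := fun hK h1 h2 h =>
  useS (okE h1) (okZ h2) r_2e_Z hK h sb2170_3110_240_610_ok
theorem pb_2e_4s : PB .s2e .s4s := fun hK h1 h2 h =>
  useS (okE h1) (okZ h2) r_2e_Z hK h sb2170_3110_240_610_ok
theorem pb_2e_5 : PB .s2e .s5 := fun hK h1 h2 h =>
  useS (okE h1) (okZ h2) r_2e_Z hK h sb2170_3110_240_610_ok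
theorem pb_2e_6 : PB .s2e .s6 := fun hK h1 h2 h =>
  useS (okE h1) (okZ h2) r_2e_Z hK h sb2170_3110_240_610_ok
theorem pb_2a_1a : PB .s2a .s1a := fun hK h1 h2 h =>
  useS (okE h1) (okE h2) r_2a_1a hK h sb2360_3920_m790_180_ok
theorem pb_2a_1s : PB .s2a .s1s := fun hK h1 h2 h =>
  useS (okE h1) (okE h2) r_2a_1s hK h sb2360_3920_m790_180_ok
theorem pb_2a_2e : PB .s2a .s2e := fun hK h1 h2 h =>
  useS (okE h1) (okE h2) r_2a_2e hK h sb2360_3920_m985_m480_ok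
theorem pb_2a_2a : PB .s2a .s2a := fun hK h1 h2 h =>
  useS (okE h1) (okE h2) r_2a_2a hK h sb2360_3920_m790_m50_ok
theorem pb_2a_2s : PB .s2a .s2s := fun hK h1 h2 h =>
  useS (okE h1) (okE h2) r_2a_2s hK h sb2360_3920_m790_m50_ok
theorem pb_2a_3e : PB .s2a .s3e := fun hK h1 h2 h =>
  useS (okE h1) (okE h2) r_2a_3e hK h sb2360_3920_m910_m320_ok
theorem pb_2a_3a : PB .s2a .s3a := fun hK h1 h2 h =>
  useS (okE h1) (okE h2) r_2a_3a hK h sb2360_3920_m770_m100_ok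
theorem pb_2a_3s : PB .s2a .s3s := fun hK h1 h2 h =>
  useS (okE h1) (okE h2) r_2a_3s hK h sb2360_3920_m770_m100_ok
theorem pb_2a_4e : PB .s2a .s4e := fun hK h1 h2 h =>
  useS (okE h1) (okE h2) r_2a_4e hK h sb2360_3920_m800_80_ok
theorem pb_2a_4a : PB .s2a .s4a := fun hK h1 h2 h =>
  useS (okE h1) (okE h2) r_2a_4a hK h sb2360_3920_m800_80_ok
theorem pb_2a_4z : PB .s2a .s4z := fun hK h1 h2 h =>
  useS (okE h1) (okE h2) r_2a_4z hK h sb2360_3920_m800_80_ok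
theorem pb_2a_4s : PB .s2a .s4s := fun hK h1 h2 h =>
  useS (okE h1) (okL h2) r_2a_ZL hK h sb2360_3920_m800_80_ok
theorem pb_2a_5 : PB .s2a .s5 := fun hK h1 h2 h =>
  useS (okE h1) (okL h2) r_2a_ZL hK h sb2360_3920_m800_80_ok
theorem pb_2a_6 : PB .s2a .s6 := fun hK h1 h2 h =>
  useS (okE h1) (okL h2) r_2a_ZL hK h sb2360_3920_m800_80_ok
theorem pb_2s_1a : PB .s2s .s1a := fun hK h1 h2 h =>
  useS (okE h1) (okE h2) r_2s_1a hK h sb2360_3920_m790_180_ok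
theorem pb_2s_1s : PB .s2s .s1s := fun hK h1 h2 h =>
  useS (okE h1) (okE h2) r_2s_1s hK h sb2360_3920_m790_180_ok
theorem pb_2s_2e : PB .s2s .s2e := fun hK h1 h2 h =>
  useS (okE h1) (okE h2) r_2s_2e hK h sb2360_3920_m985_m480_ok
theorem pb_2s_2a : PB .s2s .s2a := fun hK h1 h2 h =>
  useS (okE h1) (okE h2) r_2s_2a hK h sb2360_3920_m790_m50_ok
theorem pb_2s_2s : PB .s2s .s2s := fun hK h1 h2 h =>
  useS (okE h1) (okE h2) r_2s_2s hK h sb2360_3920_m790_m50_ok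
theorem pb_2s_3e : PB .s2s .s3e := fun hK h1 h2 h =>
  useS (okE h1) (okE h2) r_2s_3e hK h sb2360_3920_m910_m320_ok
theorem pb_2s_3a : PB .s2s .s3a := fun hK h1 h2 h =>
  useS (okE h1) (okE h2) r_2s_3a hK h sb2360_3920_m770_m100_ok
theorem pb_2s_3s : PB .s2s .s3s := fun hK h1 h2 h =>
  useS (okE h1) (okE h2) r_2s_3s hK h sb2360_3920_m770_m100_ok
theorem pb_2s_4e : PB .s2s .s4e := fun hK h1 h2 h =>
  useS (okE h1) (okE h2) r_2s_4e hK h sb2360_3920_m800_80_ok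
theorem pb_2s_4a : PB .s2s .s4a := fun hK h1 h2 h =>
  useS (okE h1) (okE h2) r_2s_4a hK h sb2360_3920_m800_80_ok
theorem pb_2s_4z : PB .s2s .s4z := fun hK h1 h2 h =>
  useS (okE h1) (okE h2) r_2s_4z hK h sb2360_3920_m800_80_ok
theorem pb_2s_4s : PB .s2s .s4s := fun hK h1 h2 h =>
  useS (okE h1) (okL h2) r_2s_ZL hK h sb2360_3920_m800_80_ok
theorem pb_2s_5 : PB .s2s .s5 := fun hK h1 h2 h =>
  useS (okE h1) (okL h2) r_2s_ZL hK h sb2360_3920_m800_80_ok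
theorem pb_2s_6 : PB .s2s .s6 := fun hK h1 h2 h =>
  useS (okE h1) (okL h2) r_2s_ZL hK h sb2360_3920_m800_80_ok
theorem pb_3e_1a : PB .s3e .s1a := fun hK h1 h2 h =>
  useS (okE h1) (okE h2) r_3e_1a hK h sb2120_2740_m580_m100_ok
theorem pb_3e_1s : PB .s3e .s1s := fun hK h1 h2 h =>
  useS (okE h1) (okE h2) r_3e_1s hK h sb2120_2740_m580_m100_ok
theorem pb_3e_2e : PB .s3e .s2e := fun hK h1 h2 h =>
  useS (okE h1) (okE h2) r_3e_2e hK h sb2120_2740_m780_m690_ok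
theorem pb_3e_2a : PB .s3e .s2a := fun hK h1 h2 h =>
  useS (okE h1) (okE h2) r_3e_2a hK h sb2120_2740_m590_m300_ok
theorem pb_3e_2s : PB .s3e .s2s := fun hK h1 h2 h =>
  useS (okE h1) (okE h2) r_3e_2s hK h sb2120_2740_m590_m300_ok
theorem pb_3a_1a : PB .s3a .s1a := fun hK h1 h2 h =>
  useS (okE h1) (okE h2) r_3a_1a hK h sb2260_3140_m920_m210_ok
theorem pb_3a_1s : PB .s3a .s1s := fun hK h1 h2 h =>
  useS (okE h1) (okE h2) r_3a_1s hK h sb2260_3140_m920_m210_ok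
theorem pb_3a_2e : PB .s3a .s2e := fun hK h1 h2 h =>
  useS (okE h1) (okE h2) r_3a_2e hK h sb2260_3140_m1145_m870_ok
theorem pb_3a_2a : PB .s3a .s2a := fun hK h1 h2 h =>
  useS (okE h1) (okE h2) r_3a_2a hK h sb2260_3140_m940_m460_ok
theorem pb_3a_2s : PB .s3a .s2s := fun hK h1 h2 h =>
  useS (okE h1) (okE h2) r_3a_2s hK h sb2260_3140_m940_m460_ok
theorem pb_3s_1a : PB .s3s .s1a := fun hK h1 h2 h =>
  useS (okE h1) (okE h2) r_3s_1a hK h sb2260_3140_m920_m210_ok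
theorem pb_3s_1s : PB .s3s .s1s := fun hK h1 h2 h =>
  useS (okE h1) (okE h2) r_3s_1s hK h sb2260_3140_m920_m210_ok
theorem pb_3s_2e : PB .s3s .s2e := fun hK h1 h2 h =>
  useS (okE h1) (okE h2) r_3s_2e hK h sb2260_3140_m1145_m870_ok
theorem pb_3s_2a : PB .s3s .s2a := fun hK h1 h2 h =>
  useS (okE h1) (okE h2) r_3s_2a hK h sb2260_3140_m940_m460_ok
theorem pb_3s_2s : PB .s3s .s2s := fun hK h1 h2 h =>
  useS (okE h1) (okE h2) r_3s_2s hK h sb2260_3140_m940_m460_ok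
theorem pb_4e_1a : PB .s4e .s1a := fun hK h1 h2 h =>
  useS (okE h1) (okE h2) r_4e_1a hK h sb2160_2780_m1280_m380_ok
theorem pb_4e_1s : PB .s4e .s1s := fun hK h1 h2 h =>
  useS (okE h1) (okE h2) r_4e_1s hK h sb2160_2780_m1280_m380_ok
theorem pb_4e_2e : PB .s4e .s2e := fun hK h1 h2 h =>
  useS (okE h1) (okE h2) r_4e_2e hK h sb2160_2780_m1280_m1000_ok
theorem pb_4e_2a : PB .s4e .s2a := fun hK h1 h2 h =>
  useS (okE h1) (okE h2) r_4e_2a hK h sb2160_2780_m1280_m630_ok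
theorem pb_4e_2s : PB .s4e .s2s := fun hK h1 h2 h =>
  useS (okE h1) (okE h2) r_4e_2s hK h sb2160_2780_m1280_m630_ok
theorem pb_4a_1a : PB .s4a .s1a := fun hK h1 h2 h =>
  useS (okE h1) (okE h2) r_4a_1a hK h sb2140_2980_m1280_m380_ok
theorem pb_4a_1s : PB .s4a .s1s := fun hK h1 h2 h =>
  useS (okE h1) (okE h2) r_4a_1s hK h sb2140_2980_m1280_m380_ok
theorem pb_4a_2e : PB .s4a .s2e := fun hK h1 h2 h =>
  useS (okE h1) (okE h2) r_4a_2e hK h sb2140_2980_m1280_m1000_ok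
theorem pb_4a_2a : PB .s4a .s2a := fun hK h1 h2 h =>
  useS (okE h1) (okE h2) r_4a_2a hK h sb2140_2980_m1280_m630_ok
theorem pb_4a_2s : PB .s4a .s2s := fun hK h1 h2 h =>
  useS (okE h1) (okE h2) r_4a_2s hK h sb2140_2980_m1280_m630_ok
theorem pb_4z_1a : PB .s4z .s1a := fun hK h1 h2 h =>
  useS (okE h1) (okE h2) r_4z_1a hK h sb2140_2969_m1280_m380_ok
theorem pb_4z_1s : PB .s4z .s1s := fun hK h1 h2 h =>
  useS (okE h1) (okE h2) r_4z_1s hK h sb2140_2969_m1280_m380_ok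
theorem pb_4z_2e : PB .s4z .s2e := fun hK h1 h2 h =>
  useS (okE h1) (okE h2) r_4z_2e hK h sb2140_2969_m1280_m1000_ok
theorem pb_4z_2a : PB .s4z .s2a := fun hK h1 h2 h =>
  useS (okE h1) (okE h2) r_4z_2a hK h sb2140_2969_m1280_m630_ok
theorem pb_4z_2s : PB .s4z .s2s := fun hK h1 h2 h =>
  useS (okE h1) (okE h2) r_4z_2s hK h sb2140_2969_m1280_m630_ok
theorem pb_4s_1a : PB .s4s .s1a := fun hK h1 h2 h =>
  useS (okE h1) (okE h2) r_4s_1a hK h sb2140_2980_m1280_m380_ok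
theorem pb_4s_1s : PB .s4s .s1s := fun hK h1 h2 h =>
  useS (okE h1) (okE h2) r_4s_1s hK h sb2140_2980_m1280_m380_ok
theorem pb_4s_2e : PB .s4s .s2e := fun hK h1 h2 h =>
  useS (okE h1) (okE h2) r_4s_2e hK h sb2140_2980_m1280_m1000_ok
theorem pb_4s_2a : PB .s4s .s2a := fun hK h1 h2 h =>
  useS (okE h1) (okE h2) r_4s_2a hK h sb2140_2980_m1280_m630_ok
theorem pb_4s_2s : PB .s4s .s2s := fun hK h1 h2 h =>
  useS (okE h1) (okE h2) r_4s_2s hK h sb2140_2980_m1280_m630_ok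
theorem pb_5_1a : PB .s5 .s1a := fun hK h1 h2 h =>
  useS (okL h1) (okE h2) r_ZL_1a hK h sb2140_2980_m1360_m380_ok
theorem pb_5_1s : PB .s5 .s1s := fun hK h1 h2 h =>
  useS (okL h1) (okE h2) r_ZL_1s hK h sb2140_2980_m1360_m380_ok
theorem pb_5_2e : PB .s5 .s2e := fun hK h1 h2 h =>
  useS (okE h1) (okE h2) r_D5_2e hK h sb2140_2980_m1380_m1000_ok
theorem pb_5_2a : PB .s5 .s2a := fun hK h1 h2 h =>
  useS (okE h1) (okE h2) r_D5_2a hK h sb2140_2980_m1380_m630_ok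
theorem pb_5_2s : PB .s5 .s2s := fun hK h1 h2 h =>
  useS (okE h1) (okE h2) r_D5_2s hK h sb2140_2980_m1380_m630_ok
theorem pb_6_1a : PB .s6 .s1a := fun hK h1 h2 h =>
  useS (okE h1) (okE h2) r_ZL_1a hK h sb2140_2980_m1360_m380_ok
theorem pb_6_1s : PB .s6 .s1s := fun hK h1 h2 h =>
  useS (okE h1) (okE h2) r_ZL_1s hK h sb2140_2980_m1360_m380_ok
theorem pb_6_2e : PB .s6 .s2e := fun hK h1 h2 h =>
  useS (okE h1) (okE h2) r_ZL_2e hK h sb2140_2980_m1580_m1000_ok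
theorem pb_6_2a : PB .s6 .s2a := fun hK h1 h2 h =>
  useS (okE h1) (okE h2) r_ZL_2a hK h sb2140_2980_m1450_m630_ok
theorem pb_6_2s : PB .s6 .s2s := fun hK h1 h2 h =>
  useS (okE h1) (okE h2) r_ZL_2s hK h sb2140_2980_m1450_m630_ok

end

/-- the box of a split hinge -/
theorem pb_all {c c' : CS} (ha : CS.adm c c' = true) : PB c c' := by
  cases c <;> cases c'
  · exact absurd ha (by decide)
  · exact pb_1a_1s
  · exact pb_1a_2e
  · exact pb_1a_2a
  · exact pb_1a_2s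
  · exact pb_1a_3e
  · exact pb_1a_3a
  · exact pb_1a_3s
  · exact pb_1a_4e
  · exact pb_1a_4a
  · exact pb_1a_4z
  · exact pb_1a_4s
  · exact pb_1a_5
  · exact pb_1a_6
  · exact pb_1s_1a
  · exact pb_1s_1s
  · exact pb_1s_2e
  · exact pb_1s_2a
  · exact pb_1s_2s
  · exact pb_1s_3e
  · exact pb_1s_3a
  · exact pb_1s_3s
  · exact pb_1s_4e
  · exact pb_1s_4a
  · exact pb_1s_4z
  · exact pb_1s_4s
  · exact pb_1s_5
  · exact pb_1s_6
  · exact pb_2e_1a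
  · exact pb_2e_1s
  · exact pb_2e_2e
  · exact pb_2e_2a
  · exact pb_2e_2s
  · exact pb_2e_3e
  · exact pb_2e_3a
  · exact pb_2e_3s
  · exact pb_2e_4e
  · exact pb_2e_4a
  · exact pb_2e_4z
  · exact pb_2e_4s
  · exact pb_2e_5
  · exact pb_2e_6
  · exact pb_2a_1a
  · exact pb_2a_1s
  · exact pb_2a_2e
  · exact pb_2a_2a
  · exact pb_2a_2s
  · exact pb_2a_3e
  · exact pb_2a_3a
  · exact pb_2a_3s
  · exact pb_2a_4e
  · exact pb_2a_4a
  · exact pb_2a_4z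
  · exact pb_2a_4s
  · exact pb_2a_5
  · exact pb_2a_6
  · exact pb_2s_1a
  · exact pb_2s_1s
  · exact pb_2s_2e
  · exact pb_2s_2a
  · exact pb_2s_2s
  · exact pb_2s_3e
  · exact pb_2s_3a
  · exact pb_2s_3s
  · exact pb_2s_4e
  · exact pb_2s_4a
  · exact pb_2s_4z
  · exact pb_2s_4s
  · exact pb_2s_5
  · exact pb_2s_6
  · exact pb_3e_1a
  · exact pb_3e_1s
  · exact pb_3e_2e
  · exact pb_3e_2a
  · exact pb_3e_2s
  · exact absurd ha (by decide)
  · exact absurd ha (by decide)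
  · exact absurd ha (by decide)
  · exact absurd ha (by decide)
  · exact absurd ha (by decide)
  · exact absurd ha (by decide)
  · exact absurd ha (by decide)
  · exact absurd ha (by decide)
  · exact absurd ha (by decide)
  · exact pb_3a_1a
  · exact pb_3a_1s
  · exact pb_3a_2e
  · exact pb_3a_2a
  · exact pb_3a_2s
  · exact absurd ha (by decide)
  · exact absurd ha (by decide)
  · exact absurd ha (by decide)
  · exact absurd ha (by decide)
  · exact absurd ha (by decide)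
  · exact absurd ha (by decide)
  · exact absurd ha (by decide)
  · exact absurd ha (by decide)
  · exact absurd ha (by decide)
  · exact pb_3s_1a
  · exact pb_3s_1s
  · exact pb_3s_2e
  · exact pb_3s_2a
  · exact pb_3s_2s
  · exact absurd ha (by decide)
  · exact absurd ha (by decide)
  · exact absurd ha (by decide)
  · exact absurd ha (by decide)
  · exact absurd ha (by decide)
  · exact absurd ha (by decide)
  · exact absurd ha (by decide)
  · exact absurd ha (by decide)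
  · exact absurd ha (by decide)
  · exact pb_4e_1a
  · exact pb_4e_1s
  · exact pb_4e_2e
  · exact pb_4e_2a
  · exact pb_4e_2s
  · exact absurd ha (by decide)
  · exact absurd ha (by decide)
  · exact absurd ha (by decide)
  · exact absurd ha (by decide)
  · exact absurd ha (by decide)
  · exact absurd ha (by decide)
  · exact absurd ha (by decide)
  · exact absurd ha (by decide)
  · exact absurd ha (by decide)
  · exact pb_4a_1a
  · exact pb_4a_1s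
  · exact pb_4a_2e
  · exact pb_4a_2a
  · exact pb_4a_2s
  · exact absurd ha (by decide)
  · exact absurd ha (by decide)
  · exact absurd ha (by decide)
  · exact absurd ha (by decide)
  · exact absurd ha (by decide)
  · exact absurd ha (by decide)
  · exact absurd ha (by decide)
  · exact absurd ha (by decide)
  · exact absurd ha (by decide)
  · exact pb_4z_1a
  · exact pb_4z_1s
  · exact pb_4z_2e
  · exact pb_4z_2a
  · exact pb_4z_2s
  · exact absurd ha (by decide)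
  · exact absurd ha (by decide)
  · exact absurd ha (by decide)
  · exact absurd ha (by decide)
  · exact absurd ha (by decide)
  · exact absurd ha (by decide)
  · exact absurd ha (by decide)
  · exact absurd ha (by decide)
  · exact absurd ha (by decide)
  · exact pb_4s_1a
  · exact pb_4s_1s
  · exact pb_4s_2e
  · exact pb_4s_2a
  · exact pb_4s_2s
  · exact absurd ha (by decide)
  · exact absurd ha (by decide)
  · exact absurd ha (by decide)
  · exact absurd ha (by decide)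
  · exact absurd ha (by decide)
  · exact absurd ha (by decide)
  · exact absurd ha (by decide)
  · exact absurd ha (by decide)
  · exact absurd ha (by decide)
  · exact pb_5_1a
  · exact pb_5_1s
  · exact pb_5_2e
  · exact pb_5_2a
  · exact pb_5_2s
  · exact absurd ha (by decide)
  · exact absurd ha (by decide)
  · exact absurd ha (by decide)
  · exact absurd ha (by decide)
  · exact absurd ha (by decide)
  · exact absurd ha (by decide)
  · exact absurd ha (by decide)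
  · exact absurd ha (by decide)
  · exact absurd ha (by decide)
  · exact pb_6_1a
  · exact pb_6_1s
  · exact pb_6_2e
  · exact pb_6_2a
  · exact pb_6_2s
  · exact absurd ha (by decide)
  · exact absurd ha (by decide)
  · exact absurd ha (by decide)
  · exact absurd ha (by decide)
  · exact absurd ha (by decide)
  · exact absurd ha (by decide)
  · exact absurd ha (by decide)
  · exact absurd ha (by decide)
  · exact absurd ha (by decide)

/-- the bounds of the sum -/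
def GU : CS → CS → List GC
  | .s1a, .s1s => gu1_1
  | .s1a, .s2e => gu1_2e
  | .s1a, .s2a => gu1_2
  | .s1a, .s2s => gu1_2
  | .s1a, .s3e => gu1_3e
  | .s1a, .s3a => gu1_3
  | .s1a, .s3s => gu1_3
  | .s1a, .s4e => gu1_r
  | .s1a, .s4a => gu1_r
  | .s1a, .s4z => gu1_r
  | .s1a, .s4s => gu1_r
  | .s1a, .s5 => gu1_r
  | .s1a, .s6 => gu1_r
  | .s1s, .s1a => gu1_1
  | .s1s, .s1s => gu1_1
  | .s1s, .s2e => gu1_2e
  | .s1s, .s2a => gu1_2
  | .s1s, .s2s => gu1_2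
  | .s1s, .s3e => gu1_3e
  | .s1s, .s3a => gu1_3
  | .s1s, .s3s => gu1_3
  | .s1s, .s4e => gu1_r
  | .s1s, .s4a => gu1_r
  | .s1s, .s4z => gu1_r
  | .s1s, .s4s => gu1_r
  | .s1s, .s5 => gu1_r
  | .s1s, .s6 => gu1_r
  | .s2e, .s1a => gu1_2e
  | .s2e, .s1s => gu1_2e
  | .s2e, .s2e => gu2e_2e
  | .s2e, .s2a => gu2e_2
  | .s2e, .s2s => gu2e_2
  | .s2e, .s3e => gu2e_3e
  | .s2e, .s3a => gu2e_3
  | .s2e, .s3s => gu2e_3
  | .s2e, .s4e => gu2e_r
  | .s2e, .s4a => gu2e_r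
  | .s2e, .s4z => gu2e_r
  | .s2e, .s4s => gu2e_r
  | .s2e, .s5 => gu2e_r
  | .s2e, .s6 => gu2e_r
  | .s2a, .s1a => gu1_2
  | .s2a, .s1s => gu1_2
  | .s2a, .s2e => gu2e_2
  | .s2a, .s2a => gu2_2
  | .s2a, .s2s => gu2_2
  | .s2a, .s3e => gu2_3e
  | .s2a, .s3a => gu2_3
  | .s2a, .s3s => gu2_3
  | .s2a, .s4e => gu2_r
  | .s2a, .s4a => gu2_r
  | .s2a, .s4z => gu2_r
  | .s2a, .s4s => gu2_r
  | .s2a, .s5 => gu2_r
  | .s2a, .s6 => gu2_r
  | .s2s, .s1a => gu1_2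
  | .s2s, .s1s => gu1_2
  | .s2s, .s2e => gu2e_2
  | .s2s, .s2a => gu2_2
  | .s2s, .s2s => gu2_2
  | .s2s, .s3e => gu2_3e
  | .s2s, .s3a => gu2_3
  | .s2s, .s3s => gu2_3
  | .s2s, .s4e => gu2_r
  | .s2s, .s4a => gu2_r
  | .s2s, .s4z => gu2_r
  | .s2s, .s4s => gu2_r
  | .s2s, .s5 => gu2_r
  | .s2s, .s6 => gu2_r
  | .s3e, .s1a => gu1_3e
  | .s3e, .s1s => gu1_3e
  | .s3e, .s2e => gu2e_3e
  | .s3e, .s2a => gu2_3e
  | .s3e, .s2s => gu2_3e
  | .s3a, .s1a => gu1_3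
  | .s3a, .s1s => gu1_3
  | .s3a, .s2e => gu2e_3
  | .s3a, .s2a => gu2_3
  | .s3a, .s2s => gu2_3
  | .s3s, .s1a => gu1_3
  | .s3s, .s1s => gu1_3
  | .s3s, .s2e => gu2e_3
  | .s3s, .s2a => gu2_3
  | .s3s, .s2s => gu2_3
  | .s4e, .s1a => gu1_r
  | .s4e, .s1s => gu1_r
  | .s4e, .s2e => gu2e_r
  | .s4e, .s2a => gu2_r
  | .s4e, .s2s => gu2_r
  | .s4a, .s1a => gu1_r
  | .s4a, .s1s => gu1_r
  | .s4a, .s2e => gu2e_r
  | .s4a, .s2a => gu2_r
  | .s4a, .s2s => gu2_r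
  | .s4z, .s1a => gu1_r
  | .s4z, .s1s => gu1_r
  | .s4z, .s2e => gu2e_r
  | .s4z, .s2a => gu2_r
  | .s4z, .s2s => gu2_r
  | .s4s, .s1a => gu1_r
  | .s4s, .s1s => gu1_r
  | .s4s, .s2e => gu2e_r
  | .s4s, .s2a => gu2_r
  | .s4s, .s2s => gu2_r
  | .s5, .s1a => gu1_r
  | .s5, .s1s => gu1_r
  | .s5, .s2e => gu2e_r
  | .s5, .s2a => gu2_r
  | .s5, .s2s => gu2_r
  | .s6, .s1a => gu1_r
  | .s6, .s1s => gu1_r
  | .s6, .s2e => gu2e_r
  | .s6, .s2a => gu2_r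
  | .s6, .s2s => gu2_r
  | _, _ => []

/-- the statement for the sum for two cases -/
def PU (c c' : CS) : Prop :=
  ∀ {K : KFam} {d : ℕ} {l : SK} {d' : ℕ} {l' : SK} {R k k' : ℂ}, KOK K → c.Has d l →
    c'.Has d' l' → HDt K .s d l d' l' R k k' → (acot2 (Sp R k)).re < 1 / 2 →
    (acot2 (Sp R k')).re < 1 / 2 → ∀ e ∈ GU c c', e.P (acot2 (Sp R k) + acot2 (Sp R k'))

section

open CS

theorem pu_1a_1s : PU .s1a .s1s := fun hK h1 h2 h e1 e2 =>
  useU (okE h1) (okE h2) r_1a_1s hK h gu1_1_ok e1 e2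
theorem pu_1a_2e : PU .s1a .s2e := fun hK h1 h2 h e1 e2 =>
  useU (okE h1) (okE h2) r_1a_2e hK h gu1_2e_ok e1 e2
theorem pu_1a_2a : PU .s1a .s2a := fun hK h1 h2 h e1 e2 =>
  useU (okE h1) (okE h2) r_1a_2a hK h gu1_2_ok e1 e2
theorem pu_1a_2s : PU .s1a .s2s := fun hK h1 h2 h e1 e2 =>
  useU (okE h1) (okE h2) r_1a_2s hK h gu1_2_ok e1 e2
theorem pu_1a_3e : PU .s1a .s3e := fun hK h1 h2 h e1 e2 =>
  useU (okE h1) (okE h2) r_1a_3e hK h gu1_3e_ok e1 e2
theorem pu_1a_3a : PU .s1a .s3a := fun hK h1 h2 h e1 e2 =>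
  useU (okE h1) (okE h2) r_1a_3a hK h gu1_3_ok e1 e2
theorem pu_1a_3s : PU .s1a .s3s := fun hK h1 h2 h e1 e2 =>
  useU (okE h1) (okE h2) r_1a_3s hK h gu1_3_ok e1 e2
theorem pu_1a_4e : PU .s1a .s4e := fun hK h1 h2 h e1 e2 =>
  useU (okE h1) (okM h2) r_1a_Z5 hK h gu1_r_ok e1 e2
theorem pu_1a_4a : PU .s1a .s4a := fun hK h1 h2 h e1 e2 =>
  useU (okE h1) (okM h2) r_1a_Z5 hK h gu1_r_ok e1 e2
theorem pu_1a_4z : PU .s1a .s4z := fun hK h1 h2 h e1 e2 =>
  useU (okE h1) (okM h2) r_1a_Z5 hK h gu1_r_ok e1 e2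
theorem pu_1a_4s : PU .s1a .s4s := fun hK h1 h2 h e1 e2 =>
  useU (okE h1) (okM h2) r_1a_ZL hK h gu1_r_ok e1 e2
theorem pu_1a_5 : PU .s1a .s5 := fun hK h1 h2 h e1 e2 =>
  useU (okE h1) (okM h2) r_1a_ZL hK h gu1_r_ok e1 e2
theorem pu_1a_6 : PU .s1a .s6 := fun hK h1 h2 h e1 e2 =>
  useU (okE h1) (okM h2) r_1a_ZL hK h gu1_r_ok e1 e2
theorem pu_1s_1s : PU .s1s .s1s := fun hK h1 h2 h e1 e2 =>
  useU' (okE h1) (okE h2) r_1s_1s hK h gu1_1_ok e1 e2
theorem pu_1s_2e : PU .s1s .s2e := fun hK h1 h2 h e1 e2 =>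
  useU' (okE h1) (okE h2) r_1s_2e hK h gu1_2e_ok e1 e2
theorem pu_1s_2a : PU .s1s .s2a := fun hK h1 h2 h e1 e2 =>
  useU' (okE h1) (okE h2) r_1s_2a hK h gu1_2_ok e1 e2
theorem pu_1s_2s : PU .s1s .s2s := fun hK h1 h2 h e1 e2 =>
  useU' (okE h1) (okE h2) r_1s_2s hK h gu1_2_ok e1 e2
theorem pu_1s_3e : PU .s1s .s3e := fun hK h1 h2 h e1 e2 =>
  useU' (okE h1) (okE h2) r_1s_3e hK h gu1_3e_ok e1 e2
theorem pu_1s_3a : PU .s1s .s3a := fun hK h1 h2 h e1 e2 =>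
  useU' (okE h1) (okE h2) r_1s_3a hK h gu1_3_ok e1 e2
theorem pu_1s_3s : PU .s1s .s3s := fun hK h1 h2 h e1 e2 =>
  useU' (okE h1) (okE h2) r_1s_3s hK h gu1_3_ok e1 e2
theorem pu_1s_4e : PU .s1s .s4e := fun hK h1 h2 h e1 e2 =>
  useU' (okE h1) (okE h2) r_1s_4e hK h gu1_r_ok e1 e2
theorem pu_1s_4a : PU .s1s .s4a := fun hK h1 h2 h e1 e2 =>
  useU' (okE h1) (okE h2) r_1s_4a hK h gu1_r_ok e1 e2
theorem pu_1s_4z : PU .s1s .s4z := fun hK h1 h2 h e1 e2 =>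
  useU' (okE h1) (okE h2) r_1s_4z hK h gu1_r_ok e1 e2
theorem pu_1s_4s : PU .s1s .s4s := fun hK h1 h2 h e1 e2 =>
  useU' (okE h1) (okL h2) r_1s_ZL hK h gu1_r_ok e1 e2
theorem pu_1s_5 : PU .s1s .s5 := fun hK h1 h2 h e1 e2 =>
  useU' (okE h1) (okL h2) r_1s_ZL hK h gu1_r_ok e1 e2
theorem pu_1s_6 : PU .s1s .s6 := fun hK h1 h2 h e1 e2 =>
  useU' (okE h1) (okL h2) r_1s_ZL hK h gu1_r_ok e1 e2
theorem pu_2e_2e : PU .s2e .s2e := fun hK h1 h2 h e1 e2 =>
  useU (okE h1) (okE h2) r_2e_2e hK h gu2e_2e_ok e1 e2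
theorem pu_2e_2a : PU .s2e .s2a := fun hK h1 h2 h e1 e2 =>
  useU (okE h1) (okE h2) r_2e_2a hK h gu2e_2_ok e1 e2
theorem pu_2e_2s : PU .s2e .s2s := fun hK h1 h2 h e1 e2 =>
  useU (okE h1) (okE h2) r_2e_2s hK h gu2e_2_ok e1 e2
theorem pu_2e_3e : PU .s2e .s3e := fun hK h1 h2 h e1 e2 =>
  useU (okE h1) (okE h2) r_2e_3e hK h gu2e_3e_ok e1 e2
theorem pu_2e_3a : PU .s2e .s3a := fun hK h1 h2 h e1 e2 =>
  useU (okE h1) (okE h2) r_2e_3a hK h gu2e_3_ok e1 e2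
theorem pu_2e_3s : PU .s2e .s3s := fun hK h1 h2 h e1 e2 =>
  useU (okE h1) (okE h2) r_2e_3s hK h gu2e_3_ok e1 e2
theorem pu_2e_4e : PU .s2e .s4e := fun hK h1 h2 h e1 e2 =>
  useU (okE h1) (okZ h2) r_2e_Z hK h gu2e_r_ok e1 e2
theorem pu_2e_4a : PU .s2e .s4a := fun hK h1 h2 h e1 e2 =>
  useU (okE h1) (okZ h2) r_2e_Z hK h gu2e_r_ok e1 e2
theorem pu_2e_4z : PU .s2e .s4z := fun hK h1 h2 h e1 e2 =>
  useU (okE h1) (okZ h2) r_2e_Z hK h gu2e_r_ok e1 e2
theorem pu_2e_4s : PU .s2e .s4s := fun hK h1 h2 h e1 e2 =>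
  useU (okE h1) (okZ h2) r_2e_Z hK h gu2e_r_ok e1 e2
theorem pu_2e_5 : PU .s2e .s5 := fun hK h1 h2 h e1 e2 =>
  useU (okE h1) (okZ h2) r_2e_Z hK h gu2e_r_ok e1 e2
theorem pu_2e_6 : PU .s2e .s6 := fun hK h1 h2 h e1 e2 =>
  useU (okE h1) (okZ h2) r_2e_Z hK h gu2e_r_ok e1 e2
theorem pu_2a_2a : PU .s2a .s2a := fun hK h1 h2 h e1 e2 =>
  useU (okE h1) (okE h2) r_2a_2a hK h gu2_2_ok e1 e2
theorem pu_2a_2s : PU .s2a .s2s := fun hK h1 h2 h e1 e2 =>
  useU (okE h1) (okE h2) r_2a_2s hK h gu2_2_ok e1 e2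
theorem pu_2a_3e : PU .s2a .s3e := fun hK h1 h2 h e1 e2 =>
  useU (okE h1) (okE h2) r_2a_3e hK h gu2_3e_ok e1 e2
theorem pu_2a_3a : PU .s2a .s3a := fun hK h1 h2 h e1 e2 =>
  useU (okE h1) (okE h2) r_2a_3a hK h gu2_3_ok e1 e2
theorem pu_2a_3s : PU .s2a .s3s := fun hK h1 h2 h e1 e2 =>
  useU (okE h1) (okE h2) r_2a_3s hK h gu2_3_ok e1 e2
theorem pu_2a_4e : PU .s2a .s4e := fun hK h1 h2 h e1 e2 =>
  useU (okE h1) (okE h2) r_2a_4e hK h gu2_r_ok e1 e2
theorem pu_2a_4a : PU .s2a .s4a := fun hK h1 h2 h e1 e2 =>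
  useU (okE h1) (okE h2) r_2a_4a hK h gu2_r_ok e1 e2
theorem pu_2a_4z : PU .s2a .s4z := fun hK h1 h2 h e1 e2 =>
  useU (okE h1) (okE h2) r_2a_4z hK h gu2_r_ok e1 e2
theorem pu_2a_4s : PU .s2a .s4s := fun hK h1 h2 h e1 e2 =>
  useU (okE h1) (okL h2) r_2a_ZL hK h gu2_r_ok e1 e2
theorem pu_2a_5 : PU .s2a .s5 := fun hK h1 h2 h e1 e2 =>
  useU (okE h1) (okL h2) r_2a_ZL hK h gu2_r_ok e1 e2
theorem pu_2a_6 : PU .s2a .s6 := fun hK h1 h2 h e1 e2 =>
  useU (okE h1) (okL h2) r_2a_ZL hK h gu2_r_ok e1 e2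
theorem pu_2s_2s : PU .s2s .s2s := fun hK h1 h2 h e1 e2 =>
  useU (okE h1) (okE h2) r_2s_2s hK h gu2_2_ok e1 e2
theorem pu_2s_3e : PU .s2s .s3e := fun hK h1 h2 h e1 e2 =>
  useU (okE h1) (okE h2) r_2s_3e hK h gu2_3e_ok e1 e2
theorem pu_2s_3a : PU .s2s .s3a := fun hK h1 h2 h e1 e2 =>
  useU (okE h1) (okE h2) r_2s_3a hK h gu2_3_ok e1 e2
theorem pu_2s_3s : PU .s2s .s3s := fun hK h1 h2 h e1 e2 =>
  useU (okE h1) (okE h2) r_2s_3s hK h gu2_3_ok e1 e2
theorem pu_2s_4e : PU .s2s .s4e := fun hK h1 h2 h e1 e2 =>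
  useU (okE h1) (okE h2) r_2s_4e hK h gu2_r_ok e1 e2
theorem pu_2s_4a : PU .s2s .s4a := fun hK h1 h2 h e1 e2 =>
  useU (okE h1) (okE h2) r_2s_4a hK h gu2_r_ok e1 e2
theorem pu_2s_4z : PU .s2s .s4z := fun hK h1 h2 h e1 e2 =>
  useU (okE h1) (okE h2) r_2s_4z hK h gu2_r_ok e1 e2
theorem pu_2s_4s : PU .s2s .s4s := fun hK h1 h2 h e1 e2 =>
  useU (okE h1) (okL h2) r_2s_ZL hK h gu2_r_ok e1 e2
theorem pu_2s_5 : PU .s2s .s5 := fun hK h1 h2 h e1 e2 =>
  useU (okE h1) (okL h2) r_2s_ZL hK h gu2_r_ok e1 e2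
theorem pu_2s_6 : PU .s2s .s6 := fun hK h1 h2 h e1 e2 =>
  useU (okE h1) (okL h2) r_2s_ZL hK h gu2_r_ok e1 e2

lemma PU.rev {c c' : CS} (h : PU c c') (hs : GU c c' = GU c' c) : PU c' c := by
  intro K d l d' l' R k k' hK h1 h2 h' e1 e2
  rw [add_comm, ← hs]
  exact h hK h2 h1 (rev_s h') e2 e1

end

/-- the bounds of the sum at a split hinge -/
theorem pu_all {c c' : CS} (ha : CS.adm c c' = true) : PU c c' := by
  cases c <;> cases c'
  · exact absurd ha (by decide)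
  · exact pu_1a_1s
  · exact pu_1a_2e
  · exact pu_1a_2a
  · exact pu_1a_2s
  · exact pu_1a_3e
  · exact pu_1a_3a
  · exact pu_1a_3s
  · exact pu_1a_4e
  · exact pu_1a_4a
  · exact pu_1a_4z
  · exact pu_1a_4s
  · exact pu_1a_5
  · exact pu_1a_6
  · exact PU.rev @pu_1a_1s rfl
  · exact pu_1s_1s
  · exact pu_1s_2e
  · exact pu_1s_2a
  · exact pu_1s_2s
  · exact pu_1s_3e
  · exact pu_1s_3a
  · exact pu_1s_3s
  · exact pu_1s_4e
  · exact pu_1s_4a
  · exact pu_1s_4z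
  · exact pu_1s_4s
  · exact pu_1s_5
  · exact pu_1s_6
  · exact PU.rev @pu_1a_2e rfl
  · exact PU.rev @pu_1s_2e rfl
  · exact pu_2e_2e
  · exact pu_2e_2a
  · exact pu_2e_2s
  · exact pu_2e_3e
  · exact pu_2e_3a
  · exact pu_2e_3s
  · exact pu_2e_4e
  · exact pu_2e_4a
  · exact pu_2e_4z
  · exact pu_2e_4s
  · exact pu_2e_5
  · exact pu_2e_6
  · exact PU.rev @pu_1a_2a rfl
  · exact PU.rev @pu_1s_2a rfl
  · exact PU.rev @pu_2e_2a rfl
  · exact pu_2a_2a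
  · exact pu_2a_2s
  · exact pu_2a_3e
  · exact pu_2a_3a
  · exact pu_2a_3s
  · exact pu_2a_4e
  · exact pu_2a_4a
  · exact pu_2a_4z
  · exact pu_2a_4s
  · exact pu_2a_5
  · exact pu_2a_6
  · exact PU.rev @pu_1a_2s rfl
  · exact PU.rev @pu_1s_2s rfl
  · exact PU.rev @pu_2e_2s rfl
  · exact PU.rev @pu_2a_2s rfl
  · exact pu_2s_2s
  · exact pu_2s_3e
  · exact pu_2s_3a
  · exact pu_2s_3s
  · exact pu_2s_4e
  · exact pu_2s_4a
  · exact pu_2s_4z
  · exact pu_2s_4s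
  · exact pu_2s_5
  · exact pu_2s_6
  · exact PU.rev @pu_1a_3e rfl
  · exact PU.rev @pu_1s_3e rfl
  · exact PU.rev @pu_2e_3e rfl
  · exact PU.rev @pu_2a_3e rfl
  · exact PU.rev @pu_2s_3e rfl
  · exact absurd ha (by decide)
  · exact absurd ha (by decide)
  · exact absurd ha (by decide)
  · exact absurd ha (by decide)
  · exact absurd ha (by decide)
  · exact absurd ha (by decide)
  · exact absurd ha (by decide)
  · exact absurd ha (by decide)
  · exact absurd ha (by decide)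
  · exact PU.rev @pu_1a_3a rfl
  · exact PU.rev @pu_1s_3a rfl
  · exact PU.rev @pu_2e_3a rfl
  · exact PU.rev @pu_2a_3a rfl
  · exact PU.rev @pu_2s_3a rfl
  · exact absurd ha (by decide)
  · exact absurd ha (by decide)
  · exact absurd ha (by decide)
  · exact absurd ha (by decide)
  · exact absurd ha (by decide)
  · exact absurd ha (by decide)
  · exact absurd ha (by decide)
  · exact absurd ha (by decide)
  · exact absurd ha (by decide)
  · exact PU.rev @pu_1a_3s rfl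
  · exact PU.rev @pu_1s_3s rfl
  · exact PU.rev @pu_2e_3s rfl
  · exact PU.rev @pu_2a_3s rfl
  · exact PU.rev @pu_2s_3s rfl
  · exact absurd ha (by decide)
  · exact absurd ha (by decide)
  · exact absurd ha (by decide)
  · exact absurd ha (by decide)
  · exact absurd ha (by decide)
  · exact absurd ha (by decide)
  · exact absurd ha (by decide)
  · exact absurd ha (by decide)
  · exact absurd ha (by decide)
  · exact PU.rev @pu_1a_4e rfl
  · exact PU.rev @pu_1s_4e rfl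
  · exact PU.rev @pu_2e_4e rfl
  · exact PU.rev @pu_2a_4e rfl
  · exact PU.rev @pu_2s_4e rfl
  · exact absurd ha (by decide)
  · exact absurd ha (by decide)
  · exact absurd ha (by decide)
  · exact absurd ha (by decide)
  · exact absurd ha (by decide)
  · exact absurd ha (by decide)
  · exact absurd ha (by decide)
  · exact absurd ha (by decide)
  · exact absurd ha (by decide)
  · exact PU.rev @pu_1a_4a rfl
  · exact PU.rev @pu_1s_4a rfl
  · exact PU.rev @pu_2e_4a rfl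
  · exact PU.rev @pu_2a_4a rfl
  · exact PU.rev @pu_2s_4a rfl
  · exact absurd ha (by decide)
  · exact absurd ha (by decide)
  · exact absurd ha (by decide)
  · exact absurd ha (by decide)
  · exact absurd ha (by decide)
  · exact absurd ha (by decide)
  · exact absurd ha (by decide)
  · exact absurd ha (by decide)
  · exact absurd ha (by decide)
  · exact PU.rev @pu_1a_4z rfl
  · exact PU.rev @pu_1s_4z rfl
  · exact PU.rev @pu_2e_4z rfl
  · exact PU.rev @pu_2a_4z rfl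
  · exact PU.rev @pu_2s_4z rfl
  · exact absurd ha (by decide)
  · exact absurd ha (by decide)
  · exact absurd ha (by decide)
  · exact absurd ha (by decide)
  · exact absurd ha (by decide)
  · exact absurd ha (by decide)
  · exact absurd ha (by decide)
  · exact absurd ha (by decide)
  · exact absurd ha (by decide)
  · exact PU.rev @pu_1a_4s rfl
  · exact PU.rev @pu_1s_4s rfl
  · exact PU.rev @pu_2e_4s rfl
  · exact PU.rev @pu_2a_4s rfl
  · exact PU.rev @pu_2s_4s rfl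
  · exact absurd ha (by decide)
  · exact absurd ha (by decide)
  · exact absurd ha (by decide)
  · exact absurd ha (by decide)
  · exact absurd ha (by decide)
  · exact absurd ha (by decide)
  · exact absurd ha (by decide)
  · exact absurd ha (by decide)
  · exact absurd ha (by decide)
  · exact PU.rev @pu_1a_5 rfl
  · exact PU.rev @pu_1s_5 rfl
  · exact PU.rev @pu_2e_5 rfl
  · exact PU.rev @pu_2a_5 rfl
  · exact PU.rev @pu_2s_5 rfl
  · exact absurd ha (by decide)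
  · exact absurd ha (by decide)
  · exact absurd ha (by decide)
  · exact absurd ha (by decide)
  · exact absurd ha (by decide)
  · exact absurd ha (by decide)
  · exact absurd ha (by decide)
  · exact absurd ha (by decide)
  · exact absurd ha (by decide)
  · exact PU.rev @pu_1a_6 rfl
  · exact PU.rev @pu_1s_6 rfl
  · exact PU.rev @pu_2e_6 rfl
  · exact PU.rev @pu_2a_6 rfl
  · exact PU.rev @pu_2s_6 rfl
  · exact absurd ha (by decide)
  · exact absurd ha (by decide)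
  · exact absurd ha (by decide)
  · exact absurd ha (by decide)
  · exact absurd ha (by decide)
  · exact absurd ha (by decide)
  · exact absurd ha (by decide)
  · exact absurd ha (by decide)
  · exact absurd ha (by decide)

/-- digit `1` with two split sides: the sum -/
def PV (c : CS) : Prop :=
  ∀ {K : KFam} {dl : ℕ} {ll : SK} {dr : ℕ} {rr : SK} {w kl kr : ℂ}, KOK K → c.Has dr rr →
    RDt K 1 .s .s dl ll dr rr w kl kr → (acot2 (Sp (RR w kl) (Complex.cos w))).re < 1 / 2 →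
    (acot2 (Sp (RR w kr) (Complex.cos w))).re < 1 / 2 → ∀ e ∈ gvv, e.P
      (acot2 (Sp (RR w kl) (Complex.cos w)) + acot2 (Sp (RR w kr) (Complex.cos w)))

section

open CS

theorem pv_1a : PV .s1a := fun hK h2 h e1 e2 =>
  useV c1s_ok (okE h2) r_1s_1a hK h gvv_ok e1 e2
theorem pv_1s : PV .s1s := fun hK h2 h e1 e2 =>
  useV c1s_ok (okE h2) r_1s_1s hK h gvv_ok e1 e2
theorem pv_2e : PV .s2e := fun hK h2 h e1 e2 =>
  useV c1s_ok (okE h2) r_1s_2e hK h gvv_ok e1 e2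
theorem pv_2a : PV .s2a := fun hK h2 h e1 e2 =>
  useV c1s_ok (okE h2) r_1s_2a hK h gvv_ok e1 e2
theorem pv_2s : PV .s2s := fun hK h2 h e1 e2 =>
  useV c1s_ok (okE h2) r_1s_2s hK h gvv_ok e1 e2
theorem pv_3e : PV .s3e := fun hK h2 h e1 e2 =>
  useV c1s_ok (okE h2) r_1s_3e hK h gvv_ok e1 e2
theorem pv_3a : PV .s3a := fun hK h2 h e1 e2 =>
  useV c1s_ok (okE h2) r_1s_3a hK h gvv_ok e1 e2
theorem pv_3s : PV .s3s := fun hK h2 h e1 e2 =>
  useV c1s_ok (okE h2) r_1s_3s hK h gvv_ok e1 e2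
theorem pv_4e : PV .s4e := fun hK h2 h e1 e2 =>
  useV c1s_ok (okE h2) r_1s_4e hK h gvv_ok e1 e2
theorem pv_4a : PV .s4a := fun hK h2 h e1 e2 =>
  useV c1s_ok (okE h2) r_1s_4a hK h gvv_ok e1 e2
theorem pv_4z : PV .s4z := fun hK h2 h e1 e2 =>
  useV c1s_ok (okE h2) r_1s_4z hK h gvv_ok e1 e2
theorem pv_4s : PV .s4s := fun hK h2 h e1 e2 =>
  useV c1s_ok (okL h2) r_1s_ZL hK h gvv_ok e1 e2
theorem pv_5 : PV .s5 := fun hK h2 h e1 e2 =>
  useV c1s_ok (okL h2) r_1s_ZL hK h gvv_ok e1 e2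
theorem pv_6 : PV .s6 := fun hK h2 h e1 e2 =>
  useV c1s_ok (okL h2) r_1s_ZL hK h gvv_ok e1 e2

end

theorem pv_all (c : CS) : PV c := by
  cases c
  · exact pv_1a
  · exact pv_1s
  · exact pv_2e
  · exact pv_2a
  · exact pv_2s
  · exact pv_3e
  · exact pv_3a
  · exact pv_3s
  · exact pv_4e
  · exact pv_4a
  · exact pv_4z
  · exact pv_4s
  · exact pv_5
  · exact pv_6

end Pool.Agent.Work.MP_b30479_gt.G2.CN.S6
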