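import Pool.Agent.Work.MP_b30479_gt.G2.CN.SLoc
import Pool.Agent.Work.MP_b30479_gt.G2.WLocS

/-!
# The sums of the real parts at a digit `±1` of a word
-/

namespace Pool.Agent.Work.MP_b30479_gt.G2.CN.S6

open Complex SR

variable {M : ℕ} {b : Fin (M + 1) → ℤ} {w : ℕ → ℂ}

/-- **Location facts: real parts of the two hinges of a digit `±1`.** -/
theorem locS_word {K : KFam} (hb : ClassW b) (F : RingFacts) (hw : Sol b w) (hK : Snd K b w)
    (h0 : KOK K) : SR.LocS b (zsW b w) := by
  have key : ∀ {h h' : Fin M} {i j j' : Fin (M + 1)} {p : Fin 3}, Adj h i p j →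
      Adj h' i p.rev j' → clsW b i = .one →
      (zsW b w (.inl (.inl h))).re + (zsW b w (.inl (.inl h'))).re ≤ 80 / 100 ∧
      (clsW b j = .ring → clsW b j' = .one →
        (zsW b w (.inl (.inl h))).re + (zsW b w (.inl (.inl h'))).re ≤ 76 / 100) := by
    intro h h' i j j' p A A' hc
    by_cases hu : us b i.val = true
    · obtain ⟨l, l', R, k, k', hH, y1, y2, c1, c2⟩ := A.absd_view hb F hw hK A' hu
      obtain ⟨-, -, s3, s4⟩ := sum_s h0 hH
      rw [Complex.add_re] at s3 s4
      rw [← ofr_re (b i) (zsW b w (.inl (.inl h))), ← ofr_re (b i) (zsW b w (.inl (.inl h'))), y1,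
        y2, c1, c2, Complex.conj_re, Complex.conj_re]
      exact ⟨s3, fun e1 e2 => s4 (Or.inr ⟨e1, e2⟩)⟩
    · rw [Bool.not_eq_true] at hu
      obtain ⟨x, x', dl, ll, dr, rr, kl, kr, hE, y1, y2, c1, c2⟩ := A.pair_view hb F hw hK A' hu
      have h1 : (b i).natAbs = 1 := by
        unfold clsW cls at hc
        split_ifs at hc with h1
        exact h1
      rw [h1] at hE
      have o := one_all h0 hE
      rw [← ofr_re (b i) (zsW b w (.inl (.inl h))), ← ofr_re (b i) (zsW b w (.inl (.inl h'))), y1,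
        y2, c1, c2]
      exact ⟨o.sum, fun e1 _ => o.sumZ (Or.inr e1)⟩
  exact ⟨fun A A' hc => (key A A' hc).1, fun A A' hc h1 h2 => (key A A' hc).2 h1 h2⟩

end Pool.Agent.Work.MP_b30479_gt.G2.CN.S6
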