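import Pool.Agent.Work.MP_b30479_gt.G2.CN.TLef

/-!
# Runs with alternatives

A certificate as before; a cell on which the goals fail carries in addition the index of a pair of
constraints both of which fail.  `stair`: pairs which bound the sum of the real parts by a constant
plus the height of the ring variable.
-/

namespace Pool.Agent.Work.MP_b30479_gt.G2.CN

open Complex SR

noncomputable section

lemma anyAt_spec {C : Cell} {u w : ℂ} (hC : C.In) (h : C.Mem u w) : ∀ {al : List (Con × Con)} {k : ℕ},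
    (∀ p ∈ al, p.1.g = true ∧ p.2.g = true) → anyAt (envOf C) al k = true →
    ∃ p ∈ al, ¬ p.1.Holds u w ∧ ¬ p.2.Holds u w
  | [], k, _, hf => by
    have : (false : Bool) = true := hf
    simp at this
  | p :: al, 0, hg, hf => by
    have h1 : cond (p.1.fails (envOf C)) (p.2.fails (envOf C)) false = true := hf
    have h2 := hg p List.mem_cons_self
    rcases hb : p.1.fails (envOf C) with _ | _
    · rw [hb] at h1
      simp at h1
    · rw [hb, cond_true] at h1
      exact ⟨p, List.mem_cons_self, Con.fails_cell hC h h2.1 hb, Con.fails_cell hC h h2.2 h1⟩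
  | p :: al, k + 1, hg, hf => by
    have h1 : anyAt (envOf C) al k = true := hf
    obtain ⟨p', h2, h3⟩ := anyAt_spec hC h (fun q hq => hg q (List.mem_cons_of_mem _ hq)) h1
    exact ⟨p', List.mem_cons_of_mem _ h2, h3⟩

lemma allG2_spec : ∀ {al : List (Con × Con)}, allG2 al = true → ∀ p ∈ al, p.1.g = true ∧ p.2.g = true
  | [], _, _, hp => absurd hp (by simp)
  | q :: al, h, p, hp => by
    have h1 : cB q.1.g (cB q.2.g (allG2 al) false) false = true := h
    have h2 := cB_and h1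
    have h3 := cB_and h2.2
    rcases List.mem_cons.1 hp with rfl | h4
    · exact ⟨h2.1, h3.1⟩
    · exact allG2_spec h3.2 p h4

/-- the claim for a cell -/
def ClA (gs : List Con) (al : List (Con × Con)) (u w : ℂ) : Prop :=
  (∀ g ∈ gs, ¬ g.Holds u w) ∧ ∃ p ∈ al, ¬ p.1.Holds u w ∧ ¬ p.2.Holds u w

/-- the claim for the cells of a stack -/
def StA (gs : List Con) (al : List (Con × Con)) (u w : ℂ) : Bool → List Cell → Prop
  | false, st => ∀ C ∈ st, C.In → C.Mem u w → ClA gs al u w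
  | true, [] => True
  | true, C :: st => (C.In → C.Mem u w → ∃ p ∈ al, ¬ p.1.Holds u w ∧ ¬ p.2.Holds u w) ∧
      ∀ C ∈ st, C.In → C.Mem u w → ClA gs al u w

lemma StA_nil (gs : List Con) (al : List (Con × Con)) (u w : ℂ) (pd : Bool) : StA gs al u w pd [] := by
  cases pd
  · exact fun C hC => absurd hC (by simp)
  · trivial

lemma stepA_spec {cs : CT} {gs : List Con} {al : List (Con × Con)} {u w : ℂ} (hc : cs.All u w)
    (hG : ∀ g ∈ gs, g.g = true) (hA : ∀ p ∈ al, p.1.g = true ∧ p.2.g = true)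
    {t : ℕ} {pd : Bool} {st' : List Cell} {C : Cell} {k : Bool → List Cell → Bool}
    (h0 : stepA cs gs al t pd st' C k = true)
    (hk : ∀ pd s, k pd s = true → StA gs al u w pd s) : StA gs al u w pd (C :: st') := by
  rcases cB_cases h0 with ⟨rfl, h⟩ | ⟨rfl, h⟩
  · obtain ⟨h1, h2⟩ := cB_and h
    exact ⟨fun hI hm => anyAt_spec hI hm hA h1, hk _ _ h2⟩
  · intro C' hC' hI hm
    rcases cB_cases h with ⟨c1, h⟩ | ⟨_, h⟩
    · have c1' : t ≤ 11 := Nat.le_of_ble_eq_true c1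
      rcases List.mem_cons.1 hC' with rfl | h2
      · obtain ⟨A, B, h3, hA, hB, h4⟩ := cut_spec hI hm c1' h
        have h5 := hk _ _ h3
        rcases h4 with h4 | h4
        · exact h5 A (by simp) hA h4
        · exact h5 B (by simp) hB h4
      · have hcut : ∃ A B, k false (A :: B :: st') = true := by
          obtain ⟨xl, xh, yl, yh, ul, uh, vl, vh⟩ := C
          rcases cB_cases h with ⟨_, h⟩ | ⟨_, h⟩
          · rcases cB_cases h with ⟨_, h⟩ | ⟨_, h⟩
            · exact ⟨_, _, h⟩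
            · exact ⟨_, _, h⟩
          · rcases cB_cases h with ⟨_, h⟩ | ⟨_, h⟩
            · exact ⟨_, _, h⟩
            · exact ⟨_, _, h⟩
        obtain ⟨A, B, h3⟩ := hcut
        exact hk _ _ h3 C' (by simp [h2]) hI hm
    · rcases cB_cases h with ⟨_, h⟩ | ⟨_, h⟩
      · obtain ⟨h3, h4⟩ := cB_and h
        have h5 := hk _ _ h4
        rcases List.mem_cons.1 hC' with rfl | h2
        · exact ⟨allF_spec hI hm hG h3, h5.1 hI hm⟩
        · exact h5.2 C' h2 hI hm
      · obtain ⟨h3, h4⟩ := cB_and h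
        rcases List.mem_cons.1 hC' with rfl | h2
        · exact absurd h3 (CT.get_holds hI hm cs hc _)
        · exact hk _ _ h4 C' h2 hI hm

lemma innerA_spec {cs : CT} {gs : List Con} {al : List (Con × Con)} {u w : ℂ} (hc : cs.All u w)
    (hG : ∀ g ∈ gs, g.g = true) (hA : ∀ p ∈ al, p.1.g = true ∧ p.2.g = true) :
    ∀ (n code : ℕ) (pd : Bool) (st : List Cell) (k : Bool → List Cell → Bool),
    innerA cs gs al n code pd st k = true → (∀ pd s, k pd s = true → StA gs al u w pd s) →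
    StA gs al u w pd st
  | 0, _, pd, st, _, h, hk => hk pd st h
  | _ + 1, _, pd, [], _, _, _ => StA_nil _ _ _ _ pd
  | n + 1, code, pd, C :: st', k, h, hk => by
    have h1 : stepA cs gs al (Nat.mod code (nat_lit 64)) pd st' C
        (fun pd' s => innerA cs gs al n (Nat.div code (nat_lit 64)) pd' s k) = true := h
    exact stepA_spec hc hG hA h1 fun pd' s hs => innerA_spec hc hG hA n _ pd' s k hs hk

theorem runA_spec {cs : CT} {gs : List Con} {al : List (Con × Con)} {u w : ℂ} (hc : cs.All u w)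
    (hG : ∀ g ∈ gs, g.g = true) (hA : ∀ p ∈ al, p.1.g = true ∧ p.2.g = true) :
    ∀ (n code : ℕ) (pd : Bool) (st : List Cell), runA cs gs al n code pd st = true → StA gs al u w pd st
  | 0, _, pd, [], _ => StA_nil _ _ _ _ pd
  | 0, _, _, _ :: _, h => by
    have : (false : Bool) = true := h
    simp at this
  | n + 1, code, pd, st, h => by
    have h1 : innerA cs gs al (nat_lit 64) (Nat.mod code (nat_lit 39402006196394479212279040100143613805079739270465446667948293404245721771497210611414266254884915640806627990306816)) pd st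
      (runA cs gs al n (Nat.div code (nat_lit 39402006196394479212279040100143613805079739270465446667948293404245721771497210611414266254884915640806627990306816))) = true := h
    exact innerA_spec hc hG hA _ _ pd st _ h1 fun pd s hs => runA_spec hc hG hA n _ pd s hs

lemma mk1_bit {m : ℕ} (h : m % 2 = 0) (j : ℕ) : (Nat.succ m).testBit (j + 1) = m.testBit (j + 1) := by
  rw [Nat.testBit_succ, Nat.testBit_succ]
  have : Nat.succ m / 2 = m / 2 := by
    change (m + 1) / 2 = m / 2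
    omega
  rw [this]

lemma mk1_zero {m : ℕ} (h : m % 2 = 0) : (Nat.succ m).testBit 0 = true := by
  rw [Nat.testBit_zero]
  change decide ((m + 1) % 2 = 1) = true
  exact decide_eq_true (by omega)

/-- **Soundness of a run with alternatives.** -/
theorem rowA_sound {l go : List Grp} {gZ gU : Grp} {al : List (QC × QC)} {n code : ℕ} {C : Cell}
    (h : rowA l go gZ gU al n code C = true) {u w : ℂ} (hm : C.Mem u w)
    (hl : ∀ g ∈ l, g.Ok u w) {cZ cU : ℂ} (hZ : cZ * gZ.M.val u w = gZ.N.val u w)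
    (hU : cU * gU.M.val u w = gU.N.val u w) :
    (∀ g ∈ go, ∀ c : ℂ, c * g.M.val u w = g.N.val u w → ∀ Q ∈ g.H, ¬ Q.Sat c) ∧
      ∃ p ∈ al, ¬ p.1.Sat cZ ∧ ¬ p.2.Sat cU := by
  have g1 := cB_and h
  have g2 := cB_and g1.2
  have g3 := cB_and g2.2
  have g4 := cB_and g3.2
  have hC := inC_spec g1.1
  have hcs : ∀ c ∈ csOf l, c.g = true ∧ c.Holds u w := fun c hc => ⟨allG_spec g2.1 c hc, csOf_holds hl c hc⟩
  have key : ClA (csOf go) (al.map fun p => (mkCon p.1 gZ.N gZ.M gZ.hd, mkCon p.2 gU.N gU.M gU.hd)) u w := by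
    rcases cB_cases g4.2 with ⟨_, h4⟩ | ⟨_, h4⟩
    · obtain ⟨h5, h6⟩ := cB_and h4
      have h7 := partC_spec (ofL_all 7 _ _ hcs) (allG_spec g3.1) (allG2_spec g4.1) _ _ _ h6
      have h8 := h7.1 hC hm
      refine ⟨fun g hg => ?_, h8.2 (mk1_zero (mk0_even _))⟩
      obtain ⟨j, k1, k2⟩ := getG_goal (al.map fun p => (mkCon p.1 gZ.N gZ.M gZ.hd, mkCon p.2 gU.N gU.M gU.hd)) hg h5
      have h9 := h8.1 j ((mk1_bit (mk0_even _) j).trans k1)
      rw [k2] at h9
      exact h9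
    · exact runA_spec (ofL_all 6 _ _ hcs) (allG_spec g3.1) (allG2_spec g4.1) n code false [C] h4 C
        List.mem_cons_self hC hm
  obtain ⟨h1, p, hp, h2, h3⟩ := key
  refine ⟨fun g hg c hc Q hQ hS => ?_, ?_⟩
  · exact h1 (mkCon Q g.N g.M g.hd) (List.mem_flatMap.2 ⟨g, hg, List.mem_map.2 ⟨Q, hQ, rfl⟩⟩)
      (mkCon_holds hc hS)
  · obtain ⟨q, hq, rfl⟩ := List.mem_map.1 hp
    exact ⟨q, hq, fun hS => h2 (mkCon_holds hZ hS), fun hS => h3 (mkCon_holds hU hS)⟩

/-- the data of a run with alternatives are in the range -/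
def rdyA (l go : List Grp) (gZ gU : Grp) (al : List (QC × QC)) (C : Cell) : Bool :=
  cB (inC C) (cB (allG (csOf l)) (cB (allG (csOf go))
    (cB (allG2 (al.map fun p => (mkCon p.1 gZ.N gZ.M gZ.hd, mkCon p.2 gU.N gU.M gU.hd)))
      (Nat.ble (mk0 (csOf go)) (nat_lit 4294967295)) false) false) false) false

/-- **A run with alternatives in parts.** -/
theorem rowA_mk {l go : List Grp} {gZ gU : Grp} {al : List (QC × QC)} {n code : ℕ} {C : Cell}
    (h1 : rdyA l go gZ gU al C = true)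
    (h2 : partC (ofL 7 (nat_lit 0) (csOf l)) (csOf go)
      (al.map fun p => (mkCon p.1 gZ.N gZ.M gZ.hd, mkCon p.2 gU.N gU.M gU.hd)) n code
      (.cons C (Nat.succ (mk0 (csOf go))) .nil) .nil = true) :
    rowA l go gZ gU al (pn n) code C = true := by
  obtain ⟨k1, h3⟩ := cB_and h1
  obtain ⟨k2, h4⟩ := cB_and h3
  obtain ⟨k3, h5⟩ := cB_and h4
  obtain ⟨k4, k5⟩ := cB_and h5
  unfold rowA
  rw [k1, k2, k3, k4, k5, pn_le, pn_sub, h2]
  rfl

namespace TD

lemma alt_ok {al : List (GC × GC)} (hk : (al.all fun p => p.1.ok && p.2.ok) = true) {y z : ℂ}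
    (h : ∃ p ∈ al.map fun p : GC × GC => (p.1.q, p.2.q), ¬ p.1.Sat (cexp (2 * Real.pi * I * y)) ∧
      ¬ p.2.Sat (cexp (2 * Real.pi * I * z))) : ∃ p ∈ al, p.1.P y ∧ p.2.P z := by
  obtain ⟨q, hq, h1, h2⟩ := h
  obtain ⟨p, hp, rfl⟩ := List.mem_map.1 hq
  have h3 := List.all_eq_true.1 hk p hp
  rw [Bool.and_eq_true] at h3
  exact ⟨p, hp, GC.spec h3.1 h1, GC.spec h3.2 h2⟩

section
variable {K : KFam} {x : SK} {d : ℕ} {l : SK} {d' : ℕ} {l' : SK} {w R k' : ℂ}

/-- the bounds of a row with alternatives, one side -/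
theorem tuseA (hK : KOK K) (t : TDt K x d l d' l' w R k') {B B' : ℕ} (hB : crs d l x = B)
    (hB' : crs d' x l' = B') {gi : List GC} {o : List QC} {L : List Grp} {o' : List QC}
    {L' : List Grp} {gy gz gu : List GC} {al : List (GC × GC)} {n code : ℕ}
    (hr : trowOkA x gi o L o' L' gy gz gu al n code = true)
    (hi : ∀ g ∈ gi, g.G (yH x R (Complex.cos w)))
    (ho : InH (K.K d l x) o) (ho' : InH (K.K d' l' x) o') (hL : OL d B l L)
    (hL' : OR x d' B' l' L') :
    ((∀ g ∈ gy, g.P (yH x R (Complex.cos w))) ∧ (∀ g ∈ gz, g.P (-zeta w)) ∧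
      ∀ g ∈ gu, g.P (yH x R (Complex.cos w) - zeta w)) ∧
      ∃ p ∈ al, p.1.P (-zeta w) ∧ p.2.P (yH x R (Complex.cos w) - zeta w) := by
  subst hB hB'
  have hc := t.h.kre
  have hc0 := ne_of_re hc
  have hT := tan_sq hc0
  have hR : 0 < R.re := r0_pos.trans t.h.Rre
  have hq : R ^ 2 + 1 - 1 / Complex.cos w ^ 2 = 1 / k' ^ 2 := by
    rw [t.h.hinge]
    ring
  have hm' := t.h.mem'
  have h1 := inH_ownR (x := x) ho'
  rw [← K.symm] at h1
  unfold trowOkA at hr
  rw [Bool.and_eq_true, Bool.and_eq_true, Bool.and_eq_true, Bool.and_eq_true,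
    Bool.and_eq_true] at hr
  obtain ⟨hrow, ⟨⟨⟨k1, k5⟩, k6⟩, k7⟩, k8⟩ := hr
  have hl : AllOk R (Complex.tan w) (tsOf x gi o L o' L') := by
    refine AllOk.cons ?_ (AllOk.cons (tl_ok hc0 hT (ho _ t.h.mem))
      (AllOk.cons (tr_ok (ne_of_re t.h.kre') hT hq (h1 k' hm'))
      ((hL hK hT hq t.h.out).append (hL' hK hT hq t.h.out'))))
    refine ⟨_, expY hc hR t.sp _, ?_⟩
    have eH : (tYx x (gi.map GC.qi)).H = gi.map GC.qi := by cases x <;> rfl
    rw [eH]
    intro Q hQ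
    obtain ⟨g, hg, rfl⟩ := List.mem_map.1 hQ
    exact GC.imp (List.all_eq_true.1 k1 g hg) (hi g hg)
  have hm := rootT_mem hK t.h hT (tan_re t.w0 t.w1)
  obtain ⟨hgo, hal⟩ := rowA_sound hrow hm hl (expZ hc _) (expU hc hR t.sp _)
  refine ⟨⟨fun g hg => ?_, fun g hg => ?_, fun g hg => ?_⟩, alt_ok k8 hal⟩
  · have eH : (tYx x (gy.map GC.q)).H = gy.map GC.q := by cases x <;> rfl
    exact GC.spec (List.all_eq_true.1 k5 g hg) (hgo (tYx x (gy.map GC.q)) (by simp [goT]) _
      (expY hc hR t.sp _) g.q (by rw [eH]; exact List.mem_map_of_mem hg))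
  · exact GC.spec (List.all_eq_true.1 k6 g hg) (hgo (tZ (gz.map GC.q)) (by simp [goT]) _
      (expZ hc _) g.q (List.mem_map_of_mem hg))
  · have eH : (tUx x (gu.map GC.q)).H = gu.map GC.q := by cases x <;> rfl
    exact GC.spec (List.all_eq_true.1 k7 g hg) (hgo (tUx x (gu.map GC.q)) (by simp [goT]) _
      (expU hc hR t.sp _) g.q (by rw [eH]; exact List.mem_map_of_mem hg))

end

section
variable {K : KFam} {l x : SK} {dl : ℕ} {ll : SK} {dr : ℕ} {rr : SK} {w kl kr : ℂ}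

/-- the bounds of a row with alternatives, both sides -/
theorem tuseLA (hK : KOK K) (t : LDt K l x dl ll dr rr w kl kr) {B B' : ℕ} (hB : crs 4 l x = B)
    (hB' : crs dr x rr = B') {li : List GC} {o : List QC} {L : List Grp}
    {o' : List QC} {L' : List Grp} {gy gz gu : List GC} {al : List (GC × GC)} {n code : ℕ}
    (hr : trowOkLA x [] [] li [] o L o' L' gy gz gu [] al n code = true)
    (hli : ∀ g ∈ li, g.G (yH l (RR w kl) (Complex.cos w)))
    (ho : InH (K.K 4 l x) o) (ho' : InH (K.K dr rr x) o') (hL : OL 4 B l L)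
    (hL' : OR x dr B' rr L') :
    ((∀ g ∈ gy, g.P (yH x (RR w kr) (Complex.cos w))) ∧ (∀ g ∈ gz, g.P (-zeta w)) ∧
      ∀ g ∈ gu, g.P (yH x (RR w kr) (Complex.cos w) - zeta w)) ∧
      ∃ p ∈ al, p.1.P (-zeta w) ∧ p.2.P (yH x (RR w kr) (Complex.cos w) - zeta w) := by
  subst hB hB'
  have T := t.tdt
  have hc := T.h.kre
  have hc0 := ne_of_re hc
  have hT := tan_sq hc0
  have hR : 0 < (RR w kr).re := r0_pos.trans T.h.Rre
  have hq : RR w kr ^ 2 + 1 - 1 / Complex.cos w ^ 2 = 1 / kr ^ 2 := by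
    rw [T.h.hinge]
    ring
  have hm' := T.h.mem'
  have h1 := inH_ownR (x := x) ho'
  rw [← K.symm] at h1
  unfold trowOkLA at hr
  rw [Bool.and_eq_true, Bool.and_eq_true, Bool.and_eq_true, Bool.and_eq_true, Bool.and_eq_true,
    Bool.and_eq_true, Bool.and_eq_true, Bool.and_eq_true, Bool.and_eq_true] at hr
  obtain ⟨hrow, ⟨⟨⟨⟨⟨⟨⟨k1, k2⟩, k3⟩, k4⟩, k5⟩, k6⟩, k7⟩, k8⟩, k9⟩ := hr
  have hl : AllOk (RR w kr) (Complex.tan w) (tsL x [] [] li [] o L o' L') := by
    refine AllOk.cons ?_ (AllOk.cons ?_ (AllOk.cons ?_ (AllOk.cons ?_ (AllOk.cons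
      (tl_ok hc0 hT (ho _ T.h.mem)) (AllOk.cons (tr_ok (ne_of_re T.h.kre') hT hq (h1 kr hm'))
      ((hL hK hT hq T.h.out).append (hL' hK hT hq T.h.out')))))))
    · refine ⟨_, expY hc hR t.sp _, ?_⟩
      have eH : (tYx x (([] : List GC).map GC.qi)).H = [] := by cases x <;> rfl
      rw [eH]
      exact fun Q hQ => absurd hQ (List.not_mem_nil)
    · refine ⟨_, expU hc hR t.sp _, ?_⟩
      have eH : (tUx x (([] : List GC).map GC.qi)).H = [] := by cases x <;> rfl
      rw [eH]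
      exact fun Q hQ => absurd hQ (List.not_mem_nil)
    · refine ⟨_, t.expL _, ?_⟩
      have eH : (tLx x (li.map GC.qi)).H = li.map GC.qi := by cases x <;> rfl
      rw [eH]
      intro Q hQ
      obtain ⟨g, hg, rfl⟩ := List.mem_map.1 hQ
      exact GC.imp (List.all_eq_true.1 k3 g hg) (hli g hg)
    · refine ⟨_, t.expM _, ?_⟩
      have eH : (tMx x (([] : List GC).map GC.qi)).H = [] := by cases x <;> rfl
      rw [eH]
      exact fun Q hQ => absurd hQ (List.not_mem_nil)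
  have hm := rootT_mem hK T.h hT (tan_re t.h.w0 t.h.w1)
  obtain ⟨hgo, hal⟩ := rowA_sound hrow hm hl (expZ hc _) (expU hc hR t.sp _)
  refine ⟨⟨fun g hg => ?_, fun g hg => ?_, fun g hg => ?_⟩, alt_ok k9 hal⟩
  · have eH : (tYx x (gy.map GC.q)).H = gy.map GC.q := by cases x <;> rfl
    exact GC.spec (List.all_eq_true.1 k5 g hg) (hgo (tYx x (gy.map GC.q)) (by simp [goT]) _
      (expY hc hR t.sp _) g.q (by rw [eH]; exact List.mem_map_of_mem hg))
  · exact GC.spec (List.all_eq_true.1 k6 g hg) (hgo (tZ (gz.map GC.q)) (by simp [goT]) _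
      (expZ hc _) g.q (List.mem_map_of_mem hg))
  · have eH : (tUx x (gu.map GC.q)).H = gu.map GC.q := by cases x <;> rfl
    exact GC.spec (List.all_eq_true.1 k7 g hg) (hgo (tUx x (gu.map GC.q)) (by simp [goT]) _
      (expU hc hR t.sp _) g.q (by rw [eH]; exact List.mem_map_of_mem hg))

end

/-- pairs bounding the sum of the real parts by `cr / 10000` plus the height of the ring variable -/
def stair (cr : ℕ) (al : List (GC × GC)) : Bool :=
  al.all fun p => match p with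
    | (.hi m _, .arc n m' _ _) => decide ((n : ℤ) = (cr : ℤ) - m) && Nat.ble 6500 m'
    | _ => false

lemma stair_use {cr : ℕ} {al : List (GC × GC)} (h : stair cr al = true) {y z : ℂ} (rg : Rg y z)
    (ha : ∃ p ∈ al, p.1.P (-z) ∧ p.2.P (y - z)) : y.re - z.re ≤ (cr : ℝ) / 10000 + z.im := by
  obtain ⟨⟨p, q⟩, hp, h1, h2⟩ := ha
  have h3 := List.all_eq_true.1 h _ hp
  cases p with
  | arc _ _ _ _ => simp at h3
  | lo _ _ => simp at h3
  | hi m c =>
    cases q with
    | lo _ _ => simp at h3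
    | hi _ _ => simp at h3
    | arc n m' a b =>
      simp only [Bool.and_eq_true, decide_eq_true_eq] at h3
      obtain ⟨h4, h5⟩ := h3
      have h6 : 6500 ≤ m' := Nat.le_of_ble_eq_true h5
      have m2' : (6500 : ℝ) ≤ m' := by exact_mod_cast h6
      have g3 := arc_ub h2 (by rw [Complex.sub_re]; linarith only [m2', rg, rg.z1, rg.y1])
      have g1 : (-z).im ≤ (m : ℝ) / 10000 := h1
      rw [Complex.sub_re] at g3
      rw [Complex.neg_im] at g1
      have h7 : (n : ℝ) = (cr : ℝ) - m := by exact_mod_cast h4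
      rw [h7] at g3
      linarith only [g3, g1]

/-- bounds of the hinge, the ring variable, the difference of the heights, the sum -/
structure B4 (x0 x1 s0 s1 q0 q1 r0 r1 t0 t1 c1 cr : ℤ) (y z : ℂ) : Prop where
  x0 : (x0 : ℝ) / 10000 ≤ y.re
  x1 : y.re ≤ (x1 : ℝ) / 10000
  s0 : (s0 : ℝ) / 10000 ≤ -z.re
  s1 : -z.re ≤ (s1 : ℝ) / 10000
  q0 : (q0 : ℝ) / 10000 ≤ z.im - y.im
  q1 : z.im - y.im ≤ (q1 : ℝ) / 10000
  r0 : (r0 : ℝ) / 10000 ≤ z.im
  r1 : z.im ≤ (r1 : ℝ) / 10000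
  t0 : (t0 : ℝ) / 10000 ≤ y.im
  t1 : y.im ≤ (t1 : ℝ) / 10000
  c1 : y.re - z.re ≤ (c1 : ℝ) / 10000
  cr : y.re - z.re ≤ (cr : ℝ) / 10000 + z.im

lemma b4_of {x0 x1 m1 s0 s1 m2 c1 m3 cr : ℕ} {t0 t1 r1 r0 q1 q0 : ℤ}
    {a1 b1 a2 b2 e1 e2 a3 b3 a4 b4 e3 e4 a5 b5 e5 e6 : ℤ} {al : List (GC × GC)} {y z : ℂ}
    (h : ((∀ g ∈ [GC.arc 0 x0 a1 b1, .arc x1 m1 a2 b2, .lo t0 e1, .hi t1 e2], g.P y) ∧
      (∀ g ∈ [GC.arc 0 s0 a3 b3, .arc s1 m2 a4 b4, .lo (-r1) e3, .hi (-r0) e4], g.P (-z)) ∧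
      ∀ g ∈ [GC.arc c1 m3 a5 b5, .lo (-q1) e5, .hi (-q0) e6], g.P (y - z)) ∧
      ∃ p ∈ al, p.1.P (-z) ∧ p.2.P (y - z)) (hst : stair cr al = true) (rg : Rg y z)
    (h1 : 4000 ≤ m1) (h2 : 2500 ≤ m2) (h3 : 6500 ≤ m3) :
    B4 x0 x1 s0 s1 q0 q1 r0 r1 t0 t1 c1 cr y z := by
  obtain ⟨⟨hy, hz, hu⟩, ha⟩ := h
  have m1' : (4000 : ℝ) ≤ m1 := by exact_mod_cast h1
  have m2' : (2500 : ℝ) ≤ m2 := by exact_mod_cast h2
  have m3' : (6500 : ℝ) ≤ m3 := by exact_mod_cast h3
  have ya := arc_lb (hy (.arc 0 x0 a1 b1) (by simp)) (by simpa using rg.y0)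
  have yb := arc_ub (hy (.arc x1 m1 a2 b2) (by simp)) (by linarith only [m1', rg, rg.y1])
  have yc : (t0 : ℝ) / 10000 ≤ y.im := hy (.lo t0 e1) (by simp)
  have yd : y.im ≤ (t1 : ℝ) / 10000 := hy (.hi t1 e2) (by simp)
  have za := arc_lb (hz (.arc 0 s0 a3 b3) (by simp)) (by simpa using rg.z0)
  have zb := arc_ub (hz (.arc s1 m2 a4 b4) (by simp)) (by
    rw [Complex.neg_re]; linarith only [m2', rg, rg.z1])
  have zc : ((-r1 : ℤ) : ℝ) / 10000 ≤ (-z).im := hz (.lo (-r1) e3) (by simp)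
  have zd : (-z).im ≤ ((-r0 : ℤ) : ℝ) / 10000 := hz (.hi (-r0) e4) (by simp)
  have ua := arc_ub (hu (.arc c1 m3 a5 b5) (by simp)) (by
    rw [Complex.sub_re]; linarith only [m3', rg, rg.z1, rg.y1])
  have ub : ((-q1 : ℤ) : ℝ) / 10000 ≤ (y - z).im := hu (.lo (-q1) e5) (by simp)
  have uc : (y - z).im ≤ ((-q0 : ℤ) : ℝ) / 10000 := hu (.hi (-q0) e6) (by simp)
  rw [Complex.neg_re] at za zb
  rw [Complex.neg_im] at zc zd
  rw [Complex.sub_re] at ua
  rw [Complex.sub_im] at ub uc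
  push_cast at zc zd ub uc
  have st := stair_use hst rg ha
  refine ⟨?_, ?_, ?_, ?_, ?_, ?_, ?_, ?_, ?_, ?_, ?_, ?_⟩
  · push_cast; exact ya.le
  · push_cast; exact yb.le
  · push_cast; exact za.le
  · push_cast; exact zb.le
  · linarith only [uc]
  · linarith only [ub]
  · linarith only [zd]
  · linarith only [zc]
  · exact yc
  · exact yd
  · push_cast; exact ua.le
  · push_cast; exact st

end TD

end

end Pool.Agent.Work.MP_b30479_gt.G2.CN
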