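import Pool.Agent.Work.MP_b30479_gt.G2.CN.TNod
import Pool.Agent.Work.MP_b30479_gt.G2.CN.HLink

/-!
# Expressions of a hinge in the variables `R` and `T = tan w`

`w`: the variable of the first ring, `q = 1 + T ²`, `q' = R ² - T ²`. Groups with the letter `t`:
`tl`, `tr`: own values of the two rings; `tA B`, `tD s B`: outer values of the first and the second
ring with `B` crossings; `tY`, `tZ`, `tU`: the exponentials of the hinge, of the ring variable and of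
their sum; `tYs`, `tUs`: the same at a split hinge.
-/

namespace Pool.Agent.Work.MP_b30479_gt.G2.CN

open Complex SR

noncomputable section

namespace Ev

/-- `R + i` -/
def rp : Ev := vp
/-- `R - i` -/
def rm : Ev := vm

end Ev

open Ev

/-- own value of the first ring -/
def tl (H : List QC) : Grp := ⟨.sc 2 one, tq, (rfl : 2 = 2), H⟩
/-- own value of the second ring -/
def tr (H : List QC) : Grp := ⟨.sc 2 one, tq2, (rfl : 2 = 2), H⟩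

/-- outer value of the first ring -/
def tA2 (H : List QC) : Grp := ⟨.sc 2 (.sq tl2), tmA 1, (rfl : 6 = 6), H⟩
def tA3 (H : List QC) : Grp := ⟨.sc 2 (.sq tl3), tmA 2, (rfl : 8 = 8), H⟩
def tA4 (H : List QC) : Grp := ⟨.sc 2 (.sq tl4), tmA 3, (rfl : 10 = 10), H⟩
def tA5 (H : List QC) : Grp := ⟨.sc 2 (.sq tl5), tmA 4, (rfl : 12 = 12), H⟩

/-- outer value of the second ring -/
def tD2 (a b : ℕ) (H : List QC) : Grp := ⟨.sc 2 (.sq (tr2 a b)), tmD 1, (rfl : 6 = 6), H⟩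
def tD3 (a b : ℕ) (H : List QC) : Grp := ⟨.sc 2 (.sq (tr3 a b)), tmD 2, (rfl : 8 = 8), H⟩
def tD4 (a b : ℕ) (H : List QC) : Grp := ⟨.sc 2 (.sq (tr4 a b)), tmD 3, (rfl : 10 = 10), H⟩
def tD5 (a b : ℕ) (H : List QC) : Grp := ⟨.sc 2 (.sq (tr5 a b)), tmD 4, (rfl : 12 = 12), H⟩

/-- the first ring is an end -/
def tF2 : Grp := ⟨tl2, .sc 2 one, (rfl : 2 = 2), zeroQ⟩
def tF3 : Grp := ⟨tl3, .sc 3 one, (rfl : 3 = 3), zeroQ⟩
def tF4 : Grp := ⟨tl4, .sc 4 one, (rfl : 4 = 4), zeroQ⟩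
def tF5 : Grp := ⟨tl5, .sc 5 one, (rfl : 5 = 5), zeroQ⟩

/-- the second ring is an end -/
def tE2 (a b : ℕ) : Grp := ⟨tr2 a b, .sc 2 one, (rfl : 2 = 2), zeroQ⟩
def tE3 (a b : ℕ) : Grp := ⟨tr3 a b, .sc 3 one, (rfl : 3 = 3), zeroQ⟩
def tE4 (a b : ℕ) : Grp := ⟨tr4 a b, .sc 4 one, (rfl : 4 = 4), zeroQ⟩
def tE5 (a b : ℕ) : Grp := ⟨tr5 a b, .sc 5 one, (rfl : 5 = 5), zeroQ⟩

/-- the hinge: `exp (2 π i y) = (R + i) / (R - i)` -/
def tY (H : List QC) : Grp := ⟨rp, rm, (rfl : 1 = 1), H⟩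
/-- the ring variable: `exp (2 i w) = (1 + i T) / (1 - i T)` -/
def tZ (H : List QC) : Grp := ⟨zp, zm, (rfl : 1 = 1), H⟩
/-- the sum -/
def tU (H : List QC) : Grp := ⟨zu, zv, (rfl : 2 = 2), H⟩
/-- the split hinge: `exp (2 π i y) = (T ² - 1 + 2 i R) / (T ² + 1)` -/
def tYs (H : List QC) : Grp := ⟨tl2, tq, (rfl : 2 = 2), H⟩
/-- the sum at a split hinge -/
def tUs (H : List QC) : Grp := ⟨tl2, zm2, (rfl : 2 = 2), H⟩

/-! ### values -/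

namespace Ev

variable (u w : ℂ)

lemma val_tq : tq.val u w = w ^ 2 + 1 := rfl

lemma val_tq2 : tq2.val u w = u ^ 2 + 1 - (w ^ 2 + 1) := rfl

lemma val_tl2 : 2 * tl2.val u w = DB I 2 u (w ^ 2 + 1) := by
  change 2 * (w ^ 2 - 1 + 2 * I * u) = _
  simp only [DB, cab]
  ring

lemma val_tl3 : 2 * tl3.val u w = DB I 3 u (w ^ 2 + 1) := by
  change 2 * (I * u * (3 - w ^ 2) - (1 - 3 * w ^ 2)) = _
  simp only [DB, cab]
  ring

lemma val_tl4 : 2 * tl4.val u w = DB I 4 u (w ^ 2 + 1) := by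
  change 2 * (4 * I * u * (1 - w ^ 2) - (w ^ 4 - 6 * w ^ 2 + 1)) = _
  simp only [DB, cab]
  ring

lemma val_tl5 : 2 * tl5.val u w = DB I 5 u (w ^ 2 + 1) := by
  change 2 * (I * u * (w ^ 4 - 10 * w ^ 2 + 5) - (5 * w ^ 4 - 10 * w ^ 2 + 1)) = _
  simp only [DB, cab]
  ring

lemma val_tr2 (a b : ℕ) :
    2 * (tr2 a b).val u w = DB (((a : ℂ) - b) * I) 2 u (u ^ 2 + 1 - (w ^ 2 + 1)) := by
  change 2 * (u ^ 2 - w ^ 2 - 2 + 2 * gz 0 0 a b * u) = _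
  rw [gz_ab]
  simp only [DB, cab]
  ring

lemma val_tr3 (a b : ℕ) :
    2 * (tr3 a b).val u w = DB (((a : ℂ) - b) * I) 3 u (u ^ 2 + 1 - (w ^ 2 + 1)) := by
  change 2 * (gz 0 0 a b * u * (4 - (u ^ 2 - w ^ 2)) - (4 - 3 * (u ^ 2 - w ^ 2))) = _
  rw [gz_ab]
  simp only [DB, cab]
  ring

lemma val_tr4 (a b : ℕ) :
    2 * (tr4 a b).val u w = DB (((a : ℂ) - b) * I) 4 u (u ^ 2 + 1 - (w ^ 2 + 1)) := by
  change 2 * (4 * gz 0 0 a b * u * (2 - (u ^ 2 - w ^ 2)) -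
    ((u ^ 2 - w ^ 2) ^ 2 - 8 * (u ^ 2 - w ^ 2) + 8)) = _
  rw [gz_ab]
  simp only [DB, cab]
  ring

lemma val_tr5 (a b : ℕ) :
    2 * (tr5 a b).val u w = DB (((a : ℂ) - b) * I) 5 u (u ^ 2 + 1 - (w ^ 2 + 1)) := by
  change 2 * (gz 0 0 a b * u * ((u ^ 2 - w ^ 2) ^ 2 - 12 * (u ^ 2 - w ^ 2) + 16) -
    (5 * (u ^ 2 - w ^ 2) ^ 2 - 20 * (u ^ 2 - w ^ 2) + 16)) = _
  rw [gz_ab]
  simp only [DB, cab]
  ring

lemma val_zp : zp.val u w = 1 + I * w := rfl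

lemma val_zm : zm.val u w = 1 - I * w := rfl

lemma val_rp : rp.val u w = u + I := by
  change u + gz 0 0 1 0 = _
  rw [gz_I]
  push_cast
  ring

lemma val_rm : rm.val u w = u - I := by
  change u - gz 0 0 1 0 = _
  rw [gz_I]
  push_cast
  ring

end Ev

/-! ### own values -/

section
variable {R T q q' : ℂ} {H : List QC}

lemma tl_ok {k : ℂ} (h0 : k ≠ 0) (hT : T ^ 2 + 1 = 1 / k ^ 2) (h : Sat H (k ^ 2)) :
    (tl H).Ok R T := by
  refine ⟨k ^ 2, ?_, h⟩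
  change k ^ 2 * tq.val R T = one.val R T
  rw [val_one, val_tq, hT, mul_one_div_cancel (pow_ne_zero 2 h0)]

lemma tr_ok {k' : ℂ} (h0 : k' ≠ 0) (hT : T ^ 2 + 1 = q) (hq : R ^ 2 + 1 - q = 1 / k' ^ 2)
    (h : Sat H (k' ^ 2)) : (tr H).Ok R T := by
  refine ⟨k' ^ 2, ?_, h⟩
  change k' ^ 2 * tq2.val R T = one.val R T
  rw [val_one, val_tq2, hT, hq, mul_one_div_cancel (pow_ne_zero 2 h0)]

/-! ### outer values -/

section
variable (hT : T ^ 2 + 1 = q) (hq : R ^ 2 + 1 - q = q')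
include hT hq

lemma r2t : R ^ 2 - T ^ 2 = q' := by rw [← hq, ← hT]; ring

lemma tA2_ok {S : Set ℂ} (hS : InH S H) (h : Out I 2 R q q' (some S)) : (tA2 H).Ok R T := by
  obtain ⟨k, hk, h2⟩ := h
  rw [← hT, ← val_tl2] at h2
  refine ⟨k ^ 2, ?_, hS k hk⟩
  change k ^ 2 * ((T ^ 2 + 1) ^ (1 + 1) * (R ^ 2 - T ^ 2)) = tl2.val R T ^ 2
  rw [r2t hT hq]
  have := out_aux h2
  linear_combination this

lemma tA3_ok {S : Set ℂ} (hS : InH S H) (h : Out I 3 R q q' (some S)) : (tA3 H).Ok R T := by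
  obtain ⟨k, hk, h2⟩ := h
  rw [← hT, ← val_tl3] at h2
  refine ⟨k ^ 2, ?_, hS k hk⟩
  change k ^ 2 * ((T ^ 2 + 1) ^ (2 + 1) * (R ^ 2 - T ^ 2)) = tl3.val R T ^ 2
  rw [r2t hT hq]
  have := out_aux h2
  linear_combination this

lemma tA4_ok {S : Set ℂ} (hS : InH S H) (h : Out I 4 R q q' (some S)) : (tA4 H).Ok R T := by
  obtain ⟨k, hk, h2⟩ := h
  rw [← hT, ← val_tl4] at h2
  refine ⟨k ^ 2, ?_, hS k hk⟩
  change k ^ 2 * ((T ^ 2 + 1) ^ (3 + 1) * (R ^ 2 - T ^ 2)) = tl4.val R T ^ 2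
  rw [r2t hT hq]
  have := out_aux h2
  linear_combination this

lemma tA5_ok {S : Set ℂ} (hS : InH S H) (h : Out I 5 R q q' (some S)) : (tA5 H).Ok R T := by
  obtain ⟨k, hk, h2⟩ := h
  rw [← hT, ← val_tl5] at h2
  refine ⟨k ^ 2, ?_, hS k hk⟩
  change k ^ 2 * ((T ^ 2 + 1) ^ (4 + 1) * (R ^ 2 - T ^ 2)) = tl5.val R T ^ 2
  rw [r2t hT hq]
  have := out_aux h2
  linear_combination this

lemma tD2_ok {a b : ℕ} {j : ℂ} (hj : j = ((a : ℂ) - b) * I) {S : Set ℂ} (hS : InH S H)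
    (h : Out j 2 R q' q (some S)) : (tD2 a b H).Ok R T := by
  obtain ⟨k, hk, h2⟩ := h
  rw [hj, ← hq, ← hT, ← val_tr2] at h2
  refine ⟨k ^ 2, ?_, hS k hk⟩
  change k ^ 2 * ((R ^ 2 - T ^ 2) ^ (1 + 1) * (T ^ 2 + 1)) = (tr2 a b).val R T ^ 2
  have := out_aux h2
  linear_combination this

lemma tD3_ok {a b : ℕ} {j : ℂ} (hj : j = ((a : ℂ) - b) * I) {S : Set ℂ} (hS : InH S H)
    (h : Out j 3 R q' q (some S)) : (tD3 a b H).Ok R T := by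
  obtain ⟨k, hk, h2⟩ := h
  rw [hj, ← hq, ← hT, ← val_tr3] at h2
  refine ⟨k ^ 2, ?_, hS k hk⟩
  change k ^ 2 * ((R ^ 2 - T ^ 2) ^ (2 + 1) * (T ^ 2 + 1)) = (tr3 a b).val R T ^ 2
  have := out_aux h2
  linear_combination this

lemma tD4_ok {a b : ℕ} {j : ℂ} (hj : j = ((a : ℂ) - b) * I) {S : Set ℂ} (hS : InH S H)
    (h : Out j 4 R q' q (some S)) : (tD4 a b H).Ok R T := by
  obtain ⟨k, hk, h2⟩ := h
  rw [hj, ← hq, ← hT, ← val_tr4] at h2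
  refine ⟨k ^ 2, ?_, hS k hk⟩
  change k ^ 2 * ((R ^ 2 - T ^ 2) ^ (3 + 1) * (T ^ 2 + 1)) = (tr4 a b).val R T ^ 2
  have := out_aux h2
  linear_combination this

lemma tD5_ok {a b : ℕ} {j : ℂ} (hj : j = ((a : ℂ) - b) * I) {S : Set ℂ} (hS : InH S H)
    (h : Out j 5 R q' q (some S)) : (tD5 a b H).Ok R T := by
  obtain ⟨k, hk, h2⟩ := h
  rw [hj, ← hq, ← hT, ← val_tr5] at h2
  refine ⟨k ^ 2, ?_, hS k hk⟩
  change k ^ 2 * ((R ^ 2 - T ^ 2) ^ (4 + 1) * (T ^ 2 + 1)) = (tr5 a b).val R T ^ 2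
  have := out_aux h2
  linear_combination this

end

/-! ### ends -/

section
variable (hT : T ^ 2 + 1 = q)
include hT

lemma tF2_ok (h : Out I 2 R q q' none) : tF2.Ok R T :=
  zero_ok rfl ((val_tl2 R T).trans (by rw [hT]; exact h))
lemma tF3_ok (h : Out I 3 R q q' none) : tF3.Ok R T :=
  zero_ok rfl ((val_tl3 R T).trans (by rw [hT]; exact h))
lemma tF4_ok (h : Out I 4 R q q' none) : tF4.Ok R T :=
  zero_ok rfl ((val_tl4 R T).trans (by rw [hT]; exact h))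
lemma tF5_ok (h : Out I 5 R q q' none) : tF5.Ok R T :=
  zero_ok rfl ((val_tl5 R T).trans (by rw [hT]; exact h))

variable (hq : R ^ 2 + 1 - q = q')
include hq

lemma tE2_ok {a b : ℕ} {j : ℂ} (hj : j = ((a : ℂ) - b) * I) (h : Out j 2 R q' q none) :
    (tE2 a b).Ok R T := by
  apply zero_ok rfl
  change 2 * (tr2 a b).val R T = 0
  rw [val_tr2, ← hj, hT, hq]
  exact h
lemma tE3_ok {a b : ℕ} {j : ℂ} (hj : j = ((a : ℂ) - b) * I) (h : Out j 3 R q' q none) :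
    (tE3 a b).Ok R T := by
  apply zero_ok rfl
  change 2 * (tr3 a b).val R T = 0
  rw [val_tr3, ← hj, hT, hq]
  exact h
lemma tE4_ok {a b : ℕ} {j : ℂ} (hj : j = ((a : ℂ) - b) * I) (h : Out j 4 R q' q none) :
    (tE4 a b).Ok R T := by
  apply zero_ok rfl
  change 2 * (tr4 a b).val R T = 0
  rw [val_tr4, ← hj, hT, hq]
  exact h
lemma tE5_ok {a b : ℕ} {j : ℂ} (hj : j = ((a : ℂ) - b) * I) (h : Out j 5 R q' q none) :
    (tE5 a b).Ok R T := by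
  apply zero_ok rfl
  change 2 * (tr5 a b).val R T = 0
  rw [val_tr5, ← hj, hT, hq]
  exact h

end

end

end

end Pool.Agent.Work.MP_b30479_gt.G2.CN
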