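import Pool.Agent.Work.MP_b30479_gt.G2.CN.TGoal
import Pool.Agent.Work.MP_b30479_gt.G2.CN.HCls
import Pool.Agent.Work.MP_b30479_gt.G2.CN.TIn

/-!
# Rows in the variables `R`, `T`

`trow`: a run of the checker gives bounds for the hinge, the ring variable and their difference.
-/

namespace Pool.Agent.Work.MP_b30479_gt.G2.CN

open Complex SR

noncomputable section

/-! ### groups by number of crossings -/

/-- outer value of the first ring -/
def tA (B : ℕ) (H : List QC) : List Grp :=
  match B with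
  | 2 => [tA2 H]
  | 3 => [tA3 H]
  | 4 => [tA4 H]
  | 5 => [tA5 H]
  | _ => []

/-- the first ring is an end -/
def tF (B : ℕ) : List Grp :=
  match B with
  | 2 => [tF2]
  | 3 => [tF3]
  | 4 => [tF4]
  | 5 => [tF5]
  | _ => []

/-- outer value of the second ring, opposite sign -/
def tDm (B : ℕ) (H : List QC) : List Grp :=
  match B with
  | 2 => [tD2 0 1 H]
  | 3 => [tD3 0 1 H]
  | 4 => [tD4 0 1 H]
  | 5 => [tD5 0 1 H]
  | _ => []

/-- outer value of the second ring, equal sign -/
def tDp (B : ℕ) (H : List QC) : List Grp :=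
  match B with
  | 2 => [tD2 1 0 H]
  | 3 => [tD3 1 0 H]
  | 4 => [tD4 1 0 H]
  | 5 => [tD5 1 0 H]
  | _ => []

/-- outer value of the second ring, hinge of kind `x` -/
def tD (x : SK) (B : ℕ) (H : List QC) : List Grp :=
  match x with
  | .a => tDm B (mirH H)
  | _ => tDp B H

/-- the second ring is an end, opposite sign -/
def tEm (B : ℕ) : List Grp :=
  match B with
  | 2 => [tE2 0 1]
  | 3 => [tE3 0 1]
  | 4 => [tE4 0 1]
  | 5 => [tE5 0 1]
  | _ => []

/-- the second ring is an end, equal sign -/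
def tEp (B : ℕ) : List Grp :=
  match B with
  | 2 => [tE2 1 0]
  | 3 => [tE3 1 0]
  | 4 => [tE4 1 0]
  | 5 => [tE5 1 0]
  | _ => []

/-- the second ring is an end, hinge of kind `x` -/
def tE (x : SK) (B : ℕ) : List Grp :=
  match x with
  | .a => tEm B
  | _ => tEp B

lemma allOk_one {R T : ℂ} {g : Grp} (h : g.Ok R T) : AllOk R T [g] := AllOk.cons h AllOk.nil

lemma pos_I : (((1 : ℝ) : ℝ) : ℂ) * I = (((1 : ℕ) : ℂ) - (0 : ℕ)) * I := by norm_num

section
variable {R T q q' : ℂ} {H : List QC} (hT : T ^ 2 + 1 = q)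
include hT

lemma tF_all {B : ℕ} (h : Out I B R q q' none) : AllOk R T (tF B) := by
  unfold tF
  split
  · exact allOk_one (tF2_ok hT h)
  · exact allOk_one (tF3_ok hT h)
  · exact allOk_one (tF4_ok hT h)
  · exact allOk_one (tF5_ok hT h)
  · exact AllOk.nil

variable (hq : R ^ 2 + 1 - q = q')
include hq

lemma tA_all {S : Set ℂ} (hS : InH S H) {B : ℕ} (h : Out I B R q q' (some S)) :
    AllOk R T (tA B H) := by
  unfold tA
  split
  · exact allOk_one (tA2_ok hT hq hS h)
  · exact allOk_one (tA3_ok hT hq hS h)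
  · exact allOk_one (tA4_ok hT hq hS h)
  · exact allOk_one (tA5_ok hT hq hS h)
  · exact AllOk.nil

lemma tDm_all {S : Set ℂ} (hS : InH S H) {B : ℕ}
    (h : Out (((-1 : ℝ) : ℂ) * I) B R q' q (some S)) : AllOk R T (tDm B H) := by
  unfold tDm
  split
  · exact allOk_one (tD2_ok hT hq neg_I hS h)
  · exact allOk_one (tD3_ok hT hq neg_I hS h)
  · exact allOk_one (tD4_ok hT hq neg_I hS h)
  · exact allOk_one (tD5_ok hT hq neg_I hS h)
  · exact AllOk.nil

lemma tDp_all {S : Set ℂ} (hS : InH S H) {B : ℕ}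
    (h : Out (((1 : ℝ) : ℂ) * I) B R q' q (some S)) : AllOk R T (tDp B H) := by
  unfold tDp
  split
  · exact allOk_one (tD2_ok hT hq pos_I hS h)
  · exact allOk_one (tD3_ok hT hq pos_I hS h)
  · exact allOk_one (tD4_ok hT hq pos_I hS h)
  · exact allOk_one (tD5_ok hT hq pos_I hS h)
  · exact AllOk.nil

lemma tD_all {x : SK} {S : Set ℂ} (hS : InH S H) {B : ℕ}
    (h : Out (x.sgn * I) B R q' q ((some S).map (frS x.sgn))) : AllOk R T (tD x B H) := by
  cases x
  · exact tDp_all hT hq hS.fr h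
  · exact tDm_all hT hq hS.mir h
  · exact tDp_all hT hq hS.fr h
  · exact tDp_all hT hq hS.fr h

lemma tEm_all {B : ℕ} (h : Out (((-1 : ℝ) : ℂ) * I) B R q' q none) : AllOk R T (tEm B) := by
  unfold tEm
  split
  · exact allOk_one (tE2_ok hT hq neg_I h)
  · exact allOk_one (tE3_ok hT hq neg_I h)
  · exact allOk_one (tE4_ok hT hq neg_I h)
  · exact allOk_one (tE5_ok hT hq neg_I h)
  · exact AllOk.nil

lemma tEp_all {B : ℕ} (h : Out (((1 : ℝ) : ℂ) * I) B R q' q none) : AllOk R T (tEp B) := by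
  unfold tEp
  split
  · exact allOk_one (tE2_ok hT hq pos_I h)
  · exact allOk_one (tE3_ok hT hq pos_I h)
  · exact allOk_one (tE4_ok hT hq pos_I h)
  · exact allOk_one (tE5_ok hT hq pos_I h)
  · exact AllOk.nil

lemma tE_all {x : SK} {B : ℕ} (h : Out (x.sgn * I) B R q' q none) : AllOk R T (tE x B) := by
  cases x
  · exact tEp_all hT hq h
  · exact tEm_all hT hq h
  · exact tEp_all hT hq h
  · exact tEp_all hT hq h

end

/-! ### the hinge of kind `x` -/

/-- the exponential of the hinge -/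
def tYx (x : SK) (H : List QC) : Grp := match x with | .s => tYs H | _ => tY H
/-- the exponential of the hinge minus the ring variable -/
def tUx (x : SK) (H : List QC) : Grp := match x with | .s => tUs H | _ => tU H

/-- the groups of a row: conditions `gi` for the hinge, `o`, `o'`: own values, `L`, `L'`: outer
values -/
def tsOf (x : SK) (gi : List GC) (o : List QC) (L : List Grp) (o' : List QC) (L' : List Grp) :
    List Grp :=
  tYx x (gi.map GC.qi) :: tl o :: tr (ownR x o') :: (L ++ L')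

/-- the goals of a row -/
def goT (x : SK) (gy gz gu : List GC) : List Grp :=
  [tYx x (gy.map GC.q), tZ (gz.map GC.q), tUx x (gu.map GC.q)]

/-- the check of a row -/
def trowOk (x : SK) (gi : List GC) (o : List QC) (L : List Grp) (o' : List QC) (L' : List Grp)
    (gy gz gu : List GC) (n code : ℕ) : Bool :=
  row (tsOf x gi o L o' L') (goT x gy gz gu) n code rootT &&
    (gi.all GC.oki && gy.all GC.ok && gz.all GC.ok && gu.all GC.ok)

section
variable {w R : ℂ}

lemma expY {x : SK} (hc : 0 < (Complex.cos w).re) (hR : 0 < R.re)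
    (h2 : x = .s → (acot2 (Sp R (Complex.cos w))).re < 1 / 2) (H : List QC) :
    cexp (2 * Real.pi * I * yH x R (Complex.cos w)) * (tYx x H).M.val R (Complex.tan w) =
      (tYx x H).N.val R (Complex.tan w) := by
  have hc0 := ne_of_re hc
  have ht := tan_sq hc0
  by_cases hx : x = .s
  · subst hx
    have e := exp_split hR hc0 (h2 rfl)
    unfold yH
    rw [Hq_s]
    change _ * Ev.tq.val R (Complex.tan w) = Ev.tl2.val R (Complex.tan w)
    have h4 := Ev.val_tl2 R (Complex.tan w)
    have h5 : Ev.tl2.val R (Complex.tan w) = 1 / Complex.cos w ^ 2 - 2 + 2 * I * R := by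
      apply mul_left_cancel₀ (two_ne_zero : (2 : ℂ) ≠ 0)
      rw [h4, ht]
      simp only [DB, cab]
      ring
    rw [Ev.val_tq, ht, h5]
    exact e
  · have e : yH x R (Complex.cos w) = acot2 R := by
      unfold yH Hq
      rw [if_neg hx]
    have e2 : tYx x H = tY H := by
      cases x
      · rfl
      · rfl
      · rfl
      · exact absurd rfl hx
    rw [e, e2]
    change _ * Ev.rm.val R _ = Ev.rp.val R _
    rw [Ev.val_rm, Ev.val_rp]
    exact exp_acot2 (ne_I_of_re hR).1 (ne_I_of_re hR).2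

lemma expZ (hc : 0 < (Complex.cos w).re) (H : List QC) :
    cexp (2 * Real.pi * I * (-zeta w)) * (tZ H).M.val R (Complex.tan w) =
      (tZ H).N.val R (Complex.tan w) := by
  change _ * Ev.zm.val R _ = Ev.zp.val R _
  rw [Ev.val_zm, Ev.val_zp]
  exact exp_zeta (ne_of_re hc)

lemma expU {x : SK} (hc : 0 < (Complex.cos w).re) (hR : 0 < R.re)
    (h2 : x = .s → (acot2 (Sp R (Complex.cos w))).re < 1 / 2) (H : List QC) :
    cexp (2 * Real.pi * I * (yH x R (Complex.cos w) - zeta w)) *
      (tUx x H).M.val R (Complex.tan w) = (tUx x H).N.val R (Complex.tan w) := by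
  have e1 := expY hc hR h2 H
  have e2 := expZ (R := R) hc H
  have e3 : 2 * Real.pi * I * (yH x R (Complex.cos w) - zeta w) =
      2 * Real.pi * I * yH x R (Complex.cos w) + 2 * Real.pi * I * (-zeta w) := by ring
  rw [e3, Complex.exp_add]
  change _ * Ev.zm.val R _ = Ev.zp.val R _ at e2
  by_cases hx : x = .s
  · subst hx
    change _ * Ev.tq.val R _ = Ev.tl2.val R _ at e1
    change _ * (Ev.zm.val R (Complex.tan w)) ^ 2 = Ev.tl2.val R _
    rw [← e1, Ev.val_tq]
    rw [Ev.val_zm, Ev.val_zp] at e2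
    rw [Ev.val_zm]
    linear_combination (cexp (2 * Real.pi * I * yH .s R (Complex.cos w)) *
      (1 - I * Complex.tan w)) * e2 + (-cexp (2 * Real.pi * I * yH .s R (Complex.cos w)) *
      Complex.tan w ^ 2) * Complex.I_mul_I
  · have h4 : tUx x H = tU H := by
      cases x
      · rfl
      · rfl
      · rfl
      · exact absurd rfl hx
    have h5 : tYx x H = tY H := by
      cases x
      · rfl
      · rfl
      · rfl
      · exact absurd rfl hx
    rw [h5] at e1
    change _ * Ev.rm.val R _ = Ev.rp.val R _ at e1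
    rw [h4]
    change _ * (Ev.rm.val R _ * Ev.zm.val R _) = Ev.rp.val R _ * Ev.zp.val R _
    rw [← e1, ← e2]
    ring

/-- a run gives the bounds -/
theorem trow_sound {x : SK} {gi : List GC} {o : List QC} {L : List Grp} {o' : List QC}
    {L' : List Grp} {gy gz gu : List GC} {n code : ℕ}
    (hr : trowOk x gi o L o' L' gy gz gu n code = true) (hm : rootT.Mem R (Complex.tan w))
    (hc : 0 < (Complex.cos w).re) (hR : 0 < R.re)
    (h2 : x = .s → (acot2 (Sp R (Complex.cos w))).re < 1 / 2)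
    (hi : ∀ g ∈ gi, g.G (yH x R (Complex.cos w))) (ho : (tl o).Ok R (Complex.tan w))
    (ho' : (tr (ownR x o')).Ok R (Complex.tan w)) (hL : AllOk R (Complex.tan w) L)
    (hL' : AllOk R (Complex.tan w) L') :
    (∀ g ∈ gy, g.P (yH x R (Complex.cos w))) ∧ (∀ g ∈ gz, g.P (-zeta w)) ∧
      ∀ g ∈ gu, g.P (yH x R (Complex.cos w) - zeta w) := by
  unfold trowOk at hr
  rw [Bool.and_eq_true, Bool.and_eq_true, Bool.and_eq_true, Bool.and_eq_true] at hr
  obtain ⟨hrow, ⟨⟨k1, k2⟩, k3⟩, k4⟩ := hr
  have hgi : (tYx x (gi.map GC.qi)).Ok R (Complex.tan w) := by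
    refine ⟨_, expY hc hR h2 _, ?_⟩
    have eH : (tYx x (gi.map GC.qi)).H = gi.map GC.qi := by cases x <;> rfl
    rw [eH]
    intro Q hQ
    obtain ⟨g, hg, rfl⟩ := List.mem_map.1 hQ
    exact GC.imp (List.all_eq_true.1 k1 g hg) (hi g hg)
  have hl : AllOk R (Complex.tan w) (tsOf x gi o L o' L') :=
    AllOk.cons hgi (AllOk.cons ho (AllOk.cons ho' (hL.append hL')))
  refine ⟨fun g hg => ?_, fun g hg => ?_, fun g hg => ?_⟩
  · have eH : (tYx x (gy.map GC.q)).H = gy.map GC.q := by cases x <;> rfl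
    exact GC.spec (List.all_eq_true.1 k2 g hg) (row_sound hrow hm hl
      (g := tYx x (gy.map GC.q)) (by simp [goT]) (expY hc hR h2 _) g.q
      (by rw [eH]; exact List.mem_map_of_mem hg))
  · exact GC.spec (List.all_eq_true.1 k3 g hg) (row_sound hrow hm hl
      (g := tZ (gz.map GC.q)) (by simp [goT]) (expZ hc _) g.q
      (List.mem_map_of_mem hg))
  · have eH : (tUx x (gu.map GC.q)).H = gu.map GC.q := by cases x <;> rfl
    exact GC.spec (List.all_eq_true.1 k4 g hg) (row_sound hrow hm hl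
      (g := tUx x (gu.map GC.q)) (by simp [goT]) (expU hc hR h2 _) g.q
      (by rw [eH]; exact List.mem_map_of_mem hg))

end

/-! ### the data of a hinge -/

/-- the tangent of a variable in the strip has nonnegative real part -/
lemma tan_re {w : ℂ} (h0 : 0 < w.re) (h1 : w.re < 3 / 2) : 0 ≤ (Complex.tan w).re := by
  have hpi := Real.pi_gt_three
  have hc : 0 < Real.cos w.re := Real.cos_pos_of_mem_Ioo ⟨by linarith, by linarith⟩
  have hs : 0 < Real.sin w.re := Real.sin_pos_of_pos_of_lt_pi h0 (by linarith)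
  have e : w = (w.re : ℂ) + w.im * I := (Complex.re_add_im w).symm
  rw [Complex.tan_eq_sin_div_cos, Complex.div_re]
  have s1 : (Complex.sin w).re = Real.sin w.re * Real.cosh w.im := by
    conv_lhs => rw [e]
    rw [Complex.sin_add_mul_I]
    simp [Complex.sin_ofReal_re, Complex.cosh_ofReal_re, Complex.sin_ofReal_im,
      Complex.cosh_ofReal_im, Complex.cos_ofReal_re, Complex.sinh_ofReal_re, Complex.cos_ofReal_im,
      Complex.sinh_ofReal_im]
  have s2 : (Complex.sin w).im = Real.cos w.re * Real.sinh w.im := by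
    conv_lhs => rw [e]
    rw [Complex.sin_add_mul_I]
    simp [Complex.sin_ofReal_re, Complex.cosh_ofReal_re, Complex.sin_ofReal_im,
      Complex.cosh_ofReal_im, Complex.cos_ofReal_re, Complex.sinh_ofReal_re, Complex.cos_ofReal_im,
      Complex.sinh_ofReal_im]
  have c1 : (Complex.cos w).re = Real.cos w.re * Real.cosh w.im := by
    conv_lhs => rw [e]
    rw [Complex.cos_add_mul_I]
    simp [Complex.sin_ofReal_re, Complex.cosh_ofReal_re, Complex.sin_ofReal_im,
      Complex.cosh_ofReal_im, Complex.cos_ofReal_re, Complex.sinh_ofReal_re, Complex.cos_ofReal_im,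
      Complex.sinh_ofReal_im]
  have c2 : (Complex.cos w).im = -(Real.sin w.re * Real.sinh w.im) := by
    conv_lhs => rw [e]
    rw [Complex.cos_add_mul_I]
    simp [Complex.sin_ofReal_re, Complex.cosh_ofReal_re, Complex.sin_ofReal_im,
      Complex.cosh_ofReal_im, Complex.cos_ofReal_re, Complex.sinh_ofReal_re, Complex.cos_ofReal_im,
      Complex.sinh_ofReal_im]
  rw [s1, s2, c1, c2, ← add_div]
  apply div_nonneg _ (Complex.normSq_nonneg _)
  have h2 := Real.cosh_sq w.im
  nlinarith [mul_pos hs hc]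

/-- the data of a hinge for the rows -/
structure TDt (K : KFam) (x : SK) (d : ℕ) (l : SK) (d' : ℕ) (l' : SK) (w R k' : ℂ) : Prop where
  h : HDt K x d l d' l' R (Complex.cos w) k'
  w0 : 0 < w.re
  w1 : w.re < 3 / 2
  sp : x = .s → (acot2 (Sp R (Complex.cos w))).re < 1 / 2

/-- **Bounds for a hinge from a run.** -/
theorem trow {K : KFam} (hK : KOK K) {x : SK} {d : ℕ} {l : SK} {d' : ℕ} {l' : SK} {w R k' : ℂ}
    (t : TDt K x d l d' l' w R k') {gi : List GC} {o : List QC} {L : List Grp} {o' : List QC}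
    {L' : List Grp} {gy gz gu : List GC} {n code : ℕ}
    (hr : trowOk x gi o L o' L' gy gz gu n code = true)
    (hi : ∀ g ∈ gi, g.G (yH x R (Complex.cos w)))
    (ho : Sat o (Complex.cos w ^ 2)) (ho' : InH (K.K d' l' x) o')
    (hL : ∀ {q q' : ℂ}, Complex.tan w ^ 2 + 1 = q → R ^ 2 + 1 - q = q' →
      q = 1 / Complex.cos w ^ 2 → q' = 1 / k' ^ 2 → AllOk R (Complex.tan w) L)
    (hL' : ∀ {q q' : ℂ}, Complex.tan w ^ 2 + 1 = q → R ^ 2 + 1 - q = q' →
      Out (x.sgn * I) (crs d' x l') R q' q ((port K d' (crs d' x l') l').map (frS x.sgn)) →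
      AllOk R (Complex.tan w) L') :
    (∀ g ∈ gy, g.P (yH x R (Complex.cos w))) ∧ (∀ g ∈ gz, g.P (-zeta w)) ∧
      ∀ g ∈ gu, g.P (yH x R (Complex.cos w) - zeta w) := by
  have hc := t.h.kre
  have hc0 := ne_of_re hc
  have hT := tan_sq hc0
  have hR : 0 < R.re := r0_pos.trans t.h.Rre
  have hq : R ^ 2 + 1 - 1 / Complex.cos w ^ 2 = 1 / k' ^ 2 := by
    rw [t.h.hinge]
    ring
  have hm' := t.h.mem'
  have h1 := inH_ownR (x := x) ho'
  rw [← K.symm] at h1
  exact trow_sound hr (rootT_mem hK t.h hT (tan_re t.w0 t.w1)) hc hR t.sp hi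
    (tl_ok hc0 hT ho) (tr_ok (ne_of_re t.h.kre') hT hq (h1 k' hm'))
    (hL hT hq rfl rfl) (hL' hT hq t.h.out')

end

end Pool.Agent.Work.MP_b30479_gt.G2.CN
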