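import Pool.Agent.Work.MP_b30479_gt.G2.CN.HPoly

/-!
# More conditions for the ring values
-/

namespace Pool.Agent.Work.MP_b30479_gt.G2.CN.TD

open Complex SR

/-- conditions -/
def k3aa : List QC :=
  [⟨-177384, 592288, 0, 0⟩, ⟨456762, -571160, 0, 0⟩, ⟨0, 0, 1000000, -648066⟩,
  ⟨0, 0, -1000000, 289793⟩, ⟨988000, -156000, 0, 446205⟩, ⟨-951000, -309000, 0, -763335⟩,
  ⟨545000, 839000, 0, 450459⟩, ⟨292000, -956000, -506104, 0⟩, ⟨-559000, -829000, -1573985, 0⟩,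
  ⟨174000, 985000, 0, 277399⟩, ⟨-921000, -391000, 0, -776582⟩, ⟨-974000, -225000, 0, -752806⟩]

/-- conditions -/
def k4as : List QC :=
  [⟨-170558, 623760, 0, 0⟩, ⟨395064, -644873, 0, 0⟩, ⟨0, 0, 1000000, -571937⟩,
  ⟨0, 0, -1000000, 356485⟩, ⟨974000, -225000, 0, 485484⟩, ⟨616000, 788000, 0, 508048⟩,
  ⟨-375000, 927000, 0, -75862⟩, ⟨87000, -996000, -624146, 0⟩, ⟨-921000, -391000, 0, -753614⟩,
  ⟨530000, 848000, 0, 467393⟩, ⟨857000, 515000, 0, 590229⟩, ⟨-946000, -326000, 0, -754319⟩]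

theorem k3aa_ok : okH k3aa (pg 3 .a .a) = true := by decide +kernel
theorem k4as_ok : okH k4as (pg 4 .a .s) = true := by decide +kernel

end Pool.Agent.Work.MP_b30479_gt.G2.CN.TD
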