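import Pool.Agent.Work.MP_b30479_gt.G2.CN.HPoly

/-!
# Conditions for the digit `3` with two split hinges
-/

namespace Pool.Agent.Work.MP_b30479_gt.G2.CN.TD

open Complex SR

/-- conditions -/
def k5ss : List QC :=
  [⟨-162800, 652596, 0, 0⟩, ⟨318970, -660744, 0, 0⟩, ⟨0, 0, 1000000, -573360⟩,
  ⟨0, 0, -1000000, 423171⟩, ⟨-407000, -914000, -1090730, 0⟩, ⟨-866000, -500000, 0, -734716⟩,
  ⟨0, 1000000, 357813, 0⟩, ⟨819000, 574000, 0, 620986⟩, ⟨208000, -978000, -326567, 0⟩,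
  ⟨857000, 515000, 0, 634909⟩]

theorem k5ss_ok : okH k5ss (pg 5 .s .s) = true := by decide +kernel

end Pool.Agent.Work.MP_b30479_gt.G2.CN.TD
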