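import Pool.Agent.Work.MP_b30479_gt.G2.CN.HPoly
import Pool.Agent.Work.MP_b30479_gt.G2.SWordI
import Pool.Agent.Work.MP_b30479_gt.G2.CN.HBox

/-!
# Bounds from the goals of a run in the variables `R`, `T`

`GC`: a condition on `exp (2 π i y)` whose failure gives a bound for `y` (`GC.spec`), or which follows
from a bound for `y` (`GC.imp`).
-/

namespace Pool.Agent.Work.MP_b30479_gt.G2.CN

open Complex SR NumI

noncomputable section

/-- the conditions: `arc`: nonnegative for `n / 10000 ≤ Re y ≤ m / 10000`; `lo`, `hi`: imaginary part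
at least, at most `m / 10000`. -/
inductive GC where
  | arc (n m : ℕ) (a b : ℤ)
  | lo (m c : ℤ)
  | hi (m c : ℤ)

namespace GC

/-- the condition which fails -/
def q : GC → QC
  | arc _ _ a b => ⟨a, b, 0, 0⟩
  | lo _ c => ⟨0, 0, -1000000, c⟩
  | hi _ c => ⟨0, 0, 1000000, -c⟩

/-- the check for the failing condition -/
def ok : GC → Bool
  | arc n m a b => Nat.blt n m && Nat.blt m (Nat.add 5000 n) && chk [BB.eF a b n] 1 [] &&
      chk [BB.eF a b m] 1 []
  | lo m c => chk [BB.eT m c] 1 []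
  | hi m c => chk [.neg (BB.eT m c)] 1 []

/-- the bound -/
def P (y : ℂ) : GC → Prop
  | arc n m _ _ => ¬ ((n : ℝ) / 10000 ≤ y.re ∧ y.re ≤ (m : ℝ) / 10000)
  | lo m _ => (m : ℝ) / 10000 ≤ y.im
  | hi m _ => y.im ≤ (m : ℝ) / 10000

lemma arc_sat {n m : ℕ} {a b : ℤ} (h : (arc n m a b).ok = true) {y : ℂ}
    (h1 : (n : ℝ) / 10000 ≤ y.re) (h2 : y.re ≤ (m : ℝ) / 10000) :
    (⟨a, b, 0, 0⟩ : QC).Sat (cexp (2 * Real.pi * I * y)) := by
  have hpi := Real.pi_pos
  unfold ok at h
  simp only [Bool.and_eq_true, Nat.blt_eq] at h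
  obtain ⟨⟨⟨k1, k2⟩, g1⟩, g2⟩ := h
  have G1 := pos_of_chk (chk_sound g1 List.Forall₂.nil)
  have G2 := pos_of_chk (chk_sound g2 List.Forall₂.nil)
  simp only [BB.eF, E.val, Int.cast_natCast] at G1 G2
  push_cast at G1 G2
  have e1 : Real.pi * ((n : ℝ) / 5000) = 2 * Real.pi * ((n : ℝ) / 10000) := by ring
  have e2 : Real.pi * ((m : ℝ) / 5000) = 2 * Real.pi * ((m : ℝ) / 10000) := by ring
  rw [e1] at G1
  rw [e2] at G2
  have i1 : (n : ℝ) < m := by exact_mod_cast k1
  have i2 : (m : ℝ) < 5000 + n := by exact_mod_cast k2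
  have h3 := comb_nonneg (a := a) (b := b) (α := 2 * Real.pi * ((n : ℝ) / 10000))
    (β := 2 * Real.pi * ((m : ℝ) / 10000)) (θ := 2 * Real.pi * y.re) (by nlinarith only [h1, hpi])
    (by nlinarith only [h2, hpi]) (by nlinarith only [hpi, i1]) (by nlinarith only [hpi, i2]) (by simpa using G1.le) (by simpa using G2.le)
  unfold QC.Sat
  rw [exp_re, exp_im]
  have hp := Real.exp_pos (-(2 * Real.pi * y.im))
  have := mul_nonneg hp.le h3
  push_cast
  nlinarith only [this]

/-- a failing condition gives the bound -/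
theorem spec {g : GC} (h : g.ok = true) {y : ℂ} (hS : ¬ g.q.Sat (cexp (2 * Real.pi * I * y))) :
    g.P y := by
  cases g with
  | arc n m a b => exact fun hc => hS (arc_sat h hc.1 hc.2)
  | lo m c =>
    have hpi := Real.pi_pos
    have G := pos_of_chk (chk_sound (show chk [BB.eT m c] 1 [] = true from h) List.Forall₂.nil)
    simp only [BB.eT, E.val] at G
    push_cast at G
    unfold q QC.Sat at hS
    rw [exp_nsq] at hS
    push_cast at hS
    show (m : ℝ) / 10000 ≤ y.im
    by_contra hc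
    push Not at hc
    apply hS
    have h4 : Real.exp (Real.pi * (-(m : ℝ) / 2500)) ≤ Real.exp (-(4 * Real.pi * y.im)) := by
      apply Real.exp_le_exp.2
      nlinarith only [hpi, hc]
    linarith only [G, hS, h4]
  | hi m c =>
    have hpi := Real.pi_pos
    have G := pos_of_chk (chk_sound (show chk [.neg (BB.eT m c)] 1 [] = true from h)
      List.Forall₂.nil)
    simp only [BB.eT, E.val] at G
    push_cast at G
    unfold q QC.Sat at hS
    rw [exp_nsq] at hS
    push_cast at hS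
    show y.im ≤ (m : ℝ) / 10000
    by_contra hc
    push Not at hc
    apply hS
    have h4 : Real.exp (-(4 * Real.pi * y.im)) ≤ Real.exp (Real.pi * (-(m : ℝ) / 2500)) := by
      apply Real.exp_le_exp.2
      nlinarith only [hpi, hc]
    linarith only [G, hS, h4]

/-- the condition which follows from the bound -/
def qi : GC → QC
  | arc _ _ a b => ⟨a, b, 0, 0⟩
  | lo _ c => ⟨0, 0, 1000000, -c⟩
  | hi _ c => ⟨0, 0, -1000000, c⟩

/-- the check for the condition which follows -/
def oki : GC → Bool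
  | arc n m a b => (arc n m a b).ok
  | lo m c => (hi m c).ok
  | hi m c => (lo m c).ok

/-- the given bound -/
def G (y : ℂ) : GC → Prop
  | arc n m _ _ => (n : ℝ) / 10000 ≤ y.re ∧ y.re ≤ (m : ℝ) / 10000
  | lo m _ => (m : ℝ) / 10000 ≤ y.im
  | hi m _ => y.im ≤ (m : ℝ) / 10000

/-- the bound gives the condition -/
theorem imp {g : GC} (h : g.oki = true) {y : ℂ} (hg : g.G y) :
    g.qi.Sat (cexp (2 * Real.pi * I * y)) := by
  cases g with
  | arc n m a b => exact arc_sat h hg.1 hg.2
  | lo m c =>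
    have hpi := Real.pi_pos
    have G := pos_of_chk (chk_sound (show chk [.neg (BB.eT m c)] 1 [] = true from h)
      List.Forall₂.nil)
    simp only [BB.eT, E.val] at G
    push_cast at G
    change (m : ℝ) / 10000 ≤ y.im at hg
    unfold qi QC.Sat
    rw [exp_nsq]
    push_cast
    have h4 : Real.exp (-(4 * Real.pi * y.im)) ≤ Real.exp (Real.pi * (-(m : ℝ) / 2500)) := by
      apply Real.exp_le_exp.2
      nlinarith only [hpi, hg]
    linarith only [G, h4]
  | hi m c =>
    have hpi := Real.pi_pos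
    have G := pos_of_chk (chk_sound (show chk [BB.eT m c] 1 [] = true from h) List.Forall₂.nil)
    simp only [BB.eT, E.val] at G
    push_cast at G
    change y.im ≤ (m : ℝ) / 10000 at hg
    unfold qi QC.Sat
    rw [exp_nsq]
    push_cast
    have h4 : Real.exp (Real.pi * (-(m : ℝ) / 2500)) ≤ Real.exp (-(4 * Real.pi * y.im)) := by
      apply Real.exp_le_exp.2
      nlinarith only [hpi, hg]
    linarith only [G, h4]

end GC

/-! ### exponentials -/

lemma exp_zeta {w : ℂ} (hc : Complex.cos w ≠ 0) :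
    cexp (2 * Real.pi * I * (-zeta w)) * (1 - I * Complex.tan w) = 1 + I * Complex.tan w := by
  have hpi : (Real.pi : ℂ) ≠ 0 := by exact_mod_cast Real.pi_pos.ne'
  have e : 2 * Real.pi * I * (-zeta w) = w * I + w * I := by
    unfold zeta
    field_simp
    ring
  have hI : I * I = -1 := Complex.I_mul_I
  have e1 : cexp (w * I) = Complex.cos w + Complex.sin w * I := Complex.exp_mul_I w
  have hs := Complex.sin_sq_add_cos_sq w
  rw [e, Complex.exp_add, e1, Complex.tan_eq_sin_div_cos]
  field_simp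
  linear_combination (Complex.cos w + Complex.sin w * I) * hs +
    (Complex.sin w ^ 2 * (-Complex.cos w - I * Complex.sin w)) * hI

lemma ne_nI_of_half {z : ℂ} (h : (acot2 z).re < 1 / 2) : z ≠ -I := by
  rintro rfl
  have e : acot2 (-I) = 1 / 2 := by
    unfold acot2 Complex.arctan
    have : (1 : ℂ) - -I * I = 0 := by
      linear_combination Complex.I_mul_I
    rw [this]
    simp
  rw [e] at h
  norm_num at h

lemma exp_split {R k : ℂ} (hR : 0 < R.re) (hk : k ≠ 0) (h2 : (acot2 (Sp R k)).re < 1 / 2) :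
    cexp (2 * Real.pi * I * acot2 (Sp R k)) * (1 / k ^ 2) = 1 / k ^ 2 - 2 + 2 * I * R := by
  have hRI : R + I ≠ 0 := by
    intro h
    exact (ne_I_of_re hR).2 (by linear_combination h)
  have h1 : Sp R k ≠ I := Sp_ne_I hRI hk
  have h3 := exp_acot2 h1 (ne_nI_of_half h2)
  have e := Sp_sub (k := k) hRI
  have hS : Sp R k - I ≠ 0 := sub_ne_zero.2 h1
  apply mul_left_cancel₀ hS
  linear_combination (1 / k ^ 2) * h3 - 2 * I * e + (2 * (Sp R k - I)) * Complex.I_mul_I

/-! ### the root cell -/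

/-- the root cell in the variables `R`, `T` -/
def rootT : Cell := ⟨1048576, 1101824, 995328, 1101824, 1048576, 1087079, 1010073, 1087079⟩

lemma rootT_mem {K : KFam} (hK : KOK K) {x : SK} {d : ℕ} {l : SK} {d' : ℕ} {l' : SK}
    {R k k' T : ℂ} (h : HDt K x d l d' l' R k k') (hT : T ^ 2 + 1 = 1 / k ^ 2) (h0 : 0 ≤ T.re) :
    rootT.Mem R T := by
  obtain ⟨m1, m2, -, -⟩ := hK.root h
  refine ⟨m1, m2, ?_, ?_⟩
  all_goals
    have hq := hK.bound h.ok.left h.ok.ne h.mem
    have h1 : ‖T‖ ^ 2 ≤ 5375 / 1000 := by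
      rw [← norm_pow, show T ^ 2 = 1 / k ^ 2 - 1 by rw [← hT]; ring]
      calc ‖1 / k ^ 2 - 1‖ ≤ ‖1 / k ^ 2‖ + ‖(1 : ℂ)‖ := norm_sub_le _ _
        _ ≤ 5375 / 1000 := by rw [norm_one]; linarith only [hq]
    have h2 : ‖T‖ ≤ 235 / 100 := by nlinarith only [h1, norm_nonneg T]
    have a1 := abs_le.1 ((Complex.abs_re_le_norm T).trans h2)
    have a2 := abs_le.1 ((Complex.abs_im_le_norm T).trans h2)
    have hD : D = 16384 := rfl
  · exact inI_of h0 a1.2 (by rw [hD]; norm_num [rootT]) (by rw [hD]; norm_num [rootT])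
  · exact inI_of a2.1 a2.2 (by rw [hD]; norm_num [rootT]) (by rw [hD]; norm_num [rootT])

lemma tan_sq {w : ℂ} (hc : Complex.cos w ≠ 0) :
    Complex.tan w ^ 2 + 1 = 1 / Complex.cos w ^ 2 := by
  rw [Complex.tan_eq_sin_div_cos]
  field_simp
  linear_combination Complex.sin_sq_add_cos_sq w

end

end Pool.Agent.Work.MP_b30479_gt.G2.CN
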