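import Pool.Agent.Work.MP_b30479_gt.G2.CN.TUse
import Pool.Agent.Work.MP_b30479_gt.G2.CN.RowD

/-!
# Rows with the hinge on the other side

A ring with the digit `4`, the hinge of kind `x` at one side with the variable `R`, the hinge of
kind `l` at the other side.  `tLx`: the exponential of the other hinge, `tMx`: the exponential of the
other hinge minus the ring variable.
-/

namespace Pool.Agent.Work.MP_b30479_gt.G2.CN.TD

open Complex SR Ev

noncomputable section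

lemma val_tl6 (u w : ℂ) : 2 * tl6.val u w = DB I 6 u (w ^ 2 + 1) := by
  change 2 * (gz 0 0 2 0 * u * ((3 : ℕ) * (w ^ 2) ^ 2 - (10 : ℕ) * w ^ 2 + gz 3 0 0 0) +
    (w ^ 2 - one.val u w) * ((w ^ 2) ^ 2 - (14 : ℕ) * w ^ 2 + one.val u w)) = _
  rw [gz_nat, gz_I, val_one]
  simp only [DB, cab]
  push_cast
  ring

/-! ### the exponential of the other hinge -/

lemma val_q {E : Ev} (u w : ℂ) : (Ev.mul tq E).val u w = (w ^ 2 + 1) * E.val u w := by
  change tq.val u w * E.val u w = _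
  rw [val_tq]

lemma val_neg1 {E : Ev} (u w : ℂ) : (Ev.gm 0 1 0 0 E).val u w = -E.val u w := by
  change gz 0 1 0 0 * E.val u w = _
  have h : gz 0 1 0 0 = -1 := by
    apply Complex.ext <;> simp [gz]
  rw [h]
  ring

/-- the other hinge, unsplit -/
lemma left_u {E Yl R T : ℂ} (hE : E * (Yl - I) = Yl + I) (hT : T ≠ 0)
    (h : RE I 4 Yl R T) :
    E * -(tl5.val R T) = (T ^ 2 + 1) * tl3.val R T := by
  have h1 := RE_lin (q := T ^ 2 + 1) Complex.I_mul_I hT (by ring) h.symm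
  have e5 := val_tl5 R T
  have e3 := val_tl3 R T
  simp only [DB, cab] at h1 e5 e3
  have f5 : tl5.val R T = I * R * (T ^ 4 - 10 * T ^ 2 + 5) - (5 * T ^ 4 - 10 * T ^ 2 + 1) := by
    apply mul_left_cancel₀ (two_ne_zero : (2 : ℂ) ≠ 0)
    rw [e5]
    ring
  have f3 : tl3.val R T = I * R * (3 - T ^ 2) - (1 - 3 * T ^ 2) := by
    apply mul_left_cancel₀ (two_ne_zero : (2 : ℂ) ≠ 0)
    rw [e3]
    ring
  rw [f5, f3]
  set D : ℂ := (T ^ 4 - 6 * T ^ 2 + 1) - R * (I * (4 - 4 * T ^ 2)) with hD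
  set N : ℂ := T ^ 2 * (I * (4 - 4 * T ^ 2)) - R * (T ^ 4 - 6 * T ^ 2 + 1) with hN
  have h2 : Yl * D = N := by
    rw [hD, hN]
    linear_combination h1
  have h3 : E * (N - I * D) = N + I * D := by
    rw [← h2]
    linear_combination D * hE
  have h4 : N - I * D =
      I * (I * R * (T ^ 4 - 10 * T ^ 2 + 5) - (5 * T ^ 4 - 10 * T ^ 2 + 1)) := by
    rw [hD, hN]
    linear_combination (R * (4 - 4 * T ^ 2) - R * (T ^ 4 - 10 * T ^ 2 + 5)) * Complex.I_mul_I
  have h5 : N + I * D = -I * ((T ^ 2 + 1) * (I * R * (3 - T ^ 2) - (1 - 3 * T ^ 2))) := by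
    rw [hD, hN]
    linear_combination (-R * (4 - 4 * T ^ 2) + (T ^ 2 + 1) * R * (3 - T ^ 2)) * Complex.I_mul_I
  rw [h4, h5] at h3
  apply mul_left_cancel₀ Complex.I_ne_zero
  linear_combination -h3

/-- the other hinge, the first hinge split -/
lemma left_s {E Yl R k T : ℂ} (hE : E * (Yl - I) = Yl + I) (hT : T ≠ 0) (hRI : R + I ≠ 0)
    (hk : T ^ 2 + 1 = 1 / k ^ 2) (h : RE I 4 Yl (Sp R k) T) :
    E * -(tl6.val R T) = (T ^ 2 + 1) * tl4.val R T := by
  have h1 := RE_lin (q := T ^ 2 + 1) Complex.I_mul_I hT (by ring) h.symm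
  have e6 := val_tl6 R T
  have e4 := val_tl4 R T
  have hS : Sp R k * (R + I) = I * R + T ^ 2 := by
    unfold Sp
    rw [div_mul_cancel₀ _ hRI, ← hk]
    ring
  simp only [DB, cab] at h1 e6 e4
  have f6 : tl6.val R T = I * R * (6 * T ^ 4 - 20 * T ^ 2 + 6) -
      (1 - 15 * T ^ 2 + 15 * T ^ 4 - T ^ 6) := by
    apply mul_left_cancel₀ (two_ne_zero : (2 : ℂ) ≠ 0)
    rw [e6]
    ring
  have f4 : tl4.val R T = I * R * (4 - 4 * T ^ 2) - (1 - 6 * T ^ 2 + T ^ 4) := by
    apply mul_left_cancel₀ (two_ne_zero : (2 : ℂ) ≠ 0)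
    rw [e4]
    ring
  rw [f6, f4]
  set S := Sp R k
  set D : ℂ := (R + I) * (T ^ 4 - 6 * T ^ 2 + 1) - (I * R + T ^ 2) * (I * (4 - 4 * T ^ 2)) with hD
  set N : ℂ := (R + I) * (T ^ 2 * (I * (4 - 4 * T ^ 2))) -
    (I * R + T ^ 2) * (T ^ 4 - 6 * T ^ 2 + 1) with hN
  have h2 : Yl * D = N := by
    rw [hD, hN]
    linear_combination (R + I) * h1 + (Yl * I * (4 - 4 * T ^ 2) - (T ^ 4 - 6 * T ^ 2 + 1)) * hS
  have h3 : E * (N - I * D) = N + I * D := by
    rw [← h2]
    linear_combination D * hE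
  have h4 : N - I * D = -(I * R * (6 * T ^ 4 - 20 * T ^ 2 + 6) -
      (1 - 15 * T ^ 2 + 15 * T ^ 4 - T ^ 6)) := by
    rw [hD, hN]
    linear_combination (R * (4 - 4 * T ^ 2) * I + (2 * T ^ 2 * (4 - 4 * T ^ 2) -
      (T ^ 4 - 6 * T ^ 2 + 1))) * Complex.I_mul_I
  have h5 : N + I * D = (T ^ 2 + 1) * (I * R * (4 - 4 * T ^ 2) - (1 - 6 * T ^ 2 + T ^ 4)) := by
    rw [hD, hN]
    linear_combination (-R * (4 - 4 * T ^ 2) * I + (T ^ 4 - 6 * T ^ 2 + 1)) * Complex.I_mul_I
  rw [h4, h5] at h3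
  linear_combination h3

/-! ### rows -/

/-- the data of a ring with the digit `4` -/
structure LDt (K : KFam) (l x : SK) (dl : ℕ) (ll : SK) (dr : ℕ) (rr : SK) (w kl kr : ℂ) :
    Prop where
  h : RDt K 4 l x dl ll dr rr w kl kr
  sp : x = .s → (acot2 (Sp (RR w kr) (Complex.cos w))).re < 1 / 2
  sp' : l = .s → (acot2 (Sp (RR w kl) (Complex.cos w))).re < 1 / 2

section
variable {K : KFam} {l x : SK} {dl : ℕ} {ll : SK} {dr : ℕ} {rr : SK} {w kl kr : ℂ}

lemma LDt.symm (t : LDt K l x dl ll dr rr w kl kr) : LDt K x l dr rr dl ll w kr kl :=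
  ⟨t.h.symm, t.sp', t.sp⟩

lemma LDt.tdt (t : LDt K l x dl ll dr rr w kl kr) :
    TDt K x 4 l dr rr w (RR w kr) kr :=
  ⟨t.h.right, t.h.w0, t.h.w1, t.sp⟩

lemma LDt.rel (t : LDt K l x dl ll dr rr w kl kr) {E : ℂ}
    (hE : E = cexp (2 * Real.pi * I * yH l (RR w kl) (Complex.cos w))) :
    E * (Hq l (RR w kl) (Complex.cos w) - I) = Hq l (RR w kl) (Complex.cos w) + I := by
  have hc := ne_of_re t.h.left.kre
  have hR : 0 < (RR w kl).re := r0_pos.trans t.h.left.Rre
  rw [hE]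
  unfold yH
  by_cases hl : l = .s
  · subst hl
    rw [Hq_s]
    have hRI : RR w kl + I ≠ 0 := by
      intro h
      exact (ne_I_of_re hR).2 (by linear_combination h)
    have h2 := t.sp' rfl
    exact exp_acot2 (Sp_ne_I hRI hc) (ne_nI_of_half h2)
  · rw [Hq_of_ne hl]
    exact exp_acot2 (ne_I_of_re hR).1 (ne_I_of_re hR).2

/-- the exponential of the other hinge -/
lemma LDt.expL (t : LDt K l x dl ll dr rr w kl kr) (H : List QC) :
    cexp (2 * Real.pi * I * yH l (RR w kl) (Complex.cos w)) *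
      (tLx x H).M.val (RR w kr) (Complex.tan w) =
      (tLx x H).N.val (RR w kr) (Complex.tan w) := by
  have hE := t.rel rfl
  have hT : Complex.tan w ≠ 0 := by
    intro h
    have := t.h.tan_re
    rw [h] at this
    exact lt_irrefl _ this
  have hc := ne_of_re t.h.left.kre
  have hR : 0 < (RR w kr).re := r0_pos.trans t.h.right.Rre
  have hre := t.h.reH
  by_cases hx : x = .s
  · subst hx
    rw [Hq_s] at hre
    have hRI : RR w kr + I ≠ 0 := by
      intro h
      exact (ne_I_of_re hR).2 (by linear_combination h)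
    change _ * (Ev.gm 0 1 0 0 tl6).val _ _ = (Ev.mul tq tl4).val _ _
    rw [val_neg1, val_q]
    exact left_s hE hT hRI (tan_sq hc) hre
  · rw [Hq_of_ne hx] at hre
    have e : tLx x H = ⟨.mul tq tl3, .gm 0 1 0 0 tl5, (rfl : 5 = 5), H⟩ := by
      cases x
      · rfl
      · rfl
      · rfl
      · exact absurd rfl hx
    rw [e]
    change _ * (Ev.gm 0 1 0 0 tl5).val _ _ = (Ev.mul tq tl3).val _ _
    rw [val_neg1, val_q]
    exact left_u hE hT hre

/-- the exponential of the other hinge minus the ring variable -/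
lemma LDt.expM (t : LDt K l x dl ll dr rr w kl kr) (H : List QC) :
    cexp (2 * Real.pi * I * (yH l (RR w kl) (Complex.cos w) - zeta w)) *
      (tMx x H).M.val (RR w kr) (Complex.tan w) =
      (tMx x H).N.val (RR w kr) (Complex.tan w) := by
  have e1 := t.expL H
  have e2 := expZ (R := RR w kr) t.h.left.kre H
  have e3 : 2 * Real.pi * I * (yH l (RR w kl) (Complex.cos w) - zeta w) =
      2 * Real.pi * I * yH l (RR w kl) (Complex.cos w) + 2 * Real.pi * I * (-zeta w) := by ring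
  rw [e3, Complex.exp_add]
  change _ * Ev.zm.val _ _ = Ev.zp.val _ _ at e2
  by_cases hx : x = .s
  · subst hx
    change _ * (Ev.gm 0 1 0 0 tl6).val _ _ = (Ev.mul tq tl4).val _ _ at e1
    change _ * ((Ev.gm 0 1 0 0 tl6).val _ _ * Ev.zm.val _ _) =
      (Ev.mul tq tl4).val _ _ * Ev.zp.val _ _
    rw [← e1, ← e2]
    ring
  · have e : tLx x H = ⟨.mul tq tl3, .gm 0 1 0 0 tl5, (rfl : 5 = 5), H⟩ := by
      cases x
      · rfl
      · rfl
      · rfl
      · exact absurd rfl hx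
    have e' : tMx x H = ⟨.mul (.mul tq tl3) zp, .mul (.gm 0 1 0 0 tl5) zm, (rfl : 6 = 6), H⟩ := by
      cases x
      · rfl
      · rfl
      · rfl
      · exact absurd rfl hx
    rw [e] at e1
    rw [e']
    change _ * (Ev.gm 0 1 0 0 tl5).val _ _ = (Ev.mul tq tl3).val _ _ at e1
    change _ * ((Ev.gm 0 1 0 0 tl5).val _ _ * Ev.zm.val _ _) =
      (Ev.mul tq tl3).val _ _ * Ev.zp.val _ _
    rw [← e1, ← e2]
    ring

/-- the bounds of a row with the hinge on the other side -/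
theorem tuseL (hK : KOK K) (t : LDt K l x dl ll dr rr w kl kr) {B B' : ℕ} (hB : crs 4 l x = B)
    (hB' : crs dr x rr = B') {gi ui li ul : List GC} {o : List QC} {L : List Grp}
    {o' : List QC} {L' : List Grp} {gy gz gu gl : List GC} {n code : ℕ}
    (hr : trowOkL x gi ui li ul o L o' L' gy gz gu gl n code = true)
    (hi : ∀ g ∈ gi, g.G (yH x (RR w kr) (Complex.cos w)))
    (hu : ∀ g ∈ ui, g.G (yH x (RR w kr) (Complex.cos w) - zeta w))
    (hli : ∀ g ∈ li, g.G (yH l (RR w kl) (Complex.cos w)))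
    (hul : ∀ g ∈ ul, g.G (yH l (RR w kl) (Complex.cos w) - zeta w))
    (ho : InH (K.K 4 l x) o) (ho' : InH (K.K dr rr x) o')
    (hL : ∀ {q q' : ℂ}, Complex.tan w ^ 2 + 1 = q → RR w kr ^ 2 + 1 - q = q' →
      Out I B (RR w kr) q q' (port K 4 B l) → Out I B (RR w kr) q q' (some {kl}) →
      AllOk (RR w kr) (Complex.tan w) L)
    (hL' : OR x dr B' rr L') :
    (∀ g ∈ gy, g.P (yH x (RR w kr) (Complex.cos w))) ∧ (∀ g ∈ gz, g.P (-zeta w)) ∧
      (∀ g ∈ gu, g.P (yH x (RR w kr) (Complex.cos w) - zeta w)) ∧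
      ∀ g ∈ gl, g.P (yH l (RR w kl) (Complex.cos w)) := by
  subst hB hB'
  have T := t.tdt
  have hc := T.h.kre
  have hc0 := ne_of_re hc
  have hT := tan_sq hc0
  have hR : 0 < (RR w kr).re := r0_pos.trans T.h.Rre
  have hq : RR w kr ^ 2 + 1 - 1 / Complex.cos w ^ 2 = 1 / kr ^ 2 := by
    rw [T.h.hinge]
    ring
  have hm' := T.h.mem'
  have h1 := inH_ownR (x := x) ho'
  rw [← K.symm] at h1
  have hT0 : Complex.tan w ≠ 0 := by
    intro h
    have := t.h.tan_re
    rw [h] at this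
    exact lt_irrefl _ this
  have hkl0 : kl ≠ 0 := ne_of_re t.h.left.kre'
  have ht : Out I (crs 4 l x) (RR w kr) (1 / Complex.cos w ^ 2) (1 / kr ^ 2) (some {kl}) := by
    refine ⟨kl, rfl, ?_⟩
    have h3 := DB_sq (q := 1 / Complex.cos w ^ 2) (q' := 1 / kr ^ 2) (q'' := 1 / kl ^ 2)
      Complex.I_mul_I hT0 (by rw [← hT]; ring) (by rw [T.h.hinge]) (by rw [t.h.left.hinge])
      t.h.re.symm
    field_simp at h3 ⊢
    linear_combination -h3
  unfold trowOkL at hr
  rw [Bool.and_eq_true, Bool.and_eq_true, Bool.and_eq_true, Bool.and_eq_true, Bool.and_eq_true,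
    Bool.and_eq_true, Bool.and_eq_true, Bool.and_eq_true] at hr
  obtain ⟨hrow, ⟨⟨⟨⟨⟨⟨k1, k2⟩, k3⟩, k4⟩, k5⟩, k6⟩, k7⟩, k8⟩ := hr
  have hl : AllOk (RR w kr) (Complex.tan w) (tsL x gi ui li ul o L o' L') := by
    refine AllOk.cons ?_ (AllOk.cons ?_ (AllOk.cons ?_ (AllOk.cons ?_ (AllOk.cons
      (tl_ok hc0 hT (ho _ T.h.mem)) (AllOk.cons (tr_ok (ne_of_re T.h.kre') hT hq (h1 kr hm'))
      ((hL hT hq T.h.out ht).append (hL' hK hT hq T.h.out')))))))
    · refine ⟨_, expY hc hR t.sp _, ?_⟩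
      have eH : (tYx x (gi.map GC.qi)).H = gi.map GC.qi := by cases x <;> rfl
      rw [eH]
      intro Q hQ
      obtain ⟨g, hg, rfl⟩ := List.mem_map.1 hQ
      exact GC.imp (List.all_eq_true.1 k1 g hg) (hi g hg)
    · refine ⟨_, expU hc hR t.sp _, ?_⟩
      have eH : (tUx x (ui.map GC.qi)).H = ui.map GC.qi := by cases x <;> rfl
      rw [eH]
      intro Q hQ
      obtain ⟨g, hg, rfl⟩ := List.mem_map.1 hQ
      exact GC.imp (List.all_eq_true.1 k2 g hg) (hu g hg)
    · refine ⟨_, t.expL _, ?_⟩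
      have eH : (tLx x (li.map GC.qi)).H = li.map GC.qi := by cases x <;> rfl
      rw [eH]
      intro Q hQ
      obtain ⟨g, hg, rfl⟩ := List.mem_map.1 hQ
      exact GC.imp (List.all_eq_true.1 k3 g hg) (hli g hg)
    · refine ⟨_, t.expM _, ?_⟩
      have eH : (tMx x (ul.map GC.qi)).H = ul.map GC.qi := by cases x <;> rfl
      rw [eH]
      intro Q hQ
      obtain ⟨g, hg, rfl⟩ := List.mem_map.1 hQ
      exact GC.imp (List.all_eq_true.1 k4 g hg) (hul g hg)
  have hm := rootT_mem hK T.h hT (tan_re t.h.w0 t.h.w1)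
  refine ⟨fun g hg => ?_, fun g hg => ?_, fun g hg => ?_, fun g hg => ?_⟩
  · have eH : (tYx x (gy.map GC.q)).H = gy.map GC.q := by cases x <;> rfl
    exact GC.spec (List.all_eq_true.1 k5 g hg) (row_sound hrow hm hl
      (g := tYx x (gy.map GC.q)) (by simp [goT]) (expY hc hR t.sp _) g.q
      (by rw [eH]; exact List.mem_map_of_mem hg))
  · exact GC.spec (List.all_eq_true.1 k6 g hg) (row_sound hrow hm hl
      (g := tZ (gz.map GC.q)) (by simp [goT]) (expZ hc _) g.q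
      (List.mem_map_of_mem hg))
  · have eH : (tUx x (gu.map GC.q)).H = gu.map GC.q := by cases x <;> rfl
    exact GC.spec (List.all_eq_true.1 k7 g hg) (row_sound hrow hm hl
      (g := tUx x (gu.map GC.q)) (by simp [goT]) (expU hc hR t.sp _) g.q
      (by rw [eH]; exact List.mem_map_of_mem hg))
  · have eH : (tLx x (gl.map GC.q)).H = gl.map GC.q := by cases x <;> rfl
    exact GC.spec (List.all_eq_true.1 k8 g hg) (row_sound hrow hm hl
      (g := tLx x (gl.map GC.q)) (by simp [goT]) (t.expL _) g.q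
      (by rw [eH]; exact List.mem_map_of_mem hg))

end

end

end Pool.Agent.Work.MP_b30479_gt.G2.CN.TD
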