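import Pool.Agent.Work.MP_b30479_gt.G2.CN.TMis
import Pool.Agent.Work.MP_b30479_gt.G2.CN.TAlt

/-!
# Rows with the hinge on the other side, for all digits

`lg_u`, `lg_s`: the exponential of the other hinge of a region with the digit `d` is a quotient of
two ring polynomials in the variables of a hinge; `trowOkB`: the check of a row with conditions for
the hinge, the ring variable, their difference and the other hinge, and with alternatives.
-/

namespace Pool.Agent.Work.MP_b30479_gt.G2.CN.TD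

open Complex SR Ev
open scoped ComplexConjugate

noncomputable section

lemma val_tl7 (u w : ℂ) : 2 * tl7.val u w = DB I 7 u (w ^ 2 + 1) := by
  change 2 * (gz 0 0 1 0 * u * (gz 7 0 0 0 + (21 : ℕ) * (w ^ 2) ^ 2 -
    ((35 : ℕ) * w ^ 2 + (w ^ 2) ^ 2 * w ^ 2)) - (one.val u w + (35 : ℕ) * (w ^ 2) ^ 2 -
    ((21 : ℕ) * w ^ 2 + (7 : ℕ) * ((w ^ 2) ^ 2 * w ^ 2)))) = _
  rw [gz_nat, gz_I, val_one]
  simp only [DB, cab]
  push_cast
  ring

lemma val_tl8 (u w : ℂ) : 2 * tl8.val u w = DB I 8 u (w ^ 2 + 1) := by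
  change 2 * (gz 0 0 8 0 * u * ((one.val u w - w ^ 2) * ((w ^ 2) ^ 2 - (6 : ℕ) * w ^ 2 +
    one.val u w)) - (one.val u w + (70 : ℕ) * (w ^ 2) ^ 2 + ((w ^ 2) ^ 2) ^ 2 -
    ((28 : ℕ) * w ^ 2 + (28 : ℕ) * ((w ^ 2) ^ 2 * w ^ 2)))) = _
  rw [gz_I, val_one]
  simp only [DB, cab]
  push_cast
  ring

/-! ### the exponential of the other hinge -/

/-- the other hinge, unsplit -/
lemma left_ug {n : ℕ} {E Yl R T : ℂ} (hE : E * (Yl - I) = Yl + I) (hT : T ≠ 0)
    (h : RE I (n + 1) Yl R T) :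
    E * -(DB I (n + 2) R (T ^ 2 + 1)) = (T ^ 2 + 1) * DB I n R (T ^ 2 + 1) := by
  have h1 := RE_lin (q := T ^ 2 + 1) Complex.I_mul_I hT (by ring) h.symm
  simp only [DB, cab] at h1 ⊢
  set c := (cab (T ^ 2 + 1 - 1) n).1
  set s := (cab (T ^ 2 + 1 - 1) n).2
  set D : ℂ := (c - T ^ 2 * s) - R * (I * (c + s)) with hD
  set N : ℂ := T ^ 2 * (I * (c + s)) - R * (c - T ^ 2 * s) with hN
  have h2 : Yl * D = N := by
    rw [hD, hN]
    linear_combination h1
  have h3 : E * (N - I * D) = N + I * D := by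
    rw [← h2]
    linear_combination D * hE
  have h4 : N - I * D = I * (I * R * (c - T ^ 2 * s + (c + s)) -
      (c - T ^ 2 * s - T ^ 2 * (c + s))) := by
    rw [hD, hN]
    linear_combination (R * (c + s) - R * (c - T ^ 2 * s + (c + s))) * Complex.I_mul_I
  have h5 : N + I * D = -I * ((T ^ 2 + 1) * (I * R * s - c)) := by
    rw [hD, hN]
    linear_combination (-R * (c + s) + (T ^ 2 + 1) * R * s) * Complex.I_mul_I
  rw [h4, h5] at h3
  apply mul_left_cancel₀ Complex.I_ne_zero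
  linear_combination -2 * h3

/-- the other hinge, the first hinge split -/
lemma left_sg {n : ℕ} {E Yl R k T : ℂ} (hE : E * (Yl - I) = Yl + I) (hT : T ≠ 0)
    (hRI : R + I ≠ 0) (hk : T ^ 2 + 1 = 1 / k ^ 2) (h : RE I n Yl (Sp R k) T) :
    E * -(DB I (n + 2) R (T ^ 2 + 1)) = (T ^ 2 + 1) * DB I n R (T ^ 2 + 1) := by
  have h1 := RE_lin (q := T ^ 2 + 1) Complex.I_mul_I hT (by ring) h.symm
  have hS : Sp R k * (R + I) = I * R + T ^ 2 := by
    unfold Sp
    rw [div_mul_cancel₀ _ hRI, ← hk]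
    ring
  simp only [DB, cab] at h1 ⊢
  set c := (cab (T ^ 2 + 1 - 1) n).1
  set s := (cab (T ^ 2 + 1 - 1) n).2
  set S := Sp R k
  set D : ℂ := (R + I) * c - (I * R + T ^ 2) * (I * s) with hD
  set N : ℂ := (R + I) * (T ^ 2 * (I * s)) - (I * R + T ^ 2) * c with hN
  have h2 : Yl * D = N := by
    rw [hD, hN]
    linear_combination (R + I) * h1 + (Yl * I * s - c) * hS
  have h3 : E * (N - I * D) = N + I * D := by
    rw [← h2]
    linear_combination D * hE
  have h4 : N - I * D = -(I * R * (c - T ^ 2 * s + (c + s)) -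
      (c - T ^ 2 * s - T ^ 2 * (c + s))) + 0 * (R + I) := by
    rw [hD, hN]
    linear_combination (R * s * I + (2 * T ^ 2 * s - c)) * Complex.I_mul_I
  have h5 : N + I * D = (T ^ 2 + 1) * (I * R * s - c) := by
    rw [hD, hN]
    linear_combination (-R * s * I + c) * Complex.I_mul_I
  rw [h4, h5] at h3
  linear_combination 2 * h3

section
variable {K : KFam} {d : ℕ} {l x : SK} {dl : ℕ} {ll : SK} {dr : ℕ} {rr : SK} {w kl kr : ℂ}

lemma rel_left (Bx : BoxRows K) (t : RDt K d l x dl ll dr rr w kl kr) :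
    cexp (2 * Real.pi * I * yH l (RR w kl) (Complex.cos w)) *
      (Hq l (RR w kl) (Complex.cos w) - I) = Hq l (RR w kl) (Complex.cos w) + I := by
  have hc := ne_of_re t.left.kre
  have hR : 0 < (RR w kl).re := r0_pos.trans t.left.Rre
  unfold yH
  by_cases hl : l = .s
  · subst hl
    rw [Hq_s]
    exact exp_acot2 (Sp_ne_I (by
      intro h
      exact (ne_I_of_re hR).2 (by linear_combination h)) hc) (ne_nI_of_half (Bx.sp t.left).2)
  · rw [Hq_of_ne hl]
    exact exp_acot2 (ne_I_of_re hR).1 (ne_I_of_re hR).2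

lemma tan_ne (t : RDt K d l x dl ll dr rr w kl kr) : Complex.tan w ≠ 0 := by
  intro h
  have := t.tan_re
  rw [h] at this
  exact lt_irrefl _ this

/-- the exponential of the other hinge, this hinge not split -/
lemma lg_u (Bx : BoxRows K) {n : ℕ} {A B : Ev}
    (hA : ∀ u w : ℂ, 2 * A.val u w = DB I n u (w ^ 2 + 1))
    (hB : ∀ u w : ℂ, 2 * B.val u w = DB I (n + 2) u (w ^ 2 + 1))
    (t : RDt K (n + 1) l x dl ll dr rr w kl kr) (hx : x ≠ .s) :
    cexp (2 * Real.pi * I * yH l (RR w kl) (Complex.cos w)) *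
      (Ev.gm 0 1 0 0 B).val (RR w kr) (Complex.tan w) =
      (Ev.mul tq A).val (RR w kr) (Complex.tan w) := by
  have hre := t.reH
  rw [Hq_of_ne hx] at hre
  have h := left_ug (rel_left Bx t) (tan_ne t) hre
  have a := hA (RR w kr) (Complex.tan w)
  have b := hB (RR w kr) (Complex.tan w)
  rw [val_neg1, val_q]
  rw [← a, ← b] at h
  apply mul_left_cancel₀ (two_ne_zero : (2 : ℂ) ≠ 0)
  linear_combination h

/-- the exponential of the other hinge, this hinge split -/
lemma lg_s (Bx : BoxRows K) {n : ℕ} {A B : Ev}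
    (hA : ∀ u w : ℂ, 2 * A.val u w = DB I n u (w ^ 2 + 1))
    (hB : ∀ u w : ℂ, 2 * B.val u w = DB I (n + 2) u (w ^ 2 + 1))
    (t : RDt K n l .s dl ll dr rr w kl kr) :
    cexp (2 * Real.pi * I * yH l (RR w kl) (Complex.cos w)) *
      (Ev.gm 0 1 0 0 B).val (RR w kr) (Complex.tan w) =
      (Ev.mul tq A).val (RR w kr) (Complex.tan w) := by
  have hre := t.reH
  rw [Hq_s] at hre
  have hR : 0 < (RR w kr).re := r0_pos.trans t.right.Rre
  have hRI : RR w kr + I ≠ 0 := by
    intro h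
    exact (ne_I_of_re hR).2 (by linear_combination h)
  have h := left_sg (rel_left Bx t) (tan_ne t) hRI (tan_sq (ne_of_re t.left.kre)) hre
  have a := hA (RR w kr) (Complex.tan w)
  have b := hB (RR w kr) (Complex.tan w)
  rw [val_neg1, val_q]
  rw [← a, ← b] at h
  apply mul_left_cancel₀ (two_ne_zero : (2 : ℂ) ≠ 0)
  linear_combination h

end

/-! ### the groups -/

/-- the digits for which the other hinge is available -/
def LgD (d : ℕ) : Prop := d = 3 ∨ d = 4 ∨ d = 5 ∨ d = 6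

lemma tLg_H {d : ℕ} (hd : LgD d) (x : SK) (H : List QC) : (tLg d x H).H = H := by
  rcases hd with rfl | rfl | rfl | rfl <;> cases x <;> rfl

section
variable {K : KFam} {d : ℕ} {l x : SK} {dl : ℕ} {ll : SK} {dr : ℕ} {rr : SK} {w kl kr : ℂ}

/-- the exponential of the other hinge -/
lemma expLg (Bx : BoxRows K) (hd : LgD d) (t : RDt K d l x dl ll dr rr w kl kr) (H : List QC) :
    cexp (2 * Real.pi * I * yH l (RR w kl) (Complex.cos w)) *
      (tLg d x H).M.val (RR w kr) (Complex.tan w) =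
      (tLg d x H).N.val (RR w kr) (Complex.tan w) := by
  rcases hd with rfl | rfl | rfl | rfl <;> cases x
  · exact lg_u Bx val_tl2 val_tl4 t (by decide)
  · exact lg_u Bx val_tl2 val_tl4 t (by decide)
  · exact lg_u Bx val_tl2 val_tl4 t (by decide)
  · exact lg_s Bx val_tl3 val_tl5 t
  · exact lg_u Bx val_tl3 val_tl5 t (by decide)
  · exact lg_u Bx val_tl3 val_tl5 t (by decide)
  · exact lg_u Bx val_tl3 val_tl5 t (by decide)
  · exact lg_s Bx val_tl4 val_tl6 t
  · exact lg_u Bx val_tl4 val_tl6 t (by decide)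
  · exact lg_u Bx val_tl4 val_tl6 t (by decide)
  · exact lg_u Bx val_tl4 val_tl6 t (by decide)
  · exact lg_s Bx val_tl5 val_tl7 t
  · exact lg_u Bx val_tl5 val_tl7 t (by decide)
  · exact lg_u Bx val_tl5 val_tl7 t (by decide)
  · exact lg_u Bx val_tl5 val_tl7 t (by decide)
  · exact lg_s Bx val_tl6 val_tl8 t

end

/-! ### rows -/

/-- the check of a row; `gl`: goals for the other hinge; `al`: alternatives -/
def trowOkB (d : ℕ) (x : SK) (gi zi ui li : List GC) (o : List QC) (L : List Grp) (o' : List QC)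
    (L' : List Grp) (gy gz gu gl : List GC) (al : List (GC × GC)) (n code : ℕ) : Bool :=
  rowA (tsB d x gi zi ui li o L o' L') (goT x gy gz gu ++ [tLg d x (gl.map GC.q)]) (tZ [])
      (tUx x []) (al.map fun p => (p.1.q, p.2.q)) n code rootT &&
    (gi.all GC.oki && zi.all GC.oki && ui.all GC.oki && li.all GC.oki && gy.all GC.ok &&
      gz.all GC.ok && gu.all GC.ok && gl.all GC.ok && al.all fun p => p.1.ok && p.2.ok)

section
variable {K : KFam} {d : ℕ} {l x : SK} {dl : ℕ} {ll : SK} {dr : ℕ} {rr : SK} {w kl kr : ℂ}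

/-- **The bounds of a row.** -/
theorem tuseB (hK : KOK K) (Bx : BoxRows K) (hd : LgD d) (t : RDt K d l x dl ll dr rr w kl kr)
    {gi zi ui li : List GC} {o : List QC} {L : List Grp}
    {o' : List QC} {L' : List Grp} {gy gz gu gl : List GC} {al : List (GC × GC)} {n code : ℕ}
    (hr : trowOkB d x gi zi ui li o L o' L' gy gz gu gl al n code = true)
    (hi : ∀ g ∈ gi, g.G (yH x (RR w kr) (Complex.cos w)))
    (hzi : ∀ g ∈ zi, g.G (-zeta w))
    (hui : ∀ g ∈ ui, g.G (yH x (RR w kr) (Complex.cos w) - zeta w))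
    (hli : ∀ g ∈ li, g.G (yH l (RR w kl) (Complex.cos w)))
    (ho : InH (K.K d l x) o) (ho' : InH (K.K dr rr x) o')
    (hL : AllOk (RR w kr) (Complex.tan w) L) (hL' : AllOk (RR w kr) (Complex.tan w) L') :
    ((∀ g ∈ gy, g.P (yH x (RR w kr) (Complex.cos w))) ∧ (∀ g ∈ gz, g.P (-zeta w)) ∧
      (∀ g ∈ gu, g.P (yH x (RR w kr) (Complex.cos w) - zeta w)) ∧
      ∀ g ∈ gl, g.P (yH l (RR w kl) (Complex.cos w))) ∧
      ∃ p ∈ al, p.1.P (-zeta w) ∧ p.2.P (yH x (RR w kr) (Complex.cos w) - zeta w) := by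
  have T := RDt.tdt Bx t
  have hc := T.h.kre
  have hc0 := ne_of_re hc
  have hT := tan_sq hc0
  have hR : 0 < (RR w kr).re := r0_pos.trans T.h.Rre
  have hq : RR w kr ^ 2 + 1 - 1 / Complex.cos w ^ 2 = 1 / kr ^ 2 := by
    rw [T.h.hinge]
    ring
  have hm' := T.h.mem'
  have h1 := inH_ownR (x := x) ho'
  rw [← K.symm] at h1
  unfold trowOkB at hr
  rw [Bool.and_eq_true, Bool.and_eq_true, Bool.and_eq_true, Bool.and_eq_true, Bool.and_eq_true,
    Bool.and_eq_true, Bool.and_eq_true, Bool.and_eq_true, Bool.and_eq_true] at hr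
  obtain ⟨hrow, ⟨⟨⟨⟨⟨⟨⟨k1, k2⟩, k3⟩, k4⟩, k5⟩, k6⟩, k7⟩, k8⟩, k9⟩ := hr
  have hl : AllOk (RR w kr) (Complex.tan w) (tsB d x gi zi ui li o L o' L') := by
    refine AllOk.cons ?_ (AllOk.cons ?_ (AllOk.cons ?_ (AllOk.cons
      (tl_ok hc0 hT (ho _ T.h.mem)) (AllOk.cons (tr_ok (ne_of_re T.h.kre') hT hq (h1 kr hm'))
      (AllOk.cons ?_ (hL.append hL'))))))
    · refine ⟨_, expY hc hR T.sp _, ?_⟩
      have eH : (tYx x (gi.map GC.qi)).H = gi.map GC.qi := by cases x <;> rfl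
      rw [eH]
      intro Q hQ
      obtain ⟨g, hg, rfl⟩ := List.mem_map.1 hQ
      exact GC.imp (List.all_eq_true.1 k1 g hg) (hi g hg)
    · refine ⟨_, expU hc hR T.sp _, ?_⟩
      have eH : (tUx x (ui.map GC.qi)).H = ui.map GC.qi := by cases x <;> rfl
      rw [eH]
      intro Q hQ
      obtain ⟨g, hg, rfl⟩ := List.mem_map.1 hQ
      exact GC.imp (List.all_eq_true.1 k3 g hg) (hui g hg)
    · refine ⟨_, expLg Bx hd t _, ?_⟩
      rw [tLg_H hd]
      intro Q hQ
      obtain ⟨g, hg, rfl⟩ := List.mem_map.1 hQ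
      exact GC.imp (List.all_eq_true.1 k4 g hg) (hli g hg)
    · refine ⟨_, expZ hc _, ?_⟩
      intro Q hQ
      obtain ⟨g, hg, rfl⟩ := List.mem_map.1 hQ
      exact GC.imp (List.all_eq_true.1 k2 g hg) (hzi g hg)
  have hm := rootT_mem hK T.h hT (tan_re T.w0 T.w1)
  obtain ⟨hgo, hal⟩ := rowA_sound hrow hm hl (expZ hc _) (expU hc hR T.sp _)
  refine ⟨⟨fun g hg => ?_, fun g hg => ?_, fun g hg => ?_, fun g hg => ?_⟩, alt_ok k9 hal⟩
  · have eH : (tYx x (gy.map GC.q)).H = gy.map GC.q := by cases x <;> rfl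
    exact GC.spec (List.all_eq_true.1 k5 g hg) (hgo (tYx x (gy.map GC.q)) (by simp [goT]) _
      (expY hc hR T.sp _) g.q (by rw [eH]; exact List.mem_map_of_mem hg))
  · exact GC.spec (List.all_eq_true.1 k6 g hg) (hgo (tZ (gz.map GC.q)) (by simp [goT]) _
      (expZ hc _) g.q (List.mem_map_of_mem hg))
  · have eH : (tUx x (gu.map GC.q)).H = gu.map GC.q := by cases x <;> rfl
    exact GC.spec (List.all_eq_true.1 k7 g hg) (hgo (tUx x (gu.map GC.q)) (by simp [goT]) _
      (expU hc hR T.sp _) g.q (by rw [eH]; exact List.mem_map_of_mem hg))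
  · exact GC.spec (List.all_eq_true.1 k8 g hg) (hgo (tLg d x (gl.map GC.q)) (by simp [goT]) _
      (expLg Bx hd t _) g.q (by rw [tLg_H hd]; exact List.mem_map_of_mem hg))

end

section
variable {K : KFam} {d : ℕ} {l x : SK} {dl : ℕ} {ll : SK} {dr : ℕ} {rr : SK} {w kl kr : ℂ}

/-- **The bounds of a row.** -/
theorem tuseC (hK : KOK K) (Bx : BoxRows K) (hd : LgD d) (t : RDt K d l x dl ll dr rr w kl kr)
    {gi zi ui li : List GC} {o : List QC} {L : List Grp}
    {o' : List QC} {L' : List Grp} {gy gz gu gl : List GC} {n code : ℕ}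
    (hr : trowOkC d x gi zi ui li o L o' L' gy gz gu gl n code = true)
    (hi : ∀ g ∈ gi, g.G (yH x (RR w kr) (Complex.cos w)))
    (hzi : ∀ g ∈ zi, g.G (-zeta w))
    (hui : ∀ g ∈ ui, g.G (yH x (RR w kr) (Complex.cos w) - zeta w))
    (hli : ∀ g ∈ li, g.G (yH l (RR w kl) (Complex.cos w)))
    (ho : InH (K.K d l x) o) (ho' : InH (K.K dr rr x) o')
    (hL : AllOk (RR w kr) (Complex.tan w) L) (hL' : AllOk (RR w kr) (Complex.tan w) L') :
    (∀ g ∈ gy, g.P (yH x (RR w kr) (Complex.cos w))) ∧ (∀ g ∈ gz, g.P (-zeta w)) ∧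
      (∀ g ∈ gu, g.P (yH x (RR w kr) (Complex.cos w) - zeta w)) ∧
      ∀ g ∈ gl, g.P (yH l (RR w kl) (Complex.cos w)) := by
  have T := RDt.tdt Bx t
  have hc := T.h.kre
  have hc0 := ne_of_re hc
  have hT := tan_sq hc0
  have hR : 0 < (RR w kr).re := r0_pos.trans T.h.Rre
  have hq : RR w kr ^ 2 + 1 - 1 / Complex.cos w ^ 2 = 1 / kr ^ 2 := by
    rw [T.h.hinge]
    ring
  have hm' := T.h.mem'
  have h1 := inH_ownR (x := x) ho'
  rw [← K.symm] at h1
  unfold trowOkC at hr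
  rw [Bool.and_eq_true, Bool.and_eq_true, Bool.and_eq_true, Bool.and_eq_true, Bool.and_eq_true,
    Bool.and_eq_true, Bool.and_eq_true, Bool.and_eq_true] at hr
  obtain ⟨hrow, ⟨⟨⟨⟨⟨⟨k1, k2⟩, k3⟩, k4⟩, k5⟩, k6⟩, k7⟩, k8⟩ := hr
  have hl : AllOk (RR w kr) (Complex.tan w) (tsB d x gi zi ui li o L o' L') := by
    refine AllOk.cons ?_ (AllOk.cons ?_ (AllOk.cons ?_ (AllOk.cons
      (tl_ok hc0 hT (ho _ T.h.mem)) (AllOk.cons (tr_ok (ne_of_re T.h.kre') hT hq (h1 kr hm'))
      (AllOk.cons ?_ (hL.append hL'))))))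
    · refine ⟨_, expY hc hR T.sp _, ?_⟩
      have eH : (tYx x (gi.map GC.qi)).H = gi.map GC.qi := by cases x <;> rfl
      rw [eH]
      intro Q hQ
      obtain ⟨g, hg, rfl⟩ := List.mem_map.1 hQ
      exact GC.imp (List.all_eq_true.1 k1 g hg) (hi g hg)
    · refine ⟨_, expU hc hR T.sp _, ?_⟩
      have eH : (tUx x (ui.map GC.qi)).H = ui.map GC.qi := by cases x <;> rfl
      rw [eH]
      intro Q hQ
      obtain ⟨g, hg, rfl⟩ := List.mem_map.1 hQ
      exact GC.imp (List.all_eq_true.1 k3 g hg) (hui g hg)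
    · refine ⟨_, expLg Bx hd t _, ?_⟩
      rw [tLg_H hd]
      intro Q hQ
      obtain ⟨g, hg, rfl⟩ := List.mem_map.1 hQ
      exact GC.imp (List.all_eq_true.1 k4 g hg) (hli g hg)
    · refine ⟨_, expZ hc _, ?_⟩
      intro Q hQ
      obtain ⟨g, hg, rfl⟩ := List.mem_map.1 hQ
      exact GC.imp (List.all_eq_true.1 k2 g hg) (hzi g hg)
  have hm := rootT_mem hK T.h hT (tan_re T.w0 T.w1)
  refine ⟨fun g hg => ?_, fun g hg => ?_, fun g hg => ?_, fun g hg => ?_⟩
  · have eH : (tYx x (gy.map GC.q)).H = gy.map GC.q := by cases x <;> rfl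
    exact GC.spec (List.all_eq_true.1 k5 g hg) (row_sound hrow hm hl
      (g := tYx x (gy.map GC.q)) (by simp [goT]) (expY hc hR T.sp _) g.q
      (by rw [eH]; exact List.mem_map_of_mem hg))
  · exact GC.spec (List.all_eq_true.1 k6 g hg) (row_sound hrow hm hl
      (g := tZ (gz.map GC.q)) (by simp [goT]) (expZ hc _) g.q (List.mem_map_of_mem hg))
  · have eH : (tUx x (gu.map GC.q)).H = gu.map GC.q := by cases x <;> rfl
    exact GC.spec (List.all_eq_true.1 k7 g hg) (row_sound hrow hm hl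
      (g := tUx x (gu.map GC.q)) (by simp [goT]) (expU hc hR T.sp _) g.q
      (by rw [eH]; exact List.mem_map_of_mem hg))
  · exact GC.spec (List.all_eq_true.1 k8 g hg) (row_sound hrow hm hl
      (g := tLg d x (gl.map GC.q)) (by simp [goT]) (expLg Bx hd t _) g.q
      (by rw [tLg_H hd]; exact List.mem_map_of_mem hg))

end

/-! ### rows for a region with three crossings -/

/-- the groups of a row: conditions for the hinge (`gi`), the inner variable (`mi`), their
difference (`si`), the other hinge (`li`) -/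
def tsR (x : SK) (gi mi si li : List GC) (o : List QC) (L : List Grp) (o' : List QC)
    (L' : List Grp) : List Grp :=
  tYx x (gi.map GC.qi) :: tl o :: tr (ownR x o') ::
    (L ++ (L' ++ [tIx x (mi.map GC.qi), tJx x (si.map GC.qi), tLg 3 x (li.map GC.qi)]))

/-- the goals of a row -/
def goR (x : SK) (gy gm gs gl : List GC) : List Grp :=
  [tYx x (gy.map GC.q), tIx x (gm.map GC.q), tJx x (gs.map GC.q), tLg 3 x (gl.map GC.q)]

/-- the check of a row -/
def trowOkR (x : SK) (gi mi si li : List GC) (o : List QC) (L : List Grp) (o' : List QC)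
    (L' : List Grp) (gy gm gs gl : List GC) (n code : ℕ) : Bool :=
  row (tsR x gi mi si li o L o' L') (goR x gy gm gs gl) n code rootT &&
    (gi.all GC.oki && mi.all GC.oki && si.all GC.oki && li.all GC.oki && gy.all GC.ok &&
      gm.all GC.ok && gs.all GC.ok && gl.all GC.ok)

section
variable {K : KFam} {x r : SK} {dl : ℕ} {ll : SK} {dr : ℕ} {rr : SK} {w kl kr : ℂ}

/-- **The bounds of a row.** -/
theorem tuseR (hK : KOK K) (Bx : BoxRows K) (t : RDt K 3 x r dl ll dr rr w kl kr)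
    {gi mi si li : List GC} {o : List QC} {L : List Grp} {o' : List QC} {L' : List Grp}
    {gy gm gs gl : List GC} {n code : ℕ}
    (hr : trowOkR x gi mi si li o L o' L' gy gm gs gl n code = true)
    (hi : ∀ g ∈ gi, g.G (yH x (RR w kl) (Complex.cos w)))
    (hmi : ∀ g ∈ mi, g.G (mH x (RR w kl) (Complex.cos w)))
    (hsi : ∀ g ∈ si, g.G (mH x (RR w kl) (Complex.cos w) - yH x (RR w kl) (Complex.cos w)))
    (hli : ∀ g ∈ li, g.G (yH r (RR w kr) (Complex.cos w)))
    (ho : InH (K.K 3 r x) o) (ho' : InH (K.K dl ll x) o')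
    (hL : AllOk (RR w kl) (Complex.tan w) L) (hL' : AllOk (RR w kl) (Complex.tan w) L') :
    (∀ g ∈ gy, g.P (yH x (RR w kl) (Complex.cos w))) ∧
      (∀ g ∈ gm, g.P (mH x (RR w kl) (Complex.cos w))) ∧
      (∀ g ∈ gs, g.P (mH x (RR w kl) (Complex.cos w) - yH x (RR w kl) (Complex.cos w))) ∧
      ∀ g ∈ gl, g.P (yH r (RR w kr) (Complex.cos w)) := by
  have hd : LgD 3 := Or.inl rfl
  have hxe : x ≠ .e := t.left.ok.ne
  have hre : r ≠ .e := t.right.ok.ne
  obtain ⟨hu, hv'⟩ := re_halfx Bx t hxe hre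
  have hc := t.left.kre
  have hc0 := ne_of_re hc
  have hT := tan_sq hc0
  have hR : 0 < (RR w kl).re := r0_pos.trans t.left.Rre
  have hq : RR w kl ^ 2 + 1 - 1 / Complex.cos w ^ 2 = 1 / kl ^ 2 := by
    rw [t.left.hinge]
    ring
  have hm' := t.left.mem'
  have h1 := inH_ownR (x := x) ho'
  rw [← K.symm] at h1
  have hsp : x = .s → (acot2 (Sp (RR w kl) (Complex.cos w))).re < 1 / 2 := by
    intro hx
    subst hx
    exact (Bx.sp t.left).2
  unfold trowOkR at hr
  rw [Bool.and_eq_true, Bool.and_eq_true, Bool.and_eq_true, Bool.and_eq_true, Bool.and_eq_true,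
    Bool.and_eq_true, Bool.and_eq_true, Bool.and_eq_true] at hr
  obtain ⟨hrow, ⟨⟨⟨⟨⟨⟨k1, k2⟩, k3⟩, k4⟩, k5⟩, k6⟩, k7⟩, k8⟩ := hr
  have hl : AllOk (RR w kl) (Complex.tan w) (tsR x gi mi si li o L o' L') := by
    refine AllOk.cons ?_ (AllOk.cons (tl_ok hc0 hT (ho _ t.left.mem))
      (AllOk.cons (tr_ok (ne_of_re t.left.kre') hT hq (h1 kl hm'))
      (hL.append (hL'.append (AllOk.cons ?_ (AllOk.cons ?_ (AllOk.cons ?_ AllOk.nil)))))))
    · refine ⟨_, expY hc hR hsp _, ?_⟩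
      have eH : (tYx x (gi.map GC.qi)).H = gi.map GC.qi := by cases x <;> rfl
      rw [eH]
      intro Q hQ
      obtain ⟨g, hg, rfl⟩ := List.mem_map.1 hQ
      exact GC.imp (List.all_eq_true.1 k1 g hg) (hi g hg)
    · refine ⟨_, expI t hu hv' _, ?_⟩
      have eH : (tIx x (mi.map GC.qi)).H = mi.map GC.qi := by cases x <;> rfl
      rw [eH]
      intro Q hQ
      obtain ⟨g, hg, rfl⟩ := List.mem_map.1 hQ
      exact GC.imp (List.all_eq_true.1 k2 g hg) (hmi g hg)
    · refine ⟨_, expJ t hu hv' hsp _, ?_⟩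
      have eH : (tJx x (si.map GC.qi)).H = si.map GC.qi := by cases x <;> rfl
      rw [eH]
      intro Q hQ
      obtain ⟨g, hg, rfl⟩ := List.mem_map.1 hQ
      exact GC.imp (List.all_eq_true.1 k3 g hg) (hsi g hg)
    · refine ⟨_, expLg Bx hd t.symm _, ?_⟩
      rw [tLg_H hd]
      intro Q hQ
      obtain ⟨g, hg, rfl⟩ := List.mem_map.1 hQ
      exact GC.imp (List.all_eq_true.1 k4 g hg) (hli g hg)
  have hm := rootT_mem hK t.left hT (tan_re t.w0 t.w1)
  refine ⟨fun g hg => ?_, fun g hg => ?_, fun g hg => ?_, fun g hg => ?_⟩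
  · have eH : (tYx x (gy.map GC.q)).H = gy.map GC.q := by cases x <;> rfl
    exact GC.spec (List.all_eq_true.1 k5 g hg) (row_sound hrow hm hl
      (g := tYx x (gy.map GC.q)) (by simp [goR]) (expY hc hR hsp _) g.q
      (by rw [eH]; exact List.mem_map_of_mem hg))
  · have eH : (tIx x (gm.map GC.q)).H = gm.map GC.q := by cases x <;> rfl
    exact GC.spec (List.all_eq_true.1 k6 g hg) (row_sound hrow hm hl
      (g := tIx x (gm.map GC.q)) (by simp [goR]) (expI t hu hv' _) g.q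
      (by rw [eH]; exact List.mem_map_of_mem hg))
  · have eH : (tJx x (gs.map GC.q)).H = gs.map GC.q := by cases x <;> rfl
    exact GC.spec (List.all_eq_true.1 k7 g hg) (row_sound hrow hm hl
      (g := tJx x (gs.map GC.q)) (by simp [goR]) (expJ t hu hv' hsp _) g.q
      (by rw [eH]; exact List.mem_map_of_mem hg))
  · exact GC.spec (List.all_eq_true.1 k8 g hg) (row_sound hrow hm hl
      (g := tLg 3 x (gl.map GC.q)) (by simp [goR]) (expLg Bx hd t.symm _) g.q
      (by rw [tLg_H hd]; exact List.mem_map_of_mem hg))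

end

end

end Pool.Agent.Work.MP_b30479_gt.G2.CN.TD
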