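import Pool.Agent.Work.MP_b30479_gt.G2.CN.TLg

/-!
# Rows bounding the hinge by the difference of the heights

`trowOkK`: the check of a row with pairs (bound for the real part of the hinge, bound for the
difference of the heights).
-/

namespace Pool.Agent.Work.MP_b30479_gt.G2.CN.TD

open Complex SR Ev
open scoped ComplexConjugate

noncomputable section

section
variable {K : KFam} {d : ℕ} {l x : SK} {dl : ℕ} {ll : SK} {dr : ℕ} {rr : SK} {w kl kr : ℂ}

/-- **The bounds of a row.** -/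
theorem tuseK (hK : KOK K) (Bx : BoxRows K) (hd : LgD d) (t : RDt K d l x dl ll dr rr w kl kr)
    {gi zi ui li : List GC} {o : List QC} {L : List Grp}
    {o' : List QC} {L' : List Grp} {gy gz gu gl : List GC} {al : List (GC × GC)} {n code : ℕ}
    (hr : trowOkK d x gi zi ui li o L o' L' gy gz gu gl al n code = true)
    (hi : ∀ g ∈ gi, g.G (yH x (RR w kr) (Complex.cos w)))
    (hzi : ∀ g ∈ zi, g.G (-zeta w))
    (hui : ∀ g ∈ ui, g.G (yH x (RR w kr) (Complex.cos w) - zeta w))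
    (hli : ∀ g ∈ li, g.G (yH l (RR w kl) (Complex.cos w)))
    (ho : InH (K.K d l x) o) (ho' : InH (K.K dr rr x) o')
    (hL : AllOk (RR w kr) (Complex.tan w) L) (hL' : AllOk (RR w kr) (Complex.tan w) L') :
    ((∀ g ∈ gy, g.P (yH x (RR w kr) (Complex.cos w))) ∧ (∀ g ∈ gz, g.P (-zeta w)) ∧
      (∀ g ∈ gu, g.P (yH x (RR w kr) (Complex.cos w) - zeta w)) ∧
      ∀ g ∈ gl, g.P (yH l (RR w kl) (Complex.cos w))) ∧
      ∃ p ∈ al, p.1.P (yH x (RR w kr) (Complex.cos w)) ∧
        p.2.P (yH x (RR w kr) (Complex.cos w) - zeta w) := by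
  have T := RDt.tdt Bx t
  have hc := T.h.kre
  have hc0 := ne_of_re hc
  have hT := tan_sq hc0
  have hR : 0 < (RR w kr).re := r0_pos.trans T.h.Rre
  have hq : RR w kr ^ 2 + 1 - 1 / Complex.cos w ^ 2 = 1 / kr ^ 2 := by
    rw [T.h.hinge]
    ring
  have hm' := T.h.mem'
  have h1 := inH_ownR (x := x) ho'
  rw [← K.symm] at h1
  unfold trowOkK at hr
  rw [Bool.and_eq_true, Bool.and_eq_true, Bool.and_eq_true, Bool.and_eq_true, Bool.and_eq_true,
    Bool.and_eq_true, Bool.and_eq_true, Bool.and_eq_true, Bool.and_eq_true] at hr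
  obtain ⟨hrow, ⟨⟨⟨⟨⟨⟨⟨k1, k2⟩, k3⟩, k4⟩, k5⟩, k6⟩, k7⟩, k8⟩, k9⟩ := hr
  have hl : AllOk (RR w kr) (Complex.tan w) (tsB d x gi zi ui li o L o' L') := by
    refine AllOk.cons ?_ (AllOk.cons ?_ (AllOk.cons ?_ (AllOk.cons
      (tl_ok hc0 hT (ho _ T.h.mem)) (AllOk.cons (tr_ok (ne_of_re T.h.kre') hT hq (h1 kr hm'))
      (AllOk.cons ?_ (hL.append hL'))))))
    · refine ⟨_, expY hc hR T.sp _, ?_⟩
      have eH : (tYx x (gi.map GC.qi)).H = gi.map GC.qi := by cases x <;> rfl
      rw [eH]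
      intro Q hQ
      obtain ⟨g, hg, rfl⟩ := List.mem_map.1 hQ
      exact GC.imp (List.all_eq_true.1 k1 g hg) (hi g hg)
    · refine ⟨_, expU hc hR T.sp _, ?_⟩
      have eH : (tUx x (ui.map GC.qi)).H = ui.map GC.qi := by cases x <;> rfl
      rw [eH]
      intro Q hQ
      obtain ⟨g, hg, rfl⟩ := List.mem_map.1 hQ
      exact GC.imp (List.all_eq_true.1 k3 g hg) (hui g hg)
    · refine ⟨_, expLg Bx hd t _, ?_⟩
      rw [tLg_H hd]
      intro Q hQ
      obtain ⟨g, hg, rfl⟩ := List.mem_map.1 hQ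
      exact GC.imp (List.all_eq_true.1 k4 g hg) (hli g hg)
    · refine ⟨_, expZ hc _, ?_⟩
      intro Q hQ
      obtain ⟨g, hg, rfl⟩ := List.mem_map.1 hQ
      exact GC.imp (List.all_eq_true.1 k2 g hg) (hzi g hg)
  have hm := rootT_mem hK T.h hT (tan_re T.w0 T.w1)
  obtain ⟨hgo, hal⟩ := rowA_sound hrow hm hl (expY hc hR T.sp _) (expU hc hR T.sp _)
  refine ⟨⟨fun g hg => ?_, fun g hg => ?_, fun g hg => ?_, fun g hg => ?_⟩, alt_ok k9 hal⟩
  · have eH : (tYx x (gy.map GC.q)).H = gy.map GC.q := by cases x <;> rfl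
    exact GC.spec (List.all_eq_true.1 k5 g hg) (hgo (tYx x (gy.map GC.q)) (by simp [goT]) _
      (expY hc hR T.sp _) g.q (by rw [eH]; exact List.mem_map_of_mem hg))
  · exact GC.spec (List.all_eq_true.1 k6 g hg) (hgo (tZ (gz.map GC.q)) (by simp [goT]) _
      (expZ hc _) g.q (List.mem_map_of_mem hg))
  · have eH : (tUx x (gu.map GC.q)).H = gu.map GC.q := by cases x <;> rfl
    exact GC.spec (List.all_eq_true.1 k7 g hg) (hgo (tUx x (gu.map GC.q)) (by simp [goT]) _
      (expU hc hR T.sp _) g.q (by rw [eH]; exact List.mem_map_of_mem hg))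
  · exact GC.spec (List.all_eq_true.1 k8 g hg) (hgo (tLg d x (gl.map GC.q)) (by simp [goT]) _
      (expLg Bx hd t _) g.q (by rw [tLg_H hd]; exact List.mem_map_of_mem hg))

end

/-- pairs bounding the real part by `ka / 10000` plus the difference of the heights -/
def stairK (ka : ℤ) (al : List (GC × GC)) : Bool :=
  al.all fun p => match p with
    | (.arc n m' _ _, .hi m _) => decide (m = ka - n) && Nat.ble 4000 m'
    | _ => false

lemma stairK_use {ka : ℤ} {al : List (GC × GC)} (h : stairK ka al = true) {y z : ℂ} (rg : Rg y z)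
    (ha : ∃ p ∈ al, p.1.P y ∧ p.2.P (y - z)) : y.re - (ka : ℝ) / 10000 ≤ z.im - y.im := by
  obtain ⟨⟨p, q⟩, hp, h1, h2⟩ := ha
  have h3 := List.all_eq_true.1 h _ hp
  cases q with
  | arc _ _ _ _ => cases p <;> simp at h3
  | lo _ _ => cases p <;> simp at h3
  | hi m c =>
    cases p with
    | lo _ _ => simp at h3
    | hi _ _ => simp at h3
    | arc n m' a b =>
      simp only [Bool.and_eq_true, decide_eq_true_eq] at h3
      obtain ⟨h4, h5⟩ := h3
      have h6 : 4000 ≤ m' := Nat.le_of_ble_eq_true h5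
      have m2' : (4000 : ℝ) ≤ m' := by exact_mod_cast h6
      have g3 := arc_ub h1 (by linarith [rg.y1])
      have g1 : (y - z).im ≤ (m : ℝ) / 10000 := h2
      rw [Complex.sub_im] at g1
      have h7 : (m : ℝ) = (ka : ℝ) - n := by exact_mod_cast h4
      rw [h7] at g1
      linarith

end

end Pool.Agent.Work.MP_b30479_gt.G2.CN.TD
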