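import Mathlib

/-!
# Conditions for the other hinge
-/

namespace Pool.Agent.Work.MP_b30479_gt.G2.CN.TD

end Pool.Agent.Work.MP_b30479_gt.G2.CN.TD
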