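import Pool.Agent.Work.MP_b30479_gt.G2.CN.TUt
import Pool.Agent.Work.MP_b30479_gt.G2.CN.TDatb
import Pool.Agent.Work.MP_b30479_gt.G2.CN.TLef
import Pool.Agent.Work.MP_b30479_gt.G2.CN.TRwL
import Pool.Agent.Work.MP_b30479_gt.G2.CN.TTabA

/-!
# Further windows of the rings: a ring between two digits `1`; heights
-/

namespace Pool.Agent.Work.MP_b30479_gt.G2.CN.TD

open Complex SR

noncomputable section

/-! ### a ring between two digits `1` -/

section
variable {K : KFam} (hK : KOK K) {l x : SK} {dl : ℕ} {ll : SK} {dr : ℕ} {rr : SK} {w kl kr : ℂ}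
include hK

/-- the height over the other hinge of a ring between two absorbed digits `1` -/
theorem p_of (t : LDt K .s .s dl ll dr rr w kl kr)
    (hl : (hbox .ring .one false).In (yH .s (RR w kl) (Complex.cos w)))
    (hy : (hbox .ring .one false).In (yH .s (RR w kr) (Complex.cos w)))
    (h : 262 / 1000 ≤ (yH .s (RR w kr) (Complex.cos w)).re) :
    (yH .s (RR w kr) (Complex.cos w) - zeta w).im ≤ -(1220 / 10000) := by
  have ho := t.h.right.ok.left
  have hr := t.h.right.ok.right.symm
  obtain ⟨l1, l2, l3, l4⟩ := one_num hl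
  obtain ⟨y1, y2, -, -⟩ := one_num hy
  have hd : dr = 1 ∨ dr = 2 := by
    have h5 := t.h.right.ok.one rfl
    have h6 := hr.pos
    omega
  have hz : rr ≠ .z := fun h5 => by
    have := hr.zl h5
    omega
  rcases hd with rfl | rfl
  · cases rr
    · exact absurd rfl (hr.one rfl).2.1
    · obtain ⟨-, -, ru, -⟩ := tuseL hK t rfl rfl p_1a
        (ui_arc (by norm_num; linarith only [h]) (by norm_num; linarith only [y2])) mn
        (li_box (by norm_num; linarith only [l1]) (by norm_num; linarith only [l2]) (by norm_num; linarith only [l2])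
        (by norm_num; linarith only [l3]) (by norm_num; linarith only [l4]))
        mn (hK.inH ho k6ss_ok) (hK.inH hr k2as_ok) (fun _ _ _ _ => AllOk.nil) (OR.a1 (by norm_num))
      have g : _ ≤ ((-1220 : ℤ) : ℝ) / 10000 := ru _ m0
      norm_num at g
      rw [Complex.sub_im]
      linarith only [g]
    · exact absurd rfl hz
    · obtain ⟨-, -, ru, -⟩ := tuseL hK t rfl rfl p_1s
        (ui_arc (by norm_num; linarith only [h]) (by norm_num; linarith only [y2])) mn
        (li_box (by norm_num; linarith only [l1]) (by norm_num; linarith only [l2]) (by norm_num; linarith only [l2])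
        (by norm_num; linarith only [l3]) (by norm_num; linarith only [l4]))
        mn (hK.inH ho k6ss_ok) (hK.inH hr k3ss_ok) (fun _ _ _ _ => AllOk.nil) OR.s
      have g : _ ≤ ((-1220 : ℤ) : ℝ) / 10000 := ru _ m0
      norm_num at g
      rw [Complex.sub_im]
      linarith only [g]
  · cases rr
    · obtain ⟨-, -, ru, -⟩ := tuseL hK t rfl rfl p_2e
        (ui_arc (by norm_num; linarith only [h]) (by norm_num; linarith only [y2])) mn
        (li_box (by norm_num; linarith only [l1]) (by norm_num; linarith only [l2]) (by norm_num; linarith only [l2])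
        (by norm_num; linarith only [l3]) (by norm_num; linarith only [l4]))
        mn (hK.inH ho k6ss_ok) (hK.inH hr k3es_ok) (fun _ _ _ _ => AllOk.nil) OR.e
      have g : _ ≤ ((-1220 : ℤ) : ℝ) / 10000 := ru _ m0
      norm_num at g
      rw [Complex.sub_im]
      linarith only [g]
    · obtain ⟨-, -, ru, -⟩ := tuseL hK t rfl rfl p_2a
        (ui_arc (by norm_num; linarith only [h]) (by norm_num; linarith only [y2])) mn
        (li_box (by norm_num; linarith only [l1]) (by norm_num; linarith only [l2]) (by norm_num; linarith only [l2])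
        (by norm_num; linarith only [l3]) (by norm_num; linarith only [l4]))
        mn (hK.inH ho k6ss_ok) (hK.inH hr k3as_ok) (fun _ _ _ _ => AllOk.nil) OR.a
      have g : _ ≤ ((-1220 : ℤ) : ℝ) / 10000 := ru _ m0
      norm_num at g
      rw [Complex.sub_im]
      linarith only [g]
    · exact absurd rfl hz
    · obtain ⟨-, -, ru, -⟩ := tuseL hK t rfl rfl p_2s
        (ui_arc (by norm_num; linarith only [h]) (by norm_num; linarith only [y2])) mn
        (li_box (by norm_num; linarith only [l1]) (by norm_num; linarith only [l2]) (by norm_num; linarith only [l2])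
        (by norm_num; linarith only [l3]) (by norm_num; linarith only [l4]))
        mn (hK.inH ho k6ss_ok) (hK.inH hr k4ss_ok) (fun _ _ _ _ => AllOk.nil) OR.s
      have g : _ ≤ ((-1220 : ℤ) : ℝ) / 10000 := ru _ m0
      norm_num at g
      rw [Complex.sub_im]
      linarith only [g]

/-- the digit `1` on the right not absorbed -/
theorem vv_au (t : LDt K .a .a 1 ll 1 rr w kl kr)
    (hl : (hbox .ring .one false).In (yH .a (RR w kl) (Complex.cos w)))
    (hy : (hbox .ring .one false).In (yH .a (RR w kr) (Complex.cos w)))
    (rg : Rg (yH .a (RR w kr) (Complex.cos w)) (zeta w))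
    (hc : 4535 / 10000 ≤ (yH .a (RR w kr) (Complex.cos w)).re - (zeta w).re) :
    (yH .a (RR w kl) (Complex.cos w)).re ≤ 262 / 1000 := by
  have hs := far_s t.h.right.ok.right
  subst hs
  have ho := t.h.right.ok.left
  have hr := t.h.right.ok.right.symm
  obtain ⟨l1, l2, l3, l4⟩ := one_num hl
  obtain ⟨y1, y2, -, -⟩ := one_num hy
  obtain ⟨-, -, -, rl⟩ := tuseL hK t rfl rfl v_au mn
      (ui_arc (by rw [Complex.sub_re]; norm_num; linarith only [hc]) (by rw [Complex.sub_re]; norm_num; linarith only [y2, rg, rg.z1]))
      (li_box (by norm_num; linarith only [l1]) (by norm_num; linarith only [l2]) (by norm_num; linarith only [l2])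
        (by norm_num; linarith only [l3]) (by norm_num; linarith only [l4]))
      mn (hK.inH ho k4aa_ok) (hK.inH hr k2as_ok) (fun _ _ _ _ => AllOk.nil) (OR.st (by decide))
  have g := arc_ub (rl _ m0) (by norm_num; linarith only [l2])
  norm_num at g
  linarith only [g]

/-- the digit `1` on the right absorbed -/
theorem vv_as (t : LDt K .a .s 1 ll dr rr w kl kr)
    (hl : (hbox .ring .one false).In (yH .a (RR w kl) (Complex.cos w)))
    (hy : (hbox .ring .one false).In (yH .s (RR w kr) (Complex.cos w)))
    (rg : Rg (yH .s (RR w kr) (Complex.cos w)) (zeta w))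
    (hc : 4535 / 10000 ≤ (yH .s (RR w kr) (Complex.cos w)).re - (zeta w).re) :
    (yH .a (RR w kl) (Complex.cos w)).re ≤ 262 / 1000 := by
  have ho := t.h.right.ok.left
  have hr := t.h.right.ok.right.symm
  obtain ⟨l1, l2, l3, l4⟩ := one_num hl
  obtain ⟨y1, y2, -, -⟩ := one_num hy
  have hd : dr = 1 ∨ dr = 2 := by
    have h5 := t.h.right.ok.one rfl
    have h6 := hr.pos
    omega
  have hz : rr ≠ .z := fun h5 => by
    have := hr.zl h5
    omega
  rcases hd with rfl | rfl
  · cases rr
    · exact absurd rfl (hr.one rfl).2.1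
    · obtain ⟨-, -, -, rl⟩ := tuseL hK t rfl rfl v_a1a mn
        (ui_arc (by rw [Complex.sub_re]; norm_num; linarith only [hc]) (by rw [Complex.sub_re]; norm_num; linarith only [y2, rg, rg.z1]))
        (li_box (by norm_num; linarith only [l1]) (by norm_num; linarith only [l2]) (by norm_num; linarith only [l2])
          (by norm_num; linarith only [l3]) (by norm_num; linarith only [l4]))
        mn (hK.inH ho k5as_ok) (hK.inH hr k2as_ok) (fun _ _ _ _ => AllOk.nil) (OR.a1 (by norm_num))
      have g := arc_ub (rl _ m0) (by norm_num; linarith only [l2])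
      norm_num at g
      linarith only [g]
    · exact absurd rfl hz
    · obtain ⟨-, -, -, rl⟩ := tuseL hK t rfl rfl v_a1s mn
        (ui_arc (by rw [Complex.sub_re]; norm_num; linarith only [hc]) (by rw [Complex.sub_re]; norm_num; linarith only [y2, rg, rg.z1]))
        (li_box (by norm_num; linarith only [l1]) (by norm_num; linarith only [l2]) (by norm_num; linarith only [l2])
          (by norm_num; linarith only [l3]) (by norm_num; linarith only [l4]))
        mn (hK.inH ho k5as_ok) (hK.inH hr k3ss_ok) (fun _ _ _ _ => AllOk.nil) OR.s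
      have g := arc_ub (rl _ m0) (by norm_num; linarith only [l2])
      norm_num at g
      linarith only [g]
  · cases rr
    · obtain ⟨-, -, -, rl⟩ := tuseL hK t rfl rfl v_a2e mn
        (ui_arc (by rw [Complex.sub_re]; norm_num; linarith only [hc]) (by rw [Complex.sub_re]; norm_num; linarith only [y2, rg, rg.z1]))
        (li_box (by norm_num; linarith only [l1]) (by norm_num; linarith only [l2]) (by norm_num; linarith only [l2])
          (by norm_num; linarith only [l3]) (by norm_num; linarith only [l4]))
        mn (hK.inH ho k5as_ok) (hK.inH hr k3es_ok) (fun _ _ _ _ => AllOk.nil) OR.e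
      have g := arc_ub (rl _ m0) (by norm_num; linarith only [l2])
      norm_num at g
      linarith only [g]
    · obtain ⟨-, -, -, rl⟩ := tuseL hK t rfl rfl v_a2a mn
        (ui_arc (by rw [Complex.sub_re]; norm_num; linarith only [hc]) (by rw [Complex.sub_re]; norm_num; linarith only [y2, rg, rg.z1]))
        (li_box (by norm_num; linarith only [l1]) (by norm_num; linarith only [l2]) (by norm_num; linarith only [l2])
          (by norm_num; linarith only [l3]) (by norm_num; linarith only [l4]))
        mn (hK.inH ho k5as_ok) (hK.inH hr k3as_ok) (fun _ _ _ _ => AllOk.nil) OR.a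
      have g := arc_ub (rl _ m0) (by norm_num; linarith only [l2])
      norm_num at g
      linarith only [g]
    · exact absurd rfl hz
    · have hs := far_s t.h.left.ok.right
      subst hs
      obtain ⟨-, -, -, rl⟩ := tuseL hK t rfl rfl v_a2s mn
        (ui_arc (by rw [Complex.sub_re]; norm_num; linarith only [hc]) (by rw [Complex.sub_re]; norm_num; linarith only [y2, rg, rg.z1]))
        mn
        mn (hK.inH ho k5as_ok) (hK.inH hr k4ss_ok) (fun hT hq _ h => tA_all hT hq (fun k hk => by
          rw [Set.mem_singleton_iff] at hk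
          subst hk
          exact (hK.inH t.h.left.ok.right.symm k2as_ok).mir _ (by rw [K.symm]; exact t.h.left.mem')) h) OR.s
      have g := arc_ub (rl _ m0) (by norm_num; linarith only [l2])
      norm_num at g
      linarith only [g]

/-- the digit `1` on the right not absorbed -/
theorem vv_su (t : LDt K .s .a dl ll 1 rr w kl kr)
    (hl : (hbox .ring .one false).In (yH .s (RR w kl) (Complex.cos w)))
    (hy : (hbox .ring .one false).In (yH .a (RR w kr) (Complex.cos w)))
    (rg : Rg (yH .a (RR w kr) (Complex.cos w)) (zeta w))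
    (hc : 4535 / 10000 ≤ (yH .a (RR w kr) (Complex.cos w)).re - (zeta w).re) :
    (yH .s (RR w kl) (Complex.cos w)).re ≤ 262 / 1000 := by
  have hs := far_s t.h.right.ok.right
  subst hs
  have ho := t.h.right.ok.left
  have hr := t.h.right.ok.right.symm
  obtain ⟨l1, l2, l3, l4⟩ := one_num hl
  obtain ⟨y1, y2, -, -⟩ := one_num hy
  obtain ⟨-, -, -, rl⟩ := tuseL hK t rfl rfl v_su mn
      (ui_arc (by rw [Complex.sub_re]; norm_num; linarith only [hc]) (by rw [Complex.sub_re]; norm_num; linarith only [y2, rg, rg.z1]))
      (li_box (by norm_num; linarith only [l1]) (by norm_num; linarith only [l2]) (by norm_num; linarith only [l2])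
        (by norm_num; linarith only [l3]) (by norm_num; linarith only [l4]))
      mn (hK.inH ho k5as_ok) (hK.inH hr k2as_ok) (fun _ _ _ _ => AllOk.nil) (OR.st (by decide))
  have g := arc_ub (rl _ m0) (by norm_num; linarith only [l2])
  norm_num at g
  linarith only [g]

/-- the digit `1` on the right absorbed -/
theorem vv_ss (t : LDt K .s .s dl ll dr rr w kl kr)
    (hl : (hbox .ring .one false).In (yH .s (RR w kl) (Complex.cos w)))
    (hy : (hbox .ring .one false).In (yH .s (RR w kr) (Complex.cos w)))
    (rg : Rg (yH .s (RR w kr) (Complex.cos w)) (zeta w))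
    (hc : 4535 / 10000 ≤ (yH .s (RR w kr) (Complex.cos w)).re - (zeta w).re) :
    (yH .s (RR w kl) (Complex.cos w)).re ≤ 262 / 1000 := by
  have ho := t.h.right.ok.left
  have hr := t.h.right.ok.right.symm
  obtain ⟨l1, l2, l3, l4⟩ := one_num hl
  obtain ⟨y1, y2, -, -⟩ := one_num hy
  have hd : dr = 1 ∨ dr = 2 := by
    have h5 := t.h.right.ok.one rfl
    have h6 := hr.pos
    omega
  have hz : rr ≠ .z := fun h5 => by
    have := hr.zl h5
    omega
  rcases hd with rfl | rfl
  · cases rr
    · exact absurd rfl (hr.one rfl).2.1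
    · obtain ⟨-, -, -, rl⟩ := tuseL hK t rfl rfl v_s1a mn
        (ui_arc (by rw [Complex.sub_re]; norm_num; linarith only [hc]) (by rw [Complex.sub_re]; norm_num; linarith only [y2, rg, rg.z1]))
        (li_box (by norm_num; linarith only [l1]) (by norm_num; linarith only [l2]) (by norm_num; linarith only [l2])
          (by norm_num; linarith only [l3]) (by norm_num; linarith only [l4]))
        mn (hK.inH ho k6ss_ok) (hK.inH hr k2as_ok) (fun _ _ _ _ => AllOk.nil) (OR.a1 (by norm_num))
      have g := arc_ub (rl _ m0) (by norm_num; linarith only [l2])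
      norm_num at g
      linarith only [g]
    · exact absurd rfl hz
    · obtain ⟨-, -, -, rl⟩ := tuseL hK t rfl rfl v_s1s mn
        (ui_arc (by rw [Complex.sub_re]; norm_num; linarith only [hc]) (by rw [Complex.sub_re]; norm_num; linarith only [y2, rg, rg.z1]))
        (li_box (by norm_num; linarith only [l1]) (by norm_num; linarith only [l2]) (by norm_num; linarith only [l2])
          (by norm_num; linarith only [l3]) (by norm_num; linarith only [l4]))
        mn (hK.inH ho k6ss_ok) (hK.inH hr k3ss_ok) (fun _ _ _ _ => AllOk.nil) OR.s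
      have g := arc_ub (rl _ m0) (by norm_num; linarith only [l2])
      norm_num at g
      linarith only [g]
  · cases rr
    · obtain ⟨-, -, -, rl⟩ := tuseL hK t rfl rfl v_s2e mn
        (ui_arc (by rw [Complex.sub_re]; norm_num; linarith only [hc]) (by rw [Complex.sub_re]; norm_num; linarith only [y2, rg, rg.z1]))
        (li_box (by norm_num; linarith only [l1]) (by norm_num; linarith only [l2]) (by norm_num; linarith only [l2])
          (by norm_num; linarith only [l3]) (by norm_num; linarith only [l4]))
        mn (hK.inH ho k6ss_ok) (hK.inH hr k3es_ok) (fun _ _ _ _ => AllOk.nil) OR.e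
      have g := arc_ub (rl _ m0) (by norm_num; linarith only [l2])
      norm_num at g
      linarith only [g]
    · obtain ⟨-, -, -, rl⟩ := tuseL hK t rfl rfl v_s2a mn
        (ui_arc (by rw [Complex.sub_re]; norm_num; linarith only [hc]) (by rw [Complex.sub_re]; norm_num; linarith only [y2, rg, rg.z1]))
        (li_box (by norm_num; linarith only [l1]) (by norm_num; linarith only [l2]) (by norm_num; linarith only [l2])
          (by norm_num; linarith only [l3]) (by norm_num; linarith only [l4]))
        mn (hK.inH ho k6ss_ok) (hK.inH hr k3as_ok) (fun _ _ _ _ => AllOk.nil) OR.a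
      have g := arc_ub (rl _ m0) (by norm_num; linarith only [l2])
      norm_num at g
      linarith only [g]
    · exact absurd rfl hz
    · by_contra hcc
      push Not at hcc
      have hp := p_of hK t.symm hy hl (by linarith only [hcc])
      rw [Complex.sub_im] at hp
      obtain ⟨-, -, -, rl⟩ := tuseL hK t rfl rfl v_s2s mn
        (ui_arc (by rw [Complex.sub_re]; norm_num; linarith only [hc]) (by rw [Complex.sub_re]; norm_num; linarith only [y2, rg, rg.z1]))
        (li_box (by norm_num; linarith only [hcc]) (by norm_num; linarith only [l2]) (by norm_num; linarith only [l2])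
          (by norm_num; linarith only [l3]) (by norm_num; linarith only [l4]))
        (ui_hi (by rw [Complex.sub_im]; norm_num; linarith only [hp])) (hK.inH ho k6ss_ok) (hK.inH hr k4ss_ok)
        (fun _ _ _ _ => AllOk.nil) OR.s
      have g := arc_ub (rl _ m0) (by norm_num; linarith only [l2])
      norm_num at g
      linarith only [hcc, g]

end

/-! ### a ring next to a digit `3` -/

section
variable {K : KFam} (hK : KOK K) {d : ℕ} {l l' : SK} {w R k' : ℂ}
include hK

/-- the height of the hinge in the frame of the ring is not positive, with two exceptions -/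
theorem three_t (t : TDt K .a d l 3 l' w R k') (h4 : 4 ≤ d) (hl' : l' ≠ .e) :
    (yH .a R (Complex.cos w)).im ≤ 0 ∨
      (d = 4 ∧ (l = .z ∨ (l = .a ∧ l' = .s)) ∧ 4 / 100 ≤ (zeta w).im) := by
  have hl := t.h.ok.left
  have hr := t.h.ok.right.symm
  have hz : l' ≠ .z := fun h5 => by
    have := hr.zl h5
    omega
  rcases le_or_gt (yH .a R (Complex.cos w)).im 0 with h0 | h0
  · exact Or.inl h0
  have hd : d = 4 ∨ d = 5 ∨ 6 ≤ d := by omega
  rcases hd with rfl | rfl | h6
  · cases l
    · cases l'
      · exact absurd rfl hl'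
      · left
        obtain ⟨ry, -, -⟩ := tuse hK t rfl rfl h_4ea mn
          (hK.inH hl k4ea_ok) (hK.inH hr k3aa_ok) OL.e OR.a
        have g : _ ≤ ((0 : ℤ) : ℝ) / 10000 := ry _ m0
        norm_num at g
        linarith only [h0, g]
      · exact absurd rfl hz
      · left
        obtain ⟨ry, -, -⟩ := tuse hK t rfl rfl h_4es mn
          (hK.inH hl k4ea_ok) (hK.inH hr k4as_ok) OL.e OR.s
        have g : _ ≤ ((0 : ℤ) : ℝ) / 10000 := ry _ m0
        norm_num at g
        linarith only [h0, g]
    · cases l'
      · exact absurd rfl hl'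
      · left
        obtain ⟨ry, -, -⟩ := tuse hK t rfl rfl h_4aa mn
          (hK.inH hl k4aa_ok) (hK.inH hr k3aa_ok) OL.a OR.a
        have g : _ ≤ ((0 : ℤ) : ℝ) / 10000 := ry _ m0
        norm_num at g
        linarith only [h0, g]
      · exact absurd rfl hz
      · refine Or.inr ⟨rfl, by simp, ?_⟩
        obtain ⟨-, rz, -⟩ := tuse hK t rfl rfl e_as (ui_lo (by norm_num; linarith only [h0]))
          (hK.inH hl k4aa_ok) (hK.inH hr k4as_ok) OL.nil OR.s
        have g := rho_mk' (rz _ m0)
        norm_num at g
        linarith only [g]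
    · cases l'
      · exact absurd rfl hl'
      · refine Or.inr ⟨rfl, by simp, ?_⟩
        obtain ⟨-, rz, -⟩ := tuse hK t rfl rfl e_za (ui_lo (by norm_num; linarith only [h0]))
          (hK.inH hl k4az_ok) (hK.inH hr k3aa_ok) OL.nil OR.a
        have g := rho_mk' (rz _ m0)
        norm_num at g
        linarith only [g]
      · exact absurd rfl hz
      · refine Or.inr ⟨rfl, by simp, ?_⟩
        obtain ⟨-, rz, -⟩ := tuse hK t rfl rfl e_zs (ui_lo (by norm_num; linarith only [h0]))
          (hK.inH hl k4az_ok) (hK.inH hr k4as_ok) OL.nil OR.s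
        have g := rho_mk' (rz _ m0)
        norm_num at g
        linarith only [g]
    · cases l'
      · exact absurd rfl hl'
      · left
        obtain ⟨ry, -, -⟩ := tuse hK t rfl rfl h_4sa mn
          (hK.inH hl k5as_ok) (hK.inH hr k3aa_ok) OL.nil OR.a
        have g : _ ≤ ((0 : ℤ) : ℝ) / 10000 := ry _ m0
        norm_num at g
        linarith only [h0, g]
      · exact absurd rfl hz
      · left
        obtain ⟨ry, -, -⟩ := tuse hK t rfl rfl h_4ss mn
          (hK.inH hl k5as_ok) (hK.inH hr k4as_ok) OL.nil OR.s
        have g : _ ≤ ((0 : ℤ) : ℝ) / 10000 := ry _ m0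
        norm_num at g
        linarith only [h0, g]
  · by_cases hle : l = .e
    · subst hle
      cases l'
      · exact absurd rfl hl'
      · left
        obtain ⟨ry, -, -⟩ := tuse hK t rfl rfl h_5ea mn
          (hK.inH hl k5ea_ok) (hK.inH hr k3aa_ok) OL.nil OR.a
        have g : _ ≤ ((0 : ℤ) : ℝ) / 10000 := ry _ m0
        norm_num at g
        linarith only [h0, g]
      · exact absurd rfl hz
      · left
        obtain ⟨ry, -, -⟩ := tuse hK t rfl rfl h_5es mn
          (hK.inH hl k5ea_ok) (hK.inH hr k4as_ok) OL.nil OR.s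
        have g : _ ≤ ((0 : ℤ) : ℝ) / 10000 := ry _ m0
        norm_num at g
        linarith only [h0, g]
    · cases l'
      · exact absurd rfl hl'
      · left
        obtain ⟨ry, -, -⟩ := tuse hK t rfl rfl h_5aa mn
          (in_m5a hK hl hle) (hK.inH hr k3aa_ok) OL.nil OR.a
        have g : _ ≤ ((0 : ℤ) : ℝ) / 10000 := ry _ m0
        norm_num at g
        linarith only [h0, g]
      · exact absurd rfl hz
      · left
        obtain ⟨ry, -, -⟩ := tuse hK t rfl rfl h_5as mn
          (in_m5a hK hl hle) (hK.inH hr k4as_ok) OL.nil OR.s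
        have g : _ ≤ ((0 : ℤ) : ℝ) / 10000 := ry _ m0
        norm_num at g
        linarith only [h0, g]
  · by_cases hle : l = .e
    · subst hle
      cases l'
      · exact absurd rfl hl'
      · left
        obtain ⟨ry, -, -⟩ := tuse hK t rfl rfl h_6ea mn
          (in_oN6e hK hl h6) (hK.inH hr k3aa_ok) OL.nil OR.a
        have g : _ ≤ ((0 : ℤ) : ℝ) / 10000 := ry _ m0
        norm_num at g
        linarith only [h0, g]
      · exact absurd rfl hz
      · left
        obtain ⟨ry, -, -⟩ := tuse hK t rfl rfl h_6es mn
          (in_oN6e hK hl h6) (hK.inH hr k4as_ok) OL.nil OR.s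
        have g : _ ≤ ((0 : ℤ) : ℝ) / 10000 := ry _ m0
        norm_num at g
        linarith only [h0, g]
    · cases l'
      · exact absurd rfl hl'
      · left
        obtain ⟨ry, -, -⟩ := tuse hK t rfl rfl h_6aa mn
          (in_oN6a hK hl h6 hle) (hK.inH hr k3aa_ok) OL.nil OR.a
        have g : _ ≤ ((0 : ℤ) : ℝ) / 10000 := ry _ m0
        norm_num at g
        linarith only [h0, g]
      · exact absurd rfl hz
      · left
        obtain ⟨ry, -, -⟩ := tuse hK t rfl rfl h_6as mn
          (in_oN6a hK hl h6 hle) (hK.inH hr k4as_ok) OL.nil OR.s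
        have g : _ ≤ ((0 : ℤ) : ℝ) / 10000 := ry _ m0
        norm_num at g
        linarith only [h0, g]

/-- one of the exceptions: the other hinge is low -/
theorem three_l {dl : ℕ} {ll : SK} {kl kr : ℂ} (t : LDt K .a .a dl ll 3 .s w kl kr)
    (h : (yH .a (RR w kl) (Complex.cos w)).im ≤ 40 / 10000) :
    (yH .a (RR w kr) (Complex.cos w)).im ≤ 0 := by
  obtain ⟨ry, -, -, -⟩ := tuseL hK t rfl rfl h_4as mn mn (ui_hi (by norm_num; linarith only [h])) mn
    (hK.inH t.h.right.ok.left k4aa_ok) (hK.inH t.h.right.ok.right.symm k4as_ok)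
    (fun hT hq h _ => OL.a hK hT hq h) OR.s
  have g : _ ≤ ((0 : ℤ) : ℝ) / 10000 := ry _ m0
  norm_num at g
  linarith only [g]

/-- a digit `2` next to an absorbed digit `1` and to a ring -/
theorem two_t {d' : ℕ} (t : TDt K .a 2 .s d' l' w R k') (h4 : 4 ≤ d') :
    (yH .a R (Complex.cos w)).im ≤ 75 / 1000 := by
  obtain ⟨ry, -, -⟩ := tuse hK t rfl rfl w_2 mn (hK.inH t.h.ok.left k3as_ok)
    (in_n3Z hK t.h.ok.right.symm (Or.inr h4)) OL.s2 OR.nil
  have g : _ ≤ ((750 : ℤ) : ℝ) / 10000 := ry _ m0
  norm_num at g
  linarith only [g]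

end

end

end Pool.Agent.Work.MP_b30479_gt.G2.CN.TD
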