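import Pool.Agent.Work.MP_b30479_gt.G2.CN.TRwQ
import Pool.Agent.Work.MP_b30479_gt.G2.CN.TDatd
import Pool.Agent.Work.MP_b30479_gt.G2.CN.TUt
import Pool.Agent.Work.MP_b30479_gt.G2.CN.TTabA

/-!
# Rings with four crossings, by the class of the neighbour
-/

namespace Pool.Agent.Work.MP_b30479_gt.G2.CN.TD

open Complex SR

noncomputable section

/-- the box of the hinge on the other side, by its kind -/
def LI (l : SK) (y : ℂ) : Prop :=
  match l with
  | .e => False
  | .a => 164 / 1000 ≤ y.re ∧ y.re ≤ 298 / 1000 ∧ -(158 / 1000) ≤ y.im ∧ y.im ≤ 385 / 10000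
  | .z => 170 / 1000 ≤ y.re ∧ y.re ≤ 252 / 1000 ∧ -(1 / 1000) ≤ y.im ∧ y.im ≤ 59 / 1000
  | .s => 214 / 1000 ≤ y.re ∧ y.re ≤ 298 / 1000 ∧ -(158 / 1000) ≤ y.im ∧ y.im ≤ -(38 / 1000)

lemma li_a {y : ℂ} (h : LI .a y) :
    ∀ g ∈ ([.arc 1640 6639 (-857520) 514450, .arc 0 2980 954861 297054, .lo (-1580) 7282591, .hi 385 616432] : List GC), g.G y := by
  obtain ⟨l1, l2, l3, l4⟩ := h
  exact li_box (by norm_num; linarith) (by norm_num; linarith) (by norm_num; linarith)
    (by norm_num; linarith) (by norm_num; linarith)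

lemma li_a3 {y : ℂ} (h : LI .a y) :
    ∀ g ∈ ([.arc 1640 6639 (-857520) 514450, .lo (-1580) 7282591, .hi 385 616432] : List GC), g.G y := by
  obtain ⟨l1, l2, l3, l4⟩ := h
  exact li_box3 (by norm_num; linarith) (by norm_num; linarith) (by norm_num; linarith)
    (by norm_num; linarith)

lemma li_z {y : ℂ} (h : LI .z y) :
    ∀ g ∈ ([.arc 1700 6699 (-876301) 481765, .arc 0 2520 999921 12579, .lo (-10) 1012647, .hi 590 476437] : List GC), g.G y := by
  obtain ⟨l1, l2, l3, l4⟩ := h
  exact li_box (by norm_num; linarith) (by norm_num; linarith) (by norm_num; linarith)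
    (by norm_num; linarith) (by norm_num; linarith)

lemma li_s {y : ℂ} (h : LI .s y) :
    ∀ g ∈ ([.arc 2140 7139 (-974524) 224283, .arc 0 2980 954861 297054, .lo (-1580) 7282591, .hi (-380) 1612073] : List GC), g.G y := by
  obtain ⟨l1, l2, l3, l4⟩ := h
  exact li_box (by norm_num; linarith) (by norm_num; linarith) (by norm_num; linarith)
    (by norm_num; linarith) (by norm_num; linarith)

/-! ### ends -/

section
variable {K : KFam} (hK : KOK K) {d' : ℕ} {l' : SK} {w R k' : ℂ}
include hK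

theorem r4e_1u (t : TDt K .a 4 .e 1 l' w R k')
    (rg : Rg (yH .a R (Complex.cos w)) (zeta w)) :
    B4 2160 2810 1910 2200 800 1450 220 500 (-1150) (-360) 4800 4380
      (yH .a R (Complex.cos w)) (zeta w) := by
  have hl := t.h.ok.left
  have hr := t.h.ok.right.symm
  have hs := far_s t.h.ok.right
  subst hs
  exact b4_of (tuseA hK t rfl rfl fe1_eu mn (hK.inH hl k4ea_ok) (hK.inH hr k2as_ok)
    OL.e (OR.st (by decide))) al4e1_st rg (by norm_num) (by norm_num) (by norm_num)

theorem r4e_1s (t : TDt K .s 4 .e d' l' w R k')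
    (rg : Rg (yH .s R (Complex.cos w)) (zeta w)) :
    B4 2160 2810 1910 2200 800 1450 220 500 (-1150) (-360) 4800 4380
      (yH .s R (Complex.cos w)) (zeta w) := by
  have hl := t.h.ok.left
  have hr := t.h.ok.right.symm
  have hd : d' = 1 ∨ d' = 2 := by
    have h5 := t.h.ok.one rfl
    have h6 := hr.pos
    omega
  have hz : l' ≠ .z := fun h5 => by
    have := hr.zl h5
    omega
  rcases hd with rfl | rfl
  · cases l'
    · exact absurd rfl (hr.one rfl).2.1
    · exact b4_of (tuseA hK t rfl rfl fe1_e1a mn (hK.inH hl k5es_ok) (hK.inH hr k2as_ok)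
        OL.e (OR.a1 (by norm_num))) al4e1_st rg (by norm_num) (by norm_num) (by norm_num)
    · exact absurd rfl hz
    · exact b4_of (tuseA hK t rfl rfl fe1_e1s mn (hK.inH hl k5es_ok) (hK.inH hr k3ss_ok)
        OL.e OR.s) al4e1_st rg (by norm_num) (by norm_num) (by norm_num)
  · cases l'
    · exact b4_of (tuseA hK t rfl rfl fe1_e2e mn (hK.inH hl k5es_ok) (hK.inH hr k3es_ok)
        OL.e OR.e) al4e1_st rg (by norm_num) (by norm_num) (by norm_num)
    · exact b4_of (tuseA hK t rfl rfl fe1_e2a mn (hK.inH hl k5es_ok) (hK.inH hr k3as_ok)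
        OL.e OR.a) al4e1_st rg (by norm_num) (by norm_num) (by norm_num)
    · exact absurd rfl hz
    · exact b4_of (tuseA hK t rfl rfl fe1_e2s mn (hK.inH hl k5es_ok) (hK.inH hr k4ss_ok)
        OL.e OR.s) al4e1_st rg (by norm_num) (by norm_num) (by norm_num)

theorem r4e_2 (t : TDt K .a 4 .e 2 l' w R k') (hn : l' ≠ .e)
    (rg : Rg (yH .a R (Complex.cos w)) (zeta w)) :
    B4 1910 2380 2040 2300 580 970 320 530 (-560) (-110) 4490 4020
      (yH .a R (Complex.cos w)) (zeta w) := by
  have hl := t.h.ok.left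
  have hr := t.h.ok.right.symm
  have hz : l' ≠ .z := fun h5 => by
    have := hr.zl h5
    omega
  cases l'
  · exact absurd rfl hn
  · exact b4_of (tuseA hK t rfl rfl fe2_ea mn (hK.inH hl k4ea_ok) (hK.inH hr k2aa_ok)
      OL.e OR.a) al4e2_st rg (by norm_num) (by norm_num) (by norm_num)
  · exact absurd rfl hz
  · exact b4_of (tuseA hK t rfl rfl fe2_es mn (hK.inH hl k4ea_ok) (hK.inH hr k3as_ok)
      OL.e OR.s) al4e2_st rg (by norm_num) (by norm_num) (by norm_num)

theorem r4e_2e (t : TDt K .a 4 .e 2 .e w R k')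
    (rg : Rg (yH .a R (Complex.cos w)) (zeta w)) :
    B4 1590 1750 2100 2260 1110 1270 180 320 (-1010) (-850) 3930 3700
      (yH .a R (Complex.cos w)) (zeta w) := by
  have hl := t.h.ok.left
  have hr := t.h.ok.right.symm
  exact b4_of (tuseA hK t rfl rfl fe2e_e mn (hK.inH hl k4ea_ok) (hK.inH hr k2ea_ok)
    OL.e OR.e) al4e2e_st rg (by norm_num) (by norm_num) (by norm_num)

theorem r4e_3 (t : TDt K .a 4 .e 3 l' w R k') (hn : l' ≠ .e)
    (rg : Rg (yH .a R (Complex.cos w)) (zeta w)) :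
    B4 1850 2150 2130 2340 470 740 380 550 (-270) 20 4360 3850
      (yH .a R (Complex.cos w)) (zeta w) := by
  have hl := t.h.ok.left
  have hr := t.h.ok.right.symm
  have hz : l' ≠ .z := fun h5 => by
    have := hr.zl h5
    omega
  cases l'
  · exact absurd rfl hn
  · exact b4_of (tuseA hK t rfl rfl fe3_ea mn (hK.inH hl k4ea_ok) (hK.inH hr k3aa_ok)
      OL.e OR.a) al4e3_st rg (by norm_num) (by norm_num) (by norm_num)
  · exact absurd rfl hz
  · exact b4_of (tuseA hK t rfl rfl fe3_es mn (hK.inH hl k4ea_ok) (hK.inH hr k4as_ok)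
      OL.e OR.s) al4e3_st rg (by norm_num) (by norm_num) (by norm_num)

theorem r4e_3e (t : TDt K .a 4 .e 3 .e w R k')
    (rg : Rg (yH .a R (Complex.cos w)) (zeta w)) :
    B4 1660 1820 2200 2360 570 730 310 450 (-340) (-180) 4100 3670
      (yH .a R (Complex.cos w)) (zeta w) := by
  have hl := t.h.ok.left
  have hr := t.h.ok.right.symm
  exact b4_of (tuseA hK t rfl rfl fe3e_e mn (hK.inH hl k4ea_ok) (hK.inH hr k3ea_ok)
    OL.e OR.e) al4e3e_st rg (by norm_num) (by norm_num) (by norm_num)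

theorem r4e_Z (t : TDt K .a 4 .e d' l' w R k') (hd : 4 ≤ d')
    (rg : Rg (yH .a R (Complex.cos w)) (zeta w)) :
    B4 1770 2170 2180 2390 280 630 400 670 (-130) 340 4470 3820
      (yH .a R (Complex.cos w)) (zeta w) := by
  have hl := t.h.ok.left
  have hr := t.h.ok.right.symm
  exact b4_of (tuseA hK t rfl rfl feZ_e mn (hK.inH hl k4ea_ok) (in_nZa hK hr hd)
    OL.e OR.nil) al4eZ_st rg (by norm_num) (by norm_num) (by norm_num)

theorem r4e_Zs (t : TDt K .z 4 .e d' l' w R k')
    (rg : Rg (yH .z R (Complex.cos w)) (zeta w)) :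
    B4 1650 2170 2220 2520 110 440 440 670 160 490 4470 3820
      (yH .z R (Complex.cos w)) (zeta w) := by
  have hl := t.h.ok.left
  have hr := t.h.ok.right.symm
  exact b4_of (tuseA hK t rfl rfl feZs_e mn (hK.inH hl k4ez_ok) (in_nZz hK hr)
    OL.e OR.nil) al4eZs_st rg (by norm_num) (by norm_num) (by norm_num)

end

/-! ### interior rings -/

section
variable {K : KFam} (hK : KOK K) {l : SK} {dl : ℕ} {ll : SK} {dr : ℕ} {rr : SK} {w kl kr : ℂ}
include hK

theorem r4i_1u (t : LDt K l .a dl ll 1 rr w kl kr)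
    (hli : LI l (yH l (RR w kl) (Complex.cos w)))
    (rg : Rg (yH .a (RR w kr) (Complex.cos w)) (zeta w)) :
    B4 2250 3030 1510 2040 960 1870 330 850 (-1300) (-350) 4870 4150
      (yH .a (RR w kr) (Complex.cos w)) (zeta w) := by
  have hl := t.h.right.ok.left
  have hr := t.h.right.ok.right.symm
  have hs := far_s t.h.right.ok.right
  subst hs
  cases l
  · exact absurd hli id
  · exact b4_of (tuseLA hK t rfl rfl fi1_au (li_a3 hli) (hK.inH hl k4aa_ok) (hK.inH hr k2as_ok)
      OL.a (OR.st (by decide))) al4i1_st rg (by norm_num) (by norm_num) (by norm_num)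
  · exact b4_of (tuseLA hK t rfl rfl fi1_zu (li_z hli) (hK.inH hl k4az_ok) (hK.inH hr k2as_ok)
      OL.z (OR.st (by decide))) al4i1_st rg (by norm_num) (by norm_num) (by norm_num)
  · exact b4_of (tuseLA hK t rfl rfl fi1_su (li_s hli) (hK.inH hl k5as_ok) (hK.inH hr k2as_ok)
      (OL.s (by norm_num)) (OR.st (by decide))) al4i1_st rg (by norm_num) (by norm_num) (by norm_num)

theorem r4i_1s (t : LDt K l .s dl ll dr rr w kl kr)
    (hli : LI l (yH l (RR w kl) (Complex.cos w)))
    (rg : Rg (yH .s (RR w kr) (Complex.cos w)) (zeta w)) :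
    B4 2250 3030 1510 2040 960 1870 330 850 (-1300) (-350) 4870 4150
      (yH .s (RR w kr) (Complex.cos w)) (zeta w) := by
  have hl := t.h.right.ok.left
  have hr := t.h.right.ok.right.symm
  have hd : dr = 1 ∨ dr = 2 := by
    have h5 := t.h.right.ok.one rfl
    have h6 := hr.pos
    omega
  have hz : rr ≠ .z := fun h5 => by
    have := hr.zl h5
    omega
  rcases hd with rfl | rfl
  · cases rr
    · exact absurd rfl (hr.one rfl).2.1
    · cases l
      · exact absurd hli id
      · exact b4_of (tuseLA hK t rfl rfl fi1_a1a (li_a hli) (hK.inH hl k5as_ok) (hK.inH hr k2as_ok)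
          OL.a (OR.a1 (by norm_num))) al4i1_st rg (by norm_num) (by norm_num) (by norm_num)
      · exact b4_of (tuseLA hK t rfl rfl fi1_z1a (li_z hli) (hK.inH hl k5zs_ok) (hK.inH hr k2as_ok)
          OL.z (OR.a1 (by norm_num))) al4i1_st rg (by norm_num) (by norm_num) (by norm_num)
      · exact b4_of (tuseLA hK t rfl rfl fi1_s1a (li_s hli) (hK.inH hl k6ss_ok) (hK.inH hr k2as_ok)
          OL.nil (OR.a1 (by norm_num))) al4i1_st rg (by norm_num) (by norm_num) (by norm_num)
    · exact absurd rfl hz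
    · cases l
      · exact absurd hli id
      · exact b4_of (tuseLA hK t rfl rfl fi1_a1s (li_a hli) (hK.inH hl k5as_ok) (hK.inH hr k3ss_ok)
          OL.a OR.s) al4i1_st rg (by norm_num) (by norm_num) (by norm_num)
      · exact b4_of (tuseLA hK t rfl rfl fi1_z1s (li_z hli) (hK.inH hl k5zs_ok) (hK.inH hr k3ss_ok)
          OL.z OR.s) al4i1_st rg (by norm_num) (by norm_num) (by norm_num)
      · exact b4_of (tuseLA hK t rfl rfl fi1_s1s (li_s hli) (hK.inH hl k6ss_ok) (hK.inH hr k3ss_ok)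
          OL.nil OR.s) al4i1_st rg (by norm_num) (by norm_num) (by norm_num)
  · cases rr
    · cases l
      · exact absurd hli id
      · exact b4_of (tuseLA hK t rfl rfl fi1_a2e (li_a hli) (hK.inH hl k5as_ok) (hK.inH hr k3es_ok)
          OL.a OR.e) al4i1_st rg (by norm_num) (by norm_num) (by norm_num)
      · exact b4_of (tuseLA hK t rfl rfl fi1_z2e (li_z hli) (hK.inH hl k5zs_ok) (hK.inH hr k3es_ok)
          OL.z OR.e) al4i1_st rg (by norm_num) (by norm_num) (by norm_num)
      · exact b4_of (tuseLA hK t rfl rfl fi1_s2e (li_s hli) (hK.inH hl k6ss_ok) (hK.inH hr k3es_ok)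
          OL.nil OR.e) al4i1_st rg (by norm_num) (by norm_num) (by norm_num)
    · cases l
      · exact absurd hli id
      · exact b4_of (tuseLA hK t rfl rfl fi1_a2a (li_a hli) (hK.inH hl k5as_ok) (hK.inH hr k3as_ok)
          OL.a OR.a) al4i1_st rg (by norm_num) (by norm_num) (by norm_num)
      · exact b4_of (tuseLA hK t rfl rfl fi1_z2a (li_z hli) (hK.inH hl k5zs_ok) (hK.inH hr k3as_ok)
          OL.z OR.a) al4i1_st rg (by norm_num) (by norm_num) (by norm_num)
      · exact b4_of (tuseLA hK t rfl rfl fi1_s2a (li_s hli) (hK.inH hl k6ss_ok) (hK.inH hr k3as_ok)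
          OL.nil OR.a) al4i1_st rg (by norm_num) (by norm_num) (by norm_num)
    · exact absurd rfl hz
    · cases l
      · exact absurd hli id
      · exact b4_of (tuseLA hK t rfl rfl fi1_a2s (li_a hli) (hK.inH hl k5as_ok) (hK.inH hr k4ss_ok)
          OL.a OR.s) al4i1_st rg (by norm_num) (by norm_num) (by norm_num)
      · exact b4_of (tuseLA hK t rfl rfl fi1_z2s (li_z hli) (hK.inH hl k5zs_ok) (hK.inH hr k4ss_ok)
          OL.z OR.s) al4i1_st rg (by norm_num) (by norm_num) (by norm_num)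
      · exact b4_of (tuseLA hK t rfl rfl fi1_s2s (li_s hli) (hK.inH hl k6ss_ok) (hK.inH hr k4ss_ok)
          OL.nil OR.s) al4i1_st rg (by norm_num) (by norm_num) (by norm_num)

theorem r4i_2 (t : LDt K l .a dl ll 2 rr w kl kr) (hn : rr ≠ .e)
    (hli : LI l (yH l (RR w kl) (Complex.cos w)))
    (rg : Rg (yH .a (RR w kr) (Complex.cos w)) (zeta w)) :
    B4 1985 2580 1610 2110 730 1360 420 910 (-680) (-70) 4500 3750
      (yH .a (RR w kr) (Complex.cos w)) (zeta w) := by
  have hl := t.h.right.ok.left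
  have hr := t.h.right.ok.right.symm
  have hz : rr ≠ .z := fun h5 => by
    have := hr.zl h5
    omega
  cases rr
  · exact absurd rfl hn
  · cases l
    · exact absurd hli id
    · exact b4_of (tuseLA hK t rfl rfl fi2_aa (li_a3 hli) (hK.inH hl k4aa_ok) (hK.inH hr k2aa_ok)
        OL.a OR.a) al4i2_st rg (by norm_num) (by norm_num) (by norm_num)
    · exact b4_of (tuseLA hK t rfl rfl fi2_za (li_z hli) (hK.inH hl k4az_ok) (hK.inH hr k2aa_ok)
        OL.z OR.a) al4i2_st rg (by norm_num) (by norm_num) (by norm_num)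
    · exact b4_of (tuseLA hK t rfl rfl fi2_sa (li_s hli) (hK.inH hl k5as_ok) (hK.inH hr k2aa_ok)
        (OL.s (by norm_num)) OR.a) al4i2_st rg (by norm_num) (by norm_num) (by norm_num)
  · exact absurd rfl hz
  · cases l
    · exact absurd hli id
    · exact b4_of (tuseLA hK t rfl rfl fi2_as (li_a3 hli) (hK.inH hl k4aa_ok) (hK.inH hr k3as_ok)
        OL.a OR.s) al4i2_st rg (by norm_num) (by norm_num) (by norm_num)
    · exact b4_of (tuseLA hK t rfl rfl fi2_zs (li_z hli) (hK.inH hl k4az_ok) (hK.inH hr k3as_ok)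
        OL.z OR.s) al4i2_st rg (by norm_num) (by norm_num) (by norm_num)
    · exact b4_of (tuseLA hK t rfl rfl fi2_ss (li_s hli) (hK.inH hl k5as_ok) (hK.inH hr k3as_ok)
        (OL.s (by norm_num)) OR.s) al4i2_st rg (by norm_num) (by norm_num) (by norm_num)

theorem r4i_2e (t : LDt K l .a dl ll 2 .e w kl kr)
    (hli : LI l (yH l (RR w kl) (Complex.cos w)))
    (rg : Rg (yH .a (RR w kr) (Complex.cos w)) (zeta w)) :
    B4 1660 1910 1660 2140 1320 1720 320 730 (-1120) (-850) 3960 3290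
      (yH .a (RR w kr) (Complex.cos w)) (zeta w) := by
  have hl := t.h.right.ok.left
  have hr := t.h.right.ok.right.symm
  cases l
  · exact absurd hli id
  · exact b4_of (tuseLA hK t rfl rfl fi2e_a (li_a hli) (hK.inH hl k4aa_ok) (hK.inH hr k2ea_ok)
      OL.a OR.e) al4i2e_st rg (by norm_num) (by norm_num) (by norm_num)
  · exact b4_of (tuseLA hK t rfl rfl fi2e_z (li_z hli) (hK.inH hl k4az_ok) (hK.inH hr k2ea_ok)
      OL.z OR.e) al4i2e_st rg (by norm_num) (by norm_num) (by norm_num)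
  · exact b4_of (tuseLA hK t rfl rfl fi2e_s (li_s hli) (hK.inH hl k5as_ok) (hK.inH hr k2ea_ok)
      (OL.s (by norm_num)) OR.e) al4i2e_st rg (by norm_num) (by norm_num) (by norm_num)

theorem r4i_3 (t : LDt K l .a dl ll 3 rr w kl kr) (hn : rr ≠ .e)
    (hli : LI l (yH l (RR w kl) (Complex.cos w)))
    (rg : Rg (yH .a (RR w kr) (Complex.cos w)) (zeta w)) :
    B4 1950 2340 1650 2140 600 1100 470 930 (-360) 60 4330 3560
      (yH .a (RR w kr) (Complex.cos w)) (zeta w) := by
  have hl := t.h.right.ok.left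
  have hr := t.h.right.ok.right.symm
  have hz : rr ≠ .z := fun h5 => by
    have := hr.zl h5
    omega
  cases rr
  · exact absurd rfl hn
  · cases l
    · exact absurd hli id
    · exact b4_of (tuseLA hK t rfl rfl fi3_aa (li_a3 hli) (hK.inH hl k4aa_ok) (hK.inH hr k3aa_ok)
        OL.a OR.a) al4i3_st rg (by norm_num) (by norm_num) (by norm_num)
    · exact b4_of (tuseLA hK t rfl rfl fi3_za (li_z hli) (hK.inH hl k4az_ok) (hK.inH hr k3aa_ok)
        OL.z OR.a) al4i3_st rg (by norm_num) (by norm_num) (by norm_num)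
    · exact b4_of (tuseLA hK t rfl rfl fi3_sa (li_s hli) (hK.inH hl k5as_ok) (hK.inH hr k3aa_ok)
        (OL.s (by norm_num)) OR.a) al4i3_st rg (by norm_num) (by norm_num) (by norm_num)
  · exact absurd rfl hz
  · cases l
    · exact absurd hli id
    · exact b4_of (tuseLA hK t rfl rfl fi3_as (li_a3 hli) (hK.inH hl k4aa_ok) (hK.inH hr k4as_ok)
        OL.a OR.s) al4i3_st rg (by norm_num) (by norm_num) (by norm_num)
    · exact b4_of (tuseLA hK t rfl rfl fi3_zs (li_z hli) (hK.inH hl k4az_ok) (hK.inH hr k4as_ok)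
        OL.z OR.s) al4i3_st rg (by norm_num) (by norm_num) (by norm_num)
    · exact b4_of (tuseLA hK t rfl rfl fi3_ss (li_s hli) (hK.inH hl k5as_ok) (hK.inH hr k4as_ok)
        (OL.s (by norm_num)) OR.s) al4i3_st rg (by norm_num) (by norm_num) (by norm_num)

theorem r4i_3e (t : LDt K l .a dl ll 3 .e w kl kr)
    (hli : LI l (yH l (RR w kl) (Complex.cos w)))
    (rg : Rg (yH .a (RR w kr) (Complex.cos w)) (zeta w)) :
    B4 1750 1980 1690 2170 740 1140 430 870 (-420) (-150) 4060 3320
      (yH .a (RR w kr) (Complex.cos w)) (zeta w) := by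
  have hl := t.h.right.ok.left
  have hr := t.h.right.ok.right.symm
  cases l
  · exact absurd hli id
  · exact b4_of (tuseLA hK t rfl rfl fi3e_a (li_a hli) (hK.inH hl k4aa_ok) (hK.inH hr k3ea_ok)
      OL.a OR.e) al4i3e_st rg (by norm_num) (by norm_num) (by norm_num)
  · exact b4_of (tuseLA hK t rfl rfl fi3e_z (li_z hli) (hK.inH hl k4az_ok) (hK.inH hr k3ea_ok)
      OL.z OR.e) al4i3e_st rg (by norm_num) (by norm_num) (by norm_num)
  · exact b4_of (tuseLA hK t rfl rfl fi3e_s (li_s hli) (hK.inH hl k5as_ok) (hK.inH hr k3ea_ok)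
      (OL.s (by norm_num)) OR.e) al4i3e_st rg (by norm_num) (by norm_num) (by norm_num)

theorem r4i_Z (t : LDt K l .a dl ll dr rr w kl kr) (hd : 4 ≤ dr)
    (hli : LI l (yH l (RR w kl) (Complex.cos w)))
    (rg : Rg (yH .a (RR w kr) (Complex.cos w)) (zeta w)) :
    B4 1870 2370 1670 2170 370 980 490 1050 (-200) 430 4380 3560
      (yH .a (RR w kr) (Complex.cos w)) (zeta w) := by
  have hl := t.h.right.ok.left
  have hr := t.h.right.ok.right.symm
  cases l
  · exact absurd hli id
  · exact b4_of (tuseLA hK t rfl rfl fiZ_a (li_a hli) (hK.inH hl k4aa_ok) (in_nZa hK hr hd)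
      OL.a OR.nil) al4iZ_st rg (by norm_num) (by norm_num) (by norm_num)
  · exact b4_of (tuseLA hK t rfl rfl fiZ_z (li_z hli) (hK.inH hl k4az_ok) (in_nZa hK hr hd)
      OL.z OR.nil) al4iZ_st rg (by norm_num) (by norm_num) (by norm_num)
  · exact b4_of (tuseLA hK t rfl rfl fiZ_s (li_s hli) (hK.inH hl k5as_ok) (in_nZa hK hr hd)
      (OL.s (by norm_num)) OR.nil) al4iZ_st rg (by norm_num) (by norm_num) (by norm_num)

theorem r4i_Zs (t : LDt K l .z dl ll dr rr w kl kr)
    (hli : LI l (yH l (RR w kl) (Complex.cos w)))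
    (rg : Rg (yH .z (RR w kr) (Complex.cos w)) (zeta w)) :
    B4 1730 2370 1680 2260 140 730 530 1070 120 630 4380 3560
      (yH .z (RR w kr) (Complex.cos w)) (zeta w) := by
  have hl := t.h.right.ok.left
  have hr := t.h.right.ok.right.symm
  cases l
  · exact absurd hli id
  · exact b4_of (tuseLA hK t rfl rfl fiZs_a (li_a hli) (hK.inH hl k4az_ok) (in_nZz hK hr)
      OL.a OR.nil) al4iZs_st rg (by norm_num) (by norm_num) (by norm_num)
  · exact b4_of (tuseLA hK t rfl rfl fiZs_z (li_z hli) (hK.inH hl k4zz_ok) (in_nZz hK hr)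
      OL.z OR.nil) al4iZs_st rg (by norm_num) (by norm_num) (by norm_num)
  · exact b4_of (tuseLA hK t rfl rfl fiZs_s (li_s hli) (hK.inH hl k5zs_ok) (in_nZz hK hr)
      (OL.s (by norm_num)) OR.nil) al4iZs_st rg (by norm_num) (by norm_num) (by norm_num)

end

end

end Pool.Agent.Work.MP_b30479_gt.G2.CN.TD
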