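import Pool.Agent.Work.MP_b30479_gt.G2.CN.RowD
import Pool.Agent.Work.MP_b30479_gt.G2.CN.TUse
import Pool.Agent.Work.MP_b30479_gt.G2.SZ9

/-!
# Rows for the two terms of a ring equation

The equation of a ring is `B w - π + i (Q + Q') = 0`.  `yQ Q = 1 - i Q / π`: the variable of the term
`Q`; `exp (2 π i yQ) = (R + T) / (R - T)`, and the sum of the two variables is
`1 + B w / π`.  `tuseQ`: bounds of `yQ` from a run, for ring variables in a box; `tuseZ`: a run for
a hinge, for ring variables in a box; `QB.ring`: the box of the ring variable from those of the terms.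
-/

namespace Pool.Agent.Work.MP_b30479_gt.G2.CN.TD

open Complex SR Ev

noncomputable section

/-- the variable of a term -/
def yQ (Q : ℂ) : ℂ := 1 - I * Q / Real.pi

lemma yQ_re (Q : ℂ) : (yQ Q).re = 1 + Q.im / Real.pi := by
  unfold yQ
  rw [Complex.sub_re, Complex.div_ofReal_re, Complex.one_re, Complex.I_mul_re]
  ring

lemma yQ_im (Q : ℂ) : (yQ Q).im = -Q.re / Real.pi := by
  unfold yQ
  rw [Complex.sub_im, Complex.div_ofReal_im, Complex.one_im, Complex.I_mul_im]
  ring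

lemma expQ {w k : ℂ} (hR : 0 < (RR w k).re) (h0 : 0 ≤ w.re) (h1 : w.re ≤ 3 / 2) (hk : 0 < k.re)
    (H : List QC) :
    cexp (2 * Real.pi * I * yQ (QQ w k)) * (tQ H).M.val (RR w k) (Complex.tan w) =
      (tQ H).N.val (RR w k) (Complex.tan w) := by
  obtain ⟨e1, e2⟩ := exp_QQ hR h0 h1 hk
  have hpi : (Real.pi : ℂ) ≠ 0 := by exact_mod_cast Real.pi_pos.ne'
  have e : 2 * Real.pi * I * yQ (QQ w k) = 2 * Real.pi * I + (QQ w k + QQ w k) := by
    unfold yQ
    field_simp
    linear_combination (-2 * QQ w k) * Complex.I_sq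
  have h3 : ((Complex.tan w + RR w k) * k) * ((RR w k - Complex.tan w) * k) = 1 := by
    rw [← e1, ← e2, ← Complex.exp_add, add_neg_cancel, Complex.exp_zero]
  change _ * (RR w k - Complex.tan w) = RR w k + Complex.tan w
  rw [e, Complex.exp_add, Complex.exp_two_pi_mul_I, Complex.exp_add, one_mul, e1]
  linear_combination (RR w k + Complex.tan w) * h3

/-! ### runs -/

section
variable {K : KFam} (hK : KOK K) {x : SK} {d : ℕ} {l : SK} {d' : ℕ} {l' : SK} {w R k : ℂ}
include hK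

/-- the bounds of a row for the term of the second ring -/
theorem tuseQ (h : HDt K x d l d' l' (RR w k) (Complex.cos w) k) (h0 : 0 < w.re)
    (h1 : w.re < 3 / 2) {B' : ℕ} (hB' : crs d' x l' = B') {zi : List GC} {o o' : List QC}
    {L' : List Grp} {gq : List GC} {n code : ℕ}
    (hr : trowOkQ x zi o o' L' gq n code = true) (hz : ∀ g ∈ zi, g.G (-zeta w))
    (ho : InH (K.K d l x) o) (ho' : InH (K.K d' l' x) o') (hL' : OR x d' B' l' L') :
    ∀ g ∈ gq, g.P (yQ (QQ w k)) := by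
  subst hB'
  have hc := h.kre
  have hc0 := ne_of_re hc
  have hT := tan_sq hc0
  have hR : 0 < (RR w k).re := r0_pos.trans h.Rre
  have hq : RR w k ^ 2 + 1 - 1 / Complex.cos w ^ 2 = 1 / k ^ 2 := by
    rw [h.hinge]
    ring
  have hm' := h.mem'
  have h2 := inH_ownR (x := x) ho'
  rw [← K.symm] at h2
  unfold trowOkQ at hr
  rw [Bool.and_eq_true, Bool.and_eq_true] at hr
  obtain ⟨hrow, k1, k2⟩ := hr
  have hl : AllOk (RR w k) (Complex.tan w)
      (tZ (zi.map GC.qi) :: tl o :: tr (ownR x o') :: L') := by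
    refine AllOk.cons ⟨_, expZ hc _, ?_⟩ (AllOk.cons (tl_ok hc0 hT (ho _ h.mem))
      (AllOk.cons (tr_ok (ne_of_re h.kre') hT hq (h2 k hm')) (hL' hK hT hq h.out')))
    intro Q hQ
    obtain ⟨g, hg, rfl⟩ := List.mem_map.1 hQ
    exact GC.imp (List.all_eq_true.1 k1 g hg) (hz g hg)
  intro g hg
  exact GC.spec (List.all_eq_true.1 k2 g hg) (row_sound hrow
    (rootT_mem hK h hT (tan_re h0 h1)) hl (g := tQ (gq.map GC.q)) (by simp)
    (expQ hR h0.le h1.le h.kre' _) g.q (List.mem_map_of_mem hg))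

/-- the bounds of a row for a hinge, with conditions for the ring variable -/
theorem tuseZ {k' : ℂ} (t : TDt K x d l d' l' w R k') {B B' : ℕ} (hB : crs d l x = B)
    (hB' : crs d' x l' = B') {gi zi : List GC} {o : List QC} {L : List Grp} {o' : List QC}
    {L' : List Grp} {gy gz gu : List GC} {n code : ℕ}
    (hr : trowOk x gi o (tZ (zi.map GC.qi) :: L) o' L' gy gz gu n code = true)
    (hzi : zi.all GC.oki = true)
    (hi : ∀ g ∈ gi, g.G (yH x R (Complex.cos w))) (hz : ∀ g ∈ zi, g.G (-zeta w))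
    (ho : InH (K.K d l x) o) (ho' : InH (K.K d' l' x) o') (hL : OL d B l L)
    (hL' : OR x d' B' l' L') :
    (∀ g ∈ gy, g.P (yH x R (Complex.cos w))) ∧ (∀ g ∈ gz, g.P (-zeta w)) ∧
      ∀ g ∈ gu, g.P (yH x R (Complex.cos w) - zeta w) := by
  refine trow hK t hr hi (ho _ t.h.mem) ho' ?_ ?_
  · intro q q' hT hq e1 e2
    refine AllOk.cons ⟨_, expZ t.h.kre _, ?_⟩ (hL hK hT hq (by rw [e1, e2, ← hB]; exact t.h.out))
    intro Q hQ
    obtain ⟨g, hg, rfl⟩ := List.mem_map.1 hQ
    exact GC.imp (List.all_eq_true.1 hzi g hg) (hz g hg)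
  · intro q q' hT hq h
    exact hL' hK hT hq (by rw [← hB']; exact h)

end

/-! ### boxes -/

/-- bounds of a number, in units of `1 / 10000` -/
structure QB (a b c e : ℤ) (y : ℂ) : Prop where
  a : (a : ℝ) / 10000 ≤ y.re
  b : y.re ≤ (b : ℝ) / 10000
  c : (c : ℝ) / 10000 ≤ y.im
  e : y.im ≤ (e : ℝ) / 10000

/-- the conditions of a box: upper bound of the real part, bounds of the imaginary part -/
lemma zi2 {a b c e : ℤ} {y : ℂ} (h : QB a b c e y) (ha : 0 ≤ a) {m : ℕ} {a0 b0 c0 : ℤ}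
    (h1 : b ≤ m) :
    ∀ g ∈ [GC.arc 0 m a0 b0, GC.lo c c0], g.G y := by
  have ha' : (0 : ℝ) ≤ (a : ℝ) / 10000 := div_nonneg (by exact_mod_cast ha) (by norm_num)
  have h1' : (b : ℝ) ≤ m := by exact_mod_cast h1
  have h2 := h.a
  have h3 := h.b
  intro g hg
  simp only [List.mem_cons, List.not_mem_nil, or_false] at hg
  rcases hg with rfl | rfl
  · refine ⟨by rw [Nat.cast_zero, zero_div]; linarith only [ha', h2], ?_⟩
    linarith only [h1', h3, div_le_div_of_nonneg_right h1' (by norm_num : (0 : ℝ) ≤ 10000)]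
  · exact h.c

/-- the conditions of a box -/
lemma zi4 {a b c e : ℤ} {y : ℂ} (h : QB a b c e y) {n m n' m' : ℕ} {a0 b0 a1 b1 c0 e0 : ℤ}
    (g1 : (n : ℤ) ≤ a) (g2 : b ≤ m) (g3 : (n' : ℤ) ≤ a) (g4 : b ≤ m') :
    ∀ g ∈ [GC.arc n m a0 b0, GC.arc n' m' a1 b1, GC.lo c c0, GC.hi e e0], g.G y := by
  have g1' : (n : ℝ) ≤ a := by exact_mod_cast g1
  have g2' : (b : ℝ) ≤ m := by exact_mod_cast g2
  have g3' : (n' : ℝ) ≤ a := by exact_mod_cast g3
  have g4' : (b : ℝ) ≤ m' := by exact_mod_cast g4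
  have h2 := h.a
  have h3 := h.b
  have p := (by norm_num : (0 : ℝ) ≤ 10000)
  have l1 := div_le_div_of_nonneg_right g1' p
  have l2 := div_le_div_of_nonneg_right g2' p
  have l3 := div_le_div_of_nonneg_right g3' p
  have l4 := div_le_div_of_nonneg_right g4' p
  intro g hg
  simp only [List.mem_cons, List.not_mem_nil, or_false] at hg
  rcases hg with rfl | rfl | rfl | rfl
  · exact ⟨by linarith only [g1', h2], by linarith only [g2', h3]⟩
  · exact ⟨by linarith only [g3', h2], by linarith only [g4', h3]⟩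
  · exact h.c
  · exact h.e

/-! ### the ring equation -/

section
variable {K : KFam} {d : ℕ} {l x : SK} {dl : ℕ} {ll : SK} {dr : ℕ} {rr : SK} {w kl kr : ℂ}

lemma ring_rel (h : RDt K d l x dl ll dr rr w kl kr) :
    (crs d l x : ℂ) * -zeta w = yQ (QQ w kl) + yQ (QQ w kr) - 1 := by
  have hpi : (Real.pi : ℂ) ≠ 0 := by exact_mod_cast Real.pi_pos.ne'
  have e := h.eq
  unfold yQ zeta
  field_simp
  linear_combination e

lemma end_rel (h : RDe K d x dr rr w kr) : (crs d .e x : ℂ) * -zeta w = yQ (QQ w kr) := by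
  have hpi : (Real.pi : ℂ) ≠ 0 := by exact_mod_cast Real.pi_pos.ne'
  have e := h.eq
  unfold yQ zeta
  field_simp
  linear_combination e

/-- the box of the ring variable of an interior ring -/
lemma QB.ring (h : RDt K d l x dl ll dr rr w kl kr) {a b c e a' b' c' e' : ℤ}
    (q : QB a b c e (yQ (QQ w kl))) (q' : QB a' b' c' e' (yQ (QQ w kr))) {B : ℕ}
    (hB : crs d l x = B) :
    (a + a' - 10000 : ℝ) / 10000 ≤ B * (-zeta w).re ∧
    B * (-zeta w).re ≤ (b + b' - 10000 : ℝ) / 10000 ∧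
    (c + c' : ℝ) / 10000 ≤ B * (-zeta w).im ∧ B * (-zeta w).im ≤ (e + e' : ℝ) / 10000 := by
  subst hB
  have e0 := ring_rel h
  have e1 := congrArg Complex.re e0
  have e2 := congrArg Complex.im e0
  rw [Complex.mul_re, Complex.natCast_re, Complex.natCast_im, zero_mul, sub_zero, Complex.sub_re,
    Complex.add_re, Complex.one_re] at e1
  rw [Complex.mul_im, Complex.natCast_re, Complex.natCast_im, zero_mul, add_zero, Complex.sub_im,
    Complex.add_im, Complex.one_im] at e2
  rw [e1, e2]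
  have := q.a; have := q.b; have := q.c; have := q.e
  have := q'.a; have := q'.b; have := q'.c; have := q'.e
  refine ⟨?_, ?_, ?_, ?_⟩ <;> linarith

/-- the box of the ring variable of an end -/
lemma QB.end (h : RDe K d x dr rr w kr) {a' b' c' e' : ℤ}
    (q' : QB a' b' c' e' (yQ (QQ w kr))) {B : ℕ} (hB : crs d .e x = B) :
    (a' : ℝ) / 10000 ≤ B * (-zeta w).re ∧ B * (-zeta w).re ≤ (b' : ℝ) / 10000 ∧
    (c' : ℝ) / 10000 ≤ B * (-zeta w).im ∧ B * (-zeta w).im ≤ (e' : ℝ) / 10000 := by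
  subst hB
  have e0 := end_rel h
  have e1 := congrArg Complex.re e0
  have e2 := congrArg Complex.im e0
  rw [Complex.mul_re, Complex.natCast_re, Complex.natCast_im, zero_mul, sub_zero] at e1
  rw [Complex.mul_im, Complex.natCast_re, Complex.natCast_im, zero_mul, add_zero] at e2
  rw [e1, e2]
  exact ⟨q'.a, q'.b, q'.c, q'.e⟩

end

/-! ### rough bounds of a term -/

/-- rough bounds of the variable of a term -/
structure QR (x : SK) (y : ℂ) : Prop where
  lo : 1 / 2 < y.re
  hi : y.re < 3 / 2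
  le : x = .a → y.re ≤ 1

lemma qr_of {x : SK} {d : ℕ} {l : SK} {d' : ℕ} {l' : SK} {w k : ℂ}
    (h : HDt K0 x d l d' l' (RR w k) (Complex.cos w) k) (h4 : 4 ≤ crs d l x) (h0 : 0 < w.re)
    (h1 : w.re < 3 / 2) : QR x (yQ (QQ w k)) := by
  have hpi := Real.pi_pos
  have hm : Complex.cos w ∈ Poly (vt (rty d l x)) := Z8.Poly_of_U h.mem
  have f := (Z8.side_of h).fa (Z8.rty_typS h4) hm h0 h1.le
  have f1 := abs_lt.1 f.half
  have e : (yQ (QQ w k)).re = 1 + (QQ w k).im / Real.pi := yQ_re _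
  refine ⟨?_, ?_, fun hx => ?_⟩
  · rw [e]
    have : -(1 / 2) < (QQ w k).im / Real.pi := by
      rw [lt_div_iff₀ hpi]
      linarith only [f1]
    linarith only [this]
  · rw [e]
    have : (QQ w k).im / Real.pi < 1 / 2 := by
      rw [div_lt_iff₀ hpi]
      linarith only [f1]
    linarith only [this]
  · rw [e]
    have := div_nonpos_of_nonpos_of_nonneg (f.nonpos (Or.inr hx)) hpi.le
    linarith only [this]

/-- bounds from the conditions of a row -/
lemma qb_of {x : SK} {y : ℂ} (r : QR x y) {m n m' : ℕ} {n0 : ℕ} {a0 b0 a1 b1 c c0 e e0 : ℤ}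
    (h : ∀ g ∈ [GC.arc n0 m a0 b0, GC.arc n m' a1 b1, GC.lo c c0, GC.hi e e0], g.P y)
    (g1 : n0 ≤ 5000) (g2 : 15000 ≤ m') : QB m n c e y := by
  have G1 : (n0 : ℝ) ≤ 5000 := by exact_mod_cast g1
  have G2 : (15000 : ℝ) ≤ m' := by exact_mod_cast g2
  have h1 := h _ List.mem_cons_self
  have h2 := h _ (List.mem_cons_of_mem _ List.mem_cons_self)
  have h3 := h _ (List.mem_cons_of_mem _ (List.mem_cons_of_mem _ List.mem_cons_self))
  have h4 := h _ (List.mem_cons_of_mem _ (List.mem_cons_of_mem _ (List.mem_cons_of_mem _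
    List.mem_cons_self)))
  exact ⟨(arc_lb h1 (by linarith only [G1, r, r.lo])).le, (arc_ub h2 (by linarith only [G2, r, r.hi])).le, h3, h4⟩

/-- bounds from the conditions of a row, side `a` -/
lemma qb_of_a {y : ℂ} (r : QR .a y) {m : ℕ} {n0 : ℕ} {a0 b0 c c0 e e0 : ℤ}
    (h : ∀ g ∈ [GC.arc n0 m a0 b0, GC.lo c c0, GC.hi e e0], g.P y)
    (g1 : n0 ≤ 5000) : QB m 10000 c e y := by
  have G1 : (n0 : ℝ) ≤ 5000 := by exact_mod_cast g1
  have h1 := h _ List.mem_cons_self
  have h3 := h _ (List.mem_cons_of_mem _ List.mem_cons_self)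
  have h4 := h _ (List.mem_cons_of_mem _ (List.mem_cons_of_mem _ List.mem_cons_self))
  exact ⟨(arc_lb h1 (by linarith only [G1, r, r.lo])).le, by have := r.le rfl; norm_num; linarith only [this], h3, h4⟩

end

end Pool.Agent.Work.MP_b30479_gt.G2.CN.TD
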