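import Pool.Agent.Work.MP_b30479_gt.G2.CN.TYa
import Pool.Agent.Work.MP_b30479_gt.G2.CN.TDatc
import Pool.Agent.Work.MP_b30479_gt.G2.CN.TDatd

/-!
# Types of the sides of a ring

`NT`: kind of the hinge, digit and next side of the ring behind it; `NT.Is`; `nt_one`, `nt_all`: the
types of the sides next to a digit `1` and of all sides.
-/

namespace Pool.Agent.Work.MP_b30479_gt.G2.CN.TD

open Complex SR Ev

noncomputable section

/-- types of sides -/
inductive NT
  | u | a1 | s1 | a2 | s2 | e2 | p2a | p2s | p2e | p3a | p3s | p3e | pZ | pS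
  deriving DecidableEq

namespace NT

/-- kind of the hinge -/
def x : NT → SK
  | .u => .a | .a1 => .s | .s1 => .s | .a2 => .s | .s2 => .s | .e2 => .s | .p2a => .a | .p2s => .a
  | .p2e => .a | .p3a => .a | .p3s => .a | .p3e => .a | .pZ => .a | .pS => .z

/-- conditions for the ring behind the hinge -/
def nb : NT → List QC
  | .u => k2as | .a1 => k2as | .s1 => k3ss | .a2 => k3as | .s2 => k4ss | .e2 => k3es | .p2a => k2aa
  | .p2s => k3as | .p2e => k2ea | .p3a => k3aa | .p3s => k4as | .p3e => k3ea | .pZ => nZa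
  | .pS => nZz

/-- its outer value -/
def L : NT → List Grp
  | .u => tD .a 2 PST | .a1 => tD .s 2 (mirH PA1) | .s1 => tD .s 3 PS2 | .a2 => tD .s 3 (mirH PA2)
  | .s2 => tD .s 4 PS2 | .e2 => tE .s 3 | .p2a => tD .a 2 (mirH PA2) | .p2s => tD .a 3 PS2
  | .p2e => tE .a 2 | .p3a => tD .a 3 (mirH PA2) | .p3s => tD .a 4 PS2 | .p3e => tE .a 3
  | .pZ => [] | .pS => []

/-- the hinge of kind `x` to the ring `(d, x, l)` has the type -/
def Is : NT → SK → ℕ → SK → Prop
  | .u, x, d, l => x = .a ∧ d = 1 ∧ l = .s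
  | .a1, x, d, l => x = .s ∧ d = 1 ∧ l = .a
  | .s1, x, d, l => x = .s ∧ d = 1 ∧ l = .s
  | .a2, x, d, l => x = .s ∧ d = 2 ∧ l = .a
  | .s2, x, d, l => x = .s ∧ d = 2 ∧ l = .s
  | .e2, x, d, l => x = .s ∧ d = 2 ∧ l = .e
  | .p2a, x, d, l => x = .a ∧ d = 2 ∧ l = .a
  | .p2s, x, d, l => x = .a ∧ d = 2 ∧ l = .s
  | .p2e, x, d, l => x = .a ∧ d = 2 ∧ l = .e
  | .p3a, x, d, l => x = .a ∧ d = 3 ∧ l = .a
  | .p3s, x, d, l => x = .a ∧ d = 3 ∧ l = .s
  | .p3e, x, d, l => x = .a ∧ d = 3 ∧ l = .e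
  | .pZ, x, d, _ => x = .a ∧ 4 ≤ d
  | .pS, x, _, _ => x = .z

/-- the side is next to a digit `1` -/
def one : NT → Bool
  | .u => true | .a1 => true | .s1 => true | .a2 => true | .s2 => true | .e2 => true | _ => false

lemma is_x {t : NT} {x : SK} {d : ℕ} {l : SK} (h : t.Is x d l) : x = t.x := by
  cases t
  · exact h.1
  · exact h.1
  · exact h.1
  · exact h.1
  · exact h.1
  · exact h.1
  · exact h.1
  · exact h.1
  · exact h.1
  · exact h.1
  · exact h.1
  · exact h.1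
  · exact h.1
  · exact h

end NT

lemma far_s' {l' : SK} (h : ROK 1 .a l') : l' = .s := by
  rcases (h.one rfl).1 with h1 | h1
  · exact absurd h1 (by decide)
  · exact h1

section
variable {K : KFam} (hK : KOK K)
include hK

lemma NT.inn {t : NT} {x : SK} {d : ℕ} {l : SK} (h : t.Is x d l) (hr : ROK d l x) :
    InH (K.K d l x) t.nb := by
  cases t
  · obtain ⟨rfl, rfl, rfl⟩ := h; exact hK.inH hr k2as_ok
  · obtain ⟨rfl, rfl, rfl⟩ := h; exact hK.inH hr k2as_ok
  · obtain ⟨rfl, rfl, rfl⟩ := h; exact hK.inH hr k3ss_ok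
  · obtain ⟨rfl, rfl, rfl⟩ := h; exact hK.inH hr k3as_ok
  · obtain ⟨rfl, rfl, rfl⟩ := h; exact hK.inH hr k4ss_ok
  · obtain ⟨rfl, rfl, rfl⟩ := h; exact hK.inH hr k3es_ok
  · obtain ⟨rfl, rfl, rfl⟩ := h; exact hK.inH hr k2aa_ok
  · obtain ⟨rfl, rfl, rfl⟩ := h; exact hK.inH hr k3as_ok
  · obtain ⟨rfl, rfl, rfl⟩ := h; exact hK.inH hr k2ea_ok
  · obtain ⟨rfl, rfl, rfl⟩ := h; exact hK.inH hr k3aa_ok
  · obtain ⟨rfl, rfl, rfl⟩ := h; exact hK.inH hr k4as_ok
  · obtain ⟨rfl, rfl, rfl⟩ := h; exact hK.inH hr k3ea_ok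
  · obtain ⟨rfl, h4⟩ := h; exact in_nZa hK hr h4
  · obtain rfl := h; exact hK.inU hr nZz_ok (lo_le hr (by decide)) (min_le_right _ _)

omit hK in
lemma NT.or {t : NT} {x : SK} {d : ℕ} {l : SK} (h : t.Is x d l) : OR x d (crs d x l) l t.L := by
  cases t
  · obtain ⟨rfl, rfl, rfl⟩ := h; exact OR.st (by decide)
  · obtain ⟨rfl, rfl, rfl⟩ := h; exact OR.a1 (by norm_num)
  · obtain ⟨rfl, rfl, rfl⟩ := h; exact OR.s
  · obtain ⟨rfl, rfl, rfl⟩ := h; exact OR.a
  · obtain ⟨rfl, rfl, rfl⟩ := h; exact OR.s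
  · obtain ⟨rfl, rfl, rfl⟩ := h; exact OR.e
  · obtain ⟨rfl, rfl, rfl⟩ := h; exact OR.a
  · obtain ⟨rfl, rfl, rfl⟩ := h; exact OR.s
  · obtain ⟨rfl, rfl, rfl⟩ := h; exact OR.e
  · obtain ⟨rfl, rfl, rfl⟩ := h; exact OR.a
  · obtain ⟨rfl, rfl, rfl⟩ := h; exact OR.s
  · obtain ⟨rfl, rfl, rfl⟩ := h; exact OR.e
  · exact OR.nil
  · exact OR.nil

end

/-- the type of a side of a ring -/
lemma nt_all {x : SK} {d : ℕ} {l : SK} {d' : ℕ} {l' : SK} (h : HOK x d l d' l') (hd : 4 ≤ d) :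
    ∃ t : NT, t.Is x d' l' := by
  have hr := h.right
  have hpos := hr.pos
  have hz : d' < 4 → l' ≠ .z := fun h4 h5 => by
    have := hr.zr h5
    omega
  cases x
  · exact absurd rfl h.ne
  · by_cases h4 : 4 ≤ d'
    · exact ⟨.pZ, rfl, h4⟩
    · have h5 : d' = 1 ∨ d' = 2 ∨ d' = 3 := by omega
      rcases h5 with rfl | rfl | rfl
      · have hs : l' = .s := far_s' hr
        exact ⟨.u, rfl, rfl, hs⟩
      · cases l'
        · exact ⟨.p2e, rfl, rfl, rfl⟩
        · exact ⟨.p2a, rfl, rfl, rfl⟩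
        · exact absurd rfl (hz (by norm_num))
        · exact ⟨.p2s, rfl, rfl, rfl⟩
      · cases l'
        · exact ⟨.p3e, rfl, rfl, rfl⟩
        · exact ⟨.p3a, rfl, rfl, rfl⟩
        · exact absurd rfl (hz (by norm_num))
        · exact ⟨.p3s, rfl, rfl, rfl⟩
  · exact ⟨.pS, rfl⟩
  · have h5 : d' = 1 ∨ d' = 2 := by
      have := h.one rfl
      omega
    rcases h5 with rfl | rfl
    · cases l'
      · exact absurd rfl (hr.one rfl).2.2
      · exact ⟨.a1, rfl, rfl, rfl⟩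
      · exact absurd rfl (hz (by norm_num))
      · exact ⟨.s1, rfl, rfl, rfl⟩
    · cases l'
      · exact ⟨.e2, rfl, rfl, rfl⟩
      · exact ⟨.a2, rfl, rfl, rfl⟩
      · exact absurd rfl (hz (by norm_num))
      · exact ⟨.s2, rfl, rfl, rfl⟩

/-- a side next to a digit `1` -/
lemma NT.one_of {t : NT} {x : SK} {d' : ℕ} {l' : SK} (h : t.Is x d' l') (hr : ROK d' x l')
    (hx : x = .s ∨ d' = 1) : t.one = true := by
  cases t
  · rfl
  · rfl
  · rfl
  · rfl
  · rfl
  · rfl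
  · obtain ⟨h1, h2, -⟩ := h; rcases hx with h3 | h3
    · rw [h3] at h1; exact absurd h1 (by decide)
    · omega
  · obtain ⟨h1, h2, -⟩ := h; rcases hx with h3 | h3
    · rw [h3] at h1; exact absurd h1 (by decide)
    · omega
  · obtain ⟨h1, h2, -⟩ := h; rcases hx with h3 | h3
    · rw [h3] at h1; exact absurd h1 (by decide)
    · omega
  · obtain ⟨h1, h2, -⟩ := h; rcases hx with h3 | h3
    · rw [h3] at h1; exact absurd h1 (by decide)
    · omega
  · obtain ⟨h1, h2, -⟩ := h; rcases hx with h3 | h3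
    · rw [h3] at h1; exact absurd h1 (by decide)
    · omega
  · obtain ⟨h1, h2, -⟩ := h; rcases hx with h3 | h3
    · rw [h3] at h1; exact absurd h1 (by decide)
    · omega
  · obtain ⟨h1, h2⟩ := h; rcases hx with h3 | h3
    · rw [h3] at h1; exact absurd h1 (by decide)
    · omega
  · obtain rfl := h
    have := hr.zl rfl
    rcases hx with h3 | h3
    · exact absurd h3 (by decide)
    · omega

/-! ### the own value -/

/-- the check -/
noncomputable def k8chk : Bool :=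
  [SK.e, .a, .z, .s].all fun l => [SK.a, .z, .s].all fun x =>
    okH k8ss (pg8 l x) && (decide (l = .s) || decide (x = .s) || okH k8ss (pg7 l x))

theorem k8chk_ok : k8chk = true := by decide +kernel

lemma in_k8 {K : KFam} (hK : KOK K) {d : ℕ} {l x : SK} (h : ROK d l x) (hd : 7 ≤ d)
    (hx : x ≠ .e) : InH (K.K d l x) k8ss := by
  apply hK.inH h
  have h1 := List.all_eq_true.1 k8chk_ok l (by cases l <;> simp)
  have h2 := List.all_eq_true.1 h1 x (by cases x <;> simp_all)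
  rw [Bool.and_eq_true] at h2
  by_cases h8 : 8 ≤ crs d l x
  · unfold pg
    rw [if_neg (by omega), if_neg (by omega), if_neg (by omega), if_neg (by omega),
      if_neg (by omega), if_neg (by omega)]
    exact h2.1
  · have h7 : crs d l x = 7 := by
      unfold crs at h8 ⊢
      omega
    rw [h7]
    have h3 := h2.2
    rw [Bool.or_eq_true, Bool.or_eq_true, decide_eq_true_eq, decide_eq_true_eq] at h3
    rcases h3 with (h3 | h3) | h3
    · subst h3
      unfold crs at h8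
      simp only [SK.u] at h8
      omega
    · subst h3
      unfold crs at h8
      simp only [SK.u] at h8
      omega
    · exact h3

/-! ### tables of boxes -/

/-- four bounds, in units of `1 / 10000` -/
structure I4 where
  a : ℤ
  b : ℤ
  c : ℤ
  e : ℤ

/-- the box -/
def I4.In (I : I4) (y : ℂ) : Prop := QB I.a I.b I.c I.e y

end

end Pool.Agent.Work.MP_b30479_gt.G2.CN.TD
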