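import Pool.Agent.Work.MP_b30479_gt.G2.WLocD
import Pool.Agent.Work.MP_b30479_gt.G2.CN.TY7A
import Pool.Agent.Work.MP_b30479_gt.G2.CN.M3Dat
import Pool.Agent.Work.MP_b30479_gt.G2.CN.TYn
import Pool.Agent.Work.MP_b30479_gt.G2.CN.TUt

/-!
# Rings with seven or more crossings next to a digit `1`

`q7`, `q8`: boxes of the variables of the terms; `g7`, `g8`, `h8`: regions of the ring variable;
`rw7`, `rw8`, `rv8`: windows, by the type of the side.
-/

namespace Pool.Agent.Work.MP_b30479_gt.G2.CN.TD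

open Complex SR

noncomputable section

/-- is the hinge split -/
def NT.us : NT → ℕ
  | .a1 => 1 | .s1 => 1 | .a2 => 1 | .s2 => 1 | .e2 => 1 | _ => 0

lemma NT.us_eq (τ : NT) : τ.us = τ.x.u := by cases τ <;> rfl

/-- the class at the side, as seen from the ring, or behind the digit `1` -/
def NT.C : NT → Cl
  | .u => .one | .a1 => .one | .s1 => .one | .a2 => .two | .s2 => .two | .e2 => .twoE
  | .p2a => .two | .p2s => .two | .p2e => .twoE | .p3a => .three | .p3s => .three | .p3e => .threeE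
  | .pZ => .ring | .pS => .ring

/-- the side is next to a ring -/
def NT.ring : NT → Bool
  | .pZ => true | .pS => true | _ => false

/-- boxes of the terms, 7 crossings -/
def q7 : NT → I4
  | .u => ⟨8612, 9549, -1368, -453⟩
  | .a1 => ⟨9969, 10784, -1560, -661⟩
  | .s1 => ⟨9912, 10626, -1477, -737⟩
  | .a2 => ⟨9816, 10463, -1454, -742⟩
  | .s2 => ⟨9798, 10367, -1417, -781⟩
  | .e2 => ⟨9952, 10375, -1126, -644⟩
  | .p2a => ⟨8848, 9751, -1389, -497⟩
  | .p2s => ⟨9033, 9760, -1355, -595⟩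
  | .p2e => ⟨9015, 9527, -785, -278⟩
  | .p3a => ⟨9174, 9852, -1368, -644⟩
  | .p3s => ⟨9266, 9856, -1355, -694⟩
  | .p3e => ⟨9323, 9769, -1047, -541⟩
  | .pZ => ⟨9305, 10000, -1571, -677⟩
  | .pS => ⟨9542, 10319, -1571, -710⟩

/-- regions of the ring variable, 7 crossings -/
def g7 : NT → I4
  | .u => ⟨1032, 1410, -400, -104⟩
  | .a1 => ⟨1072, 1388, -392, -117⟩
  | .s1 => ⟨1065, 1369, -381, -126⟩
  | .a2 => ⟨1053, 1348, -379, -127⟩
  | .s2 => ⟨1051, 1336, -374, -132⟩
  | .e2 => ⟨1070, 1337, -338, -115⟩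
  | .p2a => ⟨1065, 1329, -394, -135⟩
  | .p2s => ⟨1092, 1330, -389, -149⟩
  | .p2e => ⟨1089, 1297, -308, -104⟩
  | .p3a => ⟨1112, 1343, -391, -156⟩
  | .p3s => ⟨1125, 1344, -389, -163⟩
  | .p3e => ⟨1133, 1332, -345, -142⟩
  | .pZ => ⟨1131, 1365, -400, -161⟩
  | .pS => ⟨1164, 1410, -400, -166⟩

/-- bounds of the terms, at least 8 crossings -/
def q8 : NT → ℤ × ℤ
  | .u => (10000, -1410)
  | .a1 => (10806, -1581)
  | .s1 => (10635, -1491)
  | .a2 => (10480, -1481)
  | .s2 => (10380, -1454)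
  | .e2 => (10384, -1156)
  | .p2a => (10000, -1423)
  | .p2s => (10000, -1386)
  | .p2e => (10000, -805)
  | .p3a => (10000, -1400)
  | .p3s => (10000, -1403)
  | .p3e => (10000, -1086)
  | .pZ => (10000, -1626)
  | .pS => (10328, -1626)

/-- regions of the ring variable, at least 8 crossings -/
def g8 : NT → I4
  | .u => ⟨0, 1291, -360, 0⟩
  | .a1 => ⟨0, 1238, -357, 0⟩
  | .s1 => ⟨0, 1219, -347, 0⟩
  | .a2 => ⟨0, 1201, -346, 0⟩
  | .s2 => ⟨0, 1190, -343, 0⟩
  | .e2 => ⟨0, 1191, -310, 0⟩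
  | .p2a => ⟨0, 1250, -355, 0⟩
  | .p2s => ⟨0, 1250, -350, 0⟩
  | .p2e => ⟨0, 1250, -277, 0⟩
  | .p3a => ⟨0, 1250, -352, 0⟩
  | .p3s => ⟨0, 1250, -352, 0⟩
  | .p3e => ⟨0, 1250, -312, 0⟩
  | .pZ => ⟨0, 1250, -360, 0⟩
  | .pS => ⟨0, 1291, -360, 0⟩

/-- regions of the ring variable of an end, at least 8 crossings -/
def h8 : NT → I4
  | .u => ⟨0, 1250, -172, 0⟩
  | .a1 => ⟨0, 1201, -172, 0⟩
  | .s1 => ⟨0, 1182, -166, 0⟩
  | .a2 => ⟨0, 1165, -165, 0⟩
  | .s2 => ⟨0, 1154, -162, 0⟩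
  | .e2 => ⟨0, 1154, -129, 0⟩
  | _ => ⟨0, 10000, -10000, 0⟩

/-- upper bound of the real part, lower bound of the imaginary part -/
structure QU (b c : ℤ) (y : ℂ) : Prop where
  b : y.re ≤ (b : ℝ) / 10000
  c : (c : ℝ) / 10000 ≤ y.im

lemma qu_of {x : SK} {y : ℂ} (r : QR x y) {n m' : ℕ} {a1 b1 c c0 : ℤ}
    (h : ∀ g ∈ [GC.arc n m' a1 b1, GC.lo c c0], g.P y) (g2 : 15000 ≤ m') : QU n c y := by
  have G2 : (15000 : ℝ) ≤ m' := by exact_mod_cast g2
  exact ⟨(arc_ub (h _ List.mem_cons_self) (by linarith only [G2, r, r.hi])).le,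
    h _ (List.mem_cons_of_mem _ List.mem_cons_self)⟩

lemma ql_of {y : ℂ} (r : QR .a y) {c c0 : ℤ} (h : ∀ g ∈ [GC.lo c c0], g.P y) :
    QU 10000 c y :=
  ⟨by have := r.le rfl; norm_num; linarith only [this], h _ List.mem_cons_self⟩

lemma qb_of_b {y : ℂ} (r : QR .a y) {m n m' : ℕ} {n0 : ℕ} {a0 b0 a1 b1 c c0 e e0 : ℤ}
    (h : ∀ g ∈ [GC.arc n0 m a0 b0, GC.arc n m' a1 b1, GC.lo c c0, GC.hi e e0], g.P y)
    (g1 : n0 ≤ 5000) (g2 : 12000 ≤ m') : QB m n c e y := by
  have G1 : (n0 : ℝ) ≤ 5000 := by exact_mod_cast g1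
  have G2 : (12000 : ℝ) ≤ m' := by exact_mod_cast g2
  have h1 := h _ List.mem_cons_self
  have h2 := h _ (List.mem_cons_of_mem _ List.mem_cons_self)
  have h3 := h _ (List.mem_cons_of_mem _ (List.mem_cons_of_mem _ List.mem_cons_self))
  have h4 := h _ (List.mem_cons_of_mem _ (List.mem_cons_of_mem _ (List.mem_cons_of_mem _
    List.mem_cons_self)))
  exact ⟨(arc_lb h1 (by linarith only [G1, r, r.lo])).le, (arc_ub h2 (by linarith only [G2, r, r.le rfl])).le, h3, h4⟩

/-! ### regions -/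

/-- the region follows from the boxes of the terms -/
def im7 (B : ℤ) (q q' Z G : I4) : Bool :=
  (decide (G.a * B ≤ q.a + q'.a - 10000) || decide (G.a ≤ Z.a)) &&
  (decide (q.b + q'.b - 10000 ≤ G.b * B) || decide (Z.b ≤ G.b)) &&
  (decide (G.c * B ≤ q.c + q'.c) || decide (G.c ≤ Z.c)) &&
  (decide (q.e + q'.e ≤ G.e * B) || decide (Z.e ≤ G.e))

lemma im7_use {B : ℕ} (hB : 0 < B) {q q' Z G : I4} {y : ℂ} (h : im7 B q q' Z G = true)
    (hz : Z.In y)
    (e : (q.a + q'.a - 10000 : ℝ) / 10000 ≤ B * y.re ∧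
      B * y.re ≤ (q.b + q'.b - 10000 : ℝ) / 10000 ∧
      (q.c + q'.c : ℝ) / 10000 ≤ B * y.im ∧ B * y.im ≤ (q.e + q'.e : ℝ) / 10000) : G.In y := by
  have hB' : (0 : ℝ) < B := by exact_mod_cast hB
  obtain ⟨e1, e2, e3, e4⟩ := e
  unfold im7 at h
  simp only [Bool.and_eq_true, Bool.or_eq_true, decide_eq_true_eq] at h
  obtain ⟨⟨⟨h1, h2⟩, h3⟩, h4⟩ := h
  have z1 := hz.a
  have z2 := hz.b
  have z3 := hz.c
  have z4 := hz.e
  refine ⟨?_, ?_, ?_, ?_⟩
  · rcases h1 with h1 | h1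
    · have h5 : (G.a : ℝ) * B ≤ q.a + q'.a - 10000 := by exact_mod_cast h1
      rw [div_le_iff₀ (by norm_num)]
      nlinarith only [e1, h5, hB']
    · have h5 : (G.a : ℝ) ≤ Z.a := by exact_mod_cast h1
      linarith only [z1, h5]
  · rcases h2 with h2 | h2
    · have h5 : (q.b : ℝ) + q'.b - 10000 ≤ G.b * B := by exact_mod_cast h2
      rw [le_div_iff₀ (by norm_num)]
      nlinarith only [e2, h5, hB']
    · have h5 : (Z.b : ℝ) ≤ G.b := by exact_mod_cast h2
      linarith only [z2, h5]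
  · rcases h3 with h3 | h3
    · have h5 : (G.c : ℝ) * B ≤ q.c + q'.c := by exact_mod_cast h3
      rw [div_le_iff₀ (by norm_num)]
      nlinarith only [e3, h5, hB']
    · have h5 : (G.c : ℝ) ≤ Z.c := by exact_mod_cast h3
      linarith only [z3, h5]
  · rcases h4 with h4 | h4
    · have h5 : (q.e : ℝ) + q'.e ≤ G.e * B := by exact_mod_cast h4
      rw [le_div_iff₀ (by norm_num)]
      nlinarith only [e4, h5, hB']
    · have h5 : (Z.e : ℝ) ≤ G.e := by exact_mod_cast h4
      linarith only [z4, h5]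

/-- the region follows from the bounds of the terms -/
def im8 (B b c : ℤ) (Z G : I4) : Bool :=
  ((decide (b ≤ G.b * B) && decide (0 ≤ G.b)) || decide (Z.b ≤ G.b)) &&
  ((decide (G.c * B ≤ c) && decide (G.c ≤ 0)) || decide (G.c ≤ Z.c)) &&
  decide (G.a ≤ Z.a) && decide (Z.e ≤ G.e)

lemma im8_use {B B0 : ℕ} (hB0 : 0 < B0) (hB : B0 ≤ B) {b c : ℤ} {Z G : I4} {y : ℂ}
    (h : im8 B0 b c Z G = true) (hz : Z.In y) (e2 : B * y.re ≤ (b : ℝ) / 10000)
    (e3 : (c : ℝ) / 10000 ≤ B * y.im) : G.In y := by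
  have hB' : (0 : ℝ) < B0 := by exact_mod_cast hB0
  have hB2 : (B0 : ℝ) ≤ B := by exact_mod_cast hB
  unfold im8 at h
  simp only [Bool.and_eq_true, Bool.or_eq_true, decide_eq_true_eq] at h
  obtain ⟨⟨⟨h1, h2⟩, h3⟩, h4⟩ := h
  have z1 := hz.a
  have z2 := hz.b
  have z3 := hz.c
  have z4 := hz.e
  have g3 : (G.a : ℝ) ≤ Z.a := by exact_mod_cast h3
  have g4 : (Z.e : ℝ) ≤ G.e := by exact_mod_cast h4
  refine ⟨by linarith only [z1, g3], ?_, ?_, by linarith only [z4, g4]⟩
  · rcases h1 with ⟨h1, h5⟩ | h1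
    · have h6 : (b : ℝ) ≤ G.b * B0 := by exact_mod_cast h1
      have h7 : (0 : ℝ) ≤ G.b := by exact_mod_cast h5
      have h8 : (G.b : ℝ) * B0 ≤ G.b * B := mul_le_mul_of_nonneg_left hB2 h7
      have h9 : (B : ℝ) * y.re ≤ B * ((G.b : ℝ) / 10000) := by
        rw [mul_div_assoc']
        refine e2.trans ?_
        apply div_le_div_of_nonneg_right _ (by norm_num)
        linarith only [h6, h8]
      exact le_of_mul_le_mul_left h9 (by linarith only [hB', hB2])
    · have h5 : (Z.b : ℝ) ≤ G.b := by exact_mod_cast h1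
      linarith only [z2, h5]
  · rcases h2 with ⟨h2, h5⟩ | h2
    · have h6 : (G.c : ℝ) * B0 ≤ c := by exact_mod_cast h2
      have h7 : (G.c : ℝ) ≤ 0 := by exact_mod_cast h5
      have h8 : (G.c : ℝ) * B ≤ G.c * B0 := mul_le_mul_of_nonpos_left hB2 h7
      have h9 : (B : ℝ) * ((G.c : ℝ) / 10000) ≤ B * y.im := by
        rw [mul_div_assoc']
        refine le_trans ?_ e3
        apply div_le_div_of_nonneg_right _ (by norm_num)
        linarith only [h6, h8]
      exact le_of_mul_le_mul_left h9 (by linarith only [hB', hB2])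
    · have h5 : (G.c : ℝ) ≤ Z.c := by exact_mod_cast h2
      linarith only [z3, h5]

/-- the check of the regions, 7 crossings -/
theorem im7_ok : ∀ τ τ' : NT, (τ.one || τ'.one) = true →
    im7 ((7 + τ'.us + τ.us : ℕ) : ℤ) (q7 τ') (q7 τ) ⟨970, 1500, -400, 0⟩ (g7 τ) = true := by
  intro τ τ'
  cases τ <;> cases τ' <;> decide

/-- the check of the regions, at least 8 crossings -/
theorem im8_ok : ∀ τ τ' : NT, (τ.one || τ'.one) = true →
    im8 ((8 + τ'.us + τ.us : ℕ) : ℤ) ((q8 τ').1 + (q8 τ).1 - 10000) ((q8 τ').2 + (q8 τ).2)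
      ⟨0, 1550, -360, 0⟩ (g8 τ) = true := by
  intro τ τ'
  cases τ <;> cases τ' <;> decide

/-- the check of the regions of the ends, at least 8 crossings -/
theorem ie8_ok : ∀ τ : NT, τ.one = true →
    im8 ((8 + τ.us : ℕ) : ℤ) (q8 τ).1 (q8 τ).2 ⟨0, 1550, -172, 0⟩ (h8 τ) = true := by
  intro τ
  cases τ <;> decide

section
variable {K : KFam} (hK : KOK K) (h0 : K.Le K0) {x : SK} {d : ℕ} {l : SK} {d' : ℕ} {l' : SK}
  {w k : ℂ}
include hK h0

/-- the boxes of the terms, 7 crossings -/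
theorem q7_of {τ : NT} (h : HDt K x 7 l d' l' (RR w k) (Complex.cos w) k) (w0 : 0 < w.re)
    (w1 : w.re < 3 / 2) (hτ : τ.Is x d' l') (hz : QB 970 1500 (-400) 0 (-zeta w)) :
    (q7 τ).In (yQ (QQ w k)) := by
  have r := qr_of (HDt.mono h0 h) (by unfold crs; omega) w0 w1
  have hx := NT.is_x hτ
  have ho := in_k8 hK h.ok.left (by norm_num) h.ok.ne
  have hn := NT.inn hK hτ h.ok.right.symm
  have hL : OR x d' (crs d' x l') l' τ.L := NT.or hτ
  subst hx
  cases τ
  · exact qb_of_b r (tuseQ hK h w0 w1 rfl q7_u (zi4 hz (by norm_num) (by norm_num)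
      (by norm_num) (by norm_num)) ho hn hL) (by norm_num) (by norm_num)
  · exact qb_of r (tuseQ hK h w0 w1 rfl q7_a1 (zi4 hz (by norm_num) (by norm_num)
      (by norm_num) (by norm_num)) ho hn hL) (by norm_num) (by norm_num)
  · exact qb_of r (tuseQ hK h w0 w1 rfl q7_s1 (zi4 hz (by norm_num) (by norm_num)
      (by norm_num) (by norm_num)) ho hn hL) (by norm_num) (by norm_num)
  · exact qb_of r (tuseQ hK h w0 w1 rfl q7_a2 (zi4 hz (by norm_num) (by norm_num)
      (by norm_num) (by norm_num)) ho hn hL) (by norm_num) (by norm_num)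
  · exact qb_of r (tuseQ hK h w0 w1 rfl q7_s2 (zi4 hz (by norm_num) (by norm_num)
      (by norm_num) (by norm_num)) ho hn hL) (by norm_num) (by norm_num)
  · exact qb_of r (tuseQ hK h w0 w1 rfl q7_e2 (zi4 hz (by norm_num) (by norm_num)
      (by norm_num) (by norm_num)) ho hn hL) (by norm_num) (by norm_num)
  · exact qb_of_b r (tuseQ hK h w0 w1 rfl q7_p2a (zi4 hz (by norm_num) (by norm_num)
      (by norm_num) (by norm_num)) ho hn hL) (by norm_num) (by norm_num)
  · exact qb_of_b r (tuseQ hK h w0 w1 rfl q7_p2s (zi4 hz (by norm_num) (by norm_num)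
      (by norm_num) (by norm_num)) ho hn hL) (by norm_num) (by norm_num)
  · exact qb_of_b r (tuseQ hK h w0 w1 rfl q7_p2e (zi4 hz (by norm_num) (by norm_num)
      (by norm_num) (by norm_num)) ho hn hL) (by norm_num) (by norm_num)
  · exact qb_of_b r (tuseQ hK h w0 w1 rfl q7_p3a (zi4 hz (by norm_num) (by norm_num)
      (by norm_num) (by norm_num)) ho hn hL) (by norm_num) (by norm_num)
  · exact qb_of_b r (tuseQ hK h w0 w1 rfl q7_p3s (zi4 hz (by norm_num) (by norm_num)
      (by norm_num) (by norm_num)) ho hn hL) (by norm_num) (by norm_num)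
  · exact qb_of_b r (tuseQ hK h w0 w1 rfl q7_p3e (zi4 hz (by norm_num) (by norm_num)
      (by norm_num) (by norm_num)) ho hn hL) (by norm_num) (by norm_num)
  · exact qb_of_a r (tuseQ hK h w0 w1 rfl q7_pZ (zi4 hz (by norm_num) (by norm_num)
      (by norm_num) (by norm_num)) ho hn hL) (by norm_num)
  · exact qb_of r (tuseQ hK h w0 w1 rfl q7_pS (zi4 hz (by norm_num) (by norm_num)
      (by norm_num) (by norm_num)) ho hn hL) (by norm_num) (by norm_num)

/-- the bounds of the terms, at least 8 crossings -/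
theorem q8_of {τ : NT} (hd : 8 ≤ d) (h : HDt K x d l d' l' (RR w k) (Complex.cos w) k)
    (w0 : 0 < w.re) (w1 : w.re < 3 / 2) (hτ : τ.Is x d' l')
    (hz : QB 0 1550 (-360) 0 (-zeta w)) : QU (q8 τ).1 (q8 τ).2 (yQ (QQ w k)) := by
  have r := qr_of (HDt.mono h0 h) (by unfold crs; omega) w0 w1
  have hx := NT.is_x hτ
  have ho := in_k8 hK h.ok.left (by omega) h.ok.ne
  have hn := NT.inn hK hτ h.ok.right.symm
  have hL : OR x d' (crs d' x l') l' τ.L := NT.or hτ
  subst hx
  cases τ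
  · exact ql_of r (tuseQ hK h w0 w1 rfl q8_u (zi2 hz (by norm_num) (by norm_num)) ho hn hL)
  · exact qu_of r (tuseQ hK h w0 w1 rfl q8_a1 (zi2 hz (by norm_num) (by norm_num)) ho hn hL)
      (by norm_num)
  · exact qu_of r (tuseQ hK h w0 w1 rfl q8_s1 (zi2 hz (by norm_num) (by norm_num)) ho hn hL)
      (by norm_num)
  · exact qu_of r (tuseQ hK h w0 w1 rfl q8_a2 (zi2 hz (by norm_num) (by norm_num)) ho hn hL)
      (by norm_num)
  · exact qu_of r (tuseQ hK h w0 w1 rfl q8_s2 (zi2 hz (by norm_num) (by norm_num)) ho hn hL)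
      (by norm_num)
  · exact qu_of r (tuseQ hK h w0 w1 rfl q8_e2 (zi2 hz (by norm_num) (by norm_num)) ho hn hL)
      (by norm_num)
  · exact ql_of r (tuseQ hK h w0 w1 rfl q8_p2a (zi2 hz (by norm_num) (by norm_num)) ho hn hL)
  · exact ql_of r (tuseQ hK h w0 w1 rfl q8_p2s (zi2 hz (by norm_num) (by norm_num)) ho hn hL)
  · exact ql_of r (tuseQ hK h w0 w1 rfl q8_p2e (zi2 hz (by norm_num) (by norm_num)) ho hn hL)
  · exact ql_of r (tuseQ hK h w0 w1 rfl q8_p3a (zi2 hz (by norm_num) (by norm_num)) ho hn hL)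
  · exact ql_of r (tuseQ hK h w0 w1 rfl q8_p3s (zi2 hz (by norm_num) (by norm_num)) ho hn hL)
  · exact ql_of r (tuseQ hK h w0 w1 rfl q8_p3e (zi2 hz (by norm_num) (by norm_num)) ho hn hL)
  · exact ql_of r (tuseQ hK h w0 w1 rfl q8_pZ (zi2 hz (by norm_num) (by norm_num)) ho hn hL)
  · exact qu_of r (tuseQ hK h w0 w1 rfl q8_pS (zi2 hz (by norm_num) (by norm_num)) ho hn hL)
      (by norm_num)

end

section
variable {K : KFam} (hK : KOK K) (h0 : K.Le K0) {d : ℕ} {l x : SK} {dl : ℕ} {ll : SK} {dr : ℕ}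
  {rr : SK} {w kl kr : ℂ}
include hK h0

/-- the region of the ring variable, 7 crossings -/
theorem g7_of {τ τ' : NT} (t : RDt K 7 l x dl ll dr rr w kl kr) (hτ : τ.Is x dr rr)
    (hτ' : τ'.Is l dl ll) (h1 : (τ.one || τ'.one) = true)
    (hz : QB 970 1500 (-400) 0 (-zeta w)) : (g7 τ).In (-zeta w) := by
  have ql := q7_of hK h0 t.left t.w0 t.w1 hτ' hz
  have qr := q7_of hK h0 t.right t.w0 t.w1 hτ hz
  have hB : crs 7 l x = 7 + τ'.us + τ.us := by
    rw [NT.us_eq, NT.us_eq, ← NT.is_x hτ, ← NT.is_x hτ']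
    rfl
  exact im7_use (by omega) (im7_ok τ τ' h1) hz (QB.ring t ql qr hB)

/-- the region of the ring variable, at least 8 crossings -/
theorem g8_of {τ τ' : NT} (hd : 8 ≤ d) (t : RDt K d l x dl ll dr rr w kl kr) (hτ : τ.Is x dr rr)
    (hτ' : τ'.Is l dl ll) (h1 : (τ.one || τ'.one) = true)
    (hz : QB 0 1550 (-360) 0 (-zeta w)) : (g8 τ).In (-zeta w) := by
  have ql := q8_of hK h0 hd t.left t.w0 t.w1 hτ' hz
  have qr := q8_of hK h0 hd t.right t.w0 t.w1 hτ hz
  have hB : 8 + τ'.us + τ.us ≤ crs d l x := by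
    rw [NT.us_eq, NT.us_eq, ← NT.is_x hτ, ← NT.is_x hτ']
    unfold crs
    omega
  have e0 := ring_rel t
  have e1 := congrArg Complex.re e0
  have e2 := congrArg Complex.im e0
  rw [Complex.mul_re, Complex.natCast_re, Complex.natCast_im, zero_mul, sub_zero, Complex.sub_re,
    Complex.add_re, Complex.one_re] at e1
  rw [Complex.mul_im, Complex.natCast_re, Complex.natCast_im, zero_mul, add_zero, Complex.sub_im,
    Complex.add_im, Complex.one_im] at e2
  refine im8_use (by omega) hB (im8_ok τ τ' h1) hz ?_ ?_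
  · rw [e1]
    have := ql.b
    have := qr.b
    push_cast
    linarith
  · rw [e2]
    have := ql.c
    have := qr.c
    push_cast
    linarith

/-- the region of the ring variable of an end, at least 8 crossings -/
theorem h8_of {τ : NT} (hd : 8 ≤ d) (t : RDe K d x dr rr w kr) (hτ : τ.Is x dr rr)
    (h1 : τ.one = true) (hz : QB 0 1550 (-172) 0 (-zeta w)) : (h8 τ).In (-zeta w) := by
  have hz' : QB 0 1550 (-360) 0 (-zeta w) :=
    ⟨hz.a, hz.b, by have := hz.c; norm_num at this ⊢; linarith only [this], hz.e⟩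
  have qr := q8_of hK h0 hd t.right t.w0 t.w1 hτ hz'
  have hB : 8 + τ.us ≤ crs d .e x := by
    rw [NT.us_eq, ← NT.is_x hτ]
    unfold crs
    omega
  have e0 := end_rel t
  have e1 := congrArg Complex.re e0
  have e2 := congrArg Complex.im e0
  rw [Complex.mul_re, Complex.natCast_re, Complex.natCast_im, zero_mul, sub_zero] at e1
  rw [Complex.mul_im, Complex.natCast_re, Complex.natCast_im, zero_mul, add_zero] at e2
  exact im8_use (by omega) hB (ie8_ok τ h1) hz (by rw [e1]; exact qr.b) (by rw [e2]; exact qr.c)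

end

/-! ### windows -/

/-- windows, 7 crossings, by the type of the side -/
def rw7 (τ : NT) : R4 := if τ.one then rc7 τ.C else rd7 τ.C

/-- windows, at least 8 crossings, by the type of the side -/
def rw8 (τ : NT) : R4 := if τ.one then rc8 τ.C else rd8 τ.C

lemma wq_of {x0 x1 m1 c1 m3 : ℕ} {cr s0 s1 r0 r1 q1 a b c e : ℤ} {t0 t1 q0 : ℤ}
    {a1 b1 a2 b2 e1 e2 a5 b5 e6 : ℤ} {y z : ℂ} {A : Prop}
    (h : (∀ g ∈ [GC.arc 0 x0 a1 b1, .arc x1 m1 a2 b2, .lo t0 e1, .hi t1 e2], g.P y) ∧ A ∧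
      (∀ g ∈ [GC.arc c1 m3 a5 b5, .hi (-q0) e6], g.P (y - z))) (hg : QB a b c e (-z))
    (rg : Rg y z) (h1 : 4000 ≤ m1) (h3 : 6500 ≤ m3)
    (k : s0 ≤ a ∧ b ≤ s1 ∧ -r1 ≤ c ∧ e ≤ -r0 ∧ -c - t0 ≤ q1 ∧ (c1 : ℤ) + e ≤ cr) :
    (mk4 x0 x1 s0 s1 q0 q1 r0 r1 t0 t1 c1 cr).In y z := by
  obtain ⟨hy, -, hu⟩ := h
  obtain ⟨k1, k2, k3, k4, k5, k6⟩ := k
  have m1' : (4000 : ℝ) ≤ m1 := by exact_mod_cast h1
  have m3' : (6500 : ℝ) ≤ m3 := by exact_mod_cast h3
  have k1' : (s0 : ℝ) ≤ a := by exact_mod_cast k1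
  have k2' : (b : ℝ) ≤ s1 := by exact_mod_cast k2
  have k3' : (-r1 : ℝ) ≤ c := by exact_mod_cast k3
  have k4' : (e : ℝ) ≤ -r0 := by exact_mod_cast k4
  have k5' : (-c - t0 : ℝ) ≤ q1 := by exact_mod_cast k5
  have k6' : (c1 + e : ℝ) ≤ cr := by exact_mod_cast k6
  have ya := arc_lb (hy (.arc 0 x0 a1 b1) (by simp)) (by simpa using rg.y0)
  have yb := arc_ub (hy (.arc x1 m1 a2 b2) (by simp)) (by linarith only [m1', rg, rg.y1])
  have yc : (t0 : ℝ) / 10000 ≤ y.im := hy (.lo t0 e1) (by simp)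
  have yd : y.im ≤ (t1 : ℝ) / 10000 := hy (.hi t1 e2) (by simp)
  have ua := arc_ub (hu (.arc c1 m3 a5 b5) (by simp)) (by
    rw [Complex.sub_re]; linarith only [m3', rg, rg.z1, rg.y1])
  have uc : (y - z).im ≤ ((-q0 : ℤ) : ℝ) / 10000 := hu (.hi (-q0) e6) (by simp)
  have z1 := hg.a
  have z2 := hg.b
  have z3 := hg.c
  have z4 := hg.e
  rw [Complex.neg_re] at z1 z2
  rw [Complex.neg_im] at z3 z4
  rw [Complex.sub_re] at ua
  rw [Complex.sub_im] at uc
  push_cast at uc
  refine ⟨?_, ?_, ?_, ?_, ?_, ?_, ?_, ?_, ?_, ?_, ?_, ?_⟩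
  · simp only [mk4]
    push_cast
    linarith only [ya]
  · simp only [mk4]
    push_cast
    linarith only [yb]
  · simp only [mk4]
    push_cast
    linarith only [k1', z1]
  · simp only [mk4]
    push_cast
    linarith only [k2', z2]
  · simp only [mk4]
    push_cast
    linarith only [uc]
  · simp only [mk4]
    push_cast
    linarith only [k5', yc, z3]
  · simp only [mk4]
    push_cast
    linarith only [k4', z4]
  · simp only [mk4]
    push_cast
    linarith only [k3', z3]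
  · simp only [mk4]
    push_cast
    linarith only [yc]
  · simp only [mk4]
    push_cast
    linarith only [yd]
  · simp only [mk4]
    push_cast
    linarith only [ua]
  · simp only [mk4]
    push_cast
    linarith only [k6', ua, z4]

lemma wr_of {x0 x1 m1 c1 m3 : ℕ} {cr s0 s1 q0 r0 r1 q1 a b c e : ℤ} {t0 t1 : ℤ}
    {a1 b1 a2 b2 e1 e2 a5 b5 : ℤ} {y z : ℂ} {A : Prop}
    (h : (∀ g ∈ [GC.arc 0 x0 a1 b1, .arc x1 m1 a2 b2, .lo t0 e1, .hi t1 e2], g.P y) ∧ A ∧
      (∀ g ∈ [GC.arc c1 m3 a5 b5], g.P (y - z))) (hg : QB a b c e (-z))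
    (rg : Rg y z) (h1 : 4000 ≤ m1) (h3 : 6500 ≤ m3)
    (k : s0 ≤ a ∧ b ≤ s1 ∧ -r1 ≤ c ∧ e ≤ -r0 ∧ -c - t0 ≤ q1 ∧ q0 ≤ -e - t1 ∧ (c1 : ℤ) + e ≤ cr) :
    (mk4 x0 x1 s0 s1 q0 q1 r0 r1 t0 t1 c1 cr).In y z := by
  obtain ⟨hy, -, hu⟩ := h
  obtain ⟨k1, k2, k3, k4, k5, k7, k6⟩ := k
  have m1' : (4000 : ℝ) ≤ m1 := by exact_mod_cast h1
  have m3' : (6500 : ℝ) ≤ m3 := by exact_mod_cast h3
  have k1' : (s0 : ℝ) ≤ a := by exact_mod_cast k1
  have k2' : (b : ℝ) ≤ s1 := by exact_mod_cast k2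
  have k3' : (-r1 : ℝ) ≤ c := by exact_mod_cast k3
  have k4' : (e : ℝ) ≤ -r0 := by exact_mod_cast k4
  have k5' : (-c - t0 : ℝ) ≤ q1 := by exact_mod_cast k5
  have k7' : (q0 : ℝ) ≤ -e - t1 := by exact_mod_cast k7
  have k6' : (c1 + e : ℝ) ≤ cr := by exact_mod_cast k6
  have ya := arc_lb (hy (.arc 0 x0 a1 b1) (by simp)) (by simpa using rg.y0)
  have yb := arc_ub (hy (.arc x1 m1 a2 b2) (by simp)) (by linarith only [m1', rg, rg.y1])
  have yc : (t0 : ℝ) / 10000 ≤ y.im := hy (.lo t0 e1) (by simp)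
  have yd : y.im ≤ (t1 : ℝ) / 10000 := hy (.hi t1 e2) (by simp)
  have ua := arc_ub (hu (.arc c1 m3 a5 b5) (by simp)) (by
    rw [Complex.sub_re]; linarith only [m3', rg, rg.z1, rg.y1])
  have z1 := hg.a
  have z2 := hg.b
  have z3 := hg.c
  have z4 := hg.e
  rw [Complex.neg_re] at z1 z2
  rw [Complex.neg_im] at z3 z4
  rw [Complex.sub_re] at ua
  refine ⟨?_, ?_, ?_, ?_, ?_, ?_, ?_, ?_, ?_, ?_, ?_, ?_⟩
  · simp only [mk4]
    push_cast
    linarith only [ya]
  · simp only [mk4]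
    push_cast
    linarith only [yb]
  · simp only [mk4]
    push_cast
    linarith only [k1', z1]
  · simp only [mk4]
    push_cast
    linarith only [k2', z2]
  · simp only [mk4]
    push_cast
    linarith only [k7', yd, z4]
  · simp only [mk4]
    push_cast
    linarith only [k5', yc, z3]
  · simp only [mk4]
    push_cast
    linarith only [k4', z4]
  · simp only [mk4]
    push_cast
    linarith only [k3', z3]
  · simp only [mk4]
    push_cast
    linarith only [yc]
  · simp only [mk4]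
    push_cast
    linarith only [yd]
  · simp only [mk4]
    push_cast
    linarith only [ua]
  · simp only [mk4]
    push_cast
    linarith only [k6', ua, z4]

section
variable {K : KFam} (hK : KOK K) {x : SK} {d : ℕ} {l : SK} {d' : ℕ} {l' : SK} {w R k' : ℂ}
include hK

/-- **the windows, 7 crossings** -/
theorem rw7_of {τ : NT} (t : TDt K x 7 l d' l' w R k') (hτ : τ.Is x d' l')
    (hr : τ.ring = false) (hg : (g7 τ).In (-zeta w))
    (rg : Rg (yH x R (Complex.cos w)) (zeta w)) :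
    (rw7 τ).In (yH x R (Complex.cos w)) (zeta w) := by
  have hx := NT.is_x hτ
  have ho := in_k8 hK t.h.ok.left (by norm_num) t.h.ok.ne
  have hn := NT.inn hK hτ t.h.ok.right.symm
  have hL : OR x d' (crs d' x l') l' τ.L := NT.or hτ
  subst hx
  cases τ
  · exact wq_of (tuseZ hK t rfl rfl w7_u (by decide) mn (zi4 hg (by norm_num [g7])
      (by norm_num [g7]) (by norm_num [g7]) (by norm_num [g7])) ho hn OL.nil hL) hg rg (by norm_num)
      (by norm_num) (by decide)
  · exact wq_of (tuseZ hK t rfl rfl w7_a1 (by decide) mn (zi4 hg (by norm_num [g7])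
      (by norm_num [g7]) (by norm_num [g7]) (by norm_num [g7])) ho hn OL.nil hL) hg rg (by norm_num)
      (by norm_num) (by decide)
  · exact wq_of (tuseZ hK t rfl rfl w7_s1 (by decide) mn (zi4 hg (by norm_num [g7])
      (by norm_num [g7]) (by norm_num [g7]) (by norm_num [g7])) ho hn OL.nil hL) hg rg (by norm_num)
      (by norm_num) (by decide)
  · exact wq_of (tuseZ hK t rfl rfl w7_a2 (by decide) mn (zi4 hg (by norm_num [g7])
      (by norm_num [g7]) (by norm_num [g7]) (by norm_num [g7])) ho hn OL.nil hL) hg rg (by norm_num)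
      (by norm_num) (by decide)
  · exact wq_of (tuseZ hK t rfl rfl w7_s2 (by decide) mn (zi4 hg (by norm_num [g7])
      (by norm_num [g7]) (by norm_num [g7]) (by norm_num [g7])) ho hn OL.nil hL) hg rg (by norm_num)
      (by norm_num) (by decide)
  · exact wq_of (tuseZ hK t rfl rfl w7_e2 (by decide) mn (zi4 hg (by norm_num [g7])
      (by norm_num [g7]) (by norm_num [g7]) (by norm_num [g7])) ho hn OL.nil hL) hg rg (by norm_num)
      (by norm_num) (by decide)
  · exact wq_of (tuseZ hK t rfl rfl w7_p2a (by decide) mn (zi4 hg (by norm_num [g7])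
      (by norm_num [g7]) (by norm_num [g7]) (by norm_num [g7])) ho hn OL.nil hL) hg rg (by norm_num)
      (by norm_num) (by decide)
  · exact wq_of (tuseZ hK t rfl rfl w7_p2s (by decide) mn (zi4 hg (by norm_num [g7])
      (by norm_num [g7]) (by norm_num [g7]) (by norm_num [g7])) ho hn OL.nil hL) hg rg (by norm_num)
      (by norm_num) (by decide)
  · exact wq_of (tuseZ hK t rfl rfl w7_p2e (by decide) mn (zi4 hg (by norm_num [g7])
      (by norm_num [g7]) (by norm_num [g7]) (by norm_num [g7])) ho hn OL.nil hL) hg rg (by norm_num)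
      (by norm_num) (by decide)
  · exact wq_of (tuseZ hK t rfl rfl w7_p3a (by decide) mn (zi4 hg (by norm_num [g7])
      (by norm_num [g7]) (by norm_num [g7]) (by norm_num [g7])) ho hn OL.nil hL) hg rg (by norm_num)
      (by norm_num) (by decide)
  · exact wq_of (tuseZ hK t rfl rfl w7_p3s (by decide) mn (zi4 hg (by norm_num [g7])
      (by norm_num [g7]) (by norm_num [g7]) (by norm_num [g7])) ho hn OL.nil hL) hg rg (by norm_num)
      (by norm_num) (by decide)
  · exact wq_of (tuseZ hK t rfl rfl w7_p3e (by decide) mn (zi4 hg (by norm_num [g7])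
      (by norm_num [g7]) (by norm_num [g7]) (by norm_num [g7])) ho hn OL.nil hL) hg rg (by norm_num)
      (by norm_num) (by decide)
  · exact absurd hr (by decide)
  · exact absurd hr (by decide)

/-- **the windows, at least 8 crossings** -/
theorem rw8_of {τ : NT} (hd : 8 ≤ d) (t : TDt K x d l d' l' w R k') (hτ : τ.Is x d' l')
    (hr : τ.ring = false) (hg : (g8 τ).In (-zeta w))
    (rg : Rg (yH x R (Complex.cos w)) (zeta w)) :
    (rw8 τ).In (yH x R (Complex.cos w)) (zeta w) := by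
  have hx := NT.is_x hτ
  have ho := in_k8 hK t.h.ok.left (by omega) t.h.ok.ne
  have hn := NT.inn hK hτ t.h.ok.right.symm
  have hL : OR x d' (crs d' x l') l' τ.L := NT.or hτ
  subst hx
  cases τ
  · exact wr_of (tuseZ hK t rfl rfl w8_u (by decide) mn (zi2 hg (by norm_num [g8])
      (by norm_num [g8])) ho hn OL.nil hL) hg rg (by norm_num) (by norm_num) (by decide)
  · exact wr_of (tuseZ hK t rfl rfl w8_a1 (by decide) mn (zi2 hg (by norm_num [g8])
      (by norm_num [g8])) ho hn OL.nil hL) hg rg (by norm_num) (by norm_num) (by decide)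
  · exact wr_of (tuseZ hK t rfl rfl w8_s1 (by decide) mn (zi2 hg (by norm_num [g8])
      (by norm_num [g8])) ho hn OL.nil hL) hg rg (by norm_num) (by norm_num) (by decide)
  · exact wr_of (tuseZ hK t rfl rfl w8_a2 (by decide) mn (zi2 hg (by norm_num [g8])
      (by norm_num [g8])) ho hn OL.nil hL) hg rg (by norm_num) (by norm_num) (by decide)
  · exact wr_of (tuseZ hK t rfl rfl w8_s2 (by decide) mn (zi2 hg (by norm_num [g8])
      (by norm_num [g8])) ho hn OL.nil hL) hg rg (by norm_num) (by norm_num) (by decide)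
  · exact wr_of (tuseZ hK t rfl rfl w8_e2 (by decide) mn (zi2 hg (by norm_num [g8])
      (by norm_num [g8])) ho hn OL.nil hL) hg rg (by norm_num) (by norm_num) (by decide)
  · exact wr_of (tuseZ hK t rfl rfl w8_p2a (by decide) mn (zi2 hg (by norm_num [g8])
      (by norm_num [g8])) ho hn OL.nil hL) hg rg (by norm_num) (by norm_num) (by decide)
  · exact wr_of (tuseZ hK t rfl rfl w8_p2s (by decide) mn (zi2 hg (by norm_num [g8])
      (by norm_num [g8])) ho hn OL.nil hL) hg rg (by norm_num) (by norm_num) (by decide)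
  · exact wr_of (tuseZ hK t rfl rfl w8_p2e (by decide) mn (zi2 hg (by norm_num [g8])
      (by norm_num [g8])) ho hn OL.nil hL) hg rg (by norm_num) (by norm_num) (by decide)
  · exact wr_of (tuseZ hK t rfl rfl w8_p3a (by decide) mn (zi2 hg (by norm_num [g8])
      (by norm_num [g8])) ho hn OL.nil hL) hg rg (by norm_num) (by norm_num) (by decide)
  · exact wr_of (tuseZ hK t rfl rfl w8_p3s (by decide) mn (zi2 hg (by norm_num [g8])
      (by norm_num [g8])) ho hn OL.nil hL) hg rg (by norm_num) (by norm_num) (by decide)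
  · exact wr_of (tuseZ hK t rfl rfl w8_p3e (by decide) mn (zi2 hg (by norm_num [g8])
      (by norm_num [g8])) ho hn OL.nil hL) hg rg (by norm_num) (by norm_num) (by decide)
  · exact absurd hr (by decide)
  · exact absurd hr (by decide)

end

end

end Pool.Agent.Work.MP_b30479_gt.G2.CN.TD
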